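import Pool.Agent.H5.SW.Ds
import Pool.Agent.H5.SW.L3
import Pool.Agent.H10.Star

/-!
Interfaces between the blocks of MP_78d38b_T3 (helper55; no row).

* block R (real side): `NV3 p k0` and a tower datum `Tw p m n K L M F`, `k0 ≤ m + 1`, give `NoNewCube K L`.
* block S (Stickelberger): `Stick N C` for every cyclotomic field `C` of conductor `N`.
* block M (minus side): `NV3 p k0` and `Stick (3 * p ^ (n + 1)) C`, `k0 ≤ m + 1`, give `NoNewC p m n hmn C`.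
* `sinnott3`: `NV3 p k0` holds for some `k0` for every prime `p ≥ 5`.
* block D (descent): everything else.
-/

set_option autoImplicit false
open scoped Classical Pointwise

open IsDedekindDomain NumberField Finset

namespace H55T3

/-- `X / (1 - X)^2` -/
def Fr3 {Ω : Type*} [Field Ω] (x : Ω) : Ω := x / (1 - x) ^ 2

/-- the sum `T(χ)` over a half system -/
noncomputable def Tc3 {f : ℕ} [NeZero f] {Ω : Type*} [Field Ω] (χ : (ZMod f)ˣ →* Ωˣ) (z : Ω) : Ω :=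
  ∑ u ∈ H5SW.Hf f, (χ u : Ω) * Fr3 (z ^ (u : ZMod f).val)

/-- non vanishing in characteristic three from level `k0` on -/
def NV3 (p k0 : ℕ) [Fact p.Prime] : Prop :=
  ∀ k ≥ k0, ∀ (Ω : Type) [Field Ω] [CharP Ω 3] (z : Ω), IsPrimitiveRoot z (p ^ (k + 1)) →
      ∀ χ : (ZMod (p ^ (k + 1)))ˣ →* Ωˣ, χ (-1) = 1 → H5SW.Prim χ → Tc3 χ z ≠ 0

/-- No new elements which are locally cubes up to unramified extensions. -/
def NoNewCube (K L : Type) [Field K] [NumberField K] [Field L] [NumberField L] [Algebra K L] : Prop :=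
  ∀ x : L, x ≠ 0 → (∀ w : HeightOneSpectrum (𝓞 L), (3 : ℤ) ∣ WithZero.log (w.valuation L x)) →
    (∀ w : HeightOneSpectrum (𝓞 L), (3 : 𝓞 L) ∈ w.asIdeal →
      ∃ t : L, w.valuation L (x * t ^ 3 - 1) ≤ w.valuation L 9) →
    (∃ y : K, Algebra.norm K x = y ^ 3) → ∃ y : L, x = y ^ 3

/-- the residue `0 < t < N` with `g ζ = ζ ^ t` -/
noncomputable def tt (N : ℕ) [NeZero N] (C : Type) [Field C] [NumberField C]
    [IsCyclotomicExtension {N} ℚ C] (g : C ≃ₐ[ℚ] C) : ℕ :=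
  ((IsCyclotomicExtension.Rat.galEquivZMod N C g : (ZMod N)ˣ) : ZMod N).val

/-- Stickelberger's relations: `∑_t ⌊c t / N⌋ σ_t⁻¹` kills the class group. -/
def Stick (N : ℕ) [NeZero N] (C : Type) [Field C] [NumberField C] [IsCyclotomicExtension {N} ℚ C] :
    Prop :=
  ∀ c : ℕ, 1 < c → c < N → c.Coprime N → ∀ I : Ideal (𝓞 C), I ≠ ⊥ →
    (∏ g : C ≃ₐ[ℚ] C, (g⁻¹ • I) ^ (c * tt N C g / N)).IsPrincipal

instance neZero_cond (p n : ℕ) [hp : Fact p.Prime] : NeZero (3 * p ^ (n + 1)) :=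
  ⟨mul_ne_zero three_ne_zero (pow_ne_zero _ hp.out.ne_zero)⟩

/-- `κ g mod 3 p^(n+1)`, `g ζ = ζ ^ κ g` -/
noncomputable abbrev kap (p n : ℕ) [Fact p.Prime] (C : Type) [Field C] [NumberField C]
    [IsCyclotomicExtension {3 * p ^ (n + 1)} ℚ C] (g : C ≃ₐ[ℚ] C) : (ZMod (3 * p ^ (n + 1)))ˣ :=
  IsCyclotomicExtension.Rat.galEquivZMod (3 * p ^ (n + 1)) C g

/-- `g ∈ H`, the group of the `σ_t` with `t ≡ 1 mod 3 p^(m+1)` -/
def InH (p m n : ℕ) [Fact p.Prime] (hmn : m ≤ n) (C : Type) [Field C] [NumberField C]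
    [IsCyclotomicExtension {3 * p ^ (n + 1)} ℚ C] (g : C ≃ₐ[ℚ] C) : Prop :=
  ZMod.unitsMap (Nat.mul_dvd_mul_left 3 (pow_dvd_pow p (Nat.succ_le_succ hmn))) (kap p n C g) = 1

/-- `C = ℚ(ζ)`, `ζ` of order `3 p^(n+1)`: an element `e ∈ C*` with all valuations divisible by three, with norm over
the fixed field of `H` a cube, with `τ₀ e ≡ e`, `e ē ≡ 1` modulo cubes (`τ₀ ≡ -1 mod p^(n+1)`, `≡ 1 mod 3`), is a cube. -/
def NoNewC (p m n : ℕ) [Fact p.Prime] (hmn : m ≤ n) (C : Type) [Field C] [NumberField C]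
    [IsCyclotomicExtension {3 * p ^ (n + 1)} ℚ C] : Prop :=
  ∀ e : C, e ≠ 0 → (∀ w : HeightOneSpectrum (𝓞 C), (3 : ℤ) ∣ WithZero.log (w.valuation C e)) →
    (∃ y, ∏ g ∈ univ.filter (fun g => InH p m n hmn C g), g e = y ^ 3) →
    (∀ g : C ≃ₐ[ℚ] C, ZMod.unitsMap (Dvd.intro_left 3 rfl) (kap p n C g) = (-1 : (ZMod (p ^ (n + 1)))ˣ) →
      ZMod.unitsMap (Dvd.intro _ rfl) (kap p n C g) = (1 : (ZMod 3)ˣ) → ∃ y, g e = e * y ^ 3) →
    (∀ g : C ≃ₐ[ℚ] C, kap p n C g = -1 → ∃ y, e * g e = y ^ 3) → ∃ y, e = y ^ 3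

end H55T3
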