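import Pool.Agent.H55.T3.GDf

/-!
Row Wb (about 200 lines, mostly a copy): `vb` of Vb.lean with coefficients `a b : F`, `V a < 1`, `V b = 1`, and with the sharper conclusion `Cls2`.

PROOF. V a < 1 gives a = 3 a1 with V a1 ≤ 1 (a1 = a / 3, V 3 = exp (-1), le_exp_neg_one). Copy the proof of `vb` (and Vb_main) in Vb.lean with c1 = b + 12 a1^3, V c1 = 1: the second alternative occurs with q = 1, q = 1/(18 c1) or q = 18 c1, and 18 c1 = 2 (9 b + 4 a^3).
So one gets the second or the third alternative of `Cls2`.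
-/

set_option autoImplicit false
open scoped Classical

open WeierstrassCurve IsDedekindDomain NumberField WithZero Pool.Agent.H10

namespace H55T3

theorem Wb_main {F : Type*} [Field F] {V : Valuation F (WithZero (Multiplicative ℤ))}
    (h3 : V 3 = exp (-1 : ℤ)) {a1 c1 : F} {d x y g U v : F} (hd : d ≠ 0)
    (ha1 : V a1 ≤ 1) (hc1 : V c1 = 1) (hx : x = U * v) (hg : g = a1 * x + c1)
    (h1 : d * v ^ 3 = y + 9 * g) (h2 : U ^ 3 = d * (y - 9 * g)) :
    (∃ t : F, t ≠ 0 ∧ V (d * t ^ 3 - 1) ≤ exp (-2 : ℤ)) ∨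
    (∃ t : F, t ≠ 0 ∧ (V (d * t ^ 3 * (18 * c1) - 1) ≤ exp (-2 : ℤ) ∨
      V (d * t ^ 3 * (18 * c1)⁻¹ - 1) ≤ exp (-2 : ℤ))) := by
  have : CharZero F := Vb_charZero h3
  have h9 := Vb_nine h3
  have hV2 : V (2 : F) = 1 := by
    have := Vb_unit (V := V) h3 (n := 2) (by norm_num)
    exact_mod_cast this
  have hc0 : c1 ≠ 0 := by
    intro h
    rw [h, map_zero] at hc1
    exact zero_ne_one hc1
  have hy2 : y ^ 2 = x ^ 3 + 81 * g ^ 2 := by
    have e1 : (d * v ^ 3) * (d * (y - 9 * g)) = d * x ^ 3 := by
      rw [← h2, hx]; ring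
    have e2 : d * ((y + 9 * g) * (y - 9 * g)) = d * x ^ 3 := by
      rw [← e1, h1]; ring
    have e3 := mul_left_cancel₀ hd e2
    linear_combination e3
  have h81 : V (81 * g ^ 2) = exp (-4 : ℤ) * V g ^ 2 := by
    have e : (81 : F) = 9 * 9 := by norm_num
    rw [map_mul, map_pow, e, map_mul, h9, ← Vb_exp4]
  by_cases hA : 1 ≤ V x
  · -- case A
    have hgx : V g ≤ V x := by
      rw [hg]
      refine V_add_le ?_ (hc1.le.trans hA)
      rw [map_mul]
      exact mul_le_of_le_one_left' (ha1)
    have hx0 : x ≠ 0 := by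
      rintro rfl
      rw [map_zero] at hA
      exact absurd hA (not_le.2 one_pos)
    have hVx0 : 0 < V x := lt_of_lt_of_le one_pos hA
    have hlt : V (81 * g ^ 2) < V (x ^ 3) := by
      rw [h81, map_pow]
      calc exp (-4 : ℤ) * V g ^ 2 ≤ exp (-4 : ℤ) * V x ^ 2 :=
            mul_le_mul_right (pow_le_pow_left' hgx 2) _
        _ < 1 * V x ^ 2 := by
            refine mul_lt_mul_of_pos_right ?_ (pow_pos hVx0 2)
            rw [← exp_zero, exp_lt_exp]; norm_num
        _ ≤ V x ^ 3 := by
            rw [one_mul]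
            exact pow_le_pow_right₀ hA (by norm_num)
    have hVy : V (y ^ 2) = V (x ^ 3) := by
      rw [hy2]
      exact Valuation.map_add_eq_of_lt_left V hlt
    have hxy : V x ≤ V y := by
      by_contra h
      rw [not_le] at h
      have e : V y ^ 2 = V x ^ 3 := by rw [← map_pow, hVy, map_pow]
      have e2 : V y ^ 2 < V x ^ 2 := pow_lt_pow_left₀ h zero_le (by norm_num)
      have e3 : V x ^ 2 ≤ V x ^ 3 := pow_le_pow_right₀ hA (by norm_num)
      exact absurd (e2.trans_le e3) (by rw [e]; exact lt_irrefl _)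
    have hy0 : y ≠ 0 := by
      rintro rfl
      rw [map_zero] at hxy
      exact absurd hVx0 (not_lt.2 hxy)
    have hv0 : v ≠ 0 := by
      rintro rfl
      exact hx0 (by rw [hx, mul_zero])
    have hgy : V (g / y) ≤ 1 := by
      rw [map_div₀]
      exact div_le_one_of_le₀ (hgx.trans hxy) zero_le
    refine Or.inl ⟨v * x / y, div_ne_zero (mul_ne_zero hv0 hx0) hy0, ?_⟩
    have e : d * (v * x / y) ^ 3 - 1
        = 9 * ((g / y) * (1 - 9 * (g / y) - 81 * ((g / y) * (g / y)))) := by
      have e1 : d * (v * x / y) ^ 3 = (y + 9 * g) * (y ^ 2 - 81 * g ^ 2) / y ^ 3 := by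
        rw [← h1, hy2]
        field_simp
        ring
      rw [e1]
      field_simp
      ring
    rw [e, map_mul, h9]
    refine mul_le_of_le_one_right' (V_mul_le hgy ?_)
    have hi9 : V (9 : F) ≤ 1 := by exact_mod_cast V_int (V := V) 9
    have hi81 : V (81 : F) ≤ 1 := by exact_mod_cast V_int (V := V) 81
    exact V_sub_le (V_sub_le (map_one V).le (V_mul_le hi9 hgy))
      (V_mul_le hi81 (V_mul_le hgy hgy))
  · rw [not_le] at hA
    have hax : V (a1 * x) < 1 := V_mul_lt (ha1) hA
    have hVg : V g = 1 := by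
      rw [hg, ← hc1]
      exact Valuation.map_add_eq_of_lt_right V (by rw [hc1]; exact hax)
    rw [hVg, one_pow, mul_one] at h81
    have hA' := le_exp_neg_one hA
    rcases hA'.lt_or_eq with hC | hB
    · -- case C
      have hC2 : V x ≤ exp (-2 : ℤ) := by
        by_cases h0 : V x = 0
        · rw [h0]; exact zero_le
        · rw [← exp_log h0, exp_lt_exp] at hC
          rw [← exp_log h0, exp_le_exp]
          omega
      have hx3 : V (x ^ 3) ≤ exp (-6 : ℤ) := by
        rw [map_pow, Vb_exp6]
        exact pow_le_pow_left' hC2 3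
      have hVy : V (y ^ 2) = exp (-4 : ℤ) := by
        rw [hy2, ← h81]
        refine Valuation.map_add_eq_of_lt_right V ?_
        rw [h81]
        refine hx3.trans_lt ?_
        rw [exp_lt_exp]; norm_num
      have hn9 : (9 : F) ≠ 0 := by norm_num
      obtain ⟨y1, hy1⟩ : ∃ y1 : F, y = 9 * y1 := ⟨y / 9, by field_simp⟩
      have hVy1 : V y1 ≤ 1 := by
        have e : V (9 * y1) ^ 2 = exp (-4 : ℤ) := by rw [← hy1, ← map_pow, hVy]
        rw [map_mul, h9, mul_pow, pow_two, ← Vb_exp4] at e
        have e2 : V y1 ^ 2 = 1 := by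
          have h0 : (exp (-4 : ℤ) : WithZero (Multiplicative ℤ)) ≠ 0 := exp_ne_zero
          exact mul_left_cancel₀ h0 (by rw [e, mul_one])
        exact ((pow_eq_one_iff_of_nonneg zero_le (by norm_num)).1 e2).le
      have hprod : (y1 - g) * (y1 + g) = x ^ 3 / 81 := by
        have h81' : (81 : F) ≠ 0 := by norm_num
        rw [eq_div_iff h81']
        rw [hy1] at hy2
        linear_combination hy2
      have hprodV : V (y1 - g) * V (y1 + g) ≤ exp (-2 : ℤ) := by
        rw [← map_mul, hprod, map_div₀]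
        have e81 : V (81 : F) = exp (-4 : ℤ) := by
          have e : (81 : F) = 9 * 9 := by norm_num
          rw [e, map_mul, h9, ← Vb_exp4]
        rw [e81]
        refine (div_le_iff₀ (by rw [zero_lt_iff]; exact exp_ne_zero)).2 ?_
        rw [← exp_add]
        refine hx3.trans ?_
        rw [exp_le_exp]; norm_num
      have hm1 : V (y1 - g) ≤ 1 := V_sub_le hVy1 hVg.le
      have hp1 : V (y1 + g) ≤ 1 := V_add_le hVy1 hVg.le
      have hax2 : V (2 * (a1 * x)) ≤ exp (-2 : ℤ) := by
        rw [map_mul, hV2, one_mul, map_mul]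
        exact (mul_le_of_le_one_left' (ha1)).trans hC2
      by_cases hm : V (y1 - g) < 1
      · -- C1
        have hpe : V (y1 + g) = 1 := by
          refine le_antisymm hp1 ?_
          by_contra h
          rw [not_le] at h
          have e : (2 * g : F) = (y1 + g) - (y1 - g) := by ring
          have : V (2 * g) < 1 := by rw [e]; exact V_sub_lt h hm
          rw [map_mul, hV2, hVg, one_mul] at this
          exact lt_irrefl _ this
        rw [hpe, mul_one] at hprodV
        have hv0 : v ≠ 0 := by
          rintro rfl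
          have e : y1 + g = 0 := by
            have : 9 * (y1 + g) = 0 := by
              rw [hy1] at h1
              linear_combination -h1
            exact (mul_eq_zero.1 this).resolve_left hn9
          rw [e, map_zero] at hpe
          exact zero_ne_one hpe
        refine Or.inr ⟨v, hv0, Or.inr ?_⟩
        have e : d * v ^ 3 * (18 * c1)⁻¹ - 1
            = (2 * (a1 * x) + (y1 - g)) / (2 * c1) := by
          rw [h1, hy1]
          field_simp
          rw [hg]
          ring
        rw [e, map_div₀, map_mul V 2 c1, hV2, hc1, one_mul, div_one]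
        exact V_add_le hax2 hprodV
      · -- C2
        have hme : V (y1 - g) = 1 := le_antisymm hm1 (not_lt.1 hm)
        rw [hme, one_mul] at hprodV
        have hm0 : y1 - g ≠ 0 := by
          intro h
          rw [h, map_zero] at hme
          exact zero_ne_one hme
        have hU3 : U ^ 3 = d * (9 * (y1 - g)) := by
          rw [h2, hy1]; ring
        have hU0 : U ≠ 0 := by
          rintro rfl
          have : d * (9 * (y1 - g)) = 0 := by rw [← hU3]; ring
          exact mul_ne_zero hd (mul_ne_zero hn9 hm0) this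
        refine Or.inr ⟨-1 / U, div_ne_zero (neg_ne_zero.2 one_ne_zero) hU0, Or.inl ?_⟩
        have e : d * (-1 / U) ^ 3 * (18 * c1) - 1
            = (2 * (a1 * x) - (y1 + g)) / (y1 - g) := by
          have e1 : d * (-1 / U) ^ 3 = - 1 / (9 * (y1 - g)) := by
            rw [div_pow, hU3]
            field_simp
          rw [e1]
          field_simp
          rw [hg]
          ring
        rw [e, map_div₀, hme, div_one]
        exact V_sub_le hax2 hprodV
    · -- case B
      exfalso
      have hx3 : V (x ^ 3) = exp (-3 : ℤ) := by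
        rw [map_pow, hB, ← exp_nsmul]; norm_num
      have hVy : V (y ^ 2) = exp (-3 : ℤ) := by
        rw [hy2, ← hx3]
        refine Valuation.map_add_eq_of_lt_left V ?_
        rw [hx3, h81, exp_lt_exp]; norm_num
      rw [map_pow] at hVy
      have h0 : V y ≠ 0 := by
        intro h
        rw [h] at hVy
        exact exp_ne_zero (hVy.symm.trans (zero_pow (by norm_num)))
      rw [← exp_log h0, ← exp_nsmul, exp_inj] at hVy
      simp only [nsmul_eq_mul] at hVy
      push_cast at hVy
      omega

theorem wb {F : Type*} [Field F] {V : Valuation F (WithZero (Multiplicative ℤ))}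
    (h3 : V 3 = exp (-1 : ℤ)) {a b : F} (ha : V a < 1) (hb : V b = 1) {d : F} (hd : d ≠ 0)
    (H : LocSol (1 : F) a (9 * b + 4 * a ^ 3) d) : Cls2 V a b d := by
  have : CharZero F := Vb_charZero h3
  have h30 : (3 : F) ≠ 0 := by norm_num
  rcases H with ⟨t, ht⟩ | ⟨U, v, H⟩
  · have ht0 : t ≠ 0 := by
      rintro rfl
      exact hd (by rw [ht]; ring)
    refine Or.inr (Or.inl ⟨t⁻¹, inv_ne_zero ht0, ?_⟩)
    have : d * t⁻¹ ^ 3 - 1 = 0 := by
      rw [ht]
      field_simp
      simp
    rw [this, map_zero]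
    exact zero_le
  · obtain ⟨a1, rfl⟩ : ∃ a1 : F, a = 3 * a1 := ⟨a / 3, by field_simp⟩
    have ha1 : V a1 ≤ 1 := by
      have h := le_exp_neg_one ha
      rw [map_mul, h3] at h
      by_contra hcon
      rw [not_le] at hcon
      have h4 : exp (-1 : ℤ) * 1 < exp (-1 : ℤ) * V a1 :=
        mul_lt_mul_of_pos_left hcon (by rw [zero_lt_iff]; exact exp_ne_zero)
      rw [mul_one] at h4
      exact absurd h (not_le.2 h4)
    have hc1 : V (b + 12 * a1 ^ 3) = 1 := by
      rw [← hb]
      refine Valuation.map_add_eq_of_lt_left V ?_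
      rw [hb]
      have e : (12 * a1 ^ 3 : F) = 3 * (4 * a1 ^ 3) := by ring
      rw [e]
      refine (Vb_three_mul h3 ?_).trans_lt exp_neg_lt_one
      rw [map_mul, map_pow]
      have h4 : V (4 : F) ≤ 1 := by exact_mod_cast V_int (V := V) 4
      exact mul_le_one' h4 (pow_le_one' ha1 3)
    have hm := Wb_main h3 hd (a1 := a1) (c1 := b + 12 * a1 ^ 3) (x := U * v)
      (y := d * v ^ 3 - 9 * (a1 * (U * v) + (b + 12 * a1 ^ 3)))
      (g := a1 * (U * v) + (b + 12 * a1 ^ 3)) (U := U) (v := v) ha1 hc1 rfl rfl (by ring) (by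
        linear_combination (-1 : F) * H)
    have e18 : 2 * (9 * b + 4 * (3 * a1) ^ 3) = 18 * (b + 12 * a1 ^ 3) := by ring
    rcases hm with h | h
    · exact Or.inr (Or.inl h)
    · refine Or.inr (Or.inr ⟨ha, ?_⟩)
      rw [e18]
      exact h

end H55T3
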