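import Pool.Agent.H55.T3.GDf

/-!
Row Ws (about 200 lines, mostly a copy): `cls_descend` and `vs` of Vs.lean for `Cls2`.

PROOF. cls2_descend: copy cls_descend (Vs.lean): approximate t and η by elements of L; the factor q = 1, 2 c or (2 c)⁻¹ now lies in L, the estimate V (d q (T^3 - t^3)) ≤ exp (-2) is Vs_cube with X = d q (V (X t^3) = 1).
vs2: copy vs: σ a = a, σ b = b replace the rationality of the coefficients. Third alternative: z := d t^3 q with q = 2 c or (2 c)⁻¹, σ q = q, σ z / z = σ d / d * (σ t / t)^3, V z = 1, V (σ z - z) ≤ exp (-2).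
-/

set_option autoImplicit false
open scoped Classical

open WeierstrassCurve IsDedekindDomain NumberField WithZero Pool.Agent.H10

namespace H55T3

theorem Ws_app {L : Type} [Field L] [NumberField L] {w : HeightOneSpectrum (𝓞 L)}
    (t : w.adicCompletion L) (ht : t ≠ 0) : ∃ t' : L, t' ≠ 0 ∧
      Valued.v (algebraMap L (w.adicCompletion L) t' - t) ≤ exp (-2 : ℤ) * Valued.v t ∧
      Valued.v (algebraMap L (w.adicCompletion L) t') = Valued.v t := by
  have hvt : Valued.v t ≠ 0 := (Valuation.ne_zero_iff _).mpr ht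
  obtain ⟨t', ht'⟩ := exists_close w t (-2 + log (Valued.v t))
  rw [exp_add, exp_log hvt] at ht'
  set T := algebraMap L (w.adicCompletion L) t' with hT
  have hlt : Valued.v (T - t) < Valued.v t := by
    refine ht'.trans_le ?_
    exact mul_le_of_le_one_left' (exp_neg_two_lt.trans exp_neg_lt_one).le
  have hVT : Valued.v T = Valued.v t := by
    have : T = (T - t) + t := by ring
    rw [this, Valuation.map_add_eq_of_lt_right _ hlt]
  refine ⟨t', ?_, ht'.le, hVT⟩
  rintro rfl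
  rw [hT, map_zero, map_zero] at hVT
  exact hvt hVT.symm

/-- The descent of the approximation with a factor in the number field. -/
theorem Ws_q {L : Type} [Field L] [NumberField L] {w : HeightOneSpectrum (𝓞 L)}
    {d q : L} (h : ∃ t : w.adicCompletion L, t ≠ 0 ∧
      Valued.v (algebraMap L (w.adicCompletion L) d * t ^ 3 *
        algebraMap L (w.adicCompletion L) q - 1) ≤ exp (-2 : ℤ)) :
    ∃ t : L, t ≠ 0 ∧ w.valuation L (d * t ^ 3 * q - 1) ≤ exp (-2 : ℤ) := by
  obtain ⟨t, ht, hc⟩ := h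
  set X := algebraMap L (w.adicCompletion L) d with hX
  set Q := algebraMap L (w.adicCompletion L) q with hQ
  have h1 : Valued.v (1 : w.adicCompletion L) ≤ 1 := by rw [map_one]
  obtain ⟨t', ht0, ht1, ht2⟩ := Ws_app t ht
  set T := algebraMap L (w.adicCompletion L) t' with hT
  refine ⟨t', ht0, ?_⟩
  rw [← valued_algebraMap, map_sub, map_mul, map_mul, map_pow, map_one, ← hX, ← hT, ← hQ]
  have hXt : Valued.v ((X * Q) * t ^ 3) ≤ 1 := by
    have h5 : X * Q * t ^ 3 = (X * t ^ 3 * Q - 1) + 1 := by ring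
    rw [h5]
    exact V_add_le (hc.trans (exp_neg_two_lt.trans exp_neg_lt_one).le) h1
  have e1 : X * T ^ 3 * Q - 1 = (X * Q) * (T ^ 3 - t ^ 3) + (X * t ^ 3 * Q - 1) := by ring
  rw [e1]
  exact V_add_le (Vs_cube hXt ht1 ht2) hc

theorem cls2_descend {L : Type} [Field L] [NumberField L] {w : HeightOneSpectrum (𝓞 L)}
    (h3 : w.valuation L 3 = exp (-1 : ℤ)) {a b d : L} (ha : w.valuation L a ≤ 1)
    (hb : w.valuation L b ≤ 1) (hd : d ≠ 0)
    (h : Cls2 Valued.v (algebraMap L (w.adicCompletion L) a) (algebraMap L (w.adicCompletion L) b)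
      (algebraMap L (w.adicCompletion L) d)) : Cls2 (w.valuation L) a b d := by
  have e3 : Valued.v (3 : w.adicCompletion L) = exp (-1 : ℤ) := by
    rw [valued_ofNat w 3]; exact h3
  set X := algebraMap L (w.adicCompletion L) d with hX
  set A := algebraMap L (w.adicCompletion L) a with hA
  set B := algebraMap L (w.adicCompletion L) b with hB
  have h1 : Valued.v (1 : w.adicCompletion L) ≤ 1 := by rw [map_one]
  have hc9 : algebraMap L (w.adicCompletion L) (2 * (9 * b + 4 * a ^ 3)) =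
      2 * (9 * B + 4 * A ^ 3) := by
    rw [map_mul, map_add, map_mul, map_mul, map_pow, map_ofNat, map_ofNat, map_ofNat]
  rcases h with ⟨t, η, ht, hη, hVa, hroot, hc⟩ | ⟨t, ht, hc⟩ | ⟨hVa, t, ht, hc | hc⟩
  · left
    obtain ⟨t', ht0, ht1, ht2⟩ := Ws_app t ht
    obtain ⟨y', hy'⟩ := exists_close w η 0
    rw [exp_zero] at hy'
    set T := algebraMap L (w.adicCompletion L) t' with hT
    set Y := algebraMap L (w.adicCompletion L) y' with hY
    have hVY : Valued.v Y ≤ 1 := by
      have : Y = (Y - η) + η := by ring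
      rw [this]
      exact V_add_le hy'.le hη
    have hXt : Valued.v (X * t ^ 3) ≤ 1 := by
      have h5 : X * t ^ 3 = (X * t ^ 3 - (1 + 3 * η)) + (1 + 3 * η) := by ring
      rw [h5]
      exact V_add_le (hc.trans (exp_neg_two_lt.trans exp_neg_lt_one).le)
        (V_add_le h1 (Vs_three_lt e3 hη).le)
    refine ⟨t', y', ht0, ?_, ?_, ?_, ?_⟩
    · rw [← valued_algebraMap]; exact hVY
    · rw [← valued_algebraMap]; exact hVa
    · rw [← valued_algebraMap, map_sub, map_mul, map_mul, map_pow, map_pow, map_ofNat, ← hY,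
        ← hA, ← hB]
      have e1 : Y ^ 2 * A ^ 3 - 2 * B =
          (η ^ 2 * A ^ 3 - 2 * B) + A ^ 3 * (Y ^ 2 - η ^ 2) := by ring
      rw [e1]
      refine V_add_lt hroot (V_mul_lt ?_ (pow_close hVY hη hy' 2))
      rw [map_pow, hVa, one_pow]
    · rw [← valued_algebraMap, map_sub, map_mul, map_pow, map_add, map_one, map_mul, map_ofNat,
        ← hX, ← hT, ← hY]
      have e1 : X * T ^ 3 - (1 + 3 * Y) = X * (T ^ 3 - t ^ 3) +
          ((X * t ^ 3 - (1 + 3 * η)) - 3 * (Y - η)) := by ring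
      rw [e1]
      exact V_add_le (Vs_cube hXt ht1 ht2) (V_sub_le hc (Vs_three e3 hy'))
  · right; left
    have h7 := Ws_q (w := w) (d := d) (q := 1) ⟨t, ht, by rw [map_one, mul_one]; exact hc⟩
    obtain ⟨t', ht', hc'⟩ := h7
    exact ⟨t', ht', by rw [mul_one] at hc'; exact hc'⟩
  · right; right
    refine ⟨by rw [← valued_algebraMap]; exact hVa, ?_⟩
    have h7 := Ws_q (w := w) (d := d) (q := 2 * (9 * b + 4 * a ^ 3)) ⟨t, ht, by
      rw [hc9]; exact hc⟩
    obtain ⟨t', ht', hc'⟩ := h7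
    exact ⟨t', ht', Or.inl hc'⟩
  · right; right
    refine ⟨by rw [← valued_algebraMap]; exact hVa, ?_⟩
    have h7 := Ws_q (w := w) (d := d) (q := (2 * (9 * b + 4 * a ^ 3))⁻¹) ⟨t, ht, by
      rw [map_inv₀, hc9]; exact hc⟩
    obtain ⟨t', ht', hc'⟩ := h7
    exact ⟨t', ht', Or.inr hc'⟩

/-- The Galois step for a factor fixed by the automorphism. -/
theorem Ws_gal {K L : Type} [Field K] [Field L] [Algebra K L]
    {V : Valuation L (WithZero (Multiplicative ℤ))}
    {σ : L ≃ₐ[K] L} (hσ : ∀ x, V (σ x) = V x) {d t q : L} (hd : d ≠ 0) (ht : t ≠ 0)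
    (hq : σ q = q) (hc : V (d * t ^ 3 * q - 1) ≤ exp (-2 : ℤ)) :
    ∃ t : L, V (σ d / d * t ^ 3 - 1) ≤ exp (-2 : ℤ) := by
  have hlt2 : (exp (-2 : ℤ) : WithZero (Multiplicative ℤ)) < 1 :=
    exp_neg_two_lt.trans exp_neg_lt_one
  refine ⟨σ t / t, ?_⟩
  have hz : V (d * t ^ 3 * q) = 1 := by
    have e1 : d * t ^ 3 * q = 1 + (d * t ^ 3 * q - 1) := by ring
    rw [e1]
    exact Valuation.map_one_add_of_lt V (hc.trans_lt hlt2)
  have hq0 : q ≠ 0 := by
    intro h0
    rw [h0, mul_zero, map_zero] at hz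
    exact zero_ne_one hz
  have e1 : σ d / d * (σ t / t) ^ 3 = σ (d * t ^ 3 * q) / (d * t ^ 3 * q) := by
    rw [map_mul, map_mul, map_pow, hq]
    field_simp
  rw [e1]
  refine Vs_fin hz ?_
  have e2 : σ (d * t ^ 3 * q) - d * t ^ 3 * q = σ (d * t ^ 3 * q - 1) - (d * t ^ 3 * q - 1) := by
    rw [map_sub, map_one]
    ring
  rw [e2]
  exact V_sub_le (by rw [hσ]; exact hc) hc

theorem vs2 {K L : Type} [Field K] [Field L] [CharZero L] [Algebra K L]
    {V : Valuation L (WithZero (Multiplicative ℤ))}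
    (h3 : V 3 = exp (-1 : ℤ)) {σ : L ≃ₐ[K] L} (hσ : ∀ x, V (σ x) = V x) (hodd : Odd (orderOf σ))
    {a b : L} (ha : σ a = a) (hb : σ b = b) (hVa : V a ≤ 1) (hVb : V b ≤ 1) {d : L} (hd : d ≠ 0)
    (h : Cls2 V a b d) : ∃ t : L, V (σ d / d * t ^ 3 - 1) ≤ exp (-2 : ℤ) := by
  have hlt2 : (exp (-2 : ℤ) : WithZero (Multiplicative ℤ)) < 1 :=
    exp_neg_two_lt.trans exp_neg_lt_one
  have h1 : V (1 : L) = 1 := map_one V
  have hs2 : σ (2 : L) = 2 := map_ofNat σ 2
  have hs3 : σ (3 : L) = 3 := map_ofNat σ 3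
  have hs9 : σ (9 : L) = 9 := map_ofNat σ 9
  have hs4 : σ (4 : L) = 4 := map_ofNat σ 4
  have hqq : σ (2 * (9 * b + 4 * a ^ 3)) = 2 * (9 * b + 4 * a ^ 3) := by
    rw [map_mul, map_add, map_mul, map_mul, map_pow, hs2, hs9, hs4, ha, hb]
  rcases h with ⟨t, η, ht, hη, hV, hroot, hc⟩ | ⟨t, ht, hc⟩ | ⟨-, t, ht, hc | hc⟩
  · have hση : V (σ η) ≤ 1 := by rw [hσ]; exact hη
    have hroot' : V ((σ η) ^ 2 * a ^ 3 - 2 * b) < 1 := by
      have : (σ η) ^ 2 * a ^ 3 - 2 * b = σ (η ^ 2 * a ^ 3 - 2 * b) := by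
        rw [map_sub, map_mul, map_mul, map_pow, map_pow, hs2, ha, hb]
      rw [this, hσ]
      exact hroot
    have h2 : V 2 = 1 := by
      have e1 : (2 : L) = -1 + 3 * 1 := by norm_num
      rw [e1, Valuation.map_add_eq_of_lt_left, Valuation.map_neg, h1]
      rw [Valuation.map_neg, h1]
      exact Vs_three_lt h3 h1.le
    have hprod : V ((σ η - η) * (σ η + η)) < 1 := by
      have e1 : ((σ η) ^ 2 * a ^ 3 - 2 * b) - (η ^ 2 * a ^ 3 - 2 * b) =
          ((σ η - η) * (σ η + η)) * a ^ 3 := by ring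
      have h5 := V_sub_lt hroot' hroot
      rw [e1, map_mul, map_pow, hV, one_pow, mul_one] at h5
      exact h5
    have hclose : V (σ η - η) < 1 := by
      by_contra hcon
      rw [not_lt] at hcon
      have h5 : V (σ η - η) = 1 := le_antisymm (V_sub_le hση hη) hcon
      rw [map_mul, h5, one_mul] at hprod
      have hind : ∀ j : ℕ, V ((σ ^ j) η - (-1) ^ j * η) < 1 := by
        intro j
        induction j with
        | zero =>
          rw [pow_zero, pow_zero, AlgEquiv.one_apply, one_mul, sub_self, map_zero]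
          exact one_pos
        | succ j ih =>
          have e1 : (σ ^ (j + 1)) η - (-1) ^ (j + 1) * η =
              σ ((σ ^ j) η - (-1) ^ j * η) + (-1) ^ j * (σ η + η) := by
            rw [pow_succ', AlgEquiv.mul_apply, map_sub, map_mul, map_pow, map_neg, map_one]
            ring
          rw [e1]
          refine V_add_lt (by rw [hσ]; exact ih) (V_mul_lt ?_ hprod)
          rw [map_pow, Valuation.map_neg, map_one, one_pow]
      have h6 := hind (orderOf σ)
      rw [pow_orderOf_eq_one, AlgEquiv.one_apply, hodd.neg_one_pow] at h6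
      have e2 : η - -1 * η = 2 * η := by ring
      rw [e2, map_mul, h2, one_mul] at h6
      have h7 : V (σ η) < 1 := by rw [hσ]; exact h6
      exact absurd (V_sub_lt h7 h6) (not_lt.2 hcon)
    refine ⟨σ t / t, ?_⟩
    have hz1 : V (1 + 3 * η) = 1 := Valuation.map_one_add_of_lt V (Vs_three_lt h3 hη)
    have hz : V (d * t ^ 3) = 1 := by
      have e1 : d * t ^ 3 = (1 + 3 * η) + (d * t ^ 3 - (1 + 3 * η)) := by ring
      rw [e1, Valuation.map_add_eq_of_lt_left _ (by rw [hz1]; exact hc.trans_lt hlt2), hz1]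
    have e1 : σ d / d * (σ t / t) ^ 3 = σ (d * t ^ 3) / (d * t ^ 3) := by
      rw [map_mul, map_pow]
      field_simp
    rw [e1]
    refine Vs_fin hz ?_
    have e2 : σ (d * t ^ 3) - d * t ^ 3 = (σ (d * t ^ 3 - (1 + 3 * η)) -
        (d * t ^ 3 - (1 + 3 * η))) + 3 * (σ η - η) := by
      rw [map_sub σ (d * t ^ 3), map_add, map_one, map_mul σ 3 η, hs3]
      ring
    rw [e2]
    exact V_add_le (V_sub_le (by rw [hσ]; exact hc) hc) (Vs_three h3 hclose)
  · exact Ws_gal hσ hd ht (map_one σ) (by rw [mul_one]; exact hc)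
  · exact Ws_gal hσ hd ht hqq hc
  · exact Ws_gal hσ hd ht (by rw [map_inv₀, hqq]) hc

end H55T3
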