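import Pool.Agent.H55.T3.Wa
import Pool.Agent.H55.T3.Wb
import Pool.Agent.H55.T3.Ws
import Pool.Agent.H55.T3.Df2

/-!
Row K5b (about 160 lines, mostly a copy): `k5_arith` of K5a.lean with coefficients in `𝓞 K`.

PROOF. Copy k5_arith: (i) places w with 6 b c ∉ w (c = 9 b + 4 a^3): `vg` (Vg.lean) with V s = V 1 = 1, V (6 a) ≤ 1, V (2 c) = 1 (w.valuation of an algebraic integer ≤ 1, = 1 iff it is not in w.asIdeal; b c, 2 ∉ w), H w in the completion (Valued.v restricted to L is w.valuation).
 The conjugate place σ⁻¹ w contains the same elements of 𝓞 K. (ii) w ∋ 3: wa if a ∉ w, wb if a ∈ w (then b ∉ w by hred for the place v of K below w), cls2_descend, vs2 (σ fixes the images of a and b). (iii) the norm as before.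
-/

set_option autoImplicit false
open scoped Classical

open WeierstrassCurve IsDedekindDomain NumberField WithZero Pool.Agent.H10

namespace H55T3

theorem k5_arith2 {K L : Type} [Field K] [NumberField K] [Field L] [NumberField L] [Algebra K L]
    [IsGalois K L] (hodd : Odd (Module.finrank K L)) (R : NoNewCube K L) {a b : 𝓞 K}
    (hc : 9 * b + 4 * a ^ 3 ≠ 0)
    (hred : ∀ v : HeightOneSpectrum (𝓞 K), (3 : 𝓞 K) ∈ v.asIdeal → ¬ (a ∈ v.asIdeal ∧ b ∈ v.asIdeal))
    (hbad : ∀ v : HeightOneSpectrum (𝓞 K), 6 * b * (9 * b + 4 * a ^ 3) ∈ v.asIdeal →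
      UniqueOver K L v.asIdeal)
    (hunr : ∀ w : HeightOneSpectrum (𝓞 L), (3 : 𝓞 L) ∈ w.asIdeal →
      w.valuation L 3 = exp (-1 : ℤ))
    {d : L} (hd : d ≠ 0) (H : FinSol3 L 1 (algebraMap K L (a : K))
      (algebraMap K L (9 * (b : K) + 4 * (a : K) ^ 3)) d) (σ : L ≃ₐ[K] L) :
    ∃ y, σ d = d * y ^ 3 := by
  set c : 𝓞 K := 9 * b + 4 * a ^ 3 with hcdef
  have hιint : ∀ z : 𝓞 K, algebraMap K L (z : K) = algebraMap (𝓞 L) L (algebraMap (𝓞 K) (𝓞 L) z) := by
    intro z
    rw [← IsScalarTower.algebraMap_apply (𝓞 K) (𝓞 L) L, ← IsScalarTower.algebraMap_apply (𝓞 K) K L]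
  have below : ∀ w : HeightOneSpectrum (𝓞 L), w.asIdeal.under (𝓞 K) ≠ ⊥ := fun w =>
    Ideal.IsIntegral.comap_ne_bot _ w.ne_bot
  have hinv : ∀ w : HeightOneSpectrum (𝓞 L),
      algebraMap (𝓞 K) (𝓞 L) (6 * b * c) ∈ w.asIdeal →
      ∀ x, w.valuation L (σ x) = w.valuation L x := by
    intro w hw
    exact val_conj_of_unique σ w
      (hbad ⟨w.asIdeal.under (𝓞 K), inferInstance, below w⟩ hw)
  have hsd : σ d ≠ 0 := by
    intro h
    apply hd
    rw [← σ.symm_apply_apply d, h, map_zero]
  have hx0 : σ d / d ≠ 0 := div_ne_zero hsd hd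
  have hcL : algebraMap K L (9 * (b : K) + 4 * (a : K) ^ 3) = algebraMap K L (c : K) := by
    rw [hcdef]
    simp only [map_add, map_mul, map_pow, map_ofNat]
  rw [hcL] at H
  have R' : (∀ w : HeightOneSpectrum (𝓞 L), (3 : ℤ) ∣ WithZero.log (w.valuation L (σ d / d))) →
      (∀ w : HeightOneSpectrum (𝓞 L), (3 : 𝓞 L) ∈ w.asIdeal →
        ∃ t : L, w.valuation L (σ d / d * t ^ 3 - 1) ≤ w.valuation L 9) →
      (∃ y : K, Algebra.norm K (σ d / d) = y ^ 3) → ∃ y : L, σ d = d * y ^ 3 := by
    intro q1 q2 q3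
    obtain ⟨y, hy⟩ := R (σ d / d) hx0 q1 q2 q3
    refine ⟨y, ?_⟩
    rw [← hy, mul_div_cancel₀ _ hd]
  refine R' ?_ ?_ ?_
  · intro w
    by_cases hw : algebraMap (𝓞 K) (𝓞 L) (6 * b * c) ∈ w.asIdeal
    · rw [map_div₀, hinv w hw d, div_self ((Valuation.ne_zero_iff _).mpr hd), log_one]
      exact dvd_zero _
    · have hgood : ∀ w' : HeightOneSpectrum (𝓞 L),
          algebraMap (𝓞 K) (𝓞 L) (2 * c) ∉ w'.asIdeal →
          (3 : ℤ) ∣ log (w'.valuation L d) := by
        intro w' h2
        rw [← valued_algebraMap w' d]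
        refine vg (V := Valued.v) ?_ ?_ ?_ ?_ (H w')
        · rw [map_one, map_one]
        · have e : (6 : w'.adicCompletion L) * algebraMap L (w'.adicCompletion L)
              (algebraMap K L (a : K)) =
              algebraMap L (w'.adicCompletion L) (algebraMap (𝓞 L) L
                (algebraMap (𝓞 K) (𝓞 L) (6 * a))) := by
            rw [← hιint]
            simp only [map_mul, map_ofNat]
          rw [e, valued_algebraMap]
          exact w'.valuation_le_one _
        · have e : (2 : w'.adicCompletion L) * algebraMap L (w'.adicCompletion L)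
              (algebraMap K L (c : K)) =
              algebraMap L (w'.adicCompletion L) (algebraMap (𝓞 L) L
                (algebraMap (𝓞 K) (𝓞 L) (2 * c))) := by
            rw [← hιint]
            simp only [map_mul, map_ofNat]
          rw [e, valued_algebraMap]
          exact (w'.valuation_eq_one_iff_notMem (K := L)).2 h2
        · exact (map_ne_zero_iff _ (algebraMap L (w'.adicCompletion L)).injective).2 hd
      have h2w : algebraMap (𝓞 K) (𝓞 L) (2 * c) ∉ w.asIdeal := by
        intro h
        apply hw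
        have e : (6 * b * c : 𝓞 K) = (3 * b) * (2 * c) := by ring
        rw [e, map_mul]
        exact Ideal.mul_mem_left _ _ h
      obtain ⟨w', h1, h2⟩ := exists_conj σ w
      have h2w' : algebraMap (𝓞 K) (𝓞 L) (2 * c) ∉ w'.asIdeal := fun h => h2w ((h2 _).1 h)
      rw [map_div₀, h1, log_div ((Valuation.ne_zero_iff _).mpr hd) ((Valuation.ne_zero_iff _).mpr hd)]
      exact dvd_sub (hgood w' h2w') (hgood w h2w)
  · intro w hw
    have h3 := hunr w hw
    have h9 : w.valuation L 9 = exp (-2 : ℤ) := by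
      have e : (9 : L) = 3 * 3 := by norm_num
      rw [e, map_mul, h3, ← exp_add]
      rfl
    rw [h9]
    have hw6 : algebraMap (𝓞 K) (𝓞 L) (6 * b * c) ∈ w.asIdeal := by
      have e : algebraMap (𝓞 K) (𝓞 L) (6 * b * c) = algebraMap (𝓞 K) (𝓞 L) (2 * b * c) * 3 := by
        have e2 : (6 * b * c : 𝓞 K) = (2 * b * c) * 3 := by ring
        rw [e2, map_mul, map_ofNat]
      rw [e]
      exact Ideal.mul_mem_left _ _ hw
    have hσ := hinv w hw6
    have hoddσ : Odd (orderOf σ) := by
      refine Odd.of_dvd_nat hodd ?_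
      rw [← IsGalois.card_aut_eq_finrank]
      exact orderOf_dvd_natCard σ
    have e3 : Valued.v (3 : w.adicCompletion L) = exp (-1 : ℤ) := by
      rw [valued_ofNat w 3]; exact h3
    have hdw : algebraMap L (w.adicCompletion L) d ≠ 0 := by
      rw [Ne, map_eq_zero]
      exact hd
    have hle : ∀ z : 𝓞 K, w.valuation L (algebraMap K L (z : K)) ≤ 1 := by
      intro z
      rw [hιint]
      exact w.valuation_le_one _
    have hlt : ∀ z : 𝓞 K, w.valuation L (algebraMap K L (z : K)) < 1 ↔
        z ∈ w.asIdeal.under (𝓞 K) := by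
      intro z
      rw [hιint]
      exact w.valuation_lt_one_iff_mem (K := L) _
    have hLoc := H w
    have hc2 : algebraMap L (w.adicCompletion L) (algebraMap K L (c : K)) =
        9 * algebraMap L (w.adicCompletion L) (algebraMap K L (b : K)) +
          4 * algebraMap L (w.adicCompletion L) (algebraMap K L (a : K)) ^ 3 := by
      rw [← hcL]
      simp only [map_add, map_mul, map_pow, map_ofNat]
    rw [map_one, hc2] at hLoc
    have hcls : Cls2 Valued.v (algebraMap L (w.adicCompletion L) (algebraMap K L (a : K)))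
        (algebraMap L (w.adicCompletion L) (algebraMap K L (b : K)))
        (algebraMap L (w.adicCompletion L) d) := by
      by_cases ha : w.valuation L (algebraMap K L (a : K)) < 1
      · have hb : w.valuation L (algebraMap K L (b : K)) = 1 := by
          refine le_antisymm (hle b) (not_lt.1 fun hb => ?_)
          refine hred ⟨w.asIdeal.under (𝓞 K), inferInstance, below w⟩ ?_
            ⟨(hlt a).1 ha, (hlt b).1 hb⟩
          change algebraMap (𝓞 K) (𝓞 L) 3 ∈ w.asIdeal
          rw [map_ofNat]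
          exact hw
        exact wb e3 (by rw [valued_algebraMap]; exact ha) (by rw [valued_algebraMap]; exact hb)
          hdw hLoc
      · have ha1 : w.valuation L (algebraMap K L (a : K)) = 1 :=
          le_antisymm (hle a) (not_lt.1 ha)
        exact wa e3 (by rw [valued_algebraMap]; exact ha1)
          (by rw [valued_algebraMap]; exact hle b) hdw hLoc
    exact vs2 h3 hσ hoddσ (σ.commutes _) (σ.commutes _) (hle a) (hle b) hd
      (cls2_descend h3 (hle a) (hle b) hd hcls)
  · refine ⟨1, ?_⟩
    have h1 : Algebra.norm K (σ d / d) * Algebra.norm K d = Algebra.norm K d := by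
      rw [← map_mul, div_mul_cancel₀ _ hd, Algebra.norm_eq_of_algEquiv]
    have h2 : Algebra.norm K d ≠ 0 := Algebra.norm_ne_zero_iff.mpr hd
    rw [one_pow]
    exact mul_right_cancel₀ h2 (by rw [h1, one_mul])

end H55T3
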