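import Pool.Agent.H55.T3.Kdf
import Pool.Agent.H55.T3.K5b

/-!
Row Y1 (about 170 lines, mostly a copy): `k5_arith2` (K5b.lean) with a scaling at each place above three.

PROOF. Copy k5_arith2. c := β; β = 9 b + 4 a^3 with a = α / 3, b = γ / 243 in K, γ = 27 β - 4 α^3.
(i) places w with 6 β γ ∉ w (so 3 ∉ w): `vg` with s = 1, V (6 * (α/3)) = V (2 α) ≤ 1, V (2 β) = 1; the conjugate place contains the same elements of 𝓞 K. If 6 β γ ∈ w: hbad for the place of K below w, as in K5b.
(ii) w ∋ 3: hgood gives i. Put t := 3^i, a' := α / (3 t), b' := γ / (243 t^3) (in K, and their images in L and in the completion). locSol_t (Kdf.lean; t ≠ 0): LocSol 1 (α/3) β d gives LocSol 1 a' (β/t^3) d, and 9 b' + 4 a'^3 = β/t^3.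
 From hgood and w(3) = exp (-1): w a' ≤ 1, w b' ≤ 1, and not (w a' < 1 and w b' < 1): otherwise w a', w b' ≤ exp (-1), w (9 b' + 4 a'^3) ≤ exp (-3), w β ≤ exp (-(3 i + 3)), contradiction. So wa (w a' = 1) or wb (w a' < 1, w b' = 1) applies, then cls2_descend and vs2 (σ fixes a', b', they come from K) as in K5b.
(iii) the norm as before.
-/

set_option autoImplicit false
open scoped Classical

open WeierstrassCurve IsDedekindDomain NumberField WithZero Pool.Agent.H10

namespace H55T3

theorem Y1_pow {L : Type*} [Field L] {V : Valuation L (WithZero (Multiplicative ℤ))}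
    (h3 : V 3 = exp (-1 : ℤ)) (n : ℕ) : V (3 ^ n) = exp (-(n : ℤ)) := by
  rw [map_pow, h3, ← exp_nsmul]
  congr 1
  simp

/-- division by a power of three -/
theorem Y1_div {L : Type*} [Field L] {V : Valuation L (WithZero (Multiplicative ℤ))}
    (h3 : V 3 = exp (-1 : ℤ)) (n : ℕ) (m : ℤ) (x : L) :
    V (x / 3 ^ n) ≤ exp m ↔ V x ≤ exp (m - n) := by
  have h30 : (3 : L) ≠ 0 := by
    intro h
    rw [h, map_zero] at h3
    exact exp_ne_zero h3.symm
  have hx : x = (x / 3 ^ n) * 3 ^ n := by
    rw [div_mul_cancel₀ _ (pow_ne_zero n h30)]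
  conv_rhs => rw [hx]
  rw [map_mul V, Y1_pow h3, sub_eq_add_neg, exp_add]
  exact (mul_le_mul_iff_left₀ (zero_lt_iff.2 exp_ne_zero)).symm

theorem k5_arith3 {K L : Type} [Field K] [NumberField K] [Field L] [NumberField L] [Algebra K L]
    [IsGalois K L] (hodd : Odd (Module.finrank K L)) (R : NoNewCube K L) {α β : 𝓞 K}
    (hgood : ∀ w : HeightOneSpectrum (𝓞 L), (3 : 𝓞 L) ∈ w.asIdeal →
      GoodV w (algebraMap K L (α : K)) (algebraMap K L (β : K)))
    (hbad : ∀ v : HeightOneSpectrum (𝓞 K), 6 * β * (27 * β - 4 * α ^ 3) ∈ v.asIdeal →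
      UniqueOver K L v.asIdeal)
    (hunr : ∀ w : HeightOneSpectrum (𝓞 L), (3 : 𝓞 L) ∈ w.asIdeal →
      w.valuation L 3 = exp (-1 : ℤ))
    {d : L} (hd : d ≠ 0) (H : FinSol3 L 1 (algebraMap K L ((α : K) / 3))
      (algebraMap K L (β : K)) d) (σ : L ≃ₐ[K] L) : ∃ y, σ d = d * y ^ 3 := by
  obtain ⟨γ, hγ⟩ : ∃ γ : 𝓞 K, γ = 27 * β - 4 * α ^ 3 := ⟨_, rfl⟩
  rw [← hγ] at hbad
  have hιint : ∀ z : 𝓞 K, algebraMap K L (z : K) = algebraMap (𝓞 L) L (algebraMap (𝓞 K) (𝓞 L) z) := by
    intro z
    rw [← IsScalarTower.algebraMap_apply (𝓞 K) (𝓞 L) L, ← IsScalarTower.algebraMap_apply (𝓞 K) K L]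
  have below : ∀ w : HeightOneSpectrum (𝓞 L), w.asIdeal.under (𝓞 K) ≠ ⊥ := fun w =>
    Ideal.IsIntegral.comap_ne_bot _ w.ne_bot
  have hinv : ∀ w : HeightOneSpectrum (𝓞 L),
      algebraMap (𝓞 K) (𝓞 L) (6 * β * γ) ∈ w.asIdeal →
      ∀ x, w.valuation L (σ x) = w.valuation L x := by
    intro w hw
    exact val_conj_of_unique σ w
      (hbad ⟨w.asIdeal.under (𝓞 K), inferInstance, below w⟩ hw)
  have hsd : σ d ≠ 0 := by
    intro h
    apply hd
    rw [← σ.symm_apply_apply d, h, map_zero]
  have hx0 : σ d / d ≠ 0 := div_ne_zero hsd hd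
  have h3K : (3 : K) ≠ 0 := by norm_num
  have R' : (∀ w : HeightOneSpectrum (𝓞 L), (3 : ℤ) ∣ WithZero.log (w.valuation L (σ d / d))) →
      (∀ w : HeightOneSpectrum (𝓞 L), (3 : 𝓞 L) ∈ w.asIdeal →
        ∃ t : L, w.valuation L (σ d / d * t ^ 3 - 1) ≤ w.valuation L 9) →
      (∃ y : K, Algebra.norm K (σ d / d) = y ^ 3) → ∃ y : L, σ d = d * y ^ 3 := by
    intro q1 q2 q3
    obtain ⟨y, hy⟩ := R (σ d / d) hx0 q1 q2 q3
    refine ⟨y, ?_⟩
    rw [← hy, mul_div_cancel₀ _ hd]
  refine R' ?_ ?_ ?_
  · intro w
    by_cases hw : algebraMap (𝓞 K) (𝓞 L) (6 * β * γ) ∈ w.asIdeal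
    · rw [map_div₀, hinv w hw d, div_self ((Valuation.ne_zero_iff _).mpr hd), log_one]
      exact dvd_zero _
    · have hg : ∀ w' : HeightOneSpectrum (𝓞 L),
          algebraMap (𝓞 K) (𝓞 L) (2 * β) ∉ w'.asIdeal →
          (3 : ℤ) ∣ log (w'.valuation L d) := by
        intro w' h2
        rw [← valued_algebraMap w' d]
        refine vg (V := Valued.v) ?_ ?_ ?_ ?_ (H w')
        · rw [map_one, map_one]
        · have e0 : (6 : K) * ((α : K) / 3) = 2 * (α : K) := by
            have h6 : (6 : K) = 2 * 3 := by norm_num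
            rw [h6, mul_assoc, mul_div_cancel₀ _ h3K]
          have e : (6 : w'.adicCompletion L) * algebraMap L (w'.adicCompletion L)
              (algebraMap K L ((α : K) / 3)) =
              algebraMap L (w'.adicCompletion L) (algebraMap (𝓞 L) L
                (algebraMap (𝓞 K) (𝓞 L) (2 * α))) := by
            have e1 : (6 : w'.adicCompletion L) * algebraMap L (w'.adicCompletion L)
              (algebraMap K L ((α : K) / 3)) = algebraMap L (w'.adicCompletion L)
              (algebraMap K L (6 * ((α : K) / 3))) := by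
              rw [map_mul (algebraMap K L), map_mul (algebraMap L (w'.adicCompletion L)),
                map_ofNat, map_ofNat]
            rw [e1, e0, ← hιint]
            simp only [map_mul, map_ofNat]
          rw [e, valued_algebraMap]
          exact w'.valuation_le_one _
        · have e : (2 : w'.adicCompletion L) * algebraMap L (w'.adicCompletion L)
              (algebraMap K L (β : K)) =
              algebraMap L (w'.adicCompletion L) (algebraMap (𝓞 L) L
                (algebraMap (𝓞 K) (𝓞 L) (2 * β))) := by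
            rw [← hιint]
            simp only [map_mul, map_ofNat]
          rw [e, valued_algebraMap]
          exact (w'.valuation_eq_one_iff_notMem (K := L)).2 h2
        · exact (map_ne_zero_iff _ (algebraMap L (w'.adicCompletion L)).injective).2 hd
      have h2w : algebraMap (𝓞 K) (𝓞 L) (2 * β) ∉ w.asIdeal := by
        intro h
        apply hw
        have e : (6 * β * γ : 𝓞 K) = (3 * γ) * (2 * β) := by ring
        rw [e, map_mul]
        exact Ideal.mul_mem_left _ _ h
      obtain ⟨w', h1, h2⟩ := exists_conj σ w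
      have h2w' : algebraMap (𝓞 K) (𝓞 L) (2 * β) ∉ w'.asIdeal := fun h => h2w ((h2 _).1 h)
      rw [map_div₀, h1, log_div ((Valuation.ne_zero_iff _).mpr hd) ((Valuation.ne_zero_iff _).mpr hd)]
      exact dvd_sub (hg w' h2w') (hg w h2w)
  · intro w hw
    have h3 := hunr w hw
    have h9 : w.valuation L 9 = exp (-2 : ℤ) := by
      have e : (9 : L) = 3 * 3 := by norm_num
      rw [e, map_mul, h3, ← exp_add]
      rfl
    rw [h9]
    have hw6 : algebraMap (𝓞 K) (𝓞 L) (6 * β * γ) ∈ w.asIdeal := by
      have e : algebraMap (𝓞 K) (𝓞 L) (6 * β * γ) = algebraMap (𝓞 K) (𝓞 L) (2 * β * γ) * 3 := by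
        have e2 : (6 * β * γ : 𝓞 K) = (2 * β * γ) * 3 := by ring
        rw [e2, map_mul, map_ofNat]
      rw [e]
      exact Ideal.mul_mem_left _ _ hw
    have hσ := hinv w hw6
    have hoddσ : Odd (orderOf σ) := by
      refine Odd.of_dvd_nat hodd ?_
      rw [← IsGalois.card_aut_eq_finrank]
      exact orderOf_dvd_natCard σ
    have e3 : Valued.v (3 : w.adicCompletion L) = exp (-1 : ℤ) := by
      rw [valued_ofNat w 3]; exact h3
    have hdw : algebraMap L (w.adicCompletion L) d ≠ 0 := by
      rw [Ne, map_eq_zero]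
      exact hd
    obtain ⟨i, g1, g2, g3⟩ := hgood w hw
    obtain ⟨a', ha'⟩ : ∃ a' : K, a' = (α : K) / 3 ^ (i + 1) := ⟨_, rfl⟩
    obtain ⟨b', hb'⟩ : ∃ b' : K, b' = (27 * (β : K) - 4 * (α : K) ^ 3) / 3 ^ (3 * i + 5) :=
      ⟨_, rfl⟩
    have ea : (α : K) / 3 = 3 ^ i * a' := by
      rw [ha', pow_succ]
      field_simp
    have ec : (β : K) = (3 ^ i) ^ 3 * (9 * b' + 4 * a' ^ 3) := by
      have p1 : (3 : K) ^ (3 * i + 5) = (3 ^ i) ^ 3 * 243 := by
        rw [pow_add, mul_comm 3 i, pow_mul]
        norm_num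
      have p2 : (3 : K) ^ (i + 1) = 3 ^ i * 3 := pow_succ _ _
      rw [hb', ha', p1, p2]
      have p3 : (3 : K) ^ i ≠ 0 := pow_ne_zero i h3K
      field_simp
      ring
    have va : w.valuation L (algebraMap K L a') ≤ 1 := by
      rw [ha', map_div₀, map_pow, map_ofNat, ← exp_zero, Y1_div h3]
      exact g1.trans (le_of_eq (congrArg exp (by push_cast; ring)))
    have vb : w.valuation L (algebraMap K L b') ≤ 1 := by
      rw [hb', map_div₀, map_pow, map_ofNat, ← exp_zero, Y1_div h3, map_sub, map_mul, map_mul,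
        map_pow, map_ofNat, map_ofNat]
      exact g2.trans (le_of_eq (congrArg exp (by push_cast; ring)))
    have vab : ¬ (w.valuation L (algebraMap K L a') < 1 ∧
        w.valuation L (algebraMap K L b') < 1) := by
      rintro ⟨h1, h2⟩
      have q1 : w.valuation L (algebraMap K L a') ≤ exp (-1 : ℤ) := by
        by_cases h0 : w.valuation L (algebraMap K L a') = 0
        · rw [h0]
          exact zero_le
        · rw [← exp_log h0, ← exp_zero, exp_lt_exp] at h1
          rw [← exp_log h0, exp_le_exp]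
          omega
      have q2 : w.valuation L (algebraMap K L b') ≤ exp (-1 : ℤ) := by
        by_cases h0 : w.valuation L (algebraMap K L b') = 0
        · rw [h0]
          exact zero_le
        · rw [← exp_log h0, ← exp_zero, exp_lt_exp] at h2
          rw [← exp_log h0, exp_le_exp]
          omega
      have q3 : w.valuation L (algebraMap K L (9 * b' + 4 * a' ^ 3)) ≤ exp (-3 : ℤ) := by
        rw [map_add]
        refine (Valuation.map_add _ _ _).trans (max_le ?_ ?_)
        · rw [map_mul, map_ofNat, map_mul, h9]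
          calc exp (-2 : ℤ) * w.valuation L (algebraMap K L b') ≤ exp (-2 : ℤ) * exp (-1 : ℤ) :=
                mul_le_mul_right q2 _
            _ = exp (-3 : ℤ) := by
                rw [← exp_add]
                rfl
        · rw [map_mul, map_ofNat, map_mul, map_pow, map_pow]
          have h4 : w.valuation L 4 ≤ 1 := by
            have h5 : w.valuation L (algebraMap (𝓞 L) L (4 : 𝓞 L)) ≤ 1 :=
              w.valuation_le_one (K := L) (4 : 𝓞 L)
            rwa [map_ofNat (algebraMap (𝓞 L) L)] at h5
          calc w.valuation L 4 * w.valuation L (algebraMap K L a') ^ 3 ≤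
                1 * exp (-1 : ℤ) ^ 3 := by
                exact mul_le_mul' h4 (pow_le_pow_left' q1 3)
            _ = exp (-3 : ℤ) := by
                rw [one_mul, ← exp_nsmul]
                rfl
      apply not_le.2 g3
      rw [ec, map_mul (algebraMap K L), map_mul (w.valuation L), map_pow, map_pow, map_pow, map_ofNat,
        Y1_pow h3, ← exp_nsmul]
      calc exp (3 • (-(i : ℤ))) * w.valuation L (algebraMap K L (9 * b' + 4 * a' ^ 3)) ≤
            exp (3 • (-(i : ℤ))) * exp (-3 : ℤ) := mul_le_mul_right q3 _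
        _ = exp (-(3 * (i : ℤ) + 3)) := by
            rw [← exp_add]
            congr 1
            simp only [smul_eq_mul, nsmul_eq_mul]
            push_cast
            ring
    have hLoc := H w
    have hLoc2 : LocSol (1 : w.adicCompletion L)
        (algebraMap L (w.adicCompletion L) (algebraMap K L a'))
        (9 * algebraMap L (w.adicCompletion L) (algebraMap K L b') +
          4 * algebraMap L (w.adicCompletion L) (algebraMap K L a') ^ 3)
        (algebraMap L (w.adicCompletion L) d) := by
      refine locSol_t (t := algebraMap L (w.adicCompletion L) (algebraMap K L (3 ^ i))) ?_ ?_ ?_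
        hLoc
      · rw [Ne, map_eq_zero, map_eq_zero]
        exact pow_ne_zero i h3K
      · rw [map_one, one_mul, ea, map_mul (algebraMap K L), map_mul]
      · rw [map_one, one_mul, ec, map_mul (algebraMap K L), map_mul, map_pow (algebraMap K L) (3 ^ i),
          map_pow (algebraMap L (w.adicCompletion L)) (algebraMap K L (3 ^ i))]
        congr 1
        simp only [map_add, map_mul, map_pow, map_ofNat]
    have hcls : Cls2 Valued.v (algebraMap L (w.adicCompletion L) (algebraMap K L a'))
        (algebraMap L (w.adicCompletion L) (algebraMap K L b'))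
        (algebraMap L (w.adicCompletion L) d) := by
      by_cases ha : w.valuation L (algebraMap K L a') < 1
      · have hb : w.valuation L (algebraMap K L b') = 1 :=
          le_antisymm vb (not_lt.1 fun hb => vab ⟨ha, hb⟩)
        exact wb e3 (by rw [valued_algebraMap]; exact ha) (by rw [valued_algebraMap]; exact hb)
          hdw hLoc2
      · have ha1 : w.valuation L (algebraMap K L a') = 1 :=
          le_antisymm va (not_lt.1 ha)
        exact wa e3 (by rw [valued_algebraMap]; exact ha1)
          (by rw [valued_algebraMap]; exact vb) hdw hLoc2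
    exact vs2 h3 hσ hoddσ (σ.commutes _) (σ.commutes _) va vb hd
      (cls2_descend h3 va vb hd hcls)
  · refine ⟨1, ?_⟩
    have h1 : Algebra.norm K (σ d / d) * Algebra.norm K d = Algebra.norm K d := by
      rw [← map_mul, div_mul_cancel₀ _ hd, Algebra.norm_eq_of_algEquiv]
    have h2 : Algebra.norm K d ≠ 0 := Algebra.norm_ne_zero_iff.mpr hd
    rw [one_pow]
    exact mul_right_cancel₀ h2 (by rw [h1, one_mul])

end H55T3
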