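import Pool.Agent.H55.T3.Df2
import Pool.Agent.H5.SW.U4

/-!
Block R (real side, helper46): definitions.  `d g = 2 - g (c 1)`, `eta g = d g / d 1` (a unit), `dw θ = ∏ eta g ^ θ g`, which is `∏ d g ^ θ g` when `∑ θ = 0`.
-/

set_option autoImplicit false

namespace H55T3

open NumberField H5SW

section

variable {f : ℕ} {L : Type} [Field L] [NumberField L] (r : RC f L)

/-- `2 - g (c 1)` as an algebraic integer -/
noncomputable def dI (g : L ≃ₐ[ℚ] L) : 𝓞 L := 2 - r.c (r.u g)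

lemma dI_coe (g : L ≃ₐ[ℚ] L) : ((dI r g : 𝓞 L) : L) = r.d g := by
  rw [dI, Cb_coe, r.d_eq]

lemma dI_ne_zero (g : L ≃ₐ[ℚ] L) : dI r g ≠ 0 := by
  intro h
  apply r.d_ne_zero g
  rw [← dI_coe, h]
  exact map_zero (algebraMap (𝓞 L) L)

lemma exists_eta (g : L ≃ₐ[ℚ] L) : ∃ η : (𝓞 L)ˣ, dI r g = (η : 𝓞 L) * (2 - r.c 1) := by
  have h := Cb_assoc r (r.u g)
  rw [Ideal.span_singleton_eq_span_singleton] at h
  obtain ⟨η, hη⟩ := h.symm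
  exact ⟨η, by rw [dI, ← hη, mul_comm]⟩

/-- the cyclotomic unit `d g / d 1` -/
noncomputable def eta (g : L ≃ₐ[ℚ] L) : (𝓞 L)ˣ := (exists_eta r g).choose

lemma eta_spec (g : L ≃ₐ[ℚ] L) : dI r g = (eta r g : 𝓞 L) * (2 - r.c 1) := (exists_eta r g).choose_spec

lemma eta_coe (g : L ≃ₐ[ℚ] L) : r.d g = ((eta r g : 𝓞 L) : L) * ((2 - r.c 1 : 𝓞 L) : L) := by
  rw [← dI_coe, eta_spec]
  exact map_mul (algebraMap (𝓞 L) L) _ _

/-- `∏ (d g / d 1) ^ θ g` -/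
noncomputable def dw (θ : (L ≃ₐ[ℚ] L) → ℤ) : (𝓞 L)ˣ := ∏ g : L ≃ₐ[ℚ] L, (eta r g) ^ (θ g)

lemma dw_zero : dw r 0 = 1 := by
  unfold dw
  simp

lemma dw_add (θ η : (L ≃ₐ[ℚ] L) → ℤ) : dw r (θ + η) = dw r θ * dw r η := by
  unfold dw
  rw [← Finset.prod_mul_distrib]
  refine Finset.prod_congr rfl fun g _ => ?_
  rw [Pi.add_apply, zpow_add]

/-- `dw` as a homomorphism -/
noncomputable def dwHom : ((L ≃ₐ[ℚ] L) → ℤ) →+ Additive (𝓞 L)ˣ where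
  toFun θ := Additive.ofMul (dw r θ)
  map_zero' := by rw [dw_zero]; rfl
  map_add' θ η := by rw [dw_add]; rfl

lemma dw_neg (θ : (L ≃ₐ[ℚ] L) → ℤ) : dw r (-θ) = (dw r θ)⁻¹ := by
  have h := (dwHom r).map_neg θ
  exact congrArg Additive.toMul h

lemma dw_smul (k : ℤ) (θ : (L ≃ₐ[ℚ] L) → ℤ) : dw r (fun g => k * θ g) = dw r θ ^ k := by
  unfold dw
  rw [← Finset.prod_zpow]
  refine Finset.prod_congr rfl fun g _ => ?_
  show eta r g ^ (k * θ g) = (eta r g ^ θ g) ^ k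
  rw [mul_comm, zpow_mul]

lemma d1_ne_zero : ((2 - r.c 1 : 𝓞 L) : L) ≠ 0 := by
  intro h
  have h1 := eta_coe r 1
  rw [h, mul_zero] at h1
  exact r.d_ne_zero 1 h1

lemma unit_coe_ne_zero (u : (𝓞 L)ˣ) : ((u : 𝓞 L) : L) ≠ 0 := by
  intro h
  exact u.ne_zero (RingOfIntegers.coe_eq_zero_iff.1 h)

lemma dw_coe {θ : (L ≃ₐ[ℚ] L) → ℤ} (h : ∑ g, θ g = 0) :
    ((dw r θ : 𝓞 L) : L) = ∏ g, r.d g ^ θ g := by
  classical
  have h1 : ∀ u : (𝓞 L)ˣ, ((u : 𝓞 L) : L) =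
      ((Units.map (algebraMap (𝓞 L) L : 𝓞 L →* L) u : Lˣ) : L) := fun _ => rfl
  have h2 : ((dw r θ : 𝓞 L) : L) = ∏ g, ((eta r g : 𝓞 L) : L) ^ θ g := by
    rw [h1, dw, map_prod, Units.coe_prod]
    refine Finset.prod_congr rfl fun g _ => ?_
    rw [map_zpow, Units.val_zpow_eq_zpow_val, ← h1]
  have h3 : ∏ g, r.d g ^ θ g = (∏ g, ((eta r g : 𝓞 L) : L) ^ θ g) *
      ∏ g : L ≃ₐ[ℚ] L, ((2 - r.c 1 : 𝓞 L) : L) ^ θ g := by
    rw [← Finset.prod_mul_distrib]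
    refine Finset.prod_congr rfl fun g _ => ?_
    rw [eta_coe, mul_zpow]
  have h4 : ∀ S : Finset (L ≃ₐ[ℚ] L), ∏ g ∈ S, ((2 - r.c 1 : 𝓞 L) : L) ^ θ g =
      ((2 - r.c 1 : 𝓞 L) : L) ^ (∑ g ∈ S, θ g) := by
    intro S
    induction S using Finset.induction_on with
    | empty => simp
    | insert a S ha ih =>
      rw [Finset.prod_insert ha, Finset.sum_insert ha, ih, zpow_add₀ (d1_ne_zero r)]
  rw [h2, h3, h4, h, zpow_zero, mul_one]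

lemma dw_mem_Cyc {θ : (L ≃ₐ[ℚ] L) → ℤ} (h : ∑ g, θ g = 0) : dw r θ ∈ r.Cyc := by
  rw [r.mem_Cyc]
  refine ⟨fun g => θ g * 2, by rw [← Finset.sum_mul, h, zero_mul], ?_⟩
  rw [dw_coe r h, ← Finset.prod_pow]
  refine Finset.prod_congr rfl fun g _ => ?_
  rw [zpow_mul]
  norm_cast

include r in
/-- cube roots of units are unique, `L` is real -/
lemma unit_cube_inj {u v : (𝓞 L)ˣ} (h : u ^ 3 = v ^ 3) : u = v := by
  apply Units.ext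
  apply RC.ext_φ r
  have h1 := congrArg (fun w : (𝓞 L)ˣ => r.φ ((w : 𝓞 L) : L)) h
  simp only [Units.val_pow_eq_pow_val] at h1
  have h2 : ∀ w : 𝓞 L, r.φ ((w ^ 3 : 𝓞 L) : L) = r.φ (w : L) ^ 3 := by
    intro w
    rw [← map_pow]
    congr 1
  rw [h2, h2] at h1
  exact (Odd.strictMono_pow (by decide : Odd 3)).injective h1

end

variable {p m n : ℕ} {K L : Type} [Field K] [NumberField K] [Field L] [NumberField L] [Algebra K L]

/-- total sums of relations vanish -/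
lemma rel_sum {θ : (L ≃ₐ[ℚ] L) → ℤ} (hθ : Rel K L θ) : ∑ g, θ g = 0 := by
  classical
  have h1 : ∑ g : L ≃ₐ[ℚ] L, ∑ h : L ≃ₐ[K] L, θ (g * h.restrictScalars ℚ) = 0 :=
    Finset.sum_eq_zero fun g _ => hθ g
  rw [Finset.sum_comm] at h1
  have h2 : ∀ h : L ≃ₐ[K] L, ∑ g : L ≃ₐ[ℚ] L, θ (g * h.restrictScalars ℚ) = ∑ g, θ g := fun h =>
    Equiv.sum_comp (Equiv.mulRight (h.restrictScalars ℚ)) θ
  rw [Finset.sum_congr rfl fun h _ => h2 h, Finset.sum_const, nsmul_eq_mul, mul_eq_zero] at h1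
  rcases h1 with h3 | h3
  · exfalso
    rw [Nat.cast_eq_zero, Finset.card_eq_zero] at h3
    exact (Finset.notMem_empty (1 : L ≃ₐ[K] L)) (h3 ▸ Finset.mem_univ _)
  · exact h3

/-- cubes of units have exponents divisible by three (the conclusion of row RK) -/
def HCube (r : RP p m n K L) : Prop := ∀ θ : (L ≃ₐ[ℚ] L) → ℤ, Rel K L θ →
  ∀ u : (𝓞 L)ˣ, dw r.rL θ = u ^ 3 → ∀ g, (3 : ℤ) ∣ θ g

end H55T3
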