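import Pool.Agent.H55.T3.RN
import Pool.Agent.H5.SW.L3b

/-!
ROW RT (transfer to all real subfields; about 100 lines).  PROOF.  Adapt Pool/Agent/H5/SW/L3b.lean.
`cube_descent`: `algebraMap L F x = y^3`, `F` totally real with `F/ℚ` Galois (`r.gal`, so `F/L` is Galois): for `τ ∈ Gal(F/L)`, `(τ y)^3 = y^3`, and a real embedding `r.φ` of `F` is injective, cubes are injective on `ℝ`, so `τ y = y`;
hence `y` is in the image of `L` (`IsGalois.mem_range_algebraMap_iff_fixed`).
`noNewCube_of_tower`: `x ∈ L`; the valuations of its image in `F` are multiples of three (`exists_val_below`, `even_up` in L3b are private: copy them); the norm is `T.norm_compat`; at `W ∋ 3` take `w = W ∩ 𝓞 L ∋ 3` and the image of `t`: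
`W(x t^3 - 1) = w(..)^e ≤ w(9)^e = W(9)`. Then `noNewCube_pair hp5 hS hm T.rp` and `cube_descent`.
-/

set_option autoImplicit false

namespace H55T3

open NumberField IsDedekindDomain H5SW

/-- the prime below and the valuations -/
private lemma RT_val_below {L F : Type} [Field L] [NumberField L] [Field F] [NumberField F]
    [Algebra L F] (W : HeightOneSpectrum (𝓞 F)) :
    ∃ (w : HeightOneSpectrum (𝓞 L)) (e : ℕ), w.asIdeal = W.asIdeal.under (𝓞 L) ∧
      ∀ x : L, w.valuation L x ^ e = W.valuation F (algebraMap L F x) := by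
  let w : HeightOneSpectrum (𝓞 L) := ⟨W.asIdeal.under (𝓞 L), inferInstance,
    Ideal.IsIntegral.comap_ne_bot _ W.ne_bot⟩
  haveI : W.asIdeal.LiesOver w.asIdeal := ⟨rfl⟩
  exact ⟨w, _, rfl, fun x => HeightOneSpectrum.valuation_liesOver F w W x⟩

private lemma RT_three_up {L F : Type} [Field L] [NumberField L] [Field F] [NumberField F]
    [Algebra L F] {x : L}
    (hev : ∀ w : HeightOneSpectrum (𝓞 L), (3 : ℤ) ∣ WithZero.log (w.valuation L x))
    (W : HeightOneSpectrum (𝓞 F)) :
    (3 : ℤ) ∣ WithZero.log (W.valuation F (algebraMap L F x)) := by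
  obtain ⟨w, e, _, hw⟩ := RT_val_below (L := L) W
  rw [← hw x, WithZero.log_pow, nsmul_eq_mul]
  exact Dvd.dvd.mul_left (hev w) _

theorem cube_descent {f : ℕ} {L F : Type} [Field L] [NumberField L] [Field F] [NumberField F] [Algebra L F]
    (r : RC f F) {x : L} (h : ∃ y : F, algebraMap L F x = y ^ 3) : ∃ y : L, x = y ^ 3 := by
  obtain ⟨y, hy⟩ := h
  have hgal : IsGalois ℚ F := r.gal
  have hgal2 : IsGalois L F := IsGalois.tower_top_of_isGalois ℚ L F
  have hfix : ∀ τ : F ≃ₐ[L] F, τ y = y := by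
    intro τ
    have h1 : (τ y) ^ 3 = y ^ 3 := by
      rw [← map_pow, ← hy, AlgEquiv.commutes]
    have h2 : (r.φ (τ y)) ^ 3 = (r.φ y) ^ 3 := by
      rw [← map_pow, h1, map_pow]
    have h3 : r.φ (τ y) = r.φ y := (Odd.strictMono_pow (by decide : Odd 3)).injective h2
    exact r.φ.injective h3
  obtain ⟨z, hz⟩ := (IsGalois.mem_range_algebraMap_iff_fixed y).2 hfix
  refine ⟨z, (algebraMap L F).injective ?_⟩
  rw [hy, map_pow, hz]

theorem noNewCube_of_tower {p k0 m n : ℕ} [Fact p.Prime] (hp5 : 5 ≤ p) (hS : NV3 p k0) (hm : k0 ≤ m + 1) {K L M F : Type}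
    [Field K] [NumberField K] [Field L] [NumberField L] [Field M]
    [NumberField M] [Field F] [NumberField F] [Algebra K L] [Algebra M F] [Algebra K M] [Algebra L F]
    (T : Tw p m n K L M F) : NoNewCube K L := by
  intro x hx hev hloc hn
  refine cube_descent T.rp.rL ?_
  refine noNewCube_pair hp5 hS hm T.rp (algebraMap L F x) (by rwa [Ne, map_eq_zero])
    (RT_three_up hev) ?_ ?_
  · intro W hW
    obtain ⟨w, e, hwW, hval⟩ := RT_val_below (L := L) W
    have h3w : (3 : 𝓞 L) ∈ w.asIdeal := by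
      rw [hwW]
      change algebraMap (𝓞 L) (𝓞 F) 3 ∈ W.asIdeal
      rwa [map_ofNat]
    obtain ⟨t, ht⟩ := hloc w h3w
    refine ⟨algebraMap L F t, ?_⟩
    have e1 : algebraMap L F x * algebraMap L F t ^ 3 - 1 = algebraMap L F (x * t ^ 3 - 1) := by
      rw [map_sub, map_mul, map_pow, map_one]
    have e2 : (9 : F) = algebraMap L F 9 := (map_ofNat (algebraMap L F) 9).symm
    rw [e1, e2, ← hval, ← hval]
    exact pow_le_pow_left' ht e
  · obtain ⟨y, hy⟩ := hn
    refine ⟨algebraMap K M y, ?_⟩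
    rw [← T.norm_compat x, hy, map_pow]

end H55T3
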