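import Pool.Agent.H55.T3.Z0
import Pool.Agent.H5.SW.S3

/-!
ROW Z3 (the set where `χ(u/a)^q = χ(u/a)`, characteristic three; adapted from H5/SW/S3).
-/

set_option autoImplicit false

namespace H55T3

open Finset H5SW

/-- `y^(2^m) = 1` implies `y = 1` in characteristic three -/
theorem Z3_two {Ω : Type*} [Field Ω] [CharP Ω 3] (y : Ωˣ) (m : ℕ) (h : y ^ 3 ^ m = 1) : y = 1 := by
  have : ExpChar Ω 3 := ExpChar.prime Nat.prime_three
  rw [← Units.val_inj, Units.val_one]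
  apply iterateFrobenius_inj Ω 3 m
  rw [iterateFrobenius_def, map_one, ← Units.val_pow_eq_pow_val, h, Units.val_one]

theorem Z3_chired {Ω : Type*} [Field Ω] [CharP Ω 3] {p k e s : ℕ} [Fact p.Prime] (hQ : QD3 p e s)
    (χ : (ZMod (p ^ (k + 1)))ˣ →* Ωˣ) (v : (ZMod (p ^ (k + 1)))ˣ) (hx : v ^ (p - 1) = 1) : χ v ^ (3 ^ s - 1) = 1 := by
  have hp : p.Prime := Fact.out
  have hp1 : p - 1 ≠ 0 := by have := hp.two_le; omega
  obtain ⟨m, r, hr, hmr⟩ := Nat.exists_eq_pow_mul_and_not_dvd hp1 3 (by norm_num)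
  have h1 : χ v ^ r = 1 := by
    apply Z3_two (χ v ^ r) m
    rw [← pow_mul, mul_comm, ← hmr, ← map_pow, hx, map_one]
  obtain ⟨c, hc⟩ := hQ.cop r hr ⟨3 ^ m, by rw [hmr]; ring⟩
  rw [hc, pow_mul, h1, one_pow]

theorem Z3_iff {Ω : Type*} [Field Ω] (s : ℕ) (y : Ωˣ) : y ^ (3 ^ s) = y ↔ y ^ (3 ^ s - 1) = 1 := by
  have h : y ^ (3 ^ s) = y ^ (3 ^ s - 1) * y := by
    rw [← pow_succ, Nat.sub_add_cancel (Nat.one_le_pow _ _ (by norm_num))]
  rw [h]
  exact mul_eq_right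

/-- structure of `H` -/
theorem Z3_struct {Ω : Type*} [Field Ω] [CharP Ω 3] {p k e s : ℕ} [Fact p.Prime] (hp2 : p ≠ 2) (hQ : QD3 p e s)
    (hek : 2 * e ≤ k + 1) (χ : (ZMod (p ^ (k + 1)))ˣ →* Ωˣ) (hχ : Prim χ) (u1 : (ZMod (p ^ (k + 1)))ˣ)
    (hu1 : (u1 : ZMod (p ^ (k + 1))) = 1 + (p : ZMod (p ^ (k + 1))) ^ (k + 1 - e)) (v : (ZMod (p ^ (k + 1)))ˣ)
    (hv : χ v ^ (3 ^ s) = χ v) : ∃ x : ℤ_[p]ˣ, x ^ (p - 1) = 1 ∧ ∃ t < p ^ e, v = red (k + 1) x * u1 ^ t := by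
  have hp : p.Prime := Fact.out
  have he := hQ.e1
  have hk : 1 ≤ k := by omega
  obtain ⟨x, hx1, hx2⟩ := teich_exists ((S3_r p k v : (ZMod p)ˣ) : ZMod p) (Units.ne_zero _)
  refine ⟨x, hx1, ?_⟩
  have hredx : (red (k + 1) x) ^ (p - 1) = 1 := by rw [← map_pow, hx1, map_one]
  have hrv : S3_r p k (v * (red (k + 1) x)⁻¹) = 1 := by
    rw [map_mul, map_inv, mul_inv_eq_one, ← Units.val_inj, S3_r_red, hx2]
  have hχ' : χ (v * (red (k + 1) x)⁻¹) ^ (3 ^ s - 1) = 1 := by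
    rw [map_mul, map_inv, mul_pow, inv_pow, (Z3_iff s _).1 hv, Z3_chired hQ χ _ hredx]; simp
  obtain ⟨c, hc⟩ := hQ.dvd
  have hpc : ¬ p ∣ c := by
    rintro ⟨c', rfl⟩
    exact hQ.not_dvd ⟨c', by rw [hc]; ring⟩
  set z := v * (red (k + 1) x)⁻¹ with hz
  have hzp : z ^ p ^ k = 1 := by
    obtain ⟨N, hN1, hN, hd, hnd⟩ := S3_rep z hrv
    rw [S3_lte hp2 hN1 hN hd hnd (pow_ne_zero _ hp.ne_zero), padicValNat.prime_pow]
    have : N - 1 ≠ 0 := by omega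
    have := one_le_padicValNat_of_dvd this hd
    omega
  have hze : z ^ p ^ e = 1 := by
    apply S3_inj hp2 hk χ hχ
    · rw [map_pow, hrv, one_pow]
    · have h1 : χ (z ^ p ^ e) ^ c = 1 := by
        rw [← map_pow, ← pow_mul, ← hc, map_pow]
        exact hχ'
      have h2 : χ (z ^ p ^ e) ^ p ^ k = 1 := by
        rw [← map_pow, ← pow_mul, mul_comm, pow_mul, hzp, one_pow, map_one]
      have h3 := pow_gcd_eq_one.2 ⟨h1, h2⟩
      rwa [Nat.Coprime.gcd_eq_one, pow_one] at h3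
      exact (Nat.Coprime.pow_left k ((Nat.Prime.coprime_iff_not_dvd hp).2 hpc)).symm
  obtain ⟨t, ht, htz⟩ := S3_root hp2 hek u1 hu1 z hrv hze
  refine ⟨t, ht, ?_⟩
  rw [← htz, hz]
  rw [mul_comm v, mul_inv_cancel_left]

open Classical in
theorem cosets3 {Ω : Type*} [Field Ω] [CharP Ω 3] {p k e s : ℕ} [Fact p.Prime] (hp2 : p ≠ 2) (hQ : QD3 p e s)
    (hek : 2 * e ≤ k + 1) {E : Finset ℤ_[p]ˣ} (hE : EH p E) (χ : (ZMod (p ^ (k + 1)))ˣ →* Ωˣ) (hev : χ (-1) = 1)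
    (hχ : Prim χ) (a u1 : (ZMod (p ^ (k + 1)))ˣ)
    (hu1 : (u1 : ZMod (p ^ (k + 1))) = 1 + (p : ZMod (p ^ (k + 1))) ^ (k + 1 - e))
    (h : (ZMod (p ^ (k + 1)))ˣ → Ω) (hh : ∀ u, h (-u) = h u) :
    ∑ u ∈ (Hf (p ^ (k + 1))).filter (fun u => χ (u * a⁻¹) ^ (3 ^ s) = χ (u * a⁻¹)), h u =
      ∑ x ∈ E, ∑ t ∈ range (p ^ e), h (a * red (k + 1) x * u1 ^ t) := by
  have hp : p.Prime := Fact.out
  have he := hQ.e1
  have hk : 1 ≤ k := by omega
  have hodd : Odd (p ^ (k + 1)) := (hp.odd_of_ne_two hp2).pow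
  have hone : 1 < p ^ (k + 1) := Nat.one_lt_pow (Nat.succ_ne_zero k) hp.one_lt
  have hHf := isHalf_Hf hodd hone
  -- roots agreeing after reduction
  have key : ∀ x y : ℤ_[p]ˣ, x ^ (p - 1) = 1 → y ^ (p - 1) = 1 → ∀ t t' : ℕ,
      red (k + 1) x * u1 ^ t = red (k + 1) y * u1 ^ t' → x = y := by
    intro x y hx hy t t' hxy
    apply teich_unique hx hy
    rw [← S3_r_red k x, ← S3_r_red k y]
    have h2 := congrArg (S3_r p k) hxy
    rw [map_mul, map_mul, map_pow, map_pow, S3_u1r he hek u1 hu1, one_pow, one_pow, mul_one, mul_one] at h2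
    rw [h2]
  have hneg : ∀ x : ℤ_[p]ˣ, x ^ (p - 1) = 1 → (-x) ^ (p - 1) = 1 := by
    intro x hx
    have hev' : Even (p - 1) := by
      obtain ⟨m, hm⟩ := hp.odd_of_ne_two hp2
      exact ⟨m, by omega⟩
    rw [hev'.neg_pow, hx]
  have hredneg : ∀ x : ℤ_[p]ˣ, red (k + 1) (-x) = - red (k + 1) x := by
    intro x
    rw [← Units.val_inj]
    show PadicInt.toZModPow (k + 1) ((-x : ℤ_[p]ˣ) : ℤ_[p]) = - PadicInt.toZModPow (k + 1) (x : ℤ_[p])
    rw [Units.val_neg, map_neg]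
  have hχu1 : ∀ t : ℕ, χ (u1 ^ t) ^ (3 ^ s - 1) = 1 := by
    intro t
    obtain ⟨c, hc⟩ := hQ.dvd
    rw [← map_pow, ← pow_mul, mul_comm t, pow_mul, hc, pow_mul, S3_u1ord hek u1 hu1, one_pow, one_pow, map_one]
  -- the image set
  set A' : Finset (ZMod (p ^ (k + 1)))ˣ := (E ×ˢ range (p ^ e)).image (fun q => a * red (k + 1) q.1 * u1 ^ q.2) with hA'
  have hsum : ∑ x ∈ E, ∑ t ∈ range (p ^ e), h (a * red (k + 1) x * u1 ^ t) = ∑ u ∈ A', h u := by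
    rw [hA', Finset.sum_image, Finset.sum_product]
    rintro ⟨x, t⟩ hx ⟨y, t'⟩ hy hxy
    simp only [coe_product, Set.mem_prod, mem_coe, mem_range] at hx hy
    simp only at hxy
    rw [mul_assoc, mul_assoc, mul_right_inj] at hxy
    have hxy1 := key x y (hE.root x hx.1) (hE.root y hy.1) t t' hxy
    subst hxy1
    rw [mul_right_inj] at hxy
    rw [S3_u1inj hek u1 hu1 hx.2 hy.2 hxy]
  rw [hsum]
  apply S3_sum _ _ _ _ h hh
  · intro u hu
    rw [mem_filter] at hu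
    obtain ⟨x, hx, t, ht, hxt⟩ := Z3_struct hp2 hQ hek χ hχ u1 hu1 (u * a⁻¹) hu.2
    have hu' : u = a * red (k + 1) x * u1 ^ t := by
      rw [mul_assoc, ← hxt, mul_comm u, mul_inv_cancel_left]
    rcases hE.cov x hx with hxE | hxE
    · left
      rw [hA', mem_image]
      exact ⟨(x, t), by simp [hxE, ht], hu'.symm⟩
    · right
      rw [hA', mem_image]
      refine ⟨(-x, t), by simp [hxE, ht], ?_⟩
      simp only
      rw [hredneg, hu', mul_neg, neg_mul]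
  · intro u hu
    rw [hA', mem_image] at hu
    obtain ⟨⟨x, t⟩, hxt, rfl⟩ := hu
    simp only [mem_product, mem_range] at hxt
    have hredx : (red (k + 1) x) ^ (p - 1) = 1 := by rw [← map_pow, hE.root x hxt.1, map_one]
    have hin : χ (a * red (k + 1) x * u1 ^ t * a⁻¹) ^ (3 ^ s) = χ (a * red (k + 1) x * u1 ^ t * a⁻¹) := by
      have h1 : a * red (k + 1) x * u1 ^ t * a⁻¹ = red (k + 1) x * u1 ^ t := by
        rw [mul_comm _ a⁻¹, mul_assoc a, inv_mul_cancel_left]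
      rw [h1, Z3_iff, map_mul, mul_pow, Z3_chired hQ χ _ hredx, hχu1, one_mul]
    by_cases hH : a * red (k + 1) x * u1 ^ t ∈ Hf (p ^ (k + 1))
    · left
      rw [mem_filter]
      exact ⟨hH, hin⟩
    · right
      rw [mem_filter]
      refine ⟨?_, ?_⟩
      · by_contra hc
        exact hH ((hHf _).2 hc)
      · have h1 : χ (-(a * red (k + 1) x * u1 ^ t) * a⁻¹) = χ (a * red (k + 1) x * u1 ^ t * a⁻¹) := by
          rw [neg_mul, ← neg_one_mul, map_mul, hev, one_mul]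
        rw [h1]
        exact hin
  · intro u hu hu2
    rw [mem_filter] at hu hu2
    exact (hHf u).1 hu.1 hu2.1
  · intro u hu hu2
    rw [hA', mem_image] at hu hu2
    obtain ⟨⟨x, t⟩, hxt, rfl⟩ := hu
    obtain ⟨⟨y, t'⟩, hyt, hy⟩ := hu2
    simp only [mem_product, mem_range] at hxt hyt hy
    have h1 : red (k + 1) y * u1 ^ t' = red (k + 1) (-x) * u1 ^ t := by
      rw [hredneg, neg_mul]
      have : a * (red (k + 1) y * u1 ^ t') = a * (-(red (k + 1) x * u1 ^ t)) := by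
        rw [← mul_assoc, hy, mul_neg, mul_assoc]
      exact mul_left_cancel this
    have h2 := key y (-x) (hE.root y hyt.1) (hneg x (hE.root x hxt.1)) t' t h1
    exact hE.neg x hxt.1 (h2 ▸ hyt.1)

end H55T3
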