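import Pool.Agent.H55.T3.Z4
import Pool.Agent.H55.T3.Z5
import Pool.Agent.H5.SW.SB

/-!
ROW ZB (no relation, characteristic three; adapted from H5/SW/SB).  PROOF. `P = p^e`. Index type `i = (x, δ, g)`, `x ∈ E`, `δ < 2`, `g : E → Fin 3`;
exponent vector `m_i y = [y = x] (r x + P δ) + P g(y)`, `γ_i = ∑ m_i(y) y ∈ ℤ_[p]`, coefficient `c x * w_δ` if `g x = 0` and `0` otherwise, `w_0 = r x`, `w_1 = P - r x`.
`(1 - Y)^2 = 1 + Y + Y^2` in characteristic three.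
-/

set_option autoImplicit false

namespace H55T3

open Finset H5SW

theorem ZB_prod {R : Type*} [CommRing R] {ι : Type} [Fintype ι] [DecidableEq ι] (x : ι) (F : ι → Fin 3 → R)
    (h0 : F x 0 = 1) :
    ∑ g : ι → Fin 3, (if g x = 0 then ∏ y, F y (g y) else 0) = ∏ y ∈ univ.erase x, ∑ d, F y d := by
  have h1 : ∏ y ∈ univ.erase x, ∑ d, F y d =
      ∏ y, ∑ d : Fin 3, (if y = x then (if d = 0 then 1 else 0) else F y d) := by
    rw [← Finset.mul_prod_erase univ (fun y => ∑ d : Fin 3, (if y = x then (if d = 0 then 1 else 0) else F y d))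
      (mem_univ x)]
    have h2 : ∑ d : Fin 3, (if x = x then (if d = 0 then (1 : R) else 0) else F x d) = 1 := by
      simp
    rw [h2, one_mul]
    refine prod_congr rfl fun y hy => ?_
    rw [mem_erase] at hy
    refine sum_congr rfl fun d _ => ?_
    rw [if_neg hy.1]
  rw [h1, Finset.prod_univ_sum, Fintype.piFinset_univ]
  refine sum_congr rfl fun g _ => ?_
  rw [← Finset.mul_prod_erase univ (fun y => if y = x then (if g y = 0 then (1 : R) else 0) else F y (g y))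
    (mem_univ x)]
  simp only [if_true]
  by_cases hg : g x = 0
  · rw [if_pos hg, if_pos hg, one_mul, ← Finset.mul_prod_erase univ (fun y => F y (g y)) (mem_univ x), hg, h0,
      one_mul]
    refine prod_congr rfl fun y hy => ?_
    rw [mem_erase] at hy
    rw [if_neg hy.1]
  · rw [if_neg hg, if_neg hg, zero_mul]

/-- the exponent vector -/
def ZB_m {ι : Type} [DecidableEq ι] (P : ℕ) (r : ι → ℕ) (i : ι × Fin 2 × (ι → Fin 3)) (y : ι) : ℕ :=
  (if y = i.1 then r i.1 + P * (i.2.1 : ℕ) else 0) + P * (i.2.2 y : ℕ)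

theorem ZB_expand {R : Type*} [CommRing R] {ι : Type} [Fintype ι] [DecidableEq ι] (P : ℕ) (r : ι → ℕ)
    (c Y : ι → R) (w : ι → Fin 2 → R) :
    ∑ i : ι × Fin 2 × (ι → Fin 3), (if i.2.2 i.1 = 0 then c i.1 * w i.1 i.2.1 else 0) *
        ∏ y, Y y ^ ZB_m P r i y =
      ∑ x, c x * (Y x ^ r x * (w x 0 + w x 1 * Y x ^ P)) *
        ∏ y ∈ univ.erase x, (1 + Y y ^ P + (Y y ^ P) ^ 2) := by
  rw [Fintype.sum_prod_type]
  refine sum_congr rfl fun x _ => ?_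
  rw [Fintype.sum_prod_type]
  have h1 : ∀ δ : Fin 2, ∑ g : ι → Fin 3, (if g x = 0 then c x * w x δ else 0) *
      ∏ y, Y y ^ ZB_m P r (x, δ, g) y =
      c x * w x δ * Y x ^ (r x + P * (δ : ℕ)) * ∏ y ∈ univ.erase x, (1 + Y y ^ P + (Y y ^ P) ^ 2) := by
    intro δ
    have h2 : ∀ y : ι, 1 + Y y ^ P + (Y y ^ P) ^ 2 = ∑ d : Fin 3, (Y y ^ P) ^ (d : ℕ) := by
      intro y
      rw [Fin.sum_univ_three]
      simp
    rw [prod_congr rfl (fun y _ => h2 y), ← ZB_prod x (fun y d => (Y y ^ P) ^ (d : ℕ)) (by simp), mul_sum]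
    refine sum_congr rfl fun g _ => ?_
    by_cases hg : g x = 0
    · rw [if_pos hg, if_pos hg]
      have h3 : ∏ y, Y y ^ ZB_m P r (x, δ, g) y =
          (∏ y, Y y ^ (if y = x then r x + P * (δ : ℕ) else 0)) * ∏ y, (Y y ^ P) ^ (g y : ℕ) := by
        rw [← prod_mul_distrib]
        refine prod_congr rfl fun y _ => ?_
        show Y y ^ ((if y = x then r x + P * (δ : ℕ) else 0) + P * (g y : ℕ)) = _
        rw [pow_add, pow_mul]
      have h4 : ∏ y, Y y ^ (if y = x then r x + P * (δ : ℕ) else 0) = Y x ^ (r x + P * (δ : ℕ)) := by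
        rw [Finset.prod_eq_single x]
        · rw [if_pos rfl]
        · intro y _ hy
          rw [if_neg hy, pow_zero]
        · intro h
          exact absurd (mem_univ x) h
      rw [h3, h4]
      ring
    · rw [if_neg hg, if_neg hg, zero_mul, mul_zero]
  rw [sum_congr rfl (fun δ _ => h1 δ), Fin.sum_univ_two]
  simp only [Fin.val_zero, Fin.val_one, mul_zero, mul_one, add_zero]
  rw [pow_add]
  ring

theorem ZB_key {p e : ℕ} [Fact p.Prime] (he : 1 ≤ e) {k : ℕ} (hk : 2 * e ≤ k)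
    {Ω : Type} [Field Ω] {z : Ω} (hz : IsPrimitiveRoot z (p ^ (k + 1))) (ρ : Ω)
    (hρ : ρ ^ (p ^ e) = 1) (x : ℤ_[p]ˣ) :
    ∃ r : ℕ, r ≤ p ^ e ∧ ∀ b : ℕ,
      (z ^ ((1 + p ^ e * b) * (PadicInt.toZModPow (k + 1) (x : ℤ_[p])).val)) ^ (p ^ e) ≠ 1 ∧
      ∑ t ∈ range (p ^ e), ρ ^ t * Fr3 (z ^ ((1 + p ^ e * b) * (1 + p ^ (k + 1 - e) * t) *
        (PadicInt.toZModPow (k + 1) (x : ℤ_[p])).val))
        = ((p ^ e : ℕ) : Ω) * ((z ^ ((1 + p ^ e * b) * (PadicInt.toZModPow (k + 1) (x : ℤ_[p])).val)) ^ r *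
          ((r : Ω) + ((p ^ e - r : ℕ) : Ω) *
            (z ^ ((1 + p ^ e * b) * (PadicInt.toZModPow (k + 1) (x : ℤ_[p])).val)) ^ (p ^ e))) /
          (1 - (z ^ ((1 + p ^ e * b) * (PadicInt.toZModPow (k + 1) (x : ℤ_[p])).val)) ^ (p ^ e))
            ^ 2 := by
  have hp := Fact.out (p := p.Prime)
  have hcop := SB_cop k x
  obtain ⟨v, hv⟩ : ∃ v : ℕ, v = (PadicInt.toZModPow (k + 1) (x : ℤ_[p])).val := ⟨_, rfl⟩
  rw [← hv] at hcop
  rw [← hv]
  have hsplit : p ^ (k + 1) = p ^ (k + 1 - e) * p ^ e := by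
    rw [← pow_add]
    congr 1
    omega
  have hω1 : IsPrimitiveRoot (z ^ (p ^ (k + 1 - e))) (p ^ e) :=
    hz.pow (pow_pos hp.pos _) hsplit
  have hω2 : IsPrimitiveRoot ((z ^ (p ^ (k + 1 - e))) ^ v) (p ^ e) :=
    hω1.pow_of_coprime v (Nat.Coprime.pow_right e hcop)
  obtain ⟨r, _, hr2, hr3⟩ := mono_sum3 (pow_pos hp.pos e) hω2 hρ
  refine ⟨r, hr2, fun b => ?_⟩
  have hb : Nat.Coprime (1 + p ^ e * b) p := by
    have h1 : p ^ e * b = p * (p ^ (e - 1) * b) := by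
      rw [← mul_assoc, ← pow_succ']
      congr 2
      omega
    rw [h1]
    rw [Nat.coprime_add_mul_left_left]
    exact Nat.coprime_one_left p
  have hne : (z ^ ((1 + p ^ e * b) * v)) ^ (p ^ e) ≠ 1 := by
    intro h1
    rw [← pow_mul, hz.pow_eq_one_iff_dvd] at h1
    have h2 : Nat.Coprime (p ^ (k + 1)) ((1 + p ^ e * b) * v) :=
      Nat.Coprime.pow_left _ (Nat.Coprime.symm (Nat.Coprime.mul_left hb hcop))
    have h3 := h2.dvd_of_dvd_mul_left h1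
    have h4 := (Nat.pow_dvd_pow_iff_le_right hp.one_lt).1 h3
    omega
  refine ⟨hne, ?_⟩
  rw [← hr3 _ hne]
  refine sum_congr rfl (fun t _ => ?_)
  congr 2
  rw [← pow_mul, ← pow_mul, ← pow_add]
  refine SB_pow hz.pow_eq_one ?_
  have h5 : (1 + p ^ e * b) * (1 + p ^ (k + 1 - e) * t) * v
      = p ^ (k + 1 - e) * v * t + (1 + p ^ e * b) * v + p ^ (k + 1) * (b * t * v) := by
    rw [hsplit]
    ring
  rw [h5]
  push_cast
  have h6 : ((p : ZMod (p ^ (k + 1))) ^ (k + 1)) = 0 := by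
    have := ZMod.natCast_self (p ^ (k + 1))
    push_cast at this
    exact this
  rw [h6]
  ring

/-- the exponent attached to `i` -/
noncomputable def ZB_gam {p : ℕ} [Fact p.Prime] {E : Finset ℤ_[p]ˣ} [DecidableEq E] (P : ℕ) (r : E → ℕ)
    (i : E × Fin 2 × (E → Fin 3)) : ℤ_[p] :=
  ∑ y : E, (ZB_m P r i y : ℤ_[p]) * ((y : ℤ_[p]ˣ) : ℤ_[p])

theorem ZB_exp {p k : ℕ} [Fact p.Prime] {E : Finset ℤ_[p]ˣ} {Ω : Type} [Field Ω] {z : Ω}
    (hz : z ^ (p ^ (k + 1)) = 1) (m : E → ℕ) (B : ℕ) :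
    ∏ y : E, (z ^ (B * (PadicInt.toZModPow (k + 1) ((y : ℤ_[p]ˣ) : ℤ_[p])).val)) ^ (m y)
      = z ^ (B * (PadicInt.toZModPow (k + 1) (∑ y : E, (m y : ℤ_[p]) * ((y : ℤ_[p]ˣ) : ℤ_[p]))).val) := by
  simp only [← pow_mul]
  rw [Finset.prod_pow_eq_pow_sum]
  refine SB_pow hz ?_
  have : NeZero (p ^ (k + 1)) := ⟨pow_ne_zero _ (Fact.out (p := p.Prime)).ne_zero⟩
  push_cast
  simp only [ZMod.natCast_val, ZMod.cast_id', id_eq, map_mul, map_natCast, map_sum]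
  rw [mul_sum]
  refine sum_congr rfl (fun y _ => ?_)
  ring

theorem ZB_T {Ω : Type} [Field Ω] {m : ℤ} (hm : m ≠ 0) :
    (1 : LaurentPolynomial Ω) ≠ LaurentPolynomial.T m := by
  intro h
  rw [← LaurentPolynomial.T_zero] at h
  have h1 : (LaurentPolynomial.T 0 : LaurentPolynomial Ω).coeff 0
    = (LaurentPolynomial.T m : LaurentPolynomial Ω).coeff 0 := by rw [h]
  simp [hm] at h1

theorem no_relation3 {p e : ℕ} [Fact p.Prime] (hp5 : 5 ≤ p) (he : 1 ≤ e) {E : Finset ℤ_[p]ˣ} (hE : EH p E) :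
    ∃ k0 : ℕ, 2 * e ≤ k0 ∧ ∀ k ≥ k0, ∀ (Ω : Type) [Field Ω] [CharP Ω 3] (z : Ω), IsPrimitiveRoot z (p ^ (k + 1)) →
      ∀ (c : ℤ_[p]ˣ → Ω) (ρ : Ω), c 1 ≠ 0 → ρ ^ (p ^ e) = 1 →
        ¬ ∀ b : ℕ, ∑ x ∈ E, c x * ∑ t ∈ range (p ^ e),
          ρ ^ t * Fr3 (z ^ ((1 + p ^ e * b) * (1 + p ^ (k + 1 - e) * t) *
            (PadicInt.toZModPow (k + 1) (x : ℤ_[p])).val)) = 0 := by
  classical
  have hp2 : p ≠ 2 := by omega
  obtain ⟨P, hP⟩ : ∃ P, P = p ^ e := ⟨_, rfl⟩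
  choose K hK using fun r : E → Fin (p ^ e + 1) =>
    grouping3 (e := e) hp5 (ZB_gam P (fun x : E => (r x : ℕ)))
  refine ⟨max (2 * e) (univ.sup K), le_max_left _ _, ?_⟩
  intro k hk Ω _ _ z hz c ρ hc hρ H
  have h3 : (3 : Ω) = 0 := by exact_mod_cast CharP.cast_eq_zero Ω 3
  have hk1 : 2 * e ≤ k := (le_max_left _ _).trans hk
  have hk2 : ∀ r, K r ≤ k := fun r =>
    (Finset.le_sup (f := K) (mem_univ r)).trans ((le_max_right _ _).trans hk)
  choose r hr1 hr2 using fun x : ℤ_[p]ˣ => ZB_key he hk1 hz ρ hρ x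
  obtain ⟨l, hl1, hl2, hl3⟩ := sep_form hp2 hE
  have hPΩ := three_cast_ne hp5 e Ω
  rw [← hP] at hPΩ hr2 hr1
  -- the coefficients
  obtain ⟨w, hw⟩ : ∃ w : E → Fin 2 → Ω, ∀ x : E, w x 0 = (r (x : ℤ_[p]ˣ) : Ω) ∧
      w x 1 = ((P - r (x : ℤ_[p]ˣ) : ℕ) : Ω) :=
    ⟨fun x δ => if δ = 0 then (r (x : ℤ_[p]ˣ) : Ω) else ((P - r (x : ℤ_[p]ˣ) : ℕ) : Ω), fun x => by simp⟩
  have hrel : ∀ b : ℕ, ∑ i : E × Fin 2 × (E → Fin 3), (if i.2.2 i.1 = 0 then c i.1 * w i.1 i.2.1 else 0)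
      * z ^ ((1 + p ^ e * b) * (PadicInt.toZModPow (k + 1)
        (ZB_gam P (fun x : E => r (x : ℤ_[p]ˣ)) i)).val) = 0 := by
    intro b
    rw [← hP]
    obtain ⟨Y, hY⟩ : ∃ Y : E → Ω, ∀ x : E, Y x =
      z ^ ((1 + P * b) * (PadicInt.toZModPow (k + 1) ((x : ℤ_[p]ˣ) : ℤ_[p])).val) := ⟨_, fun _ => rfl⟩
    have h1 : ∀ i : E × Fin 2 × (E → Fin 3), z ^ ((1 + P * b) * (PadicInt.toZModPow (k + 1)
        (ZB_gam P (fun x : E => r (x : ℤ_[p]ˣ)) i)).val) =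
        ∏ y, Y y ^ ZB_m P (fun x : E => r (x : ℤ_[p]ˣ)) i y := by
      intro i
      unfold ZB_gam
      rw [← ZB_exp hz.pow_eq_one]
      exact prod_congr rfl fun y _ => by rw [hY]
    rw [sum_congr rfl (fun i _ => by rw [h1 i]), ZB_expand P (fun x : E => r (x : ℤ_[p]ˣ)) (fun x : E => c x) Y w]
    have h2 := H b
    rw [← Finset.sum_coe_sort E, ← hP] at h2
    have hne : ∀ x : E, 1 - Y x ^ P ≠ 0 := by
      intro x h0
      apply (hr2 x b).1
      rw [← hY]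
      exact (sub_eq_zero.1 h0).symm
    have h4 : ∀ y : E, 1 + Y y ^ P + (Y y ^ P) ^ 2 = (1 - Y y ^ P) ^ 2 := by
      intro y
      linear_combination (Y y ^ P) * h3
    have h5 : (∏ y : E, (1 - Y y ^ P) ^ 2) * ((P : Ω) * ∑ x : E, c x * (Y x ^ (r (x : ℤ_[p]ˣ)) *
        ((r (x : ℤ_[p]ˣ) : Ω) + ((P - r (x : ℤ_[p]ˣ) : ℕ) : Ω) * Y x ^ P)) / (1 - Y x ^ P) ^ 2) = 0 := by
      rw [mul_eq_zero]
      right
      rw [← h2, mul_sum]
      refine sum_congr rfl fun x _ => ?_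
      rw [(hr2 x b).2, ← hY]
      ring
    have h6 : (P : Ω) * ∑ x : E, c x * (Y x ^ (r (x : ℤ_[p]ˣ)) * (w x 0 + w x 1 * Y x ^ P)) *
        ∏ y ∈ univ.erase x, (1 + Y y ^ P + (Y y ^ P) ^ 2) = 0 := by
      rw [← h5, mul_sum, mul_sum, mul_sum]
      refine sum_congr rfl fun x _ => ?_
      rw [(hw x).1, (hw x).2, prod_congr rfl (fun y _ => h4 y), ← Finset.mul_prod_erase univ _ (mem_univ x)]
      have h7 : (1 - Y x ^ P) ^ 2 ≠ 0 := pow_ne_zero _ (hne x)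
      generalize ∏ y ∈ univ.erase x, (1 - Y y ^ P) ^ 2 = V
      generalize (1 - Y x ^ P) ^ 2 = W at h7
      field_simp
    exact (mul_eq_zero.1 h6).resolve_left hPΩ
  have hgr := hK (fun x : E => ⟨r (x : ℤ_[p]ˣ), by have := hr1 (x : ℤ_[p]ˣ); omega⟩) k (hk2 _) Ω z hz
    (fun i : E × Fin 2 × (E → Fin 3) => if i.2.2 i.1 = 0 then c i.1 * w i.1 i.2.1 else 0) hrel
  obtain ⟨Λ, hΛ⟩ : ∃ Λ : E × Fin 2 × (E → Fin 3) → ℤ, ∀ i, Λ i = ∑ y : E,
      (ZB_m P (fun x : E => r (x : ℤ_[p]ˣ)) i y : ℤ) * l y := ⟨_, fun _ => rfl⟩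
  have hΛeq : ∀ i j, ZB_gam P (fun x : E => r (x : ℤ_[p]ˣ)) i = ZB_gam P (fun x : E => r (x : ℤ_[p]ˣ)) j →
      Λ i = Λ j := by
    intro i j hij
    have h1 := hl3 (fun x => if hx : x ∈ E then
      (ZB_m P (fun x : E => r (x : ℤ_[p]ˣ)) i ⟨x, hx⟩ : ℤ) - (ZB_m P (fun x : E => r (x : ℤ_[p]ˣ)) j ⟨x, hx⟩ : ℤ)
      else 0) (by
        rw [← Finset.sum_coe_sort E]
        rw [← sub_eq_zero, ZB_gam, ZB_gam, ← sum_sub_distrib] at hij
        rw [← hij]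
        refine sum_congr rfl fun y _ => ?_
        rw [dif_pos y.2]
        push_cast
        ring)
    rw [← Finset.sum_coe_sort E] at h1
    rw [← sub_eq_zero, hΛ, hΛ, ← sum_sub_distrib, ← h1]
    refine sum_congr rfl fun y _ => ?_
    rw [dif_pos y.2]
    ring
  have hsum : ∑ i : E × Fin 2 × (E → Fin 3), LaurentPolynomial.C (if i.2.2 i.1 = 0 then c i.1 * w i.1 i.2.1 else 0)
      * LaurentPolynomial.T (Λ i) = 0 := by
    rw [← Finset.sum_fiberwise_of_maps_to (s := univ)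
      (t := univ.image (ZB_gam P (fun x : E => r (x : ℤ_[p]ˣ))))
      (g := ZB_gam P (fun x : E => r (x : ℤ_[p]ˣ)))
      (fun i _ => mem_image_of_mem _ (mem_univ i))]
    refine sum_eq_zero (fun g hg => ?_)
    obtain ⟨i0, _, rfl⟩ := mem_image.1 hg
    have h1 := hgr i0
    have h2 : ∀ i ∈ univ.filter (fun i => ZB_gam P (fun x : E => r (x : ℤ_[p]ˣ)) i
        = ZB_gam P (fun x : E => r (x : ℤ_[p]ˣ)) i0),
        LaurentPolynomial.C (if i.2.2 i.1 = 0 then c i.1 * w i.1 i.2.1 else 0) * LaurentPolynomial.T (Λ i)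
        = LaurentPolynomial.C (if i.2.2 i.1 = 0 then c i.1 * w i.1 i.2.1 else 0) * LaurentPolynomial.T (Λ i0) := by
      intro i hi
      rw [mem_filter] at hi
      rw [hΛeq i i0 hi.2]
    rw [sum_congr rfl h2, ← sum_mul, ← map_sum]
    have h4 : ∑ i ∈ univ.filter (fun i => ZB_gam P (fun x : E => r (x : ℤ_[p]ˣ)) i
        = ZB_gam P (fun x : E => r (x : ℤ_[p]ˣ)) i0), (if i.2.2 i.1 = 0 then c i.1 * w i.1 i.2.1 else 0) = 0 := h1
    rw [h4, map_zero, zero_mul]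
  have hT : ∀ i : E × Fin 2 × (E → Fin 3), LaurentPolynomial.C (if i.2.2 i.1 = 0 then c i.1 * w i.1 i.2.1 else 0)
      * LaurentPolynomial.T (Λ i)
      = (if i.2.2 i.1 = 0 then (LaurentPolynomial.C (c i.1) : LaurentPolynomial Ω)
          * LaurentPolynomial.C (w i.1 i.2.1) else 0)
        * ∏ y : E, (LaurentPolynomial.T (l y) : LaurentPolynomial Ω) ^ ZB_m P (fun x : E => r (x : ℤ_[p]ˣ)) i y := by
    intro i
    have h1 : (LaurentPolynomial.T (Λ i) : LaurentPolynomial Ω)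
        = ∏ y : E, (LaurentPolynomial.T (l y) : LaurentPolynomial Ω) ^ ZB_m P (fun x : E => r (x : ℤ_[p]ˣ)) i y := by
      rw [hΛ]
      have h2 : ∀ S : Finset E, (∏ y ∈ S, (LaurentPolynomial.T (l y) : LaurentPolynomial Ω) ^
          ZB_m P (fun x : E => r (x : ℤ_[p]ˣ)) i y) =
          LaurentPolynomial.T (∑ y ∈ S, (ZB_m P (fun x : E => r (x : ℤ_[p]ˣ)) i y : ℤ) * l y) := by
        intro S
        induction S using Finset.induction_on with
        | empty => simp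
        | insert a S ha ih =>
          rw [prod_insert ha, sum_insert ha, ih, LaurentPolynomial.T_pow, LaurentPolynomial.T_add]
      exact (h2 univ).symm
    rw [h1]
    congr 1
    split_ifs
    · rw [map_mul]
    · rw [map_zero]
  rw [sum_congr rfl (fun i _ => hT i), ZB_expand (R := LaurentPolynomial Ω) P (fun x : E => r (x : ℤ_[p]ˣ))
    (fun x : E => LaurentPolynomial.C (c x)) (fun y : E => LaurentPolynomial.T (l y))
    (fun x δ => LaurentPolynomial.C (w x δ))] at hsum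
  obtain ⟨u, hu⟩ : ∃ u : E, (u : ℤ_[p]ˣ) = 1 := ⟨⟨1, hE.one⟩, rfl⟩
  have h3z : (3 : LaurentPolynomial Ω) = 0 := by
    have h2 : (3 : LaurentPolynomial Ω) = LaurentPolynomial.C (3 : Ω) := (map_ofNat _ 3).symm
    rw [h2, h3, map_zero]
  rw [Finset.sum_eq_single u] at hsum
  · have hp := Fact.out (p := p.Prime)
    rcases mul_eq_zero.1 hsum with h1 | h1
    · rw [hu, hl1, LaurentPolynomial.T_zero, one_pow, one_pow, mul_one, one_mul, ← map_add, ← map_mul] at h1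
      have h4 : c 1 * (w u 0 + w u 1) = 0 := by
        have h5 : (LaurentPolynomial.C : Ω →+* LaurentPolynomial Ω) (c 1 * (w u 0 + w u 1)) = 0 := h1
        exact (map_eq_zero _).1 h5
      rw [(hw u).1, (hw u).2, ← Nat.cast_add] at h4
      have h5 : r (u : ℤ_[p]ˣ) + (P - r (u : ℤ_[p]ˣ)) = P := by
        have := hr1 (u : ℤ_[p]ˣ)
        omega
      rw [h5] at h4
      exact (mul_ne_zero hc hPΩ) h4
    · rw [Finset.prod_eq_zero_iff] at h1
      obtain ⟨y, hy, h2⟩ := h1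
      rw [mem_erase] at hy
      have h4 : l y ≠ 0 := hl2 y y.2 (fun h4 => hy.1 (Subtype.ext (h4.trans hu.symm)))
      have h5 : (P : ℤ) ≠ 0 := by
        rw [hP]
        exact_mod_cast pow_ne_zero _ hp.ne_zero
      have h6 : (1 - (LaurentPolynomial.T (l y) : LaurentPolynomial Ω) ^ P) ^ 2 = 0 := by
        rw [← h2]
        linear_combination (-(LaurentPolynomial.T (l y) : LaurentPolynomial Ω) ^ P) * h3z
      rw [pow_eq_zero_iff two_ne_zero, sub_eq_zero, LaurentPolynomial.T_pow] at h6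
      exact ZB_T (Ω := Ω) (mul_ne_zero h5 h4) h6
  · intro x _ hx
    have h1 : ∏ y ∈ univ.erase x, ((1 : LaurentPolynomial Ω)
        + LaurentPolynomial.T (l y) ^ P + (LaurentPolynomial.T (l y) ^ P) ^ 2) = 0 := by
      refine Finset.prod_eq_zero (i := u) (mem_erase.2 ⟨fun h => hx h.symm, mem_univ _⟩) ?_
      rw [hu, hl1, LaurentPolynomial.T_zero, one_pow, one_pow]
      linear_combination h3z
    rw [h1, mul_zero]
  · intro h
    exact absurd (mem_univ _) h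

end H55T3
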