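import Pool.Agent.H55.T3.Z2
import Pool.Agent.H55.T3.Z3
import Pool.Agent.H55.T3.ZB

/-!
ROW ZA (Sinnott's non vanishing theorem in characteristic three; adapted from H5/SW/SA).
-/

set_option autoImplicit false

namespace H55T3

open Finset H5SW

private lemma ZA_pow {p k e : ℕ} (hek : 2 * e ≤ k + 1) (u1 : (ZMod (p ^ (k + 1)))ˣ)
    (hu1 : (u1 : ZMod (p ^ (k + 1))) = 1 + (p : ZMod (p ^ (k + 1))) ^ (k + 1 - e)) (t : ℕ) :
    ((u1 ^ t : (ZMod (p ^ (k + 1)))ˣ) : ZMod (p ^ (k + 1))) =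
      1 + (p : ZMod (p ^ (k + 1))) ^ (k + 1 - e) * t := by
  have hz : (p : ZMod (p ^ (k + 1))) ^ (k + 1) = 0 := by
    have := ZMod.natCast_self (p ^ (k + 1))
    rwa [Nat.cast_pow] at this
  have hsq : (p : ZMod (p ^ (k + 1))) ^ (k + 1 - e) * (p : ZMod (p ^ (k + 1))) ^ (k + 1 - e) = 0 := by
    rw [← pow_add, show k + 1 - e + (k + 1 - e) = (k + 1) + (k + 1 - 2 * e) by omega,
      pow_add (p : ZMod (p ^ (k + 1))) (k + 1) (k + 1 - 2 * e), hz, zero_mul]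
  induction t with
  | zero => simp
  | succ t ih =>
    rw [pow_succ u1 t, Units.val_mul, ih, hu1]
    push_cast
    linear_combination (t : ZMod (p ^ (k + 1))) * hsq

private lemma ZA_unit {p k m : ℕ} (hm : p ∣ m) :
    ∃ u : (ZMod (p ^ (k + 1)))ˣ, (u : ZMod (p ^ (k + 1))) = ((1 + m : ℕ) : ZMod (p ^ (k + 1))) := by
  refine ⟨ZMod.unitOfCoprime (1 + m) ?_, ZMod.coe_unitOfCoprime _ _⟩
  apply Nat.Coprime.pow_right
  obtain ⟨c, rfl⟩ := hm
  simp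

private lemma ZA_val {Ω : Type} [Field Ω] {z : Ω} {f : ℕ} (hz : z ^ f = 1) (N : ℕ) (a : ZMod f)
    (h : a = (N : ZMod f)) : z ^ a.val = z ^ N := by
  rw [h, ZMod.val_natCast, ← pow_eq_pow_mod N hz]

private lemma ZA_rel {p k e s : ℕ} [Fact p.Prime] (hp5 : 5 ≤ p) (hQ : QD3 p e s) (hek : 2 * e ≤ k + 1)
    (hek' : e ≤ k) {E : Finset ℤ_[p]ˣ} (hE : EH p E) {Ω : Type} [Field Ω] [CharP Ω 3] {z : Ω}
    (hz : IsPrimitiveRoot z (p ^ (k + 1))) (χ : (ZMod (p ^ (k + 1)))ˣ →* Ωˣ) (hev : χ (-1) = 1)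
    (hprim : Prim χ) (h0 : Tc3 χ z = 0) : ∃ ρ : Ω, ρ ^ (p ^ e) = 1 ∧
      ∀ b : ℕ, ∑ x ∈ E, (χ (red (k + 1) x) : Ω) * ∑ t ∈ range (p ^ e),
          ρ ^ t * Fr3 (z ^ ((1 + p ^ e * b) * (1 + p ^ (k + 1 - e) * t) *
            (PadicInt.toZModPow (k + 1) (x : ℤ_[p])).val)) = 0 := by
  classical
  have hp2 : p ≠ 2 := by omega
  have he1 := hQ.e1
  have hz1 : z ^ (p ^ (k + 1)) = 1 := hz.pow_eq_one
  have hzne : z ≠ 0 := by
    rintro rfl
    rw [zero_pow (pow_ne_zero _ (Nat.Prime.ne_zero Fact.out))] at hz1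
    exact zero_ne_one hz1
  have hzf : (p : ZMod (p ^ (k + 1))) ^ (k + 1) = 0 := by
    have := ZMod.natCast_self (p ^ (k + 1))
    rwa [Nat.cast_pow] at this
  obtain ⟨u1, hu1⟩ := ZA_unit (p := p) (k := k) (m := p ^ (k + 1 - e)) (dvd_pow_self p (by omega))
  have hu1' : (u1 : ZMod (p ^ (k + 1))) = 1 + (p : ZMod (p ^ (k + 1))) ^ (k + 1 - e) := by
    rw [hu1]
    push_cast
    ring
  have hpow := ZA_pow hek u1 hu1'
  have hone : u1 ^ (p ^ e) = 1 := by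
    apply Units.ext
    rw [hpow, Nat.cast_pow, ← pow_add, show k + 1 - e + e = k + 1 by omega, hzf, add_zero,
      Units.val_one]
  refine ⟨(χ u1 : Ω), ?_, fun b => ?_⟩
  · rw [← Units.val_pow_eq_pow_val, ← map_pow, hone, map_one, Units.val_one]
  · obtain ⟨a, ha⟩ := ZA_unit (p := p) (k := k) (m := p ^ e * b)
      ((dvd_pow_self p (by omega)).trans (dvd_mul_right _ _))
    have h1 := av2_3 hp5 hQ hek' hz1 χ hev h0 a
    have hneg : ∀ u : (ZMod (p ^ (k + 1)))ˣ,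
        (χ (-u * a⁻¹) : Ω) * Fr3 (z ^ ((-u : (ZMod (p ^ (k + 1)))ˣ) : ZMod (p ^ (k + 1))).val) =
          (χ (u * a⁻¹) : Ω) * Fr3 (z ^ (u : ZMod (p ^ (k + 1))).val) := by
      intro u
      have e1 : χ (-u * a⁻¹) = χ (u * a⁻¹) := by
        rw [show -u * a⁻¹ = (-1) * (u * a⁻¹) by simp, map_mul, hev, one_mul]
      have e2 : z ^ ((-u : (ZMod (p ^ (k + 1)))ˣ) : ZMod (p ^ (k + 1))).val =
          (z ^ (u : ZMod (p ^ (k + 1))).val)⁻¹ := by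
        apply eq_inv_of_mul_eq_one_left
        rw [← pow_add, ← ZA_val hz1 _ (((-u : (ZMod (p ^ (k + 1)))ˣ) : ZMod (p ^ (k + 1))) +
          (u : ZMod (p ^ (k + 1)))) (by push_cast; rw [ZMod.natCast_zmod_val, ZMod.natCast_zmod_val])]
        rw [Units.val_neg, neg_add_cancel, ZMod.val_zero, pow_zero]
      rw [e1, e2, Fr3_inv (pow_ne_zero _ hzne)]
    have h2 := cosets3 hp2 hQ hek hE χ hev hprim a u1 hu1'
      (fun u => (χ (u * a⁻¹) : Ω) * Fr3 (z ^ (u : ZMod (p ^ (k + 1))).val)) hneg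
    rw [h1] at h2
    rw [h2]
    refine Finset.sum_congr rfl fun x _ => ?_
    rw [Finset.mul_sum]
    refine Finset.sum_congr rfl fun t _ => ?_
    have e3 : χ (a * red (k + 1) x * u1 ^ t * a⁻¹) = χ (red (k + 1) x) * χ u1 ^ t := by
      rw [show a * red (k + 1) x * u1 ^ t * a⁻¹ = red (k + 1) x * u1 ^ t by
        rw [mul_assoc a, mul_inv_cancel_comm], map_mul, map_pow]
    have e4 : z ^ ((a * red (k + 1) x * u1 ^ t : (ZMod (p ^ (k + 1)))ˣ) : ZMod (p ^ (k + 1))).val =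
        z ^ ((1 + p ^ e * b) * (1 + p ^ (k + 1 - e) * t) *
            (PadicInt.toZModPow (k + 1) (x : ℤ_[p])).val) := by
      apply ZA_val hz1
      rw [Units.val_mul, Units.val_mul, hpow, ha]
      push_cast
      rw [ZMod.natCast_zmod_val]
      show _ * PadicInt.toZModPow (k + 1) (x : ℤ_[p]) * _ = _
      ring
    rw [e3, e4, Units.val_mul, Units.val_pow_eq_pow_val]
    ring

theorem sinnott3 {p : ℕ} [Fact p.Prime] (hp5 : 5 ≤ p) : ∃ k0 : ℕ, NV3 p k0 := by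
  have hp2 : p ≠ 2 := by omega
  obtain ⟨e, s, hQ⟩ := exists_QD3 hp5
  obtain ⟨E, hE⟩ := exists_EH hp2
  obtain ⟨k0, hk0, H⟩ := no_relation3 hp5 hQ.e1 hE
  refine ⟨k0, ?_⟩
  intro k hk Ω _ _ z hz χ hev hprim h0
  obtain ⟨ρ, hρ, hrel⟩ := ZA_rel hp5 hQ (by omega) (by omega) hE hz χ hev hprim h0
  exact H k hk Ω z hz (fun x => (χ (red (k + 1) x) : Ω)) ρ (Units.ne_zero _) hρ hrel

end H55T3
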