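import Pool.Agent.H55.T3.Df2

/-!
Definition for the pair form of block D (helper55; no row).
-/

set_option autoImplicit false
open scoped Classical

open IsDedekindDomain NumberField Finset

namespace H55T3

/-- Minus side for a pair `K ⊆ L`, `C = L(s)`, `s^2 = -3`. -/
def NoNewMinus (K L C : Type) [Field K] [NumberField K] [Field L] [NumberField L] [Field C]
    [NumberField C] [Algebra K L] [Algebra L C] [Algebra K C] (s : C) : Prop :=
  ∀ e : C, e ≠ 0 → (∀ w : HeightOneSpectrum (𝓞 C), (3 : ℤ) ∣ WithZero.log (w.valuation C e)) →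
    (∃ y, ∏ g ∈ univ.filter (fun g : C ≃ₐ[K] C => g s = s), g e = y ^ 3) →
    (∀ g : C ≃ₐ[L] C, g s = -s → ∃ y, e * g e = y ^ 3) → ∃ y, e = y ^ 3

end H55T3
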