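import Pool.Agent.H55.T3.Df4
import Pool.Agent.H55.T3.Df3

/-!
Definitions for the curves with a rational subgroup of order three, arithmetic part (MP_78d38b_T3D, helper55; no row).
`W : y^2 = x^3 + D (α x + β)^2`, `V : y^2 = x^3 - 27 D (α x + γ)^2`, `γ = 27 β - 4 D α^3`.
-/

set_option autoImplicit false
open scoped Classical

open WeierstrassCurve IsDedekindDomain NumberField Pool.Agent.H10

namespace H55T3

/-- `y^2 = x^3 + D (α x + β)^2` -/
def curWD {K : Type} [Field K] (D α β : K) : WeierstrassCurve K :=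
  ⟨0, D * α ^ 2, 0, 2 * D * α * β, D * β ^ 2⟩

/-- `y^2 = x^3 - 27 D (α x + γ)^2` -/
def curVD {K : Type} [Field K] (D α γ : K) : WeierstrassCurve K :=
  ⟨0, -27 * D * α ^ 2, 0, -54 * D * α * γ, -27 * D * γ ^ 2⟩

/-- Good at a place above three, in terms of a valuation with `v 3 = exp (-1)`, `D` a rational integer not divisible by nine. -/
def GoodVD {F : Type*} [Field F] (V : Valuation F (WithZero (Multiplicative ℤ))) (D : ℤ) (α β : F) : Prop :=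
  (¬ 3 ∣ D ∧ ∃ i : ℕ, V α ≤ WithZero.exp (-(i + 1 : ℤ)) ∧
    V (27 * β - 4 * D * α ^ 3) ≤ WithZero.exp (-(3 * i + 5 : ℤ)) ∧
    WithZero.exp (-(3 * i + 3 : ℤ)) < V β) ∨
  (3 ∣ D ∧ ¬ 9 ∣ D ∧ ∃ i : ℕ, V α ≤ WithZero.exp (-(i + 1 : ℤ)) ∧
    V β ≤ WithZero.exp (-(3 * i + 1 : ℤ)) ∧ WithZero.exp (-(3 * i + 3 : ℤ)) < V β)

/-- The real side for `A = K(s) ⊆ B = L(s)`, twisted part. -/
def NoNewCubeM (L A B : Type) [Field L] [Field A] [NumberField A] [Field B] [NumberField B]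
    [Algebra L B] [Algebra A B] (s : B) : Prop :=
  ∀ x : B, x ≠ 0 → (∀ g : B ≃ₐ[L] B, g s = -s → ∃ y, x * g x = y ^ 3) →
    (∀ w : HeightOneSpectrum (𝓞 B), (3 : ℤ) ∣ WithZero.log (w.valuation B x)) →
    (∀ w : HeightOneSpectrum (𝓞 B), (3 : 𝓞 B) ∈ w.asIdeal →
      ∃ t : B, w.valuation B (x * t ^ 3 - 1) ^ 2 ≤ w.valuation B 27) →
    (∃ y : A, Algebra.norm A x = y ^ 3) → ∃ y : B, x = y ^ 3

end H55T3
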