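import Pool.Agent.H55.T3.Df
import Pool.Agent.H10.OddIndex

/-!
Row Bij (about 200 lines): group theory for the prime three and the bijection in terms of cocycles.

PROOF. bijOn_of_three: copy `bijOn_of_two` (H10/Iso.lean) with 3 for 2 and not divisible by 3 for odd (n is invertible modulo 3^m).
 Injectivity: x, y with 3^m x = 0 ..., r (x - y) = 0, so n (x - y) = 0 and 3^m' (x - y) = 0, so x = y. Surjectivity by induction on m: 3^(m+1) y = 0: z := 3^m • y... as in the source.
three_exponent: copy `odd_exponent` (H10/OddIndex.lean): C = B / i(A) is finitely generated and C = 3 C, so C is finite of order prime to 3.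
shaThreeBijective: copy `shaTwoBijective` (H10/Restr.lean) with 3 for 2 (mk_mem_iff for 3).
-/

set_option autoImplicit false
open scoped Classical

open WeierstrassCurve IsDedekindDomain NumberField Pool.Agent.H10 Pool.Agent.H11

namespace H55T3

private lemma Bij_eq_zero {A : Type*} [AddCommGroup A] {x : A} {m n : ℕ} (hn : ¬ 3 ∣ n)
    (h1 : (3 ^ m) • x = 0) (h2 : n • x = 0) : x = 0 := by
  have hc : Nat.Coprime (3 ^ m) n :=
    Nat.Coprime.pow_left m ((Nat.Prime.coprime_iff_not_dvd Nat.prime_three).mpr hn)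
  have h3 : addOrderOf x ∣ 3 ^ m := addOrderOf_dvd_of_nsmul_eq_zero h1
  have h4 : addOrderOf x ∣ n := addOrderOf_dvd_of_nsmul_eq_zero h2
  have h5 := Nat.dvd_gcd h3 h4
  rw [hc, Nat.dvd_one] at h5
  exact AddMonoid.addOrderOf_eq_one_iff.mp h5

theorem bijOn_of_three {A B : Type*} [AddCommGroup A] [AddCommGroup B] (r : A →+ B) (t : B →+ A) {n : ℕ}
    (hn : ¬ 3 ∣ n) (htr : ∀ a, t (r a) = n • a)
    (h : ∀ b : B, 3 • b = 0 → ∃ a : A, 3 • a = 0 ∧ r a = b) :
    Set.BijOn r {x | ∃ m : ℕ, 3 ^ m • x = 0} {x | ∃ m : ℕ, 3 ^ m • x = 0} := by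
  refine ⟨?_, ?_, ?_⟩
  · rintro a ⟨m, hm⟩
    exact ⟨m, by rw [← map_nsmul, hm, map_zero]⟩
  · rintro a ⟨m, hm⟩ a' ⟨m', hm'⟩ h0
    rw [← sub_eq_zero]
    apply Bij_eq_zero (m := m + m') hn
    · rw [smul_sub, pow_add, mul_comm, mul_nsmul', hm, smul_zero, mul_comm, mul_nsmul', hm',
        smul_zero, sub_zero]
    · rw [← htr, map_sub, h0, sub_self, map_zero]
  · rintro b ⟨m, hm⟩
    -- vanishing of the kernel of `t`
    have key : ∀ (k : ℕ) (c : B), 3 ^ k • c = 0 → t c = 0 → c = 0 := by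
      intro k
      induction k with
      | zero => intro c hc _; simpa using hc
      | succ k ih =>
        intro c hc htc
        apply ih c _ htc
        obtain ⟨a, ha, hra⟩ := h (3 ^ k • c) (by rw [← mul_nsmul', ← pow_succ']; exact hc)
        have h1 : n • a = 0 := by rw [← htr, hra, map_nsmul, htc, smul_zero]
        have h2 : a = 0 := Bij_eq_zero (m := 1) hn (by rw [pow_one]; exact ha) h1
        rw [← hra, h2, map_zero]
    -- an inverse of `n`
    obtain ⟨k, hk⟩ : ∃ k : ℤ, ((3 ^ m : ℕ) : ℤ) ∣ 1 - k * n := by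
      have hc : IsCoprime ((3 ^ m : ℕ) : ℤ) (n : ℤ) := by
        rw [Nat.isCoprime_iff_coprime]
        exact Nat.Coprime.pow_left m ((Nat.Prime.coprime_iff_not_dvd Nat.prime_three).mpr hn)
      obtain ⟨u, k, h1⟩ := hc
      exact ⟨k, u, by linear_combination -h1⟩
    obtain ⟨q, hq⟩ := hk
    have htb : (3 ^ m : ℕ) • t b = 0 := by rw [← map_nsmul, hm, map_zero]
    have hz : ((3 ^ m : ℕ) : ℤ) • t b = 0 := by rw [natCast_zsmul]; exact htb
    have hzb : ((3 ^ m : ℕ) : ℤ) • b = 0 := by rw [natCast_zsmul]; exact hm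
    refine ⟨k • t b, ⟨m, ?_⟩, ?_⟩
    · rw [← natCast_zsmul, smul_comm, hz, smul_zero]
    · symm
      rw [← sub_eq_zero]
      apply key m
      · rw [smul_sub, hm, zero_sub, neg_eq_zero, ← map_nsmul, ← natCast_zsmul, smul_comm, hz,
          smul_zero, map_zero]
      · rw [map_sub, htr, ← natCast_zsmul, smul_smul]
        have : t b = (1 : ℤ) • t b := (one_zsmul _).symm
        conv_lhs => rw [this, smul_smul, mul_one]
        rw [← sub_smul, mul_comm, hq, mul_comm, mul_smul, hz, smul_zero]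

theorem three_exponent {A B : Type*} [AddCommGroup A] [AddCommGroup B] (i : A →+ B)
    (hB : AddGroup.FG B) (h : ∀ b : B, ∃ (a : A) (c : B), b = i a + 3 • c) :
    ∃ m : ℕ, ¬ 3 ∣ m ∧ ∀ b : B, ∃ a : A, m • b = i a := by
  have hfin : Module.Finite ℤ B := Module.Finite.iff_addGroup_fg.mpr hB
  let N := i.range.toIntSubmodule
  obtain ⟨r, hr, hr0⟩ := Submodule.exists_sub_one_mem_and_smul_eq_zero_of_fg_of_le_smul
    (Ideal.span {(3 : ℤ)}) (⊤ : Submodule ℤ (B ⧸ N)) Module.Finite.fg_top (by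
      rintro x -
      obtain ⟨b, rfl⟩ := Submodule.Quotient.mk_surjective N x
      obtain ⟨a, c, rfl⟩ := h b
      have h1 : Submodule.Quotient.mk (p := N) (i a + 3 • c) =
          (3 : ℤ) • Submodule.Quotient.mk (p := N) c := by
        rw [← Submodule.Quotient.mk_smul, Submodule.Quotient.eq]
        refine ⟨a, ?_⟩
        have e3 : (3 : ℤ) • c = 3 • c := by rw [← natCast_zsmul]; rfl
        rw [e3, add_sub_cancel_right]
      rw [h1]
      exact Submodule.smul_mem_smul (Ideal.mem_span_singleton_self _) trivial)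
  rw [Ideal.mem_span_singleton] at hr
  have hodd : ¬ 3 ∣ r.natAbs := by
    intro h0
    have h1 : (3 : ℤ) ∣ r := by
      have := Int.natCast_dvd.mpr h0
      exact_mod_cast this
    omega
  refine ⟨r.natAbs, hodd, fun b => ?_⟩
  have h1 := hr0 (Submodule.Quotient.mk b) trivial
  rw [← Submodule.Quotient.mk_smul, Submodule.Quotient.mk_eq_zero] at h1
  obtain ⟨a, ha⟩ := h1
  rcases Int.natAbs_eq r with h2 | h2
  · refine ⟨a, ?_⟩
    rw [ha]
    conv_rhs => rw [h2]
    rw [natCast_zsmul]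
  · refine ⟨-a, ?_⟩
    rw [map_neg, ha]
    conv_rhs => rw [h2]
    rw [neg_smul, neg_neg, natCast_zsmul]

private lemma Bij_mem_iff {K : Type} [Field K] [NumberField K] {W : WeierstrassCurve K} (f : ShaZ K W) :
    (∃ m : ℕ, 3 ^ m • Sha.mk f = 0) ↔ ∃ m : ℕ, IsCobound K W (fun σ => (3 ^ m) • f.1 σ) := by
  refine exists_congr fun m => ?_
  rw [← Sha.mk_nsmul, Sha.mk_eq_zero]
  rfl

theorem shaThreeBijective {K L : Type} [Field K] [NumberField K] [Field L] [NumberField L]
    [Algebra K L] {V : WeierstrassCurve K} (hV : V.map (algebraMap K L) = V.baseChange L)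
    (H : Set.BijOn (Sha.res hV) {x | ∃ m : ℕ, 3 ^ m • x = 0} {x | ∃ m : ℕ, 3 ^ m • x = 0}) :
    ShaThreeBijective K V L := by
  intro j₀
  obtain ⟨j, rfl⟩ := exists_equiv j₀
  have hB := shaB_le L (V.baseChange L)
  have key : ∀ {f : Coch K V}, IsShaThree K V f →
      IsShaThree L (V.baseChange L) (resJ j (map_jg hV j) f) ∧
      (IsCobound L (V.baseChange L) (resJ j (map_jg hV j) f) →
        IsCobound L (V.baseChange L) (resF hV f)) := by
    intro f hf
    obtain ⟨h1, h2, m, h3⟩ := hf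
    have k1 := resJ_sub hV (j := j) h1
    have k2 : resF hV f ∈ ShaZ L (V.baseChange L) :=
      ⟨isCocycle_res hV h1, isLocTriv_res hV h1 h2⟩
    have k3 : resJ j (map_jg hV j) f ∈ ShaZ L (V.baseChange L) := by
      have := add_mem (hB k1) k2
      rwa [sub_add_cancel] at this
    have k4 : 3 ^ m • resF hV f ∈ ShaB L (V.baseChange L) := by
      have := isCobound_res hV h3
      have e : resF hV (fun σ => (3 ^ m) • f σ) = 3 ^ m • resF hV f := by
        funext τ
        rw [Pi.smul_apply]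
        exact map_nsmul _ _ _
      rw [e] at this
      exact this
    refine ⟨⟨k3.1, k3.2, m, ?_⟩, fun h => ?_⟩
    · have k5 : 3 ^ m • resJ j (map_jg hV j) f ∈ ShaB L (V.baseChange L) := by
        have := add_mem (nsmul_mem k1 (3 ^ m)) k4
        rwa [← nsmul_add, sub_add_cancel] at this
      exact k5
    · have k6 : resJ j (map_jg hV j) f ∈ ShaB L (V.baseChange L) := h
      have k7 := sub_mem k6 k1
      have k8 : resJ j (map_jg hV j) f - (resJ j (map_jg hV j) f - resF hV f) = resF hV f :=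
        sub_sub_cancel (resJ j (map_jg hV j) f) (resF hV f)
      have k9 : resF hV f ∈ ShaB L (V.baseChange L) := by
        rw [← k8]; exact k7
      exact k9
  constructor
  · intro f hf
    obtain ⟨p1, p2⟩ := key hf
    refine ⟨_, isRestriction_resJ j f, p1, fun h => ?_⟩
    have h1 := p2 h
    let F : ShaZ K V := ⟨f, hf.1, hf.2.1⟩
    have h2 : Sha.res hV (Sha.mk F) = Sha.res hV 0 := by
      rw [Sha.res_mk, map_zero, Sha.mk_eq_zero]
      exact h1
    have h3 := H.2.1 ((Bij_mem_iff F).mpr hf.2.2) ⟨0, by simp⟩ h2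
    exact (Sha.mk_eq_zero F).mp h3
  · intro g hg
    let G : ShaZ L (V.baseChange L) := ⟨g, hg.1, hg.2.1⟩
    obtain ⟨x, hx, hxg⟩ := H.2.2 ((Bij_mem_iff G).mpr hg.2.2)
    obtain ⟨f, rfl⟩ := Sha.mk_surjective x
    have hf : IsShaThree K V f.1 := ⟨f.2.1, f.2.2, (Bij_mem_iff f).mp hx⟩
    refine ⟨f.1, _, hf, isRestriction_resJ j f.1, ?_⟩
    rw [Sha.res_mk, eq_comm, ← sub_eq_zero] at hxg
    have h3 : Sha.mk G - Sha.mk (resZ hV f) = Sha.mk (G - resZ hV f) := rfl
    rw [h3, Sha.mk_eq_zero] at hxg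
    have h4 : g - resF hV f.1 ∈ ShaB L (V.baseChange L) := hxg
    have h5 := sub_mem h4 (resJ_sub hV (j := j) hf.1)
    rw [sub_sub_sub_cancel_right] at h5
    exact h5

end H55T3
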