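import Pool.Agent.H55.T3.Ct

/-!
Row Cs (about 120 lines): small facts on `C`.

PROOF. inH_s: s^2 = -3; r := ζ^(p^(n+1)) (ζ a primitive N-th root, N = 3 p^(n+1)) is a primitive cube root of unity, (2 r + 1)^2 = -3, so s = ±(2 r + 1). g r = r^(kap g).val (galEquivZMod_apply_of_pow_eq: r^N = 1), kap g ≡ 1 mod 3 (InH), so g r = r, g s = s.
exists_s: s := 2 r + 1.
comm_C: Gal(C/ℚ) ≃* (ZMod N)ˣ is commutative (galEquivZMod injective); g, g' ∈ Gal(C/K) via restrictScalars ℚ.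
cov_C: CTw.cov gives g over ℚ; by CTw.fixK it fixes K, so it is the restriction of scalars of g' : C ≃ₐ[K] C ({ g with commutes' := ... }).
galois: IsGalois ℚ C (IsCyclotomicExtension.isGalois), IsGalois.tower_top_of_isGalois ℚ L C, ℚ K C.
-/

set_option autoImplicit false
open scoped Classical

open IsDedekindDomain NumberField Finset H5SW

namespace H55T3

theorem Cs_root (p n : ℕ) [hp : Fact p.Prime] (C : Type) [Field C] [NumberField C]
    [IsCyclotomicExtension {3 * p ^ (n + 1)} ℚ C] :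
    ∃ r : C, r ^ 2 + r + 1 = 0 ∧ r ^ 3 = 1 := by
  have hζ := IsCyclotomicExtension.zeta_spec (3 * p ^ (n + 1)) ℚ C
  have hpos : 0 < 3 * p ^ (n + 1) := NeZero.pos _
  have hr := hζ.pow hpos (mul_comm 3 (p ^ (n + 1)))
  refine ⟨_, ?_, hr.pow_eq_one⟩
  have h1 := hr.pow_eq_one
  have h2 := hr.ne_one (by norm_num)
  generalize (IsCyclotomicExtension.zeta (3 * p ^ (n + 1)) ℚ C) ^ p ^ (n + 1) = r at *
  have h3 : (r - 1) * (r ^ 2 + r + 1) = 0 := by linear_combination h1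
  exact (mul_eq_zero.1 h3).resolve_left (sub_ne_zero.2 h2)

theorem Cs_sq {C : Type} [Field C] {r : C} (h : r ^ 2 + r + 1 = 0) : (2 * r + 1) ^ 2 = -3 := by
  linear_combination 4 * h

theorem Cs_mod {p m n : ℕ} [Fact p.Prime] {C : Type} [Field C] [NumberField C]
    [IsCyclotomicExtension {3 * p ^ (n + 1)} ℚ C] (hmn : m ≤ n) {g : C ≃ₐ[ℚ] C}
    (hg : InH p m n hmn C g) : (kap p n C g : ZMod (3 * p ^ (n + 1))).val % 3 = 1 := by
  have h1 := congrArg (fun u : (ZMod (3 * p ^ (m + 1)))ˣ => (u : ZMod (3 * p ^ (m + 1)))) hg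
  simp only [Units.val_one] at h1
  rw [ZMod.unitsMap_val, ZMod.cast_eq_val] at h1
  have h2 : (((kap p n C g : ZMod (3 * p ^ (n + 1))).val : ℕ) : ZMod (3 * p ^ (m + 1))) =
      ((1 : ℕ) : ZMod (3 * p ^ (m + 1))) := by
    rw [h1, Nat.cast_one]
  rw [ZMod.natCast_eq_natCast_iff] at h2
  have h3 := h2.of_mul_right (p ^ (m + 1))
  exact h3

theorem inH_s {p m n : ℕ} [Fact p.Prime] {C : Type} [Field C] [NumberField C]
    [IsCyclotomicExtension {3 * p ^ (n + 1)} ℚ C] (hmn : m ≤ n) {g : C ≃ₐ[ℚ] C}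
    (hg : InH p m n hmn C g) {s : C} (hs : s ^ 2 = -3) : g s = s := by
  obtain ⟨r, h1, h3⟩ := Cs_root p n C
  have hrN : r ^ (3 * p ^ (n + 1)) = 1 := by rw [pow_mul, h3, one_pow]
  have hgr : g r = r := by
    rw [IsCyclotomicExtension.Rat.galEquivZMod_apply_of_pow_eq (3 * p ^ (n + 1)) C g hrN]
    have h4 := Cs_mod hmn hg
    change r ^ (kap p n C g : ZMod (3 * p ^ (n + 1))).val = r
    generalize (kap p n C g : ZMod (3 * p ^ (n + 1))).val = k at h4
    have h5 := Nat.div_add_mod k 3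
    rw [← h5, h4, pow_add, pow_mul, h3, one_pow, one_mul, pow_one]
  have h6 : s ^ 2 = (2 * r + 1) ^ 2 := by rw [hs, Cs_sq h1]
  rcases sq_eq_sq_iff_eq_or_eq_neg.1 h6 with h | h
  · rw [h, map_add, map_mul, hgr, map_one, map_ofNat]
  · rw [h, map_neg, map_add, map_mul, hgr, map_one, map_ofNat]

theorem exists_s (p n : ℕ) [Fact p.Prime] (C : Type) [Field C] [NumberField C]
    [IsCyclotomicExtension {3 * p ^ (n + 1)} ℚ C] : ∃ s : C, s ^ 2 = -3 := by
  obtain ⟨r, h1, -⟩ := Cs_root p n C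
  exact ⟨2 * r + 1, Cs_sq h1⟩

theorem comm_C (p n : ℕ) [Fact p.Prime] {K C : Type} [Field K] [NumberField K] [Field C]
    [NumberField C] [Algebra K C] [IsCyclotomicExtension {3 * p ^ (n + 1)} ℚ C] (g g' : C ≃ₐ[K] C) :
    g * g' = g' * g := by
  have h1 : (g.restrictScalars ℚ) * (g'.restrictScalars ℚ) =
      (g'.restrictScalars ℚ) * (g.restrictScalars ℚ) := by
    apply (IsCyclotomicExtension.Rat.galEquivZMod (3 * p ^ (n + 1)) C).injective
    rw [map_mul, map_mul]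
    exact mul_comm _ _
  ext x
  exact DFunLike.congr_fun h1 x

theorem cov_C {p m n : ℕ} [Fact p.Prime] {K L C : Type} [Field K]
    [NumberField K] [Field L] [NumberField L] [Field C] [NumberField C] [Algebra K L] [Algebra L C]
    [Algebra K C] [IsScalarTower K L C] [IsCyclotomicExtension {3 * p ^ (n + 1)} ℚ C]
    {hmn : m ≤ n} (X : CTw p m n hmn K L C) (t : L ≃ₐ[K] L) :
    ∃ g : C ≃ₐ[K] C, InH p m n hmn C (g.restrictScalars ℚ) ∧
      ∀ x : L, g (algebraMap L C x) = algebraMap L C (t x) := by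
  obtain ⟨g, hg, hx⟩ := X.cov t
  have h1 := X.fixK g hg
  let g' : C ≃ₐ[K] C := { g with commutes' := h1 }
  have h2 : g'.restrictScalars ℚ = g := by
    ext x
    rfl
  refine ⟨g', ?_, fun x => hx x⟩
  rw [h2]
  exact hg

theorem galois_C (p n : ℕ) [Fact p.Prime] (K C : Type) [Field K] [NumberField K] [Field C]
    [NumberField C] [Algebra K C] [IsCyclotomicExtension {3 * p ^ (n + 1)} ℚ C] : IsGalois K C := by
  have h1 : IsGalois ℚ C := IsCyclotomicExtension.isGalois {3 * p ^ (n + 1)} ℚ C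
  exact IsGalois.tower_top_of_isGalois ℚ K C

end H55T3
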