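import Pool.Agent.H55.T3.Lo

/-!
Row K5 (about 100 lines): the kernel-valued cocycles when `s ∈ K`, `s^2 = D`.

PROOF. V' is Is3 with the images of D, a, b (Is3.up), f over L locally trivial with values in Kr; kum3 (Ω = AlgebraicClosure L, E = V'.baseChange Ω, h = inv_bc L V', isCocycle_iff): r, d ∈ L, r^3 = d, σ r = ee (f σ) r. loc3: FinSol3 L s a c d. g ∈ Gal(Ω/K), σ0 := g.restrictNormal L: by H: σ0 d = d y^3, so (g r)^3 = g (algebraMap d) = algebraMap (σ0 d) = r^3 y^3,
 z := g r/(r y) has z^3 = 1 (y ≠ 0). ee_surj: z = ee T, Kr T. For τ over L: τ (g r) = g (cj g τ r) (apply_cj) = g (ee (f (cj g τ)) r) = ee (act g (f (cj g τ))) g r = ee (conj g f τ) g r (ee_pm; g fixes s, b in K), and τ (g r) = τ (z r y) = τ z * ee (f τ) r y. So ee (conj g f τ) z = τ z ee (f τ), τ z = ee (act τ T): ee (conj g f τ) = ee (f τ + act τ T - T) (ee_add, ee_neg),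
 and ee_inj (all arguments in Kr: kr_pm, kr_add, kr_neg).
-/

set_option autoImplicit false
open scoped Classical

open WeierstrassCurve IsDedekindDomain NumberField Pool.Agent.H10 Pool.Agent.H11

namespace H55T3

variable {K L : Type} [Field K] [NumberField K] [Field L] [NumberField L] [Algebra K L]
  [IsGalois K L] {V : WeierstrassCurve K} {V' : WeierstrassCurve L} {D a b s : K}

theorem k5 (h : Is3 V D a b) (hV : V.map (algebraMap K L) = V') (hs : s ^ 2 = D)
    (H : ∀ d : L, d ≠ 0 → FinSol3 L (algebraMap K L s) (algebraMap K L a)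
      (algebraMap K L (9 * b + 4 * D * a ^ 3)) d → ∀ σ : L ≃ₐ[K] L, ∃ y, σ d = d * y ^ 3) :
    KT K L V' (inv_up hV) := by
  intro f hf hl hk g
  have hL : Is3 V' (algebraMap K L D) (algebraMap K L a) (algebraMap K L b) := h.up hV
  have hsL : (algebraMap K L s) ^ 2 = algebraMap K L D := by rw [← map_pow, hs]
  have hE := hL.bc (AlgebraicClosure L)
  have hsE : (algebraMap L (AlgebraicClosure L) (algebraMap K L s)) ^ 2 =
      algebraMap L (AlgebraicClosure L) (algebraMap K L D) := by rw [← map_pow, hsL]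
  obtain ⟨r, d, hr, hd, hrd, hσ⟩ := kum3 hE hsL (inv_bc L V') ((isCocycle_iff f).1 hf) hk
  have hfin := loc3 hL hsL hl hk hr hrd hσ
  have ec : 9 * algebraMap K L b + 4 * algebraMap K L D * (algebraMap K L a) ^ 3 =
      algebraMap K L (9 * b + 4 * D * a ^ 3) := by
    simp only [map_add, map_mul, map_pow, map_ofNat]
  rw [ec] at hfin
  obtain ⟨y, hy⟩ := H d hd hfin (g.restrictNormal L)
  have hg : ∀ x : L, g (algebraMap L (AlgebraicClosure L) x) =
      algebraMap L (AlgebraicClosure L) (g.restrictNormal L x) :=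
    fun x => (g.restrictNormal_commutes L x).symm
  have hgK : ∀ x : K, g (algebraMap L (AlgebraicClosure L) (algebraMap K L x)) =
      algebraMap L (AlgebraicClosure L) (algebraMap K L x) := by
    intro x
    rw [← IsScalarTower.algebraMap_apply K L (AlgebraicClosure L)]
    exact g.commutes _
  obtain ⟨Y, hY⟩ : ∃ Y, Y = algebraMap L (AlgebraicClosure L) y := ⟨_, rfl⟩
  have e1 : (g r) ^ 3 = r ^ 3 * Y ^ 3 := by
    rw [← map_pow, hrd, hg, hy, map_mul, map_pow, ← hrd, hY]
  have hgr : g r ≠ 0 := (map_ne_zero_iff g g.injective).2 hr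
  have hY0 : Y ≠ 0 := by
    rintro h0
    rw [h0] at e1
    apply hgr
    exact pow_eq_zero_iff (three_ne_zero) |>.1 (by rw [e1]; ring)
  have hrY : r * Y ≠ 0 := mul_ne_zero hr hY0
  obtain ⟨z, hz⟩ : ∃ z, g r = z * (r * Y) := ⟨g r / (r * Y), (div_mul_cancel₀ _ hrY).symm⟩
  have hz3 : z ^ 3 = 1 := by
    have h1 : z ^ 3 * (r * Y) ^ 3 = 1 * (r * Y) ^ 3 := by
      rw [← mul_pow, ← hz, e1]
      ring
    exact mul_right_cancel₀ (pow_ne_zero 3 hrY) h1
  have hz0 : z ≠ 0 := by
    rintro rfl
    rw [zero_pow three_ne_zero] at hz3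
    exact zero_ne_one hz3
  obtain ⟨T, hT, hTz⟩ := ee_surj hE hsE hz3
  refine ⟨T, hT, fun τ => ?_⟩
  have k1 : Kr (conj (inv_up hV) g f τ) := (kr_pm _ _).2 (hk _)
  have k2 : Kr (act (inv_bc L V') τ T) := (kr_pm _ _).2 hT
  have k3 : Kr (act (inv_bc L V') τ T - T) := by
    rw [sub_eq_add_neg]
    exact kr_add hE k2 (kr_neg.2 hT)
  apply ee_inj hE hsE k1 (kr_add hE (hk τ) k3)
  rw [ee_add hE hsE (hk τ) k3, sub_eq_add_neg, ee_add hE hsE k2 (kr_neg.2 hT), ee_neg hE hsE hT,
    hTz]
  have e2 : ee (algebraMap L (AlgebraicClosure L) (algebraMap K L s))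
      (algebraMap L (AlgebraicClosure L) (algebraMap K L b)) (conj (inv_up hV) g f τ) =
      g (ee (algebraMap L (AlgebraicClosure L) (algebraMap K L s))
        (algebraMap L (AlgebraicClosure L) (algebraMap K L b)) (f (cj g τ))) := by
    have h1 := ee_pm (s := algebraMap L (AlgebraicClosure L) (algebraMap K L s))
      (b := algebraMap L (AlgebraicClosure L) (algebraMap K L b))
      (φ := (g : AlgebraicClosure L →+* AlgebraicClosure L)) (inv_up hV g) (f (cj g τ))
    have h2 : (g : AlgebraicClosure L →+* AlgebraicClosure L)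
        (algebraMap L (AlgebraicClosure L) (algebraMap K L s)) =
        algebraMap L (AlgebraicClosure L) (algebraMap K L s) := hgK s
    have h3 : (g : AlgebraicClosure L →+* AlgebraicClosure L)
        (algebraMap L (AlgebraicClosure L) (algebraMap K L b)) =
        algebraMap L (AlgebraicClosure L) (algebraMap K L b) := hgK b
    rw [h2, h3] at h1
    exact h1
  have e3 : ee (algebraMap L (AlgebraicClosure L) (algebraMap K L s))
      (algebraMap L (AlgebraicClosure L) (algebraMap K L b)) (act (inv_bc L V') τ T) = τ z := by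
    have h1 := ee_pm (s := algebraMap L (AlgebraicClosure L) (algebraMap K L s))
      (b := algebraMap L (AlgebraicClosure L) (algebraMap K L b))
      (φ := (τ : AlgebraicClosure L →+* AlgebraicClosure L)) (inv_bc L V' τ) T
    have h2 : (τ : AlgebraicClosure L →+* AlgebraicClosure L)
        (algebraMap L (AlgebraicClosure L) (algebraMap K L s)) =
        algebraMap L (AlgebraicClosure L) (algebraMap K L s) := τ.commutes _
    have h3 : (τ : AlgebraicClosure L →+* AlgebraicClosure L)
        (algebraMap L (AlgebraicClosure L) (algebraMap K L b)) =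
        algebraMap L (AlgebraicClosure L) (algebraMap K L b) := τ.commutes _
    rw [h2, h3, hTz] at h1
    exact h1
  rw [e3]
  have e4 : τ (g r) = ee (algebraMap L (AlgebraicClosure L) (algebraMap K L s))
      (algebraMap L (AlgebraicClosure L) (algebraMap K L b)) (conj (inv_up hV) g f τ) * g r := by
    rw [← apply_cj, hσ, map_mul, e2]
  have e5 : τ (g r) = τ z * (ee (algebraMap L (AlgebraicClosure L) (algebraMap K L s))
      (algebraMap L (AlgebraicClosure L) (algebraMap K L b)) (f τ) * r * Y) := by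
    rw [hz, map_mul, map_mul, hσ, hY, τ.commutes]
  rw [e5, hz] at e4
  have e6 : (ee (algebraMap L (AlgebraicClosure L) (algebraMap K L s))
      (algebraMap L (AlgebraicClosure L) (algebraMap K L b)) (conj (inv_up hV) g f τ)) * z =
      ee (algebraMap L (AlgebraicClosure L) (algebraMap K L s))
      (algebraMap L (AlgebraicClosure L) (algebraMap K L b)) (f τ) * τ z := by
    apply mul_right_cancel₀ hrY
    rw [mul_assoc, ← e4]
    ring
  rw [← mul_assoc, ← e6, mul_assoc, mul_inv_cancel₀ hz0, mul_one]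

end H55T3
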