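import Pool.Agent.H55.T3.Va

/-!
Row Vb (about 160 lines): local analysis at a place at which three is a uniformiser, `3 ∣ a`, `3 ∤ b`.

PROOF. Notation and RULE as in Va (0): x = U v, y^2 = x^3 + (3 a x + c)^2, de = y + 3 a x + c = d v^3, de' = y - 3 a x - c = U^3/d, de de' = x^3. a = 3 a1, c = 9 b + 4 a^3 = 9 c1, c1 = b + 12 a1^3 (prime to 3, V c1 = 1), 3 a x + c = 9 g, g = a1 x + c1.
(A) 1 ≤ V x: then U, v ≠ 0, V g ≤ V x, y^2 = x^3 + 81 g^2, V (81 g^2) ≤ exp (-4) V x^2 < V x^3, so V y^2 = V x^3, V y ≥ 1. t := x/y: de t^3 = (1 + 9 g/y) x^3/y^2; V (9 g/y) ≤ exp (-2) since V g ≤ V x ≤ V y (V x^2 ≤ V x^3 = V y^2), V (y^2/x^3 - 1) = V (81 g^2/x^3) ≤ exp (-4). So d (v t)^3 ≡ 1: q = 1.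
(B) V x = exp (-1): V g = 1, V (x^3) = exp (-3) > V (81 g^2) = exp (-4), so V (y^2) = exp (-3): impossible (odd).
(C) V x ≤ exp (-2) (or x = 0): V g = 1, V (x^3) ≤ exp (-6), V (81 g^2) = exp (-4) so V y = exp (-2), y = 9 y1, V y1 = 1, (y1 - g)(y1 + g) = x^3/81, V ≤ exp (-2); the difference 2 g of the factors is a unit, so one factor has V = 1 and the other V ≤ exp (-2).
  (C1) V (y1 - g) ≤ exp (-2): de = 9 (y1 + g) = 9 (2 g + (y1 - g)), g = c1 + a1 x, V (a1 x) ≤ exp (-2): de/(18 c1) ≡ 1 mod 9 (relative): de ≠ 0, v ≠ 0, d v^3 (1/(18 c1)) ≡ 1: t = v, q = 1/(18 c1).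
  (C2) V (y1 + g) ≤ exp (-2): de' = 9 (y1 - g) = 9 (-2 g + (y1 + g)), de'/(-18 c1) ≡ 1, U ≠ 0: d = U^3/de', d (-1/U)^3 (18 c1) = -18 c1/de' ≡ 1: t = -1/U, q = 18 c1.
-/

set_option autoImplicit false
open scoped Classical

open WeierstrassCurve IsDedekindDomain NumberField WithZero Pool.Agent.H10

namespace H55T3

section Vb_aux

variable {F : Type*} [Field F] {V : Valuation F (WithZero (Multiplicative ℤ))}

theorem Vb_three_mul (h3 : V 3 = exp (-1 : ℤ)) {x : F} (h : V x ≤ 1) :
    V (3 * x) ≤ exp (-1 : ℤ) := by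
  rw [map_mul, h3]
  exact mul_le_of_le_one_right' h

theorem Vb_unit (h3 : V 3 = exp (-1 : ℤ)) {n : ℤ} (h : ¬ (3 : ℤ) ∣ n) : V (n : F) = 1 := by
  have h1 : n % 3 = 1 ∨ n % 3 = 2 := by omega
  rcases h1 with h1 | h1
  · obtain ⟨k, hk⟩ : ∃ k : ℤ, n = 1 + 3 * k := ⟨n / 3, by omega⟩
    rw [hk]
    push_cast
    exact Valuation.map_one_add_of_lt V ((Vb_three_mul h3 (V_int k)).trans_lt exp_neg_lt_one)
  · obtain ⟨k, hk⟩ : ∃ k : ℤ, n = -(1 + 3 * k) := ⟨-((n + 1) / 3), by omega⟩
    rw [hk]
    push_cast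
    rw [Valuation.map_neg]
    exact Valuation.map_one_add_of_lt V ((Vb_three_mul h3 (V_int k)).trans_lt exp_neg_lt_one)

theorem Vb_charZero (h3 : V 3 = exp (-1 : ℤ)) : CharZero F := by
  refine charZero_of_inj_zero ?_
  intro n
  induction n using Nat.strong_induction_on with
  | _ n ih =>
    intro hn
    by_cases h : (3 : ℤ) ∣ (n : ℤ)
    · have h' : 3 ∣ n := by exact_mod_cast h
      obtain ⟨m, rfl⟩ := h'
      by_cases hm : m = 0
      · simp [hm]
      · exfalso
        have h30 : (3 : F) ≠ 0 := by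
          intro h0
          rw [h0, map_zero] at h3
          exact exp_ne_zero h3.symm
        push_cast at hn
        exact hm (ih m (by omega) ((mul_eq_zero.1 hn).resolve_left h30))
    · exfalso
      have h1 := Vb_unit (V := V) h3 h
      push_cast at h1
      rw [hn, map_zero] at h1
      exact zero_ne_one h1

theorem Vb_nine (h3 : V 3 = exp (-1 : ℤ)) : V 9 = exp (-2 : ℤ) := by
  have h : (9 : F) = 3 * 3 := by norm_num
  rw [h, map_mul, h3, ← exp_neg_two]

theorem Vb_exp4 : (exp (-4 : ℤ) : WithZero (Multiplicative ℤ)) = exp (-2) * exp (-2) := by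
  rw [← exp_add]; norm_num

theorem Vb_exp6 : (exp (-6 : ℤ) : WithZero (Multiplicative ℤ)) = exp (-2) ^ 3 := by
  rw [← exp_nsmul]; norm_num

theorem Vb_main (h3 : V 3 = exp (-1 : ℤ)) {a b a1 c1 : ℤ} {d x y g U v : F} (hd : d ≠ 0)
    (hc1 : V (c1 : F) = 1) (hx : x = U * v) (hg : g = a1 * x + c1)
    (h1 : d * v ^ 3 = y + 9 * g) (h2 : U ^ 3 = d * (y - 9 * g)) : Cls V a b d := by
  have : CharZero F := Vb_charZero h3
  have h9 := Vb_nine h3
  have hV2 : V (2 : F) = 1 := by
    have := Vb_unit (V := V) h3 (n := 2) (by norm_num)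
    exact_mod_cast this
  have hc0 : (c1 : F) ≠ 0 := by
    intro h
    rw [h, map_zero] at hc1
    exact zero_ne_one hc1
  have hy2 : y ^ 2 = x ^ 3 + 81 * g ^ 2 := by
    have e1 : (d * v ^ 3) * (d * (y - 9 * g)) = d * x ^ 3 := by
      rw [← h2, hx]; ring
    have e2 : d * ((y + 9 * g) * (y - 9 * g)) = d * x ^ 3 := by
      rw [← e1, h1]; ring
    have e3 := mul_left_cancel₀ hd e2
    linear_combination e3
  have h81 : V (81 * g ^ 2) = exp (-4 : ℤ) * V g ^ 2 := by
    have e : (81 : F) = 9 * 9 := by norm_num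
    rw [map_mul, map_pow, e, map_mul, h9, ← Vb_exp4]
  by_cases hA : 1 ≤ V x
  · -- case A
    have hgx : V g ≤ V x := by
      rw [hg]
      refine V_add_le ?_ (hc1.le.trans hA)
      rw [map_mul]
      exact mul_le_of_le_one_left' (V_int a1)
    have hx0 : x ≠ 0 := by
      rintro rfl
      rw [map_zero] at hA
      exact absurd hA (not_le.2 one_pos)
    have hVx0 : 0 < V x := lt_of_lt_of_le one_pos hA
    have hlt : V (81 * g ^ 2) < V (x ^ 3) := by
      rw [h81, map_pow]
      calc exp (-4 : ℤ) * V g ^ 2 ≤ exp (-4 : ℤ) * V x ^ 2 :=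
            mul_le_mul_right (pow_le_pow_left' hgx 2) _
        _ < 1 * V x ^ 2 := by
            refine mul_lt_mul_of_pos_right ?_ (pow_pos hVx0 2)
            rw [← exp_zero, exp_lt_exp]; norm_num
        _ ≤ V x ^ 3 := by
            rw [one_mul]
            exact pow_le_pow_right₀ hA (by norm_num)
    have hVy : V (y ^ 2) = V (x ^ 3) := by
      rw [hy2]
      exact Valuation.map_add_eq_of_lt_left V hlt
    have hxy : V x ≤ V y := by
      by_contra h
      rw [not_le] at h
      have e : V y ^ 2 = V x ^ 3 := by rw [← map_pow, hVy, map_pow]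
      have e2 : V y ^ 2 < V x ^ 2 := pow_lt_pow_left₀ h zero_le (by norm_num)
      have e3 : V x ^ 2 ≤ V x ^ 3 := pow_le_pow_right₀ hA (by norm_num)
      exact absurd (e2.trans_le e3) (by rw [e]; exact lt_irrefl _)
    have hy0 : y ≠ 0 := by
      rintro rfl
      rw [map_zero] at hxy
      exact absurd hVx0 (not_lt.2 hxy)
    have hv0 : v ≠ 0 := by
      rintro rfl
      exact hx0 (by rw [hx, mul_zero])
    have hgy : V (g / y) ≤ 1 := by
      rw [map_div₀]
      exact div_le_one_of_le₀ (hgx.trans hxy) zero_le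
    refine Or.inr ⟨v * x / y, 1, div_ne_zero (mul_ne_zero hv0 hx0) hy0, ?_⟩
    have e : d * (v * x / y) ^ 3 * ((1 : ℚ) : F) - 1
        = 9 * ((g / y) * (1 - 9 * (g / y) - 81 * ((g / y) * (g / y)))) := by
      have e1 : d * (v * x / y) ^ 3 = (y + 9 * g) * (y ^ 2 - 81 * g ^ 2) / y ^ 3 := by
        rw [← h1, hy2]
        field_simp
        ring
      rw [e1]
      field_simp
      push_cast
      ring
    rw [e, map_mul, h9]
    refine mul_le_of_le_one_right' (V_mul_le hgy ?_)
    have hi9 : V (9 : F) ≤ 1 := by exact_mod_cast V_int (V := V) 9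
    have hi81 : V (81 : F) ≤ 1 := by exact_mod_cast V_int (V := V) 81
    exact V_sub_le (V_sub_le (map_one V).le (V_mul_le hi9 hgy))
      (V_mul_le hi81 (V_mul_le hgy hgy))
  · rw [not_le] at hA
    have hax : V (a1 * x) < 1 := V_mul_lt (V_int a1) hA
    have hVg : V g = 1 := by
      rw [hg, ← hc1]
      exact Valuation.map_add_eq_of_lt_right V (by rw [hc1]; exact hax)
    rw [hVg, one_pow, mul_one] at h81
    have hA' := le_exp_neg_one hA
    rcases hA'.lt_or_eq with hC | hB
    · -- case C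
      have hC2 : V x ≤ exp (-2 : ℤ) := by
        by_cases h0 : V x = 0
        · rw [h0]; exact zero_le
        · rw [← exp_log h0, exp_lt_exp] at hC
          rw [← exp_log h0, exp_le_exp]
          omega
      have hx3 : V (x ^ 3) ≤ exp (-6 : ℤ) := by
        rw [map_pow, Vb_exp6]
        exact pow_le_pow_left' hC2 3
      have hVy : V (y ^ 2) = exp (-4 : ℤ) := by
        rw [hy2, ← h81]
        refine Valuation.map_add_eq_of_lt_right V ?_
        rw [h81]
        refine hx3.trans_lt ?_
        rw [exp_lt_exp]; norm_num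
      have hn9 : (9 : F) ≠ 0 := by norm_num
      obtain ⟨y1, hy1⟩ : ∃ y1 : F, y = 9 * y1 := ⟨y / 9, by field_simp⟩
      have hVy1 : V y1 ≤ 1 := by
        have e : V (9 * y1) ^ 2 = exp (-4 : ℤ) := by rw [← hy1, ← map_pow, hVy]
        rw [map_mul, h9, mul_pow, pow_two, ← Vb_exp4] at e
        have e2 : V y1 ^ 2 = 1 := by
          have h0 : (exp (-4 : ℤ) : WithZero (Multiplicative ℤ)) ≠ 0 := exp_ne_zero
          exact mul_left_cancel₀ h0 (by rw [e, mul_one])
        exact ((pow_eq_one_iff_of_nonneg zero_le (by norm_num)).1 e2).le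
      have hprod : (y1 - g) * (y1 + g) = x ^ 3 / 81 := by
        have h81' : (81 : F) ≠ 0 := by norm_num
        rw [eq_div_iff h81']
        rw [hy1] at hy2
        linear_combination hy2
      have hprodV : V (y1 - g) * V (y1 + g) ≤ exp (-2 : ℤ) := by
        rw [← map_mul, hprod, map_div₀]
        have e81 : V (81 : F) = exp (-4 : ℤ) := by
          have e : (81 : F) = 9 * 9 := by norm_num
          rw [e, map_mul, h9, ← Vb_exp4]
        rw [e81]
        refine (div_le_iff₀ (by rw [zero_lt_iff]; exact exp_ne_zero)).2 ?_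
        rw [← exp_add]
        refine hx3.trans ?_
        rw [exp_le_exp]; norm_num
      have hm1 : V (y1 - g) ≤ 1 := V_sub_le hVy1 hVg.le
      have hp1 : V (y1 + g) ≤ 1 := V_add_le hVy1 hVg.le
      have hax2 : V (2 * (a1 * x)) ≤ exp (-2 : ℤ) := by
        rw [map_mul, hV2, one_mul, map_mul]
        exact (mul_le_of_le_one_left' (V_int a1)).trans hC2
      by_cases hm : V (y1 - g) < 1
      · -- C1
        have hpe : V (y1 + g) = 1 := by
          refine le_antisymm hp1 ?_
          by_contra h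
          rw [not_le] at h
          have e : (2 * g : F) = (y1 + g) - (y1 - g) := by ring
          have : V (2 * g) < 1 := by rw [e]; exact V_sub_lt h hm
          rw [map_mul, hV2, hVg, one_mul] at this
          exact lt_irrefl _ this
        rw [hpe, mul_one] at hprodV
        have hv0 : v ≠ 0 := by
          rintro rfl
          have e : y1 + g = 0 := by
            have : 9 * (y1 + g) = 0 := by
              rw [hy1] at h1
              linear_combination -h1
            exact (mul_eq_zero.1 this).resolve_left hn9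
          rw [e, map_zero] at hpe
          exact zero_ne_one hpe
        refine Or.inr ⟨v, 1 / (18 * c1), hv0, ?_⟩
        have e : d * v ^ 3 * ((1 / (18 * c1) : ℚ) : F) - 1
            = (2 * (a1 * x) + (y1 - g)) / (2 * c1) := by
          rw [h1, hy1]
          push_cast
          field_simp
          rw [hg]
          ring
        rw [e, map_div₀, map_mul V 2 (c1 : F), hV2, hc1, one_mul, div_one]
        exact V_add_le hax2 hprodV
      · -- C2
        have hme : V (y1 - g) = 1 := le_antisymm hm1 (not_lt.1 hm)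
        rw [hme, one_mul] at hprodV
        have hm0 : y1 - g ≠ 0 := by
          intro h
          rw [h, map_zero] at hme
          exact zero_ne_one hme
        have hU3 : U ^ 3 = d * (9 * (y1 - g)) := by
          rw [h2, hy1]; ring
        have hU0 : U ≠ 0 := by
          rintro rfl
          have : d * (9 * (y1 - g)) = 0 := by rw [← hU3]; ring
          exact mul_ne_zero hd (mul_ne_zero hn9 hm0) this
        refine Or.inr ⟨-1 / U, 18 * c1, div_ne_zero (neg_ne_zero.2 one_ne_zero) hU0, ?_⟩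
        have e : d * (-1 / U) ^ 3 * ((18 * c1 : ℚ) : F) - 1
            = (2 * (a1 * x) - (y1 + g)) / (y1 - g) := by
          have e1 : d * (-1 / U) ^ 3 = - 1 / (9 * (y1 - g)) := by
            rw [div_pow, hU3]
            field_simp
          rw [e1]
          push_cast
          field_simp
          rw [hg]
          ring
        rw [e, map_div₀, hme, div_one]
        exact V_sub_le hax2 hprodV
    · -- case B
      exfalso
      have hx3 : V (x ^ 3) = exp (-3 : ℤ) := by
        rw [map_pow, hB, ← exp_nsmul]; norm_num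
      have hVy : V (y ^ 2) = exp (-3 : ℤ) := by
        rw [hy2, ← hx3]
        refine Valuation.map_add_eq_of_lt_left V ?_
        rw [hx3, h81, exp_lt_exp]; norm_num
      rw [map_pow] at hVy
      have h0 : V y ≠ 0 := by
        intro h
        rw [h] at hVy
        exact exp_ne_zero (hVy.symm.trans (zero_pow (by norm_num)))
      rw [← exp_log h0, ← exp_nsmul, exp_inj] at hVy
      simp only [nsmul_eq_mul] at hVy
      push_cast at hVy
      omega

end Vb_aux

theorem vb {F : Type*} [Field F] {V : Valuation F (WithZero (Multiplicative ℤ))}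
    (h3 : V 3 = exp (-1 : ℤ)) {a b : ℤ} (ha : (3 : ℤ) ∣ a) (hb : ¬ (3 : ℤ) ∣ b) {d : F} (hd : d ≠ 0)
    (H : LocSol (1 : F) (a : F) ((9 * b + 4 * a ^ 3 : ℤ) : F) d) : Cls V a b d := by
  rcases H with ⟨t, ht⟩ | ⟨U, v, H⟩
  · have ht0 : t ≠ 0 := by
      rintro rfl
      exact hd (by rw [ht]; ring)
    refine Or.inr ⟨t⁻¹, 1, inv_ne_zero ht0, ?_⟩
    have : d * t⁻¹ ^ 3 * ((1 : ℚ) : F) - 1 = 0 := by
      rw [ht]
      field_simp
      simp
    rw [this, map_zero]
    exact zero_le
  · obtain ⟨a1, rfl⟩ := ha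
    have hc1 : ¬ (3 : ℤ) ∣ b + 12 * a1 ^ 3 := by
      intro h
      apply hb
      have h12 : (3 : ℤ) ∣ 12 * a1 ^ 3 := Dvd.dvd.mul_right (by norm_num) _
      exact (Int.dvd_add_left h12).1 h
    refine Vb_main h3 hd (a1 := a1) (c1 := b + 12 * a1 ^ 3) (x := U * v)
      (y := d * v ^ 3 - 9 * (a1 * (U * v) + ((b + 12 * a1 ^ 3 : ℤ) : F)))
      (g := a1 * (U * v) + ((b + 12 * a1 ^ 3 : ℤ) : F)) (U := U) (v := v) (Vb_unit h3 hc1) rfl rfl (by ring) ?_
    push_cast at H ⊢
    linear_combination (-1 : F) * H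

end H55T3
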