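import Pool.Agent.H55.T3.Va

/-!
Row Vs (about 160 lines): descent of the local class to the number field and the Galois step.

PROOF of cls_descend: copy KapForm.descend (Pool/Agent/H10/StarGal.lean): approximate t and η by elements of L (exists_close), V (T - t) ≤ exp (-2) V t (first alternative: V (d t^3) = V (1 + 3 η) ≤ 1; second: V (d t^3 q) = 1), V (Y - η) < 1; 3 (Y - η) has V ≤ exp (-2); V (Y^2 a^3 - 2 b) < 1 (pow_close).
 X (T^3 - t^3) = X (T - t) (T^2 + T t + t^2), V ≤ V X * exp (-2) V t * V t^2.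
PROOF of vs. Second alternative: z := d t^3 q, V (z - 1) ≤ exp (-2), σ z = σ d (σ t)^3 q (σ fixes rationals), V (σ z - 1) ≤ exp (-2) (hσ). σ d/d * (σ t/t)^3 = σ z/z, V (z) = 1, V (σ z - z) ≤ exp (-2).
 First alternative: V (σ η - η) < 1: both satisfy η^2 a^3 ≡ 2 b (σ fixes integers), V a = 1, so V (σ η^2 - η^2) < 1, hence V (σ η - η) < 1 or V (σ η + η) < 1 (V of a product < 1, both factors ≤ 1). In the second case: by induction V (σ^j η - (-1)^j η) < 1, j = orderOf σ odd: V (2 η) < 1, V 2 = 1 (V 3 < 1), V η < 1, V (σ η) < 1, so V (σ η - η) < 1.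
 Then z := d t^3: V (z - (1 + 3 η)) ≤ exp (-2), V (σ z - (1 + 3 σ η)) ≤ exp (-2), V (3 (σ η - η)) ≤ exp (-2), so V (σ z - z) ≤ exp (-2), V z = 1. Conclude with t' := σ t/t.
-/

set_option autoImplicit false
open scoped Classical

open WeierstrassCurve IsDedekindDomain NumberField WithZero Pool.Agent.H10

namespace H55T3

theorem Vs_three {F : Type*} [Field F] {V : Valuation F (WithZero (Multiplicative ℤ))}
    (h3 : V 3 = exp (-1 : ℤ)) {x : F} (h : V x < 1) : V (3 * x) ≤ exp (-2 : ℤ) := by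
  rw [map_mul, h3, exp_neg_two]
  exact mul_le_mul_right (le_exp_neg_one h) _

theorem Vs_three_lt {F : Type*} [Field F] {V : Valuation F (WithZero (Multiplicative ℤ))}
    (h3 : V 3 = exp (-1 : ℤ)) {x : F} (h : V x ≤ 1) : V (3 * x) < 1 := by
  rw [map_mul, h3]
  exact (mul_le_of_le_one_right' h).trans_lt exp_neg_lt_one

theorem Vs_cube {F : Type*} [Field F] {V : Valuation F (WithZero (Multiplicative ℤ))} {X T t : F}
    (hX : V (X * t ^ 3) ≤ 1) (hT : V (T - t) ≤ exp (-2 : ℤ) * V t) (hTt : V T = V t) :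
    V (X * (T ^ 3 - t ^ 3)) ≤ exp (-2 : ℤ) := by
  have e1 : X * (T ^ 3 - t ^ 3) = X * ((T - t) * (T ^ 2 + T * t + t ^ 2)) := by ring
  have h1 : V (T ^ 2 + T * t + t ^ 2) ≤ V t ^ 2 := by
    refine V_add_le (V_add_le ?_ ?_) ?_
    · rw [map_pow, hTt]
    · rw [map_mul, hTt, pow_two]
    · rw [map_pow]
  rw [e1, map_mul, map_mul]
  calc V X * (V (T - t) * V (T ^ 2 + T * t + t ^ 2))
      ≤ V X * ((exp (-2) * V t) * V t ^ 2) := mul_le_mul_right (mul_le_mul' hT h1) _
    _ = exp (-2) * (V X * V t ^ 3) := by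
        rw [pow_succ (V t) 2]; ac_rfl
    _ ≤ exp (-2) * 1 := by
        refine mul_le_mul_right ?_ _
        rw [← map_pow, ← map_mul]; exact hX
    _ = exp (-2) := mul_one _

theorem cls_descend {L : Type} [Field L] [NumberField L] {w : HeightOneSpectrum (𝓞 L)}
    (h3 : w.valuation L 3 = exp (-1 : ℤ)) {a b : ℤ} {d : L} (hd : d ≠ 0)
    (h : Cls Valued.v a b (algebraMap L (w.adicCompletion L) d)) : Cls (w.valuation L) a b d := by
  have e3 : Valued.v (3 : w.adicCompletion L) = exp (-1 : ℤ) := by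
    rw [valued_ofNat w 3]; exact h3
  set X := algebraMap L (w.adicCompletion L) d with hX
  have h1 : Valued.v (1 : w.adicCompletion L) ≤ 1 := by rw [map_one]
  have happ : ∀ t : w.adicCompletion L, t ≠ 0 → ∃ t' : L, t' ≠ 0 ∧
      Valued.v (algebraMap L (w.adicCompletion L) t' - t) ≤ exp (-2 : ℤ) * Valued.v t ∧
      Valued.v (algebraMap L (w.adicCompletion L) t') = Valued.v t := by
    intro t ht
    have hvt : Valued.v t ≠ 0 := (Valuation.ne_zero_iff _).mpr ht
    obtain ⟨t', ht'⟩ := exists_close w t (-2 + log (Valued.v t))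
    rw [exp_add, exp_log hvt] at ht'
    set T := algebraMap L (w.adicCompletion L) t' with hT
    have hlt : Valued.v (T - t) < Valued.v t := by
      refine ht'.trans_le ?_
      exact mul_le_of_le_one_left' (exp_neg_two_lt.trans exp_neg_lt_one).le
    have hVT : Valued.v T = Valued.v t := by
      have : T = (T - t) + t := by ring
      rw [this, Valuation.map_add_eq_of_lt_right _ hlt]
    refine ⟨t', ?_, ht'.le, hVT⟩
    rintro rfl
    rw [hT, map_zero, map_zero] at hVT
    exact hvt hVT.symm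
  rcases h with ⟨t, η, ht, hη, ha, hroot, hc⟩ | ⟨t, q, ht, hc⟩
  · left
    obtain ⟨t', ht0, ht1, ht2⟩ := happ t ht
    obtain ⟨y', hy'⟩ := exists_close w η 0
    rw [exp_zero] at hy'
    set T := algebraMap L (w.adicCompletion L) t' with hT
    set Y := algebraMap L (w.adicCompletion L) y' with hY
    have hVY : Valued.v Y ≤ 1 := by
      have : Y = (Y - η) + η := by ring
      rw [this]
      exact V_add_le hy'.le hη
    have hXt : Valued.v (X * t ^ 3) ≤ 1 := by
      have h5 : X * t ^ 3 = (X * t ^ 3 - (1 + 3 * η)) + (1 + 3 * η) := by ring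
      rw [h5]
      exact V_add_le (hc.trans (exp_neg_two_lt.trans exp_neg_lt_one).le)
        (V_add_le h1 (Vs_three_lt e3 hη).le)
    refine ⟨t', y', ht0, ?_, ?_, ?_, ?_⟩
    · rw [← valued_algebraMap]; exact hVY
    · rw [← valued_algebraMap, map_intCast]; exact ha
    · rw [← valued_algebraMap, map_sub, map_mul, map_mul, map_pow, map_pow, map_intCast, map_ofNat,
        map_intCast, ← hY]
      have e1 : Y ^ 2 * (a : w.adicCompletion L) ^ 3 - 2 * b =
          (η ^ 2 * a ^ 3 - 2 * b) + (a : w.adicCompletion L) ^ 3 * (Y ^ 2 - η ^ 2) := by ring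
      rw [e1]
      refine V_add_lt hroot (V_mul_lt ?_ (pow_close hVY hη hy' 2))
      rw [map_pow, ha, one_pow]
    · rw [← valued_algebraMap, map_sub, map_mul, map_pow, map_add, map_one, map_mul, map_ofNat,
        ← hX, ← hT, ← hY]
      have e1 : X * T ^ 3 - (1 + 3 * Y) = X * (T ^ 3 - t ^ 3) +
          ((X * t ^ 3 - (1 + 3 * η)) - 3 * (Y - η)) := by ring
      rw [e1]
      exact V_add_le (Vs_cube hXt ht1 ht2) (V_sub_le hc (Vs_three e3 hy'))
  · right
    obtain ⟨t', ht0, ht1, ht2⟩ := happ t ht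
    set T := algebraMap L (w.adicCompletion L) t' with hT
    refine ⟨t', q, ht0, ?_⟩
    rw [← valued_algebraMap, map_sub, map_mul, map_mul, map_pow, map_one, map_ratCast, ← hX, ← hT]
    have hXt : Valued.v ((X * q) * t ^ 3) ≤ 1 := by
      have h5 : (X * q) * t ^ 3 = (X * t ^ 3 * q - 1) + 1 := by ring
      rw [h5]
      exact V_add_le (hc.trans (exp_neg_two_lt.trans exp_neg_lt_one).le) h1
    have e1 : X * T ^ 3 * q - 1 = (X * q) * (T ^ 3 - t ^ 3) + (X * t ^ 3 * q - 1) := by ring
    rw [e1]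
    exact V_add_le (Vs_cube hXt ht1 ht2) hc

theorem Vs_fin {L : Type} [Field L] {V : Valuation L (WithZero (Multiplicative ℤ))} {z z' : L}
    (hz : V z = 1) (h : V (z' - z) ≤ exp (-2 : ℤ)) : V (z' / z - 1) ≤ exp (-2 : ℤ) := by
  have hz0 : z ≠ 0 := by
    rintro rfl
    rw [map_zero] at hz
    exact zero_ne_one hz
  have e1 : z' / z - 1 = (z' - z) / z := by
    field_simp
  rw [e1, map_div₀, hz, div_one]
  exact h

theorem vs {K L : Type} [Field K] [Field L] [CharZero L] [Algebra K L]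
    {V : Valuation L (WithZero (Multiplicative ℤ))}
    (h3 : V 3 = exp (-1 : ℤ)) {σ : L ≃ₐ[K] L} (hσ : ∀ x, V (σ x) = V x) (hodd : Odd (orderOf σ))
    {a b : ℤ} {d : L} (hd : d ≠ 0) (h : Cls V a b d) :
    ∃ t : L, V (σ d / d * t ^ 3 - 1) ≤ exp (-2 : ℤ) := by
  have hlt2 : (exp (-2 : ℤ) : WithZero (Multiplicative ℤ)) < 1 :=
    exp_neg_two_lt.trans exp_neg_lt_one
  have h1 : V (1 : L) = 1 := map_one V
  rcases h with ⟨t, η, ht, hη, ha, hroot, hc⟩ | ⟨t, q, ht, hc⟩
  · have hση : V (σ η) ≤ 1 := by rw [hσ]; exact hη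
    have hroot' : V ((σ η) ^ 2 * a ^ 3 - 2 * b) < 1 := by
      have : (σ η) ^ 2 * (a : L) ^ 3 - 2 * b = σ (η ^ 2 * a ^ 3 - 2 * b) := by
        rw [map_sub, map_mul, map_mul, map_pow, map_pow, map_intCast, map_ofNat, map_intCast]
      rw [this, hσ]
      exact hroot
    have h2 : V 2 = 1 := by
      have e1 : (2 : L) = -1 + 3 * 1 := by norm_num
      rw [e1, Valuation.map_add_eq_of_lt_left, Valuation.map_neg, h1]
      rw [Valuation.map_neg, h1]
      exact Vs_three_lt h3 h1.le
    have hprod : V ((σ η - η) * (σ η + η)) < 1 := by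
      have e1 : ((σ η) ^ 2 * (a : L) ^ 3 - 2 * b) - (η ^ 2 * a ^ 3 - 2 * b) =
          ((σ η - η) * (σ η + η)) * (a : L) ^ 3 := by ring
      have h5 := V_sub_lt hroot' hroot
      rw [e1, map_mul, map_pow, ha, one_pow, mul_one] at h5
      exact h5
    have hclose : V (σ η - η) < 1 := by
      by_contra hcon
      rw [not_lt] at hcon
      have h5 : V (σ η - η) = 1 := le_antisymm (V_sub_le hση hη) hcon
      rw [map_mul, h5, one_mul] at hprod
      have hind : ∀ j : ℕ, V ((σ ^ j) η - (-1) ^ j * η) < 1 := by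
        intro j
        induction j with
        | zero =>
          rw [pow_zero, pow_zero, AlgEquiv.one_apply, one_mul, sub_self, map_zero]
          exact one_pos
        | succ j ih =>
          have e1 : (σ ^ (j + 1)) η - (-1) ^ (j + 1) * η =
              σ ((σ ^ j) η - (-1) ^ j * η) + (-1) ^ j * (σ η + η) := by
            rw [pow_succ', AlgEquiv.mul_apply, map_sub, map_mul, map_pow, map_neg, map_one]
            ring
          rw [e1]
          refine V_add_lt (by rw [hσ]; exact ih) (V_mul_lt ?_ hprod)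
          rw [map_pow, Valuation.map_neg, map_one, one_pow]
      have h6 := hind (orderOf σ)
      rw [pow_orderOf_eq_one, AlgEquiv.one_apply, hodd.neg_one_pow] at h6
      have e2 : η - -1 * η = 2 * η := by ring
      rw [e2, map_mul, h2, one_mul] at h6
      have h7 : V (σ η) < 1 := by rw [hσ]; exact h6
      exact absurd (V_sub_lt h7 h6) (not_lt.2 hcon)
    refine ⟨σ t / t, ?_⟩
    have hz1 : V (1 + 3 * η) = 1 := Valuation.map_one_add_of_lt V (Vs_three_lt h3 hη)
    have hz : V (d * t ^ 3) = 1 := by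
      have e1 : d * t ^ 3 = (1 + 3 * η) + (d * t ^ 3 - (1 + 3 * η)) := by ring
      rw [e1, Valuation.map_add_eq_of_lt_left _ (by rw [hz1]; exact hc.trans_lt hlt2), hz1]
    have e1 : σ d / d * (σ t / t) ^ 3 = σ (d * t ^ 3) / (d * t ^ 3) := by
      rw [map_mul, map_pow]
      field_simp
    rw [e1]
    refine Vs_fin hz ?_
    have e2 : σ (d * t ^ 3) - d * t ^ 3 = (σ (d * t ^ 3 - (1 + 3 * η)) -
        (d * t ^ 3 - (1 + 3 * η))) + 3 * (σ η - η) := by
      rw [map_sub σ (d * t ^ 3), map_add, map_one, map_mul σ 3 η, map_ofNat]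
      ring
    rw [e2]
    exact V_add_le (V_sub_le (by rw [hσ]; exact hc) hc) (Vs_three h3 hclose)
  · refine ⟨σ t / t, ?_⟩
    have hz : V (d * t ^ 3 * q) = 1 := by
      have e1 : d * t ^ 3 * q = 1 + (d * t ^ 3 * q - 1) := by ring
      rw [e1]
      exact Valuation.map_one_add_of_lt V (hc.trans_lt hlt2)
    have hq : (q : L) ≠ 0 := by
      intro h0
      rw [h0, mul_zero, map_zero] at hz
      exact zero_ne_one hz
    have e1 : σ d / d * (σ t / t) ^ 3 = σ (d * t ^ 3 * q) / (d * t ^ 3 * q) := by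
      rw [map_mul, map_mul, map_pow, map_ratCast]
      field_simp
    rw [e1]
    refine Vs_fin hz ?_
    have e2 : σ (d * t ^ 3 * q) - d * t ^ 3 * q = σ (d * t ^ 3 * q - 1) - (d * t ^ 3 * q - 1) := by
      rw [map_sub, map_one]
      ring
    rw [e2]
    exact V_sub_le (by rw [hσ]; exact hc) hc

end H55T3
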