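import Pool.Agent.H55.T3.Vg
import Pool.Agent.H55.T3.Vb
import Pool.Agent.H55.T3.Vs
import Pool.Agent.H55.T3.Df2

/-!
Row K5a (about 130 lines): the arithmetic input for `D = 1`.

PROOF. x := σ d/d ≠ 0. Apply R (NoNewCube K L) to x.
(i) valuations: w a place of L. If ((6 b c : ℤ) : 𝓞 L) ∈ w: v := w under 𝓞 K contains 6 b c, UniqueOver (hbad), so w.valuation (σ d) = w.valuation d (val_conj_of_unique, H10/StarGal.lean) and log (w x) = 0. Otherwise 3 ∣ log (w d) by vg_place (s = 1, 2 c ∉ w), and w (σ d) = w' (d) for a place w' with the same elements of 𝓞 K (exists_conj),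
   so 2 c ∉ w' and 3 ∣ log (w' d). log (w x) = log (w (σ d)) - log (w d) (log_div or log_mul).
(ii) w ∋ 3: w x t^3 - 1: 6 b c ∈ w, so w (σ y) = w y for all y; w.valuation L 3 = exp (-1) (hunr). Cls Valued.v a b (algebraMap d): va if ¬ 3 ∣ a, vb if 3 ∣ a (then ¬ 3 ∣ b by hred) applied to H w (map_one, map_intCast); cls_descend; vs (orderOf σ divides the odd number card Gal(L/K) = finrank K L). w 9 = exp (-2).
(iii) Algebra.norm K (σ d) = Algebra.norm K d (Algebra.norm_eq_of_algEquiv), so norm x = 1 = 1^3.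
So x = y^3, σ d = d y^3.
-/

set_option autoImplicit false
open scoped Classical

open WeierstrassCurve IsDedekindDomain NumberField WithZero Pool.Agent.H10

namespace H55T3

theorem k5_arith {K L : Type} [Field K] [NumberField K] [Field L] [NumberField L] [Algebra K L]
    [IsGalois K L] (hodd : Odd (Module.finrank K L)) (R : NoNewCube K L) {a b : ℤ}
    (hc : 9 * b + 4 * a ^ 3 ≠ 0) (hred : ¬ ((3 : ℤ) ∣ a ∧ (3 : ℤ) ∣ b))
    (hbad : ∀ v : HeightOneSpectrum (𝓞 K), ((6 * b * (9 * b + 4 * a ^ 3) : ℤ) : 𝓞 K) ∈ v.asIdeal →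
      UniqueOver K L v.asIdeal)
    (hunr : ∀ w : HeightOneSpectrum (𝓞 L), (3 : 𝓞 L) ∈ w.asIdeal →
      w.valuation L 3 = exp (-1 : ℤ))
    {d : L} (hd : d ≠ 0) (H : FinSol3 L 1 (a : L) ((9 * b + 4 * a ^ 3 : ℤ) : L) d) (σ : L ≃ₐ[K] L) :
    ∃ y, σ d = d * y ^ 3 := by
  have below : ∀ w : HeightOneSpectrum (𝓞 L), w.asIdeal.under (𝓞 K) ≠ ⊥ := fun w =>
    Ideal.IsIntegral.comap_ne_bot _ w.ne_bot
  have mem_iff : ∀ (w : HeightOneSpectrum (𝓞 L)) (z : ℤ),
      (z : 𝓞 K) ∈ w.asIdeal.under (𝓞 K) ↔ (z : 𝓞 L) ∈ w.asIdeal := by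
    intro w z
    change algebraMap (𝓞 K) (𝓞 L) (z : 𝓞 K) ∈ w.asIdeal ↔ _
    rw [map_intCast]
  have hinv : ∀ w : HeightOneSpectrum (𝓞 L),
      ((6 * b * (9 * b + 4 * a ^ 3) : ℤ) : 𝓞 L) ∈ w.asIdeal →
      ∀ x, w.valuation L (σ x) = w.valuation L x := by
    intro w hw
    exact val_conj_of_unique σ w
      (hbad ⟨w.asIdeal.under (𝓞 K), inferInstance, below w⟩ ((mem_iff w _).mpr hw))
  have hsd : σ d ≠ 0 := by
    intro h
    apply hd
    rw [← σ.symm_apply_apply d, h, map_zero]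
  have hx0 : σ d / d ≠ 0 := div_ne_zero hsd hd
  have hLoc : ∀ w : HeightOneSpectrum (𝓞 L), LocSol (1 : w.adicCompletion L) (a : w.adicCompletion L)
      ((9 * b + 4 * a ^ 3 : ℤ) : w.adicCompletion L) (algebraMap L (w.adicCompletion L) d) := by
    intro w
    have h1 := H w
    rw [map_one, map_intCast, map_intCast] at h1
    exact h1
  have R' : (∀ w : HeightOneSpectrum (𝓞 L), (3 : ℤ) ∣ WithZero.log (w.valuation L (σ d / d))) →
      (∀ w : HeightOneSpectrum (𝓞 L), (3 : 𝓞 L) ∈ w.asIdeal →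
        ∃ t : L, w.valuation L (σ d / d * t ^ 3 - 1) ≤ w.valuation L 9) →
      (∃ y : K, Algebra.norm K (σ d / d) = y ^ 3) → ∃ y : L, σ d = d * y ^ 3 := by
    intro q1 q2 q3
    obtain ⟨y, hy⟩ := R (σ d / d) hx0 q1 q2 q3
    refine ⟨y, ?_⟩
    rw [← hy, mul_div_cancel₀ _ hd]
  refine R' ?_ ?_ ?_
  · intro w
    by_cases hw : ((6 * b * (9 * b + 4 * a ^ 3) : ℤ) : 𝓞 L) ∈ w.asIdeal
    · rw [map_div₀, hinv w hw d, div_self ((Valuation.ne_zero_iff _).mpr hd), log_one]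
      exact dvd_zero _
    · have hgood : ∀ w' : HeightOneSpectrum (𝓞 L),
          ((2 * (9 * b + 4 * a ^ 3) : ℤ) : 𝓞 L) ∉ w'.asIdeal →
          (3 : ℤ) ∣ log (w'.valuation L d) := by
        intro w' h2
        exact vg_place (w := w') (s := 1) (a := a) (c := 9 * b + 4 * a ^ 3) (map_one _) h2 hd (H w')
      have h2w : ((2 * (9 * b + 4 * a ^ 3) : ℤ) : 𝓞 L) ∉ w.asIdeal := by
        intro h
        apply hw
        have e : ((6 * b * (9 * b + 4 * a ^ 3) : ℤ) : 𝓞 L) =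
            ((3 * b : ℤ) : 𝓞 L) * ((2 * (9 * b + 4 * a ^ 3) : ℤ) : 𝓞 L) := by
          push_cast
          ring
        rw [e]
        exact Ideal.mul_mem_left _ _ h
      obtain ⟨w', h1, h2⟩ := exists_conj σ w
      have h2w' : ((2 * (9 * b + 4 * a ^ 3) : ℤ) : 𝓞 L) ∉ w'.asIdeal := by
        intro h
        apply h2w
        have h3 := (h2 ((2 * (9 * b + 4 * a ^ 3) : ℤ) : 𝓞 K)).1
        rw [map_intCast] at h3
        exact h3 h
      rw [map_div₀, h1, log_div ((Valuation.ne_zero_iff _).mpr hd) ((Valuation.ne_zero_iff _).mpr hd)]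
      exact dvd_sub (hgood w' h2w') (hgood w h2w)
  · intro w hw
    have h3 := hunr w hw
    have h9 : w.valuation L 9 = exp (-2 : ℤ) := by
      have e : (9 : L) = 3 * 3 := by norm_num
      rw [e, map_mul, h3, ← exp_add]
      rfl
    rw [h9]
    have hw6 : ((6 * b * (9 * b + 4 * a ^ 3) : ℤ) : 𝓞 L) ∈ w.asIdeal := by
      have e : ((6 * b * (9 * b + 4 * a ^ 3) : ℤ) : 𝓞 L) =
          ((2 * b * (9 * b + 4 * a ^ 3) : ℤ) : 𝓞 L) * 3 := by
        push_cast
        ring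
      rw [e]
      exact Ideal.mul_mem_left _ _ hw
    have hσ := hinv w hw6
    have hoddσ : Odd (orderOf σ) := by
      refine Odd.of_dvd_nat hodd ?_
      rw [← IsGalois.card_aut_eq_finrank]
      exact orderOf_dvd_natCard σ
    have e3 : Valued.v (3 : w.adicCompletion L) = exp (-1 : ℤ) := by
      rw [valued_ofNat w 3]; exact h3
    have hdw : algebraMap L (w.adicCompletion L) d ≠ 0 := by
      rw [Ne, map_eq_zero]
      exact hd
    have hcls : Cls Valued.v a b (algebraMap L (w.adicCompletion L) d) := by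
      by_cases ha : (3 : ℤ) ∣ a
      · exact vb e3 ha (fun hb => hred ⟨ha, hb⟩) hdw (hLoc w)
      · exact va e3 ha hdw (hLoc w)
    exact vs h3 hσ hoddσ hd (cls_descend h3 hd hcls)
  · refine ⟨1, ?_⟩
    have h1 : Algebra.norm K (σ d / d) * Algebra.norm K d = Algebra.norm K d := by
      rw [← map_mul, div_mul_cancel₀ _ hd, Algebra.norm_eq_of_algEquiv]
    have h2 : Algebra.norm K d ≠ 0 := Algebra.norm_ne_zero_iff.mpr hd
    rw [one_pow]
    exact mul_right_cancel₀ h2 (by rw [h1, one_mul])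

end H55T3
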