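import Pool.Agent.H55.T3.K6a

/-!
Row K6b (about 90 lines): from the closure of `C` back to the closure of `L`.

PROOF. Let f, g ∈ Gal(L^al/K) be given (L^al = AlgebraicClosure L); take T = 0. We need conj (inv_up hV) g f τ = f τ. j := jj L C : L^al ≃ₐ[L] C^al. g' := j g j⁻¹ ∈ Gal(C^al/K) ((j.restrictScalars K).symm.trans (g.trans (j.restrictScalars K))), τ' := j τ j⁻¹ over L. trans j _ f σ' = pm j (f (j⁻¹ σ' j)) (Func4).
 k6a for g', τ': pm j (f (j⁻¹ (cj g' τ') j)) = pm j (f τ), and j⁻¹ (cj g' τ') j = cj g τ (ext; apply_cj), so f (cj g τ) = f τ (pm_injective). conj h g f τ = act h g (f (cj g τ)) = f (cj g τ) because the kernel points are rational over K: kr_rat with r = 1 over L^al (D = -3): 0 or (0, ±3 b), fixed by act g (act is pm; pm_some).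
-/

set_option autoImplicit false
open scoped Classical

open WeierstrassCurve IsDedekindDomain NumberField Pool.Agent.H10 Pool.Agent.H11

namespace H55T3

variable {K L C : Type} [Field K] [NumberField K] [Field L] [NumberField L] [Field C] [NumberField C]
  [Algebra K L] [Algebra L C] [Algebra K C] [IsScalarTower K L C] [IsGalois K L] [IsGalois K C]
  [IsGalois L C] {V : WeierstrassCurve K} {V' : WeierstrassCurve L} {a b : K}

theorem k6 (h : Is3 V (-3) a b) (hV : V.map (algebraMap K L) = V')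
    (hn : ¬ 3 ∣ Module.finrank K L) {s : C} (hs : s ^ 2 = -3)
    (hab : ∀ g g' : C ≃ₐ[K] C, g * g' = g' * g) (S : Set (C ≃ₐ[K] C)) (hS : ∀ g ∈ S, g s = s)
    (hcov : ∀ t : L ≃ₐ[K] L, ∃ g ∈ S, ∀ x : L, g (algebraMap L C x) = algebraMap L C (t x))
    (H : ∀ d : C, d ≠ 0 → FinSol3 C s (algebraMap K C a)
      (algebraMap K C (9 * b + 4 * (-3) * a ^ 3)) d →
      (∀ g : C ≃ₐ[L] C, g s = s → ∃ y, g d = d * y ^ 3) →
      (∀ g : C ≃ₐ[L] C, g s = -s → ∃ y, g d * d = y ^ 3) → ∀ g ∈ S, ∃ y, g d = d * y ^ 3) :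
    KT K L V' (inv_up hV) := by
  intro f hf hl hk g
  refine ⟨0, kr_zero, fun τ => ?_⟩
  rw [map_zero, sub_zero, add_zero]
  let j := jj L C
  let g' : AlgebraicClosure C ≃ₐ[K] AlgebraicClosure C :=
    ((j.restrictScalars K).symm.trans g).trans (j.restrictScalars K)
  let τ' : AlgebraicClosure C ≃ₐ[L] AlgebraicClosure C := (j.symm.trans τ).trans j
  have hg' : ∀ z, g' z = j (g (j.symm z)) := fun z => rfl
  have hτ' : ∀ z, τ' z = j (τ (j.symm z)) := fun z => rfl
  have h1 := k6a h hV (rfl : V'.map (algebraMap L C) = V'.map (algebraMap L C)) hn hs hab S hS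
    hcov H hf hl hk g' τ'
  have h2 : f ((j.trans (cj g' τ')).trans j.symm) = f ((j.trans τ').trans j.symm) :=
    pm_injective _ _ h1
  have e1 : (j.trans τ').trans j.symm = τ := by
    refine AlgEquiv.ext fun y => ?_
    change j.symm (τ' (j y)) = τ y
    rw [hτ', j.symm_apply_apply, j.symm_apply_apply]
  have e2 : (j.trans (cj g' τ')).trans j.symm = cj g τ := by
    refine AlgEquiv.ext fun y => ?_
    change j.symm (cj g' τ' (j y)) = cj g τ y
    rw [AlgEquiv.symm_apply_eq]
    apply g'.injective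
    rw [apply_cj, hg' (j (cj g τ y)), j.symm_apply_apply, apply_cj, hg', j.symm_apply_apply, hτ',
      j.symm_apply_apply]
  rw [e1, e2] at h2
  change act (inv_up hV) g (f (cj g τ)) = f τ
  rw [h2]
  have h3 : Is3 (V'.baseChange (AlgebraicClosure L))
      (algebraMap L (AlgebraicClosure L) (algebraMap K L (-3)))
      (algebraMap L (AlgebraicClosure L) (algebraMap K L a))
      (algebraMap L (AlgebraicClosure L) (algebraMap K L b)) := (h.up hV).up rfl
  have h4 : algebraMap L (AlgebraicClosure L) (algebraMap K L (-3)) = -3 * 1 ^ 2 := by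
    rw [map_neg, map_neg, map_ofNat, map_ofNat]; ring
  have hb : g (algebraMap L (AlgebraicClosure L) (algebraMap K L b))
      = algebraMap L (AlgebraicClosure L) (algebraMap K L b) := by
    rw [← IsScalarTower.algebraMap_apply K L (AlgebraicClosure L)]
    exact g.commutes b
  rcases kr_rat h3 h4 (hk τ) with h5 | ⟨y, n, h5, h6⟩
  · rw [h5, map_zero]
  · rw [h5]
    have hy : g y = y := by
      rcases h6 with h6 | h6
      · rw [h6, map_mul, hb, map_mul, map_one, map_ofNat]
      · rw [h6, map_neg, map_mul, hb, map_mul, map_one, map_ofNat]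
    change pm (g : AlgebraicClosure L →+* AlgebraicClosure L) _ (Affine.Point.some 0 y n) = _
    rw [pm_some, Affine.Point.some.injEq]
    exact ⟨map_zero _, hy⟩

end H55T3
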