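import Pool.Agent.H55.T3.Df2
import Pool.Agent.H5.SW.L4b

/-!
Row Ct (about 220 lines): the cyclotomic field over a tower.

PROOF. T : Tw p m n K L M F, rF := T.rp.rL : RC (p^(n+1)) F, rM := T.rp.rK. C := CyclotomicField (3 p^(n+1)) ℚ (numeral instances as in H5/SW/Ex3.lean: Ex3_cyc gives CyclotomicField (p^(n+1)) ℚ →+* ...; here p^(n+1) ∣ 3 p^(n+1): send ζ to ζ_{3p^(n+1)}^3). φ : F →+* C the composite of rF.emb with this map.
 algebra structures: L → C := φ ∘ algebraMap L F, K → C := composite with algebraMap K L (IsScalarTower by definition).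
(1) H5SW.psi (Pool/Agent/H5/SW/Ps.lean) with k := AlgebraicClosure C, ψ := (𝓞 F → F → C → k): z primitive p^(n+1)-th root in k with ψ (c a) = z^a + z^(-a). C contains a primitive p^(n+1)-th root η0 = ζ^3, so z = image of a power of η0 (IsPrimitiveRoot.eq_pow_of_pow_eq_one): z = image of η ∈ C primitive; φ (rF.c a) = η^a.val + (η^a.val)⁻¹ (a mod p^(n+1)).
(2) for g ∈ Gal(C/ℚ), u := unitsMap (kap g) ∈ (ZMod (p^(n+1)))ˣ: g η = η^u (galEquivZMod_apply_of_pow_eq; η^(p^(n+1)) = 1, the exponent (kap g).val mod p^(n+1)). g (φ (rF.c a)) = φ (rF.c (u a)) = φ (rF.σ u (rF.c a)) (hσ). F/ℚ is Galois (rF.gal): g ∘ φ = φ ∘ g_F for some g_F ∈ Gal(F/ℚ) (AlgHom.fieldRange / restrictNormal for the F-algebra structure φ), g_F (c a) = c (u a) for all a,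
   so g_F = rF.σ u (apply_c and c_inj / e_inj in Ap.lean: g = σ v is determined by g (c 1) = c v up to sign, σ_neg). So g (φ y) = φ (rF.σ u y) for all y ∈ F.
fixL: u = ±1: σ u = 1 (rF.ker).
fixK: InH g: unitsMap to level p^(m+1) of u is 1 (3 p^(m+1) ∣ ...; ZMod.unitsMap_comp / compare images in ZMod (p^(m+1))), so by RP.mem_iff rF.σ u = h.restrictScalars ℚ, h : F ≃ₐ[M] F, fixes M, in particular the image of K (T.comm).
cov: t : L ≃ₐ[K] L. L/ℚ and F/ℚ are Galois (subfields of abelian; galois_KL in L5, or Ex), F normal over L: extend t to g0 ∈ Gal(F/ℚ) (AlgEquiv.liftNormal for t over ℚ with L → F), g0 fixes the image of K. gal_split: g0 = a * b, a trivial on L, b trivial on M. For x ∈ L: b x ∈ L (L/ℚ normal), so t x = g0 x = a (b x) = b x.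
   b comes from h : F ≃ₐ[M] F, b = rF.σ u with unitsMap u = 1 (RP.mem_iff). Chinese remainder: a unit k mod 3 p^(n+1) with k ≡ 1 mod 3, k ≡ u mod p^(n+1) (ZMod.chineseRemainder, 3 coprime to p as 5 ≤ p); g := (galEquivZMod ..).symm k. InH: k ≡ 1 mod 3 and mod p^(m+1), so mod 3 p^(m+1). By (2) g x = φ (b x) = t x.
-/

set_option autoImplicit false
open scoped Classical

open IsDedekindDomain NumberField Finset H5SW

namespace H55T3

/-- `C = ℚ(ζ_{3 p^(n+1)})` over `K ⊆ L` -/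
structure CTw (p m n : ℕ) [Fact p.Prime] (hmn : m ≤ n) (K L C : Type) [Field K] [NumberField K]
    [Field L] [NumberField L] [Field C] [NumberField C] [Algebra K L] [Algebra L C] [Algebra K C]
    [IsCyclotomicExtension {3 * p ^ (n + 1)} ℚ C] : Prop where
  fixL : ∀ g : C ≃ₐ[ℚ] C, (ZMod.unitsMap (Dvd.intro_left 3 rfl) (kap p n C g) = (1 : (ZMod (p ^ (n + 1)))ˣ) ∨
    ZMod.unitsMap (Dvd.intro_left 3 rfl) (kap p n C g) = (-1 : (ZMod (p ^ (n + 1)))ˣ)) →
    ∀ x : L, g (algebraMap L C x) = algebraMap L C x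
  fixK : ∀ g : C ≃ₐ[ℚ] C, InH p m n hmn C g → ∀ x : K, g (algebraMap K C x) = algebraMap K C x
  cov : ∀ t : L ≃ₐ[K] L, ∃ g : C ≃ₐ[ℚ] C, InH p m n hmn C g ∧
    ∀ x : L, g (algebraMap L C x) = algebraMap L C (t x)

section Ct_aux

theorem Ct_pow_mod {C : Type} [Field C] {η : C} {N : ℕ} (h : η ^ N = 1) (a : ℕ) : η ^ (a % N) = η ^ a := by
  conv_rhs => rw [← Nat.mod_add_div a N, pow_add, pow_mul, h, one_pow, mul_one]

theorem Ct_val {p n : ℕ} [Fact p.Prime] (x : (ZMod (3 * p ^ (n + 1)))ˣ) :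
    ((ZMod.unitsMap (Dvd.intro_left 3 rfl : p ^ (n + 1) ∣ 3 * p ^ (n + 1)) x : (ZMod (p ^ (n + 1)))ˣ) :
      ZMod (p ^ (n + 1))).val = (x : ZMod (3 * p ^ (n + 1))).val % p ^ (n + 1) := by
  rw [ZMod.unitsMap_val, ZMod.cast_eq_val, ZMod.val_natCast]

theorem Ct_eta {p n : ℕ} [Fact p.Prime] (hp2 : p ≠ 2) {F C : Type} [Field F] [NumberField F] [Field C]
    [NumberField C] [IsCyclotomicExtension {3 * p ^ (n + 1)} ℚ C] (r : RC (p ^ (n + 1)) F) (φ : F →+* C) :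
    ∃ η : C, η ^ (p ^ (n + 1)) = 1 ∧
      ∀ a : ZMod (p ^ (n + 1)), φ (r.c a : F) = η ^ a.val + (η ^ a.val)⁻¹ := by
  have hp : p.Prime := Fact.out
  have hpos : 0 < p ^ (n + 1) := pow_pos hp.pos _
  obtain ⟨z, hz, hza⟩ := psi hp2 r (k := AlgebraicClosure C)
    (by exact_mod_cast hp.ne_zero)
    ((algebraMap C (AlgebraicClosure C)).comp (φ.comp (algebraMap (𝓞 F) F)))
  have hw := IsCyclotomicExtension.zeta_spec (3 * p ^ (n + 1)) ℚ C
  have hw3 : IsPrimitiveRoot (IsCyclotomicExtension.zeta (3 * p ^ (n + 1)) ℚ C ^ 3) (p ^ (n + 1)) :=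
    hw.pow (by positivity) rfl
  have hwk := hw3.map_of_injective (algebraMap C (AlgebraicClosure C)).injective
  haveI : NeZero (p ^ (n + 1)) := ⟨hpos.ne'⟩
  obtain ⟨i, -, hi⟩ := hwk.eq_pow_of_pow_eq_one hz.pow_eq_one
  refine ⟨(IsCyclotomicExtension.zeta (3 * p ^ (n + 1)) ℚ C ^ 3) ^ i, ?_, ?_⟩
  · rw [pow_right_comm, hw3.pow_eq_one, one_pow]
  · intro a
    apply (algebraMap C (AlgebraicClosure C)).injective
    have h1 := hza a
    rw [← hi] at h1
    rw [map_add, map_inv₀, map_pow, map_pow]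
    exact h1

theorem Ct_key {p n : ℕ} [Fact p.Prime] (hp2 : p ≠ 2) {F C : Type} [Field F] [NumberField F] [Field C]
    [NumberField C] [IsCyclotomicExtension {3 * p ^ (n + 1)} ℚ C] (r : RC (p ^ (n + 1)) F) (φ : F →+* C)
    (g : C ≃ₐ[ℚ] C) (y : F) :
    g (φ y) = φ (r.σ (ZMod.unitsMap (Dvd.intro_left 3 rfl) (kap p n C g)) y) := by
  have hp : p.Prime := Fact.out
  have hpos : 0 < p ^ (n + 1) := pow_pos hp.pos _
  obtain ⟨η, hη, hc⟩ := Ct_eta hp2 r φ
  obtain ⟨u, hu⟩ : ∃ u : (ZMod (p ^ (n + 1)))ˣ, u = ZMod.unitsMap (Dvd.intro_left 3 rfl) (kap p n C g) := ⟨_, rfl⟩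
  have hgη : g η = η ^ (u : ZMod (p ^ (n + 1))).val := by
    have h1 : η ^ (3 * p ^ (n + 1)) = 1 := by rw [mul_comm, pow_mul, hη, one_pow]
    have h2 := IsCyclotomicExtension.Rat.galEquivZMod_apply_of_pow_eq (3 * p ^ (n + 1)) C g h1
    rw [h2, hu, Ct_val, Ct_pow_mod hη]
  have hgc : ∀ a : ZMod (p ^ (n + 1)), g (φ (r.c a : F)) = φ (r.c (u * a) : F) := by
    intro a
    rw [hc, hc, map_add, map_inv₀, map_pow, hgη, ← pow_mul, ZMod.val_mul, Ct_pow_mod hη]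
  rw [← hu]
  letI : Algebra F C := φ.toAlgebra
  haveI : IsGalois ℚ F := r.gal
  have hr : ∀ y : F, φ (g.restrictNormal F y) = g (φ y) := fun y => AlgEquiv.restrictNormal_commutes g F y
  have h1 : r.σ (r.u (g.restrictNormal F)) = r.σ u := by
    have h2 := hr (r.c 1 : F)
    rw [hgc, r.apply_c, mul_one, mul_one] at h2
    have h3 := r.c_inj (RingOfIntegers.coe_injective (φ.injective h2))
    rcases h3 with h3 | h3
    · rw [Units.ext h3]
    · rw [← Units.val_neg] at h3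
      rw [Units.ext h3, r.σ_neg]
  rw [r.σ_u] at h1
  rw [← hr y, h1]

theorem Ct_crt {p m n : ℕ} [Fact p.Prime] (hp3 : p ≠ 3) (hmn : m ≤ n) (u : (ZMod (p ^ (n + 1)))ˣ)
    (hu : ZMod.unitsMap (pow_dvd_pow p (Nat.succ_le_succ hmn)) u = 1) :
    ∃ k : (ZMod (3 * p ^ (n + 1)))ˣ,
      ZMod.unitsMap (Dvd.intro_left 3 rfl) k = u ∧
      ZMod.unitsMap (Nat.mul_dvd_mul_left 3 (pow_dvd_pow p (Nat.succ_le_succ hmn))) k =
        (1 : (ZMod (3 * p ^ (m + 1)))ˣ) := by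
  have hp : p.Prime := Fact.out
  have hcop0 : Nat.Coprime 3 p := (Nat.coprime_primes Nat.prime_three hp).2 (Ne.symm hp3)
  have hcop : Nat.Coprime 3 (p ^ (n + 1)) := hcop0.pow_right _
  have hcopm : Nat.Coprime 3 (p ^ (m + 1)) := hcop0.pow_right _
  haveI hn0 : NeZero (p ^ (n + 1)) := ⟨(pow_pos hp.pos _).ne'⟩
  haveI hm0 : NeZero (p ^ (m + 1)) := ⟨(pow_pos hp.pos _).ne'⟩
  obtain ⟨N, hN3, hNp⟩ := Nat.chineseRemainder hcop 1 (u : ZMod (p ^ (n + 1))).val
  have hNu : (N : ZMod (p ^ (n + 1))) = u := by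
    rw [← ZMod.natCast_zmod_val (u : ZMod (p ^ (n + 1)))]
    exact (ZMod.natCast_eq_natCast_iff _ _ _).2 hNp
  have hNc3 : Nat.Coprime N 3 := by
    have h1 : Nat.gcd N 3 = Nat.gcd 1 3 := hN3.gcd_eq
    rw [Nat.coprime_iff_gcd_eq_one, h1]
    norm_num
  have hNcp : Nat.Coprime N (p ^ (n + 1)) := by
    rw [← ZMod.isUnit_iff_coprime, hNu]
    exact u.isUnit
  have hNc : Nat.Coprime N (3 * p ^ (n + 1)) := Nat.Coprime.mul_right hNc3 hNcp
  have hcast : ∀ {d : ℕ} (hd : d ∣ 3 * p ^ (n + 1)),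
      ((ZMod.unitsMap hd (ZMod.unitOfCoprime N hNc) : (ZMod d)ˣ) : ZMod d) = (N : ZMod d) := by
    intro d hd
    rw [ZMod.unitsMap_def, Units.coe_map, MonoidHom.coe_coe, ZMod.coe_unitOfCoprime, map_natCast]
  refine ⟨ZMod.unitOfCoprime N hNc, ?_, ?_⟩
  · apply Units.ext
    rw [hcast, hNu]
  · apply Units.ext
    rw [hcast, Units.val_one, ← Nat.cast_one, ZMod.natCast_eq_natCast_iff]
    rw [← Nat.modEq_and_modEq_iff_modEq_mul hcopm]
    refine ⟨hN3, ?_⟩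
    rw [← ZMod.natCast_eq_natCast_iff, Nat.cast_one]
    have h1 := congrArg (fun w : (ZMod (p ^ (m + 1)))ˣ => (w : ZMod (p ^ (m + 1)))) hu
    simp only [Units.val_one] at h1
    rw [ZMod.unitsMap_def, Units.coe_map, MonoidHom.coe_coe, ← hNu, map_natCast] at h1
    exact h1

end Ct_aux

theorem exists_C {p m n : ℕ} [Fact p.Prime] (hp : 5 ≤ p) {K L M F : Type}
    [Field K] [NumberField K] [Field L] [NumberField L] [Field M] [NumberField M] [Field F]
    [NumberField F] [Algebra K L] [Algebra M F] [Algebra K M] [Algebra L F]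
    (T : Tw p m n K L M F) :
    ∃ (C : Type) (_ : Field C) (_ : NumberField C) (_ : IsCyclotomicExtension {3 * p ^ (n + 1)} ℚ C)
      (_ : Algebra L C) (_ : Algebra K C) (_ : IsScalarTower K L C), CTw p m n T.rp.hmn K L C := by
  have hpp : p.Prime := Fact.out
  have hp2 : p ≠ 2 := by omega
  have hp3 : p ≠ 3 := by omega
  have hpos : 0 < p ^ (n + 1) := pow_pos hpp.pos _
  haveI hn0 : NeZero (p ^ (n + 1)) := ⟨hpos.ne'⟩
  haveI hcyc : IsCyclotomicExtension {3 * p ^ (n + 1)} ℚ (CyclotomicField (3 * p ^ (n + 1)) ℚ) :=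
    Ex3_inst (3 * p ^ (n + 1))
  haveI hcyc1 : IsCyclotomicExtension {p ^ (n + 1)} ℚ (CyclotomicField (p ^ (n + 1)) ℚ) :=
    Ex3_inst (p ^ (n + 1))
  -- the embedding of `F`
  obtain ⟨ι⟩ : Nonempty (CyclotomicField (p ^ (n + 1)) ℚ →+* CyclotomicField (3 * p ^ (n + 1)) ℚ) := by
    have hz := IsCyclotomicExtension.zeta_spec (p ^ (n + 1)) ℚ (CyclotomicField (p ^ (n + 1)) ℚ)
    have hw := IsCyclotomicExtension.zeta_spec (3 * p ^ (n + 1)) ℚ (CyclotomicField (3 * p ^ (n + 1)) ℚ)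
    have hw2 : IsPrimitiveRoot (IsCyclotomicExtension.zeta (3 * p ^ (n + 1)) ℚ
        (CyclotomicField (3 * p ^ (n + 1)) ℚ) ^ 3) (p ^ (n + 1)) := hw.pow (by positivity) rfl
    have hirr := Polynomial.cyclotomic.irreducible_rat hpos
    have hmin := hz.minpoly_eq_cyclotomic_of_irreducible hirr
    refine ⟨((hz.powerBasis ℚ).lift _ (?_ : Polynomial.aeval
      (IsCyclotomicExtension.zeta (3 * p ^ (n + 1)) ℚ (CyclotomicField (3 * p ^ (n + 1)) ℚ) ^ 3)
      (minpoly ℚ (hz.powerBasis ℚ).gen) = 0)).toRingHom⟩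
    rw [IsPrimitiveRoot.powerBasis_gen, ← hmin, Polynomial.aeval_def, Polynomial.eval₂_eq_eval_map,
      Polynomial.map_cyclotomic]
    exact hw2.isRoot_cyclotomic hpos
  obtain ⟨e⟩ := T.rp.rL.emb
  obtain ⟨φ, hφ⟩ : ∃ φ : F →+* CyclotomicField (3 * p ^ (n + 1)) ℚ, φ = ι.comp e := ⟨_, rfl⟩
  letI aL : Algebra L (CyclotomicField (3 * p ^ (n + 1)) ℚ) := (φ.comp (algebraMap L F)).toAlgebra
  letI aK : Algebra K (CyclotomicField (3 * p ^ (n + 1)) ℚ) :=
    ((φ.comp (algebraMap L F)).comp (algebraMap K L)).toAlgebra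
  haveI tow : IsScalarTower K L (CyclotomicField (3 * p ^ (n + 1)) ℚ) :=
    IsScalarTower.of_algebraMap_eq (fun _ => rfl)
  have key := fun (g : CyclotomicField (3 * p ^ (n + 1)) ℚ ≃ₐ[ℚ] CyclotomicField (3 * p ^ (n + 1)) ℚ) (y : F) =>
    Ct_key hp2 T.rp.rL φ g y
  refine ⟨CyclotomicField (3 * p ^ (n + 1)) ℚ, inferInstance, inferInstance, hcyc, aL, aK, tow, ⟨?_, ?_, ?_⟩⟩
  · intro g hg x
    have h1 : T.rp.rL.σ (ZMod.unitsMap (Dvd.intro_left 3 rfl)
        (kap p n (CyclotomicField (3 * p ^ (n + 1)) ℚ) g)) = 1 := (T.rp.rL.ker _).2 hg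
    have h2 := key g (algebraMap L F x)
    rw [h1] at h2
    exact h2
  · intro g hg x
    have h1 : ZMod.unitsMap (pow_dvd_pow p (Nat.succ_le_succ T.rp.hmn))
        (ZMod.unitsMap (Dvd.intro_left 3 rfl) (kap p n (CyclotomicField (3 * p ^ (n + 1)) ℚ) g)) = 1 := by
      have h2 : ZMod.unitsMap (Dvd.intro_left 3 rfl : p ^ (m + 1) ∣ 3 * p ^ (m + 1))
          (ZMod.unitsMap (Nat.mul_dvd_mul_left 3 (pow_dvd_pow p (Nat.succ_le_succ T.rp.hmn)))
            (kap p n (CyclotomicField (3 * p ^ (n + 1)) ℚ) g)) = 1 := by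
        unfold InH at hg
        rw [hg, map_one]
      rw [← MonoidHom.comp_apply, ZMod.unitsMap_comp] at h2 ⊢
      exact h2
    obtain ⟨h, hh⟩ := (T.rp.mem_iff hp2 _).2 ⟨_, h1, rfl⟩
    have h2 := key g (algebraMap L F (algebraMap K L x))
    rw [← T.comm, ← hh] at h2
    have h3 : (h.restrictScalars ℚ) (algebraMap M F (algebraMap K M x)) = algebraMap M F (algebraMap K M x) :=
      h.commutes _
    rw [h3, T.comm] at h2
    exact h2
  · intro t
    haveI : IsGalois ℚ F := T.rp.rL.gal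
    haveI : IsAbelianGalois ℚ F := { is_comm.comm x y := T.rp.rL.gal_comm x y }
    haveI : IsAbelianGalois ℚ L := IsAbelianGalois.tower_bot ℚ L F
    haveI : IsGalois ℚ L := IsAbelianGalois.toIsGalois
    have hg0 : ∀ y : L, ((t.restrictScalars ℚ).liftNormal F) (algebraMap L F y) = algebraMap L F (t y) :=
      fun y => AlgEquiv.liftNormal_commutes (t.restrictScalars ℚ) F y
    obtain ⟨a, b, hab, ha, hb⟩ := T.gal_split ((t.restrictScalars ℚ).liftNormal F) (by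
      intro x
      rw [hg0, t.commutes])
    have hbr : ∀ y : L, algebraMap L F (b.restrictNormal L y) = b (algebraMap L F y) :=
      fun y => AlgEquiv.restrictNormal_commutes b L y
    have hbt : ∀ y : L, b (algebraMap L F y) = algebraMap L F (t y) := by
      intro y
      rw [← hg0, hab, AlgEquiv.mul_apply, ← hbr, ha]
    obtain ⟨u, hu, hub⟩ := (T.rp.mem_iff hp2 b).1
      ⟨AlgEquiv.ofRingEquiv (f := b.toRingEquiv) (fun x => hb x), by ext x; rfl⟩
    obtain ⟨k, hk1, hk2⟩ := Ct_crt hp3 T.rp.hmn u hu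
    obtain ⟨g, hg⟩ : ∃ g : CyclotomicField (3 * p ^ (n + 1)) ℚ ≃ₐ[ℚ] CyclotomicField (3 * p ^ (n + 1)) ℚ,
        kap p n (CyclotomicField (3 * p ^ (n + 1)) ℚ) g = k :=
      ⟨(IsCyclotomicExtension.Rat.galEquivZMod (3 * p ^ (n + 1)) (CyclotomicField (3 * p ^ (n + 1)) ℚ)).symm k,
        MulEquiv.apply_symm_apply _ _⟩
    refine ⟨g, ?_, ?_⟩
    · unfold InH
      rw [hg]
      exact hk2
    · intro x
      have h2 := key g (algebraMap L F x)
      rw [hg, hk1, hub, hbt] at h2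
      exact h2

end H55T3
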