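import Pool.Agent.H55.T3.Df2
import Pool.Agent.H5.SW.L4

/-!
Row Hf (about 220 lines): the group `H` fixes the places of `C` above a prime `q` once the level is high.

PROOF. N = 3 p^(n+1), f = p^(n+1), P = p^(n-m). w : HeightOneSpectrum (𝓞 C), q ∈ w. It is enough that g • w.asIdeal ≤ w.asIdeal for the action of C ≃ₐ[ℚ] C on 𝓞 C (then equality: both maximal; then the valuations agree: w.valuation (g x) = w.valuation x: for x ∈ 𝓞 C the multiplicity of w in (g x) and (x) agree as g maps w^k onto w^k; for fractions divide;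
 or use exists_conj of H10/StarGal.lean with K := ℚ: w.valuation (g x) = w'.valuation x with w' = g⁻¹ w; w' = w).
(0) κ := kap g ≡ 1 mod 3 p^(m+1); κ^P = 1 (as in L4_ker). Units mod f are cyclic (p odd).
(a) q ∤ N: Mathlib `IsCyclotomicExtension.Rat.galEquivZMod_stabilizer`: g ∈ stabilizer of w iff kap g ∈ zpowers (unitOfCoprime q). Let y := κ^((P+1)/2), y^2 = κ (κ^P = 1, P odd). y mod f has order dividing P, and P ∣ orderOf (q mod f) by L4_dvd (p^(n+1-t) ∣ o, n - m ≤ n + 1 - t), so y mod f = q^j (L4_cyc). Then κ = y^2 ≡ q^(2j) mod f, and q^(2j) ≡ 1 ≡ κ mod 3.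
    So κ = q^(2j) in ZMod N (Chinese remainder, 3 coprime to f).
(b) q = 3 (3 ≠ p): let σ be the automorphism with kap σ ≡ 3 mod f, ≡ 1 mod 3. Claim σ x - x^3 ∈ w for all x ∈ 𝓞 C: the set of such x is a subring (3 ∈ w, so (x+y)^3 ≡ x^3 + y^3) containing ζ (ζ := a primitive N-th root, 𝓞 C = ℤ[ζ]: isIntegralClosure_adjoin_singleton / integralPowerBasis in Mathlib.NumberTheory.NumberField.Cyclotomic.Basic):
    σ ζ = ζ^(kap σ), kap σ = 3 + 3·(..)... write σ ζ - ζ^3 = ζ^3 (ζ^(kap σ - 3) - 1), f ∣ kap σ - 3, so ζ^(kap σ - 3) is a cube root of unity r, (r - 1)^3 ≡ r^3 - 1 = 0 mod 3, so r - 1 ∈ w. Hence σ w ≤ w, and the same for all powers of σ. κ ≡ 1 mod 3 and κ mod f = 3^j for some j (as in (a), q = 3, ht for q = 3), so κ = kap (σ^j), g = σ^j.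
(c) q = p: g x - x ∈ w for all x ∈ 𝓞 C: the set of such x is a subring containing ζ: g ζ - ζ = ζ (ζ^(κ-1) - 1), 3 ∣ κ - 1 so r := ζ^(κ-1) has r^f = 1, (r - 1)^f ≡ r^f - 1 = 0 mod p (f a power of p), so r - 1 ∈ w. So g w ≤ w.
-/

set_option autoImplicit false
open scoped Classical Pointwise

open IsDedekindDomain NumberField Finset H5SW

namespace H55T3

lemma Hf_ext {N : ℕ} [NeZero N] {C : Type} [Field C] [NumberField C]
    [IsCyclotomicExtension {N} ℚ C] {ζ : C} (hζ : IsPrimitiveRoot ζ N) {S : Type} [CommRing S]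
    (φ ψ : 𝓞 C →+* S) (h : φ hζ.toInteger = ψ hζ.toInteger) (x : 𝓞 C) : φ x = ψ x := by
  have h1 : φ.toIntAlgHom = ψ.toIntAlgHom := by
    apply hζ.integralPowerBasis.algHom_ext
    rw [hζ.integralPowerBasis_gen]
    exact h
  exact congrArg (fun F : 𝓞 C →ₐ[ℤ] S => F x) h1

lemma Hf_pow {R : Type} [CommRing R] {x : R} {N a b : ℕ} (hx : x ^ N = 1) (h : a ≡ b [MOD N]) :
    x ^ a = x ^ b := by
  have h' : a % N = b % N := h
  rw [← Nat.mod_add_div a N, ← Nat.mod_add_div b N, pow_add, pow_add, pow_mul, pow_mul, hx,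
    one_pow, one_pow, mul_one, mul_one, h']

lemma Hf_inj {R : Type} [CommRing R] [IsDomain R] {q : ℕ} [Fact q.Prime] [CharP R q] (s : ℕ)
    {a b : R} (h : a ^ q ^ s = b ^ q ^ s) : a = b := by
  have h1 := sub_pow_char_pow (p := q) (n := s) a b
  rw [h, sub_self] at h1
  exact sub_eq_zero.1 ((pow_eq_zero_iff (pow_ne_zero _ (Fact.out : q.Prime).ne_zero)).1 h1)

lemma Hf_cast {N M : ℕ} [NeZero N] (h : M ∣ N) (u : (ZMod N)ˣ) :
    ((ZMod.unitsMap h u : (ZMod M)ˣ) : ZMod M) = ((u : ZMod N).val : ZMod M) := by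
  rw [ZMod.unitsMap_val, ZMod.cast_eq_val]

lemma Hf_crt {f : ℕ} [NeZero (3 * f)] (hco : Nat.Coprime 3 f) {a b : (ZMod (3 * f))ˣ}
    (h3 : ZMod.unitsMap (Dvd.intro _ rfl : 3 ∣ 3 * f) a = ZMod.unitsMap (Dvd.intro _ rfl) b)
    (hf : ZMod.unitsMap (Dvd.intro_left 3 rfl : f ∣ 3 * f) a =
      ZMod.unitsMap (Dvd.intro_left 3 rfl) b) : a = b := by
  have e3 := congrArg Units.val h3
  have ef := congrArg Units.val hf
  rw [Hf_cast, Hf_cast, ZMod.natCast_eq_natCast_iff] at e3 ef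
  have e : (a : ZMod (3 * f)).val ≡ (b : ZMod (3 * f)).val [MOD 3 * f] :=
    (Nat.modEq_and_modEq_iff_modEq_mul hco).1 ⟨e3, ef⟩
  apply Units.ext
  rw [← ZMod.natCast_zmod_val (a : ZMod (3 * f)), ← ZMod.natCast_zmod_val (b : ZMod (3 * f)),
    ZMod.natCast_eq_natCast_iff]
  exact e

/-- an automorphism which respects the ideal of a place respects the valuation -/
lemma Hf_val {C : Type} [Field C] [NumberField C] (w : HeightOneSpectrum (𝓞 C)) (g : C ≃ₐ[ℚ] C)
    (h : ∀ x ∈ w.asIdeal, g • x ∈ w.asIdeal) (x : C) :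
    w.valuation C (g x) = w.valuation C x := by
  obtain ⟨w', h1, -⟩ := Pool.Agent.H10.exists_conj g w
  have h2 : w = w' := by
    apply HeightOneSpectrum.ext
    refine w.isMaximal.eq_of_le w'.isPrime.ne_top ?_
    intro y hy
    have h3 := h y hy
    have h4 : w.valuation C ((g • y : 𝓞 C) : C) < 1 :=
      (HeightOneSpectrum.valuation_lt_one_iff_mem w _).2 h3
    have h5 : ((g • y : 𝓞 C) : C) = g (y : C) := rfl
    rw [h5, h1] at h4
    exact (HeightOneSpectrum.valuation_lt_one_iff_mem w' _).1 h4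
  rw [h1, ← h2]

lemma Hf_char {C : Type} [Field C] [NumberField C] {q : ℕ} (hq : q.Prime)
    (w : HeightOneSpectrum (𝓞 C)) (hw : (q : 𝓞 C) ∈ w.asIdeal) : CharP (𝓞 C ⧸ w.asIdeal) q := by
  have : w.asIdeal.IsPrime := w.isPrime
  obtain ⟨c, hc⟩ := CharP.exists (𝓞 C ⧸ w.asIdeal)
  have h1 : ((q : ℕ) : 𝓞 C ⧸ w.asIdeal) = 0 := by
    rw [← map_natCast (Ideal.Quotient.mk w.asIdeal)]
    exact Ideal.Quotient.eq_zero_iff_mem.2 hw
  have h2 : c ∣ q := (CharP.cast_eq_zero_iff _ c q).1 h1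
  rcases (Nat.dvd_prime hq).1 h2 with h3 | h3
  · exact absurd h3 (CharP.char_ne_one (𝓞 C ⧸ w.asIdeal) c)
  · rwa [h3] at hc

theorem h_fix {p m n : ℕ} [Fact p.Prime] (hp : 5 ≤ p) (hmn : m ≤ n) {C : Type} [Field C] [NumberField C]
    [IsCyclotomicExtension {3 * p ^ (n + 1)} ℚ C] {q t : ℕ} (hq : q.Prime)
    (ht : q ≠ p → ¬ p ^ (t + 1) ∣ q ^ (p - 1) - 1) (htm : t ≤ m + 1)
    (w : HeightOneSpectrum (𝓞 C)) (hw : (q : 𝓞 C) ∈ w.asIdeal) {g : C ≃ₐ[ℚ] C}
    (hg : InH p m n hmn C g) (x : C) : w.valuation C (g x) = w.valuation C x := by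
  have hpp := (Fact.out : p.Prime)
  have hp2 : p ≠ 2 := by omega
  have hf0 : 0 < p ^ (n + 1) := pow_pos hpp.pos _
  have : NeZero (p ^ (n + 1)) := ⟨hf0.ne'⟩
  have hco3 : Nat.Coprime 3 (p ^ (n + 1)) := by
    refine Nat.Coprime.pow_right _ ((Nat.coprime_primes Nat.prime_three hpp).2 ?_)
    omega
  set N := 3 * p ^ (n + 1) with hN
  have hd3 : 3 ∣ N := Dvd.intro _ rfl
  have hdf : p ^ (n + 1) ∣ N := Dvd.intro_left 3 rfl
  -- the residues of `κ`
  have hg3 : ZMod.unitsMap hd3 (kap p n C g) = 1 := by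
    have h1 := congrArg (ZMod.unitsMap (Dvd.intro _ rfl : 3 ∣ 3 * p ^ (m + 1))) hg
    rw [map_one, ← MonoidHom.comp_apply, ZMod.unitsMap_comp] at h1
    exact h1
  have hgf : (ZMod.unitsMap hdf (kap p n C g)) ^ p ^ (n - m) = 1 := by
    apply L4_ker hmn
    have h1 := congrArg (ZMod.unitsMap (Dvd.intro_left 3 rfl : p ^ (m + 1) ∣ 3 * p ^ (m + 1))) hg
    rw [map_one, ← MonoidHom.comp_apply, ZMod.unitsMap_comp] at h1
    rw [← MonoidHom.comp_apply, ZMod.unitsMap_comp]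
    exact h1
  have hwp : w.asIdeal.IsPrime := w.isPrime
  have hqf : Fact q.Prime := ⟨hq⟩
  have hch : CharP (𝓞 C ⧸ w.asIdeal) q := Hf_char hq w hw
  have hζ : IsPrimitiveRoot (IsCyclotomicExtension.zeta N ℚ C) N :=
    IsCyclotomicExtension.zeta_spec N ℚ C
  have hζN : hζ.toInteger ^ N = 1 := hζ.toInteger_isPrimitiveRoot.pow_eq_one
  set z : 𝓞 C ⧸ w.asIdeal := Ideal.Quotient.mk w.asIdeal hζ.toInteger with hz
  have hzN : z ^ N = 1 := by rw [hz, ← map_pow, hζN, map_one]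
  apply Hf_val
  by_cases hqp : q = p
  · subst hqp
    have h1 := Hf_ext hζ ((Ideal.Quotient.mk w.asIdeal).comp
      (MulSemiringAction.toRingHom (C ≃ₐ[ℚ] C) (𝓞 C) g)) (Ideal.Quotient.mk w.asIdeal) (by
        change Ideal.Quotient.mk w.asIdeal (g • hζ.toInteger) = z
        rw [IsCyclotomicExtension.Rat.galEquivZMod_smul_of_pow_eq N C g hζN, map_pow]
        change z ^ _ = z
        apply Hf_inj (q := q) (n + 1)
        rw [← pow_mul]
        apply Hf_pow hzN
        have h2 := congrArg Units.val hg3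
        rw [Hf_cast, Units.val_one, ← Nat.cast_one, ZMod.natCast_eq_natCast_iff] at h2
        have h3 := Nat.ModEq.mul_right' (q ^ (n + 1)) h2
        rw [one_mul] at h3
        exact h3)
    intro x hx
    have h2 := h1 x
    rw [Ideal.Quotient.eq_zero_iff_mem.2 hx] at h2
    exact Ideal.Quotient.eq_zero_iff_mem.1 h2
  -- the auxiliary automorphism
  have hqco : q.Coprime (p ^ (n + 1)) := Nat.Coprime.pow_right _ ((Nat.coprime_primes hq hpp).2 hqp)
  obtain ⟨e, he3, hef⟩ := Nat.chineseRemainder hco3 1 (q ^ 2)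
  have heN : e.Coprime N := by
    rw [hN]
    refine Nat.Coprime.mul_right ?_ ?_
    · have := he3.gcd_eq
      rw [Nat.gcd_one_left] at this
      exact this
    · have := hef.gcd_eq
      rw [(Nat.Coprime.pow_left 2 hqco : Nat.gcd (q ^ 2) (p ^ (n + 1)) = 1)] at this
      exact this
  set u : (ZMod N)ˣ := ZMod.unitOfCoprime e heN with hu
  obtain ⟨σ, hσ⟩ := (IsCyclotomicExtension.Rat.galEquivZMod N C).surjective u
  have huv : (u : ZMod N).val ≡ e [MOD N] := by
    rw [← ZMod.natCast_eq_natCast_iff, ZMod.natCast_zmod_val, hu, ZMod.coe_unitOfCoprime]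
  have huf : ZMod.unitsMap hdf u = ZMod.unitOfCoprime q hqco ^ 2 := by
    apply Units.ext
    rw [Hf_cast, Units.val_pow_eq_pow_val, ZMod.coe_unitOfCoprime q hqco, ← Nat.cast_pow,
      ZMod.natCast_eq_natCast_iff]
    exact (huv.of_dvd hdf).trans hef
  have hu3 : ZMod.unitsMap hd3 u = 1 := by
    apply Units.ext
    rw [Hf_cast, Units.val_one, ← Nat.cast_one, ZMod.natCast_eq_natCast_iff]
    exact (huv.of_dvd hd3).trans he3
  -- `κ` is a power of `q ^ 2` modulo `p ^ (n + 1)`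
  obtain ⟨k, hk⟩ : ∃ k : ℕ, (ZMod.unitOfCoprime q hqco ^ 2) ^ k = ZMod.unitsMap hdf (kap p n C g) := by
    have : IsCyclic (ZMod (p ^ (n + 1)))ˣ := ZMod.isCyclic_units_of_prime_pow p hpp hp2 (n + 1)
    set o := orderOf (ZMod.unitOfCoprime q hqco ^ 2) with ho
    have ho0 : o ≠ 0 := (orderOf_pos _).ne'
    have h3 : p ^ (n + 1) ∣ q ^ (2 * o) - 1 := by
      have h4 := congrArg Units.val (pow_orderOf_eq_one (ZMod.unitOfCoprime q hqco ^ 2))
      rw [← pow_mul, Units.val_pow_eq_pow_val, ZMod.coe_unitOfCoprime, Units.val_one,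
        ← Nat.cast_pow] at h4
      have h5 : q ^ (2 * o) ≡ 1 [MOD p ^ (n + 1)] := by
        rw [← ZMod.natCast_eq_natCast_iff, Nat.cast_one]
        exact h4
      exact (Nat.modEq_iff_dvd' (Nat.one_le_pow _ _ hq.pos)).mp h5.symm
    have h6 := L4_dvd (n := n) hp2 hq hqp (ht hqp) (mul_ne_zero two_ne_zero ho0) h3
    have h7 : p ^ (n + 1 - t) ∣ o :=
      (Nat.Coprime.pow_left _ ((Nat.coprime_primes hpp Nat.prime_two).2 hp2)).dvd_of_dvd_mul_left h6
    have h8 : p ^ (n - m) ∣ o := (pow_dvd_pow p (by omega)).trans h7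
    have h9 := L4_cyc hgf h8
    exact (isOfFinOrder_of_finite _).mem_powers_iff_mem_zpowers.mpr h9
  have hgσ : g = σ ^ k := by
    apply (IsCyclotomicExtension.Rat.galEquivZMod N C).injective
    rw [map_pow, hσ]
    apply Hf_crt hco3
    · rw [map_pow]
      exact hg3.trans (by rw [show ZMod.unitsMap (Dvd.intro _ rfl : 3 ∣ 3 * p ^ (n + 1)) u = 1
        from hu3, one_pow])
    · rw [map_pow]
      exact hk.symm.trans (by rw [← huf])
  -- the Frobenius property
  have hfr : ∀ x : 𝓞 C, Ideal.Quotient.mk w.asIdeal (σ • x) =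
      (Ideal.Quotient.mk w.asIdeal x) ^ q ^ 2 := by
    intro x
    have h1 := Hf_ext hζ ((Ideal.Quotient.mk w.asIdeal).comp
      (MulSemiringAction.toRingHom (C ≃ₐ[ℚ] C) (𝓞 C) σ))
      ((iterateFrobenius (𝓞 C ⧸ w.asIdeal) q 2).comp (Ideal.Quotient.mk w.asIdeal)) (by
        change Ideal.Quotient.mk w.asIdeal (σ • hζ.toInteger) =
          iterateFrobenius (𝓞 C ⧸ w.asIdeal) q 2 z
        rw [iterateFrobenius_def, IsCyclotomicExtension.Rat.galEquivZMod_smul_of_pow_eq N C σ hζN,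
          map_pow, hσ]
        change z ^ _ = _
        rw [Hf_pow hzN huv]
        by_cases hq3 : q = 3
        · subst hq3
          apply Hf_inj (q := 3) 1
          rw [← pow_mul, ← pow_mul, pow_one]
          apply Hf_pow hzN
          have := Nat.ModEq.mul_left' 3 hef
          rwa [mul_comm 3 e, mul_comm 3 (3 ^ 2)] at this
        · apply Hf_pow hzN
          refine (Nat.modEq_and_modEq_iff_modEq_mul hco3).1 ⟨he3.trans ?_, hef⟩
          have h2 : q % 3 = 1 ∨ q % 3 = 2 := by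
            have h3 : ¬ 3 ∣ q := fun h => hq3 ((Nat.prime_dvd_prime_iff_eq Nat.prime_three hq).1 h).symm
            omega
          rcases h2 with h2 | h2 <;> simp [Nat.ModEq, Nat.pow_mod, h2])
    exact h1 x
  have hfrk : ∀ (j : ℕ) (x : 𝓞 C), x ∈ w.asIdeal → σ ^ j • x ∈ w.asIdeal := by
    intro j
    induction j with
    | zero =>
      intro x hx
      rwa [pow_zero, one_smul]
    | succ j ih =>
      intro x hx
      rw [pow_succ, mul_smul]
      apply ih
      apply Ideal.Quotient.eq_zero_iff_mem.1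
      rw [hfr, Ideal.Quotient.eq_zero_iff_mem.2 hx]
      exact zero_pow (pow_ne_zero _ hq.ne_zero)
  rw [hgσ]
  exact hfrk k

end H55T3
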