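import Pool.Agent.H55.T3.Vg
import Pool.Agent.H55.T3.Ct
import Pool.Agent.H55.T3.Hf

/-!
Row K6c (about 150 lines): the arithmetic input for `D = -3`.

PROOF. e := g d/d, g ∈ H (g : C ≃ₐ[ℚ] C with InH). Apply R (NoNewC) to e ≠ 0.
(i) valuations. w a place of C. If ((6 b : ℤ) : 𝓞 C) ∈ w there is a prime q ∣ 6 b with q ∈ w (exists_prime_mem in H5/SW/Fin.lean, copy it or import) and w (g d) = w d (h_fix with hT), log (w e) = 0. Otherwise 3 ∣ log (w d) by vg_place with c := 27 b: w s = 1 (s^2 = -3, 3 ∉ w: w (s)^2 = w 3 = 1), 2 * (27 b) ∉ w (it divides a product of powers of 6 b.. : w prime, 2, 3, b ∉ w);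
    similarly 3 ∣ log (w (g d)): w (g d) = w' (d), w' the conjugate place (exists_conj in H10/StarGal.lean with K := ℚ), 6 b ∉ w'.
(ii) ∏_{h ∈ H} h e = ∏ (h g) d/∏ h d = 1 (reindex h ↦ h g, H is closed under multiplication by g: InH is the kernel of a homomorphism): 1 = 1^3.
(iii) g0 with kap g0 ≡ -1 mod p^(n+1), ≡ 1 mod 3: g0 fixes L (T.fixL) and g0 s = s: s = ±(2 r + 1), r = ζ^(p^(n+1)) a primitive cube root of unity ((2 r + 1)^2 = -3), g0 r = r^(kap g0) = r. So hτ: g0 d = d y^3 (g0 as an element of C ≃ₐ[L] C). Gal(C/ℚ) is commutative: g0 e = g (g0 d)/g0 d = g (d y^3)/(d y^3) = e (g y/y)^3.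
(iv) J with kap J = -1: J fixes L, J r = r^(-1), J s = -s; hJ: J d * d = y^3, e * J e = (g d * g (J d))/(d * J d) = (g y/y)^3.
NoNewC: e = y^3.
-/

set_option autoImplicit false
open scoped Classical

open IsDedekindDomain NumberField Finset H5SW

namespace H55T3

theorem K6c_prime {C : Type} [Field C] [NumberField C] {D : ℤ} (hD : D ≠ 0)
    (v : HeightOneSpectrum (𝓞 C)) (hv : (D : 𝓞 C) ∈ v.asIdeal) :
    ∃ q : ℕ, q.Prime ∧ q ∣ D.natAbs ∧ (q : 𝓞 C) ∈ v.asIdeal := by
  have hD0 : D.natAbs ≠ 0 := Int.natAbs_ne_zero.mpr hD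
  have hDv : (D.natAbs : 𝓞 C) ∈ v.asIdeal := by
    rcases Int.natAbs_eq D with h | h
    · rw [h, Int.cast_natCast] at hv
      exact hv
    · rw [h, Int.cast_neg, Int.cast_natCast] at hv
      exact neg_mem_iff.mp hv
  have key : ∀ n : ℕ, n ≠ 0 → n ∣ D.natAbs → (n : 𝓞 C) ∈ v.asIdeal →
      ∃ q : ℕ, q.Prime ∧ q ∣ D.natAbs ∧ (q : 𝓞 C) ∈ v.asIdeal := by
    intro n
    induction n using Nat.recOnMul with
    | zero => intro h; exact absurd rfl h
    | one =>
      intro _ _ h
      rw [Nat.cast_one] at h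
      exact absurd ((Ideal.eq_top_iff_one _).mpr h) v.isPrime.ne_top
    | prime q hq => intro _ h1 h2; exact ⟨q, hq, h1, h2⟩
    | mul a b iha ihb =>
      intro h0 h1 h2
      rw [Nat.cast_mul] at h2
      rcases v.isPrime.mem_or_mem h2 with h | h
      · exact iha (left_ne_zero_of_mul h0) (dvd_of_mul_right_dvd h1) h
      · exact ihb (right_ne_zero_of_mul h0) (dvd_of_mul_left_dvd h1) h
  exact key _ hD0 dvd_rfl hDv

/-- the action on the primitive cube roots of unity -/
theorem K6c_root {p n : ℕ} [Fact p.Prime] {C : Type} [Field C] [NumberField C]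
    [IsCyclotomicExtension {3 * p ^ (n + 1)} ℚ C] {s : C} (hs : s ^ 2 = -3) :
    ∃ r : C, r ^ 3 = 1 ∧ r ^ 2 + r + 1 = 0 ∧ (s = 2 * r + 1 ∨ s = -(2 * r + 1)) ∧
      ∀ g : C ≃ₐ[ℚ] C, g r = r ^ ((kap p n C g : (ZMod (3 * p ^ (n + 1)))ˣ) :
        ZMod (3 * p ^ (n + 1))).val := by
  have hz := IsCyclotomicExtension.zeta_spec (3 * p ^ (n + 1)) ℚ C
  obtain ⟨z, hzd⟩ : ∃ z, z = IsCyclotomicExtension.zeta (3 * p ^ (n + 1)) ℚ C := ⟨_, rfl⟩
  rw [← hzd] at hz
  have hN : 0 < 3 * p ^ (n + 1) :=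
    Nat.pos_of_ne_zero (neZero_cond p n).out
  have hr : IsPrimitiveRoot (z ^ (p ^ (n + 1))) 3 := hz.pow hN (by ring)
  obtain ⟨r, hrd⟩ : ∃ r, r = z ^ (p ^ (n + 1)) := ⟨_, rfl⟩
  rw [← hrd] at hr
  have h3 : r ^ 3 = 1 := hr.pow_eq_one
  have hr1 : r ≠ 1 := hr.ne_one (by norm_num)
  have h2 : r ^ 2 + r + 1 = 0 := by
    have h4 : (r - 1) * (r ^ 2 + r + 1) = 0 := by linear_combination h3
    rcases mul_eq_zero.1 h4 with h5 | h5
    · exact absurd (sub_eq_zero.1 h5) hr1
    · exact h5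
  refine ⟨r, h3, h2, ?_, ?_⟩
  · apply sq_eq_sq_iff_eq_or_eq_neg.1
    rw [hs]
    linear_combination -4 * h2
  · intro g
    apply IsCyclotomicExtension.Rat.galEquivZMod_apply_of_pow_eq (3 * p ^ (n + 1)) C g
    rw [pow_mul, h3, one_pow]

theorem K6c_mod {N : ℕ} [NeZero N] (h : 3 ∣ N) (u : (ZMod N)ˣ) :
    ((ZMod.unitsMap h u : (ZMod 3)ˣ) : ZMod 3) = (((u : ZMod N).val : ℕ) : ZMod 3) := by
  rw [ZMod.unitsMap_val, ← ZMod.natCast_val]

theorem k6_arith {p m n T : ℕ} [Fact p.Prime] (hp : 5 ≤ p) (hmn : m ≤ n) {K L C : Type} [Field K]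
    [NumberField K] [Field L] [NumberField L] [Field C] [NumberField C] [Algebra K L] [Algebra L C]
    [Algebra K C] [IsScalarTower K L C] [IsCyclotomicExtension {3 * p ^ (n + 1)} ℚ C]
    (X : CTw p m n hmn K L C) (R : NoNewC p m n hmn C) {a b : ℤ} (hb : b ≠ 0)
    (hT : ∀ q : ℕ, q.Prime → q ∣ (6 * b).natAbs → q ≠ p → ¬ p ^ (T + 1) ∣ q ^ (p - 1) - 1)
    (hTm : T ≤ m + 1) {s : C} (hs : s ^ 2 = -3) {d : C} (hd : d ≠ 0)
    (H : FinSol3 C s (a : C) ((27 * b : ℤ) : C) d)
    (hτ : ∀ g : C ≃ₐ[L] C, g s = s → ∃ y, g d = d * y ^ 3)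
    (hJ : ∀ g : C ≃ₐ[L] C, g s = -s → ∃ y, g d * d = y ^ 3)
    {g : C ≃ₐ[ℚ] C} (hg : InH p m n hmn C g) : ∃ y, g d = d * y ^ 3 := by
  obtain ⟨r, hr3, hr2, hsr, hgr⟩ := K6c_root (p := p) (n := n) (C := C) hs
  have hgd : g d ≠ 0 := (map_ne_zero g).2 hd
  have hInmul : ∀ h h' : C ≃ₐ[ℚ] C, InH p m n hmn C h → InH p m n hmn C h' →
      InH p m n hmn C (h * h') := by
    intro h h' h1 h2
    unfold InH at h1 h2 ⊢
    have hk : kap p n C (h * h') = kap p n C h * kap p n C h' := map_mul _ _ _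
    rw [hk, map_mul, h1, h2, one_mul]
  have hIninv : ∀ h : C ≃ₐ[ℚ] C, InH p m n hmn C h → InH p m n hmn C h⁻¹ := by
    intro h h1
    unfold InH at h1 ⊢
    have hk : kap p n C h⁻¹ = (kap p n C h)⁻¹ := map_inv _ _
    rw [hk, map_inv, h1, inv_one]
  have hcomm : ∀ (g0 : C ≃ₐ[ℚ] C) (x : C), g0 (g x) = g (g0 x) := by
    intro g0 x
    have h1 : g0 * g = g * g0 := by
      apply (IsCyclotomicExtension.Rat.galEquivZMod (3 * p ^ (n + 1)) C).injective
      rw [map_mul, map_mul]
      exact mul_comm _ _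
    exact DFunLike.congr_fun h1 x
  have hkey : ∃ y, g d / d = y ^ 3 := by
    apply R
    · exact div_ne_zero hgd hd
    · -- valuations
      intro w
      have hwd : w.valuation C d ≠ 0 := (Valuation.ne_zero_iff _).2 hd
      have hwgd : w.valuation C (g d) ≠ 0 := (Valuation.ne_zero_iff _).2 hgd
      rw [map_div₀, WithZero.log_div hwgd hwd]
      by_cases hw : ((6 * b : ℤ) : 𝓞 C) ∈ w.asIdeal
      · obtain ⟨q, hq, hqd, hqw⟩ := K6c_prime (mul_ne_zero (by norm_num) hb) w hw
        rw [h_fix hp hmn hq (hT q hq hqd) hTm w hqw hg, sub_self]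
        exact dvd_zero _
      · have good : ∀ v : HeightOneSpectrum (𝓞 C), ((6 * b : ℤ) : 𝓞 C) ∉ v.asIdeal →
            (3 : ℤ) ∣ WithZero.log (v.valuation C d) := by
          intro v hv
          have h3 : (3 : 𝓞 C) ∉ v.asIdeal := by
            intro h
            apply hv
            have e : ((6 * b : ℤ) : 𝓞 C) = 3 * (2 * (b : 𝓞 C)) := by push_cast; ring
            rw [e]
            exact Ideal.mul_mem_right _ _ h
          refine vg_place (a := a) (c := 27 * b) ?_ ?_ hd (H v)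
          · have h4 : v.valuation C s ^ 2 = 1 := by
              rw [← map_pow, hs, Valuation.map_neg]
              have h5 := (v.valuation_eq_one_iff_notMem (K := C) (r := (3 : 𝓞 C))).mpr h3
              rwa [map_ofNat] at h5
            exact (pow_eq_one_iff_of_nonneg zero_le two_ne_zero).1 h4
          · intro h
            have e : ((2 * (27 * b) : ℤ) : 𝓞 C) = ((6 * b : ℤ) : 𝓞 C) * (3 * 3) := by
              push_cast; ring
            rw [e] at h
            rcases v.isPrime.mem_or_mem h with h5 | h5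
            · exact hv h5
            · rcases v.isPrime.mem_or_mem h5 with h6 | h6
              · exact h3 h6
              · exact h3 h6
        obtain ⟨w', hw1, hw2⟩ := Pool.Agent.H10.exists_conj (K := ℚ) (L := C) g w
        have hw' : ((6 * b : ℤ) : 𝓞 C) ∉ w'.asIdeal := by
          intro h
          apply hw
          have h5 := (hw2 ((6 * b : ℤ) : 𝓞 ℚ)).1
          rw [map_intCast] at h5
          exact h5 h
        rw [hw1]
        exact dvd_sub (good w' hw') (good w hw)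
    · -- norms
      refine ⟨1, ?_⟩
      simp only [map_div₀]
      rw [Finset.prod_div_distrib, one_pow]
      have hne : ∏ h ∈ univ.filter (fun h => InH p m n hmn C h), h d ≠ 0 :=
        Finset.prod_ne_zero_iff.2 fun h _ => (map_ne_zero h).2 hd
      rw [div_eq_one_iff_eq hne]
      refine Finset.prod_nbij' (fun h => h * g) (fun h => h * g⁻¹) ?_ ?_ ?_ ?_ ?_
      · intro h hh
        rw [Finset.mem_filter] at hh ⊢
        exact ⟨mem_univ _, hInmul h g hh.2 hg⟩
      · intro h hh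
        rw [Finset.mem_filter] at hh ⊢
        exact ⟨mem_univ _, hInmul h g⁻¹ hh.2 (hIninv g hg)⟩
      · intro h _
        exact mul_inv_cancel_right h g
      · intro h _
        exact inv_mul_cancel_right h g
      · intro h _
        rfl
    · -- `τ₀`
      intro g0 h1 h2
      have hfix := X.fixL g0 (Or.inr h1)
      let G0 : C ≃ₐ[L] C := AlgEquiv.ofRingEquiv (f := g0.toRingEquiv) hfix
      have hG0 : ∀ x, G0 x = g0 x := fun x => rfl
      have hr0 : g0 r = r := by
        rw [hgr]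
        have h3 := K6c_mod (N := 3 * p ^ (n + 1)) (Dvd.intro _ rfl) (kap p n C g0)
        rw [h2, Units.val_one] at h3
        have h4 : ((kap p n C g0 : (ZMod (3 * p ^ (n + 1)))ˣ) : ZMod (3 * p ^ (n + 1))).val % 3
            = 1 := by
          have h5 : ((1 : ℕ) : ZMod 3) = ((((kap p n C g0 : (ZMod (3 * p ^ (n + 1)))ˣ) :
            ZMod (3 * p ^ (n + 1))).val : ℕ) : ZMod 3) := by
            rw [← h3, Nat.cast_one]
          have h6 := (ZMod.natCast_eq_natCast_iff' _ _ _).1 h5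
          omega
        rw [← Nat.div_add_mod ((kap p n C g0 : (ZMod (3 * p ^ (n + 1)))ˣ) :
          ZMod (3 * p ^ (n + 1))).val 3, h4, pow_add, pow_mul, hr3, one_pow, one_mul, pow_one]
      have hs0 : g0 s = s := by
        rcases hsr with h | h
        · rw [h, map_add, map_mul, map_one, map_ofNat, hr0]
        · rw [h, map_neg, map_add, map_mul, map_one, map_ofNat, hr0]
      obtain ⟨y, hy⟩ := hτ G0 hs0
      rw [hG0] at hy
      have hy0 : y ≠ 0 := by
        rintro rfl
        rw [zero_pow three_ne_zero, mul_zero] at hy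
        exact (map_ne_zero g0).2 hd hy
      refine ⟨g y / y, ?_⟩
      rw [map_div₀, hcomm, hy, map_mul, map_pow]
      field_simp
    · intro J hJk
      have hfix := X.fixL J (Or.inr (by
        rw [hJk]
        ext
        rw [ZMod.unitsMap_val]
        simp))
      let G0 : C ≃ₐ[L] C := AlgEquiv.ofRingEquiv (f := J.toRingEquiv) hfix
      have hG0 : ∀ x, G0 x = J x := fun x => rfl
      have hr0 : J r = r ^ 2 := by
        rw [hgr]
        have h3 := K6c_mod (N := 3 * p ^ (n + 1)) (Dvd.intro _ rfl) (kap p n C J)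
        rw [hJk] at h3 ⊢
        have h7 : ((ZMod.unitsMap (Dvd.intro _ rfl : 3 ∣ 3 * p ^ (n + 1))
            (-1 : (ZMod (3 * p ^ (n + 1)))ˣ) : (ZMod 3)ˣ) : ZMod 3) = -1 := by
          rw [ZMod.unitsMap_val]
          simp
        rw [h7] at h3
        have h4 : (((-1 : (ZMod (3 * p ^ (n + 1)))ˣ)) : ZMod (3 * p ^ (n + 1))).val % 3 = 2 := by
          have h5 : ((2 : ℕ) : ZMod 3) = ((((-1 : (ZMod (3 * p ^ (n + 1)))ˣ) :
            ZMod (3 * p ^ (n + 1))).val : ℕ) : ZMod 3) := by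
            rw [← h3]
            decide
          have h6 := (ZMod.natCast_eq_natCast_iff' _ _ _).1 h5
          omega
        rw [← Nat.div_add_mod (((-1 : (ZMod (3 * p ^ (n + 1)))ˣ)) :
          ZMod (3 * p ^ (n + 1))).val 3, h4, pow_add, pow_mul, hr3, one_pow, one_mul]
      have hs0 : J s = -s := by
        rcases hsr with h | h
        · rw [h, map_add, map_mul, map_one, map_ofNat, hr0]
          linear_combination 2 * hr2
        · rw [h, map_neg, map_add, map_mul, map_one, map_ofNat, hr0]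
          linear_combination -2 * hr2
      obtain ⟨y, hy⟩ := hJ G0 hs0
      rw [hG0] at hy
      have hJd : J d ≠ 0 := (map_ne_zero J).2 hd
      have hy0 : y ≠ 0 := by
        rintro rfl
        rw [zero_pow three_ne_zero] at hy
        exact mul_ne_zero hJd hd hy
      refine ⟨g y / y, ?_⟩
      have hy' := congrArg g hy
      rw [map_mul, map_pow] at hy'
      rw [map_div₀, hcomm, div_pow, ← hy, ← hy']
      field_simp
  obtain ⟨y, hy⟩ := hkey
  exact ⟨y, by rw [← hy]; field_simp⟩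

end H55T3
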