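import Pool.Agent.H55.T3.Bc
import Pool.Agent.H10.Iso3

/-!
Row Mw (about 150 lines): points over L are points over K plus triples. General: for every elliptic curve with `CT3`.

PROOF (compare mw_up in H10/Iso3.lean). Ω = AlgebraicClosure L, E = V'.baseChange Ω. R' over Ω with 3 • R' = pm P (H11/Divis2 smul_surjective, E elliptic). f τ := act τ R' - R' (inv_bc L V') is a coboundary, so a locally trivial cocycle (shaB_le), and 3 • f τ = act τ (pm P) - pm P = 0. For every g ∈ Gal(Ω/K): CT3: conj g f = f + ∂S_g, 3 S_g = 0, and conj g f τ = act τ (act g R') - act g R' (act_cj),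
 so Z_g := act g R' - R' - S_g is fixed by all τ over L: by pm_descent (H10/Iso3) Z_g = pm A_g, A_g ∈ V'(L), and act g R' = R' + S_g + pm A_g, 3 S_g = 0.
 Put R0 := ∑ φ : L →ₐ[K] Ω, act (lft φ) R'. For σ ∈ Gal(Ω/K): act σ (act (lft φ) R') = act (lft (mv σ φ)) (act (hh σ φ) R') (lft_hh) = act (lft (mv σ φ)) (R' + f (hh σ φ)), so act σ R0 = R0 + (killed by three) (sum_mv), and act σ (3 • R0) = 3 • R0.
 By pm_descent over K (for the closure Ω of K: V.map (algebraMap K Ω) = E is map_up hV, IsGalois K Ω) 3 • R0 = pm Q. Also R0 = n • R' + ∑ S + pm (∑ A), so 3 • R0 = n • pm P + 3 • pm (∑ A), n = finrank K L (AlgHom.card). By injectivity (pm_injective over L -> Ω, pm_pm)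
 pm_{K→L} Q = n • P + 3 • A. 3 ∤ n: integers u, v with u n = 1 + 3 v: P = u • (n • P) - 3 • (v • P) = pm (u • Q) + 3 • (-u • A - v • P).
-/

set_option autoImplicit false
open scoped Classical

open WeierstrassCurve IsDedekindDomain NumberField Pool.Agent.H10 Pool.Agent.H11

namespace H55T3

variable {K L : Type} [Field K] [NumberField K] [Field L] [NumberField L] [Algebra K L]
  [IsGalois K L] {V : WeierstrassCurve K} {V' : WeierstrassCurve L}

theorem mw_up3 (hn : ¬ 3 ∣ Module.finrank K L) (hE : V'.IsElliptic)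
    (hV : V.map (algebraMap K L) = V') (H : CT3 K L V' (inv_up hV))
    (P : V'.toAffine.Point) : ∃ (Q : V.toAffine.Point) (R : V'.toAffine.Point),
      P = pm (algebraMap K L) hV Q + 3 • R := by
  have hL : V'.map (algebraMap L (AlgebraicClosure L)) = V'.baseChange (AlgebraicClosure L) := rfl
  have hK : V.map (algebraMap K (AlgebraicClosure L)) = V'.baseChange (AlgebraicClosure L) :=
    map_up hV
  have hEE : (V'.baseChange (AlgebraicClosure L)).IsElliptic := by
    have := hE
    infer_instance
  obtain ⟨R', hR'⟩ := smul_surjective (V'.baseChange (AlgebraicClosure L)) 3 three_ne_zero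
    (pm (algebraMap L (AlgebraicClosure L)) hL P)
  set iL := inv_bc (Ω := AlgebraicClosure L) L V' with hiL
  set iK := inv_up hV with hiK
  have hPinv : ∀ τ, act iL τ (pm (algebraMap L (AlgebraicClosure L)) hL P) =
      pm (algebraMap L (AlgebraicClosure L)) hL P := by
    intro τ
    unfold Pool.Agent.H10.act
    rw [pm_pm]
    exact pm_congr _ _ (fun x => τ.commutes x) _
  let f : Coch L V' := fun τ => act iL τ R' - R'
  have hf3 : ∀ τ, 3 • f τ = 0 := by
    intro τ
    have h1 := hPinv τ
    rw [← hR', map_nsmul] at h1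
    calc 3 • f τ = 3 • act iL τ R' - 3 • R' := smul_sub _ _ _
      _ = 0 := by rw [h1, sub_self]
  have hcob : IsCobound L V' f := (Pool.Agent.H10.isCobound_iff _).mpr ⟨R', fun σ => rfl⟩
  have hZ : f ∈ ShaZ L V' := shaB_le L V' hcob
  -- the effect of the automorphisms over K
  have hg : ∀ g : AlgebraicClosure L ≃ₐ[K] AlgebraicClosure L,
      ∃ (S : (V'.baseChange (AlgebraicClosure L)).toAffine.Point) (A : V'.toAffine.Point),
        3 • S = 0 ∧ act iK g R' = R' + S + pm (algebraMap L (AlgebraicClosure L)) hL A := by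
    intro g
    obtain ⟨S, hS, hS'⟩ := H f hZ.1 hZ.2 hf3 g
    obtain ⟨A, hA⟩ := pm_descent (V := V') hL iL (act iK g R' - S - R') (by
      intro τ
      have e1 : conj iK g f τ = act iL τ (act iK g R') - act iK g R' := by
        change act iK g (act iL (cj g τ) R' - R') = _
        rw [map_sub]
        exact congrArg (fun Z => Z - act iK g R') (act_cj iK g τ R')
      have e2 := hS' τ
      rw [e1] at e2
      have e3 : f τ = act iL τ R' - R' := rfl
      rw [e3] at e2
      rw [map_sub, map_sub]
      have e4 : act iL τ (act iK g R') =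
          act iL τ R' - R' + (act iL τ S - S) + act iK g R' := by
        rw [← e2]
        abel
      rw [e4]
      abel)
    refine ⟨S, A, hS, ?_⟩
    rw [hA]
    abel
  choose S A hS hSA using hg
  obtain ⟨R₀, hR₀⟩ : ∃ R₀, R₀ = ∑ φ : L →ₐ[K] AlgebraicClosure L, act iK (lft φ) R' := ⟨_, rfl⟩
  have hact : ∀ σ : AlgebraicClosure L ≃ₐ[K] AlgebraicClosure L,
      ∃ W : (V'.baseChange (AlgebraicClosure L)).toAffine.Point,
        3 • W = 0 ∧ act iK σ R₀ = R₀ + W := by
    intro σ
    refine ⟨∑ φ : L →ₐ[K] AlgebraicClosure L, act iK (lft (mv σ φ)) (f (hh σ φ)), ?_, ?_⟩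
    · rw [Finset.smul_sum]
      apply Finset.sum_eq_zero
      intro φ _
      rw [← map_nsmul, hf3, map_zero]
    · have e1 : ∀ φ : L →ₐ[K] AlgebraicClosure L, act iK σ (act iK (lft φ) R') =
          act iK (lft (mv σ φ)) R' + act iK (lft (mv σ φ)) (f (hh σ φ)) := by
        intro φ
        have e2 : σ * lft φ = lft (mv σ φ) * (hh σ φ).restrictScalars K := by
          apply AlgEquiv.ext
          intro x
          exact (lft_hh σ φ x).symm
        have e3 : act iK ((hh σ φ).restrictScalars K) R' = R' + f (hh σ φ) := by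
          have e4 : act iK ((hh σ φ).restrictScalars K) R' = act iL (hh σ φ) R' := rfl
          rw [e4]
          have e5 : f (hh σ φ) = act iL (hh σ φ) R' - R' := rfl
          rw [e5]
          abel
        rw [← Pool.Agent.H10.act_mul, e2, Pool.Agent.H10.act_mul, e3, map_add]
      rw [hR₀, map_sum]
      rw [Finset.sum_congr rfl (fun φ _ => e1 φ), Finset.sum_add_distrib]
      congr 1
      exact sum_mv σ (fun φ => act iK (lft φ) R')
  obtain ⟨Q, hQ⟩ := pm_descent (V := V) hK iK (3 • R₀) (by
    intro σ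
    obtain ⟨W, hW, hW'⟩ := hact σ
    rw [map_nsmul, hW', smul_add, hW, add_zero])
  obtain ⟨B, hB⟩ : ∃ B, B = ∑ φ : L →ₐ[K] AlgebraicClosure L, A (lft φ) := ⟨_, rfl⟩
  have hR0 : 3 • R₀ = pm (algebraMap L (AlgebraicClosure L)) hL
      (Module.finrank K L • P + 3 • B) := by
    have e1 : R₀ = ∑ φ : L →ₐ[K] AlgebraicClosure L,
        (R' + S (lft φ) + pm (algebraMap L (AlgebraicClosure L)) hL (A (lft φ))) := by
      rw [hR₀]
      exact Finset.sum_congr rfl (fun φ _ => hSA (lft φ))
    have e2 : 3 • R₀ = ∑ φ : L →ₐ[K] AlgebraicClosure L,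
        (pm (algebraMap L (AlgebraicClosure L)) hL (P + 3 • A (lft φ))) := by
      rw [e1, Finset.smul_sum]
      apply Finset.sum_congr rfl
      intro φ _
      rw [map_add, ← hR', map_nsmul, smul_add, smul_add, hS, add_zero]
    rw [e2, ← map_sum, Finset.sum_add_distrib, ← Finset.smul_sum, ← hB, Finset.sum_const,
      Finset.card_univ, AlgHom.card]
  have hfin : pm (algebraMap K L) hV Q = Module.finrank K L • P + 3 • B := by
    apply pm_injective (algebraMap L (AlgebraicClosure L)) hL
    rw [← hR0, ← hQ, pm_pm]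
    apply pm_congr
    intro x
    exact (IsScalarTower.algebraMap_apply K L (AlgebraicClosure L) x).symm
  have hmod : Module.finrank K L % 3 = 1 ∨ Module.finrank K L % 3 = 2 := by omega
  rcases hmod with hm | hm
  · obtain ⟨m, hm'⟩ : ∃ m, Module.finrank K L = 3 * m + 1 :=
      ⟨Module.finrank K L / 3, by omega⟩
    refine ⟨Q, -B - m • P, ?_⟩
    rw [hfin, hm']
    module
  · obtain ⟨m, hm'⟩ : ∃ m, Module.finrank K L = 3 * m + 2 :=
      ⟨Module.finrank K L / 3, by omega⟩
    refine ⟨2 • Q, -(2 • B) - (2 * m + 1) • P, ?_⟩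
    rw [map_nsmul, hfin, hm']
    module

end H55T3
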