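import Pool.Agent.H55.T3.Bc

/-!
Row Res (about 90 lines): three-torsion classes of Sha over L come from K. General: for every elliptic curve with `CT3`.

PROOF. c = mk F (Sha.mk_surjective), 3 • c = 0: 3 • F = ∂Q' (Sha.mk_eq_zero, isCobound_iff). V' over the closure is elliptic (hE.map), so Q' = 3 • Q (H11/Divis2 `smul_surjective` with n = 3). f := F - ∂Q is in ShaZ (shaB_le), 3 • f τ = 0, mk f = c.
 For s : L ≃ₐ[K] L: actS hV s c = mk (conj (lf s) f) = mk f = c by CT3 (mk_eq_of_cob in H11/ConjSha.lean). res_cor: res (cor c) = ∑_s actS s c = card (L ≃ₐ[K] L) • c = n • c (IsGalois.card_aut_eq_finrank). 3 ∤ n: integers u, v with u n = 1 + 3 v, so res (u • cor c) = c + v • (3 • c) = c, and 3 • (u • cor c) = u • cor (3 • c) = 0.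
-/

set_option autoImplicit false
open scoped Classical

open WeierstrassCurve IsDedekindDomain NumberField Pool.Agent.H10 Pool.Agent.H11

namespace H55T3

variable {K L : Type} [Field K] [NumberField K] [Field L] [NumberField L] [Algebra K L]
  [IsGalois K L] {V : WeierstrassCurve K} {V' : WeierstrassCurve L}

theorem three_up (hn : ¬ 3 ∣ Module.finrank K L) (hE : V'.IsElliptic)
    (hV : V.map (algebraMap K L) = V') (H : CT3 K L V' (inv_up hV))
    (c : Sha L V') (hc : 3 • c = 0) : ∃ e : Sha K V, 3 • e = 0 ∧ Sha.res hV e = c := by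
  obtain ⟨F, rfl⟩ := Sha.mk_surjective c
  have hc' : Sha.mk (3 • F) = 0 := by rw [Sha.mk_nsmul]; exact hc
  rw [Sha.mk_eq_zero, Pool.Agent.H10.isCobound_iff] at hc'
  obtain ⟨Q', hQ'⟩ := hc'
  have hell : (V'.baseChange (AlgebraicClosure L)).IsElliptic :=
    inferInstanceAs (V'.map (algebraMap L (AlgebraicClosure L))).IsElliptic
  obtain ⟨Q, hQ⟩ := smul_surjective (V'.baseChange (AlgebraicClosure L)) 3 (by norm_num) Q'
  have hcob : (fun τ => act (inv_bc L V') τ Q - Q) ∈ ShaZ L V' := by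
    apply shaB_le
    change IsCobound L V' _
    rw [Pool.Agent.H10.isCobound_iff]
    exact ⟨Q, fun σ => rfl⟩
  let G : ShaZ L V' := ⟨fun τ => act (inv_bc L V') τ Q - Q, hcob⟩
  let f : ShaZ L V' := F - G
  have hfτ : ∀ τ, f.1 τ = F.1 τ - (act (inv_bc L V') τ Q - Q) := fun τ => rfl
  have hf3 : ∀ τ, 3 • f.1 τ = 0 := by
    intro τ
    have h1 : (3 • F : ShaZ L V').1 τ = 3 • F.1 τ := rfl
    have h2 := hQ' τ
    rw [h1] at h2
    rw [hfτ, nsmul_sub, nsmul_sub, h2, ← map_nsmul, hQ, sub_self]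
  have hmk : Sha.mk F = Sha.mk f := mk_eq_of_cob Q fun τ => by
    rw [hfτ]
    abel
  have hact : ∀ σ : L ≃ₐ[K] L, actS hV σ (Sha.mk F) = Sha.mk F := by
    intro σ
    rw [hmk]
    obtain ⟨T, -, hT⟩ := H f.1 f.2.1 f.2.2 hf3 (lf σ)
    exact mk_eq_of_cob T fun τ => hT τ
  have hrc := res_cor hV (Sha.mk F)
  simp only [hact, Finset.sum_const, Finset.card_univ] at hrc
  have hcard : Fintype.card (L ≃ₐ[K] L) = Module.finrank K L := by
    rw [← Nat.card_eq_fintype_card]
    exact IsGalois.card_aut_eq_finrank K L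
  rw [hcard] at hrc
  obtain ⟨u, v, huv⟩ : ∃ u v : ℕ, u * Module.finrank K L = 1 + v * 3 := by
    have h3 : Module.finrank K L % 3 = 1 ∨ Module.finrank K L % 3 = 2 := by omega
    rcases h3 with h3 | h3
    · exact ⟨1, Module.finrank K L / 3, by omega⟩
    · exact ⟨2, (2 * Module.finrank K L - 1) / 3, by omega⟩
  refine ⟨u • Sha.cor hV (Sha.mk F), ?_, ?_⟩
  · rw [smul_comm, ← map_nsmul, hc, map_zero, smul_zero]
  · rw [map_nsmul, hrc, smul_smul, huv, add_smul, one_smul, mul_smul, hc, smul_zero, add_zero]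

end H55T3
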