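import Pool.Agent.H5.SW.L5

/-!
Row Un (about 60 lines): three is unramified in the tower.

PROOF. Copy `discr_odd` (Pool/Agent/H5/SW/Rd.lean) with: not divisible by 3 (p ≠ 3, the discriminant of the p-power cyclotomic field is ± a power of p) and `two_unramified` (Pool/Agent/H5/SW/L5.lean) with 3 for 2; then w.valuation L 3 = exp (-1) because 3 ∈ w, 3 ∉ w^2 (compare val_two_of_unram in Pool/Agent/H10/Star.lean).
-/

set_option autoImplicit false
open scoped Classical

open IsDedekindDomain NumberField WithZero H5SW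

namespace H55T3

theorem Un_discr {p n : ℕ} [Fact p.Prime] (hp3 : p ≠ 3) {L : Type} [Field L] [NumberField L]
    (r : RC (p ^ (n + 1)) L) : ¬ (3 : ℤ) ∣ NumberField.discr L := by
  have hp : p.Prime := Fact.out
  have hz : NeZero (p ^ (n + 1)) := ⟨pow_ne_zero _ hp.ne_zero⟩
  have hz' : NeZero (((p ^ (n + 1) : ℕ) : ℚ)) := ⟨Nat.cast_ne_zero.mpr (pow_ne_zero _ hp.ne_zero)⟩
  have hcyc : IsCyclotomicExtension {p ^ (n + 1)} ℚ (CyclotomicField (p ^ (n + 1)) ℚ) :=
    CyclotomicField.isCyclotomicExtension (p ^ (n + 1)) ℚ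
  obtain ⟨i⟩ := r.emb
  let _ : Algebra L (CyclotomicField (p ^ (n + 1)) ℚ) := i.toAlgebra
  have hNF : NumberField (CyclotomicField (p ^ (n + 1)) ℚ) :=
    IsCyclotomicExtension.numberField {p ^ (n + 1)} ℚ _
  have h1 : NumberField.discr L ∣ NumberField.discr (CyclotomicField (p ^ (n + 1)) ℚ) :=
    NumberField.discr_dvd_discr L (CyclotomicField (p ^ (n + 1)) ℚ)
  have h2 := IsCyclotomicExtension.Rat.discr_prime_pow p (n + 1) (CyclotomicField (p ^ (n + 1)) ℚ)
  rw [h2] at h1
  intro h3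
  have h4 := h3.trans h1
  rcases Int.prime_three.dvd_or_dvd h4 with h5 | h5
  · have h6 := Int.prime_three.dvd_of_dvd_pow h5
    norm_num at h6
  · have h6 := Int.prime_three.dvd_of_dvd_pow h5
    have h7 : 3 ∣ p := by exact_mod_cast h6
    exact hp3 (((Nat.prime_dvd_prime_iff_eq Nat.prime_three hp).1 h7).symm)

theorem Un_unram {p m n : ℕ} [Fact p.Prime] (hp3 : p ≠ 3) {K L M F : Type}
    [Field K] [NumberField K] [Field L] [NumberField L] [Field M] [NumberField M] [Field F]
    [NumberField F] [Algebra K L] [Algebra M F] [Algebra K M] [Algebra L F]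
    (T : Tw p m n K L M F) (w : HeightOneSpectrum (𝓞 L)) (hw : (3 : 𝓞 L) ∈ w.asIdeal) :
    (3 : 𝓞 L) ∉ w.asIdeal ^ 2 := by
  have h0 : ¬ (3 : ℤ) ∣ NumberField.discr F := Un_discr hp3 T.rp.rL
  have h1 : NumberField.discr L ∣ NumberField.discr F := NumberField.discr_dvd_discr L F
  have h2 : ¬ (3 : ℤ) ∣ NumberField.discr L := fun h => h0 (h.trans h1)
  have h3 := (NumberField.not_dvd_discr_iff_forall_mem L (𝓞 L) Int.prime_three).1 h2 w.asIdeal
    w.isPrime (by simpa using hw)
  intro h4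
  have hprime := w.isPrime
  have hover : w.asIdeal.LiesOver (Ideal.span {(3 : ℤ)}) :=
    (Ideal.liesOver_span_iff w.isPrime.ne_top Int.prime_three).mpr (by simpa using hw)
  have hsp : (Ideal.span {(3 : ℤ)}).IsPrime :=
    (Ideal.span_singleton_prime (by norm_num)).2 Int.prime_three
  let := Localization.AtPrime.algebraOfLiesOver (Ideal.span {(3 : ℤ)}) w.asIdeal
  have h5 := ((Algebra.isUnramifiedAt_iff_map_eq ℤ (Ideal.span {(3 : ℤ)}) w.asIdeal).mp h3).2
  have h6 : Ideal.map (algebraMap ℤ (𝓞 L)) (Ideal.span {(3 : ℤ)}) ≤ w.asIdeal := by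
    rw [Ideal.map_span, Ideal.span_le]
    simpa using hw
  have h7 := Ideal.ramificationIdx'_eq_one_of_map_localization h6 w.ne_bot
    w.asIdeal.primeCompl_le_nonZeroDivisors h5
  have h8 : Ideal.map (algebraMap ℤ (𝓞 L)) (Ideal.span {(3 : ℤ)}) ≤ w.asIdeal ^ 2 := by
    rw [Ideal.map_span, Ideal.span_le]
    simpa using h4
  exact (Ideal.ramificationIdx'_ne_one_iff h6).2 h8 h7

theorem three_unram {p m n : ℕ} [Fact p.Prime] (hp : 5 ≤ p) {K L M F : Type}
    [Field K] [NumberField K] [Field L] [NumberField L] [Field M] [NumberField M] [Field F]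
    [NumberField F] [Algebra K L] [Algebra M F] [Algebra K M] [Algebra L F]
    (T : Tw p m n K L M F) (w : HeightOneSpectrum (𝓞 L)) (hw : (3 : 𝓞 L) ∈ w.asIdeal) :
    w.valuation L 3 = exp (-1 : ℤ) := by
  have h' := Un_unram (by omega) T w hw
  have e2 : algebraMap (𝓞 L) L 3 = 3 := map_ofNat (algebraMap (𝓞 L) L) 3
  rw [← e2, w.valuation_of_algebraMap]
  apply le_antisymm
  · have h1 := (w.intValuation_le_pow_iff_mem 3 1).mpr (by rw [pow_one]; exact hw)
    exact_mod_cast h1
  · have h1 := mt (w.intValuation_le_pow_iff_mem 3 2).mp h'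
    rw [not_le] at h1
    have h0 : w.intValuation (3 : 𝓞 L) ≠ 0 := fun h0 => by
      rw [h0] at h1
      exact absurd h1 not_lt_zero
    rw [← exp_log h0, exp_lt_exp] at h1
    rw [← exp_log h0, exp_le_exp]
    push_cast at h1
    omega

end H55T3
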