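import Pool.Agent.H55.T3.I0
import Pool.Agent.H55.T3.Res
import Pool.Agent.H55.T3.Mw
import Pool.Agent.H55.T3.Bij
import Pool.Agent.H55.T3.K5
import Pool.Agent.H55.T3.K5a
import Pool.Agent.H55.T3.K6b
import Pool.Agent.H55.T3.K6c
import Pool.Agent.H55.T3.Un
import Pool.Agent.H55.T3.Cs
import Pool.Agent.H5.SW.Fin

/-! Assembly (helper55). -/

set_option autoImplicit false
open scoped Classical

open WeierstrassCurve IsDedekindDomain NumberField Pool.Agent.H10 Pool.Agent.H11 H5SW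

namespace H55T3

/-- `y^2 = x^3 - 3 (a x + b)^2` -/
def curE (k : Type) [Field k] (a b : ℤ) : WeierstrassCurve k :=
  ⟨0, -3 * (a : k) ^ 2, 0, -6 * (a : k) * b, -3 * (b : k) ^ 2⟩

/-- `y^2 = x^3 + (3 a x + c)^2`, `c = 9 b + 4 a^3` -/
def curF (k : Type) [Field k] (a b : ℤ) : WeierstrassCurve k :=
  ⟨0, 9 * (a : k) ^ 2, 0, 6 * (a : k) * (9 * b + 4 * a ^ 3 : ℤ), ((9 * b + 4 * a ^ 3 : ℤ) : k) ^ 2⟩

/-- the dual of `curF` (isomorphic to `curE`) -/
def curG (k : Type) [Field k] (a b : ℤ) : WeierstrassCurve k :=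
  ⟨0, -27 * (a : k) ^ 2, 0, -486 * (a : k) * b, -2187 * (b : k) ^ 2⟩

section

variable (k : Type) [Field k] [CharZero k] {a b : ℤ}

lemma is3_E (hb : b ≠ 0) (hc : 9 * b + 4 * a ^ 3 ≠ 0) : Is3 (curE k a b) 1 (a : k) (b : k) where
  a₁ := rfl
  a₂ := by simp [curE]
  a₃ := rfl
  a₄ := by simp [curE]
  a₆ := by simp [curE]
  hD := one_ne_zero
  hb := by exact_mod_cast hb
  hc := by
    have : (9 * b + 4 * a ^ 3 : ℤ) ≠ 0 := hc
    rw [mul_one]
    exact_mod_cast this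
  two := two_ne_zero
  three := three_ne_zero

lemma is3_F (hb : b ≠ 0) (hc : 9 * b + 4 * a ^ 3 ≠ 0) :
    Is3 (curF k a b) (-3) (a : k) (((9 * b + 4 * a ^ 3 : ℤ) : k) / 3) where
  a₁ := rfl
  a₂ := by simp only [curF]; ring
  a₃ := rfl
  a₄ := by
    have h3 : (3 : k) ≠ 0 := three_ne_zero
    simp only [curF]
    field_simp
  a₆ := by
    have h3 : (3 : k) ≠ 0 := three_ne_zero
    simp only [curF]
    field_simp
  hD := by norm_num
  hb := by
    have : ((9 * b + 4 * a ^ 3 : ℤ) : k) ≠ 0 := by exact_mod_cast hc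
    exact div_ne_zero this three_ne_zero
  hc := by
    have h1 : (9 : k) * (((9 * b + 4 * a ^ 3 : ℤ) : k) / 3) + 4 * (-3) * (a : k) ^ 3 = 27 * b := by
      push_cast
      have h3 : (3 : k) ≠ 0 := three_ne_zero
      field_simp
      ring
    rw [h1]
    have : (b : k) ≠ 0 := by exact_mod_cast hb
    exact mul_ne_zero (by norm_num) this
  two := two_ne_zero
  three := three_ne_zero

lemma is3_G (hb : b ≠ 0) (hc : 9 * b + 4 * a ^ 3 ≠ 0) : Is3 (curG k a b) 9 (a : k) (9 * b) where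
  a₁ := rfl
  a₂ := by simp only [curG]; ring
  a₃ := rfl
  a₄ := by simp only [curG]; ring
  a₆ := by simp only [curG]; ring
  hD := by norm_num
  hb := by
    have : (b : k) ≠ 0 := by exact_mod_cast hb
    exact mul_ne_zero (by norm_num) this
  hc := by
    have h0 : ((9 * b + 4 * a ^ 3 : ℤ) : k) ≠ 0 := by exact_mod_cast hc
    have h1 : (9 : k) * (9 * b) + 4 * 9 * (a : k) ^ 3 = 9 * ((9 * b + 4 * a ^ 3 : ℤ) : k) := by
      push_cast
      ring
    rw [h1]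
    exact mul_ne_zero (by norm_num) h0
  two := two_ne_zero
  three := three_ne_zero

lemma dl_E : dl (1 : k) (a : k) (b : k) = ((9 * b + 4 * a ^ 3 : ℤ) : k) / 3 := by
  unfold dl
  push_cast
  ring

lemma dl_F : dl (-3 : k) (a : k) (((9 * b + 4 * a ^ 3 : ℤ) : k) / 3) = 9 * b := by
  unfold dl
  push_cast
  have h3 : (3 : k) ≠ 0 := three_ne_zero
  field_simp
  ring

end

lemma locSol_scale {F : Type*} [Field F] (h3 : (3 : F) ≠ 0) {a c d : F}
    (H : LocSol 3 a (9 * c) d) : LocSol 1 a c d := by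
  rcases H with h | ⟨U, V, h⟩
  · exact Or.inl h
  · refine Or.inr ⟨U / 3, V / 3, ?_⟩
    have h27 : (27 : F) ≠ 0 := by
      have : (27 : F) = 3 ^ 3 := by norm_num
      rw [this]
      exact pow_ne_zero 3 h3
    apply mul_left_cancel₀ h27
    have e1 : 27 * (d ^ 2 * (V / 3) ^ 3 - (U / 3) ^ 3) = d ^ 2 * V ^ 3 - U ^ 3 := by
      field_simp
      ring
    have e2 : 27 * (d * 1 * (6 * a * (U / 3) * (V / 3) + 2 * c)) =
        d * 3 * (6 * a * U * V + 2 * (9 * c)) := by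
      field_simp
      ring
    rw [e1, e2, h]

section kt

variable {K L : Type} [Field K] [NumberField K] [Field L] [NumberField L] [Algebra K L]
  [IsGalois K L] {a b : ℤ}

theorem kt_E (hodd : Odd (Module.finrank K L)) (R : NoNewCube K L) (hb : b ≠ 0)
    (hc : 9 * b + 4 * a ^ 3 ≠ 0) (hred : ¬ ((3 : ℤ) ∣ a ∧ (3 : ℤ) ∣ b))
    (hbad : ∀ v : HeightOneSpectrum (𝓞 K), ((6 * b * (9 * b + 4 * a ^ 3) : ℤ) : 𝓞 K) ∈ v.asIdeal →
      UniqueOver K L v.asIdeal)
    (hunr : ∀ w : HeightOneSpectrum (𝓞 L), (3 : 𝓞 L) ∈ w.asIdeal →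
      w.valuation L 3 = WithZero.exp (-1 : ℤ)) : KT K L ((curE K a b).baseChange L) (inv_up rfl) := by
  refine k5 (is3_E K hb hc) rfl (s := 1) (by norm_num) ?_
  intro d hd H σ
  refine k5_arith hodd R hc hred hbad hunr hd ?_ σ
  have e : algebraMap K L (9 * (b : K) + 4 * 1 * (a : K) ^ 3) = ((9 * b + 4 * a ^ 3 : ℤ) : L) := by
    simp [map_ofNat]
  rw [e, map_one, map_intCast] at H
  exact H

theorem kt_G (hodd : Odd (Module.finrank K L)) (R : NoNewCube K L) (hb : b ≠ 0)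
    (hc : 9 * b + 4 * a ^ 3 ≠ 0) (hred : ¬ ((3 : ℤ) ∣ a ∧ (3 : ℤ) ∣ b))
    (hbad : ∀ v : HeightOneSpectrum (𝓞 K), ((6 * b * (9 * b + 4 * a ^ 3) : ℤ) : 𝓞 K) ∈ v.asIdeal →
      UniqueOver K L v.asIdeal)
    (hunr : ∀ w : HeightOneSpectrum (𝓞 L), (3 : 𝓞 L) ∈ w.asIdeal →
      w.valuation L 3 = WithZero.exp (-1 : ℤ)) : KT K L ((curG K a b).baseChange L) (inv_up rfl) := by
  refine k5 (is3_G K hb hc) rfl (s := 3) (by norm_num) ?_
  intro d hd H σ
  refine k5_arith hodd R hc hred hbad hunr hd ?_ σ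
  have e : algebraMap K L (9 * (9 * (b : K)) + 4 * 9 * (a : K) ^ 3) =
      9 * ((9 * b + 4 * a ^ 3 : ℤ) : L) := by
    push_cast
    simp only [map_ofNat, map_intCast]
    ring
  rw [e, map_ofNat, map_intCast] at H
  intro v
  have hv := H v
  rw [map_mul, map_ofNat, map_ofNat] at hv
  rw [map_one]
  have h3 : (3 : v.adicCompletion L) ≠ 0 := by
    have : algebraMap L (v.adicCompletion L) 3 ≠ 0 := by
      rw [Ne, map_eq_zero]
      exact three_ne_zero
    rwa [map_ofNat] at this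
  exact locSol_scale h3 hv

theorem kt_F {p m n T : ℕ} [Fact p.Prime] (hp : 5 ≤ p) (hmn : m ≤ n)
    (h3n : ¬ 3 ∣ Module.finrank K L) {C : Type} [Field C] [NumberField C] [Algebra L C]
    [Algebra K C] [IsScalarTower K L C] [IsCyclotomicExtension {3 * p ^ (n + 1)} ℚ C]
    (X : CTw p m n hmn K L C) (R : NoNewC p m n hmn C) (hb : b ≠ 0) (hc : 9 * b + 4 * a ^ 3 ≠ 0)
    (hT : ∀ q : ℕ, q.Prime → q ∣ (6 * b).natAbs → q ≠ p → ¬ p ^ (T + 1) ∣ q ^ (p - 1) - 1)
    (hTm : T ≤ m + 1) : KT K L ((curF K a b).baseChange L) (inv_up rfl) := by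
  have : IsGalois K C := galois_C p n K C
  have : IsGalois L C := galois_C p n L C
  obtain ⟨s, hs⟩ := exists_s p n C
  refine k6 (C := C) (is3_F K hb hc) rfl h3n hs (comm_C p n)
    {g | InH p m n hmn C (g.restrictScalars ℚ)} ?_ ?_ ?_
  · intro g hg
    exact inH_s hmn hg hs
  · intro t
    obtain ⟨g, hg, h⟩ := cov_C X t
    exact ⟨g, hg, h⟩
  · intro d hd H hτ hJ g hg
    have e : algebraMap K C (9 * (((9 * b + 4 * a ^ 3 : ℤ) : K) / 3) + 4 * (-3) * (a : K) ^ 3) =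
        ((27 * b : ℤ) : C) := by
      have e1 : 9 * (((9 * b + 4 * a ^ 3 : ℤ) : K) / 3) + 4 * (-3) * (a : K) ^ 3 =
          ((27 * b : ℤ) : K) := by
        push_cast
        ring
      rw [e1, map_intCast]
    rw [e, map_intCast] at H
    exact k6_arith hp hmn X R hb hT hTm hs hd H hτ hJ hg

end kt

section one

variable {K L : Type} [Field K] [NumberField K] [Field L] [NumberField L] [Algebra K L]
  [IsGalois K L] {V : WeierstrassCurve K} {V' : WeierstrassCurve L}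

theorem bijOn3 (h3n : ¬ 3 ∣ Module.finrank K L) (hE : V'.IsElliptic)
    (hV : V.map (algebraMap K L) = V') (H : CT3 K L V' (inv_up hV)) :
    Set.BijOn (Sha.res hV) {x | ∃ m : ℕ, 3 ^ m • x = 0} {x | ∃ m : ℕ, 3 ^ m • x = 0} :=
  bijOn_of_three (Sha.res hV) (Sha.cor hV) h3n (Sha.cor_res hV) (three_up h3n hE hV H)

theorem mw_three (h3n : ¬ 3 ∣ Module.finrank K L) (hE : V'.IsElliptic)
    (hV : V.map (algebraMap K L) = V') (H : CT3 K L V' (inv_up hV)) :
    ∃ m : ℕ, ¬ 3 ∣ m ∧ ∀ P : V'.toAffine.Point, ∃ Q : V.toAffine.Point,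
      m • P = pm (algebraMap K L) hV Q :=
  three_exponent (pm (algebraMap K L) hV) (mordell_weil V') (mw_up3 h3n hE hV H)

/-- The statement for one pair of fields. -/
theorem stable3 (h3n : ¬ 3 ∣ Module.finrank K L) {W : WeierstrassCurve K}
    {D a b : K} (h : Is3 V D a b) (h' : Is3 W (-3 * D) a (dl D a b))
    (H1 : KT K L (V.baseChange L) (inv_up rfl)) (H2 : KT K L (W.baseChange L) (inv_up rfl)) :
    ShaThreeBijective K V L ∧ ∃ m : ℕ, ¬ 3 ∣ m ∧ ∀ P : (V.baseChange L).toAffine.Point,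
        ∃ Q : (V.baseChange K).toAffine.Point,
          m • P = WeierstrassCurve.Affine.Point.map (Algebra.ofId K L) Q := by
  have hE : (V.baseChange L).IsElliptic := (h.up (φ := algebraMap K L) rfl).isElliptic
  have H := i0 h3n h h' rfl rfl H1 H2
  refine ⟨shaThreeBijective rfl (bijOn3 h3n hE rfl H), ?_⟩
  obtain ⟨m, hm, hP⟩ := mw_three (V := V) (V' := V.baseChange L) h3n hE rfl H
  refine ⟨m, hm, fun P => ?_⟩
  obtain ⟨Q, hQ⟩ := hP P
  refine ⟨Q, ?_⟩
  rw [hQ]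
  exact (map_eq_pm (S := K) V (Algebra.ofId K L) Q).symm

end one

/-- Everything needed for one pair of fields, with explicit levels. -/
theorem ct3_at (p : ℕ) [Fact p.Prime] (hp : 5 ≤ p) {k0 T : ℕ}
    (HR : ∀ {m n : ℕ} {K L M F : Type} [Field K] [NumberField K] [Field L] [NumberField L] [Field M]
      [NumberField M] [Field F] [NumberField F] [Algebra K L] [Algebra M F] [Algebra K M]
      [Algebra L F], k0 ≤ m + 1 → Tw p m n K L M F → NoNewCube K L)
    (HM : ∀ {m n : ℕ} (hmn : m ≤ n) {C : Type} [Field C] [NumberField C]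
      [IsCyclotomicExtension {3 * p ^ (n + 1)} ℚ C], k0 ≤ m + 1 → NoNewC p m n hmn C)
    (a b : ℤ) (hb : b ≠ 0) (hc : 9 * b + 4 * a ^ 3 ≠ 0)
    (hred : ¬ ((3 : ℤ) ∣ a ∧ (3 : ℤ) ∣ b))
    (hT : ∀ q : ℕ, q.Prime → q ∣ (6 * b * (9 * b + 4 * a ^ 3)).natAbs → q ≠ p →
      ¬ p ^ (T + 1) ∣ q ^ (p - 1) - 1)
    (K L : Type) [Field K] [NumberField K] [Field L] [NumberField L] [Algebra K L]
    (hL : IsR p L) {i : ℕ} (hi : Module.finrank K L = p ^ i)
    (hk : k0 ≤ padicValNat p (Module.finrank ℚ K) + 1)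
    (hTk : T ≤ padicValNat p (Module.finrank ℚ K) + 1) :
    ¬ 3 ∣ Module.finrank K L ∧ ∃ _ : IsGalois K L,
      ∀ (E : WeierstrassCurve K), (E = curE K a b ∨ E = curF K a b) →
        (E.baseChange L).IsElliptic ∧ CT3 K L (E.baseChange L) (inv_up rfl) := by
  have hpp := (Fact.out : p.Prime)
  have hp2 : p ≠ 2 := by omega
  obtain ⟨n, M, F, _, _, _, _, _, _, _, ⟨Tw⟩⟩ := exists_tower (p := p) hp2 hL hi
  have : IsGalois K L := galois_KL hp2 Tw
  have hodd : Odd (Module.finrank K L) := by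
    rw [hi]
    exact (hpp.odd_of_ne_two hp2).pow
  have h3n : ¬ 3 ∣ Module.finrank K L := by
    rw [hi]
    intro h
    have := (Nat.prime_dvd_prime_iff_eq Nat.prime_three hpp).mp (Nat.prime_three.dvd_of_dvd_pow h)
    omega
  have R : NoNewCube K L := HR hk Tw
  have hbad : ∀ v : HeightOneSpectrum (𝓞 K),
      ((6 * b * (9 * b + 4 * a ^ 3) : ℤ) : 𝓞 K) ∈ v.asIdeal → UniqueOver K L v.asIdeal := by
    intro v hv
    obtain ⟨q, hq, hqD, hqv⟩ := exists_prime_mem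
      (mul_ne_zero (mul_ne_zero (by norm_num) hb) hc) v hv
    exact unique_tower hp2 Tw hq (fun hqp => hT q hq hqD hqp) hTk v hqv
  have hunr := three_unram hp Tw
  have h1 := kt_E (K := K) (L := L) hodd R hb hc hred hbad hunr
  have h2 := kt_G (K := K) (L := L) hodd R hb hc hred hbad hunr
  obtain ⟨C, _, _, _, _, _, _, X⟩ := exists_C hp Tw
  have hT' : ∀ q : ℕ, q.Prime → q ∣ (6 * b).natAbs → q ≠ p → ¬ p ^ (T + 1) ∣ q ^ (p - 1) - 1 := by
    intro q hq hqD hqp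
    refine hT q hq (hqD.trans ?_) hqp
    rw [Int.natAbs_mul (6 * b)]
    exact dvd_mul_right _ _
  have h3 := kt_F (K := K) (L := L) (a := a) hp Tw.rp.hmn h3n X (HM Tw.rp.hmn hk) hb hc hT' hTk
  have e1 : (-3 * (1 : K)) = -3 := by ring
  have e2 : (-3 * (-3 : K)) = 9 := by ring
  refine ⟨h3n, this, ?_⟩
  rintro E (rfl | rfl)
  · have hE := is3_E K hb hc
    refine ⟨(hE.up (φ := algebraMap K L) rfl).isElliptic,
      i0 h3n hE (W := curF K a b) ?_ rfl rfl h1 h3⟩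
    rw [e1, dl_E]
    exact is3_F K hb hc
  · have hE := is3_F K hb hc
    refine ⟨(hE.up (φ := algebraMap K L) rfl).isElliptic,
      i0 h3n hE (W := curG K a b) ?_ rfl rfl h3 h2⟩
    rw [e2, dl_F]
    exact is3_G K hb hc

/-- bijectivity and the Mordell-Weil statement from `CT3` -/
theorem of_ct3 {K L : Type} [Field K] [NumberField K] [Field L] [NumberField L] [Algebra K L]
    [IsGalois K L] (h3n : ¬ 3 ∣ Module.finrank K L) {E : WeierstrassCurve K}
    (hE : (E.baseChange L).IsElliptic) (H : CT3 K L (E.baseChange L) (inv_up rfl)) :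
    ShaThreeBijective K E L ∧
      ∃ m : ℕ, ¬ 3 ∣ m ∧ ∀ P : (E.baseChange L).toAffine.Point,
        ∃ Q : (E.baseChange K).toAffine.Point,
          m • P = WeierstrassCurve.Affine.Point.map (Algebra.ofId K L) Q := by
  refine ⟨shaThreeBijective rfl (bijOn3 h3n hE rfl H), ?_⟩
  obtain ⟨m, hm, hP⟩ := mw_three (V := E) (V' := E.baseChange L) h3n hE rfl H
  refine ⟨m, hm, fun P => ?_⟩
  obtain ⟨Q, hQ⟩ := hP P
  refine ⟨Q, ?_⟩
  rw [hQ]
  exact (map_eq_pm (S := K) E (Algebra.ofId K L) Q).symm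

/-- The theorem, from the four interface statements. -/
theorem main_of (p : ℕ) [Fact p.Prime] (hp : 5 ≤ p) {k0 : ℕ}
    (HR : ∀ {m n : ℕ} {K L M F : Type} [Field K] [NumberField K] [Field L] [NumberField L] [Field M]
      [NumberField M] [Field F] [NumberField F] [Algebra K L] [Algebra M F] [Algebra K M]
      [Algebra L F], k0 ≤ m + 1 → Tw p m n K L M F → NoNewCube K L)
    (HM : ∀ {m n : ℕ} (hmn : m ≤ n) {C : Type} [Field C] [NumberField C]
      [IsCyclotomicExtension {3 * p ^ (n + 1)} ℚ C], k0 ≤ m + 1 → NoNewC p m n hmn C)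
    (a b : ℤ) (hb : b ≠ 0) (hc : 9 * b + 4 * a ^ 3 ≠ 0)
    (hred : ¬ ((3 : ℤ) ∣ a ∧ (3 : ℤ) ∣ b)) :
    ∃ N : ℕ, ∀ (K L : Type) [Field K] [NumberField K] [Field L] [NumberField L] [Algebra K L],
      IsR p L → (∃ i : ℕ, Module.finrank K L = p ^ i) → p ^ N ∣ Module.finrank ℚ K →
      ∀ (E : WeierstrassCurve K), (E = curE K a b ∨ E = curF K a b) →
      ShaThreeBijective K E L ∧
      ∃ m : ℕ, ¬ 3 ∣ m ∧ ∀ P : (E.baseChange L).toAffine.Point,
        ∃ Q : (E.baseChange K).toAffine.Point,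
          m • P = WeierstrassCurve.Affine.Point.map (Algebra.ofId K L) Q := by
  have hD : (6 * b * (9 * b + 4 * a ^ 3)).natAbs ≠ 0 := Int.natAbs_ne_zero.mpr
    (mul_ne_zero (mul_ne_zero (by norm_num) hb) hc)
  obtain ⟨T, hT⟩ := exists_val_bound (p := p) hD
  refine ⟨k0 + T + 1, ?_⟩
  intro K L _ _ _ _ _ hL ⟨i, hi⟩ hN E hE
  have hK0 : Module.finrank ℚ K ≠ 0 := Module.finrank_pos.ne'
  have hm : k0 + T + 1 ≤ padicValNat p (Module.finrank ℚ K) :=
    (padicValNat_dvd_iff_le hK0).mp hN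
  obtain ⟨h3n, _, h⟩ := ct3_at p hp HR HM a b hb hc hred hT K L hL hi (by omega) (by omega)
  obtain ⟨h1, h2⟩ := h E hE
  exact of_ct3 h3n h1 h2

end H55T3
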