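import Pool.Agent.H55.T3.K6b

/-!
Row Dn (about 170 lines): conjugation does not change the classes killed by three: descent along a quadratic extension `B / L`.

PROOF of coc_two (A = action of G by additive maps). c' σ := c σ - (A σ T - T), a cocycle, zero on N. If σ ∉ N, ρ ∈ N: c' (σ ρ) = c' σ. For σ, τ ∉ N: τ = σ (σ⁻¹ τ), σ⁻¹ τ ∈ N (hN: σ⁻¹ ∉ N), so c' τ = c' σ =: P (if all elements are in N take P = 0).
 For ρ ∈ N, σ ∉ N: P = c' (ρ σ) = 0 + A ρ P. For σ ∉ N: σ σ ∈ N, 0 = P + A σ P. 3 P = 0. Put T' := T + P: for ρ ∈ N: A ρ T' - T' = A ρ T - T; for σ ∉ N: A σ P - P = -2 P = P.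
PROOF of ct3_down. Ω := AlgebraicClosure B, j := jj L B, F := trans j (map_jj hLB) f, a cocycle on Ω ≃ₐ[L] Ω (isCoc_trans; as in K6a.lean), 3 • F = 0. resF hLB f ρ = F (ρ.restrictScalars L) (rfl, K6a.lean: hkC). isCocycle_res, isLocTriv_res: H applies to resF hLB f.
 (1) Let g' : Ω ≃ₐ[A] Ω. H: T, 3 T = 0, conj (inv_up hAB) g' (resF hLB f) ρ = resF hLB f ρ + (act ρ T - T) for ρ over B. Let c τ := act g' (F (g'⁻¹ τ g')) - F τ for τ over L (conjugates of τ by g' are over L: L/K normal, cj), a cocycle (isCoc_conj or by hand), 3 c = 0, c = ∂T on N = the τ which fix B.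
   coc_two (G = Ω ≃ₐ[L] Ω; N = {τ | τ fixes algebraMap B Ω x for all x}; restriction to B is a homomorphism onto Gal(B/L) of order two (card_aut_eq_finrank; a product of two non trivial elements of a group of order two is trivial; σ⁻¹ ∉ N if σ ∉ N)): T' with c = ∂T' on G.
 (2) General g : Ω ≃ₐ[K] Ω: hcov gives g1 : Ω ≃ₐ[A] Ω with g1 = g on L (hcov for the restriction of g to L gives h : Gal(B/A); lift h to Ω: AlgEquiv.liftNormal or lf), g = g1 g2 with g2 := g1⁻¹ g over L. conj g F = conj g1 (conj g2 F) and conj g2 F τ = F τ + (act τ X - X) with X = - F g2⁻¹-type element (inner conjugation: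
   act g2 (F (g2⁻¹ τ g2)) = F τ + (act τ (F g2) - F g2) up to sign; 3 X = 0), so conj g F τ = conj g1 F τ + (act τ (act g1 X) - act g1 X) = F τ + ∂(T' + act g1 X).
 (3) Back to the closure of L as in K6b.lean: for g over K and τ over L in the closure of L put g' = j g j⁻¹, τ' = j τ j⁻¹; pm j (f ..) = F ..; T := pm j.symm T'.
-/

set_option autoImplicit false
open scoped Classical

open WeierstrassCurve IsDedekindDomain NumberField Pool.Agent.H10 Pool.Agent.H11

namespace H55T3

theorem coc_two {G M : Type*} [Group G] [AddCommGroup M] (A : G →* AddMonoid.End M) (N : Set G)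
    (hN : ∀ σ τ, σ ∉ N → τ ∉ N → σ * τ ∈ N) (hi : ∀ σ, σ ∉ N → σ⁻¹ ∉ N)
    (hm : ∀ ρ σ, ρ ∈ N → σ ∉ N → ρ * σ ∉ N) {c : G → M} (hc : ∀ σ τ, c (σ * τ) = c σ + A σ (c τ))
    (h3 : ∀ σ, 3 • c σ = 0) {T : M} (hT : 3 • T = 0) (h : ∀ ρ ∈ N, c ρ = A ρ T - T) :
    ∃ T' : M, 3 • T' = 0 ∧ ∀ σ, c σ = A σ T' - T' := by
  obtain ⟨c', hc'⟩ : ∃ c' : G → M, ∀ σ, c' σ = c σ - (A σ T - T) := ⟨_, fun _ => rfl⟩
  have hAm : ∀ σ τ (x : M), A (σ * τ) x = A σ (A τ x) := by
    intro σ τ x
    rw [map_mul]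
    rfl
  have hcc : ∀ σ τ, c' (σ * τ) = c' σ + A σ (c' τ) := by
    intro σ τ
    rw [hc', hc', hc', hc, hAm, map_sub, map_sub]
    abel
  have h3' : ∀ σ, 3 • c' σ = 0 := by
    intro σ
    rw [hc', smul_sub, smul_sub, h3, ← map_nsmul, hT, map_zero]
    simp
  have h0 : ∀ ρ ∈ N, c' ρ = 0 := fun ρ hρ => by rw [hc', h ρ hρ, sub_self]
  by_cases hall : ∀ σ, σ ∈ N
  · exact ⟨T, hT, fun σ => h σ (hall σ)⟩
  · push Not at hall
    obtain ⟨σ0, hσ0⟩ := hall
    have hP : ∀ τ, τ ∉ N → c' τ = c' σ0 := by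
      intro τ hτ
      have e : τ = σ0 * (σ0⁻¹ * τ) := by group
      have h1 : σ0⁻¹ * τ ∈ N := hN _ _ (hi _ hσ0) hτ
      calc c' τ = c' (σ0 * (σ0⁻¹ * τ)) := by rw [← e]
        _ = c' σ0 := by rw [hcc, h0 _ h1, map_zero, add_zero]
    refine ⟨T + c' σ0, ?_, fun σ => ?_⟩
    · rw [smul_add, hT, h3', add_zero]
    · by_cases hσ : σ ∈ N
      · have h1 : A σ (c' σ0) = c' σ0 := by
          have h2 := hcc σ σ0
          rw [hP _ (hm _ _ hσ hσ0), h0 _ hσ, zero_add] at h2
          exact h2.symm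
        rw [h σ hσ, map_add, h1]
        abel
      · have h1 : c' σ0 + A σ (c' σ0) = 0 := by
          have h2 := hcc σ σ
          rw [h0 _ (hN _ _ hσ hσ), hP _ hσ] at h2
          exact h2.symm
        have h4 : c σ = c' σ0 + (A σ T - T) := by
          rw [← hP σ hσ, hc']
          abel
        have h5 : A σ (c' σ0) = - c' σ0 := (neg_eq_of_add_eq_zero_right h1).symm
        have h6 := h3' σ0
        rw [h4, map_add, h5]
        have h7 : c' σ0 + (A σ T - T) - (A σ T + -c' σ0 - (T + c' σ0)) = 3 • c' σ0 := by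
          abel
        rw [h6] at h7
        exact sub_eq_zero.1 h7

/-- In a group with two elements the product of two non trivial elements is trivial. -/
theorem Dn_two {G : Type*} [Group G] [Finite G] (h : Nat.card G = 2) {a b : G} (ha : a ≠ 1)
    (hb : b ≠ 1) : a * b = 1 := by
  by_contra hab
  have := Fintype.ofFinite G
  have h1 : ({1, a, a * b} : Finset G).card = 3 := by
    rw [Finset.card_eq_three]
    refine ⟨1, a, a * b, Ne.symm ha, Ne.symm hab, ?_, rfl⟩
    intro h2
    exact hb (left_eq_mul.1 h2)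
  have h2 := Finset.card_le_univ ({1, a, a * b} : Finset G)
  rw [h1, ← Nat.card_eq_fintype_card, h] at h2
  omega

/-- the action on points as a homomorphism -/
noncomputable def Dn_hom {L Ω : Type*} [Field L] [Field Ω] [Algebra L Ω] {E : WeierstrassCurve Ω}
    (h : Inv L E) : (Ω ≃ₐ[L] Ω) →* AddMonoid.End E.toAffine.Point where
  toFun σ := Pool.Agent.H10.act h σ
  map_one' := by
    ext P
    exact act_one h P
  map_mul' σ τ := by
    ext P
    exact act_mul h σ τ P

/-- Step (1). -/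
theorem Dn_one {K L A B Ω : Type*} [Field K] [Field L] [Field A]
    [Field B] [Field Ω] [Algebra K L] [Algebra K A] [Algebra A B]
    [Algebra L B] [Algebra K B] [Algebra K Ω] [Algebra L Ω] [Algebra A Ω] [Algebra B Ω]
    [IsScalarTower K L B] [IsScalarTower K A B]
    [IsScalarTower K L Ω] [IsScalarTower K A Ω] [IsScalarTower K B Ω] [IsScalarTower L B Ω]
    [IsScalarTower A B Ω] [Normal K L]
    [Normal A B] [IsGalois L B] [Algebra.IsIntegral L Ω] [FiniteDimensional L B]
    (h2 : Module.finrank L B = 2) {E : WeierstrassCurve Ω} (hK : Inv K E) (hL : Inv L E)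
    (hA : Inv A E) (hB : Inv B E) {F : (Ω ≃ₐ[L] Ω) → E.toAffine.Point} (hF : IsCoc hL F)
    (h3 : ∀ τ, 3 • F τ = 0) (g : Ω ≃ₐ[A] Ω) {T : E.toAffine.Point} (hT : 3 • T = 0)
    (H : ∀ ρ : Ω ≃ₐ[B] Ω, conj hA g (fun ρ : Ω ≃ₐ[B] Ω => F (ρ.restrictScalars L)) ρ =
      F (ρ.restrictScalars L) + (Pool.Agent.H10.act hB ρ T - T)) :
    ∃ T' : E.toAffine.Point, 3 • T' = 0 ∧ ∀ τ : Ω ≃ₐ[L] Ω,
      conj hK (g.restrictScalars K) F τ = F τ + (Pool.Agent.H10.act hL τ T' - T') := by
  have hc := isCoc_conj (L := L) (h := hK) (g.restrictScalars K) hF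
  have hker : ∀ τ : Ω ≃ₐ[L] Ω, τ ∈ (AlgEquiv.restrictNormalHom (F := L) (K₁ := Ω) B).ker ↔
      ∀ x : B, τ (algebraMap B Ω x) = algebraMap B Ω x := fun τ => K6a_ker τ
  have hcard : Nat.card (B ≃ₐ[L] B) = 2 := by
    rw [IsGalois.card_aut_eq_finrank, h2]
  obtain ⟨T', hT', H'⟩ := coc_two (Dn_hom hL)
    ((AlgEquiv.restrictNormalHom (F := L) (K₁ := Ω) B).ker : Set (Ω ≃ₐ[L] Ω))
    (fun σ τ hσ hτ => by
      rw [SetLike.mem_coe, MonoidHom.mem_ker] at hσ hτ ⊢
      rw [map_mul]
      exact Dn_two hcard hσ hτ)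
    (fun σ hσ => by
      rw [SetLike.mem_coe, inv_mem_iff]
      exact hσ)
    (fun ρ σ hρ hσ => by
      rw [SetLike.mem_coe, mul_mem_cancel_left hρ]
      exact hσ)
    (c := fun τ => conj hK (g.restrictScalars K) F τ - F τ)
    (fun σ τ => by
      change _ = _ + Pool.Agent.H10.act hL σ (_ - _)
      rw [hc.2, hF.2, map_sub]
      abel)
    (fun σ => by
      rw [smul_sub, h3, sub_zero]
      unfold conj
      rw [← map_nsmul, h3, map_zero])
    hT
    (fun ρ hρ => by
      have h1 := H (K6a_mk ρ ((hker ρ).1 hρ))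
      change _ = Pool.Agent.H10.act hL ρ T - T
      have e1 : (K6a_mk ρ ((hker ρ).1 hρ)).restrictScalars L = ρ := rfl
      have e2 : conj hA g (fun ρ : Ω ≃ₐ[B] Ω => F (ρ.restrictScalars L))
          (K6a_mk ρ ((hker ρ).1 hρ)) = conj hK (g.restrictScalars K) F ρ := by
        unfold conj
        have e3 : (cj g (K6a_mk ρ ((hker ρ).1 hρ))).restrictScalars L =
            cj (g.restrictScalars K) ρ := by
          ext y
          rfl
        change Pool.Agent.H10.act hA g (F ((cj g (K6a_mk ρ ((hker ρ).1 hρ))).restrictScalars L)) = _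
        rw [e3]
        rfl
      rw [e2, e1] at h1
      rw [h1, add_sub_cancel_left]
      rfl)
  refine ⟨T', hT', fun τ => ?_⟩
  have h1 := H' τ
  change conj hK (g.restrictScalars K) F τ - F τ = Pool.Agent.H10.act hL τ T' - T' at h1
  rw [← h1]
  abel

/-- Step (2). -/
theorem Dn_gen {K L Ω : Type*} [Field K] [Field L] [Field Ω] [Algebra K L]
    [Algebra K Ω] [Algebra L Ω] [IsScalarTower K L Ω] [Normal K L]
    {E : WeierstrassCurve Ω} (hK : Inv K E) (hL : Inv L E)
    {F : (Ω ≃ₐ[L] Ω) → E.toAffine.Point} (hF : IsCoc hL F)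
    (h3 : ∀ τ, 3 • F τ = 0) (g g1 : Ω ≃ₐ[K] Ω)
    (hg : ∀ x : L, g (algebraMap L Ω x) = g1 (algebraMap L Ω x)) {T : E.toAffine.Point}
    (hT : 3 • T = 0)
    (H : ∀ τ, conj hK g1 F τ = F τ + (Pool.Agent.H10.act hL τ T - T)) :
    ∃ T' : E.toAffine.Point, 3 • T' = 0 ∧ ∀ τ : Ω ≃ₐ[L] Ω,
      conj hK g F τ = F τ + (Pool.Agent.H10.act hL τ T' - T') := by
  let u : Ω ≃ₐ[L] Ω :=
    { (g1⁻¹ * g : Ω ≃ₐ[K] Ω) with
      commutes' := fun y => by
        change g1⁻¹ (g (algebraMap L Ω y)) = _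
        rw [hg]
        exact g1.symm_apply_apply _ }
  have hu : g = g1 * u.restrictScalars K := by
    ext y
    change g y = g1 (g1.symm (g y))
    rw [g1.apply_symm_apply]
  refine ⟨T + Pool.Agent.H10.act hK g1 (F u), ?_, fun τ => ?_⟩
  · rw [smul_add, hT, ← map_nsmul, h3, map_zero, add_zero]
  · have h1 : conj hK g F τ = conj hK g1 (conj hK (u.restrictScalars K) F) τ := by
      rw [conj_conj, ← hu]
    have h2 : conj hK (u.restrictScalars K) F (cj g1 τ) =
        F (cj g1 τ) + (Pool.Agent.H10.act hL (cj g1 τ) (F u) - F u) :=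
      conj_inner (h := hK) hF u (cj g1 τ)
    have h4 : Pool.Agent.H10.act hK g1 (Pool.Agent.H10.act hL (cj g1 τ) (F u)) =
        Pool.Agent.H10.act hL τ (Pool.Agent.H10.act hK g1 (F u)) := act_cj hK g1 τ (F u)
    rw [h1]
    change Pool.Agent.H10.act hK g1 (conj hK (u.restrictScalars K) F (cj g1 τ)) = _
    rw [h2, map_add, map_sub, h4]
    have h5 : Pool.Agent.H10.act hK g1 (F (cj g1 τ)) =
        F τ + (Pool.Agent.H10.act hL τ T - T) := H τ
    rw [h5, map_add]
    abel

theorem ct3_down {K L A B : Type} [Field K] [NumberField K] [Field L] [NumberField L] [Field A]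
    [NumberField A] [Field B] [NumberField B] [Algebra K L] [Algebra K A] [Algebra A B]
    [Algebra L B] [Algebra K B] [IsScalarTower K L B] [IsScalarTower K A B] [IsGalois K L]
    [IsGalois A B] [IsGalois L B] (h2 : Module.finrank L B = 2)
    (hcov : ∀ t : L ≃ₐ[K] L, ∃ g : B ≃ₐ[A] B, ∀ x : L, g (algebraMap L B x) = algebraMap L B (t x))
    {V : WeierstrassCurve K} {V' : WeierstrassCurve L} {VA : WeierstrassCurve A}
    {VB : WeierstrassCurve B} (hV : V.map (algebraMap K L) = V')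
    (hLB : V'.map (algebraMap L B) = VB) (hAB : VA.map (algebraMap A B) = VB)
    (H : CT3 A B VB (inv_up hAB)) : CT3 K L V' (inv_up hV) := by
  intro f hf hl hk g
  have hfc := (Pool.Agent.H10.isCocycle_iff f).1 hf
  have hKB : V.map (algebraMap K B) = VB := by
    rw [← hLB, ← hV, WeierstrassCurve.map_map, IsScalarTower.algebraMap_eq K L B]
  let j := jj L B
  obtain ⟨F, hFdef⟩ : ∃ F, F = trans j (map_jj hLB) f := ⟨_, rfl⟩
  have hFc : IsCoc (inv_up hLB) F := by
    rw [hFdef]
    exact isCoc_trans (jj L B) (map_jj hLB) (h' := inv_up hLB) hfc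
  have hF3 : ∀ τ, 3 • F τ = 0 := by
    intro τ
    rw [hFdef]
    unfold Pool.Agent.H10.trans
    rw [← map_nsmul, hk, map_zero]
  have hInvK : Inv K (VB.baseChange (AlgebraicClosure B)) := inv_up hKB
  -- step (1) and (2)
  have key : ∀ g' : AlgebraicClosure B ≃ₐ[K] AlgebraicClosure B,
      ∃ T' : (VB.baseChange (AlgebraicClosure B)).toAffine.Point, 3 • T' = 0 ∧ ∀ τ,
        conj hInvK g' F τ = F τ + (Pool.Agent.H10.act (inv_up hLB) τ T' - T') := by
    intro g'
    obtain ⟨g0, hg0⟩ := hcov (g'.restrictNormal L)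
    obtain ⟨T, hT, HT⟩ := H (resF hLB f) (isCocycle_res hLB hf) (isLocTriv_res hLB hf hl)
      (fun σ => by
        have h1 := hF3 (σ.restrictScalars L)
        rw [hFdef] at h1
        exact h1) (lf g0)
    have hres : resF hLB f = fun ρ : AlgebraicClosure B ≃ₐ[B] AlgebraicClosure B =>
        F (ρ.restrictScalars L) := by
      rw [hFdef]
      rfl
    rw [hres] at HT
    obtain ⟨T1, hT1, HT1⟩ := Dn_one (K := K) h2 hInvK (inv_up hLB) (inv_up hAB) (inv_bc B VB) hFc
      hF3 (lf g0) hT HT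
    refine Dn_gen hInvK (inv_up hLB) hFc hF3 g' ((lf g0).restrictScalars K) ?_ hT1 HT1
    intro x
    have e1 : g' (algebraMap L (AlgebraicClosure B) x) =
        algebraMap L (AlgebraicClosure B) (g'.restrictNormal L x) :=
      (g'.restrictNormal_commutes L x).symm
    rw [e1, IsScalarTower.algebraMap_apply L B (AlgebraicClosure B),
      IsScalarTower.algebraMap_apply L B (AlgebraicClosure B) x]
    change _ = lf g0 (algebraMap B (AlgebraicClosure B) (algebraMap L B x))
    rw [lf_apply, hg0]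
  -- step (3)
  let g' : AlgebraicClosure B ≃ₐ[K] AlgebraicClosure B :=
    ((j.restrictScalars K).symm.trans g).trans (j.restrictScalars K)
  have hg' : ∀ z, g' z = j (g (j.symm z)) := fun z => rfl
  obtain ⟨T', hT', HT'⟩ := key g'
  refine ⟨pm (j.symm : AlgebraicClosure B →+* AlgebraicClosure L) (map_jj_symm hLB) T', ?_,
    fun τ => ?_⟩
  · rw [← map_nsmul, hT', map_zero]
  · let τ' : AlgebraicClosure B ≃ₐ[L] AlgebraicClosure B := (j.symm.trans τ).trans j
    have hτ' : ∀ z, τ' z = j (τ (j.symm z)) := fun z => rfl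
    have e1 : (j.trans τ').trans j.symm = τ := by
      refine AlgEquiv.ext fun y => ?_
      change j.symm (τ' (j y)) = τ y
      rw [hτ', j.symm_apply_apply, j.symm_apply_apply]
    have e2 : (j.trans (cj g' τ')).trans j.symm = cj g τ := by
      refine AlgEquiv.ext fun y => ?_
      change j.symm (cj g' τ' (j y)) = cj g τ y
      rw [AlgEquiv.symm_apply_eq]
      apply g'.injective
      rw [apply_cj, hg' (j (cj g τ y)), j.symm_apply_apply, apply_cj, hg', j.symm_apply_apply, hτ',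
        j.symm_apply_apply]
    have h1 := HT' τ'
    have hTT : pm (j : AlgebraicClosure L →+* AlgebraicClosure B) (map_jj hLB)
        (pm (j.symm : AlgebraicClosure B →+* AlgebraicClosure L) (map_jj_symm hLB) T') = T' := by
      rw [pm_pm]
      exact pm_eq_self _ (fun x => j.apply_symm_apply x) T'
    have hFτ : F τ' = pm (j : AlgebraicClosure L →+* AlgebraicClosure B) (map_jj hLB) (f τ) := by
      rw [hFdef]
      unfold Pool.Agent.H10.trans
      rw [e1]
    have hFc' : F (cj g' τ') =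
        pm (j : AlgebraicClosure L →+* AlgebraicClosure B) (map_jj hLB) (f (cj g τ)) := by
      rw [hFdef]
      unfold Pool.Agent.H10.trans
      rw [e2]
    apply pm_injective (j : AlgebraicClosure L →+* AlgebraicClosure B) (map_jj hLB)
    have h5 : pm (j : AlgebraicClosure L →+* AlgebraicClosure B) (map_jj hLB)
        (conj (inv_up hV) g f τ) = conj hInvK g' F τ' := by
      unfold conj
      rw [hFc']
      unfold Pool.Agent.H10.act
      rw [pm_pm, pm_pm]
      apply pm_congr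
      intro x
      change j (g x) = g' (j x)
      rw [hg', j.symm_apply_apply]
    have h6 : pm (j : AlgebraicClosure L →+* AlgebraicClosure B) (map_jj hLB)
        (Pool.Agent.H10.act (inv_bc L V') τ
          (pm (j.symm : AlgebraicClosure B →+* AlgebraicClosure L) (map_jj_symm hLB) T')) =
        Pool.Agent.H10.act (inv_up hLB) τ' T' := by
      unfold Pool.Agent.H10.act
      rw [pm_pm, pm_pm]
      apply pm_congr
      intro x
      change j (τ (j.symm x)) = τ' x
      rw [hτ']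
    rw [h5, h1, map_add, map_sub, h6, hTT, hFτ]

end H55T3
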