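import Pool.Agent.H55.T3.K7c
import Pool.Agent.H55.T3.Dn

/-!
Row K7 (about 160 lines): the kernel valued cocycles for a curve with a rational subgroup of order three, `K ⊆ L ⊆ B = L(s)`, `s^2 = D`. Use only the STATEMENTS of K7a, K7b, K7c. Model: ct3_down (Dn.lean), k6a.

PROOF. f kernel valued cocycle over L, locally trivial. j := jj L B, F := trans j (map_jj hLB) f on Ω ≃ₐ[L] Ω, Ω = AlgebraicClosure B: IsCoc (isCoc_trans), Kr (kr_pm), 3 F = 0 (kr_three). resF hLB f τ = F (τ.restrictScalars L) (rfl).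
 kum3 over B for resF hLB f (isCocycle_res; Is3 over B: h.up; hs over B): r, d. loc3 (isLocTriv_res): FinSol3 B s a c d; k7_loc: FinM. Third hypothesis of H: g0 ∈ Gal(B/L) with g0 s = -s: lf g0 (lift to Ω over L): K7_opp: d' = g0 d: ∃ y, g0 d * d = y^3.
 So H d: for g0 ∈ Gal(B/K), g0 s = s: g0 d = d y^3.
 (1) g' : Ω ≃ₐ[K] Ω with g' s = s: g0 := restriction of g' to B, K7_same: T ∈ Kr with conj hK g' (resF..) = .. + ∂T. Dn_one with A := K (g := g', 3 T = 0 by kr_three): T1 with conj g' F τ = F τ + ∂T1, but T1 must be in Kr: use that all values and T are in Kr: repeat the proof of Dn_one with coc_two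
   for the module of kernel points, or: T1 = T + P with P = (c - ∂T)(σ0) ∈ Kr as in coc_two (copy coc_two and Dn_one with Kr instead of 3 • _ = 0: Kr is a subgroup stable under act: kr_add, kr_neg, kr_pm).
 (2) general g' : Ω ≃ₐ[K] Ω: g' s = s or g' s = -s (s^2 = D ∈ K). In the second case let u ∈ Gal(Ω/L) be a lift of the element hneg of Gal(B/L), g1 := g' u: g1 s = s and g1 = g' on L. Dn_gen (same remark: its T' = T + act g1 (F u) is in Kr).
 (3) back to the closure of L: copy step (3) of ct3_down with Kr (kr_pm) instead of 3 • _ = 0.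
-/

set_option autoImplicit false
open scoped Classical

open WeierstrassCurve IsDedekindDomain NumberField Pool.Agent.H10 Pool.Agent.H11

namespace H55T3

/-- `coc_two` inside a stable subgroup. -/
theorem K7_coc {G M : Type*} [Group G] [AddCommGroup M] (A : G →* AddMonoid.End M) (N : Set G)
    (hN : ∀ σ τ, σ ∉ N → τ ∉ N → σ * τ ∈ N) (hi : ∀ σ, σ ∉ N → σ⁻¹ ∉ N)
    (hm : ∀ ρ σ, ρ ∈ N → σ ∉ N → ρ * σ ∉ N) {c : G → M} (hc : ∀ σ τ, c (σ * τ) = c σ + A σ (c τ))
    (Q : AddSubgroup M) (h3 : ∀ x ∈ Q, 3 • x = 0) (hQ : ∀ σ, ∀ x ∈ Q, A σ x ∈ Q)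
    (hcQ : ∀ σ, c σ ∈ Q) {T : M} (hT : T ∈ Q) (h : ∀ ρ ∈ N, c ρ = A ρ T - T) :
    ∃ T' ∈ Q, ∀ σ, c σ = A σ T' - T' := by
  let A' : G →* AddMonoid.End Q :=
    { toFun := fun σ => ((A σ).comp Q.subtype).codRestrict Q fun x => hQ σ x.1 x.2
      map_one' := by
        ext x
        change A 1 x.1 = x.1
        rw [map_one]
        rfl
      map_mul' := fun σ τ => by
        ext x
        change A (σ * τ) x.1 = A σ (A τ x.1)
        rw [map_mul]
        rfl }
  obtain ⟨T', _, hT'⟩ := coc_two A' N hN hi hm (c := fun σ => (⟨c σ, hcQ σ⟩ : Q))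
    (fun σ τ => Subtype.ext (hc σ τ)) (fun σ => Subtype.ext (h3 _ (hcQ σ)))
    (T := ⟨T, hT⟩) (Subtype.ext (h3 _ hT)) (fun ρ hρ => Subtype.ext (h ρ hρ))
  exact ⟨T'.1, T'.2, fun σ => congrArg Subtype.val (hT' σ)⟩

/-- Step (1). -/
theorem K7_one {K L B Ω : Type*} [Field K] [Field L]
    [Field B] [Field Ω] [Algebra K L]
    [Algebra L B] [Algebra K B] [Algebra K Ω] [Algebra L Ω] [Algebra B Ω]
    [IsScalarTower K L B]
    [IsScalarTower K L Ω] [IsScalarTower K B Ω] [IsScalarTower L B Ω]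
    [Normal K L]
    [Normal K B] [IsGalois L B] [Algebra.IsIntegral L Ω] [FiniteDimensional L B]
    (h2 : Module.finrank L B = 2) {E : WeierstrassCurve Ω} (hK : Inv K E) (hL : Inv L E)
    (hB : Inv B E) {F : (Ω ≃ₐ[L] Ω) → E.toAffine.Point} (hF : IsCoc hL F)
    (Q : AddSubgroup E.toAffine.Point) (h3 : ∀ x ∈ Q, 3 • x = 0)
    (hQ : ∀ τ : Ω ≃ₐ[K] Ω, ∀ x ∈ Q, Pool.Agent.H10.act hK τ x ∈ Q)
    (hFQ : ∀ τ, F τ ∈ Q) (g : Ω ≃ₐ[K] Ω) {T : E.toAffine.Point} (hT : T ∈ Q)
    (H : ∀ ρ : Ω ≃ₐ[B] Ω, conj hK g (fun ρ : Ω ≃ₐ[B] Ω => F (ρ.restrictScalars L)) ρ =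
      F (ρ.restrictScalars L) + (Pool.Agent.H10.act hB ρ T - T)) :
    ∃ T' ∈ Q, ∀ τ : Ω ≃ₐ[L] Ω,
      conj hK g F τ = F τ + (Pool.Agent.H10.act hL τ T' - T') := by
  have hc := isCoc_conj (L := L) (h := hK) g hF
  have hker : ∀ τ : Ω ≃ₐ[L] Ω, τ ∈ (AlgEquiv.restrictNormalHom (F := L) (K₁ := Ω) B).ker ↔
      ∀ x : B, τ (algebraMap B Ω x) = algebraMap B Ω x := fun τ => K6a_ker τ
  have hcard : Nat.card (B ≃ₐ[L] B) = 2 := by
    rw [IsGalois.card_aut_eq_finrank, h2]
  obtain ⟨T', hT', H'⟩ := K7_coc (Dn_hom hL)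
    ((AlgEquiv.restrictNormalHom (F := L) (K₁ := Ω) B).ker : Set (Ω ≃ₐ[L] Ω))
    (fun σ τ hσ hτ => by
      rw [SetLike.mem_coe, MonoidHom.mem_ker] at hσ hτ ⊢
      rw [map_mul]
      exact Dn_two hcard hσ hτ)
    (fun σ hσ => by
      rw [SetLike.mem_coe, inv_mem_iff]
      exact hσ)
    (fun ρ σ hρ hσ => by
      rw [SetLike.mem_coe, mul_mem_cancel_left hρ]
      exact hσ)
    (c := fun τ => conj hK g F τ - F τ)
    (fun σ τ => by
      change _ = _ + Pool.Agent.H10.act hL σ (_ - _)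
      rw [hc.2, hF.2, map_sub]
      abel)
    Q h3 (fun σ x hx => hQ (σ.restrictScalars K) x hx)
    (fun σ => Q.sub_mem (hQ g _ (hFQ _)) (hFQ _))
    hT
    (fun ρ hρ => by
      have h1 := H (K6a_mk ρ ((hker ρ).1 hρ))
      change _ = Pool.Agent.H10.act hL ρ T - T
      have e1 : (K6a_mk ρ ((hker ρ).1 hρ)).restrictScalars L = ρ := rfl
      have e2 : conj hK g (fun ρ : Ω ≃ₐ[B] Ω => F (ρ.restrictScalars L))
          (K6a_mk ρ ((hker ρ).1 hρ)) = conj hK g F ρ := by
        unfold conj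
        have e3 : (cj g (K6a_mk ρ ((hker ρ).1 hρ))).restrictScalars L = cj g ρ := by
          ext y
          rfl
        change Pool.Agent.H10.act hK g (F ((cj g (K6a_mk ρ ((hker ρ).1 hρ))).restrictScalars L)) = _
        rw [e3]
      rw [e2, e1] at h1
      rw [h1, add_sub_cancel_left]
      rfl)
  refine ⟨T', hT', fun τ => ?_⟩
  have h1 := H' τ
  change conj hK g F τ - F τ = Pool.Agent.H10.act hL τ T' - T' at h1
  rw [← h1]
  abel

/-- Step (2). -/
theorem K7_gen {K L Ω : Type*} [Field K] [Field L] [Field Ω] [Algebra K L]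
    [Algebra K Ω] [Algebra L Ω] [IsScalarTower K L Ω] [Normal K L]
    {E : WeierstrassCurve Ω} (hK : Inv K E) (hL : Inv L E)
    {F : (Ω ≃ₐ[L] Ω) → E.toAffine.Point} (hF : IsCoc hL F)
    (Q : AddSubgroup E.toAffine.Point)
    (hQ : ∀ τ : Ω ≃ₐ[K] Ω, ∀ x ∈ Q, Pool.Agent.H10.act hK τ x ∈ Q)
    (hFQ : ∀ τ, F τ ∈ Q) (g g1 : Ω ≃ₐ[K] Ω)
    (hg : ∀ x : L, g (algebraMap L Ω x) = g1 (algebraMap L Ω x)) {T : E.toAffine.Point}
    (hT : T ∈ Q)
    (H : ∀ τ, conj hK g1 F τ = F τ + (Pool.Agent.H10.act hL τ T - T)) :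
    ∃ T' ∈ Q, ∀ τ : Ω ≃ₐ[L] Ω,
      conj hK g F τ = F τ + (Pool.Agent.H10.act hL τ T' - T') := by
  let u : Ω ≃ₐ[L] Ω :=
    { (g1⁻¹ * g : Ω ≃ₐ[K] Ω) with
      commutes' := fun y => by
        change g1⁻¹ (g (algebraMap L Ω y)) = _
        rw [hg]
        exact g1.symm_apply_apply _ }
  have hu : g = g1 * u.restrictScalars K := by
    ext y
    change g y = g1 (g1.symm (g y))
    rw [g1.apply_symm_apply]
  refine ⟨T + Pool.Agent.H10.act hK g1 (F u), Q.add_mem hT (hQ g1 _ (hFQ u)), fun τ => ?_⟩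
  have h1 : conj hK g F τ = conj hK g1 (conj hK (u.restrictScalars K) F) τ := by
    rw [conj_conj, ← hu]
  have h2 : conj hK (u.restrictScalars K) F (cj g1 τ) =
      F (cj g1 τ) + (Pool.Agent.H10.act hL (cj g1 τ) (F u) - F u) :=
    conj_inner (h := hK) hF u (cj g1 τ)
  have h4 : Pool.Agent.H10.act hK g1 (Pool.Agent.H10.act hL (cj g1 τ) (F u)) =
      Pool.Agent.H10.act hL τ (Pool.Agent.H10.act hK g1 (F u)) := act_cj hK g1 τ (F u)
  rw [h1]
  change Pool.Agent.H10.act hK g1 (conj hK (u.restrictScalars K) F (cj g1 τ)) = _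
  rw [h2, map_add, map_sub, h4]
  have h5 : Pool.Agent.H10.act hK g1 (F (cj g1 τ)) =
      F τ + (Pool.Agent.H10.act hL τ T - T) := H τ
  rw [h5, map_add]
  abel

theorem k7 {K L B : Type} [Field K] [NumberField K] [Field L] [NumberField L] [Field B]
    [NumberField B] [Algebra K L] [Algebra L B] [Algebra K B] [IsScalarTower K L B] [IsGalois K L]
    [IsGalois K B] [IsGalois L B] {V : WeierstrassCurve K} {V' : WeierstrassCurve L} {D a b : K}
    (h : Is3 V D a b) (hV : V.map (algebraMap K L) = V') {s : B} (hs : s ^ 2 = algebraMap K B D)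
    (h2 : Module.finrank L B = 2) (hgen : ∀ g : B ≃ₐ[L] B, g s = s → g = 1)
    (hneg : ∃ g : B ≃ₐ[L] B, g s = -s)
    (H : ∀ d : B, d ≠ 0 → FinSol3 B s (algebraMap K B a)
      (algebraMap K B (9 * b + 4 * D * a ^ 3)) d →
      FinM s (algebraMap K L D) (algebraMap K L a) (algebraMap K L (9 * b + 4 * D * a ^ 3)) d →
      (∀ g : B ≃ₐ[L] B, g s = -s → ∃ y, g d * d = y ^ 3) →
      ∀ g : B ≃ₐ[K] B, g s = s → ∃ y, g d = d * y ^ 3) :
    KT K L V' (inv_up hV) := by
  intro f hf hl hk g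
  obtain ⟨VB, hLB⟩ : ∃ VB, V'.map (algebraMap L B) = VB := ⟨_, rfl⟩
  have hKB : V.map (algebraMap K B) = VB := by
    rw [← hLB, ← hV, WeierstrassCurve.map_map, IsScalarTower.algebraMap_eq K L B]
  have hInvK : Inv K (VB.baseChange (AlgebraicClosure B)) := inv_up hKB
  let j := jj L B
  obtain ⟨F, hFdef⟩ : ∃ F, F = Pool.Agent.H10.trans j (map_jj hLB) f := ⟨_, rfl⟩
  have hFc : IsCoc (inv_up hLB) F := by
    rw [hFdef]
    exact isCoc_trans (jj L B) (map_jj hLB) (h' := inv_up hLB)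
      ((Pool.Agent.H10.isCocycle_iff f).1 hf)
  have hFk : ∀ σ, Kr (F σ) := by
    intro σ
    rw [hFdef]
    exact (kr_pm _ _).2 (hk _)
  -- the curve
  have hE : Is3 (VB.baseChange (AlgebraicClosure B)) (algebraMap K (AlgebraicClosure B) D)
      (algebraMap K (AlgebraicClosure B) a) (algebraMap K (AlgebraicClosure B) b) :=
    h.up (map_up hKB)
  have hVL : Is3 V' (algebraMap K L D) (algebraMap K L a) (algebraMap K L b) := h.up hV
  have hVB : Is3 VB (algebraMap K B D) (algebraMap K B a) (algebraMap K B b) := h.up hKB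
  let Q : AddSubgroup (VB.baseChange (AlgebraicClosure B)).toAffine.Point :=
    { carrier := {P | Kr P}
      zero_mem' := (kr_zero :
        Kr (0 : (VB.baseChange (AlgebraicClosure B)).toAffine.Point))
      add_mem' := by
        intro P P' hP hP'
        exact kr_add hE hP hP'
      neg_mem' := by
        intro P hP
        exact kr_neg.2 hP }
  have hQ3 : ∀ x ∈ Q, 3 • x = 0 := fun x hx => kr_three hE hx
  have hQa : ∀ τ : AlgebraicClosure B ≃ₐ[K] AlgebraicClosure B, ∀ x ∈ Q,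
      Pool.Agent.H10.act hInvK τ x ∈ Q := fun τ x hx => (kr_pm _ _).2 hx
  -- the Kummer class
  have hcB := isCocycle_res hLB hf
  have hlB := isLocTriv_res hLB hf hl
  have hres : resF hLB f = fun ρ : AlgebraicClosure B ≃ₐ[B] AlgebraicClosure B =>
      F (ρ.restrictScalars L) := by
    rw [hFdef]
    rfl
  have hkB : ∀ σ, Kr (resF hLB f σ) := by
    intro σ
    rw [hres]
    exact hFk _
  obtain ⟨r, d, hr, hd0, hd, hr'⟩ := kum3 (k := B) (hVB.bc (AlgebraicClosure B)) hs (inv_bc B VB)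
    ((Pool.Agent.H10.isCocycle_iff _).1 hcB) hkB
  have hfin := loc3 hVB hs hlB hkB hr hd hr'
  have hc : 9 * algebraMap K B b + 4 * algebraMap K B D * (algebraMap K B a) ^ 3 =
      algebraMap K B (9 * b + 4 * D * a ^ 3) := by
    simp only [map_add, map_mul, map_pow, map_ofNat]
  rw [hc] at hfin
  have hsL : s ^ 2 = algebraMap L B (algebraMap K L D) := by
    rw [hs, ← IsScalarTower.algebraMap_apply]
  have hr1 : ∀ τ : AlgebraicClosure B ≃ₐ[B] AlgebraicClosure B,
      τ r = ee (algebraMap B (AlgebraicClosure B) s) (algebraMap K (AlgebraicClosure B) b)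
        (F (τ.restrictScalars L)) * r := by
    intro τ
    have h1 := hr' τ
    rw [← IsScalarTower.algebraMap_apply K B (AlgebraicClosure B), hres] at h1
    exact h1
  have hr2 : ∀ τ : AlgebraicClosure B ≃ₐ[B] AlgebraicClosure B,
      τ r = ee (algebraMap B (AlgebraicClosure B) s)
        (algebraMap L (AlgebraicClosure B) (algebraMap K L b)) (F (τ.restrictScalars L)) * r := by
    intro τ
    rw [← IsScalarTower.algebraMap_apply K L (AlgebraicClosure B)]
    exact hr1 τ
  have hfinM := k7_loc hVL hLB hsL hgen hl hk hr hd (by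
    intro τ
    have h1 := hr2 τ
    rw [hFdef] at h1
    exact h1)
  have hcL : 9 * algebraMap K L b + 4 * algebraMap K L D * (algebraMap K L a) ^ 3 =
      algebraMap K L (9 * b + 4 * D * a ^ 3) := by
    simp only [map_add, map_mul, map_pow, map_ofNat]
  rw [hcL] at hfinM
  have hEL : Is3 (VB.baseChange (AlgebraicClosure B))
      (algebraMap L (AlgebraicClosure B) (algebraMap K L D))
      (algebraMap L (AlgebraicClosure B) (algebraMap K L a))
      (algebraMap L (AlgebraicClosure B) (algebraMap K L b)) := by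
    rw [← IsScalarTower.algebraMap_apply, ← IsScalarTower.algebraMap_apply,
      ← IsScalarTower.algebraMap_apply]
    exact hE
  have hopp : ∀ g0 : B ≃ₐ[L] B, g0 s = -s → ∃ y, g0 d * d = y ^ 3 := by
    intro g0 hg0
    obtain ⟨y, _, hy⟩ := K7_opp hEL hsL (inv_up hLB) hFc hFk hr hd hr2 (lf g0)
      (by rw [lf_apply, hg0, map_neg])
    exact ⟨y, hy (g0 d) (lf_apply g0 d)⟩
  have hH := H d hd0 hfin hfinM hopp
  -- step (1)
  have step1 : ∀ g' : AlgebraicClosure B ≃ₐ[K] AlgebraicClosure B,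
      g' (algebraMap B (AlgebraicClosure B) s) = algebraMap B (AlgebraicClosure B) s →
      ∃ T' ∈ Q, ∀ τ, conj hInvK g' F τ =
        F τ + (Pool.Agent.H10.act (inv_up hLB) τ T' - T') := by
    intro g' hg's
    have hc1 : ∀ x : B, g' (algebraMap B (AlgebraicClosure B) x) =
        algebraMap B (AlgebraicClosure B) (g'.restrictNormal B x) :=
      fun x => (g'.restrictNormal_commutes B x).symm
    obtain ⟨y, hy⟩ := hH (g'.restrictNormal B) (by
      apply (algebraMap B (AlgebraicClosure B)).injective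
      rw [← hc1, hg's])
    obtain ⟨T, hT, HT⟩ := K7_same hE hs hInvK (inv_bc B VB)
      (fC := fun ρ : AlgebraicClosure B ≃ₐ[B] AlgebraicClosure B => F (ρ.restrictScalars L))
      (fun σ => hFk _) hr hd hr1 g' hg's (y := y) (by rw [hc1, hy])
    exact K7_one h2 hInvK (inv_up hLB) (inv_bc B VB) hFc Q hQ3 hQa hFk g' hT HT
  -- step (2)
  have key : ∀ g' : AlgebraicClosure B ≃ₐ[K] AlgebraicClosure B,
      ∃ T' ∈ Q, ∀ τ, conj hInvK g' F τ =
        F τ + (Pool.Agent.H10.act (inv_up hLB) τ T' - T') := by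
    intro g'
    have hsq : (g' (algebraMap B (AlgebraicClosure B) s)) ^ 2 =
        (algebraMap B (AlgebraicClosure B) s) ^ 2 := by
      rw [← map_pow, ← map_pow, hs, ← IsScalarTower.algebraMap_apply, g'.commutes]
    rcases sq_eq_sq_iff_eq_or_eq_neg.1 hsq with h1 | h1
    · exact step1 g' h1
    · obtain ⟨g0, hg0⟩ := hneg
      obtain ⟨T1, hT1, HT1⟩ := step1 (g' * (lf g0).restrictScalars K) (by
        change g' (lf g0 (algebraMap B (AlgebraicClosure B) s)) = _
        rw [lf_apply, hg0, map_neg, map_neg, h1, neg_neg])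
      refine K7_gen hInvK (inv_up hLB) hFc Q hQa hFk g' _ ?_ hT1 HT1
      intro x
      change _ = g' (lf g0 (algebraMap L (AlgebraicClosure B) x))
      rw [(lf g0).commutes]
  -- step (3)
  let g' : AlgebraicClosure B ≃ₐ[K] AlgebraicClosure B :=
    ((j.restrictScalars K).symm.trans g).trans (j.restrictScalars K)
  have hg' : ∀ z, g' z = j (g (j.symm z)) := fun z => rfl
  obtain ⟨T', hT', HT'⟩ := key g'
  refine ⟨pm (j.symm : AlgebraicClosure B →+* AlgebraicClosure L) (map_jj_symm hLB) T', ?_,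
    fun τ => ?_⟩
  · exact (kr_pm _ _).2 hT'
  · let τ' : AlgebraicClosure B ≃ₐ[L] AlgebraicClosure B := (j.symm.trans τ).trans j
    have hτ' : ∀ z, τ' z = j (τ (j.symm z)) := fun z => rfl
    have e1 : (j.trans τ').trans j.symm = τ := by
      refine AlgEquiv.ext fun y => ?_
      change j.symm (τ' (j y)) = τ y
      rw [hτ', j.symm_apply_apply, j.symm_apply_apply]
    have e2 : (j.trans (cj g' τ')).trans j.symm = cj g τ := by
      refine AlgEquiv.ext fun y => ?_
      change j.symm (cj g' τ' (j y)) = cj g τ y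
      rw [AlgEquiv.symm_apply_eq]
      apply g'.injective
      rw [apply_cj, hg' (j (cj g τ y)), j.symm_apply_apply, apply_cj, hg', j.symm_apply_apply, hτ',
        j.symm_apply_apply]
    have h1 := HT' τ'
    have hTT : pm (j : AlgebraicClosure L →+* AlgebraicClosure B) (map_jj hLB)
        (pm (j.symm : AlgebraicClosure B →+* AlgebraicClosure L) (map_jj_symm hLB) T') = T' := by
      rw [pm_pm]
      exact pm_eq_self _ (fun x => j.apply_symm_apply x) T'
    have hFτ : F τ' = pm (j : AlgebraicClosure L →+* AlgebraicClosure B) (map_jj hLB) (f τ) := by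
      rw [hFdef]
      unfold Pool.Agent.H10.trans
      rw [e1]
    have hFc' : F (cj g' τ') =
        pm (j : AlgebraicClosure L →+* AlgebraicClosure B) (map_jj hLB) (f (cj g τ)) := by
      rw [hFdef]
      unfold Pool.Agent.H10.trans
      rw [e2]
    apply pm_injective (j : AlgebraicClosure L →+* AlgebraicClosure B) (map_jj hLB)
    have h5 : pm (j : AlgebraicClosure L →+* AlgebraicClosure B) (map_jj hLB)
        (conj (inv_up hV) g f τ) = conj hInvK g' F τ' := by
      unfold conj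
      rw [hFc']
      unfold Pool.Agent.H10.act
      rw [pm_pm, pm_pm]
      apply pm_congr
      intro x
      change j (g x) = g' (j x)
      rw [hg', j.symm_apply_apply]
    have h6 : pm (j : AlgebraicClosure L →+* AlgebraicClosure B) (map_jj hLB)
        (Pool.Agent.H10.act (inv_bc L V') τ
          (pm (j.symm : AlgebraicClosure B →+* AlgebraicClosure L) (map_jj_symm hLB) T')) =
        Pool.Agent.H10.act (inv_up hLB) τ' T' := by
      unfold Pool.Agent.H10.act
      rw [pm_pm, pm_pm]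
      apply pm_congr
      intro x
      change j (τ (j.symm x)) = τ' x
      rw [hτ']
    rw [h5, h1, map_add, map_sub, h6, hTT, hFτ]

end H55T3
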