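import Pool.Agent.H55.T3.Df
import Pool.Agent.H10.StarGal

/-!
Row Vg (about 80 lines): good places.

PROOF of vg. H: either d = t^3: log (V d) = 3 log (V t). Or d^2 Y^3 - U^3 = d s (6 a U Y + 2 c). Put δ = log V d, u = log V U, v = log V Y if U, Y ≠ 0. The four terms: T1 = d^2 Y^3, T2 = U^3, T3 = 2 c s d with V T3 = V d, T4 = 6 a s d U Y with V T4 ≤ V d V U V Y; T1 - T2 - T3 = T4.
 Suppose 3 ∤ δ. If U = 0 or Y = 0 then T4 = 0, T1 = T2 + T3 with one of T1, T2 zero: Y = 0: T2 = -T3: 3 u = δ (U ≠ 0 as T3 ≠ 0); U = 0: T1 = T3: 2 δ + 3 v = δ, δ = -3 v: contradiction.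
 If U, Y ≠ 0 the logs 2 δ + 3 v, 3 u, δ of T1, T2, T3 are pairwise different (mod 3 they are 2 δ, 0, δ), so V (T1 - T2 - T3) = max (Valuation.map_add_eq_of_lt...), but V T4 ≤ exp (δ + u + v) and δ + u + v = (sum of the three logs)/3 < max: contradiction.
PROOF of vg_place: V := Valued.v on w.adicCompletion k, valued_algebraMap / valuedAdicCompletion_eq_valuation' (see KapForm.descend in H10/StarGal.lean) gives log (w.valuation k d) = log (V (algebraMap d)). V (2 c) = 1: w.valuation of an integer not in w is 1 (valuation_natCast_eq_one in H10/Unique.lean, similar for ints), V (6 a) ≤ 1.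
-/

set_option autoImplicit false
open scoped Classical

open WeierstrassCurve IsDedekindDomain NumberField WithZero Pool.Agent.H10

namespace H55T3

lemma vg_aux {F : Type*} [Field F] {V : Valuation F (WithZero (Multiplicative ℤ))} {x a b c : F}
    (h : x = a + b + c) (ha : V a < V x) (hb : V b < V x) (hc : V c < V x) : False := by
  have h1 := V.map_add_lt (V.map_add_lt ha hb) hc
  rw [← h] at h1
  exact lt_irrefl _ h1

theorem vg {F : Type*} [Field F] {V : Valuation F (WithZero (Multiplicative ℤ))} {s a c d : F}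
    (hs : V s = 1) (ha : V (6 * a) ≤ 1) (hc : V (2 * c) = 1) (hd : d ≠ 0) (H : LocSol s a c d) :
    (3 : ℤ) ∣ log (V d) := by
  have hVd : V d ≠ 0 := (Valuation.ne_zero_iff _).2 hd
  rcases H with ⟨t, rfl⟩ | ⟨U, Y, hUY⟩
  · rw [map_pow, log_pow]
    exact ⟨log (V t), by simp⟩
  by_cases hU : U = 0
  · subst hU
    have hY : Y ≠ 0 := by
      rintro rfl
      have e : d * s * (2 * c) = 0 := by linear_combination -hUY
      have h1 : V (d * s * (2 * c)) = V d := by rw [map_mul, map_mul, hs, hc, mul_one, mul_one]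
      rw [e, map_zero] at h1
      exact hVd h1.symm
    have hVY : V Y ≠ 0 := (Valuation.ne_zero_iff _).2 hY
    have e : d * Y ^ 3 = s * (2 * c) := by
      have : d * (d * Y ^ 3) = d * (s * (2 * c)) := by linear_combination hUY
      exact mul_left_cancel₀ hd this
    have h1 : V d * V Y ^ 3 = 1 := by
      rw [← map_pow, ← map_mul, e, map_mul, hs, hc, one_mul]
    have h2 := congrArg log h1
    rw [log_mul hVd (pow_ne_zero 3 hVY), log_pow, log_one] at h2
    refine ⟨-log (V Y), ?_⟩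
    simp only [nsmul_eq_mul] at h2
    push_cast at h2
    linarith
  by_cases hY : Y = 0
  · subst hY
    have hVU : V U ≠ 0 := (Valuation.ne_zero_iff _).2 hU
    have e : d * s * (2 * c) = -(U ^ 3) := by linear_combination -hUY
    have h1 : V d = V U ^ 3 := by
      rw [← map_pow, ← Valuation.map_neg V (U ^ 3), ← e, map_mul, map_mul, hs, hc, mul_one, mul_one]
    rw [h1, log_pow]
    exact ⟨log (V U), by simp⟩
  by_contra h3
  have hVU : V U ≠ 0 := (Valuation.ne_zero_iff _).2 hU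
  have hVY : V Y ≠ 0 := (Valuation.ne_zero_iff _).2 hY
  obtain ⟨δ, hδ⟩ : ∃ δ : ℤ, δ = log (V d) := ⟨_, rfl⟩
  obtain ⟨u, hu⟩ : ∃ u : ℤ, u = log (V U) := ⟨_, rfl⟩
  obtain ⟨v, hv⟩ : ∃ v : ℤ, v = log (V Y) := ⟨_, rfl⟩
  have eδ : V d = exp δ := by rw [hδ, exp_log hVd]
  have eu : V U = exp u := by rw [hu, exp_log hVU]
  have ev : V Y = exp v := by rw [hv, exp_log hVY]
  rw [← hδ] at h3
  have t1 : V (d ^ 2 * Y ^ 3) = exp (2 * δ + 3 * v) := by
    rw [map_mul, map_pow, map_pow, eδ, ev, ← exp_nsmul, ← exp_nsmul, ← exp_add]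
    simp
  have t2 : V (U ^ 3) = exp (3 * u) := by
    rw [map_pow, eu, ← exp_nsmul]
    simp
  have t3 : V (d * s * (2 * c)) = exp δ := by
    rw [map_mul, map_mul, hs, hc, mul_one, mul_one, eδ]
  have t4 : V (d * s * (6 * a) * U * Y) ≤ exp (δ + u + v) := by
    rw [map_mul, map_mul, map_mul, map_mul, hs, mul_one, eδ, eu, ev, exp_add, exp_add]
    gcongr
    exact mul_le_of_le_one_right' ha
  have key : (3 * u < 2 * δ + 3 * v ∧ δ < 2 * δ + 3 * v ∧ δ + u + v < 2 * δ + 3 * v) ∨
      (2 * δ + 3 * v < 3 * u ∧ δ < 3 * u ∧ δ + u + v < 3 * u) ∨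
      (2 * δ + 3 * v < δ ∧ 3 * u < δ ∧ δ + u + v < δ) := by omega
  rcases key with ⟨k1, k2, k3⟩ | ⟨k1, k2, k3⟩ | ⟨k1, k2, k3⟩
  · refine vg_aux (V := V) (x := d ^ 2 * Y ^ 3) (a := U ^ 3) (b := d * s * (2 * c))
      (c := d * s * (6 * a) * U * Y) (by linear_combination hUY) ?_ ?_ ?_
    · rw [t1, t2]; exact exp_lt_exp.2 k1
    · rw [t1, t3]; exact exp_lt_exp.2 k2
    · rw [t1]; exact t4.trans_lt (exp_lt_exp.2 k3)
  · refine vg_aux (V := V) (x := U ^ 3) (a := d ^ 2 * Y ^ 3) (b := -(d * s * (2 * c)))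
      (c := -(d * s * (6 * a) * U * Y)) (by linear_combination -hUY) ?_ ?_ ?_
    · rw [t1, t2]; exact exp_lt_exp.2 k1
    · rw [Valuation.map_neg, t2, t3]; exact exp_lt_exp.2 k2
    · rw [Valuation.map_neg, t2]; exact t4.trans_lt (exp_lt_exp.2 k3)
  · refine vg_aux (V := V) (x := d * s * (2 * c)) (a := d ^ 2 * Y ^ 3) (b := -(U ^ 3))
      (c := -(d * s * (6 * a) * U * Y)) (by linear_combination -hUY) ?_ ?_ ?_
    · rw [t1, t3]; exact exp_lt_exp.2 k1
    · rw [Valuation.map_neg, t2, t3]; exact exp_lt_exp.2 k2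
    · rw [Valuation.map_neg, t3]; exact t4.trans_lt (exp_lt_exp.2 k3)

theorem vg_place {k : Type} [Field k] [NumberField k] {w : HeightOneSpectrum (𝓞 k)} {s d : k} {a c : ℤ}
    (hs : w.valuation k s = 1) (hc : ((2 * c : ℤ) : 𝓞 k) ∉ w.asIdeal) (hd : d ≠ 0)
    (H : LocSol (algebraMap k (w.adicCompletion k) s) (algebraMap k (w.adicCompletion k) (a : k))
      (algebraMap k (w.adicCompletion k) (c : k)) (algebraMap k (w.adicCompletion k) d)) :
    (3 : ℤ) ∣ log (w.valuation k d) := by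
  rw [← valued_algebraMap w d]
  refine vg (V := Valued.v) ?_ ?_ ?_ ?_ H
  · rw [valued_algebraMap, hs]
  · have e : (6 : w.adicCompletion k) * algebraMap k (w.adicCompletion k) (a : k) =
        algebraMap k (w.adicCompletion k) (algebraMap (𝓞 k) k ((6 * a : ℤ) : 𝓞 k)) := by
      push_cast
      simp only [map_ofNat, map_intCast]
    rw [e, valued_algebraMap]
    exact w.valuation_le_one _
  · have e : (2 : w.adicCompletion k) * algebraMap k (w.adicCompletion k) (c : k) =
        algebraMap k (w.adicCompletion k) (algebraMap (𝓞 k) k ((2 * c : ℤ) : 𝓞 k)) := by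
      push_cast
      simp only [map_ofNat, map_intCast]
    rw [e, valued_algebraMap]
    exact (w.valuation_eq_one_iff_notMem (K := k)).2 hc
  · exact (map_ne_zero_iff _ (algebraMap k (w.adicCompletion k)).injective).2 hd

end H55T3
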