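import Pool.Agent.H55.T3.Df5
import Pool.Agent.H55.T3.Y2

/-!
Minus side for a curve with a rational subgroup of order three: `C = L(s)`, `s^2 = -3 D` (helper55).
-/

set_option autoImplicit false
open scoped Classical

open IsDedekindDomain NumberField Finset WithZero Pool.Agent.H10

namespace H55T3

open Pointwise in
/-- `val_fix_pair` for a general quadratic extension. -/
theorem val_fix_pairD {K L C : Type} [Field K] [NumberField K] [Field L] [NumberField L] [Field C]
    [NumberField C] [Algebra K L] [Algebra L C] [Algebra K C] [IsScalarTower K L C] [IsGalois K C]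
    [IsGalois L C] {s : C} (hsq : ∀ g : C ≃ₐ[L] C, g s = s ∨ g s = -s)
    (hgen : ∀ g : C ≃ₐ[L] C, g s = s → g = 1)
    (w : HeightOneSpectrum (𝓞 C)) (hu : UniqueOver K L (w.asIdeal.under (𝓞 K)))
    {g : C ≃ₐ[K] C} (hodd : Odd (orderOf g)) (x : C) : w.valuation C (g x) = w.valuation C x := by
  have htwo : ∀ τ ρ : C ≃ₐ[L] C, τ ≠ 1 → ρ ≠ 1 → τ = ρ := by
    intro τ ρ hτ hρ
    have h1 := (hsq τ).resolve_left fun h => hτ (hgen τ h)
    have h2 := (hsq ρ).resolve_left fun h => hρ (hgen ρ h)
    have h3 : (τ⁻¹ * ρ) s = s := by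
      rw [AlgEquiv.mul_apply, h2, map_neg]
      have h4 : τ⁻¹ (-s) = s := by
        rw [← h1]
        exact τ.symm_apply_apply s
      rw [map_neg] at h4
      exact h4
    have h4 := hgen _ h3
    rw [inv_mul_eq_one] at h4
    exact h4
  apply P1_val
  obtain ⟨τ1, h1⟩ := P1_conj (L := L) w hu g
  obtain ⟨τ2, h2⟩ := P1_conj (L := L) w hu (g ^ 2)
  by_cases ht1 : τ1 = 1
  · rw [← h1, ht1, one_smul]
  by_cases ht2 : τ2 = 1
  · rw [ht2, one_smul] at h2
    obtain ⟨m, hm⟩ := hodd
    have h3 : ∀ m : ℕ, (g ^ 2) ^ m • w.asIdeal = w.asIdeal := by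
      intro m
      induction m with
      | zero => rw [pow_zero, one_smul]
      | succ m ih => rw [pow_succ, mul_smul, ← h2, ih]
    have h4 : g ^ (2 * m + 1) = 1 := by
      rw [← hm]
      exact pow_orderOf_eq_one g
    rw [pow_succ', pow_mul] at h4
    have h5 : (g * (g ^ 2) ^ m) • w.asIdeal = (1 : C ≃ₐ[K] C) • w.asIdeal := by rw [h4]
    rw [mul_smul, h3, one_smul] at h5
    exact h5
  · have h3 := htwo τ1 τ2 ht1 ht2
    rw [← h3, h1, pow_two, mul_smul] at h2
    exact (smul_left_cancel g h2).symm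

section

variable {K C : Type} [Field K] [NumberField K] [Field C] [NumberField C] [Algebra K C]

lemma M2_place {w : HeightOneSpectrum (𝓞 C)} {s d : C} {D α γ : 𝓞 K}
    (hs : s ^ 2 = algebraMap K C (-3 * (D : K)))
    (hw : algebraMap (𝓞 K) (𝓞 C) (6 * D * γ) ∉ w.asIdeal) (hd : d ≠ 0)
    (H : LocSol (algebraMap C (w.adicCompletion C) s)
      (algebraMap C (w.adicCompletion C) (algebraMap K C ((α : K) / 3)))
      (algebraMap C (w.adicCompletion C) (algebraMap K C ((γ : K) / 9)))
      (algebraMap C (w.adicCompletion C) d)) :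
    (3 : ℤ) ∣ log (w.valuation C d) := by
  have hwγ : algebraMap (𝓞 K) (𝓞 C) (6 * γ) ∉ w.asIdeal := by
    intro h
    apply hw
    have e : algebraMap (𝓞 K) (𝓞 C) (6 * D * γ) =
        algebraMap (𝓞 K) (𝓞 C) D * algebraMap (𝓞 K) (𝓞 C) (6 * γ) := by
      rw [← map_mul]
      congr 1
      ring
    rw [e]
    exact w.asIdeal.mul_mem_left _ h
  have hwD : algebraMap (𝓞 K) (𝓞 C) D ∉ w.asIdeal := by
    intro h
    apply hw
    have e : algebraMap (𝓞 K) (𝓞 C) (6 * D * γ) =
        algebraMap (𝓞 K) (𝓞 C) (6 * γ) * algebraMap (𝓞 K) (𝓞 C) D := by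
      rw [← map_mul]
      congr 1
      ring
    rw [e]
    exact w.asIdeal.mul_mem_left _ h
  have h3 := P2b_three hwγ
  have hv3 : w.valuation C (3 : C) = 1 := by
    have e : (3 : C) = algebraMap (𝓞 C) C 3 := by rw [map_ofNat]
    rw [e]
    exact (w.valuation_eq_one_iff_notMem (K := C)).2 h3
  have hvD : w.valuation C (algebraMap K C (D : K)) = 1 :=
    (w.valuation_eq_one_iff_notMem (K := C)).2 hwD
  rw [← valued_algebraMap w d]
  refine vg (V := Valued.v) ?_ ?_ ?_ ?_ H
  · rw [valued_algebraMap]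
    have h1 : w.valuation C (s ^ 2) = 1 := by
      rw [hs, map_mul, map_mul, hvD, mul_one, map_neg, map_ofNat, Valuation.map_neg]
      exact hv3
    rw [map_pow] at h1
    exact (pow_eq_one_iff.1 h1).resolve_right two_ne_zero
  · have e0 : algebraMap K C ((α : K) / 3) = algebraMap K C (α : K) / 3 := by
      rw [map_div₀, map_ofNat]
    have e : (6 : w.adicCompletion C) * algebraMap C (w.adicCompletion C) (algebraMap K C ((α : K) / 3)) =
        algebraMap C (w.adicCompletion C)
          (algebraMap (𝓞 C) C (2 * algebraMap (𝓞 K) (𝓞 C) α)) := by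
      rw [map_mul (algebraMap (𝓞 C) C), P2b_map, e0]
      have e1 : (6 : w.adicCompletion C) = algebraMap C (w.adicCompletion C) 6 := by rw [map_ofNat]
      rw [e1, ← map_mul]
      congr 1
      rw [map_ofNat]
      ring
    rw [e, valued_algebraMap]
    exact w.valuation_le_one _
  · have e0 : algebraMap K C ((γ : K) / 9) = algebraMap K C (γ : K) / 9 := by
      rw [map_div₀, map_ofNat]
    have e1 : (2 : w.adicCompletion C) = algebraMap C (w.adicCompletion C) 2 := by rw [map_ofNat]
    rw [e0, e1, ← map_mul, valued_algebraMap]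
    have e2 : (2 : C) * (algebraMap K C (γ : K) / 9) =
        algebraMap (𝓞 C) C (algebraMap (𝓞 K) (𝓞 C) (6 * γ)) / (3 * (3 * 3)) := by
      rw [P2b_map]
      have e3 : ((6 * γ : 𝓞 K) : K) = 6 * (γ : K) := by
        have e5 : algebraMap (𝓞 K) K (6 * γ) = algebraMap (𝓞 K) K 6 * algebraMap (𝓞 K) K γ := map_mul _ _ _
        rw [map_ofNat] at e5
        exact e5
      rw [e3, map_mul, map_ofNat]
      ring
    have e5 : w.valuation C ((3 : C) * (3 * 3)) = 1 := by
      rw [map_mul, map_mul, hv3, one_mul, one_mul]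
    rw [e2, map_div₀, e5]
    have e4 : w.valuation C (algebraMap (𝓞 C) C (algebraMap (𝓞 K) (𝓞 C) (6 * γ))) = 1 :=
      (w.valuation_eq_one_iff_notMem (K := C)).2 hwγ
    rw [e4]
    simp
  · exact (map_ne_zero_iff _ (algebraMap C (w.adicCompletion C)).injective).2 hd

end

theorem minus_pairD {K L C : Type} [Field K] [NumberField K] [Field L] [NumberField L] [Field C]
    [NumberField C] [Algebra K L] [Algebra L C] [Algebra K C] [IsScalarTower K L C] [IsGalois K C]
    [IsGalois L C] {D : 𝓞 K} (hD : D ≠ 0) {s : C} (hs : s ^ 2 = algebraMap K C (-3 * (D : K)))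
    (hgen : ∀ g : C ≃ₐ[L] C, g s = s → g = 1)
    (hab : ∀ g g' : C ≃ₐ[K] C, g * g' = g' * g) (R : NoNewMinus K L C s) {α γ : 𝓞 K} (hγ : γ ≠ 0)
    (hbad : ∀ v : HeightOneSpectrum (𝓞 K), 6 * D * γ ∈ v.asIdeal → UniqueOver K L v.asIdeal)
    {d : C} (hd : d ≠ 0) (H : FinSol3 C s (algebraMap K C ((α : K) / 3))
      (algebraMap K C ((γ : K) / 9)) d)
    (hJ : ∀ g : C ≃ₐ[L] C, g s = -s → ∃ y, g d * d = y ^ 3)
    {g : C ≃ₐ[K] C} (hg : g s = s) (hodd : Odd (orderOf g)) : ∃ y, g d = d * y ^ 3 := by
  have hgd : g d ≠ 0 := (map_ne_zero_iff _ g.injective).2 hd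
  have hsq : ∀ g : C ≃ₐ[L] C, g s = s ∨ g s = -s := by
    intro g
    have h1 : (g s) ^ 2 = s ^ 2 := by
      rw [← map_pow, hs, IsScalarTower.algebraMap_apply K L C, g.commutes]
    exact sq_eq_sq_iff_eq_or_eq_neg.1 h1
  have key : ∃ y, g d / d = y ^ 3 := by
    apply R
    · exact div_ne_zero hgd hd
    · intro w
      have hv1 : w.valuation C (g d) ≠ 0 := (Valuation.ne_zero_iff _).2 hgd
      have hv2 : w.valuation C d ≠ 0 := (Valuation.ne_zero_iff _).2 hd
      rw [map_div₀, log_div hv1 hv2]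
      by_cases hw : algebraMap (𝓞 K) (𝓞 C) (6 * D * γ) ∈ w.asIdeal
      · have hne : w.asIdeal.under (𝓞 K) ≠ ⊥ := by
          intro h
          have h1 : (6 * D * γ : 𝓞 K) ∈ w.asIdeal.under (𝓞 K) := hw
          rw [h, Ideal.mem_bot] at h1
          rcases mul_eq_zero.1 h1 with h2 | h2
          · rcases mul_eq_zero.1 h2 with h2 | h2
            · norm_num at h2
            · exact hD h2
          · exact hγ h2
        let v : HeightOneSpectrum (𝓞 K) := ⟨w.asIdeal.under (𝓞 K), Ideal.IsPrime.comap _, hne⟩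
        have hu : UniqueOver K L v.asIdeal := hbad v hw
        have h1 := val_fix_pairD (L := L) hsq hgen w hu hodd d
        rw [h1, sub_self]
        exact dvd_zero _
      · obtain ⟨w', h1, h2⟩ := exists_conj g w
        have hw' : algebraMap (𝓞 K) (𝓞 C) (6 * D * γ) ∉ w'.asIdeal := fun h => hw ((h2 _).1 h)
        rw [h1]
        exact dvd_sub (M2_place hs hw' hd (H w')) (M2_place hs hw hd (H w))
    · refine ⟨1, ?_⟩
      have e1 : ∀ h : C ≃ₐ[K] C, h (g d / d) = h (g d) / h d := fun h => map_div₀ h _ _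
      rw [one_pow, Finset.prod_congr rfl (fun h _ => e1 h), Finset.prod_div_distrib]
      have e2 : ∏ h ∈ univ.filter (fun h : C ≃ₐ[K] C => h s = s), h (g d) =
          ∏ h ∈ univ.filter (fun h : C ≃ₐ[K] C => h s = s), h d := by
        refine Finset.prod_bij (fun h _ => h * g) ?_ ?_ ?_ ?_
        · intro h hh
          rw [Finset.mem_filter] at hh ⊢
          refine ⟨mem_univ _, ?_⟩
          rw [AlgEquiv.mul_apply, hg]
          exact hh.2
        · intro h1 _ h2 _ h12
          exact mul_right_cancel h12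
        · intro h hh
          rw [Finset.mem_filter] at hh
          refine ⟨h * g⁻¹, ?_, ?_⟩
          · rw [Finset.mem_filter]
            refine ⟨mem_univ _, ?_⟩
            have h3 : g⁻¹ s = s := by
              conv_lhs => rw [← hg]
              exact g.symm_apply_apply s
            rw [AlgEquiv.mul_apply, h3]
            exact hh.2
          · rw [inv_mul_cancel_right]
        · intro h _
          rfl
      rw [e2]
      refine div_self ?_
      refine Finset.prod_ne_zero_iff.2 ?_
      intro h _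
      exact (map_ne_zero_iff _ h.injective).2 hd
    · intro g' hg'
      obtain ⟨y, hy⟩ := hJ g' hg'
      refine ⟨g y / y, ?_⟩
      have hc : g' (g d) = g (g' d) := by
        have := congrArg (fun h : C ≃ₐ[K] C => h d) (hab (g'.restrictScalars K) g)
        exact this
      have hy0 : y ≠ 0 := by
        rintro rfl
        rw [zero_pow three_ne_zero] at hy
        rcases mul_eq_zero.1 hy with h | h
        · exact hd ((map_eq_zero_iff _ g'.injective).1 h)
        · exact hd h
      have hg'd : g' d ≠ 0 := (map_ne_zero_iff _ g'.injective).2 hd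
      rw [div_pow, ← map_pow, ← hy, map_div₀, hc, map_mul]
      field_simp
  obtain ⟨y, hy⟩ := key
  refine ⟨y, ?_⟩
  rw [← hy]
  field_simp

end H55T3
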