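import Pool.Agent.H55.T3.Fin
import Pool.Agent.H10.Star

/-!
Definitions for the curves with a rational point of order three over `k` (MP_78d38b_T3, helper55; no row).

`W : y^2 = x^3 + (α x + β)^2` with the point `(0, β)` of order three, `α, β ∈ 𝓞 k`;
`V : y^2 = x^3 - 27 (α x + γ)^2`, `γ = 27 β - 4 α^3`, is `W` modulo the group of `(0, β)`.
With `a = α / 3`, `b = γ / 243` one has `9 b + 4 a^3 = β`, `W = cF a b` and `V` is `cE a b` up to the scaling by `9`.
-/

set_option autoImplicit false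
open scoped Classical

open WeierstrassCurve IsDedekindDomain NumberField Pool.Agent.H10 Pool.Agent.H11

namespace H55T3

/-- the members of the tower over `k` -/
def Lay (p : ℕ) (k L : Type) [Field k] [NumberField k] [Field L] [NumberField L]
    [Algebra k L] : Prop :=
  IsTotallyReal L ∧ ∃ n : ℕ, Nonempty (L →ₐ[k] CyclotomicField (p ^ (n + 1)) k)

/-- `y^2 = x^3 + (α x + β)^2` -/
def curW {K : Type} [Field K] (α β : K) : WeierstrassCurve K := ⟨0, α ^ 2, 0, 2 * α * β, β ^ 2⟩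

/-- `y^2 = x^3 - 27 (α x + γ)^2` -/
def curV {K : Type} [Field K] (α γ : K) : WeierstrassCurve K :=
  ⟨0, -27 * α ^ 2, 0, -54 * α * γ, -27 * γ ^ 2⟩

/-- The good places above three (for `v` unramified over three): for some `i` one has
`α = 3^(i+1) a`, `β = 27^i β₀`, `β₀ = 4 a^3 mod 9`, `a` and `β₀` integral at `v` and `β₀ ≠ 0 mod 27`. -/
def Good3 {k : Type} [Field k] [NumberField k] (v : HeightOneSpectrum (𝓞 k)) (α β : 𝓞 k) : Prop :=
  ∃ i : ℕ, α ∈ v.asIdeal ^ (i + 1) ∧ 27 * β - 4 * α ^ 3 ∈ v.asIdeal ^ (3 * i + 5) ∧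
    β ∉ v.asIdeal ^ (3 * i + 3)

/-- The same in terms of the valuation at a place of an extension `L`. -/
def GoodV {L : Type} [Field L] [NumberField L] (w : HeightOneSpectrum (𝓞 L)) (α β : L) : Prop :=
  ∃ i : ℕ, w.valuation L α ≤ WithZero.exp (-(i + 1 : ℤ)) ∧
    w.valuation L (27 * β - 4 * α ^ 3) ≤ WithZero.exp (-(3 * i + 5 : ℤ)) ∧
    WithZero.exp (-(3 * i + 3 : ℤ)) < w.valuation L β

lemma locSol_t {F : Type*} [Field F] {s a c a' c' t d : F} (ht : t ≠ 0)
    (ha : s * a = t * a') (hc : s * c = t ^ 3 * c') (H : LocSol s a c d) : LocSol 1 a' c' d := by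
  rcases H with h | ⟨U, V, h⟩
  · exact Or.inl h
  · refine Or.inr ⟨U / t, V / t, ?_⟩
    have ht3 : t ^ 3 ≠ 0 := pow_ne_zero 3 ht
    apply mul_left_cancel₀ ht3
    have e1 : t ^ 3 * (d ^ 2 * (V / t) ^ 3 - (U / t) ^ 3) = d ^ 2 * V ^ 3 - U ^ 3 := by
      field_simp
    have e2 : t ^ 3 * (d * 1 * (6 * a' * (U / t) * (V / t) + 2 * c')) =
        d * (6 * (t * a') * U * V + 2 * (t ^ 3 * c')) := by
      field_simp
    rw [e1, e2, h, ← ha, ← hc]
    ring

end H55T3
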