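import Pool.Agent.H55.T3.Pair2
import Pool.Agent.H55.T3.Kdf
import Pool.Agent.H55.T3.Y1
import Pool.Agent.H55.T3.Y2

/-! Pair form of block D for the curves with a rational point of order three over `K` (helper55). -/

set_option autoImplicit false
open scoped Classical

open WeierstrassCurve IsDedekindDomain NumberField Pool.Agent.H10 Pool.Agent.H11 H5SW

namespace H55T3

section

variable {k : Type} [Field k] [CharZero k] {α β : k}

lemma is3_W (hβ : β ≠ 0) (hγ : 27 * β - 4 * α ^ 3 ≠ 0) : Is3 (curW α β) (-3) (α / 3) (β / 3) where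
  a₁ := rfl
  a₂ := by simp only [curW]; ring
  a₃ := rfl
  a₄ := by simp only [curW]; ring
  a₆ := by simp only [curW]; ring
  hD := by norm_num
  hb := div_ne_zero hβ three_ne_zero
  hc := by
    have e : 9 * (β / 3) + 4 * (-3) * (α / 3) ^ 3 = (27 * β - 4 * α ^ 3) / 9 := by ring
    rw [e]
    exact div_ne_zero hγ (by norm_num)
  two := two_ne_zero
  three := three_ne_zero

lemma is3_V (hβ : β ≠ 0) (hγ : 27 * β - 4 * α ^ 3 ≠ 0) :
    Is3 (curV α (27 * β - 4 * α ^ 3)) 1 (3 * α) (3 * (27 * β - 4 * α ^ 3)) where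
  a₁ := rfl
  a₂ := by simp only [curV]; ring
  a₃ := rfl
  a₄ := by simp only [curV]; ring
  a₆ := by simp only [curV]; ring
  hD := one_ne_zero
  hb := mul_ne_zero three_ne_zero hγ
  hc := by
    have e : 9 * (3 * (27 * β - 4 * α ^ 3)) + 4 * 1 * (3 * α) ^ 3 = 729 * β := by ring
    rw [e]
    exact mul_ne_zero (by norm_num) hβ
  two := two_ne_zero
  three := three_ne_zero

lemma is3_V' (hβ : β ≠ 0) (hγ : 27 * β - 4 * α ^ 3 ≠ 0) :
    Is3 (curV (α / 3) ((27 * β - 4 * α ^ 3) / 27)) (-3 * -3) (α / 3) (dl (-3) (α / 3) (β / 3)) where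
  a₁ := rfl
  a₂ := by simp only [curV]; ring
  a₃ := rfl
  a₄ := by simp only [curV, dl]; ring
  a₆ := by simp only [curV, dl]; ring
  hD := by norm_num
  hb := by
    have e : dl (-3) (α / 3) (β / 3) = (27 * β - 4 * α ^ 3) / 27 := by unfold dl; ring
    rw [e]
    exact div_ne_zero hγ (by norm_num)
  hc := by
    have e : 9 * dl (-3) (α / 3) (β / 3) + 4 * (-3 * -3) * (α / 3) ^ 3 = 9 * β := by
      unfold dl; ring
    rw [e]
    exact mul_ne_zero (by norm_num) hβ
  two := two_ne_zero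
  three := three_ne_zero

lemma is3_W' (hβ : β ≠ 0) (hγ : 27 * β - 4 * α ^ 3 ≠ 0) :
    Is3 (curW (9 * α) (729 * β)) (-3 * 1) (3 * α) (dl 1 (3 * α) (3 * (27 * β - 4 * α ^ 3))) where
  a₁ := rfl
  a₂ := by simp only [curW]; ring
  a₃ := rfl
  a₄ := by simp only [curW, dl]; ring
  a₆ := by simp only [curW, dl]; ring
  hD := by norm_num
  hb := by
    have e : dl 1 (3 * α) (3 * (27 * β - 4 * α ^ 3)) = 243 * β := by unfold dl; ring
    rw [e]
    exact mul_ne_zero (by norm_num) hβ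
  hc := by
    have e : 9 * dl 1 (3 * α) (3 * (27 * β - 4 * α ^ 3)) + 4 * (-3 * 1) * (3 * α) ^ 3 =
        81 * (27 * β - 4 * α ^ 3) := by
      unfold dl; ring
    rw [e]
    exact mul_ne_zero (by norm_num) hγ
  two := two_ne_zero
  three := three_ne_zero

end

lemma locSol_t' {F : Type*} [Field F] {s a c a' c' t d : F} (ht : t ≠ 0)
    (ha : a = t * a') (hc : c = t ^ 3 * c') (H : LocSol s a c d) : LocSol s a' c' d := by
  rcases H with h | ⟨U, V, h⟩
  · exact Or.inl h
  · refine Or.inr ⟨U / t, V / t, ?_⟩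
    have ht3 : t ^ 3 ≠ 0 := pow_ne_zero 3 ht
    apply mul_left_cancel₀ ht3
    have e1 : t ^ 3 * (d ^ 2 * (V / t) ^ 3 - (U / t) ^ 3) = d ^ 2 * V ^ 3 - U ^ 3 := by
      field_simp
    have e2 : t ^ 3 * (d * s * (6 * a' * (U / t) * (V / t) + 2 * c')) =
        d * s * (6 * (t * a') * U * V + 2 * (t ^ 3 * c')) := by
      field_simp
    rw [e1, e2, h, ← ha, ← hc]

section kt

variable {K L : Type} [Field K] [NumberField K] [Field L] [NumberField L] [Algebra K L]
  [IsGalois K L] {α β : 𝓞 K}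

theorem kt_real (hodd : Odd (Module.finrank K L)) (R : NoNewCube K L)
    (hgood : ∀ w : HeightOneSpectrum (𝓞 L), (3 : 𝓞 L) ∈ w.asIdeal →
      GoodV w (algebraMap K L (α : K)) (algebraMap K L (β : K)))
    (hbad : ∀ v : HeightOneSpectrum (𝓞 K), 6 * β * (27 * β - 4 * α ^ 3) ∈ v.asIdeal →
      UniqueOver K L v.asIdeal)
    (hunr : ∀ w : HeightOneSpectrum (𝓞 L), (3 : 𝓞 L) ∈ w.asIdeal →
      w.valuation L 3 = WithZero.exp (-1 : ℤ)) {V : WeierstrassCurve K} {D a b s t : K}
    (h : Is3 V D a b) (hs : s ^ 2 = D) (ht : t ≠ 0) (ha : s * a = t * ((α : K) / 3))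
    (hc : s * (9 * b + 4 * D * a ^ 3) = t ^ 3 * β) :
    KT K L (V.baseChange L) (inv_up rfl) := by
  refine k5 h rfl hs ?_
  intro d hd H σ
  refine k5_arith3 hodd R hgood hbad hunr hd ?_ σ
  intro v
  have hv := H v
  rw [map_one]
  refine locSol_t (t := algebraMap L (v.adicCompletion L) (algebraMap K L t)) ?_ ?_ ?_ hv
  · rw [Ne, map_eq_zero, map_eq_zero]
    exact ht
  · rw [← map_mul, ← map_mul, ha, map_mul, map_mul]
  · rw [← map_mul, ← map_mul, hc, map_mul, map_mul, map_pow, map_pow]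

variable {C : Type} [Field C]
  [NumberField C] [Algebra L C] [Algebra K C] [IsScalarTower K L C]
  [IsGalois K C] [IsGalois L C]

theorem kt_minus (hodd : Odd (Module.finrank K L)) (h3n : ¬ 3 ∣ Module.finrank K L) {s : C}
    (hs : s ^ 2 = -3) (hgen : ∀ g : C ≃ₐ[L] C, g s = s → g = 1)
    (hneg : ∃ g : C ≃ₐ[L] C, g s = -s) (hab : ∀ g g' : C ≃ₐ[K] C, g * g' = g' * g)
    (R : NoNewMinus K L C s) {γ : 𝓞 K} (hγ : γ ≠ 0)
    (hbad : ∀ v : HeightOneSpectrum (𝓞 K), 6 * γ ∈ v.asIdeal →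
      UniqueOver K L v.asIdeal) {V : WeierstrassCurve K} {a b t : K}
    (h : Is3 V (-3) a b) (ht : t ≠ 0) (ha : a = t * ((α : K) / 3))
    (hc : 9 * b + 4 * (-3) * a ^ 3 = t ^ 3 * ((γ : K) / 9)) :
    KT K L (V.baseChange L) (inv_up rfl) := by
  have hs0 : s ≠ 0 := by
    rintro rfl
    have h3 : (3 : C) ≠ 0 := three_ne_zero
    apply h3
    linear_combination hs
  obtain ⟨J, hJ⟩ := hneg
  have hval : ∀ g : C ≃ₐ[K] C, g s = s ∨ g s = -s := by
    intro g
    have h1 : (g s) ^ 2 = s ^ 2 := by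
      rw [← map_pow, hs, map_neg, map_ofNat]
    exact sq_eq_sq_iff_eq_or_eq_neg.mp h1
  have hordd : ∀ g : C ≃ₐ[K] C, g s = s → Odd (orderOf g) := by
    intro g hg
    have h1 : g ^ Module.finrank K L = 1 := by
      have h2 : AlgEquiv.restrictNormalHom (F := K) (K₁ := C) L g ^ Module.finrank K L = 1 := by
        rw [← IsGalois.card_aut_eq_finrank K L]
        exact pow_card_eq_one'
      rw [← map_pow] at h2
      have h3 : ∀ x : L, (g ^ Module.finrank K L) (algebraMap L C x) = algebraMap L C x := by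
        intro x
        have h4 := AlgEquiv.restrictNormal_commutes (g ^ Module.finrank K L) L x
        have h5 : (g ^ Module.finrank K L).restrictNormal L = 1 := h2
        rw [h5] at h4
        exact h4.symm
      have h4 := hgen (K6a_mk (g ^ Module.finrank K L) h3) (by
        change (g ^ Module.finrank K L) s = s
        have : ∀ n : ℕ, (g ^ n) s = s := by
          intro n
          induction n with
          | zero => simp
          | succ n ih => rw [pow_succ', AlgEquiv.mul_apply, ih, hg]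
        exact this _)
      have h6 : (g ^ Module.finrank K L) = (K6a_mk (g ^ Module.finrank K L) h3).restrictScalars K := rfl
      rw [h6, h4]
      rfl
    exact hodd.of_dvd_nat (orderOf_dvd_of_pow_eq_one h1)
  refine k6 (C := C) h rfl h3n hs hab {g | g s = s} (fun g hg => hg) ?_ ?_
  · intro t
    obtain ⟨g, hg⟩ : ∃ g : C ≃ₐ[K] C, ∀ x : L, g (algebraMap L C x) = algebraMap L C (t x) :=
      ⟨t.liftNormal C, fun x => t.liftNormal_commutes C x⟩
    rcases hval g with h | h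
    · exact ⟨g, h, hg⟩
    · refine ⟨g * J.restrictScalars K, ?_, fun x => ?_⟩
      · change g (J s) = s
        rw [hJ, map_neg, h, neg_neg]
      · change g (J (algebraMap L C x)) = _
        rw [J.commutes, hg]
  · intro d hd H _ hJ' g hg
    refine minus_pair3 (α := α) hs hgen hab R hγ hbad hd ?_ hJ' hg (hordd g hg)
    intro v
    have hv := H v
    refine locSol_t' (t := algebraMap C (v.adicCompletion C) (algebraMap K C t)) ?_ ?_ ?_ hv
    · rw [Ne, map_eq_zero, map_eq_zero]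
      exact ht
    · rw [ha, map_mul, map_mul]
    · rw [hc, map_mul, map_mul, map_pow, map_pow]

lemma coe_gamma : ((27 * β - 4 * α ^ 3 : 𝓞 K) : K) = 27 * (β : K) - 4 * (α : K) ^ 3 := by
  have h : algebraMap (𝓞 K) K (27 * β - 4 * α ^ 3) = 27 * (β : K) - 4 * (α : K) ^ 3 := by
    rw [map_sub, map_mul, map_mul, map_pow, map_ofNat, map_ofNat]
  exact h

/-- Block D for a pair of fields. -/
theorem ct3_pair3 (hodd : Odd (Module.finrank K L)) (h3n : ¬ 3 ∣ Module.finrank K L)
    (RR : NoNewCube K L) {s : C} (hs : s ^ 2 = -3) (hgen : ∀ g : C ≃ₐ[L] C, g s = s → g = 1)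
    (hneg : ∃ g : C ≃ₐ[L] C, g s = -s) (hab : ∀ g g' : C ≃ₐ[K] C, g * g' = g' * g)
    (R : NoNewMinus K L C s) (hβ : β ≠ 0) (hγ : 27 * β - 4 * α ^ 3 ≠ 0)
    (hgood : ∀ w : HeightOneSpectrum (𝓞 L), (3 : 𝓞 L) ∈ w.asIdeal →
      GoodV w (algebraMap K L (α : K)) (algebraMap K L (β : K)))
    (hbad : ∀ v : HeightOneSpectrum (𝓞 K), 6 * β * (27 * β - 4 * α ^ 3) ∈ v.asIdeal →
      UniqueOver K L v.asIdeal)
    (hunr : ∀ w : HeightOneSpectrum (𝓞 L), (3 : 𝓞 L) ∈ w.asIdeal →
      w.valuation L 3 = WithZero.exp (-1 : ℤ)) (E : WeierstrassCurve K)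
    (hE : E = curW (α : K) (β : K) ∨ E = curV (α : K) (27 * (β : K) - 4 * (α : K) ^ 3)) :
    (E.baseChange L).IsElliptic ∧ CT3 K L (E.baseChange L) (inv_up rfl) := by
  have hβ' : (β : K) ≠ 0 := coe_ne hβ
  have hγ' : 27 * (β : K) - 4 * (α : K) ^ 3 ≠ 0 := by
    rw [← coe_gamma]
    exact coe_ne hγ
  have hbad' : ∀ v : HeightOneSpectrum (𝓞 K), 6 * (27 * β - 4 * α ^ 3) ∈ v.asIdeal →
      UniqueOver K L v.asIdeal := by
    intro v hv
    apply hbad v
    have e : 6 * β * (27 * β - 4 * α ^ 3) = β * (6 * (27 * β - 4 * α ^ 3)) := by ring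
    rw [e]
    exact v.asIdeal.mul_mem_left _ hv
  rcases hE with rfl | rfl
  · have hE := is3_W hβ' hγ'
    have hV := is3_V' hβ' hγ'
    refine ⟨(hE.up (φ := algebraMap K L) rfl).isElliptic, i0 h3n hE hV rfl rfl ?_ ?_⟩
    · refine kt_minus (α := α) hodd h3n hs hgen hneg hab R hγ hbad' hE (t := 1) one_ne_zero
        (by ring) ?_
      rw [coe_gamma]
      ring
    · refine kt_real hodd RR hgood hbad hunr hV (s := 3) (t := 3) (by norm_num) three_ne_zero
        (by ring) ?_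
      unfold dl
      ring
  · have hE := is3_V hβ' hγ'
    have hW := is3_W' hβ' hγ'
    have hW2 : Is3 (curW (9 * (α : K)) (729 * (β : K))) (-3) (3 * (α : K))
        (dl 1 (3 * (α : K)) (3 * (27 * (β : K) - 4 * (α : K) ^ 3))) := by
      have := hW
      rwa [mul_one] at this
    refine ⟨(hE.up (φ := algebraMap K L) rfl).isElliptic, i0 h3n hE hW rfl rfl ?_ ?_⟩
    · refine kt_real hodd RR hgood hbad hunr hE (s := 1) (t := 9) (by norm_num) (by norm_num)
        (by ring) ?_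
      ring
    · refine kt_minus (α := α) hodd h3n hs hgen hneg hab R hγ hbad' hW2 (t := 9) (by norm_num)
        (by ring) ?_
      rw [coe_gamma]
      unfold dl
      ring

end kt

end H55T3
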