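import Pool.Agent.H55.T3.D1r
import Pool.Agent.H55.T3.M2
import Pool.Agent.H55.T3.K7
import Pool.Agent.H55.T3.Pair3

/-! Pair form of block D for the curves with a rational subgroup of order three (helper55). -/

set_option autoImplicit false
open scoped Classical

open WeierstrassCurve IsDedekindDomain NumberField Pool.Agent.H10 Pool.Agent.H11

namespace H55T3

section

variable {k : Type} [Field k] [CharZero k] {D α β : k}

lemma is3_WD (hD : D ≠ 0) (hβ : β ≠ 0) (hγ : 27 * β - 4 * D * α ^ 3 ≠ 0) :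
    Is3 (curWD D α β) (-3 * D) (α / 3) (β / 3) where
  a₁ := rfl
  a₂ := by simp only [curWD]; ring
  a₃ := rfl
  a₄ := by simp only [curWD]; ring
  a₆ := by simp only [curWD]; ring
  hD := mul_ne_zero (by norm_num) hD
  hb := div_ne_zero hβ three_ne_zero
  hc := by
    have e : 9 * (β / 3) + 4 * (-3 * D) * (α / 3) ^ 3 = (27 * β - 4 * D * α ^ 3) / 9 := by ring
    rw [e]
    exact div_ne_zero hγ (by norm_num)
  two := two_ne_zero
  three := three_ne_zero

lemma is3_VD (hD : D ≠ 0) (hβ : β ≠ 0) (hγ : 27 * β - 4 * D * α ^ 3 ≠ 0) :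
    Is3 (curVD D α (27 * β - 4 * D * α ^ 3)) D (3 * α) (3 * (27 * β - 4 * D * α ^ 3)) where
  a₁ := rfl
  a₂ := by simp only [curVD]; ring
  a₃ := rfl
  a₄ := by simp only [curVD]; ring
  a₆ := by simp only [curVD]; ring
  hD := hD
  hb := mul_ne_zero three_ne_zero hγ
  hc := by
    have e : 9 * (3 * (27 * β - 4 * D * α ^ 3)) + 4 * D * (3 * α) ^ 3 = 729 * β := by ring
    rw [e]
    exact mul_ne_zero (by norm_num) hβ
  two := two_ne_zero
  three := three_ne_zero

lemma is3_VD' (hD : D ≠ 0) (hβ : β ≠ 0) (hγ : 27 * β - 4 * D * α ^ 3 ≠ 0) :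
    Is3 (curVD D (α / 3) ((27 * β - 4 * D * α ^ 3) / 27)) (-3 * (-3 * D)) (α / 3)
      (dl (-3 * D) (α / 3) (β / 3)) where
  a₁ := rfl
  a₂ := by simp only [curVD]; ring
  a₃ := rfl
  a₄ := by simp only [curVD, dl]; ring
  a₆ := by simp only [curVD, dl]; ring
  hD := mul_ne_zero (by norm_num) (mul_ne_zero (by norm_num) hD)
  hb := by
    have e : dl (-3 * D) (α / 3) (β / 3) = (27 * β - 4 * D * α ^ 3) / 27 := by unfold dl; ring
    rw [e]
    exact div_ne_zero hγ (by norm_num)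
  hc := by
    have e : 9 * dl (-3 * D) (α / 3) (β / 3) + 4 * (-3 * (-3 * D)) * (α / 3) ^ 3 = 9 * β := by
      unfold dl; ring
    rw [e]
    exact mul_ne_zero (by norm_num) hβ
  two := two_ne_zero
  three := three_ne_zero

lemma is3_WD' (hD : D ≠ 0) (hβ : β ≠ 0) (hγ : 27 * β - 4 * D * α ^ 3 ≠ 0) :
    Is3 (curWD D (9 * α) (729 * β)) (-3 * D) (3 * α)
      (dl D (3 * α) (3 * (27 * β - 4 * D * α ^ 3))) where
  a₁ := rfl
  a₂ := by simp only [curWD]; ring
  a₃ := rfl
  a₄ := by simp only [curWD, dl]; ring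
  a₆ := by simp only [curWD, dl]; ring
  hD := mul_ne_zero (by norm_num) hD
  hb := by
    have e : dl D (3 * α) (3 * (27 * β - 4 * D * α ^ 3)) = 243 * β := by unfold dl; ring
    rw [e]
    exact mul_ne_zero (by norm_num) hβ
  hc := by
    have e : 9 * dl D (3 * α) (3 * (27 * β - 4 * D * α ^ 3)) + 4 * (-3 * D) * (3 * α) ^ 3 =
        81 * (27 * β - 4 * D * α ^ 3) := by
      unfold dl; ring
    rw [e]
    exact mul_ne_zero (by norm_num) hγ
  two := two_ne_zero
  three := three_ne_zero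

end

lemma locSol_tt {F : Type*} [Field F] {s a c s' a' c' t d : F} (ht : t ≠ 0)
    (ha : s * a = t * (s' * a')) (hc : s * c = t ^ 3 * (s' * c')) (H : LocSol s a c d) :
    LocSol s' a' c' d := by
  rcases H with h | ⟨U, V, h⟩
  · exact Or.inl h
  · refine Or.inr ⟨U / t, V / t, ?_⟩
    have ht3 : t ^ 3 ≠ 0 := pow_ne_zero 3 ht
    apply mul_left_cancel₀ ht3
    have e1 : t ^ 3 * (d ^ 2 * (V / t) ^ 3 - (U / t) ^ 3) = d ^ 2 * V ^ 3 - U ^ 3 := by
      field_simp
    have e2 : t ^ 3 * (d * s' * (6 * a' * (U / t) * (V / t) + 2 * c')) =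
        d * (6 * (t * (s' * a')) * U * V + 2 * (t ^ 3 * (s' * c'))) := by
      field_simp
    rw [e1, e2, h, ← ha, ← hc]
    ring

lemma locM_t {F : Type*} [Field F] {D₁ a₁ c₁ D₂ a₂ c₂ t u d₁ d₂ : F} (ht : t ≠ 0)
    (hD : D₁ = u ^ 2 * D₂) (ha : u * a₁ = t * a₂) (hc : u * c₁ = t ^ 3 * c₂) (hu : u ≠ 0)
    (H : LocM D₁ a₁ c₁ d₁ d₂) : LocM D₂ a₂ c₂ d₁ (u * d₂) := by
  rcases H with ⟨t₁, t₂, h1, h2⟩ | ⟨x, y, v₁, v₂, e₁, e₂, h1, h2, ⟨h3, h4⟩, h5, h6⟩
  · refine Or.inl ⟨t₁, u * t₂, ?_, ?_⟩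
    · rw [h1, hD]; ring
    · rw [h2, hD]; ring
  · refine Or.inr ⟨x / t ^ 2, y / t ^ 3, v₁ / t, u * v₂ / t, e₁ / t ^ 3, u * e₂ / t ^ 3, ?_, ?_,
      ⟨?_, ?_⟩, ?_, ?_⟩
    · have ht6 : t ^ 6 ≠ 0 := pow_ne_zero 6 ht
      apply mul_left_cancel₀ ht6
      have e1 : t ^ 6 * (y / t ^ 3) ^ 2 = y ^ 2 := by field_simp
      have e2 : t ^ 6 * ((x / t ^ 2) ^ 3 + D₂ * (3 * a₂ * (x / t ^ 2) + c₂) ^ 2) =
          x ^ 3 + D₂ * (3 * (t * a₂) * x + t ^ 3 * c₂) ^ 2 := by field_simp
      rw [e1, e2, h1, ← ha, ← hc, hD]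
      ring
    · rcases h2 with h | h
      · exact Or.inl (div_ne_zero h ht)
      · exact Or.inr (div_ne_zero (mul_ne_zero hu h) ht)
    · rw [h3, hD]
      field_simp
    · rw [h4, hD]
      field_simp
    · rw [← h5, hD]
      field_simp
    · have ht3 : t ^ 3 ≠ 0 := pow_ne_zero 3 ht
      apply mul_left_cancel₀ ht3
      have e1 : t ^ 3 * (d₁ * (u * e₂ / t ^ 3) + u * d₂ * (e₁ / t ^ 3)) =
          u * (d₁ * e₂ + d₂ * e₁) := by
        field_simp
      have e2 : t ^ 3 * (3 * a₂ * (x / t ^ 2) + c₂) = 3 * (t * a₂) * x + t ^ 3 * c₂ := by field_simp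
      rw [e1, e2, h6, ← ha, ← hc]
      ring

lemma finM_t {L B : Type} [Field L] [NumberField L] [Field B] [Algebra L B] {s s' : B}
    {D₁ a₁ c₁ D₂ a₂ c₂ t u : L} {d : B} (ht : t ≠ 0)
    (hD : D₁ = u ^ 2 * D₂) (ha : u * a₁ = t * a₂) (hc : u * c₁ = t ^ 3 * c₂) (hu : u ≠ 0)
    (hs : s' = algebraMap L B u * s) (H : FinM s' D₁ a₁ c₁ d) : FinM s D₂ a₂ c₂ d := by
  intro d₁ d₂ hd v hv
  have h1 := H d₁ (d₂ / u) (by
    rw [hd, hs, map_div₀]
    have : algebraMap L B u ≠ 0 := (map_ne_zero_iff _ (algebraMap L B).injective).2 hu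
    field_simp) v (by
    intro z hz
    have hu' : algebraMap L (v.adicCompletion L) u ≠ 0 :=
      (map_ne_zero_iff _ (algebraMap L (v.adicCompletion L)).injective).2 hu
    refine hv (z / algebraMap L (v.adicCompletion L) u) ?_
    rw [div_pow, hz, hD, map_mul, map_pow]
    field_simp)
  have h2 := locM_t (t := algebraMap L (v.adicCompletion L) t)
    (u := algebraMap L (v.adicCompletion L) u)
    (D₂ := algebraMap L (v.adicCompletion L) D₂) (a₂ := algebraMap L (v.adicCompletion L) a₂)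
    (c₂ := algebraMap L (v.adicCompletion L) c₂)
    ((map_ne_zero_iff _ (algebraMap L (v.adicCompletion L)).injective).2 ht)
    (by rw [hD, map_mul, map_pow]) (by rw [← map_mul, ← map_mul, ha])
    (by rw [← map_mul, ← map_pow, ← map_mul, hc])
    ((map_ne_zero_iff _ (algebraMap L (v.adicCompletion L)).injective).2 hu) h1
  rw [← map_mul] at h2
  have e : u * (d₂ / u) = d₂ := by field_simp
  rwa [e] at h2

/-- automorphisms which fix `s` have odd order -/
lemma ord_odd {K L C : Type} [Field K] [NumberField K] [Field L] [NumberField L] [Field C]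
    [NumberField C] [Algebra K L] [Algebra L C] [Algebra K C] [IsScalarTower K L C] [IsGalois K L]
    [IsGalois K C] [IsGalois L C] (hodd : Odd (Module.finrank K L)) {s : C}
    (hgen : ∀ g : C ≃ₐ[L] C, g s = s → g = 1) {g : C ≃ₐ[K] C} (hg : g s = s) :
    Odd (orderOf g) := by
  have h1 : g ^ Module.finrank K L = 1 := by
    have h2 : AlgEquiv.restrictNormalHom (F := K) (K₁ := C) L g ^ Module.finrank K L = 1 := by
      rw [← IsGalois.card_aut_eq_finrank K L]
      exact pow_card_eq_one'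
    rw [← map_pow] at h2
    have h3 : ∀ x : L, (g ^ Module.finrank K L) (algebraMap L C x) = algebraMap L C x := by
      intro x
      have h4 := AlgEquiv.restrictNormal_commutes (g ^ Module.finrank K L) L x
      have h5 : (g ^ Module.finrank K L).restrictNormal L = 1 := h2
      rw [h5] at h4
      exact h4.symm
    have h4 := hgen (K6a_mk (g ^ Module.finrank K L) h3) (by
      change (g ^ Module.finrank K L) s = s
      have : ∀ n : ℕ, (g ^ n) s = s := by
        intro n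
        induction n with
        | zero => simp
        | succ n ih => rw [pow_succ', AlgEquiv.mul_apply, ih, hg]
      exact this _)
    have h6 : (g ^ Module.finrank K L) = (K6a_mk (g ^ Module.finrank K L) h3).restrictScalars K := rfl
    rw [h6, h4]
    rfl
  exact hodd.of_dvd_nat (orderOf_dvd_of_pow_eq_one h1)

section kt

variable {K L : Type} [Field K] [NumberField K] [Field L] [NumberField L] [Algebra K L]
  [IsGalois K L]

theorem kt_realD {A B : Type} [Field A] [NumberField A] [Field B] [NumberField B] [Algebra L B]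
    [Algebra K B] [IsScalarTower K L B] [Algebra K A] [Algebra A B] [IsScalarTower K A B]
    [IsGalois K B] [IsGalois L B] (hodd : Odd (Module.finrank K L)) {D : ℤ} (hD9 : ¬ 9 ∣ D) {s : B}
    (hs : s ^ 2 = (D : B))
    (h2 : Module.finrank L B = 2) (hgen : ∀ g : B ≃ₐ[L] B, g s = s → g = 1)
    (hneg : ∃ g : B ≃ₐ[L] B, g s = -s)
    (hA : ∀ g : B ≃ₐ[K] B, g s = s → ∀ x : A, g (algebraMap A B x) = algebraMap A B x)
    (R : NoNewCubeM L A B s) {α β : 𝓞 K}
    (hgood : ∀ w : HeightOneSpectrum (𝓞 L), (3 : 𝓞 L) ∈ w.asIdeal →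
      GoodVD (w.valuation L) D (algebraMap K L (α : K)) (algebraMap K L (β : K)))
    (hbad : ∀ v : HeightOneSpectrum (𝓞 K), 6 * (D : 𝓞 K) * β * (27 * β - 4 * D * α ^ 3) ∈ v.asIdeal →
      UniqueOver K L v.asIdeal)
    (hunr : ∀ w : HeightOneSpectrum (𝓞 L), (3 : 𝓞 L) ∈ w.asIdeal →
      w.valuation L 3 = WithZero.exp (-1 : ℤ)) {V : WeierstrassCurve K} {D' a b u t : K}
    (h : Is3 V D' a b) (hD' : D' = u ^ 2 * (D : K)) (hu : u ≠ 0) (ht : t ≠ 0)
    (ha : u * a = t * ((α : K) / 3)) (hc : u * (9 * b + 4 * D' * a ^ 3) = t ^ 3 * β) :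
    KT K L (V.baseChange L) (inv_up rfl) := by
  have huB : algebraMap K B u ≠ 0 := (map_ne_zero_iff _ (algebraMap K B).injective).2 hu
  have hKB : ∀ (g : B ≃ₐ[L] B) (x : K), g (algebraMap K B x) = algebraMap K B x := by
    intro g x
    rw [IsScalarTower.algebraMap_apply K L B, g.commutes]
  refine k7 (B := B) (s := algebraMap K B u * s) h rfl ?_ h2 ?_ ?_ ?_
  · rw [hD', map_mul, mul_pow, hs, map_pow, map_intCast]
  · intro g hg
    apply hgen
    rw [map_mul, hKB] at hg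
    exact mul_left_cancel₀ huB hg
  · obtain ⟨g, hg⟩ := hneg
    exact ⟨g, by rw [map_mul, hKB, hg, mul_neg]⟩
  · intro d hd H HM hJ g hg
    have hg' : g s = s := by
      rw [map_mul, g.commutes] at hg
      exact mul_left_cancel₀ huB hg
    refine k5_arithD (A := A) hD9 hs h2 hgen hA R hgood hbad hunr hd ?_ ?_ ?_ hg' (ord_odd hodd hgen hg')
    · intro v
      have hv := H v
      refine locSol_tt (t := algebraMap B (v.adicCompletion B) (algebraMap K B t)) ?_ ?_ ?_ hv
      · rw [Ne, map_eq_zero, map_eq_zero]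
        exact ht
      · rw [← map_mul, ← map_mul, ← map_mul]
        congr 1
        rw [mul_right_comm, ← map_mul, ha, map_mul]
        ring
      · rw [← map_mul, ← map_mul, ← map_pow, ← map_mul]
        congr 1
        rw [mul_right_comm, ← map_mul, hc, map_mul, map_pow]
        ring
    · refine finM_t (t := algebraMap K L t) (u := algebraMap K L u)
        ((map_ne_zero_iff _ (algebraMap K L).injective).2 ht) ?_ ?_ ?_
        ((map_ne_zero_iff _ (algebraMap K L).injective).2 hu) ?_ HM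
      · rw [hD', map_mul, map_pow, map_intCast]
      · rw [← map_mul, ← map_mul, ha]
      · rw [← map_mul, ← map_pow, ← map_mul, hc]
      · rw [← IsScalarTower.algebraMap_apply]
    · intro g' hg'
      exact hJ g' (by rw [map_mul, hKB, hg', mul_neg])

variable {C : Type} [Field C]
  [NumberField C] [Algebra L C] [Algebra K C] [IsScalarTower K L C]
  [IsGalois K C] [IsGalois L C]

theorem kt_minusD (hodd : Odd (Module.finrank K L)) {D : 𝓞 K} (hD : D ≠ 0) {s : C}
    (hs : s ^ 2 = algebraMap K C (-3 * (D : K))) (h2 : Module.finrank L C = 2)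
    (hgen : ∀ g : C ≃ₐ[L] C, g s = s → g = 1)
    (hneg : ∃ g : C ≃ₐ[L] C, g s = -s) (hab : ∀ g g' : C ≃ₐ[K] C, g * g' = g' * g)
    (R : NoNewMinus K L C s) {α γ : 𝓞 K} (hγ : γ ≠ 0)
    (hbad : ∀ v : HeightOneSpectrum (𝓞 K), 6 * D * γ ∈ v.asIdeal →
      UniqueOver K L v.asIdeal) {V : WeierstrassCurve K} {D' a b u t : K}
    (h : Is3 V D' a b) (hD' : D' = u ^ 2 * (-3 * (D : K))) (hu : u ≠ 0) (ht : t ≠ 0)
    (ha : u * a = t * ((α : K) / 3))
    (hc : u * (9 * b + 4 * D' * a ^ 3) = t ^ 3 * ((γ : K) / 9)) :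
    KT K L (V.baseChange L) (inv_up rfl) := by
  have huB : algebraMap K C u ≠ 0 := (map_ne_zero_iff _ (algebraMap K C).injective).2 hu
  have hKB : ∀ (g : C ≃ₐ[L] C) (x : K), g (algebraMap K C x) = algebraMap K C x := by
    intro g x
    rw [IsScalarTower.algebraMap_apply K L C, g.commutes]
  refine k7 (B := C) (s := algebraMap K C u * s) h rfl ?_ h2 ?_ ?_ ?_
  · rw [hD', map_mul, mul_pow, hs, map_pow]
  · intro g hg
    apply hgen
    rw [map_mul, hKB] at hg
    exact mul_left_cancel₀ huB hg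
  · obtain ⟨g, hg⟩ := hneg
    exact ⟨g, by rw [map_mul, hKB, hg, mul_neg]⟩
  · intro d hd H HM hJ g hg
    have hg' : g s = s := by
      rw [map_mul, g.commutes] at hg
      exact mul_left_cancel₀ huB hg
    refine minus_pairD (α := α) hD hs hgen hab R hγ hbad hd ?_ ?_ hg' (ord_odd hodd hgen hg')
    · intro v
      have hv := H v
      refine locSol_tt (t := algebraMap C (v.adicCompletion C) (algebraMap K C t)) ?_ ?_ ?_ hv
      · rw [Ne, map_eq_zero, map_eq_zero]
        exact ht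
      · rw [← map_mul, ← map_mul, ← map_mul]
        congr 1
        rw [mul_right_comm, ← map_mul, ha, map_mul]
        ring
      · rw [← map_mul, ← map_mul, ← map_pow, ← map_mul]
        congr 1
        rw [mul_right_comm, ← map_mul, hc, map_mul, map_pow]
        ring
    · intro g' hg'
      exact hJ g' (by rw [map_mul, hKB, hg', mul_neg])

lemma coe_gammaD {D : ℤ} {α β : 𝓞 K} :
    ((27 * β - 4 * (D : 𝓞 K) * α ^ 3 : 𝓞 K) : K) = 27 * (β : K) - 4 * (D : K) * (α : K) ^ 3 := by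
  have h : algebraMap (𝓞 K) K (27 * β - 4 * D * α ^ 3) = 27 * (β : K) - 4 * (D : K) * (α : K) ^ 3 := by
    rw [map_sub, map_mul, map_mul, map_mul, map_pow, map_ofNat, map_ofNat, map_intCast]
  exact h

/-- Block D for a pair of fields and a curve with a rational subgroup of order three. -/
theorem ct3_pairD {A B : Type} [Field A] [NumberField A] [Field B] [NumberField B] [Algebra L B]
    [Algebra K B] [IsScalarTower K L B] [Algebra K A] [Algebra A B] [IsScalarTower K A B]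
    [IsGalois K B] [IsGalois L B] (hodd : Odd (Module.finrank K L))
    (h3n : ¬ 3 ∣ Module.finrank K L) {D : ℤ} (hD9 : ¬ 9 ∣ D)
    {s : B} (hs : s ^ 2 = (D : B))
    (h2 : Module.finrank L B = 2) (hgen : ∀ g : B ≃ₐ[L] B, g s = s → g = 1)
    (hneg : ∃ g : B ≃ₐ[L] B, g s = -s)
    (hA : ∀ g : B ≃ₐ[K] B, g s = s → ∀ x : A, g (algebraMap A B x) = algebraMap A B x)
    (RR : NoNewCubeM L A B s) {s' : C} (hs' : s' ^ 2 = -3 * (D : C))
    (h2' : Module.finrank L C = 2)
    (hgen' : ∀ g : C ≃ₐ[L] C, g s' = s' → g = 1)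
    (hneg' : ∃ g : C ≃ₐ[L] C, g s' = -s') (hab : ∀ g g' : C ≃ₐ[K] C, g * g' = g' * g)
    (R : NoNewMinus K L C s') {α β : 𝓞 K} (hβ : β ≠ 0) (hγ : 27 * β - 4 * (D : 𝓞 K) * α ^ 3 ≠ 0)
    (hgood : ∀ w : HeightOneSpectrum (𝓞 L), (3 : 𝓞 L) ∈ w.asIdeal →
      GoodVD (w.valuation L) D (algebraMap K L (α : K)) (algebraMap K L (β : K)))
    (hbad : ∀ v : HeightOneSpectrum (𝓞 K), 6 * (D : 𝓞 K) * β * (27 * β - 4 * D * α ^ 3) ∈ v.asIdeal →
      UniqueOver K L v.asIdeal)
    (hunr : ∀ w : HeightOneSpectrum (𝓞 L), (3 : 𝓞 L) ∈ w.asIdeal →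
      w.valuation L 3 = WithZero.exp (-1 : ℤ)) (E : WeierstrassCurve K)
    (hE : E = curWD (D : K) (α : K) (β : K) ∨
      E = curVD (D : K) (α : K) (27 * (β : K) - 4 * (D : K) * (α : K) ^ 3)) :
    (E.baseChange L).IsElliptic ∧ CT3 K L (E.baseChange L) (inv_up rfl) := by
  have hD0 : D ≠ 0 := by
    rintro rfl
    exact hD9 (dvd_zero 9)
  have hDK : (D : K) ≠ 0 := Int.cast_ne_zero.2 hD0
  have hDO : (D : 𝓞 K) ≠ 0 := Int.cast_ne_zero.2 hD0
  have hβ' : (β : K) ≠ 0 := coe_ne hβ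
  have hγ' : 27 * (β : K) - 4 * (D : K) * (α : K) ^ 3 ≠ 0 := by
    rw [← coe_gammaD]
    exact coe_ne hγ
  have hcD : ((D : 𝓞 K) : K) = (D : K) := map_intCast (algebraMap (𝓞 K) K) D
  have hsC : s' ^ 2 = algebraMap K C (-3 * ((D : 𝓞 K) : K)) := by
    rw [hs', hcD, map_mul, map_neg, map_ofNat, map_intCast]
  have hbad' : ∀ v : HeightOneSpectrum (𝓞 K),
      6 * (D : 𝓞 K) * (27 * β - 4 * D * α ^ 3) ∈ v.asIdeal → UniqueOver K L v.asIdeal := by
    intro v hv
    apply hbad v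
    have e : 6 * (D : 𝓞 K) * β * (27 * β - 4 * D * α ^ 3) =
        β * (6 * (D : 𝓞 K) * (27 * β - 4 * D * α ^ 3)) := by ring
    rw [e]
    exact v.asIdeal.mul_mem_left _ hv
  rcases hE with rfl | rfl
  · have hE := is3_WD hDK hβ' hγ'
    have hV := is3_VD' hDK hβ' hγ'
    refine ⟨(hE.up (φ := algebraMap K L) rfl).isElliptic, i0 h3n hE hV rfl rfl ?_ ?_⟩
    · refine kt_minusD (α := α) hodd hDO hsC h2' hgen' hneg' hab R hγ hbad' hE (u := 1) (t := 1)
        ?_ one_ne_zero one_ne_zero (by ring) ?_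
      · rw [hcD]; ring
      · rw [coe_gammaD]
        ring
    · refine kt_realD (A := A) hodd hD9 hs h2 hgen hneg hA RR hgood hbad hunr hV (u := 3) (t := 3)
        (by ring) three_ne_zero three_ne_zero (by ring) ?_
      unfold dl
      ring
  · have hE := is3_VD hDK hβ' hγ'
    have hW := is3_WD' hDK hβ' hγ'
    refine ⟨(hE.up (φ := algebraMap K L) rfl).isElliptic, i0 h3n hE hW rfl rfl ?_ ?_⟩
    · refine kt_realD (A := A) hodd hD9 hs h2 hgen hneg hA RR hgood hbad hunr hE (u := 1) (t := 9)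
        (by ring) one_ne_zero (by norm_num) (by ring) ?_
      ring
    · refine kt_minusD (α := α) hodd hDO hsC h2' hgen' hneg' hab R hγ hbad' hW (u := 1) (t := 9)
        ?_ one_ne_zero (by norm_num) (by ring) ?_
      · rw [hcD]; ring
      · rw [coe_gammaD]
        unfold dl
        ring

end kt

end H55T3
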