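import Mathlib

/-!
Row Me (about 100 lines): an element with all valuations divisible by three is `y b^3` with `(y) = I^3`. Self contained; copy of `Pool/Agent/H10/Class.lean` (there for squares).

PROOF. `e = a / b`, `a, b : 𝓞 C` nonzero (`IsFractionRing.div_surjective`). `y = a * b ^ 2`, `e = y * (b⁻¹)^3`. For a prime `v`: `v.valuation y = v.valuation e * v.valuation b ^ 3`, so
`3 ∣ log`, and `v.intValuation_eq_exp_neg_multiplicity` gives `3 ∣ multiplicity v.asIdeal (span {y})` (exactly as in `exists_unit_mul_sq`). Then, as in `exists_unit_mul_sq_int`,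
`Multiset.exists_smul_of_dvd_count (normalizedFactors (span {y})) (k := 3)` gives `u` with `3 • u = normalizedFactors`, `I = u.prod`, `I^3 = span {y}`, `I ≠ ⊥` as `y ≠ 0`.
-/

set_option autoImplicit false

open IsDedekindDomain NumberField nonZeroDivisors UniqueFactorizationMonoid

namespace H55T3

theorem exists_cube_ideal {C : Type*} [Field C] [NumberField C] {e : C} (he : e ≠ 0)
    (hv : ∀ w : HeightOneSpectrum (𝓞 C), (3 : ℤ) ∣ WithZero.log (w.valuation C e)) :
    ∃ (y : 𝓞 C) (b : C) (I : Ideal (𝓞 C)), y ≠ 0 ∧ b ≠ 0 ∧ I ≠ ⊥ ∧ I ^ 3 = Ideal.span {y} ∧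
      e = (y : C) * b ^ 3 := by
  classical
  obtain ⟨a, b, hb, rfl⟩ := IsFractionRing.div_surjective (A := 𝓞 C) e
  have hb0 : b ≠ 0 := nonZeroDivisors.ne_zero hb
  have ha0 : a ≠ 0 := by
    rintro rfl
    apply he
    simp
  have haK : (a : C) ≠ 0 := RingOfIntegers.coe_ne_zero_iff.mpr ha0
  have hbK : (b : C) ≠ 0 := RingOfIntegers.coe_ne_zero_iff.mpr hb0
  have hy : a * b ^ 2 ≠ 0 := mul_ne_zero ha0 (pow_ne_zero 2 hb0)
  have hev : ∀ v : HeightOneSpectrum (𝓞 C), 3 ∣ multiplicity v.asIdeal (Ideal.span {a * b ^ 2}) := by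
    intro v
    have h1 := hv v
    have h2 : v.valuation C ((a * b ^ 2 : 𝓞 C) : C) =
        v.valuation C ((a : C) / (b : C)) * v.valuation C (b : C) ^ 3 := by
      rw [← map_pow, ← map_mul]
      congr 1
      push_cast
      field_simp
    have h3 := v.intValuation_eq_exp_neg_multiplicity hy
    rw [← v.valuation_of_algebraMap (K := C)] at h3
    have h4 := congrArg WithZero.log h2
    change WithZero.log (v.valuation C (algebraMap (𝓞 C) C (a * b ^ 2))) = _ at h4
    rw [h3, WithZero.log_exp, WithZero.log_mul, WithZero.log_pow] at h4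
    · have h5 : (3 : ℤ) ∣ (multiplicity v.asIdeal (Ideal.span {a * b ^ 2}) : ℤ) := by
        change (3 : ℤ) ∣ WithZero.log (v.valuation C ((a : C) / (b : C))) at h1
        simp only [nsmul_eq_mul, Nat.cast_ofNat] at h4
        omega
      exact_mod_cast h5
    · rw [Valuation.ne_zero_iff]
      exact div_ne_zero haK hbK
    · exact pow_ne_zero _ ((Valuation.ne_zero_iff _).mpr hbK)
  have hI : Ideal.span {a * b ^ 2} ≠ 0 := by
    rw [Ideal.zero_eq_bot, Ne, Ideal.span_singleton_eq_bot]
    exact hy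
  obtain ⟨u, hu⟩ := Multiset.exists_smul_of_dvd_count
    (normalizedFactors (Ideal.span {a * b ^ 2})) (k := 3)
    (by
      intro P hP
      have hirr := irreducible_of_normalized_factor P hP
      have hpr : Prime P := hirr.prime
      have hev' := hev ⟨P, Ideal.isPrime_of_prime hpr, hpr.ne_zero⟩
      rw [multiplicity_eq_count_normalizedFactors hirr hI, normalize_eq] at hev'
      exact hev')
  have hJ2 : u.prod ^ 3 = Ideal.span {a * b ^ 2} := by
    rw [← Multiset.prod_nsmul, ← hu]
    exact Ideal.prod_normalizedFactors_eq_self hI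
  have hJ0 : u.prod ≠ 0 := by
    intro h
    rw [h] at hJ2
    exact hI (by rw [← hJ2, zero_pow three_ne_zero])
  refine ⟨a * b ^ 2, (b : C)⁻¹, u.prod, hy, inv_ne_zero hbK, hJ0, hJ2, ?_⟩
  change (a : C) / (b : C) = _
  push_cast
  field_simp

end H55T3
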