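import Pool.Agent.H55.T3.Mr

/-!
Row Mu (about 120 lines): the unit part. Use only the STATEMENTS of Mr.

PROOF. `J` the element with `kap J = -1` (`(galEquivZMod _ C).symm (-1)`). `u J(u) = s^3`. `ξ = u / J(u)`: an algebraic integer (`u`, `J(u)⁻¹ = J(u⁻¹)` are), and `‖φ ξ‖ = 1` for all `φ : C →+* ℂ` (`conj_kap`:
`φ (J u) = conj (φ u)`, same norm, nonzero), so `ξ` is a root of unity (`NumberField.Embeddings.pow_eq_one_of_norm_eq_one C ℂ`), `IsOfFinOrder ξ`. `exists_omega`: `ω`, `ξ = ω^j t^3`.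
`u^2 = ξ * (u * J u) = ω^j (t s)^3`, so `u = u^3 / u^2 = (u/(t s))^3 * (ω^j)⁻¹ = ω^(2 j) * r^3`, `r = u/(t s)`, (`ω^(3 j) = 1`; `t, s ≠ 0`).
Norm: `∏_{g ∈ H} g u = ω^(2 j |H|) (∏ g r)^3` (`g ω = ω`), and it is a cube `s'^3`: `ω ^ (2 j |H|) = (s'/∏ g r)^3`, so `3 ∣ 2 j |H|`; `|H|` prime to 3 (`card_InH`): `3 ∣ j`, `ω^(2j) = 1`, `u = r^3`.
-/

set_option autoImplicit false
open scoped Classical Pointwise

open IsDedekindDomain NumberField Finset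

namespace H55T3

variable {p n : ℕ} [Fact p.Prime] {C : Type} [Field C] [NumberField C]
  [IsCyclotomicExtension {3 * p ^ (n + 1)} ℚ C]

theorem unit_cube (hp : 5 ≤ p) {m : ℕ} (hmn : m ≤ n) {u : (𝓞 C)ˣ}
    (hJ : ∀ g : C ≃ₐ[ℚ] C, kap p n C g = -1 → ∃ s : C, ((u : 𝓞 C) : C) * g ((u : 𝓞 C) : C) = s ^ 3)
    (hH : ∃ s : C, ∏ g ∈ univ.filter (fun g => InH p m n hmn C g), g ((u : 𝓞 C) : C) = s ^ 3) :
    ∃ s : C, ((u : 𝓞 C) : C) = s ^ 3 := by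
  obtain ⟨J, hkJ⟩ : ∃ J : C ≃ₐ[ℚ] C, kap p n C J = -1 :=
    ⟨(IsCyclotomicExtension.Rat.galEquivZMod (3 * p ^ (n + 1)) C).symm (-1),
      MulEquiv.apply_symm_apply _ _⟩
  obtain ⟨x, hx⟩ : ∃ x : C, x = ((u : 𝓞 C) : C) := ⟨_, rfl⟩
  rw [← hx] at hH ⊢
  simp only [← hx] at hJ
  obtain ⟨y, hy⟩ : ∃ y : C, y = (((u⁻¹ : (𝓞 C)ˣ) : 𝓞 C) : C) := ⟨_, rfl⟩
  have hxy : x * y = 1 := by
    rw [hx, hy]
    have h1 : ((u : 𝓞 C) * ((u⁻¹ : (𝓞 C)ˣ) : 𝓞 C)) = 1 := u.mul_inv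
    have h2 := congrArg (algebraMap (𝓞 C) C) h1
    rwa [map_mul, map_one] at h2
  have hx0 : x ≠ 0 := left_ne_zero_of_mul_eq_one hxy
  have hxint : IsIntegral ℤ x := by rw [hx]; exact RingOfIntegers.isIntegral_coe _
  have hyint : IsIntegral ℤ y := by rw [hy]; exact RingOfIntegers.isIntegral_coe _
  obtain ⟨s, hs⟩ := hJ J hkJ
  have hJx0 : J x ≠ 0 := by rwa [Ne, map_eq_zero]
  -- the root of unity
  have hξ : IsOfFinOrder (x / J x) := by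
    have e1 : x / J x = x * J y := by
      rw [div_eq_iff hJx0, mul_assoc, ← map_mul, mul_comm y x, hxy, map_one, mul_one]
    have hint : IsIntegral ℤ (x / J x) := by
      rw [e1]
      exact hxint.mul (map_isIntegral_int (J : C →+* C) hyint)
    obtain ⟨N, hN, hN1⟩ := NumberField.Embeddings.pow_eq_one_of_norm_eq_one C ℂ hint (by
      intro φ
      have hφ : φ x ≠ 0 := by rwa [Ne, map_eq_zero]
      rw [map_div₀, norm_div, conj_kap J hkJ φ x, RCLike.norm_conj, div_self (norm_ne_zero_iff.mpr hφ)])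
    exact isOfFinOrder_iff_pow_eq_one.mpr ⟨N, hN, hN1⟩
  obtain ⟨ω, hω3, hωH, hdec, hcube⟩ := exists_omega p n C hp
  obtain ⟨j, t, ht⟩ := hdec _ hξ
  have hω0 : ω ≠ 0 := by
    rintro rfl
    norm_num at hω3
  have hs0 : s ≠ 0 := by
    rintro rfl
    rw [zero_pow three_ne_zero] at hs
    exact mul_ne_zero hx0 hJx0 hs
  have ht0 : t ≠ 0 := by
    rintro rfl
    rw [zero_pow three_ne_zero, mul_zero] at ht
    exact div_ne_zero hx0 hJx0 ht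
  have hx2 : x ^ 2 = ω ^ j * (t ^ 3 * s ^ 3) := by
    have h1 : x ^ 2 = (x / J x) * (x * J x) := by
      field_simp
    rw [h1, ht, hs]
    ring
  obtain ⟨r, hr⟩ : ∃ r : C, r = x / (t * s) := ⟨_, rfl⟩
  have hr0 : r ≠ 0 := by
    rw [hr]
    exact div_ne_zero hx0 (mul_ne_zero ht0 hs0)
  have hxr : x = ω ^ (2 * j) * r ^ 3 := by
    have h1 : x ^ 2 * (ω ^ (2 * j) * r ^ 3) = x ^ 3 := by
      calc x ^ 2 * (ω ^ (2 * j) * r ^ 3)
          = (ω ^ 3) ^ j * (r * (t * s)) ^ 3 := by rw [hx2]; ring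
        _ = x ^ 3 := by
          rw [hω3, one_pow, one_mul, hr, div_mul_cancel₀ _ (mul_ne_zero ht0 hs0)]
    have h2 : x ^ 2 * x = x ^ 2 * (ω ^ (2 * j) * r ^ 3) := by rw [h1]; ring
    exact mul_left_cancel₀ (pow_ne_zero 2 hx0) h2
  -- the norm
  obtain ⟨s', hs'⟩ := hH
  obtain ⟨H, hHd⟩ : ∃ H : Finset (C ≃ₐ[ℚ] C), H = univ.filter (fun g => InH p m n hmn C g) := ⟨_, rfl⟩
  rw [← hHd] at hs'
  have hcop : Nat.Coprime 3 H.card := by rw [hHd]; exact card_InH hp hmn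
  have hprod : ∏ g ∈ H, g x = ω ^ (2 * j * H.card) * (∏ g ∈ H, g r) ^ 3 := by
    have h1 : ∀ g ∈ H, g x = ω ^ (2 * j) * (g r) ^ 3 := by
      intro g hg
      rw [hHd, Finset.mem_filter] at hg
      conv_lhs => rw [hxr]
      rw [map_mul, map_pow, map_pow, hωH m hmn g hg.2]
    rw [Finset.prod_congr rfl h1, Finset.prod_mul_distrib, Finset.prod_const, Finset.prod_pow, ← pow_mul]
  have hR0 : ∏ g ∈ H, g r ≠ 0 := Finset.prod_ne_zero_iff.mpr fun g _ => by rwa [Ne, map_eq_zero]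
  have h3 : 3 ∣ 2 * j * H.card := by
    apply hcube
    refine ⟨s' / ∏ g ∈ H, g r, ?_⟩
    rw [div_pow, ← hs', hprod, mul_div_cancel_right₀ _ (pow_ne_zero 3 hR0)]
  have h4 : 3 ∣ 2 * j := hcop.dvd_of_dvd_mul_right h3
  obtain ⟨i, hi⟩ := h4
  refine ⟨r, ?_⟩
  conv_lhs => rw [hxr]
  rw [hi, pow_mul, hω3, one_pow, one_mul]

end H55T3
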