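import Pool.Agent.H55.T3.MDf

/-!
Row Md (about 130 lines): a character modulo `3 p^(n+1)` with `φ(-1) = -1`, `φ(τ) = 1` restricts on `t = 1 mod 3` to a primitive even character of level `p^(k+1)`.

PROOF. `f = p^(n+1)`, `3` and `f` coprime. For a unit `u` of `ZMod f` let `e(u)` be the unit of `ZMod (3 f)` which is `1` modulo 3 and `u` modulo `f`: `e = (Units.mapEquiv (ZMod.chineseRemainder h)).symm` composed with
`MulEquiv.prodUnits.symm` and `u ↦ (1, u)`, a homomorphism; `χ0 = φ ∘ e`. For `t` with `t.val % 3 = 1` one has `unitsMap (3 ∣ 3f) t = 1`, so `e(unitsMap (f ∣ 3f) t) = t` (both have the same images modulo 3 and `f`; the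
Chinese remainder map is injective), so `φ t = χ0 (unitsMap t)`.
`χ0(-1) = φ(e(-1)) = 1` by `h2` applied to `e(-1)`.
`χ0` is non trivial on the kernel of `(ZMod p^(n+1))ˣ → (ZMod p^(m+1))ˣ`: `h` in `h3` is `1` modulo `3 p^(m+1)`, so `h.val % 3 = 1`, `φ h = χ0 (unitsMap h)`, and `unitsMap h` is `1` modulo `p^(m+1)` (`ZMod.unitsMap_comp`).
`H5SW.factor_level` (with `hp2 : p ≠ 2`): `k`, `χ'`, `χ0 = χ' ∘ unitsMap`, `χ'(-1) = 1`, `Prim χ'`. Then `φ t = χ'(unitsMap (unitsMap t)) = χ' (unitsMap t)` (`ZMod.unitsMap_comp`).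
-/

set_option autoImplicit false
open scoped Classical

open Finset

namespace H55T3

theorem val_mod_three {N : ℕ} (h3 : 3 ∣ N) [NeZero N] (t : (ZMod N)ˣ) :
    (t : ZMod N).val % 3 = 1 ↔ ZMod.unitsMap h3 t = 1 := by
  rw [Units.ext_iff, ZMod.unitsMap_val, ZMod.cast_eq_val, Units.val_one]
  have h := ZMod.natCast_eq_natCast_iff' (t : ZMod N).val 1 3
  rw [Nat.cast_one] at h
  rw [h]

/-- joint injectivity -/
theorem Md_inj {f : ℕ} (h : Nat.Coprime 3 f) {t t' : (ZMod (3 * f))ˣ}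
    (h1 : ZMod.unitsMap (Dvd.intro _ rfl : 3 ∣ 3 * f) t = ZMod.unitsMap (Dvd.intro _ rfl) t')
    (h2 : ZMod.unitsMap (Dvd.intro_left 3 rfl : f ∣ 3 * f) t =
      ZMod.unitsMap (Dvd.intro_left 3 rfl) t') : t = t' := by
  have c1 := Subsingleton.elim ((RingHom.fst _ _).comp (ZMod.chineseRemainder h).toRingHom)
    (ZMod.castHom (Dvd.intro _ rfl : 3 ∣ 3 * f) (ZMod 3))
  have c2 := Subsingleton.elim ((RingHom.snd _ _).comp (ZMod.chineseRemainder h).toRingHom)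
    (ZMod.castHom (Dvd.intro_left 3 rfl : f ∣ 3 * f) (ZMod f))
  have e1 := congrArg Units.val h1
  have e2 := congrArg Units.val h2
  apply Units.ext
  apply (ZMod.chineseRemainder h).injective
  apply Prod.ext
  · have a1 := RingHom.congr_fun c1 (t : ZMod (3 * f))
    have a2 := RingHom.congr_fun c1 (t' : ZMod (3 * f))
    exact a1.trans (e1.trans a2.symm)
  · have a1 := RingHom.congr_fun c2 (t : ZMod (3 * f))
    have a2 := RingHom.congr_fun c2 (t' : ZMod (3 * f))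
    exact a1.trans (e2.trans a2.symm)

/-- the unit which is one modulo three and `u` modulo `f` -/
theorem Md_exists {f : ℕ} (h : Nat.Coprime 3 f) : ∃ e : (ZMod f)ˣ →* (ZMod (3 * f))ˣ,
    ∀ u, ZMod.unitsMap (Dvd.intro _ rfl : 3 ∣ 3 * f) (e u) = 1 ∧
      ZMod.unitsMap (Dvd.intro_left 3 rfl : f ∣ 3 * f) (e u) = u := by
  have c1 := Subsingleton.elim ((RingHom.fst _ _).comp (ZMod.chineseRemainder h).toRingHom)
    (ZMod.castHom (Dvd.intro _ rfl : 3 ∣ 3 * f) (ZMod 3))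
  have c2 := Subsingleton.elim ((RingHom.snd _ _).comp (ZMod.chineseRemainder h).toRingHom)
    (ZMod.castHom (Dvd.intro_left 3 rfl : f ∣ 3 * f) (ZMod f))
  refine ⟨(Units.map ((ZMod.chineseRemainder h).symm.toRingHom : _ →* _)).comp
    ((MulEquiv.prodUnits (M := ZMod 3) (N := ZMod f)).symm.toMonoidHom.comp
      (MonoidHom.inr (ZMod 3)ˣ (ZMod f)ˣ)), fun u => ?_⟩
  constructor
  · apply Units.ext
    have a1 := RingHom.congr_fun c1 ((ZMod.chineseRemainder h).symm ((1 : ZMod 3), (u : ZMod f)))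
    refine a1.symm.trans ?_
    change ((ZMod.chineseRemainder h) ((ZMod.chineseRemainder h).symm _)).1 = _
    rw [RingEquiv.apply_symm_apply]
    rfl
  · apply Units.ext
    have a1 := RingHom.congr_fun c2 ((ZMod.chineseRemainder h).symm ((1 : ZMod 3), (u : ZMod f)))
    refine a1.symm.trans ?_
    change ((ZMod.chineseRemainder h) ((ZMod.chineseRemainder h).symm _)).2 = _
    rw [RingEquiv.apply_symm_apply]

theorem exists_prim {p m n : ℕ} [Fact p.Prime] (hp : 5 ≤ p) (hmn : m ≤ n) {Ω : Type*} [Field Ω]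
    (φ : (ZMod (3 * p ^ (n + 1)))ˣ →* Ωˣ)
    (h2 : ∀ t, ZMod.unitsMap (Dvd.intro_left 3 rfl) t = (-1 : (ZMod (p ^ (n + 1)))ˣ) →
      ZMod.unitsMap (Dvd.intro _ rfl) t = (1 : (ZMod 3)ˣ) → φ t = 1)
    (h3 : ∃ h, ZMod.unitsMap (Nat.mul_dvd_mul_left 3 (pow_dvd_pow p (Nat.succ_le_succ hmn))) h = 1 ∧ φ h ≠ 1) :
    ∃ k, m < k ∧ ∃ hkn : k ≤ n, ∃ χ : (ZMod (p ^ (k + 1)))ˣ →* Ωˣ, χ (-1) = 1 ∧ H5SW.Prim χ ∧
      ∀ t : (ZMod (3 * p ^ (n + 1)))ˣ, (t : ZMod (3 * p ^ (n + 1))).val % 3 = 1 →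
        φ t = χ (ZMod.unitsMap (Dvd.dvd.mul_left (pow_dvd_pow p (Nat.succ_le_succ hkn)) 3) t) := by
  have hpp : p.Prime := Fact.out
  have hcop : Nat.Coprime 3 (p ^ (n + 1)) := by
    refine Nat.Coprime.pow_right _ ((Nat.coprime_primes Nat.prime_three hpp).2 ?_)
    omega
  obtain ⟨e, he⟩ := Md_exists hcop
  have key : ∀ t : (ZMod (3 * p ^ (n + 1)))ˣ, (t : ZMod (3 * p ^ (n + 1))).val % 3 = 1 →
      φ t = (φ.comp e) (ZMod.unitsMap (Dvd.intro_left 3 rfl) t) := by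
    intro t ht
    rw [MonoidHom.comp_apply]
    congr 1
    refine Md_inj hcop ?_ ?_
    · rw [(he _).1]
      exact (val_mod_three (Dvd.intro _ rfl) t).1 ht
    · rw [(he _).2]
  have hev : (φ.comp e) (-1) = 1 := by
    rw [MonoidHom.comp_apply]
    exact h2 _ (he _).2 (he _).1
  have comp : ∀ {a b c : ℕ} (h1 : a ∣ b) (h2 : b ∣ c) (t : (ZMod c)ˣ),
      ZMod.unitsMap h1 (ZMod.unitsMap h2 t) = ZMod.unitsMap (h1.trans h2) t := by
    intro a b c h1 h2 t
    rw [← ZMod.unitsMap_comp h1 h2]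
    rfl
  have hm : ∃ u, ZMod.unitsMap (pow_dvd_pow p (Nat.succ_le_succ hmn)) u = 1 ∧
      (φ.comp e) u ≠ 1 := by
    obtain ⟨h, hh1, hh2⟩ := h3
    have hv : (h : ZMod (3 * p ^ (n + 1))).val % 3 = 1 := by
      rw [val_mod_three (Dvd.intro _ rfl) h]
      have := comp (Dvd.intro _ rfl : 3 ∣ 3 * p ^ (m + 1))
        (Nat.mul_dvd_mul_left 3 (pow_dvd_pow p (Nat.succ_le_succ hmn))) h
      rw [hh1, map_one] at this
      exact this.symm
    refine ⟨ZMod.unitsMap (Dvd.intro_left 3 rfl) h, ?_, ?_⟩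
    · rw [comp]
      have := comp (Dvd.intro_left 3 rfl : p ^ (m + 1) ∣ 3 * p ^ (m + 1))
        (Nat.mul_dvd_mul_left 3 (pow_dvd_pow p (Nat.succ_le_succ hmn))) h
      rw [hh1, map_one] at this
      exact this.symm
    · rw [← key h hv]
      exact hh2
  obtain ⟨k, hmk, hkn, χ, hχ, hev', hprim⟩ :=
    H5SW.factor_level (by omega : p ≠ 2) hmn (φ.comp e) hev hm
  refine ⟨k, hmk, hkn, χ, hev', hprim, fun t ht => ?_⟩
  rw [key t ht, hχ, MonoidHom.comp_apply, comp]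

end H55T3
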