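import Pool.Agent.H55.T3.MDf

/-!
Row Mf (about 200 lines): `g(χ) B(φ) = f T(χ)`.

Notation: `f = p^(n+1)`, `f' = p^(k+1)`, `g(x) = H5SW.T2_g χ z x = ∑_u χ(u) z^(x u).val` for `x : ZMod f'`; `H5SW.T2_g_mul : g(v x) = χ(v)⁻¹ g(x)`; `H5SW.T2_pow` (exponents modulo `f'`);
`H5SW.T2_half : ∑_{u ∈ Hf} (h u + h (-u)) = ∑_u h u` (`f'` odd, `1 < f'`).
PROOF.
(0) `hnon`: if `x : ZMod f'` is not a unit then `g(x) = 0`: `x = p y` (x.val divisible by p), `Prim χ` gives a unit `v = 1 + p^k t` with `χ v ≠ 1`, `v x = x`, so `g(x) = g(v x) = χ(v)⁻¹ g(x)`.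
(1) `B = ∑_t φ(t)⁻¹ (t.val/3)`. A unit `t` modulo `3f` has `t.val % 3 = 1` or `2`, `(-t).val = 3f - t.val`, so `t ↦ -t` swaps the two halves and `φ(-t)⁻¹ = -φ(t)⁻¹` (`hφn`):
    `B = ∑_{t, t.val%3=1} φ(t)⁻¹ ((t.val/3) - ((3f - t.val)/3))`, and for `t.val = 3u+1`, `u = t.val/3 < f`: `(3f - 3u - 1)/3 = f - u - 1`, so the bracket is `2u + 1 - f` in `Ω`.
(2) For `t.val % 3 = 1`, `φ(t)⁻¹ g(1) = χ(unitsMap t)⁻¹ g(1) = g(3u+1)` (`hφ`, `T2_g_mul` with `x = 1`; `((unitsMap t : ZMod f')) = (t.val : ZMod f') = 3u+1`).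
    So `g(1) B = ∑_{t, t.val%3=1} g(3u+1) (2u+1-f) = ∑_{u < f} g(3u+1) (2u+1-f)`: the map `t ↦ t.val/3` is injective on `{t.val%3=1}` with image the `u < f` with `p ∤ 3u+1`; for the other `u`,
    `(3u+1 : ZMod f')` is divisible by `p`, not a unit, `g = 0`  (`Finset.sum_of_injOn` or `Finset.sum_bij_ne_zero`).
(3) `w_b = z^(b.val)`, `b` a unit of `ZMod f'`: `w_b ^ f' = 1`, `w_b ≠ 1`, `g(3u+1) = ∑_b χ(b) w_b^(3u+1)` (`T2_pow`). Exchange sums: `g(1) B = ∑_b χ(b) w_b ∑_{u<f} (2u+1-f) (w_b^3)^u`.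
    `v = w_b^3`: `v - 1 = (w_b - 1)^3` (char 3: `sub_pow_char`), `≠ 0`; `v^f = 1` (`f' ∣ f`). `∑_{u<f} v^u = 0` (`geom_sum_eq`), `(v - 1) ∑_{u<f} u v^u = f` (telescoping: `(v-1) ∑ u v^u = f v^f - ∑_{u<f} v^(u+1)`
    by induction on `f`, `= f - v * 0`). So the inner sum is `2 f / (w_b-1)^3 = - f/(w_b - 1)^3`.
(4) `g(1) B = - f ∑_b χ(b) w_b/(w_b-1)^3`; `T2_half`: `w_{-b} = w_b⁻¹`, `χ(-b) = χ(b)`, `w/(w-1)^3 + w⁻¹/(w⁻¹-1)^3 = - w/(1-w)^2 = - Fr3 w`. So `g(1) B = f ∑_{b ∈ Hf} χ(b) Fr3 (w_b) = f Tc3 χ z`.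
-/

set_option autoImplicit false
open scoped Classical

open Finset

namespace H55T3

theorem g_nonunit {p k : ℕ} [Fact p.Prime] {Ω : Type*} [Field Ω] {z : Ω}
    (χ : (ZMod (p ^ (k + 1)))ˣ →* Ωˣ) (hprim : H5SW.Prim χ) (x : ZMod (p ^ (k + 1))) (hx : ¬ IsUnit x) :
    H5SW.T2_g χ z x = 0 := by
  have hp : p.Prime := Fact.out
  obtain ⟨v, ⟨t, ht⟩, hv1⟩ := hprim
  have hdvd : p ∣ x.val := by
    by_contra hnd
    apply hx
    have hc : Nat.Coprime x.val (p ^ (k + 1)) :=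
      Nat.Coprime.pow_right _ ((Nat.coprime_comm.1 ((Nat.Prime.coprime_iff_not_dvd hp).2 hnd)))
    have h1 := (ZMod.isUnit_iff_coprime x.val (p ^ (k + 1))).2 hc
    rwa [ZMod.natCast_zmod_val] at h1
  obtain ⟨y, hy⟩ := hdvd
  have hxy : x = (p : ZMod (p ^ (k + 1))) * y := by
    rw [← ZMod.natCast_zmod_val x, hy]
    push_cast
    ring
  have hp0 : (p : ZMod (p ^ (k + 1))) ^ k * p = 0 := by
    rw [← pow_succ]
    have h2 := ZMod.natCast_self (p ^ (k + 1))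
    push_cast at h2
    exact h2
  have hv : (v : ZMod (p ^ (k + 1))) * x = x := by
    rw [ht]
    have e : (1 + (p : ZMod (p ^ (k + 1))) ^ k * t) * x =
        x + (p : ZMod (p ^ (k + 1))) ^ k * p * (t * y) := by
      rw [hxy]
      ring
    rw [e, hp0, zero_mul, add_zero]
  have h2 := H5SW.T2_g_mul χ z v x
  rw [hv] at h2
  by_contra hne
  have h3 : (((χ v)⁻¹ : Ωˣ) : Ω) = 1 := by
    have h4 : (((χ v)⁻¹ : Ωˣ) : Ω) * H5SW.T2_g χ z x = 1 * H5SW.T2_g χ z x := by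
      rw [← h2, one_mul]
    exact mul_right_cancel₀ hne h4
  have h5 : (χ v)⁻¹ = 1 := Units.ext h3
  exact hv1 (inv_eq_one.1 h5)

theorem sum_arith {Ω : Type*} [Field Ω] (v : Ω) (hv : v ≠ 1) (f : ℕ) (hf : v ^ f = 1) :
    (v - 1) * ∑ u ∈ range f, (u : Ω) * v ^ u = f ∧ ∑ u ∈ range f, v ^ u = 0 := by
  have h0 : ∑ u ∈ range f, v ^ u = 0 := by
    have h1 := geom_sum_mul v f
    rw [hf, sub_self] at h1
    exact (mul_eq_zero.1 h1).resolve_right (sub_ne_zero.2 hv)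
  refine ⟨?_, h0⟩
  have key : ∀ N : ℕ, (v - 1) * ∑ u ∈ range N, (u : Ω) * v ^ u =
      N * v ^ N - v * ∑ u ∈ range N, v ^ u := by
    intro N
    induction N with
    | zero => simp
    | succ N ih =>
      rw [sum_range_succ, sum_range_succ, mul_add, ih, pow_succ]
      push_cast
      ring
  rw [key, h0, hf]
  ring

theorem pair_Fr3 {Ω : Type*} [Field Ω] {w : Ω} (hw : w ≠ 0) (hw1 : w ≠ 1) :
    w / (w - 1) ^ 3 + w⁻¹ / (w⁻¹ - 1) ^ 3 = - Fr3 w := by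
  have h1 : w - 1 ≠ 0 := sub_ne_zero.2 hw1
  have h2 : 1 - w ≠ 0 := sub_ne_zero.2 hw1.symm
  have e1 : w⁻¹ / (w⁻¹ - 1) ^ 3 = -(w ^ 2 / (w - 1) ^ 3) := by
    have e0 : w⁻¹ - 1 = -(w - 1) / w := by
      field_simp
      ring
    rw [e0, div_pow, neg_pow, show ((-1 : Ω)) ^ 3 = -1 by norm_num]
    field_simp
  have e2 : (1 : Ω) - w = -(w - 1) := by ring
  unfold Fr3
  rw [e1, e2, neg_sq, ← sub_eq_add_neg, ← sub_div, div_eq_iff (pow_ne_zero 3 h1), neg_mul,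
    div_mul_eq_mul_div, eq_comm, neg_eq_iff_eq_neg, div_eq_iff (pow_ne_zero 2 h1)]
  ring

private theorem Mf_val_neg {m : ℕ} [NeZero m] (hm : 1 < m) (t : (ZMod m)ˣ) :
    ((-t : (ZMod m)ˣ) : ZMod m).val = m - (t : ZMod m).val := by
  have : Fact (1 < m) := ⟨hm⟩
  rw [Units.val_neg, ZMod.neg_val]
  rw [if_neg t.ne_zero]

private theorem Mf_half {f : ℕ} [NeZero (3 * f)] (hf : 0 < f) {Ω : Type*} [Field Ω]
    (φ : (ZMod (3 * f))ˣ →* Ωˣ) (hφn : φ (-1) = -1) :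
    Bm f φ = ∑ t ∈ univ.filter (fun t : (ZMod (3 * f))ˣ => (t : ZMod (3 * f)).val % 3 = 1),
      (((φ t)⁻¹ : Ωˣ) : Ω) * (2 * (((t : ZMod (3 * f)).val / 3 : ℕ) : Ω) + 1 - (f : Ω)) := by
  have hm : 1 < 3 * f := by omega
  have hmod : ∀ t : (ZMod (3 * f))ˣ, (t : ZMod (3 * f)).val % 3 ≠ 0 := by
    intro t h0
    have h1 := ZMod.val_coe_unit_coprime t
    have h2 : (3 : ℕ) ∣ Nat.gcd (t : ZMod (3 * f)).val (3 * f) :=
      Nat.dvd_gcd (Nat.dvd_of_mod_eq_zero h0) (Dvd.intro _ rfl)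
    rw [h1] at h2
    omega
  have hlt : ∀ t : (ZMod (3 * f))ˣ, (t : ZMod (3 * f)).val < 3 * f := fun t => ZMod.val_lt _
  unfold Bm
  rw [← Finset.sum_filter_add_sum_filter_not univ
    (fun t : (ZMod (3 * f))ˣ => (t : ZMod (3 * f)).val % 3 = 1)]
  have e : ∑ t ∈ univ.filter (fun t : (ZMod (3 * f))ˣ => ¬ (t : ZMod (3 * f)).val % 3 = 1),
      (((φ t)⁻¹ : Ωˣ) : Ω) * (((t : ZMod (3 * f)).val / 3 : ℕ) : Ω) =
      ∑ t ∈ univ.filter (fun t : (ZMod (3 * f))ˣ => (t : ZMod (3 * f)).val % 3 = 1),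
      (((φ (-t))⁻¹ : Ωˣ) : Ω) * ((((-t : (ZMod (3 * f))ˣ) : ZMod (3 * f)).val / 3 : ℕ) : Ω) := by
    refine Finset.sum_bij' (fun t _ => -t) (fun t _ => -t) ?_ ?_ ?_ ?_ ?_
    · intro t ht
      rw [mem_filter] at ht ⊢
      refine ⟨mem_univ _, ?_⟩
      rw [Mf_val_neg hm]
      have h1 := hmod t
      have h2 := ht.2
      have h3 := hlt t
      omega
    · intro t ht
      rw [mem_filter] at ht ⊢
      refine ⟨mem_univ _, ?_⟩
      rw [Mf_val_neg hm]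
      have h2 := ht.2
      have h3 := hlt t
      omega
    · intro t _; exact neg_neg t
    · intro t _; exact neg_neg t
    · intro t _
      rw [neg_neg]
  rw [e, ← Finset.sum_add_distrib]
  refine Finset.sum_congr rfl fun t ht => ?_
  have h2 := (mem_filter.1 ht).2
  have h3 := hlt t
  rw [Mf_val_neg hm]
  have e1 : φ (-t) = -φ t := by
    rw [← neg_one_mul, map_mul, hφn, neg_one_mul]
  rw [e1, inv_neg, Units.val_neg]
  obtain ⟨u, hu⟩ : ∃ u, u = (t : ZMod (3 * f)).val / 3 := ⟨_, rfl⟩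
  have h4 : (3 * f - (t : ZMod (3 * f)).val) / 3 = f - (u + 1) := by omega
  have h5 : u + 1 ≤ f := by omega
  rw [h4, ← hu, Nat.cast_sub h5]
  push_cast
  ring

theorem Bm_half {p n k : ℕ} [Fact p.Prime] (hp : 5 ≤ p) (hkn : k ≤ n) {Ω : Type*} [Field Ω] [CharP Ω 3]
    {z : Ω} (φ : (ZMod (3 * p ^ (n + 1)))ˣ →* Ωˣ) (χ : (ZMod (p ^ (k + 1)))ˣ →* Ωˣ)
    (hprim : H5SW.Prim χ) (hφn : φ (-1) = -1)
    (hφ : ∀ t : (ZMod (3 * p ^ (n + 1)))ˣ, (t : ZMod (3 * p ^ (n + 1))).val % 3 = 1 →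
      φ t = χ (ZMod.unitsMap (Dvd.dvd.mul_left (pow_dvd_pow p (Nat.succ_le_succ hkn)) 3) t)) :
    H5SW.T2_g χ z 1 * Bm (p ^ (n + 1)) φ =
      ∑ u ∈ range (p ^ (n + 1)), (2 * (u : Ω) + 1 - (p ^ (n + 1) : ℕ)) *
        H5SW.T2_g χ z (3 * (u : ZMod (p ^ (k + 1))) + 1) := by
  have hpp : p.Prime := Fact.out
  have hF : 0 < p ^ (n + 1) := pow_pos hpp.pos _
  rw [Mf_half hF φ hφn, Finset.mul_sum]
  refine Finset.sum_of_injOn
    (fun t : (ZMod (3 * p ^ (n + 1)))ˣ => (t : ZMod (3 * p ^ (n + 1))).val / 3) ?_ ?_ ?_ ?_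
  · intro t ht t' ht' h
    have h1 : (t : ZMod (3 * p ^ (n + 1))).val % 3 = 1 := (mem_filter.1 ht).2
    have h2 : (t' : ZMod (3 * p ^ (n + 1))).val % 3 = 1 := (mem_filter.1 ht').2
    have h3 : (t : ZMod (3 * p ^ (n + 1))).val / 3 = (t' : ZMod (3 * p ^ (n + 1))).val / 3 := h
    exact Units.ext (ZMod.val_injective _ (by omega))
  · intro t _
    show (t : ZMod (3 * p ^ (n + 1))).val / 3 ∈ (range (p ^ (n + 1)) : Set ℕ)
    have h3 : (t : ZMod (3 * p ^ (n + 1))).val < 3 * p ^ (n + 1) := ZMod.val_lt _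
    rw [mem_coe, mem_range]
    omega
  · intro u hu hnu
    rw [mem_range] at hu
    rw [g_nonunit χ hprim, mul_zero]
    intro hunit
    apply hnu
    have h1 : IsUnit ((3 * u + 1 : ℕ) : ZMod (p ^ (k + 1))) := by
      push_cast
      exact hunit
    rw [ZMod.isUnit_iff_coprime] at h1
    have h2 : Nat.Coprime (3 * u + 1) p :=
      Nat.Coprime.coprime_dvd_right (dvd_pow_self p (Nat.succ_ne_zero k)) h1
    have h3 : Nat.Coprime (3 * u + 1) (3 * p ^ (n + 1)) := by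
      refine Nat.Coprime.mul_right ?_ (Nat.Coprime.pow_right _ h2)
      have : Nat.Coprime (3 * u + 1) 3 := by
        rw [Nat.coprime_comm, Nat.Prime.coprime_iff_not_dvd Nat.prime_three]
        omega
      exact this
    have h4 : ((ZMod.unitOfCoprime (3 * u + 1) h3 : (ZMod (3 * p ^ (n + 1)))ˣ) :
        ZMod (3 * p ^ (n + 1))).val = 3 * u + 1 := by
      rw [ZMod.coe_unitOfCoprime, ZMod.val_natCast, Nat.mod_eq_of_lt (by omega)]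
    refine ⟨ZMod.unitOfCoprime (3 * u + 1) h3, ?_, ?_⟩
    · rw [mem_coe, mem_filter]
      refine ⟨mem_univ _, ?_⟩
      rw [h4]
      omega
    · show ((ZMod.unitOfCoprime (3 * u + 1) h3 : (ZMod (3 * p ^ (n + 1)))ˣ) :
        ZMod (3 * p ^ (n + 1))).val / 3 = u
      rw [h4]
      omega
  · intro t ht
    have h1 : (t : ZMod (3 * p ^ (n + 1))).val % 3 = 1 := (mem_filter.1 ht).2
    have hdv : p ^ (k + 1) ∣ 3 * p ^ (n + 1) :=
      Dvd.dvd.mul_left (pow_dvd_pow p (Nat.succ_le_succ hkn)) 3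
    have h2 := H5SW.T2_g_mul χ z (ZMod.unitsMap hdv t) 1
    rw [mul_one] at h2
    have h3 : ((ZMod.unitsMap hdv t : (ZMod (p ^ (k + 1)))ˣ) : ZMod (p ^ (k + 1))) =
        3 * (((t : ZMod (3 * p ^ (n + 1))).val / 3 : ℕ) : ZMod (p ^ (k + 1))) + 1 := by
      rw [ZMod.unitsMap_val, ← ZMod.natCast_val]
      have h4 : (t : ZMod (3 * p ^ (n + 1))).val = 3 * ((t : ZMod (3 * p ^ (n + 1))).val / 3) + 1 := by
        omega
      conv_lhs => rw [h4]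
      push_cast
      rfl
    rw [h3] at h2
    rw [h2, hφ t h1]
    ring

theorem fourier {p n k : ℕ} [Fact p.Prime] (hp : 5 ≤ p) (hkn : k ≤ n) {Ω : Type*} [Field Ω] [CharP Ω 3]
    {z : Ω} (hz : IsPrimitiveRoot z (p ^ (k + 1))) (φ : (ZMod (3 * p ^ (n + 1)))ˣ →* Ωˣ)
    (χ : (ZMod (p ^ (k + 1)))ˣ →* Ωˣ) (hev : χ (-1) = 1) (hprim : H5SW.Prim χ) (hφn : φ (-1) = -1)
    (hφ : ∀ t : (ZMod (3 * p ^ (n + 1)))ˣ, (t : ZMod (3 * p ^ (n + 1))).val % 3 = 1 →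
      φ t = χ (ZMod.unitsMap (Dvd.dvd.mul_left (pow_dvd_pow p (Nat.succ_le_succ hkn)) 3) t)) :
    H5SW.T2_g χ z 1 * Bm (p ^ (n + 1)) φ = ((p ^ (n + 1) : ℕ) : Ω) * Tc3 χ z := by
  have hpp : p.Prime := Fact.out
  have : Fact (Nat.Prime 3) := ⟨Nat.prime_three⟩
  have hf1 : 1 < p ^ (k + 1) := Nat.one_lt_pow (Nat.succ_ne_zero k) hpp.one_lt
  have : Fact (1 < p ^ (k + 1)) := ⟨hf1⟩
  have hodd : Odd (p ^ (k + 1)) := (hpp.odd_of_ne_two (by omega)).pow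
  have hzf : z ^ (p ^ (k + 1)) = 1 := hz.pow_eq_one
  have h3z : (3 : Ω) = 0 := by exact_mod_cast CharP.cast_eq_zero Ω 3
  have hdv : p ^ (k + 1) ∣ p ^ (n + 1) := pow_dvd_pow p (Nat.succ_le_succ hkn)
  rw [Bm_half hp hkn φ χ hprim hφn hφ]
  have hw : ∀ b : (ZMod (p ^ (k + 1)))ˣ, z ^ (b : ZMod (p ^ (k + 1))).val ≠ 1 := by
    intro b
    apply hz.pow_ne_one_of_pos_of_lt
    · intro h2
      exact b.ne_zero ((ZMod.val_eq_zero _).1 h2)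
    · exact ZMod.val_lt _
  have hz0 : z ≠ 0 := hz.ne_zero (pow_pos hpp.pos _).ne'
  have hw0 : ∀ b : (ZMod (p ^ (k + 1)))ˣ, z ^ (b : ZMod (p ^ (k + 1))).val ≠ 0 :=
    fun b => pow_ne_zero _ hz0
  have e1 : ∀ u ∈ range (p ^ (n + 1)), (2 * (u : Ω) + 1 - (p ^ (n + 1) : ℕ)) *
        H5SW.T2_g χ z (3 * (u : ZMod (p ^ (k + 1))) + 1) =
      ∑ b : (ZMod (p ^ (k + 1)))ˣ, (χ b : Ω) * (z ^ (b : ZMod (p ^ (k + 1))).val *
        ((2 * (u : Ω) + 1 - (p ^ (n + 1) : ℕ)) * ((z ^ (b : ZMod (p ^ (k + 1))).val) ^ 3) ^ u)) := by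
    intro u _
    unfold H5SW.T2_g
    rw [Finset.mul_sum]
    refine Finset.sum_congr rfl fun b _ => ?_
    have h1 : z ^ ((3 * (u : ZMod (p ^ (k + 1))) + 1) * b : ZMod (p ^ (k + 1))).val =
        z ^ ((b : ZMod (p ^ (k + 1))).val * (3 * u + 1)) := by
      apply H5SW.T2_pow hzf
      push_cast
      rw [ZMod.natCast_zmod_val, ZMod.natCast_zmod_val]
      ring
    rw [h1, pow_mul]
    generalize z ^ (b : ZMod (p ^ (k + 1))).val = w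
    have h2 : w ^ (3 * u + 1) = (w ^ 3) ^ u * w := by rw [pow_succ w (3 * u), pow_mul]
    rw [h2]
    ring
  rw [Finset.sum_congr rfl e1, Finset.sum_comm]
  have e2 : ∀ b : (ZMod (p ^ (k + 1)))ˣ, ∑ u ∈ range (p ^ (n + 1)),
      (χ b : Ω) * (z ^ (b : ZMod (p ^ (k + 1))).val *
        ((2 * (u : Ω) + 1 - (p ^ (n + 1) : ℕ)) * ((z ^ (b : ZMod (p ^ (k + 1))).val) ^ 3) ^ u)) =
      -((p ^ (n + 1) : ℕ) : Ω) * ((χ b : Ω) * (z ^ (b : ZMod (p ^ (k + 1))).val /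
        (z ^ (b : ZMod (p ^ (k + 1))).val - 1) ^ 3)) := by
    intro b
    have hwb := hw b
    have hwf : (z ^ (b : ZMod (p ^ (k + 1))).val) ^ (p ^ (n + 1)) = 1 := by
      obtain ⟨c, hc⟩ := hdv
      rw [← pow_mul, mul_comm, hc, mul_assoc, pow_mul, hzf, one_pow]
    generalize z ^ (b : ZMod (p ^ (k + 1))).val = w at hwb hwf ⊢
    have hw3 : w ^ 3 - 1 = (w - 1) ^ 3 := by
      rw [sub_pow_char, one_pow]
    have hwd : w - 1 ≠ 0 := sub_ne_zero.2 hwb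
    have hv1 : w ^ 3 ≠ 1 := by
      intro h
      rw [h, sub_self] at hw3
      exact (pow_ne_zero 3 hwd) hw3.symm
    have hvf : (w ^ 3) ^ (p ^ (n + 1)) = 1 := by
      rw [← pow_mul, mul_comm, pow_mul, hwf, one_pow]
    obtain ⟨s1, s2⟩ := sum_arith (w ^ 3) hv1 _ hvf
    rw [← Finset.mul_sum, ← Finset.mul_sum]
    have e3 : ∑ u ∈ range (p ^ (n + 1)), (2 * (u : Ω) + 1 - (p ^ (n + 1) : ℕ)) * (w ^ 3) ^ u =
        2 * ∑ u ∈ range (p ^ (n + 1)), (u : Ω) * (w ^ 3) ^ u +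
          (1 - (p ^ (n + 1) : ℕ)) * ∑ u ∈ range (p ^ (n + 1)), (w ^ 3) ^ u := by
      rw [Finset.mul_sum, Finset.mul_sum, ← Finset.sum_add_distrib]
      refine Finset.sum_congr rfl fun u _ => ?_
      ring
    rw [e3, s2, mul_zero, add_zero]
    rw [hw3] at s1
    have e4 : ∑ u ∈ range (p ^ (n + 1)), (u : Ω) * (w ^ 3) ^ u =
        ((p ^ (n + 1) : ℕ) : Ω) / (w - 1) ^ 3 := by
      rw [eq_div_iff (pow_ne_zero 3 hwd), ← s1]
      ring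
    rw [e4]
    have e5 : (2 : Ω) = -1 := by linear_combination h3z
    rw [e5]
    ring
  rw [Finset.sum_congr rfl (fun b _ => e2 b), ← Finset.mul_sum, ← H5SW.T2_half hodd hf1]
  unfold Tc3
  rw [Finset.mul_sum, Finset.mul_sum]
  refine Finset.sum_congr rfl fun b _ => ?_
  have hχ : χ (-b) = χ b := by rw [← neg_one_mul, map_mul, hev, one_mul]
  have hneg : z ^ ((-b : (ZMod (p ^ (k + 1)))ˣ) : ZMod (p ^ (k + 1))).val =
      (z ^ (b : ZMod (p ^ (k + 1))).val)⁻¹ := by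
    apply eq_inv_of_mul_eq_one_left
    rw [← pow_add]
    have h1 : z ^ (((-b : (ZMod (p ^ (k + 1)))ˣ) : ZMod (p ^ (k + 1))).val +
        (b : ZMod (p ^ (k + 1))).val) = z ^ 0 := by
      apply H5SW.T2_pow hzf
      push_cast
      rw [ZMod.natCast_zmod_val, ZMod.natCast_zmod_val]
      ring
    rw [h1, pow_zero]
  rw [hχ, hneg]
  have h5 := pair_Fr3 (hw0 b) (hw b)
  linear_combination (-((p ^ (n + 1) : ℕ) : Ω) * (χ b : Ω)) * h5

end H55T3
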