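import Pool.Agent.H55.T3.Mb
import Pool.Agent.H55.T3.Mf
import Pool.Agent.H55.T3.Md

/-!
Row Mz (about 60 lines): some Stickelberger sum does not vanish. Use only the STATEMENTS of Mb, Mf, Md.

PROOF. `h3`: `h`. `c = h.val`: `h.val % 3 = 1` (`val_mod_three` + `ZMod.unitsMap_comp`), `c < N` (`ZMod.val_lt`), coprime to `N` (`ZMod.val_coe_unit_coprime`), `c ≠ 0` (coprime, `N > 1`), `c ≠ 1` (else `h = 1`, `φ h = 1`).
If `St = 0`: `stick_formula` gives `(1 - φ h) Bm = 0`, so `Bm = 0`. `exists_prim`: `k`, `χ`; `z` a primitive `p^(k+1)`-th root of unity in `Ω` (algebraically closed of characteristic 3, `p^(k+1) ≠ 0` in `Ω`: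
`IsAlgClosed` / `IsSepClosed.exists_primitiveRoot`-type lemma, as in `H5SW.T5_root`). `fourier`: `0 = p^(n+1) Tc3 χ z`, so `Tc3 χ z = 0`, against `hS k (k0 ≤ m + 1 ≤ k) Ω z hz χ`.
-/

set_option autoImplicit false
open scoped Classical

open Finset

namespace H55T3

theorem exists_St_ne {p k0 m n : ℕ} [Fact p.Prime] (hp : 5 ≤ p) (hS : NV3 p k0) (hm : k0 ≤ m + 1) (hmn : m ≤ n)
    {Ω : Type} [Field Ω] [CharP Ω 3] [IsAlgClosed Ω] (φ : (ZMod (3 * p ^ (n + 1)))ˣ →* Ωˣ)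
    (h1 : φ (-1) = -1)
    (h2 : ∀ t, ZMod.unitsMap (Dvd.intro_left 3 rfl) t = (-1 : (ZMod (p ^ (n + 1)))ˣ) →
      ZMod.unitsMap (Dvd.intro _ rfl) t = (1 : (ZMod 3)ˣ) → φ t = 1)
    (h3 : ∃ h, ZMod.unitsMap (Nat.mul_dvd_mul_left 3 (pow_dvd_pow p (Nat.succ_le_succ hmn))) h = 1 ∧ φ h ≠ 1) :
    ∃ c, 1 < c ∧ c < 3 * p ^ (n + 1) ∧ c.Coprime (3 * p ^ (n + 1)) ∧ St (p ^ (n + 1)) c φ ≠ 0 := by
  have hpp : p.Prime := Fact.out
  obtain ⟨k, hmk, hkn, χ, hev, hprim, hφ⟩ := exists_prim hp hmn φ h2 h3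
  obtain ⟨h, hh, hne⟩ := h3
  have hp3 : ¬ p ∣ 3 := by
    intro h0
    have := Nat.le_of_dvd (by norm_num) h0
    omega
  have hcast : ∀ j : ℕ, ((p ^ j : ℕ) : Ω) ≠ 0 := by
    intro j h0
    rw [CharP.cast_eq_zero_iff Ω 3] at h0
    have h2' := Nat.prime_three.dvd_of_dvd_pow h0
    exact hp3 (((Nat.prime_dvd_prime_iff_eq Nat.prime_three hpp).mp h2').symm ▸ dvd_refl _)
  have hval : (h : ZMod (3 * p ^ (n + 1))).val % 3 = 1 := by
    rw [val_mod_three (Dvd.intro _ rfl)]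
    have hc := ZMod.unitsMap_comp (Dvd.intro (p ^ (m + 1)) rfl : 3 ∣ 3 * p ^ (m + 1))
      (Nat.mul_dvd_mul_left 3 (pow_dvd_pow p (Nat.succ_le_succ hmn)))
    have hc2 := congrArg (fun f => f h) hc
    simp only [MonoidHom.comp_apply] at hc2
    exact (hc2.symm.trans (congrArg _ hh)).trans (map_one _)
  have hN1 : 1 < 3 * p ^ (n + 1) := by
    have : 0 < p ^ (n + 1) := pow_pos hpp.pos _
    omega
  have hcop := ZMod.val_coe_unit_coprime h
  refine ⟨(h : ZMod (3 * p ^ (n + 1))).val, ?_, ZMod.val_lt _, hcop, ?_⟩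
  · have h0 : (h : ZMod (3 * p ^ (n + 1))).val ≠ 0 := by
      intro h0
      rw [h0] at hval
      omega
    have h1' : (h : ZMod (3 * p ^ (n + 1))).val ≠ 1 := by
      intro h1'
      apply hne
      have : h = 1 := by
        apply Units.ext
        rw [Units.val_one, ← ZMod.natCast_zmod_val (h : ZMod (3 * p ^ (n + 1))), h1', Nat.cast_one]
      rw [this, map_one]
    omega
  · intro h0
    have hf := stick_formula φ h hval hne
    rw [h0, mul_zero] at hf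
    have hB : Bm (p ^ (n + 1)) φ = 0 := by
      rcases mul_eq_zero.1 hf.symm with h5 | h5
      · exfalso
        apply hne
        apply Units.ext
        rw [Units.val_one]
        exact (sub_eq_zero.1 h5).symm
      · exact h5
    have : NeZero ((p ^ (k + 1) : ℕ) : Ω) := ⟨hcast (k + 1)⟩
    obtain ⟨z, hz⟩ := HasEnoughRootsOfUnity.exists_primitiveRoot Ω (p ^ (k + 1))
    have hF := fourier hp hkn hz φ χ hev hprim h1 hφ
    rw [hB, mul_zero] at hF
    rcases mul_eq_zero.1 hF.symm with h5 | h5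
    · exact hcast _ h5
    · exact hS k (by omega) Ω z hz χ hev hprim h5

end H55T3
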