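import Pool.Agent.H55.T3.Mk
import Pool.Agent.H55.T3.Me
import Pool.Agent.H55.T3.Mu
import Pool.Agent.H55.T3.Mz

/-!
Row Mn (about 180 lines): assembly of block M. Use only the STATEMENTS of Mk, Me, Mu, Mz (and of Mc, Mr which they import).

PROOF of `principal_I`. `N = 3 p^(n+1)`; `G = (C ≃ₐ[ℚ] C)`, `κ = kap p n C : G ≃* (ZMod N)ˣ`. Suppose `I` is not principal. `exists_phi N`: `Ω`, `φ`.
For `θ : G → ℕ` with `∏ g, (g y)^θ g` a cube in `C`, `∑ θ g φ(κ g) = 0` (`isPrincipal_of_cube`, (R)).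
(1) `φ(-1) = -1`: `J = κ.symm (-1)`, `θ = Pi.single J 1 + Pi.single 1 1`: `∏ = J(y) * y`, a cube (`hJ`), so `φ(κ J) + φ 1 = 0`. (If `J = 1` the same `θ` works too.) So `φ(-1) = -1` as units.
(2) `h2` of `exists_St_ne`: `t` with the two conditions, `g = κ.symm t`, `θ = Pi.single g 1 + Pi.single 1 2`: `∏ = g(y) y^2 = (y s)^3`, so `φ(t) + 2 = 0`, `φ t = -2 = 1` (char 3).
(3) `h3`: `θ = indicator of InH`: `∏ = ∏_{InH} g y`, a cube, so `∑_{g, InH} φ(κ g) = 0`; if `φ h = 1` for all `h` in the kernel, the sum is `card = 0` in `Ω`, so `3 ∣ card` (`CharP.cast_eq_zero_iff`), against `card_InH`.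
(4) `exists_St_ne` gives `c` with `St (p^(n+1)) c φ ≠ 0`. But `hSt c .. I`: `∏ g, (g⁻¹ • I)^(c * tt N C g / N)` is principal; reindex `g → g⁻¹` (`Fintype.prod_equiv (Equiv.inv _)`): `θ g = c * tt N C g⁻¹ / N`,
    `∑_g (c * tt N C g⁻¹ / N) φ(κ g) = 0`, reindex again: `∑_g (c * tt N C g / N) φ(κ g)⁻¹ = 0`, and `t = κ g` (`tt N C g = (κ g : ZMod N).val` by definition): this is `St (p^(n+1)) c φ = 0`.
PROOF of `noNewC`. `exists_cube_ideal`: `e = y b^3`. The hypotheses on `e` give those on `y` (divide by cubes: `g e = g y (g b)^3`; for the product over `InH`: `∏ g e = (∏ g y) (∏ g b)^3`). So `I = span {β}`, `β ≠ 0`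
(`Ideal.IsPrincipal` / `Submodule.IsPrincipal.principal`), `span {y} = span {β^3}`, `y = u β^3` with a unit `u` (`Ideal.span_singleton_eq_span_singleton`, `Associated`). The hypotheses on `y` give those on `u`
(divide by cubes again), `unit_cube`: `u = s^3`, `e = (s β b)^3`.
-/

set_option autoImplicit false
open scoped Classical Pointwise

open IsDedekindDomain NumberField Finset

namespace H55T3

variable {p n : ℕ} [Fact p.Prime] {C : Type} [Field C] [NumberField C]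
  [IsCyclotomicExtension {3 * p ^ (n + 1)} ℚ C]

omit [NumberField C] [IsCyclotomicExtension {3 * p ^ (n + 1)} ℚ C] [Fact p.Prime] in
theorem Mn_prod {G M : Type*} [Fintype G] [CommMonoid M] (f : G → M) (a : G) (k : ℕ) :
    ∏ g, f g ^ (Pi.single a k : G → ℕ) g = f a ^ k := by
  rw [Finset.prod_eq_single a]
  · rw [Pi.single_eq_same]
  · intro b _ hb
    rw [Pi.single_eq_of_ne hb, pow_zero]
  · intro h
    exact absurd (Finset.mem_univ a) h

theorem Mn_sum {G M : Type*} [Fintype G] [CommSemiring M] (f : G → M) (a : G) (k : ℕ) :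
    ∑ g, (((Pi.single a k : G → ℕ) g : ℕ) : M) * f g = k * f a := by
  rw [Finset.sum_eq_single a]
  · rw [Pi.single_eq_same]
  · intro b _ hb
    rw [Pi.single_eq_of_ne hb, Nat.cast_zero, zero_mul]
  · intro h
    exact absurd (Finset.mem_univ a) h

theorem principal_I {k0 m : ℕ} (hp : 5 ≤ p) (hS : NV3 p k0) (hm : k0 ≤ m + 1) (hmn : m ≤ n)
    (hSt : Stick (3 * p ^ (n + 1)) C) {y : 𝓞 C} (hy : y ≠ 0) {I : Ideal (𝓞 C)}
    (hI : I ^ 3 = Ideal.span {y})
    (hH : ∃ s : C, ∏ g ∈ univ.filter (fun g => InH p m n hmn C g), g (y : C) = s ^ 3)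
    (hτ : ∀ g : C ≃ₐ[ℚ] C,
      ZMod.unitsMap (Dvd.intro_left 3 rfl) (kap p n C g) = (-1 : (ZMod (p ^ (n + 1)))ˣ) →
      ZMod.unitsMap (Dvd.intro _ rfl) (kap p n C g) = (1 : (ZMod 3)ˣ) → ∃ s : C, g (y : C) = (y : C) * s ^ 3)
    (hJ : ∀ g : C ≃ₐ[ℚ] C, kap p n C g = -1 → ∃ s : C, (y : C) * g (y : C) = s ^ 3) : I.IsPrincipal := by
  haveI : IsGalois ℚ C := IsCyclotomicExtension.isGalois {3 * p ^ (n + 1)} ℚ C
  by_contra hnp
  obtain ⟨Ω, iF, iC, iA, φ, hφ⟩ := exists_phi (3 * p ^ (n + 1)) hy hI hnp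
  letI := iF
  haveI := iC
  haveI := iA
  have h3Ω : (3 : Ω) = 0 := by
    have := CharP.cast_eq_zero Ω 3
    exact_mod_cast this
  have R : ∀ θ : (C ≃ₐ[ℚ] C) → ℕ, (∃ s : C, ∏ g, (g (y : C)) ^ θ g = s ^ 3) →
      ∑ g, (θ g : Ω) * (φ (kap p n C g) : Ω) = 0 := by
    rintro θ ⟨s, hs⟩
    exact hφ θ (isPrincipal_of_cube hI θ hs)
  have hI0 : I ≠ ⊥ := by
    rintro rfl
    apply hy
    have h0 : (⊥ : Ideal (𝓞 C)) ^ 3 = ⊥ := by
      rw [← Ideal.zero_eq_bot, zero_pow three_ne_zero]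
    rw [h0] at hI
    exact Ideal.span_singleton_eq_bot.1 hI.symm
  have hk1 : kap p n C 1 = 1 := map_one _
  have h1 : φ (-1) = -1 := by
    obtain ⟨J, hJJ⟩ : ∃ J, kap p n C J = -1 :=
      (IsCyclotomicExtension.Rat.galEquivZMod (3 * p ^ (n + 1)) C).surjective (-1)
    obtain ⟨s, hs⟩ := hJ J hJJ
    have h := R (Pi.single J 1 + Pi.single 1 1) ⟨s, by
      simp only [Pi.add_apply, pow_add, Finset.prod_mul_distrib]
      rw [Mn_prod (fun g : C ≃ₐ[ℚ] C => g (y : C)), Mn_prod (fun g : C ≃ₐ[ℚ] C => g (y : C)), pow_one, pow_one,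
        AlgEquiv.one_apply, mul_comm, hs]⟩
    simp only [Pi.add_apply, Nat.cast_add, add_mul, Finset.sum_add_distrib] at h
    rw [Mn_sum (fun g => (φ (kap p n C g) : Ω)), Mn_sum (fun g => (φ (kap p n C g) : Ω)), hJJ, hk1, map_one,
      Nat.cast_one, one_mul, one_mul, Units.val_one] at h
    apply Units.ext
    rw [Units.val_neg, Units.val_one]
    exact eq_neg_of_add_eq_zero_left h
  have h2 : ∀ t, ZMod.unitsMap (Dvd.intro_left 3 rfl) t = (-1 : (ZMod (p ^ (n + 1)))ˣ) →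
      ZMod.unitsMap (Dvd.intro _ rfl) t = (1 : (ZMod 3)ˣ) → φ t = 1 := by
    intro t ht1 ht2
    obtain ⟨g, rfl⟩ := (IsCyclotomicExtension.Rat.galEquivZMod (3 * p ^ (n + 1)) C).surjective t
    obtain ⟨s, hs⟩ := hτ g ht1 ht2
    have h := R (Pi.single g 1 + Pi.single 1 2) ⟨(y : C) * s, by
      simp only [Pi.add_apply, pow_add, Finset.prod_mul_distrib]
      rw [Mn_prod (fun g : C ≃ₐ[ℚ] C => g (y : C)), Mn_prod (fun g : C ≃ₐ[ℚ] C => g (y : C)), pow_one,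
        AlgEquiv.one_apply, hs]
      ring⟩
    simp only [Pi.add_apply, Nat.cast_add, add_mul, Finset.sum_add_distrib] at h
    rw [Mn_sum (fun g => (φ (kap p n C g) : Ω)), Mn_sum (fun g => (φ (kap p n C g) : Ω)), hk1, map_one,
      Nat.cast_one, one_mul, Units.val_one, mul_one] at h
    apply Units.ext
    rw [Units.val_one]
    have h' : (φ (kap p n C g) : Ω) + 2 = 0 := by exact_mod_cast h
    linear_combination h' - h3Ω
  have h3 : ∃ h, ZMod.unitsMap (Nat.mul_dvd_mul_left 3 (pow_dvd_pow p (Nat.succ_le_succ hmn))) h = 1 ∧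
      φ h ≠ 1 := by
    by_contra hcon
    push Not at hcon
    obtain ⟨s, hs⟩ := hH
    have h := R (fun g => if InH p m n hmn C g then 1 else 0) ⟨s, by
      rw [← hs, Finset.prod_filter]
      apply Finset.prod_congr rfl
      intro g _
      split_ifs
      · rw [pow_one]
      · rw [pow_zero]⟩
    have h' : ((univ.filter (fun g : C ≃ₐ[ℚ] C => InH p m n hmn C g)).card : Ω) = 0 := by
      rw [← h, Finset.card_filter, Nat.cast_sum]
      apply Finset.sum_congr rfl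
      intro g _
      by_cases hg : InH p m n hmn C g
      · rw [if_pos hg, Nat.cast_one, one_mul, hcon _ hg, Units.val_one]
      · rw [if_neg hg, Nat.cast_zero, zero_mul]
    rw [CharP.cast_eq_zero_iff Ω 3] at h'
    have h4 := card_InH (C := C) hp hmn
    have h5 := Nat.Coprime.eq_one_of_dvd h4 h'
    omega
  obtain ⟨c, hc1, hcN, hcop, hne⟩ := exists_St_ne hp hS hm hmn φ h1 h2 h3
  apply hne
  have hpr := hSt c hc1 hcN hcop I hI0
  have hpr2 : (∏ g : C ≃ₐ[ℚ] C, (g • I) ^ (c * tt (3 * p ^ (n + 1)) C g⁻¹ / (3 * p ^ (n + 1)))).IsPrincipal := by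
    rw [← Fintype.prod_equiv (Equiv.inv (C ≃ₐ[ℚ] C)) (fun g => (g⁻¹ • I) ^ (c * tt (3 * p ^ (n + 1)) C g / (3 * p ^ (n + 1))))]
    · exact hpr
    · intro g
      rw [Equiv.inv_apply, inv_inv]
  have h := hφ (fun g => c * tt (3 * p ^ (n + 1)) C g⁻¹ / (3 * p ^ (n + 1))) hpr2
  rw [← h]
  unfold St
  symm
  apply Fintype.sum_equiv ((Equiv.inv (C ≃ₐ[ℚ] C)).trans
    (IsCyclotomicExtension.Rat.galEquivZMod (3 * p ^ (n + 1)) C).toEquiv)
  intro g
  simp only [Equiv.trans_apply, Equiv.inv_apply, MulEquiv.toEquiv_eq_coe, MulEquiv.coe_toEquiv, EquivLike.coe_coe]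
  rw [map_inv, map_inv, inv_inv, mul_comm]
  rfl

theorem noNewC {k0 m : ℕ} (hp : 5 ≤ p) (hS : NV3 p k0) (hm : k0 ≤ m + 1) (hmn : m ≤ n)
    (hSt : Stick (3 * p ^ (n + 1)) C) : NoNewC p m n hmn C := by
  intro e he hv hH hτ hJ
  obtain ⟨y, b, I, hy, hb, hI0, hI, rfl⟩ := exists_cube_ideal he hv
  have hyC : (y : C) ≠ 0 := RingOfIntegers.coe_ne_zero_iff.mpr hy
  have hg0 : ∀ (g : C ≃ₐ[ℚ] C) (x : C), x ≠ 0 → g x ≠ 0 := by
    intro g x hx h0
    exact hx ((map_eq_zero g).1 h0)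
  have hH' : ∃ s : C, ∏ g ∈ univ.filter (fun g => InH p m n hmn C g), g (y : C) = s ^ 3 := by
    obtain ⟨s, hs⟩ := hH
    have hb' : ∏ g ∈ univ.filter (fun g : C ≃ₐ[ℚ] C => InH p m n hmn C g), g b ≠ 0 :=
      Finset.prod_ne_zero_iff.2 (fun g _ => hg0 g b hb)
    refine ⟨s / ∏ g ∈ univ.filter (fun g : C ≃ₐ[ℚ] C => InH p m n hmn C g), g b, ?_⟩
    rw [div_pow, ← hs, eq_div_iff (pow_ne_zero _ hb')]
    simp only [map_mul, map_pow, Finset.prod_mul_distrib, Finset.prod_pow]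
  have hτ' : ∀ g : C ≃ₐ[ℚ] C,
      ZMod.unitsMap (Dvd.intro_left 3 rfl) (kap p n C g) = (-1 : (ZMod (p ^ (n + 1)))ˣ) →
      ZMod.unitsMap (Dvd.intro _ rfl) (kap p n C g) = (1 : (ZMod 3)ˣ) →
      ∃ s : C, g (y : C) = (y : C) * s ^ 3 := by
    intro g h1 h2
    obtain ⟨s, hs⟩ := hτ g h1 h2
    have hgb := hg0 g b hb
    refine ⟨b * s / g b, ?_⟩
    rw [map_mul, map_pow] at hs
    field_simp
    linear_combination hs
  have hJ' : ∀ g : C ≃ₐ[ℚ] C, kap p n C g = -1 → ∃ s : C, (y : C) * g (y : C) = s ^ 3 := by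
    intro g h1
    obtain ⟨s, hs⟩ := hJ g h1
    have hgb := hg0 g b hb
    refine ⟨s / (b * g b), ?_⟩
    rw [map_mul, map_pow] at hs
    field_simp
    linear_combination hs
  obtain ⟨β, hβ⟩ := (principal_I hp hS hm hmn hSt hy hI hH' hτ' hJ').principal
  have hβ' : I = Ideal.span {β} := hβ
  have hβ0 : β ≠ 0 := by
    rintro rfl
    apply hI0
    rw [hβ']
    exact Ideal.span_singleton_eq_bot.2 rfl
  have hβC : (β : C) ≠ 0 := RingOfIntegers.coe_ne_zero_iff.mpr hβ0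
  rw [hβ', Ideal.span_singleton_pow, Ideal.span_singleton_eq_span_singleton] at hI
  obtain ⟨u, hu⟩ := hI
  have huC : (y : C) = (β : C) ^ 3 * ((u : 𝓞 C) : C) := by
    have := congrArg (algebraMap (𝓞 C) C) hu
    rw [map_mul, map_pow] at this
    exact this.symm
  have hu0 : ((u : 𝓞 C) : C) ≠ 0 := by
    intro h0
    rw [h0, mul_zero] at huC
    exact hyC huC
  obtain ⟨s, hs⟩ := unit_cube hp hmn (u := u) (C := C) (by
    intro g h1
    obtain ⟨s, hs⟩ := hJ' g h1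
    have hgb := hg0 g _ hβC
    refine ⟨s / (β * g β), ?_⟩
    rw [huC, map_mul, map_pow] at hs
    field_simp
    linear_combination hs) (by
    obtain ⟨s, hs⟩ := hH'
    have hb' : ∏ g ∈ univ.filter (fun g : C ≃ₐ[ℚ] C => InH p m n hmn C g), g (β : C) ≠ 0 :=
      Finset.prod_ne_zero_iff.2 (fun g _ => hg0 g _ hβC)
    refine ⟨s / ∏ g ∈ univ.filter (fun g : C ≃ₐ[ℚ] C => InH p m n hmn C g), g (β : C), ?_⟩
    rw [div_pow, ← hs, eq_div_iff (pow_ne_zero _ hb'), huC]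
    simp only [map_mul, map_pow, Finset.prod_mul_distrib, Finset.prod_pow]
    ring)
  refine ⟨s * β * b, ?_⟩
  rw [huC, hs]
  ring

end H55T3
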