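import Pool.Agent.H55.T3.Nfo

/-!
Row Nfb (about 180 lines): all conjugates vanish.

PROOF. n = 5^k, n' = 5^(k-1), ε = l^n, ε^2 = 1, so ε^3 = ε. Write y_j = y^(3^j), (a + b)^(3^j) = a^(3^j) + b^(3^j) (add_pow_char_pow). S = y + ε y_n, S_j = S^(3^j) = y_j + ε y_(n+j), S_n = y_n + ε y_(2n) = ε S.
For λ with λ^n = ε put T(λ) = ∑_{j<n} λ^j S_j = ∑_{j<2n} λ^j y_j. T(l) = 0 by hT.
(1) λ^3 T(λ)^3 = ∑_{j<n} (λ^3)^(j+1) S_(j+1) = T(λ^3) + (λ^3)^n S_n - S = T(λ^3) (Finset.sum_range_succ'); so T(l^(3^i)) = 0 for all i.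
(2) μ = ε l: μ^n = ε^n ε = 1 (n odd), μ^(2 n') = l^(2 n') ≠ 1, so μ is a primitive 5^k-th root of unity; l^(3^i) = ε μ^(3^i). As 3 generates the units modulo 5^k (t5_gen (k-1)), T(ε μ^u) = 0 for all u prime to 5
   (u ≡ 3^i mod 5^k gives μ^u = μ^(3^i)).
(3) sum over u < n, 5 ∤ u: ∑_{u<n} μ^(u j) = n if j = 0, 0 for 0 < j < n; ∑_{u<n, 5 | u} μ^(u j) = ∑_{i<n'} (μ^5)^(i j) = n' if n' | j, else 0 (μ^5 is primitive of order n'). So
   0 = n S - n' ∑_{i<5} ε^(i n') S_(i n'), and n' ≠ 0 in Ω, ε^(i n') = ε^i (n' odd): 5 S = R, R = ∑_{i<5} ε^i S_(i n').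
(4) ε R^(3^n') = ∑_{i<5} ε^(i+1) S_((i+1) n') = R - S + ε^5 S_n = R (S_(5 n') = S_n = ε S, ε^6 = 1). Since 5 = -1 in Ω, R = -S, so ε S_(n') = S, S_(n') = ε S, S_(4 n') = ε^4 S = S.
-/

set_option autoImplicit false
open scoped Classical

open Finset

namespace H55T3

theorem Nfb_range {M : Type*} [AddCommMonoid M] (f : ℕ → M) (m a : ℕ) :
    ∑ j ∈ range (m * a), f j = ∑ i ∈ range m, ∑ r ∈ range a, f (i * a + r) := by
  induction m with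
  | zero => simp
  | succ m ih => rw [Nat.succ_mul, Finset.sum_range_add, ih, Finset.sum_range_succ]

theorem Nfb_geom {Ω : Type*} [Field Ω] {x : Ω} {m : ℕ} (hx : x ^ m = 1) :
    ∑ u ∈ range m, x ^ u = if x = 1 then (m : Ω) else 0 := by
  split_ifs with h
  · rw [h]
    simp
  · have h1 := geom_sum_mul x m
    rw [hx, sub_self] at h1
    exact (mul_eq_zero.1 h1).resolve_right (sub_ne_zero.2 h)

theorem Nfb_odd {Ω : Type*} [Field Ω] {ε : Ω} (hε : ε ^ 2 = 1) {m : ℕ} (hm : Odd m) :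
    ε ^ m = ε := by
  obtain ⟨t, rfl⟩ := hm
  rw [pow_succ, pow_mul, hε, one_pow, one_mul]

theorem Nfb_odd3 (j : ℕ) : Odd (3 ^ j) := Odd.pow (by decide)

theorem Nfb_odd5 (j : ℕ) : Odd (5 ^ j) := Odd.pow (by decide)

theorem Nfb_step {Ω : Type*} [Field Ω] [CharP Ω 3] {n : ℕ} {ε S lam : Ω} (hε : ε ^ 2 = 1)
    (hS : S ^ 3 ^ n = ε * S) (hl : lam ^ n = ε)
    (h0 : ∑ j ∈ range n, lam ^ j * S ^ 3 ^ j = 0) :
    (lam ^ 3) ^ n = ε ∧ ∑ j ∈ range n, (lam ^ 3) ^ j * S ^ 3 ^ j = 0 := by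
  haveI : Fact (Nat.Prime 3) := ⟨Nat.prime_three⟩
  have hn : (lam ^ 3) ^ n = ε := by
    rw [← pow_mul, mul_comm, pow_mul, hl]
    exact Nfb_odd hε (by decide)
  refine ⟨hn, ?_⟩
  have h1 : ∑ j ∈ range n, (lam ^ 3) ^ (j + 1) * S ^ 3 ^ (j + 1) = 0 := by
    have h2 := congrArg (fun x => lam ^ 3 * frobenius Ω 3 x) h0
    simp only [map_sum, map_zero, mul_zero, Finset.mul_sum, frobenius_def] at h2
    rw [← h2]
    apply Finset.sum_congr rfl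
    intro j _
    rw [mul_pow, ← pow_mul, ← pow_mul, ← pow_mul, pow_succ 3 j]
    ring
  have h3 := Finset.sum_range_succ' (fun j => (lam ^ 3) ^ j * S ^ 3 ^ j) n
  rw [Finset.sum_range_succ, h1, hn, hS] at h3
  simp only [pow_zero, one_mul, zero_add, pow_one] at h3
  linear_combination h3 - S * hε

theorem Nfb_all {Ω : Type*} [Field Ω] [CharP Ω 3] {n : ℕ} {ε S lam : Ω} (hε : ε ^ 2 = 1)
    (hS : S ^ 3 ^ n = ε * S) (hl : lam ^ n = ε)
    (h0 : ∑ j ∈ range n, lam ^ j * S ^ 3 ^ j = 0) (i : ℕ) :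
    (lam ^ 3 ^ i) ^ n = ε ∧ ∑ j ∈ range n, (lam ^ 3 ^ i) ^ j * S ^ 3 ^ j = 0 := by
  induction i with
  | zero =>
    rw [pow_zero, pow_one]
    exact ⟨hl, h0⟩
  | succ i ih =>
    rw [pow_succ 3 i, pow_mul lam]
    exact Nfb_step hε hS ih.1 ih.2

theorem Nfb_unit {Ω : Type*} [Field Ω] [CharP Ω 3] {k : ℕ} {ε S lam μ : Ω} (hε : ε ^ 2 = 1)
    (hS : S ^ 3 ^ 5 ^ (k + 1) = ε * S) (hl : lam ^ 5 ^ (k + 1) = ε)
    (h0 : ∑ j ∈ range (5 ^ (k + 1)), lam ^ j * S ^ 3 ^ j = 0) (hμ : μ = ε * lam)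
    (hord : orderOf μ = 5 ^ (k + 1)) (u : ℕ) (hu : ¬ 5 ∣ u) :
    ∑ j ∈ range (5 ^ (k + 1)), (ε * μ ^ u) ^ j * S ^ 3 ^ j = 0 := by
  have hcop : Nat.Coprime u (5 ^ (k + 1)) :=
    Nat.Coprime.pow_right _ ((Nat.Prime.coprime_iff_not_dvd (by norm_num)).2 hu).symm
  obtain ⟨i, _, hi⟩ := t5_gen k (ZMod.unitOfCoprime u hcop)
  have h1 := congrArg (fun x : (ZMod (5 ^ (k + 1)))ˣ => (x : ZMod (5 ^ (k + 1)))) hi
  simp only [Units.val_pow_eq_pow_val, t5_coe, ZMod.coe_unitOfCoprime] at h1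
  have h2 : 3 ^ i ≡ u [MOD 5 ^ (k + 1)] := by
    rw [← ZMod.natCast_eq_natCast_iff]
    push_cast
    exact h1
  have h3 : μ ^ u = μ ^ 3 ^ i := by
    have h5 : 3 ^ i % 5 ^ (k + 1) = u % 5 ^ (k + 1) := h2
    rw [← pow_mod_orderOf μ u, ← pow_mod_orderOf μ (3 ^ i), hord, h5]
  have h4 : ε * μ ^ u = lam ^ 3 ^ i := by
    rw [h3, hμ, mul_pow, Nfb_odd hε (Nfb_odd3 i), ← mul_assoc, ← sq, hε, one_mul]
  rw [h4]
  exact (Nfb_all hε hS hl h0 i).2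

theorem Nfb_sum1 {Ω : Type*} [Field Ω] {n : ℕ} (hn : 0 < n) {ε μ : Ω} (s : ℕ → Ω)
    (hord : orderOf μ = n) :
    ∑ u ∈ range n, ∑ j ∈ range n, (ε * μ ^ u) ^ j * s j = n * s 0 := by
  rw [Finset.sum_comm]
  have hμn : μ ^ n = 1 := by rw [← hord]; exact pow_orderOf_eq_one μ
  have h1 : ∀ j ∈ range n, ∑ u ∈ range n, (ε * μ ^ u) ^ j * s j =
      if j = 0 then (n : Ω) * s 0 else 0 := by
    intro j hj
    have h2 : ∑ u ∈ range n, (ε * μ ^ u) ^ j * s j = ε ^ j * s j * ∑ u ∈ range n, (μ ^ j) ^ u := by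
      rw [Finset.mul_sum]
      apply Finset.sum_congr rfl
      intro u _
      rw [mul_pow, ← pow_mul, ← pow_mul, mul_comm u j]
      ring
    rw [h2, Nfb_geom (by rw [← pow_mul, mul_comm, pow_mul, hμn, one_pow])]
    by_cases hj0 : j = 0
    · rw [if_pos hj0, hj0, pow_zero, pow_zero, if_pos rfl]
      ring
    · rw [if_neg hj0, if_neg, mul_zero]
      intro h3
      have h4 := orderOf_dvd_of_pow_eq_one h3
      rw [hord] at h4
      have h5 := Nat.le_of_dvd (Nat.pos_of_ne_zero hj0) h4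
      rw [Finset.mem_range] at hj
      omega
  rw [Finset.sum_congr rfl h1, Finset.sum_ite_eq' (range n) 0, if_pos (Finset.mem_range.2 hn)]

theorem Nfb_sum2 {Ω : Type*} [Field Ω] {n' : ℕ} (hn : 0 < n') {ε μ : Ω} (s : ℕ → Ω)
    (hord : orderOf μ = 5 * n') :
    ∑ i ∈ range n', ∑ j ∈ range (5 * n'), (ε * μ ^ (i * 5)) ^ j * s j =
      n' * ∑ i ∈ range 5, ε ^ (i * n') * s (i * n') := by
  rw [Finset.sum_comm]
  have hμn : μ ^ (5 * n') = 1 := by rw [← hord]; exact pow_orderOf_eq_one μ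
  have h1 : ∀ j ∈ range (5 * n'), ∑ i ∈ range n', (ε * μ ^ (i * 5)) ^ j * s j =
      if n' ∣ j then (n' : Ω) * (ε ^ j * s j) else 0 := by
    intro j hj
    have h2 : ∑ i ∈ range n', (ε * μ ^ (i * 5)) ^ j * s j =
        ε ^ j * s j * ∑ i ∈ range n', (μ ^ (5 * j)) ^ i := by
      rw [Finset.mul_sum]
      apply Finset.sum_congr rfl
      intro u _
      rw [mul_pow, ← pow_mul, ← pow_mul, show u * 5 * j = 5 * j * u by ring]
      ring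
    rw [h2, Nfb_geom (by rw [← pow_mul, show 5 * j * n' = 5 * n' * j by ring, pow_mul, hμn, one_pow])]
    have h3 : μ ^ (5 * j) = 1 ↔ n' ∣ j := by
      rw [← orderOf_dvd_iff_pow_eq_one, hord]
      exact Nat.mul_dvd_mul_iff_left (by norm_num)
    by_cases hj0 : n' ∣ j
    · rw [if_pos hj0, if_pos (h3.2 hj0)]
      ring
    · rw [if_neg hj0, if_neg (fun h => hj0 (h3.1 h)), mul_zero]
  rw [Finset.sum_congr rfl h1, Nfb_range, Finset.mul_sum]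
  apply Finset.sum_congr rfl
  intro i _
  rw [Finset.sum_eq_single 0]
  · rw [add_zero, if_pos (dvd_mul_left n' i)]
  · intro r hr hr0
    rw [if_neg]
    intro h
    have h4 : n' ∣ r := (Nat.dvd_add_right (dvd_mul_left n' i)).1 h
    have h5 := Nat.le_of_dvd (Nat.pos_of_ne_zero hr0) h4
    rw [Finset.mem_range] at hr
    omega
  · intro h
    exact absurd (Finset.mem_range.2 hn) h

theorem Nfb_main {Ω : Type*} [Field Ω] [CharP Ω 3] {k : ℕ} {ε S lam : Ω} (hε : ε ^ 2 = 1)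
    (hS : S ^ 3 ^ 5 ^ (k + 1) = ε * S) (hl : lam ^ 5 ^ (k + 1) = ε)
    (h0 : ∑ j ∈ range (5 ^ (k + 1)), lam ^ j * S ^ 3 ^ j = 0) (hne : lam ^ (2 * 5 ^ k) ≠ 1) :
    S ^ 3 ^ (4 * 5 ^ k) = S := by
  haveI : Fact (Nat.Prime 3) := ⟨Nat.prime_three⟩
  haveI : Fact (Nat.Prime 5) := ⟨by norm_num⟩
  set μ : Ω := ε * lam with hμ
  set n' : ℕ := 5 ^ k with hn'
  have hn5 : 5 ^ (k + 1) = 5 * n' := by rw [hn', pow_succ]; ring
  have hn'0 : 0 < n' := by positivity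
  have hodd' : Odd n' := Nfb_odd5 k
  have hord : orderOf μ = 5 ^ (k + 1) := by
    apply orderOf_eq_prime_pow
    · intro h
      apply hne
      have h1 : (μ ^ 5 ^ k) ^ 2 = 1 := by rw [h, one_pow]
      rw [hμ, mul_pow, mul_pow, ← pow_mul, ← pow_mul, mul_comm (5 ^ k) 2, pow_mul ε, hε, one_pow,
        one_mul] at h1
      exact h1
    · rw [hμ, mul_pow, hl, Nfb_odd hε (Nfb_odd5 (k + 1)), ← sq, hε]
  have hF : ∀ u, ¬ 5 ∣ u → ∑ j ∈ range (5 ^ (k + 1)), (ε * μ ^ u) ^ j * S ^ 3 ^ j = 0 :=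
    fun u hu => Nfb_unit hε hS hl h0 hμ hord u hu
  have hA1 := Nfb_sum1 (ε := ε) (by positivity) (fun j => S ^ 3 ^ j) hord
  have hA2 := Nfb_sum2 (ε := ε) hn'0 (fun j => S ^ 3 ^ j) (hord.trans hn5)
  have hA : ∑ u ∈ range (5 ^ (k + 1)), ∑ j ∈ range (5 ^ (k + 1)), (ε * μ ^ u) ^ j * S ^ 3 ^ j =
      ∑ i ∈ range n', ∑ j ∈ range (5 * n'), (ε * μ ^ (i * 5)) ^ j * S ^ 3 ^ j := by
    have h1 : range (5 ^ (k + 1)) = range (n' * 5) := by rw [hn5, mul_comm]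
    conv_lhs => rw [h1]
    rw [Nfb_range]
    apply Finset.sum_congr rfl
    intro i _
    rw [Finset.sum_eq_single 0]
    · rw [add_zero, mul_comm n' 5]
    · intro r hr hr0
      rw [← h1]
      apply hF
      rw [Finset.mem_range] at hr
      omega
    · intro h
      exact absurd (Finset.mem_range.2 (by norm_num)) h
  rw [hA1, hA2, hn5] at hA
  have hnz : (n' : Ω) ≠ 0 := by
    intro h
    rw [CharP.cast_eq_zero_iff Ω 3] at h
    have h1 := Nat.Prime.dvd_of_dvd_pow Nat.prime_three h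
    omega
  have h3 : (3 : Ω) = 0 := by exact_mod_cast CharP.cast_eq_zero Ω 3
  have hεi : ∀ i, ε ^ (i * n') = ε ^ i := by
    intro i
    rw [mul_comm, pow_mul, Nfb_odd hε hodd']
  have hR : 5 * S = ∑ i ∈ range 5, ε ^ i * S ^ 3 ^ (i * n') := by
    apply mul_left_cancel₀ hnz
    simp only [hεi] at hA
    rw [← hA]
    push_cast
    ring
  have hSn : ∀ a b, (S ^ 3 ^ a) ^ 3 ^ b = S ^ 3 ^ (a + b) := by
    intro a b
    rw [← pow_mul, ← pow_add]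
  set R : Ω := ∑ i ∈ range 5, ε ^ i * S ^ 3 ^ (i * n') with hRdef
  have hRf : ε * R ^ 3 ^ n' = R := by
    have h1 : R ^ 3 ^ n' = ∑ i ∈ range 5, ε ^ i * S ^ 3 ^ ((i + 1) * n') := by
      rw [← iterateFrobenius_def, hRdef, map_sum]
      apply Finset.sum_congr rfl
      intro i _
      rw [iterateFrobenius_def, mul_pow, hSn, ← pow_mul, mul_comm i, pow_mul,
        Nfb_odd hε (Nfb_odd3 n'), Nat.succ_mul]
    have h2 : ε * R ^ 3 ^ n' = ∑ i ∈ range 5, ε ^ (i + 1) * S ^ 3 ^ ((i + 1) * n') := by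
      rw [h1, Finset.mul_sum]
      apply Finset.sum_congr rfl
      intro i _
      rw [pow_succ]
      ring
    have h3 := Finset.sum_range_succ' (fun i => ε ^ i * S ^ 3 ^ (i * n')) 5
    rw [Finset.sum_range_succ, ← h2, ← hRdef, ← hn5, hS] at h3
    simp only [pow_zero, one_mul, zero_mul, pow_one] at h3
    have h4 : ε ^ 5 = ε := Nfb_odd hε (by decide)
    rw [h4] at h3
    linear_combination -h3 + S * hε
  have hRS : R = -S := by
    rw [← hR]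
    linear_combination 2 * S * h3
  have h5 : S ^ 3 ^ n' = ε * S := by
    rw [hRS, Odd.neg_pow (Nfb_odd3 n')] at hRf
    linear_combination (-ε) * hRf - S ^ 3 ^ n' * hε
  have h6 : S ^ 3 ^ (2 * n') = S := by
    rw [two_mul, ← hSn, h5, mul_pow, Nfb_odd hε (Nfb_odd3 n'), h5, ← mul_assoc, ← sq, hε, one_mul]
  have h7 : 4 * n' = 2 * n' + 2 * n' := by ring
  rw [h7, ← hSn, h6, h6]

theorem conj_vanish {k : ℕ} (hk : 1 ≤ k) {Ω : Type*} [Field Ω] [CharP Ω 3] {y l : Ω}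
    (hy : y ^ 3 ^ (2 * 5 ^ k) = y) (hl : l ^ (2 * 5 ^ k) = 1) (hprim : l ^ (2 * 5 ^ (k - 1)) ≠ 1)
    (hT : ∑ j ∈ range (2 * 5 ^ k), l ^ j * y ^ 3 ^ j = 0) :
    (y + l ^ 5 ^ k * y ^ 3 ^ 5 ^ k) ^ 3 ^ (4 * 5 ^ (k - 1)) = y + l ^ 5 ^ k * y ^ 3 ^ 5 ^ k := by
  haveI : Fact (Nat.Prime 3) := ⟨Nat.prime_three⟩
  obtain ⟨k, rfl⟩ : ∃ k', k = k' + 1 := ⟨k - 1, by omega⟩
  rw [Nat.add_sub_cancel] at hprim ⊢
  set n : ℕ := 5 ^ (k + 1) with hn
  set ε : Ω := l ^ n with hε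
  have hε2 : ε ^ 2 = 1 := by rw [hε, ← pow_mul, mul_comm, hl]
  have hyn : ∀ a b, (y ^ 3 ^ a) ^ 3 ^ b = y ^ 3 ^ (a + b) := by
    intro a b
    rw [← pow_mul, ← pow_add]
  have hSj : ∀ j, (y + ε * y ^ 3 ^ n) ^ 3 ^ j = y ^ 3 ^ j + ε * y ^ 3 ^ (n + j) := by
    intro j
    rw [add_pow_char_pow, mul_pow, Nfb_odd hε2 (Nfb_odd3 j), hyn]
  apply Nfb_main hε2 _ hε.symm _ hprim
  · rw [← hn, hSj, ← two_mul, hy]
    linear_combination (-(y ^ 3 ^ n)) * hε2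
  · rw [← hn]
    rw [two_mul, Finset.sum_range_add, ← Finset.sum_add_distrib] at hT
    rw [← hT]
    apply Finset.sum_congr rfl
    intro j _
    rw [hSj, pow_add l n j, ← hε]
    ring

end H55T3
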