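import Pool.Agent.H55.T3.Z1

/-!
ROW Z2 (from `T(χ) = 0` to a restricted sum, characteristic three; adapted from H5/SW/S2).
-/

set_option autoImplicit false

namespace H55T3

open Finset H5SW

theorem Z2_Fr_pow {Ω : Type*} [Field Ω] [CharP Ω 3] (x : Ω) (i : ℕ) : Fr3 x ^ (3 ^ i) = Fr3 (x ^ (3 ^ i)) := by
  have : Fact (Nat.Prime 3) := ⟨Nat.prime_three⟩
  have h1 : (1 - x) ^ (3 ^ i) = 1 - x ^ (3 ^ i) := by
    rw [sub_pow_char_pow, one_pow]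
  unfold Fr3
  rw [div_pow, ← pow_mul, mul_comm 2, pow_mul, h1]

theorem Z2_pow_mod {Ω : Type*} [Field Ω] {f : ℕ} {z : Ω} (hz : z ^ f = 1) (N : ℕ) : z ^ (N % f) = z ^ N := by
  conv_rhs => rw [← Nat.div_add_mod N f, pow_add, pow_mul, hz, one_pow, one_mul]

theorem Z2_Z_nat {Ω : Type*} [Field Ω] {f : ℕ} {z : Ω} (hz : z ^ f = 1) (N : ℕ) :
    z ^ ((N : ZMod f)).val = z ^ N := by
  rw [ZMod.val_natCast]
  exact Z2_pow_mod hz N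

theorem Z2_Z_mul {Ω : Type*} [Field Ω] {f : ℕ} [NeZero f] {z : Ω} (hz : z ^ f = 1) (c : ℕ) (u : ZMod f) :
    z ^ ((c : ZMod f) * u).val = (z ^ u.val) ^ c := by
  have h1 : (c : ZMod f) * u = ((c * u.val : ℕ) : ZMod f) := by
    push_cast
    rw [ZMod.natCast_zmod_val]
  rw [h1, Z2_Z_nat hz, mul_comm, pow_mul]

theorem Z2_Z_neg {Ω : Type*} [Field Ω] {f : ℕ} [NeZero f] {z : Ω} (hz : z ^ f = 1) (u : ZMod f) :
    Fr3 (z ^ (-u).val) = Fr3 (z ^ u.val) := by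
  have hf0 : f ≠ 0 := NeZero.ne f
  have hz0 : z ≠ 0 := by
    rintro rfl
    rw [zero_pow hf0] at hz
    exact zero_ne_one hz
  by_cases hu : u = 0
  · subst hu
    rw [neg_zero]
  · have h1 : z ^ (-u).val = (z ^ u.val)⁻¹ := by
      rw [ZMod.neg_val, if_neg hu]
      have h2 := u.val_lt
      apply eq_inv_of_mul_eq_one_left
      rw [← pow_add, Nat.sub_add_cancel h2.le, hz]
    rw [h1]
    exact Fr3_inv (pow_ne_zero _ hz0)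

theorem Z2_step {Ω : Type*} [Field Ω] [CharP Ω 3] {f s : ℕ} [NeZero f] (hf : Odd f) (h3f : Nat.Coprime 3 f) (h1f : 1 < f)
    {z : Ω} (hz : z ^ f = 1) (χ : (ZMod f)ˣ →* Ωˣ) (hev : χ (-1) = 1)
    (h0 : Tc3 χ z = 0) (j : ℕ) :
    ∑ v ∈ Hf f, (χ v : Ω) ^ ((3 ^ s) ^ j) * Fr3 (z ^ (v : ZMod f).val) = 0 := by
  classical
  have : Fact (Nat.Prime 3) := ⟨Nat.prime_three⟩
  have hcop : Nat.Coprime (3 ^ (s * j)) f := Nat.Coprime.pow_left _ h3f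
  obtain ⟨Q, hQ⟩ : ∃ Q : (ZMod f)ˣ, (Q : ZMod f) = ((3 ^ (s * j) : ℕ) : ZMod f) :=
    ⟨ZMod.unitOfCoprime _ hcop, rfl⟩
  have hA := isHalf_Hf hf h1f
  have hB := isHalf_smul hA Q
  have hev2 : ∀ v : (ZMod f)ˣ, χ (-v) = χ v := by
    intro v
    rw [show -v = (-1) * v by rw [neg_one_mul], map_mul, hev, one_mul]
  have hsum := sum_half hA hB (fun v => (χ (Q⁻¹ * v) : Ω) ^ (3 ^ (s * j)) * Fr3 (z ^ (v : ZMod f).val))
    (by
      intro v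
      rw [mul_neg, hev2, Units.val_neg, Z2_Z_neg hz])
  rw [sum_image (by
    intro a _ b _ hab
    exact mul_left_cancel hab)] at hsum
  have hpow : (∑ u ∈ Hf f, (χ u : Ω) * Fr3 (z ^ (u : ZMod f).val)) ^ (3 ^ (s * j)) = 0 := by
    have h2 : (∑ u ∈ Hf f, (χ u : Ω) * Fr3 (z ^ (u : ZMod f).val)) = 0 := h0
    rw [h2]
    exact zero_pow (by positivity)
  rw [sum_pow_char_pow] at hpow
  have hr : ∑ u ∈ Hf f, (χ (Q⁻¹ * (Q * u)) : Ω) ^ (3 ^ (s * j)) *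
      Fr3 (z ^ ((Q * u : (ZMod f)ˣ) : ZMod f).val) = 0 := by
    rw [← hpow]
    refine sum_congr rfl (fun u _ => ?_)
    rw [inv_mul_cancel_left, mul_pow, Z2_Fr_pow, Units.val_mul, hQ, Z2_Z_mul hz]
  rw [hr] at hsum
  have hfac : ∑ v ∈ Hf f, (χ (Q⁻¹ * v) : Ω) ^ (3 ^ (s * j)) * Fr3 (z ^ (v : ZMod f).val)
      = (χ Q⁻¹ : Ω) ^ (3 ^ (s * j)) *
        ∑ v ∈ Hf f, (χ v : Ω) ^ ((3 ^ s) ^ j) * Fr3 (z ^ (v : ZMod f).val) := by
    rw [mul_sum]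
    refine sum_congr rfl (fun v _ => ?_)
    rw [map_mul, Units.val_mul, mul_pow, ← pow_mul 3 s j]
    ring
  rw [hfac] at hsum
  rcases mul_eq_zero.1 hsum with h | h
  · exact absurd h (pow_ne_zero _ (Units.ne_zero _))
  · exact h

open Classical in
theorem av2_3 {Ω : Type*} [Field Ω] [CharP Ω 3] {p k e s : ℕ} [Fact p.Prime] (hp5 : 5 ≤ p) (hQ : QD3 p e s)
    (hek : e ≤ k) {z : Ω} (hz : z ^ (p ^ (k + 1)) = 1) (χ : (ZMod (p ^ (k + 1)))ˣ →* Ωˣ) (hev : χ (-1) = 1)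
    (h0 : Tc3 χ z = 0) (a : (ZMod (p ^ (k + 1)))ˣ) :
    ∑ u ∈ (Hf (p ^ (k + 1))).filter (fun u => χ (u * a⁻¹) ^ (3 ^ s) = χ (u * a⁻¹)),
      (χ (u * a⁻¹) : Ω) * Fr3 (z ^ (u : ZMod (p ^ (k + 1))).val) = 0 := by
  have hp : p.Prime := Fact.out
  have hp2 : p ≠ 2 := by omega
  have hodd : Odd (p ^ (k + 1)) := (hp.odd_of_ne_two hp2).pow
  have h3f : Nat.Coprime 3 (p ^ (k + 1)) := by
    apply Nat.Coprime.pow_right
    rw [Nat.coprime_primes Nat.prime_three hp]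
    omega
  have h1f : 1 < p ^ (k + 1) := Nat.one_lt_pow (by omega) hp.one_lt
  have hstep : ∀ j : ℕ, ∑ v ∈ Hf (p ^ (k + 1)), (χ (v * a⁻¹) : Ω) ^ ((3 ^ s) ^ j) *
      Fr3 (z ^ (v : ZMod (p ^ (k + 1))).val) = 0 := by
    intro j
    have h2 : ∑ v ∈ Hf (p ^ (k + 1)), (χ (v * a⁻¹) : Ω) ^ ((3 ^ s) ^ j) *
        Fr3 (z ^ (v : ZMod (p ^ (k + 1))).val) = (χ a⁻¹ : Ω) ^ ((3 ^ s) ^ j) *
        ∑ v ∈ Hf (p ^ (k + 1)), (χ v : Ω) ^ ((3 ^ s) ^ j) * Fr3 (z ^ (v : ZMod (p ^ (k + 1))).val) := by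
      rw [mul_sum]
      refine sum_congr rfl (fun v _ => ?_)
      rw [map_mul, Units.val_mul, mul_pow]
      ring
    rw [h2, Z2_step hodd h3f h1f hz χ hev h0 j, mul_zero]
  have hsum : ∑ j ∈ range (p ^ (k + 1 - e)), ∑ v ∈ Hf (p ^ (k + 1)), (χ (v * a⁻¹) : Ω) ^ ((3 ^ s) ^ j) *
      Fr3 (z ^ (v : ZMod (p ^ (k + 1))).val) = 0 := sum_eq_zero (fun j _ => hstep j)
  rw [sum_comm] at hsum
  have hJ := three_cast_ne hp5 (k + 1 - e) Ω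
  rw [sum_filter]
  refine (mul_eq_zero.1 ?_).resolve_left hJ
  rw [mul_sum]
  refine Eq.trans ?_ hsum
  refine sum_congr rfl (fun v _ => ?_)
  have hy : ((χ (v * a⁻¹) : Ωˣ) : Ω) ^ ((p - 1) * p ^ k) = 1 := by
    have h3 : (v * a⁻¹) ^ ((p - 1) * p ^ k) = 1 := by
      have h4 : Fintype.card (ZMod (p ^ (k + 1)))ˣ = (p - 1) * p ^ k := by
        rw [ZMod.card_units_eq_totient, Nat.totient_prime_pow hp (Nat.succ_pos k), Nat.succ_sub_one]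
        ring
      rw [← h4]
      exact pow_card_eq_one
    rw [← Units.val_pow_eq_pow_val, ← map_pow, h3, map_one, Units.val_one]
  rw [← sum_mul, av1_3 hp5 hQ hek hy]
  by_cases h5 : χ (v * a⁻¹) ^ (3 ^ s) = χ (v * a⁻¹)
  · have h6 : ((χ (v * a⁻¹) : Ωˣ) : Ω) ^ (3 ^ s) = χ (v * a⁻¹) := by
      rw [← Units.val_pow_eq_pow_val, h5]
    rw [if_pos h5, if_pos h6]
    ring
  · have h6 : ¬ ((χ (v * a⁻¹) : Ωˣ) : Ω) ^ (3 ^ s) = χ (v * a⁻¹) := by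
      intro h7
      apply h5
      apply Units.ext
      rw [Units.val_pow_eq_pow_val, h7]
    rw [if_neg h5, if_neg h6, zero_mul, mul_zero]

end H55T3
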