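import Pool.Agent.H55.T3.Nfa
import Pool.Agent.H55.T3.Nfb
import Pool.Agent.H55.T3.Z2

/-!
Row Nfc (about 200 lines): the sums do not vanish for p = 5, from conductor 25 on.

PROOF. f = 5^(k+1), k ≥ 1, suppose Tc3 χ z = 0. t = t5 k, l = χ t, y = Fr3 z, ε = l^(5^k), v = z^(3^(5^k)), y^(3^j) = Fr3 (z^(3^j)) (Z2_Fr_pow).
(1) tc3_orbit: g(u) = χ(u) Fr3(z^u) is even (Z2_Z_neg, χ(-1) = 1); sum over all units = 2 * sum over Hf (compare Z2/Z3, H5/SW) = ∑_{j<4*5^k} g(t^j) (t5_gen, t5_order) = 2 ∑_{j<2*5^k} g(t^j) (t^(2*5^k) = -1); 2 ≠ 0.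
(2) hy: z^(3^(2*5^k)) = z^(-1) (t5_neg, z^f = 1), Fr3_inv (Z0). hl: t5_neg. hprim: Prim χ gives u with u ≡ 1 mod 5^k, χ u ≠ 1; u^5 = 1; u = t^i, so 4 * 5^k | 5 i, 4 * 5^(k-1) | i; l^(2*5^(k-1)) = 1 would give χ u = l^i = 1.
(3) conj_vanish: S = y + ε Fr3 v satisfies S^Q = S, Q = 3^(4 * 5^(k-1)).
(4) ζ = z^(Q-1): pow5_dvd (k-1): 5^k | Q - 1, 5^(k+1) ∤ Q - 1, so ζ^5 = 1, ζ ≠ 1; ζ^Q = ζ (Q ≡ 1 mod 5); z^(Q^a) = z ζ^a by induction; v^(Q^a) = v ζ^(3a) (3^(5^k) ≡ 3 mod 5 because 4 | 5^k - 1).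
    S^(Q^a) = S: Fr3 (z ζ^a) + ε Fr3 (v ζ^(3a)) = S for all a (ε^3 = ε, Z2_Fr_pow).
(5) five_alg (z^5 ≠ 1, z^5 ≠ -1: z^10 ≠ 1; v^5 ≠ 1: v is again primitive of order f): z^15 = 1, so 5^(k+1) | 15, contradiction.
-/

set_option autoImplicit false
open scoped Classical

open Finset

namespace H55T3

private lemma Nfc_odd (k : ℕ) : Odd (5 ^ (k + 1)) := Odd.pow (by decide)

private lemma Nfc_one (k : ℕ) : 1 < 5 ^ (k + 1) := Nat.one_lt_pow (by omega) (by norm_num)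

private lemma Nfc_inj {k i j : ℕ} (hi : i < 4 * 5 ^ k) (hj : j < 4 * 5 ^ k)
    (h : t5 k ^ i = t5 k ^ j) : i = j := by
  have h1 := pow_injOn_Iio_orderOf (x := t5 k)
  rw [t5_order] at h1
  exact h1 (Set.mem_Iio.2 hi) (Set.mem_Iio.2 hj) h

private lemma Nfc_half (k : ℕ) :
    H5SW.IsHalf ((range (2 * 5 ^ k)).image (fun j => t5 k ^ j)) := by
  intro u
  obtain ⟨i, hi, rfl⟩ := t5_gen k u
  have hmem : ∀ i < 4 * 5 ^ k, (t5 k ^ i ∈ (range (2 * 5 ^ k)).image (fun j => t5 k ^ j) ↔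
      i < 2 * 5 ^ k) := by
    intro i hi
    rw [mem_image]
    constructor
    · rintro ⟨j, hj, hij⟩
      rw [mem_range] at hj
      have h1 := Nfc_inj (by omega) hi hij
      omega
    · intro h
      exact ⟨i, mem_range.2 h, rfl⟩
  have hneg : ∀ a : (ZMod (5 ^ (k + 1)))ˣ, -a = t5 k ^ (2 * 5 ^ k) * a := by
    intro a
    rw [t5_neg, neg_one_mul]
  rw [hmem i hi]
  by_cases h : i < 2 * 5 ^ k
  · rw [hneg, ← pow_add, hmem _ (by omega)]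
    constructor
    · intro _
      omega
    · intro _
      exact h
  · have h1 : -(t5 k ^ i) = t5 k ^ (i - 2 * 5 ^ k) := by
      have h2 : t5 k ^ i = t5 k ^ (2 * 5 ^ k) * t5 k ^ (i - 2 * 5 ^ k) := by
        rw [← pow_add]
        congr 1
        omega
      rw [h2, t5_neg, neg_one_mul, neg_neg]
    rw [h1, hmem _ (by omega)]
    constructor
    · intro h2
      exact absurd h2 h
    · intro h2
      exact absurd (by omega) h2

theorem tc3_orbit {k : ℕ} {Ω : Type*} [Field Ω] [CharP Ω 3] {z : Ω} (hz : z ^ 5 ^ (k + 1) = 1)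
    (hz0 : z ≠ 0) (χ : (ZMod (5 ^ (k + 1)))ˣ →* Ωˣ) (hχ : χ (-1) = 1) :
    Tc3 χ z = ∑ j ∈ range (2 * 5 ^ k), (χ (t5 k) : Ω) ^ j * (Fr3 z) ^ 3 ^ j := by
  have h1 := H5SW.sum_half (H5SW.isHalf_Hf (Nfc_odd k) (Nfc_one k)) (Nfc_half k)
    (fun u => (χ u : Ω) * Fr3 (z ^ (u : ZMod (5 ^ (k + 1))).val)) (by
      intro v
      have h2 : χ (-v) = χ v := by
        rw [show -v = (-1) * v by rw [neg_one_mul], map_mul, hχ, one_mul]
      rw [h2, Units.val_neg, Z2_Z_neg hz])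
  rw [sum_image (by
    intro a ha b hb hab
    have ha' : a < 2 * 5 ^ k := by simpa using ha
    have hb' : b < 2 * 5 ^ k := by simpa using hb
    exact Nfc_inj (by omega) (by omega) hab)] at h1
  unfold Tc3
  rw [h1]
  refine sum_congr rfl (fun j _ => ?_)
  have h3 : ((t5 k ^ j : (ZMod (5 ^ (k + 1)))ˣ) : ZMod (5 ^ (k + 1))) =
      ((3 ^ j : ℕ) : ZMod (5 ^ (k + 1))) := by
    rw [Units.val_pow_eq_pow_val, t5_coe]
    push_cast
    rfl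
  rw [h3, Z2_Z_nat hz, Z2_Fr_pow, map_pow, Units.val_pow_eq_pow_val]

private lemma Nfc_five {k : ℕ} (hk : 1 ≤ k) {m : ℕ} (hm : 5 ^ (k + 1) ∣ m) : 25 ∣ m := by
  refine Dvd.dvd.trans ?_ hm
  have h1 : (25 : ℕ) = 5 ^ 2 := by norm_num
  rw [h1]
  exact pow_dvd_pow 5 (by omega)

private lemma Nfc_prim {k : ℕ} (hk : 1 ≤ k) {Ω : Type*} [Field Ω]
    (χ : (ZMod (5 ^ (k + 1)))ˣ →* Ωˣ) (hp : H5SW.Prim (p := 5) χ) :
    (χ (t5 k) : Ω) ^ (2 * 5 ^ (k - 1)) ≠ 1 := by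
  intro hl
  obtain ⟨u, ⟨t', ht'⟩, hu⟩ := hp
  apply hu
  have hu5 : u ^ 5 = 1 := by
    apply Units.ext
    rw [Units.val_pow_eq_pow_val, ht', Units.val_one]
    have e0 : ((5 ^ (k + 1) : ℕ) : ZMod (5 ^ (k + 1))) = 0 := ZMod.natCast_self _
    have e1 : (5 : ZMod (5 ^ (k + 1))) ^ (k + 1) = 0 := by
      have := e0
      push_cast at this
      exact this
    have e2 : (5 : ZMod (5 ^ (k + 1))) * ((5 : ZMod (5 ^ (k + 1))) ^ k * t') = 0 := by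
      calc (5 : ZMod (5 ^ (k + 1))) * ((5 : ZMod (5 ^ (k + 1))) ^ k * t')
          = (5 : ZMod (5 ^ (k + 1))) ^ (k + 1) * t' := by ring
        _ = 0 := by rw [e1, zero_mul]
    have e3 : ((5 : ZMod (5 ^ (k + 1))) ^ k * t') * ((5 : ZMod (5 ^ (k + 1))) ^ k * t') = 0 := by
      calc ((5 : ZMod (5 ^ (k + 1))) ^ k * t') * ((5 : ZMod (5 ^ (k + 1))) ^ k * t')
          = (5 : ZMod (5 ^ (k + 1))) ^ (k + 1) * ((5 : ZMod (5 ^ (k + 1))) ^ (k - 1) * t' * t') := by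
            have : k = (k - 1) + 1 := by omega
            have e4 : (5 : ZMod (5 ^ (k + 1))) ^ k * (5 : ZMod (5 ^ (k + 1))) ^ k =
                (5 : ZMod (5 ^ (k + 1))) ^ (k + 1) * (5 : ZMod (5 ^ (k + 1))) ^ (k - 1) := by
              rw [← pow_add, ← pow_add]
              congr 1
              omega
            linear_combination (t' : ZMod (5 ^ (k + 1))) * t' * e4
        _ = 0 := by rw [e1, zero_mul]
    have e5 : ((5 : ℕ) : ZMod (5 ^ (k + 1))) = 5 := by push_cast; rfl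
    rw [e5]
    generalize ((5 : ZMod (5 ^ (k + 1))) ^ k * t') = a at e2 e3
    linear_combination e2 + (10 + 10 * a + 5 * a ^ 2 + a ^ 3) * e3
  obtain ⟨i, hi, rfl⟩ := t5_gen k u
  rw [← pow_mul] at hu5
  have h1 := orderOf_dvd_of_pow_eq_one hu5
  rw [t5_order] at h1
  have h2 : 5 ^ k = 5 * 5 ^ (k - 1) := by
    rw [← pow_succ']
    congr 1
    omega
  rw [h2] at h1
  have h3 : 4 * 5 ^ (k - 1) ∣ i := by
    have h4 : 5 * (4 * 5 ^ (k - 1)) ∣ 5 * i := by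
      have e : 5 * (4 * 5 ^ (k - 1)) = 4 * (5 * 5 ^ (k - 1)) := by ring
      rw [e, mul_comm 5 i]
      exact h1
    exact Nat.dvd_of_mul_dvd_mul_left (by norm_num) h4
  obtain ⟨m, rfl⟩ := h3
  apply Units.ext
  rw [map_pow, Units.val_pow_eq_pow_val, Units.val_one]
  have e : 4 * 5 ^ (k - 1) * m = 2 * 5 ^ (k - 1) * (2 * m) := by ring
  rw [e, pow_mul, hl, one_pow]

private lemma Nfc_81 (d : ℕ) : ∃ e, 3 ^ (4 * d) = 5 * e + 1 := by
  induction d with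
  | zero => exact ⟨0, by norm_num⟩
  | succ d ih =>
    obtain ⟨e, he⟩ := ih
    refine ⟨81 * e + 16, ?_⟩
    have h1 : 3 ^ (4 * (d + 1)) = 3 ^ (4 * d) * 81 := by
      rw [show 4 * (d + 1) = 4 * d + 4 by ring, pow_add]
      norm_num
    rw [h1, he]
    ring

private lemma Nfc_three (k : ℕ) : ∃ c, 3 ^ 5 ^ k = 5 * c + 3 := by
  have h1 : ∃ d, 5 ^ k = 4 * d + 1 := by
    induction k with
    | zero => exact ⟨0, by norm_num⟩
    | succ k ih =>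
      obtain ⟨d, hd⟩ := ih
      exact ⟨5 * d + 1, by rw [pow_succ, hd]; ring⟩
  obtain ⟨d, hd⟩ := h1
  rw [hd]
  obtain ⟨e, he⟩ := Nfc_81 d
  exact ⟨3 * e, by rw [pow_succ, he]; ring⟩

theorem nv3_five : haveI : Fact (Nat.Prime 5) := ⟨Nat.prime_five⟩; NV3 5 1 := by
  have : Fact (Nat.Prime 5) := ⟨Nat.prime_five⟩
  have : Fact (Nat.Prime 3) := ⟨Nat.prime_three⟩
  intro k hk Ω _ _ z hz χ hχ hprim hT
  have hzf : z ^ 5 ^ (k + 1) = 1 := hz.pow_eq_one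
  have hf0 : 5 ^ (k + 1) ≠ 0 := by positivity
  have hz0 : z ≠ 0 := hz.ne_zero hf0
  have hT' : Tc3 χ z = 0 := hT
  rw [tc3_orbit hzf hz0 χ hχ] at hT'
  have h25 : ∀ m : ℕ, z ^ m = 1 → 5 ^ (k + 1) ∣ m := fun m hm => (hz.pow_eq_one_iff_dvd m).1 hm
  -- the conjugation
  have hy : (Fr3 z) ^ 3 ^ (2 * 5 ^ k) = Fr3 z := by
    rw [Z2_Fr_pow]
    have h1 : z ^ (3 ^ (2 * 5 ^ k)) = z⁻¹ := by
      apply eq_inv_of_mul_eq_one_left
      rw [← pow_succ, hz.pow_eq_one_iff_dvd, ← ZMod.natCast_eq_zero_iff]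
      have h2 := congrArg (Units.val) (t5_neg k)
      rw [Units.val_pow_eq_pow_val, t5_coe, Units.val_neg, Units.val_one] at h2
      push_cast
      rw [h2]
      ring
    rw [h1, Fr3_inv hz0]
  have hl : (χ (t5 k) : Ω) ^ (2 * 5 ^ k) = 1 := by
    rw [← Units.val_pow_eq_pow_val, ← map_pow, t5_neg, hχ, Units.val_one]
  have hS := conj_vanish hk hy hl (Nfc_prim hk χ hprim) hT'
  obtain ⟨v, hv⟩ : ∃ v, v = z ^ (3 ^ 5 ^ k) := ⟨_, rfl⟩
  rw [Z2_Fr_pow, ← hv] at hS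
  obtain ⟨ε, hε⟩ : ∃ ε, ε = (χ (t5 k) : Ω) ^ 5 ^ k := ⟨_, rfl⟩
  rw [← hε] at hS
  have hε2 : ε ^ 2 = 1 := by
    rw [hε, ← pow_mul, mul_comm]
    exact hl
  have hv0 : v ≠ 0 := by rw [hv]; exact pow_ne_zero _ hz0
  obtain ⟨k', rfl⟩ : ∃ k', k = k' + 1 := ⟨k - 1, by omega⟩
  rw [Nat.add_sub_cancel] at hS
  obtain ⟨d1, d2⟩ := pow5_dvd k'
  obtain ⟨q, hq⟩ : ∃ q, 3 ^ (4 * 5 ^ k') = q + 1 :=
    ⟨3 ^ (4 * 5 ^ k') - 1, (Nat.sub_add_cancel (Nat.one_le_pow _ _ (by norm_num))).symm⟩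
  rw [hq, Nat.add_sub_cancel] at d1 d2
  obtain ⟨ζ, hζ⟩ : ∃ ζ, ζ = z ^ q := ⟨_, rfl⟩
  have hζ5 : ζ ^ 5 = 1 := by
    rw [hζ, ← pow_mul, hz.pow_eq_one_iff_dvd, pow_succ]
    exact Nat.mul_dvd_mul_right d1 5
  have hζ1 : ζ ≠ 1 := by
    intro h
    rw [hζ] at h
    exact d2 (h25 q h)
  have hq5 : 5 ∣ q := (dvd_pow_self 5 (Nat.succ_ne_zero k')).trans d1
  have hζQ : ζ ^ (q + 1) = ζ := by
    obtain ⟨c, rfl⟩ := hq5
    rw [pow_succ, pow_mul, hζ5, one_pow, one_mul]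
  have hzQ : ∀ a : ℕ, z ^ ((q + 1) ^ a) = z * ζ ^ a := by
    intro a
    induction a with
    | zero => rw [pow_zero, pow_one, pow_zero, mul_one]
    | succ a ih =>
      rw [pow_succ, pow_mul, ih, mul_pow, ← pow_mul, mul_comm a, pow_mul, hζQ, pow_succ z, ← hζ,
        pow_succ ζ]
      ring
  have hvQ : ∀ a : ℕ, v ^ ((q + 1) ^ a) = v * ζ ^ (3 * a) := by
    intro a
    rw [hv, ← pow_mul, mul_comm, pow_mul, hzQ, mul_pow]
    congr 1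
    obtain ⟨c, hc⟩ := Nfc_three (k' + 1)
    rw [← pow_mul, hc]
    have e : a * (5 * c + 3) = 5 * (a * c) + 3 * a := by ring
    rw [e, pow_add, pow_mul, hζ5, one_pow, one_mul]
  have hεQ : ∀ a : ℕ, ε ^ ((q + 1) ^ a) = ε := by
    intro a
    have h1 : Odd ((q + 1) ^ a) := by
      rw [← hq]
      exact (Odd.pow (by decide)).pow
    obtain ⟨r, hr⟩ := h1
    rw [hr, pow_succ, pow_mul, hε2, one_pow, one_mul]
  have hSQ : ∀ a : ℕ, (Fr3 z + ε * Fr3 v) ^ ((q + 1) ^ a) = Fr3 z + ε * Fr3 v := by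
    intro a
    induction a with
    | zero => rw [pow_zero, pow_one]
    | succ a ih =>
      rw [pow_succ, pow_mul, ih, ← hq]
      exact hS
  have H : ∀ a : ℕ, Fr3 (z * ζ ^ a) + ε * Fr3 (v * ζ ^ (3 * a)) = Fr3 z + ε * Fr3 v := by
    intro a
    rw [← hSQ a, ← hzQ a, ← hvQ a, ← hq, ← pow_mul, add_pow_char_pow, mul_pow, Z2_Fr_pow,
      Z2_Fr_pow]
    congr 2
    have h1 := hεQ a
    rw [← hq, ← pow_mul] at h1
    exact h1.symm
  have h15 := five_alg hζ5 hζ1 hz0 hv0 ?_ ?_ ?_ H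
  · have h1 := Nfc_five hk (h25 _ h15)
    omega
  · intro h
    have h1 := Nfc_five hk (h25 _ h)
    omega
  · intro h
    have h2 : z ^ 10 = 1 := by
      have : z ^ 10 = (z ^ 5) ^ 2 := by ring
      rw [this, h]
      ring
    have h1 := Nfc_five hk (h25 _ h2)
    omega
  · intro h
    rw [hv, ← pow_mul] at h
    have h1 := h25 _ h
    have h2 : Nat.Coprime (5 ^ (k' + 1 + 1)) (3 ^ 5 ^ (k' + 1)) :=
      Nat.Coprime.pow _ _ (by norm_num)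
    have h3 := Nfc_five hk (h2.dvd_of_dvd_mul_left h1)
    omega

end H55T3
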