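import Pool.Agent.H55.T3.SD

/-!
Row SCl (MP_78d38b_T3, block S, helper11; about 130 lines): from the primes not dividing `N` to all ideals.

`Φ(I) = ∏ g, (g⁻¹ • I) ^ e g` (here `e : (C ≃ₐ[ℚ] C) → ℕ` is arbitrary).
(a) `Φ(I J) = Φ(I) Φ(J)` (`smul_mul'`, `mul_pow`, `Finset.prod_mul_distrib`), `Φ(⊤) = ⊤` (`Ideal.one_eq_top`, `smul_one`), `Φ(span {α}) = span {∏ (g⁻¹ • α)^(e g)}` (`smul_span`, `Ideal.span_singleton_pow`,
`Ideal.prod_span_singleton`), `Φ(I) ≠ ⊥` for `I ≠ ⊥`.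
(b) if `I ≠ ⊥` and `I ⊔ span {(N : 𝓞 C)} = ⊤` then `Φ(I)` is principal: `UniqueFactorizationMonoid.induction_on_prime` (or `Ideal.induction_on_prime`, as used in Mathlib for ideals): `I = ⊤`, or `I = P * J` with `P` prime `≠ ⊥`;
`P ≥ I` so `P ⊔ span {N} = ⊤`, hence `N ∉ P` (otherwise `P = ⊤`), the same for `J`; products of principal ideals are principal (`Ideal.span_singleton_mul_span_singleton`).
(c) general `I ≠ ⊥`: `I * span {N} ≤ I`, so there is `a` with `I * span {N} ⊔ span {a} = I` (`Ideal.IsDedekindDomain.exists_sup_span_eq`, exact name: search `exists_sup_span_eq` in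
Mathlib/RingTheory/DedekindDomain/Ideal).  If `a = 0` then `I * span {N} = I`, `span {N} = ⊤` (cancel `I`), and (b) applies to `I` itself.  If `a ≠ 0`: `a ∈ I`, so `span {a} = I * J` (`Ideal.dvd_iff_le`), `J ≠ ⊥`, and
`I * (span {N} ⊔ J) = I * ⊤` gives `span {N} ⊔ J = ⊤` (`mul_left_cancel₀`, `Ideal.mul_sup`).  `Φ(I) Φ(J) = Φ(span {a})` is principal and `≠ ⊥`, `Φ(J) = span {b}` principal by (b), `b ≠ 0`.  With `Φ(span {a}) = span {d}`:
`Φ(I) * span {b} = span {d}`, so `b ∣ d`, `d = b d'`, and cancelling `span {b}`: `Φ(I) = span {d'}`.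
-/

set_option autoImplicit false
open scoped Classical Pointwise
open NumberField Ideal

namespace H55T3

section SCl
variable {C : Type} [Field C] [NumberField C]

/-- the product of conjugates -/
noncomputable def SCl_Ph (e : (C ≃ₐ[ℚ] C) → ℕ) (I : Ideal (𝓞 C)) : Ideal (𝓞 C) :=
  ∏ g : C ≃ₐ[ℚ] C, (g⁻¹ • I) ^ e g

lemma SCl_mul (e : (C ≃ₐ[ℚ] C) → ℕ) (I J : Ideal (𝓞 C)) :
    SCl_Ph e (I * J) = SCl_Ph e I * SCl_Ph e J := by
  unfold SCl_Ph
  rw [← Finset.prod_mul_distrib]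
  refine Finset.prod_congr rfl fun g _ => ?_
  rw [smul_mul', mul_pow]

lemma SCl_top (e : (C ≃ₐ[ℚ] C) → ℕ) : SCl_Ph e (⊤ : Ideal (𝓞 C)) = ⊤ := by
  unfold SCl_Ph
  rw [← Ideal.one_eq_top]
  refine Finset.prod_eq_one fun g _ => ?_
  rw [smul_one, one_pow]

lemma SCl_span (e : (C ≃ₐ[ℚ] C) → ℕ) (α : 𝓞 C) :
    SCl_Ph e (Ideal.span {α}) = Ideal.span {∏ g : C ≃ₐ[ℚ] C, (g⁻¹ • α) ^ e g} := by
  unfold SCl_Ph
  rw [← Ideal.prod_span_singleton]
  refine Finset.prod_congr rfl fun g _ => ?_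
  rw [← Ideal.span_singleton_pow, Ideal.smul_closure, Set.smul_set_singleton]

lemma SCl_ne {e : (C ≃ₐ[ℚ] C) → ℕ} {I : Ideal (𝓞 C)} (hI : I ≠ ⊥) : SCl_Ph e I ≠ ⊥ := by
  unfold SCl_Ph
  rw [← Ideal.zero_eq_bot]
  refine Finset.prod_ne_zero_iff.2 fun g _ => pow_ne_zero _ ?_
  intro h
  apply hI
  rw [Ideal.zero_eq_bot] at h
  have := congrArg (fun J => g • J) h
  simpa using this

lemma SCl_prin {N : ℕ} {e : (C ≃ₐ[ℚ] C) → ℕ}
    (h : ∀ P : Ideal (𝓞 C), P.IsPrime → P ≠ ⊥ → (N : 𝓞 C) ∉ P → (SCl_Ph e P).IsPrincipal)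
    (I : Ideal (𝓞 C)) (hI : I ≠ ⊥) (hN : I ⊔ Ideal.span {(N : 𝓞 C)} = ⊤) :
    (SCl_Ph e I).IsPrincipal := by
  induction I using UniqueFactorizationMonoid.induction_on_prime with
  | h₁ => exact absurd Ideal.zero_eq_bot hI
  | h₂ J hJ =>
    rw [Ideal.isUnit_iff] at hJ
    rw [hJ, SCl_top]
    exact ⟨⟨1, by simp⟩⟩
  | h₃ J P hJ hP ih =>
    have hPp := Ideal.isPrime_of_prime hP
    have hPb : P ≠ ⊥ := by rw [← Ideal.zero_eq_bot]; exact hP.ne_zero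
    have hJb : J ≠ ⊥ := by rw [← Ideal.zero_eq_bot]; exact hJ
    have h1 : P ⊔ Ideal.span {(N : 𝓞 C)} = ⊤ :=
      top_le_iff.1 (hN ▸ sup_le_sup_right Ideal.mul_le_left _)
    have h2 : J ⊔ Ideal.span {(N : 𝓞 C)} = ⊤ :=
      top_le_iff.1 (hN ▸ sup_le_sup_right Ideal.mul_le_right _)
    have h3 : (N : 𝓞 C) ∉ P := by
      intro h4
      rw [sup_eq_left.2 ((Ideal.span_singleton_le_iff_mem _).2 h4)] at h1
      exact hPp.ne_top h1
    obtain ⟨a, ha⟩ := (h P hPp hPb h3).principal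
    obtain ⟨b, hb⟩ := (ih hJb h2).principal
    rw [SCl_mul]
    refine ⟨⟨a * b, ?_⟩⟩
    rw [ha, hb]
    exact Ideal.span_singleton_mul_span_singleton a b

end SCl

theorem cls (N : ℕ) [NeZero N] {C : Type} [Field C] [NumberField C] (e : (C ≃ₐ[ℚ] C) → ℕ)
    (h : ∀ P : Ideal (𝓞 C), P.IsPrime → P ≠ ⊥ → (N : 𝓞 C) ∉ P →
      (∏ g : C ≃ₐ[ℚ] C, (g⁻¹ • P) ^ e g).IsPrincipal) (I : Ideal (𝓞 C)) (hI : I ≠ ⊥) :
    (∏ g : C ≃ₐ[ℚ] C, (g⁻¹ • I) ^ e g).IsPrincipal := by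
  change (SCl_Ph e I).IsPrincipal
  have hN0 : (N : 𝓞 C) ≠ 0 := Nat.cast_ne_zero.2 (NeZero.ne N)
  have hNs : Ideal.span {(N : 𝓞 C)} ≠ 0 := by
    rw [Ideal.zero_eq_bot, Ne, Ideal.span_singleton_eq_bot]; exact hN0
  have hI0 : I ≠ 0 := by rw [Ideal.zero_eq_bot]; exact hI
  obtain ⟨a, ha⟩ := IsDedekindDomain.exists_sup_span_eq (I := I * Ideal.span {(N : 𝓞 C)}) (J := I)
    Ideal.mul_le_left (mul_ne_zero hI0 hNs)
  by_cases ha0 : a = 0
  · refine SCl_prin (N := N) (fun P h1 h2 h3 => h P h1 h2 h3) I hI ?_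
    rw [ha0] at ha
    have h1 : I * Ideal.span {(N : 𝓞 C)} = I * 1 := by
      rw [mul_one]
      simpa using ha
    have h2 := mul_left_cancel₀ hI0 h1
    rw [h2, Ideal.one_eq_top, sup_top_eq]
  · have haI : a ∈ I := by
      rw [← ha]
      exact Ideal.mem_sup_right (Ideal.mem_span_singleton_self a)
    obtain ⟨J, hJ⟩ := Ideal.dvd_iff_le.2 ((Ideal.span_singleton_le_iff_mem _).2 haI)
    have hJ0 : J ≠ ⊥ := by
      rintro rfl
      rw [Ideal.mul_bot, Ideal.span_singleton_eq_bot] at hJ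
      exact ha0 hJ
    have h1 : J ⊔ Ideal.span {(N : 𝓞 C)} = ⊤ := by
      rw [← Ideal.one_eq_top]
      apply mul_left_cancel₀ hI0
      rw [Ideal.mul_sup, ← hJ, mul_one, sup_comm]
      exact ha
    obtain ⟨b, hb⟩ := (SCl_prin (N := N) (fun P h1 h2 h3 => h P h1 h2 h3) J hJ0 h1).principal
    have hb' : SCl_Ph e J = Ideal.span {b} := hb
    have hb0 : b ≠ 0 := by
      rintro rfl
      apply SCl_ne (e := e) hJ0
      rw [hb']
      simp
    have h2 := SCl_mul e I J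
    rw [← hJ, SCl_span, hb'] at h2
    set d := ∏ g : C ≃ₐ[ℚ] C, (g⁻¹ • a) ^ e g
    have h3 : d ∈ Ideal.span {b} := by
      have h4 : Ideal.span {d} ≤ Ideal.span {b} := by rw [h2]; exact Ideal.mul_le_right
      exact h4 (Ideal.mem_span_singleton_self d)
    obtain ⟨d', hd'⟩ := Ideal.mem_span_singleton'.1 h3
    refine ⟨⟨d', ?_⟩⟩
    have hbs : Ideal.span {b} ≠ 0 := by
      rw [Ideal.zero_eq_bot, Ne, Ideal.span_singleton_eq_bot]; exact hb0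
    apply mul_right_cancel₀ hbs
    rw [← h2, ← hd']
    exact (Ideal.span_singleton_mul_span_singleton d' b).symm

end H55T3
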