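import Pool.Agent.H55.T3.SD

/-!
Row SJb (MP_78d38b_T3, block S, helper11; about 90 lines): Galois action on Jacobi sums, and their divisibility.

`gam_smul`: the ring automorphism `x ↦ g • x` of `𝓞 C` (`MulSemiringAction.toRingHom _ (𝓞 C) g`) maps `χ x`, an `N`-th root of unity (`(χ x)^N = (χ^N) x = 1` for `x ≠ 0`), to `(χ x)^t`, `t = tt N C g`
(`IsCyclotomicExtension.Rat.galEquivZMod_smul_of_pow_eq`), and `0` to `0`; so `χ.ringHomComp f = χ ^ t` (at `x = 0` both vanish: `MulChar.map_nonunit`, or `MulChar.ext` over units).  Then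
`(χ^a).ringHomComp f = (χ^a)^t = χ^(t a)` and `jacobiSum_ringHomComp`; `map_prod`.

`gam_dvd`: for each `i ∈ Ico 1 c` the characters `χ^1`, `χ^i`, `χ^(1+i)` are `≠ 1` (order of `χ` is exactly `N`: hypothesis `hord`, and `0 < i`, `i + 1 ≤ c < N`).  In the field `C`, with `χ' = χ.ringHomComp (algebraMap (𝓞 C) C)`:
`jacobiSum_mul_jacobiSum_inv : J(χ',φ') J(χ'⁻¹,φ'⁻¹) = q` (ringChar C = 0 ≠ ringChar k = p), both factors are images of Jacobi sums in `𝓞 C` (`jacobiSum_ringHomComp`, `ringHomComp` commutes with `⁻¹` and powers), and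
`algebraMap` is injective, so `J(χ^1, χ^i) ∣ q` in `𝓞 C`.  `Finset.prod_dvd_prod_of_dvd` and `Finset.prod_const`: `gam c χ 1 ∣ q^(c-1)`.  (In `gam c χ 1` the factors are `J (χ^1) (χ^(1*i))`.)
-/

set_option autoImplicit false
open scoped Classical Pointwise
open NumberField Ideal

namespace H55T3

theorem gam_smul {N : ℕ} [NeZero N] {C : Type} [Field C] [NumberField C]
    [IsCyclotomicExtension {N} ℚ C] {k : Type} [Field k] [Fintype k] (χ : MulChar k (𝓞 C))
    (hχ : χ ^ N = 1) (c : ℕ) (g : C ≃ₐ[ℚ] C) : g • gam c χ 1 = gam c χ (tt N C g) := by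
  set f : 𝓞 C →+* 𝓞 C := MulSemiringAction.toRingHom (C ≃ₐ[ℚ] C) (𝓞 C) g with hf
  have hfa : ∀ x : 𝓞 C, f x = g • x := fun _ => rfl
  have key : ∀ a : ℕ, (χ ^ a).ringHomComp f = χ ^ (tt N C g * a) := by
    intro a
    refine MulChar.ext fun u => ?_
    rw [MulChar.ringHomComp_apply, hfa, MulChar.pow_apply_coe, MulChar.pow_apply_coe]
    have h1 : (χ (u : k)) ^ N = 1 := by
      rw [← MulChar.pow_apply_coe, hχ, MulChar.one_apply_coe]
    have h2 : ((χ (u : k)) ^ a) ^ N = 1 := by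
      rw [← pow_mul, mul_comm, pow_mul, h1, one_pow]
    rw [IsCyclotomicExtension.Rat.galEquivZMod_smul_of_pow_eq N C g h2, ← pow_mul, mul_comm a]
    rfl
  rw [← hfa, gam, map_prod, gam]
  refine Finset.prod_congr rfl fun i _ => ?_
  rw [← jacobiSum_ringHomComp, key, key, mul_one, one_mul]

theorem SJb_dvd {C : Type} [Field C] [NumberField C] {k : Type} [Field k] [Fintype k]
    (χ φ : MulChar k (𝓞 C)) (h1 : χ ≠ 1) (h2 : φ ≠ 1) (h3 : χ * φ ≠ 1) :
    jacobiSum χ φ ∣ ((Fintype.card k : ℕ) : 𝓞 C) := by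
  have hinj : Function.Injective (algebraMap (𝓞 C) C) := FaithfulSMul.algebraMap_injective _ _
  refine ⟨jacobiSum χ⁻¹ φ⁻¹, hinj ?_⟩
  have hchar : ringChar C ≠ ringChar k := by
    rw [ringChar.eq_zero]
    exact (CharP.ringChar_ne_zero_of_finite k).symm
  have h := jacobiSum_mul_jacobiSum_inv hchar
    ((MulChar.ringHomComp_ne_one_iff hinj).mpr h1) ((MulChar.ringHomComp_ne_one_iff hinj).mpr h2)
    (by rw [← MulChar.ringHomComp_mul]; exact (MulChar.ringHomComp_ne_one_iff hinj).mpr h3)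
  rw [map_mul, ← jacobiSum_ringHomComp, ← jacobiSum_ringHomComp, ← MulChar.ringHomComp_inv,
    ← MulChar.ringHomComp_inv, h, map_natCast]

theorem gam_dvd {N : ℕ} {C : Type} [Field C] [NumberField C] {k : Type} [Field k] [Fintype k]
    (χ : MulChar k (𝓞 C)) (hord : orderOf χ = N) (c : ℕ) (hc1 : 1 < c) (hcN : c < N) :
    gam c χ 1 ∣ ((Fintype.card k : ℕ) : 𝓞 C) ^ (c - 1) := by
  have hne : ∀ j, 0 < j → j < N → χ ^ j ≠ 1 := fun j h0 h1 =>
    pow_ne_one_of_lt_orderOf h0.ne' (by rw [hord]; exact h1)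
  have hcard : ((Fintype.card k : ℕ) : 𝓞 C) ^ (c - 1) =
      ∏ i ∈ Finset.Ico 1 c, ((Fintype.card k : ℕ) : 𝓞 C) := by
    rw [Finset.prod_const, Nat.card_Ico]
  rw [hcard, gam]
  refine Finset.prod_dvd_prod_of_dvd _ _ fun i hi => ?_
  rw [Finset.mem_Ico] at hi
  refine SJb_dvd _ _ (hne 1 one_pos (by omega)) (hne _ (by omega) (by omega)) ?_
  rw [← pow_add]
  exact hne _ (by omega) (by omega)

end H55T3
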