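import Pool.Agent.H55.T3.SOr

/-!
Row SPr (MP_78d38b_T3, block S, helper11; about 130 lines): the product of the conjugates of `P` is `(γ)`.

Write `e g = c * tt N C g / N`, `A = ∏ g, (g⁻¹ • P) ^ e g` (≠ 0: `P ≠ ⊥` as `p ∈ P`, and `g⁻¹ • P ≠ ⊥`).  Both divisibilities by
`UniqueFactorizationMonoid.dvd_iff_emultiplicity_le` (Mathlib/RingTheory/UniqueFactorizationDomain/Multiplicity.lean): it is enough that `emultiplicity Q A = emultiplicity Q (span {γ})` for every prime `Q` of the monoid of ideals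
(`Ideal.isPrime_of_prime`), then `A ∣ span {γ}` and `span {γ} ∣ A`, `dvd_antisymm'` for ideals (`Ideal.dvd_iff_le`, `le_antisymm`).
`emultiplicity Q A = Σ_g e g * emultiplicity Q (g⁻¹ • P)` (`Finset.emultiplicity_prod`, `emultiplicity_pow`), and for the maximal ideals `Q`, `g⁻¹ • P` this is `1` if `g⁻¹ • P = Q` and `0` otherwise
(`emultiplicity_self`-type lemma; `emultiplicity_eq_zero` when `¬ Q ∣ g⁻¹•P`: maximal ideals with `g⁻¹•P ≤ Q` are equal).
Case 1: `Q = g0⁻¹ • P` for some `g0`: `emultiplicity Q A = Σ_{g : g⁻¹•P = g0⁻¹•P} e g = Σ_{i<j} c (p^i tt g0 % N)/N` by `fib_sum` with `f t = c t / N`; and `emultiplicity Q (span {γ}) = od (g0⁻¹•P) γ = od P (g0 • γ)` (`od_coe`, `od_smul`), the same by `hod`.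
Case 2: `Q ≠ g⁻¹ • P` for all `g`: `emultiplicity Q A = 0`.  And `p ∉ Q`: otherwise `Q` and `P` both lie over `span {(p : ℤ)}` and are conjugate under the Galois group (`Ideal.exists_map_eq_of_isGalois` or
`Algebra.IsInvariant.exists_smul_of_under_eq`: `Q = h • P`, take `g = h⁻¹`).  `γ ∣ p^M`, `p^M ∉ Q`, so `γ ∉ Q`: `emultiplicity Q (span {γ}) = 0` (`emultiplicity_eq_zero`, `Ideal.dvd_span_singleton`).
-/

set_option autoImplicit false
open scoped Classical Pointwise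
open NumberField Ideal

namespace H55T3

theorem SPr_em {R : Type*} [CommRing R] [IsDedekindDomain R] {Q Q' : Ideal R} (hQ : Prime Q)
    (hQ' : Prime Q') : emultiplicity Q Q' = if Q' = Q then 1 else 0 := by
  by_cases h : Q' = Q
  · rw [if_pos h, h]
    exact (FiniteMultiplicity.of_prime_left hQ hQ.ne_zero).emultiplicity_self
  · rw [if_neg h]
    exact emultiplicity_eq_zero_of_irreducible_ne hQ.irreducible hQ'.irreducible (Ne.symm h)

theorem SPr_lies {C : Type} [Field C] [NumberField C] {p : ℕ} [Fact p.Prime] (P : Ideal (𝓞 C))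
    (hP : P.IsPrime) (hp : (p : 𝓞 C) ∈ P) : P.LiesOver (Ideal.span {(p : ℤ)}) := by
  have hp1 : p.Prime := Fact.out
  have hmaxp : (Ideal.span {(p : ℤ)}).IsMaximal :=
    PrincipalIdealRing.isMaximal_of_irreducible (Nat.prime_iff_prime_int.1 hp1).irreducible
  constructor
  refine hmaxp.eq_of_le ?_ ?_
  · intro h
    have h1 : (1 : ℤ) ∈ P.under ℤ := by rw [h]; exact Submodule.mem_top
    rw [Ideal.under_def, Ideal.mem_comap, map_one] at h1
    exact hP.ne_top ((Ideal.eq_top_iff_one P).2 h1)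
  · rw [Ideal.span_singleton_le_iff_mem, Ideal.under_def, Ideal.mem_comap]
    simpa using hp

theorem prod_eq {N : ℕ} [NeZero N] {C : Type} [Field C] [NumberField C]
    [IsCyclotomicExtension {N} ℚ C] {p : ℕ} [Fact p.Prime] (hpN : p.Coprime N) (P : Ideal (𝓞 C))
    (hP : P.IsPrime) (hp : (p : 𝓞 C) ∈ P) (c : ℕ) (γ : 𝓞 C) (hγ : γ ≠ 0) (M : ℕ)
    (hM : γ ∣ (p : 𝓞 C) ^ M)
    (hod : ∀ g : C ≃ₐ[ℚ] C, od P (g • γ) =
      ∑ i ∈ Finset.range (orderOf (ZMod.unitOfCoprime p hpN)), c * (p ^ i * tt N C g % N) / N) :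
    ∏ g : C ≃ₐ[ℚ] C, (g⁻¹ • P) ^ (c * tt N C g / N) = Ideal.span {γ} := by
  have hp1 : p.Prime := Fact.out
  have hPbot : P ≠ ⊥ := by
    rintro rfl
    have h0 : (p : 𝓞 C) = 0 := by simpa using hp
    exact hp1.ne_zero (by exact_mod_cast h0)
  have hgal : IsGalois ℚ C := IsCyclotomicExtension.isGalois {N} ℚ C
  have hgP : ∀ g : C ≃ₐ[ℚ] C, Prime (g⁻¹ • P) := by
    intro g
    have h1 : (g⁻¹ • P).IsPrime := Ideal.IsPrime.smul g⁻¹
    refine Ideal.prime_of_isPrime ?_ h1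
    intro h2
    apply hPbot
    have h3 : g • g⁻¹ • P = g • (⊥ : Ideal (𝓞 C)) := by rw [h2]
    rw [smul_inv_smul] at h3
    rw [h3, eq_bot_iff, Ideal.pointwise_smul_subset_iff]
    exact bot_le
  have hA : ∏ g : C ≃ₐ[ℚ] C, (g⁻¹ • P) ^ (c * tt N C g / N) ≠ 0 :=
    Finset.prod_ne_zero_iff.2 fun g _ => pow_ne_zero _ (hgP g).ne_zero
  have hB : Ideal.span {γ} ≠ 0 := by
    rw [Ne, Ideal.zero_eq_bot, Ideal.span_singleton_eq_bot]
    exact hγ
  have key : ∀ Q : Ideal (𝓞 C), Prime Q →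
      emultiplicity Q (∏ g : C ≃ₐ[ℚ] C, (g⁻¹ • P) ^ (c * tt N C g / N)) =
        emultiplicity Q (Ideal.span {γ}) := by
    intro Q hQ
    have hQp : Q.IsPrime := Ideal.isPrime_of_prime hQ
    rw [Finset.emultiplicity_prod hQ]
    have e1 : ∀ g : C ≃ₐ[ℚ] C, emultiplicity Q ((g⁻¹ • P) ^ (c * tt N C g / N)) =
        if g⁻¹ • P = Q then ((c * tt N C g / N : ℕ) : ℕ∞) else 0 := by
      intro g
      rw [emultiplicity_pow hQ, SPr_em hQ (hgP g)]
      split_ifs
      · rw [mul_one]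
      · rw [mul_zero]
    rw [Finset.sum_congr rfl fun g _ => e1 g]
    by_cases hex : ∃ g0 : C ≃ₐ[ℚ] C, g0⁻¹ • P = Q
    · obtain ⟨g0, rfl⟩ := hex
      rw [← Finset.sum_filter, ← Nat.cast_sum,
        fib_sum hpN P hP hp (fun t => c * t / N) g0, ← hod g0, ← od_smul,
        od_coe hQp hQ.ne_zero hγ]
    · push Not at hex
      rw [Finset.sum_eq_zero fun g _ => if_neg (hex g)]
      symm
      rw [emultiplicity_eq_zero]
      intro hdvd
      have h1 : γ ∈ Q := by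
        rw [Ideal.dvd_span_singleton] at hdvd
        exact hdvd
      have h2 : (p : 𝓞 C) ∈ Q := hQp.mem_of_pow_mem M (Q.mem_of_dvd hM h1)
      have l1 := SPr_lies P hP hp
      have l2 := SPr_lies Q hQp h2
      obtain ⟨σ, hσ⟩ := Ideal.exists_smul_eq_of_isGaloisGroup (Ideal.span {(p : ℤ)}) P Q
        (C ≃ₐ[ℚ] C)
      apply hex σ⁻¹
      rw [inv_inv]
      exact hσ
  apply dvd_antisymm
  · exact (UniqueFactorizationMonoid.dvd_iff_emultiplicity_le hA).2 fun Q hQ => (key Q hQ).le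
  · exact (UniqueFactorizationMonoid.dvd_iff_emultiplicity_le hB).2 fun Q hQ => (key Q hQ).ge

end H55T3
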