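import Pool.Agent.H55.T3.SJa
import Pool.Agent.H55.T3.SJb
import Pool.Agent.H55.T3.SPr
import Pool.Agent.H55.T3.SCl

/-!
Block S of MP_78d38b_T3 (helper11): Stickelberger's relations for `C = Q(ζ_N)`: assembly.
-/

set_option autoImplicit false
open scoped Classical Pointwise
open NumberField Ideal

namespace H55T3

theorem Sti_ord {N : ℕ} {C : Type} [Field C] [NumberField C] {k : Type} [Field k] [Fintype k]
    (r : 𝓞 C →+* k) (m : ℕ) (hm : Fintype.card k - 1 = N * m) (hm0 : 0 < m)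
    (χ : MulChar k (𝓞 C)) (hχ : χ ^ N = 1) (hχ' : ∀ x : k, x ≠ 0 → r (χ x) = (x⁻¹) ^ m) :
    orderOf χ = N := by
  refine Nat.dvd_antisymm (orderOf_dvd_of_pow_eq_one hχ) ?_
  have h1 : χ ^ orderOf χ = 1 := pow_orderOf_eq_one χ
  have h2 : ∀ u : kˣ, u ^ (m * orderOf χ) = 1 := by
    intro u
    have h3 : (χ ^ orderOf χ) (u⁻¹ : kˣ) = 1 := by rw [h1, MulChar.one_apply_coe]
    rw [MulChar.pow_apply_coe] at h3
    have h4 := hχ' ((u⁻¹ : kˣ) : k) (Units.ne_zero _)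
    have h5 : r (χ ((u⁻¹ : kˣ) : k)) ^ orderOf χ = 1 := by rw [← map_pow, h3, map_one]
    rw [h4] at h5
    rw [Units.ext_iff, Units.val_pow_eq_pow_val, Units.val_one, pow_mul, ← h5]
    congr 2
    rw [Units.val_inv_eq_inv_val, inv_inv]
  have h3 := (FiniteField.forall_pow_eq_one_iff k (m * orderOf χ)).1 h2
  rw [← Nat.card_eq_fintype_card] at hm
  rw [Nat.card_eq_fintype_card] at hm
  rw [hm, mul_comm N m] at h3
  exact Nat.dvd_of_mul_dvd_mul_left hm0 h3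

theorem stick (N : ℕ) [NeZero N] (C : Type) [Field C] [NumberField C]
    [IsCyclotomicExtension {N} ℚ C] : Stick N C := by
  intro c hc1 hcN hcop I hI
  refine cls N (fun g => c * tt N C g / N) ?_ I hI
  intro P hP hP0 hNP
  have hmax : P.IsMaximal := hP.isMaximal hP0
  letI : Field (𝓞 C ⧸ P) := Ideal.Quotient.field P
  have : Finite (𝓞 C ⧸ P) := Ring.HasFiniteQuotients.finiteQuotient hP0
  letI : Fintype (𝓞 C ⧸ P) := Fintype.ofFinite _
  obtain ⟨p, hpc⟩ := CharP.exists (𝓞 C ⧸ P)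
  have hpp : p.Prime := CharP.char_is_prime (𝓞 C ⧸ P) p
  have : Fact p.Prime := ⟨hpp⟩
  have hpP : (p : 𝓞 C) ∈ P := by
    rw [← Ideal.Quotient.eq_zero_iff_mem, map_natCast]
    exact CharP.cast_eq_zero _ p
  have hpN : p.Coprime N := by
    rw [Nat.Prime.coprime_iff_not_dvd hpp]
    rintro ⟨d, hd⟩
    apply hNP
    rw [hd, Nat.cast_mul]
    exact P.mul_mem_right _ hpP
  have hcard : Fintype.card (𝓞 C ⧸ P) = p ^ orderOf (ZMod.unitOfCoprime p hpN) := by
    rw [← Nat.card_eq_fintype_card]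
    exact card_res hpN P hP hpP
  have hN1 : 1 < N := lt_trans hc1 hcN
  have hdvd : N ∣ Fintype.card (𝓞 C ⧸ P) - 1 := by
    have h1 : ((p ^ orderOf (ZMod.unitOfCoprime p hpN) : ℕ) : ZMod N) = 1 := by
      have h2 := congrArg (fun u : (ZMod N)ˣ => (u : ZMod N))
        (pow_orderOf_eq_one (ZMod.unitOfCoprime p hpN))
      simp only [Units.val_pow_eq_pow_val, ZMod.coe_unitOfCoprime, Units.val_one] at h2
      rw [Nat.cast_pow]
      exact h2
    rw [hcard]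
    have h3 : ((p ^ orderOf (ZMod.unitOfCoprime p hpN) : ℕ) : ZMod N) = ((1 : ℕ) : ZMod N) := by
      rw [h1, Nat.cast_one]
    rw [ZMod.natCast_eq_natCast_iff] at h3
    exact (Nat.modEq_iff_dvd' (Nat.one_le_pow _ _ hpp.pos)).1 h3.symm
  obtain ⟨m, hm⟩ := hdvd
  have hj : 0 < orderOf (ZMod.unitOfCoprime p hpN) := orderOf_pos _
  have hcard1 : 1 < Fintype.card (𝓞 C ⧸ P) := Fintype.one_lt_card
  have hm0 : 0 < m := by
    rcases Nat.eq_zero_or_pos m with h | h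
    · rw [h, mul_zero] at hm
      omega
    · exact h
  obtain ⟨χ, hχ, hχ'⟩ := exists_chi (Ideal.Quotient.mk P) p hpN m hm
  have hod := fun g : C ≃ₐ[ℚ] C => od_gam hpN P hP hpP (Ideal.Quotient.mk P)
    Ideal.Quotient.mk_surjective Ideal.mk_ker m hm χ hχ hχ' c hc1 hcN hcop (tt N C g)
    (ZMod.val_coe_unit_coprime _)
  have hγ := od_gam hpN P hP hpP (Ideal.Quotient.mk P)
    Ideal.Quotient.mk_surjective Ideal.mk_ker m hm χ hχ hχ' c hc1 hcN hcop 1
    (Nat.coprime_one_left N)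
  have hM : gam c χ 1 ∣ (p : 𝓞 C) ^ (orderOf (ZMod.unitOfCoprime p hpN) * (c - 1)) := by
    have h1 := gam_dvd χ (Sti_ord (Ideal.Quotient.mk P) m hm hm0 χ hχ hχ') c hc1 hcN
    rw [hcard, Nat.cast_pow, ← pow_mul] at h1
    exact h1
  have hfin := prod_eq hpN P hP hpP c (gam c χ 1) hγ.1 _ hM fun g => by
    rw [gam_smul χ hχ c g]
    exact (hod g).2
  exact ⟨⟨gam c χ 1, hfin⟩⟩

end H55T3
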