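import Pool.Agent.H55.T3.Fin
import Pool.Agent.H55.T3.Nfc
import Pool.Agent.H55.T3.Sti
import Pool.Agent.H55.T3.RT
import Pool.Agent.H55.T3.Mn
import Pool.Agent.H55.T3.ZA

/-! The explicit form for the prime five, and the general base form (helper55). -/

set_option autoImplicit false
open scoped Classical

open WeierstrassCurve IsDedekindDomain NumberField Pool.Agent.H10 Pool.Agent.H11 H5SW

namespace H55T3

theorem explicit5 (a b : ℤ) (hb : b ≠ 0) (hc : 9 * b + 4 * a ^ 3 ≠ 0)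
    (hred : ¬ ((3 : ℤ) ∣ a ∧ (3 : ℤ) ∣ b))
    (hq : ∀ q : ℕ, q.Prime → (q : ℤ) ∣ 6 * b * (9 * b + 4 * a ^ 3) → ¬ 25 ∣ q ^ 4 - 1)
    (K L : Type) [Field K] [NumberField K] [Field L] [NumberField L] [Algebra K L]
    (hL : IsR 5 L) {i : ℕ} (hi : Module.finrank K L = 5 ^ i) :
    ¬ 3 ∣ Module.finrank K L ∧ ∃ _ : IsGalois K L,
      ∀ (E : WeierstrassCurve K), (E = curE K a b ∨ E = curF K a b) →
        (E.baseChange L).IsElliptic ∧ CT3 K L (E.baseChange L) (inv_up rfl) := by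
  haveI : Fact (Nat.Prime 5) := ⟨Nat.prime_five⟩
  refine ct3_at 5 le_rfl (k0 := 1) (T := 1) ?_ ?_ a b hb hc hred ?_ K L hL hi (by omega) (by omega)
  · intro m n K L M F _ _ _ _ _ _ _ _ _ _ _ _ hk T
    exact noNewCube_of_tower le_rfl nv3_five hk T
  · intro m n hmn C _ _ _ hk
    exact noNewC le_rfl nv3_five hk hmn (stick _ C)
  · intro q hqp hqd _ h
    exact hq q hqp (Int.natCast_dvd.mpr hqd) h

theorem base3 (p : ℕ) (hpp : p.Prime) (hp : 5 ≤ p) (a b : ℤ) (hb : b ≠ 0) (hc : 9 * b + 4 * a ^ 3 ≠ 0)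
    (hred : ¬ ((3 : ℤ) ∣ a ∧ (3 : ℤ) ∣ b)) :
    ∃ N : ℕ, ∀ (K L : Type) [Field K] [NumberField K] [Field L] [NumberField L] [Algebra K L],
      IsR p L → (∃ i : ℕ, Module.finrank K L = p ^ i) → p ^ N ∣ Module.finrank ℚ K →
      ∀ (E : WeierstrassCurve K), (E = curE K a b ∨ E = curF K a b) →
      ShaThreeBijective K E L ∧
      ∃ m : ℕ, ¬ 3 ∣ m ∧ ∀ P : (E.baseChange L).toAffine.Point,
        ∃ Q : (E.baseChange K).toAffine.Point,
          m • P = WeierstrassCurve.Affine.Point.map (Algebra.ofId K L) Q := by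
  haveI : Fact p.Prime := ⟨hpp⟩
  obtain ⟨k0, hS⟩ := sinnott3 (p := p) hp
  refine main_of p hp (k0 := k0) ?_ ?_ a b hb hc hred
  · intro m n K L M F _ _ _ _ _ _ _ _ _ _ _ _ hk T
    exact noNewCube_of_tower hp hS hk T
  · intro m n hmn C _ _ _ hk
    exact noNewC hp hS hk hmn (stick _ C)

end H55T3
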