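import Pool.Agent.H55.T3.Kdf

/-!
Row Y3 (about 60 lines): the goodness goes up.

PROOF. v := the place of k below w (w.asIdeal.under (𝓞 k), nonzero; 3 ∈ v). Good3 v α β gives i. w(3) = exp (-1) (hypothesis), i.e. 3 ∉ w^2, so v is unramified in L at w: the ramification index is one (if v.map ≤ w^2 then 3 ∈ v gives 3 ∈ w^2), and w.valuation (algebraMap x) = v.valuation x (search valuation_liesOver / valuation_comap in Mathlib:
 w.valuation L (algebraMap k L x) = v.valuation k x ^ ramificationIdx) for x ∈ k. Membership in v^j is v.valuation ≤ exp (-j) (HeightOneSpectrum.valuation_le_pow_iff_mem or intValuation_le_pow_iff_mem).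
 Alternative without the ramification index: only the inequality for β needs it: v.valuation β = exp (-j) with j < 3 i + 3; β y = 3^j z with y, z ∈ 𝓞 k, y, z ∉ v (or: β / 3^j is a v-unit, so a w-unit). v.valuation k 3 = exp (-1) as 3 ∉ v^2 (else 3 ∈ w^2).
-/

set_option autoImplicit false
open scoped Classical

open IsDedekindDomain NumberField WithZero Pool.Agent.H10

namespace H55T3

private theorem Y3_ram {a : WithZero (Multiplicative ℤ)} {e : ℕ}
    (h : a ^ e = exp (-1 : ℤ)) : e = 1 := by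
  have ha : a ≠ 0 := by
    rintro rfl
    rcases Nat.eq_zero_or_pos e with h0 | h0
    · subst h0
      rw [pow_zero] at h
      have h2 := h.symm
      rw [← exp_zero, exp_inj] at h2
      omega
    · rw [zero_pow h0.ne'] at h
      exact exp_ne_zero h.symm
  rw [← exp_log ha, ← exp_nsmul, exp_inj, nsmul_eq_mul] at h
  have h2 : (e : ℤ) ∣ 1 := ⟨-(log a), by linarith⟩
  have h3 := Int.natCast_dvd_natCast.1 (by simpa using h2 : ((e : ℕ) : ℤ) ∣ ((1 : ℕ) : ℤ))
  exact Nat.dvd_one.1 h3

theorem good_up {k L : Type} [Field k] [NumberField k] [Field L] [NumberField L] [Algebra k L]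
    {α β : 𝓞 k} (hg : ∀ v : HeightOneSpectrum (𝓞 k), (3 : 𝓞 k) ∈ v.asIdeal → Good3 v α β)
    (w : HeightOneSpectrum (𝓞 L)) (hw : (3 : 𝓞 L) ∈ w.asIdeal)
    (hunr : w.valuation L 3 = exp (-1 : ℤ)) :
    GoodV w (algebraMap k L (α : k)) (algebraMap k L (β : k)) := by
  have h3 : (3 : 𝓞 k) ∈ w.asIdeal.comap (algebraMap (𝓞 k) (𝓞 L)) := by
    rw [Ideal.mem_comap, map_ofNat]
    exact hw
  have hne : w.asIdeal.comap (algebraMap (𝓞 k) (𝓞 L)) ≠ ⊥ := by
    intro h0
    rw [h0, Ideal.mem_bot] at h3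
    norm_num at h3
  have hpr : (w.asIdeal.comap (algebraMap (𝓞 k) (𝓞 L))).IsPrime := Ideal.comap_isPrime _ _
  let v : HeightOneSpectrum (𝓞 k) := ⟨w.asIdeal.comap (algebraMap (𝓞 k) (𝓞 L)), hpr, hne⟩
  have hlo : w.asIdeal.LiesOver v.asIdeal := ⟨rfl⟩
  have hval : ∀ x : k, w.valuation L (algebraMap k L x) = v.valuation k x := by
    intro x
    have h1 := HeightOneSpectrum.valuation_liesOver (K := k) L v w (3 : k)
    have h13 : algebraMap k L 3 = 3 := map_ofNat _ 3
    rw [h13, hunr] at h1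
    have h2 := Y3_ram h1
    have h4 := HeightOneSpectrum.valuation_liesOver (K := k) L v w x
    rw [h2, pow_one] at h4
    exact h4.symm
  have hint : ∀ x : 𝓞 k, v.valuation k (x : k) = v.intValuation x := fun x =>
    v.valuation_of_algebraMap x
  obtain ⟨i, h1, h2, h4⟩ := hg v h3
  refine ⟨i, ?_, ?_, ?_⟩
  · rw [hval, hint]
    have h5 := (v.intValuation_le_pow_iff_mem α (i + 1)).2 h1
    push_cast at h5
    exact h5
  · have h6 : 27 * algebraMap k L (β : k) - 4 * (algebraMap k L (α : k)) ^ 3 =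
        algebraMap k L ((27 * β - 4 * α ^ 3 : 𝓞 k) : k) := by
      have h7 : ((27 * β - 4 * α ^ 3 : 𝓞 k) : k) = 27 * (β : k) - 4 * (α : k) ^ 3 := by
        have h8 : ((27 * β - 4 * α ^ 3 : 𝓞 k) : k) =
            algebraMap (𝓞 k) k (27 * β - 4 * α ^ 3) := rfl
        rw [h8, map_sub, map_mul, map_mul, map_pow, map_ofNat, map_ofNat]
      rw [h7, map_sub, map_mul, map_mul, map_pow, map_ofNat, map_ofNat]
    rw [h6, hval, hint]
    have h5 := (v.intValuation_le_pow_iff_mem (27 * β - 4 * α ^ 3) (3 * i + 5)).2 h2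
    push_cast at h5
    exact h5
  · rw [hval, hint]
    have h5 := mt (v.intValuation_le_pow_iff_mem β (3 * i + 3)).1 h4
    push_cast at h5
    exact not_le.1 h5

end H55T3
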