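import Pool.Agent.H55.T3.Kdf
import Pool.Agent.H68.QS.Dec

/-!
Row Y4 (about 90 lines, a copy): a member of the tower over `k` is `k L'`, `L'` a real subfield of `ℚ(ζ)`.

PROOF. Copy the first half of `H68QS.Dec_main` (Pool/Agent/H68/QS/Dec.lean) with the single field L: C := CyclotomicField (p^(n+1)) k (a number field, cyclotomic over k: see `H68QS.decompose` there), ζ, Z = ℚ(ζ), ψL := φ restricted to ℚ, L' := Z.comap ψL, h := the inclusion. `Dec_gen ψL Z SL hL` with SL = range (algebraMap k L) gives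
 IntermediateField.adjoin ℚ (SL ∪ range h) = ⊤ (in L), so adjoin k (range h) = ⊤ (the restriction of scalars of adjoin k (range h) contains SL ∪ range h). IsR p L' as there (IsTotallyReal.of_algebra, and the embedding into the cyclotomic field over ℚ).
-/

set_option autoImplicit false
open scoped Classical

open IsDedekindDomain NumberField WithZero Pool.Agent.H10 H5SW

namespace H55T3

theorem lay_gen_main {p n : ℕ} [Fact p.Prime] {k L C : Type} [Field k] [NumberField k] [Field L]
    [NumberField L] [Algebra k L] [Field C] [NumberField C] [Algebra k C]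
    [IsCyclotomicExtension {p ^ (n + 1)} k C] (φ : L →ₐ[k] C) (hreal : IsTotallyReal L) :
    ∃ (L' : Type) (_ : Field L') (_ : NumberField L') (h : L' →+* L), IsR p L' ∧
      IntermediateField.adjoin k (Set.range h) = ⊤ := by
  have hp : p.Prime := Fact.out
  have hne : NeZero (p ^ (n + 1)) := ⟨pow_ne_zero _ hp.ne_zero⟩
  have hneQ : NeZero ((p ^ (n + 1) : ℕ) : ℚ) :=
    ⟨Nat.cast_ne_zero.2 (pow_ne_zero _ hp.ne_zero)⟩
  have hζ := IsCyclotomicExtension.zeta_spec (p ^ (n + 1)) k C
  set ζ := IsCyclotomicExtension.zeta (p ^ (n + 1)) k C with hζdef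
  set Z : IntermediateField ℚ C := IntermediateField.adjoin ℚ {ζ} with hZ
  have hZcyc : IsCyclotomicExtension {p ^ (n + 1)} ℚ Z :=
    hζ.intermediateField_adjoin_isCyclotomicExtension ℚ
  have hZgal : @IsGalois ℚ _ Z _ (IntermediateField.algebra' Z) :=
    @IsCyclotomicExtension.isGalois {p ^ (n + 1)} ℚ Z _ _ (IntermediateField.algebra' Z) hZcyc
  have hζZ : ζ ∈ Z := IntermediateField.mem_adjoin_simple_self ℚ ζ
  let ψL : L →ₐ[ℚ] C := φ.restrictScalars ℚ
  have cL : ∀ x : k, ψL (algebraMap k L x) = algebraMap k C x := fun x => φ.commutes x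
  set SL : Set L := Set.range (algebraMap k L) with hSL
  have hL : Z ⊔ (IntermediateField.adjoin ℚ SL).map ψL = ⊤ := by
    refine H68QS.Dec_top (k := k) hζ _ ((le_sup_left : Z ≤ _) hζZ) fun x => ?_
    refine (le_sup_right : (IntermediateField.adjoin ℚ SL).map ψL ≤ _) ?_
    exact ⟨_, IntermediateField.subset_adjoin ℚ _ ⟨x, rfl⟩, cL x⟩
  have gL := H68QS.Dec_gen ψL Z SL hL
  refine ⟨Z.comap ψL, inferInstance, inferInstance, (Z.comap ψL).val.toRingHom, ⟨?_, ?_⟩, ?_⟩
  · exact IsTotallyReal.of_algebra (Z.comap ψL) L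
  · refine ⟨n, ⟨?_⟩⟩
    have hcyc : IsCyclotomicExtension {p ^ (n + 1)} ℚ (CyclotomicField (p ^ (n + 1)) ℚ) :=
      CyclotomicField.isCyclotomicExtension _ _
    have e := IsCyclotomicExtension.algEquiv {p ^ (n + 1)} ℚ Z (CyclotomicField (p ^ (n + 1)) ℚ)
    let j : (Z.comap ψL) →+* Z :=
      { toFun := fun x => ⟨ψL x.1, x.2⟩
        map_one' := by ext; simp
        map_zero' := by ext; simp
        map_mul' := by intro x y; ext; simp
        map_add' := by intro x y; ext; simp }
    exact e.toRingEquiv.toRingHom.comp j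
  · have e : Set.range ((Z.comap ψL).val.toRingHom) = (Z.comap ψL : Set L) := Subtype.range_coe
    rw [e, eq_top_iff]
    have hle : IntermediateField.adjoin ℚ (SL ∪ (Z.comap ψL : Set L)) ≤
        (IntermediateField.adjoin k (Z.comap ψL : Set L)).restrictScalars ℚ := by
      rw [IntermediateField.adjoin_le_iff]
      rintro x (⟨y, rfl⟩ | hx)
      · exact (IntermediateField.adjoin k (Z.comap ψL : Set L)).algebraMap_mem y
      · exact IntermediateField.subset_adjoin k _ hx
    intro x _
    exact hle (gL ▸ IntermediateField.mem_top)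

theorem lay_gen {p : ℕ} [Fact p.Prime] {k L : Type} [Field k] [NumberField k] [Field L]
    [NumberField L] [Algebra k L] (hL : Lay p k L) :
    ∃ (L' : Type) (_ : Field L') (_ : NumberField L') (h : L' →+* L), IsR p L' ∧
      IntermediateField.adjoin k (Set.range h) = ⊤ := by
  obtain ⟨hreal, n, ⟨φ⟩⟩ := hL
  have hp : p.Prime := Fact.out
  have hne : NeZero (p ^ (n + 1)) := ⟨pow_ne_zero _ hp.ne_zero⟩
  have hnek : NeZero ((p ^ (n + 1) : ℕ) : k) :=
    ⟨Nat.cast_ne_zero.2 (pow_ne_zero _ hp.ne_zero)⟩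
  have hCn : NumberField (CyclotomicField (p ^ (n + 1)) k) :=
    IsCyclotomicExtension.numberField {p ^ (n + 1)} k _
  have hcyc : IsCyclotomicExtension {p ^ (n + 1)} k (CyclotomicField (p ^ (n + 1)) k) :=
    CyclotomicField.isCyclotomicExtension _ _
  exact lay_gen_main (p := p) (n := n) φ hreal

end H55T3
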