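import Pool.Agent.H55.T3.Pair3
import Pool.Agent.H55.T3.Y3
import Pool.Agent.H55.T3.Y4
import Pool.Agent.H55.T3.Ex5
import Pool.Agent.H68.TK.Chain

/-! The theorem over base fields of three-power type (helper55). -/

set_option autoImplicit false
open scoped Classical

open WeierstrassCurve IsDedekindDomain NumberField Pool.Agent.H10 Pool.Agent.H11 H5SW

namespace H55T3

/-- A quadratic extension with a square root of `-3`. -/
theorem exists_L3 (L : Type) [Field L] [NumberField L] : ∃ s : CyclotomicField 3 L, s ^ 2 = -3 ∧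
    IntermediateField.adjoin L {s} = ⊤ := by
  have hc : IsCyclotomicExtension {3} L (CyclotomicField 3 L) :=
    CyclotomicField.isCyclotomicExtension 3 L
  have hfin : FiniteDimensional L (CyclotomicField 3 L) :=
    IsCyclotomicExtension.finiteDimensional {3} L _
  set C := CyclotomicField 3 L
  have hz := IsCyclotomicExtension.zeta_spec 3 L C
  set ζ := IsCyclotomicExtension.zeta 3 L C
  have hz1 : ζ ^ 2 + ζ + 1 = 0 := by
    have := hz.geom_sum_eq_zero (by norm_num)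
    simp only [Finset.sum_range_succ, Finset.sum_range_zero, pow_zero, pow_one, zero_add] at this
    linear_combination this
  refine ⟨2 * ζ + 1, by linear_combination 4 * hz1, ?_⟩
  have h1 : IntermediateField.adjoin L {ζ} = ⊤ :=
    (IntermediateField.adjoin_simple_eq_top_iff_of_isAlgebraic
      (Algebra.IsAlgebraic.isAlgebraic ζ)).2
      (IsCyclotomicExtension.adjoin_primitive_root_eq_top (n := 3) (A := L) (B := C) hz)
  rw [eq_top_iff, ← h1, IntermediateField.adjoin_simple_le_iff]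
  have h2 : (2 * ζ + 1) ∈ IntermediateField.adjoin L {2 * ζ + 1} :=
    IntermediateField.mem_adjoin_simple_self L _
  have h3 : ((1 : L) / 2) • (2 * ζ + 1 - 1) ∈ IntermediateField.adjoin L {2 * ζ + 1} :=
    IntermediateField.smul_mem _ (sub_mem h2 (one_mem _))
  have e : ((1 : L) / 2) • (2 * ζ + 1 - 1) = ζ := by
    rw [Algebra.smul_def, map_div₀, map_one, map_ofNat]
    ring
  rwa [e] at h3

theorem towerK3 (p : ℕ) [Fact p.Prime] (hp : 5 ≤ p) {k : Type} [Field k] [NumberField k]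
    (h3p : H68TK.ThreePower k) (hk : H68TK.Unr3 k) {α β : 𝓞 k} (hβ : β ≠ 0)
    (hγ : 27 * β - 4 * α ^ 3 ≠ 0)
    (hg : ∀ v : HeightOneSpectrum (𝓞 k), (3 : 𝓞 k) ∈ v.asIdeal → Good3 v α β) :
    ∃ N : ℕ, ∀ (K L : Type) [Field K] [NumberField K] [Field L] [NumberField L] [Algebra k K]
      [Algebra k L] [Algebra K L] [IsScalarTower k K L], Lay p k L →
      (∃ i : ℕ, Module.finrank K L = p ^ i) → p ^ N ∣ Module.finrank ℚ K →
      ∀ E : WeierstrassCurve K, (E = curW (algebraMap k K α) (algebraMap k K β) ∨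
        E = curV (algebraMap k K α) (algebraMap k K (27 * β - 4 * α ^ 3 : 𝓞 k))) →
      ShaThreeBijective K E L ∧
      ∃ m : ℕ, ¬ 3 ∣ m ∧ ∀ P : (E.baseChange L).toAffine.Point,
        ∃ Q : (E.baseChange K).toAffine.Point,
          m • P = WeierstrassCurve.Affine.Point.map (Algebra.ofId K L) Q := by
  obtain ⟨k0, hS⟩ := sinnott3 (p := p) hp
  have hD : 6 * β * (27 * β - 4 * α ^ 3) ≠ 0 :=
    mul_ne_zero (mul_ne_zero (by norm_num) hβ) hγ
  obtain ⟨N, hN⟩ := H68TK.layer3_of (p := p) (k0 := k0) hp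
    (fun {m n K L M F} _ _ _ _ _ _ _ _ _ _ _ _ hk T => noNewCube_of_tower hp hS hk T)
    (fun {m n} hmn {C} _ _ _ hk => noNewC hp hS hk hmn (stick _ C)) h3p hk hD
  refine ⟨N, ?_⟩
  intro K L _ _ _ _ _ _ _ _ hL hi hK E hE
  obtain ⟨L', _, _, h, hR, hgen⟩ := lay_gen hL
  obtain ⟨hreal, hgal, hodd, h3n, RR, RM, hbad, hunr⟩ := hN K L L' h hR hgen hi hK
  obtain ⟨s, hs, hs2⟩ := exists_L3 L
  obtain ⟨R, _, _, hgs, hneg, hab⟩ := RM (CyclotomicField 3 L) s hs hs2
  obtain ⟨α', hα'⟩ : ∃ α' : 𝓞 K, α' = algebraMap (𝓞 k) (𝓞 K) α := ⟨_, rfl⟩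
  obtain ⟨β', hβ'⟩ : ∃ β' : 𝓞 K, β' = algebraMap (𝓞 k) (𝓞 K) β := ⟨_, rfl⟩
  have cα : (α' : K) = algebraMap k K α := by rw [hα']; rfl
  have cβ : (β' : K) = algebraMap k K β := by rw [hβ']; rfl
  have hinj : Function.Injective (algebraMap (𝓞 k) (𝓞 K)) :=
    FaithfulSMul.algebraMap_injective (𝓞 k) (𝓞 K)
  have eγ : 27 * β' - 4 * α' ^ 3 = algebraMap (𝓞 k) (𝓞 K) (27 * β - 4 * α ^ 3) := by
    rw [hα', hβ', map_sub, map_mul, map_mul, map_pow, map_ofNat, map_ofNat]
  have hβ0 : β' ≠ 0 := by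
    rw [hβ']
    exact (map_ne_zero_iff _ hinj).2 hβ
  have hγ0 : 27 * β' - 4 * α' ^ 3 ≠ 0 := by
    rw [eγ]
    exact (map_ne_zero_iff _ hinj).2 hγ
  have hbad' : ∀ v : HeightOneSpectrum (𝓞 K), 6 * β' * (27 * β' - 4 * α' ^ 3) ∈ v.asIdeal →
      UniqueOver K L v.asIdeal := by
    intro v hv
    apply hbad v
    rw [map_mul, map_mul, map_ofNat, ← eγ, ← hβ']
    exact hv
  have hgood : ∀ w : HeightOneSpectrum (𝓞 L), (3 : 𝓞 L) ∈ w.asIdeal →
      GoodV w (algebraMap K L (α' : K)) (algebraMap K L (β' : K)) := by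
    intro w hw
    have := good_up (α := α) (β := β) hg w hw (hunr w hw)
    rw [cα, cβ, ← IsScalarTower.algebraMap_apply k K L, ← IsScalarTower.algebraMap_apply k K L]
    exact this
  have hE' : E = curW (α' : K) (β' : K) ∨
      E = curV (α' : K) (27 * (β' : K) - 4 * (α' : K) ^ 3) := by
    rcases hE with hE | hE
    · left
      rw [hE, cα, cβ]
    · right
      rw [hE, cα, cβ]
      congr 1
      have : ((27 * β - 4 * α ^ 3 : 𝓞 k) : k) = 27 * (β : k) - 4 * (α : k) ^ 3 := coe_gamma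
      rw [this, map_sub, map_mul, map_mul, map_pow, map_ofNat, map_ofNat]
  obtain ⟨h1, h2⟩ := ct3_pair3 hodd h3n RR hs hgs hneg hab R hβ0 hγ0 hgood hbad' hunr E hE'
  exact of_ct3 h3n h1 h2

end H55T3
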