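import Pool.Agent.H5.SW.X1

/-!
ROW RX (elements with valuations divisible by three and norm a cube; about 200 lines).  PROOF.  Copy Pool/Agent/H5/SW/X1.lean with `2` replaced by `3` (`x1_finrank`, `x1_ker` can be reused; adapt `x1_grp`, `x1_int`, `even_val_repr`):
`D = [L:K]`, `¬ 3 ∣ D`. `x1_grp`: `i : A →* B` finite commutative groups, `i a = 1 → a^D = 1`, `v_3(|B|) = v_3(|A|)`, `b^3 = 1`: then `∃ a, a^3 = 1 ∧ i a = b` (the index of the range is prime to three: `b^j = b` for `j = 1 mod 3`,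
take a suitable power: `b^index ∈ range`, `3 ∤ index`, `index * k = 3 l + 1`, so `b = b^(index k) ∈ range`, `b = i a`, replace `a` by `a^(D D')` with `D D' = 1 mod 3`).
`(x) = I^3`, `[I] = i[J]`, `[J]^3 = 1`, `relNorm I ~ J^D`, `relNorm (I)^3 = (N x) = (y)^3` so `relNorm I = (y)` principal; `[J]^D = 1` and `[J]^3 = 1` give `[J] = 1`, `I = (z)`, `x = ε z^3`, `N ε = N x / (N z)^3` is a cube.
For general `x = a / b ∈ L` use `y = a b^2 = x b^3` instead of `a b`.
-/

set_option autoImplicit false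

namespace H55T3

open NumberField IsDedekindDomain H5SW

theorem RX_pow {G : Type*} [Group G] (g : G) {n : ℕ} (hn : ¬ 3 ∣ n) (hg : g ^ 3 = 1) :
    g ^ (n * n) = g := by
  have h1 : n * n % 3 = 1 := by
    have : n % 3 = 1 ∨ n % 3 = 2 := by omega
    rcases this with h | h <;> simp [Nat.mul_mod, h]
  obtain ⟨k, hk⟩ : ∃ k, n * n = 3 * k + 1 := ⟨n * n / 3, by omega⟩
  rw [hk, pow_succ, pow_mul, hg, one_pow, one_mul]

theorem RX_grp {A B : Type*} [CommGroup A] [CommGroup B] [Finite A] [Finite B] (i : A →* B)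
    {D : ℕ} (hD : ¬ 3 ∣ D) (hker : ∀ a, i a = 1 → a ^ D = 1)
    (hv : padicValNat 3 (Nat.card B) = padicValNat 3 (Nat.card A)) {b : B} (hb : b ^ 3 = 1) :
    ∃ a : A, a ^ 3 = 1 ∧ i a = b := by
  have : Fact (Nat.Prime 3) := ⟨Nat.prime_three⟩
  have hodd : ¬ 3 ∣ Nat.card i.ker := by
    intro h
    obtain ⟨x, hx⟩ := exists_prime_orderOf_dvd_card' (G := i.ker) 3 h
    have h1 : (x : A) ^ D = 1 := hker x x.2
    have h2 : x ^ D = 1 := Subtype.ext h1
    exact hD (hx ▸ orderOf_dvd_of_pow_eq_one h2)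
  have h1 : Nat.card i.ker * Nat.card i.range = Nat.card A := by
    rw [← Subgroup.index_ker, Subgroup.card_mul_index]
  have h2 : Nat.card i.range * i.range.index = Nat.card B := Subgroup.card_mul_index _
  have k0 : Nat.card i.ker ≠ 0 := Nat.card_pos.ne'
  have r0 : Nat.card i.range ≠ 0 := Nat.card_pos.ne'
  have j0 : i.range.index ≠ 0 := Subgroup.index_ne_zero_of_finite
  rw [← h1, ← h2, padicValNat.mul r0 j0, padicValNat.mul k0 r0,
    padicValNat.eq_zero_of_not_dvd hodd] at hv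
  have h3 : padicValNat 3 i.range.index = 0 := by omega
  have h4 : ¬ 3 ∣ i.range.index := by
    intro h
    have := one_le_padicValNat_of_dvd j0 h
    omega
  have h5 : b ^ i.range.index ∈ i.range := Subgroup.pow_index_mem _ b
  have h6 : b ∈ i.range := by
    have h7 := Subgroup.pow_mem _ h5 i.range.index
    rwa [← pow_mul, RX_pow b h4 hb] at h7
  obtain ⟨a, ha⟩ := h6
  refine ⟨a ^ (D * D), ?_, ?_⟩
  · rw [← pow_mul, mul_comm (D * D) 3, pow_mul, pow_mul]
    have h8 : (a ^ 3) ^ D = 1 := by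
      apply hker
      rw [map_pow, ha, hb]
    rw [h8, one_pow]
  · rw [map_pow, ha, RX_pow b hD hb]

open nonZeroDivisors in
theorem RX_int {K L : Type} [Field K] [NumberField K] [Field L] [NumberField L] [Algebra K L]
    (h3D : ¬ 3 ∣ Module.finrank K L)
    (hcl : padicValNat 3 (NumberField.classNumber L) = padicValNat 3 (NumberField.classNumber K))
    {y : 𝓞 L} (hy : y ≠ 0)
    (hev : ∀ v : HeightOneSpectrum (𝓞 L), 3 ∣ (multiplicity v.asIdeal (Ideal.span {y})))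
    (hN : ∃ q : K, Algebra.norm K (y : L) = q ^ 3) :
    ∃ (ε : (𝓞 L)ˣ) (c : L), c ≠ 0 ∧ (y : L) = ((ε : 𝓞 L) : L) * c ^ 3 := by
  classical
  have hI : Ideal.span {y} ≠ 0 := by
    rw [Ideal.zero_eq_bot, Ne, Ideal.span_singleton_eq_bot]; exact hy
  obtain ⟨u, hu⟩ := Multiset.exists_smul_of_dvd_count
    (UniqueFactorizationMonoid.normalizedFactors (Ideal.span {y})) (k := 3)
    (by
      intro P hP
      have hirr := UniqueFactorizationMonoid.irreducible_of_normalized_factor P hP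
      have hpr : Prime P := hirr.prime
      have hev' := hev ⟨P, Ideal.isPrime_of_prime hpr, hpr.ne_zero⟩
      rw [UniqueFactorizationMonoid.multiplicity_eq_count_normalizedFactors hirr hI, normalize_eq] at hev'
      exact hev')
  set I := u.prod with hIdef
  have hI2 : I ^ 3 = Ideal.span {y} := by
    rw [hIdef, ← Multiset.prod_nsmul, ← hu]
    exact Ideal.prod_normalizedFactors_eq_self hI
  have hI0 : I ≠ 0 := by
    intro h
    rw [h] at hI2
    exact hI (by rw [← hI2, zero_pow three_ne_zero])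
  have hIm : I ∈ (Ideal (𝓞 L))⁰ := mem_nonZeroDivisors_of_ne_zero hI0
  -- the norm of `I` is principal
  obtain ⟨z, hz⟩ := hN
  have hzint : IsIntegral ℤ z := by
    refine IsIntegral.of_pow (n := 3) three_pos ?_
    rw [← hz, ← Algebra.algebraMap_intNorm (A := 𝓞 K) (K := K) (L := L) (B := 𝓞 L)]
    exact RingOfIntegers.isIntegral_coe _
  obtain ⟨zi, hzi⟩ : ∃ zi : 𝓞 K, algebraMap (𝓞 K) K zi = z := ⟨⟨z, hzint⟩, rfl⟩
  have hzn : Algebra.intNorm (𝓞 K) (𝓞 L) y = zi ^ 3 := by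
    apply RingOfIntegers.coe_injective (K := K)
    have h1 := Algebra.algebraMap_intNorm (A := 𝓞 K) (K := K) (L := L) (B := 𝓞 L) y
    rw [h1, map_pow, hzi, hz]
  have hrel2 : (Ideal.relNorm (𝓞 K) I) ^ 3 = Ideal.span {zi} ^ 3 := by
    rw [← map_pow, hI2, Ideal.relNorm_singleton, hzn, Ideal.span_singleton_pow]
  have hrel : Ideal.relNorm (𝓞 K) I = Ideal.span {zi} := by
    apply dvd_antisymm
    · exact (UniqueFactorizationMonoid.pow_dvd_pow_iff_dvd three_ne_zero).mp (dvd_of_eq hrel2)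
    · exact (UniqueFactorizationMonoid.pow_dvd_pow_iff_dvd three_ne_zero).mp
        (dvd_of_eq hrel2.symm)
  -- the class of `I`
  have hb : (ClassGroup.mk0 ⟨I, hIm⟩) ^ 3 = 1 := by
    rw [← map_pow]
    refine (ClassGroup.mk0_eq_one_iff (I := I ^ 3) (pow_mem hIm _)).mpr ⟨⟨y, ?_⟩⟩
    rw [hI2]
  obtain ⟨a, ha2, hab⟩ := RX_grp (ClassGroup.extendedHom (𝓞 K) (𝓞 L)) h3D x1_ker (by
    rw [Nat.card_eq_fintype_card, Nat.card_eq_fintype_card]; exact hcl) hb
  obtain ⟨J, rfl⟩ := ClassGroup.mk0_surjective a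
  rw [ClassGroup.extendedHom_mk0] at hab
  obtain ⟨s, t, hs, ht, hst⟩ := (ClassGroup.mk0_eq_mk0_iff).mp hab
  have hst' : Ideal.span {s} * (J : Ideal (𝓞 K)).map (algebraMap (𝓞 K) (𝓞 L)) = Ideal.span {t} * I := hst
  have h3 := congrArg (Ideal.relNorm (𝓞 K)) hst'
  rw [map_mul, map_mul, Ideal.relNorm_singleton, Ideal.relNorm_singleton, hrel,
    Ideal.relNorm_algebraMap, x1_finrank] at h3
  have ns : Algebra.intNorm (𝓞 K) (𝓞 L) s ≠ 0 := by
    rw [Ne, Algebra.intNorm_eq_zero]; exact hs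
  have nt : Algebra.intNorm (𝓞 K) (𝓞 L) t ≠ 0 := by
    rw [Ne, Algebra.intNorm_eq_zero]; exact ht
  have hz0 : zi ≠ 0 := by
    intro h0
    rw [h0, zero_pow three_ne_zero, Algebra.intNorm_eq_zero] at hzn
    exact hy hzn
  have hzI : Ideal.span {zi} ∈ (Ideal (𝓞 K))⁰ := by
    apply mem_nonZeroDivisors_of_ne_zero
    rw [Ideal.zero_eq_bot, Ne, Ideal.span_singleton_eq_bot]; exact hz0
  have h4 : ClassGroup.mk0 J ^ (Module.finrank K L) = 1 := by
    rw [← map_pow]
    have h5 : ClassGroup.mk0 (J ^ (Module.finrank K L)) = ClassGroup.mk0 ⟨_, hzI⟩ := by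
      refine (ClassGroup.mk0_eq_mk0_iff).mpr ⟨_, _, ns, nt, ?_⟩
      exact h3
    rw [h5]
    exact (ClassGroup.mk0_eq_one_iff hzI).mpr ⟨⟨_, rfl⟩⟩
  have h6 : ClassGroup.mk0 J = 1 := by
    rw [← RX_pow (ClassGroup.mk0 J) h3D ha2, pow_mul, h4, one_pow]
  have h7 : ClassGroup.mk0 ⟨I, hIm⟩ = 1 := by
    rw [← hab, ← ClassGroup.extendedHom_mk0, h6, map_one]
  obtain ⟨⟨c, hc⟩⟩ := (ClassGroup.mk0_eq_one_iff hIm).mp h7
  have hc' : I = Ideal.span {c} := hc
  rw [hc', Ideal.span_singleton_pow, Ideal.span_singleton_eq_span_singleton] at hI2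
  obtain ⟨ε, hε⟩ := hI2
  have hc0 : (c : L) ≠ 0 := by
    rw [RingOfIntegers.coe_ne_zero_iff]
    rintro rfl
    rw [zero_pow three_ne_zero, zero_mul] at hε
    exact hy hε.symm
  refine ⟨ε, c, hc0, ?_⟩
  have h8 := congrArg (algebraMap (𝓞 L) L) hε
  rw [map_mul, map_pow, mul_comm] at h8
  exact h8.symm

theorem cube_val_repr {K L : Type} [Field K] [NumberField K] [Field L] [NumberField L] [Algebra K L]
    (h3 : ¬ 3 ∣ Module.finrank K L)
    (hcl : padicValNat 3 (NumberField.classNumber L) = padicValNat 3 (NumberField.classNumber K)) {x : L} (hx : x ≠ 0)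
    (hev : ∀ w : HeightOneSpectrum (𝓞 L), (3 : ℤ) ∣ WithZero.log (w.valuation L x))
    (hN : ∃ y : K, Algebra.norm K x = y ^ 3) :
    ∃ (ε : (𝓞 L)ˣ) (z : L), z ≠ 0 ∧ x = ((ε : 𝓞 L) : L) * z ^ 3 ∧ ∃ y : K, Algebra.norm K ((ε : 𝓞 L) : L) = y ^ 3 := by
  obtain ⟨a, b, hb, rfl⟩ := IsFractionRing.div_surjective (A := 𝓞 L) x
  have hb0 : b ≠ 0 := nonZeroDivisors.ne_zero hb
  have ha0 : a ≠ 0 := by
    rintro rfl
    apply hx
    simp
  have haK : (a : L) ≠ 0 := RingOfIntegers.coe_ne_zero_iff.mpr ha0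
  have hbK : (b : L) ≠ 0 := RingOfIntegers.coe_ne_zero_iff.mpr hb0
  have hab0 : a * b ^ 2 ≠ 0 := mul_ne_zero ha0 (pow_ne_zero 2 hb0)
  obtain ⟨ε, c, hc, h⟩ := RX_int h3 hcl (y := a * b ^ 2) hab0 (by
    intro v
    have h1 := hev v
    have h2 : v.valuation L ((a * b ^ 2 : 𝓞 L) : L) =
        v.valuation L ((a : L) / (b : L)) * v.valuation L (b : L) ^ 3 := by
      rw [← map_pow, ← map_mul]
      congr 1
      push_cast
      field_simp
    have h3 := v.intValuation_eq_exp_neg_multiplicity hab0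
    rw [← v.valuation_of_algebraMap (K := L)] at h3
    have h4 := congrArg WithZero.log h2
    change WithZero.log (v.valuation L (algebraMap (𝓞 L) L (a * b ^ 2))) = _ at h4
    rw [h3, WithZero.log_exp, WithZero.log_mul, WithZero.log_pow] at h4
    · have h5 : (3 : ℤ) ∣ (multiplicity v.asIdeal (Ideal.span {a * b ^ 2}) : ℤ) := by
        change (3 : ℤ) ∣ WithZero.log (v.valuation L ((a : L) / (b : L))) at h1
        simp only [nsmul_eq_mul, Nat.cast_ofNat] at h4
        omega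
      omega
    · rw [Valuation.ne_zero_iff]
      exact div_ne_zero haK hbK
    · exact pow_ne_zero _ ((Valuation.ne_zero_iff _).mpr hbK)) (by
    obtain ⟨q, hq⟩ := hN
    have h2 : ((a * b ^ 2 : 𝓞 L) : L) = (a : L) / (b : L) * (b : L) ^ 3 := by
      push_cast
      field_simp
    refine ⟨q * Algebra.norm K (b : L), ?_⟩
    change Algebra.norm K ((a : L) / (b : L)) = q ^ 3 at hq
    rw [h2, map_mul, map_pow, hq]
    ring)
  have hx' : (algebraMap (𝓞 L) L a) / (algebraMap (𝓞 L) L b) = ((ε : 𝓞 L) : L) * (c / b) ^ 3 := by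
    change (a : L) / (b : L) = _
    push_cast at h
    field_simp
    exact h
  refine ⟨ε, c / b, div_ne_zero hc hbK, hx', ?_⟩
  obtain ⟨q, hq⟩ := hN
  have hcb : Algebra.norm K (c / (b : L)) ≠ 0 := by
    rw [Ne, Algebra.norm_eq_zero_iff]; exact div_ne_zero hc hbK
  rw [hx', map_mul, map_pow] at hq
  refine ⟨q / Algebra.norm K (c / (b : L)), ?_⟩
  rw [div_pow, eq_div_iff (pow_ne_zero 3 hcb)]
  exact hq

end H55T3
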