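import Pool.Agent.H55.T3.ZT
import Pool.Agent.H5.SW.T0
import Pool.Agent.H5.SW.T5

set_option autoImplicit false

/-!
ROW R5 (non vanishing on the Galois group, characteristic three; about 130 lines).  PROOF.  Adapt `nonvanish` of Pool/Agent/H5/SW/T5.lean (only its second half, the `Tc` part; nothing about signs).
`χ1 = ι ∘ χ ∘ rL.σ` with values in `(AlgebraicClosure Ω)ˣ`, even as `σ(-1) = 1`, and non trivial on some `u` with `unitsMap u = 1` at level `m+1` (`RP.mem_iff`). `psi` (needs `p ≠ 0`: `p ≥ 5`, characteristic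
three) gives `z` with `ψ (c a) = z^a + z^(-a)`, `a = u.val`; `(2 - x - x⁻¹)⁻¹ = - x / (1 - x)^2 = - Fr3 x` for `x ≠ 0` (both sides `0` if `x = 1`). Sum over `Gal(L/ℚ)` = sum over `Hf f` (`T5_sum` there, private: copy it),
so the sum is `- Tc3 χ1 z`. `factor_level` gives `k`, `m < k ≤ n`, `χ1 = χ' ∘ unitsMap`, `χ'(-1) = 1`, `Prim χ'`; `Tc3_level` (row ZT, proved): `Tc3 χ1 z = (p^(n-k))^2 Tc3 χ' (z^(p^(n-k)))`, the constant is not `0`
(`three_cast_ne hp5`), and `Tc3 χ' (..) ≠ 0` by `hS` (`k ≥ m + 1 ≥ k0`).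
-/

namespace H55T3

open NumberField H5SW

private theorem R5_sum {f : ℕ} [NeZero f] {L : Type} [Field L] [NumberField L] (r : RC f L)
    {M : Type*} [AddCommMonoid M] (F : (L ≃ₐ[ℚ] L) → M) :
    ∑ g, F g = ∑ u ∈ Hf f, F (r.σ u) := by
  classical
  have hhalf : IsHalf (Hf f) := isHalf_Hf r.odd (by have := r.two_lt; omega)
  symm
  refine Finset.sum_bij (fun u _ => r.σ u) (fun u _ => Finset.mem_univ _) ?_ ?_ (fun u _ => rfl)
  · intro u hu v hv h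
    have h1 : r.σ (u * v⁻¹) = 1 := by rw [map_mul, map_inv, h, mul_inv_cancel]
    rcases (r.ker _).mp h1 with h2 | h2
    · rwa [mul_inv_eq_one] at h2
    · exfalso
      have h3 : u = -v := by rw [mul_inv_eq_iff_eq_mul] at h2; rw [h2, neg_one_mul]
      rw [h3] at hu
      exact (hhalf v).mp hv hu
  · intro g _
    obtain ⟨u, rfl⟩ := r.surj g
    by_cases hu : u ∈ Hf f
    · exact ⟨u, hu, rfl⟩
    · refine ⟨-u, ?_, r.σ_neg u⟩
      by_contra h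
      exact hu ((hhalf u).mpr h)

private theorem R5_inv {Ω : Type} [Field Ω] {x : Ω} (hx : x ≠ 0) : (2 - (x + x⁻¹))⁻¹ = -Fr3 x := by
  have h1 : 2 - (x + x⁻¹) = -((1 - x) ^ 2 / x) := by
    field_simp
    ring
  unfold Fr3
  rw [h1, inv_neg, inv_div]

theorem nonvanish3 {p k0 : ℕ} [Fact p.Prime] (hp5 : 5 ≤ p) (hS : NV3 p k0) {m n : ℕ} (hm : k0 ≤ m + 1) {K L : Type} [Field K]
    [NumberField K] [Field L] [NumberField L] [Algebra K L] (r : RP p m n K L) {Ω : Type} [Field Ω] [CharP Ω 3]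
    (χ : (L ≃ₐ[ℚ] L) →* Ωˣ) (hχ : ∃ h : L ≃ₐ[K] L, χ (h.restrictScalars ℚ) ≠ 1) (ψ : 𝓞 L →+* Ω) :
    ∑ g : L ≃ₐ[ℚ] L, (χ g : Ω) * (2 - ψ (r.rL.e g : 𝓞 L))⁻¹ ≠ 0 := by
  classical
  have hp : p.Prime := Fact.out
  have hp2 : p ≠ 2 := by omega
  set ι : Ω →+* AlgebraicClosure Ω := algebraMap Ω (AlgebraicClosure Ω) with hι
  have hinj : Function.Injective ι := ι.injective
  set χ1 : (ZMod (p ^ (n + 1)))ˣ →* (AlgebraicClosure Ω)ˣ := (Units.map (ι : Ω →* AlgebraicClosure Ω)).comp (χ.comp r.rL.σ)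
    with hχ1
  have hχ1v : ∀ u, ((χ1 u : (AlgebraicClosure Ω)ˣ) : AlgebraicClosure Ω) = ι (χ (r.rL.σ u) : Ω) := fun u => rfl
  have hev : χ1 (-1) = 1 := by
    have h4 : r.rL.σ (-1) = 1 := (r.rL.ker (-1)).mpr (Or.inr rfl)
    ext
    rw [hχ1v, h4, map_one]
    simp
  have hmu : ∃ u, ZMod.unitsMap (pow_dvd_pow p (Nat.succ_le_succ r.hmn)) u = 1 ∧ χ1 u ≠ 1 := by
    obtain ⟨h, hh⟩ := hχ
    obtain ⟨u, hu, hu2⟩ := (r.mem_iff hp2 (h.restrictScalars ℚ)).mp ⟨h, rfl⟩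
    refine ⟨u, hu, fun h1 => hh ?_⟩
    rw [← hu2]
    ext
    apply hinj
    rw [← hχ1v, h1]
    simp
  have hcharA : CharP (AlgebraicClosure Ω) 3 := inferInstance
  have hTc : ∀ z : AlgebraicClosure Ω, IsPrimitiveRoot z (p ^ (n + 1)) → Tc3 χ1 z ≠ 0 := by
    obtain ⟨k, hmk, hkn, χ', hχe, hev', hprim⟩ := factor_level hp2 r.hmn χ1 hev hmu
    have hk0 : k0 ≤ k := by omega
    intro z hz
    rw [hχe, Tc3_level hp5 hkn hz χ' hev']
    have hz' : IsPrimitiveRoot (z ^ (p ^ (n - k))) (p ^ (k + 1)) := by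
      refine hz.pow (pow_pos hp.pos _) ?_
      rw [← pow_add]
      congr 1
      omega
    exact mul_ne_zero (pow_ne_zero _ (three_cast_ne hp5 _ _)) (hS k hk0 _ _ hz' χ' hev' hprim)
  intro h0
  have hpne : (p : AlgebraicClosure Ω) ≠ 0 := by
    intro h1
    rw [CharP.cast_eq_zero_iff (AlgebraicClosure Ω) 3] at h1
    have := (Nat.prime_dvd_prime_iff_eq Nat.prime_three hp).mp h1
    omega
  obtain ⟨z, hz, hzc⟩ := psi hp2 r.rL hpne (ι.comp ψ)
  apply hTc z hz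
  rw [R5_sum r.rL] at h0
  have h1 := congrArg ι h0
  rw [map_sum, map_zero] at h1
  rw [← neg_eq_zero, ← h1]
  unfold Tc3
  rw [← Finset.sum_neg_distrib]
  refine Finset.sum_congr rfl fun u _ => ?_
  rw [map_mul, hχ1v, ← mul_neg]
  congr 1
  have hz0 : z ≠ 0 := hz.ne_zero (pow_ne_zero _ hp.ne_zero)
  rw [map_inv₀, map_sub, r.rL.e_σ]
  have h2 := hzc (u : ZMod (p ^ (n + 1)))
  rw [RingHom.comp_apply] at h2
  rw [h2, map_ofNat, R5_inv (pow_ne_zero _ hz0)]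

end H55T3
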