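import Mathlib

/-!
ROW RA (the congruence modulo nine, pure algebra; about 140 lines).  PROOF.  `A` a domain of characteristic zero in which `3 ∣ x^3` implies `3 ∣ x`, `d g = b g^3 - 6 b g^2 + 9 b g = b g (b g - 3)^2`,
`b g * B g = 1 mod 9`. Let `R = A ⧸ (9)`, `q : A → R`. In `R`: `β_g = q (b g)` is a unit with inverse `q (B g)`, `q (d g) = β_g^3 (1 - 3 β_g⁻¹)^2` is a unit, `(1 - 3 β_g⁻¹)^2 = 1 - 6 β_g⁻¹`
(as `9 = 0`), and for integers `t` (also negative): `(1 - 3 y)^(2 t) = 1 - 6 t y` in `R`; products: `∏ (1 - 6 t_g y_g) = 1 - 6 ∑ t_g y_g` (as `36 = 0`).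
`hU` reads `q U = ∏ q(d g)^(θ g)` in `Rˣ`. So `q U = β^3 (1 - 6 κ)`, `β = ∏ β_g^(θ g) ∈ Rˣ`, `κ = q (∑ θ g B g)`. Choose `T ∈ A` with `q T = q s * β⁻¹`. `q U = q s^3` gives
`q T^3 = 1 - 6 κ`, i.e. with `k0 = ∑ θ g B g ∈ A`: `9 ∣ T^3 - 1 + 6 k0`. So `3 ∣ T^3 - 1`, and `(T - 1)^3 = T^3 - 1 - 3 T (T - 1)` is divisible by `3`, so `3 ∣ T - 1` (`hred`), `T = 1 + 3 w`,
`T^3 - 1 = 9 w + 27 w^2 + 27 w^3` is divisible by `9`, so `9 ∣ 6 k0`, `3 ∣ 2 k0` (domain, `3 ≠ 0`), `3 ∣ k0 = 3 k0 - 2 k0`.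
If you prefer to avoid `R`: everything can be done with the explicit inverses `B g` and natural exponents.
-/

set_option autoImplicit false

namespace H55T3

/-- the homomorphism `a ↦ 1 - 6 a` to the units, in a ring where `9 = 0` -/
private def ra_phi {R : Type} [CommRing R] (h9 : (9 : R) = 0) : Multiplicative R →* Rˣ where
  toFun a := ⟨1 - 6 * a.toAdd, 1 + 6 * a.toAdd, by linear_combination (-4 * a.toAdd ^ 2) * h9,
    by linear_combination (-4 * a.toAdd ^ 2) * h9⟩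
  map_one' := by
    ext
    simp
  map_mul' a b := by
    ext
    simp only [toAdd_mul, Units.val_mul]
    linear_combination (-4 * a.toAdd * b.toAdd) * h9

private theorem ra_phi_prod {R G : Type} [CommRing R] [Fintype G] (h9 : (9 : R) = 0) (y : G → R) (θ : G → ℤ) :
    ((∏ g, ra_phi h9 (Multiplicative.ofAdd (y g)) ^ (θ g) : Rˣ) : R) = 1 - 6 * ∑ g, (θ g : R) * y g := by
  have h1 : (∏ g, ra_phi h9 (Multiplicative.ofAdd (y g)) ^ (θ g) : Rˣ)
      = ra_phi h9 (Multiplicative.ofAdd (∑ g, (θ g : R) * y g)) := by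
    rw [ofAdd_sum, map_prod]
    refine Finset.prod_congr rfl fun g _ => ?_
    rw [← map_zpow, ← ofAdd_zsmul, zsmul_eq_mul]
  rw [h1]
  rfl

private theorem ra_zpow {R : Type} [CommRing R] (u : Rˣ) (t : ℤ) : u ^ t * u ^ (-t).toNat = u ^ t.toNat := by
  rw [← zpow_natCast u (-t).toNat, ← zpow_natCast u t.toNat, ← zpow_add]
  congr 1
  omega

theorem ra_kappa {A G : Type} [CommRing A] [IsDomain A] [CharZero A] [Fintype G]
    (hred : ∀ x : A, (3 : A) ∣ x ^ 3 → (3 : A) ∣ x) (d b B : G → A)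
    (hd : ∀ g, d g = b g ^ 3 - 6 * b g ^ 2 + 9 * b g) (hB : ∀ g, (9 : A) ∣ b g * B g - 1) (θ : G → ℤ) (U s : A)
    (hU : U * ∏ g, d g ^ (-θ g).toNat = ∏ g, d g ^ (θ g).toNat) (h : (9 : A) ∣ U - s ^ 3) :
    (3 : A) ∣ ∑ g, (θ g : A) * B g := by
  classical
  set q := Ideal.Quotient.mk (Ideal.span {(9 : A)}) with hq
  have hq0 : ∀ x : A, q x = 0 ↔ (9 : A) ∣ x := fun x => by
    rw [hq, Ideal.Quotient.eq_zero_iff_mem, Ideal.mem_span_singleton]
  have h9 : (9 : A ⧸ Ideal.span {(9 : A)}) = 0 := by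
    have := (hq0 9).2 dvd_rfl
    rwa [map_ofNat] at this
  have hbB : ∀ g, q (b g) * q (B g) = 1 := fun g => by
    have := (hq0 _).2 (hB g)
    rw [map_sub, map_mul, map_one] at this
    exact sub_eq_zero.1 this
  let β : G → (A ⧸ Ideal.span {(9 : A)})ˣ := fun g => ⟨q (b g), q (B g), hbB g, by rw [mul_comm]; exact hbB g⟩
  let γ : G → (A ⧸ Ideal.span {(9 : A)})ˣ := fun g => ra_phi h9 (Multiplicative.ofAdd (q (B g)))
  have hγ : ∀ g, ((γ g : (A ⧸ Ideal.span {(9 : A)})ˣ) : A ⧸ Ideal.span {(9 : A)}) = 1 - 6 * q (B g) := fun g => rfl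
  have hβ : ∀ g, ((β g : (A ⧸ Ideal.span {(9 : A)})ˣ) : A ⧸ Ideal.span {(9 : A)}) = q (b g) := fun g => rfl
  have hdg : ∀ g, q (d g) = ((β g ^ 3 * γ g : (A ⧸ Ideal.span {(9 : A)})ˣ) : A ⧸ Ideal.span {(9 : A)}) := fun g => by
    rw [Units.val_mul, Units.val_pow_eq_pow_val, hγ, hβ, hd g]
    simp only [map_add, map_sub, map_mul, map_pow, map_ofNat]
    linear_combination (q (b g)) * h9 + 6 * (q (b g)) ^ 2 * hbB g
  have hUq : q U = ((∏ g, (β g ^ 3 * γ g) ^ (θ g) : (A ⧸ Ideal.span {(9 : A)})ˣ) : A ⧸ Ideal.span {(9 : A)}) := by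
    have h1 := congrArg q hU
    rw [map_mul, map_prod, map_prod] at h1
    simp only [map_pow, hdg, ← Units.val_pow_eq_pow_val] at h1
    rw [← Units.coe_prod, ← Units.coe_prod] at h1
    have h2 : (∏ g, (β g ^ 3 * γ g) ^ (θ g).toNat : (A ⧸ Ideal.span {(9 : A)})ˣ)
        = (∏ g, (β g ^ 3 * γ g) ^ (θ g)) * ∏ g, (β g ^ 3 * γ g) ^ (-θ g).toNat := by
      rw [← Finset.prod_mul_distrib]
      exact Finset.prod_congr rfl fun g _ => (ra_zpow _ _).symm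
    rw [h2, Units.val_mul] at h1
    exact (Units.isUnit _).mul_right_cancel h1
  set Bt : (A ⧸ Ideal.span {(9 : A)})ˣ := ∏ g, β g ^ (θ g) with hBt
  have hsplit : (∏ g, (β g ^ 3 * γ g) ^ (θ g) : (A ⧸ Ideal.span {(9 : A)})ˣ) = Bt ^ 3 * ∏ g, γ g ^ (θ g) := by
    rw [hBt, ← Finset.prod_pow, ← Finset.prod_mul_distrib]
    refine Finset.prod_congr rfl fun g _ => ?_
    rw [mul_zpow, ← zpow_natCast, ← zpow_natCast, ← zpow_mul, ← zpow_mul, mul_comm (θ g)]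
  have hUq2 : q U = (Bt : A ⧸ Ideal.span {(9 : A)}) ^ 3 * (1 - 6 * q (∑ g, (θ g : A) * B g)) := by
    rw [hUq, hsplit, Units.val_mul, Units.val_pow_eq_pow_val, ra_phi_prod h9 (fun g => q (B g)) θ, map_sum]
    simp only [map_mul, map_intCast]
  obtain ⟨T, hT⟩ := Ideal.Quotient.mk_surjective (I := Ideal.span {(9 : A)}) (q s * ((Bt⁻¹ : (A ⧸ Ideal.span {(9 : A)})ˣ) : A ⧸ Ideal.span {(9 : A)}))
  rw [← hq] at hT
  have hUs : q U = q s ^ 3 := by
    have := (hq0 _).2 h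
    rw [map_sub, map_pow] at this
    exact sub_eq_zero.1 this
  have hT3 : q T ^ 3 = 1 - 6 * q (∑ g, (θ g : A) * B g) := by
    rw [hT, mul_pow, ← hUs, hUq2, mul_right_comm, ← mul_pow, Units.mul_inv, one_pow, one_mul]
  set k0 : A := ∑ g, (θ g : A) * B g with hk0
  have h9T : (9 : A) ∣ T ^ 3 - 1 + 6 * k0 := by
    rw [← hq0, map_add, map_sub, map_pow, map_mul, map_ofNat, map_one, hT3]
    ring
  have h3T : (3 : A) ∣ T ^ 3 - 1 := by
    obtain ⟨c, hc⟩ := h9T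
    exact ⟨3 * c - 2 * k0, by linear_combination hc⟩
  have h3T1 : (3 : A) ∣ T - 1 := by
    apply hred
    obtain ⟨c, hc⟩ := h3T
    exact ⟨c - T * (T - 1), by linear_combination hc⟩
  obtain ⟨w, hw⟩ := h3T1
  obtain ⟨c, hc⟩ := h9T
  have hTw : T = 1 + 3 * w := by linear_combination hw
  have h6 : 3 * (2 * k0) = 3 * (3 * (c - w - 3 * w ^ 2 - 3 * w ^ 3)) := by
    rw [hTw] at hc
    linear_combination hc
  have h2 : 2 * k0 = 3 * (c - w - 3 * w ^ 2 - 3 * w ^ 3) :=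
    mul_left_cancel₀ (Nat.cast_ne_zero (R := A).2 (by norm_num : (3 : ℕ) ≠ 0)) h6
  exact ⟨k0 - (c - w - 3 * w ^ 2 - 3 * w ^ 3), by linear_combination -h2⟩

end H55T3
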