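import Pool.Agent.H5.SW.Rd

/-!
ROW RD (three is unramified; about 90 lines).  PROOF.  Copy Pool/Agent/H5/SW/Rd.lean and replace `2` by `3`: the discriminant of `L` divides the discriminant of
`CyclotomicField (p^(n+1)) ℚ`, `±` a power of `p`, so it is prime to `3` (`p ≥ 5`); hence `3 𝓞 L` is squarefree (`pow_sub_one_dvd_differentIdeal`, norms), so a radical ideal
(`Squarefree.isRadical`), and `3 ∣ x^k` implies `3 ∣ x` (the ideal `span {3}` divides `span {x}^k`).
-/

set_option autoImplicit false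

namespace H55T3

open NumberField H5SW

theorem discr_three {p n : ℕ} [Fact p.Prime] (hp5 : 5 ≤ p) {L : Type} [Field L] [NumberField L]
    (r : RC (p ^ (n + 1)) L) : ¬ (3 : ℤ) ∣ NumberField.discr L := by
  have hp : p.Prime := Fact.out
  have hz : NeZero (p ^ (n + 1)) := ⟨pow_ne_zero _ hp.ne_zero⟩
  have hz' : NeZero (((p ^ (n + 1) : ℕ) : ℚ)) := ⟨Nat.cast_ne_zero.mpr (pow_ne_zero _ hp.ne_zero)⟩
  have hcyc : IsCyclotomicExtension {p ^ (n + 1)} ℚ (CyclotomicField (p ^ (n + 1)) ℚ) :=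
    CyclotomicField.isCyclotomicExtension (p ^ (n + 1)) ℚ
  obtain ⟨i⟩ := r.emb
  let _ : Algebra L (CyclotomicField (p ^ (n + 1)) ℚ) := i.toAlgebra
  have hNF : NumberField (CyclotomicField (p ^ (n + 1)) ℚ) :=
    IsCyclotomicExtension.numberField {p ^ (n + 1)} ℚ _
  have h1 : NumberField.discr L ∣ NumberField.discr (CyclotomicField (p ^ (n + 1)) ℚ) :=
    NumberField.discr_dvd_discr L (CyclotomicField (p ^ (n + 1)) ℚ)
  have h2 := IsCyclotomicExtension.Rat.discr_prime_pow p (n + 1) (CyclotomicField (p ^ (n + 1)) ℚ)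
  rw [h2] at h1
  intro h3
  have h4 := h3.trans h1
  have h3p : Prime (3 : ℤ) := Int.prime_three
  rcases h3p.dvd_or_dvd h4 with h5 | h5
  · have h6 : (3 : ℤ) ∣ -1 := h3p.dvd_of_dvd_pow h5
    omega
  · have h6 : (3 : ℤ) ∣ (p : ℤ) := h3p.dvd_of_dvd_pow h5
    have h7 : 3 ∣ p := by exact_mod_cast h6
    have h8 : 3 = p := (Nat.prime_dvd_prime_iff_eq Nat.prime_three hp).mp h7
    omega

theorem three_red {p n : ℕ} [Fact p.Prime] (hp5 : 5 ≤ p) {L : Type} [Field L] [NumberField L]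
    (r : RC (p ^ (n + 1)) L) (k : ℕ) (x : 𝓞 L) (h : (3 : 𝓞 L) ∣ x ^ k) : (3 : 𝓞 L) ∣ x := by
  have hodd := discr_three hp5 r
  have hsq : Squarefree (Ideal.span {(3 : 𝓞 L)}) := by
    intro P hP
    have hPm : P ^ 2 ∣ (Ideal.span {(3 : ℤ)}).map (algebraMap ℤ (𝓞 L)) := by
      rw [Ideal.map_span, Set.image_singleton, pow_two]
      simpa using hP
    have hmax : (Ideal.span {(3 : ℤ)}).IsMaximal :=
      PrincipalIdealRing.isMaximal_of_irreducible (Int.prime_three.irreducible)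
    have hne : (Ideal.span {(3 : ℤ)}) ≠ ⊥ := by
      rw [Ne, Ideal.span_singleton_eq_bot]
      norm_num
    have hdiff := pow_sub_one_dvd_differentIdeal ℤ P 2 hne hPm
    rw [show 2 - 1 = 1 from rfl, pow_one] at hdiff
    have hN1 : Ideal.absNorm P ∣ (NumberField.discr L).natAbs := by
      rw [← NumberField.absNorm_differentIdeal L (𝓞 L)]
      exact map_dvd Ideal.absNorm hdiff
    have hN2 : Ideal.absNorm P ∣ 3 ^ Module.finrank ℚ L := by
      have h5 : Ideal.absNorm P ∣ Ideal.absNorm (Ideal.span {(3 : 𝓞 L)}) :=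
        map_dvd Ideal.absNorm ((dvd_mul_left P P).trans hP)
      have h6 : Ideal.absNorm (Ideal.span {(3 : 𝓞 L)}) = 3 ^ Module.finrank ℚ L := by
        rw [Ideal.absNorm_span_singleton]
        have h7 : (3 : 𝓞 L) = algebraMap ℤ (𝓞 L) 3 := by simp
        rw [h7, Algebra.norm_algebraMap, Int.natAbs_pow, RingOfIntegers.rank]
        rfl
      rwa [h6] at h5
    have hcop : Nat.Coprime (NumberField.discr L).natAbs (3 ^ Module.finrank ℚ L) := by
      apply Nat.Coprime.pow_right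
      rw [Nat.coprime_comm, Nat.prime_three.coprime_iff_not_dvd]
      intro h9
      exact hodd (Int.natCast_dvd.mpr h9)
    have h8 : Ideal.absNorm P = 1 := Nat.eq_one_of_dvd_coprimes hcop hN1 hN2
    rw [Ideal.absNorm_eq_one_iff] at h8
    exact Ideal.isUnit_iff.mpr h8
  have h1 : Ideal.span {(3 : 𝓞 L)} ∣ (Ideal.span {x}) ^ k := by
    rw [Ideal.span_singleton_pow, Ideal.dvd_span_singleton, Ideal.mem_span_singleton]
    exact h
  have h2 := hsq.isRadical k _ h1
  rw [Ideal.dvd_span_singleton, Ideal.mem_span_singleton] at h2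
  exact h2

end H55T3
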