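import Pool.Agent.H5.SW.G1

/-!
ROW RG (group ring lemma when `|N|` is invertible; about 110 lines).  PROOF.  Copy `group_ring` of Pool/Agent/H5/SW/G1.lean (`G1_char`, `G1_unit` there are free of the characteristic)
with `e = ∑_{h ∈ N} single h |N|⁻¹`: `Φ e = 1` if `Φ` is trivial on `N`, and `0` otherwise; `A * e = 0` as before.
-/

set_option autoImplicit false

namespace H55T3

open H5SW

theorem group_ring3 {Γ : Type} [CommGroup Γ] [Fintype Γ] (N : Subgroup Γ) [Fintype N]
    {Ω : Type} [Field Ω] [IsAlgClosed Ω] (hN : (Fintype.card N : Ω) ≠ 0) (s θ : Γ → Ω)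
    (hs : ∀ χ : Γ →* Ωˣ, (∃ h ∈ N, χ h ≠ 1) → ∑ g, (χ g : Ω) * s g ≠ 0)
    (h1 : ∀ g, ∑ h : N, θ (g * h) = 0) (h2 : ∀ g, ∑ x, θ x * s (g * x) = 0) : θ = 0 := by
  classical
  let A : MonoidAlgebra Ω Γ := ∑ x, MonoidAlgebra.single x⁻¹ (θ x)
  let S : MonoidAlgebra Ω Γ := ∑ y, MonoidAlgebra.single y (s y)
  let c : Ω := (Fintype.card N : Ω)⁻¹
  let e : MonoidAlgebra Ω Γ := ∑ h : N, MonoidAlgebra.single (h : Γ) c
  have hAS : A * S = 0 := by
    show (∑ x, MonoidAlgebra.single x⁻¹ (θ x)) * (∑ y, MonoidAlgebra.single y (s y)) = 0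
    rw [Finset.sum_mul_sum]
    have h3 : ∀ x : Γ, ∑ y, (MonoidAlgebra.single x⁻¹ (θ x) : MonoidAlgebra Ω Γ) *
        MonoidAlgebra.single y (s y) = ∑ g, MonoidAlgebra.single g (θ x * s (g * x)) := by
      intro x
      rw [← Equiv.sum_comp (Equiv.mulRight x)]
      refine Finset.sum_congr rfl fun g _ => ?_
      show MonoidAlgebra.single x⁻¹ (θ x) * MonoidAlgebra.single (g * x) (s (g * x)) = _
      rw [MonoidAlgebra.single_mul_single]
      congr 1
      rw [mul_comm g x, inv_mul_cancel_left]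
    rw [Finset.sum_congr rfl fun x _ => h3 x, Finset.sum_comm]
    refine Finset.sum_eq_zero fun g _ => ?_
    have h4 : ∑ x, (MonoidAlgebra.single g (θ x * s (g * x)) : MonoidAlgebra Ω Γ) =
        MonoidAlgebra.single g (∑ x, θ x * s (g * x)) := by
      exact (map_sum (MonoidAlgebra.singleAddHom g) _ _).symm
    rw [h4, h2, MonoidAlgebra.single_zero]
  have hAe : A * e = 0 := by
    show (∑ x, MonoidAlgebra.single x⁻¹ (θ x)) * (∑ h : N, MonoidAlgebra.single (h : Γ) c) = 0
    rw [Finset.sum_mul_sum, Finset.sum_comm]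
    have h3 : ∀ h : N, ∑ x, (MonoidAlgebra.single x⁻¹ (θ x) : MonoidAlgebra Ω Γ) *
        MonoidAlgebra.single (h : Γ) c = ∑ g, MonoidAlgebra.single g (θ (g⁻¹ * h) * c) := by
      intro h
      rw [← Equiv.sum_comp (Equiv.divRight (h : Γ)).symm, ← Equiv.sum_comp (Equiv.inv Γ)]
      refine Finset.sum_congr rfl fun g _ => ?_
      show MonoidAlgebra.single (g⁻¹ * (h : Γ))⁻¹ (θ (g⁻¹ * (h : Γ))) * MonoidAlgebra.single (h : Γ) c = _
      rw [MonoidAlgebra.single_mul_single]
      congr 1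
      rw [mul_inv, inv_inv, inv_mul_cancel_right]
    rw [Finset.sum_congr rfl fun x _ => h3 x, Finset.sum_comm]
    refine Finset.sum_eq_zero fun g _ => ?_
    have h4 : ∑ h : N, (MonoidAlgebra.single g (θ (g⁻¹ * h) * c) : MonoidAlgebra Ω Γ) =
        MonoidAlgebra.single g (∑ h : N, θ (g⁻¹ * h) * c) := by
      exact (map_sum (MonoidAlgebra.singleAddHom g) _ _).symm
    rw [h4, ← Finset.sum_mul, h1, zero_mul, MonoidAlgebra.single_zero]
  have hU : IsUnit ((1 - e) * S + e) := by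
    refine G1_unit _ fun Φ => ?_
    let χ0 : Γ →* Ω := (Φ : MonoidAlgebra Ω Γ →* Ω).comp (MonoidAlgebra.of Ω Γ)
    have hχ0 : ∀ g, χ0 g = Φ (MonoidAlgebra.single g 1) := fun g => rfl
    have hS : Φ S = ∑ y, χ0 y * s y := by
      show Φ (∑ y, MonoidAlgebra.single y (s y)) = _
      rw [map_sum]
      refine Finset.sum_congr rfl fun y _ => ?_
      have : (MonoidAlgebra.single y (s y) : MonoidAlgebra Ω Γ) = s y • MonoidAlgebra.single y 1 := by
        rw [MonoidAlgebra.smul_single, smul_eq_mul, mul_one]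
      rw [this, map_smul, smul_eq_mul, hχ0, mul_comm]
    have he : Φ e = c * ∑ h : N, χ0 (h : Γ) := by
      show Φ (∑ h : N, MonoidAlgebra.single (h : Γ) c) = _
      rw [map_sum, Finset.mul_sum]
      refine Finset.sum_congr rfl fun h _ => ?_
      have : (MonoidAlgebra.single (h : Γ) c : MonoidAlgebra Ω Γ) =
          c • MonoidAlgebra.single (h : Γ) 1 := by
        rw [MonoidAlgebra.smul_single, smul_eq_mul, mul_one]
      rw [this, map_smul, smul_eq_mul, hχ0]
    rw [map_add, map_mul, map_sub, map_one]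
    by_cases hc : ∃ h ∈ N, χ0 h ≠ 1
    · obtain ⟨h0, hh0, hne⟩ := hc
      rw [he, G1_char N χ0 h0 hh0 hne, mul_zero, sub_zero, one_mul, add_zero, hS]
      have := hs χ0.toHomUnits ⟨h0, hh0, fun h3 => hne ?_⟩
      · simpa using this
      · rw [← MonoidHom.coe_toHomUnits χ0 h0, h3, Units.val_one]
    · push Not at hc
      have he1 : Φ e = 1 := by
        rw [he]
        have h3 : ∑ h : N, χ0 (h : Γ) = ∑ _h : N, (1 : Ω) :=
          Finset.sum_congr rfl fun h _ => hc h h.2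
        rw [h3, Finset.sum_const, Finset.card_univ, nsmul_eq_mul, mul_one]
        exact inv_mul_cancel₀ hN
      rw [he1, sub_self, zero_mul, zero_add]
      exact one_ne_zero
  have hA : A = 0 := by
    have h3 : A * ((1 - e) * S + e) = 0 := by
      have : A * ((1 - e) * S + e) = A * S - (A * e) * S + A * e := by ring
      rw [this, hAS, hAe, zero_mul, sub_zero, add_zero]
    exact (hU.mul_left_eq_zero).mp h3
  funext x
  have h3 := congrArg (fun w : MonoidAlgebra Ω Γ => w.coeff x⁻¹) hA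
  have h4 : A.coeff x⁻¹ = θ x := by
    show (∑ x, MonoidAlgebra.single x⁻¹ (θ x) : MonoidAlgebra Ω Γ).coeff x⁻¹ = θ x
    rw [MonoidAlgebra.coeff_sum, Finsupp.finsetSum_apply, Finset.sum_eq_single x]
    · rw [MonoidAlgebra.coeff_single, Finsupp.single_eq_same]
    · intro y _ hy
      rw [MonoidAlgebra.coeff_single, Finsupp.single_eq_of_ne]
      intro h5
      exact hy (inv_injective h5).symm
    · intro h5
      exact absurd (Finset.mem_univ x) h5
  rw [← h4]
  exact h3

/-- the same for a group which is commutative as a hypothesis (copy `k2_group_ring` of H5/SW/K2) -/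
theorem group_ring3' {Γ : Type} [Group Γ] (hcomm : ∀ a b : Γ, a * b = b * a) [Fintype Γ]
    (N : Subgroup Γ) [Fintype N] {Ω : Type} [Field Ω] [IsAlgClosed Ω] (hN : (Fintype.card N : Ω) ≠ 0) (s θ : Γ → Ω)
    (hs : ∀ χ : Γ →* Ωˣ, (∃ h ∈ N, χ h ≠ 1) → ∑ g, (χ g : Ω) * s g ≠ 0)
    (h1 : ∀ g, ∑ h : N, θ (g * h) = 0) (h2 : ∀ g, ∑ x, θ x * s (g * x) = 0) : θ = 0 := by
  let _ : CommGroup Γ := { ‹Group Γ› with mul_comm := hcomm }
  exact group_ring3 N hN s θ hs h1 h2

end H55T3
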