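import Pool.Agent.H55.T3.R0
import Pool.Agent.H55.T3.R5
import Pool.Agent.H55.T3.RA
import Pool.Agent.H55.T3.RD
import Pool.Agent.H55.T3.RG
import Pool.Agent.H5.SW.Cb

/-!
ROW RK (from non vanishing to divisibility by three; about 190 lines).  PROOF.  Adapt Pool/Agent/H5/SW/K2.lean (`even_of_sq`).  `f = p^(n+1)`, `3` invertible modulo `f`.
(1) triple angle: `r.c (3 a) = r.c a ^ 3 - 3 r.c a` (`c_mul`, `c_sq`), so with `b = 2 - r.c a`: `2 - r.c (3 a) = b^3 - 6 b^2 + 9 b`. For `g` put `b g = 2 - r.c (v3⁻¹ * r.u g)`, `v3` the unit `3` modulo `f`; then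
    `dI r g = b g^3 - 6 b g^2 + 9 b g`.
(2) `b g` divides `p`: `b g = dI r g'` up to conjugation: `2 - r.c v` for a unit `v` divides `p` by `Cb_prod_gal` (`∏_g (2 - c (u g)) = p`) and `Cb_assoc` (all `2 - c v` generate the same ideal); as `p` is
    prime to `9` there is `B g` with `9 ∣ b g * B g - 1`.
(3) `U = dw r.rL θ`: `hU` of `ra_kappa` holds in `L` by `dw_coe` (`rel_sum`, split the exponents `θ g = (θ g).toNat - (-θ g).toNat`), so in `𝓞 L`. `ra_kappa` (with `three_red hp5 r.rL 3`): `3 ∣ ∑ θ g * B g`.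
(4) Let `φ : 𝓞 L →+* Ω` be any ring homomorphism to `Ω = AlgebraicClosure (ZMod 3)`. `φ (B g) = φ (b g)⁻¹` (9 = 0 in Ω), so `∑ θ g φ(b g)⁻¹ = 0`; cube it (Frobenius, `θ^3 = θ` in characteristic three):
    `∑ θ g φ(b g)^(-3) = 0`, and `φ(b g)^3 = φ(dI g) = 2 - φ(e g)` (by (1), `6 = 9 = 0`). So `∑ θ g (2 - φ (e g))⁻¹ = 0` for all `φ`.
(5) Compose one `ψ` (existence: copy `k2_exists_hom`) with the Galois action (`RC.apply_e`, `hact` in K2): `∑_x θ x (2 - ψ (e (g x)))⁻¹ = 0` for all `g`. `group_ring3'` with `N` = image of `Gal(L/K)`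
    (order `p^(n-m)`, not `0` in `Ω`: `three_cast_ne`), `s y = (2 - ψ (e y))⁻¹`, `hs` = `nonvanish3`, `h1` from `Rel`: `θ = 0` in `Ω`, i.e. `3 ∣ θ g`.
-/

set_option autoImplicit false

namespace H55T3

open NumberField H5SW

variable {p k0 : ℕ} [Fact p.Prime] {m n : ℕ} {K L : Type} [Field K] [NumberField K] [Field L] [NumberField L] [Algebra K L]

/-- a ring hom from the integers of `L` to the algebraic closure of `ZMod 3` -/
private lemma RK_exists_hom (L : Type) [Field L] [NumberField L] :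
    Nonempty (𝓞 L →+* AlgebraicClosure (ZMod 3)) := by
  have h3z : Prime (3 : ℤ) := Int.prime_three
  have hpr : (Ideal.span {(3 : ℤ)}).IsPrime := (Ideal.span_singleton_prime h3z.ne_zero).mpr h3z
  obtain ⟨P, hP⟩ := (Ideal.span {(3 : ℤ)}).nonempty_primesOver (S := 𝓞 L)
  have hP1 : P.IsPrime := hP.1
  have hP2 : P.LiesOver (Ideal.span {(3 : ℤ)}) := hP.2
  have h3P : (3 : 𝓞 L) ∈ P := by
    have h3 : (3 : ℤ) ∈ P.under ℤ := by
      rw [← hP2.over]
      exact Ideal.mem_span_singleton_self 3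
    rw [Ideal.under_def, Ideal.mem_comap] at h3
    simpa using h3
  have hPb : P ≠ ⊥ := by
    intro h
    rw [h, Ideal.mem_bot] at h3P
    have h4 : ((3 : ℕ) : 𝓞 L) ≠ 0 := Nat.cast_ne_zero.2 (by norm_num)
    exact h4 (by exact_mod_cast h3P)
  have hmax : P.IsMaximal := hP1.isMaximal hPb
  let _ : Field (𝓞 L ⧸ P) := Ideal.Quotient.field P
  have hfin : Finite (𝓞 L ⧸ P) := Ideal.finiteQuotientOfFreeOfNeBot P hPb
  have hchar : CharP (𝓞 L ⧸ P) 3 := by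
    rw [CharP.charP_iff_prime_eq_zero Nat.prime_three]
    have h4 : Ideal.Quotient.mk P (3 : 𝓞 L) = 0 := Ideal.Quotient.eq_zero_iff_mem.mpr h3P
    rw [map_ofNat] at h4
    exact_mod_cast h4
  let _ : Algebra (ZMod 3) (𝓞 L ⧸ P) := ZMod.algebra _ 3
  have halg : Algebra.IsAlgebraic (ZMod 3) (𝓞 L ⧸ P) := inferInstance
  let F : (𝓞 L ⧸ P) →ₐ[ZMod 3] AlgebraicClosure (ZMod 3) := IsAlgClosed.lift
  exact ⟨(F : (𝓞 L ⧸ P) →+* AlgebraicClosure (ZMod 3)).comp (Ideal.Quotient.mk P)⟩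

/-- the triple angle formula -/
private lemma RK_triple {f : ℕ} (r : RC f L) (a : ZMod f) :
    2 - r.c (3 * a) = (2 - r.c a) ^ 3 - 6 * (2 - r.c a) ^ 2 + 9 * (2 - r.c a) := by
  have h1 := r.c_sq a
  have h2 := r.c_mul (2 * a) a
  have e1 : 2 * a + a = 3 * a := by ring
  have e2 : 2 * a - a = a := by ring
  rw [e1, e2] at h2
  linear_combination (r.c a) * h1 + h2

theorem three_dvd_of_nine (hp5 : 5 ≤ p) (hS : NV3 p k0) (hm : k0 ≤ m + 1) (r : RP p m n K L) (θ : (L ≃ₐ[ℚ] L) → ℤ)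
    (hR : Rel K L θ) {s : 𝓞 L} (h : (9 : 𝓞 L) ∣ (dw r.rL θ : 𝓞 L) - s ^ 3) : ∀ g, (3 : ℤ) ∣ θ g := by
  classical
  have hp : p.Prime := Fact.out
  have hp2 : p ≠ 2 := by omega
  have hcop : Nat.Coprime 3 p := by
    rw [Nat.coprime_primes Nat.prime_three hp]
    omega
  obtain ⟨v3, hv3⟩ : ∃ v : (ZMod (p ^ (n + 1)))ˣ, (v : ZMod (p ^ (n + 1))) = 3 := by
    refine ⟨ZMod.unitOfCoprime 3 (hcop.pow_right _), ?_⟩
    rw [ZMod.coe_unitOfCoprime]
    norm_num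
  obtain ⟨b, hbdef⟩ : ∃ b : (L ≃ₐ[ℚ] L) → 𝓞 L,
    ∀ g, b g = 2 - r.rL.c ((v3⁻¹ * r.rL.u g : (ZMod (p ^ (n + 1)))ˣ) : ZMod (p ^ (n + 1))) :=
    ⟨_, fun g => rfl⟩
  have hd : ∀ g, dI r.rL g = b g ^ 3 - 6 * b g ^ 2 + 9 * b g := by
    intro g
    rw [hbdef, ← RK_triple, dI]
    have h1 : 3 * ((v3⁻¹ * r.rL.u g : (ZMod (p ^ (n + 1)))ˣ) : ZMod (p ^ (n + 1))) = r.rL.u g := by
      rw [← hv3, ← Units.val_mul, mul_inv_cancel_left]
    rw [h1]
  have hBex : ∀ g, ∃ B : 𝓞 L, (9 : 𝓞 L) ∣ b g * B - 1 := by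
    intro g
    have h1 : b g ∣ (p : 𝓞 L) := by
      have h2 := Cb_prod_gal r.rL
      have h3 : (2 - r.rL.c (r.rL.u 1 : ZMod (p ^ (n + 1)))) ∣ (p : 𝓞 L) := by
        rw [← h2]
        exact Finset.dvd_prod_of_mem
          (fun g : L ≃ₐ[ℚ] L => (2 - r.rL.c (r.rL.u g : ZMod (p ^ (n + 1))))) (Finset.mem_univ 1)
      have h4 := Cb_assoc r.rL (v3⁻¹ * r.rL.u g)
      have h5 := Cb_assoc r.rL (r.rL.u 1)
      rw [← h5, ← hbdef] at h4
      have h6 : b g ∣ 2 - r.rL.c (r.rL.u 1 : ZMod (p ^ (n + 1))) := by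
        rw [← Ideal.mem_span_singleton, h4]
        exact Ideal.mem_span_singleton_self _
      exact h6.trans h3
    obtain ⟨q, hq⟩ := h1
    have h7 : IsCoprime (p : ℤ) (9 : ℤ) := by
      have h8 : Nat.Coprime p 9 := by
        have : Nat.Coprime p (3 ^ 2) := (hcop.symm).pow_right 2
        simpa using this
      exact_mod_cast Nat.isCoprime_iff_coprime.2 h8
    obtain ⟨x, y, hxy⟩ := h7
    refine ⟨q * (x : 𝓞 L), ⟨-(y : 𝓞 L), ?_⟩⟩
    have h9 : (x : 𝓞 L) * (p : 𝓞 L) + (y : 𝓞 L) * 9 = 1 := by exact_mod_cast congrArg (Int.cast (R := 𝓞 L)) hxy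
    rw [hq] at h9
    linear_combination h9
  choose B hB using hBex
  have hU : (dw r.rL θ : 𝓞 L) * ∏ g, dI r.rL g ^ (-θ g).toNat = ∏ g, dI r.rL g ^ (θ g).toNat := by
    apply RingOfIntegers.coe_injective
    have hc := dw_coe r.rL (rel_sum hR)
    have e1 : ∀ t : (L ≃ₐ[ℚ] L) → ℕ, ((∏ g, dI r.rL g ^ t g : 𝓞 L) : L) = ∏ g, r.rL.d g ^ t g := by
      intro t
      have h1 : ((∏ g, dI r.rL g ^ t g : 𝓞 L) : L) = ∏ g, ((dI r.rL g ^ t g : 𝓞 L) : L) :=
        map_prod (algebraMap (𝓞 L) L) _ _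
      rw [h1]
      refine Finset.prod_congr rfl fun g _ => ?_
      have h2 : ((dI r.rL g ^ t g : 𝓞 L) : L) = ((dI r.rL g : 𝓞 L) : L) ^ t g :=
        map_pow (algebraMap (𝓞 L) L) _ _
      rw [h2, dI_coe]
    have e2 : (((dw r.rL θ : 𝓞 L) * ∏ g, dI r.rL g ^ (-θ g).toNat : 𝓞 L) : L) =
        ((dw r.rL θ : 𝓞 L) : L) * ((∏ g, dI r.rL g ^ (-θ g).toNat : 𝓞 L) : L) :=
      map_mul (algebraMap (𝓞 L) L) _ _
    show (((dw r.rL θ : 𝓞 L) * ∏ g, dI r.rL g ^ (-θ g).toNat : 𝓞 L) : L) =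
      ((∏ g, dI r.rL g ^ (θ g).toNat : 𝓞 L) : L)
    rw [e2, hc, e1, e1, ← Finset.prod_mul_distrib]
    refine Finset.prod_congr rfl fun g _ => ?_
    have h3 : r.rL.d g ≠ 0 := r.rL.d_ne_zero g
    rw [← zpow_natCast, ← zpow_natCast, ← zpow_add₀ h3]
    congr 1
    have := Int.toNat_sub_toNat_neg (θ g)
    omega
  have hκ := ra_kappa (three_red hp5 r.rL 3) (dI r.rL) b B hd hB θ (dw r.rL θ : 𝓞 L) s hU h
  -- reduction
  obtain ⟨ψ⟩ := RK_exists_hom L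
  have hΩ3 : (3 : AlgebraicClosure (ZMod 3)) = 0 := by
    have := CharP.cast_eq_zero (AlgebraicClosure (ZMod 3)) 3
    exact_mod_cast this
  have hsum : ∀ φ : 𝓞 L →+* AlgebraicClosure (ZMod 3),
      ∑ g, ((θ g : ℤ) : AlgebraicClosure (ZMod 3)) * (2 - φ (r.rL.e g : 𝓞 L))⁻¹ = 0 := by
    intro φ
    obtain ⟨y, hy⟩ := hκ
    have h1 := congrArg φ hy
    rw [map_mul, map_ofNat, hΩ3, zero_mul, map_sum] at h1
    have h2 := congrArg (frobenius (AlgebraicClosure (ZMod 3)) 3) h1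
    rw [map_sum, map_zero] at h2
    rw [← h2]
    refine Finset.sum_congr rfl fun g _ => ?_
    rw [map_mul, map_intCast, map_mul, map_intCast, frobenius_def]
    congr 1
    have h3 : φ (b g) * φ (B g) = 1 := by
      obtain ⟨w, hw⟩ := hB g
      have h4 := congrArg φ hw
      rw [map_sub, map_mul, map_mul, map_one] at h4
      have h5 : φ (9 : 𝓞 L) = 0 := by
        rw [show (9 : 𝓞 L) = 3 * 3 by norm_num, map_mul, map_ofNat, hΩ3, mul_zero]
      rw [h5, zero_mul] at h4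
      exact sub_eq_zero.1 h4
    have h6 : 2 - φ (r.rL.e g : 𝓞 L) = φ (b g) ^ 3 := by
      have h7 := congrArg φ (hd g)
      rw [dI, map_sub, map_ofNat, map_add, map_sub, map_mul, map_mul, map_pow, map_pow, map_ofNat,
        map_ofNat] at h7
      rw [r.rL.e_eq, h7]
      linear_combination (-2 * φ (b g) ^ 2 + 3 * φ (b g)) * hΩ3
    rw [h6]
    have h8 : φ (B g) = (φ (b g))⁻¹ := eq_inv_of_mul_eq_one_right h3
    rw [h8, inv_pow]
  have hact : ∀ g x : L ≃ₐ[ℚ] L,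
      RingOfIntegers.mapRingHom ((g : L →ₐ[ℚ] L) : L →+* L) (r.rL.e x : 𝓞 L) =
        (r.rL.e (g * x) : 𝓞 L) := by
    intro g x
    apply RingOfIntegers.coe_injective
    exact r.rL.apply_e g x
  -- the subgroup
  let ι : (L ≃ₐ[K] L) →* (L ≃ₐ[ℚ] L) :=
    { toFun := fun h => h.restrictScalars ℚ
      map_one' := rfl
      map_mul' := fun _ _ => rfl }
  have hι : Function.Injective ι := by
    intro g1 g2 hg
    ext z
    exact congrArg (fun t : L ≃ₐ[ℚ] L => t z) hg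
  let _ : Fintype ι.range := Fintype.ofEquiv _ (MonoidHom.ofInjective hι).toEquiv
  have hgal : IsGalois K L := r.isGalois
  have hcard : (Fintype.card ι.range : AlgebraicClosure (ZMod 3)) ≠ 0 := by
    have h1 : Fintype.card ι.range = Fintype.card (L ≃ₐ[K] L) :=
      (Fintype.card_congr (MonoidHom.ofInjective hι).toEquiv).symm
    have h2 : Fintype.card (L ≃ₐ[K] L) = Module.finrank K L := by
      rw [← IsGalois.card_aut_eq_finrank, Nat.card_eq_fintype_card]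
    rw [h1, h2, r.finrank hp2]
    exact three_cast_ne hp5 (n - m) (AlgebraicClosure (ZMod 3))
  have hθ0 : (fun g : L ≃ₐ[ℚ] L => ((θ g : ℤ) : AlgebraicClosure (ZMod 3))) = 0 := by
    refine group_ring3' r.rL.gal_comm ι.range hcard
      (fun g => (2 - ψ (r.rL.e g : 𝓞 L))⁻¹) _ ?_ ?_ ?_
    · rintro χ ⟨g, ⟨g', rfl⟩, hg⟩
      exact nonvanish3 hp5 hS hm r χ ⟨g', hg⟩ ψ
    · intro g
      have h1 : ∑ h : L ≃ₐ[K] L, ((θ (g * ι h) : ℤ) : AlgebraicClosure (ZMod 3)) = 0 := by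
        rw [← Int.cast_sum]
        have h2 := hR g
        have h3 : ∑ h : L ≃ₐ[K] L, θ (g * ι h) = 0 := h2
        rw [h3, Int.cast_zero]
      rw [← h1]
      symm
      exact Fintype.sum_equiv (MonoidHom.ofInjective hι).toEquiv _ _ (fun x => rfl)
    · intro g
      have h1 := hsum (ψ.comp (RingOfIntegers.mapRingHom ((g : L →ₐ[ℚ] L) : L →+* L)))
      rw [← h1]
      refine Finset.sum_congr rfl fun x _ => ?_
      rw [RingHom.comp_apply, hact]
  intro g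
  have h1 := congrFun hθ0 g
  simp only [Pi.zero_apply] at h1
  rw [CharP.intCast_eq_zero_iff (AlgebraicClosure (ZMod 3)) 3] at h1
  exact_mod_cast h1

theorem hCube_of (hp5 : 5 ≤ p) (hS : NV3 p k0) (hm : k0 ≤ m + 1) (r : RP p m n K L) : HCube r := by
  intro θ hθ u hu
  refine three_dvd_of_nine hp5 hS hm r θ hθ (s := (u : 𝓞 L)) ?_
  rw [hu, Units.val_pow_eq_pow_val, sub_self]
  exact dvd_zero _

end H55T3
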