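import Pool.Agent.H55.T3.P2b
import Pool.Agent.H55.T3.K5b
import Pool.Agent.H55.T3.Fin

/-! Pair form of block D with coefficients in the integers of `K` (helper55). -/

set_option autoImplicit false
open scoped Classical

open WeierstrassCurve IsDedekindDomain NumberField Pool.Agent.H10 Pool.Agent.H11 H5SW

namespace H55T3

/-- `y^2 = x^3 - 3 (a x + b)^2` -/
def cE {k : Type} [Field k] (a b : k) : WeierstrassCurve k :=
  ⟨0, -3 * a ^ 2, 0, -6 * a * b, -3 * b ^ 2⟩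

/-- `y^2 = x^3 + (3 a x + c)^2`, `c = 9 b + 4 a^3` -/
def cF {k : Type} [Field k] (a b : k) : WeierstrassCurve k :=
  ⟨0, 9 * a ^ 2, 0, 6 * a * (9 * b + 4 * a ^ 3), (9 * b + 4 * a ^ 3) ^ 2⟩

/-- the dual of `cF` (isomorphic to `cE`) -/
def cG {k : Type} [Field k] (a b : k) : WeierstrassCurve k :=
  ⟨0, -27 * a ^ 2, 0, -486 * a * b, -2187 * b ^ 2⟩

section

variable {k : Type} [Field k] [CharZero k] {a b : k}

lemma is3_cE (hb : b ≠ 0) (hc : 9 * b + 4 * a ^ 3 ≠ 0) : Is3 (cE a b) 1 a b where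
  a₁ := rfl
  a₂ := by simp [cE]
  a₃ := rfl
  a₄ := by simp [cE]
  a₆ := by simp [cE]
  hD := one_ne_zero
  hb := hb
  hc := by rwa [mul_one]
  two := two_ne_zero
  three := three_ne_zero

lemma is3_cF (hb : b ≠ 0) (hc : 9 * b + 4 * a ^ 3 ≠ 0) :
    Is3 (cF a b) (-3) a ((9 * b + 4 * a ^ 3) / 3) where
  a₁ := rfl
  a₂ := by simp only [cF]; ring
  a₃ := rfl
  a₄ := by
    have h3 : (3 : k) ≠ 0 := three_ne_zero
    simp only [cF]
    field_simp
  a₆ := by
    have h3 : (3 : k) ≠ 0 := three_ne_zero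
    simp only [cF]
    field_simp
  hD := by norm_num
  hb := div_ne_zero hc three_ne_zero
  hc := by
    have h1 : (9 : k) * ((9 * b + 4 * a ^ 3) / 3) + 4 * (-3) * a ^ 3 = 27 * b := by
      have h3 : (3 : k) ≠ 0 := three_ne_zero
      field_simp
      ring
    rw [h1]
    exact mul_ne_zero (by norm_num) hb
  two := two_ne_zero
  three := three_ne_zero

lemma is3_cG (hb : b ≠ 0) (hc : 9 * b + 4 * a ^ 3 ≠ 0) : Is3 (cG a b) 9 a (9 * b) where
  a₁ := rfl
  a₂ := by simp only [cG]; ring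
  a₃ := rfl
  a₄ := by simp only [cG]; ring
  a₆ := by simp only [cG]; ring
  hD := by norm_num
  hb := mul_ne_zero (by norm_num) hb
  hc := by
    have h1 : (9 : k) * (9 * b) + 4 * 9 * a ^ 3 = 9 * (9 * b + 4 * a ^ 3) := by ring
    rw [h1]
    exact mul_ne_zero (by norm_num) hc
  two := two_ne_zero
  three := three_ne_zero

lemma dl_cE : dl (1 : k) a b = (9 * b + 4 * a ^ 3) / 3 := by
  unfold dl
  ring

lemma dl_cF : dl (-3 : k) a ((9 * b + 4 * a ^ 3) / 3) = 9 * b := by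
  unfold dl
  have h3 : (3 : k) ≠ 0 := three_ne_zero
  field_simp
  ring

end

section kt

variable {K L : Type} [Field K] [NumberField K] [Field L] [NumberField L] [Algebra K L]
  [IsGalois K L] {a b : 𝓞 K}

lemma coe_ne {x : 𝓞 K} (h : x ≠ 0) : (x : K) ≠ 0 := by
  simpa using h

lemma coe_c_ne (hc : 9 * b + 4 * a ^ 3 ≠ 0) : 9 * (b : K) + 4 * (a : K) ^ 3 ≠ 0 := by
  have h : algebraMap (𝓞 K) K (9 * b + 4 * a ^ 3) ≠ 0 := coe_ne hc
  rw [map_add, map_mul, map_mul, map_pow, map_ofNat, map_ofNat] at h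
  exact h

theorem kt_cE (hodd : Odd (Module.finrank K L)) (R : NoNewCube K L) (hb : b ≠ 0)
    (hc : 9 * b + 4 * a ^ 3 ≠ 0)
    (hred : ∀ v : HeightOneSpectrum (𝓞 K), (3 : 𝓞 K) ∈ v.asIdeal → ¬ (a ∈ v.asIdeal ∧ b ∈ v.asIdeal))
    (hbad : ∀ v : HeightOneSpectrum (𝓞 K), 6 * b * (9 * b + 4 * a ^ 3) ∈ v.asIdeal →
      UniqueOver K L v.asIdeal)
    (hunr : ∀ w : HeightOneSpectrum (𝓞 L), (3 : 𝓞 L) ∈ w.asIdeal →
      w.valuation L 3 = WithZero.exp (-1 : ℤ)) :
    KT K L ((cE (a : K) (b : K)).baseChange L) (inv_up rfl) := by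
  refine k5 (is3_cE (coe_ne hb) (coe_c_ne hc)) rfl (s := 1) (by norm_num) ?_
  intro d hd H σ
  refine k5_arith2 hodd R hc hred hbad hunr hd ?_ σ
  rw [mul_one, map_one] at H
  exact H

theorem kt_cG (hodd : Odd (Module.finrank K L)) (R : NoNewCube K L) (hb : b ≠ 0)
    (hc : 9 * b + 4 * a ^ 3 ≠ 0)
    (hred : ∀ v : HeightOneSpectrum (𝓞 K), (3 : 𝓞 K) ∈ v.asIdeal → ¬ (a ∈ v.asIdeal ∧ b ∈ v.asIdeal))
    (hbad : ∀ v : HeightOneSpectrum (𝓞 K), 6 * b * (9 * b + 4 * a ^ 3) ∈ v.asIdeal →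
      UniqueOver K L v.asIdeal)
    (hunr : ∀ w : HeightOneSpectrum (𝓞 L), (3 : 𝓞 L) ∈ w.asIdeal →
      w.valuation L 3 = WithZero.exp (-1 : ℤ)) :
    KT K L ((cG (a : K) (b : K)).baseChange L) (inv_up rfl) := by
  refine k5 (is3_cG (coe_ne hb) (coe_c_ne hc)) rfl (s := 3) (by norm_num) ?_
  intro d hd H σ
  refine k5_arith2 hodd R hc hred hbad hunr hd ?_ σ
  have e : (9 : K) * (9 * (b : K)) + 4 * 9 * (a : K) ^ 3 = 9 * (9 * (b : K) + 4 * (a : K) ^ 3) := by
    ring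
  rw [e, map_ofNat, map_mul, map_ofNat] at H
  intro v
  have hv := H v
  rw [map_mul, map_ofNat, map_ofNat] at hv
  rw [map_one]
  have h3 : (3 : v.adicCompletion L) ≠ 0 := by
    have : algebraMap L (v.adicCompletion L) 3 ≠ 0 := by
      rw [Ne, map_eq_zero]
      exact three_ne_zero
    rwa [map_ofNat] at this
  exact locSol_scale h3 hv

variable {C : Type} [Field C]
  [NumberField C] [Algebra L C] [Algebra K C] [IsScalarTower K L C]
  [IsGalois K C] [IsGalois L C]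

theorem kt_cF (hodd : Odd (Module.finrank K L)) (h3n : ¬ 3 ∣ Module.finrank K L) {s : C}
    (hs : s ^ 2 = -3) (hgen : ∀ g : C ≃ₐ[L] C, g s = s → g = 1)
    (hneg : ∃ g : C ≃ₐ[L] C, g s = -s) (hab : ∀ g g' : C ≃ₐ[K] C, g * g' = g' * g)
    (R : NoNewMinus K L C s) (hb : b ≠ 0) (hc : 9 * b + 4 * a ^ 3 ≠ 0)
    (hbad : ∀ v : HeightOneSpectrum (𝓞 K), 6 * b ∈ v.asIdeal →
      UniqueOver K L v.asIdeal) : KT K L ((cF (a : K) (b : K)).baseChange L) (inv_up rfl) := by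
  have hs0 : s ≠ 0 := by
    rintro rfl
    have h3 : (3 : C) ≠ 0 := three_ne_zero
    apply h3
    linear_combination hs
  obtain ⟨J, hJ⟩ := hneg
  have hval : ∀ g : C ≃ₐ[K] C, g s = s ∨ g s = -s := by
    intro g
    have h1 : (g s) ^ 2 = s ^ 2 := by
      rw [← map_pow, hs, map_neg, map_ofNat]
    exact sq_eq_sq_iff_eq_or_eq_neg.mp h1
  have hordd : ∀ g : C ≃ₐ[K] C, g s = s → Odd (orderOf g) := by
    intro g hg
    have h1 : g ^ Module.finrank K L = 1 := by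
      have h2 : AlgEquiv.restrictNormalHom (F := K) (K₁ := C) L g ^ Module.finrank K L = 1 := by
        rw [← IsGalois.card_aut_eq_finrank K L]
        exact pow_card_eq_one'
      rw [← map_pow] at h2
      have h3 : ∀ x : L, (g ^ Module.finrank K L) (algebraMap L C x) = algebraMap L C x := by
        intro x
        have h4 := AlgEquiv.restrictNormal_commutes (g ^ Module.finrank K L) L x
        have h5 : (g ^ Module.finrank K L).restrictNormal L = 1 := h2
        rw [h5] at h4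
        exact h4.symm
      have h4 := hgen (K6a_mk (g ^ Module.finrank K L) h3) (by
        change (g ^ Module.finrank K L) s = s
        have : ∀ n : ℕ, (g ^ n) s = s := by
          intro n
          induction n with
          | zero => simp
          | succ n ih => rw [pow_succ', AlgEquiv.mul_apply, ih, hg]
        exact this _)
      have h6 : (g ^ Module.finrank K L) = (K6a_mk (g ^ Module.finrank K L) h3).restrictScalars K := rfl
      rw [h6, h4]
      rfl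
    exact hodd.of_dvd_nat (orderOf_dvd_of_pow_eq_one h1)
  refine k6 (C := C) (is3_cF (coe_ne hb) (coe_c_ne hc)) rfl h3n hs hab {g | g s = s}
    (fun g hg => hg) ?_ ?_
  · intro t
    obtain ⟨g, hg⟩ : ∃ g : C ≃ₐ[K] C, ∀ x : L, g (algebraMap L C x) = algebraMap L C (t x) :=
      ⟨t.liftNormal C, fun x => t.liftNormal_commutes C x⟩
    rcases hval g with h | h
    · exact ⟨g, h, hg⟩
    · refine ⟨g * J.restrictScalars K, ?_, fun x => ?_⟩
      · change g (J s) = s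
        rw [hJ, map_neg, h, neg_neg]
      · change g (J (algebraMap L C x)) = _
        rw [J.commutes, hg]
  · intro d hd H _ hJ' g hg
    have e : 9 * ((9 * (b : K) + 4 * (a : K) ^ 3) / 3) + 4 * (-3) * (a : K) ^ 3 = 27 * (b : K) := by
      ring
    rw [e] at H
    exact minus_pair2 hs hgen hab R hb hbad hd H hJ' hg (hordd g hg)

/-- Block D for a pair of fields. -/
theorem ct3_pair2 (hodd : Odd (Module.finrank K L)) (h3n : ¬ 3 ∣ Module.finrank K L)
    (RR : NoNewCube K L) {s : C} (hs : s ^ 2 = -3) (hgen : ∀ g : C ≃ₐ[L] C, g s = s → g = 1)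
    (hneg : ∃ g : C ≃ₐ[L] C, g s = -s) (hab : ∀ g g' : C ≃ₐ[K] C, g * g' = g' * g)
    (R : NoNewMinus K L C s) (hb : b ≠ 0) (hc : 9 * b + 4 * a ^ 3 ≠ 0)
    (hred : ∀ v : HeightOneSpectrum (𝓞 K), (3 : 𝓞 K) ∈ v.asIdeal → ¬ (a ∈ v.asIdeal ∧ b ∈ v.asIdeal))
    (hbad : ∀ v : HeightOneSpectrum (𝓞 K), 6 * b * (9 * b + 4 * a ^ 3) ∈ v.asIdeal →
      UniqueOver K L v.asIdeal)
    (hunr : ∀ w : HeightOneSpectrum (𝓞 L), (3 : 𝓞 L) ∈ w.asIdeal →
      w.valuation L 3 = WithZero.exp (-1 : ℤ)) (E : WeierstrassCurve K)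
    (hE : E = cE (a : K) (b : K) ∨ E = cF (a : K) (b : K)) :
    (E.baseChange L).IsElliptic ∧ CT3 K L (E.baseChange L) (inv_up rfl) := by
  have hbad' : ∀ v : HeightOneSpectrum (𝓞 K), 6 * b ∈ v.asIdeal → UniqueOver K L v.asIdeal :=
    fun v hv => hbad v (v.asIdeal.mul_mem_right _ hv)
  have h1 := kt_cE (K := K) (L := L) hodd RR hb hc hred hbad hunr
  have h2 := kt_cG (K := K) (L := L) hodd RR hb hc hred hbad hunr
  have h3 := kt_cF (a := a) hodd h3n hs hgen hneg hab R hb hc hbad'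
  have e1 : (-3 * (1 : K)) = -3 := by ring
  have e2 : (-3 * (-3 : K)) = 9 := by ring
  rcases hE with rfl | rfl
  · have hE := is3_cE (coe_ne hb) (coe_c_ne hc)
    refine ⟨(hE.up (φ := algebraMap K L) rfl).isElliptic,
      i0 h3n hE (W := cF (a : K) (b : K)) ?_ rfl rfl h1 h3⟩
    rw [e1, dl_cE]
    exact is3_cF (coe_ne hb) (coe_c_ne hc)
  · have hE := is3_cF (coe_ne hb) (coe_c_ne hc)
    refine ⟨(hE.up (φ := algebraMap K L) rfl).isElliptic,
      i0 h3n hE (W := cG (a : K) (b : K)) ?_ rfl rfl h3 h2⟩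
    rw [e2, dl_cF]
    exact is3_cG (coe_ne hb) (coe_c_ne hc)

end kt

end H55T3
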