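import Pool.Agent.H55.T3.Xdf

/-!
Row Xa (about 200 lines): the classes of rational points. Ω := AlgebraicClosure K, E := V.baseChange Ω (Is3.bc), S, B the images of s, b.

PROOF. img_cube: P = 0, r = t (act 0 = 0, ee 0 = 1). img_mul: P + P', r r' (act is additive; σ(P + P') - (P + P') = (σP - P) + (σP' - P'); kr_add, ee_add). img_inv: -P, r⁻¹ (kr_neg, ee_neg). img_pow: induction.
img_point: Q = (x, y) ∈ W(K), Q_Ω its image (pm), psF_surj: P ∈ E with psF P = Q_Ω ≠ 0, so P is not in Kr (psF_eq_zero). r := ww S A P (A the image of a): ww_cube: r^3 = psY + S (3 A psX + C), and psX = x, psY = y by psF P = Q_Ω (psF_some), so r^3 = the image of y + s (3 a x + c) ≠ 0.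
 For σ: psF (act σ P) = act σ (psF P) = Q_Ω (pf_act in Bc.lean or psF_pm), so psF (act σ P - P) = 0 (pf_sub / psF_add, psF_neg) and T := act σ P - P is in Kr. σ r = ww (act σ P) (uu_pm with φ = σ; σ fixes S, A) = ww (P + T) = ee T * ww P (uu_trans).
cob_of_img: f ↔ (r, d), P, r' from Img: η := r / r' has η^3 = 1 (same cube), ee_surj: T ∈ Kr with ee T = η. P' := P + T: act σ P' - P' = (act σ P - P) + (act σ T - T), in Kr, ee (act σ T - T) = σ η / η (ee_pm as in K5.lean), so ee (act σ P' - P') * r = (σ r'/r') (σ η/η) r = σ r = ee (f σ) r,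
 hence ee (f σ) = ee (act σ P' - P') and f σ = act σ P' - P' (ee_inj). isCobound_iff (H10/Func4).
noKr_of_img: kum3 and loc3 as in K5.lean, then cob_of_img.
-/

set_option autoImplicit false
open scoped Classical

open WeierstrassCurve IsDedekindDomain NumberField Pool.Agent.H10 Pool.Agent.H11

namespace H55T3

variable {K : Type} [Field K] [NumberField K] {V W : WeierstrassCurve K} {D a b s : K}

omit [NumberField K] in
lemma Xa_hs (hs : s ^ 2 = D) : (algebraMap K (AlgebraicClosure K) s) ^ 2 =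
    algebraMap K (AlgebraicClosure K) D := by
  rw [← map_pow, hs]

omit [NumberField K] in
lemma Xa_ee (σ : AlgebraicClosure K ≃ₐ[K] AlgebraicClosure K)
    (T : (V.baseChange (AlgebraicClosure K)).toAffine.Point) :
    ee (algebraMap K (AlgebraicClosure K) s) (algebraMap K (AlgebraicClosure K) b)
      (act (inv_bc K V) σ T) =
    σ (ee (algebraMap K (AlgebraicClosure K) s) (algebraMap K (AlgebraicClosure K) b) T) := by
  have h1 := ee_pm (s := algebraMap K (AlgebraicClosure K) s)
    (b := algebraMap K (AlgebraicClosure K) b)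
    (φ := (σ : AlgebraicClosure K →+* AlgebraicClosure K)) (inv_bc K V σ) T
  have h2 : (σ : AlgebraicClosure K →+* AlgebraicClosure K)
      (algebraMap K (AlgebraicClosure K) s) = algebraMap K (AlgebraicClosure K) s := σ.commutes _
  have h3 : (σ : AlgebraicClosure K →+* AlgebraicClosure K)
      (algebraMap K (AlgebraicClosure K) b) = algebraMap K (AlgebraicClosure K) b := σ.commutes _
  rw [h2, h3] at h1
  exact h1

theorem img_cube (h : Is3 V D a b) {t : K} (ht : t ≠ 0) : Img V s b (t ^ 3) := by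
  refine ⟨0, algebraMap K (AlgebraicClosure K) t, ?_, ?_, ?_, ?_⟩
  · exact (map_ne_zero_iff _ (algebraMap K (AlgebraicClosure K)).injective).2 ht
  · rw [map_pow]
  · intro σ
    rw [map_zero, sub_zero]
    exact kr_zero
  · intro σ
    rw [map_zero, sub_zero, ee_zero, one_mul]
    exact σ.commutes t

theorem img_mul (h : Is3 V D a b) (hs : s ^ 2 = D) {d d' : K} (hd : Img V s b d)
    (hd' : Img V s b d') : Img V s b (d * d') := by
  obtain ⟨P, r, hr, h3, hk, hσ⟩ := hd
  obtain ⟨P', r', hr', h3', hk', hσ'⟩ := hd'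
  have hE := h.bc (AlgebraicClosure K)
  have hsE := Xa_hs hs
  have e : ∀ σ : AlgebraicClosure K ≃ₐ[K] AlgebraicClosure K,
      act (inv_bc K V) σ (P + P') - (P + P') =
        (act (inv_bc K V) σ P - P) + (act (inv_bc K V) σ P' - P') := by
    intro σ
    rw [map_add]
    abel
  refine ⟨P + P', r * r', mul_ne_zero hr hr', ?_, ?_, ?_⟩
  · rw [mul_pow, h3, h3', map_mul]
  · intro σ
    rw [e]
    exact kr_add hE (hk σ) (hk' σ)
  · intro σ
    rw [e, ee_add hE hsE (hk σ) (hk' σ), map_mul, hσ, hσ']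
    ring

theorem img_inv (h : Is3 V D a b) (hs : s ^ 2 = D) {d : K} (hd : Img V s b d) :
    Img V s b d⁻¹ := by
  obtain ⟨P, r, hr, h3, hk, hσ⟩ := hd
  have hE := h.bc (AlgebraicClosure K)
  have hsE := Xa_hs hs
  have e : ∀ σ : AlgebraicClosure K ≃ₐ[K] AlgebraicClosure K,
      act (inv_bc K V) σ (-P) - (-P) = -(act (inv_bc K V) σ P - P) := by
    intro σ
    rw [map_neg]
    abel
  refine ⟨-P, r⁻¹, inv_ne_zero hr, ?_, ?_, ?_⟩
  · rw [inv_pow, h3, map_inv₀]
  · intro σ
    rw [e]
    exact kr_neg.2 (hk σ)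
  · intro σ
    rw [e, ee_neg hE hsE (hk σ), map_inv₀, hσ, mul_inv]

theorem img_pow (h : Is3 V D a b) (hs : s ^ 2 = D) {d : K} (hd : Img V s b d) (n : ℕ) :
    Img V s b (d ^ n) := by
  induction n with
  | zero =>
    have h1 := img_cube (s := s) h (one_ne_zero (α := K))
    rw [one_pow] at h1
    rwa [pow_zero]
  | succ n ih =>
    rw [pow_succ]
    exact img_mul h hs ih hd

theorem img_point (h : Is3 V D a b) (h' : Is3 W (-3 * D) a (dl D a b)) (hs : s ^ 2 = D) {x y : K}
    (n : W.toAffine.Nonsingular x y) (h0 : y + s * (3 * a * x + (9 * b + 4 * D * a ^ 3)) ≠ 0) :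
    Img V s b (y + s * (3 * a * x + (9 * b + 4 * D * a ^ 3))) := by
  have hE := h.bc (AlgebraicClosure K)
  have hE' := h'.bcd (AlgebraicClosure K)
  have hsE := Xa_hs hs
  have hW : W.map (algebraMap K (AlgebraicClosure K)) = W.baseChange (AlgebraicClosure K) := rfl
  obtain ⟨Q, hQ⟩ : ∃ Q, Q = pm (algebraMap K (AlgebraicClosure K)) hW (.some x y n) := ⟨_, rfl⟩
  obtain ⟨P, hP⟩ := psF_surj hE hE' Q
  have hPk : ¬ Kr P := by
    intro hk
    rw [psF_kr hk, hQ, pm_some] at hP
    exact Affine.Point.some_ne_zero _ hP.symm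
  have hcube : ww (algebraMap K (AlgebraicClosure K) s) (algebraMap K (AlgebraicClosure K) a)
      (algebraMap K (AlgebraicClosure K) b) P ^ 3 =
      algebraMap K (AlgebraicClosure K) (y + s * (3 * a * x + (9 * b + 4 * D * a ^ 3))) := by
    rcases P with _ | ⟨X, Y, m⟩
    · exact absurd kr_zero hPk
    · have hX : X ≠ 0 := fun hx => hPk ((kr_some m).2 hx)
      rw [psF_some hE hE' m hX, hQ, pm_some, Affine.Point.some.injEq] at hP
      rw [(ww_cube hE hsE m hX).1, hP.1, hP.2]
      simp only [map_add, map_mul, map_pow, map_ofNat]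
  have hact : ∀ σ : AlgebraicClosure K ≃ₐ[K] AlgebraicClosure K, act (inv_bc K W) σ Q = Q := by
    intro σ
    rw [hQ]
    unfold Pool.Agent.H10.act
    rw [pm_pm]
    exact pm_congr _ _ (fun z => σ.commutes z) _
  have hkr : ∀ σ : AlgebraicClosure K ≃ₐ[K] AlgebraicClosure K,
      Kr (act (inv_bc K V) σ P - P) := by
    intro σ
    rw [← psF_eq_zero hE hE']
    have e1 : pf V W D a b (AlgebraicClosure K) (act (inv_bc K V) σ P - P) = 0 := by
      rw [pf_sub h h', pf_act h h']
      have e2 : pf V W D a b (AlgebraicClosure K) P = Q := hP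
      rw [e2, hact, sub_self]
    exact e1
  refine ⟨P, ww (algebraMap K (AlgebraicClosure K) s) (algebraMap K (AlgebraicClosure K) a)
    (algebraMap K (AlgebraicClosure K) b) P, ?_, hcube, hkr, ?_⟩
  · intro hz
    rw [hz, zero_pow three_ne_zero] at hcube
    exact h0 ((map_eq_zero_iff _ (algebraMap K (AlgebraicClosure K)).injective).1 hcube.symm)
  · intro σ
    have h1 := (uu_pm (s := algebraMap K (AlgebraicClosure K) s)
      (a := algebraMap K (AlgebraicClosure K) a)
      (b := algebraMap K (AlgebraicClosure K) b)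
      (φ := (σ : AlgebraicClosure K →+* AlgebraicClosure K)) (inv_bc K V σ) P).2
    have h2 : (σ : AlgebraicClosure K →+* AlgebraicClosure K)
        (algebraMap K (AlgebraicClosure K) s) = algebraMap K (AlgebraicClosure K) s := σ.commutes _
    have h3 : (σ : AlgebraicClosure K →+* AlgebraicClosure K)
        (algebraMap K (AlgebraicClosure K) b) = algebraMap K (AlgebraicClosure K) b := σ.commutes _
    have h4 : (σ : AlgebraicClosure K →+* AlgebraicClosure K)
        (algebraMap K (AlgebraicClosure K) a) = algebraMap K (AlgebraicClosure K) a := σ.commutes _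
    rw [h2, h3, h4] at h1
    have h5 := (uu_trans hE hsE hPk (hkr σ)).2.2
    rw [add_sub_cancel] at h5
    rw [← h5]
    exact h1.symm

theorem cob_of_img (h : Is3 V D a b) (hs : s ^ 2 = D) {f : Coch K V} (hk : ∀ σ, Kr (f σ))
    {r : AlgebraicClosure K} {d : K} (hr : r ≠ 0) (hd : r ^ 3 = algebraMap K (AlgebraicClosure K) d)
    (hr' : ∀ σ : AlgebraicClosure K ≃ₐ[K] AlgebraicClosure K,
      σ r = ee (algebraMap K (AlgebraicClosure K) s) (algebraMap K (AlgebraicClosure K) b) (f σ) * r)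
    (hI : Img V s b d) : IsCobound K V f := by
  obtain ⟨P, t, ht, h3, hkP, hσ⟩ := hI
  have hE := h.bc (AlgebraicClosure K)
  have hsE := Xa_hs hs
  obtain ⟨z, hz⟩ : ∃ z, r = z * t := ⟨r / t, (div_mul_cancel₀ _ ht).symm⟩
  have hz3 : z ^ 3 = 1 := by
    have h1 : z ^ 3 * t ^ 3 = 1 * t ^ 3 := by
      rw [← mul_pow, ← hz, hd, h3, one_mul]
    exact mul_right_cancel₀ (pow_ne_zero 3 ht) h1
  have hz0 : z ≠ 0 := by
    rintro rfl
    rw [zero_pow three_ne_zero] at hz3
    exact zero_ne_one hz3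
  obtain ⟨T, hT, hTz⟩ := ee_surj hE hsE hz3
  rw [Pool.Agent.H10.isCobound_iff]
  refine ⟨P + T, fun σ => ?_⟩
  have k2 : Kr (act (inv_bc K V) σ T) := (kr_pm _ _).2 hT
  have k3 : Kr (act (inv_bc K V) σ T - T) := by
    rw [sub_eq_add_neg]
    exact kr_add hE k2 (kr_neg.2 hT)
  have e : act (inv_bc K V) σ (P + T) - (P + T) =
      (act (inv_bc K V) σ P - P) + (act (inv_bc K V) σ T - T) := by
    rw [map_add]
    abel
  rw [e]
  apply ee_inj hE hsE (hk σ) (kr_add hE (hkP σ) k3)
  rw [ee_add hE hsE (hkP σ) k3, sub_eq_add_neg (act (inv_bc K V) σ T) T,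
    ee_add hE hsE k2 (kr_neg.2 hT), ee_neg hE hsE hT, Xa_ee, hTz]
  have e4 := hr' σ
  rw [hz, map_mul, hσ σ] at e4
  rw [eq_comm, ← mul_assoc, ← div_eq_mul_inv, div_eq_iff hz0]
  apply mul_right_cancel₀ ht
  linear_combination e4

theorem noKr_of_img (h : Is3 V D a b) (hs : s ^ 2 = D)
    (H : ∀ d : K, d ≠ 0 → FinSol3 K s a (9 * b + 4 * D * a ^ 3) d → Img V s b d) : NoKr K V := by
  intro f hf hl hk
  obtain ⟨r, d, hr, hd, hrd, hσ⟩ := kum3 (h.bc (AlgebraicClosure K)) hs (inv_bc K V)
    ((isCocycle_iff f).1 hf) hk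
  exact cob_of_img h hs hk hr hrd hσ (H d hd (loc3 h hs hl hk hr hrd hσ))

end H55T3
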