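import Pool.Agent.H55.T3.Xdf

/-!
Row Xb (about 130 lines): the three-primary part is zero if both isogenies have no locally trivial classes.

PROOF. Notation as in I0.lean (with L = K): ∂S τ = act (inv_bc K V) τ S - S (cbd), pf (Bc.lean) the isogeny on the points over Ω = AlgebraicClosure K.
(1) f cocycle, locally trivial, 3 f = 0 ⇒ f coboundary: F := pf ∘ f is a cocycle (pf_cocycle), locally trivial (pf_locTriv), with values in Kr (kr_psF); H2: F = ∂S' with S' ∈ W(Ω). psF_surj: S' = pf R. f - ∂R is a cocycle, locally trivial (ShaZ is a subgroup, cbd_mem_shaZ), pf (f τ - ∂R τ) = F τ - ∂S' τ = 0, so it has values in Kr (psF_eq_zero).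
    H1: f - ∂R = ∂S, f = ∂(R + S).
(2) induction on m: if f is a cocycle, locally trivial and 3^m f is a coboundary then f is one. m = 0: one_smul. m + 1: g := 3^m • f is a cocycle, locally trivial (ShaZ), 3 g = ∂S; S = 3 R (multiplication by 3 is surjective on E(Ω): used in Res.lean / Mw.lean, find the lemma there); g - ∂R is killed by 3, so by (1) it is a coboundary, g is a coboundary, and the induction hypothesis applies.
NoSha3: IsShaThree gives such an m.
-/

set_option autoImplicit false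
open scoped Classical

open WeierstrassCurve IsDedekindDomain NumberField Pool.Agent.H10 Pool.Agent.H11

namespace H55T3

theorem Xb_one {K : Type} [Field K] [NumberField K] {V W : WeierstrassCurve K} {D a b : K}
    (h : Is3 V D a b) (h' : Is3 W (-3 * D) a (dl D a b)) (H1 : NoKr K V) (H2 : NoKr K W)
    {f : Coch K V} (hf : f ∈ ShaZ K V) (h3 : ∀ σ, 3 • f σ = 0) : f ∈ ShaB K V := by
  have b1 := h.bc (AlgebraicClosure K)
  have b2 := h'.bcd (AlgebraicClosure K)
  have hF := H2 (fun τ => pf V W D a b _ (f τ)) (pf_cocycle h h' hf.1) (pf_locTriv h h' hf.2)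
    (fun σ => kr_psF b1 b2 (h3 σ))
  rw [Pool.Agent.H10.isCobound_iff] at hF
  obtain ⟨S', hS'⟩ := hF
  obtain ⟨R, hR⟩ := psF_surj b1 b2 S'
  have hgZ : f - cbd V R ∈ ShaZ K V := (ShaZ K V).sub_mem hf (cbd_mem_shaZ V R)
  have hgK : ∀ σ, Kr ((f - cbd V R) σ) := by
    intro σ
    rw [← psF_eq_zero b1 b2]
    show pf V W D a b _ (f σ - (Pool.Agent.H10.act (inv_bc K V) σ R - R)) = 0
    have e2 : pf V W D a b (AlgebraicClosure K) R = S' := hR
    have e3 : pf V W D a b (AlgebraicClosure K) (f σ) = Pool.Agent.H10.act (inv_bc K W) σ S' - S' := hS' σ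
    rw [pf_sub h h', pf_sub h h', pf_act h h', e2, e3, sub_self]
  have hB : f - cbd V R ∈ ShaB K V := H1 _ hgZ.1 hgZ.2 hgK
  have hR2 : cbd V R ∈ ShaB K V := (Pool.Agent.H10.isCobound_iff _).2 ⟨R, fun _ => rfl⟩
  have := (ShaB K V).add_mem hB hR2
  rwa [sub_add_cancel] at this

theorem noSha3_of {K : Type} [Field K] [NumberField K] {V W : WeierstrassCurve K} {D a b : K}
    (h : Is3 V D a b) (h' : Is3 W (-3 * D) a (dl D a b)) (H1 : NoKr K V) (H2 : NoKr K W) :
    NoSha3 K V := by
  have key : ∀ (m : ℕ) (f : Coch K V), f ∈ ShaZ K V → (3 ^ m) • f ∈ ShaB K V →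
      f ∈ ShaB K V := by
    intro m
    induction m with
    | zero =>
      intro f _ h1
      rwa [pow_zero, one_smul] at h1
    | succ m ih =>
      intro f hf h1
      apply ih f hf
      obtain ⟨g, hg⟩ : ∃ g : Coch K V, g = (3 ^ m) • f := ⟨_, rfl⟩
      have hgZ : g ∈ ShaZ K V := hg ▸ (ShaZ K V).nsmul_mem hf _
      have h2 : 3 • g ∈ ShaB K V := by
        rw [hg, ← mul_smul, ← pow_succ']
        exact h1
      have h3 : IsCobound K V (3 • g) := h2
      rw [Pool.Agent.H10.isCobound_iff] at h3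
      obtain ⟨S, hS⟩ := h3
      have hE : (V.baseChange (AlgebraicClosure K)).IsElliptic :=
        (h.bc (AlgebraicClosure K)).isElliptic
      obtain ⟨R, hR⟩ := smul_surjective (V.baseChange (AlgebraicClosure K)) 3 three_ne_zero S
      have h4 : g - cbd V R ∈ ShaB K V := by
        apply Xb_one h h' H1 H2 ((ShaZ K V).sub_mem hgZ (cbd_mem_shaZ V R))
        intro σ
        have e1 : 3 • g σ = Pool.Agent.H10.act (inv_bc K V) σ S - S := hS σ
        show 3 • (g σ - (Pool.Agent.H10.act (inv_bc K V) σ R - R)) = 0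
        rw [nsmul_sub, nsmul_sub, e1, ← map_nsmul, hR, sub_self]
      have hR2 : cbd V R ∈ ShaB K V := (Pool.Agent.H10.isCobound_iff _).2 ⟨R, fun _ => rfl⟩
      have h5 := (ShaB K V).add_mem h4 hR2
      rw [sub_add_cancel] at h5
      rw [← hg]
      exact h5
  rintro f ⟨hf, hl, m, hm⟩
  exact key m f ⟨hf, hl⟩ hm

end H55T3
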