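import Mathlib

/-!
Row Gp (about 70 lines): a unipotence argument.

PROOF. For s ∈ S put δ τ := χ (s⁻¹ τ s) - χ τ for τ ∈ NL: additive on NL, zero on NC (hS). For g ∈ G, τ ∈ NL: g⁻¹ τ g = τ * (τ⁻¹ * g⁻¹ * τ * g) with τ⁻¹ g⁻¹ τ g ∈ NC (hab), so δ (g⁻¹ τ g) = δ τ. By induction on j: χ (s^(-j) τ s^j) = χ τ + j • δ τ:
 χ (s^(-(j+1)) τ s^(j+1)) = χ (s⁻¹ (s^(-j) τ s^j) s) = χ (s^(-j) τ s^j) + δ (s^(-j) τ s^j) = χ τ + j • δ τ + δ τ. For j = n: s^n ∈ NL so χ (s^(-n) τ s^n) = -χ (s^n) + χ τ + χ (s^n) = χ τ (χ 1 = 0, χ of an inverse). So n • δ τ = 0, 3 • δ τ = 0, 3 ∤ n: δ τ = 0.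
 General g: s ∈ S with u := g s⁻¹ ∈ NL, g = u s: g⁻¹ τ g = s⁻¹ (u⁻¹ τ u) s, χ = χ (u⁻¹ τ u) = χ τ.
-/

set_option autoImplicit false

namespace H55T3

theorem gp_lemma {G A : Type*} [Group G] [AddCommGroup A] (NL NC : Subgroup G) [NL.Normal]
    (hle : NC ≤ NL) (hab : ∀ g h : G, g⁻¹ * h⁻¹ * g * h ∈ NC) {n : ℕ} (hn : ¬ 3 ∣ n)
    (hpow : ∀ g : G, g ^ n ∈ NL) (χ : G → A) (hmul : ∀ σ ∈ NL, ∀ τ ∈ NL, χ (σ * τ) = χ σ + χ τ)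
    (h3 : ∀ σ, 3 • χ σ = 0) (S : Set G) (hS : ∀ s ∈ S, ∀ σ ∈ NC, χ (s⁻¹ * σ * s) = χ σ)
    (hcov : ∀ g, ∃ s ∈ S, g * s⁻¹ ∈ NL) : ∀ g, ∀ τ ∈ NL, χ (g⁻¹ * τ * g) = χ τ := by
  have hnor : ∀ g : G, ∀ τ ∈ NL, g⁻¹ * τ * g ∈ NL := by
    intro g τ hτ
    have h1 := Subgroup.Normal.conj_mem (H := NL) inferInstance τ hτ g⁻¹
    rwa [inv_inv] at h1
  have hone : χ 1 = 0 := by
    have h1 := hmul 1 NL.one_mem 1 NL.one_mem
    rw [mul_one] at h1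
    exact left_eq_add.mp h1
  have hinv : ∀ τ ∈ NL, χ τ⁻¹ = -χ τ := by
    intro τ hτ
    have h1 := hmul τ⁻¹ (NL.inv_mem hτ) τ hτ
    rw [inv_mul_cancel, hone] at h1
    exact (neg_eq_of_add_eq_zero_left h1.symm).symm
  -- conjugation by elements of `NL`
  have hin : ∀ u ∈ NL, ∀ τ ∈ NL, χ (u⁻¹ * τ * u) = χ τ := by
    intro u hu τ hτ
    rw [hmul _ (NL.mul_mem (NL.inv_mem hu) hτ) _ hu, hmul _ (NL.inv_mem hu) _ hτ, hinv u hu]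
    abel
  have key : ∀ s ∈ S, ∀ τ ∈ NL, χ (s⁻¹ * τ * s) = χ τ := by
    intro s hs τ hτ
    have hd : ∀ g : G, ∀ t ∈ NL, χ (s⁻¹ * (g⁻¹ * t * g) * s) - χ (g⁻¹ * t * g) =
        χ (s⁻¹ * t * s) - χ t := by
      intro g t ht
      have e1 : g⁻¹ * t * g = t * (t⁻¹ * g⁻¹ * t * g) := by group
      have h1 := hab t g
      have h2 : χ (g⁻¹ * t * g) = χ t + χ (t⁻¹ * g⁻¹ * t * g) := by
        rw [e1, hmul _ ht _ (hle h1)]
      have e2 : s⁻¹ * (g⁻¹ * t * g) * s = (s⁻¹ * t * s) * (s⁻¹ * (t⁻¹ * g⁻¹ * t * g) * s) := by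
        group
      have h4 : χ (s⁻¹ * (g⁻¹ * t * g) * s) = χ (s⁻¹ * t * s) + χ (t⁻¹ * g⁻¹ * t * g) := by
        rw [e2, hmul _ (hnor s t ht) _ (hnor s _ (hle h1)), hS s hs _ h1]
      rw [h2, h4]
      abel
    have hj : ∀ j : ℕ, χ ((s ^ j)⁻¹ * τ * s ^ j) = χ τ + j • (χ (s⁻¹ * τ * s) - χ τ) := by
      intro j
      induction j with
      | zero => simp
      | succ j ih =>
        have e1 : (s ^ (j + 1))⁻¹ * τ * s ^ (j + 1) = s⁻¹ * ((s ^ j)⁻¹ * τ * s ^ j) * s := by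
          rw [pow_succ]
          group
        have h1 := hd (s ^ j) τ hτ
        rw [e1, succ_nsmul]
        rw [ih] at h1
        rw [sub_eq_iff_eq_add] at h1
        rw [h1]
        abel
    have h1 := hj n
    rw [hin _ (hpow s) τ hτ] at h1
    have h2 : n • (χ (s⁻¹ * τ * s) - χ τ) = 0 := left_eq_add.mp h1
    have h4 : 3 • (χ (s⁻¹ * τ * s) - χ τ) = 0 := by
      rw [nsmul_sub, h3, h3, sub_zero]
    have h5 : χ (s⁻¹ * τ * s) - χ τ = 0 := by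
      generalize χ (s⁻¹ * τ * s) - χ τ = δ at h2 h4
      have hc : n % 3 = 1 ∨ n % 3 = 2 := by omega
      have hq := Nat.div_add_mod n 3
      rw [← hq, add_nsmul, mul_comm 3, mul_nsmul, nsmul_left_comm, h4, nsmul_zero, zero_add] at h2
      rcases hc with hc | hc
      · rw [hc, one_nsmul] at h2
        exact h2
      · rw [hc] at h2
        have e : (3 : ℕ) • δ = 2 • δ + δ := succ_nsmul δ 2
        rw [h2, h4, zero_add] at e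
        exact e.symm
    exact sub_eq_zero.1 h5
  intro g τ hτ
  obtain ⟨s, hs, hu⟩ := hcov g
  have e1 : g⁻¹ * τ * g = s⁻¹ * ((g * s⁻¹)⁻¹ * τ * (g * s⁻¹)) * s := by group
  rw [e1, key s hs _ (hnor _ τ hτ), hin _ hu τ hτ]

end H55T3
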