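import Pool.Agent.H55.T3.Lo
import Pool.Agent.H55.T3.Gp

/-!
Row K6a (about 190 lines): the kernel-valued cocycles when `D = -3` (rational kernel), over the closure of `C ∋ s = √-3`.

Notation: Ω := AlgebraicClosure C, E := VC.baseChange Ω, S0, A0, B0 the images of s, a, b in Ω. F := trans (jj L C) _ f on Gal(Ω/L) (H10/Func4: isCoc_trans, trans_act), Kr (F σ) (kr_pm). resF hLC f σ = F (σ.restrictScalars L) (definition of resF, H10/Func5).
(0) kernel points are fixed by Gal(Ω/K): kr_rat with r = 1 (D = -3 * 1^2, over Ω): P = 0 or (0, ±3 b): act (inv_of_map) g P = P for g over K. F is a homomorphism: F (σ τ) = F σ + F τ for σ, τ ∈ Gal(Ω/L) (isCoc_trans, E viewed over L).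
(1) fC := resF hLC f: cocycle (isCocycle_res), locally trivial (isLocTriv_res), Kr. kum3 over C (s ∈ C, s^2 = -3): r ∈ Ω, d ∈ C, r^3 = d ≠ 0, σ r = ee S0 B0 (fC σ) r for σ over C. loc3: FinSol3 C s a c d with c = 9 b + 4 (-3) a^3 (images in C).
(2) for g ∈ Gal(Ω/L) and σ over C: σ (g r) = g ((cj g σ) r) (cj, apply_cj with K := L, L := C) = g (ee (F (cj g σ))) g r, and F (cj g σ) = F σ by (0). ee S0 B0 P ∈ C for kernel P = (0, ±3 b).
   g s = s (i.e. g S0 = S0): g (ee P) = ee P, so g r/r is fixed by Gal(Ω/C): g r = r y, y ∈ C; (g.restrictNormal C) d = d y^3. g S0 = -S0: g (ee S0 B0 P) = ee (-S0) B0 P = (ee P)⁻¹ for kernel points (ee (-s) b (0,y) = (y + s b)/(-2 s b), ee_neg), so g r * r ∈ C: g d * d = y^3.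
   Every C ≃ₐ[L] C is the restriction of some g (lft / AlgEquiv.liftNormal). So the hypothesis H applies to d: for g0 ∈ S there is y with g0 d = d y^3.
(3) for h ∈ Gal(Ω/K) with restriction g0 ∈ S to C, σ over C: (h r)^3 = h d = r^3 y^3 so h r = z r y, z^3 = 1, z ∈ C (z ∈ {1, (-1 ± s)/2}: z = 1 or z^2 + z + 1 = 0, (2 z + 1)^2 = -3 = s^2), so σ (h r) = z y σ r = ee (F σ) h r; and σ (h r) = h ((cj h σ) r) = h (ee (F (cj h σ))) h r = ee (F (cj h σ)) h r as h fixes S0 (hS), B0 and the kernel points.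
   ee_inj: F (cj h σ) = F σ.
(4) gp_lemma with G = Gal(Ω/K), NL, NC the automorphisms fixing (the image of) L, C pointwise; NL normal (L/K normal); commutators in NC as Gal(C/K) is abelian (hab, restrictNormal is a homomorphism); n = finrank K L, g^n ∈ NL (card Gal(L/K) = n); χ g := F g for g ∈ NL (as an automorphism over L), 0 otherwise; 3 • = 0: kr_three;
   S' := {h | restriction to C in S}; hcov from hcov: for g ∈ G take t = restriction of g to L, g0 ∈ S with the same restriction to L, h a lift of g0: g h⁻¹ ∈ NL.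
-/

set_option autoImplicit false
open scoped Classical

open WeierstrassCurve IsDedekindDomain NumberField Pool.Agent.H10 Pool.Agent.H11

namespace H55T3

section K6a_abstract

/-- The kernel points are rational when `D = -3`. -/
theorem K6a_fix {Ω : Type*} [Field Ω] {E : WeierstrassCurve Ω} {A B : Ω} (h : Is3 E (-3) A B)
    {φ : Ω →+* Ω} (hφ : E.map φ = E) (hB : φ B = B) {P : E.toAffine.Point} (hP : Kr P) :
    pm φ hφ P = P := by
  rcases kr_rat h (r := 1) (by ring) hP with rfl | ⟨y, n, rfl, hy⟩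
  · exact map_zero _
  · rw [pm_some, Affine.Point.some.injEq, map_zero]
    refine ⟨rfl, ?_⟩
    rcases hy with rfl | rfl
    · rw [map_mul, map_mul, map_one, hB, map_ofNat]
    · rw [map_neg, map_mul, map_mul, map_one, hB, map_ofNat]

theorem K6a_eeneg {Ω : Type*} [Field Ω] {E : WeierstrassCurve Ω} {D A B S : Ω} (h : Is3 E D A B)
    (hs : S ^ 2 = D) {P : E.toAffine.Point} (hP : Kr P) : ee (-S) B P = (ee S B P)⁻¹ := by
  rw [← ee_neg h hs hP]
  rcases P with _ | ⟨x, y, n⟩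
  · have h0 : -(Affine.Point.zero : E.toAffine.Point) = 0 := neg_zero
    rw [h0]
    rfl
  · obtain ⟨n', hn'⟩ := neg_some h.a₁ h.a₃ n
    rw [hn']
    change (y - -S * B) / (2 * -S * B) = (-y - S * B) / (2 * S * B)
    have e1 : y - -S * B = -(-y - S * B) := by ring
    have e2 : 2 * -S * B = -(2 * S * B) := by ring
    rw [e1, e2, neg_div_neg_eq]

variable {K C Ω : Type*} [Field K] [Field C] [Field Ω] [Algebra K C] [Algebra C Ω] [Algebra K Ω]
  [IsScalarTower K C Ω] [Normal K C] [IsGalois C Ω] {E : WeierstrassCurve Ω} {A : Ω} {b : K}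
  {s : C} {fC : (Ω ≃ₐ[C] Ω) → E.toAffine.Point} {r : Ω} {d : C}

theorem K6a_conj (hE : Is3 E (-3) A (algebraMap K Ω b)) (hInv : Inv K E) (hk : ∀ σ, Kr (fC σ))
    (hr' : ∀ σ, σ r = ee (algebraMap C Ω s) (algebraMap K Ω b) (fC σ) * r)
    (h : Ω ≃ₐ[K] Ω) (σ : Ω ≃ₐ[C] Ω) :
    σ (h r) = ee (h (algebraMap C Ω s)) (algebraMap K Ω b) (fC (cj h σ)) * h r := by
  rw [← apply_cj h σ r, hr', map_mul]
  congr 1
  have h1 : (h : Ω →+* Ω) (algebraMap K Ω b) = algebraMap K Ω b := h.commutes b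
  have h2 := ee_pm (s := algebraMap C Ω s) (b := algebraMap K Ω b) (hInv h) (fC (cj h σ))
  rw [K6a_fix hE (hInv h) h1 (hk _), h1] at h2
  exact h2.symm

theorem K6a_same (hE : Is3 E (-3) A (algebraMap K Ω b)) (hInv : Inv K E) (hk : ∀ σ, Kr (fC σ))
    (hr : r ≠ 0) (hd : r ^ 3 = algebraMap C Ω d)
    (hr' : ∀ σ, σ r = ee (algebraMap C Ω s) (algebraMap K Ω b) (fC σ) * r)
    (h : Ω ≃ₐ[K] Ω) (hh : ∀ σ, fC (cj h σ) = fC σ)
    (hS : h (algebraMap C Ω s) = algebraMap C Ω s) {d' : C}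
    (hd' : h (algebraMap C Ω d) = algebraMap C Ω d') : ∃ y : C, d' = d * y ^ 3 := by
  obtain ⟨y, hy⟩ := fixed_of_galois (k := C) (h r / r) (fun σ => by
    have h1 := K6a_conj hE hInv hk hr' h σ
    rw [hh, hS] at h1
    have h2 := hr' σ
    have h3 : ee (algebraMap C Ω s) (algebraMap K Ω b) (fC σ) ≠ 0 := by
      intro h0
      rw [h0, zero_mul] at h2
      exact hr (by simpa using h2)
    rw [map_div₀, h1, h2, mul_div_mul_left _ _ h3])
  refine ⟨y, ?_⟩
  apply (algebraMap C Ω).injective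
  rw [← hd', ← hd, map_pow, map_mul, map_pow, hy, ← hd, div_pow]
  field_simp

theorem K6a_opp (hE : Is3 E (-3) A (algebraMap K Ω b)) (hInv : Inv K E)
    (hs : s ^ 2 = -3) (hk : ∀ σ, Kr (fC σ)) (hd : r ^ 3 = algebraMap C Ω d)
    (hr' : ∀ σ, σ r = ee (algebraMap C Ω s) (algebraMap K Ω b) (fC σ) * r)
    (h : Ω ≃ₐ[K] Ω) (hh : ∀ σ, fC (cj h σ) = fC σ)
    (hS : h (algebraMap C Ω s) = -algebraMap C Ω s) {d' : C}
    (hd' : h (algebraMap C Ω d) = algebraMap C Ω d') : ∃ y : C, d' * d = y ^ 3 := by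
  have hs' : (algebraMap C Ω s) ^ 2 = -3 := by
    rw [← map_pow, hs, map_neg, map_ofNat]
  obtain ⟨y, hy⟩ := fixed_of_galois (k := C) (h r * r) (fun σ => by
    have h1 := K6a_conj hE hInv hk hr' h σ
    rw [hh, hS, K6a_eeneg hE hs' (hk σ)] at h1
    have h3 : ee (algebraMap C Ω s) (algebraMap K Ω b) (fC σ) ≠ 0 := by
      intro h0
      have h4 := ee_cube hE hs' (hk σ)
      rw [h0, zero_pow (by norm_num)] at h4
      exact zero_ne_one h4
    rw [map_mul, h1, hr' σ]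
    field_simp)
  refine ⟨y, ?_⟩
  apply (algebraMap C Ω).injective
  rw [map_mul, map_pow, hy, ← hd', ← hd, map_pow, mul_pow]

theorem K6a_back (hE : Is3 E (-3) A (algebraMap K Ω b)) (hInv : Inv K E)
    (hs : s ^ 2 = -3) (hk : ∀ σ, Kr (fC σ)) (hr : r ≠ 0) (hd : r ^ 3 = algebraMap C Ω d)
    (hr' : ∀ σ, σ r = ee (algebraMap C Ω s) (algebraMap K Ω b) (fC σ) * r)
    (h : Ω ≃ₐ[K] Ω) (hS : h (algebraMap C Ω s) = algebraMap C Ω s) {y : C}
    (hd' : h (algebraMap C Ω d) = algebraMap C Ω (d * y ^ 3)) (σ : Ω ≃ₐ[C] Ω) :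
    fC (cj h σ) = fC σ := by
  have hs' : (algebraMap C Ω s) ^ 2 = -3 := by
    rw [← map_pow, hs, map_neg, map_ofNat]
  have hhr : h r ≠ 0 := by
    intro h0
    apply hr
    apply h.injective
    rw [h0, map_zero]
  set Y := algebraMap C Ω y with hY
  have h3 : (h r) ^ 3 = (r * Y) ^ 3 := by
    rw [← map_pow, hd, hd', map_mul, map_pow, ← hd, mul_pow]
  have hrY : r * Y ≠ 0 := by
    intro h0
    rw [h0, zero_pow (by norm_num)] at h3
    exact hhr (pow_eq_zero_iff (by norm_num) |>.1 h3)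
  set z := h r / (r * Y) with hz
  have hz3 : z ^ 3 = 1 := by
    rw [hz, div_pow, h3, div_self (pow_ne_zero 3 hrY)]
  have hhz : h r = z * (r * Y) := by
    rw [hz, div_mul_cancel₀ _ hrY]
  -- `z` is in `C`
  have hσz : σ z = z := by
    have h4 : (z - 1) * (z ^ 2 + z + 1) = 0 := by linear_combination hz3
    rcases mul_eq_zero.1 h4 with h5 | h5
    · rw [sub_eq_zero.1 h5, map_one]
    · have h6 : (2 * z + 1) ^ 2 = (algebraMap C Ω s) ^ 2 := by
        rw [hs']
        linear_combination 4 * h5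
      have two : (2 : Ω) ≠ 0 := hE.two
      have h7 : σ (2 * z + 1) = 2 * z + 1 := by
        rcases sq_eq_sq_iff_eq_or_eq_neg.1 h6 with h8 | h8
        · rw [h8, σ.commutes]
        · rw [h8, map_neg, σ.commutes]
      rw [map_add, map_mul, map_one, map_ofNat] at h7
      have h8 : (2 : Ω) * σ z = 2 * z := by linear_combination h7
      exact mul_left_cancel₀ two h8
  have h1 := K6a_conj hE hInv hk hr' h σ
  rw [hS] at h1
  have h2 : σ (h r) = ee (algebraMap C Ω s) (algebraMap K Ω b) (fC σ) * h r := by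
    rw [hhz, map_mul, map_mul, hσz, hr' σ, hY, σ.commutes]
    ring
  rw [h2] at h1
  exact ee_inj hE hs' (hk _) (hk _) (mul_right_cancel₀ hhr h1).symm

end K6a_abstract

/-- An automorphism over `K` which fixes `L` as an automorphism over `L`. -/
noncomputable def K6a_mk {K L Ω : Type*} [Field K] [Field L] [Field Ω] [Algebra K L] [Algebra L Ω]
    [Algebra K Ω] (g : Ω ≃ₐ[K] Ω) (hg : ∀ x : L, g (algebraMap L Ω x) = algebraMap L Ω x) :
    Ω ≃ₐ[L] Ω :=
  { g with commutes' := hg }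

theorem K6a_ker {K L Ω : Type*} [Field K] [Field L] [Field Ω] [Algebra K L] [Algebra L Ω]
    [Algebra K Ω] [IsScalarTower K L Ω] [Normal K L] (g : Ω ≃ₐ[K] Ω) :
    g ∈ (AlgEquiv.restrictNormalHom (F := K) (K₁ := Ω) L).ker ↔
      ∀ x : L, g (algebraMap L Ω x) = algebraMap L Ω x := by
  rw [MonoidHom.mem_ker]
  constructor
  · intro h x
    rw [← AlgEquiv.restrictNormal_commutes g L x]
    change algebraMap L Ω ((AlgEquiv.restrictNormalHom L g : L ≃ₐ[K] L) x) = _
    rw [h]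
    rfl
  · intro h
    ext x
    apply (algebraMap L Ω).injective
    change algebraMap L Ω ((g.restrictNormal L) x) = _
    rw [AlgEquiv.restrictNormal_commutes, h]
    rfl

theorem K6a_res {K L Ω : Type*} [Field K] [Field L] [Field Ω] [Algebra K L] [Algebra L Ω]
    [Algebra K Ω] [IsScalarTower K L Ω] [Normal K L] (g : Ω ≃ₐ[K] Ω) (t : L ≃ₐ[K] L)
    (h : ∀ x : L, g (algebraMap L Ω x) = algebraMap L Ω (t x)) :
    AlgEquiv.restrictNormalHom (F := K) (K₁ := Ω) L g = t := by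
  ext x
  apply (algebraMap L Ω).injective
  change algebraMap L Ω ((g.restrictNormal L) x) = _
  rw [AlgEquiv.restrictNormal_commutes, h]

variable {K L C : Type} [Field K] [NumberField K] [Field L] [NumberField L] [Field C] [NumberField C]
  [Algebra K L] [Algebra L C] [Algebra K C] [IsScalarTower K L C] [IsGalois K L] [IsGalois K C]
  [IsGalois L C] {V : WeierstrassCurve K} {V' : WeierstrassCurve L} {VC : WeierstrassCurve C} {a b : K}

theorem k6a (h : Is3 V (-3) a b) (hV : V.map (algebraMap K L) = V')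
    (hLC : V'.map (algebraMap L C) = VC) (hn : ¬ 3 ∣ Module.finrank K L) {s : C} (hs : s ^ 2 = -3)
    (hab : ∀ g g' : C ≃ₐ[K] C, g * g' = g' * g) (S : Set (C ≃ₐ[K] C)) (hS : ∀ g ∈ S, g s = s)
    (hcov : ∀ t : L ≃ₐ[K] L, ∃ g ∈ S, ∀ x : L, g (algebraMap L C x) = algebraMap L C (t x))
    (H : ∀ d : C, d ≠ 0 → FinSol3 C s (algebraMap K C a)
      (algebraMap K C (9 * b + 4 * (-3) * a ^ 3)) d →
      (∀ g : C ≃ₐ[L] C, g s = s → ∃ y, g d = d * y ^ 3) →
      (∀ g : C ≃ₐ[L] C, g s = -s → ∃ y, g d * d = y ^ 3) → ∀ g ∈ S, ∃ y, g d = d * y ^ 3)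
    {f : Coch L V'} (hf : IsCocycle L V' f) (hl : IsLocTriv L V' f) (hk : ∀ σ, Kr (f σ))
    (g : AlgebraicClosure C ≃ₐ[K] AlgebraicClosure C)
    (τ : AlgebraicClosure C ≃ₐ[L] AlgebraicClosure C) :
    trans (jj L C) (map_jj hLC) f (cj g τ) = trans (jj L C) (map_jj hLC) f τ := by
  set Ω := AlgebraicClosure C with hΩ
  have hKC : V.map (algebraMap K C) = VC := by
    rw [← hLC, ← hV, WeierstrassCurve.map_map, IsScalarTower.algebraMap_eq K L C]
  have hInvK : Inv K (VC.baseChange Ω) := inv_up hKC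
  set F := trans (jj L C) (map_jj hLC) f with hF
  have hFc : IsCoc (inv_up hLC) F :=
    isCoc_trans (jj L C) (map_jj hLC) (h' := inv_up hLC) ((Pool.Agent.H10.isCocycle_iff f).1 hf)
  have hFk : ∀ σ, Kr (F σ) := fun σ => (kr_pm _ _).2 (hk _)
  -- the curve over the closure
  have hE : Is3 (VC.baseChange Ω) (-3) (algebraMap K Ω a) (algebraMap K Ω b) := by
    have h1 := h.up (map_up hKC)
    rw [map_neg, map_ofNat] at h1
    exact h1
  have hVC : Is3 VC (-3) (algebraMap K C a) (algebraMap K C b) := by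
    have h1 := h.up hKC
    rw [map_neg, map_ofNat] at h1
    exact h1
  -- `F` is additive
  have hact : ∀ (σ : Ω ≃ₐ[L] Ω) (P : (VC.baseChange Ω).toAffine.Point), Kr P →
      Pool.Agent.H10.act (inv_up hLC) σ P = P := by
    intro σ P hP
    refine K6a_fix hE _ ?_ hP
    change σ (algebraMap K Ω b) = _
    rw [IsScalarTower.algebraMap_apply K L Ω, σ.commutes]
  have hadd : ∀ σ τ, F (σ * τ) = F σ + F τ := by
    intro σ τ
    rw [hFc.2, hact _ _ (hFk τ)]
  have hone : F 1 = 0 := hFc.one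
  have hconjL : ∀ σ τ : Ω ≃ₐ[L] Ω, F (σ⁻¹ * τ * σ) = F τ := by
    intro σ τ
    have h1 : F σ⁻¹ + F σ = 0 := by
      rw [← hadd, inv_mul_cancel, hone]
    rw [hadd, hadd]
    calc F σ⁻¹ + F τ + F σ = F τ + (F σ⁻¹ + F σ) := by abel
      _ = F τ := by rw [h1, add_zero]
  -- the Kummer class
  have hcC := isCocycle_res hLC hf
  have hlC := isLocTriv_res hLC hf hl
  have hkC : ∀ σ, Kr (resF hLC f σ) := fun σ => hFk _
  obtain ⟨r, d, hr, hd0, hd, hr'⟩ := kum3 (k := C) (hVC.bc Ω) hs (inv_bc C VC)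
    ((Pool.Agent.H10.isCocycle_iff _).1 hcC) hkC
  have hfin := loc3 hVC hs hlC hkC hr hd hr'
  have hc : 9 * algebraMap K C b + 4 * (-3) * (algebraMap K C a) ^ 3 =
      algebraMap K C (9 * b + 4 * (-3) * a ^ 3) := by
    simp only [map_add, map_mul, map_pow, map_neg, map_ofNat]
  rw [hc] at hfin
  have hr2 : ∀ σ : Ω ≃ₐ[C] Ω, σ r = ee (algebraMap C Ω s) (algebraMap K Ω b)
      (resF hLC f σ) * r := by
    intro σ
    rw [IsScalarTower.algebraMap_apply K C Ω]
    exact hr' σ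
  -- conjugation by automorphisms over `L`
  have hinn : ∀ (g : Ω ≃ₐ[L] Ω) (σ : Ω ≃ₐ[C] Ω),
      resF hLC f (cj (g.restrictScalars K) σ) = resF hLC f σ := by
    intro g σ
    exact hconjL g (σ.restrictScalars L)
  have hlfs : ∀ (g : C ≃ₐ[L] C) (x : C), ((lf g).restrictScalars K : Ω ≃ₐ[K] Ω)
      (algebraMap C Ω x) = algebraMap C Ω (g x) := fun g x => lf_apply g x
  have hH := H d hd0 hfin
    (fun g hg => K6a_same hE hInvK hkC hr hd hr2 ((lf g).restrictScalars K) (hinn (lf g))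
      (by rw [hlfs, hg]) (hlfs g d))
    (fun g hg => K6a_opp hE hInvK hs hkC hd hr2 ((lf g).restrictScalars K) (hinn (lf g))
      (by rw [hlfs, hg, map_neg]) (hlfs g d))
  -- conjugation by lifts of elements of `S`
  have hSconj : ∀ (h : Ω ≃ₐ[K] Ω) (g0 : C ≃ₐ[K] C), g0 ∈ S →
      (∀ x : C, h (algebraMap C Ω x) = algebraMap C Ω (g0 x)) → ∀ σ : Ω ≃ₐ[C] Ω,
      F ((cj h σ).restrictScalars L) = F (σ.restrictScalars L) := by
    intro h g0 hg0 hh σ
    obtain ⟨y, hy⟩ := hH g0 hg0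
    exact K6a_back hE hInvK hs hkC hr hd hr2 h (by rw [hh, hS g0 hg0])
      (by rw [hh, hy]) σ
  -- the group argument
  let NL : Subgroup (Ω ≃ₐ[K] Ω) := (AlgEquiv.restrictNormalHom (F := K) (K₁ := Ω) L).ker
  let NC : Subgroup (Ω ≃ₐ[K] Ω) := (AlgEquiv.restrictNormalHom (F := K) (K₁ := Ω) C).ker
  have hNL : ∀ g : Ω ≃ₐ[K] Ω, g ∈ NL ↔ ∀ x : L, g (algebraMap L Ω x) = algebraMap L Ω x :=
    fun g => K6a_ker g
  have hNC : ∀ g : Ω ≃ₐ[K] Ω, g ∈ NC ↔ ∀ x : C, g (algebraMap C Ω x) = algebraMap C Ω x :=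
    fun g => K6a_ker g
  let χ : (Ω ≃ₐ[K] Ω) → (VC.baseChange Ω).toAffine.Point := fun g =>
    if hg : g ∈ NL then F (K6a_mk g ((hNL g).1 hg)) else 0
  have hχ : ∀ τ : Ω ≃ₐ[L] Ω, χ (τ.restrictScalars K) = F τ := by
    intro τ
    have h1 : τ.restrictScalars K ∈ NL := (hNL _).2 fun x => τ.commutes x
    change (if hg : τ.restrictScalars K ∈ NL then _ else _) = _
    rw [dif_pos h1]
    rfl
  have hex : ∀ g ∈ NL, ∃ τ : Ω ≃ₐ[L] Ω, g = τ.restrictScalars K := fun g hg =>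
    ⟨K6a_mk g ((hNL g).1 hg), rfl⟩
  have hexC : ∀ g ∈ NC, ∃ τ : Ω ≃ₐ[C] Ω, g = τ.restrictScalars K := fun g hg =>
    ⟨K6a_mk g ((hNC g).1 hg), rfl⟩
  have key := gp_lemma NL NC (fun g hg => (hNL g).2 fun x => by
      rw [IsScalarTower.algebraMap_apply L C Ω]
      exact (hNC g).1 hg _)
    (fun g h => by
      change g⁻¹ * h⁻¹ * g * h ∈ (AlgEquiv.restrictNormalHom (F := K) (K₁ := Ω) C).ker
      rw [MonoidHom.mem_ker, map_mul, map_mul, map_mul, map_inv, map_inv,
        mul_assoc, hab (AlgEquiv.restrictNormalHom C g)]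
      group)
    hn (fun g => by
      change g ^ _ ∈ (AlgEquiv.restrictNormalHom (F := K) (K₁ := Ω) L).ker
      rw [MonoidHom.mem_ker, map_pow, ← IsGalois.card_aut_eq_finrank K L]
      exact pow_card_eq_one')
    χ (fun σ hσ τ hτ => by
      obtain ⟨σ', rfl⟩ := hex σ hσ
      obtain ⟨τ', rfl⟩ := hex τ hτ
      have h1 : σ'.restrictScalars K * τ'.restrictScalars K = (σ' * τ').restrictScalars K := rfl
      rw [h1, hχ, hχ, hχ, hadd])
    (fun σ => by
      by_cases hσ : σ ∈ NL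
      · obtain ⟨σ', rfl⟩ := hex σ hσ
        rw [hχ]
        exact kr_three hE (hFk σ')
      · change 3 • (if hg : σ ∈ NL then _ else _) = _
        rw [dif_neg hσ]
        exact nsmul_zero 3)
    {h | AlgEquiv.restrictNormalHom (F := K) (K₁ := Ω) C h ∈ S}
    (fun h hh σ hσ => by
      obtain ⟨σ', rfl⟩ := hexC σ hσ
      have h1 : h⁻¹ * σ'.restrictScalars K * h = ((cj h σ').restrictScalars L).restrictScalars K :=
        rfl
      have h2 : (σ'.restrictScalars K : Ω ≃ₐ[K] Ω) =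
        (σ'.restrictScalars L).restrictScalars K := rfl
      rw [h1, h2, hχ, hχ]
      exact hSconj h _ hh (fun x => (AlgEquiv.restrictNormal_commutes h C x).symm) σ')
    (fun g => by
      obtain ⟨g0, hg0, hg1⟩ := hcov (AlgEquiv.restrictNormalHom (F := K) (K₁ := Ω) L g)
      have h1 : ∀ x : C, (lf g0 : Ω ≃ₐ[K] Ω) (algebraMap C Ω x) = algebraMap C Ω (g0 x) :=
        fun x => lf_apply g0 x
      refine ⟨lf g0, ?_, ?_⟩
      · change AlgEquiv.restrictNormalHom (F := K) (K₁ := Ω) C (lf g0) ∈ S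
        rw [K6a_res (lf g0) g0 h1]
        exact hg0
      · change g * (lf g0)⁻¹ ∈ (AlgEquiv.restrictNormalHom (F := K) (K₁ := Ω) L).ker
        rw [MonoidHom.mem_ker, map_mul, map_inv,
          K6a_res (lf g0 : Ω ≃ₐ[K] Ω) (AlgEquiv.restrictNormalHom (F := K) (K₁ := Ω) L g)
            (fun x => by
              rw [IsScalarTower.algebraMap_apply L C Ω, h1, hg1,
                ← IsScalarTower.algebraMap_apply L C Ω]), mul_inv_cancel])
    g (τ.restrictScalars K) ((hNL _).2 fun x => τ.commutes x)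
  have h1 : g⁻¹ * τ.restrictScalars K * g = (cj g τ).restrictScalars K := rfl
  rw [h1, hχ, hχ] at key
  exact key

end H55T3
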