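import Pool.Agent.H55.T3.Xdf
import Pool.Agent.H55.T3.K6a

/-!
Row Xc (about 150 lines): the kernel-valued cocycles when `D = -3` (rational kernel of order three).

PROOF. Ω := AlgebraicClosure C, E := (V_C).baseChange Ω, F := trans (jj K C) _ f as in k6a (K6a.lean) with L := K there (the algebra K → K is the identity; or redo the first part of k6a directly): F is additive on Gal(Ω/K) because the kernel points are fixed (K6a_fix): F (σ τ) = F σ + F τ.
(1) fC := resF f (restriction to Gal(Ω/C)): cocycle, locally trivial, values in Kr; kum3 and loc3 over C (s ∈ C): r, d with r^3 = d ≠ 0, σ r = ee (fC σ) r, FinSol3 C s a c d.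
(2) g ∈ Gal(C/K) with g s = -s: fC (cj g σ) = fC σ (F is additive and its values are killed by nothing else: F(g⁻¹ σ g) = -F g + F σ + F g = F σ), so K6a_opp gives y with g d * d = y^3. By H: d = y^3 (y ≠ 0).
(3) r / y is a cube root of unity, hence in C (s ∈ C; Z3: z = 1 or (2 z + 1)^2 = -3 = s^2), so σ r = r for all σ ∈ Gal(Ω/C), ee (fC σ) = 1 = ee 0, fC σ = 0 (ee_inj).
(4) σ ∈ Gal(Ω/K): σ^2 fixes C (finrank K C = 2, so Gal(C/K) has exponent 2), so 0 = F (σ^2) = 2 F σ, and 3 F σ = 0 (kr_three): F σ = 0. So f = 0 (trans is a bijection: pm is injective and the conjugation by jj is surjective).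
-/

set_option autoImplicit false
open scoped Classical

open WeierstrassCurve IsDedekindDomain NumberField Pool.Agent.H10 Pool.Agent.H11

namespace H55T3

theorem noKr0_of {K C : Type} [Field K] [NumberField K] [Field C] [NumberField C] [Algebra K C]
    [IsGalois K C] {V : WeierstrassCurve K} {a b : K} (h : Is3 V (-3) a b) {s : C}
    (hs : s ^ 2 = -3) (hdeg : Module.finrank K C = 2)
    (H : ∀ d : C, d ≠ 0 → FinSol3 C s (algebraMap K C a)
      (algebraMap K C (9 * b + 4 * (-3) * a ^ 3)) d →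
      (∀ g : C ≃ₐ[K] C, g s = -s → ∃ y, g d * d = y ^ 3) → ∃ y, d = y ^ 3) : NoKr0 K V := by
  intro f hf hl hk
  set Ω := AlgebraicClosure C with hΩ
  set VC := V.map (algebraMap K C) with hVCdef
  have hKC : V.map (algebraMap K C) = VC := rfl
  have hInvK : Inv K (VC.baseChange Ω) := inv_up hKC
  set F := trans (jj K C) (map_jj hKC) f with hF
  have hFc : IsCoc (inv_up hKC) F :=
    isCoc_trans (jj K C) (map_jj hKC) (h' := inv_up hKC) ((Pool.Agent.H10.isCocycle_iff f).1 hf)
  have hFk : ∀ σ, Kr (F σ) := fun σ => (kr_pm _ _).2 (hk _)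
  have hE : Is3 (VC.baseChange Ω) (-3) (algebraMap K Ω a) (algebraMap K Ω b) := by
    have h1 := h.up (map_up hKC)
    rw [map_neg, map_ofNat] at h1
    exact h1
  have hVC : Is3 VC (-3) (algebraMap K C a) (algebraMap K C b) := by
    have h1 := h.up hKC
    rw [map_neg, map_ofNat] at h1
    exact h1
  have hact : ∀ (σ : Ω ≃ₐ[K] Ω) (P : (VC.baseChange Ω).toAffine.Point), Kr P →
      Pool.Agent.H10.act (inv_up hKC) σ P = P := by
    intro σ P hP
    refine K6a_fix hE _ ?_ hP
    exact σ.commutes b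
  have hadd : ∀ σ τ, F (σ * τ) = F σ + F τ := by
    intro σ τ
    rw [hFc.2, hact _ _ (hFk τ)]
  have hone : F 1 = 0 := hFc.one
  have hconjL : ∀ σ τ : Ω ≃ₐ[K] Ω, F (σ⁻¹ * τ * σ) = F τ := by
    intro σ τ
    have h1 : F σ⁻¹ + F σ = 0 := by
      rw [← hadd, inv_mul_cancel, hone]
    rw [hadd, hadd]
    calc F σ⁻¹ + F τ + F σ = F τ + (F σ⁻¹ + F σ) := by abel
      _ = F τ := by rw [h1, add_zero]
  have hcC := isCocycle_res hKC hf
  have hlC := isLocTriv_res hKC hf hl
  have hkC : ∀ σ, Kr (resF hKC f σ) := fun σ => hFk _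
  obtain ⟨r, d, hr, hd0, hd, hr'⟩ := kum3 (k := C) (hVC.bc Ω) hs (inv_bc C VC)
    ((Pool.Agent.H10.isCocycle_iff _).1 hcC) hkC
  have hfin := loc3 hVC hs hlC hkC hr hd hr'
  have hc : 9 * algebraMap K C b + 4 * (-3) * (algebraMap K C a) ^ 3 =
      algebraMap K C (9 * b + 4 * (-3) * a ^ 3) := by
    simp only [map_add, map_mul, map_pow, map_neg, map_ofNat]
  rw [hc] at hfin
  have hr2 : ∀ σ : Ω ≃ₐ[C] Ω, σ r = ee (algebraMap C Ω s) (algebraMap K Ω b)
      (resF hKC f σ) * r := by
    intro σ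
    rw [IsScalarTower.algebraMap_apply K C Ω]
    exact hr' σ
  have hinn : ∀ (g : Ω ≃ₐ[K] Ω) (σ : Ω ≃ₐ[C] Ω),
      resF hKC f (cj g σ) = resF hKC f σ := by
    intro g σ
    exact hconjL g (σ.restrictScalars K)
  have hlfs : ∀ (g : C ≃ₐ[K] C) (x : C), (lf g : Ω ≃ₐ[K] Ω)
      (algebraMap C Ω x) = algebraMap C Ω (g x) := fun g x => lf_apply g x
  obtain ⟨y, hy⟩ := H d hd0 hfin
    (fun g hg => K6a_opp hE hInvK hs hkC hd hr2 (lf g) (hinn (lf g))
      (by rw [hlfs, hg, map_neg]) (hlfs g d))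
  have hs' : (algebraMap C Ω s) ^ 2 = -3 := by
    rw [← map_pow, hs, map_neg, map_ofNat]
  -- the restriction to `C` vanishes
  have hC0 : ∀ σ : Ω ≃ₐ[C] Ω, resF hKC f σ = 0 := by
    intro σ
    have hY0 : algebraMap C Ω y ≠ 0 := by
      intro h0
      rw [hy, map_pow, h0, zero_pow (by norm_num)] at hd
      exact hr (pow_eq_zero_iff (by norm_num) |>.1 hd)
    set z := r / algebraMap C Ω y with hz
    have hz3 : z ^ 3 = 1 := by
      rw [hz, div_pow, hd, hy, map_pow, div_self (pow_ne_zero 3 hY0)]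
    have hrz : r = z * algebraMap C Ω y := by
      rw [hz, div_mul_cancel₀ _ hY0]
    have hσz : σ z = z := by
      have h4 : (z - 1) * (z ^ 2 + z + 1) = 0 := by linear_combination hz3
      rcases mul_eq_zero.1 h4 with h5 | h5
      · rw [sub_eq_zero.1 h5, map_one]
      · have h6 : (2 * z + 1) ^ 2 = (algebraMap C Ω s) ^ 2 := by
          rw [hs']
          linear_combination 4 * h5
        have two : (2 : Ω) ≠ 0 := hE.two
        have h7 : σ (2 * z + 1) = 2 * z + 1 := by
          rcases sq_eq_sq_iff_eq_or_eq_neg.1 h6 with h8 | h8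
          · rw [h8, σ.commutes]
          · rw [h8, map_neg, σ.commutes]
        rw [map_add, map_mul, map_one, map_ofNat] at h7
        have h8 : (2 : Ω) * σ z = 2 * z := by linear_combination h7
        exact mul_left_cancel₀ two h8
    have h1 : σ r = r := by
      rw [hrz, map_mul, hσz, σ.commutes]
    have h2 := hr2 σ
    rw [h1] at h2
    have h3 : ee (algebraMap C Ω s) (algebraMap K Ω b) (resF hKC f σ) = 1 := by
      apply mul_right_cancel₀ hr
      rw [one_mul]
      exact h2.symm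
    have hKr0 : Kr (0 : (VC.baseChange Ω).toAffine.Point) := True.intro
    exact ee_inj hE hs' (hkC σ) hKr0 (h3.trans ee_zero.symm)
  -- `F` vanishes
  have hF0 : ∀ σ : Ω ≃ₐ[K] Ω, F σ = 0 := by
    intro σ
    have h1 : σ * σ ∈ (AlgEquiv.restrictNormalHom (F := K) (K₁ := Ω) C).ker := by
      rw [MonoidHom.mem_ker, map_mul, ← pow_two, ← hdeg, ← IsGalois.card_aut_eq_finrank K C]
      exact pow_card_eq_one'
    have h2 := hC0 (K6a_mk (σ * σ) ((K6a_ker (L := C) (σ * σ)).1 h1))
    have h3 : resF hKC f (K6a_mk (σ * σ) ((K6a_ker (L := C) (σ * σ)).1 h1)) = F (σ * σ) := rfl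
    rw [h3, hadd] at h2
    have h4 := kr_three hE (hFk σ)
    have h5 : 3 • F σ = (F σ + F σ) + F σ := by
      rw [show (3 : ℕ) = 2 + 1 from rfl, add_smul, two_smul, one_smul]
    rw [h5, h2, zero_add] at h4
    exact h4
  -- `f` vanishes
  intro σ
  have h1 := hF0 (((jj K C).symm.trans σ).trans (jj K C))
  rw [hF] at h1
  unfold Pool.Agent.H10.trans at h1
  have h2 : ((jj K C).trans (((jj K C).symm.trans σ).trans (jj K C))).trans (jj K C).symm = σ := by
    ext x
    change (jj K C).symm ((jj K C) (σ ((jj K C).symm ((jj K C) x)))) = σ x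
    rw [AlgEquiv.symm_apply_apply, AlgEquiv.symm_apply_apply]
  rw [h2] at h1
  apply pm_injective _ (map_jj hKC)
  rw [h1, map_zero]

theorem noKr_of_noKr0 {K : Type} [Field K] [NumberField K] {V : WeierstrassCurve K}
    (H : NoKr0 K V) : NoKr K V := by
  intro f hf hl hk
  rw [Pool.Agent.H10.isCobound_iff]
  refine ⟨0, fun σ => ?_⟩
  rw [H f hf hl hk σ, map_zero, sub_zero]

end H55T3
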