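import Pool.Agent.H55.T3.Xdf

/-!
Row Xd (about 170 lines): the Mordell-Weil group is divisible by three. Here T' = (0, s c) (c = 9 b + 4 D a^3) is a kernel point of the dual isogeny.

PROOF. P ∈ V(K), Ω := AlgebraicClosure K; P_Ω = 3 R with R ∈ V(Ω) (multiplication by 3 is surjective, see Res.lean / Mw.lean). g(σ) := act σ R - R has 3 g = 0, is a cocycle and a coboundary, so locally trivial. pf ∘ g is a cocycle with values in Kr (kr_psF), locally trivial, for W: by H2 it vanishes, so g has values in Kr (psF_eq_zero).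
 kum3, loc3: r, d with r^3 = d ≠ 0, σ r = ee (g σ) r and FinSol3 K s a c d. H1: d = (2 s c)^j t^3 (t ≠ 0).
 P0 ∈ V(Ω) with psF P0 = T'_Ω = (0, S C) (psF_surj; T' is a point of W: (s c)^2 = W.a₆ = 9 D (c/3)^2), r0 := ww P0, r0^3 = 2 s c (ww_cube), σ r0 = ee (act σ P0 - P0) r0 with act σ P0 - P0 ∈ Kr (as in img_point of Xa.lean: uu_trans). 3 P0 = 0 by three_of_kr (T' ∈ Kr).
 η := r / (r0^j t) is a cube root of unity, T ∈ Kr with ee T = η. P' := j P0 + T: ee (act σ P' - P') r = σ r as in cob_of_img, so g σ = act σ P' - P' (ee_inj). So R - P' is fixed by all σ: it comes from Q ∈ V(K) (H10: fixed points are rational), and 3 Q = 3 R - 3 P' = P_Ω (3 P' = 3 j P0 + 3 T = 0). pm is injective: P = 3 Q.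
-/

set_option autoImplicit false
open scoped Classical

open WeierstrassCurve IsDedekindDomain NumberField Pool.Agent.H10 Pool.Agent.H11

namespace H55T3

theorem Xd_pt {k : Type*} [Field k] {W W' : WeierstrassCurve k} {D a b s : k} (h : Is3 W D a b)
    (h' : Is3 W' (-3 * D) a (dl D a b)) (hs : s ^ 2 = D) :
    W'.toAffine.Nonsingular 0 (s * (9 * b + 4 * D * a ^ 3)) := by
  have h5 := h'.isElliptic
  obtain ⟨h3, -⟩ := dl_facts h.three D a b
  rw [← Affine.equation_iff_nonsingular, Affine.equation_iff, h'.a₁, h'.a₂, h'.a₃, h'.a₄, h'.a₆,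
    ← h3]
  subst hs
  ring

theorem Xd_P0 {k : Type*} [Field k] [IsAlgClosed k] {W W' : WeierstrassCurve k} {D a b s : k}
    (h : Is3 W D a b) (h' : Is3 W' (-3 * D) a (dl D a b)) (hs : s ^ 2 = D) :
    ∃ P : W.toAffine.Point, psF W W' D a b P =
      .some 0 (s * (9 * b + 4 * D * a ^ 3)) (Xd_pt h h' hs) ∧ ¬ Kr P ∧
      3 • P = 0 ∧ ww s a b P ^ 3 = 2 * (s * (9 * b + 4 * D * a ^ 3)) := by
  obtain ⟨P, hP⟩ := psF_surj h h' (.some 0 (s * (9 * b + 4 * D * a ^ 3)) (Xd_pt h h' hs))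
  have hk : ¬ Kr P := by
    intro hk
    rw [psF_kr hk] at hP
    exact Affine.Point.some_ne_zero _ hP.symm
  refine ⟨P, hP, hk, three_of_kr h h' (by rw [hP]; exact (kr_some _).2 rfl), ?_⟩
  obtain ⟨x, y, n, rfl⟩ := PsH_ex (P := P) (by
    rintro rfl
    exact hk kr_zero)
  have hx : x ≠ 0 := fun hx => hk ((kr_some n).2 hx)
  rw [psF_some h h' n hx, Affine.Point.some.injEq] at hP
  rw [(ww_cube h hs n hx).1, hP.1, hP.2]
  ring

theorem Xd_nsmul {k : Type*} [Field k] {W : WeierstrassCurve k} {D a b s : k} (h : Is3 W D a b)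
    (hs : s ^ 2 = D) {P : W.toAffine.Point} (hP : Kr P) (n : ℕ) :
    Kr (n • P) ∧ ee s b (n • P) = ee s b P ^ n := by
  induction n with
  | zero => exact ⟨by rw [zero_smul]; exact kr_zero, by rw [zero_smul, pow_zero]; rfl⟩
  | succ n ih =>
    rw [succ_nsmul]
    exact ⟨kr_add h ih.1 hP, by rw [ee_add h hs ih.1 hP, ih.2, pow_succ]⟩

section

variable {K : Type} [Field K] [NumberField K] {V W : WeierstrassCurve K} {D a b s : K}

theorem Xd_ee (σ : AlgebraicClosure K ≃ₐ[K] AlgebraicClosure K)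
    (P : (V.baseChange (AlgebraicClosure K)).toAffine.Point) :
    ee (algebraMap K (AlgebraicClosure K) s) (algebraMap K (AlgebraicClosure K) b)
      (act (inv_bc K V) σ P) =
    σ (ee (algebraMap K (AlgebraicClosure K) s) (algebraMap K (AlgebraicClosure K) b) P) := by
  have h1 := ee_pm (s := algebraMap K (AlgebraicClosure K) s)
    (b := algebraMap K (AlgebraicClosure K) b)
    (φ := (σ : AlgebraicClosure K →+* AlgebraicClosure K)) (inv_bc K V σ) P
  have h2 : (σ : AlgebraicClosure K →+* AlgebraicClosure K)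
      (algebraMap K (AlgebraicClosure K) s) = algebraMap K (AlgebraicClosure K) s := σ.commutes _
  have h3 : (σ : AlgebraicClosure K →+* AlgebraicClosure K)
      (algebraMap K (AlgebraicClosure K) b) = algebraMap K (AlgebraicClosure K) b := σ.commutes _
  rw [h2, h3] at h1
  exact h1

theorem Xd_ww (σ : AlgebraicClosure K ≃ₐ[K] AlgebraicClosure K)
    (P : (V.baseChange (AlgebraicClosure K)).toAffine.Point) :
    ww (algebraMap K (AlgebraicClosure K) s) (algebraMap K (AlgebraicClosure K) a)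
      (algebraMap K (AlgebraicClosure K) b) (act (inv_bc K V) σ P) =
    σ (ww (algebraMap K (AlgebraicClosure K) s) (algebraMap K (AlgebraicClosure K) a)
      (algebraMap K (AlgebraicClosure K) b) P) := by
  have h1 := (uu_pm (s := algebraMap K (AlgebraicClosure K) s)
    (a := algebraMap K (AlgebraicClosure K) a) (b := algebraMap K (AlgebraicClosure K) b)
    (φ := (σ : AlgebraicClosure K →+* AlgebraicClosure K)) (inv_bc K V σ) P).2
  have h2 : (σ : AlgebraicClosure K →+* AlgebraicClosure K)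
      (algebraMap K (AlgebraicClosure K) s) = algebraMap K (AlgebraicClosure K) s := σ.commutes _
  have h3 : (σ : AlgebraicClosure K →+* AlgebraicClosure K)
      (algebraMap K (AlgebraicClosure K) b) = algebraMap K (AlgebraicClosure K) b := σ.commutes _
  have h4 : (σ : AlgebraicClosure K →+* AlgebraicClosure K)
      (algebraMap K (AlgebraicClosure K) a) = algebraMap K (AlgebraicClosure K) a := σ.commutes _
  rw [h2, h3, h4] at h1
  exact h1

theorem Xd_actpt (σ : AlgebraicClosure K ≃ₐ[K] AlgebraicClosure K) {y : K}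
    {y' : AlgebraicClosure K} (hy : y' = algebraMap K (AlgebraicClosure K) y)
    (n : (W.baseChange (AlgebraicClosure K)).toAffine.Nonsingular 0 y') :
    act (inv_bc K W) σ (.some 0 y' n) = .some 0 y' n := by
  subst hy
  unfold Pool.Agent.H10.act
  rw [pm_some, Affine.Point.some.injEq]
  exact ⟨map_zero _, σ.commutes y⟩

theorem Xd_r0 (h : Is3 V D a b) (h' : Is3 W (-3 * D) a (dl D a b)) (hs : s ^ 2 = D) :
    ∃ (P : (V.baseChange (AlgebraicClosure K)).toAffine.Point) (r : AlgebraicClosure K),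
      3 • P = 0 ∧ r ≠ 0 ∧
      r ^ 3 = algebraMap K (AlgebraicClosure K) (2 * (s * (9 * b + 4 * D * a ^ 3))) ∧
      ∀ σ : AlgebraicClosure K ≃ₐ[K] AlgebraicClosure K, Kr (act (inv_bc K V) σ P - P) ∧
        σ r = ee (algebraMap K (AlgebraicClosure K) s) (algebraMap K (AlgebraicClosure K) b)
          (act (inv_bc K V) σ P - P) * r := by
  have hE := h.bc (AlgebraicClosure K)
  have hEd := h'.bcd (AlgebraicClosure K)
  have hsE : (algebraMap K (AlgebraicClosure K) s) ^ 2 = algebraMap K (AlgebraicClosure K) D := by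
    rw [← map_pow, hs]
  obtain ⟨P, hP, hk, h3, hw⟩ := Xd_P0 hE hEd hsE
  have hC : (9 * algebraMap K (AlgebraicClosure K) b + 4 * algebraMap K (AlgebraicClosure K) D *
      (algebraMap K (AlgebraicClosure K) a) ^ 3) =
      algebraMap K (AlgebraicClosure K) (9 * b + 4 * D * a ^ 3) := by
    simp only [map_add, map_mul, map_pow, map_ofNat]
  have hw' : ww (algebraMap K (AlgebraicClosure K) s) (algebraMap K (AlgebraicClosure K) a)
      (algebraMap K (AlgebraicClosure K) b) P ^ 3 =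
      algebraMap K (AlgebraicClosure K) (2 * (s * (9 * b + 4 * D * a ^ 3))) := by
    rw [hw, hC, map_mul, map_mul, map_ofNat]
  have hne : 2 * (s * (9 * b + 4 * D * a ^ 3)) ≠ 0 :=
    mul_ne_zero h.two (mul_ne_zero (Ke_s h hs) h.hc)
  have hr : ww (algebraMap K (AlgebraicClosure K) s) (algebraMap K (AlgebraicClosure K) a)
      (algebraMap K (AlgebraicClosure K) b) P ≠ 0 := by
    intro h0
    rw [h0, zero_pow three_ne_zero] at hw'
    exact hne ((map_eq_zero _).1 hw'.symm)
  refine ⟨P, _, h3, hr, hw', fun σ => ?_⟩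
  have hT : Kr (act (inv_bc K V) σ P - P) := by
    rw [← psF_eq_zero hE hEd]
    have e1 := pf_sub h h' (AlgebraicClosure K) (act (inv_bc K V) σ P) P
    rw [pf_act h h'] at e1
    have e3 : pf V W D a b (AlgebraicClosure K) P = .some 0 _ (Xd_pt hE hEd hsE) := hP
    have e2 : act (inv_bc K W) σ (pf V W D a b _ P) = pf V W D a b _ P := by
      rw [e3]
      exact Xd_actpt (y := s * (9 * b + 4 * D * a ^ 3)) σ (by rw [hC, map_mul]) _
    rw [e2, sub_self] at e1
    exact e1
  refine ⟨hT, ?_⟩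
  have e := (uu_trans hE hsE hk hT).2.2
  rw [add_sub_cancel] at e
  rw [← Xd_ww, e]

theorem Xd_cls (h : Is3 V D a b) (h' : Is3 W (-3 * D) a (dl D a b)) (hs : s ^ 2 = D) (j : ℕ)
    {t : K} (ht : t ≠ 0) {r : AlgebraicClosure K} (hr : r ≠ 0)
    (hrd : r ^ 3 = algebraMap K (AlgebraicClosure K)
      ((2 * (s * (9 * b + 4 * D * a ^ 3))) ^ j * t ^ 3)) :
    ∃ P : (V.baseChange (AlgebraicClosure K)).toAffine.Point, 3 • P = 0 ∧
      ∀ σ : AlgebraicClosure K ≃ₐ[K] AlgebraicClosure K, Kr (act (inv_bc K V) σ P - P) ∧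
        σ r = ee (algebraMap K (AlgebraicClosure K) s) (algebraMap K (AlgebraicClosure K) b)
          (act (inv_bc K V) σ P - P) * r := by
  have hE := h.bc (AlgebraicClosure K)
  have hsE : (algebraMap K (AlgebraicClosure K) s) ^ 2 = algebraMap K (AlgebraicClosure K) D := by
    rw [← map_pow, hs]
  obtain ⟨P0, r0, h3, hr0, hr0d, hσ0⟩ := Xd_r0 h h' hs
  have hT0 : algebraMap K (AlgebraicClosure K) t ≠ 0 := (map_ne_zero _).2 ht
  have hq : r0 ^ j * algebraMap K (AlgebraicClosure K) t ≠ 0 := mul_ne_zero (pow_ne_zero j hr0) hT0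
  obtain ⟨z, hz⟩ : ∃ z, r = z * (r0 ^ j * algebraMap K (AlgebraicClosure K) t) :=
    ⟨r / (r0 ^ j * algebraMap K (AlgebraicClosure K) t), (div_mul_cancel₀ _ hq).symm⟩
  have hz3 : z ^ 3 = 1 := by
    have h1 : z ^ 3 * (r0 ^ j * algebraMap K (AlgebraicClosure K) t) ^ 3 =
        1 * (r0 ^ j * algebraMap K (AlgebraicClosure K) t) ^ 3 := by
      rw [← mul_pow, ← hz, hrd, map_mul, map_pow, map_pow, ← hr0d]
      ring
    exact mul_right_cancel₀ (pow_ne_zero 3 hq) h1
  have hz0 : z ≠ 0 := by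
    rintro rfl
    rw [zero_pow three_ne_zero] at hz3
    exact zero_ne_one hz3
  obtain ⟨T, hT, hTz⟩ := ee_surj hE hsE hz3
  refine ⟨j • P0 + T, ?_, fun σ => ?_⟩
  · have e0 : 3 • (j • P0 + T) = j • (3 • P0) + 3 • T := by
      rw [nsmul_add, ← mul_nsmul, ← mul_nsmul, Nat.mul_comm]
    rw [e0, kr_three hE hT, h3, nsmul_zero, add_zero]
  · have e1 : act (inv_bc K V) σ (j • P0 + T) - (j • P0 + T) =
        j • (act (inv_bc K V) σ P0 - P0) + (act (inv_bc K V) σ T - T) := by
      rw [map_add, map_nsmul, nsmul_sub]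
      abel
    have k1 := Xd_nsmul hE hsE (hσ0 σ).1 j
    have k2 : Kr (act (inv_bc K V) σ T) := (kr_pm _ _).2 hT
    have k3 : Kr (act (inv_bc K V) σ T - T) := by
      rw [sub_eq_add_neg]
      exact kr_add hE k2 (kr_neg.2 hT)
    have e2 : ee (algebraMap K (AlgebraicClosure K) s) (algebraMap K (AlgebraicClosure K) b)
        (act (inv_bc K V) σ T - T) = σ z * z⁻¹ := by
      rw [sub_eq_add_neg, ee_add hE hsE k2 (kr_neg.2 hT), ee_neg hE hsE hT, Xd_ee, hTz]
    rw [e1]
    refine ⟨kr_add hE k1.1 k3, ?_⟩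
    rw [ee_add hE hsE k1.1 k3, k1.2, e2, hz, map_mul, map_mul, map_pow, σ.commutes, (hσ0 σ).2,
      mul_pow]
    field_simp

end

theorem three_divisible {K : Type} [Field K] [NumberField K] {V W : WeierstrassCurve K}
    {D a b s : K} (h : Is3 V D a b) (h' : Is3 W (-3 * D) a (dl D a b)) (hs : s ^ 2 = D)
    (H1 : ∀ d : K, d ≠ 0 → FinSol3 K s a (9 * b + 4 * D * a ^ 3) d →
      ∃ (j : ℕ) (t : K), d = (2 * (s * (9 * b + 4 * D * a ^ 3))) ^ j * t ^ 3)
    (H2 : NoKr0 K W) (P : V.toAffine.Point) : ∃ Q : V.toAffine.Point, P = 3 • Q := by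
  have hL : V.map (algebraMap K (AlgebraicClosure K)) = V.baseChange (AlgebraicClosure K) := rfl
  have hE := h.bc (AlgebraicClosure K)
  have hEd := h'.bcd (AlgebraicClosure K)
  have hsE : (algebraMap K (AlgebraicClosure K) s) ^ 2 = algebraMap K (AlgebraicClosure K) D := by
    rw [← map_pow, hs]
  have hEE : (V.baseChange (AlgebraicClosure K)).IsElliptic := hE.isElliptic
  obtain ⟨R, hR⟩ := smul_surjective (V.baseChange (AlgebraicClosure K)) 3 three_ne_zero
    (pm (algebraMap K (AlgebraicClosure K)) hL P)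
  have hPinv : ∀ τ, act (inv_bc K V) τ (pm (algebraMap K (AlgebraicClosure K)) hL P) =
      pm (algebraMap K (AlgebraicClosure K)) hL P := by
    intro τ
    unfold Pool.Agent.H10.act
    rw [pm_pm]
    exact pm_congr _ _ (fun x => τ.commutes x) _
  let g : Coch K V := fun τ => act (inv_bc K V) τ R - R
  have hg3 : ∀ τ, 3 • g τ = 0 := by
    intro τ
    have h1 := hPinv τ
    rw [← hR, map_nsmul] at h1
    calc 3 • g τ = 3 • act (inv_bc K V) τ R - 3 • R := smul_sub _ _ _
      _ = 0 := by rw [h1, sub_self]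
  have hcob : IsCobound K V g := (Pool.Agent.H10.isCobound_iff _).mpr ⟨R, fun σ => rfl⟩
  have hZ : g ∈ ShaZ K V := shaB_le K V hcob
  have hF := H2 _ (pf_cocycle h h' hZ.1) (pf_locTriv h h' hZ.2)
    (fun σ => kr_psF hE hEd (hg3 σ))
  have hk : ∀ σ, Kr (g σ) := fun σ => (psF_eq_zero hE hEd).1 (hF σ)
  obtain ⟨r, d, hr, hd, hrd, hσ⟩ := kum3 hE hs (inv_bc K V)
    ((Pool.Agent.H10.isCocycle_iff g).1 hZ.1) hk
  have hfin := loc3 h hs hZ.2 hk hr hrd hσ
  obtain ⟨j, t, hjt⟩ := H1 d hd hfin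
  have ht : t ≠ 0 := by
    rintro rfl
    apply hd
    rw [hjt, zero_pow three_ne_zero, mul_zero]
  obtain ⟨P', h3', hP'⟩ := Xd_cls h h' hs j ht hr (by rw [hrd, hjt])
  have hgg : ∀ σ, act (inv_bc K V) σ R - R = act (inv_bc K V) σ P' - P' := by
    intro σ
    have e : g σ = act (inv_bc K V) σ P' - P' :=
      ee_inj hE hsE (hk σ) (hP' σ).1 (mul_right_cancel₀ hr (by rw [← hσ σ, ← (hP' σ).2]))
    exact e
  obtain ⟨Q, hQ⟩ := pm_descent (V := V) hL (inv_bc K V) (R - P') (by
    intro σ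
    rw [map_sub]
    have e := hgg σ
    rw [sub_eq_sub_iff_add_eq_add] at e ⊢
    rw [e]
    abel)
  refine ⟨Q, pm_injective (algebraMap K (AlgebraicClosure K)) hL ?_⟩
  rw [map_nsmul, hQ, nsmul_sub, hR, h3', sub_zero]

end H55T3
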