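import Pool.Agent.H55.T3.Sj

/-!
Row To (about 110 lines): three-torsion.

PROOF. P = (x, y) ≠ 0. For l, m as below the relations `3 x = l^2 - a₂`, `3 x^2 = a₄ - 2 l m`, `x^3 = m^2 - a₆`, `y = l x + m` say P + P + P = 0 (line_sum, exists_line).
three_iff: 3 P = 0 iff P = 0 or P = (x, y) with x (x^3 - 4 D a^2 x^2 - 12 D a b x - 12 D b^2) = 0.
 (→) exists_line for P + P + P = 0: 3 x = l^2 + 3 D a^2, 3 x^2 = -6 D a b - 2 l m, x^3 = m^2 + 3 D b^2. From these (l m)^2 = l^2 m^2: ((3 x^2 + 6 D a b)/2)^2 = (3 x - 3 D a^2)(x^3 - 3 D b^2): expands to 3 x^4 - 12 D a^2 x^3 - ... : (3 x^2 + 6 D a b)^2 = 4 (3 x - 3 D a^2)(x^3 - 3 D b^2),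
   i.e. -3 x^4 + 12 D a^2 x^3 + 36 D a b x^2 + 36 D b^2 x = 0 up to the factor 3: x (x^3 - 4 D a^2 x^2 - 12 D a b x - 12 D b^2) = 0 (3 ≠ 0).
 (←) y ≠ 0: if y = 0 then x^3 = 3 D (a x + b)^2; with x = 0: b = 0, no; with x^3 = 4 D a^2 x^2 + 12 D a b x + 12 D b^2: subtract: 4 D a^2 x^2 + 12 D a b x + 12 D b^2 = 3 D a^2 x^2 + 6 D a b x + 3 D b^2, D (a x + 3 b)^2 = 0, a x = -3 b, a ≠ 0, x = -3 b/a, and then
   x^3 = 3 D (2 b)^2... (a x + b = -2 b): -27 b^3/a^3 = 12 D b^2, -27 b = 12 D a^3, 9 b + 4 D a^3 = 0, excluded. So y ≠ 0, l := (3 x^2 - 6 D a^2 x - 6 D a b)/(2 y), m := y - l x: the relations follow from the equation of the curve and the quartic (l^2 * 4 y^2 = (3 x^2 - 6 D a^2 x - 6 D a b)^2 = 4 y^2 (3 x - 3 D a^2) is the quartic).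
kr_psF: if 3 P = 0 then Kr (psF P): P = 0 or x = 0: psF P = 0; otherwise psX D a b x = (x^3 - 4 D a^2 x^2 - 12 D a b x - 12 D b^2)/x^2 = 0.
three_of_kr: conversely if Kr (psF P) then 3 P = 0.
lift_kr: T' in the kernel of the dual: T' = psF S (psF_surj), 3 S = 0.
-/

set_option autoImplicit false
open scoped Classical

open WeierstrassCurve Pool.Agent.H10

namespace H55T3

variable {k : Type*} [Field k] {W W' : WeierstrassCurve k} {D a b : k}

/-- the quartic in terms of the psi function -/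
theorem To_psX {x : k} (hx : x ≠ 0) :
    x ^ 3 - 4 * D * a ^ 2 * x ^ 2 - 12 * D * a * b * x - 12 * D * b ^ 2 =
      x ^ 2 * psX D a b x := by
  unfold psX
  field_simp

theorem To_y (h : Is3 W D a b) {x y : k} (n : W.toAffine.Nonsingular x y)
    (hq : x * (x ^ 3 - 4 * D * a ^ 2 * x ^ 2 - 12 * D * a * b * x - 12 * D * b ^ 2) = 0) :
    y ≠ 0 := by
  intro hy
  have he := h.eqn n
  have h2 := h.three
  have hD := h.hD
  have hb := h.hb
  rw [hy] at he
  by_cases hx : x = 0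
  · rw [hx] at he
    have h4 : 3 * (D * b ^ 2) = 0 := by linear_combination he
    exact mul_ne_zero h2 (mul_ne_zero hD (pow_ne_zero 2 hb)) h4
  · have hq' := (mul_eq_zero.1 hq).resolve_left hx
    have h5 : D * (a * x + 3 * b) ^ 2 = 0 := by linear_combination (-1 : k) * he - hq'
    have h6 : a * x + 3 * b = 0 := by
      have h7 := (mul_eq_zero.1 h5).resolve_left hD
      exact pow_eq_zero_iff (two_ne_zero) |>.1 h7
    have h8 : x ^ 3 = 12 * D * b ^ 2 := by
      have h9 : a * x = -3 * b := by linear_combination h6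
      have h10 : a * x + b = -2 * b := by linear_combination h6
      rw [h10] at he
      linear_combination (-1 : k) * he
    have h11 : 3 * (b ^ 2 * (9 * b + 4 * D * a ^ 3)) = 0 := by
      have h12 : (a * x) ^ 3 = (-3 * b) ^ 3 := by
        rw [show a * x = -3 * b by linear_combination h6]
      have h13 : (a * x) ^ 3 = a ^ 3 * (12 * D * b ^ 2) := by rw [mul_pow, h8]
      linear_combination h12 - h13
    exact mul_ne_zero h2 (mul_ne_zero (pow_ne_zero 2 hb) h.hc) h11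

theorem three_iff (h : Is3 W D a b) {x y : k} (n : W.toAffine.Nonsingular x y) :
    3 • (Affine.Point.some x y n : W.toAffine.Point) = 0 ↔
      x * (x ^ 3 - 4 * D * a ^ 2 * x ^ 2 - 12 * D * a * b * x - 12 * D * b ^ 2) = 0 := by
  have h3 : 3 • (Affine.Point.some x y n : W.toAffine.Point) =
      Affine.Point.some x y n + Affine.Point.some x y n + Affine.Point.some x y n := by
    rw [succ_nsmul, two_nsmul]
  rw [h3]
  constructor
  · intro hs
    obtain ⟨l, m, -, -, -, e1, e2, e3⟩ := exists_line h.a₁ h.a₃ h.two hs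
    rw [h.a₂] at e1
    rw [h.a₄] at e2
    rw [h.a₆] at e3
    have h4 : 3 * (x * (x ^ 3 - 4 * D * a ^ 2 * x ^ 2 - 12 * D * a * b * x - 12 * D * b ^ 2)) = 0 := by
      linear_combination 4 * (x ^ 3 - 3 * D * b ^ 2) * e1 + 4 * l ^ 2 * e3 -
        (3 * x ^ 2 + 6 * D * a * b - 2 * l * m) * e2
    exact (mul_eq_zero.1 h4).resolve_left h.three
  · intro hq
    have hy := To_y h n hq
    have he := h.eqn n
    have h2y : 2 * y ≠ 0 := mul_ne_zero h.two hy
    obtain ⟨l, hl⟩ : ∃ l : k, l * (2 * y) = 3 * x ^ 2 - 6 * D * a ^ 2 * x - 6 * D * a * b :=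
      ⟨(3 * x ^ 2 - 6 * D * a ^ 2 * x - 6 * D * a * b) / (2 * y), div_mul_cancel₀ _ h2y⟩
    have hl2 : l ^ 2 = 3 * x - 3 * D * a ^ 2 := by
      apply mul_left_cancel₀ (pow_ne_zero 2 h2y)
      have h5 : (l * (2 * y)) ^ 2 = (3 * x ^ 2 - 6 * D * a ^ 2 * x - 6 * D * a * b) ^ 2 := by rw [hl]
      linear_combination h5 - 4 * (3 * x - 3 * D * a ^ 2) * he - 3 * hq
    refine line_sum (l := l) (m := y - l * x) h.a₁ h.a₃ h.two n n n (by ring) (by ring) (by ring)
      ?_ ?_ ?_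
    · rw [h.a₂]
      linear_combination (-1 : k) * hl2
    · rw [h.a₄]
      linear_combination (-2 * x) * hl2 + hl
    · rw [h.a₆]
      linear_combination (-1 : k) * he - x ^ 2 * hl2 + x * hl

theorem kr_psF (h : Is3 W D a b) (h' : Is3 W' (-3 * D) a (dl D a b)) {P : W.toAffine.Point}
    (hP : 3 • P = 0) : Kr (psF W W' D a b P) := by
  match P, hP with
  | 0, _ =>
    rw [psF_zero]
    exact kr_zero
  | .some x y n, hP =>
    by_cases hx : x = 0
    · rw [psF_kr ((kr_some n).2 hx)]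
      exact kr_zero
    · have hq := (three_iff h n).1 hP
      rw [psF_some h h' n hx, kr_some]
      rw [To_psX hx] at hq
      have h1 := (mul_eq_zero.1 hq).resolve_left hx
      exact (mul_eq_zero.1 h1).resolve_left (pow_ne_zero 2 hx)

theorem three_of_kr (h : Is3 W D a b) (h' : Is3 W' (-3 * D) a (dl D a b)) {P : W.toAffine.Point}
    (hP : Kr (psF W W' D a b P)) : 3 • P = 0 := by
  match P, hP with
  | 0, _ => exact smul_zero 3
  | .some x y n, hP =>
    rw [three_iff h n]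
    by_cases hx : x = 0
    · rw [hx, zero_mul]
    · rw [psF_some h h' n hx, kr_some] at hP
      rw [To_psX hx, hP, mul_zero, mul_zero]

theorem lift_kr [IsAlgClosed k] (h : Is3 W D a b) (h' : Is3 W' (-3 * D) a (dl D a b))
    {T : W'.toAffine.Point} (hT : Kr T) : ∃ S : W.toAffine.Point, psF W W' D a b S = T ∧ 3 • S = 0 := by
  obtain ⟨S, hS⟩ := psF_surj h h' T
  refine ⟨S, hS, three_of_kr h h' ?_⟩
  rw [hS]
  exact hT

end H55T3
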