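import Pool.Agent.H55.T3.Ke
import Pool.Agent.H55.T3.To

/-!
Row Bc (about 120 lines): the isogeny on cochains. V, W over the number field L (the fields called k here), Is3 V D a b, Is3 W (-3 D) a (dl D a b).

Read Pool/Agent/H10/Func1.lean, Func4.lean (pm, act, IsCoc, TrivAt, isCocycle_iff, isLocTriv_iff, inv_bc, map_bc) and Pool/Agent/H11/Conj.lean (conj).
For Ω an extension of L put VΩ = V.baseChange Ω, WΩ = W.baseChange Ω; Is3 VΩ (algebraMap D) ... by Is3.up (W.map = baseChange, rfl), and similarly the dual (dl_map). Write Psi Ω : VΩ.Point → WΩ.Point := psF VΩ WΩ (algebraMap L Ω D) (algebraMap L Ω a) (algebraMap L Ω b).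
PROOF.
pf_act: act is pm (Func1), so psF_pm with φ = σ, which fixes algebraMap D, a, b. (The same for an automorphism over K if D, a, b come from K: pf_actK.)
pf_cocycle: IsCoc: local constancy: composition of a locally constant map with a function (IsLocallyConstant.comp); psF_add, pf_act.
pf_locTriv: isLocTriv_iff; TrivAt: ∃ P, ∀ τ σ compatible, pm ι (f σ) = act τ P - P; take psF P over the local closure: pm ι (psF (f σ)) = psF (pm ι (f σ)) (psF_pm with φ = ι), psF (act τ P - P) = act τ (psF P) - psF P (psi is a homomorphism: map_sub; psF_pm).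
pf_conj: conj h g f τ = act h g (f (cj g τ)): pf_actK.
-/

set_option autoImplicit false
open scoped Classical

open WeierstrassCurve IsDedekindDomain NumberField Pool.Agent.H10 Pool.Agent.H11

namespace H55T3

/-- the isogeny over an extension -/
noncomputable def pf {k : Type*} [Field k] (V W : WeierstrassCurve k) (D a b : k) (Ω : Type*) [Field Ω]
    [Algebra k Ω] : (V.baseChange Ω).toAffine.Point → (W.baseChange Ω).toAffine.Point :=
  psF (V.baseChange Ω) (W.baseChange Ω) (algebraMap k Ω D) (algebraMap k Ω a) (algebraMap k Ω b)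

theorem Is3.bc {k : Type*} [Field k] {V : WeierstrassCurve k} {D a b : k} (h : Is3 V D a b)
    (Ω : Type*) [Field Ω] [Algebra k Ω] :
    Is3 (V.baseChange Ω) (algebraMap k Ω D) (algebraMap k Ω a) (algebraMap k Ω b) :=
  h.up rfl

theorem Is3.bcd {k : Type*} [Field k] {W : WeierstrassCurve k} {D a b : k}
    (h : Is3 W (-3 * D) a (dl D a b)) (Ω : Type*) [Field Ω] [Algebra k Ω] :
    Is3 (W.baseChange Ω) (-3 * algebraMap k Ω D) (algebraMap k Ω a)
      (dl (algebraMap k Ω D) (algebraMap k Ω a) (algebraMap k Ω b)) := by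
  have h1 := h.up (φ := algebraMap k Ω) (W₁ := W.baseChange Ω) rfl
  rw [dl_map, map_mul, map_neg, map_ofNat] at h1
  exact h1

theorem Bc_pm {k : Type*} [Field k] {V W : WeierstrassCurve k} {D a b : k} (h : Is3 V D a b)
    (h' : Is3 W (-3 * D) a (dl D a b)) {Ω Ω' : Type*} [Field Ω] [Field Ω'] [Algebra k Ω]
    [Algebra k Ω'] (φ : Ω →+* Ω') (hD : φ (algebraMap k Ω D) = algebraMap k Ω' D)
    (ha : φ (algebraMap k Ω a) = algebraMap k Ω' a) (hb : φ (algebraMap k Ω b) = algebraMap k Ω' b)
    (hV : (V.baseChange Ω).map φ = V.baseChange Ω') (hW : (W.baseChange Ω).map φ = W.baseChange Ω')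
    (P : (V.baseChange Ω).toAffine.Point) :
    pf V W D a b Ω' (pm φ hV P) = pm φ hW (pf V W D a b Ω P) := by
  unfold pf
  rw [psF_pm (h.bc Ω) (h'.bcd Ω) hV hW, hD, ha, hb]

section

variable {L : Type} [Field L] [NumberField L] {V W : WeierstrassCurve L} {D a b : L}

theorem pf_add (h : Is3 V D a b) (h' : Is3 W (-3 * D) a (dl D a b)) (Ω : Type*) [Field Ω] [Algebra L Ω]
    (P Q : (V.baseChange Ω).toAffine.Point) :
    pf V W D a b Ω (P + Q) = pf V W D a b Ω P + pf V W D a b Ω Q :=
  psF_add (h.bc Ω) (h'.bcd Ω) P Q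

theorem pf_sub (h : Is3 V D a b) (h' : Is3 W (-3 * D) a (dl D a b)) (Ω : Type*) [Field Ω] [Algebra L Ω]
    (P Q : (V.baseChange Ω).toAffine.Point) :
    pf V W D a b Ω (P - Q) = pf V W D a b Ω P - pf V W D a b Ω Q := by
  rw [sub_eq_add_neg, pf_add h h', sub_eq_add_neg]
  congr 1
  exact psF_neg (h.bc Ω) (h'.bcd Ω) Q

theorem pf_act (h : Is3 V D a b) (h' : Is3 W (-3 * D) a (dl D a b))
    (τ : AlgebraicClosure L ≃ₐ[L] AlgebraicClosure L)
    (P : (V.baseChange (AlgebraicClosure L)).toAffine.Point) :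
    pf V W D a b _ (act (inv_bc L V) τ P) = act (inv_bc L W) τ (pf V W D a b _ P) :=
  Bc_pm h h' (τ : AlgebraicClosure L →+* AlgebraicClosure L) (τ.commutes D) (τ.commutes a)
    (τ.commutes b) _ _ P

theorem pf_cocycle (h : Is3 V D a b) (h' : Is3 W (-3 * D) a (dl D a b)) {f : Coch L V}
    (hf : IsCocycle L V f) : IsCocycle L W (fun τ => pf V W D a b _ (f τ)) := by
  rw [Pool.Agent.H10.isCocycle_iff] at hf ⊢
  refine ⟨hf.1.comp _, fun σ τ => ?_⟩
  change pf V W D a b _ (f (σ * τ)) = pf V W D a b _ (f σ) + Pool.Agent.H10.act (inv_bc L W) σ (pf V W D a b _ (f τ))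
  rw [hf.2, pf_add h h', pf_act h h']

theorem Bc_triv (h : Is3 V D a b) (h' : Is3 W (-3 * D) a (dl D a b)) {F : Type} [Field F]
    [Algebra L F] (f : Coch L V) (ι : AlgebraicClosure L →ₐ[L] AlgebraicClosure F)
    (H : TrivAt (F := F) (inv_bc' V) (ι : AlgebraicClosure L →+* AlgebraicClosure F)
      (map_bc V ι) f) :
    TrivAt (F := F) (inv_bc' W) (ι : AlgebraicClosure L →+* AlgebraicClosure F)
      (map_bc W ι) (fun τ => pf V W D a b _ (f τ)) := by
  obtain ⟨P, hP⟩ := H
  refine ⟨pf V W D a b (AlgebraicClosure F) P, fun τ σ hσ => ?_⟩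
  have h1 := Bc_pm h h' (ι : AlgebraicClosure L →+* AlgebraicClosure F) (ι.commutes D)
    (ι.commutes a) (ι.commutes b) (map_bc V ι) (map_bc W ι) (f σ)
  have hc : ∀ x : L, (τ : AlgebraicClosure F →+* AlgebraicClosure F)
      (algebraMap L (AlgebraicClosure F) x) = algebraMap L (AlgebraicClosure F) x := by
    intro x
    rw [IsScalarTower.algebraMap_apply L F (AlgebraicClosure F)]
    exact τ.commutes _
  have h2 := Bc_pm h h' (τ : AlgebraicClosure F →+* AlgebraicClosure F) (hc D) (hc a) (hc b)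
    (inv_bc' V τ) (inv_bc' W τ) P
  rw [← h1, hP τ σ hσ, pf_sub h h']
  unfold Pool.Agent.H10.act
  rw [h2]

theorem pf_locTriv (h : Is3 V D a b) (h' : Is3 W (-3 * D) a (dl D a b)) {f : Coch L V}
    (hl : IsLocTriv L V f) : IsLocTriv L W (fun τ => pf V W D a b _ (f τ)) := by
  rw [isLocTriv_iff] at hl ⊢
  exact ⟨fun v ι => Bc_triv h h' f ι (hl.1 v ι), fun v ι => Bc_triv h h' f ι (hl.2 v ι)⟩

end

section

variable {K L : Type} [Field K] [NumberField K] [Field L] [NumberField L] [Algebra K L] [Normal K L]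
  {V W : WeierstrassCurve K} {V' W' : WeierstrassCurve L} {D a b : K}

theorem pf_conj (h : Is3 V D a b) (h' : Is3 W (-3 * D) a (dl D a b))
    (hV : V.map (algebraMap K L) = V') (hW : W.map (algebraMap K L) = W')
    (f : Coch L V') (g : AlgebraicClosure L ≃ₐ[K] AlgebraicClosure L)
    (τ : AlgebraicClosure L ≃ₐ[L] AlgebraicClosure L) :
    pf V' W' (algebraMap K L D) (algebraMap K L a) (algebraMap K L b) _ (conj (inv_up hV) g f τ) =
      conj (inv_up hW) g
        (fun τ => pf V' W' (algebraMap K L D) (algebraMap K L a) (algebraMap K L b) _ (f τ)) τ := by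
  have h1 : Is3 V' (algebraMap K L D) (algebraMap K L a) (algebraMap K L b) := h.up hV
  have h2 : Is3 W' (-3 * algebraMap K L D) (algebraMap K L a)
      (dl (algebraMap K L D) (algebraMap K L a) (algebraMap K L b)) := by
    have h3 := h'.up hW
    rw [dl_map, map_mul, map_neg, map_ofNat] at h3
    exact h3
  have hc : ∀ x : K, (g : AlgebraicClosure L →+* AlgebraicClosure L)
      (algebraMap L (AlgebraicClosure L) (algebraMap K L x)) =
      algebraMap L (AlgebraicClosure L) (algebraMap K L x) := by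
    intro x
    rw [← IsScalarTower.algebraMap_apply K L (AlgebraicClosure L)]
    exact g.commutes _
  exact Bc_pm h1 h2 (g : AlgebraicClosure L →+* AlgebraicClosure L) (hc D) (hc a) (hc b)
    (inv_up hV g) (inv_up hW g) (f (cj g τ))

/-- For a finite Galois extension of degree `n` the power `g ^ n` fixes `L`. -/
theorem exists_pow_fix [IsGalois K L] (g : AlgebraicClosure L ≃ₐ[K] AlgebraicClosure L) :
    ∃ τ₀ : AlgebraicClosure L ≃ₐ[L] AlgebraicClosure L,
      g ^ Module.finrank K L = τ₀.restrictScalars K := by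
  have h1 : (AlgEquiv.restrictNormalHom L (g ^ Module.finrank K L) : L ≃ₐ[K] L) = 1 := by
    rw [map_pow, ← IsGalois.card_aut_eq_finrank K L]
    exact pow_card_eq_one'
  have h2 : ∀ x : L, (g ^ Module.finrank K L) (algebraMap L (AlgebraicClosure L) x) =
      algebraMap L (AlgebraicClosure L) x := by
    intro x
    rw [← AlgEquiv.restrictNormal_commutes (g ^ Module.finrank K L) L x]
    change algebraMap L (AlgebraicClosure L)
      ((AlgEquiv.restrictNormalHom L (g ^ Module.finrank K L) : L ≃ₐ[K] L) x) = _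
    rw [h1]
    rfl
  exact ⟨{ (g ^ Module.finrank K L) with commutes' := h2 }, rfl⟩

end

end H55T3
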