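import Pool.Agent.H55.T3.Hi
import Pool.Agent.H55.T3.Bc

/-!
Row Lo (about 150 lines): local solubility from local triviality.

PROOF of loc_gen. S, A, B := images of s, a, b in Ω; T τ := act h τ P - P, Kr (T τ).
 Case Kr P: ee (T τ) = ee (act h τ P) (ee P)⁻¹ (ee_add, ee_neg) = τ (ee P)/ee P (ee_pm), so τ (r/ee P) = r/ee P for all τ: r/ee P = algebraMap t (fixed elements are in F: InfiniteGalois.mem_bot_iff_fixed / H10/Bridge3), t^3 = d as ee P ^3 = 1.
 Case not Kr P: act h τ P = P + T τ. w := ww P, u := uu P: uu_pm with φ = τ: τ w = ww (act h τ P) = ee (T τ) w, ee (T τ) τ u = u (uu_trans). So w/r and u r are fixed: w = r V, u = U/r with V, U ∈ F. eq_uw: w^3 - u^3 = S (6 A u w + 2 c): r^3 V^3 - U^3/r^3 = S (6 A U V + 2 c); multiply by r^3 = d: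
 d^2 V^3 - U^3 = d S (6 A U V + 2 c) in Ω, hence in F (injectivity of algebraMap).
PROOF of loc3 (compare Pool/Agent/H73/IS/Loc.lean). One place v, F := v.adicCompletion L (CharZero, charZero_of_alg in H10/Func6), ΩF := AlgebraicClosure F. Take ι : L^al →ₐ[L] ΩF (IsAlgClosed.lift); TrivAt from isLocTriv_iff (H10/Func4): P with pm ι (f σ) = act τ P - P whenever
 τ (ι x) = ι (σ x) for all x. For every τ such a σ exists (exists_restrict, H10/Sha.lean). loc_gen for E := V.baseChange ΩF, h := inv_bc' V, r := ι r: τ (ι r) = ι (σ r) = ι (ee (f σ)) ι r = ee (pm ι (f σ)) ι r (ee_pm) = ee (act τ P - P) ι r; Kr by kr_pm.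
 hE for ΩF: Is3.bc and algebraMap L ΩF = algebraMap F ΩF ∘ algebraMap L F.
-/

set_option autoImplicit false
open scoped Classical

open WeierstrassCurve IsDedekindDomain NumberField Pool.Agent.H10

namespace H55T3

theorem loc_gen {F Ω : Type*} [Field F] [Field Ω] [Algebra F Ω] [IsGalois F Ω]
    {E : WeierstrassCurve Ω} {D a b s : F}
    (hE : Is3 E (algebraMap F Ω D) (algebraMap F Ω a) (algebraMap F Ω b)) (hs : s ^ 2 = D)
    (h : Inv F E) {P : E.toAffine.Point} (hP : ∀ τ : Ω ≃ₐ[F] Ω, Kr (act h τ P - P))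
    {r : Ω} {d : F} (hr : r ≠ 0) (hd : r ^ 3 = algebraMap F Ω d)
    (hr' : ∀ τ : Ω ≃ₐ[F] Ω, τ r = ee (algebraMap F Ω s) (algebraMap F Ω b) (act h τ P - P) * r) :
    LocSol s a (9 * b + 4 * D * a ^ 3) d := by
  have hs' : (algebraMap F Ω s) ^ 2 = algebraMap F Ω D := by rw [← map_pow, hs]
  have hne : ∀ τ : Ω ≃ₐ[F] Ω, ee (algebraMap F Ω s) (algebraMap F Ω b) (act h τ P - P) ≠ 0 := by
    intro τ h0
    have h1 := ee_cube hE hs' (hP τ)
    rw [h0] at h1
    norm_num at h1
  by_cases hK : Kr P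
  · left
    obtain ⟨z, hz⟩ : ∃ z, z = ee (algebraMap F Ω s) (algebraMap F Ω b) P := ⟨_, rfl⟩
    have hz3 : z ^ 3 = 1 := by rw [hz]; exact ee_cube hE hs' hK
    have hz0 : z ≠ 0 := by
      intro h0
      rw [h0] at hz3
      norm_num at hz3
    have h1 : ∀ τ : Ω ≃ₐ[F] Ω, ee (algebraMap F Ω s) (algebraMap F Ω b) (act h τ P - P) =
        τ z * z⁻¹ := by
      intro τ
      have h2 : ee (algebraMap F Ω s) (algebraMap F Ω b) (act h τ P) = τ z := by
        have h3 := ee_pm (s := algebraMap F Ω s) (b := algebraMap F Ω b)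
          (φ := (τ : Ω →+* Ω)) (h τ) P
        have e1 : (τ : Ω →+* Ω) (algebraMap F Ω s) = algebraMap F Ω s := τ.commutes s
        have e2 : (τ : Ω →+* Ω) (algebraMap F Ω b) = algebraMap F Ω b := τ.commutes b
        rw [e1, e2, ← hz] at h3
        exact h3
      have h4 : Kr (act h τ P) := (kr_pm (h τ) P).2 hK
      rw [sub_eq_add_neg, ee_add hE hs' h4 (kr_neg.2 hK), ee_neg hE hs' hK, h2, ← hz]
    obtain ⟨t, ht⟩ := fixed_of_galois (k := F) (r / z) (fun τ => by
      have hτz : τ z ≠ 0 := (map_ne_zero_iff τ τ.injective).2 hz0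
      rw [map_div₀, hr', h1]
      field_simp)
    refine ⟨t, ?_⟩
    apply (algebraMap F Ω).injective
    rw [map_pow, ht, div_pow, hz3, div_one, hd]
  · right
    obtain ⟨u, hu⟩ : ∃ u, u = uu (algebraMap F Ω s) (algebraMap F Ω a) (algebraMap F Ω b) P :=
      ⟨_, rfl⟩
    obtain ⟨w, hw⟩ : ∃ w, w = ww (algebraMap F Ω s) (algebraMap F Ω a) (algebraMap F Ω b) P :=
      ⟨_, rfl⟩
    have key : ∀ τ : Ω ≃ₐ[F] Ω,
        ee (algebraMap F Ω s) (algebraMap F Ω b) (act h τ P - P) * τ u = u ∧
        τ w = ee (algebraMap F Ω s) (algebraMap F Ω b) (act h τ P - P) * w := by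
      intro τ
      obtain ⟨-, h1, h2⟩ := uu_trans hE hs' hK (hP τ)
      rw [add_sub_cancel, ← hu] at h1
      rw [add_sub_cancel, ← hw] at h2
      obtain ⟨h3, h4⟩ := uu_pm (s := algebraMap F Ω s) (a := algebraMap F Ω a)
        (b := algebraMap F Ω b) (φ := (τ : Ω →+* Ω)) (h τ) P
      have e1 : (τ : Ω →+* Ω) (algebraMap F Ω s) = algebraMap F Ω s := τ.commutes s
      have e2 : (τ : Ω →+* Ω) (algebraMap F Ω b) = algebraMap F Ω b := τ.commutes b
      have e3 : (τ : Ω →+* Ω) (algebraMap F Ω a) = algebraMap F Ω a := τ.commutes a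
      rw [e1, e2, e3] at h3 h4
      rw [← hu] at h3
      rw [← hw] at h4
      constructor
      · refine Eq.trans ?_ h1
        congr 1
        exact h3.symm
      · refine Eq.trans ?_ h2
        exact h4.symm
    obtain ⟨V, hV⟩ := fixed_of_galois (k := F) (w / r) (fun τ => by
      have h0 := hne τ
      rw [map_div₀, hr', (key τ).2]
      field_simp)
    obtain ⟨U, hU⟩ := fixed_of_galois (k := F) (u * r) (fun τ => by
      have h0 := (key τ).1
      rw [map_mul, hr']
      linear_combination r * h0)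
    refine ⟨U, V, ?_⟩
    have h5 := eq_uw hE hs' hK
    rw [← hu, ← hw] at h5
    apply (algebraMap F Ω).injective
    simp only [map_sub, map_mul, map_pow, map_add, map_ofNat, hU, hV]
    rw [← hd]
    have h6 : (r ^ 3) ^ 2 * (w / r) ^ 3 = r ^ 3 * w ^ 3 := by
      field_simp
    have h7 : 6 * algebraMap F Ω a * (u * r) * (w / r) = 6 * algebraMap F Ω a * u * w := by
      field_simp
    rw [h6, h7]
    linear_combination r ^ 3 * h5

theorem Lo_one {L : Type} [Field L] [NumberField L] {V : WeierstrassCurve L} {D a b s : L}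
    (h : Is3 V D a b) (hs : s ^ 2 = D) {F : Type} [Field F] [Algebra L F] {f : Coch L V}
    (ι : AlgebraicClosure L →ₐ[L] AlgebraicClosure F)
    (hT : TrivAt (F := F) (inv_bc' V) (ι : AlgebraicClosure L →+* AlgebraicClosure F)
      (map_bc V ι) f) (hk : ∀ σ, Kr (f σ))
    {r : AlgebraicClosure L} {d : L} (hr : r ≠ 0) (hd : r ^ 3 = algebraMap L (AlgebraicClosure L) d)
    (hr' : ∀ σ : AlgebraicClosure L ≃ₐ[L] AlgebraicClosure L,
      σ r = ee (algebraMap L (AlgebraicClosure L) s) (algebraMap L (AlgebraicClosure L) b) (f σ) * r) :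
    LocSol (algebraMap L F s) (algebraMap L F a) (algebraMap L F (9 * b + 4 * D * a ^ 3))
      (algebraMap L F d) := by
  obtain ⟨P, hP⟩ := hT
  have hch : CharZero F := charZero_of_alg (K := L)
  have hE : Is3 (V.baseChange (AlgebraicClosure F))
      (algebraMap F (AlgebraicClosure F) (algebraMap L F D))
      (algebraMap F (AlgebraicClosure F) (algebraMap L F a))
      (algebraMap F (AlgebraicClosure F) (algebraMap L F b)) := by
    have h1 := h.bc (AlgebraicClosure F)
    rw [IsScalarTower.algebraMap_apply L F (AlgebraicClosure F) D,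
      IsScalarTower.algebraMap_apply L F (AlgebraicClosure F) a,
      IsScalarTower.algebraMap_apply L F (AlgebraicClosure F) b] at h1
    exact h1
  have hres : ∀ τ : AlgebraicClosure F ≃ₐ[F] AlgebraicClosure F,
      ∃ σ : AlgebraicClosure L ≃ₐ[L] AlgebraicClosure L, ∀ x, τ (ι x) = ι (σ x) := by
    intro τ
    obtain ⟨σ, hσ⟩ := exists_restrict (K := L) (F := F) ι τ
    refine ⟨σ, fun x => ?_⟩
    exact congrArg (fun φ : AlgebraicClosure L →ₐ[L] AlgebraicClosure F => φ x) hσ
  have e1 : algebraMap L F (9 * b + 4 * D * a ^ 3) =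
      9 * algebraMap L F b + 4 * algebraMap L F D * algebraMap L F a ^ 3 := by
    simp only [map_add, map_mul, map_pow, map_ofNat]
  rw [e1]
  have hιr : ι r ≠ 0 := by
    intro h0
    exact hr ((map_eq_zero_iff ι ι.injective).1 h0)
  have hs2 : (algebraMap L F s) ^ 2 = algebraMap L F D := by rw [← map_pow, hs]
  refine loc_gen (F := F) (Ω := AlgebraicClosure F) hE hs2 (inv_bc' V) (P := P) (r := ι r) ?_ hιr ?_ ?_
  · intro τ
    obtain ⟨σ, hσ⟩ := hres τ
    rw [← hP τ σ hσ, kr_pm]
    exact hk σ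
  · rw [← map_pow, hd, ι.commutes, IsScalarTower.algebraMap_apply L F (AlgebraicClosure F)]
  · intro τ
    obtain ⟨σ, hσ⟩ := hres τ
    rw [← hP τ σ hσ, hσ, hr', map_mul]
    congr 1
    have h2 := ee_pm (s := algebraMap L (AlgebraicClosure L) s)
      (b := algebraMap L (AlgebraicClosure L) b)
      (φ := (ι : AlgebraicClosure L →+* AlgebraicClosure F)) (map_bc V ι) (f σ)
    have e2 : (ι : AlgebraicClosure L →+* AlgebraicClosure F)
        (algebraMap L (AlgebraicClosure L) s) =
        algebraMap F (AlgebraicClosure F) (algebraMap L F s) := by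
      rw [← IsScalarTower.algebraMap_apply L F (AlgebraicClosure F)]
      exact ι.commutes s
    have e3 : (ι : AlgebraicClosure L →+* AlgebraicClosure F)
        (algebraMap L (AlgebraicClosure L) b) =
        algebraMap F (AlgebraicClosure F) (algebraMap L F b) := by
      rw [← IsScalarTower.algebraMap_apply L F (AlgebraicClosure F)]
      exact ι.commutes b
    rw [e2, e3] at h2
    exact h2.symm

theorem loc3 {L : Type} [Field L] [NumberField L] {V : WeierstrassCurve L} {D a b s : L}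
    (h : Is3 V D a b) (hs : s ^ 2 = D) {f : Coch L V} (hl : IsLocTriv L V f) (hk : ∀ σ, Kr (f σ))
    {r : AlgebraicClosure L} {d : L} (hr : r ≠ 0) (hd : r ^ 3 = algebraMap L (AlgebraicClosure L) d)
    (hr' : ∀ σ : AlgebraicClosure L ≃ₐ[L] AlgebraicClosure L,
      σ r = ee (algebraMap L (AlgebraicClosure L) s) (algebraMap L (AlgebraicClosure L) b) (f σ) * r) :
    FinSol3 L s a (9 * b + 4 * D * a ^ 3) d := by
  rw [isLocTriv_iff] at hl
  intro v
  have hch : CharZero (v.adicCompletion L) := charZero_of_alg (K := L)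
  obtain ⟨ι⟩ : Nonempty (AlgebraicClosure L →ₐ[L] AlgebraicClosure (v.adicCompletion L)) :=
    ⟨IsAlgClosed.lift⟩
  exact Lo_one h hs ι (hl.1 v ι) hk hr hd hr'

end H55T3
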