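import Pool.Agent.H55.T3.Df

/-!
Row Is (about 120 lines): elementary properties of `Is3`, of the isogeny formulas and of the kernel.

PROOF.
isElliptic: Δ = -2^4 * 3^3 * D^2 * b^3 * (9 b + 4 D a^3) (unfold Δ, b₂, b₄, b₆, b₈, rewrite the coefficients, ring), nonzero.
up: map the coefficients (W.map φ = W₁ gives W₁.a₂ = φ W.a₂ ...), φ injective.
dual: (-3 D, a, dl D a b): `c` of the dual is 9 * dl + 4 (-3 D) a^3 = 3 (9 b + 4 D a^3) - 12 D a^3 = 27 b ≠ 0; field_simp. dl_dual: dl (-3 D) a (dl D a b) = 9 b.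
ker_eq: x = 0 in the equation y^2 = x^3 - 3 D (a x + b)^2.
img_eq: for x ≠ 0 on the curve, Y^2 = X^3 - 3 (-3 D) (a X + dl)^2 with X = psX, Y = psY: field_simp, then substitute y^2 = x^3 - 3 D (a x + b)^2 (linear_combination (coefficient) * (curve equation) after clearing denominators: Y^2 = y^2 (x^3 + 12 D a b x + 24 D b^2)^2/x^6).
 img_nonsing: `Affine.equation_iff_nonsingular` (W' is elliptic).
psF_zero, psF_kr, psF_some: unfold psF, dif_pos / dif_neg.
psF_neg: -(x, y) = (x, -y), psY (-y) = - psY y.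
kr_iff_psF: psF P = 0 iff Kr P.
psF_pm: psX, psY commute with the ring homomorphism φ (map_div₀ ...), φ x = 0 iff x = 0.
kr_pm, kr_neg clear. ofW: W = ⟨0, -3 D a^2, 0, -6 D a b, -3 D b^2⟩.
-/

set_option autoImplicit false
open scoped Classical

open WeierstrassCurve Pool.Agent.H10

namespace H55T3

variable {k k' : Type*} [Field k] [Field k'] {W W' : WeierstrassCurve k} {D a b : k}

theorem Is3.isElliptic (h : Is3 W D a b) : W.IsElliptic := by
  refine ⟨isUnit_iff_ne_zero.2 ?_⟩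
  have h1 : W.Δ = -(2 ^ 4 * 3 ^ 3 * D ^ 2 * b ^ 3 * (9 * b + 4 * D * a ^ 3)) := by
    simp only [WeierstrassCurve.Δ, WeierstrassCurve.b₂, WeierstrassCurve.b₄, WeierstrassCurve.b₆,
      WeierstrassCurve.b₈, h.a₁, h.a₂, h.a₃, h.a₄, h.a₆]
    ring
  rw [h1]
  exact neg_ne_zero.2 (mul_ne_zero (mul_ne_zero (mul_ne_zero (mul_ne_zero (pow_ne_zero _ h.two)
    (pow_ne_zero _ h.three)) (pow_ne_zero _ h.hD)) (pow_ne_zero _ h.hb)) h.hc)

theorem Is3.up (h : Is3 W D a b) {φ : k →+* k'} {W₁ : WeierstrassCurve k'} (hW : W.map φ = W₁) :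
    Is3 W₁ (φ D) (φ a) (φ b) := by
  subst hW
  refine ⟨?_, ?_, ?_, ?_, ?_, ?_, ?_, ?_, ?_, ?_⟩
  · rw [WeierstrassCurve.map_a₁, h.a₁, map_zero]
  · rw [WeierstrassCurve.map_a₂, h.a₂]; simp only [map_mul, map_neg, map_pow, map_ofNat]
  · rw [WeierstrassCurve.map_a₃, h.a₃, map_zero]
  · rw [WeierstrassCurve.map_a₄, h.a₄]; simp only [map_mul, map_neg, map_ofNat]
  · rw [WeierstrassCurve.map_a₆, h.a₆]; simp only [map_mul, map_neg, map_pow, map_ofNat]
  · exact (map_ne_zero φ).2 h.hD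
  · exact (map_ne_zero φ).2 h.hb
  · have h1 := (map_ne_zero φ).2 h.hc
    simpa only [map_add, map_mul, map_pow, map_ofNat] using h1
  · have h1 := (map_ne_zero φ).2 h.two
    simpa only [map_ofNat] using h1
  · have h1 := (map_ne_zero φ).2 h.three
    simpa only [map_ofNat] using h1

theorem dl_ne (h : Is3 W D a b) : dl D a b ≠ 0 := by
  exact div_ne_zero h.hc h.three

theorem dl_map (φ : k →+* k') (D a b : k) : φ (dl D a b) = dl (φ D) (φ a) (φ b) := by
  simp only [dl, map_div₀, map_add, map_mul, map_pow, map_ofNat]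

/-- `3 * dl D a b = c` and the `c` of the dual is `27 b` -/
theorem dl_facts (h3 : (3 : k) ≠ 0) (D a b : k) : 3 * dl D a b = 9 * b + 4 * D * a ^ 3 ∧
    9 * dl D a b + 4 * (-3 * D) * a ^ 3 = 27 * b ∧ dl (-3 * D) a (dl D a b) = 9 * b := by
  have h1 : 3 * dl D a b = 9 * b + 4 * D * a ^ 3 := by
    rw [dl, mul_div_cancel₀ _ h3]
  refine ⟨h1, ?_, ?_⟩
  · linear_combination 3 * h1
  · have h2 : (9 * dl D a b + 4 * (-3 * D) * a ^ 3) = 3 * (9 * b) := by
      linear_combination 3 * h1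
    rw [dl, h2, mul_div_cancel_left₀ _ h3]

/-- Existence of the dual curve. -/
theorem Is3.dual (h : Is3 W D a b) : Is3 (⟨0, -3 * (-3 * D) * a ^ 2, 0, -6 * (-3 * D) * a * dl D a b,
    -3 * (-3 * D) * dl D a b ^ 2⟩ : WeierstrassCurve k) (-3 * D) a (dl D a b) := by
  obtain ⟨-, h2, -⟩ := dl_facts h.three D a b
  refine ⟨rfl, rfl, rfl, rfl, rfl, ?_, dl_ne h, ?_, h.two, h.three⟩
  · exact mul_ne_zero (neg_ne_zero.2 h.three) h.hD
  · rw [h2]
    have h27 : (27 : k) = 3 ^ 3 := by norm_num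
    rw [h27]
    exact mul_ne_zero (pow_ne_zero _ h.three) h.hb

theorem Is3.eqn (h : Is3 W D a b) {x y : k} (n : W.toAffine.Nonsingular x y) :
    y ^ 2 = x ^ 3 - 3 * D * (a * x + b) ^ 2 := by
  have h1 := (Affine.equation_iff x y).1 n.1
  rw [h.a₁, h.a₂, h.a₃, h.a₄, h.a₆] at h1
  linear_combination h1

theorem img_eq (h : Is3 W D a b) (h' : Is3 W' (-3 * D) a (dl D a b)) {x y : k}
    (n : W.toAffine.Nonsingular x y) (hx : x ≠ 0) :
    W'.toAffine.Nonsingular (psX D a b x) (psY D a b x y) := by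
  haveI := h'.isElliptic
  rw [← Affine.equation_iff_nonsingular, Affine.equation_iff, h'.a₁, h'.a₂, h'.a₃, h'.a₄, h'.a₆]
  obtain ⟨h3, -⟩ := dl_facts h.three D a b
  have he := h.eqn n
  have hX : psX D a b x = (x ^ 3 - 4 * D * a ^ 2 * x ^ 2 - 12 * D * a * b * x - 12 * D * b ^ 2) / x ^ 2 := by
    rw [psX]
    field_simp
  have hg : psY D a b x y ^ 2 = psX D a b x ^ 3 +
      D * (3 * a * psX D a b x + (9 * b + 4 * D * a ^ 3)) ^ 2 := by
    rw [hX, psY, div_pow, mul_pow, he]
    field_simp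
    ring
  linear_combination hg + D * (3 * a * psX D a b x + (9 * b + 4 * D * a ^ 3) + (3 * a * psX D a b x + 3 * dl D a b)) * (-h3)

theorem psF_zero : psF W W' D a b 0 = 0 := by
  rfl

theorem psF_kr {P : W.toAffine.Point} (hP : Kr P) : psF W W' D a b P = 0 := by
  match P, hP with
  | 0, _ => rfl
  | .some x y n, hP =>
    have hx : x = 0 := hP
    exact dif_neg (fun h => h.1 hx)

theorem psF_some (h : Is3 W D a b) (h' : Is3 W' (-3 * D) a (dl D a b)) {x y : k}
    (n : W.toAffine.Nonsingular x y) (hx : x ≠ 0) : psF W W' D a b (.some x y n) =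
      .some (psX D a b x) (psY D a b x y) (img_eq h h' n hx) := by
  exact dif_pos ⟨hx, img_eq h h' n hx⟩

theorem psF_eq_zero (h : Is3 W D a b) (h' : Is3 W' (-3 * D) a (dl D a b)) {P : W.toAffine.Point} :
    psF W W' D a b P = 0 ↔ Kr P := by
  refine ⟨fun hP => ?_, psF_kr⟩
  match P, hP with
  | 0, _ => exact True.intro
  | .some x y n, hP =>
    by_contra hx
    have hx' : x ≠ 0 := hx
    rw [psF_some h h' n hx'] at hP
    exact Affine.Point.some_ne_zero _ hP

theorem psF_neg (h : Is3 W D a b) (h' : Is3 W' (-3 * D) a (dl D a b)) (P : W.toAffine.Point) :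
    psF W W' D a b (-P) = - psF W W' D a b P := by
  match P with
  | 0 =>
    change psF W W' D a b (-0) = - psF W W' D a b 0
    rw [neg_zero, psF_zero, neg_zero]
  | .some x y n =>
    by_cases hx : x = 0
    · have h1 : Kr (Affine.Point.some x y n) := hx
      have h2 : Kr (-(Affine.Point.some x y n)) := by
        rw [Affine.Point.neg_some]
        exact hx
      rw [psF_kr h1, psF_kr h2, neg_zero]
    · rw [Affine.Point.neg_some, psF_some h h' _ hx, psF_some h h' _ hx, Affine.Point.neg_some,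
        Affine.Point.some.injEq]
      refine ⟨rfl, ?_⟩
      rw [Affine.negY, Affine.negY, h.a₁, h.a₃, h'.a₁, h'.a₃, psY, psY]
      ring

theorem kr_zero : Kr (0 : W.toAffine.Point) := by
  exact True.intro

theorem kr_some {x y : k} (n : W.toAffine.Nonsingular x y) :
    Kr (Affine.Point.some x y n) ↔ x = 0 := by
  exact Iff.rfl

theorem kr_neg {P : W.toAffine.Point} : Kr (-P) ↔ Kr P := by
  match P with
  | 0 =>
    change Kr (-(0 : W.toAffine.Point)) ↔ Kr (0 : W.toAffine.Point)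
    rw [neg_zero]
  | .some x y n =>
    rw [Affine.Point.neg_some]
    exact Iff.rfl

theorem kr_pm {φ : k →+* k'} {W₁ : WeierstrassCurve k'} (hW : W.map φ = W₁) (P : W.toAffine.Point) :
    Kr (pm φ hW P) ↔ Kr P := by
  match P with
  | 0 =>
    change Kr (pm φ hW 0) ↔ Kr (0 : W.toAffine.Point)
    rw [map_zero]
    exact ⟨fun _ => True.intro, fun _ => True.intro⟩
  | .some x y n =>
    change φ x = 0 ↔ x = 0
    exact map_eq_zero φ

theorem psF_pm (h : Is3 W D a b) (h' : Is3 W' (-3 * D) a (dl D a b)) {φ : k →+* k'}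
    {W₁ W₁' : WeierstrassCurve k'} (hW : W.map φ = W₁) (hW' : W'.map φ = W₁') (P : W.toAffine.Point) :
    pm φ hW' (psF W W' D a b P) = psF W₁ W₁' (φ D) (φ a) (φ b) (pm φ hW P) := by
  have hup := h.up hW
  have hup' : Is3 W₁' (-3 * φ D) (φ a) (dl (φ D) (φ a) (φ b)) := by
    have h1 := h'.up hW'
    rw [dl_map] at h1
    simpa only [map_mul, map_neg, map_ofNat] using h1
  match P with
  | 0 =>
    change pm φ hW' (psF W W' D a b 0) = psF W₁ W₁' (φ D) (φ a) (φ b) (pm φ hW 0)
    rw [psF_zero, map_zero, map_zero, psF_zero]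
  | .some x y n =>
    by_cases hx : x = 0
    · have h1 : Kr (Affine.Point.some x y n) := hx
      have h2 : Kr (pm φ hW (Affine.Point.some x y n)) := (kr_pm hW _).2 h1
      rw [psF_kr h1, psF_kr h2, map_zero]
    · have hx' : φ x ≠ 0 := (map_ne_zero φ).2 hx
      rw [psF_some h h' n hx]
      change Affine.Point.some (φ (psX D a b x)) (φ (psY D a b x y)) _ =
        psF W₁ W₁' (φ D) (φ a) (φ b) (Affine.Point.some (φ x) (φ y) _)
      rw [psF_some hup hup' _ hx', Affine.Point.some.injEq]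
      constructor
      · simp only [psX, map_sub, map_div₀, map_mul, map_pow, map_ofNat]
      · simp only [psY, map_add, map_div₀, map_mul, map_pow, map_ofNat]

end H55T3
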