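import Pool.Agent.H55.T3.Ln
import Pool.Agent.H55.T3.Is

/-!
Row PsH (about 150 lines): the isogeny is additive. The identities `on_line`, `sum1`, `sum2`, `sum3` are proved below.

PROOF of psF_add. If P = 0 or Q = 0 clear (psF_zero). Else R := -(P + Q). If R = 0, Q = -P and psF_neg. So P = (x1, y1), Q = (x2, y2), R = (x3, y3), P + Q + R = 0. It is enough to show psF P + psF Q + psF R = 0 (then psF P + psF Q = -psF R = psF (P + Q), psF_neg).
 exists_line: l, m with y_i = l x_i + m and (coefficients of W) e1: x1 + x2 + x3 = l^2 + 3 D a^2, e2: Σ xi xj = -6 D a b - 2 l m, e3: x1 x2 x3 = m^2 + 3 D b^2 =: E.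
 (i) all xi ≠ 0: E ≠ 0. psF_some three times and line_sum for W' (a₂' = 9 D a^2, a₄' = 18 D a dl, a₆' = 9 D dl^2: from Is3 W' (-3 D) a dl) with the line L = lam, M = mu: on_line, sum1, sum2, sum3.
 (ii) exactly one is zero, say x1 = 0 (the statement psF P + psF Q + psF R = 0 and the hypothesis are symmetric; write a lemma for x1 = 0 ≠ x2, x3 and permute): E = 0, x2 + x3 = l^2 + 3 D a^2, x2 x3 = -6 D a b - 2 l m, m^2 = -3 D b^2 (m ≠ 0). psF P = 0 (psF_kr). Need psF Q = -psF R: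
   psX x2 = psX x3: psX x2 - psX x3 = (x2 - x3) (1 + 12 D a b/(x2 x3) + 12 D b^2 (x2 + x3)/(x2 x3)^2) and (x2 x3)^2 + 12 D a b (x2 x3) + 12 D b^2 (x2 + x3) = 4 l^2 m^2 + 12 D b^2 l^2 + ... = 0 by the relations (linear_combination).
   psY x2 (l x2 + m) + psY x3 (l x3 + m) = 0: it is l (x2 + x3) + 2 m + 12 D a b (2 l + m (x2+x3)/(x2 x3))/... ; write it with S = x2 + x3, q = x2 x3: psY x y = y (1 + 12 D a b / x^2 + 24 D b^2/x^3), so the sum is
     l S + 2 m + 12 D a b (l S/q + m (S^2 - 2 q)/q^2) + 24 D b^2 (l (S^2 - 2 q)/q^2 + m (S^3 - 3 S q)/q^3); multiply by q^3, put S = l^2 + 3 D a^2, q = -6 D a b - 2 l m: it is a multiple of m^2 + 3 D b^2 (`trans_id` below).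
 (iii) two of them are zero, say x1 = x2 = 0: then e2: 0 = -6 D a b - 2 l m, e3: m^2 = -3 D b^2, so l^2 m^2 = 9 D^2 a^2 b^2 = -3 D b^2 l^2, l^2 = -3 D a^2, x3 = l^2 + 3 D a^2 = 0. So all three are in the kernel, all psF are 0.
-/

set_option autoImplicit false
open scoped Classical

open WeierstrassCurve Pool.Agent.H10

namespace H55T3

variable {k : Type*} [Field k] {W W' : WeierstrassCurve k} {D a b : k}

/-- slope of the image line -/
noncomputable def lam (D a b l m : k) : k :=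
  (l * (m ^ 2 - 9 * D * b ^ 2) + 12 * a * D * b * m) / (m ^ 2 + 3 * D * b ^ 2)

/-- intercept of the image line -/
noncomputable def mu (D a b l m : k) : k :=
  (4 * D * (3 * b * l - a * m) ^ 3 + (9 * b + 4 * D * a ^ 3) * m * (m ^ 2 + 27 * D * b ^ 2)) /
    (9 * b * (m ^ 2 + 3 * D * b ^ 2))

lemma nine_ne (h3 : (3 : k) ≠ 0) : (9 : k) ≠ 0 := by
  have : (9 : k) = 3 * 3 := by norm_num
  rw [this]
  exact mul_ne_zero h3 h3

lemma on_line (h3 : (3 : k) ≠ 0) {x l m : k} (hb : b ≠ 0) (he : m ^ 2 + 3 * D * b ^ 2 ≠ 0)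
    (hx : x ≠ 0) (hy : (l * x + m) ^ 2 = x ^ 3 - 3 * D * (a * x + b) ^ 2) :
    psY D a b x (l * x + m) = lam D a b l m * psX D a b x + mu D a b l m := by
  have h9 := nine_ne h3
  have key : 9 * b * (m ^ 2 + 3 * D * b ^ 2) * (l * x + m) *
      (x ^ 3 + 12 * D * a * b * x + 24 * D * b ^ 2) -
      9 * b * (l * (m ^ 2 - 9 * D * b ^ 2) + 12 * a * D * b * m) * x *
        (x ^ 3 - 4 * D * a ^ 2 * x ^ 2 - 12 * D * a * b * x - 12 * D * b ^ 2) -
      (4 * D * (3 * b * l - a * m) ^ 3 + (9 * b + 4 * D * a ^ 3) * m * (m ^ 2 + 27 * D * b ^ 2)) *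
        x ^ 3 = 0 := by
    linear_combination (-(108 * D * b ^ 2 * (b * l - a * m) * x - 216 * D * b ^ 3 * m)) * hy
  unfold psY psX lam mu
  generalize hE : m ^ 2 + 3 * D * b ^ 2 = E at he key ⊢
  field_simp
  linear_combination key

lemma sum1 {x1 x2 x3 l m : k} (he : m ^ 2 + 3 * D * b ^ 2 ≠ 0) (h1 : x1 ≠ 0) (h2 : x2 ≠ 0)
    (h3' : x3 ≠ 0) (e1 : x1 + x2 + x3 = l ^ 2 + 3 * D * a ^ 2)
    (e2 : x1 * x2 + x1 * x3 + x2 * x3 = -6 * D * a * b - 2 * l * m)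
    (e3 : x1 * x2 * x3 = m ^ 2 + 3 * D * b ^ 2) :
    psX D a b x1 + psX D a b x2 + psX D a b x3 = lam D a b l m ^ 2 - 9 * D * a ^ 2 := by
  have h : psX D a b x1 + psX D a b x2 + psX D a b x3 = (x1 + x2 + x3) - 12 * D * a ^ 2 -
      12 * D * a * b * (x1 * x2 + x1 * x3 + x2 * x3) / (x1 * x2 * x3) -
      12 * D * b ^ 2 * ((x1 * x2 + x1 * x3 + x2 * x3) ^ 2 - 2 * (x1 + x2 + x3) * (x1 * x2 * x3)) /
        (x1 * x2 * x3) ^ 2 := by
    unfold psX
    field_simp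
    ring
  rw [h, e1, e2, e3]
  unfold lam
  field_simp
  ring

lemma sum2 {x1 x2 x3 l m : k} (h3 : (3 : k) ≠ 0) (hb : b ≠ 0) (he : m ^ 2 + 3 * D * b ^ 2 ≠ 0)
    (h1 : x1 ≠ 0) (h2 : x2 ≠ 0) (h3' : x3 ≠ 0) (e1 : x1 + x2 + x3 = l ^ 2 + 3 * D * a ^ 2)
    (e2 : x1 * x2 + x1 * x3 + x2 * x3 = -6 * D * a * b - 2 * l * m)
    (e3 : x1 * x2 * x3 = m ^ 2 + 3 * D * b ^ 2) :
    psX D a b x1 * psX D a b x2 + psX D a b x1 * psX D a b x3 + psX D a b x2 * psX D a b x3 =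
      18 * D * a * dl D a b - 2 * lam D a b l m * mu D a b l m := by
  have h : psX D a b x1 * psX D a b x2 + psX D a b x1 * psX D a b x3 +
      psX D a b x2 * psX D a b x3 = (x1 * x2 + x1 * x3 + x2 * x3) -
      2 * (4 * D * a ^ 2) * (x1 + x2 + x3) -
      (12 * D * a * b) * ((x1 + x2 + x3) * (x1 * x2 + x1 * x3 + x2 * x3) / (x1 * x2 * x3) - 3) -
      (12 * D * b ^ 2) * ((x1 + x2 + x3) *
        ((x1 * x2 + x1 * x3 + x2 * x3) ^ 2 - 2 * (x1 + x2 + x3) * (x1 * x2 * x3)) /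
          (x1 * x2 * x3) ^ 2 - (x1 * x2 + x1 * x3 + x2 * x3) / (x1 * x2 * x3)) +
      3 * (4 * D * a ^ 2) ^ 2 +
      2 * (4 * D * a ^ 2) * (12 * D * a * b) * (x1 * x2 + x1 * x3 + x2 * x3) / (x1 * x2 * x3) +
      2 * (4 * D * a ^ 2) * (12 * D * b ^ 2) *
        ((x1 * x2 + x1 * x3 + x2 * x3) ^ 2 - 2 * (x1 + x2 + x3) * (x1 * x2 * x3)) /
          (x1 * x2 * x3) ^ 2 +
      (12 * D * a * b) ^ 2 * (x1 + x2 + x3) / (x1 * x2 * x3) +
      (12 * D * a * b) * (12 * D * b ^ 2) *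
        ((x1 + x2 + x3) * (x1 * x2 + x1 * x3 + x2 * x3) - 3 * (x1 * x2 * x3)) /
          (x1 * x2 * x3) ^ 2 +
      (12 * D * b ^ 2) ^ 2 * ((x1 + x2 + x3) ^ 2 - 2 * (x1 * x2 + x1 * x3 + x2 * x3)) /
        (x1 * x2 * x3) ^ 2 := by
    unfold psX
    field_simp
    ring
  rw [h, e1, e2, e3]
  have h9 := nine_ne h3
  unfold dl lam mu
  clear h e1 e2 e3
  generalize hE : m ^ 2 + 3 * D * b ^ 2 = E at he ⊢
  field_simp
  rw [← hE]
  ring

lemma sum3 {x1 x2 x3 l m : k} (h3 : (3 : k) ≠ 0) (hb : b ≠ 0) (he : m ^ 2 + 3 * D * b ^ 2 ≠ 0)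
    (h1 : x1 ≠ 0) (h2 : x2 ≠ 0) (h3' : x3 ≠ 0) (e1 : x1 + x2 + x3 = l ^ 2 + 3 * D * a ^ 2)
    (e2 : x1 * x2 + x1 * x3 + x2 * x3 = -6 * D * a * b - 2 * l * m)
    (e3 : x1 * x2 * x3 = m ^ 2 + 3 * D * b ^ 2) :
    psX D a b x1 * psX D a b x2 * psX D a b x3 =
      mu D a b l m ^ 2 - 9 * D * (dl D a b) ^ 2 := by
  have hN : ∀ x : k, x ≠ 0 → psX D a b x =
      (x ^ 3 - (4 * D * a ^ 2) * x ^ 2 - (12 * D * a * b) * x - (12 * D * b ^ 2)) / x ^ 2 := by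
    intro x hx
    unfold psX
    field_simp
  have key : ∀ al be ga y1 y2 y3 : k,
      (al * y1 ^ 2 - be * y1 + ga) * (al * y2 ^ 2 - be * y2 + ga) * (al * y3 ^ 2 - be * y3 + ga) =
      al ^ 3 * (y1 * y2 * y3) ^ 2 - al ^ 2 * be * (y1 * y2 * y3) * (y1 * y2 + y1 * y3 + y2 * y3) +
      al ^ 2 * ga * ((y1 * y2 + y1 * y3 + y2 * y3) ^ 2 - 2 * (y1 + y2 + y3) * (y1 * y2 * y3)) +
      al * be ^ 2 * (y1 * y2 * y3) * (y1 + y2 + y3) -
      al * be * ga * ((y1 + y2 + y3) * (y1 * y2 + y1 * y3 + y2 * y3) - 3 * (y1 * y2 * y3)) +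
      al * ga ^ 2 * ((y1 + y2 + y3) ^ 2 - 2 * (y1 * y2 + y1 * y3 + y2 * y3)) -
      be ^ 3 * (y1 * y2 * y3) + be ^ 2 * ga * (y1 * y2 + y1 * y3 + y2 * y3) -
      be * ga ^ 2 * (y1 + y2 + y3) + ga ^ 3 := by
    intro al be ga y1 y2 y3
    ring
  have h1' : x1 ^ 3 - (4 * D * a ^ 2) * x1 ^ 2 - (12 * D * a * b) * x1 - (12 * D * b ^ 2) =
      ((l ^ 2 + 3 * D * a ^ 2) - 4 * D * a ^ 2) * x1 ^ 2 -
      ((-6 * D * a * b - 2 * l * m) + 12 * D * a * b) * x1 +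
      ((m ^ 2 + 3 * D * b ^ 2) - 12 * D * b ^ 2) := by
    rw [← e1, ← e2, ← e3]; ring
  have h2' : x2 ^ 3 - (4 * D * a ^ 2) * x2 ^ 2 - (12 * D * a * b) * x2 - (12 * D * b ^ 2) =
      ((l ^ 2 + 3 * D * a ^ 2) - 4 * D * a ^ 2) * x2 ^ 2 -
      ((-6 * D * a * b - 2 * l * m) + 12 * D * a * b) * x2 +
      ((m ^ 2 + 3 * D * b ^ 2) - 12 * D * b ^ 2) := by
    rw [← e1, ← e2, ← e3]; ring
  have h3'' : x3 ^ 3 - (4 * D * a ^ 2) * x3 ^ 2 - (12 * D * a * b) * x3 - (12 * D * b ^ 2) =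
      ((l ^ 2 + 3 * D * a ^ 2) - 4 * D * a ^ 2) * x3 ^ 2 -
      ((-6 * D * a * b - 2 * l * m) + 12 * D * a * b) * x3 +
      ((m ^ 2 + 3 * D * b ^ 2) - 12 * D * b ^ 2) := by
    rw [← e1, ← e2, ← e3]; ring
  rw [hN _ h1, hN _ h2, hN _ h3', h1', h2', h3'', div_mul_div_comm, div_mul_div_comm, key,
    ← mul_pow, ← mul_pow, e1, e2, e3]
  have h9 := nine_ne h3
  unfold dl mu
  field_simp
  ring

/-- the identity for case (ii) -/
lemma trans_id (D a b l m : k) (hm : m ^ 2 + 3 * D * b ^ 2 = 0) :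
    let S := l ^ 2 + 3 * D * a ^ 2
    let q := -6 * D * a * b - 2 * l * m
    (q ^ 2 + 12 * D * a * b * q + 12 * D * b ^ 2 * S = 0) ∧
    ((l * S + 2 * m) * q ^ 3 + 12 * D * a * b * (l * S * q ^ 2 + m * (S ^ 2 - 2 * q) * q) +
      24 * D * b ^ 2 * (l * (S ^ 2 - 2 * q) * q + m * (S ^ 3 - 3 * S * q)) = 0) := by
  intro S q
  refine ⟨?_, ?_⟩
  · change (-6 * D * a * b - 2 * l * m) ^ 2 + 12 * D * a * b * (-6 * D * a * b - 2 * l * m) +
      12 * D * b ^ 2 * (l ^ 2 + 3 * D * a ^ 2) = 0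
    linear_combination (4 * l ^ 2) * hm
  · change (l * (l ^ 2 + 3 * D * a ^ 2) + 2 * m) * (-6 * D * a * b - 2 * l * m) ^ 3 +
      12 * D * a * b * (l * (l ^ 2 + 3 * D * a ^ 2) * (-6 * D * a * b - 2 * l * m) ^ 2 +
        m * ((l ^ 2 + 3 * D * a ^ 2) ^ 2 - 2 * (-6 * D * a * b - 2 * l * m)) *
          (-6 * D * a * b - 2 * l * m)) +
      24 * D * b ^ 2 * (l * ((l ^ 2 + 3 * D * a ^ 2) ^ 2 - 2 * (-6 * D * a * b - 2 * l * m)) *
        (-6 * D * a * b - 2 * l * m) + m * ((l ^ 2 + 3 * D * a ^ 2) ^ 3 -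
          3 * (l ^ 2 + 3 * D * a ^ 2) * (-6 * D * a * b - 2 * l * m))) = 0
    linear_combination (-16 * l ^ 3 * m ^ 2 - 8 * l ^ 6 * m - 240 * D * a * b * l ^ 2 * m -
      48 * D * a * b * l ^ 5 - 24 * D * a ^ 2 * l ^ 4 * m - 576 * D ^ 2 * a ^ 2 * b ^ 2 * l -
      216 * D ^ 2 * a ^ 3 * b * l ^ 3 - 216 * D ^ 3 * a ^ 5 * b * l) * hm

theorem PsH_ex {P : W.toAffine.Point} (hP : P ≠ 0) :
    ∃ x y, ∃ n : W.toAffine.Nonsingular x y, P = Affine.Point.some x y n := by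
  rcases P with _ | ⟨x, y, n⟩
  · exact absurd rfl hP
  · exact ⟨x, y, n, rfl⟩

theorem PsH_eq (h' : Is3 W' (-3 * D) a (dl D a b)) {X₂ X₃ Y₂ Y₃ : k}
    (n₂ : W'.toAffine.Nonsingular X₂ Y₂) (n₃ : W'.toAffine.Nonsingular X₃ Y₃)
    (hX : X₂ = X₃) (hY : Y₂ = -Y₃) :
    Affine.Point.some X₂ Y₂ n₂ + Affine.Point.some X₃ Y₃ n₃ = 0 := by
  obtain ⟨n', hn'⟩ := neg_some h'.a₁ h'.a₃ n₃
  subst hX
  subst hY
  rw [← hn', neg_add_cancel]

theorem PsH_one (h : Is3 W D a b) (h' : Is3 W' (-3 * D) a (dl D a b)) {x₂ x₃ y₂ y₃ l m : k}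
    (n₂ : W.toAffine.Nonsingular x₂ y₂) (n₃ : W.toAffine.Nonsingular x₃ y₃)
    (h2 : x₂ ≠ 0) (h3 : x₃ ≠ 0) (hy₂ : y₂ = l * x₂ + m) (hy₃ : y₃ = l * x₃ + m)
    (e1 : x₂ + x₃ = l ^ 2 + 3 * D * a ^ 2) (e2 : x₂ * x₃ = -6 * D * a * b - 2 * l * m)
    (e3 : m ^ 2 + 3 * D * b ^ 2 = 0) :
    psF W W' D a b (.some x₂ y₂ n₂) + psF W W' D a b (.some x₃ y₃ n₃) = 0 := by
  have ht := trans_id D a b l m e3
  simp only [← e1, ← e2] at ht
  obtain ⟨t1, t2⟩ := ht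
  rw [psF_some h h' n₂ h2, psF_some h h' n₃ h3]
  apply PsH_eq h'
  · unfold psX
    have : (x₂ - 4 * D * a ^ 2 - 12 * D * a * b / x₂ - 12 * D * b ^ 2 / x₂ ^ 2) -
        (x₃ - 4 * D * a ^ 2 - 12 * D * a * b / x₃ - 12 * D * b ^ 2 / x₃ ^ 2) =
        (x₂ - x₃) * ((x₂ * x₃) ^ 2 + 12 * D * a * b * (x₂ * x₃) + 12 * D * b ^ 2 * (x₂ + x₃)) /
          (x₂ * x₃) ^ 2 := by
      field_simp
      ring
    rw [t1, mul_zero, zero_div] at this
    exact sub_eq_zero.1 this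
  · unfold psY
    subst hy₂
    subst hy₃
    have : (l * x₂ + m) * (x₂ ^ 3 + 12 * D * a * b * x₂ + 24 * D * b ^ 2) / x₂ ^ 3 +
        (l * x₃ + m) * (x₃ ^ 3 + 12 * D * a * b * x₃ + 24 * D * b ^ 2) / x₃ ^ 3 =
        ((l * (x₂ + x₃) + 2 * m) * (x₂ * x₃) ^ 3 + 12 * D * a * b *
          (l * (x₂ + x₃) * (x₂ * x₃) ^ 2 + m * ((x₂ + x₃) ^ 2 - 2 * (x₂ * x₃)) * (x₂ * x₃)) +
          24 * D * b ^ 2 * (l * ((x₂ + x₃) ^ 2 - 2 * (x₂ * x₃)) * (x₂ * x₃) +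
            m * ((x₂ + x₃) ^ 3 - 3 * (x₂ + x₃) * (x₂ * x₃)))) / (x₂ * x₃) ^ 3 := by
      field_simp
      ring
    rw [t2, zero_div] at this
    exact eq_neg_of_add_eq_zero_left this

theorem PsH_three (h : Is3 W D a b) {x l m : k} (e1 : x = l ^ 2 + 3 * D * a ^ 2)
    (e2 : 0 = -6 * D * a * b - 2 * l * m) (e3 : m ^ 2 + 3 * D * b ^ 2 = 0) : x = 0 := by
  have hm : m ≠ 0 := by
    rintro rfl
    have : 3 * D * b ^ 2 = 0 := by linear_combination e3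
    exact mul_ne_zero (mul_ne_zero h.three h.hD) (pow_ne_zero 2 h.hb) this
  have h1 : l * m = -3 * D * a * b := by
    apply mul_left_cancel₀ h.two
    linear_combination e2
  have h2 : m ^ 2 * x = 0 := by
    rw [e1]
    linear_combination (l * m - 3 * D * a * b) * h1 + 3 * D * a ^ 2 * e3
  rcases mul_eq_zero.1 h2 with h3 | h3
  · exact absurd h3 (pow_ne_zero 2 hm)
  · exact h3

theorem PsH_sum (h : Is3 W D a b) (h' : Is3 W' (-3 * D) a (dl D a b)) {x₁ x₂ x₃ y₁ y₂ y₃ : k}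
    (n₁ : W.toAffine.Nonsingular x₁ y₁) (n₂ : W.toAffine.Nonsingular x₂ y₂)
    (n₃ : W.toAffine.Nonsingular x₃ y₃)
    (hs : Affine.Point.some x₁ y₁ n₁ + Affine.Point.some x₂ y₂ n₂ +
      Affine.Point.some x₃ y₃ n₃ = 0) :
    psF W W' D a b (.some x₁ y₁ n₁) + psF W W' D a b (.some x₂ y₂ n₂) +
      psF W W' D a b (.some x₃ y₃ n₃) = 0 := by
  obtain ⟨l, m, hy₁, hy₂, hy₃, e1, e2, e3⟩ := exists_line h.a₁ h.a₃ h.two hs
  rw [h.a₂] at e1
  rw [h.a₄] at e2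
  rw [h.a₆] at e3
  have e1' : x₁ + x₂ + x₃ = l ^ 2 + 3 * D * a ^ 2 := by linear_combination e1
  have e3' : x₁ * x₂ * x₃ = m ^ 2 + 3 * D * b ^ 2 := by linear_combination e3
  have z : ∀ {x y : k} (n : W.toAffine.Nonsingular x y), x = 0 →
      psF W W' D a b (.some x y n) = 0 := fun n hx => psF_kr ((kr_some n).2 hx)
  by_cases h1 : x₁ = 0
  · by_cases h2 : x₂ = 0
    · have h3 : x₃ = 0 := by
        subst h1
        subst h2
        exact PsH_three (l := l) (m := m) h (by linear_combination e1') (by linear_combination e2)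
          (by linear_combination -e3')
      rw [z n₁ h1, z n₂ h2, z n₃ h3, add_zero, add_zero]
    · by_cases h3 : x₃ = 0
      · exfalso
        apply h2
        subst h1
        subst h3
        exact PsH_three (l := l) (m := m) h (by linear_combination e1') (by linear_combination e2)
          (by linear_combination -e3')
      · rw [z n₁ h1, zero_add]
        subst h1
        exact PsH_one (l := l) (m := m) h h' n₂ n₃ h2 h3 hy₂ hy₃ (by linear_combination e1')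
          (by linear_combination e2) (by linear_combination -e3')
  · by_cases h2 : x₂ = 0
    · by_cases h3 : x₃ = 0
      · exfalso
        apply h1
        subst h2
        subst h3
        exact PsH_three (l := l) (m := m) h (by linear_combination e1') (by linear_combination e2)
          (by linear_combination -e3')
      · rw [z n₂ h2, add_zero]
        subst h2
        exact PsH_one (l := l) (m := m) h h' n₁ n₃ h1 h3 hy₁ hy₃ (by linear_combination e1')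
          (by linear_combination e2) (by linear_combination -e3')
    · by_cases h3 : x₃ = 0
      · rw [z n₃ h3, add_zero]
        subst h3
        exact PsH_one (l := l) (m := m) h h' n₁ n₂ h1 h2 hy₁ hy₂ (by linear_combination e1')
          (by linear_combination e2) (by linear_combination -e3')
      · have hE : m ^ 2 + 3 * D * b ^ 2 ≠ 0 := by
          rw [← e3']
          exact mul_ne_zero (mul_ne_zero h1 h2) h3
        rw [psF_some h h' n₁ h1, psF_some h h' n₂ h2, psF_some h h' n₃ h3]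
        subst hy₁
        subst hy₂
        subst hy₃
        have s1 := sum1 hE h1 h2 h3 e1' e2 e3'
        have s2 := sum2 h.three h.hb hE h1 h2 h3 e1' e2 e3'
        have s3 := sum3 h.three h.hb hE h1 h2 h3 e1' e2 e3'
        refine line_sum h'.a₁ h'.a₃ h'.two _ _ _
          (on_line h.three h.hb hE h1 (h.eqn n₁)) (on_line h.three h.hb hE h2 (h.eqn n₂))
          (on_line h.three h.hb hE h3 (h.eqn n₃)) ?_ ?_ ?_
        · rw [s1, h'.a₂]; ring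
        · rw [s2, h'.a₄]; ring
        · rw [s3, h'.a₆]; ring

/-- The isogeny is additive. -/
theorem psF_add (h : Is3 W D a b) (h' : Is3 W' (-3 * D) a (dl D a b)) (P Q : W.toAffine.Point) :
    psF W W' D a b (P + Q) = psF W W' D a b P + psF W W' D a b Q := by
  by_cases hP : P = 0
  · rw [hP, zero_add, psF_zero, zero_add]
  by_cases hQ : Q = 0
  · rw [hQ, add_zero, psF_zero, add_zero]
  by_cases hR : -(P + Q) = 0
  · have h1 : P + Q = 0 := neg_eq_zero.1 hR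
    have h2 : Q = -P := eq_neg_of_add_eq_zero_right h1
    rw [h1, psF_zero, h2, psF_neg h h', add_neg_cancel]
  obtain ⟨x₁, y₁, n₁, h1⟩ := PsH_ex hP
  obtain ⟨x₂, y₂, n₂, h2⟩ := PsH_ex hQ
  obtain ⟨x₃, y₃, n₃, h3⟩ := PsH_ex hR
  have hs : Affine.Point.some x₁ y₁ n₁ + Affine.Point.some x₂ y₂ n₂ +
      Affine.Point.some x₃ y₃ n₃ = 0 := by
    rw [← h1, ← h2, ← h3, add_neg_cancel]
  have := PsH_sum h h' n₁ n₂ n₃ hs
  rw [← h1, ← h2, ← h3, psF_neg h h'] at this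
  exact (add_neg_eq_zero.1 this).symm

/-- The isogeny as a homomorphism. -/
noncomputable def psi (h : Is3 W D a b) (h' : Is3 W' (-3 * D) a (dl D a b)) :
    W.toAffine.Point →+ W'.toAffine.Point where
  toFun := psF W W' D a b
  map_zero' := psF_zero
  map_add' := psF_add h h'

theorem psi_apply (h : Is3 W D a b) (h' : Is3 W' (-3 * D) a (dl D a b)) (P : W.toAffine.Point) :
    psi h h' P = psF W W' D a b P := rfl

theorem kr_add (h : Is3 W D a b) {P Q : W.toAffine.Point} (hP : Kr P) (hQ : Kr Q) : Kr (P + Q) := by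
  rw [← psF_eq_zero h h.dual] at hP hQ ⊢
  rw [psF_add h h.dual, hP, hQ, add_zero]

end H55T3
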