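import Pool.Agent.H55.T3.PsH

/-!
Row Sj (about 120 lines): surjectivity of the isogeny over an algebraically closed field.

PROOF of psF_surj. Q' = 0: P = 0. Q' = (X, Y), Y^2 = X^3 + D (3 a X + c)^2, c = 9 b + 4 D a^3 (Is3.eqn for W': X^3 - 3 (-3 D) (a X + c/3)^2). Choose s with s^2 = D, w0 with w0^3 = Y + s (3 a X + c), u with u^3 = Y - s (3 a X + c) (algebraically closed).
 (u w0)^3 = Y^2 - D (3 a X + c)^2 = X^3. If X = 0 then u w0 = 0 = X, put w = w0. If X ≠ 0, z := u w0/X has z^3 = 1 and w := w0/z has w^3 = w0^3, u w = X. So in all cases u w = X, w^3 - u^3 = 2 s (3 a X + c), w^3 + u^3 = 2 Y.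
 t := w - u, t^3 + 3 t X = w^3 - u^3 = 2 s (3 a X + c). If t = 2 s a then 8 s^3 a^3 + 6 s a X = 6 s a X + 2 s c, so 4 D a^3 = c = 9 b + 4 D a^3 (s ≠ 0, 2 ≠ 0), 9 b = 0: contradiction. So q := t - 2 s a ≠ 0; x := 6 s b/q ≠ 0, y := x (u + w)/2.
 w - u = 2 s (a x + 3 b)/x, w + u = 2 y/x. X = u w = ((w+u)^2 - (w-u)^2)/4 = (y^2 - D (a x + 3 b)^2)/x^2. (1)
 From t^3 + 3 t X = 2 s (3 a X + c): X (3 t - 6 s a) = 2 s c - t^3, 3 t - 6 s a = 18 s b/x, t = 2 s (a x + 3 b)/x: X = x (2 s c - 8 s^3 (a x + 3 b)^3/x^3)/(18 s b) = (c x^3 - 4 D (a x + 3 b)^3)/(9 b x^2) = psX D a b x (2) (field_simp, ring; c = 9 b + 4 D a^3).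
 (1), (2): y^2 = x^2 psX + D (a x + 3 b)^2 = x^3 - 3 D (a x + b)^2: the point (x, y) is on W, nonsingular (Is3.isElliptic, equation_iff_nonsingular). psY D a b x y = y (y^2 + 3 D (a x + 3 b)^2)/x^3 = (u^3 + w^3)/2 = Y.
-/

set_option autoImplicit false
open scoped Classical

open WeierstrassCurve Pool.Agent.H10

namespace H55T3

theorem psF_surj {k : Type*} [Field k] [IsAlgClosed k] {W W' : WeierstrassCurve k} {D a b : k}
    (h : Is3 W D a b) (h' : Is3 W' (-3 * D) a (dl D a b)) (Q : W'.toAffine.Point) :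
    ∃ P : W.toAffine.Point, psF W W' D a b P = Q := by
  rcases Q with _ | ⟨X, Y, n⟩
  · exact ⟨0, psF_zero⟩
  have h2 : (2 : k) ≠ 0 := h.two
  have h3 : (3 : k) ≠ 0 := h.three
  have hb : b ≠ 0 := h.hb
  have hD : D ≠ 0 := h.hD
  have h9 : (9 : k) ≠ 0 := nine_ne h3
  have heq := h'.eqn n
  have hdl := (dl_facts h3 D a b).1
  obtain ⟨s, hs⟩ := IsAlgClosed.exists_pow_nat_eq D (n := 2) (by norm_num)
  have hs0 : s ≠ 0 := by
    rintro rfl
    exact hD (by rw [← hs]; ring)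
  obtain ⟨c, hc⟩ : ∃ c, c = 9 * b + 4 * D * a ^ 3 := ⟨_, rfl⟩
  rw [← hc] at hdl
  have heq' : Y ^ 2 = X ^ 3 + D * (3 * a * X + c) ^ 2 := by
    rw [heq, ← hdl]; ring
  obtain ⟨w0, hw0⟩ := IsAlgClosed.exists_pow_nat_eq (Y + s * (3 * a * X + c)) (n := 3) (by norm_num)
  obtain ⟨u, hu⟩ := IsAlgClosed.exists_pow_nat_eq (Y - s * (3 * a * X + c)) (n := 3) (by norm_num)
  have h1 : (u * w0) ^ 3 = X ^ 3 := by
    rw [mul_pow, hw0, hu]
    linear_combination heq' - (3 * a * X + c) ^ 2 * hs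
  obtain ⟨w, hw, huw⟩ : ∃ w, w ^ 3 = w0 ^ 3 ∧ u * w = X := by
    by_cases hX : X = 0
    · refine ⟨w0, rfl, ?_⟩
      have : (u * w0) ^ 3 = 0 := by rw [h1, hX]; ring
      rw [hX]
      exact pow_eq_zero_iff (by norm_num : (3 : ℕ) ≠ 0) |>.1 this
    · have hz0 : u * w0 ≠ 0 := by
        intro h0
        rw [h0] at h1
        apply hX
        apply (pow_eq_zero_iff (by norm_num : (3 : ℕ) ≠ 0)).1
        rw [← h1]; ring
      have hu0 : u ≠ 0 := left_ne_zero_of_mul hz0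
      have hw00 : w0 ≠ 0 := right_ne_zero_of_mul hz0
      refine ⟨X / u, ?_, by field_simp⟩
      rw [div_pow, ← h1]
      field_simp
  rw [hw0] at hw
  obtain ⟨t, ht⟩ : ∃ t, t = w - u := ⟨_, rfl⟩
  have ht3 : t ^ 3 + 3 * t * X = 2 * s * (3 * a * X + c) := by
    have e : t ^ 3 + 3 * t * X = w ^ 3 - u ^ 3 := by rw [← huw, ht]; ring
    rw [e, hw, hu]; ring
  have hq : t - 2 * s * a ≠ 0 := by
    intro h0
    have ht' : t = 2 * s * a := by linear_combination h0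
    rw [ht'] at ht3
    have e : 2 * s * (9 * b) = 0 := by
      rw [hc] at ht3
      have hs' : s ^ 2 = D := hs
      linear_combination (-1 : k) * ht3 + 8 * s * a ^ 3 * hs'
    exact mul_ne_zero (mul_ne_zero h2 hs0) (mul_ne_zero h9 hb) e
  obtain ⟨x, hx⟩ : ∃ x, x = 6 * s * b / (t - 2 * s * a) := ⟨_, rfl⟩
  have h6 : (6 : k) ≠ 0 := by
    have : (6 : k) = 2 * 3 := by norm_num
    rw [this]; exact mul_ne_zero h2 h3
  have hx0 : x ≠ 0 := by
    rw [hx]
    exact div_ne_zero (mul_ne_zero (mul_ne_zero h6 hs0) hb) hq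
  have hxq : x * (t - 2 * s * a) = 6 * s * b := by
    rw [hx]; exact div_mul_cancel₀ _ hq
  have htx : x * t = 2 * s * (a * x + 3 * b) := by linear_combination hxq
  -- the `x`-coordinate
  have hX : X * (9 * b * x ^ 2) = c * x ^ 3 - 4 * D * (a * x + 3 * b) ^ 3 := by
    have e1 : (2 * s) * (X * (9 * b * x ^ 2)) = (2 * s) * (c * x ^ 3 - 4 * D * (a * x + 3 * b) ^ 3) := by
      have e2 : x ^ 3 * t ^ 3 = (2 * s * (a * x + 3 * b)) ^ 3 := by rw [← htx]; ring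
      have e3 : 3 * X * x ^ 3 * (t - 2 * s * a) = x ^ 3 * (2 * s * c) - x ^ 3 * t ^ 3 := by
        linear_combination x ^ 3 * ht3
      have e4 : 3 * X * x ^ 3 * (t - 2 * s * a) = 3 * X * x ^ 2 * (6 * s * b) := by
        rw [← hxq]; ring
      rw [e4, e2] at e3
      linear_combination e3 - 8 * s * (a * x + 3 * b) ^ 3 * hs
    exact mul_left_cancel₀ (mul_ne_zero h2 hs0) e1
  have hpX : psX D a b x = X := by
    have e : X = (c * x ^ 3 - 4 * D * (a * x + 3 * b) ^ 3) / (9 * b * x ^ 2) := by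
      rw [← hX]; field_simp
    rw [e, hc]
    unfold psX
    field_simp
    ring
  obtain ⟨y, hy⟩ : ∃ y, y = x * (u + w) / 2 := ⟨_, rfl⟩
  have hy2 : 2 * y = x * (u + w) := by rw [hy]; field_simp
  have h4 : (4 : k) ≠ 0 := by
    have : (4 : k) = 2 * 2 := by norm_num
    rw [this]; exact mul_ne_zero h2 h2
  have hyX : y ^ 2 = x ^ 2 * X + D * (a * x + 3 * b) ^ 2 := by
    apply mul_left_cancel₀ h4
    have e1 : 4 * y ^ 2 = x ^ 2 * (u + w) ^ 2 := by
      calc 4 * y ^ 2 = (2 * y) ^ 2 := by ring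
        _ = _ := by rw [hy2]; ring
    have e2 : x ^ 2 * t ^ 2 = (2 * s * (a * x + 3 * b)) ^ 2 := by rw [← htx]; ring
    rw [e1]
    have e3 : (u + w) ^ 2 = t ^ 2 + 4 * X := by rw [ht, ← huw]; ring
    rw [e3]
    linear_combination e2 + 4 * (a * x + 3 * b) ^ 2 * hs
  have hxX : x ^ 2 * X = x ^ 3 - 4 * D * a ^ 2 * x ^ 2 - 12 * D * a * b * x - 12 * D * b ^ 2 := by
    rw [← hpX]
    unfold psX
    field_simp
  have hcur : y ^ 2 = x ^ 3 - 3 * D * (a * x + b) ^ 2 := by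
    rw [hyX, hxX]; ring
  have hns : W.toAffine.Nonsingular x y := by
    haveI := h.isElliptic
    rw [← Affine.equation_iff_nonsingular, Affine.equation_iff, h.a₁, h.a₂, h.a₃, h.a₄, h.a₆]
    linear_combination hcur
  have hpY : psY D a b x y = Y := by
    have e1 : x ^ 3 + 12 * D * a * b * x + 24 * D * b ^ 2 = y ^ 2 + 3 * D * (a * x + 3 * b) ^ 2 := by
      rw [hcur]; ring
    have e2 : 2 * Y = (u + w) * ((u + w) ^ 2 - 3 * X) := by
      have : u ^ 3 + w ^ 3 = 2 * Y := by rw [hw, hu]; ring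
      rw [← this, ← huw]; ring
    have e3 : x ^ 3 * (2 * Y) = 2 * (y * (y ^ 2 + 3 * D * (a * x + 3 * b) ^ 2)) := by
      have e4 : x ^ 3 * (2 * Y) = (x * (u + w)) * ((x * (u + w)) ^ 2 - 3 * (x ^ 2 * X)) := by
        rw [e2]; ring
      rw [e4, ← hy2]
      linear_combination (6 * y) * hyX
    unfold psY
    rw [e1, div_eq_iff (pow_ne_zero 3 hx0)]
    apply mul_left_cancel₀ h2
    linear_combination -e3
  refine ⟨.some x y hns, ?_⟩
  rw [psF_some h h' hns hx0]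
  simp only [hpX, hpY]

end H55T3
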