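import Pool.Agent.H55.T3.Ke

/-!
Row Tr (about 120 lines): the functions `uu`, `ww`, `s^2 = D`: the homogeneous space, translation by the kernel.

PROOF. P = (x, y), x ≠ 0, y^2 = x^3 - 3 D (a x + b)^2.
uw_psX, uw_psY: uu * ww = (y^2 - D (a x + 3 b)^2)/x^2 = psX (field_simp; linear_combination with the curve equation); uu^3 + ww^3 = 2 psY.
ww3: ww^3 = psY + s (3 a psX + c), uu^3 = psY - s (3 a psX + c), c = 9 b + 4 D a^3: by field_simp and the curve equation. Hence eq_uw: ww^3 - uu^3 = s (6 a uu ww + 2 c).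
ww_neg: ww (-P) = - uu P, uu (-P) = - ww P.
uu_pm, ww_pm: φ commutes.
trans: T in the kernel, R not. T = 0: clear. T = (0, t), z = ee T, t = s b (2 z + 1), z^2 + z + 1 = 0. R = (x2, y2), R + T is not in the kernel (kr_add with -T). -(R + T) = (x3, y3), x3 ≠ 0. exists_line for T, R, -(R+T): t = m, y2 = l x2 + m, y3 = l x3 + m, x2 + x3 = l^2 + 3 D a^2,
 x2 x3 = -6 D a b - 2 l m (coefficients of W: a₂ = -3 D a^2, a₄ = -6 D a b). Put D = s^2, m = s b (2 z + 1).
 uu (R + T) = -ww(-(R+T)) = -(l x3 + m + s (a x3 + 3 b))/x3. Claim z * that = (l x2 + m - s (a x2 + 3 b))/x2. Multiply by x2 x3: -z ((l + s a) x2 x3 + (m + 3 s b) x2) = (l - s a) x2 x3 + (m - 3 s b) x3; m + 3 s b = 2 s b (z + 2), m - 3 s b = 2 s b (z - 1),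
 z (z + 2) = z - 1 (z^2 = -1 - z), so it reads: x2 x3 [-z (l + s a) - (l - s a)] = 2 s b (z - 1) (x2 + x3): a polynomial identity in l, a, b, s, z modulo z^2 + z + 1 (x2 x3 = -2 s b (3 s a + l (2 z + 1)), x2 + x3 = l^2 + 3 s^2 a^2).
 The same for ww (replace s by -s: ww s = uu (-s), ee (-s) b T = z⁻¹, or directly).
-/

set_option autoImplicit false
open scoped Classical

open WeierstrassCurve Pool.Agent.H10

namespace H55T3

variable {k k' : Type*} [Field k] [Field k'] {W W' : WeierstrassCurve k} {D a b s : k}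

theorem psX_uw (h : Is3 W D a b) (hs : s ^ 2 = D) {x y : k} (n : W.toAffine.Nonsingular x y)
    (hx : x ≠ 0) : psX D a b x = uu s a b (.some x y n) * ww s a b (.some x y n) ∧
      2 * psY D a b x y = uu s a b (.some x y n) ^ 3 + ww s a b (.some x y n) ^ 3 := by
  have hE := h.eqn n
  subst hs
  constructor
  · unfold psX uu ww
    field_simp
    linear_combination (-1 : k) * hE
  · unfold psY uu ww
    field_simp
    linear_combination (-2 * y) * hE

theorem ww_cube (h : Is3 W D a b) (hs : s ^ 2 = D) {x y : k} (n : W.toAffine.Nonsingular x y)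
    (hx : x ≠ 0) : ww s a b (.some x y n) ^ 3 =
      psY D a b x y + s * (3 * a * psX D a b x + (9 * b + 4 * D * a ^ 3)) ∧
      uu s a b (.some x y n) ^ 3 =
      psY D a b x y - s * (3 * a * psX D a b x + (9 * b + 4 * D * a ^ 3)) := by
  have hE := h.eqn n
  subst hs
  constructor
  · unfold psY psX ww
    field_simp
    linear_combination (y + 3 * s * (a * x + 3 * b)) * hE
  · unfold psY psX uu
    field_simp
    linear_combination (y - 3 * s * (a * x + 3 * b)) * hE

theorem eq_uw (h : Is3 W D a b) (hs : s ^ 2 = D) {P : W.toAffine.Point} (hP : ¬ Kr P) :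
    ww s a b P ^ 3 - uu s a b P ^ 3 =
      s * (6 * a * uu s a b P * ww s a b P + 2 * (9 * b + 4 * D * a ^ 3)) := by
  rcases P with _ | ⟨x, y, n⟩
  · exact absurd kr_zero hP
  · have hx : x ≠ 0 := fun hx => hP ((kr_some n).2 hx)
    obtain ⟨h1, h2⟩ := ww_cube h hs n hx
    rw [h1, h2, (psX_uw h hs n hx).1]
    ring

theorem ww_neg (h : Is3 W D a b) (P : W.toAffine.Point) : ww s a b (-P) = - uu s a b P ∧
    uu s a b (-P) = - ww s a b P := by
  rcases P with _ | ⟨x, y, n⟩
  · have h0 : -(Affine.Point.zero : W.toAffine.Point) = 0 := neg_zero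
    rw [h0]
    constructor
    · change (0 : k) = -0
      rw [neg_zero]
    · change (0 : k) = -0
      rw [neg_zero]
  · obtain ⟨n', hn'⟩ := neg_some h.a₁ h.a₃ n
    rw [hn']
    constructor
    · unfold ww uu
      ring
    · unfold ww uu
      ring

theorem uu_pm {φ : k →+* k'} {W₁ : WeierstrassCurve k'} (hW : W.map φ = W₁) (P : W.toAffine.Point) :
    uu (φ s) (φ a) (φ b) (pm φ hW P) = φ (uu s a b P) ∧
      ww (φ s) (φ a) (φ b) (pm φ hW P) = φ (ww s a b P) := by
  rcases P with _ | ⟨x, y, n⟩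
  · constructor
    · change (0 : k') = φ 0
      rw [map_zero]
    · change (0 : k') = φ 0
      rw [map_zero]
  · rw [pm_some]
    constructor
    · unfold uu
      simp only [map_div₀, map_sub, map_mul, map_add, map_ofNat]
    · unfold ww
      simp only [map_div₀, map_mul, map_add, map_ofNat]

private lemma Tr_id {l z x2 x3 s a b : k} (hz2 : z ^ 2 + z + 1 = 0)
    (he1 : x2 + x3 = l ^ 2 + 3 * s ^ 2 * a ^ 2)
    (hq : x2 * x3 = -6 * s ^ 2 * a * b - 2 * l * (s * b * (2 * z + 1))) :
    -z * ((l * x3 + s * b * (2 * z + 1)) + s * (a * x3 + 3 * b)) * x2 =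
      ((l * x2 + s * b * (2 * z + 1)) - s * (a * x2 + 3 * b)) * x3 := by
  linear_combination (-(z * (l + s * a) + (l - s * a))) * hq - 2 * s * b * (z - 1) * he1 +
    (4 * s * b * (l ^ 2 + l * s * a) - 2 * s * b * x2) * hz2

theorem uu_trans (h : Is3 W D a b) (hs : s ^ 2 = D) {R T : W.toAffine.Point} (hR : ¬ Kr R) (hT : Kr T) :
    ¬ Kr (R + T) ∧ ee s b T * uu s a b (R + T) = uu s a b R ∧
      ww s a b (R + T) = ee s b T * ww s a b R := by
  have hRT : ¬ Kr (R + T) := by
    intro hc
    apply hR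
    have h1 := kr_add h hc (kr_neg.2 hT)
    rwa [add_neg_cancel_right] at h1
  refine ⟨hRT, ?_⟩
  rcases T with _ | ⟨x1, t, nT⟩
  · have h0 : R + (Affine.Point.zero : W.toAffine.Point) = R := add_zero R
    have h1 : ee s b (Affine.Point.zero : W.toAffine.Point) = 1 := ee_zero
    rw [h0, h1, one_mul, one_mul]
    exact ⟨rfl, rfl⟩
  · have hx1 : x1 = 0 := (kr_some nT).1 hT
    subst hx1
    rcases R with _ | ⟨x2, y2, nR⟩
    · exact absurd kr_zero hR
    have hx2 : x2 ≠ 0 := fun hx => hR ((kr_some nR).2 hx)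
    have hD := h.hD
    have hb := h.hb
    have two := h.two
    have hs0 : s ≠ 0 := by
      rintro rfl
      apply hD
      rw [← hs]
      ring
    -- the third point
    obtain ⟨S, hS⟩ : ∃ S, S = -(Affine.Point.some x2 y2 nR + Affine.Point.some 0 t nT) := ⟨_, rfl⟩
    have hS' : ¬ Kr S := by
      rw [hS]
      exact fun hc => hRT (kr_neg.1 hc)
    have hRT' : Affine.Point.some x2 y2 nR + Affine.Point.some 0 t nT = -S := by rw [hS, neg_neg]
    have hsum : Affine.Point.some 0 t nT + Affine.Point.some x2 y2 nR + S = 0 := by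
      rw [hS, add_comm (Affine.Point.some 0 t nT), add_neg_cancel]
    rw [hRT', (ww_neg h S).1, (ww_neg h S).2]
    rcases S with _ | ⟨x3, y3, n3⟩
    · exact absurd kr_zero hS'
    have hx3 : x3 ≠ 0 := fun hx => hS' ((kr_some n3).2 hx)
    obtain ⟨l, m, e0, e2, e3, f1, f2, f3⟩ := exists_line h.a₁ h.a₃ two hsum
    rw [h.a₂] at f1
    rw [h.a₄] at f2
    rw [h.a₆] at f3
    have ht : t = m := by rw [e0]; ring
    subst ht
    obtain ⟨z, hz⟩ : ∃ z, z = ee s b (Affine.Point.some 0 t nT) := ⟨_, rfl⟩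
    have hz1 : t = s * b * (2 * z + 1) := by
      rw [hz]
      unfold ee
      field_simp
      ring
    have hz2 : z ^ 2 + z + 1 = 0 := by
      have h4 : (2 * 2 * (s * b) ^ 2) * (z ^ 2 + z + 1) = 0 := by
        have h5 : t ^ 2 = -3 * D * b ^ 2 := by linear_combination -f3
        rw [hz1, ← hs] at h5
        linear_combination h5
      rcases mul_eq_zero.1 h4 with h5 | h5
      · exact absurd h5 (mul_ne_zero (mul_ne_zero two two) (pow_ne_zero 2 (mul_ne_zero hs0 hb)))
      · exact h5
    have he1 : x2 + x3 = l ^ 2 + 3 * s ^ 2 * a ^ 2 := by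
      rw [hs]
      linear_combination f1
    have hq : x2 * x3 = -6 * s ^ 2 * a * b - 2 * l * (s * b * (2 * z + 1)) := by
      rw [hs, ← hz1]
      linear_combination f2
    rw [← hz]
    have i1 := Tr_id hz2 he1 hq
    have i2 := Tr_id (x2 := x3) (x3 := x2) hz2 (by rw [add_comm]; exact he1)
      (by rw [mul_comm]; exact hq)
    rw [← hz1] at i1 i2
    rw [← e2, ← e3] at i1
    rw [← e2, ← e3] at i2
    constructor
    · unfold uu ww
      field_simp
      linear_combination i1
    · unfold uu ww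
      field_simp
      linear_combination i2

end H55T3
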