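import Pool.Agent.H55.T3.I0
import Pool.Agent.H55.T3.Bij
import Pool.Agent.H55.T3.Lo
import Pool.Agent.H55.T3.Sj
import Pool.Agent.H55.T3.To
import Pool.Agent.H55.T3.PsH
import Pool.Agent.H55.T3.Tr

/-!
Definitions for the vanishing theorems (helper55; no row).
-/

set_option autoImplicit false
open scoped Classical

open WeierstrassCurve IsDedekindDomain NumberField Pool.Agent.H10 Pool.Agent.H11

namespace H55T3

section

variable (K : Type) [Field K] [NumberField K] (W : WeierstrassCurve K)

/-- The three-primary part of the Tate-Shafarevich group of `W` is zero. -/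
def NoSha3 : Prop := ∀ f, IsShaThree K W f → IsCobound K W f

/-- The locally trivial cocycles with values in the kernel of the isogeny are coboundaries. -/
def NoKr : Prop := ∀ f : Coch K W, IsCocycle K W f → IsLocTriv K W f → (∀ σ, Kr (f σ)) →
  IsCobound K W f

/-- The locally trivial cocycles with values in the kernel of the isogeny vanish. -/
def NoKr0 : Prop := ∀ f : Coch K W, IsCocycle K W f → IsLocTriv K W f → (∀ σ, Kr (f σ)) →
  ∀ σ, f σ = 0

end

/-- The class of `d` comes from a rational point of the isogenous curve. -/
def Img {K : Type} [Field K] [NumberField K] (V : WeierstrassCurve K) (s b d : K) : Prop :=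
  ∃ (P : (V.baseChange (AlgebraicClosure K)).toAffine.Point) (r : AlgebraicClosure K), r ≠ 0 ∧
    r ^ 3 = algebraMap K (AlgebraicClosure K) d ∧
    (∀ σ : AlgebraicClosure K ≃ₐ[K] AlgebraicClosure K, Kr (act (inv_bc K V) σ P - P)) ∧
    ∀ σ : AlgebraicClosure K ≃ₐ[K] AlgebraicClosure K,
      σ r = ee (algebraMap K (AlgebraicClosure K) s) (algebraMap K (AlgebraicClosure K) b)
        (act (inv_bc K V) σ P - P) * r

end H55T3
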