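import Pool.Agent.H55.T3.Fin
import Pool.Agent.H55.T3.Xdf

/-!
Row Xe (about 130 lines): from `K` to `L`.

PROOF. noSha3_up: bijOn3 (Fin.lean): Sha.res maps {x | ∃ m, 3^m x = 0} of Sha K E onto that of Sha L (E_L). By H0 the first set is {0} (Sha.mk_surjective, Sha.mk_eq_zero, Bij_mem_iff in Bij.lean is private: copy its three lines), so the second is {0}; translate back for f with IsShaThree (class killed by 3^m, zero, so coboundary).
exp_up: A := E(K) is a finitely generated group (mordell_weil, E is elliptic because E_L is) with A = 3 A, so there is r ≠ 0, r ≡ 1 mod 3 (up to sign), with r A = 0 (Submodule.exists_sub_one_mem_and_smul_eq_zero_of_fg_of_le_smul as in three_exponent, Bij.lean). mw_three: m prime to 3 with m P ∈ image of A for all P ∈ E(L), so m r P = 0; n := m |r| is positive (a multiple of m; m ≠ 0 as 3 ∤ m) and prime to 3.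
Finiteness: E(L) is finitely generated and killed by n > 0 (Module.finite_of_fg_torsion or AddCommGroup analog).
-/

set_option autoImplicit false
open scoped Classical

open WeierstrassCurve IsDedekindDomain NumberField Pool.Agent.H10 Pool.Agent.H11

namespace H55T3

lemma Xe_mem_iff {K : Type} [Field K] [NumberField K] {W : WeierstrassCurve K} (f : ShaZ K W) :
    (∃ m : ℕ, 3 ^ m • Sha.mk f = 0) ↔ ∃ m : ℕ, IsCobound K W (fun σ => (3 ^ m) • f.1 σ) := by
  refine exists_congr fun m => ?_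
  rw [← Sha.mk_nsmul, Sha.mk_eq_zero]
  rfl

theorem noSha3_up {K L : Type} [Field K] [NumberField K] [Field L] [NumberField L] [Algebra K L]
    [IsGalois K L] (h3n : ¬ 3 ∣ Module.finrank K L) {E : WeierstrassCurve K}
    (hE : (E.baseChange L).IsElliptic) (H : CT3 K L (E.baseChange L) (inv_up rfl))
    (H0 : NoSha3 K E) : NoSha3 L (E.baseChange L) := by
  intro g hg
  have H1 := bijOn3 (V := E) (V' := E.baseChange L) h3n hE rfl H
  obtain ⟨G, hG⟩ : ∃ G : ShaZ L (E.baseChange L), G.1 = g := ⟨⟨g, hg.1, hg.2.1⟩, rfl⟩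
  subst hG
  obtain ⟨x, hx, hxg⟩ := H1.2.2 ((Xe_mem_iff G).mpr hg.2.2)
  obtain ⟨f, rfl⟩ := Sha.mk_surjective x
  have hf : IsShaThree K E f.1 := ⟨f.2.1, f.2.2, (Xe_mem_iff f).mp hx⟩
  have h2 : Sha.mk f = 0 := (Sha.mk_eq_zero f).mpr (H0 f.1 hf)
  rw [h2, map_zero] at hxg
  exact (Sha.mk_eq_zero G).mp hxg.symm

theorem exp_up {K L : Type} [Field K] [NumberField K] [Field L] [NumberField L] [Algebra K L]
    [IsGalois K L] (h3n : ¬ 3 ∣ Module.finrank K L) {E : WeierstrassCurve K} (hEK : E.IsElliptic)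
    (hE : (E.baseChange L).IsElliptic) (H : CT3 K L (E.baseChange L) (inv_up rfl))
    (H0 : ∀ P : E.toAffine.Point, ∃ Q, P = 3 • Q) :
    Finite (E.baseChange L).toAffine.Point ∧
      ∃ n : ℕ, ¬ 3 ∣ n ∧ ∀ P : (E.baseChange L).toAffine.Point, n • P = 0 := by
  obtain ⟨r, hr, hr0⟩ := three_exponent (0 : E.toAffine.Point →+ E.toAffine.Point)
    (mordell_weil E) (by
      intro b
      obtain ⟨Q, hQ⟩ := H0 b
      exact ⟨0, Q, by rw [map_zero, zero_add]; exact hQ⟩)
  obtain ⟨m, hm, hm0⟩ := mw_three (V := E) (V' := E.baseChange L) h3n hE rfl H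
  have hn : ¬ 3 ∣ r * m := fun h => (Nat.prime_three.dvd_mul.1 h).elim hr hm
  have h0 : ∀ P : (E.baseChange L).toAffine.Point, (r * m) • P = 0 := by
    intro P
    obtain ⟨Q, hQ⟩ := hm0 P
    obtain ⟨a, ha⟩ := hr0 Q
    rw [mul_nsmul', hQ, ← map_nsmul, ha, AddMonoidHom.zero_apply, map_zero]
  refine ⟨?_, r * m, hn, h0⟩
  have hfg := mordell_weil (E.baseChange L)
  have hpos : 0 < r * m := by
    apply Nat.pos_of_ne_zero
    intro h
    apply hn
    rw [h]
    exact dvd_zero 3
  refine AddCommGroup.finite_of_fg_isAddTorsion _ fun P => ?_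
  exact isOfFinAddOrder_iff_nsmul_eq_zero.2 ⟨r * m, hpos, h0 P⟩

end H55T3
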