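import Pool.Agent.H55.T3.Xh
import Pool.Agent.H55.T3.Wb
import Pool.Agent.H55.T3.Ws

/-!
Row Xi (about 170 lines): the real side for y^2 = x^3 - 48 q^2 over the rational field (a = 0, b = 4 q, c = 36 q).

PROOF. (1) place w containing neither 3 nor q, V = Valued.v on the completion (Valued.v of an element of ℚ is w.valuation): LocSol 1 0 (36 q) d: either d = t^3, so 3 | log V d, or d^2 v^3 - U^3 = 72 q d. V (72 q) = V (2)^3 (72 q = 8 * 9 q, V (9 q) = 1), so log V (72 q d) ≡ log V d =: δ mod 3, log V (d^2 v^3) ≡ 2 δ, log V (U^3) ≡ 0.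
    If 3 ∤ δ these three are pairwise different, but three elements with x - y = z, z ≠ 0 cannot have pairwise different valuations (if v = 0 or U = 0 two elements are equal up to sign, again impossible). So 3 | δ. rat_rep with S = {3, q} (q ≠ 3): d = 3^i q^k t^3.
(2) place w containing 3 (exists; V 3 = exp (-1) by rat_unr): wb with a = 0, b = 4 q (V b = 1) and cls2_descend give Cls2 (w.valuation ℚ) 0 (4 q) d; its first alternative is impossible (V 0 = 1 is false). So there is j ∈ {0, 1, 2} and t' ≠ 0 with V (d (72 q)^j t'^3 - 1) ≤ exp (-2)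
    (alternatives: j = 0; j = 1; and with the inverse: (72 q)⁻¹ = (72 q)^2 / (72 q)^3, j = 2).
(3) d (72 q)^j = 3^(i + 2 j) q^(k + j) (2^j t)^3; its valuation at w is divisible by three, so 3 | i + 2 j; hence with n = q^(k+j): V (n τ^3 - 1) ≤ exp (-2) for some τ ∈ ℚ, nine_cube: q^(k+j) ≡ ±1 mod 9; since q ≡ 2, 5 mod 9 has q^3 ≡ -1 and q, q^2 are not ≡ ±1, 3 | k + j. So d (72 q)^j is a cube T^3 and d = (72 q)^(2 j) (T / (72 q)^j)^3.
-/

set_option autoImplicit false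
open scoped Classical

open IsDedekindDomain NumberField WithZero Pool.Agent.H10

namespace H55T3

theorem Xi_place : ∃ w : HeightOneSpectrum (𝓞 ℚ), (3 : 𝓞 ℚ) ∈ w.asIdeal := by
  have hu : ¬ IsUnit (3 : 𝓞 ℚ) := by
    intro h
    have h2 : IsUnit (Rat.ringOfIntegersEquiv (3 : 𝓞 ℚ)) := h.map Rat.ringOfIntegersEquiv
    rw [map_ofNat] at h2
    rcases Int.isUnit_iff.1 h2 with h3 | h3 <;> omega
  obtain ⟨M, hM, h3M⟩ := Ideal.exists_le_maximal (Ideal.span {(3 : 𝓞 ℚ)})
    (fun h => hu (Ideal.span_singleton_eq_top.1 h))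
  have h3 : (3 : 𝓞 ℚ) ∈ M := h3M (Ideal.mem_span_singleton_self _)
  refine ⟨⟨M, hM.isPrime, ?_⟩, h3⟩
  rintro rfl
  have h0 : (3 : 𝓞 ℚ) = 0 := (Submodule.mem_bot _).1 h3
  norm_num at h0

theorem Xi_pow {q : ℕ} (h9 : q % 9 = 2 ∨ q % 9 = 5) {n : ℕ}
    (h : (((q : ℤ) ^ n) % 9 = 1 ∨ ((q : ℤ) ^ n) % 9 = 8)) : 3 ∣ n := by
  have hq : ((q : ℤ) % 9 = 2 ∨ (q : ℤ) % 9 = 5) := by omega
  obtain ⟨m, r, hr, rfl⟩ : ∃ m r : ℕ, r < 3 ∧ n = 3 * m + r := ⟨n / 3, n % 3, by omega, by omega⟩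
  have h3 : ((q : ℤ) ^ 3) ≡ -1 [ZMOD 9] := by
    rcases hq with e | e
    · have : (q : ℤ) ≡ 2 [ZMOD 9] := e
      exact (this.pow 3).trans (by decide)
    · have : (q : ℤ) ≡ 5 [ZMOD 9] := e
      exact (this.pow 3).trans (by decide)
  have h3m : ((q : ℤ) ^ (3 * m)) ≡ (-1) ^ m [ZMOD 9] := by
    rw [pow_mul]; exact h3.pow m
  have hm : ((-1 : ℤ) ^ m = 1 ∨ (-1 : ℤ) ^ m = -1) := neg_one_pow_eq_or ℤ m
  have key : ∀ x : ℤ, (q : ℤ) ^ r ≡ x [ZMOD 9] → ((q : ℤ) ^ (3 * m + r) ≡ x [ZMOD 9] ∨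
      (q : ℤ) ^ (3 * m + r) ≡ -x [ZMOD 9]) := by
    intro x hx
    have h4 := h3m.mul hx
    rw [← pow_add] at h4
    rcases hm with e | e
    · left; rw [e, one_mul] at h4; exact h4
    · right; rw [e, neg_one_mul] at h4; exact h4
  interval_cases r
  · exact ⟨m, by ring⟩
  · exfalso
    rcases hq with e | e
    · have h5 := key 2 (by rw [pow_one]; exact e)
      simp only [Int.ModEq] at h5
      omega
    · have h5 := key 5 (by rw [pow_one]; exact e)
      simp only [Int.ModEq] at h5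
      omega
  · exfalso
    rcases hq with e | e
    · have h5 := key 4 (((show (q : ℤ) ≡ 2 [ZMOD 9] from e).pow 2).trans (by decide))
      simp only [Int.ModEq] at h5
      omega
    · have h5 := key 7 (((show (q : ℤ) ≡ 5 [ZMOD 9] from e).pow 2).trans (by decide))
      simp only [Int.ModEq] at h5
      omega

theorem Xi_goodG {k : Type} [Field k] [NumberField k] {q : ℕ} {d : k} (hd : d ≠ 0)
    (w : HeightOneSpectrum (𝓞 k))
    (H1 : LocSol (algebraMap k (w.adicCompletion k) 1) (algebraMap k (w.adicCompletion k) 0)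
      (algebraMap k (w.adicCompletion k) (36 * q)) (algebraMap k (w.adicCompletion k) d))
    (h3 : (3 : 𝓞 k) ∉ w.asIdeal) (hq : (q : 𝓞 k) ∉ w.asIdeal) :
    (3 : ℤ) ∣ log (w.valuation k d) := by
  have h20 : (2 : w.adicCompletion k) ≠ 0 := by
    have : (algebraMap k (w.adicCompletion k) 2) ≠ 0 :=
      (map_ne_zero_iff _ (algebraMap k (w.adicCompletion k)).injective).2 (by norm_num)
    rwa [map_ofNat] at this
  have h9 : Valued.v ((9 : w.adicCompletion k) * algebraMap k (w.adicCompletion k) (q : k)) = 1 := by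
    have e : (9 : w.adicCompletion k) * algebraMap k (w.adicCompletion k) (q : k) =
        algebraMap k (w.adicCompletion k) (algebraMap (𝓞 k) k (3 * 3 * (q : 𝓞 k))) := by
      rw [map_mul, map_mul, map_mul, map_mul, map_ofNat, map_ofNat, map_natCast]
      norm_num
    rw [e, valued_algebraMap]
    refine (w.valuation_eq_one_iff_notMem (K := k)).2 ?_
    intro h
    rcases w.isPrime.mem_or_mem h with h | h
    · rcases w.isPrime.mem_or_mem h with h | h <;> exact h3 h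
    · exact hq h
  have H2 : LocSol (1 : w.adicCompletion k) 0
      ((9 * algebraMap k (w.adicCompletion k) (q : k)) / 2)
      (algebraMap k (w.adicCompletion k) d) := by
    rcases H1 with ⟨t, ht⟩ | ⟨U, v, e⟩
    · exact Or.inl ⟨t, ht⟩
    · refine Or.inr ⟨U / 2, v / 2, ?_⟩
      rw [map_one, map_zero, map_mul, map_ofNat] at e
      generalize algebraMap k (w.adicCompletion k) d = D at *
      generalize algebraMap k (w.adicCompletion k) (q : k) = Q at *
      have e8 : (2 : w.adicCompletion k) ^ 3 * (D ^ 2 * (v / 2) ^ 3 - (U / 2) ^ 3) =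
          2 ^ 3 * (D * 1 * (6 * 0 * (U / 2) * (v / 2) + 2 * (9 * Q / 2))) := by
        have f1 : (2 : w.adicCompletion k) ^ 3 * (D ^ 2 * (v / 2) ^ 3 - (U / 2) ^ 3) =
            D ^ 2 * v ^ 3 - U ^ 3 := by field_simp
        rw [f1, e]
        field_simp
        ring
      exact mul_left_cancel₀ (pow_ne_zero 3 h20) e8
  rw [← valued_algebraMap w d]
  refine vg (V := Valued.v) (map_one _) ?_ ?_ ?_ H2
  · rw [mul_zero, map_zero]; exact zero_le
  · rw [mul_div_cancel₀ _ h20]; exact h9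
  · exact (map_ne_zero_iff _ (algebraMap k (w.adicCompletion k)).injective).2 hd

theorem Xi_threeG {k : Type} [Field k] [NumberField k] {q : ℕ} {d : k} (hd : d ≠ 0)
    (w : HeightOneSpectrum (𝓞 k)) (h3 : w.valuation k 3 = exp (-1 : ℤ))
    (hb : w.valuation k (4 * q : k) = 1)
    (H1 : LocSol (algebraMap k (w.adicCompletion k) 1) (algebraMap k (w.adicCompletion k) 0)
      (algebraMap k (w.adicCompletion k) (36 * q)) (algebraMap k (w.adicCompletion k) d)) :
    Cls2 (w.valuation k) 0 (4 * q) d := by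
  have h3c : Valued.v (3 : w.adicCompletion k) = exp (-1 : ℤ) := by
    rw [valued_ofNat w 3]; exact h3
  have e0 : (algebraMap k (w.adicCompletion k) (36 * (q : k))) =
      9 * (algebraMap k (w.adicCompletion k) (4 * (q : k))) +
        4 * (algebraMap k (w.adicCompletion k) 0) ^ 3 := by
    rw [map_mul, map_mul, map_zero, map_ofNat, map_ofNat]
    ring
  rw [e0, map_one] at H1
  have H2 := wb (V := Valued.v) h3c (a := algebraMap k (w.adicCompletion k) 0)
    (b := algebraMap k (w.adicCompletion k) (4 * (q : k)))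
    (by rw [map_zero, map_zero]; exact one_pos)
    (by rw [valued_algebraMap]; exact hb)
    ((map_ne_zero_iff _ (algebraMap k (w.adicCompletion k)).injective).2 hd) H1
  exact cls2_descend h3 (by rw [map_zero]; exact zero_le) hb.le hd H2

theorem Xi_three {q : ℕ} (h9 : q % 9 = 2 ∨ q % 9 = 5) (hq0 : (q : ℚ) ≠ 0) {d : ℚ} (hd : d ≠ 0)
    (H : FinSol3 ℚ 1 0 (36 * q) d)
    (w : HeightOneSpectrum (𝓞 ℚ)) (hw : (3 : 𝓞 ℚ) ∈ w.asIdeal) :
    ∃ (j : ℕ) (τ : ℚ), τ ≠ 0 ∧
      w.valuation ℚ (d * (2 * (36 * q)) ^ j * τ ^ 3 - 1) ≤ exp (-2 : ℤ) := by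
  have h3 : w.valuation ℚ 3 = exp (-1 : ℤ) := by
    have := rat_unr Nat.prime_three w (by exact_mod_cast hw)
    exact_mod_cast this
  have hb : w.valuation ℚ (4 * q : ℚ) = 1 := by
    have := Vb_unit (V := w.valuation ℚ) h3 (n := 4 * q) (by omega)
    push_cast at this
    exact this
  have H3 := Xi_threeG hd w h3 hb (H w)
  have e72 : (2 * (9 * (4 * (q : ℚ)) + 4 * 0 ^ 3)) = 2 * (36 * q) := by ring
  have h72 : (2 * (36 * (q : ℚ))) ≠ 0 := by positivity
  rcases H3 with ⟨t, η, -, -, h0, -⟩ | ⟨t, ht, hc⟩ | ⟨-, t, ht, hc | hc⟩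
  · rw [map_zero] at h0
    exact absurd h0 zero_ne_one
  · exact ⟨0, t, ht, by rw [pow_zero, mul_one]; exact hc⟩
  · rw [e72] at hc
    refine ⟨1, t, ht, ?_⟩
    have : d * (2 * (36 * (q : ℚ))) ^ 1 * t ^ 3 - 1 = d * t ^ 3 * (2 * (36 * q)) - 1 := by ring
    rw [this]; exact hc
  · rw [e72] at hc
    refine ⟨2, t / (2 * (36 * q)), div_ne_zero ht h72, ?_⟩
    have : d * (2 * (36 * (q : ℚ))) ^ 2 * (t / (2 * (36 * q))) ^ 3 - 1 =
        d * t ^ 3 * (2 * (36 * (q : ℚ)))⁻¹ - 1 := by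
      field_simp
    rw [this]; exact hc

theorem c1_real {q : ℕ} (hq : q.Prime) (hq2 : q ≠ 2) (h9 : q % 9 = 2 ∨ q % 9 = 5) {d : ℚ} (hd : d ≠ 0)
    (H : FinSol3 ℚ 1 0 (36 * q) d) : ∃ (j : ℕ) (t : ℚ), d = (2 * (36 * q)) ^ j * t ^ 3 := by
  have hq0 : (q : ℚ) ≠ 0 := by exact_mod_cast hq.ne_zero
  have hq3 : q ≠ 3 := by omega
  obtain ⟨e, t, ht, hdt⟩ := rat_rep {3, q} (by
    intro p hp
    rw [Finset.mem_insert, Finset.mem_singleton] at hp
    rcases hp with rfl | rfl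
    · exact Nat.prime_three
    · exact hq) hd (by
    intro w hw
    have h3 := hw 3 (by simp)
    have hq' := hw q (by simp)
    exact Xi_goodG hd w (H w) (by exact_mod_cast h3) hq')
  rw [Finset.prod_insert (by simpa using Ne.symm hq3), Finset.prod_singleton] at hdt
  obtain ⟨w, hw⟩ := Xi_place
  obtain ⟨j, τ, hτ, hc⟩ := Xi_three h9 hq0 hd H w hw
  have h3 : w.valuation ℚ 3 = exp (-1 : ℤ) := by
    have := rat_unr Nat.prime_three w (by exact_mod_cast hw)
    exact_mod_cast this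
  have hVq : w.valuation ℚ (q : ℚ) = 1 := by
    have := Vb_unit (V := w.valuation ℚ) h3 (n := q) (by omega)
    push_cast at this
    exact this
  set i := e 3 with hi
  set k := e q with hk
  have e1 : d * (2 * (36 * (q : ℚ))) ^ j =
      (3 : ℚ) ^ (i + 2 * j) * (q : ℚ) ^ (k + j) * (2 ^ j * t) ^ 3 := by
    have : (2 * (36 * (q : ℚ))) = 2 ^ 3 * 3 ^ 2 * q := by ring
    rw [hdt, this, mul_pow, mul_pow, ← pow_mul, ← pow_mul, pow_add, pow_add, mul_pow,
      ← pow_mul, mul_comm j 3]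
    push_cast
    ring
  have h2t : (2 : ℚ) ^ j * t ≠ 0 := mul_ne_zero (by positivity) ht
  have hone : w.valuation ℚ (d * (2 * (36 * (q : ℚ))) ^ j * τ ^ 3) = 1 := by
    have e2 : d * (2 * (36 * (q : ℚ))) ^ j * τ ^ 3 =
        1 + (d * (2 * (36 * (q : ℚ))) ^ j * τ ^ 3 - 1) := by ring
    rw [e2]
    refine Valuation.map_one_add_of_lt _ (hc.trans_lt ?_)
    rw [← exp_zero, exp_lt_exp]; norm_num
  have hdvd : 3 ∣ i + 2 * j := by
    set s := 2 ^ j * t * τ with hs
    have hs0 : s ≠ 0 := mul_ne_zero h2t hτ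
    have e3 : d * (2 * (36 * (q : ℚ))) ^ j * τ ^ 3 =
        (3 : ℚ) ^ (i + 2 * j) * (q : ℚ) ^ (k + j) * s ^ 3 := by
      rw [e1, hs]; ring
    rw [e3, map_mul, map_mul, map_pow, map_pow, map_pow, h3, hVq, one_pow, mul_one] at hone
    have hVs : w.valuation ℚ s ≠ 0 := (Valuation.ne_zero_iff _).2 hs0
    have h4 := congrArg log hone
    rw [log_mul (pow_ne_zero _ exp_ne_zero) (pow_ne_zero _ hVs), log_pow, log_pow, log_exp,
      log_one] at h4
    simp only [nsmul_eq_mul] at h4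
    push_cast at h4
    omega
  obtain ⟨m, hm⟩ := hdvd
  have hn : ¬ (3 : ℤ) ∣ (q : ℤ) ^ (k + j) := by
    intro h
    have := Int.prime_three.dvd_of_dvd_pow h
    omega
  have h5 := nine_cube (w := w) hw (n := (q : ℤ) ^ (k + j)) hn
    (τ := 3 ^ m * (2 ^ j * t) * τ) (by
      have e4 : (((q : ℤ) ^ (k + j) : ℤ) : ℚ) * (3 ^ m * (2 ^ j * t) * τ) ^ 3 - 1 =
          d * (2 * (36 * (q : ℚ))) ^ j * τ ^ 3 - 1 := by
        rw [e1, hm]
        push_cast
        ring
      rw [e4]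
      exact hc)
  obtain ⟨m', hm'⟩ := Xi_pow h9 h5
  have h72 : (2 * (36 * (q : ℚ))) ≠ 0 := by positivity
  refine ⟨2 * j, (3 ^ m * q ^ m' * (2 ^ j * t)) / (2 * (36 * q)) ^ j, ?_⟩
  have e5 : d * (2 * (36 * (q : ℚ))) ^ j = (3 ^ m * q ^ m' * (2 ^ j * t)) ^ 3 := by
    rw [e1, hm, hm']
    ring
  have h72j : (2 * (36 * (q : ℚ))) ^ j ≠ 0 := pow_ne_zero _ h72
  rw [div_pow, ← e5, mul_comm 2 j, pow_mul]
  field_simp

end H55T3
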