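import Pool.Agent.H55.T3.GDf

/-!
Row Wa (about 250 lines, mostly a copy): `va` of Va.lean with coefficients `a b : F`, `V a = 1`, `V b ≤ 1`, instead of integers, and with the sharper conclusion `Cls2`.

PROOF. Copy the proof of `va` in Va.lean: everywhere `V (a : F) = 1`, `V (b : F) ≤ 1` are used only through the valuation; in the second alternative the proof always has q = 1, so it gives ∃ t ≠ 0, V (d t^3 - 1) ≤ exp (-2).
-/

set_option autoImplicit false
open scoped Classical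

open WeierstrassCurve IsDedekindDomain NumberField WithZero Pool.Agent.H10

namespace H55T3

section WaAux

variable {F : Type*} [Field F] {V : Valuation F (WithZero (Multiplicative ℤ))}

private lemma Wa_mul3 (h3 : V 3 = exp (-1 : ℤ)) {x : F} (h : V x ≤ 1) : V (3 * x) ≤ exp (-1 : ℤ) := by
  rw [map_mul, h3]
  exact mul_le_of_le_one_right' h

private lemma Wa_mul3_lt (h3 : V 3 = exp (-1 : ℤ)) {x : F} (h : V x ≤ 1) : V (3 * x) < 1 :=
  (Wa_mul3 h3 h).trans_lt exp_neg_lt_one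

private lemma Wa_mul9 (h3 : V 3 = exp (-1 : ℤ)) {x : F} (h : V x ≤ 1) : V (9 * x) ≤ exp (-2 : ℤ) := by
  have e : (9 : F) * x = 3 * (3 * x) := by ring
  rw [e, map_mul, h3, exp_neg_two]
  exact mul_le_mul_right (Wa_mul3 h3 h) _

private lemma Wa_two (h3 : V 3 = exp (-1 : ℤ)) : V 2 = 1 := by
  have h1 : V (1 + (-3 : F)) = 1 := by
    refine Valuation.map_one_add_of_lt V ?_
    rw [Valuation.map_neg, h3]
    exact exp_neg_lt_one
  have e : (2 : F) = -(1 + (-3)) := by norm_num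
  rw [e, Valuation.map_neg, h1]

private lemma Wa_exp_sq (n : ℤ) : (exp n : WithZero (Multiplicative ℤ)) ^ 2 = exp (n + n) := by
  rw [pow_two, exp_add]

private lemma Wa_exp_cu (n : ℤ) : (exp n : WithZero (Multiplicative ℤ)) ^ 3 = exp (n + n + n) := by
  rw [pow_succ, pow_two, exp_add, exp_add]

/-- the case of a denominator -/
private lemma Wa_A (h3 : V 3 = exp (-1 : ℤ)) {x y m : F} {a : F} (haV : V a ≤ 1) {c : F} (hc : V c ≤ 1)
    (hm : m = 3 * a * x + c) (hx : 1 < V x) (e : y ^ 2 = x ^ 3 + m ^ 2) :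
    y ≠ 0 ∧ V (m / y) ≤ exp (-2 : ℤ) := by
  have hx0 : V x ≠ 0 := fun h0 => by
    rw [h0] at hx
    exact absurd hx not_lt_zero
  obtain ⟨n, hn⟩ : ∃ n : ℤ, V x = exp n := ⟨log (V x), (exp_log hx0).symm⟩
  have hn1 : 1 ≤ n := by
    have := exp_one_le hx
    rwa [hn, exp_le_exp] at this
  have hmle : V m ≤ exp (n - 1) := by
    rw [hm]
    refine V_add_le ?_ ?_
    · have e1 : 3 * a * x = 3 * x * a := by ring
      rw [e1, map_mul, map_mul, h3, hn, ← exp_add]
      have e2 : (-1 : ℤ) + n = n - 1 := by ring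
      rw [e2]
      exact mul_le_of_le_one_right' haV
    · refine hc.trans ?_
      rw [← exp_zero, exp_le_exp]
      omega
  have hm2 : V (m ^ 2) < V (x ^ 3) := by
    rw [map_pow, map_pow, hn, Wa_exp_cu]
    have h1 : V m ^ 2 ≤ exp (n - 1) ^ 2 := pow_le_pow_left' hmle 2
    refine h1.trans_lt ?_
    rw [Wa_exp_sq, exp_lt_exp]
    omega
  have hy2 : V (y ^ 2) = exp (n + n + n) := by
    rw [e, Valuation.map_add_eq_of_lt_left V hm2, map_pow, hn, Wa_exp_cu]
  have hy0 : V y ≠ 0 := by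
    intro h0
    rw [map_pow, h0, zero_pow two_ne_zero] at hy2
    exact exp_ne_zero hy2.symm
  obtain ⟨r, hr⟩ : ∃ r : ℤ, V y = exp r := ⟨log (V y), (exp_log hy0).symm⟩
  have hrn : r + r = n + n + n := by
    rw [map_pow, hr, Wa_exp_sq] at hy2
    have := le_antisymm (exp_le_exp.1 hy2.le) (exp_le_exp.1 hy2.ge)
    exact this
  refine ⟨fun h0 => hy0 (by rw [h0, map_zero]), ?_⟩
  rw [map_div₀, hr, div_le_iff₀ (by rw [zero_lt_iff]; exact exp_ne_zero), ← exp_add]
  refine hmle.trans ?_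
  rw [exp_le_exp]
  omega

end WaAux

theorem wa {F : Type*} [Field F] {V : Valuation F (WithZero (Multiplicative ℤ))}
    (h3 : V 3 = exp (-1 : ℤ)) {a b : F} (ha : V a = 1) (hb : V b ≤ 1) {d : F} (hd : d ≠ 0)
    (H : LocSol (1 : F) a (9 * b + 4 * a ^ 3) d) : Cls2 V a b d := by
  have hV2 := Wa_two h3
  have hVa : V a = 1 := ha
  have n9' : V (9 : F) ≤ 1 := by exact_mod_cast V_int (V := V) (9 : ℤ)
  have n4' : V (4 : F) ≤ 1 := by exact_mod_cast V_int (V := V) (4 : ℤ)
  have ha0 : a ≠ 0 := by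
    intro h
    rw [h, map_zero] at hVa
    exact zero_ne_one hVa
  have h30 : (3 : F) ≠ 0 := by
    intro h
    rw [h, map_zero] at h3
    exact exp_ne_zero h3.symm
  have pos : (0 : WithZero (Multiplicative ℤ)) < 1 := zero_lt_one
  rcases H with ⟨u, hu⟩ | ⟨U, v, hUv⟩
  · right
    left
    have hu0 : u ≠ 0 := by
      rintro rfl
      exact hd (by rw [hu]; ring)
    refine ⟨u⁻¹, inv_ne_zero hu0, ?_⟩
    have e : d * u⁻¹ ^ 3 - 1 = 0 := by
      rw [hu]
      field_simp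
      ring
    rw [e, map_zero]
    exact zero_le
  obtain ⟨c, hc⟩ : ∃ c : F, c = 9 * b + 4 * a ^ 3 := ⟨_, rfl⟩
  rw [← hc] at hUv
  have hcV : V c ≤ 1 := by
    rw [hc]
    refine V_add_le (V_mul_le n9' hb) (V_mul_le n4' ?_)
    rw [map_pow, hVa, one_pow]
  have hc' : c = 9 * b + 4 * a ^ 3 := hc
  obtain ⟨x, hx⟩ : ∃ x : F, x = U * v := ⟨_, rfl⟩
  obtain ⟨m, hm⟩ : ∃ m : F, m = 3 * a * x + c := ⟨_, rfl⟩
  obtain ⟨de, hde⟩ : ∃ de : F, de = d * v ^ 3 := ⟨_, rfl⟩
  obtain ⟨y, hy⟩ : ∃ y : F, y = de - m := ⟨_, rfl⟩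
  obtain ⟨de', hde'⟩ : ∃ de' : F, de' = y - m := ⟨_, rfl⟩
  have hdd : d * de' = U ^ 3 := by
    rw [hde', hy, hm, hde, hx]
    linear_combination hUv
  have hprod : y ^ 2 = x ^ 3 + m ^ 2 := by
    have h1 : d * (de * de') = d * x ^ 3 := by
      rw [hx]
      have : d * (de * de') = de * (d * de') := by ring
      rw [this, hdd, hde]
      ring
    have h2 : de * de' = x ^ 3 := mul_left_cancel₀ hd h1
    have h3 : de = y + m := by rw [hy]; ring
    rw [h3, hde'] at h2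
    linear_combination h2
  -- the two ways to conclude
  have fin1 : ∀ t : F, t ≠ 0 → v ≠ 0 → V (de * t ^ 3 - 1) ≤ exp (-2 : ℤ) → Cls2 V a b d := by
    intro t ht hv h
    refine Or.inr (Or.inl ⟨v * t, mul_ne_zero hv ht, ?_⟩)
    have e : d * (v * t) ^ 3 - 1 = de * t ^ 3 - 1 := by
      rw [hde]
      ring
    rw [e]
    exact h
  rcases lt_or_ge 1 (V x) with hx1 | hx1
  · -- denominators
    obtain ⟨hy0, hz⟩ := Wa_A h3 hVa.le hcV hm hx1 hprod
    have hx0 : x ≠ 0 := by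
      rintro rfl
      rw [map_zero] at hx1
      exact absurd hx1 not_lt_zero
    have hv0 : v ≠ 0 := by
      rintro rfl
      exact hx0 (by rw [hx, mul_zero])
    refine fin1 (x / y) (div_ne_zero hx0 hy0) hv0 ?_
    have e : de * (x / y) ^ 3 - 1 = m / y * (1 - m / y - (m / y) ^ 2) := by
      have h3 : de = y + m := by rw [hy]; ring
      have h4 : x ^ 3 = y ^ 2 - m ^ 2 := by rw [hprod]; ring
      rw [div_pow, h4, h3]
      field_simp
      ring
    have hz1 : V (m / y) ≤ 1 := hz.trans (by rw [← exp_zero, exp_le_exp]; norm_num)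
    rw [e, map_mul]
    have h5 : V (1 - m / y - (m / y) ^ 2) ≤ 1 := by
      refine V_sub_le (V_sub_le (by rw [map_one]) hz1) ?_
      rw [map_pow]
      exact pow_le_one' hz1 2
    calc V (m / y) * V (1 - m / y - (m / y) ^ 2) ≤ V (m / y) * 1 := mul_le_mul_right h5 _
      _ ≤ exp (-2 : ℤ) := by rw [mul_one]; exact hz
  obtain ⟨X, hX⟩ : ∃ X : F, X = x + a ^ 2 := ⟨_, rfl⟩
  have hXV : V X ≤ 1 := by
    rw [hX]
    refine V_add_le hx1 ?_
    rw [map_pow, hVa, one_pow]
  have hmX : m = 3 * a * X + a ^ 3 + 9 * b := by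
    rw [hm, hX, hc']; ring
  have hbV : V b ≤ 1 := hb
  have haV : V a ≤ 1 := hVa.le
  have hyX : y ^ 2 = X ^ 3 + 6 * a ^ 2 * X ^ 2 + 9 * ((a ^ 4 + 6 * a * b) * X + 2 * a ^ 3 * b + 9 * b ^ 2) := by
    have : x = X - a ^ 2 := by rw [hX]; ring
    rw [hprod, hmX, this]
    ring
  have int4 : V ((4 : ℤ) : F) ≤ 1 := V_int 4
  have pa : ∀ {z : F} (k : ℕ), V z ≤ 1 → V (z ^ k) ≤ 1 := fun {z} k h => by
    rw [map_pow]
    exact pow_le_one' h k
  have nm : ∀ n : ℕ, V (n : F) ≤ 1 := fun n => by exact_mod_cast V_int (V := V) (n : ℤ)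
  have n2 : V (2 : F) ≤ 1 := by exact_mod_cast nm 2
  have n6 : V (6 : F) ≤ 1 := by exact_mod_cast nm 6
  have n9 : V (9 : F) ≤ 1 := by exact_mod_cast nm 9
  have n3 : V (3 : F) ≤ 1 := by exact_mod_cast nm 3
  have hR : V ((a ^ 4 + 6 * a * b) * X + 2 * a ^ 3 * b + 9 * b ^ 2) ≤ 1 := by
    refine V_add_le (V_add_le (V_mul_le (V_add_le (pa 4 haV)
      (V_mul_le (V_mul_le n6 haV) hbV)) hXV) (V_mul_le (V_mul_le n2 (pa 3 haV)) hbV))
      (V_mul_le n9 (pa 2 hbV))
  rcases hXV.eq_or_lt with hX1 | hX1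
  · -- `X` is a unit
    have hX0 : X ≠ 0 := by
      rintro rfl
      rw [map_zero] at hX1
      exact zero_ne_one hX1
    have hy2 : V (y ^ 2) = 1 := by
      have e : y ^ 2 = X ^ 3 + 3 * (2 * a ^ 2 * X ^ 2 +
          3 * ((a ^ 4 + 6 * a * b) * X + 2 * a ^ 3 * b + 9 * b ^ 2)) := by
        rw [hyX]; ring
      have hX3 : V (X ^ 3) = 1 := by rw [map_pow, hX1, one_pow]
      rw [e, Valuation.map_add_eq_of_lt_left V ?_, hX3]
      rw [hX3]
      exact Wa_mul3_lt h3 (V_add_le (V_mul_le (V_mul_le n2 (pa 2 haV)) (pa 2 hXV))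
        (V_mul_le n3 hR))
    have hy1 : V y = 1 := val_eq_one_of_sq hy2
    obtain ⟨s, hs⟩ : ∃ s : F, s = y / X := ⟨_, rfl⟩
    have hsV : V s = 1 := by rw [hs, map_div₀, hy1, hX1, div_one]
    have hys : y = s * X := by rw [hs]; field_simp
    -- `X` modulo nine
    obtain ⟨ρ, hρ⟩ : ∃ ρ : F, ρ = -(((a ^ 4 + 6 * a * b) * X + 2 * a ^ 3 * b + 9 * b ^ 2) / X ^ 2) - a ^ 2 :=
      ⟨_, rfl⟩
    have hρV : V ρ ≤ 1 := by
      rw [hρ]
      refine V_sub_le ?_ (pa 2 haV)
      rw [Valuation.map_neg, map_div₀, map_pow, hX1, one_pow, div_one]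
      exact hR
    have hXs : X = s ^ 2 + 3 * a ^ 2 + 9 * ρ := by
      have h1 : s ^ 2 * X ^ 2 = y ^ 2 := by rw [hys]; ring
      have h2 : (s ^ 2 + 3 * a ^ 2 + 9 * ρ - X) * X ^ 2 = 0 := by
        have h3 : ρ * X ^ 2 = -(((a ^ 4 + 6 * a * b) * X + 2 * a ^ 3 * b + 9 * b ^ 2)) - a ^ 2 * X ^ 2 := by
          rw [hρ]
          field_simp
        linear_combination h1 + hyX + 9 * h3
      have h4 := (mul_eq_zero.1 h2).resolve_right (pow_ne_zero 2 hX0)
      linear_combination -h4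
    have hde1 : de - (s + a) ^ 3 = 9 * (s * ρ + 3 * a * ρ + a ^ 3 + b) := by
      have h1 : de = y + m := by rw [hy]; ring
      rw [h1, hmX, hys]
      linear_combination (s + 3 * a) * hXs
    have hde2 : de' - (s - a) ^ 3 = 9 * (s * ρ - 3 * a * ρ - a ^ 3 - b) := by
      rw [hde', hmX, hys]
      linear_combination (s - 3 * a) * hXs
    have hd1 : V (de - (s + a) ^ 3) ≤ exp (-2 : ℤ) := by
      rw [hde1]
      exact Wa_mul9 h3 (V_add_le (V_add_le (V_add_le (V_mul_le hsV.le hρV)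
        (V_mul_le (V_mul_le n3 haV) hρV)) (pa 3 haV)) hbV)
    have hd2 : V (de' - (s - a) ^ 3) ≤ exp (-2 : ℤ) := by
      rw [hde2]
      exact Wa_mul9 h3 (V_sub_le (V_sub_le (V_sub_le (V_mul_le hsV.le hρV)
        (V_mul_le (V_mul_le n3 haV) hρV)) (pa 3 haV)) hbV)
    have hlt : exp (-2 : ℤ) < (1 : WithZero (Multiplicative ℤ)) := by
      rw [← exp_zero, exp_lt_exp]; norm_num
    rcases (V_add_le hsV.le haV).eq_or_lt with h1 | h1
    · -- `s + a` is a unit
      have hsa0 : s + a ≠ 0 := by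
        intro h
        rw [h, map_zero] at h1
        exact zero_ne_one h1
      have hv0 : v ≠ 0 := by
        rintro rfl
        have : de = 0 := by rw [hde]; ring
        rw [this, zero_sub, Valuation.map_neg, map_pow, h1, one_pow] at hd1
        exact absurd hd1 (not_le.2 hlt)
      refine fin1 (s + a)⁻¹ (inv_ne_zero hsa0) hv0 ?_
      have e : de * (s + a)⁻¹ ^ 3 - 1 = (de - (s + a) ^ 3) / (s + a) ^ 3 := by
        field_simp
      rw [e, map_div₀, map_pow, h1, one_pow, div_one]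
      exact hd1
    · -- `s - a` is a unit
      have h2 : V (s - a) = 1 := by
        have e : s - a = -(2 * a) + (s + a) := by ring
        have h5 : V (-(2 * a)) = 1 := by
          rw [Valuation.map_neg, map_mul, hV2, hVa, one_mul]
        rw [e, Valuation.map_add_eq_of_lt_left V (by rw [h5]; exact h1), h5]
      have hde'V : V de' = 1 := by
        have e : de' = (s - a) ^ 3 + (de' - (s - a) ^ 3) := by ring
        have h5 : V ((s - a) ^ 3) = 1 := by rw [map_pow, h2, one_pow]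
        rw [e, Valuation.map_add_eq_of_lt_left V (by rw [h5]; exact hd2.trans_lt hlt), h5]
      have hde'0 : de' ≠ 0 := by
        intro h
        rw [h, map_zero] at hde'V
        exact zero_ne_one hde'V
      have hU0 : U ≠ 0 := by
        rintro rfl
        have h6 : d * de' = 0 := by rw [hdd]; ring
        exact mul_ne_zero hd hde'0 h6
      have hsa0 : s - a ≠ 0 := by
        intro h
        rw [h, map_zero] at h2
        exact zero_ne_one h2
      refine Or.inr (Or.inl ⟨(s - a) / U, div_ne_zero hsa0 hU0, ?_⟩)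
      have e : d * ((s - a) / U) ^ 3 - 1 = -((de' - (s - a) ^ 3) / de') := by
        rw [div_pow, ← hdd]
        field_simp
        ring
      rw [e, Valuation.map_neg, map_div₀, hde'V, div_one]
      exact hd2
  · -- `X` is not a unit
    obtain ⟨X1, hX1'⟩ : ∃ X1 : F, X1 = X / 3 := ⟨_, rfl⟩
    have hXX : X = 3 * X1 := by rw [hX1']; field_simp
    have hX1V : V X1 ≤ 1 := by
      rw [hX1', map_div₀, h3, div_le_iff₀ (by rw [zero_lt_iff]; exact exp_ne_zero), one_mul]
      exact le_exp_neg_one hX1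
    obtain ⟨y1, hy1'⟩ : ∃ y1 : F, y1 = y / 3 := ⟨_, rfl⟩
    have hyy : y = 3 * y1 := by rw [hy1']; field_simp
    have hy1e : y1 ^ 2 - 2 * a ^ 3 * b =
        3 * (X1 ^ 3 + 2 * a ^ 2 * X1 ^ 2 + (a ^ 4 + 6 * a * b) * X1 + 3 * b ^ 2) := by
      have h1 := hyX
      rw [hXX, hyy] at h1
      have h9 : (9 : F) ≠ 0 := by
        have : (9 : F) = 3 * 3 := by norm_num
        rw [this]
        exact mul_ne_zero h30 h30
      apply mul_left_cancel₀ h9
      linear_combination h1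
    have hy1lt : V (y1 ^ 2 - 2 * a ^ 3 * b) < 1 := by
      rw [hy1e]
      exact Wa_mul3_lt h3 (V_add_le (V_add_le (V_add_le (pa 3 hX1V)
        (V_mul_le (V_mul_le n2 (pa 2 haV)) (pa 2 hX1V)))
        (V_mul_le (V_add_le (pa 4 haV) (V_mul_le (V_mul_le n6 haV) hbV)) hX1V))
        (V_mul_le n3 (pa 2 hbV)))
    have hy1V : V y1 ≤ 1 := by
      by_contra hcon
      rw [not_le] at hcon
      have h1 : V (y1 ^ 2) ≤ 1 := by
        have e : y1 ^ 2 = (y1 ^ 2 - 2 * a ^ 3 * b) + 2 * a ^ 3 * b := by ring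
        rw [e]
        exact V_add_le hy1lt.le (V_mul_le (V_mul_le n2 (pa 3 haV)) hbV)
      rw [map_pow] at h1
      exact absurd (one_lt_pow₀ hcon two_ne_zero) (not_lt.2 h1)
    have hdee : de - (a ^ 3 + 3 * y1) = 9 * (a * X1 + b) := by
      have h1 : de = y + m := by rw [hy]; ring
      rw [h1, hmX, hyy, hXX]
      ring
    have hdeV : V (de - (a ^ 3 + 3 * y1)) ≤ exp (-2 : ℤ) := by
      rw [hdee]
      exact Wa_mul9 h3 (V_add_le (V_mul_le haV hX1V) hbV)
    have hlt : exp (-2 : ℤ) < (1 : WithZero (Multiplicative ℤ)) := by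
      rw [← exp_zero, exp_lt_exp]; norm_num
    have hu : V (a ^ 3 + 3 * y1) = 1 := by
      have h5 : V (a ^ 3) = 1 := by rw [map_pow, hVa, one_pow]
      rw [Valuation.map_add_eq_of_lt_left V (by rw [h5]; exact Wa_mul3_lt h3 hy1V), h5]
    have hv0 : v ≠ 0 := by
      rintro rfl
      have : de = 0 := by rw [hde]; ring
      rw [this, zero_sub, Valuation.map_neg, hu] at hdeV
      exact absurd hdeV (not_le.2 hlt)
    refine Or.inl ⟨v / a, y1 / a ^ 3, div_ne_zero hv0 ha0, ?_, hVa, ?_, ?_⟩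
    · rw [map_div₀, map_pow, hVa, one_pow, div_one]
      exact hy1V
    · have e : (y1 / a ^ 3) ^ 2 * a ^ 3 - 2 * b = (y1 ^ 2 - 2 * a ^ 3 * b) / a ^ 3 := by
        field_simp
      rw [e, map_div₀, map_pow, hVa, one_pow, div_one]
      exact hy1lt
    · have e : d * (v / a) ^ 3 - (1 + 3 * (y1 / a ^ 3)) = (de - (a ^ 3 + 3 * y1)) / a ^ 3 := by
        rw [hde]
        field_simp
      rw [e, map_div₀, map_pow, hVa, one_pow, div_one]
      exact hdeV

end H55T3
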