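import Pool.Agent.H55.T3.Xh
import Pool.Agent.H55.T3.Wa
import Pool.Agent.H55.T3.Ws

/-!
Row Xj (about 150 lines): the real side for the curve of rank two (a = -5, b = 135, c = 715 = 5 * 11 * 13).

PROOF. (1) place w with 2, 5, 11, 13 ∉ w: vg (Vg.lean) on the completion with s = 1, V (6 a) ≤ 1, V (2 * 715) = 1 (1430 = 2 * 5 * 11 * 13): 3 | log V d. rat_rep with S = {2, 5, 11, 13}: d = 2^i 5^j 11^k 13^l t^3.
(2) place w containing 3 (V 3 = exp (-1), rat_unr): wa (V a = 1, V b ≤ 1) and cls2_descend: Cls2 (w.valuation ℚ) (-5) 135 d. First alternative: V (η^2 a^3 - 2 b) < 1 and V (2 b) < 1 (3 | 135), so V η < 1 and V (3 η) ≤ exp (-2) (Vs_three), so V (d t'^3 - 1) ≤ exp (-2). Second: the same. Third: V a < 1 is false.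
    So with n = 2^i 5^j 11^k 13^l: V (n τ^3 - 1) ≤ exp (-2), nine_cube: n ≡ ±1 mod 9. Modulo 9: 5 = -2^2, 11 = 2, 13 = 2^2, and 2 has order 6, 2^3 = -1: so i + 2 j + k + 2 l ≡ 0 mod 3.
(3) e3 = k, e2 = l, e1 = j + 2 k: 10^e1 26^e2 55^e3 = 2^(j+2k+l) 5^(j+3k) 11^k 13^l and i ≡ j + 2 k + l mod 3: the quotient of d by it is a cube.
-/

set_option autoImplicit false
open scoped Classical

open IsDedekindDomain NumberField WithZero Pool.Agent.H10

namespace H55T3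

theorem Xj_exists3 : ∃ w : HeightOneSpectrum (𝓞 ℚ), (3 : 𝓞 ℚ) ∈ w.asIdeal := by
  have h3u : ¬ IsUnit (3 : 𝓞 ℚ) := by
    intro h
    have h1 := h.map Rat.ringOfIntegersEquiv
    rw [map_ofNat] at h1
    rcases Int.isUnit_iff.1 h1 with h2 | h2 <;> norm_num at h2
  have hne : Ideal.span {(3 : 𝓞 ℚ)} ≠ ⊤ := by
    rw [Ne, Ideal.span_singleton_eq_top]
    exact h3u
  obtain ⟨M, hM, hle⟩ := Ideal.exists_le_maximal _ hne
  have h3M : (3 : 𝓞 ℚ) ∈ M := hle (Ideal.mem_span_singleton_self _)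
  refine ⟨⟨M, hM.isPrime, ?_⟩, h3M⟩
  rintro rfl
  exact (by norm_num : (3 : 𝓞 ℚ) ≠ 0) (Ideal.mem_bot.1 h3M)

theorem Xj_two {m : ℕ} (h : (2 : ZMod 9) ^ m = 1 ∨ (2 : ZMod 9) ^ m = 8) : m % 3 = 0 := by
  have h8 : ∀ q : ℕ, (8 : ZMod 9) ^ q = 1 ∨ (8 : ZMod 9) ^ q = 8 := by
    intro q
    induction q with
    | zero => left; rfl
    | succ q ih =>
      rcases ih with ih | ih
      · right; rw [pow_succ, ih]; rfl
      · left; rw [pow_succ, ih]; rfl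
  have hm : m = 3 * (m / 3) + m % 3 := by omega
  have h2 : (2 : ZMod 9) ^ m = 8 ^ (m / 3) * 2 ^ (m % 3) := by
    conv_lhs => rw [hm]
    rw [pow_add, pow_mul]
    rfl
  rw [h2] at h
  have hr : m % 3 = 0 ∨ m % 3 = 1 ∨ m % 3 = 2 := by omega
  rcases hr with hr | hr | hr
  · exact hr
  · exfalso
    rw [hr] at h
    rcases h8 (m / 3) with h9 | h9 <;> rw [h9] at h <;> revert h <;> decide
  · exfalso
    rw [hr] at h
    rcases h8 (m / 3) with h9 | h9 <;> rw [h9] at h <;> revert h <;> decide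

theorem Xj_nine {i j k l : ℕ}
    (h : ((2 ^ i * 5 ^ j * 11 ^ k * 13 ^ l : ℤ)) % 9 = 1 ∨
      ((2 ^ i * 5 ^ j * 11 ^ k * 13 ^ l : ℤ)) % 9 = 8) :
    (i + 5 * j + k + 2 * l) % 3 = 0 := by
  apply Xj_two
  have e : ((2 ^ i * 5 ^ j * 11 ^ k * 13 ^ l : ℤ) : ZMod 9) = 2 ^ (i + 5 * j + k + 2 * l) := by
    push_cast
    have h5 : (5 : ZMod 9) = 2 ^ 5 := by decide
    have h11 : (11 : ZMod 9) = 2 := by decide
    have h13 : (13 : ZMod 9) = 2 ^ 2 := by decide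
    rw [h5, h11, h13, ← pow_mul, ← pow_mul, ← pow_add, ← pow_add, ← pow_add]
  rw [← e]
  rcases h with h | h
  · left
    have h1 : ((2 ^ i * 5 ^ j * 11 ^ k * 13 ^ l : ℤ) : ZMod 9) = ((1 : ℤ) : ZMod 9) :=
      (ZMod.intCast_eq_intCast_iff _ _ 9).2 (by unfold Int.ModEq; push_cast; rw [h])
    rw [h1, Int.cast_one]
  · right
    have h1 : ((2 ^ i * 5 ^ j * 11 ^ k * 13 ^ l : ℤ) : ZMod 9) = ((8 : ℤ) : ZMod 9) :=
      (ZMod.intCast_eq_intCast_iff _ _ 9).2 (by unfold Int.ModEq; push_cast; rw [h])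
    rw [h1]
    rfl

theorem Xj_not3 (i j k l : ℕ) : ¬ (3 : ℤ) ∣ 2 ^ i * 5 ^ j * 11 ^ k * 13 ^ l := by
  have hp : Prime (3 : ℤ) := Int.prime_three
  intro h
  rcases hp.dvd_or_dvd h with h | h
  · rcases hp.dvd_or_dvd h with h | h
    · rcases hp.dvd_or_dvd h with h | h
      · have := hp.dvd_of_dvd_pow h; omega
      · have := hp.dvd_of_dvd_pow h; omega
    · have := hp.dvd_of_dvd_pow h; omega
  · have := hp.dvd_of_dvd_pow h; omega

theorem Xj_final {i j k l : ℕ} (h : (i + 5 * j + k + 2 * l) % 3 = 0) {t : ℚ} (ht : t ≠ 0) :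
    ∃ u : ℚ, u ≠ 0 ∧ (2 : ℚ) ^ i * 5 ^ j * 11 ^ k * 13 ^ l * t ^ 3 =
      10 ^ (j + 2 * k) * 26 ^ l * 55 ^ k * u ^ 3 := by
  obtain ⟨z, hz⟩ : ∃ z : ℤ, (i : ℤ) = ((j + 2 * k + l : ℕ) : ℤ) + z * 3 :=
    ⟨((i : ℤ) - ((j + 2 * k + l : ℕ) : ℤ)) / 3, by push_cast; omega⟩
  have h2 : (2 : ℚ) ≠ 0 := two_ne_zero
  have h5 : (5 : ℚ) ^ k ≠ 0 := pow_ne_zero _ (by norm_num)
  have h2i : (2 : ℚ) ^ i = 2 ^ (j + 2 * k + l) * ((2 : ℚ) ^ z) ^ 3 := by
    rw [← zpow_natCast (2 : ℚ) i, hz, zpow_add₀ h2, zpow_natCast, zpow_mul]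
    norm_cast
  refine ⟨t * 2 ^ z * ((5 : ℚ) ^ k)⁻¹, mul_ne_zero (mul_ne_zero ht (zpow_ne_zero _ h2))
    (inv_ne_zero h5), ?_⟩
  have e10 : (10 : ℚ) ^ (j + 2 * k) = 2 ^ (j + 2 * k) * 5 ^ (j + 2 * k) := by
    rw [← mul_pow]; norm_num
  have e26 : (26 : ℚ) ^ l = 2 ^ l * 13 ^ l := by
    rw [← mul_pow]; norm_num
  have e55 : (55 : ℚ) ^ k = 5 ^ k * 11 ^ k := by
    rw [← mul_pow]; norm_num
  rw [h2i, e10, e26, e55]
  obtain ⟨Z, hZ⟩ : ∃ Z : ℚ, Z = 2 ^ z := ⟨_, rfl⟩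
  rw [← hZ]
  have e5 : (5 : ℚ) ^ (j + 2 * k) = 5 ^ j * (5 ^ k) ^ 2 := by
    rw [pow_add, ← pow_mul, mul_comm 2 k]
  have e2 : (2 : ℚ) ^ (j + 2 * k + l) = 2 ^ (j + 2 * k) * 2 ^ l := pow_add _ _ _
  rw [e5, e2]
  generalize (5 : ℚ) ^ k = A at *
  field_simp

theorem Xj_loc {k : Type} [Field k] [NumberField k] {w : HeightOneSpectrum (𝓞 k)}
    (h3 : w.valuation k 3 = exp (-1 : ℤ)) {a b c d : k} (ha : w.valuation k a = 1)
    (hb : w.valuation k b ≤ 1) (hd : d ≠ 0) (hc : c = 9 * b + 4 * a ^ 3)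
    (H : LocSol (algebraMap k (w.adicCompletion k) 1) (algebraMap k (w.adicCompletion k) a)
      (algebraMap k (w.adicCompletion k) c) (algebraMap k (w.adicCompletion k) d)) :
    Cls2 (w.valuation k) a b d := by
  have e3 : Valued.v (3 : w.adicCompletion k) = exp (-1 : ℤ) := by
    rw [valued_ofNat w 3]; exact h3
  refine cls2_descend h3 ha.le hb hd ?_
  refine wa e3 ?_ ?_ ((map_ne_zero_iff _ (algebraMap k (w.adicCompletion k)).injective).2 hd) ?_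
  · rw [valued_algebraMap]; exact ha
  · rw [valued_algebraMap]; exact hb
  · have e4 : 9 * algebraMap k (w.adicCompletion k) b +
        4 * (algebraMap k (w.adicCompletion k) a) ^ 3 = algebraMap k (w.adicCompletion k) c := by
      rw [hc, map_add, map_mul, map_mul, map_pow, map_ofNat, map_ofNat]
    rw [e4]
    rw [map_one] at H
    exact H

theorem c2_real {d : ℚ} (hd : d ≠ 0) (H : FinSol3 ℚ 1 (-5) 715 d) :
    ∃ (e1 e2 e3 : ℕ) (t : ℚ), t ≠ 0 ∧ d = 10 ^ e1 * 26 ^ e2 * 55 ^ e3 * t ^ 3 := by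
  -- good places
  have hval : ∀ w : HeightOneSpectrum (𝓞 ℚ), (∀ p ∈ ({2, 5, 11, 13} : Finset ℕ),
      (p : 𝓞 ℚ) ∉ w.asIdeal) → (3 : ℤ) ∣ log (w.valuation ℚ d) := by
    intro w hw
    refine vg_place (s := 1) (a := -5) (c := 715) (map_one _) ?_ hd ?_
    · have hp := w.isPrime
      have e : ((2 * 715 : ℤ) : 𝓞 ℚ) = ((2 : ℕ) : 𝓞 ℚ) * ((5 : ℕ) : 𝓞 ℚ) * ((11 : ℕ) : 𝓞 ℚ) *
          ((13 : ℕ) : 𝓞 ℚ) := by
        push_cast; norm_num
      rw [e]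
      intro h
      rcases hp.mem_or_mem h with h | h
      · rcases hp.mem_or_mem h with h | h
        · rcases hp.mem_or_mem h with h | h
          · exact hw 2 (by decide) h
          · exact hw 5 (by decide) h
        · exact hw 11 (by decide) h
      · exact hw 13 (by decide) h
    · have h := H w
      have e1 : ((-5 : ℤ) : ℚ) = -5 := by norm_num
      have e2 : ((715 : ℤ) : ℚ) = 715 := by norm_num
      rw [e1, e2]
      exact h
  obtain ⟨e, t, ht, hdt⟩ := rat_rep {2, 5, 11, 13} (by decide) hd hval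
  have hprod : (∏ p ∈ ({2, 5, 11, 13} : Finset ℕ), (p : ℚ) ^ (e p)) =
      2 ^ e 2 * 5 ^ e 5 * 11 ^ e 11 * 13 ^ e 13 := by
    rw [Finset.prod_insert (by decide), Finset.prod_insert (by decide),
      Finset.prod_insert (by decide), Finset.prod_singleton]
    push_cast
    ring
  rw [hprod] at hdt
  -- the place above three
  obtain ⟨w, hw⟩ := Xj_exists3
  have h3 : w.valuation ℚ 3 = exp (-1 : ℤ) := by
    have h := rat_unr Nat.prime_three w (by exact_mod_cast hw)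
    exact_mod_cast h
  have ha1 : w.valuation ℚ (-5) = 1 := by
    have h := Vb_unit (V := w.valuation ℚ) h3 (n := -5) (by decide)
    push_cast at h
    exact h
  have hb1 : w.valuation ℚ 135 ≤ 1 := by
    have h := V_int (V := w.valuation ℚ) (135 : ℤ)
    push_cast at h
    exact h
  have hcls : Cls2 (w.valuation ℚ) (-5) 135 d :=
    Xj_loc h3 ha1 hb1 hd (by norm_num) (H w)
  -- the class is trivial at three
  obtain ⟨t1, ht1, hc1⟩ : ∃ t1 : ℚ, t1 ≠ 0 ∧ w.valuation ℚ (d * t1 ^ 3 - 1) ≤ exp (-2 : ℤ) := by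
    rcases hcls with ⟨t1, η, ht1, hη, -, hroot, hc⟩ | ⟨t1, ht1, hc⟩ | ⟨hVa, -⟩
    · refine ⟨t1, ht1, ?_⟩
      have h270 : w.valuation ℚ (2 * 135) < 1 := by
        have e6 : (2 * 135 : ℚ) = 3 * ((90 : ℤ) : ℚ) := by norm_num
        rw [e6]
        exact Vs_three_lt h3 (V_int (V := w.valuation ℚ) 90)
      have h1 : w.valuation ℚ (η ^ 2 * (-5) ^ 3) < 1 := by
        have e7 : η ^ 2 * (-5) ^ 3 = (η ^ 2 * (-5) ^ 3 - 2 * 135) + 2 * 135 := by ring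
        rw [e7]
        exact V_add_lt hroot h270
      rw [map_mul, map_pow, map_pow, ha1, one_pow, mul_one] at h1
      have h2 : w.valuation ℚ η < 1 := by
        by_contra hcon
        rw [not_lt] at hcon
        exact absurd h1 (not_lt.2 (one_le_pow₀ hcon))
      have e8 : d * t1 ^ 3 - 1 = (d * t1 ^ 3 - (1 + 3 * η)) + 3 * η := by ring
      rw [e8]
      exact V_add_le hc (Vs_three h3 h2)
    · exact ⟨t1, ht1, hc⟩
    · rw [ha1] at hVa
      exact absurd hVa (lt_irrefl _)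
  have h9 := nine_cube hw (n := 2 ^ e 2 * 5 ^ e 5 * 11 ^ e 11 * 13 ^ e 13) (Xj_not3 _ _ _ _)
    (τ := t * t1) (by
      have e9 : (((2 ^ e 2 * 5 ^ e 5 * 11 ^ e 11 * 13 ^ e 13 : ℤ) : ℚ)) * (t * t1) ^ 3 - 1 =
          d * t1 ^ 3 - 1 := by
        rw [hdt]
        push_cast
        ring
      rw [e9]
      exact hc1)
  obtain ⟨u, hu, hfin⟩ := Xj_final (Xj_nine h9) ht
  exact ⟨e 5 + 2 * e 11, e 13, e 11, u, hu, by rw [hdt]; exact hfin⟩

end H55T3
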