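import Pool.Agent.H55.T3.Xk
import Pool.Agent.H55.T3.Vg

/-!
Row Xl (about 170 lines): the minus side for y^2 = x^3 + 1296 q^2 (a = 0, b = 4 q).

PROOF. (1) valuations of d at a place w: if 6 q ∉ w: vg on the completion (V s = 1 because s^2 = -3 and 3 ∉ w, a = 0, V (2 * 108 q) = V (216 q) = 1). If 2, 3 or q ∈ w: these primes are not 1 mod 3, exists_conj3 and hJ give g d * d = y^3, val_of_norm. So unit_form: d = ζ^i β^3, ζ = (-1 + s)/2, i < 3; i = 0: done (y = β).
(2) i = 1, 2. Take a place w containing q (exists: q is not a unit). V q = exp (-1) (q unramified, q ≠ 3; e.g. the ideal (q) is not a square: or from nonsplit: w^2 ∤ (q); use discriminant -3). H w in the completion: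
 first alternative d = t^3: z = t / β has z^3 = ζ^i, V z = 1. Approximate z by an element x of 𝓞 C with V (z - x) < 1 (exists_close, H10/StarGal, then adjust; or the residue field of the completion is 𝓞 C / w): ζ^i - x^3 ∈ w, contradiction to zeta_not_cube (ζ is integral).
 second alternative d^2 v^3 - U^3 = d s * 216 q. With v1 = β v, U1 = U / β, divide by β^3: ζ^(2 i) v1^3 - U1^3 = ζ^i s 216 q, right side V = exp (-1). If V v1 ≠ V U1 the left side has valuation a cube, impossible; so V v1 = V U1 =: m, and m ≥ 1 (otherwise the left side is ≤ exp (-3)). z = U1 / v1: V (ζ^(2 i) - z^3) ≤ exp (-1) < 1, V z = 1.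
 Approximate z by x ∈ 𝓞 C: ζ^(2 i) - x^3 ∈ w, and ζ^(2 i) = ζ^(i') with i' ∈ {1, 2}: contradiction to zeta_not_cube.
-/

set_option autoImplicit false
open scoped Classical

open IsDedekindDomain NumberField WithZero Pool.Agent.H10

namespace H55T3

theorem Xl_fin {C : Type} [Field C] [NumberField C] [IsCyclotomicExtension {3} ℚ C] :
    Module.finrank ℤ (𝓞 C) = 2 := by
  rw [RingOfIntegers.rank]
  rw [IsCyclotomicExtension.finrank (n := 3) C (Polynomial.cyclotomic.irreducible_rat (by norm_num))]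
  decide

theorem Xl_place {C : Type} [Field C] [NumberField C] [IsCyclotomicExtension {3} ℚ C] {q : ℕ}
    (hq : q.Prime) : ∃ w : HeightOneSpectrum (𝓞 C), (q : 𝓞 C) ∈ w.asIdeal := by
  have h1 : Ideal.span {(q : 𝓞 C)} ≠ ⊤ := by
    intro h
    have h2 := Ideal.absNorm_span_natCast (S := 𝓞 C) q
    rw [h, Ideal.absNorm_top, Xl_fin] at h2
    have := hq.one_lt
    nlinarith
  obtain ⟨M, hM, hle⟩ := Ideal.exists_le_maximal _ h1
  have hmem : (q : 𝓞 C) ∈ M := hle (Ideal.mem_span_singleton_self _)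
  refine ⟨⟨M, hM.isPrime, ?_⟩, hmem⟩
  rintro rfl
  rw [Ideal.mem_bot] at hmem
  exact hq.ne_zero (by exact_mod_cast hmem)

theorem Xl_ram {C : Type} [Field C] [NumberField C] [IsCyclotomicExtension {3} ℚ C] {q : ℕ}
    (hq : q.Prime) {w : HeightOneSpectrum (𝓞 C)} (_ : (q : 𝓞 C) ∈ w.asIdeal) :
    ¬ w.valuation C (q : C) ≤ exp (-3 : ℤ) := by
  intro h
  have e : (q : C) = algebraMap (𝓞 C) C (q : 𝓞 C) := by rw [map_natCast]
  have h1 : w.intValuation (q : 𝓞 C) ≤ exp (-((3 : ℕ) : ℤ)) := by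
    rw [e, w.valuation_of_algebraMap] at h
    exact h
  rw [w.intValuation_le_pow_iff_dvd] at h1
  have h2 : Ideal.absNorm w.asIdeal ^ 3 ∣ q ^ 2 := by
    have h3 := map_dvd Ideal.absNorm h1
    rwa [map_pow, Ideal.absNorm_span_natCast, Xl_fin] at h3
  have h4 : Ideal.absNorm w.asIdeal ∣ q ^ 2 := (dvd_pow_self _ (by norm_num)).trans h2
  obtain ⟨k, hk, hk2⟩ := (Nat.dvd_prime_pow hq).1 h4
  have hk0 : k ≠ 0 := by
    rintro rfl
    rw [pow_zero, Ideal.absNorm_eq_one_iff] at hk2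
    exact w.isPrime.ne_top hk2
  rw [hk2, ← pow_mul] at h2
  have h5 := (Nat.pow_dvd_pow_iff_le_right hq.one_lt).1 h2
  omega

theorem Xl_approx {C : Type} [Field C] [NumberField C] {w : HeightOneSpectrum (𝓞 C)} {θ : 𝓞 C}
    {z : w.adicCompletion C} (hz : Valued.v z ≤ 1)
    (h : Valued.v (algebraMap C (w.adicCompletion C) (algebraMap (𝓞 C) C θ) - z ^ 3) < 1) :
    ∃ x : 𝓞 C, θ - x ^ 3 ∈ w.asIdeal := by
  obtain ⟨k, hk⟩ := exists_close w z 0
  rw [exp_zero] at hk
  have hk1 : w.valuation C k ≤ 1 := by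
    rw [← valued_algebraMap w k]
    have e : algebraMap C (w.adicCompletion C) k =
        (algebraMap C (w.adicCompletion C) k - z) + z := by ring
    rw [e]
    exact Valuation.map_add_le _ hk.le hz
  obtain ⟨x, hx⟩ := w.exists_valuation_sub_lt_of_integer (K := C) hk1 1
  refine ⟨x, ?_⟩
  rw [← w.valuation_lt_one_iff_mem (K := C), ← valued_algebraMap w]
  set X := algebraMap C (w.adicCompletion C) (algebraMap (𝓞 C) C x) with hX
  have hXz : Valued.v (X - z) < 1 := by
    have e : X - z = algebraMap C (w.adicCompletion C) (algebraMap (𝓞 C) C x - k) +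
        (algebraMap C (w.adicCompletion C) k - z) := by rw [map_sub]; ring
    rw [e]
    refine Valuation.map_add_lt _ ?_ hk
    rw [valued_algebraMap w]
    exact hx
  have hX1 : Valued.v X ≤ 1 := by
    rw [hX, valued_algebraMap w]
    exact w.valuation_le_one x
  have e : algebraMap C (w.adicCompletion C) (algebraMap (𝓞 C) C (θ - x ^ 3)) =
      (algebraMap C (w.adicCompletion C) (algebraMap (𝓞 C) C θ) - z ^ 3) -
        (X - z) * (X ^ 2 + X * z + z ^ 2) := by
    rw [map_sub, map_pow, map_sub, map_pow]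
    ring
  rw [e]
  refine Valuation.map_sub_lt _ h ?_
  rw [map_mul]
  refine mul_lt_one_of_lt_of_le hXz ?_
  refine Valuation.map_add_le _ (Valuation.map_add_le _ ?_ ?_) ?_
  · rw [map_pow]; exact pow_le_one' hX1 2
  · rw [map_mul]; exact mul_le_one' hX1 hz
  · rw [map_pow]; exact pow_le_one' hz 2

theorem Xl_one {C : Type} [Field C] [NumberField C] {w : HeightOneSpectrum (𝓞 C)} {r : ℕ}
    (h : (r : 𝓞 C) ∉ w.asIdeal) : w.valuation C (r : C) = 1 := by
  have e : (r : C) = algebraMap (𝓞 C) C (r : 𝓞 C) := by rw [map_natCast]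
  rw [e]
  exact (w.valuation_eq_one_iff_notMem (K := C)).2 h

theorem Xl_cop {C : Type} [Field C] [NumberField C] {w : HeightOneSpectrum (𝓞 C)} {q r : ℕ}
    (h : Nat.Coprime q r) (hq : (q : 𝓞 C) ∈ w.asIdeal) : (r : 𝓞 C) ∉ w.asIdeal := by
  intro hr
  have h1 : IsCoprime (q : ℤ) (r : ℤ) := Nat.isCoprime_iff_coprime.2 h
  obtain ⟨a, b, hab⟩ := h1
  have h2 : (a : 𝓞 C) * (q : 𝓞 C) + (b : 𝓞 C) * (r : 𝓞 C) = 1 := by exact_mod_cast congrArg (Int.cast : ℤ → 𝓞 C) hab
  have h3 : (1 : 𝓞 C) ∈ w.asIdeal := by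
    rw [← h2]
    exact w.asIdeal.add_mem (w.asIdeal.mul_mem_left _ hq) (w.asIdeal.mul_mem_left _ hr)
  exact w.isPrime.ne_top ((Ideal.eq_top_iff_one _).2 h3)

theorem c1_minus {q : ℕ} (hq : q.Prime) (hq2 : q ≠ 2) (h9 : q % 9 = 2 ∨ q % 9 = 5) {C : Type} [Field C]
    [NumberField C] [IsCyclotomicExtension {3} ℚ C] {s : C} (hs : s ^ 2 = -3) {d : C} (hd : d ≠ 0)
    (H : FinSol3 C s 0 (27 * (4 * q)) d) (hJ : ∀ g : C ≃ₐ[ℚ] C, g s = -s → ∃ y, g d * d = y ^ 3) :
    ∃ y, d = y ^ 3 := by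
  have hq3 : q ≠ 3 := by rintro rfl; omega
  have hqm : q % 3 ≠ 1 := by omega
  have hVs1 : ∀ w : HeightOneSpectrum (𝓞 C), w.valuation C (3 : C) = 1 → w.valuation C s = 1 := by
    intro w h3
    have h5 : w.valuation C s ^ 2 = 1 := by rw [← map_pow, hs, Valuation.map_neg, h3]
    exact (pow_eq_one_iff.1 h5).resolve_right two_ne_zero
  have hval : ∀ w : HeightOneSpectrum (𝓞 C), (3 : ℤ) ∣ log (w.valuation C d) := by
    intro w
    have hsmall : ∀ r : ℕ, r.Prime → r % 3 ≠ 1 → (r : 𝓞 C) ∈ w.asIdeal →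
        (3 : ℤ) ∣ log (w.valuation C d) := by
      intro r hr hr3 hrw
      obtain ⟨g, hg⟩ := exists_conj3 hs
      obtain ⟨y, hy⟩ := hJ g hg
      exact val_of_norm hr hr3 hrw g hd hy
    by_cases h2 : ((2 : ℕ) : 𝓞 C) ∈ w.asIdeal
    · exact hsmall 2 Nat.prime_two (by norm_num) h2
    by_cases h3 : ((3 : ℕ) : 𝓞 C) ∈ w.asIdeal
    · exact hsmall 3 Nat.prime_three (by norm_num) h3
    by_cases h4 : (q : 𝓞 C) ∈ w.asIdeal
    · exact hsmall q hq hqm h4
    have hV2 := Xl_one h2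
    have hV3 := Xl_one h3
    have hVq := Xl_one h4
    have hc : ((2 * (27 * (4 * (q : ℤ))) : ℤ) : 𝓞 C) ∉ w.asIdeal := by
      rw [← w.valuation_eq_one_iff_notMem (K := C)]
      have e : algebraMap (𝓞 C) C ((2 * (27 * (4 * (q : ℤ))) : ℤ) : 𝓞 C) =
          ((2 : ℕ) : C) ^ 3 * ((3 : ℕ) : C) ^ 3 * (q : C) := by
        rw [map_intCast]
        push_cast
        ring
      rw [e, map_mul, map_mul, map_pow, map_pow, hV2, hV3, hVq]
      simp
    refine vg_place (a := 0) (c := 27 * (4 * (q : ℤ))) (hVs1 w (by exact_mod_cast hV3)) hc hd ?_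
    have h10 : ((0 : ℤ) : C) = 0 := Int.cast_zero
    have h11 : ((27 * (4 * (q : ℤ)) : ℤ) : C) = 27 * (4 * (q : C)) := by
      push_cast
      ring
    rw [h10, h11]
    exact H w
  obtain ⟨i, β, hi, hβ, hdβ⟩ := unit_form hs hd hval
  by_cases hi0 : i = 0
  · exact ⟨β, by rw [hdβ, hi0, pow_zero, one_mul]⟩
  exfalso
  have hi12 : i = 1 ∨ i = 2 := by omega
  obtain ⟨ζ, hζdef⟩ : ∃ ζ : C, ζ = (-1 + s) / 2 := ⟨_, rfl⟩
  rw [← hζdef] at hdβ
  have hζ : ζ ^ 2 + ζ + 1 = 0 := by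
    rw [hζdef]
    linear_combination (1 / 4) * hs
  have hint : IsIntegral ℤ ζ := by
    refine ⟨Polynomial.X ^ 2 + Polynomial.X + 1, ?_, ?_⟩
    · monicity!
    · simpa using hζ
  obtain ⟨ζ', hζ'⟩ : ∃ ζ' : 𝓞 C, algebraMap (𝓞 C) C ζ' = ζ := ⟨⟨ζ, hint⟩, rfl⟩
  have hζ'2 : ζ' ^ 2 + ζ' + 1 = 0 := by
    apply FaithfulSMul.algebraMap_injective (𝓞 C) C
    rw [map_add, map_add, map_pow, map_one, map_zero, hζ']
    exact hζ
  have hζ'3 : ζ' ^ 3 = 1 := by linear_combination (ζ' - 1) * hζ'2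
  have hζ3 : ζ ^ 3 = 1 := by linear_combination (ζ - 1) * hζ
  obtain ⟨w, hw⟩ := Xl_place (C := C) hq
  have hVζ : w.valuation C ζ = 1 := by
    have h5 : w.valuation C ζ ^ 3 = 1 := by rw [← map_pow, hζ3, map_one]
    exact (pow_eq_one_iff.1 h5).resolve_right three_ne_zero
  have hV2 := Xl_one (Xl_cop (C := C) (w := w) (r := 2) ((Nat.coprime_primes hq Nat.prime_two).2 hq2) hw)
  have hV3 := Xl_one (Xl_cop (C := C) (w := w) (r := 3) ((Nat.coprime_primes hq Nat.prime_three).2 hq3) hw)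
  have hVs : w.valuation C s = 1 := hVs1 w (by exact_mod_cast hV3)
  set φ := algebraMap C (w.adicCompletion C) with hφ
  have hvφ : ∀ x : C, Valued.v (φ x) = w.valuation C x := fun x => valued_algebraMap w x
  have hB0 : φ β ≠ 0 := (map_ne_zero_iff _ φ.injective).2 hβ
  have hD : φ d = φ ζ ^ i * φ β ^ 3 := by rw [hdβ, map_mul, map_pow, map_pow]
  rcases H w with ⟨t, ht⟩ | ⟨U, Y, hUY⟩
  · have hz3 : (t / φ β) ^ 3 = φ ζ ^ i := by
      rw [div_pow, div_eq_iff (pow_ne_zero 3 hB0), ← ht, ← hφ, hD]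
    have hVz : Valued.v (t / φ β) = 1 := by
      have h5 : Valued.v (t / φ β) ^ 3 = 1 := by
        rw [← map_pow, hz3, map_pow, hvφ, hVζ, one_pow]
      exact (pow_eq_one_iff.1 h5).resolve_right three_ne_zero
    obtain ⟨x, hx⟩ := Xl_approx (θ := ζ' ^ i) hVz.le (by
      have e : algebraMap C (w.adicCompletion C) (algebraMap (𝓞 C) C (ζ' ^ i)) = φ ζ ^ i := by
        rw [map_pow, hζ', ← hφ, map_pow]
      rw [e, hz3, sub_self, map_zero]
      exact zero_lt_one)
    exact zeta_not_cube hq h9 hw hζ'2 hi12 hx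
  · rw [← hφ] at hUY
    obtain ⟨v1, hv1⟩ : ∃ v1, v1 = φ β * Y := ⟨_, rfl⟩
    obtain ⟨U1, hU1⟩ : ∃ U1, U1 = U / φ β := ⟨_, rfl⟩
    have hUe : U = φ β * U1 := by rw [hU1]; field_simp
    have key : (φ ζ ^ i) ^ 2 * v1 ^ 3 - U1 ^ 3 = φ ζ ^ i * φ s * φ (216 * (q : C)) := by
      have h6 : φ β ^ 3 * ((φ ζ ^ i) ^ 2 * v1 ^ 3 - U1 ^ 3) =
          φ β ^ 3 * (φ ζ ^ i * φ s * φ (216 * (q : C))) := by
        rw [hD, hUe, map_zero] at hUY
        have e1 : φ (216 * (q : C)) = 2 * φ (27 * (4 * (q : C))) := by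
          simp only [map_mul, map_ofNat]
          ring
        rw [e1, hv1]
        linear_combination hUY
      exact mul_left_cancel₀ (pow_ne_zero 3 hB0) h6
    -- valuations
    have hVq0 : w.valuation C (q : C) ≠ 0 :=
      (Valuation.ne_zero_iff _).2 (by exact_mod_cast hq.ne_zero)
    obtain ⟨e, he⟩ : ∃ e : ℤ, e = log (w.valuation C (q : C)) := ⟨_, rfl⟩
    have hVq : w.valuation C (q : C) = exp e := by rw [he, exp_log hVq0]
    have he0 : e < 0 := by
      have h7 : w.valuation C (algebraMap (𝓞 C) C (q : 𝓞 C)) < 1 :=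
        (w.valuation_lt_one_iff_mem _).2 hw
      rw [map_natCast, hVq, ← exp_zero, exp_lt_exp] at h7
      exact h7
    have he3 : -3 < e := by
      have h7 := Xl_ram hq hw
      rw [hVq, exp_le_exp] at h7
      omega
    have hVR : Valued.v (φ ζ ^ i * φ s * φ (216 * (q : C))) = exp e := by
      have e2 : (216 * (q : C)) = ((2 : ℕ) : C) ^ 3 * ((3 : ℕ) : C) ^ 3 * (q : C) := by
        push_cast
        ring
      rw [map_mul, map_mul, map_pow, hvφ, hvφ, hvφ, hVζ, hVs, e2, map_mul, map_mul, map_pow,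
        map_pow, hV2, hV3, hVq]
      simp
    have hVL1 : Valued.v ((φ ζ ^ i) ^ 2 * v1 ^ 3) = Valued.v v1 ^ 3 := by
      rw [map_mul, map_pow, map_pow, map_pow, hvφ, hVζ]
      simp
    have hVL2 : Valued.v (U1 ^ 3) = Valued.v U1 ^ 3 := map_pow _ _ _
    have hcube : ∀ a : w.adicCompletion C, Valued.v a ^ 3 ≠ exp e := by
      intro a h8
      have h9 : Valued.v a ≠ 0 := by
        intro h10
        rw [h10, zero_pow three_ne_zero] at h8
        exact exp_ne_zero h8.symm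
      have h11 := congrArg log h8
      rw [log_pow, log_exp] at h11
      simp only [nsmul_eq_mul] at h11
      push_cast at h11
      omega
    rcases lt_trichotomy (Valued.v v1) (Valued.v U1) with hlt | heq | hlt
    · have h8 : Valued.v ((φ ζ ^ i) ^ 2 * v1 ^ 3 - U1 ^ 3) = Valued.v U1 ^ 3 := by
        rw [Valuation.map_sub_swap, ← hVL2]
        apply Valuation.map_sub_eq_of_lt_left
        rw [hVL1, hVL2]
        exact pow_lt_pow_left₀ hlt zero_le three_ne_zero
      rw [key, hVR] at h8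
      exact hcube U1 h8.symm
    · have hv10 : Valued.v v1 ≠ 0 := by
        intro h8
        have h9 : v1 = 0 := (Valuation.zero_iff _).1 h8
        have h10 : U1 = 0 := (Valuation.zero_iff _).1 (heq ▸ h8)
        rw [h9, h10] at key
        have h11 := congrArg Valued.v key
        rw [hVR] at h11
        simp at h11
        exact exp_ne_zero h11.symm
      have hv1ne : v1 ≠ 0 := fun h => hv10 (by rw [h, map_zero])
      obtain ⟨m, hm⟩ : ∃ m : ℤ, m = log (Valued.v v1) := ⟨_, rfl⟩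
      have hVm : Valued.v v1 = exp m := by rw [hm, exp_log hv10]
      have hm0 : 0 ≤ m := by
        by_contra hneg
        have h8 : Valued.v ((φ ζ ^ i) ^ 2 * v1 ^ 3 - U1 ^ 3) ≤ exp (3 * m) := by
          have e3 : (exp m : WithZero (Multiplicative ℤ)) ^ 3 = exp (3 * m) := by
            rw [← exp_nsmul]
            simp
          refine Valuation.map_sub_le _ ?_ ?_
          · rw [hVL1, hVm, e3]
          · rw [hVL2, ← heq, hVm, e3]
        rw [key, hVR, exp_le_exp] at h8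
        omega
      have hVz : Valued.v (U1 / v1) = 1 := by
        rw [map_div₀, ← heq, div_self hv10]
      have hdiff : Valued.v ((φ ζ ^ i) ^ 2 - (U1 / v1) ^ 3) < 1 := by
        have e4 : (φ ζ ^ i) ^ 2 - (U1 / v1) ^ 3 = (φ ζ ^ i * φ s * φ (216 * (q : C))) / v1 ^ 3 := by
          rw [← key]
          field_simp
        rw [e4, map_div₀, hVR, map_pow, hVm, ← exp_nsmul, ← exp_sub, ← exp_zero, exp_lt_exp]
        simp only [nsmul_eq_mul]
        push_cast
        omega
      obtain ⟨x, hx⟩ := Xl_approx (θ := (ζ' ^ i) ^ 2) hVz.le (by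
        have e5 : algebraMap C (w.adicCompletion C) (algebraMap (𝓞 C) C ((ζ' ^ i) ^ 2)) =
            (φ ζ ^ i) ^ 2 := by
          simp only [map_pow, hζ', ← hφ]
        rw [e5]
        exact hdiff)
      rcases hi12 with rfl | rfl
      · rw [pow_one] at hx
        exact zeta_not_cube hq h9 hw hζ'2 (Or.inr rfl) hx
      · have e6 : (ζ' ^ 2) ^ 2 = ζ' ^ 1 := by linear_combination ζ' * hζ'3
        rw [e6] at hx
        exact zeta_not_cube hq h9 hw hζ'2 (Or.inl rfl) hx
    · have h8 : Valued.v ((φ ζ ^ i) ^ 2 * v1 ^ 3 - U1 ^ 3) = Valued.v v1 ^ 3 := by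
        rw [← hVL1]
        apply Valuation.map_sub_eq_of_lt_left
        rw [hVL1, hVL2]
        exact pow_lt_pow_left₀ hlt zero_le three_ne_zero
      rw [key, hVR] at h8
      exact hcube v1 h8.symm

end H55T3
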