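import Pool.Agent.H55.T3.Xh

/-!
Row Xn (about 90 lines): norm forms.

PROOF. Let α be a root of X^3 - δ in an algebraic closure, ω = a primitive cube root of unity (ω^2 + ω + 1 = 0), in k. The left side of h is x^3 + y^3 + z^3 - 3 x y z with x = Y, y = -α U, z = α^2 κ, which is the product over j < 3 of (Y - (ω^j α) U + (ω^j α)^2 κ). So α' = ω^j α, a root of X^3 - δ, is a root of the polynomial κ X^2 - U X + Y of degree < 3 over k.
X^3 - δ is irreducible over k: degree 3 without roots (hδ) (Polynomial.irreducible_of_degree_le_three_of_not_isRoot or similar), so it is the minimal polynomial of α' and κ X^2 - U X + Y = 0, κ = 0.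
-/

set_option autoImplicit false
open scoped Classical

namespace H55T3

theorem normform {k : Type*} [Field k] {ω δ Y U κ : k} (hω : ω ^ 2 + ω + 1 = 0)
    (hδ : ∀ x : k, x ^ 3 ≠ δ)
    (h : Y ^ 3 - δ * U ^ 3 + δ ^ 2 * κ ^ 3 + 3 * δ * κ * U * Y = 0) : κ = 0 := by
  have hω0 : ω ≠ 0 := by
    rintro rfl
    simp at hω
  have hirr : Irreducible (Polynomial.X ^ 3 - Polynomial.C δ : Polynomial k) :=
    X_pow_sub_C_irreducible_of_prime Nat.prime_three hδ
  have : Fact (Irreducible (Polynomial.X ^ 3 - Polynomial.C δ : Polynomial k)) := ⟨hirr⟩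
  -- a vanishing linear combination has zero leading coefficient
  have key : ∀ a b c : k, AdjoinRoot.mk (Polynomial.X ^ 3 - Polynomial.C δ : Polynomial k)
      (Polynomial.C c - Polynomial.C b * Polynomial.X + Polynomial.C a * Polynomial.X ^ 2) = 0 → a = 0 := by
    intro a b c h0
    rw [AdjoinRoot.mk_eq_zero] at h0
    have hdeg : (Polynomial.C c - Polynomial.C b * Polynomial.X + Polynomial.C a * Polynomial.X ^ 2 : Polynomial k).degree
        < (Polynomial.X ^ 3 - Polynomial.C δ : Polynomial k).degree := by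
      rw [Polynomial.degree_X_pow_sub_C (by norm_num) δ]
      have h1 : (Polynomial.C c - Polynomial.C b * Polynomial.X + Polynomial.C a * Polynomial.X ^ 2 : Polynomial k)
          = Polynomial.C a * Polynomial.X ^ 2 + Polynomial.C (-b) * Polynomial.X + Polynomial.C c := by
        rw [Polynomial.C_neg]; ring
      rw [h1]
      exact lt_of_le_of_lt Polynomial.degree_quadratic_le (by norm_num)
    have h2 := Polynomial.eq_zero_of_dvd_of_degree_lt h0 hdeg
    have h3 := congrArg (fun q => Polynomial.coeff q 2) h2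
    simpa [Polynomial.coeff_X, Polynomial.coeff_C] using h3
  set f : k →+* AdjoinRoot (Polynomial.X ^ 3 - Polynomial.C δ : Polynomial k) := AdjoinRoot.of _ with hf
  set α := AdjoinRoot.root (Polynomial.X ^ 3 - Polynomial.C δ : Polynomial k) with hαd
  have hα : α ^ 3 = f δ := by
    have h1 := AdjoinRoot.eval₂_root (Polynomial.X ^ 3 - Polynomial.C δ : Polynomial k)
    rw [Polynomial.eval₂_sub, Polynomial.eval₂_X_pow, Polynomial.eval₂_C] at h1
    exact sub_eq_zero.mp h1
  have hmk : ∀ a b c : k, AdjoinRoot.mk (Polynomial.X ^ 3 - Polynomial.C δ : Polynomial k)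
      (Polynomial.C c - Polynomial.C b * Polynomial.X + Polynomial.C a * Polynomial.X ^ 2)
      = f c - f b * α + f a * α ^ 2 := by
    intro a b c
    rw [map_add, map_sub, map_mul, map_mul, map_pow, AdjoinRoot.mk_X, AdjoinRoot.mk_C, AdjoinRoot.mk_C,
      AdjoinRoot.mk_C]
  have hfω : f ω ^ 2 + f ω + 1 = 0 := by
    have := congrArg f hω
    simpa using this
  have hprod : (f Y - f U * α + f κ * α ^ 2) * ((f Y - f (ω * U) * α + f (ω ^ 2 * κ) * α ^ 2) *
      (f Y - f (ω ^ 2 * U) * α + f (ω * κ) * α ^ 2)) = 0 := by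
    have h1 := congrArg f h
    simp only [map_add, map_sub, map_mul, map_pow, map_ofNat, map_zero] at h1
    simp only [map_mul, map_pow]
    have hω3 : f ω ^ 3 = 1 := by linear_combination (f ω - 1) * hfω
    have e4 : f ω ^ 4 = f ω := by linear_combination f ω * hω3
    have e2 : f ω ^ 2 = - f ω - 1 := by linear_combination hfω
    rw [← hα] at h1
    have h2 : (f Y - f ω * f U * α + f ω ^ 2 * f κ * α ^ 2) * (f Y - f ω ^ 2 * f U * α + f ω * f κ * α ^ 2)
        = f Y ^ 2 + f U ^ 2 * α ^ 2 + f κ ^ 2 * α ^ 4 + f Y * f U * α - f Y * f κ * α ^ 2 + f U * f κ * α ^ 3 := by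
      linear_combination (f Y * f κ * α ^ 2 - f Y * f U * α) * hfω + (f U ^ 2 * α ^ 2 + f κ ^ 2 * α ^ 4) * hω3
        - f U * f κ * α ^ 3 * (e4 + hfω)
    rw [h2]
    linear_combination h1
  rcases mul_eq_zero.mp hprod with h1 | h1
  · exact key κ U Y (by rw [hmk]; exact h1)
  · rcases mul_eq_zero.mp h1 with h1 | h1
    · have := key (ω ^ 2 * κ) (ω * U) Y (by rw [hmk]; exact h1)
      exact (mul_eq_zero.mp this).resolve_left (pow_ne_zero 2 hω0)
    · have := key (ω * κ) (ω ^ 2 * U) Y (by rw [hmk]; exact h1)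
      exact (mul_eq_zero.mp this).resolve_left hω0

end H55T3
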