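import Pool.Agent.H55.T3.Xk
import Pool.Agent.H55.T3.Xn
import Pool.Agent.H55.T3.Vg
import Pool.Agent.H10.Resid
import Pool.Agent.H10.Unique

/-!
Row Xm (about 200 lines): the minus side for the curve of rank two (a = -5, b = 135).

PROOF. (1) valuations of d at a place w: if 2, 3, 5 ∉ w: vg on the completion (V s = 1, V (6 a) ≤ 1, V (2 * 27 * 135) = 1 as 54 * 135 = 2 * 3^6 * 5). If 2, 3 or 5 ∈ w: not 1 mod 3, exists_conj3, hJ, val_of_norm. unit_form: d = ζ^i β^3, ζ = (-1 + s)/2, i < 3; i = 0: done.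
(2) i = 1, 2, δ := ζ^i. Take a place w containing 11 (11 % 9 = 2). First alternative d = t^3: as in Xl: z = t/β, z^3 = δ, V z = 1, approximate by x ∈ 𝓞 C, contradiction to zeta_not_cube.
 Second alternative d^2 v^3 - U^3 = d s (6 a U v + 2 * 27 b): with v1 = β v, U1 = U/β (U1 v1 = U v) divide by β^3: δ^2 v1^3 - U1^3 = δ s (6 a U1 v1 + 54 b). Put Y = δ v1, κ = -2 a s = 10 s, multiply by δ:
   Y^3 - δ U1^3 + 3 δ κ U1 Y - 54 b s δ^2 = 0, and κ^3 = 24 a^3 s (s^2 = -3), κ^3 + 54 b s = 6 s (4 a^3 + 9 b) = 6 s * 715, so V (κ^3 + 54 b s) < 1 (11 | 715):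
   (*) V (Y^3 - δ U1^3 + δ^2 κ^3 + 3 δ κ U1 Y) < 1. V δ = V κ = 1 (10 and 3 are prime to 11).
 (2a) V Y ≤ 1 and V U1 ≤ 1: choose y, u ∈ 𝓞 C with V (Y - y) < 1, V (U1 - u) < 1; in the residue field k = 𝓞 C / w: y^3 - δ u^3 + δ^2 κ^3 + 3 δ κ u y = 0, δ not a cube in k (zeta_not_cube), ω = the class of ζ: normform: κ = 0 in k, contradiction (κ^2 = -300, 11 ∤ 300).
 (2b) otherwise m := max (V Y) (V U1) > 1; if V Y ≠ V U1 then V (Y^3 - δ U1^3) = m^3 but the other terms have V ≤ m^2: contradiction to (*) [V of the sum would be m^3 > 1]. If V Y = V U1 = m: V (Y^3 - δ U1^3) ≤ m^2, divide by U1^3: V ((Y/U1)^3 - δ) < 1, V (Y/U1) = 1: approximate by x ∈ 𝓞 C: contradiction to zeta_not_cube.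
-/

set_option autoImplicit false
open scoped Classical

open IsDedekindDomain NumberField WithZero Pool.Agent.H10

namespace H55T3

theorem Xm_resid {L : Type} [Field L] [NumberField L] (w : HeightOneSpectrum (𝓞 L)) :
    ∃ (k : Type) (_ : Field k)
    (ρ : (Valued.v : Valuation (w.adicCompletion L) (WithZero (Multiplicative ℤ))).integer →+* k),
    Function.Surjective ρ ∧
    ∀ x : (Valued.v : Valuation (w.adicCompletion L) (WithZero (Multiplicative ℤ))).integer,
      ρ x = 0 ↔ Valued.v (x : w.adicCompletion L) < 1 := by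
  let O := w.adicCompletionIntegers L
  let e : (Valued.v : Valuation (w.adicCompletion L) (WithZero (Multiplicative ℤ))).integer →+* O :=
    { toFun := fun x => ⟨x.1, x.2⟩
      map_one' := rfl
      map_mul' := fun _ _ => rfl
      map_zero' := rfl
      map_add' := fun _ _ => rfl }
  refine ⟨IsLocalRing.ResidueField O, inferInstance, (IsLocalRing.residue O).comp e, ?_, ?_⟩
  · intro y
    obtain ⟨x, rfl⟩ := IsLocalRing.residue_surjective y
    exact ⟨⟨x.1, x.2⟩, rfl⟩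
  · intro x
    rw [RingHom.comp_apply, IsLocalRing.residue_eq_zero_iff]
    exact Valuation.mem_maximalIdeal_iff _ _

theorem Xm_close {C : Type} [Field C] [NumberField C] (w : HeightOneSpectrum (𝓞 C))
    {z : w.adicCompletion C} (hz : Valued.v z ≤ 1) :
    ∃ x : 𝓞 C, Valued.v (algebraMap C (w.adicCompletion C) (x : C) - z) < 1 := by
  obtain ⟨k, hk⟩ := exists_close w z 0
  rw [exp_zero] at hk
  have h1 : Valued.v (algebraMap C (w.adicCompletion C) k) ≤ 1 := by
    have e : algebraMap C (w.adicCompletion C) k =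
      (algebraMap C (w.adicCompletion C) k - z) + z := by ring
    rw [e]
    exact Valuation.map_add_le _ hk.le hz
  rw [valued_algebraMap] at h1
  obtain ⟨x, hx⟩ := HeightOneSpectrum.exists_valuation_sub_lt_of_integer w h1 1
  refine ⟨x, ?_⟩
  have e : algebraMap C (w.adicCompletion C) (x : C) - z =
      algebraMap C (w.adicCompletion C) ((x : C) - k) +
        (algebraMap C (w.adicCompletion C) k - z) := by
    rw [map_sub]; ring
  rw [e]
  refine Valuation.map_add_lt _ ?_ hk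
  rw [valued_algebraMap]
  simpa using hx

theorem Xm_place {C : Type} [Field C] [NumberField C] {q : ℕ} (hq : q.Prime) :
    ∃ w : HeightOneSpectrum (𝓞 C), (q : 𝓞 C) ∈ w.asIdeal := by
  have hu : ¬ IsUnit (q : 𝓞 C) := by
    intro h
    have h1 := h.map (Algebra.norm ℤ)
    rw [norm_natCast, isUnit_pow_iff Module.finrank_pos.ne', Int.isUnit_iff] at h1
    have := hq.two_le
    omega
  obtain ⟨M, hM, hle⟩ := Ideal.exists_le_maximal (Ideal.span {(q : 𝓞 C)})
    (by rwa [Ne, Ideal.span_singleton_eq_top])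
  have hqM : (q : 𝓞 C) ∈ M := hle (Ideal.mem_span_singleton_self _)
  refine ⟨⟨M, hM.isPrime, ?_⟩, hqM⟩
  rintro rfl
  rw [Ideal.mem_bot, Nat.cast_eq_zero] at hqM
  exact hq.ne_zero hqM

section

variable {C : Type} [Field C] [NumberField C] [IsCyclotomicExtension {3} ℚ C] {s : C}

omit [NumberField C] [IsCyclotomicExtension {3} ℚ C] in
theorem Xm_zeta [CharZero C] (hs : s ^ 2 = -3) : ((-1 + s) / 2) ^ 2 + (-1 + s) / 2 + 1 = 0 := by
  linear_combination hs / 4

theorem Xm_int (hs : s ^ 2 = -3) : ∃ ζ : 𝓞 C, (ζ : C) = (-1 + s) / 2 ∧ ζ ^ 2 + ζ + 1 = 0 := by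
  have h1 := Xm_zeta hs
  have h2 : IsIntegral ℤ ((-1 + s) / 2) := by
    refine IsIntegral.of_pow (n := 3) (by norm_num) ?_
    have e : ((-1 + s) / 2) ^ 3 = 1 := by
      linear_combination ((-1 + s) / 2 - 1) * h1
    rw [e]
    exact isIntegral_one
  obtain ⟨ζ, hζ⟩ : ∃ ζ : 𝓞 C, (ζ : C) = (-1 + s) / 2 := ⟨⟨_, h2⟩, rfl⟩
  refine ⟨ζ, hζ, ?_⟩
  apply RingOfIntegers.coe_injective
  have hζ' : algebraMap (𝓞 C) C ζ = (-1 + s) / 2 := hζ
  rw [map_add, map_add, map_pow, map_one, map_zero, hζ']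
  exact h1

theorem Xm_nc {q : ℕ} (hq : q.Prime) (h9 : q % 9 = 2 ∨ q % 9 = 5) (hs : s ^ 2 = -3)
    {w : HeightOneSpectrum (𝓞 C)} (hw : (q : 𝓞 C) ∈ w.asIdeal) {i : ℕ} (hi : i = 1 ∨ i = 2)
    (z : w.adicCompletion C)
    (hz : Valued.v (z ^ 3 - algebraMap C (w.adicCompletion C) (((-1 + s) / 2) ^ i)) < 1) :
    False := by
  obtain ⟨ζ, hζ, hζ2⟩ := Xm_int (C := C) hs
  have hδ : Valued.v (algebraMap C (w.adicCompletion C) (((-1 + s) / 2) ^ i)) ≤ 1 := by
    rw [← hζ, valued_algebraMap, ← map_pow]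
    exact HeightOneSpectrum.valuation_le_one w _
  have hz1 : Valued.v z ≤ 1 := by
    have h1 : Valued.v (z ^ 3) ≤ 1 := by
      have e : z ^ 3 = (z ^ 3 - algebraMap C (w.adicCompletion C) (((-1 + s) / 2) ^ i)) +
        algebraMap C (w.adicCompletion C) (((-1 + s) / 2) ^ i) := by ring
      rw [e]
      exact Valuation.map_add_le _ hz.le hδ
    rw [map_pow] at h1
    exact (pow_le_one_iff (by norm_num : (3 : ℕ) ≠ 0)).1 h1
  obtain ⟨x, hx⟩ := Xm_close w hz1
  apply zeta_not_cube hq h9 hw hζ2 hi (x := x)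
  rw [← HeightOneSpectrum.valuation_lt_one_iff_mem (K := C) w, ← valued_algebraMap w]
  have e : algebraMap C (w.adicCompletion C) (algebraMap (𝓞 C) C (ζ ^ i - x ^ 3)) =
      -(z ^ 3 - algebraMap C (w.adicCompletion C) (((-1 + s) / 2) ^ i)) -
      (algebraMap C (w.adicCompletion C) (x : C) - z) *
        ((algebraMap C (w.adicCompletion C) (x : C)) ^ 2 +
          algebraMap C (w.adicCompletion C) (x : C) * z + z ^ 2) := by
    rw [map_sub, map_sub, map_pow, map_pow, map_pow, map_pow, ← hζ, map_pow]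
    ring
  rw [e]
  have hxv : Valued.v (algebraMap C (w.adicCompletion C) (x : C)) ≤ 1 := by
    rw [valued_algebraMap]
    exact HeightOneSpectrum.valuation_le_one w _
  have hq2 : Valued.v ((algebraMap C (w.adicCompletion C) (x : C)) ^ 2 +
          algebraMap C (w.adicCompletion C) (x : C) * z + z ^ 2) ≤ 1 := by
    refine Valuation.map_add_le _ (Valuation.map_add_le _ ?_ ?_) ?_
    · rw [map_pow]; exact pow_le_one₀ zero_le hxv
    · rw [map_mul]; exact mul_le_one' hxv hz1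
    · rw [map_pow]; exact pow_le_one₀ zero_le hz1
  refine Valuation.map_sub_lt _ ?_ ?_
  · rw [Valuation.map_neg]; exact hz
  · rw [map_mul]; exact mul_lt_one_of_lt_of_le hx hq2

end

theorem c2_minus {C : Type} [Field C] [NumberField C] [IsCyclotomicExtension {3} ℚ C] {s : C}
    (hs : s ^ 2 = -3) {d : C} (hd : d ≠ 0) (H : FinSol3 C s (-5) (27 * 135) d)
    (hJ : ∀ g : C ≃ₐ[ℚ] C, g s = -s → ∃ y, g d * d = y ^ 3) : ∃ y, d = y ^ 3 := by
  have ea : ((-5 : ℤ) : C) = -5 := by norm_num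
  have ec : ((27 * 135 : ℤ) : C) = 27 * 135 := by norm_num
  have hval : ∀ w : HeightOneSpectrum (𝓞 C), (3 : ℤ) ∣ log (w.valuation C d) := by
    intro w
    have hns : ∀ q : ℕ, q.Prime → q % 3 ≠ 1 → (q : 𝓞 C) ∈ w.asIdeal →
        (3 : ℤ) ∣ log (w.valuation C d) := by
      intro q hq hq3 hw
      obtain ⟨g, hg⟩ := exists_conj3 (C := C) hs
      obtain ⟨y, hy⟩ := hJ g hg
      exact val_of_norm hq hq3 hw g hd hy
    by_cases hw : ((2 * (27 * 135) : ℤ) : 𝓞 C) ∈ w.asIdeal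
    · have e : ((2 * (27 * 135) : ℤ) : 𝓞 C) = ((2 : ℕ) : 𝓞 C) * (((3 : ℕ) : 𝓞 C) ^ 6 *
          ((5 : ℕ) : 𝓞 C)) := by push_cast; norm_num
      rw [e] at hw
      rcases w.isPrime.mem_or_mem hw with h | h
      · exact hns 2 Nat.prime_two (by norm_num) h
      · rcases w.isPrime.mem_or_mem h with h | h
        · exact hns 3 Nat.prime_three (by norm_num) (w.isPrime.mem_of_pow_mem _ h)
        · exact hns 5 Nat.prime_five (by norm_num) h
    · refine vg_place (s := s) (a := -5) (c := 27 * 135) ?_ hw hd ?_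
      · have h3 : (3 : 𝓞 C) ∉ w.asIdeal := by
          intro h
          apply hw
          have e : ((2 * (27 * 135) : ℤ) : 𝓞 C) = 3 * (2 * (9 * 135)) := by push_cast; norm_num
          rw [e]
          exact Ideal.mul_mem_right _ _ h
        have h4 : w.valuation C s ^ 2 = 1 := by
          rw [← map_pow, hs, Valuation.map_neg]
          have h5 := (w.valuation_eq_one_iff_notMem (K := C) (r := (3 : 𝓞 C))).mpr h3
          rwa [map_ofNat] at h5
        exact (pow_eq_one_iff_of_nonneg zero_le two_ne_zero).1 h4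
      · rw [ea, ec]
        exact H w
  obtain ⟨i, β, hi, hβ, hdβ⟩ := unit_form hs hd hval
  by_cases hi0 : i = 0
  · exact ⟨β, by rw [hdβ, hi0, pow_zero, one_mul]⟩
  exfalso
  have hi12 : i = 1 ∨ i = 2 := by omega
  obtain ⟨w, hw⟩ := Xm_place (C := C) (q := 11) (by norm_num)
  have nc := Xm_nc (q := 11) (by norm_num) (Or.inl (by norm_num)) hs hw hi12
  let V : Valuation (w.adicCompletion C) (WithZero (Multiplicative ℤ)) := Valued.v
  obtain ⟨ζ, hζ⟩ : ∃ ζ, ζ = algebraMap C (w.adicCompletion C) ((-1 + s) / 2) := ⟨_, rfl⟩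
  obtain ⟨S, hS⟩ : ∃ S, S = algebraMap C (w.adicCompletion C) s := ⟨_, rfl⟩
  obtain ⟨B, hB⟩ : ∃ B, B = algebraMap C (w.adicCompletion C) β := ⟨_, rfl⟩
  obtain ⟨δ, hδ⟩ : ∃ δ, δ = algebraMap C (w.adicCompletion C) (((-1 + s) / 2) ^ i) := ⟨_, rfl⟩
  rw [← hδ] at nc
  have hB0 : B ≠ 0 := by
    rw [hB]
    exact (map_ne_zero _).2 hβ
  have hS2 : S ^ 2 = -3 := by
    rw [hS, ← map_pow, hs, map_neg, map_ofNat]
  have hζ2 : ζ ^ 2 + ζ + 1 = 0 := by
    have := congrArg (algebraMap C (w.adicCompletion C)) (Xm_zeta hs)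
    rw [map_add, map_add, map_pow, map_one, map_zero, ← hζ] at this
    exact this
  have hδζ : δ = ζ ^ i := by rw [hδ, hζ, map_pow]
  have hζ3 : ζ ^ 3 = 1 := by linear_combination (ζ - 1) * hζ2
  have hζ0 : ζ ≠ 0 := by
    rintro h
    rw [h] at hζ3
    norm_num at hζ3
  have hδ0 : δ ≠ 0 := by rw [hδζ]; exact pow_ne_zero _ hζ0
  have hVζ : V ζ = 1 := by
    have : V ζ ^ 3 = 1 := by rw [← map_pow, hζ3, map_one]
    exact (pow_eq_one_iff_of_nonneg zero_le three_ne_zero).1 this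
  have hVδ : V δ = 1 := by rw [hδζ, map_pow, hVζ, one_pow]
  have hD : algebraMap C (w.adicCompletion C) d = δ * B ^ 3 := by
    rw [hdβ, map_mul, ← hδ, map_pow, ← hB]
  have n3 : (3 : 𝓞 C) ∉ w.asIdeal := by
    intro h
    apply w.isPrime.ne_top
    rw [Ideal.eq_top_iff_one]
    have e : (1 : 𝓞 C) = 4 * 3 - ((11 : ℕ) : 𝓞 C) := by push_cast; norm_num
    rw [e]
    exact w.asIdeal.sub_mem (Ideal.mul_mem_left _ _ h) hw
  have vnat : ∀ n : ℕ, V (n : w.adicCompletion C) = w.valuation C (n : C) := by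
    intro n
    have := valued_algebraMap w (n : C)
    rwa [map_natCast] at this
  have v11 : V ((11 : ℕ) : w.adicCompletion C) < 1 := by
    have e : ((11 : ℕ) : C) = algebraMap (𝓞 C) C ((11 : ℕ) : 𝓞 C) := (map_natCast _ _).symm
    rw [vnat, e]
    exact (HeightOneSpectrum.valuation_lt_one_iff_mem (K := C) w _).2 hw
  have v300 : V ((300 : ℕ) : w.adicCompletion C) = 1 := by
    rw [vnat]
    apply valuation_natCast_eq_one
    intro h
    apply n3
    have e : (3 : 𝓞 C) = ((300 : ℕ) : 𝓞 C) - 27 * ((11 : ℕ) : 𝓞 C) := by push_cast; norm_num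
    rw [e]
    exact w.asIdeal.sub_mem h (Ideal.mul_mem_left _ _ hw)
  have vle : ∀ n : ℕ, V (n : w.adicCompletion C) ≤ 1 := by
    intro n
    have e : (n : C) = algebraMap (𝓞 C) C (n : 𝓞 C) := (map_natCast _ _).symm
    rw [vnat, e]
    exact HeightOneSpectrum.valuation_le_one (K := C) w (n : 𝓞 C)
  have hVS : V S = 1 := by
    have v3 : V ((3 : ℕ) : w.adicCompletion C) = 1 := by
      rw [vnat]
      apply valuation_natCast_eq_one
      exact_mod_cast n3
    have : V S ^ 2 = 1 := by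
      rw [← map_pow, hS2, Valuation.map_neg]
      exact_mod_cast v3
    exact (pow_eq_one_iff_of_nonneg zero_le two_ne_zero).1 this
  obtain ⟨κ, hκ⟩ : ∃ κ, κ = 10 * S := ⟨_, rfl⟩
  have hκ2 : κ ^ 2 = -((300 : ℕ) : w.adicCompletion C) := by
    rw [hκ]; push_cast; linear_combination 100 * hS2
  have hVκ : V κ = 1 := by
    have : V κ ^ 2 = 1 := by rw [← map_pow, hκ2, Valuation.map_neg, v300]
    exact (pow_eq_one_iff_of_nonneg zero_le two_ne_zero).1 this
  have v3le : V (3 : w.adicCompletion C) ≤ 1 := by exact_mod_cast vle 3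
  rcases H w with ⟨t, ht⟩ | ⟨U, Y₀, hUY⟩
  · apply nc (t / B)
    rw [hD] at ht
    have e : (t / B) ^ 3 - δ = 0 := by
      rw [div_pow, ← ht]
      field_simp
      ring
    rw [e, map_zero]
    exact zero_lt_one
  · obtain ⟨Y, hY⟩ : ∃ Y, Y = δ * (B * Y₀) := ⟨_, rfl⟩
    obtain ⟨U₁, hU₁⟩ : ∃ U₁, U₁ = U / B := ⟨_, rfl⟩
    have hU : U = B * U₁ := by rw [hU₁]; field_simp
    rw [hD, map_mul, map_neg, map_ofNat, map_ofNat, map_ofNat, ← hS] at hUY
    have key : Y ^ 3 - δ * U₁ ^ 3 + δ ^ 2 * κ ^ 3 + 3 * δ * κ * U₁ * Y =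
        δ ^ 2 * S * ((390 : ℕ) : w.adicCompletion C) * ((11 : ℕ) : w.adicCompletion C) := by
      have h1 : B ^ 3 * ((Y ^ 3 - δ * U₁ ^ 3 + δ ^ 2 * κ ^ 3 + 3 * δ * κ * U₁ * Y) -
          δ ^ 2 * S * ((390 : ℕ) : w.adicCompletion C) * ((11 : ℕ) : w.adicCompletion C)) = 0 := by
        rw [hY, hκ]
        push_cast
        rw [hU] at hUY
        linear_combination δ * hUY + 1000 * B ^ 3 * δ ^ 2 * S * hS2
      exact sub_eq_zero.1 ((mul_eq_zero.1 h1).resolve_left (pow_ne_zero 3 hB0))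
    have hsm : V (Y ^ 3 - δ * U₁ ^ 3 + δ ^ 2 * κ ^ 3 + 3 * δ * κ * U₁ * Y) < 1 := by
      rw [key, map_mul]
      refine (mul_le_of_le_one_left' ?_).trans_lt v11
      rw [map_mul, map_mul, map_pow, hVδ, hVS, one_pow, one_mul, one_mul]
      exact vle 390
    by_cases hYU : V Y ≤ 1 ∧ V U₁ ≤ 1
    · obtain ⟨k, _, ρ, hρs, hρ⟩ := Xm_resid w
      let Yi : V.integer := ⟨Y, hYU.1⟩
      let Ui : V.integer := ⟨U₁, hYU.2⟩
      let δi : V.integer := ⟨δ, hVδ.le⟩
      let κi : V.integer := ⟨κ, hVκ.le⟩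
      let ζi : V.integer := ⟨ζ, hVζ.le⟩
      have h0 : ρ κi = 0 := by
        apply normform (ω := ρ ζi) (δ := ρ δi) (Y := ρ Yi) (U := ρ Ui)
        · have e : ζi ^ 2 + ζi + 1 = 0 := Subtype.ext hζ2
          rw [← map_pow, ← map_add, ← map_one ρ, ← map_add, e, map_zero]
        · intro x hx
          obtain ⟨X, rfl⟩ := hρs x
          apply nc (X : w.adicCompletion C)
          have h1 : ρ (X ^ 3 - δi) = 0 := by rw [map_sub, map_pow, hx, sub_self]
          rw [hρ] at h1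
          exact h1
        · have h1 : ρ (Yi ^ 3 - δi * Ui ^ 3 + δi ^ 2 * κi ^ 3 + 3 * δi * κi * Ui * Yi) = 0 := by
            rw [hρ]
            exact hsm
          rw [map_add, map_add, map_sub, map_mul, map_mul, map_mul, map_mul, map_mul, map_mul,
            map_pow, map_pow, map_pow, map_pow, map_ofNat] at h1
          exact h1
      rw [hρ] at h0
      have h1 : V κ < 1 := h0
      rw [hVκ] at h1
      exact lt_irrefl _ h1
    · have hVt1 : V (δ ^ 2 * κ ^ 3) = 1 := by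
        rw [map_mul, map_pow, map_pow, hVδ, hVκ, one_pow, one_pow, one_mul]
      have hVt2 : V (3 * δ * κ * U₁ * Y) ≤ V U₁ * V Y := by
        rw [map_mul, map_mul, map_mul, map_mul, hVδ, hVκ, mul_one, mul_one]
        calc V 3 * V U₁ * V Y ≤ 1 * V U₁ * V Y := by gcongr
          _ = V U₁ * V Y := by rw [one_mul]
      have hVU3 : V (δ * U₁ ^ 3) = V U₁ ^ 3 := by rw [map_mul, hVδ, one_mul, map_pow]
      rcases lt_trichotomy (V Y) (V U₁) with h | h | h
      · -- V Y < V U₁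
        have h1 : 1 < V U₁ := by
          by_contra h2
          rw [not_lt] at h2
          exact hYU ⟨h.le.trans h2, h2⟩
        have h13 : 1 < V U₁ ^ 3 := one_lt_pow₀ h1 (by norm_num)
        have hx : V (Y ^ 3 + δ ^ 2 * κ ^ 3 + 3 * δ * κ * U₁ * Y -
            (Y ^ 3 - δ * U₁ ^ 3 + δ ^ 2 * κ ^ 3 + 3 * δ * κ * U₁ * Y)) < V U₁ ^ 3 := by
          refine Valuation.map_sub_lt _ (Valuation.map_add_lt _ (Valuation.map_add_lt _ ?_ ?_) ?_) ?_
          · rw [map_pow]
            exact pow_lt_pow_left₀ h zero_le (by norm_num)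
          · rw [hVt1]; exact h13
          · refine hVt2.trans_lt ?_
            calc V U₁ * V Y ≤ V U₁ * V U₁ := by gcongr
              _ = V U₁ ^ 2 := (sq _).symm
              _ < V U₁ ^ 3 := pow_lt_pow_right₀ h1 (by norm_num)
          · exact hsm.trans h13
        have e : Y ^ 3 + δ ^ 2 * κ ^ 3 + 3 * δ * κ * U₁ * Y -
            (Y ^ 3 - δ * U₁ ^ 3 + δ ^ 2 * κ ^ 3 + 3 * δ * κ * U₁ * Y) = δ * U₁ ^ 3 := by ring
        rw [e, hVU3] at hx
        exact lt_irrefl _ hx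
      · -- equal
        have h1 : 1 < V U₁ := by
          by_contra h2
          rw [not_lt] at h2
          exact hYU ⟨h.le.trans h2, h2⟩
        have hU0 : U₁ ≠ 0 := by
          rintro rfl
          rw [map_zero] at h1
          exact absurd h1 (by simp)
        have h12 : 1 < V U₁ ^ 2 := one_lt_pow₀ h1 (by norm_num)
        apply nc (Y / U₁)
        have hx : V ((Y ^ 3 - δ * U₁ ^ 3 + δ ^ 2 * κ ^ 3 + 3 * δ * κ * U₁ * Y) -
            δ ^ 2 * κ ^ 3 - 3 * δ * κ * U₁ * Y) ≤ V U₁ ^ 2 := by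
          refine Valuation.map_sub_le _ (Valuation.map_sub_le _ ?_ ?_) ?_
          · exact (hsm.trans h12).le
          · rw [hVt1]; exact h12.le
          · rw [h, ← sq] at hVt2
            exact hVt2
        have e : (Y ^ 3 - δ * U₁ ^ 3 + δ ^ 2 * κ ^ 3 + 3 * δ * κ * U₁ * Y) -
            δ ^ 2 * κ ^ 3 - 3 * δ * κ * U₁ * Y = U₁ ^ 3 * ((Y / U₁) ^ 3 - δ) := by
          field_simp
          ring
        rw [e, map_mul, map_pow] at hx
        by_contra h3
        rw [not_lt] at h3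
        have h4 : V U₁ ^ 3 * 1 ≤ V U₁ ^ 2 := (mul_le_mul_right h3 _).trans hx
        rw [mul_one] at h4
        exact absurd h4 (not_le.2 (pow_lt_pow_right₀ h1 (by norm_num)))
      · -- V U₁ < V Y
        have h1 : 1 < V Y := by
          by_contra h2
          rw [not_lt] at h2
          exact hYU ⟨h2, h.le.trans h2⟩
        have h13 : 1 < V Y ^ 3 := one_lt_pow₀ h1 (by norm_num)
        have hx : V ((Y ^ 3 - δ * U₁ ^ 3 + δ ^ 2 * κ ^ 3 + 3 * δ * κ * U₁ * Y) + δ * U₁ ^ 3 -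
            δ ^ 2 * κ ^ 3 - 3 * δ * κ * U₁ * Y) < V Y ^ 3 := by
          refine Valuation.map_sub_lt _ (Valuation.map_sub_lt _ (Valuation.map_add_lt _ ?_ ?_) ?_) ?_
          · exact hsm.trans h13
          · rw [hVU3]
            exact pow_lt_pow_left₀ h zero_le (by norm_num)
          · rw [hVt1]; exact h13
          · refine hVt2.trans_lt ?_
            calc V U₁ * V Y ≤ V Y * V Y := by gcongr
              _ = V Y ^ 2 := (sq _).symm
              _ < V Y ^ 3 := pow_lt_pow_right₀ h1 (by norm_num)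
        have e : (Y ^ 3 - δ * U₁ ^ 3 + δ ^ 2 * κ ^ 3 + 3 * δ * κ * U₁ * Y) + δ * U₁ ^ 3 -
            δ ^ 2 * κ ^ 3 - 3 * δ * κ * U₁ * Y = Y ^ 3 := by ring
        rw [e, map_pow] at hx
        exact lt_irrefl _ hx

end H55T3
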