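import Pool.Agent.H55.T3.Vs
import Pool.Agent.H55.T3.Vb
import Pool.Agent.H55.T3.Vg

/-!
Definition for the rows with coefficients in a number field (helper55; no row).
-/

set_option autoImplicit false
open scoped Classical

open WeierstrassCurve IsDedekindDomain NumberField WithZero

namespace H55T3

/-- The possible local classes at a place above three, for the curve `y^2 = x^3 - 3 (a x + b)^2`:
`1 + 3 η` with `η^2 a^3 ≡ 2 b`, the class `1`, or (if `a` is not a unit) the class of `2 c` or of its inverse. -/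
def Cls2 {F : Type*} [Field F] (V : Valuation F (WithZero (Multiplicative ℤ))) (a b d : F) : Prop :=
  (∃ t η : F, t ≠ 0 ∧ V η ≤ 1 ∧ V a = 1 ∧ V (η ^ 2 * a ^ 3 - 2 * b) < 1 ∧
    V (d * t ^ 3 - (1 + 3 * η)) ≤ exp (-2 : ℤ)) ∨
  (∃ t : F, t ≠ 0 ∧ V (d * t ^ 3 - 1) ≤ exp (-2 : ℤ)) ∨
  (V a < 1 ∧ ∃ t : F, t ≠ 0 ∧ (V (d * t ^ 3 * (2 * (9 * b + 4 * a ^ 3)) - 1) ≤ exp (-2 : ℤ) ∨
    V (d * t ^ 3 * (2 * (9 * b + 4 * a ^ 3))⁻¹ - 1) ≤ exp (-2 : ℤ)))

end H55T3
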