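import Pool.Agent.H55.T3.Me
import Pool.Agent.H55.T3.GDf

/-!
Row Xh (about 130 lines): elements with valuations divisible by three; the rational field.

PROOF. cube_of_vals_pid: exists_cube_ideal (Me.lean): e = y b^3, I^3 = (y), I = (x): y = u x^3, e = u (x b)^3.
rat_cube: 𝓞 ℚ is a PID (Rat.ringOfIntegersEquiv : 𝓞 ℚ ≃+* ℤ) with units ±1 (image of a unit of ℤ), and -1 = (-1)^3.
rat_rep: for p ∈ S choose e p ∈ ℕ with e p ≡ -(log of the valuation of d at the place w_p above p) mod 3, where log (w_p.valuation ℚ p) = -1 (p prime: w_p = the ideal (p), unramified; the same valuation is 1 on the other primes). Then d / ∏ p^(e p) has all valuations divisible by three (a place w containing some p ∈ S is w_p;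
 a place containing no p ∈ S: the p are units there), so rat_cube.
nine_cube: V τ^3 * V n = 1 so V τ = 1; write τ = u / v with integers u, v prime to 3 (Vb_unit: w.valuation of an integer prime to 3 is 1; τ in lowest terms): V (n u^3 - v^3) ≤ exp (-2), i.e. 9 | n u^3 - v^3 (log of the valuation of an integer at w_3 is minus its 3-adic valuation), and u^3, v^3 ≡ ±1 mod 9.
-/

set_option autoImplicit false
open scoped Classical

open IsDedekindDomain NumberField WithZero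

namespace H55T3

theorem cube_of_vals_pid {C : Type} [Field C] [NumberField C] [IsPrincipalIdealRing (𝓞 C)] {e : C}
    (he : e ≠ 0) (hv : ∀ w : HeightOneSpectrum (𝓞 C), (3 : ℤ) ∣ log (w.valuation C e)) :
    ∃ (u : (𝓞 C)ˣ) (β : C), β ≠ 0 ∧ e = ((u : 𝓞 C) : C) * β ^ 3 := by
  obtain ⟨y, b, I, hy, hb, hI, hI3, hey⟩ := exists_cube_ideal he hv
  obtain ⟨x, hx⟩ := (IsPrincipalIdealRing.principal I).principal
  change I = Ideal.span {x} at hx
  rw [hx, Ideal.span_singleton_pow, Ideal.span_singleton_eq_span_singleton] at hI3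
  obtain ⟨u, hu⟩ := hI3
  have hx0 : x ≠ 0 := by
    rintro rfl
    apply hI
    rw [hx]
    simp
  have hxC : (x : C) ≠ 0 := RingOfIntegers.coe_ne_zero_iff.mpr hx0
  refine ⟨u, (x : C) * b, mul_ne_zero hxC hb, ?_⟩
  rw [hey, ← hu]
  push_cast
  ring

private lemma Xh_pid : IsPrincipalIdealRing (𝓞 ℚ) :=
  IsPrincipalIdealRing.of_surjective (Rat.ringOfIntegersEquiv.symm : ℤ →+* 𝓞 ℚ)
    Rat.ringOfIntegersEquiv.symm.surjective

private lemma Xh_unit (u : (𝓞 ℚ)ˣ) : ((u : 𝓞 ℚ) : ℚ) = 1 ∨ ((u : 𝓞 ℚ) : ℚ) = -1 := by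
  have h1 := Int.units_eq_one_or (Units.map (Rat.ringOfIntegersEquiv : 𝓞 ℚ →* ℤ) u)
  have h2 : Rat.ringOfIntegersEquiv (u : 𝓞 ℚ) = 1 ∨ Rat.ringOfIntegersEquiv (u : 𝓞 ℚ) = -1 := by
    rcases h1 with h | h
    · left
      have := congrArg (fun z : ℤˣ => (z : ℤ)) h
      simpa using this
    · right
      have := congrArg (fun z : ℤˣ => (z : ℤ)) h
      simpa using this
  rcases h2 with h | h
  · left
    have h3 : (u : 𝓞 ℚ) = 1 := by
      apply Rat.ringOfIntegersEquiv.injective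
      rw [h, map_one]
    rw [h3]
    simp
  · right
    have h3 : (u : 𝓞 ℚ) = -1 := by
      apply Rat.ringOfIntegersEquiv.injective
      rw [h, map_neg, map_one]
    rw [h3]
    simp

theorem rat_cube {d : ℚ} (hd : d ≠ 0)
    (hv : ∀ w : HeightOneSpectrum (𝓞 ℚ), (3 : ℤ) ∣ log (w.valuation ℚ d)) :
    ∃ t : ℚ, t ≠ 0 ∧ d = t ^ 3 := by
  have := Xh_pid
  obtain ⟨u, β, hβ, h⟩ := cube_of_vals_pid hd hv
  rcases Xh_unit u with hu | hu
  · exact ⟨β, hβ, by rw [h, hu]; ring⟩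
  · exact ⟨-β, neg_ne_zero.mpr hβ, by rw [h, hu]; ring⟩

private lemma Xh_span {q : ℕ} (hq : q.Prime) (w : HeightOneSpectrum (𝓞 ℚ))
    (hw : (q : 𝓞 ℚ) ∈ w.asIdeal) : w.asIdeal = Ideal.span {(q : 𝓞 ℚ)} := by
  have := Xh_pid
  have hpr : Prime (q : 𝓞 ℚ) := by
    have h1 : Prime (q : ℤ) := Nat.prime_iff_prime_int.mp hq
    have h2 := (MulEquiv.prime_iff (Rat.ringOfIntegersEquiv.symm : ℤ ≃* 𝓞 ℚ)).mpr h1
    simpa using h2
  have hP : (Ideal.span {(q : 𝓞 ℚ)}).IsPrime := (Ideal.span_singleton_prime hpr.ne_zero).mpr hpr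
  have hmax : (Ideal.span {(q : 𝓞 ℚ)}).IsMaximal := by
    apply hP.isMaximal
    rw [Ne, Ideal.span_singleton_eq_bot]
    exact hpr.ne_zero
  symm
  apply hmax.eq_of_le w.isPrime.ne_top
  rw [Ideal.span_singleton_le_iff_mem]
  exact hw

theorem rat_unr {q : ℕ} (hq : q.Prime) (w : HeightOneSpectrum (𝓞 ℚ)) (hw : (q : 𝓞 ℚ) ∈ w.asIdeal) :
    w.valuation ℚ (q : ℚ) = exp (-1 : ℤ) := by
  have h1 := Xh_span hq w hw
  have hq0 : (q : 𝓞 ℚ) ≠ 0 := by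
    exact_mod_cast hq.ne_zero
  have h2 := w.intValuation_singleton hq0 h1
  rw [← w.valuation_of_algebraMap (K := ℚ)] at h2
  rw [← h2]
  congr 1

private lemma Xh_unit_val (w : HeightOneSpectrum (𝓞 ℚ)) {q : ℕ} (hw : (q : 𝓞 ℚ) ∉ w.asIdeal) :
    w.valuation ℚ (q : ℚ) = 1 := by
  have h1 : w.valuation ℚ (algebraMap (𝓞 ℚ) ℚ (q : 𝓞 ℚ)) = 1 := by
    apply le_antisymm (w.valuation_le_one _)
    by_contra h
    push Not at h
    exact hw ((w.valuation_lt_one_iff_mem _).mp h)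
  rw [← h1]
  congr 1

private lemma Xh_uniq {p q : ℕ} (hp : p.Prime) (hq : q.Prime) (hpq : p ≠ q)
    (w : HeightOneSpectrum (𝓞 ℚ)) (hw : (p : 𝓞 ℚ) ∈ w.asIdeal) : (q : 𝓞 ℚ) ∉ w.asIdeal := by
  intro hw2
  apply w.isPrime.ne_top
  rw [Ideal.eq_top_iff_one]
  have hc : IsCoprime (p : ℤ) (q : ℤ) := by
    rw [Nat.isCoprime_iff_coprime]
    exact (Nat.coprime_primes hp hq).mpr hpq
  obtain ⟨a, b, hab⟩ := hc
  have h1 : ((a : ℤ) : 𝓞 ℚ) * (p : 𝓞 ℚ) + ((b : ℤ) : 𝓞 ℚ) * (q : 𝓞 ℚ) = 1 := by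
    have := congrArg (fun z : ℤ => (z : 𝓞 ℚ)) hab
    push_cast at this
    exact this
  rw [← h1]
  exact Ideal.add_mem _ (Ideal.mul_mem_left _ _ hw) (Ideal.mul_mem_left _ _ hw2)

private lemma Xh_exists_e {d : ℚ} (p : ℕ) : ∃ e : ℕ, ∀ w : HeightOneSpectrum (𝓞 ℚ), p.Prime →
    (p : 𝓞 ℚ) ∈ w.asIdeal → (3 : ℤ) ∣ log (w.valuation ℚ d) + e := by
  by_cases h : ∃ w : HeightOneSpectrum (𝓞 ℚ), p.Prime ∧ (p : 𝓞 ℚ) ∈ w.asIdeal
  · obtain ⟨w, hp, hw⟩ := h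
    refine ⟨((-(log (w.valuation ℚ d))) % 3).toNat, ?_⟩
    intro w' _ hw'
    have hww : w' = w := by
      apply HeightOneSpectrum.ext
      rw [Xh_span hp w hw, Xh_span hp w' hw']
    rw [hww]
    omega
  · refine ⟨0, ?_⟩
    intro w hp hw
    exact absurd ⟨w, hp, hw⟩ h

theorem rat_rep (S : Finset ℕ) (hS : ∀ p ∈ S, p.Prime) {d : ℚ} (hd : d ≠ 0)
    (hv : ∀ w : HeightOneSpectrum (𝓞 ℚ), (∀ p ∈ S, (p : 𝓞 ℚ) ∉ w.asIdeal) →
      (3 : ℤ) ∣ log (w.valuation ℚ d)) :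
    ∃ (e : ℕ → ℕ) (t : ℚ), t ≠ 0 ∧ d = (∏ p ∈ S, (p : ℚ) ^ (e p)) * t ^ 3 := by
  choose e he using (Xh_exists_e (d := d))
  have hP : (∏ p ∈ S, (p : ℚ) ^ (e p)) ≠ 0 := by
    apply Finset.prod_ne_zero_iff.mpr
    intro p hp
    apply pow_ne_zero
    exact_mod_cast (hS p hp).ne_zero
  have hvd : ∀ w : HeightOneSpectrum (𝓞 ℚ), w.valuation ℚ d ≠ 0 := fun w =>
    (Valuation.ne_zero_iff _).mpr hd
  obtain ⟨t, ht, h⟩ := rat_cube (d := d / ∏ p ∈ S, (p : ℚ) ^ (e p)) (div_ne_zero hd hP) (by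
    intro w
    by_cases hw : ∃ p ∈ S, (p : 𝓞 ℚ) ∈ w.asIdeal
    · obtain ⟨p, hp, hpw⟩ := hw
      have h1 : w.valuation ℚ (∏ p ∈ S, (p : ℚ) ^ (e p)) = exp (-1 : ℤ) ^ (e p) := by
        rw [map_prod, Finset.prod_eq_single_of_mem p hp]
        · rw [map_pow, rat_unr (hS p hp) w hpw]
        · intro q hq hqp
          rw [map_pow, Xh_unit_val w (Xh_uniq (hS p hp) (hS q hq) (Ne.symm hqp) w hpw), one_pow]
      rw [map_div₀, h1, log_div (hvd w) (pow_ne_zero _ (exp_ne_zero)), log_pow, log_exp]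
      have h2 := he p w (hS p hp) hpw
      simp only [nsmul_eq_mul, mul_neg, mul_one, sub_neg_eq_add]
      exact h2
    · push Not at hw
      have h1 : w.valuation ℚ (∏ p ∈ S, (p : ℚ) ^ (e p)) = 1 := by
        rw [map_prod]
        apply Finset.prod_eq_one
        intro q hq
        rw [map_pow, Xh_unit_val w (hw q hq), one_pow]
      rw [map_div₀, h1, div_one]
      exact hv w hw)
  refine ⟨e, t, ht, ?_⟩
  rw [← h]
  field_simp

private lemma Xh_dvd9 {F : Type*} [Field F] {V : Valuation F (WithZero (Multiplicative ℤ))}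
    (h3 : V 3 = exp (-1 : ℤ)) {m : ℤ} (h : V (m : F) ≤ exp (-2 : ℤ)) : (9 : ℤ) ∣ m := by
  have hlt : (exp (-2 : ℤ) : WithZero (Multiplicative ℤ)) < 1 := by
    rw [← exp_zero, exp_lt_exp]
    norm_num
  have h1 : (3 : ℤ) ∣ m := by
    by_contra hc
    have := Vb_unit h3 hc
    rw [this] at h
    exact absurd h (not_le.mpr hlt)
  obtain ⟨k, rfl⟩ := h1
  have h2 : (3 : ℤ) ∣ k := by
    by_contra hc
    have h4 := Vb_unit h3 hc
    push_cast at h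
    rw [map_mul, h3, h4, mul_one, exp_le_exp] at h
    norm_num at h
  obtain ⟨l, rfl⟩ := h2
  exact ⟨l, by ring⟩

private lemma Xh_cube_mod {u : ℤ} (hu : ¬ (3 : ℤ) ∣ u) : u ^ 3 % 9 = 1 ∨ u ^ 3 % 9 = 8 := by
  have h : u % 9 = 1 ∨ u % 9 = 2 ∨ u % 9 = 4 ∨ u % 9 = 5 ∨ u % 9 = 7 ∨ u % 9 = 8 := by omega
  rcases h with h | h | h | h | h | h <;> simp [pow_succ, Int.mul_emod, h]

theorem nine_cube {w : HeightOneSpectrum (𝓞 ℚ)} (hw : (3 : 𝓞 ℚ) ∈ w.asIdeal) {n : ℤ}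
    (hn : ¬ (3 : ℤ) ∣ n) {τ : ℚ} (h : w.valuation ℚ (n * τ ^ 3 - 1) ≤ exp (-2 : ℤ)) :
    n % 9 = 1 ∨ n % 9 = 8 := by
  have h3 : w.valuation ℚ 3 = exp (-1 : ℤ) := by
    have := rat_unr Nat.prime_three w (by exact_mod_cast hw)
    exact_mod_cast this
  have hlt : (exp (-2 : ℤ) : WithZero (Multiplicative ℤ)) < 1 := by
    rw [← exp_zero, exp_lt_exp]
    norm_num
  have hVn : w.valuation ℚ (n : ℚ) = 1 := Vb_unit h3 hn
  have h1 : w.valuation ℚ ((n : ℚ) * τ ^ 3) = 1 := by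
    have h4 : w.valuation ℚ ((n : ℚ) * τ ^ 3 - 1) < w.valuation ℚ 1 := by
      rw [map_one]
      exact lt_of_le_of_lt h hlt
    have h7 := Valuation.map_add_eq_of_lt_left (w.valuation ℚ) h4
    have h8 : (1 : ℚ) + ((n : ℚ) * τ ^ 3 - 1) = (n : ℚ) * τ ^ 3 := by ring
    rw [h8, map_one] at h7
    exact h7
  have hτ : w.valuation ℚ τ = 1 := by
    rw [map_mul, hVn, one_mul, map_pow] at h1
    have h0 : w.valuation ℚ τ ≠ 0 := by
      intro h0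
      rw [h0] at h1
      norm_num at h1
    have h5 := congrArg log h1
    rw [log_pow, log_one] at h5
    have h6 : log (w.valuation ℚ τ) = 0 := by
      simpa using h5
    rw [← exp_log h0, h6, exp_zero]
  have hden0 : (τ.den : ℚ) ≠ 0 := by exact_mod_cast τ.den_ne_zero
  have hnd : τ * (τ.den : ℚ) = (τ.num : ℚ) := Rat.mul_den_eq_num τ
  have hVnd : w.valuation ℚ ((τ.num : ℤ) : ℚ) = w.valuation ℚ (((τ.den : ℕ) : ℤ) : ℚ) := by
    rw [← hnd, map_mul, hτ, one_mul]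
    norm_cast
  have h3lt : ∀ k : ℤ, w.valuation ℚ ((3 * k : ℤ) : ℚ) < 1 := by
    intro k
    push_cast
    rw [map_mul, h3]
    have h4 : w.valuation ℚ ((k : ℤ) : ℚ) ≤ 1 := by
      have := w.valuation_le_one (K := ℚ) (k : 𝓞 ℚ)
      simpa using this
    calc exp (-1 : ℤ) * w.valuation ℚ ((k : ℤ) : ℚ) ≤ exp (-1 : ℤ) * 1 := by gcongr
      _ = exp (-1 : ℤ) := mul_one _
      _ < 1 := by
        rw [← exp_zero, exp_lt_exp]
        norm_num
  have hcop : ¬ ((3 : ℤ) ∣ τ.num ∧ (3 : ℤ) ∣ (τ.den : ℤ)) := by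
    rintro ⟨ha, hb⟩
    have h5 := τ.reduced
    have h6 : (3 : ℕ) ∣ τ.num.natAbs := Int.natCast_dvd.mp (by exact_mod_cast ha)
    have h7 : (3 : ℕ) ∣ τ.den := by exact_mod_cast hb
    have h8 := Nat.dvd_gcd h6 h7
    rw [Nat.Coprime] at h5
    rw [h5] at h8
    norm_num at h8
  have hu : ¬ (3 : ℤ) ∣ τ.num := by
    intro ha
    apply hcop
    refine ⟨ha, ?_⟩
    by_contra hb
    have h5 := Vb_unit h3 hb
    obtain ⟨k, hk⟩ := ha
    rw [← hVnd, hk] at h5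
    exact absurd h5 (h3lt k).ne
  have hv : ¬ (3 : ℤ) ∣ (τ.den : ℤ) := by
    intro ha
    have h5 := Vb_unit h3 hu
    obtain ⟨k, hk⟩ := ha
    rw [hVnd, hk] at h5
    exact absurd h5 (h3lt k).ne
  have h9 : (9 : ℤ) ∣ n * τ.num ^ 3 - (τ.den : ℤ) ^ 3 := by
    apply Xh_dvd9 h3
    have h5 : ((n * τ.num ^ 3 - (τ.den : ℤ) ^ 3 : ℤ) : ℚ) =
        (((τ.den : ℕ) : ℤ) : ℚ) ^ 3 * (n * τ ^ 3 - 1) := by
      push_cast
      rw [← hnd]
      ring
    rw [h5, map_mul, map_pow, Vb_unit h3 hv, one_pow, one_mul]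
    exact h
  have hu3 := Xh_cube_mod hu
  have hv3 := Xh_cube_mod hv
  have h10 : n * τ.num ^ 3 % 9 = ((n % 9) * (τ.num ^ 3 % 9)) % 9 := Int.mul_emod _ _ _
  have h11 : n * τ.num ^ 3 % 9 = (τ.den : ℤ) ^ 3 % 9 :=
    Int.emod_eq_emod_iff_emod_sub_eq_zero.mpr (Int.emod_eq_zero_of_dvd h9)
  have h12 : n % 9 = 0 ∨ n % 9 = 1 ∨ n % 9 = 2 ∨ n % 9 = 3 ∨ n % 9 = 4 ∨ n % 9 = 5 ∨ n % 9 = 6 ∨
      n % 9 = 7 ∨ n % 9 = 8 := by omega
  rcases hu3 with hu3 | hu3 <;> rcases hv3 with hv3 | hv3 <;> rw [hu3] at h10 <;>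
    rw [hv3] at h11 <;> omega

end H55T3
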