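import Pool.Agent.H55.T3.Pair2
import Pool.Agent.H55.T3.Xh

/-!
Row Xr (about 250 lines): two independent points on y^2 = x^3 + (715 - 15 x)^2.

PROOF. W := cF (-5) 135 over ℚ: y^2 = x^3 + 225 x^2 - 21450 x + 511225 = x^3 + (715 - 15 x)^2. For an affine point (x, y) put D(x, y) := y + 715 - 15 x if this is ≠ 0, and (for (0, -715)) D := 1 / 1430. D(0) := 1. Claim: D is a homomorphism modulo cubes of ℚ*.
(1) D(-P) D(P) is a cube: (y + m)(y - m) = x^3 for m = 715 - 15 x, D(-P) = -(y - m); for x = 0 by definition (1430 * 1/1430 = 1).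
(2) P1 + P2 + P3 = 0 (all affine): exists_line (Ln.lean): y_i = l x_i + m0, ∏ (x - x_i) = x^3 + (715 - 15 x)^2 - (l x + m0)^2 as polynomials. If no P_i is (0, -715): put A = l - 15, B = m0 + 715: if A ≠ 0, x0 = -B/A: ∏ (x0 - x_i) = x0^3 so ∏ (A x_i + B) = B^3 (both sides times A^3, sign checked: ∏ (A x_i + B) = -A^3 ∏ (x0 - x_i) = -A^3 x0^3 = B^3);
    if A = 0 the product is B^3 as well. So D(P1) D(P2) D(P3) = B^3. If some P_i is (0, -715) replace all P_i by -P_i when none of them is (0, 715) (use (1)); the remaining cases (T, -T, 0 or T + T + T = 0 with T = (0, 715)) directly: D(T) = 1430.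
So for all points D(P + Q) = D(P) D(Q) up to cubes (D(n P) = D(P)^n up to cubes).
(3) P1 = (-70, 1665): D = 3430 = 10 * 7^3. P2 = (26, 351): D = 676 = 26^2. T = (0, 715): D = 1430 = 2 * 5 * 11 * 13. If m P1 + n P2 + l T = 0 (m, n, l integers) then 10^m 26^(2 n) 1430^l is a cube; 11-adic valuation: 3 | l; 13-adic: 3 | 2 n + l so 3 | n; 5-adic: 3 | m + l so 3 | m.
(4) the points of order dividing 3 in W(ℚ) are 0, ±T: 3 (x, y) = 0 with three_iff (To.lean, is3_cF: D = -3, a = -5, b = 715/3): x = 0 or x^3 + 12 * 25 x^2 - 12 * 5 * 715 x + 4 * 715^2 = 0, i.e. x^3 + 300 x^2 - 42900 x + 2044900 = 0 which has no rational root (a rational root is an integer, and there is no root modulo 19: decide).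
(5) infinite descent on |m| + |n|: relation m P1 + n P2 + l T = 0, l ∈ {0, 1, 2} (3 T = 0): by (3) m = 3 m', n = 3 n', l = 0: 3 (m' P1 + n' P2) = 0, so m' P1 + n' P2 ∈ {0, T, -T} by (4): again a relation. So m = n = 0.
-/

set_option autoImplicit false
open scoped Classical

open WeierstrassCurve NumberField

namespace H55T3

/-- the function `y + m` -/
def Xr_D (x y : ℚ) : ℚ := y + 715 - 15 * x

/-- the function `y - m` -/
def Xr_E (x y : ℚ) : ℚ := y - 715 + 15 * x

noncomputable def Xr_f (p : ℕ) (x y : ℚ) : ZMod 3 :=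
  if Xr_D x y ≠ 0 then ((padicValRat p (Xr_D x y) : ℤ) : ZMod 3)
  else -((padicValRat p (Xr_E x y) : ℤ) : ZMod 3)

theorem Xr_is3 : Is3 (cF (-5 : ℚ) 135) (-3) (-5) ((9 * 135 + 4 * (-5) ^ 3) / 3) :=
  is3_cF (by norm_num) (by norm_num)

theorem Xr_eqn {x y : ℚ} (n : (cF (-5 : ℚ) 135).toAffine.Nonsingular x y) :
    Xr_D x y * Xr_E x y = x ^ 3 := by
  have h := Xr_is3.eqn n
  unfold Xr_D Xr_E
  linear_combination h

theorem Xr_three (z : ℤ) : ((3 * z : ℤ) : ZMod 3) = 0 := by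
  push_cast
  have : (3 : ZMod 3) = 0 := rfl
  rw [this, zero_mul]

theorem Xr_fE {p : ℕ} [Fact p.Prime] {x y : ℚ}
    (n : (cF (-5 : ℚ) 135).toAffine.Nonsingular x y) (hE : Xr_E x y ≠ 0) :
    Xr_f p x y = -((padicValRat p (Xr_E x y) : ℤ) : ZMod 3) := by
  unfold Xr_f
  by_cases hD : Xr_D x y ≠ 0
  · rw [if_pos hD, ← sub_eq_zero, sub_neg_eq_add, ← Int.cast_add, ← padicValRat.mul hD hE,
      Xr_eqn n]
    rw [padicValRat.pow]
    exact Xr_three _
  · rw [if_neg hD]

theorem Xr_triple {p : ℕ} [Fact p.Prime] {x₁ x₂ x₃ y₁ y₂ y₃ : ℚ}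
    (n₁ : (cF (-5 : ℚ) 135).toAffine.Nonsingular x₁ y₁)
    (n₂ : (cF (-5 : ℚ) 135).toAffine.Nonsingular x₂ y₂)
    (n₃ : (cF (-5 : ℚ) 135).toAffine.Nonsingular x₃ y₃)
    (hs : Affine.Point.some x₁ y₁ n₁ + Affine.Point.some x₂ y₂ n₂ +
      Affine.Point.some x₃ y₃ n₃ = 0) :
    Xr_f p x₁ y₁ + Xr_f p x₂ y₂ + Xr_f p x₃ y₃ = 0 := by
  obtain ⟨l, m, h1, h2, h3, e1, e2, e3⟩ := exists_line (n₁ := n₁) (n₂ := n₂) (n₃ := n₃)
    Xr_is3.a₁ Xr_is3.a₃ two_ne_zero (by
      rw [Subsingleton.elim (instDecidableEqRat) (fun a b => Classical.propDecidable (a = b))] at hs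
      exact hs)
  have a2 : (cF (-5 : ℚ) 135).a₂ = 225 := by simp only [cF]; norm_num
  have a4 : (cF (-5 : ℚ) 135).a₄ = -21450 := by simp only [cF]; norm_num
  have a6 : (cF (-5 : ℚ) 135).a₆ = 511225 := by simp only [cF]; norm_num
  rw [a2] at e1
  rw [a4] at e2
  rw [a6] at e3
  have hD : Xr_D x₁ y₁ * Xr_D x₂ y₂ * Xr_D x₃ y₃ = (m + 715) ^ 3 := by
    unfold Xr_D
    rw [h1, h2, h3]
    linear_combination ((l - 15) ^ 3) * e3 + ((l - 15) ^ 2 * (m + 715)) * e2 +
      ((l - 15) * (m + 715) ^ 2) * e1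
  have hE : Xr_E x₁ y₁ * Xr_E x₂ y₂ * Xr_E x₃ y₃ = (m - 715) ^ 3 := by
    unfold Xr_E
    rw [h1, h2, h3]
    linear_combination ((l + 15) ^ 3) * e3 + ((l + 15) ^ 2 * (m - 715)) * e2 +
      ((l + 15) * (m - 715) ^ 2) * e1
  by_cases hB : m + 715 = 0
  · have hB' : m - 715 ≠ 0 := by
      intro h
      linarith
    have hne : Xr_E x₁ y₁ * Xr_E x₂ y₂ * Xr_E x₃ y₃ ≠ 0 := by
      rw [hE]
      exact pow_ne_zero 3 hB'
    have d3 := right_ne_zero_of_mul hne
    have d12 := left_ne_zero_of_mul hne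
    have d1 := left_ne_zero_of_mul d12
    have d2 := right_ne_zero_of_mul d12
    rw [Xr_fE n₁ d1, Xr_fE n₂ d2, Xr_fE n₃ d3]
    have h4 : padicValRat p (Xr_E x₁ y₁) + padicValRat p (Xr_E x₂ y₂) +
        padicValRat p (Xr_E x₃ y₃) = 3 * padicValRat p (m - 715) := by
      rw [← padicValRat.mul d1 d2, ← padicValRat.mul d12 d3, hE, padicValRat.pow]
      rfl
    have h5 := Xr_three (padicValRat p (m - 715))
    rw [← h4, Int.cast_add, Int.cast_add] at h5
    linear_combination -h5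
  · have hne : Xr_D x₁ y₁ * Xr_D x₂ y₂ * Xr_D x₃ y₃ ≠ 0 := by
      rw [hD]
      exact pow_ne_zero 3 hB
    have d3 := right_ne_zero_of_mul hne
    have d12 := left_ne_zero_of_mul hne
    have d1 := left_ne_zero_of_mul d12
    have d2 := right_ne_zero_of_mul d12
    unfold Xr_f
    rw [if_pos d1, if_pos d2, if_pos d3]
    have h4 : padicValRat p (Xr_D x₁ y₁) + padicValRat p (Xr_D x₂ y₂) +
        padicValRat p (Xr_D x₃ y₃) = 3 * padicValRat p (m + 715) := by
      rw [← padicValRat.mul d1 d2, ← padicValRat.mul d12 d3, hD, padicValRat.pow]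
      rfl
    have h5 := Xr_three (padicValRat p (m + 715))
    rw [← h4, Int.cast_add, Int.cast_add] at h5
    exact h5

/-- the valuation of the descent map -/
noncomputable def Xr_g (p : ℕ) : (cF (-5 : ℚ) 135).toAffine.Point → ZMod 3
  | 0 => 0
  | .some x y _ => Xr_f p x y

theorem Xr_ex {P : (cF (-5 : ℚ) 135).toAffine.Point} (hP : P ≠ 0) :
    ∃ x y, ∃ n : (cF (-5 : ℚ) 135).toAffine.Nonsingular x y, P = Affine.Point.some x y n := by
  rcases P with _ | ⟨x, y, n⟩
  · exact absurd rfl hP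
  · exact ⟨x, y, n, rfl⟩

theorem Xr_neg {p : ℕ} [Fact p.Prime] (P : (cF (-5 : ℚ) 135).toAffine.Point) :
    Xr_g p (-P) = -Xr_g p P := by
  by_cases hP : P = 0
  · rw [hP, neg_zero]
    show (0 : ZMod 3) = -0
    rw [neg_zero]
  obtain ⟨x, y, n, rfl⟩ := Xr_ex hP
  obtain ⟨n', hn'⟩ := neg_some Xr_is3.a₁ Xr_is3.a₃ n
  rw [hn']
  show Xr_f p x (-y) = -Xr_f p x y
  have hDE : Xr_D x (-y) = -Xr_E x y := by unfold Xr_D Xr_E; ring
  have hED : Xr_E x (-y) = -Xr_D x y := by unfold Xr_D Xr_E; ring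
  by_cases hD : Xr_D x y = 0
  · have hE : Xr_E x y ≠ 0 := by
      intro hE
      unfold Xr_D at hD
      unfold Xr_E at hE
      have hx : x = 0 := by
        have := Xr_eqn n
        unfold Xr_D Xr_E at this
        rw [hD, zero_mul] at this
        exact pow_eq_zero_iff three_ne_zero |>.1 this.symm
      rw [hx] at hD hE
      linarith
    have h1 : Xr_D x (-y) ≠ 0 := by
      rw [hDE]
      exact neg_ne_zero.2 hE
    rw [Xr_fE n hE, neg_neg]
    unfold Xr_f
    rw [if_pos h1, hDE, padicValRat.neg]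
  · have h1 : Xr_E x (-y) ≠ 0 := by
      rw [hED]
      exact neg_ne_zero.2 hD
    rw [Xr_fE n' h1, hED, padicValRat.neg]
    unfold Xr_f
    rw [if_pos hD]

theorem Xr_add {p : ℕ} [Fact p.Prime] (P Q : (cF (-5 : ℚ) 135).toAffine.Point) :
    Xr_g p (P + Q) = Xr_g p P + Xr_g p Q := by
  have z : Xr_g p 0 = 0 := rfl
  by_cases hP : P = 0
  · rw [hP, zero_add, z, zero_add]
  by_cases hQ : Q = 0
  · rw [hQ, add_zero, z, add_zero]
  by_cases hR : -(P + Q) = 0
  · have h1 : P + Q = 0 := neg_eq_zero.1 hR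
    have h2 : Q = -P := eq_neg_of_add_eq_zero_right h1
    rw [h1, z, h2, Xr_neg, add_neg_cancel]
  have hneg := Xr_neg (p := p) (P + Q)
  obtain ⟨x₁, y₁, n₁, h1⟩ := Xr_ex hP
  obtain ⟨x₂, y₂, n₂, h2⟩ := Xr_ex hQ
  obtain ⟨x₃, y₃, n₃, h3⟩ := Xr_ex hR
  have hs : Affine.Point.some x₁ y₁ n₁ + Affine.Point.some x₂ y₂ n₂ +
      Affine.Point.some x₃ y₃ n₃ = 0 := by
    rw [← h1, ← h2, ← h3, add_neg_cancel]
  have h4 := Xr_triple (p := p) n₁ n₂ n₃ hs
  have e1 : Xr_g p P = Xr_f p x₁ y₁ := by rw [h1]; rfl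
  have e2 : Xr_g p Q = Xr_f p x₂ y₂ := by rw [h2]; rfl
  have e3 : Xr_g p (-(P + Q)) = Xr_f p x₃ y₃ := by rw [h3]; rfl
  rw [← e1, ← e2, ← e3, hneg] at h4
  exact (add_neg_eq_zero.1 h4).symm

/-- the homomorphism -/
noncomputable def Xr_h (p : ℕ) [Fact p.Prime] :
    (cF (-5 : ℚ) 135).toAffine.Point →+ ZMod 3 where
  toFun := Xr_g p
  map_zero' := rfl
  map_add' := Xr_add

theorem Xr_val (p k m : ℕ) [Fact p.Prime] (hm : ¬ p ∣ m) :
    padicValRat p ((p ^ k * m : ℕ) : ℚ) = k := by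
  have hp : p.Prime := Fact.out
  have hm0 : m ≠ 0 := by
    rintro rfl
    exact hm (dvd_zero p)
  rw [padicValRat.of_nat, padicValNat.mul (pow_ne_zero k hp.ne_zero) hm0, padicValNat.prime_pow,
    padicValNat.eq_zero_of_not_dvd hm, add_zero]

theorem Xr_ns {x y : ℚ} (hy : y ≠ 0) (he : y ^ 2 = x ^ 3 + 225 * x ^ 2 - 21450 * x + 511225) :
    (cF (-5 : ℚ) 135).toAffine.Nonsingular x y := by
  rw [Affine.nonsingular_iff, Affine.equation_iff]
  have a1 : (cF (-5 : ℚ) 135).toAffine.a₁ = 0 := rfl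
  have a3 : (cF (-5 : ℚ) 135).toAffine.a₃ = 0 := rfl
  have a2 : (cF (-5 : ℚ) 135).toAffine.a₂ = 225 := by simp only [cF]; norm_num
  have a4 : (cF (-5 : ℚ) 135).toAffine.a₄ = -21450 := by simp only [cF]; norm_num
  have a6 : (cF (-5 : ℚ) 135).toAffine.a₆ = 511225 := by simp only [cF]; norm_num
  rw [a1, a2, a3, a4, a6]
  refine ⟨by linear_combination he, Or.inr ?_⟩
  intro h
  apply hy
  linarith

theorem Xr_root (x : ℚ) : x ^ 3 + 300 * x ^ 2 - 42900 * x + 2044900 ≠ 0 := by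
  intro h
  have hd : (x.den : ℚ) ≠ 0 := Nat.cast_ne_zero.2 x.den_ne_zero
  have hx : x = (x.num : ℚ) / (x.den : ℚ) := (Rat.num_div_den x).symm
  have h1 : (x.num : ℚ) ^ 3 + 300 * (x.num : ℚ) ^ 2 * x.den - 42900 * x.num * (x.den : ℚ) ^ 2 +
      2044900 * (x.den : ℚ) ^ 3 = 0 := by
    rw [hx] at h
    field_simp at h
    linear_combination h
  have h2 : x.num ^ 3 + 300 * x.num ^ 2 * (x.den : ℤ) - 42900 * x.num * (x.den : ℤ) ^ 2 +
      2044900 * (x.den : ℤ) ^ 3 = 0 := by exact_mod_cast h1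
  have h3 : ((x.num : ZMod 19)) ^ 3 + 300 * (x.num : ZMod 19) ^ 2 * ((x.den : ℤ) : ZMod 19) -
      42900 * (x.num : ZMod 19) * ((x.den : ℤ) : ZMod 19) ^ 2 +
      2044900 * ((x.den : ℤ) : ZMod 19) ^ 3 = 0 := by
    have := congrArg (Int.cast : ℤ → ZMod 19) h2
    push_cast at this ⊢
    exact this
  have key : ∀ u v : ZMod 19, u ^ 3 + 300 * u ^ 2 * v - 42900 * u * v ^ 2 + 2044900 * v ^ 3 = 0 →
      u = 0 ∧ v = 0 := by decide
  obtain ⟨h4, h5⟩ := key _ _ h3
  rw [ZMod.intCast_zmod_eq_zero_iff_dvd] at h4 h5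
  have h6 : (19 : ℕ) ∣ x.num.natAbs := Int.natCast_dvd.1 h4
  have h7 : (19 : ℕ) ∣ x.den := by exact_mod_cast h5
  have h8 := Nat.dvd_gcd h6 h7
  have h9 : Nat.gcd x.num.natAbs x.den = 1 := x.reduced
  rw [h9] at h8
  norm_num at h8

theorem Xr_tors (T : (cF (-5 : ℚ) 135).toAffine.Point)
    (nT : (cF (-5 : ℚ) 135).toAffine.Nonsingular 0 715)
    (hT : T = Affine.Point.some 0 715 nT) (P : (cF (-5 : ℚ) 135).toAffine.Point)
    (hP : 3 • P = 0) : ∃ e : ℤ, P = e • T := by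
  by_cases h0 : P = 0
  · exact ⟨0, by rw [h0, zero_zsmul]⟩
  obtain ⟨x, y, n, rfl⟩ := Xr_ex h0
  have h1 := (three_iff Xr_is3 n).1 (by
    rw [Subsingleton.elim (instDecidableEqRat) (fun a b => Classical.propDecidable (a = b))] at hP
    exact hP)
  have h2 : x * (x ^ 3 + 300 * x ^ 2 - 42900 * x + 2044900) = 0 := by
    linear_combination h1
  rcases mul_eq_zero.1 h2 with hx | hx
  · subst hx
    have h3 := Xr_eqn n
    unfold Xr_D Xr_E at h3
    have h4 : (y - 715) * (y + 715) = 0 := by linear_combination h3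
    rcases mul_eq_zero.1 h4 with hy | hy
    · have hy' : y = 715 := by linarith
      subst hy'
      exact ⟨1, by rw [one_zsmul, hT]⟩
    · have hy' : y = -715 := by linarith
      subst hy'
      refine ⟨-1, ?_⟩
      obtain ⟨n', hn'⟩ := neg_some Xr_is3.a₁ Xr_is3.a₃ nT
      rw [neg_zsmul, one_zsmul, hT, hn']
  · exact absurd hx (Xr_root x)

theorem indep2 : ∃ P Q : (cF (-5 : ℚ) 135).toAffine.Point, ∀ m n : ℤ, m • P + n • Q = 0 → m = 0 ∧ n = 0 := by
  have f5 : Fact (Nat.Prime 5) := ⟨by norm_num⟩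
  have f11 : Fact (Nat.Prime 11) := ⟨by norm_num⟩
  have f13 : Fact (Nat.Prime 13) := ⟨by norm_num⟩
  have n1 : (cF (-5 : ℚ) 135).toAffine.Nonsingular (-70) 1665 :=
    Xr_ns (by norm_num) (by norm_num)
  have n2 : (cF (-5 : ℚ) 135).toAffine.Nonsingular 26 351 := Xr_ns (by norm_num) (by norm_num)
  have nT : (cF (-5 : ℚ) 135).toAffine.Nonsingular 0 715 := Xr_ns (by norm_num) (by norm_num)
  set P1 : (cF (-5 : ℚ) 135).toAffine.Point := Affine.Point.some (-70) 1665 n1 with hP1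
  set P2 : (cF (-5 : ℚ) 135).toAffine.Point := Affine.Point.some 26 351 n2 with hP2
  set T : (cF (-5 : ℚ) 135).toAffine.Point := Affine.Point.some 0 715 nT with hT
  have d1 : Xr_D (-70) 1665 = 3430 := by unfold Xr_D; norm_num
  have d2 : Xr_D 26 351 = 676 := by unfold Xr_D; norm_num
  have dT : Xr_D 0 715 = 1430 := by unfold Xr_D; norm_num
  have v : ∀ (p : ℕ) [Fact p.Prime], Xr_h p P1 = ((padicValRat p (3430 : ℚ) : ℤ) : ZMod 3) ∧
      Xr_h p P2 = ((padicValRat p (676 : ℚ) : ℤ) : ZMod 3) ∧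
      Xr_h p T = ((padicValRat p (1430 : ℚ) : ℤ) : ZMod 3) := by
    intro p _
    refine ⟨?_, ?_, ?_⟩
    · show Xr_f p (-70) 1665 = _
      unfold Xr_f
      rw [d1, if_pos (by norm_num)]
    · show Xr_f p 26 351 = _
      unfold Xr_f
      rw [d2, if_pos (by norm_num)]
    · show Xr_f p 0 715 = _
      unfold Xr_f
      rw [dT, if_pos (by norm_num)]
  have w5a : padicValRat 5 (3430 : ℚ) = 1 := by
    have := Xr_val 5 1 686 (by norm_num)
    norm_num at this
    exact this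
  have w5b : padicValRat 5 (676 : ℚ) = 0 := by
    have := Xr_val 5 0 676 (by norm_num)
    norm_num at this
    exact this
  have w5c : padicValRat 5 (1430 : ℚ) = 1 := by
    have := Xr_val 5 1 286 (by norm_num)
    norm_num at this
    exact this
  have w11a : padicValRat 11 (3430 : ℚ) = 0 := by
    have := Xr_val 11 0 3430 (by norm_num)
    norm_num at this
    exact this
  have w11b : padicValRat 11 (676 : ℚ) = 0 := by
    have := Xr_val 11 0 676 (by norm_num)
    norm_num at this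
    exact this
  have w11c : padicValRat 11 (1430 : ℚ) = 1 := by
    have := Xr_val 11 1 130 (by norm_num)
    norm_num at this
    exact this
  have w13a : padicValRat 13 (3430 : ℚ) = 0 := by
    have := Xr_val 13 0 3430 (by norm_num)
    norm_num at this
    exact this
  have w13b : padicValRat 13 (676 : ℚ) = 2 := by
    have := Xr_val 13 2 4 (by norm_num)
    norm_num at this
    exact this
  have w13c : padicValRat 13 (1430 : ℚ) = 1 := by
    have := Xr_val 13 1 110 (by norm_num)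
    norm_num at this
    exact this
  have key : ∀ (N : ℕ) (m n l : ℤ), m.natAbs + n.natAbs ≤ N →
      m • P1 + n • P2 + l • T = 0 → m = 0 ∧ n = 0 := by
    intro N
    induction N with
    | zero =>
      intro m n l hN _
      constructor <;> omega
    | succ N ih =>
      intro m n l hN h
      have hp : ∀ (p : ℕ) [Fact p.Prime], (m : ZMod 3) * Xr_h p P1 + (n : ZMod 3) * Xr_h p P2 +
          (l : ZMod 3) * Xr_h p T = 0 := by
        intro p _
        have := congrArg (Xr_h p) h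
        rw [map_add, map_add, map_zsmul, map_zsmul, map_zsmul, map_zero, zsmul_eq_mul,
          zsmul_eq_mul, zsmul_eq_mul] at this
        exact this
      have h11 := hp 11
      rw [(v 11).1, (v 11).2.1, (v 11).2.2, w11a, w11b, w11c] at h11
      have h13 := hp 13
      rw [(v 13).1, (v 13).2.1, (v 13).2.2, w13a, w13b, w13c] at h13
      have h5 := hp 5
      rw [(v 5).1, (v 5).2.1, (v 5).2.2, w5a, w5b, w5c] at h5
      push_cast at h11 h13 h5
      have hl : (l : ZMod 3) = 0 := by linear_combination h11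
      have hn : (n : ZMod 3) = 0 := by
        have e : (n : ZMod 3) * 2 = 0 := by linear_combination h13 - hl
        have e2 : ∀ t : ZMod 3, t * 2 = 0 → t = 0 := by decide
        exact e2 _ e
      have hm : (m : ZMod 3) = 0 := by linear_combination h5 - hl
      rw [ZMod.intCast_zmod_eq_zero_iff_dvd] at hl hn hm
      obtain ⟨l', rfl⟩ := hl
      obtain ⟨n', rfl⟩ := hn
      obtain ⟨m', rfl⟩ := hm
      have h3 : 3 • (m' • P1 + n' • P2 + l' • T) = 0 := by
        have e3 : ∀ X : (cF (-5 : ℚ) 135).toAffine.Point, 3 • X = (3 : ℤ) • X := fun X =>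
          (natCast_zsmul X 3).symm
        rw [e3, zsmul_add, zsmul_add, ← mul_zsmul', ← mul_zsmul', ← mul_zsmul',
          mul_comm m' 3, mul_comm n' 3, mul_comm l' 3]
        exact_mod_cast h
      obtain ⟨e, he⟩ := Xr_tors T nT hT _ h3
      have h4 : m' • P1 + n' • P2 + (l' - e) • T = 0 := by
        rw [sub_zsmul, ← he]
        abel
      by_cases hz : m' = 0 ∧ n' = 0
      · rw [hz.1, hz.2]
        exact ⟨rfl, rfl⟩
      · have := ih m' n' (l' - e) (by
          rw [Int.natAbs_mul, Int.natAbs_mul] at hN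
          have t3 : Int.natAbs (((3 : ℕ) : ℤ)) = 3 := rfl
          rw [t3] at hN
          omega) h4
        exact absurd this hz
  refine ⟨P1, P2, fun m n h => ?_⟩
  exact key (m.natAbs + n.natAbs) m n 0 le_rfl (by rw [zero_zsmul, add_zero, h])

end H55T3
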