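import Pool.Agent.H55.T3.Ex5
import Pool.Agent.H55.T3.Pair2
import Pool.Agent.H55.T3.Xa
import Pool.Agent.H55.T3.Xb
import Pool.Agent.H55.T3.Xc
import Pool.Agent.H55.T3.Xd
import Pool.Agent.H55.T3.Xe
import Pool.Agent.H55.T3.Xi
import Pool.Agent.H55.T3.Xj
import Pool.Agent.H55.T3.Xl
import Pool.Agent.H55.T3.Xm
import Pool.Agent.H55.T3.Xr

/-! The explicit examples (helper55). -/

set_option autoImplicit false
open scoped Classical

open WeierstrassCurve IsDedekindDomain NumberField Pool.Agent.H10 Pool.Agent.H11 H5SW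

namespace H55T3

/-- the dual of `curG` (isomorphic to `curF`) -/
def curH (k : Type) [Field k] (a b : ℤ) : WeierstrassCurve k :=
  ⟨0, 81 * (a : k) ^ 2, 0, 486 * (a : k) * (9 * b + 4 * a ^ 3 : ℤ),
    729 * ((9 * b + 4 * a ^ 3 : ℤ) : k) ^ 2⟩

section

variable (k : Type) [Field k] [CharZero k] {a b : ℤ}

lemma is3_H (hb : b ≠ 0) (hc : 9 * b + 4 * a ^ 3 ≠ 0) :
    Is3 (curH k a b) (-3 * 9) (a : k) (dl 9 (a : k) (9 * (b : k))) where
  a₁ := rfl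
  a₂ := by simp only [curH]; ring
  a₃ := rfl
  a₄ := by
    have h3 : (3 : k) ≠ 0 := three_ne_zero
    simp only [curH, dl]
    push_cast
    field_simp
    ring
  a₆ := by
    have h3 : (3 : k) ≠ 0 := three_ne_zero
    simp only [curH, dl]
    push_cast
    field_simp
    ring
  hD := by norm_num
  hb := by
    have h3 : (3 : k) ≠ 0 := three_ne_zero
    have h0 : ((9 * b + 4 * a ^ 3 : ℤ) : k) ≠ 0 := by exact_mod_cast hc
    have e : dl 9 (a : k) (9 * (b : k)) = 3 * ((9 * b + 4 * a ^ 3 : ℤ) : k) := by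
      unfold dl
      push_cast
      field_simp
      ring
    rw [e]
    exact mul_ne_zero h3 h0
  hc := by
    have h3 : (3 : k) ≠ 0 := three_ne_zero
    have h0 : (b : k) ≠ 0 := by exact_mod_cast hb
    have e : 9 * dl 9 (a : k) (9 * (b : k)) + 4 * (-3 * 9) * (a : k) ^ 3 = 243 * b := by
      unfold dl
      field_simp
      ring
    rw [e]
    exact mul_ne_zero (by norm_num) h0
  two := two_ne_zero
  three := three_ne_zero

end

/-- The group of points is divisible by three. -/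
def Div3 (K : Type) [Field K] (E : WeierstrassCurve K) : Prop :=
  ∀ P : E.toAffine.Point, ∃ Q : E.toAffine.Point, P = 3 • Q

/-- Both three-primary parts vanish if the classes come from points. -/
theorem noSha3_both {a b : ℤ} (hb : b ≠ 0) (hc : 9 * b + 4 * a ^ 3 ≠ 0)
    (hE : ∀ d : ℚ, d ≠ 0 → FinSol3 ℚ 1 (a : ℚ) ((9 * b + 4 * a ^ 3 : ℤ) : ℚ) d →
      Img (curE ℚ a b) 1 (b : ℚ) d)
    (hG : ∀ d : ℚ, d ≠ 0 → FinSol3 ℚ 1 (a : ℚ) ((9 * b + 4 * a ^ 3 : ℤ) : ℚ) d →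
      Img (curG ℚ a b) 3 (9 * (b : ℚ)) d)
    (hF : NoKr0 ℚ (curF ℚ a b)) : NoSha3 ℚ (curE ℚ a b) ∧ NoSha3 ℚ (curF ℚ a b) := by
  have e1 : (-3 * (1 : ℚ)) = -3 := by ring
  have e2 : (-3 * (-3 : ℚ)) = 9 := by ring
  have kE : NoKr ℚ (curE ℚ a b) := by
    refine noKr_of_img (is3_E ℚ hb hc) (s := 1) (by norm_num) ?_
    intro d hd H
    have e : 9 * (b : ℚ) + 4 * 1 * (a : ℚ) ^ 3 = ((9 * b + 4 * a ^ 3 : ℤ) : ℚ) := by
      push_cast
      ring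
    rw [e] at H
    exact hE d hd H
  have kG : NoKr ℚ (curG ℚ a b) := by
    refine noKr_of_img (is3_G ℚ hb hc) (s := 3) (by norm_num) ?_
    intro d hd H
    have e : 9 * (9 * (b : ℚ)) + 4 * 9 * (a : ℚ) ^ 3 = 9 * ((9 * b + 4 * a ^ 3 : ℤ) : ℚ) := by
      push_cast
      ring
    rw [e] at H
    refine hG d hd ?_
    intro v
    have hv := H v
    rw [map_mul, map_ofNat, map_ofNat] at hv
    rw [map_one]
    have h3 : (3 : v.adicCompletion ℚ) ≠ 0 := by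
      have : algebraMap ℚ (v.adicCompletion ℚ) 3 ≠ 0 := by
        rw [Ne, map_eq_zero]
        exact three_ne_zero
      rwa [map_ofNat] at this
    exact locSol_scale h3 hv
  have kF := noKr_of_noKr0 hF
  refine ⟨noSha3_of (W := curF ℚ a b) (is3_E ℚ hb hc) ?_ kE kF,
    noSha3_of (W := curG ℚ a b) (is3_F ℚ hb hc) ?_ kF kG⟩
  · rw [e1, dl_E]
    exact is3_F ℚ hb hc
  · rw [e2, dl_F]
    exact is3_G ℚ hb hc

/-- Going up the tower over the rational field. -/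
theorem up5 {a b : ℤ} (hb : b ≠ 0) (hc : 9 * b + 4 * a ^ 3 ≠ 0)
    (hred : ¬ ((3 : ℤ) ∣ a ∧ (3 : ℤ) ∣ b))
    (hq : ∀ q : ℕ, q.Prime → (q : ℤ) ∣ 6 * b * (9 * b + 4 * a ^ 3) → ¬ 25 ∣ q ^ 4 - 1)
    (h0 : NoSha3 ℚ (curE ℚ a b) ∧ NoSha3 ℚ (curF ℚ a b)) {L : Type} [Field L] [NumberField L]
    (hL : IsR 5 L) {i : ℕ} (hi : Module.finrank ℚ L = 5 ^ i) :
    NoSha3 L ((curE ℚ a b).baseChange L) ∧ NoSha3 L ((curF ℚ a b).baseChange L) := by
  obtain ⟨h3n, _, h⟩ := explicit5 a b hb hc hred hq ℚ L hL hi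
  exact ⟨noSha3_up h3n (h _ (Or.inl rfl)).1 (h _ (Or.inl rfl)).2 h0.1,
    noSha3_up h3n (h _ (Or.inr rfl)).1 (h _ (Or.inr rfl)).2 h0.2⟩

section points

variable {a b : ℤ}

lemma ns_F (hb : b ≠ 0) (hc : 9 * b + 4 * a ^ 3 ≠ 0) {x y : ℚ}
    (h : y ^ 2 = x ^ 3 + (3 * a * x + ((9 * b + 4 * a ^ 3 : ℤ) : ℚ)) ^ 2) :
    (curF ℚ a b).toAffine.Nonsingular x y := by
  have : (curF ℚ a b).IsElliptic := (is3_F ℚ hb hc).isElliptic
  rw [← WeierstrassCurve.Affine.equation_iff_nonsingular, WeierstrassCurve.Affine.equation_iff]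
  simp only [curF]
  linear_combination h

lemma ns_H (hb : b ≠ 0) (hc : 9 * b + 4 * a ^ 3 ≠ 0) {x y : ℚ}
    (h : y ^ 2 = x ^ 3 + (3 * a * x + ((9 * b + 4 * a ^ 3 : ℤ) : ℚ)) ^ 2) :
    (curH ℚ a b).toAffine.Nonsingular (9 * x) (27 * y) := by
  have : (curH ℚ a b).IsElliptic := (is3_H ℚ hb hc).isElliptic
  rw [← WeierstrassCurve.Affine.equation_iff_nonsingular, WeierstrassCurve.Affine.equation_iff]
  simp only [curH]
  linear_combination 729 * h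

lemma img_E (hb : b ≠ 0) (hc : 9 * b + 4 * a ^ 3 ≠ 0) {x y : ℚ}
    (h : y ^ 2 = x ^ 3 + (3 * a * x + ((9 * b + 4 * a ^ 3 : ℤ) : ℚ)) ^ 2)
    (h0 : y + (3 * a * x + ((9 * b + 4 * a ^ 3 : ℤ) : ℚ)) ≠ 0) :
    Img (curE ℚ a b) 1 (b : ℚ) (y + (3 * a * x + ((9 * b + 4 * a ^ 3 : ℤ) : ℚ))) := by
  have e1 : (-3 * (1 : ℚ)) = -3 := by ring
  have hW : Is3 (curF ℚ a b) (-3 * 1) (a : ℚ) (dl 1 (a : ℚ) (b : ℚ)) := by
    rw [e1, dl_E]
    exact is3_F ℚ hb hc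
  have e : y + 1 * (3 * (a : ℚ) * x + (9 * (b : ℚ) + 4 * 1 * (a : ℚ) ^ 3)) =
      y + (3 * a * x + ((9 * b + 4 * a ^ 3 : ℤ) : ℚ)) := by
    push_cast
    ring
  have k := img_point (is3_E ℚ hb hc) hW (s := 1) (by norm_num) (ns_F hb hc h) (by rwa [e])
  rwa [e] at k

lemma img_G (hb : b ≠ 0) (hc : 9 * b + 4 * a ^ 3 ≠ 0) {x y : ℚ}
    (h : y ^ 2 = x ^ 3 + (3 * a * x + ((9 * b + 4 * a ^ 3 : ℤ) : ℚ)) ^ 2)
    (h0 : y + (3 * a * x + ((9 * b + 4 * a ^ 3 : ℤ) : ℚ)) ≠ 0) :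
    Img (curG ℚ a b) 3 (9 * (b : ℚ)) (y + (3 * a * x + ((9 * b + 4 * a ^ 3 : ℤ) : ℚ))) := by
  have e : 27 * y + 3 * (3 * (a : ℚ) * (9 * x) + (9 * (9 * (b : ℚ)) + 4 * 9 * (a : ℚ) ^ 3)) =
      27 * (y + (3 * a * x + ((9 * b + 4 * a ^ 3 : ℤ) : ℚ))) := by
    push_cast
    ring
  have k := img_point (is3_G ℚ hb hc) (is3_H ℚ hb hc) (s := 3) (by norm_num) (ns_H hb hc h)
    (by rw [e]; exact mul_ne_zero (by norm_num) h0)
  rw [e] at k
  have k2 := img_mul (is3_G ℚ hb hc) (s := 3) (by norm_num) k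
    (img_cube (s := 3) (is3_G ℚ hb hc) (t := (1 / 3 : ℚ)) (by norm_num))
  have e3 : 27 * (y + (3 * a * x + ((9 * b + 4 * a ^ 3 : ℤ) : ℚ))) * (1 / 3 : ℚ) ^ 3 =
      y + (3 * a * x + ((9 * b + 4 * a ^ 3 : ℤ) : ℚ)) := by
    ring
  rwa [e3] at k2

end points

section c1

variable {q : ℕ}

lemma c1_hb (hq : q.Prime) : (4 * q : ℤ) ≠ 0 := by
  have := hq.pos
  omega

lemma c1_hc (hq : q.Prime) : 9 * (4 * q : ℤ) + 4 * (0 : ℤ) ^ 3 ≠ 0 := by
  have := hq.pos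
  omega

lemma c1_class (hq : q.Prime) (hq2 : q ≠ 2) (h9 : q % 9 = 2 ∨ q % 9 = 5) {d : ℚ} (hd : d ≠ 0)
    (H : FinSol3 ℚ 1 ((0 : ℤ) : ℚ) ((9 * (4 * q : ℤ) + 4 * (0 : ℤ) ^ 3 : ℤ) : ℚ) d) :
    ∃ (j : ℕ) (t : ℚ), t ≠ 0 ∧ d = (72 * q) ^ j * t ^ 3 := by
  have e : ((9 * (4 * q : ℤ) + 4 * (0 : ℤ) ^ 3 : ℤ) : ℚ) = 36 * q := by
    push_cast
    ring
  rw [e, Int.cast_zero] at H
  obtain ⟨j, t, h⟩ := c1_real hq hq2 h9 hd H
  refine ⟨j, t, ?_, ?_⟩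
  · rintro rfl
    apply hd
    rw [h]
    ring
  · rw [h]
    ring

theorem c1_noSha (hq : q.Prime) (hq2 : q ≠ 2) (h9 : q % 9 = 2 ∨ q % 9 = 5) :
    NoSha3 ℚ (curE ℚ 0 (4 * q)) ∧ NoSha3 ℚ (curF ℚ 0 (4 * q)) ∧ Div3 ℚ (curE ℚ 0 (4 * q)) := by
  have hb := c1_hb hq
  have hc := c1_hc hq
  have hq0 : (q : ℚ) ≠ 0 := by exact_mod_cast hq.ne_zero
  have eq1 : (36 * (q : ℚ)) ^ 2 = 0 ^ 3 + (3 * ((0 : ℤ) : ℚ) * 0 +
      ((9 * (4 * q : ℤ) + 4 * (0 : ℤ) ^ 3 : ℤ) : ℚ)) ^ 2 := by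
    push_cast
    ring
  have e2 : (36 * (q : ℚ)) + (3 * ((0 : ℤ) : ℚ) * 0 +
      ((9 * (4 * q : ℤ) + 4 * (0 : ℤ) ^ 3 : ℤ) : ℚ)) = 72 * q := by
    push_cast
    ring
  have h72 : (72 * (q : ℚ)) ≠ 0 := mul_ne_zero (by norm_num) hq0
  have iE := img_E hb hc eq1 (by rw [e2]; exact h72)
  have iG := img_G hb hc eq1 (by rw [e2]; exact h72)
  rw [e2] at iE iG
  have h0 : NoKr0 ℚ (curF ℚ 0 (4 * q)) := by
    obtain ⟨C, _, _, _⟩ : ∃ (C : Type) (_ : Field C) (_ : NumberField C),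
        IsCyclotomicExtension {3} ℚ C :=
      ⟨CyclotomicField 3 ℚ, inferInstance, inferInstance,
        CyclotomicField.isCyclotomicExtension 3 ℚ⟩
    have hz := IsCyclotomicExtension.zeta_spec 3 ℚ C
    have hz1 : IsCyclotomicExtension.zeta 3 ℚ C ^ 2 + IsCyclotomicExtension.zeta 3 ℚ C + 1 = 0 := by
      have := hz.geom_sum_eq_zero (by norm_num)
      simp only [Finset.sum_range_succ, Finset.sum_range_zero, pow_zero, pow_one, zero_add] at this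
      linear_combination this
    have hs : (2 * IsCyclotomicExtension.zeta 3 ℚ C + 1) ^ 2 = -3 := by
      linear_combination 4 * hz1
    have hg : IsGalois ℚ C := IsCyclotomicExtension.isGalois {3} ℚ C
    refine noKr0_of (C := C) (is3_F ℚ hb hc) hs ?_ ?_
    · rw [IsCyclotomicExtension.finrank (n := 3) C
        (Polynomial.cyclotomic.irreducible_rat (by norm_num))]
      decide
    · intro d hd H hJ
      have e : 9 * (((9 * (4 * q : ℤ) + 4 * (0 : ℤ) ^ 3 : ℤ) : ℚ) / 3) +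
          4 * (-3) * ((0 : ℤ) : ℚ) ^ 3 = 27 * (4 * q) := by
        push_cast
        ring
      rw [e] at H
      refine c1_minus hq hq2 h9 hs hd ?_ hJ
      have e3 : algebraMap ℚ C (27 * (4 * (q : ℚ))) = 27 * (4 * q) := by
        rw [map_mul, map_mul, map_ofNat, map_ofNat, map_natCast]
      have e4 : algebraMap ℚ C ((0 : ℤ) : ℚ) = 0 := by
        rw [Int.cast_zero, map_zero]
      rw [e3, e4] at H
      exact H
  have e3 : (-3 * (1 : ℚ)) = -3 := by ring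
  obtain ⟨h1, h2⟩ := noSha3_both hb hc (fun d hd H => by
      obtain ⟨j, t, ht, rfl⟩ := c1_class hq hq2 h9 hd H
      exact img_mul (is3_E ℚ hb hc) (by norm_num) (img_pow (is3_E ℚ hb hc) (by norm_num) iE j)
        (img_cube (is3_E ℚ hb hc) ht))
    (fun d hd H => by
      obtain ⟨j, t, ht, rfl⟩ := c1_class hq hq2 h9 hd H
      exact img_mul (is3_G ℚ hb hc) (by norm_num) (img_pow (is3_G ℚ hb hc) (by norm_num) iG j)
        (img_cube (is3_G ℚ hb hc) ht)) h0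
  refine ⟨h1, h2, fun P => ?_⟩
  refine three_divisible (W := curF ℚ 0 (4 * q)) (s := 1) (is3_E ℚ hb hc) ?_ (by norm_num) ?_ h0 P
  · rw [e3, dl_E]
    exact is3_F ℚ hb hc
  · intro d hd H
    have e : 9 * ((4 * q : ℤ) : ℚ) + 4 * 1 * ((0 : ℤ) : ℚ) ^ 3 =
        ((9 * (4 * q : ℤ) + 4 * (0 : ℤ) ^ 3 : ℤ) : ℚ) := by
      push_cast
      ring
    rw [e] at H ⊢
    obtain ⟨j, t, ht, h⟩ := c1_class hq hq2 h9 hd H
    refine ⟨j, t, ?_⟩
    rw [h]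
    push_cast
    ring

end c1

section c2

lemma c2_imgs {V : WeierstrassCurve ℚ} {D a b s : ℚ} (h : Is3 V D a b) (hs : s ^ 2 = D)
    (h1 : Img V s b 3430) (h2 : Img V s b 676) (h3 : Img V s b 3025) (e1 e2 e3 : ℕ) {t : ℚ}
    (ht : t ≠ 0) : Img V s b (10 ^ e1 * 26 ^ e2 * 55 ^ e3 * t ^ 3) := by
  have k1 : Img V s b 10 := by
    have := img_mul h hs h1 (img_cube h (t := (1 / 7 : ℚ)) (by norm_num))
    have e : (3430 : ℚ) * (1 / 7) ^ 3 = 10 := by norm_num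
    rwa [e] at this
  have k2 : Img V s b 26 := by
    have := img_mul h hs (img_pow h hs h2 2) (img_cube h (t := (1 / 26 : ℚ)) (by norm_num))
    have e : (676 : ℚ) ^ 2 * (1 / 26) ^ 3 = 26 := by norm_num
    rwa [e] at this
  have k3 : Img V s b 55 := by
    have := img_mul h hs (img_pow h hs h3 2) (img_cube h (t := (1 / 55 : ℚ)) (by norm_num))
    have e : (3025 : ℚ) ^ 2 * (1 / 55) ^ 3 = 55 := by norm_num
    rwa [e] at this
  exact img_mul h hs (img_mul h hs (img_mul h hs (img_pow h hs k1 e1) (img_pow h hs k2 e2))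
    (img_pow h hs k3 e3)) (img_cube h ht)

theorem c2_noSha : NoSha3 ℚ (curE ℚ (-5) 135) ∧ NoSha3 ℚ (curF ℚ (-5) 135) := by
  have hb : (135 : ℤ) ≠ 0 := by norm_num
  have hc : 9 * (135 : ℤ) + 4 * (-5) ^ 3 ≠ 0 := by norm_num
  have ec : ((9 * (135 : ℤ) + 4 * (-5) ^ 3 : ℤ) : ℚ) = 715 := by norm_num
  have hreal : ∀ d : ℚ, d ≠ 0 →
      FinSol3 ℚ 1 ((-5 : ℤ) : ℚ) ((9 * (135 : ℤ) + 4 * (-5) ^ 3 : ℤ) : ℚ) d →
      ∃ (e1 e2 e3 : ℕ) (t : ℚ), t ≠ 0 ∧ d = 10 ^ e1 * 26 ^ e2 * 55 ^ e3 * t ^ 3 := by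
    intro d hd H
    refine c2_real hd ?_
    rw [ec] at H
    have e5 : ((-5 : ℤ) : ℚ) = -5 := by norm_num
    rw [e5] at H
    exact H
  have h0 : NoKr0 ℚ (curF ℚ (-5) 135) := by
    obtain ⟨C, _, _, _⟩ : ∃ (C : Type) (_ : Field C) (_ : NumberField C),
        IsCyclotomicExtension {3} ℚ C :=
      ⟨CyclotomicField 3 ℚ, inferInstance, inferInstance,
        CyclotomicField.isCyclotomicExtension 3 ℚ⟩
    have hz := IsCyclotomicExtension.zeta_spec 3 ℚ C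
    have hz1 : IsCyclotomicExtension.zeta 3 ℚ C ^ 2 + IsCyclotomicExtension.zeta 3 ℚ C + 1 = 0 := by
      have := hz.geom_sum_eq_zero (by norm_num)
      simp only [Finset.sum_range_succ, Finset.sum_range_zero, pow_zero, pow_one, zero_add] at this
      linear_combination this
    have hs : (2 * IsCyclotomicExtension.zeta 3 ℚ C + 1) ^ 2 = -3 := by
      linear_combination 4 * hz1
    have hg : IsGalois ℚ C := IsCyclotomicExtension.isGalois {3} ℚ C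
    refine noKr0_of (C := C) (is3_F ℚ hb hc) hs ?_ ?_
    · rw [IsCyclotomicExtension.finrank (n := 3) C
        (Polynomial.cyclotomic.irreducible_rat (by norm_num))]
      decide
    · intro d hd H hJ
      have e : 9 * (((9 * (135 : ℤ) + 4 * (-5) ^ 3 : ℤ) : ℚ) / 3) +
          4 * (-3) * ((-5 : ℤ) : ℚ) ^ 3 = 27 * 135 := by
        norm_num
      rw [e] at H
      refine c2_minus hs hd ?_ hJ
      have e3 : algebraMap ℚ C (27 * 135) = 27 * 135 := by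
        rw [map_mul, map_ofNat, map_ofNat]
      have e4 : algebraMap ℚ C ((-5 : ℤ) : ℚ) = -5 := by
        rw [map_intCast]
        norm_num
      rw [e3, e4] at H
      exact H
  have p1 := (by norm_num : (1665 : ℚ) ^ 2 = (-70) ^ 3 + (3 * ((-5 : ℤ) : ℚ) * (-70) +
      ((9 * (135 : ℤ) + 4 * (-5) ^ 3 : ℤ) : ℚ)) ^ 2)
  have p2 := (by norm_num : (351 : ℚ) ^ 2 = 26 ^ 3 + (3 * ((-5 : ℤ) : ℚ) * 26 +
      ((9 * (135 : ℤ) + 4 * (-5) ^ 3 : ℤ) : ℚ)) ^ 2)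
  have p3 := (by norm_num : (1485 : ℚ) ^ 2 = (-55) ^ 3 + (3 * ((-5 : ℤ) : ℚ) * (-55) +
      ((9 * (135 : ℤ) + 4 * (-5) ^ 3 : ℤ) : ℚ)) ^ 2)
  have q1 : (1665 : ℚ) + (3 * ((-5 : ℤ) : ℚ) * (-70) +
      ((9 * (135 : ℤ) + 4 * (-5) ^ 3 : ℤ) : ℚ)) = 3430 := by norm_num
  have q2 : (351 : ℚ) + (3 * ((-5 : ℤ) : ℚ) * 26 +
      ((9 * (135 : ℤ) + 4 * (-5) ^ 3 : ℤ) : ℚ)) = 676 := by norm_num
  have q3 : (1485 : ℚ) + (3 * ((-5 : ℤ) : ℚ) * (-55) +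
      ((9 * (135 : ℤ) + 4 * (-5) ^ 3 : ℤ) : ℚ)) = 3025 := by norm_num
  refine noSha3_both hb hc ?_ ?_ h0
  · intro d hd H
    obtain ⟨e1, e2, e3, t, ht, rfl⟩ := hreal d hd H
    have k1 := img_E hb hc p1 (by rw [q1]; norm_num)
    have k2 := img_E hb hc p2 (by rw [q2]; norm_num)
    have k3 := img_E hb hc p3 (by rw [q3]; norm_num)
    rw [q1] at k1
    rw [q2] at k2
    rw [q3] at k3
    exact c2_imgs (is3_E ℚ hb hc) (by norm_num) k1 k2 k3 e1 e2 e3 ht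
  · intro d hd H
    obtain ⟨e1, e2, e3, t, ht, rfl⟩ := hreal d hd H
    have k1 := img_G hb hc p1 (by rw [q1]; norm_num)
    have k2 := img_G hb hc p2 (by rw [q2]; norm_num)
    have k3 := img_G hb hc p3 (by rw [q3]; norm_num)
    rw [q1] at k1
    rw [q2] at k2
    rw [q3] at k3
    exact c2_imgs (is3_G ℚ hb hc) (by norm_num) k1 k2 k3 e1 e2 e3 ht

end c2

end H55T3
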