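import Pool.Agent.H55.T3.BadD
import Pool.Agent.H55.T3.KD
import Pool.Agent.H55.T3.Y4

/-! Bad places and growth for the curves with a rational subgroup of order three (helper55, on top of helper86's theorem). -/

set_option autoImplicit false
open scoped Classical

open WeierstrassCurve IsDedekindDomain NumberField WithZero Pool.Agent.H10 Pool.Agent.H11 H5SW H86D H86T3

namespace H55T3

/-- The good places above three (for `v` unramified over three and `v(D) ≤ 1`). -/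
def GoodD {k : Type} [Field k] [NumberField k] (v : HeightOneSpectrum (𝓞 k)) (D α β : 𝓞 k) : Prop :=
  (D ∉ v.asIdeal ∧ ∃ i : ℕ, α ∈ v.asIdeal ^ (i + 1) ∧
    27 * β - 4 * D * α ^ 3 ∈ v.asIdeal ^ (3 * i + 5) ∧ β ∉ v.asIdeal ^ (3 * i + 3)) ∨
  (D ∈ v.asIdeal ∧ ∃ i : ℕ, α ∈ v.asIdeal ^ (i + 1) ∧
    β ∈ v.asIdeal ^ (3 * i + 1) ∧ β ∉ v.asIdeal ^ (3 * i + 3))

theorem badD_ram {k : Type} [Field k] [NumberField k] {v : HeightOneSpectrum (𝓞 k)}
    (hv : (3 : 𝓞 k) ∈ v.asIdeal) (hv2 : (3 : 𝓞 k) ∉ v.asIdeal ^ 2) {α β : 𝓞 k} (hβ : β ≠ 0)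
    (h : ¬ ∃ i : ℕ, α ∈ v.asIdeal ^ (i + 1) ∧ β ∈ v.asIdeal ^ (3 * i + 1) ∧
      β ∉ v.asIdeal ^ (3 * i + 3)) :
    BadR (v.valuation k) (9 * (α : k)) (729 * (β : k)) := by
  have h3 := H68TK.val_three_of_unram hv hv2
  have hint : ∀ x : 𝓞 k, v.valuation k (x : k) = v.intValuation x := fun x =>
    v.valuation_of_algebraMap x
  have hpow : ∀ (x : 𝓞 k) (n : ℕ), x ∈ v.asIdeal ^ n ↔ v.intValuation x ≤ exp (-(n : ℤ)) :=
    fun x n => (v.intValuation_le_pow_iff_mem x n).symm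
  have e9 : v.valuation k (9 : k) = exp (-2 : ℤ) := by
    have : (9 : k) = 3 ^ 2 := by norm_num
    rw [this, map_pow, h3, ← exp_nsmul]
    rfl
  have e729 : v.valuation k (729 : k) = exp (-6 : ℤ) := by
    have : (729 : k) = 3 ^ 6 := by norm_num
    rw [this, map_pow, h3, ← exp_nsmul]
    rfl
  obtain ⟨g, hg⟩ : ∃ g : ℕ, v.intValuation β = exp (-(g : ℤ)) :=
    ⟨_, v.intValuation_eq_exp_neg_multiplicity hβ⟩
  obtain ⟨a, ha1, ha2⟩ : ∃ a : ℕ, v.intValuation α ≤ exp (-(a : ℤ)) ∧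
      (v.intValuation α = exp (-(a : ℤ)) ∨ g + 5 ≤ a) := by
    by_cases hα : α = 0
    · refine ⟨g + 5, ?_, Or.inr le_rfl⟩
      rw [hα, map_zero]
      exact zero_le
    · have := v.intValuation_eq_exp_neg_multiplicity hα
      exact ⟨_, this.le, Or.inl this⟩
  have hα9 : ∀ n : ℕ, n ≤ a → v.valuation k (9 * (α : k)) ≤ exp (-((n + 2 : ℕ) : ℤ)) := by
    intro n hn
    rw [map_mul, hint, e9]
    calc exp (-2 : ℤ) * v.intValuation α ≤ exp (-2 : ℤ) * exp (-(a : ℤ)) := mul_le_mul_right ha1 _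
      _ ≤ _ := by
        rw [← exp_add, exp_le_exp]
        push_cast
        omega
  have hβ9 : v.valuation k (729 * (β : k)) = exp (-(g + 6 : ℤ)) := by
    rw [map_mul, hint, hg, e729, ← exp_add]
    congr 1
    omega
  by_cases h1 : 3 * a ≤ g
  · -- `v(β) ≥ 3 v(α)`
    have ha3 : v.intValuation α = exp (-(a : ℤ)) := by
      rcases ha2 with ha2 | ha2
      · exact ha2
      · omega
    refine ⟨a + 2, Or.inr ⟨?_, ?_⟩⟩
    · rw [map_mul, hint, e9, ha3, ← exp_add]
      congr 1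
      push_cast
      omega
    · rw [hβ9, exp_le_exp]
      push_cast
      omega
  · by_cases h2 : 3 ∣ g
    · obtain ⟨j, hj⟩ := h2
      refine ⟨j + 2, Or.inl ⟨hα9 j (by omega), ?_⟩⟩
      rw [hβ9]
      congr 1
      push_cast
      omega
    · exfalso
      apply h
      refine ⟨g / 3, ?_, ?_, ?_⟩
      · rw [hpow]
        refine ha1.trans ?_
        rw [exp_le_exp]
        push_cast
        omega
      · rw [hpow, hg, exp_le_exp]
        push_cast
        omega
      · rw [hpow, hg, exp_le_exp]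
        push_cast
        omega

theorem badW_of_not {k : Type} [Field k] [NumberField k] {v : HeightOneSpectrum (𝓞 k)}
    (hv : (3 : 𝓞 k) ∈ v.asIdeal) (hv2 : (3 : 𝓞 k) ∉ v.asIdeal ^ 2) {D α β : 𝓞 k}
    (hD2 : D ∉ v.asIdeal ^ 2) (hβ : β ≠ 0)
    (hγ : 27 * β - 4 * D * α ^ 3 ≠ 0) (h : ¬ GoodD v D α β) :
    BadW v (D : k) ((3 * α : 𝓞 k) : k) ((3 * (27 * β - 4 * D * α ^ 3) : 𝓞 k) : k) := by
  have hint : ∀ x : 𝓞 k, v.valuation k (x : k) = v.intValuation x := fun x =>
    v.valuation_of_algebraMap x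
  by_cases hD : D ∈ v.asIdeal
  · right
    refine ⟨?_, ?_⟩
    · rw [hint]
      have h1 : v.intValuation D ≤ exp (-((1 : ℕ) : ℤ)) := by
        rw [v.intValuation_le_pow_iff_mem, pow_one]
        exact hD
      have h2 : ¬ v.intValuation D ≤ exp (-((2 : ℕ) : ℤ)) := by
        rw [v.intValuation_le_pow_iff_mem]
        exact hD2
      have hD0 : D ≠ 0 := by
        rintro rfl
        exact hD2 (Ideal.zero_mem _)
      have h3 := v.intValuation_eq_exp_neg_multiplicity hD0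
      rw [h3, exp_le_exp] at h1 h2
      rw [h3]
      congr 1
      push_cast at h1 h2
      omega
    · have e1 : (3 : k) * ((3 * α : 𝓞 k) : k) = 9 * (α : k) := by
        have : ((3 * α : 𝓞 k) : k) = 3 * (α : k) := by
          have h := map_mul (algebraMap (𝓞 k) k) 3 α
          rw [map_ofNat] at h
          exact h
        rw [this]
        ring
      have e2 : 9 * ((3 * (27 * β - 4 * D * α ^ 3) : 𝓞 k) : k) +
          4 * (D : k) * ((3 * α : 𝓞 k) : k) ^ 3 = 729 * (β : k) := by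
        have h1 : algebraMap (𝓞 k) k (9 * (3 * (27 * β - 4 * D * α ^ 3)) + 4 * D * (3 * α) ^ 3) =
            algebraMap (𝓞 k) k (729 * β) := by
          congr 1
          ring
        rw [map_mul _ 729 β, map_ofNat, map_add, map_mul, map_mul _ (4 * D), map_mul _ 4 D,
          map_ofNat, map_ofNat, map_pow] at h1
        exact h1
      rw [e1, e2]
      exact badD_ram hv hv2 hβ (fun h' => h (Or.inr ⟨hD, h'⟩))
  · left
    refine ⟨?_, ?_⟩
    · rw [hint]
      refine le_antisymm (v.intValuation_le_one D) (not_lt.1 ?_)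
      rw [v.intValuation_lt_one_iff_mem]
      exact hD
    · exact badD_unr hv hv2 hD hγ (fun h' => h (Or.inl ⟨hD, h'⟩))

/-- Growth in the layers, for all curves with a rational subgroup of order three. -/
theorem growth_layD (p : ℕ) [Fact p.Prime] (hp : 5 ≤ p) {k : Type} [Field k] [NumberField k]
    (hreal : IsTotallyReal k) (hk : H68TK.Unr3 k) {D α β : 𝓞 k}
    (hD : ∀ φ : k →+* ℝ, 0 < φ (D : k))
    (hD3 : ∀ v : HeightOneSpectrum (𝓞 k), (3 : 𝓞 k) ∈ v.asIdeal → D ∉ v.asIdeal ^ 2)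
    (hβ : β ≠ 0)
    (hγ : 27 * β - 4 * D * α ^ 3 ≠ 0) (S : Finset (HeightOneSpectrum (𝓞 k)))
    (hS3 : ∀ v ∈ S, (3 : 𝓞 k) ∈ v.asIdeal) (hS : ∀ v ∈ S, ¬ GoodD v D α β) :
    ∃ C : ℕ, ∀ (L : Type) [Field L] [NumberField L] [Algebra k L], Lay p k L →
      ∀ (E : WeierstrassCurve L), E = curVD (algebraMap k L D) (algebraMap k L α)
        (27 * algebraMap k L β - 4 * algebraMap k L D * algebraMap k L α ^ 3) →
      ∀ (P : Finset E.toAffine.Point) (T : Finset (Coch L E)),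
      (∀ X : E.toAffine.Point, ∃ p ∈ P, ∃ S, X = p + 3 • S) →
      (∀ f, IsCocycle L E f → IsLocTriv L E f → IsCobound L E (fun σ => 3 • f σ) →
        ∃ t ∈ T, IsCobound L E (fun σ => f σ - t σ)) →
      (∏ v ∈ S, Ideal.absNorm v.asIdeal) ^ Module.finrank k L ≤ C * (P.card * T.card) := by
  have hD0 : D ≠ 0 := by
    rintro rfl
    obtain ⟨w⟩ := (inferInstance : Nonempty (InfinitePlace k))
    have hw := hreal.isReal w
    have := hD (InfinitePlace.embedding_of_isReal hw)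
    simp at this
  have hb0 : 3 * (27 * β - 4 * D * α ^ 3) ≠ 0 := mul_ne_zero (by norm_num) hγ
  have hc0 : 9 * (3 * (27 * β - 4 * D * α ^ 3)) + 4 * D * (3 * α) ^ 3 ≠ 0 := by
    have e : 9 * (3 * (27 * β - 4 * D * α ^ 3)) + 4 * D * (3 * α) ^ 3 = 729 * β := by ring
    rw [e]
    exact mul_ne_zero (by norm_num) hβ
  have hDv : ∀ v : HeightOneSpectrum (𝓞 k), (3 : 𝓞 k) ∈ v.asIdeal →
      v.valuation k (D : k) = 1 ∨ v.valuation k (D : k) = exp (-1 : ℤ) := by
    intro v hv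
    have hint : v.valuation k (D : k) = v.intValuation D := v.valuation_of_algebraMap D
    rw [hint]
    have h2 : ¬ v.intValuation D ≤ exp (-((2 : ℕ) : ℤ)) := by
      rw [v.intValuation_le_pow_iff_mem]
      exact hD3 v hv
    have h3 := v.intValuation_eq_exp_neg_multiplicity hD0
    rw [h3, exp_le_exp] at h2
    rw [h3, ← exp_zero, exp_inj, exp_inj]
    push_cast at h2
    omega
  obtain ⟨C, hC⟩ := H86D.growth_genD p (by omega) (by omega) k hk (D := D) (a := 3 * α)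
    (b := 3 * (27 * β - 4 * D * α ^ 3)) hD0 hb0 hc0 hDv S hS3
    (fun v hv => badW_of_not (hS3 v hv) (hk v (hS3 v hv)) (hD3 v (hS3 v hv)) hβ hγ (hS v hv))
  refine ⟨C, ?_⟩
  rintro L _ _ _ hL E rfl P T hP hT
  obtain ⟨L', _, _, h, hR, hgen⟩ := lay_gen hL
  have hinj : Function.Injective (algebraMap k L) := (algebraMap k L).injective
  have hD' : algebraMap k L (D : k) ≠ 0 := by
    rw [Ne, map_eq_zero_iff _ hinj]
    exact coe_ne hD0
  have hβ' : algebraMap k L (β : k) ≠ 0 := by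
    rw [Ne, map_eq_zero_iff _ hinj]
    exact coe_ne hβ
  have eγ : 27 * algebraMap k L (β : k) - 4 * algebraMap k L (D : k) * algebraMap k L (α : k) ^ 3 =
        algebraMap k L ((27 * β - 4 * D * α ^ 3 : 𝓞 k) : k) := by
    have h1 : ((27 * β - 4 * D * α ^ 3 : 𝓞 k) : k) = 27 * (β : k) - 4 * (D : k) * (α : k) ^ 3 := by
      have h := map_sub (algebraMap (𝓞 k) k) (27 * β) (4 * D * α ^ 3)
      rw [map_mul, map_mul, map_mul, map_pow, map_ofNat, map_ofNat] at h
      exact h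
    rw [h1, map_sub, map_mul, map_mul, map_mul, map_pow, map_ofNat, map_ofNat]
  have hγ' : 27 * algebraMap k L (β : k) -
      4 * algebraMap k L (D : k) * algebraMap k L (α : k) ^ 3 ≠ 0 := by
    rw [eγ, Ne, map_eq_zero_iff _ hinj]
    exact coe_ne hγ
  have h1 := is3_VD hD' hβ' hγ'
  have ea : algebraMap k L ((3 * α : 𝓞 k) : k) = 3 * algebraMap k L (α : k) := by
    have : ((3 * α : 𝓞 k) : k) = 3 * (α : k) := by
      have h := map_mul (algebraMap (𝓞 k) k) 3 α
      rw [map_ofNat] at h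
      exact h
    rw [this, map_mul, map_ofNat]
  have eb : algebraMap k L ((3 * (27 * β - 4 * D * α ^ 3) : 𝓞 k) : k) =
      3 * (27 * algebraMap k L (β : k) - 4 * algebraMap k L (D : k) * algebraMap k L (α : k) ^ 3) := by
    have : ((3 * (27 * β - 4 * D * α ^ 3) : 𝓞 k) : k) =
        3 * ((27 * β - 4 * D * α ^ 3 : 𝓞 k) : k) := by
      have h := map_mul (algebraMap (𝓞 k) k) 3 (27 * β - 4 * D * α ^ 3)
      rw [map_ofNat] at h
      exact h
    rw [this, eγ, map_mul, map_ofNat]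
  rw [← ea, ← eb] at h1
  have h2 := hC L' L h hR hgen _ h1 P T hP hT
  have hcard : Nat.card {φ : k →+* ℝ // ¬ 0 < φ (D : k)} = 0 := by
    rw [Nat.card_eq_zero]
    left
    exact ⟨fun φ => φ.2 (hD φ.1)⟩
  rw [nrComplexPlaces_eq_zero_iff.2 hreal, hcard, add_zero, pow_zero, one_pow, one_mul] at h2
  exact h2

end H55T3
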