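import Pool.Agent.H55.T3.Df5
import Mathlib.AlgebraicGeometry.EllipticCurve.DivisionPolynomial.Basic

/-! Normal forms of the elliptic curves over the rationals with a rational subgroup of order three (helper55). -/

set_option autoImplicit false
open scoped Classical

open WeierstrassCurve Polynomial

namespace H55T3

/-- A root of the three-division polynomial is moved to zero. -/
theorem nf_one (E : WeierstrassCurve ℚ) (hE : E.IsElliptic) {x₀ : ℚ} (hx : E.Ψ₃.eval x₀ = 0) :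
    ∃ (C : VariableChange ℚ) (a b c : ℚ), C • E = ⟨0, a, 0, b, c⟩ ∧ b ^ 2 = 4 * a * c ∧ c ≠ 0 := by
  let C : VariableChange ℚ := ⟨1, x₀, -E.a₁ / 2, -(E.a₃ + x₀ * E.a₁) / 2⟩
  have hr : C.r = x₀ := rfl
  have h1 : (C • E).a₁ = 0 := by
    rw [variableChange_a₁]
    change ((1 : ℚˣ)⁻¹ : ℚˣ) * (E.a₁ + 2 * (-E.a₁ / 2)) = (0 : ℚ)
    ring
  have h3 : (C • E).a₃ = 0 := by
    rw [variableChange_a₃]
    change (((1 : ℚˣ)⁻¹ : ℚˣ) : ℚ) ^ 3 * (E.a₃ + x₀ * E.a₁ + 2 * (-(E.a₃ + x₀ * E.a₁) / 2)) = (0 : ℚ)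
    ring
  have h8 : (C • E).b₈ = 0 := by
    rw [variableChange_b₈]
    have e : E.Ψ₃.eval x₀ = E.b₈ + 3 * x₀ * E.b₆ + 3 * x₀ ^ 2 * E.b₄ + x₀ ^ 3 * E.b₂ + 3 * x₀ ^ 4 := by
      rw [Ψ₃]
      simp only [eval_add, eval_mul, eval_pow, eval_X, eval_C, eval_ofNat]
      ring
    rw [hr, ← e, hx, mul_zero]
  have hΔ : (C • E).Δ ≠ 0 := by
    have := (C • E).isUnit_Δ
    exact this.ne_zero
  have hb8 : (C • E).b₈ = 4 * (C • E).a₂ * (C • E).a₆ - (C • E).a₄ ^ 2 := by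
    rw [b₈, h1, h3]
    ring
  have heq : (C • E).a₄ ^ 2 = 4 * (C • E).a₂ * (C • E).a₆ := by
    rw [hb8] at h8
    linear_combination -h8
  refine ⟨C, (C • E).a₂, (C • E).a₄, (C • E).a₆, ?_, heq, ?_⟩
  · ext
    · exact h1
    · rfl
    · exact h3
    · rfl
    · rfl
  · intro h6
    have h4 : (C • E).a₄ = 0 := by
      rw [h6, mul_zero] at heq
      exact pow_eq_zero_iff two_ne_zero |>.1 heq
    apply hΔ
    rw [Δ, b₂, b₄, b₆, b₈, h1, h3, h4, h6]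
    ring

/-- Squarefree part. -/
theorem nf_sq {q : ℚ} (hq : q ≠ 0) : ∃ (D : ℕ) (m : ℚ), Squarefree D ∧ m ≠ 0 ∧
    (q = D * m ^ 2 ∨ q = -(D * m ^ 2)) := by
  obtain ⟨a, b, h1, h2⟩ := Nat.sq_mul_squarefree ((q.num * q.den : ℤ).natAbs)
  have hd : (q.den : ℚ) ≠ 0 := Nat.cast_ne_zero.2 q.den_nz
  have hn : (q.num : ℚ) = q * q.den := (Rat.mul_den_eq_num q).symm
  have h3 : |q * q.den ^ 2| = (b : ℚ) ^ 2 * a := by
    have h4 : ((b ^ 2 * a : ℕ) : ℚ) = (((q.num * q.den : ℤ).natAbs : ℕ) : ℚ) := by rw [h1]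
    rw [Nat.cast_natAbs] at h4
    push_cast at h4
    rw [← h4.symm, hn]
    congr 1
    ring
  have hb : (b : ℚ) ≠ 0 := by
    rintro h0
    rw [h0] at h3
    have h5 : q * q.den ^ 2 = 0 := by
      rw [← abs_eq_zero, h3]
      ring
    exact (mul_ne_zero hq (pow_ne_zero 2 hd)) h5
  refine ⟨a, b / q.den, h2, div_ne_zero hb hd, ?_⟩
  rcases abs_choice (q * q.den ^ 2) with h | h
  · left
    rw [h] at h3
    rw [div_pow]
    field_simp
    linear_combination h3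
  · right
    rw [h] at h3
    rw [div_pow]
    field_simp
    linear_combination -h3

/-- Common denominators. -/
theorem nf_int (α β : ℚ) : ∃ (N : ℕ) (a b : ℤ), N ≠ 0 ∧ (N : ℚ) * α = a ∧ (N : ℚ) ^ 3 * β = b := by
  have hα : (α.den : ℚ) * α = α.num := Rat.den_mul_eq_num α
  have hβ : (β.den : ℚ) * β = β.num := Rat.den_mul_eq_num β
  refine ⟨α.den * β.den, β.den * α.num, (α.den ^ 3 * β.den ^ 2 : ℕ) * β.num,
    mul_ne_zero α.den_nz β.den_nz, ?_, ?_⟩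
  · push_cast
    rw [← hα]
    ring
  · push_cast
    rw [← hβ]
    ring

/-- Scaling. -/
theorem nf_scale (u : ℚ) (hu : u ≠ 0) (a b c : ℚ) : ∃ C : VariableChange ℚ,
    C • (⟨0, a, 0, b, c⟩ : WeierstrassCurve ℚ) = ⟨0, u ^ 2 * a, 0, u ^ 4 * b, u ^ 6 * c⟩ := by
  refine ⟨⟨(Units.mk0 u hu)⁻¹, 0, 0, 0⟩, ?_⟩
  ext
  · rw [variableChange_a₁]; simp
  · rw [variableChange_a₂]; simp
  · rw [variableChange_a₃]; simp
  · rw [variableChange_a₄]; simp
  · rw [variableChange_a₆]; simp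

/-- Every elliptic curve over the rationals with a rational subgroup of order three has one of the
two forms. -/
theorem normal_form (E : WeierstrassCurve ℚ) (hE : E.IsElliptic) {x₀ : ℚ} (hx : E.Ψ₃.eval x₀ = 0) :
    ∃ (C : VariableChange ℚ) (D : ℕ) (a b : ℤ), Squarefree D ∧ b ≠ 0 ∧ 27 * b - 4 * D * a ^ 3 ≠ 0 ∧
      (C • E = curWD (D : ℚ) a b ∨
        C • E = curVD (D : ℚ) a (27 * (b : ℚ) - 4 * D * (a : ℚ) ^ 3)) := by
  obtain ⟨C₁, A, B, c, h1, h2, hc⟩ := nf_one E hE hx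
  obtain ⟨D, m, hD, hm, hq⟩ := nf_sq hc
  have hD0 : (D : ℚ) ≠ 0 := Nat.cast_ne_zero.2 hD.ne_zero
  -- the discriminant
  have key : ∀ (C : VariableChange ℚ) (D' α β : ℚ),
      C • E = (⟨0, D' * α ^ 2, 0, 2 * D' * α * β, D' * β ^ 2⟩ : WeierstrassCurve ℚ) →
      D' ≠ 0 ∧ β ≠ 0 ∧ 27 * β - 4 * D' * α ^ 3 ≠ 0 := by
    intro C D' α β h
    have hΔ : (C • E).Δ ≠ 0 := (C • E).isUnit_Δ.ne_zero
    have e : (C • E).Δ = -16 * D' ^ 2 * β ^ 3 * (27 * β - 4 * D' * α ^ 3) := by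
      rw [h, Δ, b₂, b₄, b₆, b₈]
      ring
    rw [e] at hΔ
    have h1 := right_ne_zero_of_mul hΔ
    have h2 := left_ne_zero_of_mul hΔ
    have h3 := right_ne_zero_of_mul h2
    have h4 := right_ne_zero_of_mul (left_ne_zero_of_mul h2)
    exact ⟨fun h0 => h4 (by rw [h0]; ring), fun h0 => h3 (by rw [h0]; ring), h1⟩
  rcases hq with hq | hq
  · -- even character
    obtain ⟨α, hα⟩ : ∃ α : ℚ, α = B / (2 * D * m) := ⟨_, rfl⟩
    have hB : B = 2 * D * α * m := by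
      rw [hα]
      field_simp
    have hA : A = D * α ^ 2 := by
      have h5 : 4 * A * c = (2 * D * α * m) ^ 2 := by rw [← hB, h2]
      rw [hq] at h5
      have h6 : (D * m ^ 2 : ℚ) ≠ 0 := mul_ne_zero hD0 (pow_ne_zero 2 hm)
      apply mul_right_cancel₀ h6
      linear_combination h5 / 4
    obtain ⟨N, a, b, hN, ha, hb⟩ := nf_int α m
    obtain ⟨C₂, h3⟩ := nf_scale N (Nat.cast_ne_zero.2 hN) A B c
    have h4 : (C₂ * C₁) • E = curWD (D : ℚ) a b := by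
      rw [mul_smul, h1, h3, curWD, ← ha, ← hb, hA, hB, hq]
      ext
      · rfl
      · change _ = _
        ring
      · rfl
      · change _ = _
        ring
      · change _ = _
        ring
    obtain ⟨_, k2, k3⟩ := key _ _ _ _ h4
    refine ⟨C₂ * C₁, D, a, b, hD, ?_, ?_, Or.inl h4⟩
    · exact_mod_cast k2
    · exact_mod_cast k3
  · -- odd character
    obtain ⟨D₁, n, hD₁, hn, hDn⟩ : ∃ (D₁ : ℕ) (n : ℚ), Squarefree D₁ ∧ n ≠ 0 ∧
        (D : ℚ) = 3 * D₁ * n ^ 2 := by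
      by_cases h3 : 3 ∣ D
      · obtain ⟨D₁, rfl⟩ := h3
        exact ⟨D₁, 1, hD.of_mul_right, one_ne_zero, by push_cast; ring⟩
      · refine ⟨3 * D, 1 / 3, ?_, by norm_num, by push_cast; ring⟩
        rw [Nat.squarefree_mul_iff]
        exact ⟨(Nat.Prime.coprime_iff_not_dvd Nat.prime_three).2 h3, Nat.prime_three.prime.squarefree,
          hD⟩
    have hD10 : (D₁ : ℚ) ≠ 0 := Nat.cast_ne_zero.2 hD₁.ne_zero
    -- `c = - 27 D₁ (m n / 3)^2`
    obtain ⟨γ, hγ⟩ : ∃ γ : ℚ, γ = m * n / 3 := ⟨_, rfl⟩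
    have hγ0 : γ ≠ 0 := by
      rw [hγ]
      exact div_ne_zero (mul_ne_zero hm hn) (by norm_num)
    have hcγ : c = -27 * D₁ * γ ^ 2 := by
      rw [hq, hDn, hγ]
      ring
    obtain ⟨α, hα⟩ : ∃ α : ℚ, α = B / (-54 * D₁ * γ) := ⟨_, rfl⟩
    have hB : B = -54 * D₁ * α * γ := by
      rw [hα]
      field_simp
    have hA : A = -27 * D₁ * α ^ 2 := by
      have h5 : 4 * A * c = (-54 * D₁ * α * γ) ^ 2 := by rw [← hB, h2]
      rw [hcγ] at h5
      have h6 : (-27 * D₁ * γ ^ 2 : ℚ) ≠ 0 := mul_ne_zero (mul_ne_zero (by norm_num) hD10)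
        (pow_ne_zero 2 hγ0)
      apply mul_right_cancel₀ h6
      linear_combination h5 / 4
    obtain ⟨N, a, b, hN, ha, hb⟩ := nf_int α ((γ + 4 * D₁ * α ^ 3) / 27)
    obtain ⟨C₂, h3⟩ := nf_scale N (Nat.cast_ne_zero.2 hN) A B c
    have eγ : 27 * (b : ℚ) - 4 * D₁ * (a : ℚ) ^ 3 = (N : ℚ) ^ 3 * γ := by
      rw [← ha, ← hb]
      ring
    have h4 : (C₂ * C₁) • E = curVD (D₁ : ℚ) a (27 * (b : ℚ) - 4 * D₁ * (a : ℚ) ^ 3) := by
      rw [mul_smul, h1, h3, curVD, eγ, ← ha, hA, hB, hcγ]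
      ext
      · rfl
      · change _ = _
        ring
      · rfl
      · change _ = _
        ring
      · change _ = _
        ring
    have h5 : (C₂ * C₁) • E = (⟨0, (-27 * D₁) * (a : ℚ) ^ 2, 0,
        2 * (-27 * D₁) * a * ((N : ℚ) ^ 3 * γ), (-27 * D₁) * ((N : ℚ) ^ 3 * γ) ^ 2⟩ :
        WeierstrassCurve ℚ) := by
      rw [h4, curVD, eγ]
      ext
      · rfl
      · rfl
      · rfl
      · change _ = _
        ring
      · rfl
    obtain ⟨_, k2, k3⟩ := key _ _ _ _ h5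
    refine ⟨C₂ * C₁, D₁, a, b, hD₁, ?_, ?_, Or.inr h4⟩
    · rintro rfl
      apply k3
      rw [← eγ]
      push_cast
      ring
    · intro h0
      apply k2
      rw [← eγ]
      exact_mod_cast h0

end H55T3
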