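import Pool.Agent.H55.T3.Xh
import Pool.Agent.H68.TK.Df

/-!
The prime above three in the rationals (MP_78d38b_T3D, helper55; no row).
-/

set_option autoImplicit false
open scoped Classical

open IsDedekindDomain NumberField WithZero

namespace H55T3

theorem rat_int3 (v : HeightOneSpectrum (𝓞 ℚ)) (hv : (3 : 𝓞 ℚ) ∈ v.asIdeal) :
    v.intValuation 3 = exp (-1 : ℤ) := by
  have h1 := rat_unr Nat.prime_three v (by exact_mod_cast hv)
  rw [← h1, ← v.valuation_of_algebraMap (K := ℚ)]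
  congr 1

theorem unr3_rat : H68TK.Unr3 ℚ := by
  intro v hv h2
  rw [← v.intValuation_le_pow_iff_mem, rat_int3 v hv, exp_le_exp] at h2
  push_cast at h2

theorem rat_coprime {v : HeightOneSpectrum (𝓞 ℚ)} (hv : (3 : 𝓞 ℚ) ∈ v.asIdeal) {n : ℕ}
    (hn : ¬ 3 ∣ n) : (n : 𝓞 ℚ) ∉ v.asIdeal := by
  intro h
  apply v.isPrime.ne_top
  rw [Ideal.eq_top_iff_one]
  have hc : IsCoprime (3 : ℤ) (n : ℤ) := by
    have := (Nat.Prime.coprime_iff_not_dvd Nat.prime_three).2 hn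
    exact_mod_cast Nat.isCoprime_iff_coprime.2 this
  obtain ⟨a, b, hab⟩ := hc
  have h1 : ((a : ℤ) : 𝓞 ℚ) * (3 : 𝓞 ℚ) + ((b : ℤ) : 𝓞 ℚ) * (n : 𝓞 ℚ) = 1 := by
    have := congrArg (fun z : ℤ => (z : 𝓞 ℚ)) hab
    push_cast at this
    exact this
  rw [← h1]
  exact Ideal.add_mem _ (Ideal.mul_mem_left _ _ hv) (Ideal.mul_mem_left _ _ h)

theorem rat_sqf {D : ℕ} (hD : Squarefree D) {v : HeightOneSpectrum (𝓞 ℚ)}
    (hv : (3 : 𝓞 ℚ) ∈ v.asIdeal) : (D : 𝓞 ℚ) ∉ v.asIdeal ^ 2 := by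
  intro h
  by_cases h3 : 3 ∣ D
  · obtain ⟨c, rfl⟩ := h3
    have hc : ¬ 3 ∣ c := by
      rintro ⟨d, rfl⟩
      have h1 := hD 3 ⟨d, by ring⟩
      rw [Nat.isUnit_iff] at h1
      omega
    have hc1 : v.intValuation (c : 𝓞 ℚ) = 1 := v.intValuation_eq_one_iff.2 (rat_coprime hv hc)
    rw [← v.intValuation_le_pow_iff_mem, Nat.cast_mul, map_mul, hc1, mul_one, Nat.cast_ofNat,
      rat_int3 v hv, exp_le_exp] at h
    push_cast at h
  · exact rat_coprime hv h3 (Ideal.pow_le_self two_ne_zero h)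

theorem rat_norm {v : HeightOneSpectrum (𝓞 ℚ)} (hv : (3 : 𝓞 ℚ) ∈ v.asIdeal) :
    Ideal.absNorm v.asIdeal = 3 := by
  have h1 : Ideal.absNorm v.asIdeal ∣ Ideal.absNorm (Ideal.span {(3 : 𝓞 ℚ)}) :=
    Ideal.absNorm_dvd_absNorm_of_le (by rwa [Ideal.span_singleton_le_iff_mem])
  have h2 : Ideal.absNorm (Ideal.span {(3 : 𝓞 ℚ)}) = 3 := by
    rw [Ideal.absNorm_span_singleton]
    have h3 : (Algebra.norm ℤ) (3 : 𝓞 ℚ) = 3 ^ Module.finrank ℤ (𝓞 ℚ) := by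
      have := Algebra.norm_algebraMap_of_basis (RingOfIntegers.basis ℚ) (3 : ℤ)
      rw [map_ofNat] at this
      rw [this, Module.finrank_eq_card_basis (RingOfIntegers.basis ℚ)]
    rw [h3, RingOfIntegers.rank, Module.finrank_self, pow_one]
    rfl
  rw [h2] at h1
  rcases (Nat.dvd_prime Nat.prime_three).1 h1 with h | h
  · exfalso
    exact v.isPrime.ne_top (Ideal.absNorm_eq_one_iff.1 h)
  · exact h

theorem rat_span {v : HeightOneSpectrum (𝓞 ℚ)} (hv : (3 : 𝓞 ℚ) ∈ v.asIdeal) :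
    v.asIdeal = Ideal.span {(3 : 𝓞 ℚ)} := by
  have hpr : Prime (3 : 𝓞 ℚ) := by
    have h1 : Prime (3 : ℤ) := Int.prime_three
    have h2 := (MulEquiv.prime_iff (Rat.ringOfIntegersEquiv.symm : ℤ ≃* 𝓞 ℚ)).mpr h1
    simpa using h2
  have hP : (Ideal.span {(3 : 𝓞 ℚ)}).IsPrime := (Ideal.span_singleton_prime hpr.ne_zero).mpr hpr
  have hmax : (Ideal.span {(3 : 𝓞 ℚ)}).IsMaximal := by
    apply hP.isMaximal
    rw [Ne, Ideal.span_singleton_eq_bot]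
    exact hpr.ne_zero
  symm
  apply hmax.eq_of_le v.isPrime.ne_top
  rw [Ideal.span_singleton_le_iff_mem]
  exact hv

theorem rat_mem {v : HeightOneSpectrum (𝓞 ℚ)} (hv : (3 : 𝓞 ℚ) ∈ v.asIdeal) (n : ℕ) (a : ℤ) :
    (a : 𝓞 ℚ) ∈ v.asIdeal ^ n ↔ (3 : ℤ) ^ n ∣ a := by
  rw [rat_span hv, Ideal.span_singleton_pow, Ideal.mem_span_singleton,
    ← map_dvd_iff (Rat.ringOfIntegersEquiv : 𝓞 ℚ ≃+* ℤ), map_pow, map_ofNat, map_intCast,
    Int.cast_id]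

theorem exists_rat3 : ∃ v : HeightOneSpectrum (𝓞 ℚ), (3 : 𝓞 ℚ) ∈ v.asIdeal := by
  have hpr : Prime (3 : 𝓞 ℚ) := by
    have h1 : Prime (3 : ℤ) := Int.prime_three
    have h2 := (MulEquiv.prime_iff (Rat.ringOfIntegersEquiv.symm : ℤ ≃* 𝓞 ℚ)).mpr h1
    simpa using h2
  refine ⟨⟨Ideal.span {(3 : 𝓞 ℚ)}, (Ideal.span_singleton_prime hpr.ne_zero).mpr hpr, ?_⟩,
    Ideal.mem_span_singleton_self _⟩
  rw [Ne, Ideal.span_singleton_eq_bot]
  exact hpr.ne_zero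

end H55T3
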