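import Pool.Agent.H55.T3.Kdf
import Pool.Agent.H68.TK.Loc

/-! A place which is not good is bad in the normalisation of the growth theorem (helper55). -/

set_option autoImplicit false
open scoped Classical

open IsDedekindDomain NumberField WithZero Pool.Agent.H10

namespace H55T3

lemma Bad_shift {x : WithZero (Multiplicative ℤ)} {n : ℤ} (h : exp (-3 : ℤ) * x = exp (-n)) :
    x = exp (-(n - 3)) := by
  have h1 : exp (3 : ℤ) * (exp (-3 : ℤ) * x) = exp (3 : ℤ) * exp (-n) := by rw [h]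
  rw [← mul_assoc, ← exp_add, ← exp_add] at h1
  have e : (3 : ℤ) + -3 = 0 := by norm_num
  rw [e, exp_zero, one_mul] at h1
  rw [h1]
  congr 1
  ring

theorem bad_of_not_good {k : Type} [Field k] [NumberField k] {v : HeightOneSpectrum (𝓞 k)}
    (hv : (3 : 𝓞 k) ∈ v.asIdeal) (hv2 : (3 : 𝓞 k) ∉ v.asIdeal ^ 2) {α β : 𝓞 k}
    (hγ : 27 * β - 4 * α ^ 3 ≠ 0) (h : ¬ Good3 v α β) :
    ∃ i : ℕ, v.valuation k ((3 * α : 𝓞 k) : k) ≤ exp (-(i + 1 : ℤ)) ∧
      (v.valuation k ((3 * (27 * β - 4 * α ^ 3) : 𝓞 k) : k) = exp (-(3 * i + 1 : ℤ)) ∨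
       v.valuation k ((3 * (27 * β - 4 * α ^ 3) : 𝓞 k) : k) = exp (-(3 * i + 2 : ℤ))) := by
  have h3 := H68TK.val_three_of_unram hv hv2
  have c3 : ((3 : 𝓞 k) : k) = 3 := map_ofNat (algebraMap (𝓞 k) k) 3
  have e3 : v.intValuation (3 : 𝓞 k) = exp (-1 : ℤ) := by
    rw [← v.valuation_of_algebraMap (K := k)]
    change v.valuation k ((3 : 𝓞 k) : k) = _
    rw [c3, h3]
  have hint : ∀ x : 𝓞 k, v.valuation k (x : k) = v.intValuation x := fun x =>
    v.valuation_of_algebraMap x
  have hpow : ∀ (x : 𝓞 k) (n : ℕ), x ∈ v.asIdeal ^ n ↔ v.intValuation x ≤ exp (-(n : ℤ)) :=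
    fun x n => (v.intValuation_le_pow_iff_mem x n).symm
  have e4 : v.intValuation (4 : 𝓞 k) = 1 := by
    have : (4 : 𝓞 k) = 1 + 3 := by norm_num
    rw [this]
    have h1 : v.intValuation (3 : 𝓞 k) < v.intValuation (1 : 𝓞 k) := by
      rw [e3, map_one, ← exp_zero, exp_lt_exp]
      norm_num
    rw [Valuation.map_add_eq_of_lt_left _ h1, map_one]
  have e27 : v.intValuation (27 : 𝓞 k) = exp (-3 : ℤ) := by
    have : (27 : 𝓞 k) = 3 ^ 3 := by norm_num
    rw [this, map_pow, e3, ← exp_nsmul]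
    rfl
  obtain ⟨γ, hγdef⟩ : ∃ γ : 𝓞 k, γ = 27 * β - 4 * α ^ 3 := ⟨_, rfl⟩
  rw [← hγdef] at hγ ⊢
  obtain ⟨g, hg⟩ : ∃ g : ℕ, v.intValuation γ = exp (-(g : ℤ)) :=
    ⟨_, v.intValuation_eq_exp_neg_multiplicity hγ⟩
  obtain ⟨a, ha1, ha2⟩ : ∃ a : ℕ, v.intValuation α ≤ exp (-(a : ℤ)) ∧
      (v.intValuation α = exp (-(a : ℤ)) ∨ g + 5 ≤ a) := by
    by_cases hα : α = 0
    · refine ⟨g + 5, ?_, Or.inr le_rfl⟩
      rw [hα, map_zero]
      exact zero_le
    · have := v.intValuation_eq_exp_neg_multiplicity hα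
      exact ⟨_, this.le, Or.inl this⟩
  have hcube : v.intValuation (4 * α ^ 3) ≤ exp (-(3 * a : ℤ)) := by
    rw [map_mul, e4, one_mul, map_pow]
    calc v.intValuation α ^ 3 ≤ (exp (-(a : ℤ))) ^ 3 := pow_le_pow_left' ha1 3
      _ = exp (-(3 * a : ℤ)) := by
        rw [← exp_nsmul]
        congr 1
        simp only [nsmul_eq_mul]
        push_cast
        ring
  have hX : v.intValuation (27 * β) = v.intValuation (γ + 4 * α ^ 3) := by
    congr 1
    rw [hγdef]
    ring
  have hβ1 : v.intValuation β ≤ 1 := v.intValuation_le_one β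
  rw [map_mul, e27] at hX
  by_cases h1 : g < 3 * a + 2
  · have h4 : 3 ∣ g + 1 → v.intValuation β = exp (-((g : ℤ) - 3)) := by
      intro h2
      have h4 : v.intValuation (4 * α ^ 3) < v.intValuation γ := by
        rw [hg]
        refine hcube.trans_lt ?_
        rw [exp_lt_exp]
        omega
      rw [Valuation.map_add_eq_of_lt_left _ h4, hg] at hX
      exact Bad_shift hX
    by_cases h2 : 3 ∣ g + 1
    · exfalso
      have h5 := h4 h2
      have h6 : 3 ≤ g := by
        rw [h5, ← exp_zero, exp_le_exp] at hβ1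
        omega
      obtain ⟨j, hj⟩ : ∃ j, g = 3 * j + 5 := ⟨(g + 1) / 3 - 2, by omega⟩
      apply h
      refine ⟨j, ?_, ?_, ?_⟩
      · rw [hpow]
        refine ha1.trans ?_
        rw [exp_le_exp]
        push_cast
        omega
      · rw [← hγdef, hpow, hg, exp_le_exp]
        push_cast
        omega
      · rw [hpow, h5, exp_le_exp]
        push_cast
        omega
    · refine ⟨(g + 1) / 3, ?_, ?_⟩
      · rw [hint, map_mul, e3]
        calc exp (-1 : ℤ) * v.intValuation α ≤ exp (-1 : ℤ) * exp (-(a : ℤ)) :=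
              mul_le_mul_right ha1 _
          _ ≤ _ := by
            rw [← exp_add, exp_le_exp]
            omega
      · rw [hint, map_mul, e3, hg, ← exp_add, exp_inj, exp_inj]
        omega
  · exfalso
    have ha3 : v.intValuation α = exp (-(a : ℤ)) := by
      rcases ha2 with ha2 | ha2
      · exact ha2
      · omega
    have hc3 : v.intValuation (4 * α ^ 3) = exp (-(3 * a : ℤ)) := by
      rw [map_mul, e4, one_mul, map_pow, ha3, ← exp_nsmul]
      congr 1
      simp only [nsmul_eq_mul]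
      push_cast
      ring
    have h4 : v.intValuation γ < v.intValuation (4 * α ^ 3) := by
      rw [hg, hc3, exp_lt_exp]
      omega
    rw [Valuation.map_add_eq_of_lt_right _ h4, hc3] at hX
    have h5 := Bad_shift hX
    have h6 : 1 ≤ a := by
      rw [h5, ← exp_zero, exp_le_exp] at hβ1
      omega
    apply h
    refine ⟨a - 1, ?_, ?_, ?_⟩
    · rw [hpow, ha3, exp_le_exp]
      omega
    · rw [← hγdef, hpow, hg, exp_le_exp]
      omega
    · rw [hpow, h5, exp_le_exp]
      omega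

end H55T3
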