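import Pool.Agent.H55.T3.Exz
import Pool.Agent.H55.T3.Kdf

/-! The explicit examples over all layers (helper55). -/

set_option autoImplicit false
open scoped Classical

open WeierstrassCurve IsDedekindDomain NumberField Pool.Agent.H10 Pool.Agent.H11 H5SW

namespace H55T3

theorem fam1 {q : ℕ} (hq : q.Prime) (hq2 : q ≠ 2) (h9 : q % 9 = 2 ∨ q % 9 = 5)
    (h25 : ¬ 25 ∣ q ^ 4 - 1) {L : Type} [Field L] [NumberField L] (hL : IsR 5 L) {i : ℕ}
    (hi : Module.finrank ℚ L = 5 ^ i) :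
    NoSha3 L (⟨0, 0, 0, 0, -48 * (q : L) ^ 2⟩ : WeierstrassCurve L) ∧
      Finite (⟨0, 0, 0, 0, -48 * (q : L) ^ 2⟩ : WeierstrassCurve L).toAffine.Point ∧
      NoSha3 L (⟨0, 0, 0, 0, (36 * (q : L)) ^ 2⟩ : WeierstrassCurve L) := by
  have hb := c1_hb hq
  have hc := c1_hc hq
  have hred : ¬ ((3 : ℤ) ∣ 0 ∧ (3 : ℤ) ∣ 4 * q) := by
    rintro ⟨-, h⟩
    omega
  have hqq : ∀ r : ℕ, r.Prime → (r : ℤ) ∣ 6 * (4 * q) * (9 * (4 * q) + 4 * 0 ^ 3) →
      ¬ 25 ∣ r ^ 4 - 1 := by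
    intro r hr hd
    have e : (6 * (4 * q) * (9 * (4 * q) + 4 * 0 ^ 3) : ℤ) = ((2 ^ 5 * 3 ^ 3 * q ^ 2 : ℕ) : ℤ) := by
      push_cast
      ring
    rw [e, Int.natCast_dvd_natCast] at hd
    rcases hr.dvd_mul.1 hd with hd | hd
    · rcases hr.dvd_mul.1 hd with hd | hd
      · have := (Nat.prime_dvd_prime_iff_eq hr Nat.prime_two).1 (hr.dvd_of_dvd_pow hd)
        subst this
        decide
      · have := (Nat.prime_dvd_prime_iff_eq hr Nat.prime_three).1 (hr.dvd_of_dvd_pow hd)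
        subst this
        decide
    · have := (Nat.prime_dvd_prime_iff_eq hr hq).1 (hr.dvd_of_dvd_pow hd)
      subst this
      exact h25
  obtain ⟨n1, n2, n3⟩ := c1_noSha hq hq2 h9
  obtain ⟨u1, u2⟩ := up5 hb hc hred hqq ⟨n1, n2⟩ hL hi
  obtain ⟨h3n, _, h⟩ := explicit5 0 (4 * q) hb hc hred hqq ℚ L hL hi
  obtain ⟨h1, h2⟩ := h _ (Or.inl rfl)
  have hf := (exp_up h3n (is3_E ℚ hb hc).isElliptic h1 h2 n3).1
  have eE : (curE ℚ 0 (4 * q)).baseChange L =
      (⟨0, 0, 0, 0, -48 * (q : L) ^ 2⟩ : WeierstrassCurve L) := by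
    ext
    · simp [curE]
    · simp [curE]
    · simp [curE]
    · simp [curE]
    · simp [curE]
      ring
  have eF : (curF ℚ 0 (4 * q)).baseChange L =
      (⟨0, 0, 0, 0, (36 * (q : L)) ^ 2⟩ : WeierstrassCurve L) := by
    ext
    · simp [curF]
    · simp [curF]
    · simp [curF]
    · simp [curF]
    · simp [curF]
      ring
  rw [eE] at u1 hf
  rw [eF] at u2
  exact ⟨u1, hf, u2⟩

theorem fam2 {L : Type} [Field L] [NumberField L] (hL : IsR 5 L) {i : ℕ}
    (hi : Module.finrank ℚ L = 5 ^ i) : NoSha3 L (curW (-15 : L) 715) := by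
  have hb : (135 : ℤ) ≠ 0 := by norm_num
  have hc : 9 * (135 : ℤ) + 4 * (-5) ^ 3 ≠ 0 := by norm_num
  have hred : ¬ ((3 : ℤ) ∣ -5 ∧ (3 : ℤ) ∣ 135) := by norm_num
  have hqq : ∀ r : ℕ, r.Prime → (r : ℤ) ∣ 6 * 135 * (9 * 135 + 4 * (-5) ^ 3) →
      ¬ 25 ∣ r ^ 4 - 1 := by
    intro r hr hd
    have e : (6 * 135 * (9 * 135 + 4 * (-5) ^ 3) : ℤ) = ((2 * 3 ^ 4 * 5 ^ 2 * 11 * 13 : ℕ) : ℤ) := by
      norm_num
    rw [e, Int.natCast_dvd_natCast] at hd
    have h1 : r ∣ 2 ∨ r ∣ 3 ∨ r ∣ 5 ∨ r ∣ 11 ∨ r ∣ 13 := by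
      rcases hr.dvd_mul.1 hd with hd | hd
      · rcases hr.dvd_mul.1 hd with hd | hd
        · rcases hr.dvd_mul.1 hd with hd | hd
          · rcases hr.dvd_mul.1 hd with hd | hd
            · exact Or.inl hd
            · exact Or.inr (Or.inl (hr.dvd_of_dvd_pow hd))
          · exact Or.inr (Or.inr (Or.inl (hr.dvd_of_dvd_pow hd)))
        · exact Or.inr (Or.inr (Or.inr (Or.inl hd)))
      · exact Or.inr (Or.inr (Or.inr (Or.inr hd)))
    rcases h1 with h | h | h | h | h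
    · have := (Nat.prime_dvd_prime_iff_eq hr (by norm_num : Nat.Prime 2)).1 h
      subst this
      decide
    · have := (Nat.prime_dvd_prime_iff_eq hr (by norm_num : Nat.Prime 3)).1 h
      subst this
      decide
    · have := (Nat.prime_dvd_prime_iff_eq hr (by norm_num : Nat.Prime 5)).1 h
      subst this
      decide
    · have := (Nat.prime_dvd_prime_iff_eq hr (by norm_num : Nat.Prime 11)).1 h
      subst this
      decide
    · have := (Nat.prime_dvd_prime_iff_eq hr (by norm_num : Nat.Prime 13)).1 h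
      subst this
      decide
  obtain ⟨-, u2⟩ := up5 hb hc hred hqq c2_noSha hL hi
  have eF : (curF ℚ (-5) 135).baseChange L = curW (-15 : L) 715 := by
    ext
    · simp [curF, curW]
    · simp [curF, curW]
      norm_num
    · simp [curF, curW]
    · simp [curF, curW]
      norm_num
    · simp [curF, curW]
  rw [eF] at u2
  exact u2

theorem rank2 : ∃ P Q : (curW (-15 : ℚ) 715).toAffine.Point, ∀ m n : ℤ,
    m • P + n • Q = 0 → m = 0 ∧ n = 0 := by
  have e : cF (-5 : ℚ) 135 = curW (-15 : ℚ) 715 := by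
    unfold cF curW
    norm_num
  have h := indep2
  rw [e] at h
  exact h

end H55T3
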