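import Pool.Agent.H55.T3.KFin3

/-! The explicit form for the prime five for the curves with a rational point of order three (helper55). -/

set_option autoImplicit false
open scoped Classical

open WeierstrassCurve IsDedekindDomain NumberField Pool.Agent.H10 Pool.Agent.H11 H5SW

namespace H55T3

theorem goodV_int {L : Type} [Field L] [NumberField L] {α β : ℤ}
    (hg : ∃ i : ℕ, (3 : ℤ) ^ (i + 1) ∣ α ∧ (3 : ℤ) ^ (3 * i + 5) ∣ 27 * β - 4 * α ^ 3 ∧
      ¬ (3 : ℤ) ^ (3 * i + 3) ∣ β) (w : HeightOneSpectrum (𝓞 L)) (hw : (3 : 𝓞 L) ∈ w.asIdeal)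
    (h3 : w.valuation L 3 = WithZero.exp (-1 : ℤ)) : GoodV w (α : L) (β : L) := by
  have hint : ∀ z : ℤ, w.valuation L (z : L) ≤ 1 := by
    intro z
    have e : (z : L) = algebraMap (𝓞 L) L (z : 𝓞 L) := by rw [map_intCast]
    rw [e]
    exact w.valuation_le_one _
  have hpow : ∀ j : ℕ, w.valuation L ((3 : L) ^ j) = WithZero.exp (-(j : ℤ)) := by
    intro j
    rw [map_pow, h3, ← WithZero.exp_nsmul]
    congr 1
    simp
  have hdvd : ∀ (j : ℕ) (z : ℤ), (3 : ℤ) ^ j ∣ z →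
      w.valuation L (z : L) ≤ WithZero.exp (-(j : ℤ)) := by
    rintro j z ⟨y, rfl⟩
    push_cast
    rw [map_mul, hpow]
    exact mul_le_of_le_one_right' (hint y)
  have hunit : ∀ z : ℤ, ¬ (3 : ℤ) ∣ z → w.valuation L (z : L) = 1 := by
    intro z hz
    have e : (z : L) = algebraMap (𝓞 L) L (z : 𝓞 L) := by rw [map_intCast]
    rw [e]
    refine (w.valuation_eq_one_iff_notMem (K := L)).2 fun h => ?_
    have hp : Prime (3 : ℤ) := Int.prime_three
    obtain ⟨x, y, hxy⟩ := hp.coprime_iff_not_dvd.2 hz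
    apply w.isPrime.ne_top
    rw [Ideal.eq_top_iff_one]
    have e2 : (1 : 𝓞 L) = (x : 𝓞 L) * 3 + (y : 𝓞 L) * (z : 𝓞 L) := by
      have : ((x * 3 + y * z : ℤ) : 𝓞 L) = ((1 : ℤ) : 𝓞 L) := by rw [hxy]
      push_cast at this
      exact this.symm
    rw [e2]
    exact add_mem (w.asIdeal.mul_mem_left _ hw) (w.asIdeal.mul_mem_left _ h)
  obtain ⟨i, h1, h2, h4⟩ := hg
  refine ⟨i, ?_, ?_, ?_⟩
  · have := hdvd _ _ h1
    push_cast at this
    exact this
  · have := hdvd _ _ h2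
    push_cast at this
    exact this
  · have hβ : β ≠ 0 := by
      rintro rfl
      exact h4 (dvd_zero _)
    obtain ⟨j, z, hz, hβz⟩ : ∃ (j : ℕ) (z : ℤ), ¬ (3 : ℤ) ∣ z ∧ β = 3 ^ j * z := by
      have hf : FiniteMultiplicity (3 : ℤ) β := Int.finiteMultiplicity_iff.2 ⟨by norm_num, hβ⟩
      obtain ⟨z, hz, h⟩ := hf.exists_eq_pow_mul_and_not_dvd
      exact ⟨_, z, h, hz⟩
    have hj : j < 3 * i + 3 := by
      by_contra hj
      apply h4
      rw [hβz]
      exact Dvd.dvd.mul_right (pow_dvd_pow 3 (not_lt.1 hj)) z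
    have e : w.valuation L (β : L) = WithZero.exp (-(j : ℤ)) := by
      rw [hβz]
      push_cast
      rw [map_mul, hpow, hunit z hz, mul_one]
    rw [e, WithZero.exp_lt_exp]
    omega

/-- Everything for one pair of real subfields of the cyclotomic fields of 5-power conductor. -/
theorem explicit6 {α β : ℤ} (hβ : β ≠ 0) (hγ : 27 * β - 4 * α ^ 3 ≠ 0)
    (hg : ∃ i : ℕ, (3 : ℤ) ^ (i + 1) ∣ α ∧ (3 : ℤ) ^ (3 * i + 5) ∣ 27 * β - 4 * α ^ 3 ∧
      ¬ (3 : ℤ) ^ (3 * i + 3) ∣ β)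
    (hq : ∀ q : ℕ, q.Prime → (q : ℤ) ∣ 6 * β * (27 * β - 4 * α ^ 3) → ¬ 25 ∣ q ^ 4 - 1)
    (K L : Type) [Field K] [NumberField K] [Field L] [NumberField L] [Algebra K L]
    (hL : IsR 5 L) {i : ℕ} (hi : Module.finrank K L = 5 ^ i) :
    ¬ 3 ∣ Module.finrank K L ∧ ∃ _ : IsGalois K L,
      ∀ (E : WeierstrassCurve K), (E = curW (α : K) (β : K) ∨
        E = curV (α : K) ((27 * β - 4 * α ^ 3 : ℤ) : K)) →
        (E.baseChange L).IsElliptic ∧ CT3 K L (E.baseChange L) (inv_up rfl) := by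
  haveI : Fact (Nat.Prime 5) := ⟨Nat.prime_five⟩
  have hM : 6 * β * (27 * β - 4 * α ^ 3) ≠ 0 := mul_ne_zero (mul_ne_zero (by norm_num) hβ) hγ
  have G := H68TK.goodT_rat (p := 5) (k0 := 1) (T := 1) le_rfl
    (fun {m n K L M F} _ _ _ _ _ _ _ _ _ _ _ _ hk T => noNewCube_of_tower le_rfl nv3_five hk T)
    (fun {m n} hmn {C} _ _ _ hk => noNewC le_rfl nv3_five hk hmn (stick _ C)) hM
    (fun q hqp hqd _ h => hq q hqp (Int.natCast_dvd.mpr hqd) h) K L hL hi (by omega) (by omega)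
  haveI := G.gal
  have hreal : IsTotallyReal L := hL.1
  have hgen : IntermediateField.adjoin ℚ (Set.range (RingHom.id L)) = ⊤ := by
    rw [eq_top_iff]
    intro x _
    exact IntermediateField.subset_adjoin ℚ _ ⟨x, rfl⟩
  obtain ⟨n, M, F, _, _, _, _, _, _, _, ⟨Tw⟩⟩ := exists_tower (p := 5) (by norm_num) hL hi
  have hunr := three_unram le_rfl Tw
  obtain ⟨s, hs, hs2⟩ := exists_L3 L
  haveI hG1 : IsGalois K (CyclotomicField 3 L) := H68TK.galois_s (K := K) (L := L) hs hs2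
  haveI hG2 : IsGalois L (CyclotomicField 3 L) :=
    IsGalois.tower_top_of_isGalois K L (CyclotomicField 3 L)
  have hab := H68TK.comm_pair (H68TK.comm_gal (K := K) (k := ℚ) (RingHom.id L) hL hgen) hs hs2
  refine ⟨G.three, G.gal, fun E hE => ?_⟩
  refine ct3_pair3 (α := (α : 𝓞 K)) (β := (β : 𝓞 K)) G.odd G.three G.RC hs
    (fun g hg => H68TK.gen_s hs2 g hg) (H68TK.neg_s hs hs2 (H68TK.no_sqrt hreal)) hab
    (G.RM _ s hs hs2) (by exact_mod_cast hβ) (by exact_mod_cast hγ) ?_ ?_ hunr E ?_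
  · intro w hw
    have e1 : algebraMap K L (((α : 𝓞 K) : K)) = (α : L) := by
      rw [RingOfIntegers.coe_eq_algebraMap, map_intCast, map_intCast]
    have e2 : algebraMap K L (((β : 𝓞 K) : K)) = (β : L) := by
      rw [RingOfIntegers.coe_eq_algebraMap, map_intCast, map_intCast]
    rw [e1, e2]
    exact goodV_int hg w hw (hunr w hw)
  · intro v hv
    apply G.bad v
    push_cast
    exact hv
  · have e1 : (((α : 𝓞 K) : K)) = (α : K) := by
      rw [RingOfIntegers.coe_eq_algebraMap, map_intCast]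
    have e2 : (((β : 𝓞 K) : K)) = (β : K) := by
      rw [RingOfIntegers.coe_eq_algebraMap, map_intCast]
    rw [e1, e2]
    rcases hE with hE | hE
    · exact Or.inl hE
    · right
      rw [hE]
      push_cast
      rfl

end H55T3
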