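import Pool.Agent.H55.T3.Pair3
import Pool.Agent.H55.T3.Bad
import Pool.Agent.H55.T3.Y4
import Pool.Agent.H86.T3G.Gen3

/-! The growth half for the curves with a rational point of order three (helper55, on top of helper86's theorem). -/

set_option autoImplicit false
open scoped Classical

open WeierstrassCurve IsDedekindDomain NumberField WithZero Pool.Agent.H10 Pool.Agent.H11 H5SW

namespace H55T3

theorem growth_lay (p : ℕ) [Fact p.Prime] (hp : 5 ≤ p) {k : Type} [Field k] [NumberField k]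
    (hreal : IsTotallyReal k) (hk : H68TK.Unr3 k) {α β : 𝓞 k} (hβ : β ≠ 0)
    (hγ : 27 * β - 4 * α ^ 3 ≠ 0) (S : Finset (HeightOneSpectrum (𝓞 k)))
    (hS3 : ∀ v ∈ S, (3 : 𝓞 k) ∈ v.asIdeal) (hS : ∀ v ∈ S, ¬ Good3 v α β) :
    ∃ C : ℕ, ∀ (L : Type) [Field L] [NumberField L] [Algebra k L], Lay p k L →
      ∀ (E : WeierstrassCurve L), E = curV (algebraMap k L α)
        (27 * algebraMap k L β - 4 * algebraMap k L α ^ 3) →
      ∀ (P : Finset E.toAffine.Point) (T : Finset (Coch L E)),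
      (∀ X : E.toAffine.Point, ∃ p ∈ P, ∃ S, X = p + 3 • S) →
      (∀ f, IsCocycle L E f → IsLocTriv L E f → IsCobound L E (fun σ => 3 • f σ) →
        ∃ t ∈ T, IsCobound L E (fun σ => f σ - t σ)) →
      (∏ v ∈ S, Ideal.absNorm v.asIdeal) ^ Module.finrank k L ≤ C * (P.card * T.card) := by
  have hb0 : 3 * (27 * β - 4 * α ^ 3) ≠ 0 := mul_ne_zero (by norm_num) hγ
  have hc0 : 9 * (3 * (27 * β - 4 * α ^ 3)) + 4 * (3 * α) ^ 3 ≠ 0 := by
    have e : 9 * (3 * (27 * β - 4 * α ^ 3)) + 4 * (3 * α) ^ 3 = 729 * β := by ring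
    rw [e]
    exact mul_ne_zero (by norm_num) hβ
  obtain ⟨C, hC⟩ := H86T3.growth_gen3 p (by omega) (by omega) k hk (a := 3 * α)
    (b := 3 * (27 * β - 4 * α ^ 3)) hb0 hc0 S hS3
    (fun v hv => bad_of_not_good (hS3 v hv) (hk v (hS3 v hv)) hγ (hS v hv))
  refine ⟨C, ?_⟩
  rintro L _ _ _ hL E rfl P T hP hT
  obtain ⟨L', _, _, h, hR, hgen⟩ := lay_gen hL
  have hinj : Function.Injective (algebraMap k L) := (algebraMap k L).injective
  have hβ' : algebraMap k L (β : k) ≠ 0 := by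
    rw [Ne, map_eq_zero_iff _ hinj]
    exact coe_ne hβ
  have hγ' : 27 * algebraMap k L (β : k) - 4 * algebraMap k L (α : k) ^ 3 ≠ 0 := by
    have e : 27 * algebraMap k L (β : k) - 4 * algebraMap k L (α : k) ^ 3 =
        algebraMap k L ((27 * β - 4 * α ^ 3 : 𝓞 k) : k) := by
      rw [coe_gamma, map_sub, map_mul, map_mul, map_pow, map_ofNat, map_ofNat]
    rw [e, Ne, map_eq_zero_iff _ hinj]
    exact coe_ne hγ
  have h1 := is3_V hβ' hγ'
  have ea : algebraMap k L ((3 * α : 𝓞 k) : k) = 3 * algebraMap k L (α : k) := by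
    have : ((3 * α : 𝓞 k) : k) = 3 * (α : k) := by
      have h := map_mul (algebraMap (𝓞 k) k) 3 α
      rw [map_ofNat] at h
      exact h
    rw [this, map_mul, map_ofNat]
  have eb : algebraMap k L ((3 * (27 * β - 4 * α ^ 3) : 𝓞 k) : k) =
      3 * (27 * algebraMap k L (β : k) - 4 * algebraMap k L (α : k) ^ 3) := by
    have : ((3 * (27 * β - 4 * α ^ 3) : 𝓞 k) : k) = 3 * ((27 * β - 4 * α ^ 3 : 𝓞 k) : k) := by
      have h := map_mul (algebraMap (𝓞 k) k) 3 (27 * β - 4 * α ^ 3)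
      rw [map_ofNat] at h
      exact h
    rw [this, coe_gamma, map_mul, map_sub, map_mul, map_mul, map_pow, map_ofNat, map_ofNat,
      map_ofNat]
  rw [← ea, ← eb] at h1
  have h2 := hC L' L h hR hgen _ h1 P T hP hT
  rw [nrComplexPlaces_eq_zero_iff.2 hreal, pow_zero, one_pow, one_mul] at h2
  exact h2

end H55T3
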