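import Pool.Agent.H55.T3.Df6
import Pool.Agent.H55.T3.Y1
import Pool.Agent.H11.T3L.Lo

/-!
Real side for a curve with a rational subgroup of order three, `D` in `𝓞 K` (PI helper11).
-/

set_option autoImplicit false
open scoped Classical

open WeierstrassCurve IsDedekindDomain NumberField WithZero Pool.Agent.H10

namespace H55T3

theorem k5_arithO {K L A B : Type} [Field K] [NumberField K] [Field L] [NumberField L] [Field A]
    [NumberField A] [Field B] [NumberField B] [Algebra K L] [Algebra L B] [Algebra K B]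
    [IsScalarTower K L B] [Algebra K A] [Algebra A B] [IsScalarTower K A B] [IsGalois K L]
    [IsGalois K B] [IsGalois L B] {D : 𝓞 K} {s : B} (hs : s ^ 2 = algebraMap K B (D : K))
    (h2 : Module.finrank L B = 2) (hgen : ∀ g : B ≃ₐ[L] B, g s = s → g = 1)
    (hA : ∀ g : B ≃ₐ[K] B, g s = s → ∀ x : A, g (algebraMap A B x) = algebraMap A B x)
    (R : NoNewCubeM L A B s) {α β : 𝓞 K}
    (hgood : ∀ w : HeightOneSpectrum (𝓞 L), (3 : 𝓞 L) ∈ w.asIdeal →
      GoodVO (w.valuation L) (algebraMap K L (D : K)) (algebraMap K L (α : K))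
        (algebraMap K L (β : K)))
    (hbad : ∀ v : HeightOneSpectrum (𝓞 K), 6 * D * β * (27 * β - 4 * D * α ^ 3) ∈ v.asIdeal →
      UniqueOver K L v.asIdeal)
    (hunr : ∀ w : HeightOneSpectrum (𝓞 L), (3 : 𝓞 L) ∈ w.asIdeal →
      w.valuation L 3 = exp (-1 : ℤ))
    {d : B} (hd : d ≠ 0)
    (H : FinSol3 B s (algebraMap K B ((α : K) / 3)) (algebraMap K B (β : K)) d)
    (HM : FinM s (algebraMap K L (D : K)) (algebraMap K L ((α : K) / 3)) (algebraMap K L (β : K)) d)
    (hJ : ∀ g : B ≃ₐ[L] B, g s = -s → ∃ y, g d * d = y ^ 3)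
    {g : B ≃ₐ[K] B} (hg : g s = s) (hodd : Odd (orderOf g)) : ∃ y, g d = d * y ^ 3 :=
  H11L.arithO hs h2 hgen hA R hgood hbad hunr hd H HM hJ hg hodd

end H55T3
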