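import Pool.Agent.H10.Restr
import Pool.Agent.H10.Star
import Pool.Agent.H11.ConjSha
import Pool.Agent.H11.MW

/-!
Definitions for the three-isogeny descent (MP_78d38b_T3, helper55; no row).
`W : y^2 = x^3 - 3 D (a x + b)^2`; the kernel of `ψ : W → W'` consists of `0` and the points with `x = 0`;
`W' : y^2 = x^3 + D (3 a x + c)^2`, `c = 9 b + 4 D a^3`, is the same family with `(-3 D, a, c / 3)`.
-/

set_option autoImplicit false
open scoped Classical

open WeierstrassCurve IsDedekindDomain NumberField Pool.Agent.H10 Pool.Agent.H11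

namespace H55T3

/-- `W` is the curve `y^2 = x^3 - 3 D (a x + b)^2`, nonsingular, characteristic different from `2` and `3`. -/
structure Is3 {k : Type*} [Field k] (W : WeierstrassCurve k) (D a b : k) : Prop where
  a₁ : W.a₁ = 0
  a₂ : W.a₂ = -3 * D * a ^ 2
  a₃ : W.a₃ = 0
  a₄ : W.a₄ = -6 * D * a * b
  a₆ : W.a₆ = -3 * D * b ^ 2
  hD : D ≠ 0
  hb : b ≠ 0
  hc : 9 * b + 4 * D * a ^ 3 ≠ 0
  two : (2 : k) ≠ 0
  three : (3 : k) ≠ 0

/-- the parameter `b` of the dual curve -/
def dl {k : Type*} [Field k] (D a b : k) : k := (9 * b + 4 * D * a ^ 3) / 3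

/-- zero or `x = 0` -/
def Kr {k : Type*} [Field k] {W : WeierstrassCurve k} : W.toAffine.Point → Prop
  | 0 => True
  | .some x _ _ => x = 0

/-- `x`-coordinate of the isogeny -/
noncomputable def psX {k : Type*} [Field k] (D a b x : k) : k :=
  x - 4 * D * a ^ 2 - 12 * D * a * b / x - 12 * D * b ^ 2 / x ^ 2

/-- `y`-coordinate of the isogeny -/
noncomputable def psY {k : Type*} [Field k] (D a b x y : k) : k :=
  y * (x ^ 3 + 12 * D * a * b * x + 24 * D * b ^ 2) / x ^ 3

/-- the isogeny as a function -/
noncomputable def psF {k : Type*} [Field k] (W W' : WeierstrassCurve k) (D a b : k) :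
    W.toAffine.Point → W'.toAffine.Point
  | 0 => 0
  | .some x y _ => if h : x ≠ 0 ∧ W'.toAffine.Nonsingular (psX D a b x) (psY D a b x y) then
      .some _ _ h.2 else 0

/-- `U = (y - s (a x + 3 b)) / x` -/
noncomputable def uu {k : Type*} [Field k] {W : WeierstrassCurve k} (s a b : k) : W.toAffine.Point → k
  | 0 => 0
  | .some x y _ => (y - s * (a * x + 3 * b)) / x

/-- `W = (y + s (a x + 3 b)) / x` -/
noncomputable def ww {k : Type*} [Field k] {W : WeierstrassCurve k} (s a b : k) : W.toAffine.Point → k
  | 0 => 0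
  | .some x y _ => (y + s * (a * x + 3 * b)) / x

/-- the cube root of unity attached to a point of the kernel -/
noncomputable def ee {k : Type*} [Field k] {W : WeierstrassCurve k} (s b : k) : W.toAffine.Point → k
  | 0 => 1
  | .some _ y _ => (y - s * b) / (2 * s * b)

/-- local solubility of the homogeneous space attached to `d` -/
def LocSol {F : Type*} [Field F] (s a c d : F) : Prop :=
  (∃ t, d = t ^ 3) ∨ ∃ U V : F, d ^ 2 * V ^ 3 - U ^ 3 = d * s * (6 * a * U * V + 2 * c)

/-- soluble at all finite places -/
def FinSol3 (k : Type) [Field k] [NumberField k] (s a c d : k) : Prop :=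
  ∀ v : HeightOneSpectrum (𝓞 k), LocSol (algebraMap k (v.adicCompletion k) s)
    (algebraMap k (v.adicCompletion k) a) (algebraMap k (v.adicCompletion k) c)
    (algebraMap k (v.adicCompletion k) d)

section

variable (K L : Type) [Field K] [NumberField K] [Field L] [NumberField L] [Algebra K L] [Normal K L]

/-- Conjugation does not change the classes of the locally trivial cocycles with values in the kernel. -/
def KT (V' : WeierstrassCurve L) (h : Inv K (V'.baseChange (AlgebraicClosure L))) : Prop :=
  ∀ f : Coch L V', IsCocycle L V' f → IsLocTriv L V' f → (∀ σ, Kr (f σ)) →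
    ∀ g : AlgebraicClosure L ≃ₐ[K] AlgebraicClosure L, ∃ T, Kr T ∧
      ∀ τ, conj h g f τ = f τ + (act (inv_bc L V') τ T - T)

/-- The same for the cocycles killed by three. -/
def CT3 (V' : WeierstrassCurve L) (h : Inv K (V'.baseChange (AlgebraicClosure L))) : Prop :=
  ∀ f : Coch L V', IsCocycle L V' f → IsLocTriv L V' f → (∀ σ, 3 • f σ = 0) →
    ∀ g : AlgebraicClosure L ≃ₐ[K] AlgebraicClosure L, ∃ T, 3 • T = 0 ∧
      ∀ τ, conj h g f τ = f τ + (act (inv_bc L V') τ T - T)

end

/-- `f` represents an element of the three-primary part of the Tate-Shafarevich group of `W`. -/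
def IsShaThree (K : Type) [Field K] [NumberField K] (W : WeierstrassCurve K)
    (f : (AlgebraicClosure K ≃ₐ[K] AlgebraicClosure K) →
      (W.baseChange (AlgebraicClosure K)).toAffine.Point) : Prop :=
  IsCocycle K W f ∧ IsLocTriv K W f ∧ ∃ m : ℕ, IsCobound K W (fun σ => (3 ^ m) • f σ)

/-- Restriction from `K` to `L` is a well defined bijection between the three-primary parts of the
Tate-Shafarevich groups of `W` over `K` and over `L`. -/
def ShaThreeBijective (K : Type) [Field K] [NumberField K] (W : WeierstrassCurve K)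
    (L : Type) [Field L] [NumberField L] [Algebra K L] : Prop :=
  ∀ j : AlgebraicClosure K →ₐ[K] AlgebraicClosure L,
    (∀ f, IsShaThree K W f → ∃ g, IsRestriction K W L j f g ∧ IsShaThree L (W.baseChange L) g ∧
      (IsCobound L (W.baseChange L) g → IsCobound K W f)) ∧
    (∀ g, IsShaThree L (W.baseChange L) g → ∃ f g', IsShaThree K W f ∧ IsRestriction K W L j f g' ∧
      IsCobound L (W.baseChange L) (fun τ => g τ - g' τ))

end H55T3
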