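import Pool.Agent.H55.T3.Kdf

/-!
Definitions for the curves with a rational subgroup of order three (MP_78d38b_T3D, helper55; no row).
`W : y^2 = x^3 + D (3 a x + c)^2`, `c = 9 b + 4 D a^3`; the classes are elements of `L(s)`, `s^2 = D`.
-/

set_option autoImplicit false
open scoped Classical

open WeierstrassCurve IsDedekindDomain NumberField Pool.Agent.H10

namespace H55T3

/-- `d = (t₁ + t₂ s)^3`, `d = d₁ + d₂ s`, `s^2 = D` -/
def Cube2 {F : Type*} [Field F] (D d₁ d₂ t₁ t₂ : F) : Prop :=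
  d₁ = t₁ ^ 3 + 3 * D * t₁ * t₂ ^ 2 ∧ d₂ = 3 * t₁ ^ 2 * t₂ + D * t₂ ^ 3

/-- Local solubility over `F` for the class of `d₁ + d₂ s`: it is a cube, or
`(d₁ + d₂ s) (v₁ + v₂ s)^3 = y + s (3 a x + c)` with `y^2 = x^3 + D (3 a x + c)^2`. -/
def LocM {F : Type*} [Field F] (D a c d₁ d₂ : F) : Prop :=
  (∃ t₁ t₂, Cube2 D d₁ d₂ t₁ t₂) ∨
    ∃ x y v₁ v₂ e₁ e₂ : F, y ^ 2 = x ^ 3 + D * (3 * a * x + c) ^ 2 ∧ (v₁ ≠ 0 ∨ v₂ ≠ 0) ∧
      Cube2 D e₁ e₂ v₁ v₂ ∧ d₁ * e₁ + D * d₂ * e₂ = y ∧ d₁ * e₂ + d₂ * e₁ = 3 * a * x + c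

/-- `LocM` at the places of `L` where `D` is not a square, for an element `d` of `B = L(s)`. -/
def FinM {L B : Type} [Field L] [NumberField L] [Field B] [Algebra L B] (s : B) (D a c : L)
    (d : B) : Prop :=
  ∀ d₁ d₂ : L, d = algebraMap L B d₁ + algebraMap L B d₂ * s →
    ∀ v : HeightOneSpectrum (𝓞 L), (∀ z : v.adicCompletion L, z ^ 2 ≠ algebraMap L _ D) →
      LocM (algebraMap L (v.adicCompletion L) D) (algebraMap L (v.adicCompletion L) a)
        (algebraMap L (v.adicCompletion L) c) (algebraMap L (v.adicCompletion L) d₁)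
        (algebraMap L (v.adicCompletion L) d₂)

/-- No new elements for real abelian `A ⊆ B`, three may be ramified. -/
def NoNewCubeG (A B : Type) [Field A] [NumberField A] [Field B] [NumberField B] [Algebra A B] :
    Prop :=
  ∀ x : B, x ≠ 0 → (∀ w : HeightOneSpectrum (𝓞 B), (3 : ℤ) ∣ WithZero.log (w.valuation B x)) →
    (∀ w : HeightOneSpectrum (𝓞 B), (3 : 𝓞 B) ∈ w.asIdeal →
      ∃ t : B, w.valuation B (x * t ^ 3 - 1) ^ 2 ≤ w.valuation B 27) →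
    (∃ y : A, Algebra.norm A x = y ^ 3) → ∃ y : B, x = y ^ 3

end H55T3
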