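import Pool.Agent.H55.T3.Df5

/-!
Definitions for the curves with a rational subgroup of order three, `D` an algebraic integer of the base field
(MP_78d38b_T3D, helper55; no row).
-/

set_option autoImplicit false
open scoped Classical

open WeierstrassCurve IsDedekindDomain NumberField WithZero Pool.Agent.H10

namespace H55T3

/-- Good at a place above three, in terms of a valuation with `v 3 = exp (-1)` and `v D = 1` or `v D = exp (-1)`. -/
def GoodVO {F : Type*} [Field F] (V : Valuation F (WithZero (Multiplicative ℤ))) (D α β : F) : Prop :=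
  (V D = 1 ∧ ∃ i : ℕ, V α ≤ exp (-(i + 1 : ℤ)) ∧
    V (27 * β - 4 * D * α ^ 3) ≤ exp (-(3 * i + 5 : ℤ)) ∧
    exp (-(3 * i + 3 : ℤ)) < V β) ∨
  (V D = exp (-1 : ℤ) ∧ ∃ i : ℕ, V α ≤ exp (-(i + 1 : ℤ)) ∧
    V β ≤ exp (-(3 * i + 1 : ℤ)) ∧ exp (-(3 * i + 3 : ℤ)) < V β)

end H55T3
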