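import Pool.Agent.H55.T3.Tr
import Pool.Agent.H10.Bridge3

/-!
Row Hi (about 140 lines): Hilbert 90 for locally constant cocycles with values in the cube roots of unity, and the Kummer class of a kernel-valued cocycle.

PROOF of hilb. As in `kummer` (Pool/Agent/H11/Kummer.lean) but for a cocycle: χ (σ τ) = χ σ * σ (χ τ). Choose a finite normal extension M/k inside Ω such that χ σ depends only on σ restricted to M and all values χ σ lie in M (χ is locally constant, hence has finitely many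
 values (compact group) and factors through Gal(M₀/k) for a finite M₀ (lc_iff of H10/Pm.lean at each point + compactness, or `IsLocallyConstant` and the open normal subgroups of the Krull topology); adjoin the finitely many values; normal closure).
 f s := χ (s.liftNormal Ω) ∈ Mˣ is a multiplicative 1-cocycle of M ≃ₐ[k] M; `groupCohomology.isMulCoboundary₁_of_isMulCocycle₁_of_aut_to_units` gives β with s β / β = f s, so σ β = χ σ * β.
 (Alternatively use Pool/Agent/H48/BR/H90.lean `BrR.hilbert90` (proved, landed; Smo.lean for LC1) with H = ⊤ and r = x: f g = g • x / x.)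
 r^3 is fixed by every σ (χ σ ^ 3 = 1), so it is algebraMap d (fixed_of_galois in H10/Bridge3.lean or InfiniteGalois.mem_bot_iff_fixed); r ≠ 0 so d ≠ 0.
PROOF of kum3. χ σ := ee s b (f σ) (s, b in Ω). Locally constant: hf.1 composed with a function. χ σ^3 = 1: ee_cube. f (σ τ) = f σ + act h σ (f τ), Kr (act h σ (f τ)) (kr_pm), ee_add, ee (act h σ P) = σ (ee P) (act is pm; ee_pm with φ = σ, σ fixes algebraMap s, algebraMap b).
-/

set_option autoImplicit false
open scoped Classical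

open WeierstrassCurve Pool.Agent.H10

namespace H55T3

variable {k Ω : Type*} [Field k] [Field Ω] [Algebra k Ω] [IsGalois k Ω]

theorem hilb {χ : (Ω ≃ₐ[k] Ω) → Ω} (hl : IsLocallyConstant χ) (h3 : ∀ σ, χ σ ^ 3 = 1)
    (hmul : ∀ σ τ, χ (σ * τ) = χ σ * σ (χ τ)) :
    ∃ (r : Ω) (d : k), r ≠ 0 ∧ d ≠ 0 ∧ r ^ 3 = algebraMap k Ω d ∧ ∀ σ, σ r = χ σ * r := by
  have h1 : χ 1 = 1 := by
    have h2 := hmul 1 1
    have h3' := h3 1
    have h0 : χ 1 ≠ 0 := by
      intro h0
      rw [h0, zero_pow (by norm_num)] at h3'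
      exact zero_ne_one h3'
    rw [mul_one] at h2
    have h4 : χ 1 * 1 = χ 1 * χ 1 := by
      rw [mul_one]
      exact h2
    exact (mul_left_cancel₀ h0 h4).symm
  obtain ⟨E, hE⟩ := (lc_iff χ).1 hl 1
  have hne : ∀ σ, χ σ ≠ 0 := by
    intro σ h0
    have h3' := h3 σ
    rw [h0, zero_pow (by norm_num)] at h3'
    exact zero_ne_one h3'
  have hfin3 : {z : Ω | z ^ 3 = 1}.Finite := by
    refine (Polynomial.nthRootsFinset 3 (1 : Ω)).finite_toSet.subset ?_
    intro z hz
    rw [Finset.mem_coe, Polynomial.mem_nthRootsFinset (by norm_num)]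
    exact hz
  have hRfin : ((E : Set Ω) ∪ {z : Ω | z ^ 3 = 1}).Finite := E.finite_toSet.union hfin3
  have : Finite ((E : Set Ω) ∪ {z : Ω | z ^ 3 = 1} : Set Ω) := hRfin
  obtain ⟨M₀, hM₀⟩ : ∃ M₀ : IntermediateField k Ω,
      M₀ = IntermediateField.adjoin k ((E : Set Ω) ∪ {z : Ω | z ^ 3 = 1}) := ⟨_, rfl⟩
  have hfd : FiniteDimensional k M₀ := by
    rw [hM₀]
    exact IntermediateField.finiteDimensional_adjoin fun x _ => Algebra.IsIntegral.isIntegral x
  have hEM : ∀ x ∈ E, x ∈ M₀ := fun x hx => by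
    rw [hM₀]
    exact IntermediateField.subset_adjoin _ _ (Or.inl hx)
  have h3M : ∀ z : Ω, z ^ 3 = 1 → z ∈ M₀ := fun x hx => by
    rw [hM₀]
    exact IntermediateField.subset_adjoin _ _ (Or.inr hx)
  let M : IntermediateField k Ω := IntermediateField.normalClosure k M₀ Ω
  have hle : M₀ ≤ M := IntermediateField.le_normalClosure M₀
  have hfin : FiniteDimensional k M := normalClosure.is_finiteDimensional k M₀ Ω
  have hn : Normal k M := normalClosure.normal k M₀ Ω
  have hsep : Algebra.IsSeparable k M := inferInstance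
  have hgal : IsGalois k M := { }
  have hχ : ∀ σ τ : Ω ≃ₐ[k] Ω, (∀ x : M, σ x = τ x) → χ σ = χ τ := by
    intro σ τ h
    have h2 : χ (τ⁻¹ * σ) = 1 := by
      rw [← h1]
      apply hE
      intro x hx
      have := h ⟨x, hle (hEM x hx)⟩
      simp only at this
      rw [AlgEquiv.mul_apply, this]
      exact τ.symm_apply_apply x
    have h5 : σ = τ * (τ⁻¹ * σ) := by group
    rw [h5, hmul, h2, map_one, mul_one]
  have hlift : ∀ (s : M ≃ₐ[k] M) (x : M), s.liftNormal Ω x = s x := fun s x ↦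
    AlgEquiv.liftNormal_commutes s Ω x
  let f : (M ≃ₐ[k] M) → Mˣ := fun s ↦
    Units.mk0 ⟨χ (s.liftNormal Ω), hle (h3M _ (h3 _))⟩ (fun h => hne _ (congrArg Subtype.val h))
  have hf : groupCohomology.IsMulCocycle₁ f := by
    intro g h
    have h1 : χ ((g * h).liftNormal Ω) = χ (g.liftNormal Ω) * g.liftNormal Ω (χ (h.liftNormal Ω)) := by
      rw [← hmul]
      apply hχ
      intro x
      rw [hlift, AlgEquiv.mul_apply, AlgEquiv.mul_apply, hlift, hlift]
    have h2 : g.liftNormal Ω (χ (h.liftNormal Ω)) =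
        ((g ⟨χ (h.liftNormal Ω), hle (h3M _ (h3 _))⟩ : M) : Ω) :=
      hlift g ⟨χ (h.liftNormal Ω), hle (h3M _ (h3 _))⟩
    ext
    show (χ ((g * h).liftNormal Ω) : Ω) =
      ((g ⟨χ (h.liftNormal Ω), hle (h3M _ (h3 _))⟩ : M) : Ω) * χ (g.liftNormal Ω)
    rw [h1, h2, mul_comm]
  obtain ⟨β, hβ⟩ := groupCohomology.isMulCoboundary₁_of_isMulCocycle₁_of_aut_to_units f hf
  have hσ : ∀ σ : Ω ≃ₐ[k] Ω, σ ((β : M) : Ω) = χ σ * ((β : M) : Ω) := by
    intro σ
    have h1 : ∀ x : M, ((σ.restrictNormal M x : M) : Ω) = σ x := fun x ↦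
      AlgEquiv.restrictNormal_commutes σ M x
    have h2 := hβ (σ.restrictNormal M)
    have h3 : σ.restrictNormal M (β : M) = f (σ.restrictNormal M) * β := by
      rw [← h2, Units.val_div_eq_div_val]
      have h5 : (β : M) ≠ 0 := β.ne_zero
      field_simp
      rfl
    rw [← h1, h3]
    have h4 : χ σ = χ ((σ.restrictNormal M).liftNormal Ω) := by
      apply hχ
      intro x
      rw [hlift, h1]
    rw [h4]
    rfl
  have hr0 : ((β : M) : Ω) ≠ 0 := fun h ↦ β.ne_zero (Subtype.ext h)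
  obtain ⟨d, hd⟩ := fixed_of_galois (k := k) (((β : M) : Ω) ^ 3) (fun σ => by
    rw [map_pow, hσ, mul_pow, h3, one_mul])
  refine ⟨_, d, hr0, ?_, hd.symm, hσ⟩
  rintro rfl
  rw [map_zero] at hd
  exact pow_ne_zero 3 hr0 hd.symm

theorem kum3 {E : WeierstrassCurve Ω} {D a b s : k}
    (hE : Is3 E (algebraMap k Ω D) (algebraMap k Ω a) (algebraMap k Ω b)) (hs : s ^ 2 = D)
    (h : Inv k E) {f : (Ω ≃ₐ[k] Ω) → E.toAffine.Point} (hf : IsCoc h f) (hk : ∀ σ, Kr (f σ)) :
    ∃ (r : Ω) (d : k), r ≠ 0 ∧ d ≠ 0 ∧ r ^ 3 = algebraMap k Ω d ∧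
      ∀ σ, σ r = ee (algebraMap k Ω s) (algebraMap k Ω b) (f σ) * r := by
  have hs' : (algebraMap k Ω s) ^ 2 = algebraMap k Ω D := by rw [← map_pow, hs]
  refine hilb (χ := fun σ => ee (algebraMap k Ω s) (algebraMap k Ω b) (f σ))
    (hf.1.comp fun P => ee (algebraMap k Ω s) (algebraMap k Ω b) P)
    (fun σ => ee_cube hE hs' (hk σ)) (fun σ τ => ?_)
  have h1 := hf.2 σ τ
  have h2 := ee_pm (s := algebraMap k Ω s) (b := algebraMap k Ω b) (φ := (σ : Ω →+* Ω)) (h σ) (f τ)
  have h3 : (σ : Ω →+* Ω) (algebraMap k Ω s) = algebraMap k Ω s := σ.commutes s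
  have h4 : (σ : Ω →+* Ω) (algebraMap k Ω b) = algebraMap k Ω b := σ.commutes b
  rw [h3, h4] at h2
  have hk2 : Kr (act h σ (f τ)) := (kr_pm (h σ) _).2 (hk τ)
  change ee _ _ (f (σ * τ)) = ee _ _ (f σ) * σ (ee _ _ (f τ))
  rw [h1, ee_add hE hs' (hk σ) hk2]
  congr 1

end H55T3
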