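import Pool.Agent.H55.T3.Bc

/-!
Row I0 (about 130 lines): from the kernels of both isogenies to the three-torsion.

Notation: ∂S τ := act (inv_bc L V') τ S - S, cg f := conj (inv_up hV) g f (H11/Conj.lean: isCocycle_conj, isLocTriv_conj, conj_conj, conj_inner, act_cj; act for (inv_up hV).up and for inv_bc L V' agree by rfl (act_up_eq)). cg is additive in f, and cg (∂S) = ∂(act g S) (act_cj).
PROOF. f with 3 f = 0, cocycle, locally trivial; g fixed. F := pf ∘ f is a cocycle, locally trivial (pf_cocycle, pf_locTriv), with values in Kr (kr_psF). By H2 (KT for W'): cg F = F + ∂T', Kr T'. lift_kr: T' = pf S0, 3 S0 = 0.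
 t := cg f - f - ∂S0. pf (t τ) = cg F τ - F τ - ∂T' τ = 0 (pf_sub, pf_conj, pf_act), so Kr (t τ) (psF_eq_zero). t is a cocycle and locally trivial (ShaZ L V' is a subgroup, H10/Func7: conjZ, shaB_le for ∂S0).
 H1 (KT for V'): cg t = t + ∂T, Kr T (3 T = 0 by kr_three).
 Claim: for all j there is S_j with 3 S_j = 0 and conj (g^j) f = f + j • t + ∂S_j: j = 0: S_0 = 0 (conj by 1 is the identity). Step: conj (g^(j+1)) f = cg (conj (g^j) f) (conj_conj, pow_succ') = cg f + j • cg t + cg (∂S_j) = (f + t + ∂S0) + j • (t + ∂T) + ∂(act g S_j).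
 j = n = finrank K L: g^n = τ₀.restrictScalars K (exists_pow_fix), conj_inner: conj (g^n) f = f + ∂(f τ₀). So n • t = ∂(X), X = f τ₀ - S_n, 3 X = 0. 3 ∤ n: choose u, v integers with u n = 1 + 3 v... (3 • t τ = 0 by kr_three): t = u • (n • t) = ∂(u • X).
 So cg f = f + t + ∂S0 = f + ∂(S0 + u • X), 3 (S0 + u X) = 0.
-/

set_option autoImplicit false
open scoped Classical

open WeierstrassCurve IsDedekindDomain NumberField Pool.Agent.H10 Pool.Agent.H11

namespace H55T3

section own

variable {L : Type} [Field L] [NumberField L]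

/-- the coboundary of a point -/
noncomputable def cbd (V' : WeierstrassCurve L)
    (S : (V'.baseChange (AlgebraicClosure L)).toAffine.Point) : Coch L V' :=
  fun τ => act (inv_bc L V') τ S - S

lemma cbd_add (V' : WeierstrassCurve L)
    (S T : (V'.baseChange (AlgebraicClosure L)).toAffine.Point) :
    cbd V' (S + T) = cbd V' S + cbd V' T := by
  funext τ
  show act (inv_bc L V') τ (S + T) - (S + T) =
    (act (inv_bc L V') τ S - S) + (act (inv_bc L V') τ T - T)
  rw [map_add]
  abel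

lemma cbd_neg (V' : WeierstrassCurve L)
    (S : (V'.baseChange (AlgebraicClosure L)).toAffine.Point) :
    cbd V' (-S) = -cbd V' S := by
  funext τ
  show act (inv_bc L V') τ (-S) - (-S) = -(act (inv_bc L V') τ S - S)
  rw [map_neg]
  abel

lemma cbd_zero (V' : WeierstrassCurve L) : cbd V' 0 = 0 := by
  funext τ
  show act (inv_bc L V') τ 0 - 0 = 0
  rw [map_zero, sub_zero]

lemma neg_nsmul' {A : Type*} [AddCommGroup A] (n : ℕ) (t : A) : n • (-t) = -(n • t) :=
  neg_nsmul t n

/-- the coboundaries of the points killed by three -/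
def B3 (V' : WeierstrassCurve L) : AddSubgroup (Coch L V') where
  carrier := {f | ∃ S : (V'.baseChange (AlgebraicClosure L)).toAffine.Point, 3 • S = 0 ∧
    f = cbd V' S}
  add_mem' := by
    rintro _ _ ⟨S, hS, rfl⟩ ⟨T, hT, rfl⟩
    exact ⟨S + T, by rw [nsmul_add, hS, hT, add_zero], (cbd_add V' S T).symm⟩
  zero_mem' := ⟨0, nsmul_zero 3, (cbd_zero V').symm⟩
  neg_mem' := by
    rintro _ ⟨S, hS, rfl⟩
    exact ⟨-S, by rw [neg_nsmul', hS, neg_zero], (cbd_neg V' S).symm⟩

lemma mem_B3 {V' : WeierstrassCurve L} {f : Coch L V'} : f ∈ B3 V' ↔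
    ∃ S : (V'.baseChange (AlgebraicClosure L)).toAffine.Point, 3 • S = 0 ∧ f = cbd V' S :=
  Iff.rfl

lemma cbd_mem_B3 {V' : WeierstrassCurve L}
    {S : (V'.baseChange (AlgebraicClosure L)).toAffine.Point} (hS : 3 • S = 0) :
    cbd V' S ∈ B3 V' := ⟨S, hS, rfl⟩

lemma cbd_mem_shaZ (V' : WeierstrassCurve L)
    (S : (V'.baseChange (AlgebraicClosure L)).toAffine.Point) : cbd V' S ∈ ShaZ L V' := by
  apply shaB_le
  show IsCobound L V' (cbd V' S)
  rw [Pool.Agent.H10.isCobound_iff]
  exact ⟨S, fun _ => rfl⟩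

/-- `n` prime to three -/
lemma mem_of_nsmul {A : Type*} [AddCommGroup A] (B : AddSubgroup A) {n : ℕ} (hn : ¬ 3 ∣ n) {t : A}
    (h1 : n • t ∈ B) (h3 : 3 • t ∈ B) : t ∈ B := by
  have hc : Nat.Coprime n 3 := ((Nat.Prime.coprime_iff_not_dvd Nat.prime_three).2 hn).symm
  have e : (1 : ℤ) = n * n.gcdA 3 + (3 : ℕ) * n.gcdB 3 := by
    rw [← Nat.gcd_eq_gcd_ab, hc.gcd_eq_one, Nat.cast_one]
  have e2 : t = n.gcdA 3 • (n • t) + n.gcdB 3 • (3 • t) := by
    rw [← natCast_zsmul t n, ← natCast_zsmul t 3, ← mul_zsmul, ← mul_zsmul, ← add_zsmul,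
      mul_comm, mul_comm (n.gcdB 3), ← e, one_zsmul]
  rw [e2]
  exact B.add_mem (B.zsmul_mem h1 _) (B.zsmul_mem h3 _)

end own

section own2

variable {K L : Type} [Field K] [NumberField K] [Field L] [NumberField L] [Algebra K L]
  [Normal K L] {V : WeierstrassCurve K} {V' : WeierstrassCurve L}

lemma conj_add' (h : Inv K (V'.baseChange (AlgebraicClosure L)))
    (g : AlgebraicClosure L ≃ₐ[K] AlgebraicClosure L) (f f' : Coch L V') :
    (conj h g (f + f') : Coch L V') = conj h g f + conj h g f' := by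
  funext τ
  show act h g (f (cj g τ) + f' (cj g τ)) = _
  rw [map_add]
  rfl

lemma conj_nsmul' (h : Inv K (V'.baseChange (AlgebraicClosure L)))
    (g : AlgebraicClosure L ≃ₐ[K] AlgebraicClosure L) (m : ℕ) (f : Coch L V') :
    (conj h g (m • f) : Coch L V') = m • (conj h g f : Coch L V') := by
  funext τ
  show act h g (m • f (cj g τ)) = _
  rw [map_nsmul]
  rfl

lemma conj_cbd (hV : V.map (algebraMap K L) = V')
    (g : AlgebraicClosure L ≃ₐ[K] AlgebraicClosure L)
    (S : (V'.baseChange (AlgebraicClosure L)).toAffine.Point) :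
    (conj (inv_up hV) g (cbd V' S) : Coch L V') = cbd V' (act (inv_up hV) g S) := by
  funext τ
  show act (inv_up hV) g (act (inv_bc L V') (cj g τ) S - S) =
    act (inv_bc L V') τ (act (inv_up hV) g S) - act (inv_up hV) g S
  rw [map_sub]
  congr 1
  exact act_cj (inv_up hV) g τ S

lemma conj_one' (h : Inv K (V'.baseChange (AlgebraicClosure L))) (f : Coch L V') :
    (conj h 1 f : Coch L V') = f := by
  funext τ
  unfold conj
  have e : cj (1 : AlgebraicClosure L ≃ₐ[K] AlgebraicClosure L) τ = τ := by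
    ext y
    rfl
  rw [e]
  exact act_one h (f τ)

lemma conj_mem_B3 (hV : V.map (algebraMap K L) = V')
    (g : AlgebraicClosure L ≃ₐ[K] AlgebraicClosure L) {f : Coch L V'} (hf : f ∈ B3 V') :
    (conj (inv_up hV) g f : Coch L V') ∈ B3 V' := by
  obtain ⟨S, hS, rfl⟩ := hf
  rw [conj_cbd hV]
  exact cbd_mem_B3 (by rw [← map_nsmul, hS, map_zero])

end own2

variable {K L : Type} [Field K] [NumberField K] [Field L] [NumberField L] [Algebra K L]
  [IsGalois K L] {V W : WeierstrassCurve K} {V' W' : WeierstrassCurve L} {D a b : K}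

theorem i0 (hn : ¬ 3 ∣ Module.finrank K L) (h : Is3 V D a b) (h' : Is3 W (-3 * D) a (dl D a b))
    (hV : V.map (algebraMap K L) = V') (hW : W.map (algebraMap K L) = W')
    (H1 : KT K L V' (inv_up hV)) (H2 : KT K L W' (inv_up hW)) : CT3 K L V' (inv_up hV) := by
  intro f hf hl hf3 g
  have hL : Is3 V' (algebraMap K L D) (algebraMap K L a) (algebraMap K L b) := h.up hV
  have hL' : Is3 W' (-3 * algebraMap K L D) (algebraMap K L a)
      (dl (algebraMap K L D) (algebraMap K L a) (algebraMap K L b)) := by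
    have := h'.up hW
    rwa [dl_map, map_mul, map_neg, map_ofNat] at this
  have bL := hL.bc (AlgebraicClosure L)
  have bL' := hL'.bcd (AlgebraicClosure L)
  obtain ⟨T', hT', hT2⟩ := H2 (fun τ => pf V' W' (algebraMap K L D) (algebraMap K L a)
    (algebraMap K L b) _ (f τ)) (pf_cocycle hL hL' hf) (pf_locTriv hL hL' hl)
    (fun σ => kr_psF bL bL' (hf3 σ)) g
  obtain ⟨S0, hS0, hS3⟩ := lift_kr bL bL' hT'
  obtain ⟨t, ht⟩ : ∃ t : Coch L V', t = conj (inv_up hV) g f - f - cbd V' S0 := ⟨_, rfl⟩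
  have hfZ : f ∈ ShaZ L V' := ⟨hf, hl⟩
  have hcZ : (conj (inv_up hV) g f : Coch L V') ∈ ShaZ L V' :=
    ⟨isCocycle_conj hV g hf, isLocTriv_conj hV g hf hl⟩
  have htZ : t ∈ ShaZ L V' := by
    rw [ht]
    exact (ShaZ L V').sub_mem ((ShaZ L V').sub_mem hcZ hfZ) (cbd_mem_shaZ V' S0)
  have htK : ∀ τ, Kr (t τ) := by
    intro τ
    rw [← psF_eq_zero bL bL']
    show pf V' W' (algebraMap K L D) (algebraMap K L a) (algebraMap K L b) _ (t τ) = 0
    have e1 : t τ = conj (inv_up hV) g f τ - f τ - (act (inv_bc L V') τ S0 - S0) := by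
      rw [ht]
      rfl
    rw [e1, pf_sub hL hL', pf_sub hL hL', pf_sub hL hL', pf_act hL hL', pf_conj h h' hV hW,
      hT2 τ]
    have e2 : pf V' W' (algebraMap K L D) (algebraMap K L a) (algebraMap K L b)
        (AlgebraicClosure L) S0 = T' := hS0
    rw [e2]
    abel
  obtain ⟨T, hT, hT1⟩ := H1 t htZ.1 htZ.2 htK g
  have hmt : (conj (inv_up hV) g t - t : Coch L V') ∈ B3 V' := by
    refine ⟨T, kr_three bL hT, ?_⟩
    funext τ
    show conj (inv_up hV) g t τ - t τ = act (inv_bc L V') τ T - T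
    rw [hT1 τ, add_sub_cancel_left]
  have hmf : (conj (inv_up hV) g f - f - t : Coch L V') ∈ B3 V' := by
    rw [ht, sub_sub_cancel]
    exact cbd_mem_B3 hS3
  have claim : ∀ j : ℕ, (conj (inv_up hV) (g ^ j) f - f - j • t : Coch L V') ∈ B3 V' := by
    intro j
    induction j with
    | zero =>
      rw [pow_zero, conj_one', sub_self, zero_nsmul, sub_zero]
      exact (B3 V').zero_mem
    | succ j ih =>
      have e1 : (conj (inv_up hV) (g ^ (j + 1)) f : Coch L V') =
          conj (inv_up hV) g (conj (inv_up hV) (g ^ j) f) := by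
        rw [conj_conj, pow_succ']
      have e2 : (conj (inv_up hV) (g ^ j) f : Coch L V') =
          (conj (inv_up hV) (g ^ j) f - f - j • t) + (f + j • t) := by abel
      rw [e1, e2, conj_add', conj_add', conj_nsmul']
      have e3 : (conj (inv_up hV) g (conj (inv_up hV) (g ^ j) f - f - j • t) +
          (conj (inv_up hV) g f + j • conj (inv_up hV) g t) - f - (j + 1) • t : Coch L V') =
          conj (inv_up hV) g (conj (inv_up hV) (g ^ j) f - f - j • t) +
          (conj (inv_up hV) g f - f - t) + j • (conj (inv_up hV) g t - t) := by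
        rw [add_nsmul, one_nsmul, nsmul_sub]
        abel
      rw [e3]
      exact (B3 V').add_mem ((B3 V').add_mem (conj_mem_B3 hV g ih) hmf)
        ((B3 V').nsmul_mem hmt j)
  obtain ⟨τ₀, hτ₀⟩ := exists_pow_fix (K := K) (L := L) g
  have hc : IsCoc (K := L) (inv_up hV : Inv K (V'.baseChange (AlgebraicClosure L))).up f :=
    (isCocycle_iff f).1 hf
  have hin : (conj (inv_up hV) (g ^ Module.finrank K L) f - f : Coch L V') ∈ B3 V' := by
    refine ⟨f τ₀, hf3 τ₀, ?_⟩
    funext τ
    show conj (inv_up hV) (g ^ Module.finrank K L) f τ - f τ =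
      act (inv_bc L V') τ (f τ₀) - f τ₀
    rw [hτ₀, conj_inner hc τ₀ τ, add_sub_cancel_left]
  have hnt : Module.finrank K L • t ∈ B3 V' := by
    have e := (B3 V').sub_mem hin (claim (Module.finrank K L))
    rwa [sub_sub_cancel] at e
  have h3t : 3 • t ∈ B3 V' := by
    have e : 3 • t = 0 := by
      funext τ
      exact kr_three bL (htK τ)
    rw [e]
    exact (B3 V').zero_mem
  have htB : t ∈ B3 V' := mem_of_nsmul (B3 V') hn hnt h3t
  have hfin : (conj (inv_up hV) g f - f : Coch L V') ∈ B3 V' := by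
    have e := (B3 V').add_mem hmf htB
    rwa [sub_add_cancel] at e
  obtain ⟨S, hS, hS2⟩ := hfin
  refine ⟨S, hS, fun τ => ?_⟩
  have e : conj (inv_up hV) g f τ - f τ = act (inv_bc L V') τ S - S := congrFun hS2 τ
  rw [← e]
  abel

end H55T3
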