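import Pool.Agent.H55.T3.Df4
import Pool.Agent.H55.T3.K6b

/-!
Row K7a (about 150 lines): Kummer classes of kernel valued cocycles over `C = L(s)`, general `D`. Compare K6a_same, K6a_opp, K6a_back (K6a.lean) and the end of k5 (K5.lean).

Notation: S, A0, B0 = images of s, a, b in Ω.
PROOF of K7_opp. z := ee S B0 (F g), z ≠ 0 (ee_cube). For τ over C: F (τ g) = F τ + act τ (F g) and F (g (cj g τ)) = F g + act g (F (cj g τ)) (hF.2; τ g = g (cj g τ) in Gal(Ω/L), cj g τ = g⁻¹ τ g is over C as C/L is normal), so act g (F (cj g τ)) = F τ + act τ (F g) - F g.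
 τ (g r) = g ((cj g τ) r) = g (ee S B0 (F (cj g τ))) g r = ee (-S) B0 (act g (F (cj g τ))) g r (apply_cj, ee_pm with φ = g, g S = -S, g B0 = B0) = (ee S B0 (F τ + act τ (F g) - F g))⁻¹ g r (K6a_eeneg) = (ee (F τ))⁻¹ (τ z)⁻¹ z g r (ee_add, ee_neg, ee_pm with φ = τ).
 So τ (g r * r * z) = g r * r * z for all τ over C: fixed_of_galois: y. y^3 = g (r^3) r^3 z^3 = g d * d (z^3 = 1).
PROOF of K7_same. This is the end of k5: (g r)^3 = (r Y)^3, Z := g r/(r Y), Z^3 = 1, Z = ee S B0 T with Kr T (ee_surj). τ (g r) = ee (act g (fC (cj g τ))) g r (g S = S) and τ (g r) = τ (Z r Y) = ee (act τ T) ee (fC τ) r Y; ee_inj as in k5.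
-/

set_option autoImplicit false
open scoped Classical

open WeierstrassCurve IsDedekindDomain NumberField Pool.Agent.H10 Pool.Agent.H11

namespace H55T3

private theorem K7a_ne {Ω : Type*} [Field Ω] {E : WeierstrassCurve Ω} {D A B S : Ω} (h : Is3 E D A B)
    (hs : S ^ 2 = D) {P : E.toAffine.Point} (hP : Kr P) : ee S B P ≠ 0 := by
  intro h0
  have h4 := ee_cube h hs hP
  rw [h0, zero_pow (by norm_num)] at h4
  exact zero_ne_one h4

theorem K7_opp {L C Ω : Type*} [Field L] [Field C] [Field Ω] [Algebra L C] [Algebra C Ω]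
    [Algebra L Ω] [IsScalarTower L C Ω] [Normal L C] [IsGalois C Ω] {E : WeierstrassCurve Ω}
    {D a b : L} (hE : Is3 E (algebraMap L Ω D) (algebraMap L Ω a) (algebraMap L Ω b)) {s : C}
    (hs : s ^ 2 = algebraMap L C D) (hL : Inv L E) {F : (Ω ≃ₐ[L] Ω) → E.toAffine.Point}
    (hF : IsCoc hL F) (hk : ∀ σ, Kr (F σ)) {r : Ω} {d : C} (hr : r ≠ 0)
    (hd : r ^ 3 = algebraMap C Ω d)
    (hr' : ∀ τ : Ω ≃ₐ[C] Ω, τ r = ee (algebraMap C Ω s) (algebraMap L Ω b)
      (F (τ.restrictScalars L)) * r)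
    (g : Ω ≃ₐ[L] Ω) (hg : g (algebraMap C Ω s) = -algebraMap C Ω s) :
    ∃ y : C, algebraMap C Ω y = g r * r * ee (algebraMap C Ω s) (algebraMap L Ω b) (F g) ∧
      ∀ d' : C, g (algebraMap C Ω d) = algebraMap C Ω d' → d' * d = y ^ 3 := by
  have hsE : (algebraMap C Ω s) ^ 2 = algebraMap L Ω D := by
    rw [← map_pow, hs, ← IsScalarTower.algebraMap_apply L C Ω]
  obtain ⟨z, hz⟩ : ∃ z, z = ee (algebraMap C Ω s) (algebraMap L Ω b) (F g) := ⟨_, rfl⟩
  have hz3 : z ^ 3 = 1 := by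
    rw [hz]
    exact ee_cube hE hsE (hk g)
  have hz0 : z ≠ 0 := by
    rw [hz]
    exact K7a_ne hE hsE (hk g)
  have hfix : ∀ τ : Ω ≃ₐ[C] Ω, τ (g r * r * z) = g r * r * z := by
    intro τ
    have e1 : g * (cj g τ).restrictScalars L = τ.restrictScalars L * g := by
      ext x
      exact apply_cj g τ x
    have e2 := hF.2 g ((cj g τ).restrictScalars L)
    rw [e1, hF.2] at e2
    have e3 : act hL g (F ((cj g τ).restrictScalars L)) =
        F (τ.restrictScalars L) + act hL (τ.restrictScalars L) (F g) + -F g := by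
      rw [e2]
      abel
    have k1 : Kr (act hL (τ.restrictScalars L) (F g)) := (kr_pm _ _).2 (hk _)
    have k2 : Kr (act hL g (F ((cj g τ).restrictScalars L))) := (kr_pm _ _).2 (hk _)
    have e4 : ee (algebraMap C Ω s) (algebraMap L Ω b) (act hL (τ.restrictScalars L) (F g)) = τ z := by
      have h1 := ee_pm (s := algebraMap C Ω s) (b := algebraMap L Ω b)
        (φ := ((τ.restrictScalars L : Ω ≃ₐ[L] Ω) : Ω →+* Ω)) (hL (τ.restrictScalars L)) (F g)
      have h2 : ((τ.restrictScalars L : Ω ≃ₐ[L] Ω) : Ω →+* Ω) (algebraMap C Ω s) = algebraMap C Ω s :=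
        τ.commutes s
      have h3 : ((τ.restrictScalars L : Ω ≃ₐ[L] Ω) : Ω →+* Ω) (algebraMap L Ω b) = algebraMap L Ω b :=
        (τ.restrictScalars L).commutes b
      rw [h2, h3, ← hz] at h1
      exact h1
    have e5 : g (ee (algebraMap C Ω s) (algebraMap L Ω b) (F ((cj g τ).restrictScalars L))) =
        (ee (algebraMap C Ω s) (algebraMap L Ω b) (F (τ.restrictScalars L)) * τ z * z⁻¹)⁻¹ := by
      have h1 := ee_pm (s := algebraMap C Ω s) (b := algebraMap L Ω b)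
        (φ := (g : Ω →+* Ω)) (hL g) (F ((cj g τ).restrictScalars L))
      have h2 : (g : Ω →+* Ω) (algebraMap C Ω s) = -algebraMap C Ω s := hg
      have h3 : (g : Ω →+* Ω) (algebraMap L Ω b) = algebraMap L Ω b := g.commutes b
      rw [h2, h3] at h1
      have h4 : ee (-algebraMap C Ω s) (algebraMap L Ω b)
          (act hL g (F ((cj g τ).restrictScalars L))) =
          g (ee (algebraMap C Ω s) (algebraMap L Ω b) (F ((cj g τ).restrictScalars L))) := h1
      rw [← h4, K6a_eeneg hE hsE k2, e3, ee_add hE hsE (kr_add hE (hk _) k1) (kr_neg.2 (hk g)),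
        ee_add hE hsE (hk _) k1, ee_neg hE hsE (hk g), e4, ← hz]
    have e6 : τ (g r) = g (ee (algebraMap C Ω s) (algebraMap L Ω b) (F ((cj g τ).restrictScalars L))) *
        g r := by
      rw [← apply_cj g τ r, hr', map_mul]
    have n1 : ee (algebraMap C Ω s) (algebraMap L Ω b) (F (τ.restrictScalars L)) ≠ 0 :=
      K7a_ne hE hsE (hk _)
    have n2 : τ z ≠ 0 := (map_ne_zero_iff τ τ.injective).2 hz0
    rw [map_mul, map_mul, e6, e5, hr']
    field_simp
  obtain ⟨y, hy⟩ := fixed_of_galois (k := C) (g r * r * z) hfix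
  refine ⟨y, by rw [hy, hz], fun d' hd' => ?_⟩
  apply (algebraMap C Ω).injective
  rw [map_mul, map_pow, hy, ← hd', ← hd, map_pow, mul_pow, mul_pow, hz3, mul_one]

theorem K7_same {K C Ω : Type*} [Field K] [Field C] [Field Ω] [Algebra K C] [Algebra C Ω]
    [Algebra K Ω] [IsScalarTower K C Ω] [Normal K C] {E : WeierstrassCurve Ω}
    {D a b : K} (hE : Is3 E (algebraMap K Ω D) (algebraMap K Ω a) (algebraMap K Ω b)) {s : C}
    (hs : s ^ 2 = algebraMap K C D) (hK : Inv K E) (hC : Inv C E)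
    {fC : (Ω ≃ₐ[C] Ω) → E.toAffine.Point} (hk : ∀ σ, Kr (fC σ)) {r : Ω} {d : C} (hr : r ≠ 0)
    (hd : r ^ 3 = algebraMap C Ω d)
    (hr' : ∀ τ : Ω ≃ₐ[C] Ω, τ r = ee (algebraMap C Ω s) (algebraMap K Ω b) (fC τ) * r)
    (g : Ω ≃ₐ[K] Ω) (hg : g (algebraMap C Ω s) = algebraMap C Ω s) {y : C}
    (hy : g (algebraMap C Ω d) = algebraMap C Ω (d * y ^ 3)) :
    ∃ T : E.toAffine.Point, Kr T ∧ ∀ τ : Ω ≃ₐ[C] Ω,
      conj hK g fC τ = fC τ + (act hC τ T - T) := by
  have hsE : (algebraMap C Ω s) ^ 2 = algebraMap K Ω D := by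
    rw [← map_pow, hs, ← IsScalarTower.algebraMap_apply K C Ω]
  obtain ⟨Y, hY⟩ : ∃ Y, Y = algebraMap C Ω y := ⟨_, rfl⟩
  have e1 : (g r) ^ 3 = r ^ 3 * Y ^ 3 := by
    rw [← map_pow, hd, hy, map_mul, map_pow, ← hd, hY]
  have hgr : g r ≠ 0 := (map_ne_zero_iff g g.injective).2 hr
  have hY0 : Y ≠ 0 := by
    rintro h0
    rw [h0] at e1
    apply hgr
    exact pow_eq_zero_iff (three_ne_zero) |>.1 (by rw [e1]; ring)
  have hrY : r * Y ≠ 0 := mul_ne_zero hr hY0
  obtain ⟨z, hz⟩ : ∃ z, g r = z * (r * Y) := ⟨g r / (r * Y), (div_mul_cancel₀ _ hrY).symm⟩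
  have hz3 : z ^ 3 = 1 := by
    have h1 : z ^ 3 * (r * Y) ^ 3 = 1 * (r * Y) ^ 3 := by
      rw [← mul_pow, ← hz, e1]
      ring
    exact mul_right_cancel₀ (pow_ne_zero 3 hrY) h1
  have hz0 : z ≠ 0 := by
    rintro rfl
    rw [zero_pow three_ne_zero] at hz3
    exact zero_ne_one hz3
  obtain ⟨T, hT, hTz⟩ := ee_surj hE hsE hz3
  refine ⟨T, hT, fun τ => ?_⟩
  have k1 : Kr (conj hK g fC τ) := (kr_pm _ _).2 (hk _)
  have k2 : Kr (act hC τ T) := (kr_pm _ _).2 hT
  have k3 : Kr (act hC τ T - T) := by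
    rw [sub_eq_add_neg]
    exact kr_add hE k2 (kr_neg.2 hT)
  apply ee_inj hE hsE k1 (kr_add hE (hk τ) k3)
  rw [ee_add hE hsE (hk τ) k3, sub_eq_add_neg, ee_add hE hsE k2 (kr_neg.2 hT), ee_neg hE hsE hT,
    hTz]
  have e2 : ee (algebraMap C Ω s) (algebraMap K Ω b) (conj hK g fC τ) =
      g (ee (algebraMap C Ω s) (algebraMap K Ω b) (fC (cj g τ))) := by
    have h1 := ee_pm (s := algebraMap C Ω s) (b := algebraMap K Ω b)
      (φ := (g : Ω →+* Ω)) (hK g) (fC (cj g τ))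
    have h2 : (g : Ω →+* Ω) (algebraMap C Ω s) = algebraMap C Ω s := hg
    have h3 : (g : Ω →+* Ω) (algebraMap K Ω b) = algebraMap K Ω b := g.commutes b
    rw [h2, h3] at h1
    exact h1
  have e3 : ee (algebraMap C Ω s) (algebraMap K Ω b) (act hC τ T) = τ z := by
    have h1 := ee_pm (s := algebraMap C Ω s) (b := algebraMap K Ω b)
      (φ := (τ : Ω →+* Ω)) (hC τ) T
    have h2 : (τ : Ω →+* Ω) (algebraMap C Ω s) = algebraMap C Ω s := τ.commutes s
    have h3 : (τ : Ω →+* Ω) (algebraMap K Ω b) = algebraMap K Ω b := by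
      rw [IsScalarTower.algebraMap_apply K C Ω]
      exact τ.commutes _
    rw [h2, h3, hTz] at h1
    exact h1
  rw [e3]
  have e4 : τ (g r) = ee (algebraMap C Ω s) (algebraMap K Ω b) (conj hK g fC τ) * g r := by
    rw [← apply_cj, hr', map_mul, e2]
  have e5 : τ (g r) = τ z * (ee (algebraMap C Ω s) (algebraMap K Ω b) (fC τ) * r * Y) := by
    rw [hz, map_mul, map_mul, hr', hY, τ.commutes]
  rw [e5, hz] at e4
  have e6 : (ee (algebraMap C Ω s) (algebraMap K Ω b) (conj hK g fC τ)) * z =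
      ee (algebraMap C Ω s) (algebraMap K Ω b) (fC τ) * τ z := by
    apply mul_right_cancel₀ hrY
    rw [mul_assoc, ← e4]
    ring
  rw [← mul_assoc, ← e6, mul_assoc, mul_inv_cancel₀ hz0, mul_one]

end H55T3
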