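import Pool.Agent.H55.T3.K7a

/-!
Row K7b (about 190 lines): the local class is the class of a point over the base field.

PROOF of fix_two. z fixed by all τ with τ S = S (S^2 = D, D not a square in F, characteristic not two). There is τ0 ∈ Gal(Ω/F) with τ0 S = -S: otherwise all τ fix S (τ S = ± S as (τ S)^2 = D), so S ∈ F (fixed_of_galois), contradiction. τ0 τ0 fixes S, so z.
 p := (z + τ0 z)/2, q := (z - τ0 z)/(2 S) are fixed by τ0 and by all τ with τ S = S (τ τ0 = τ0 (τ0⁻¹ τ τ0), the last factor fixes S, so z); every τ with τ S = -S is τ0 times one which fixes S. So p, q ∈ F (fixed_of_galois), z = p + q S.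
PROOF of K7_loc. C is not needed: f τ := act h τ Q - Q is a cocycle with values in Kr. e τ := ee S B0 (f τ), e τ ≠ 0.
 Case Kr Q: z := ee S B0 Q: for τ S = S: e τ = τ z / z (ee_add, ee_neg, ee_pm), so r / z is fixed by these τ: fix_two: r / z = t₁ + t₂ S; cube: r^3 = (t₁ + t₂ S)^3 (z^3 = 1): first alternative (1, S are independent over F: comparison of p + q S = 0 gives p = q = 0).
 Case not Kr Q: u := uu S A0 B0 Q, w := ww S A0 B0 Q. For τ S = S: τ w = e τ w, e τ τ u = u (uu_trans, uu_pm as in Lo.lean), so V := w / r and U := u r are fixed by these τ: V = v₁ + v₂ S. u w is fixed by all τ: for τ S = -S: uu (-S) = ww S and ww (-S) = uu S (definitions),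
 τ u = uu (-S) (act τ Q) = ww S (Q + f τ) = e τ w, τ w = uu S (Q + f τ), e τ τ w = u. So u w = x ∈ F. w^3 - u^3 = S (6 A0 u w + 2 c) (eq_uw), so e := r^3 V^3 = w^3 (r^3 = d₁ + d₂ S) and w^3 = y + S (3 a x + c) where y := (w^3 + u^3)/2 ∈ F
 (fixed by all τ: for τ S = S w^3, u^3 are fixed (e τ^3 = 1), for τ S = -S they are exchanged). y^2 - (S (3 a x + c))^2 = w^3 u^3 = x^3. V ≠ 0: w ≠ 0: if w = 0 then x = 0, y = 0 + ..: from w = 0: w^3 = 0 so y = 0 and 3 a x + c = 0 with x = u w = 0, so c = 0, excluded by hE.hc (c = 9 b + 4 D a^3 ≠ 0).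
 Compare coordinates of (d₁ + d₂ S) (v₁ + v₂ S)^3 = y + S (3 a x + c).
-/

set_option autoImplicit false
open scoped Classical

open WeierstrassCurve IsDedekindDomain NumberField Pool.Agent.H10 Pool.Agent.H11

namespace H55T3

theorem K7b_pm {F Ω : Type*} [Field F] [Field Ω] [Algebra F Ω] {S : Ω} {D : F}
    (hS : S ^ 2 = algebraMap F Ω D) (τ : Ω ≃ₐ[F] Ω) : τ S = S ∨ τ S = -S := by
  apply sq_eq_sq_iff_eq_or_eq_neg.1
  rw [← map_pow, hS, τ.commutes]

theorem fix_two {F Ω : Type*} [Field F] [Field Ω] [Algebra F Ω] [IsGalois F Ω]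
    (h2 : (2 : F) ≠ 0) {S : Ω} {D : F} (hS : S ^ 2 = algebraMap F Ω D) (hD : ∀ z : F, z ^ 2 ≠ D)
    (z : Ω) (hz : ∀ τ : Ω ≃ₐ[F] Ω, τ S = S → τ z = z) :
    ∃ p q : F, z = algebraMap F Ω p + algebraMap F Ω q * S := by
  have hS0 : S ≠ 0 := by
    rintro rfl
    apply hD 0
    apply (algebraMap F Ω).injective
    rw [map_pow, map_zero]
    exact hS
  obtain ⟨τ0, hτ0⟩ : ∃ τ0 : Ω ≃ₐ[F] Ω, τ0 S = -S := by
    by_contra hcon
    have h3 : ∀ τ : Ω ≃ₐ[F] Ω, τ S = S := by
      intro τ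
      rcases K7b_pm hS τ with h | h
      · exact h
      · exact (hcon ⟨τ, h⟩).elim
    obtain ⟨y, hy⟩ := fixed_of_galois (k := F) S h3
    apply hD y
    apply (algebraMap F Ω).injective
    rw [map_pow, hy, hS]
  have hinv : τ0⁻¹ S = -S := by
    have h4 : τ0⁻¹ (τ0 S) = S := by
      rw [← AlgEquiv.mul_apply, inv_mul_cancel, AlgEquiv.one_apply]
    rw [hτ0, map_neg] at h4
    rw [← h4, neg_neg]
    rw [h4]
  have hmin : ∀ τ : Ω ≃ₐ[F] Ω, τ S = -S → τ z = τ0 z := by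
    intro τ hτ
    have h5 : (τ0⁻¹ * τ) z = z := by
      apply hz
      rw [AlgEquiv.mul_apply, hτ, map_neg, hinv, neg_neg]
    have h6 := congrArg τ0 h5
    rw [AlgEquiv.mul_apply, ← AlgEquiv.mul_apply τ0, mul_inv_cancel, AlgEquiv.one_apply] at h6
    exact h6
  have hA : ∀ τ : Ω ≃ₐ[F] Ω, τ S = S → τ (τ0 z) = τ0 z := by
    intro τ hτ
    rw [← AlgEquiv.mul_apply]
    apply hmin
    rw [AlgEquiv.mul_apply, hτ0, map_neg, hτ]
  have hB : ∀ τ : Ω ≃ₐ[F] Ω, τ S = -S → τ (τ0 z) = z := by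
    intro τ hτ
    rw [← AlgEquiv.mul_apply]
    apply hz
    rw [AlgEquiv.mul_apply, hτ0, map_neg, hτ, neg_neg]
  obtain ⟨p, hp⟩ := fixed_of_galois (k := F) (z + τ0 z) (fun τ => by
    rcases K7b_pm hS τ with h | h
    · rw [map_add, hz τ h, hA τ h]
    · rw [map_add, hmin τ h, hB τ h, add_comm])
  obtain ⟨q, hq⟩ := fixed_of_galois (k := F) ((z - τ0 z) / S) (fun τ => by
    rcases K7b_pm hS τ with h | h
    · rw [map_div₀, map_sub, hz τ h, hA τ h, h]
    · rw [map_div₀, map_sub, hmin τ h, hB τ h, h, div_neg, ← neg_div, neg_sub])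
  have h2' : (2 : Ω) ≠ 0 := by
    intro h0
    apply h2
    apply (algebraMap F Ω).injective
    rw [map_ofNat, map_zero, h0]
  refine ⟨p / 2, q / 2, ?_⟩
  rw [map_div₀, map_div₀, hp, hq, map_ofNat]
  field_simp
  ring

theorem K7b_coord {F Ω : Type*} [Field F] [Field Ω] [Algebra F Ω] {S : Ω} {D : F}
    (hS : S ^ 2 = algebraMap F Ω D) (hD : ∀ z : F, z ^ 2 ≠ D) {p q p' q' : F}
    (h : algebraMap F Ω p + algebraMap F Ω q * S = algebraMap F Ω p' + algebraMap F Ω q' * S) :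
    p = p' ∧ q = q' := by
  have hq : q = q' := by
    by_contra hne
    have h1 : q - q' ≠ 0 := sub_ne_zero.2 hne
    have h1' : algebraMap F Ω (q - q') ≠ 0 := (map_ne_zero_iff _ (algebraMap F Ω).injective).2 h1
    have h2 : S = algebraMap F Ω ((p' - p) / (q - q')) := by
      rw [map_div₀, eq_div_iff h1', map_sub, map_sub]
      linear_combination h
    apply hD ((p' - p) / (q - q'))
    apply (algebraMap F Ω).injective
    rw [map_pow, ← h2, hS]
  subst hq
  have h3 := add_right_cancel h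
  exact ⟨(algebraMap F Ω).injective h3, rfl⟩

theorem K7b_neg {k : Type*} [Field k] {W : WeierstrassCurve k} (s a b : k) (P : W.toAffine.Point) :
    uu (-s) a b P = ww s a b P ∧ ww (-s) a b P = uu s a b P := by
  rcases P with _ | ⟨x, y, n⟩
  · exact ⟨rfl, rfl⟩
  · constructor
    · unfold uu ww
      ring
    · unfold uu ww
      ring

theorem K7_loc {F Ω : Type*} [Field F] [Field Ω] [Algebra F Ω] [IsGalois F Ω]
    {E : WeierstrassCurve Ω} {D a b : F}
    (hE : Is3 E (algebraMap F Ω D) (algebraMap F Ω a) (algebraMap F Ω b)) {S : Ω}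
    (hS : S ^ 2 = algebraMap F Ω D) (hD : ∀ z : F, z ^ 2 ≠ D)
    (h : Inv F E) {Q : E.toAffine.Point} (hQ : ∀ τ : Ω ≃ₐ[F] Ω, Kr (act h τ Q - Q))
    {r : Ω} {d₁ d₂ : F} (hr : r ≠ 0) (hd : r ^ 3 = algebraMap F Ω d₁ + algebraMap F Ω d₂ * S)
    (hr' : ∀ τ : Ω ≃ₐ[F] Ω, τ S = S → τ r = ee S (algebraMap F Ω b) (act h τ Q - Q) * r) :
    LocM D a (9 * b + 4 * D * a ^ 3) d₁ d₂ := by
  have h2' : (2 : Ω) ≠ 0 := hE.two
  have h2 : (2 : F) ≠ 0 := by
    intro h0
    apply h2'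
    have h1 := congrArg (algebraMap F Ω) h0
    rwa [map_ofNat, map_zero] at h1
  have he3 : ∀ τ : Ω ≃ₐ[F] Ω, ee S (algebraMap F Ω b) (act h τ Q - Q) ^ 3 = 1 :=
    fun τ => ee_cube hE hS (hQ τ)
  have hne : ∀ τ : Ω ≃ₐ[F] Ω, ee S (algebraMap F Ω b) (act h τ Q - Q) ≠ 0 := by
    intro τ h0
    have h1 := he3 τ
    rw [h0] at h1
    norm_num at h1
  by_cases hK : Kr Q
  · left
    obtain ⟨z, hz⟩ : ∃ z, z = ee S (algebraMap F Ω b) Q := ⟨_, rfl⟩
    have hz3 : z ^ 3 = 1 := by rw [hz]; exact ee_cube hE hS hK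
    have hz0 : z ≠ 0 := by
      intro h0
      rw [h0] at hz3
      norm_num at hz3
    have h1 : ∀ τ : Ω ≃ₐ[F] Ω, τ S = S → ee S (algebraMap F Ω b) (act h τ Q - Q) =
        τ z * z⁻¹ := by
      intro τ hτ
      have h2 : ee S (algebraMap F Ω b) (act h τ Q) = τ z := by
        have h3 := ee_pm (s := S) (b := algebraMap F Ω b)
          (φ := (τ : Ω →+* Ω)) (h τ) Q
        have e1 : (τ : Ω →+* Ω) S = S := hτ
        have e2 : (τ : Ω →+* Ω) (algebraMap F Ω b) = algebraMap F Ω b := τ.commutes b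
        rw [e1, e2, ← hz] at h3
        exact h3
      have h4 : Kr (act h τ Q) := (kr_pm (h τ) Q).2 hK
      rw [sub_eq_add_neg, ee_add hE hS h4 (kr_neg.2 hK), ee_neg hE hS hK, h2, ← hz]
    obtain ⟨t₁, t₂, ht⟩ := fix_two h2 hS hD (r / z) (fun τ hτ => by
      have hτz : τ z ≠ 0 := (map_ne_zero_iff τ τ.injective).2 hz0
      rw [map_div₀, hr' τ hτ, h1 τ hτ]
      field_simp)
    refine ⟨t₁, t₂, ?_⟩
    have h5 : r ^ 3 = (algebraMap F Ω t₁ + algebraMap F Ω t₂ * S) ^ 3 := by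
      rw [← ht, div_pow, hz3, div_one]
    rw [hd] at h5
    apply K7b_coord hS hD
    rw [h5]
    simp only [map_add, map_mul, map_pow, map_ofNat, ← hS]
    ring
  · right
    obtain ⟨u, hu⟩ : ∃ u, u = uu S (algebraMap F Ω a) (algebraMap F Ω b) Q := ⟨_, rfl⟩
    obtain ⟨w, hw⟩ : ∃ w, w = ww S (algebraMap F Ω a) (algebraMap F Ω b) Q := ⟨_, rfl⟩
    have key : ∀ τ : Ω ≃ₐ[F] Ω,
        ee S (algebraMap F Ω b) (act h τ Q - Q) *
          uu S (algebraMap F Ω a) (algebraMap F Ω b) (act h τ Q) = u ∧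
        ww S (algebraMap F Ω a) (algebraMap F Ω b) (act h τ Q) =
          ee S (algebraMap F Ω b) (act h τ Q - Q) * w := by
      intro τ
      obtain ⟨-, h1, h2⟩ := uu_trans hE hS hK (hQ τ)
      rw [add_sub_cancel, ← hu] at h1
      rw [add_sub_cancel, ← hw] at h2
      exact ⟨h1, h2⟩
    have hpm : ∀ τ : Ω ≃ₐ[F] Ω,
        uu (τ S) (algebraMap F Ω a) (algebraMap F Ω b) (act h τ Q) = τ u ∧
        ww (τ S) (algebraMap F Ω a) (algebraMap F Ω b) (act h τ Q) = τ w := by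
      intro τ
      obtain ⟨h3, h4⟩ := uu_pm (s := S) (a := algebraMap F Ω a)
        (b := algebraMap F Ω b) (φ := (τ : Ω →+* Ω)) (h τ) Q
      have e2 : (τ : Ω →+* Ω) (algebraMap F Ω b) = algebraMap F Ω b := τ.commutes b
      have e3 : (τ : Ω →+* Ω) (algebraMap F Ω a) = algebraMap F Ω a := τ.commutes a
      rw [e2, e3] at h3 h4
      rw [← hu] at h3
      rw [← hw] at h4
      exact ⟨h3, h4⟩
    have kP : ∀ τ : Ω ≃ₐ[F] Ω, τ S = S →
        ee S (algebraMap F Ω b) (act h τ Q - Q) * τ u = u ∧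
        τ w = ee S (algebraMap F Ω b) (act h τ Q - Q) * w := by
      intro τ hτ
      obtain ⟨h3, h4⟩ := hpm τ
      obtain ⟨h5, h6⟩ := key τ
      rw [hτ] at h3 h4
      rw [← h3, ← h4]
      exact ⟨h5, h6⟩
    have kM : ∀ τ : Ω ≃ₐ[F] Ω, τ S = -S →
        ee S (algebraMap F Ω b) (act h τ Q - Q) * τ w = u ∧
        τ u = ee S (algebraMap F Ω b) (act h τ Q - Q) * w := by
      intro τ hτ
      obtain ⟨h3, h4⟩ := hpm τ
      obtain ⟨h5, h6⟩ := key τ
      rw [hτ, (K7b_neg _ _ _ _).1] at h3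
      rw [hτ, (K7b_neg _ _ _ _).2] at h4
      rw [← h3, ← h4]
      exact ⟨h5, h6⟩
    obtain ⟨v₁, v₂, hV⟩ := fix_two h2 hS hD (w / r) (fun τ hτ => by
      have h0 := hne τ
      rw [map_div₀, hr' τ hτ, (kP τ hτ).2]
      field_simp)
    obtain ⟨x, hx⟩ := fixed_of_galois (k := F) (u * w) (fun τ => by
      rcases K7b_pm hS τ with hτ | hτ
      · obtain ⟨h3, h4⟩ := kP τ hτ
        rw [map_mul, h4]
        linear_combination w * h3
      · obtain ⟨h3, h4⟩ := kM τ hτ
        rw [map_mul, h4]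
        linear_combination w * h3)
    obtain ⟨y', hy'⟩ := fixed_of_galois (k := F) (w ^ 3 + u ^ 3) (fun τ => by
      have h5 := he3 τ
      rcases K7b_pm hS τ with hτ | hτ
      · obtain ⟨h3, h4⟩ := kP τ hτ
        have h6 : u ^ 3 = τ u ^ 3 := by
          rw [← h3, mul_pow, h5, one_mul, h3]
        rw [map_add, map_pow, map_pow, h4, mul_pow, h5, one_mul, ← h6]
      · obtain ⟨h3, h4⟩ := kM τ hτ
        have h6 : u ^ 3 = τ w ^ 3 := by
          rw [← h3, mul_pow, h5, one_mul]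
        rw [map_add, map_pow, map_pow, h4, mul_pow, h5, one_mul, ← h6, add_comm])
    have h7 := eq_uw hE hS hK
    rw [← hu, ← hw] at h7
    obtain ⟨y, hy⟩ : ∃ y : F, y = y' / 2 := ⟨_, rfl⟩
    have hy2 : algebraMap F Ω y * 2 = w ^ 3 + u ^ 3 := by
      rw [hy, map_div₀, map_ofNat, hy', div_mul_cancel₀ _ h2']
    obtain ⟨c, hc⟩ : ∃ c : F, c = 3 * a * x + (9 * b + 4 * D * a ^ 3) := ⟨_, rfl⟩
    have hc' : algebraMap F Ω c * 2 = 6 * algebraMap F Ω a * u * w + 2 * (9 * algebraMap F Ω b +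
        4 * algebraMap F Ω D * algebraMap F Ω a ^ 3) := by
      rw [hc]
      simp only [map_add, map_mul, map_pow, map_ofNat, hx]
      ring
    have hw3 : w ^ 3 = algebraMap F Ω y + algebraMap F Ω c * S := by
      apply mul_left_cancel₀ h2'
      linear_combination h7 - hy2 - S * hc'
    have hu3 : u ^ 3 = algebraMap F Ω y - algebraMap F Ω c * S := by
      apply mul_left_cancel₀ h2'
      linear_combination (-1 : Ω) * h7 - hy2 + S * hc'
    have hcurve : y ^ 2 = x ^ 3 + D * c ^ 2 := by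
      apply (algebraMap F Ω).injective
      simp only [map_add, map_mul, map_pow, ← hS]
      have h8 : algebraMap F Ω x ^ 3 = w ^ 3 * u ^ 3 := by
        rw [hx]
        ring
      rw [h8, hw3, hu3]
      ring
    have hv : v₁ ≠ 0 ∨ v₂ ≠ 0 := by
      by_contra hcon
      rw [not_or, not_not, not_not] at hcon
      rw [hcon.1, hcon.2, map_zero, zero_mul, add_zero, div_eq_zero_iff] at hV
      have hw0 : w = 0 := by
        rcases hV with h8 | h8
        · exact h8
        · exact (hr h8).elim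
      have hx0 : x = 0 := by
        apply (algebraMap F Ω).injective
        rw [hx, hw0, mul_zero, map_zero]
      have h9 : algebraMap F Ω y + algebraMap F Ω c * S =
          algebraMap F Ω 0 + algebraMap F Ω 0 * S := by
        rw [← hw3, hw0, map_zero]
        ring
      have h10 := (K7b_coord hS hD h9).2
      apply hE.hc
      rw [hc, hx0] at h10
      have h11 := congrArg (algebraMap F Ω) h10
      simp only [map_add, map_mul, map_pow, map_ofNat, map_zero, mul_zero, zero_add] at h11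
      exact h11
    refine ⟨x, y, v₁, v₂, v₁ ^ 3 + 3 * D * v₁ * v₂ ^ 2, 3 * v₁ ^ 2 * v₂ + D * v₂ ^ 3, ?_, hv,
      ⟨rfl, rfl⟩, ?_⟩
    · rw [← hc]
      exact hcurve
    · rw [← hc]
      apply K7b_coord hS hD
      rw [← hw3]
      have h12 : w = r * (algebraMap F Ω v₁ + algebraMap F Ω v₂ * S) := by
        rw [← hV]
        field_simp
      rw [h12, mul_pow, hd]
      simp only [map_add, map_mul, map_pow, map_ofNat, ← hS]
      ring

end H55T3
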