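import Pool.Agent.H55.T3.K7b

/-!
Row K7c (about 120 lines): local solubility at the places of `L` from local triviality. Compare Lo_one, loc3 (Lo.lean).

PROOF. Let v be a place of L, F := v.adicCompletion L, ΩF := AlgebraicClosure F, D not a square in F, d = d₁ + d₂ s. Take ι : AlgebraicClosure L →ₐ[L] ΩF (IsAlgClosed.lift) and ι' := ι ∘ j⁻¹, j = jj L B. TrivAt (isLocTriv_iff, hl) gives Q with pm ι (f σ) = act τ Q - Q whenever τ (ι x) = ι (σ x); for every τ there is such a σ (hres in Lo_one).
 S := ι' (algebraMap B _ s), S^2 = D. r' := ι' r. r'^3 = ι' (algebraMap B _ d) = algebraMap d₁ + algebraMap d₂ * S (ι' is L-linear).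
 If τ S = S then the corresponding σ (over L, in the closure of L) satisfies σ (j⁻¹ s) = j⁻¹ s, so τ' := j σ j⁻¹ fixes s, hence B (hgen for its restriction to B, or: B is generated by s over L), so τ' is over B and F τ' = pm j (f (j⁻¹ τ' j)) = pm j (f σ) (hF; trans), τ' r = ee (..) (F τ') r; apply ι': τ r' = ee S B0 (pm ι (f σ)) r' (ee_pm).
 K7_loc. Is3 over ΩF as in Lo_one.
-/

set_option autoImplicit false
open scoped Classical

open WeierstrassCurve IsDedekindDomain NumberField Pool.Agent.H10 Pool.Agent.H11

namespace H55T3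

theorem k7_loc {L B : Type} [Field L] [NumberField L] [Field B] [NumberField B] [Algebra L B]
    [IsGalois L B] {V' : WeierstrassCurve L} {VB : WeierstrassCurve B} {D a b : L}
    (h : Is3 V' D a b) (hLB : V'.map (algebraMap L B) = VB) {s : B}
    (hs : s ^ 2 = algebraMap L B D) (hgen : ∀ g : B ≃ₐ[L] B, g s = s → g = 1)
    {f : Coch L V'} (hl : IsLocTriv L V' f) (hk : ∀ σ, Kr (f σ))
    {r : AlgebraicClosure B} {d : B} (hr : r ≠ 0)
    (hd : r ^ 3 = algebraMap B (AlgebraicClosure B) d)
    (hr' : ∀ τ : AlgebraicClosure B ≃ₐ[B] AlgebraicClosure B,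
      τ r = ee (algebraMap B (AlgebraicClosure B) s) (algebraMap L (AlgebraicClosure B) b)
        (trans (jj L B) (map_jj hLB) f (τ.restrictScalars L)) * r) :
    FinM s D a (9 * b + 4 * D * a ^ 3) d := by
  intro d₁ d₂ hdd v hD
  rw [isLocTriv_iff] at hl
  have hch : CharZero (v.adicCompletion L) := charZero_of_alg (K := L)
  obtain ⟨ι⟩ : Nonempty (AlgebraicClosure L →ₐ[L] AlgebraicClosure (v.adicCompletion L)) :=
    ⟨IsAlgClosed.lift⟩
  obtain ⟨Q, hQ⟩ := hl.1 v ι
  -- the closure of B
  obtain ⟨ι', hι'⟩ : ∃ ι' : AlgebraicClosure B →ₐ[L] AlgebraicClosure (v.adicCompletion L),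
      ∀ z, ι' z = ι ((jj L B).symm z) :=
    ⟨ι.comp ((jj L B).symm : AlgebraicClosure B →ₐ[L] AlgebraicClosure L), fun z => rfl⟩
  have hE : Is3 (V'.baseChange (AlgebraicClosure (v.adicCompletion L)))
      (algebraMap (v.adicCompletion L) (AlgebraicClosure (v.adicCompletion L))
        (algebraMap L (v.adicCompletion L) D))
      (algebraMap (v.adicCompletion L) (AlgebraicClosure (v.adicCompletion L))
        (algebraMap L (v.adicCompletion L) a))
      (algebraMap (v.adicCompletion L) (AlgebraicClosure (v.adicCompletion L))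
        (algebraMap L (v.adicCompletion L) b)) := by
    have h1 := h.bc (AlgebraicClosure (v.adicCompletion L))
    rw [IsScalarTower.algebraMap_apply L (v.adicCompletion L)
        (AlgebraicClosure (v.adicCompletion L)) D,
      IsScalarTower.algebraMap_apply L (v.adicCompletion L)
        (AlgebraicClosure (v.adicCompletion L)) a,
      IsScalarTower.algebraMap_apply L (v.adicCompletion L)
        (AlgebraicClosure (v.adicCompletion L)) b] at h1
    exact h1
  have hres : ∀ τ : AlgebraicClosure (v.adicCompletion L) ≃ₐ[v.adicCompletion L]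
      AlgebraicClosure (v.adicCompletion L),
      ∃ σ : AlgebraicClosure L ≃ₐ[L] AlgebraicClosure L, ∀ x, τ (ι x) = ι (σ x) := by
    intro τ
    obtain ⟨σ, hσ⟩ := exists_restrict (K := L) (F := v.adicCompletion L) ι τ
    refine ⟨σ, fun x => ?_⟩
    exact congrArg (fun φ : AlgebraicClosure L →ₐ[L]
      AlgebraicClosure (v.adicCompletion L) => φ x) hσ
  have e1 : algebraMap L (v.adicCompletion L) (9 * b + 4 * D * a ^ 3) =
      9 * algebraMap L (v.adicCompletion L) b + 4 * algebraMap L (v.adicCompletion L) D *
        algebraMap L (v.adicCompletion L) a ^ 3 := by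
    simp only [map_add, map_mul, map_pow, map_ofNat]
  rw [e1]
  have hιB : ∀ x : L, ι' (algebraMap B (AlgebraicClosure B) (algebraMap L B x)) =
      algebraMap (v.adicCompletion L) (AlgebraicClosure (v.adicCompletion L))
        (algebraMap L (v.adicCompletion L) x) := by
    intro x
    rw [← IsScalarTower.algebraMap_apply L B (AlgebraicClosure B), ι'.commutes,
      IsScalarTower.algebraMap_apply L (v.adicCompletion L)
        (AlgebraicClosure (v.adicCompletion L))]
  have hιr : ι' r ≠ 0 := by
    intro h0
    exact hr ((map_eq_zero_iff ι' ι'.injective).1 h0)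
  have hS : (ι' (algebraMap B (AlgebraicClosure B) s)) ^ 2 =
      algebraMap (v.adicCompletion L) (AlgebraicClosure (v.adicCompletion L))
        (algebraMap L (v.adicCompletion L) D) := by
    rw [← map_pow, ← map_pow, hs, hιB]
  refine K7_loc (F := v.adicCompletion L) (Ω := AlgebraicClosure (v.adicCompletion L)) hE hS hD
    (inv_bc' V') (Q := Q) (r := ι' r) ?_ hιr ?_ ?_
  · intro τ
    obtain ⟨σ, hσ⟩ := hres τ
    rw [← hQ τ σ hσ, kr_pm]
    exact hk σ
  · rw [← map_pow, hd, hdd, map_add, map_add, map_mul, map_mul, hιB, hιB]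
  · intro τ hτ
    obtain ⟨σ, hσ⟩ := hres τ
    obtain ⟨τ0, hτ0⟩ : ∃ τ0 : AlgebraicClosure B ≃ₐ[L] AlgebraicClosure B,
        ∀ z, τ0 z = jj L B (σ ((jj L B).symm z)) :=
      ⟨((jj L B).symm.trans σ).trans (jj L B), fun z => rfl⟩
    have hι0 : ∀ z, ι' (τ0 z) = τ (ι' z) := by
      intro z
      rw [hι', hτ0, AlgEquiv.symm_apply_apply, ← hσ, ← hι']
    have h1 : τ0 (algebraMap B (AlgebraicClosure B) s) = algebraMap B (AlgebraicClosure B) s := by
      apply ι'.injective
      change ι' _ = ι' _
      rw [hι0]
      exact hτ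
    have h2 : τ0.restrictNormal B = 1 := by
      apply hgen
      apply (algebraMap B (AlgebraicClosure B)).injective
      rw [AlgEquiv.restrictNormal_commutes, h1]
    have h3 : ∀ x : B, τ0 (algebraMap B (AlgebraicClosure B) x) =
        algebraMap B (AlgebraicClosure B) x := by
      intro x
      rw [← AlgEquiv.restrictNormal_commutes, h2, AlgEquiv.one_apply]
    obtain ⟨τ', hτ'⟩ : ∃ τ' : AlgebraicClosure B ≃ₐ[B] AlgebraicClosure B,
        τ'.restrictScalars L = τ0 :=
      ⟨{ τ0 with commutes' := h3 }, AlgEquiv.ext fun z => rfl⟩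
    have hτ'' : τ' r = τ0 r := by rw [← hτ']; rfl
    have h4 := hr' τ'
    rw [hτ'', hτ'] at h4
    have h5 : trans (jj L B) (map_jj hLB) f τ0 =
        pm (jj L B : AlgebraicClosure L →+* AlgebraicClosure B) (map_jj hLB) (f σ) := by
      unfold Pool.Agent.H10.trans
      congr 2
      refine AlgEquiv.ext fun z => ?_
      change (jj L B).symm (τ0 (jj L B z)) = σ z
      rw [hτ0, AlgEquiv.symm_apply_apply, AlgEquiv.symm_apply_apply]
    rw [h5] at h4
    have hmap : (VB.baseChange (AlgebraicClosure B)).map
        (ι' : AlgebraicClosure B →+* AlgebraicClosure (v.adicCompletion L)) =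
        V'.baseChange (AlgebraicClosure (v.adicCompletion L)) := by
      rw [← map_up hLB, WeierstrassCurve.map_map]
      change V'.map _ = V'.map _
      congr 1
      exact ι'.comp_algebraMap
    have h6 := ee_pm (s := algebraMap B (AlgebraicClosure B) s)
      (b := algebraMap L (AlgebraicClosure B) b)
      (φ := (ι' : AlgebraicClosure B →+* AlgebraicClosure (v.adicCompletion L))) hmap
      (pm (jj L B : AlgebraicClosure L →+* AlgebraicClosure B) (map_jj hLB) (f σ))
    have h7 : pm (ι' : AlgebraicClosure B →+* AlgebraicClosure (v.adicCompletion L)) hmap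
        (pm (jj L B : AlgebraicClosure L →+* AlgebraicClosure B) (map_jj hLB) (f σ)) =
        act (inv_bc' V') τ Q - Q := by
      rw [← hQ τ σ hσ, pm_pm]
      apply pm_congr
      intro x
      change ι' (jj L B x) = ι x
      rw [hι', AlgEquiv.symm_apply_apply]
    rw [h7] at h6
    have e2 : (ι' : AlgebraicClosure B →+* AlgebraicClosure (v.adicCompletion L))
        (algebraMap L (AlgebraicClosure B) b) =
        algebraMap (v.adicCompletion L) (AlgebraicClosure (v.adicCompletion L))
          (algebraMap L (v.adicCompletion L) b) := by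
      rw [← IsScalarTower.algebraMap_apply L (v.adicCompletion L)
        (AlgebraicClosure (v.adicCompletion L))]
      exact ι'.commutes b
    rw [e2] at h6
    rw [← hι0, h4, map_mul]
    congr 1
    exact h6.symm

end H55T3
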