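import Pool.Agent.H55.T3.D2r
import Pool.Agent.H55.T3.KD

/-! Pair form of block D for the curves with a rational subgroup of order three, `D` in `𝓞 K` (helper55). -/

set_option autoImplicit false
open scoped Classical

open WeierstrassCurve IsDedekindDomain NumberField Pool.Agent.H10 Pool.Agent.H11

namespace H55T3

section kt

variable {K L : Type} [Field K] [NumberField K] [Field L] [NumberField L] [Algebra K L]
  [IsGalois K L]

theorem kt_realO {A B : Type} [Field A] [NumberField A] [Field B] [NumberField B] [Algebra L B]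
    [Algebra K B] [IsScalarTower K L B] [Algebra K A] [Algebra A B] [IsScalarTower K A B]
    [IsGalois K B] [IsGalois L B] (hodd : Odd (Module.finrank K L)) {D : 𝓞 K} {s : B}
    (hs : s ^ 2 = algebraMap K B (D : K))
    (h2 : Module.finrank L B = 2) (hgen : ∀ g : B ≃ₐ[L] B, g s = s → g = 1)
    (hneg : ∃ g : B ≃ₐ[L] B, g s = -s)
    (hA : ∀ g : B ≃ₐ[K] B, g s = s → ∀ x : A, g (algebraMap A B x) = algebraMap A B x)
    (R : NoNewCubeM L A B s) {α β : 𝓞 K}
    (hgood : ∀ w : HeightOneSpectrum (𝓞 L), (3 : 𝓞 L) ∈ w.asIdeal →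
      GoodVO (w.valuation L) (algebraMap K L (D : K)) (algebraMap K L (α : K))
        (algebraMap K L (β : K)))
    (hbad : ∀ v : HeightOneSpectrum (𝓞 K), 6 * D * β * (27 * β - 4 * D * α ^ 3) ∈ v.asIdeal →
      UniqueOver K L v.asIdeal)
    (hunr : ∀ w : HeightOneSpectrum (𝓞 L), (3 : 𝓞 L) ∈ w.asIdeal →
      w.valuation L 3 = WithZero.exp (-1 : ℤ)) {V : WeierstrassCurve K} {D' a b u t : K}
    (h : Is3 V D' a b) (hD' : D' = u ^ 2 * (D : K)) (hu : u ≠ 0) (ht : t ≠ 0)
    (ha : u * a = t * ((α : K) / 3)) (hc : u * (9 * b + 4 * D' * a ^ 3) = t ^ 3 * β) :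
    KT K L (V.baseChange L) (inv_up rfl) := by
  have huB : algebraMap K B u ≠ 0 := (map_ne_zero_iff _ (algebraMap K B).injective).2 hu
  have hKB : ∀ (g : B ≃ₐ[L] B) (x : K), g (algebraMap K B x) = algebraMap K B x := by
    intro g x
    rw [IsScalarTower.algebraMap_apply K L B, g.commutes]
  refine k7 (B := B) (s := algebraMap K B u * s) h rfl ?_ h2 ?_ ?_ ?_
  · rw [hD', map_mul, mul_pow, hs, map_pow]
  · intro g hg
    apply hgen
    rw [map_mul, hKB] at hg
    exact mul_left_cancel₀ huB hg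
  · obtain ⟨g, hg⟩ := hneg
    exact ⟨g, by rw [map_mul, hKB, hg, mul_neg]⟩
  · intro d hd H HM hJ g hg
    have hg' : g s = s := by
      rw [map_mul, g.commutes] at hg
      exact mul_left_cancel₀ huB hg
    refine k5_arithO (A := A) hs h2 hgen hA R hgood hbad hunr hd ?_ ?_ ?_ hg' (ord_odd hodd hgen hg')
    · intro v
      have hv := H v
      refine locSol_tt (t := algebraMap B (v.adicCompletion B) (algebraMap K B t)) ?_ ?_ ?_ hv
      · rw [Ne, map_eq_zero, map_eq_zero]
        exact ht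
      · rw [← map_mul, ← map_mul, ← map_mul]
        congr 1
        rw [mul_right_comm, ← map_mul, ha, map_mul]
        ring
      · rw [← map_mul, ← map_mul, ← map_pow, ← map_mul]
        congr 1
        rw [mul_right_comm, ← map_mul, hc, map_mul, map_pow]
        ring
    · refine finM_t (t := algebraMap K L t) (u := algebraMap K L u)
        ((map_ne_zero_iff _ (algebraMap K L).injective).2 ht) ?_ ?_ ?_
        ((map_ne_zero_iff _ (algebraMap K L).injective).2 hu) ?_ HM
      · rw [hD', map_mul, map_pow]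
      · rw [← map_mul, ← map_mul, ha]
      · rw [← map_mul, ← map_pow, ← map_mul, hc]
      · rw [← IsScalarTower.algebraMap_apply]
    · intro g' hg'
      exact hJ g' (by rw [map_mul, hKB, hg', mul_neg])

lemma coe_gammaO {D α β : 𝓞 K} :
    ((27 * β - 4 * D * α ^ 3 : 𝓞 K) : K) = 27 * (β : K) - 4 * (D : K) * (α : K) ^ 3 := by
  have h : algebraMap (𝓞 K) K (27 * β - 4 * D * α ^ 3) = 27 * (β : K) - 4 * (D : K) * (α : K) ^ 3 := by
    rw [map_sub, map_mul, map_mul, map_mul, map_pow, map_ofNat, map_ofNat]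
  exact h

variable {C : Type} [Field C]
  [NumberField C] [Algebra L C] [Algebra K C] [IsScalarTower K L C]
  [IsGalois K C] [IsGalois L C]

/-- Block D for a pair of fields and a curve with a rational subgroup of order three. -/
theorem ct3_pairO {A B : Type} [Field A] [NumberField A] [Field B] [NumberField B] [Algebra L B]
    [Algebra K B] [IsScalarTower K L B] [Algebra K A] [Algebra A B] [IsScalarTower K A B]
    [IsGalois K B] [IsGalois L B] (hodd : Odd (Module.finrank K L))
    (h3n : ¬ 3 ∣ Module.finrank K L) {D : 𝓞 K} (hDO : D ≠ 0)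
    {s : B} (hs : s ^ 2 = algebraMap K B (D : K))
    (h2 : Module.finrank L B = 2) (hgen : ∀ g : B ≃ₐ[L] B, g s = s → g = 1)
    (hneg : ∃ g : B ≃ₐ[L] B, g s = -s)
    (hA : ∀ g : B ≃ₐ[K] B, g s = s → ∀ x : A, g (algebraMap A B x) = algebraMap A B x)
    (RR : NoNewCubeM L A B s) {s' : C} (hsC : s' ^ 2 = algebraMap K C (-3 * (D : K)))
    (h2' : Module.finrank L C = 2)
    (hgen' : ∀ g : C ≃ₐ[L] C, g s' = s' → g = 1)
    (hneg' : ∃ g : C ≃ₐ[L] C, g s' = -s') (hab : ∀ g g' : C ≃ₐ[K] C, g * g' = g' * g)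
    (R : NoNewMinus K L C s') {α β : 𝓞 K} (hβ : β ≠ 0) (hγ : 27 * β - 4 * D * α ^ 3 ≠ 0)
    (hgood : ∀ w : HeightOneSpectrum (𝓞 L), (3 : 𝓞 L) ∈ w.asIdeal →
      GoodVO (w.valuation L) (algebraMap K L (D : K)) (algebraMap K L (α : K))
        (algebraMap K L (β : K)))
    (hbad : ∀ v : HeightOneSpectrum (𝓞 K), 6 * D * β * (27 * β - 4 * D * α ^ 3) ∈ v.asIdeal →
      UniqueOver K L v.asIdeal)
    (hunr : ∀ w : HeightOneSpectrum (𝓞 L), (3 : 𝓞 L) ∈ w.asIdeal →
      w.valuation L 3 = WithZero.exp (-1 : ℤ)) (E : WeierstrassCurve K)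
    (hE : E = curWD (D : K) (α : K) (β : K) ∨
      E = curVD (D : K) (α : K) (27 * (β : K) - 4 * (D : K) * (α : K) ^ 3)) :
    (E.baseChange L).IsElliptic ∧ CT3 K L (E.baseChange L) (inv_up rfl) := by
  have hDK : (D : K) ≠ 0 := coe_ne hDO
  have hβ' : (β : K) ≠ 0 := coe_ne hβ
  have hγ' : 27 * (β : K) - 4 * (D : K) * (α : K) ^ 3 ≠ 0 := by
    rw [← coe_gammaO]
    exact coe_ne hγ
  have hbad' : ∀ v : HeightOneSpectrum (𝓞 K),
      6 * D * (27 * β - 4 * D * α ^ 3) ∈ v.asIdeal → UniqueOver K L v.asIdeal := by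
    intro v hv
    apply hbad v
    have e : 6 * D * β * (27 * β - 4 * D * α ^ 3) =
        β * (6 * D * (27 * β - 4 * D * α ^ 3)) := by ring
    rw [e]
    exact v.asIdeal.mul_mem_left _ hv
  rcases hE with rfl | rfl
  · have hE := is3_WD hDK hβ' hγ'
    have hV := is3_VD' hDK hβ' hγ'
    refine ⟨(hE.up (φ := algebraMap K L) rfl).isElliptic, i0 h3n hE hV rfl rfl ?_ ?_⟩
    · refine kt_minusD (α := α) hodd hDO hsC h2' hgen' hneg' hab R hγ hbad' hE (u := 1) (t := 1)
        ?_ one_ne_zero one_ne_zero (by ring) ?_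
      · ring
      · rw [coe_gammaO]
        ring
    · refine kt_realO (A := A) hodd hs h2 hgen hneg hA RR hgood hbad hunr hV (u := 3) (t := 3)
        (by ring) three_ne_zero three_ne_zero (by ring) ?_
      unfold dl
      ring
  · have hE := is3_VD hDK hβ' hγ'
    have hW := is3_WD' hDK hβ' hγ'
    refine ⟨(hE.up (φ := algebraMap K L) rfl).isElliptic, i0 h3n hE hW rfl rfl ?_ ?_⟩
    · refine kt_realO (A := A) hodd hs h2 hgen hneg hA RR hgood hbad hunr hE (u := 1) (t := 9)
        (by ring) one_ne_zero (by norm_num) (by ring) ?_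
      ring
    · refine kt_minusD (α := α) hodd hDO hsC h2' hgen' hneg' hab R hγ hbad' hW (u := 1) (t := 9)
        ?_ one_ne_zero (by norm_num) (by ring) ?_
      · ring
      · rw [coe_gammaO]
        unfold dl
        ring

end kt

end H55T3
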