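import Pool.Agent.H55.T3.PsH

/-!
Row Ke (about 130 lines): the kernel and the character `ee`, `s^2 = D`.

PROOF. A point of the kernel is 0 or (0, y) with y^2 = -3 D b^2 = -3 s^2 b^2 (Is3.eqn with x = 0); z := ee s b (0, y) = (y - s b)/(2 s b), i.e. y = s b (2 z + 1), and y^2 = -3 s^2 b^2 gives z^2 + z + 1 = 0 (s b ≠ 0, char not 2), so z^3 = 1, z ≠ 1 (3 ≠ 0).
ee_cube, ee_inj: from this (ee P = 1 iff P = 0; y is determined by z).
ee_surj: z^3 = 1: z = 1: P = 0; z ≠ 1: z^2 + z + 1 = 0, P = (0, s b (2 z + 1)) is on the curve; nonsingular by `equation_iff_nonsingular` (Is3.isElliptic).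
ee_neg: ee (0, -y) = (-y - s b)/(2 s b) = -1 - z = z^2 = z⁻¹.
ee_add: P = 0 or Q = 0 clear. P = (0, y1), Q = (0, y2), y1^2 = y2^2, so y2 = ±y1. y2 = -y1: Q = -P, ee_neg. y2 = y1 ≠ 0: P + P = -P: use line_sum with l := 3 a s / (2 z + 1)... simpler: exists_line for P + P + R = 0 (R = -(P + P) ≠ 0 as y1 ≠ 0):
   as in PsH (iii): x1 = x2 = 0 gives x3 = 0 and y3 = m = y1, so R = P, P + P = -P, and ee (-P) = z⁻¹ = z^2. (kr_add of PsH also gives x3 = 0: P + P is 0 or (0, ±y1); it is not 0 since P ≠ -P, and if P + P = P then P = 0; so P + P = -P. This is the quickest.)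
kr_three: 3 P = 0 for Kr P: P + P = -P.
ee_pm: φ commutes.
tri_inj: ee P = ee Q → P = Q.
-/

set_option autoImplicit false
open scoped Classical

open WeierstrassCurve Pool.Agent.H10

namespace H55T3

variable {k k' : Type*} [Field k] [Field k'] {W W' : WeierstrassCurve k} {D a b s : k}

theorem Ke_kr (h : Is3 W D a b) {P : W.toAffine.Point} (hP : Kr P) :
    P = 0 ∨ ∃ (y : k) (n : W.toAffine.Nonsingular 0 y), P = .some 0 y n ∧
      y ^ 2 = -3 * D * b ^ 2 := by
  rcases P with _ | ⟨x, y, n⟩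
  · left
    rfl
  · right
    have hx : x = 0 := (kr_some n).1 hP
    subst hx
    refine ⟨y, n, rfl, ?_⟩
    have h1 := h.eqn n
    rw [h1]
    ring

theorem Ke_ne (h : Is3 W D a b) {y : k} (hy : y ^ 2 = -3 * D * b ^ 2) : y ≠ 0 := by
  rintro rfl
  have h1 : (3 : k) * D * b ^ 2 = 0 := by linear_combination hy
  exact mul_ne_zero (mul_ne_zero h.three h.hD) (pow_ne_zero 2 h.hb) h1

theorem Ke_s (h : Is3 W D a b) (hs : s ^ 2 = D) : s ≠ 0 := by
  rintro rfl
  apply h.hD
  rw [← hs]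
  ring

theorem Ke_quad (h : Is3 W D a b) (hs : s ^ 2 = D) {y : k} (hy : y ^ 2 = -3 * D * b ^ 2) :
    ((y - s * b) / (2 * s * b)) ^ 2 + (y - s * b) / (2 * s * b) + 1 = 0 := by
  have h1 := Ke_s h hs
  have h2 := h.hb
  have h3 := h.two
  field_simp
  rw [← hs] at hy
  linear_combination hy

theorem Ke_y (h : Is3 W D a b) (hs : s ^ 2 = D) (y : k) :
    y = s * b * (2 * ((y - s * b) / (2 * s * b)) + 1) := by
  have h1 := Ke_s h hs
  have h2 := h.hb
  have h3 := h.two
  field_simp
  ring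

theorem Ke_dbl (h : Is3 W D a b) {y : k} (n : W.toAffine.Nonsingular 0 y) :
    Affine.Point.some 0 y n + Affine.Point.some 0 y n = -Affine.Point.some 0 y n := by
  have hk : Kr (Affine.Point.some 0 y n) := (kr_some n).2 rfl
  have hy : y ^ 2 = -3 * D * b ^ 2 := by
    rw [h.eqn n]
    ring
  have hy0 := Ke_ne h hy
  obtain ⟨n', hn'⟩ := neg_some h.a₁ h.a₃ n
  rcases Ke_kr h (kr_add h hk hk) with h0 | ⟨y3, n3, h3, hy3⟩
  · exfalso
    have h1 := eq_neg_of_add_eq_zero_left h0
    rw [hn', Affine.Point.some.injEq] at h1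
    have h2 : (2 : k) * y = 0 := by linear_combination h1.2
    exact mul_ne_zero h.two hy0 h2
  · rw [h3]
    have h4 : (y3 - y) * (y3 + y) = 0 := by linear_combination hy3 - hy
    rcases mul_eq_zero.1 h4 with h5 | h5
    · exfalso
      have h6 : y3 = y := sub_eq_zero.1 h5
      subst h6
      have h7 : Affine.Point.some 0 y3 n = 0 := by
        have h8 : Affine.Point.some 0 y3 n + Affine.Point.some 0 y3 n =
          Affine.Point.some 0 y3 n := h3
        exact add_eq_left.1 h8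
      exact Affine.Point.some_ne_zero n h7
    · rw [hn', Affine.Point.some.injEq]
      exact ⟨rfl, eq_neg_of_add_eq_zero_left h5⟩

theorem ee_zero : ee s b (0 : W.toAffine.Point) = 1 := rfl

theorem ee_cube (h : Is3 W D a b) (hs : s ^ 2 = D) {P : W.toAffine.Point} (hP : Kr P) :
    ee s b P ^ 3 = 1 := by
  rcases Ke_kr h hP with rfl | ⟨y, n, rfl, hy⟩
  · rw [ee_zero, one_pow]
  · have h1 := Ke_quad h hs hy
    change ((y - s * b) / (2 * s * b)) ^ 3 = 1
    linear_combination ((y - s * b) / (2 * s * b) - 1) * h1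

theorem ee_inj (h : Is3 W D a b) (hs : s ^ 2 = D) {P Q : W.toAffine.Point} (hP : Kr P) (hQ : Kr Q)
    (he : ee s b P = ee s b Q) : P = Q := by
  have key : ∀ y : k, y ^ 2 = -3 * D * b ^ 2 → (y - s * b) / (2 * s * b) ≠ 1 := by
    intro y hy h1
    have h2 := Ke_quad h hs hy
    rw [h1] at h2
    apply h.three
    linear_combination h2
  rcases Ke_kr h hP with rfl | ⟨y, n, rfl, hy⟩
  · rcases Ke_kr h hQ with rfl | ⟨y', n', rfl, hy'⟩
    · rfl
    · exact absurd he.symm (key y' hy')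
  · rcases Ke_kr h hQ with rfl | ⟨y', n', rfl, hy'⟩
    · exact absurd he (key y hy)
    · have he' : (y - s * b) / (2 * s * b) = (y' - s * b) / (2 * s * b) := he
      have h1 : y = y' := by
        rw [Ke_y h hs y, Ke_y h hs y', he']
      subst h1
      rfl

theorem ee_surj (h : Is3 W D a b) (hs : s ^ 2 = D) {z : k} (hz : z ^ 3 = 1) :
    ∃ P : W.toAffine.Point, Kr P ∧ ee s b P = z := by
  by_cases h1 : z = 1
  · exact ⟨0, kr_zero, by rw [ee_zero, h1]⟩
  · have h2 : (z - 1) * (z ^ 2 + z + 1) = 0 := by linear_combination hz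
    have h3 : z ^ 2 + z + 1 = 0 := by
      rcases mul_eq_zero.1 h2 with h4 | h4
      · exact absurd (sub_eq_zero.1 h4) h1
      · exact h4
    have h5 := h.isElliptic
    have heq : W.toAffine.Equation 0 (s * b * (2 * z + 1)) := by
      rw [Affine.equation_iff, h.a₁, h.a₂, h.a₃, h.a₄, h.a₆, ← hs]
      linear_combination 4 * s ^ 2 * b ^ 2 * h3
    have n : W.toAffine.Nonsingular 0 (s * b * (2 * z + 1)) :=
      (Affine.equation_iff_nonsingular (W := W)).1 heq
    refine ⟨.some 0 _ n, (kr_some n).2 rfl, ?_⟩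
    change (s * b * (2 * z + 1) - s * b) / (2 * s * b) = z
    have h6 := Ke_s h hs
    have h7 := h.hb
    have h8 := h.two
    field_simp
    ring

theorem Ke_negval (h : Is3 W D a b) (hs : s ^ 2 = D) (y : k) :
    (-y - s * b) / (2 * s * b) = -1 - (y - s * b) / (2 * s * b) := by
  have h6 := Ke_s h hs
  have h7 := h.hb
  have h8 := h.two
  field_simp
  ring

theorem ee_neg (h : Is3 W D a b) (hs : s ^ 2 = D) {P : W.toAffine.Point} (hP : Kr P) :
    ee s b (-P) = (ee s b P)⁻¹ := by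
  rcases Ke_kr h hP with rfl | ⟨y, n, rfl, hy⟩
  · rw [neg_zero, ee_zero, inv_one]
  · obtain ⟨n', hn'⟩ := neg_some h.a₁ h.a₃ n
    rw [hn']
    change (-y - s * b) / (2 * s * b) = ((y - s * b) / (2 * s * b))⁻¹
    have h1 := Ke_quad h hs hy
    rw [Ke_negval h hs]
    apply eq_inv_of_mul_eq_one_left
    linear_combination -h1

theorem ee_add (h : Is3 W D a b) (hs : s ^ 2 = D) {P Q : W.toAffine.Point} (hP : Kr P) (hQ : Kr Q) :
    ee s b (P + Q) = ee s b P * ee s b Q := by
  have hne : ∀ R : W.toAffine.Point, Kr R → ee s b R ≠ 0 := by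
    intro R hR h0
    have h1 := ee_cube h hs hR
    rw [h0, zero_pow (by norm_num)] at h1
    exact zero_ne_one h1
  rcases Ke_kr h hP with rfl | ⟨y, n, rfl, hy⟩
  · rw [zero_add, ee_zero, one_mul]
  · rcases Ke_kr h hQ with rfl | ⟨y', n', rfl, hy'⟩
    · rw [add_zero, ee_zero, mul_one]
    · have h4 : (y' - y) * (y' + y) = 0 := by linear_combination hy' - hy
      rcases mul_eq_zero.1 h4 with h5 | h5
      · have h6 : y' = y := sub_eq_zero.1 h5
        subst h6
        rw [Ke_dbl h n, ee_neg h hs hP]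
        have h7 := ee_cube h hs hP
        apply inv_eq_of_mul_eq_one_left
        rw [← h7]
        ring
      · have h6 : y' = -y := eq_neg_of_add_eq_zero_left h5
        subst h6
        obtain ⟨n'', hn''⟩ := neg_some h.a₁ h.a₃ n
        have h8 : Affine.Point.some 0 (-y) n' = -Affine.Point.some 0 y n := by
          rw [hn'']
        rw [h8, ee_neg h hs hP, add_neg_cancel, ee_zero, mul_inv_cancel₀ (hne _ hP)]

theorem kr_three (h : Is3 W D a b) {P : W.toAffine.Point} (hP : Kr P) : 3 • P = 0 := by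
  rcases Ke_kr h hP with rfl | ⟨y, n, rfl, hy⟩
  · rw [smul_zero]
  · have h1 := Ke_dbl h n
    have h2 : (3 : ℕ) • Affine.Point.some 0 y n =
        Affine.Point.some 0 y n + Affine.Point.some 0 y n + Affine.Point.some 0 y n := by
      rw [show (3 : ℕ) = 2 + 1 from rfl, add_smul, two_smul, one_smul]
    rw [h2, h1, neg_add_cancel]

theorem ee_pm {φ : k →+* k'} {W₁ : WeierstrassCurve k'} (hW : W.map φ = W₁) (P : W.toAffine.Point) :
    ee (φ s) (φ b) (pm φ hW P) = φ (ee s b P) := by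
  rcases P with _ | ⟨x, y, n⟩
  · exact (map_one φ).symm
  · rw [pm_some]
    change (φ y - φ s * φ b) / (2 * φ s * φ b) = φ ((y - s * b) / (2 * s * b))
    rw [map_div₀, map_sub, map_mul, map_mul, map_mul, map_ofNat]

/-- Kernel points over a field containing `3 c` ... : the rational kernel when `D = -3 r^2`: the points
`0, (0, ±3 r b)` -/
theorem kr_rat (h : Is3 W D a b) {r : k} (hr : D = -3 * r ^ 2) {P : W.toAffine.Point} (hP : Kr P) :
    P = 0 ∨ ∃ (y : k) (n : W.toAffine.Nonsingular 0 y), P = .some 0 y n ∧ (y = 3 * r * b ∨ y = -(3 * r * b)) := by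
  rcases Ke_kr h hP with h0 | ⟨y, n, hP', hy⟩
  · exact Or.inl h0
  · right
    refine ⟨y, n, hP', ?_⟩
    rw [hr] at hy
    have h1 : y ^ 2 = (3 * r * b) ^ 2 := by
      rw [hy]
      ring
    exact sq_eq_sq_iff_eq_or_eq_neg.1 h1

end H55T3
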