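import Pool.Agent.H55.T3.Df

/-!
Row Ln (about 140 lines): three collinear points, for `y^2 = x^3 + a₂ x^2 + a₄ x + a₆` (`a₁ = a₃ = 0`), characteristic not `2`.

PROOF. `negY x y = -y` here. Write f(x) = x^3 + a₂ x^2 + a₄ x + a₆.
line_sum: y_i = l x_i + m. Show P1 + P2 = -P3 = (x3, -(l x3 + m)).
 * x1 ≠ x2: `Affine.Point.add_of_X_ne`/`add_some`; slope = (y1 - y2)/(x1 - x2) = l; addX = l^2 - a₂ - x1 - x2 = x3 by e1; addY = -(l (x3 - x1) + y1) = -(l x3 + m).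
 * x1 = x2: then y1 = y2. If y1 = 0: f(x1) = 0 (equation) and f'(x1) = 0: from e1, e2 with x2 = x1: x3 = l^2 - a₂ - 2 x1, x1^2 + 2 x1 x3 = a₄ - 2 l m, so 3 x1^2 + 2 a₂ x1 + a₄ = 2 l (l x1 + m) = 0: contradiction with `Nonsingular` (`Affine.nonsingular_iff`).
   If y1 ≠ 0: y1 ≠ negY (char not 2), `add_self_of_Y_ne`; slope (slope_of_Y_ne) = (3 x1^2 + 2 a₂ x1 + a₄)/(2 y1) = l by the same identity; then as before.
exists_line: P3 = -(P1 + P2), P3 ≠ 0, so not (x1 = x2 and y1 = -y2). l := slope x1 x2 y1 y2, m := y1 - l x1. `add_some` gives x3 = l^2 - a₂ - x1 - x2 and y3 = l (x3 - x1) + y1 = l x3 + m.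
 y2 = l x2 + m: if x1 ≠ x2 by definition of the slope, if x1 = x2 then y1 = y2 (Y_eq_of_X_eq). e1 clear. e2, e3: the polynomial f(x) - (l x + m)^2 = x^3 + (a₂ - l^2) x^2 + (a₄ - 2 l m) x + (a₆ - m^2) vanishes at x1 (equation of P1);
 x1 ≠ x2: it vanishes at x2 too; divide the difference by x1 - x2: x1^2 + x1 x2 + x2^2 - (x1 + x2 + x3)(x1 + x2) + (a₄ - 2 l m) = 0, which is e2; then e3 from the vanishing at x1.
 x1 = x2: its derivative at x1 vanishes: 3 x1^2 + 2 (a₂ - l^2) x1 + (a₄ - 2 l m) = 0 (definition of the tangent slope, 2 y1 ≠ 0), i.e. e2; e3 from the vanishing at x1.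
-/

set_option autoImplicit false
open scoped Classical

open WeierstrassCurve

namespace H55T3

variable {k : Type*} [Field k] {W : WeierstrassCurve k}

theorem Ln_negY (h1 : W.a₁ = 0) (h3 : W.a₃ = 0) (x y : k) : W.toAffine.negY x y = -y := by
  simp [Affine.negY, h1, h3]

theorem Ln_addX (h1 : W.a₁ = 0) (x₁ x₂ l : k) :
    W.toAffine.addX x₁ x₂ l = l ^ 2 - W.a₂ - x₁ - x₂ := by
  simp [Affine.addX, h1]

theorem Ln_addY (h1 : W.a₁ = 0) (h3 : W.a₃ = 0) (x₁ x₂ y₁ l : k) :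
    W.toAffine.addY x₁ x₂ y₁ l = -(l * (l ^ 2 - W.a₂ - x₁ - x₂ - x₁) + y₁) := by
  rw [Affine.addY, Ln_negY h1 h3, Affine.negAddY, Ln_addX h1]

theorem Ln_eq (h1 : W.a₁ = 0) (h3 : W.a₃ = 0) {x y : k} (h : W.toAffine.Equation x y) :
    y ^ 2 = x ^ 3 + W.a₂ * x ^ 2 + W.a₄ * x + W.a₆ := by
  rw [Affine.equation_iff] at h
  simp only [h1, h3, zero_mul, add_zero] at h
  exact h

/-- the sum of two points by the slope -/
theorem Ln_key (h1 : W.a₁ = 0) (h3 : W.a₃ = 0) {x₁ x₂ x₃ y₁ y₂ y₃ l m : k}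
    (n₁ : W.toAffine.Nonsingular x₁ y₁) (n₂ : W.toAffine.Nonsingular x₂ y₂)
    (n₃ : W.toAffine.Nonsingular x₃ y₃) (hy₁ : y₁ = l * x₁ + m)
    (hy₃ : y₃ = l * x₃ + m) (e1 : x₁ + x₂ + x₃ = l ^ 2 - W.a₂)
    (hxy : ¬(x₁ = x₂ ∧ y₁ = W.toAffine.negY x₂ y₂)) (hs : W.toAffine.slope x₁ x₂ y₁ y₂ = l) :
    Affine.Point.some x₁ y₁ n₁ + Affine.Point.some x₂ y₂ n₂ + Affine.Point.some x₃ y₃ n₃ = 0 := by
  rw [Affine.Point.add_some hxy, add_eq_zero_iff_eq_neg, Affine.Point.neg_some,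
    Affine.Point.some.injEq, hs, Ln_addX h1, Ln_addY h1 h3, Ln_negY h1 h3]
  constructor
  · linear_combination -e1
  · rw [hy₁, hy₃]
    linear_combination l * e1

theorem Ln_slope (h1 : W.a₁ = 0) (h3 : W.a₃ = 0) {x₁ x₂ y₁ y₂ : k} (hx : x₁ = x₂)
    (hy : y₁ ≠ W.toAffine.negY x₂ y₂) (hyy : y₁ = y₂) :
    W.toAffine.slope x₁ x₂ y₁ y₂ * (2 * y₁) = 3 * x₁ ^ 2 + 2 * W.a₂ * x₁ + W.a₄ := by
  rw [Affine.slope_of_Y_ne hx hy]
  subst hx hyy
  rw [Ln_negY h1 h3] at hy ⊢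
  have h : y₁ - -y₁ ≠ 0 := sub_ne_zero.2 hy
  have h' : (2 : k) * y₁ = y₁ - -y₁ := by ring
  rw [h', div_mul_cancel₀ _ h, h1]
  ring

theorem line_sum (h1 : W.a₁ = 0) (h3 : W.a₃ = 0) (two : (2 : k) ≠ 0) {x₁ x₂ x₃ y₁ y₂ y₃ l m : k}
    (n₁ : W.toAffine.Nonsingular x₁ y₁) (n₂ : W.toAffine.Nonsingular x₂ y₂)
    (n₃ : W.toAffine.Nonsingular x₃ y₃) (hy₁ : y₁ = l * x₁ + m) (hy₂ : y₂ = l * x₂ + m)
    (hy₃ : y₃ = l * x₃ + m) (e1 : x₁ + x₂ + x₃ = l ^ 2 - W.a₂)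
    (e2 : x₁ * x₂ + x₁ * x₃ + x₂ * x₃ = W.a₄ - 2 * l * m) (e3 : x₁ * x₂ * x₃ = m ^ 2 - W.a₆) :
    Affine.Point.some x₁ y₁ n₁ + Affine.Point.some x₂ y₂ n₂ + Affine.Point.some x₃ y₃ n₃ = 0 := by
  have _ := e3
  by_cases hx : x₁ = x₂
  · have hyy : y₁ = y₂ := by rw [hy₁, hy₂, hx]
    have ht : 3 * x₁ ^ 2 + 2 * W.a₂ * x₁ + W.a₄ = 2 * l * y₁ := by
      rw [← hx] at e1 e2
      rw [hy₁]
      linear_combination 2 * x₁ * e1 - e2
    by_cases h0 : y₁ = 0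
    · exfalso
      have hns := (Affine.nonsingular_iff x₁ y₁).1 n₁
      rcases hns.2 with h | h
      · apply h
        rw [h1, ht, h0]
        ring
      · apply h
        rw [h1, h3, h0]
        ring
    · have hne : y₁ ≠ W.toAffine.negY x₂ y₂ := by
        rw [Ln_negY h1 h3, ← hyy]
        intro h
        apply h0
        have h2 : 2 * y₁ = 0 := by linear_combination h
        exact (mul_eq_zero.1 h2).resolve_left two
      refine Ln_key h1 h3 n₁ n₂ n₃ hy₁ hy₃ e1 (fun h => hne h.2) ?_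
      have hs := Ln_slope h1 h3 hx hne hyy
      rw [ht] at hs
      apply mul_right_cancel₀ (mul_ne_zero two h0)
      rw [hs]
      ring
  · refine Ln_key h1 h3 n₁ n₂ n₃ hy₁ hy₃ e1 (fun h => hx h.1) ?_
    rw [Affine.slope_of_X_ne hx, hy₁, hy₂, div_eq_iff (sub_ne_zero.2 hx)]
    ring

theorem exists_line (h1 : W.a₁ = 0) (h3 : W.a₃ = 0) (two : (2 : k) ≠ 0) {x₁ x₂ x₃ y₁ y₂ y₃ : k}
    {n₁ : W.toAffine.Nonsingular x₁ y₁} {n₂ : W.toAffine.Nonsingular x₂ y₂}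
    {n₃ : W.toAffine.Nonsingular x₃ y₃}
    (h : Affine.Point.some x₁ y₁ n₁ + Affine.Point.some x₂ y₂ n₂ + Affine.Point.some x₃ y₃ n₃ = 0) :
    ∃ l m : k, y₁ = l * x₁ + m ∧ y₂ = l * x₂ + m ∧ y₃ = l * x₃ + m ∧
      x₁ + x₂ + x₃ = l ^ 2 - W.a₂ ∧ x₁ * x₂ + x₁ * x₃ + x₂ * x₃ = W.a₄ - 2 * l * m ∧
      x₁ * x₂ * x₃ = m ^ 2 - W.a₆ := by
  have _ := two
  by_cases hxy : x₁ = x₂ ∧ y₁ = W.toAffine.negY x₂ y₂
  · rw [Affine.Point.add_of_Y_eq hxy.1 hxy.2, zero_add] at h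
    exact absurd h (Affine.Point.some_ne_zero n₃)
  · rw [Affine.Point.add_some hxy, add_eq_zero_iff_eq_neg, Affine.Point.neg_some,
      Affine.Point.some.injEq, Ln_addX h1, Ln_addY h1 h3, Ln_negY h1 h3] at h
    obtain ⟨hX, hY⟩ := h
    set l := W.toAffine.slope x₁ x₂ y₁ y₂ with hl
    have q1 := Ln_eq h1 h3 n₁.1
    have q2 := Ln_eq h1 h3 n₂.1
    refine ⟨l, y₁ - l * x₁, by ring, ?_, ?_, by linear_combination -hX, ?_⟩
    · by_cases hx : x₁ = x₂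
      · have hy : y₁ ≠ W.toAffine.negY x₂ y₂ := fun h => hxy ⟨hx, h⟩
        have hyy := Affine.Y_eq_of_Y_ne n₁.1 n₂.1 hx hy
        rw [← hyy, ← hx]
        ring
      · have hs : l * (x₁ - x₂) = y₁ - y₂ := by
          rw [hl, Affine.slope_of_X_ne hx, div_mul_cancel₀ _ (sub_ne_zero.2 hx)]
        linear_combination hs
    · linear_combination hY + l * hX
    · have e2 : x₁ * x₂ + x₁ * x₃ + x₂ * x₃ = W.a₄ - 2 * l * (y₁ - l * x₁) := by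
        by_cases hx : x₁ = x₂
        · have hy : y₁ ≠ W.toAffine.negY x₂ y₂ := fun h => hxy ⟨hx, h⟩
          have hyy := Affine.Y_eq_of_Y_ne n₁.1 n₂.1 hx hy
          have hs := Ln_slope h1 h3 hx hy hyy
          rw [← hl] at hs
          rw [← hx] at hX ⊢
          linear_combination hs - 2 * x₁ * hX
        · have hs : l * (x₁ - x₂) = y₁ - y₂ := by
            rw [hl, Affine.slope_of_X_ne hx, div_mul_cancel₀ _ (sub_ne_zero.2 hx)]
          apply mul_right_cancel₀ (sub_ne_zero.2 hx)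
          have hy2 : y₂ = y₁ - l * (x₁ - x₂) := by rw [hs]; ring
          rw [hy2] at q2
          linear_combination q1 - q2 - (x₁ + x₂) * (x₁ - x₂) * hX
      refine ⟨e2, ?_⟩
      linear_combination (-1 : k) * q1 + x₁ * e2 + x₁ ^ 2 * hX

theorem neg_some (h1 : W.a₁ = 0) (h3 : W.a₃ = 0) {x y : k} (n : W.toAffine.Nonsingular x y) :
    ∃ n' : W.toAffine.Nonsingular x (-y), -Affine.Point.some x y n = Affine.Point.some x (-y) n' := by
  have h : W.toAffine.Nonsingular x (-y) := by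
    have h2 := (Affine.nonsingular_neg x y).2 n
    rwa [Ln_negY h1 h3] at h2
  refine ⟨h, ?_⟩
  rw [Affine.Point.neg_some, Affine.Point.some.injEq, Ln_negY h1 h3]
  exact ⟨rfl, rfl⟩

end H55T3
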