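import Pool.Agent.H55.T3.Df2
import Pool.Agent.H5.SW.T2
import Pool.Agent.H5.SW.T0

/-!
Definitions for block M of MP_78d38b_T3 (helper78; no row).
-/

set_option autoImplicit false
open scoped Classical Pointwise

open IsDedekindDomain NumberField Finset

namespace H55T3

/-- `B(φ) = ∑ φ(t)⁻¹ ⌊t / 3⌋` over the units `t` modulo `3 f` -/
noncomputable def Bm (f : ℕ) [NeZero (3 * f)] {Ω : Type*} [Field Ω] (φ : (ZMod (3 * f))ˣ →* Ωˣ) : Ω :=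
  ∑ t : (ZMod (3 * f))ˣ, (((φ t)⁻¹ : Ωˣ) : Ω) * (((t : ZMod (3 * f)).val / 3 : ℕ) : Ω)

/-- the Stickelberger sum `∑ φ(t)⁻¹ ⌊c t / (3 f)⌋` -/
noncomputable def St (f c : ℕ) [NeZero (3 * f)] {Ω : Type*} [Field Ω] (φ : (ZMod (3 * f))ˣ →* Ωˣ) : Ω :=
  ∑ t : (ZMod (3 * f))ˣ, (((φ t)⁻¹ : Ωˣ) : Ω) * ((c * (t : ZMod (3 * f)).val / (3 * f) : ℕ) : Ω)

/-- the class of a nonzero ideal (`1` for the zero ideal) -/
noncomputable def icl {C : Type} [Field C] [NumberField C] (I : Ideal (𝓞 C)) : ClassGroup (𝓞 C) :=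
  if h : I ≠ ⊥ then ClassGroup.mk0 ⟨I, mem_nonZeroDivisors_of_ne_zero h⟩ else 1

end H55T3
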