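import Pool.Agent.H55.T3.MDf

/-!
Row Mb (about 120 lines): `f * St = (1 - φ(h)) B` and the vanishing of `∑ φ(t)⁻¹ (t mod 3)`.

PROOF. `N = 3 f`, `c = h.val`, `c % 3 = 1`; for a unit `t` of `ZMod N` put `a = t.val` and `r = (h * t).val = (c * a) % N` (`ZMod.val_mul`).
`c * a = N * (c * a / N) + r` (`Nat.div_add_mod`). `r % 3 = a % 3` (`r ≡ c a mod 3 f`, hence mod 3, and `c % 3 = 1`: `Nat.mod_mod_of_dvd`).
With `a = 3 (a/3) + a%3`, `r = 3 (r/3) + a%3`, `c = 3 d + 1`: `3 f (ca/N) = (3d+1) (3 (a/3) + a%3) - 3 (r/3) - a%3`, so (divide by 3, in `ℤ` or as an identity of naturals)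
`f * (c*a/N) + r/3 = c * (a/3) + d * (a % 3)`.
Cast to `Ω`, `(c : Ω) = 1` (char 3), multiply by `φ(t)⁻¹` and sum over `t`: `f * St + ∑ φ(t)⁻¹ ((h t).val / 3) = B + d * ∑ φ(t)⁻¹ (a % 3)`.
The last sum is 0 by `sum_mod`, and `∑_t φ(t)⁻¹ ((h t).val/3) = φ(h) ∑_t φ(h t)⁻¹ ((h t).val/3) = φ(h) B` (`Fintype.sum_equiv (Equiv.mulLeft h)`).
`sum_mod`: `S = ∑_t φ(t)⁻¹ (t.val % 3)`; substituting `t → h t`, `(h t).val % 3 = t.val % 3`: `S = φ(h)⁻¹ S`, `φ(h) ≠ 1`, so `S = 0`. (In `stick_formula` no `φ h ≠ 1` is needed if it is `1`?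
No: if `φ h = 1` the formula is not claimed, we assume `φ h ≠ 1`.)
-/

set_option autoImplicit false
open scoped Classical

open Finset

namespace H55T3

theorem val_mul_mod {f : ℕ} [NeZero (3 * f)] (h t : (ZMod (3 * f))ˣ) (hh : (h : ZMod (3 * f)).val % 3 = 1) :
    ((h * t : (ZMod (3 * f))ˣ) : ZMod (3 * f)).val % 3 = (t : ZMod (3 * f)).val % 3 := by
  rw [Units.val_mul, ZMod.val_mul, Nat.mod_mod_of_dvd _ (Dvd.intro _ rfl), Nat.mul_mod, hh]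
  simp

theorem sum_mod {f : ℕ} [NeZero (3 * f)] {Ω : Type*} [Field Ω] (φ : (ZMod (3 * f))ˣ →* Ωˣ)
    (h : (ZMod (3 * f))ˣ) (hh : (h : ZMod (3 * f)).val % 3 = 1) (hφ : φ h ≠ 1) :
    ∑ t : (ZMod (3 * f))ˣ, (((φ t)⁻¹ : Ωˣ) : Ω) * (((t : ZMod (3 * f)).val % 3 : ℕ) : Ω) = 0 := by
  set S := ∑ t : (ZMod (3 * f))ˣ, (((φ t)⁻¹ : Ωˣ) : Ω) * (((t : ZMod (3 * f)).val % 3 : ℕ) : Ω) with hS
  have h1 : S = (((φ h)⁻¹ : Ωˣ) : Ω) * S := by
    have h2 : S = ∑ t : (ZMod (3 * f))ˣ, (((φ (h * t))⁻¹ : Ωˣ) : Ω) *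
        ((((h * t : (ZMod (3 * f))ˣ) : ZMod (3 * f)).val % 3 : ℕ) : Ω) := by
      rw [hS]
      exact (Equiv.sum_comp (Equiv.mulLeft h)
        (fun t : (ZMod (3 * f))ˣ => (((φ t)⁻¹ : Ωˣ) : Ω) * (((t : ZMod (3 * f)).val % 3 : ℕ) : Ω))).symm
    conv_lhs => rw [h2]
    rw [hS, Finset.mul_sum]
    apply Finset.sum_congr rfl
    intro t _
    rw [val_mul_mod h t hh, map_mul, mul_inv, Units.val_mul]
    ring
  have h3 : (((φ h)⁻¹ : Ωˣ) : Ω) ≠ 1 := by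
    intro h4
    apply hφ
    have : (φ h)⁻¹ = 1 := Units.ext h4
    exact inv_eq_one.mp this
  have h5 : ((((φ h)⁻¹ : Ωˣ) : Ω) - 1) * S = 0 := by rw [sub_mul, one_mul, ← h1, sub_self]
  rcases mul_eq_zero.mp h5 with h6 | h6
  · exact absurd (sub_eq_zero.mp h6) h3
  · exact h6

theorem key {f : ℕ} [NeZero (3 * f)] (h t : (ZMod (3 * f))ˣ) (hh : (h : ZMod (3 * f)).val % 3 = 1) :
    f * ((h : ZMod (3 * f)).val * (t : ZMod (3 * f)).val / (3 * f)) +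
      (((h * t : (ZMod (3 * f))ˣ) : ZMod (3 * f)).val / 3) =
    (h : ZMod (3 * f)).val * ((t : ZMod (3 * f)).val / 3) +
      ((h : ZMod (3 * f)).val / 3) * ((t : ZMod (3 * f)).val % 3) := by
  have h1 := val_mul_mod h t hh
  have h2 : ((h * t : (ZMod (3 * f))ˣ) : ZMod (3 * f)).val =
      ((h : ZMod (3 * f)).val * (t : ZMod (3 * f)).val) % (3 * f) := by
    rw [Units.val_mul, ZMod.val_mul]
  rw [h2] at h1 ⊢
  set c := (h : ZMod (3 * f)).val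
  set a := (t : ZMod (3 * f)).val
  have e1 := Nat.div_add_mod (c * a) (3 * f)
  set q := c * a / (3 * f)
  set r := c * a % (3 * f)
  have e2 := Nat.div_add_mod r 3
  have e3 := Nat.div_add_mod a 3
  have e4 := Nat.div_add_mod c 3
  rw [hh] at e4
  rw [h1] at e2
  set r' := r / 3
  set a' := a / 3
  set s := a % 3
  set d := c / 3
  have : 3 * (f * q + r') = 3 * (c * a' + d * s) := by
    have h7 : 3 * (f * q + r') + s = c * a := by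
      rw [← e1, ← e2]; ring
    have h8 : c * a = 3 * (c * a' + d * s) + s := by
      calc c * a = c * (3 * a' + s) := by rw [e3]
        _ = 3 * (c * a') + c * s := by ring
        _ = 3 * (c * a') + (3 * d + 1) * s := by rw [e4]
        _ = _ := by ring
    omega
  omega

theorem stick_formula {f : ℕ} [NeZero (3 * f)] {Ω : Type*} [Field Ω] [CharP Ω 3]
    (φ : (ZMod (3 * f))ˣ →* Ωˣ) (h : (ZMod (3 * f))ˣ) (hh : (h : ZMod (3 * f)).val % 3 = 1) (hφ : φ h ≠ 1) :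
    (f : Ω) * St f (h : ZMod (3 * f)).val φ = (1 - (φ h : Ω)) * Bm f φ := by
  have hc : (((h : ZMod (3 * f)).val : ℕ) : Ω) = 1 := by
    have e4 := Nat.div_add_mod (h : ZMod (3 * f)).val 3
    rw [hh] at e4
    rw [← e4]
    push_cast
    have : ((3 : ℕ) : Ω) = 0 := CharP.cast_eq_zero Ω 3
    push_cast at this
    rw [this]; ring
  have h1 : (f : Ω) * St f (h : ZMod (3 * f)).val φ +
      ∑ t : (ZMod (3 * f))ˣ, (((φ t)⁻¹ : Ωˣ) : Ω) *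
        ((((h * t : (ZMod (3 * f))ˣ) : ZMod (3 * f)).val / 3 : ℕ) : Ω) = Bm f φ +
      (((h : ZMod (3 * f)).val / 3 : ℕ) : Ω) *
        ∑ t : (ZMod (3 * f))ˣ, (((φ t)⁻¹ : Ωˣ) : Ω) * (((t : ZMod (3 * f)).val % 3 : ℕ) : Ω) := by
    unfold St Bm
    rw [Finset.mul_sum, Finset.mul_sum, ← Finset.sum_add_distrib, ← Finset.sum_add_distrib]
    apply Finset.sum_congr rfl
    intro t _
    have hk := congrArg (fun n : ℕ => (n : Ω)) (key h t hh)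
    simp only [Nat.cast_add, Nat.cast_mul] at hk
    rw [hc, one_mul] at hk
    linear_combination (((φ t)⁻¹ : Ωˣ) : Ω) * hk
  have h2 : ∑ t : (ZMod (3 * f))ˣ, (((φ t)⁻¹ : Ωˣ) : Ω) *
        ((((h * t : (ZMod (3 * f))ˣ) : ZMod (3 * f)).val / 3 : ℕ) : Ω) = (φ h : Ω) * Bm f φ := by
    have h3 : Bm f φ = ∑ t : (ZMod (3 * f))ˣ, (((φ (h * t))⁻¹ : Ωˣ) : Ω) *
        ((((h * t : (ZMod (3 * f))ˣ) : ZMod (3 * f)).val / 3 : ℕ) : Ω) := by
      unfold Bm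
      exact (Equiv.sum_comp (Equiv.mulLeft h)
        (fun t : (ZMod (3 * f))ˣ => (((φ t)⁻¹ : Ωˣ) : Ω) * (((t : ZMod (3 * f)).val / 3 : ℕ) : Ω))).symm
    rw [h3, Finset.mul_sum]
    apply Finset.sum_congr rfl
    intro t _
    rw [show (((φ (h * t))⁻¹ : Ωˣ) : Ω) = (((φ h)⁻¹ : Ωˣ) : Ω) * (((φ t)⁻¹ : Ωˣ) : Ω) by
      rw [map_mul, mul_inv, Units.val_mul]]
    have : (φ h : Ω) * (((φ h)⁻¹ : Ωˣ) : Ω) = 1 := by
      rw [← Units.val_mul, mul_inv_cancel, Units.val_one]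
    linear_combination (-(((φ t)⁻¹ : Ωˣ) : Ω) *
        ((((h * t : (ZMod (3 * f))ˣ) : ZMod (3 * f)).val / 3 : ℕ) : Ω)) * this
  rw [sum_mod φ h hh hφ, mul_zero, add_zero, h2] at h1
  linear_combination h1

end H55T3
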