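import Pool.Agent.H55.T3.MDf

/-!
Row Mc (about 130 lines): ideals and their classes under the Galois group.

PROOF. The action of `C ≃ₐ[ℚ] C` on `𝓞 C` is the Mathlib one (`NumberField.RingOfIntegers`, `(g • x : 𝓞 C) = g x` in `C`), on ideals the pointwise one, a `MulSemiringAction`
(`Ideal.pointwise_smul_def : a • S = S.map (MulSemiringAction.toRingHom _ _ a)`, `smul_mul'`, `smul_pow'`, `smul_prod'`, `smul_eq_zero_iff`/inverse).
* `smul_span`: `Ideal.map_span`, `Set.image_singleton`.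
* `smul_isPrincipal`: `J = span {a}`, `smul_span`.
* `smul_ne_bot`: if `h • J = ⊥ = 0` then `J = h⁻¹ • 0 = 0`.
* `isPrincipal_iff_icl`: `icl (J i) = mk0 ⟨J i, _⟩`; `∏ icl (J i)^θ i = mk0 ⟨∏ J i ^ θ i, _⟩` (`map_prod`, `map_pow`, `mk0` is a monoid hom; or induction on `s`), then `ClassGroup.mk0_eq_one_iff`.
* `isPrincipal_of_cube`: `A = ∏ g, (g • I)^θ g`, `b = ∏ g, (g • y)^θ g : 𝓞 C`: `A^3 = ∏ g, (g • I^3)^θ g = ∏ g, span {g • y}^θ g = span {b}` (`Ideal.prod_span_singleton`, `Ideal.span_singleton_pow`). `s ^ 3 = (b : C)`, so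
  `s` is integral over `ℤ` (`IsIntegral.of_pow`), `s = (r : C)`, `r : 𝓞 C`, `r ^ 3 = b`, so `A^3 = span {r}^3`, and `A = span {r}`: cubes are injective on ideals of a Dedekind domain
  (`pow_left_injective` for the normalized / unique-unit cancel monoid `Ideal`, or: `A^3 ∣ B^3 → A ∣ B` (`pow_dvd_pow_iff_dvd`-type lemma for UFDs / GCD monoids, e.g. `(pow_dvd_pow_iff (n:=3))`) both ways and `dvd_antisymm`; see also
  `Pool.Agent.H5.SW.X1` for the same argument with squares, and `Multiset.count` of `normalizedFactors`).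
-/

set_option autoImplicit false
open scoped Classical Pointwise

open IsDedekindDomain NumberField Finset

namespace H55T3

variable {C : Type} [Field C] [NumberField C]

theorem smul_span_single (h : C ≃ₐ[ℚ] C) (a : 𝓞 C) : h • (Ideal.span {a} : Ideal (𝓞 C)) = Ideal.span {h • a} := by
  rw [Ideal.pointwise_smul_def, Ideal.map_span, Set.image_singleton]
  rfl

theorem smul_isPrincipal (h : C ≃ₐ[ℚ] C) {J : Ideal (𝓞 C)} (hJ : J.IsPrincipal) : (h • J).IsPrincipal := by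
  obtain ⟨a, ha⟩ := hJ
  rw [Ideal.submodule_span_eq] at ha
  rw [ha, smul_span_single]
  exact ⟨⟨h • a, rfl⟩⟩

theorem smul_ne_bot (h : C ≃ₐ[ℚ] C) {J : Ideal (𝓞 C)} (hJ : J ≠ ⊥) : h • J ≠ ⊥ := by
  intro h0
  apply hJ
  have h1 : h⁻¹ • (h • J) = J := inv_smul_smul h J
  rw [h0, ← Ideal.zero_eq_bot, smul_zero] at h1
  rw [← h1, Ideal.zero_eq_bot]

theorem Mc_icl {I : Ideal (𝓞 C)} (hI : I ≠ ⊥) :
    icl I = ClassGroup.mk0 ⟨I, mem_nonZeroDivisors_of_ne_zero hI⟩ := by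
  rw [icl, dif_pos hI]

theorem Mc_mul {I J : Ideal (𝓞 C)} (hI : I ≠ ⊥) (hJ : J ≠ ⊥) : icl (I * J) = icl I * icl J := by
  have hIJ : I * J ≠ ⊥ := mul_ne_zero hI hJ
  rw [Mc_icl hI, Mc_icl hJ, Mc_icl hIJ, ← map_mul]
  rfl

theorem Mc_one : icl (1 : Ideal (𝓞 C)) = 1 := by
  have h1 : (1 : Ideal (𝓞 C)) ≠ ⊥ := one_ne_zero
  rw [Mc_icl h1]
  exact map_one _

theorem Mc_pow {I : Ideal (𝓞 C)} (hI : I ≠ ⊥) (n : ℕ) : icl (I ^ n) = icl I ^ n := by
  induction n with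
  | zero => rw [pow_zero, pow_zero, Mc_one]
  | succ n ih =>
    rw [pow_succ, pow_succ, Mc_mul (pow_ne_zero n hI) hI, ih]

theorem Mc_prod {ι : Type*} (s : Finset ι) (J : ι → Ideal (𝓞 C)) (hJ : ∀ i ∈ s, J i ≠ ⊥)
    (θ : ι → ℕ) : ∏ i ∈ s, J i ^ θ i ≠ ⊥ ∧
      icl (∏ i ∈ s, J i ^ θ i) = ∏ i ∈ s, icl (J i) ^ θ i := by
  induction s using Finset.induction_on with
  | empty =>
    rw [Finset.prod_empty, Finset.prod_empty]
    exact ⟨one_ne_zero, Mc_one⟩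
  | insert a s ha ih =>
    obtain ⟨h1, h2⟩ := ih (fun i hi => hJ i (Finset.mem_insert_of_mem hi))
    have h3 : J a ^ θ a ≠ ⊥ := pow_ne_zero _ (hJ a (Finset.mem_insert_self a s))
    rw [Finset.prod_insert ha, Finset.prod_insert ha]
    refine ⟨mul_ne_zero h3 h1, ?_⟩
    rw [Mc_mul h3 h1, h2, Mc_pow (hJ a (Finset.mem_insert_self a s))]

theorem isPrincipal_iff_icl {ι : Type*} (s : Finset ι) (J : ι → Ideal (𝓞 C)) (hJ : ∀ i ∈ s, J i ≠ ⊥)
    (θ : ι → ℕ) : (∏ i ∈ s, J i ^ θ i).IsPrincipal ↔ ∏ i ∈ s, icl (J i) ^ θ i = 1 := by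
  obtain ⟨h1, h2⟩ := Mc_prod s J hJ θ
  rw [← h2, Mc_icl h1, ClassGroup.mk0_eq_one_iff]

theorem ideal_cube_inj {A B : Ideal (𝓞 C)} (h : A ^ 3 = B ^ 3) : A = B := by
  apply dvd_antisymm
  · exact (UniqueFactorizationMonoid.pow_dvd_pow_iff_dvd (n := 3) (by norm_num)).1 h.dvd
  · exact (UniqueFactorizationMonoid.pow_dvd_pow_iff_dvd (n := 3) (by norm_num)).1 h.symm.dvd

theorem isPrincipal_of_cube [IsGalois ℚ C] {y : 𝓞 C} {I : Ideal (𝓞 C)} (hI : I ^ 3 = Ideal.span {y})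
    (θ : (C ≃ₐ[ℚ] C) → ℕ) {s : C} (hs : ∏ g, (g (y : C)) ^ θ g = s ^ 3) :
    (∏ g, (g • I) ^ θ g).IsPrincipal := by
  set b : 𝓞 C := ∏ g : C ≃ₐ[ℚ] C, (g • y) ^ θ g with hb
  have hA : (∏ g : C ≃ₐ[ℚ] C, (g • I) ^ θ g) ^ 3 = Ideal.span {b} := by
    rw [← Finset.prod_pow, hb, ← Ideal.prod_span_singleton]
    apply Finset.prod_congr rfl
    intro g _
    rw [← Ideal.span_singleton_pow, ← pow_mul, mul_comm, pow_mul, ← smul_pow', hI, smul_span_single]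
  have hbs : (b : C) = s ^ 3 := by
    have h1 := map_prod (algebraMap (𝓞 C) C) (fun g : C ≃ₐ[ℚ] C => (g • y) ^ θ g) Finset.univ
    rw [← hs, hb]
    refine h1.trans ?_
    apply Finset.prod_congr rfl
    intro g _
    exact map_pow (algebraMap (𝓞 C) C) (g • y) (θ g)
  have hsint : IsIntegral ℤ s := by
    apply IsIntegral.of_pow (n := 3) (by norm_num)
    rw [← hbs]
    exact NumberField.RingOfIntegers.isIntegral_coe b
  set r : 𝓞 C := ⟨s, hsint⟩ with hr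
  have hrb : r ^ 3 = b := by
    apply NumberField.RingOfIntegers.ext
    rw [hbs]
    exact map_pow (algebraMap (𝓞 C) C) r 3
  have hAr : (∏ g : C ≃ₐ[ℚ] C, (g • I) ^ θ g) = Ideal.span {r} := by
    apply ideal_cube_inj
    rw [hA, Ideal.span_singleton_pow, hrb]
  rw [hAr]
  exact ⟨⟨r, rfl⟩⟩

end H55T3
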