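import Pool.Agent.H55.T3.Ma
import Pool.Agent.H55.T3.Mc

/-!
Row Mk (about 80 lines): the character attached to a non principal ideal with principal cube. Use only the STATEMENTS of Ma, Mc.

PROOF. `e = IsCyclotomicExtension.Rat.galEquivZMod N C : (C ≃ₐ[ℚ] C) ≃* (ZMod N)ˣ`. Apply `exists_char` with `G = (ZMod N)ˣ`, `κ t = icl (e.symm t • I)`.
* `h3`: `(e.symm t • I)^3 = e.symm t • span {y} = span {..}` principal: `isPrincipal_iff_icl` with a singleton index set.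
* `hmul`: `∏ t, κ t ^ θ t = 1` means `∏ t, (e.symm t • I)^θ t` is principal, apply `e.symm h •` (`smul_isPrincipal`, `smul_prod'`/`Finset.smul_prod'`, `smul_pow'`, `smul_smul`, `map_mul`), and back.
* `h1`: `κ 1 = icl I ≠ 1` as `I` is not principal.
The result: for `θ : (C ≃ₐ[ℚ] C) → ℕ`, `θ' = θ ∘ e.symm`: `∏ t, (e.symm t • I)^θ' t = ∏ g, (g • I)^θ g` (`Fintype.prod_equiv e.toEquiv`), same for the sum.
-/

set_option autoImplicit false
open scoped Classical Pointwise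

open IsDedekindDomain NumberField Finset

namespace H55T3

theorem exists_phi (N : ℕ) [NeZero N] {C : Type} [Field C] [NumberField C] [IsCyclotomicExtension {N} ℚ C]
    {y : 𝓞 C} (hy : y ≠ 0) {I : Ideal (𝓞 C)} (hI : I ^ 3 = Ideal.span {y}) (hnp : ¬ I.IsPrincipal) :
    ∃ (Ω : Type) (_ : Field Ω) (_ : CharP Ω 3) (_ : IsAlgClosed Ω) (φ : (ZMod N)ˣ →* Ωˣ),
      ∀ θ : (C ≃ₐ[ℚ] C) → ℕ, (∏ g, (g • I) ^ θ g).IsPrincipal →
        ∑ g, (θ g : Ω) * (φ (IsCyclotomicExtension.Rat.galEquivZMod N C g) : Ω) = 0 := by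
  have hI0 : I ≠ ⊥ := by
    rintro rfl
    apply hy
    have h0 : (⊥ : Ideal (𝓞 C)) ^ 3 = ⊥ := by
      rw [← Ideal.zero_eq_bot, zero_pow three_ne_zero]
    rw [h0] at hI
    exact Ideal.span_singleton_eq_bot.1 hI.symm
  obtain ⟨e, he⟩ : ∃ e : (C ≃ₐ[ℚ] C) ≃* (ZMod N)ˣ, e = IsCyclotomicExtension.Rat.galEquivZMod N C := ⟨_, rfl⟩
  have hnb : ∀ t : (ZMod N)ˣ, e.symm t • I ≠ ⊥ := fun t => smul_ne_bot _ hI0
  have key : ∀ (h : (ZMod N)ˣ) (θ : (ZMod N)ˣ → ℕ),
      (∏ t, icl (e.symm (h * t) • I) ^ θ t = 1 ↔ (∏ t, (e.symm (h * t) • I) ^ θ t).IsPrincipal) := by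
    intro h θ
    exact (isPrincipal_iff_icl univ (fun t => e.symm (h * t) • I) (fun t _ => hnb _) θ).symm
  have key1 : ∀ (θ : (ZMod N)ˣ → ℕ),
      (∏ t, icl (e.symm t • I) ^ θ t = 1 ↔ (∏ t, (e.symm t • I) ^ θ t).IsPrincipal) := by
    intro θ
    exact (isPrincipal_iff_icl univ (fun t => e.symm t • I) (fun t _ => hnb _) θ).symm
  obtain ⟨Ω, iF, iC, iA, φ, hφ⟩ := exists_char (G := (ZMod N)ˣ) (fun t => icl (e.symm t • I)) (by
    intro t
    have h := isPrincipal_iff_icl ({()} : Finset Unit) (fun _ => e.symm t • I) (fun _ _ => hnb t) (fun _ => 3)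
    rw [Finset.prod_singleton, Finset.prod_singleton] at h
    apply h.1
    rw [← smul_pow', hI]
    exact smul_isPrincipal _ ⟨y, rfl⟩) (by
    intro h θ hθ
    rw [key1] at hθ
    show ∏ t, icl (e.symm (h * t) • I) ^ θ t = 1
    rw [key]
    have h2 := smul_isPrincipal (e.symm h) hθ
    have h3 : e.symm h • ∏ t, (e.symm t • I) ^ θ t = ∏ t, (e.symm (h * t) • I) ^ θ t := by
      rw [Finset.smul_prod']
      apply Finset.prod_congr rfl
      intro t _
      rw [smul_pow', smul_smul, map_mul]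
    rwa [h3] at h2) (by
    show icl (e.symm 1 • I) ≠ 1
    rw [map_one, one_smul]
    intro h1
    apply hnp
    have h := isPrincipal_iff_icl ({()} : Finset Unit) (fun _ => I) (fun _ _ => hI0) (fun _ => 1)
    rw [Finset.prod_singleton, Finset.prod_singleton, pow_one, pow_one] at h
    exact h.2 h1)
  refine ⟨Ω, iF, iC, iA, φ, ?_⟩
  intro θ hθ
  rw [← he]
  have h1 : (∏ t, (e.symm t • I) ^ θ (e.symm t)).IsPrincipal := by
    have h2 : ∏ t, (e.symm t • I) ^ θ (e.symm t) = ∏ g, (g • I) ^ θ g :=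
      Fintype.prod_equiv e.symm.toEquiv _ _ (fun t => rfl)
    rw [h2]
    exact hθ
  have h3 := hφ (fun t => θ (e.symm t)) ((key1 _).2 h1)
  rw [← h3]
  apply Fintype.sum_equiv e.toEquiv
  intro g
  show _ = (θ (e.symm (e g)) : Ω) * (φ (e g) : Ω)
  rw [e.symm_apply_apply]

end H55T3
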