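import Pool.Agent.H55.T3.MDf

/-!
Row Mr (about 180 lines): roots of unity of `C = ℚ(ζ)`, `ζ` of order `N = 3 q`, `q = p^(n+1)`; the group `H`.

PROOF. `ζ = IsCyclotomicExtension.zeta N ℚ C`, `hζ = zeta_spec`, primitive `N`-th root; `IsCyclotomicExtension.Rat.galEquivZMod_apply_of_pow_eq : g x = x ^ (kap g).val` for `x ^ N = 1`; `N` is odd (`p ≥ 5`).
`exists_omega`: `ω = ζ ^ q`, a primitive cube root of unity (`IsPrimitiveRoot.pow`).
 * `InH g`: `kap g` is `1` modulo `3 p^(m+1)`, so `(kap g).val ≡ 1 mod 3`, `g ω = ω ^ (kap g).val = ω`.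
 * finite order `ξ`: `hζ.exists_pow_or_neg_mul_pow_of_isOfFinOrder` : `ξ = ζ^r` or `-ζ^r`; `q^2 = 1 + 3 b` (`q` prime to 3), `ζ^(r q^2) = ω^(q r)`, so `ζ^r = ω^(q r) * ((ζ^(b r))⁻¹)^3`; `-1 = (-1)^3`.
 * `ω ^ i = s ^ 3 → 3 ∣ i`: suppose `3 ∤ i`. `s^9 = 1`, `s^3 ≠ 1`: so `s` has order 9 (`orderOf_eq_prime_pow`). `s` is of finite order, so `s = ±ζ^r`, `s^(2N) = 1`, `9 ∣ 2 N = 6 q`, so `3 ∣ 2 q`, `3 ∣ q = p^(n+1)`, `3 ∣ p`, `p = 3`: no.
`card_InH`: the filter is the image under `kap.symm` of the kernel of `unitsMap : (ZMod (3 p^(n+1)))ˣ → (ZMod (3 p^(m+1)))ˣ`, surjective (`ZMod.unitsMap_surjective`); `|ker| * φ(3 p^(m+1)) = φ(3 p^(n+1))`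
 (`Subgroup.card_mul_index` / first isomorphism theorem), `φ(3 p^(j+1)) = 2 p^j (p-1)`, so `|ker| = p^(n-m)`, prime to 3.
 (Alternative: an element `u = 1 + 3p^(m+1) t` of the kernel satisfies `u^(p^(n-m)) = 1`, so the kernel is a `p`-group: `IsPGroup`, its order is a power of `p`.)
`conj_kap`: `φ : C →+* ℂ`, `kap g = -1`: the two ring homs `x ↦ φ (g x)` and `x ↦ conj (φ x)` agree on `ζ` (`g ζ * ζ = 1` : `ζ ^ (-1 : ZMod N).val * ζ = ζ ^ N = 1`; `conj (φ ζ) = (φ ζ)⁻¹` as `‖φ ζ‖ = 1`), and `C = ℚ(ζ)`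
 (`IsCyclotomicExtension.algHom...` / `IsPrimitiveRoot.powerBasis` `.algHom_ext` over `ℚ`, after turning ring homs into `ℚ`-algebra homs `RingHom.toRatAlgHom`).
-/

set_option autoImplicit false
open scoped Classical Pointwise

open IsDedekindDomain NumberField Finset

namespace H55T3

variable {p n : ℕ} [Fact p.Prime] {C : Type} [Field C] [NumberField C]
  [IsCyclotomicExtension {3 * p ^ (n + 1)} ℚ C]

private theorem Mr_cop (hp : 5 ≤ p) (j : ℕ) : Nat.Coprime 3 (p ^ j) := by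
  have hpp : p.Prime := Fact.out
  apply Nat.Coprime.pow_right
  rw [Nat.coprime_primes Nat.prime_three hpp]
  omega

variable (p n C) in
theorem exists_omega (hp : 5 ≤ p) : ∃ ω : C, ω ^ 3 = 1 ∧
    (∀ (m : ℕ) (hmn : m ≤ n) (g : C ≃ₐ[ℚ] C), InH p m n hmn C g → g ω = ω) ∧
    (∀ ξ : C, IsOfFinOrder ξ → ∃ (j : ℕ) (s : C), ξ = ω ^ j * s ^ 3) ∧
    (∀ i : ℕ, (∃ s : C, ω ^ i = s ^ 3) → 3 ∣ i) := by
  have hpp : p.Prime := Fact.out
  obtain ⟨ζ, hζ⟩ : ∃ ζ : C, IsPrimitiveRoot ζ (3 * p ^ (n + 1)) :=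
    ⟨_, IsCyclotomicExtension.zeta_spec (3 * p ^ (n + 1)) ℚ C⟩
  have hNpos : 0 < 3 * p ^ (n + 1) := Nat.pos_of_ne_zero (NeZero.ne _)
  have hodd : Odd (3 * p ^ (n + 1)) := by
    apply Odd.mul (by decide)
    apply Odd.pow
    exact hpp.odd_of_ne_two (by omega)
  have hcop := Mr_cop (p := p) hp (n + 1)
  obtain ⟨q, hq⟩ : ∃ q : ℕ, q = p ^ (n + 1) := ⟨_, rfl⟩
  have hω : IsPrimitiveRoot (ζ ^ q) 3 := by
    apply hζ.pow hNpos
    rw [hq, mul_comm]
  refine ⟨ζ ^ q, hω.pow_eq_one, ?_, ?_, ?_⟩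
  · intro m hmn g hg
    have h1 : (ζ ^ q) ^ (3 * p ^ (n + 1)) = 1 := by
      rw [pow_mul, hω.pow_eq_one, one_pow]
    have h2 := IsCyclotomicExtension.Rat.galEquivZMod_apply_of_pow_eq (3 * p ^ (n + 1)) C g h1
    rw [h2]
    unfold InH at hg
    obtain ⟨a, ha⟩ : ∃ a : ℕ, a = ((IsCyclotomicExtension.Rat.galEquivZMod (3 * p ^ (n + 1)) C g :
      (ZMod (3 * p ^ (n + 1)))ˣ) : ZMod (3 * p ^ (n + 1))).val := ⟨_, rfl⟩
    rw [← ha]
    have h3 : ((a : ℕ) : ZMod (3 * p ^ (m + 1))) = 1 := by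
      have h4 := congrArg (fun u : (ZMod (3 * p ^ (m + 1)))ˣ => (u : ZMod (3 * p ^ (m + 1)))) hg
      simp only [ZMod.unitsMap_def, Units.coe_map, Units.val_one] at h4
      have h5 : ((kap p n C g : (ZMod (3 * p ^ (n + 1)))ˣ) : ZMod (3 * p ^ (n + 1))) =
          ((a : ℕ) : ZMod (3 * p ^ (n + 1))) := by
        rw [ha, ZMod.natCast_val, ZMod.cast_id]
      rw [h5] at h4
      simpa using h4
    have h6 : a ≡ 1 [MOD 3 * p ^ (m + 1)] := by
      rw [← ZMod.natCast_eq_natCast_iff]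
      simpa using h3
    have h7 : a ≡ 1 [MOD 3] := h6.of_mul_right _
    have h8 : (ζ ^ q) ^ a = (ζ ^ q) ^ 1 := by
      rw [← Nat.div_add_mod a 3, pow_add, pow_mul, hω.pow_eq_one, one_pow, one_mul]
      have : a % 3 = 1 := h7
      rw [this]
    rw [h8, pow_one]
  · intro ξ hξ
    obtain ⟨r, -, hr⟩ := hζ.exists_pow_or_neg_mul_pow_of_isOfFinOrder hodd hξ
    have hq3 : q % 3 = 1 ∨ q % 3 = 2 := by
      have : ¬ 3 ∣ q := by
        rw [hq]
        intro h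
        have := Nat.eq_one_of_dvd_coprimes hcop dvd_rfl h
        omega
      omega
    obtain ⟨b, hb⟩ : ∃ b : ℕ, q * q = 1 + 3 * b := by
      refine ⟨q * q / 3, ?_⟩
      have : q * q % 3 = 1 := by
        rcases hq3 with h | h <;> simp [Nat.mul_mod, h]
      omega
    have hζ0 : ζ ≠ 0 := hζ.ne_zero hNpos.ne'
    have key : ζ ^ r = (ζ ^ q) ^ (q * r) * ((ζ ^ (b * r))⁻¹) ^ 3 := by
      have h1 : (ζ ^ q) ^ (q * r) = ζ ^ r * (ζ ^ (b * r)) ^ 3 := by
        rw [← pow_mul, ← pow_mul, ← pow_add]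
        congr 1
        calc q * (q * r) = (q * q) * r := by ring
          _ = r + b * r * 3 := by rw [hb]; ring
      rw [h1, inv_pow, mul_assoc, mul_inv_cancel₀ (pow_ne_zero _ (pow_ne_zero _ hζ0)), mul_one]
    rcases hr with hr | hr
    · exact ⟨q * r, (ζ ^ (b * r))⁻¹, by rw [hr, key]⟩
    · refine ⟨q * r, -(ζ ^ (b * r))⁻¹, ?_⟩
      rw [hr, key]
      ring
  · rintro i ⟨s, hs⟩
    by_contra hi
    have h1 : ¬ s ^ 3 ^ 1 = 1 := by
      rw [pow_one, ← hs, hω.pow_eq_one_iff_dvd]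
      exact hi
    have h2 : s ^ 3 ^ (1 + 1) = 1 := by
      have : s ^ 3 ^ (1 + 1) = (s ^ 3) ^ 3 := by
        rw [← pow_mul]
        norm_num
      rw [this, ← hs, ← pow_mul, mul_comm i 3, pow_mul, hω.pow_eq_one, one_pow]
    have : Fact (Nat.Prime 3) := ⟨Nat.prime_three⟩
    have h3 : orderOf s = 3 ^ (1 + 1) := orderOf_eq_prime_pow h1 h2
    have hfin : IsOfFinOrder s := by
      rw [← orderOf_pos_iff, h3]
      norm_num
    obtain ⟨r, -, hr⟩ := hζ.exists_pow_or_neg_mul_pow_of_isOfFinOrder hodd hfin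
    have h4 : s ^ (2 * (3 * p ^ (n + 1))) = 1 := by
      rcases hr with hr | hr
      · rw [hr, ← pow_mul, mul_comm r, mul_comm 2, mul_assoc, pow_mul, hζ.pow_eq_one, one_pow]
      · rw [hr, pow_mul, neg_sq, ← pow_mul, ← pow_mul,
          show r * (2 * (3 * p ^ (n + 1))) = (3 * p ^ (n + 1)) * (r * 2) by ring, pow_mul,
          hζ.pow_eq_one, one_pow]
    have h5 : 9 ∣ 2 * (3 * p ^ (n + 1)) := by
      have := orderOf_dvd_of_pow_eq_one h4
      rw [h3] at this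
      simpa using this
    rw [← hq] at h5 hcop
    have h6 : 3 ∣ q := by omega
    have := Nat.eq_one_of_dvd_coprimes hcop dvd_rfl h6
    omega

theorem card_InH (hp : 5 ≤ p) {m : ℕ} (hmn : m ≤ n) :
    Nat.Coprime 3 (univ.filter (fun g : C ≃ₐ[ℚ] C => InH p m n hmn C g)).card := by
  have hpp : p.Prime := Fact.out
  obtain ⟨f, hf⟩ : ∃ f : (ZMod (3 * p ^ (n + 1)))ˣ →* (ZMod (3 * p ^ (m + 1)))ˣ,
    f = ZMod.unitsMap (Nat.mul_dvd_mul_left 3 (pow_dvd_pow p (Nat.succ_le_succ hmn))) := ⟨_, rfl⟩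
  have hsurj : Function.Surjective f := by
    rw [hf]
    exact ZMod.unitsMap_surjective _
  have hcard : (univ.filter (fun g : C ≃ₐ[ℚ] C => InH p m n hmn C g)).card = Nat.card f.ker := by
    rw [← Fintype.card_subtype, ← Nat.card_eq_fintype_card]
    refine Nat.card_congr (Equiv.subtypeEquiv
      (IsCyclotomicExtension.Rat.galEquivZMod (3 * p ^ (n + 1)) C).toEquiv ?_)
    intro g
    rw [MonoidHom.mem_ker, hf]
    rfl
  have h1 : Nat.card f.ker * (3 * p ^ (m + 1)).totient = (3 * p ^ (n + 1)).totient := by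
    have h2 := Subgroup.card_mul_index f.ker
    rw [Subgroup.index_ker, MonoidHom.range_eq_top.2 hsurj, Subgroup.card_top] at h2
    rw [Nat.card_eq_fintype_card (α := (ZMod (3 * p ^ (m + 1)))ˣ),
      Nat.card_eq_fintype_card (α := (ZMod (3 * p ^ (n + 1)))ˣ), ZMod.card_units_eq_totient,
      ZMod.card_units_eq_totient] at h2
    exact h2
  have htot : ∀ j : ℕ, (3 * p ^ (j + 1)).totient = 2 * (p ^ j * (p - 1)) := by
    intro j
    rw [Nat.totient_mul (Mr_cop hp (j + 1)), Nat.totient_prime_pow_succ hpp,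
      Nat.totient_prime Nat.prime_three]
  rw [htot, htot] at h1
  have h3 : Nat.card f.ker = p ^ (n - m) := by
    have h4 : p ^ n = p ^ (n - m) * p ^ m := by
      rw [← pow_add]
      congr 1
      omega
    rw [h4] at h1
    have h5 : 0 < 2 * (p ^ m * (p - 1)) := by
      have : 0 < p - 1 := by omega
      have : 0 < p ^ m := pow_pos hpp.pos _
      positivity
    apply Nat.eq_of_mul_eq_mul_right h5
    rw [h1]
    ring
  rw [hcard, h3]
  exact Mr_cop hp _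

theorem conj_kap (g : C ≃ₐ[ℚ] C) (hg : kap p n C g = -1) (φ : C →+* ℂ) (x : C) :
    φ (g x) = (starRingEnd ℂ) (φ x) := by
  obtain ⟨ζ, hζ⟩ : ∃ ζ : C, IsPrimitiveRoot ζ (3 * p ^ (n + 1)) :=
    ⟨_, IsCyclotomicExtension.zeta_spec (3 * p ^ (n + 1)) ℚ C⟩
  have hNpos : 0 < 3 * p ^ (n + 1) := Nat.pos_of_ne_zero (NeZero.ne _)
  have hζ0 : ζ ≠ 0 := hζ.ne_zero hNpos.ne'
  have h2 := IsCyclotomicExtension.Rat.galEquivZMod_apply_of_pow_eq (3 * p ^ (n + 1)) C g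
    hζ.pow_eq_one
  have hg' : IsCyclotomicExtension.Rat.galEquivZMod (3 * p ^ (n + 1)) C g = -1 := hg
  have h3 : g ζ * ζ = 1 := by
    rw [h2, ← pow_succ, hζ.pow_eq_one_iff_dvd, ← ZMod.natCast_eq_zero_iff, hg']
    push_cast
    rw [ZMod.natCast_val, ZMod.cast_id]
    simp
  have h4 : φ (g ζ) = (starRingEnd ℂ) (φ ζ) := by
    have h5 : φ (g ζ) * φ ζ = 1 := by rw [← map_mul, h3, map_one]
    have h6 : φ ζ ^ (3 * p ^ (n + 1)) = 1 := by rw [← map_pow, hζ.pow_eq_one, map_one]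
    have h7 : ‖φ ζ‖ = 1 := Complex.norm_eq_one_of_pow_eq_one h6 hNpos.ne'
    rw [← Complex.inv_eq_conj h7]
    exact eq_inv_of_mul_eq_one_left h5
  have h8 : (φ.comp (g : C →+* C)).toRatAlgHom = ((starRingEnd ℂ).comp φ).toRatAlgHom := by
    apply (hζ.powerBasis ℚ).algHom_ext
    rw [IsPrimitiveRoot.powerBasis_gen]
    simpa using h4
  have h9 := DFunLike.congr_fun h8 x
  simpa using h9

end H55T3
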