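import Pool.Agent.H55.T3.Df2

/-!
Row Nfa (about 120 lines): pure algebra in characteristic three (for the prime 5).

PROOF. fr3_expand: (1 - w) = (1 - x) (1 + x + x^2 + x^3 + x^4), so Fr3 x * (1 - w)^2 = x (1 + x + x^2 + x^3 + x^4)^2; expand, use x^5 = w and 3 = 0:
 (1 + 4 w) x + (2 + 3 w) x^2 + (3 + 2 w) x^3 + (4 + w) x^4 + 5 w  (x = 1 is impossible because w ≠ 1).
five_alg: put w = z^5, w' = v^5, A = 1 / (1 - w)^2, B = ε / (1 - w')^2, X = ζ^a (X^5 = 1, so X^6 = X, X^9 = X^4, X^12 = X^2). By fr3_expand for x = z X and x = v X^3, H says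
 P(X) = 0 for the polynomial P of degree ≤ 4 with coefficients
   X^1 : A (1 + w) z - B v^2,   X^2 : - A z^2 + B (1 + w') v^4,   X^3 : - A w z^3 + B (1 + w') v,   X^4 : A (1 + w) z^4 - B w' v^3.
 P has the five distinct roots ζ^a (a < 5), so all its coefficients vanish (or sum P(ζ^a) ζ^(-r a) over a). From X^2, X^3: w z v^3 = 1; from X^1, X^4 (1 + w ≠ 0): w' v = z^3.
 So v^6 = z^3 and z^6 v^3 = 1, hence z^15 = z^12 v^6 = 1.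
-/

set_option autoImplicit false
open scoped Classical

open Finset

namespace H55T3

lemma Nfa_van {Ω : Type*} [Field Ω] {ζ c0 c1 c2 c3 c4 : Ω} (hζ : ζ ^ 5 = 1) (h5 : (5 : Ω) ≠ 0)
    (hS : 1 + ζ + ζ ^ 2 + ζ ^ 3 + ζ ^ 4 = 0)
    (E0 : c0 + c1 + c2 + c3 + c4 = 0)
    (E1 : c0 + c1 * ζ + c2 * ζ ^ 2 + c3 * ζ ^ 3 + c4 * ζ ^ 4 = 0)
    (E2 : c0 + c1 * ζ ^ 2 + c2 * ζ ^ 4 + c3 * ζ + c4 * ζ ^ 3 = 0)
    (E3 : c0 + c1 * ζ ^ 3 + c2 * ζ + c3 * ζ ^ 4 + c4 * ζ ^ 2 = 0)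
    (E4 : c0 + c1 * ζ ^ 4 + c2 * ζ ^ 3 + c3 * ζ ^ 2 + c4 * ζ = 0) :
    c1 = 0 ∧ c2 = 0 ∧ c3 = 0 ∧ c4 = 0 := by
  have g1 : c1 = 0 := by
    apply mul_left_cancel₀ h5
    linear_combination E0 + ζ ^ 4 * E1 + ζ ^ 3 * E2 + ζ ^ 2 * E3 + ζ * E4 - (c0 + c2 + c3 + c4) * hS - (c1 * (1 + 1 + 1 + 1) + c2 * (ζ + ζ ^ 2) + c3 * (ζ ^ 2 + ζ) + c4 * (ζ ^ 3 + ζ)) * hζ
  have g2 : c2 = 0 := by
    apply mul_left_cancel₀ h5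
    linear_combination E0 + ζ ^ 3 * E1 + ζ * E2 + ζ ^ 4 * E3 + ζ ^ 2 * E4 - (c0 + c1 + c3 + c4) * hS - (c1 * (ζ ^ 2 + ζ) + c2 * (1 + 1 + 1 + 1) + c3 * (ζ + ζ ^ 3) + c4 * (ζ ^ 2 + ζ)) * hζ
  have g3 : c3 = 0 := by
    apply mul_left_cancel₀ h5
    linear_combination E0 + ζ ^ 2 * E1 + ζ ^ 4 * E2 + ζ * E3 + ζ ^ 3 * E4 - (c0 + c1 + c2 + c4) * hS - (c1 * (ζ + ζ ^ 2) + c2 * (ζ ^ 3 + ζ) + c3 * (1 + 1 + 1 + 1) + c4 * (ζ + ζ ^ 2)) * hζ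
  have g4 : c4 = 0 := by
    apply mul_left_cancel₀ h5
    linear_combination E0 + ζ * E1 + ζ ^ 2 * E2 + ζ ^ 3 * E3 + ζ ^ 4 * E4 - (c0 + c1 + c2 + c3) * hS - (c1 * (ζ + ζ ^ 3) + c2 * (ζ + ζ ^ 2) + c3 * (ζ ^ 2 + ζ) + c4 * (1 + 1 + 1 + 1)) * hζ
  exact ⟨g1, g2, g3, g4⟩

theorem fr3_expand {Ω : Type*} [Field Ω] [CharP Ω 3] {x w : Ω} (hx : x ^ 5 = w) (hw : w ≠ 1) :
    Fr3 x * (1 - w) ^ 2 = (1 + w) * x - x ^ 2 - w * x ^ 3 + (1 + w) * x ^ 4 - w := by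
  have h3 : (3 : Ω) = 0 := by exact_mod_cast CharP.cast_eq_zero Ω 3
  have hx1 : 1 - x ≠ 0 := by
    intro h
    apply hw
    have : x = 1 := by linear_combination -h
    rw [← hx, this, one_pow]
  subst hx
  have e : Fr3 x * (1 - x ^ 5) ^ 2 = x * (1 + x + x ^ 2 + x ^ 3 + x ^ 4) ^ 2 := by
    unfold Fr3
    rw [div_mul_eq_mul_div, div_eq_iff (pow_ne_zero 2 hx1)]
    ring
  rw [e]
  linear_combination (x ^ 2 + x ^ 3 + x ^ 4 + 2 * x ^ 5 + x ^ 6 + x ^ 7 + x ^ 8) * h3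

theorem five_alg {Ω : Type*} [Field Ω] [CharP Ω 3] {z v ζ ε s : Ω} (hζ : ζ ^ 5 = 1) (hζ1 : ζ ≠ 1)
    (hz0 : z ≠ 0) (hv0 : v ≠ 0) (hz : z ^ 5 ≠ 1) (hz' : z ^ 5 ≠ -1) (hv : v ^ 5 ≠ 1)
    (H : ∀ a : ℕ, Fr3 (z * ζ ^ a) + ε * Fr3 (v * ζ ^ (3 * a)) = s) : z ^ 15 = 1 := by
  have h3 : (3 : Ω) = 0 := by exact_mod_cast CharP.cast_eq_zero Ω 3
  have h5 : (5 : Ω) ≠ 0 := by
    intro h
    apply one_ne_zero (α := Ω)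
    linear_combination 2 * h3 - h
  have hS : 1 + ζ + ζ ^ 2 + ζ ^ 3 + ζ ^ 4 = 0 := by
    apply mul_left_cancel₀ (sub_ne_zero.2 hζ1)
    linear_combination hζ
  have hw0 : (1 - z ^ 5) ^ 2 ≠ 0 := pow_ne_zero 2 (sub_ne_zero.2 (Ne.symm hz))
  have hw0' : (1 - v ^ 5) ^ 2 ≠ 0 := pow_ne_zero 2 (sub_ne_zero.2 (Ne.symm hv))
  obtain ⟨A, hA⟩ : ∃ A : Ω, A * (1 - z ^ 5) ^ 2 = 1 := ⟨((1 - z ^ 5) ^ 2)⁻¹, inv_mul_cancel₀ hw0⟩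
  obtain ⟨B, hB⟩ : ∃ B : Ω, B * (1 - v ^ 5) ^ 2 = ε :=
    ⟨ε * ((1 - v ^ 5) ^ 2)⁻¹, by rw [mul_assoc, inv_mul_cancel₀ hw0', mul_one]⟩
  have hA0 : A ≠ 0 := by
    rintro rfl
    simp at hA
  obtain ⟨c0, hc0⟩ : ∃ c : Ω, c = - A * z ^ 5 - B * v ^ 5 - s := ⟨_, rfl⟩
  obtain ⟨c1, hc1⟩ : ∃ c : Ω, c = A * (1 + z ^ 5) * z - B * v ^ 2 := ⟨_, rfl⟩
  obtain ⟨c2, hc2⟩ : ∃ c : Ω, c = - A * z ^ 2 + B * (1 + v ^ 5) * v ^ 4 := ⟨_, rfl⟩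
  obtain ⟨c3, hc3⟩ : ∃ c : Ω, c = - A * z ^ 5 * z ^ 3 + B * (1 + v ^ 5) * v := ⟨_, rfl⟩
  obtain ⟨c4, hc4⟩ : ∃ c : Ω, c = A * (1 + z ^ 5) * z ^ 4 - B * v ^ 5 * v ^ 3 := ⟨_, rfl⟩
  have E : ∀ X : Ω, X ^ 5 = 1 → Fr3 (z * X) + ε * Fr3 (v * X ^ 3) = s →
      c0 + c1 * X + c2 * X ^ 2 + c3 * X ^ 3 + c4 * X ^ 4 = 0 := by
    intro X hX hs
    have e1 := fr3_expand (x := z * X) (w := z ^ 5) (by rw [mul_pow, hX, mul_one]) hz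
    have e2 := fr3_expand (x := v * X ^ 3) (w := v ^ 5)
      (by rw [mul_pow, ← pow_mul, mul_comm 3 5, pow_mul, hX, one_pow, mul_one]) hv
    have e3 : Fr3 (z * X) = A * ((1 + z ^ 5) * (z * X) - (z * X) ^ 2 - z ^ 5 * (z * X) ^ 3
        + (1 + z ^ 5) * (z * X) ^ 4 - z ^ 5) := by
      rw [← e1]
      linear_combination (- Fr3 (z * X)) * hA
    have e4 : ε * Fr3 (v * X ^ 3) = B * ((1 + v ^ 5) * (v * X ^ 3) - (v * X ^ 3) ^ 2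
        - v ^ 5 * (v * X ^ 3) ^ 3 + (1 + v ^ 5) * (v * X ^ 3) ^ 4 - v ^ 5) := by
      rw [← e2]
      linear_combination (- Fr3 (v * X ^ 3)) * hB
    rw [e3, e4] at hs
    have hX6 : X ^ 6 = X := by rw [pow_succ, hX, one_mul]
    have hX9 : X ^ 9 = X ^ 4 := by
      rw [show (9 : ℕ) = 5 + 4 from rfl, pow_add, hX, one_mul]
    have hX12 : X ^ 12 = X ^ 2 := by
      rw [show (12 : ℕ) = 5 + (5 + 2) from rfl, pow_add, pow_add, hX, one_mul, one_mul]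
    rw [hc0, hc1, hc2, hc3, hc4]
    linear_combination hs + B * v ^ 2 * hX6 + B * v ^ 5 * v ^ 3 * hX9
      - B * (1 + v ^ 5) * v ^ 4 * hX12
  have hpow : ∀ a : ℕ, (ζ ^ a) ^ 5 = 1 := fun a => by
    rw [← pow_mul, mul_comm, pow_mul, hζ, one_pow]
  have F : ∀ a : ℕ, Fr3 (z * ζ ^ a) + ε * Fr3 (v * (ζ ^ a) ^ 3) = s := fun a => by
    have := H a
    rwa [mul_comm 3 a, pow_mul] at this
  have hF0 := E _ (hpow 0) (F 0)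
  have hF1 := E _ (hpow 1) (F 1)
  have hF2 := E _ (hpow 2) (F 2)
  have hF3 := E _ (hpow 3) (F 3)
  have hF4 := E _ (hpow 4) (F 4)
  obtain ⟨g1, g2, g3, g4⟩ := Nfa_van (ζ := ζ) (c0 := c0) (c1 := c1) (c2 := c2) (c3 := c3) (c4 := c4)
    hζ h5 hS (by simpa using hF0) (by linear_combination hF1)
    (by linear_combination hF2 - (c3 * ζ + c4 * ζ ^ 3) * hζ)
    (by linear_combination hF3 - (c2 * ζ + c3 * ζ ^ 4 + c4 * (ζ ^ 7 + ζ ^ 2)) * hζ)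
    (by linear_combination hF4 - (c2 * ζ ^ 3 + c3 * (ζ ^ 7 + ζ ^ 2) + c4 * (ζ ^ 11 + ζ ^ 6 + ζ)) * hζ)
  rw [g1] at hc1
  rw [g2] at hc2
  rw [g3] at hc3
  rw [g4] at hc4
  have hq : 1 + z ^ 5 ≠ 0 := by
    intro h
    apply hz'
    linear_combination h
  have k1 : z ^ 6 * v ^ 3 = 1 := by
    have h : A * z ^ 2 * (z ^ 6 * v ^ 3) = A * z ^ 2 * 1 := by
      linear_combination v ^ 3 * hc3 - hc2
    exact mul_left_cancel₀ (mul_ne_zero hA0 (pow_ne_zero 2 hz0)) h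
  have k2 : B * v ^ 2 ≠ 0 := by
    have h : B * v ^ 2 = A * (1 + z ^ 5) * z := by linear_combination hc1
    rw [h]
    exact mul_ne_zero (mul_ne_zero hA0 hq) hz0
  have k3 : v ^ 6 = z ^ 3 := by
    have h : B * v ^ 2 * v ^ 6 = B * v ^ 2 * z ^ 3 := by
      linear_combination hc4 - z ^ 3 * hc1
    exact mul_left_cancel₀ k2 h
  calc z ^ 15 = z ^ 12 * z ^ 3 := by ring
    _ = (z ^ 6 * v ^ 3) ^ 2 := by rw [← k3]; ring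
    _ = 1 := by rw [k1, one_pow]

end H55T3
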