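import Pool.Agent.H55.T3.Df2

/-!
Row Nfo (about 120 lines): three is a primitive root modulo every power of five.

PROOF. LTE (Int.emultiplicity_pow_sub_pow or padicValNat.pow_sub_pow, 3^4 - 1 = 80 = 16 * 5): the exact power of 5 dividing 3^(4 * 5^j) - 1 is 5^(j+1). So orderOf (3 mod 5^(k+1)) divides 4 * 5^k = φ(5^(k+1)),
it does not divide 2 * 5^k (3^(2 * 5^k) ≡ 9^(5^k) ≡ (-1)^(5^k) = -1 mod 5) and not 4 * 5^(k-1) (k ≥ 1); every proper divisor of 4 * 5^k divides one of these two.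
gen3: the order equals the cardinality of the group. pow_neg: x = 3^(2 * 5^k) satisfies x^2 = 1, x ≡ -1 mod 5, so x - 1 is a unit and x = -1.
-/

set_option autoImplicit false
open scoped Classical

open Finset

namespace H55T3

/-- the unit `3` modulo `5 ^ (k + 1)` -/
def t5 (k : ℕ) : (ZMod (5 ^ (k + 1)))ˣ := ZMod.unitOfCoprime 3 (Nat.Coprime.pow_right _ (by norm_num))

theorem Nfo_step (k : ℕ) : ∃ c : ℕ, 3 ^ (4 * 5 ^ k) = 1 + 5 ^ (k + 1) * c ∧ ¬ 5 ∣ c := by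
  induction k with
  | zero => exact ⟨16, by norm_num, by norm_num⟩
  | succ k ih =>
    obtain ⟨c, hc, h5⟩ := ih
    refine ⟨c + 5 * (2 * 5 ^ k * c ^ 2 + 2 * 5 ^ (2 * k + 1) * c ^ 3 + 5 ^ (3 * k + 2) * c ^ 4 +
      5 ^ (4 * k + 2) * c ^ 5), ?_, ?_⟩
    · have h1 : 3 ^ (4 * 5 ^ (k + 1)) = (3 ^ (4 * 5 ^ k)) ^ 5 := by
        rw [← pow_mul]
        congr 1
        ring
      rw [h1, hc]
      ring
    · intro h
      exact h5 ((Nat.dvd_add_left (dvd_mul_right 5 _)).1 h)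

theorem pow5_dvd (k : ℕ) : 5 ^ (k + 1) ∣ 3 ^ (4 * 5 ^ k) - 1 ∧ ¬ 5 ^ (k + 2) ∣ 3 ^ (4 * 5 ^ k) - 1 := by
  obtain ⟨c, hc, h5⟩ := Nfo_step k
  have h1 : 3 ^ (4 * 5 ^ k) - 1 = 5 ^ (k + 1) * c := by
    rw [hc]
    omega
  rw [h1]
  refine ⟨dvd_mul_right _ _, ?_⟩
  intro h
  apply h5
  rw [pow_succ 5 (k + 1)] at h
  exact Nat.dvd_of_mul_dvd_mul_left (by positivity) h

theorem Nfo_cast (k n : ℕ) (h : 5 ^ (k + 1) ∣ 3 ^ n - 1) : (3 : ZMod (5 ^ (k + 1))) ^ n = 1 := by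
  have h0 : 1 ≤ 3 ^ n := Nat.one_le_pow _ _ (by norm_num)
  have h1 : ((3 ^ n - 1 : ℕ) : ZMod (5 ^ (k + 1))) = 0 := (ZMod.natCast_eq_zero_iff _ _).2 h
  rw [Nat.cast_sub h0] at h1
  push_cast at h1
  exact sub_eq_zero.1 h1

theorem Nfo_cast' (k n : ℕ) (h : (3 : ZMod (5 ^ (k + 1))) ^ n = 1) : 5 ^ (k + 1) ∣ 3 ^ n - 1 := by
  have h0 : 1 ≤ 3 ^ n := Nat.one_le_pow _ _ (by norm_num)
  rw [← ZMod.natCast_eq_zero_iff, Nat.cast_sub h0]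
  push_cast
  exact sub_eq_zero.2 h

theorem t5_coe (k : ℕ) : ((t5 k : (ZMod (5 ^ (k + 1)))ˣ) : ZMod (5 ^ (k + 1))) = 3 := by
  unfold t5
  rw [ZMod.coe_unitOfCoprime]
  norm_num

theorem Nfo_pow (k n : ℕ) : t5 k ^ n = 1 ↔ (3 : ZMod (5 ^ (k + 1))) ^ n = 1 := by
  rw [← Units.val_inj, Units.val_pow_eq_pow_val, t5_coe, Units.val_one]

theorem Nfo_four {n : ℕ} (h : 5 ∣ 3 ^ n - 1) : 4 ∣ n := by
  have h1 : n = 4 * (n / 4) + n % 4 := (Nat.div_add_mod n 4).symm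
  have h2 : n % 4 < 4 := Nat.mod_lt _ (by norm_num)
  have h3 : 3 ^ n % 5 = 3 ^ (n % 4) % 5 := by
    conv_lhs => rw [h1, pow_add, pow_mul, Nat.mul_mod, Nat.pow_mod]
    norm_num
  have h0 : 1 ≤ 3 ^ n := Nat.one_le_pow _ _ (by norm_num)
  have h4 : 3 ^ n % 5 = 1 := by omega
  rw [h3] at h4
  interval_cases hn : n % 4
  · omega
  · norm_num at h4
  · norm_num at h4
  · norm_num at h4

theorem t5_order (k : ℕ) : orderOf (t5 k) = 4 * 5 ^ k := by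
  have h1 : orderOf (t5 k) ∣ 4 * 5 ^ k := by
    rw [orderOf_dvd_iff_pow_eq_one, Nfo_pow]
    exact Nfo_cast k _ (pow5_dvd k).1
  have h2 : (3 : ZMod (5 ^ (k + 1))) ^ orderOf (t5 k) = 1 := (Nfo_pow k _).1 (pow_orderOf_eq_one _)
  have h3 := Nfo_cast' k _ h2
  have h4 : 4 ∣ orderOf (t5 k) := Nfo_four ((dvd_pow_self 5 (Nat.succ_ne_zero k)).trans h3)
  obtain ⟨m, hm⟩ := h4
  rw [hm] at h1 h3 ⊢
  have h5 : m ∣ 5 ^ k := Nat.dvd_of_mul_dvd_mul_left (by norm_num) h1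
  obtain ⟨j, hj, rfl⟩ := (Nat.dvd_prime_pow (by norm_num)).1 h5
  rcases hj.lt_or_eq with h6 | h6
  · exfalso
    exact (pow5_dvd j).2 ((pow_dvd_pow 5 (by omega)).trans h3)
  · rw [h6]

theorem t5_gen (k : ℕ) (u : (ZMod (5 ^ (k + 1)))ˣ) : ∃ i < 4 * 5 ^ k, t5 k ^ i = u := by
  have hne : NeZero (5 ^ (k + 1)) := ⟨by positivity⟩
  have h1 : Subgroup.zpowers (t5 k) = ⊤ := by
    apply Subgroup.eq_top_of_card_eq
    rw [Nat.card_zpowers, t5_order, Nat.card_eq_fintype_card, ZMod.card_units_eq_totient,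
      Nat.totient_prime_pow_succ (by norm_num)]
    ring
  have h2 : u ∈ Subgroup.zpowers (t5 k) := by
    rw [h1]
    exact Subgroup.mem_top u
  rw [mem_zpowers_iff_mem_range_orderOf, Finset.mem_image] at h2
  obtain ⟨i, hi, h3⟩ := h2
  rw [Finset.mem_range, t5_order] at hi
  exact ⟨i, hi, h3⟩

theorem t5_neg (k : ℕ) : t5 k ^ (2 * 5 ^ k) = -1 := by
  rw [← Units.val_inj, Units.val_pow_eq_pow_val, t5_coe, Units.val_neg, Units.val_one]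
  have h1 := (pow5_dvd k).1
  have h0 : 1 ≤ 3 ^ (2 * 5 ^ k) := Nat.one_le_pow _ _ (by norm_num)
  have h2 : 3 ^ (4 * 5 ^ k) - 1 = (3 ^ (2 * 5 ^ k) - 1) * (3 ^ (2 * 5 ^ k) + 1) := by
    have h3 : 3 ^ (4 * 5 ^ k) = 3 ^ (2 * 5 ^ k) * 3 ^ (2 * 5 ^ k) := by
      rw [← pow_add]
      congr 1
      ring
    rw [h3]
    obtain ⟨y, hy⟩ : ∃ y, 3 ^ (2 * 5 ^ k) = y + 1 := ⟨3 ^ (2 * 5 ^ k) - 1, by omega⟩
    rw [hy, Nat.add_sub_cancel]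
    have h4 : (y + 1) * (y + 1) = y * (y + 1 + 1) + 1 := by ring
    rw [h4, Nat.add_sub_cancel]
  rw [h2] at h1
  have h5 : Nat.Coprime (5 ^ (k + 1)) (3 ^ (2 * 5 ^ k) - 1) := by
    apply Nat.Coprime.pow_left
    rw [Nat.Prime.coprime_iff_not_dvd (by norm_num)]
    intro h6
    have h7 := Nfo_four h6
    have h8 : 5 ^ k % 4 = 1 := by
      rw [Nat.pow_mod]
      norm_num
    omega
  have h6 : 5 ^ (k + 1) ∣ 3 ^ (2 * 5 ^ k) + 1 := h5.dvd_of_dvd_mul_left h1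
  have h7 : ((3 ^ (2 * 5 ^ k) + 1 : ℕ) : ZMod (5 ^ (k + 1))) = 0 :=
    (ZMod.natCast_eq_zero_iff _ _).2 h6
  push_cast at h7
  exact eq_neg_of_add_eq_zero_left h7

end H55T3
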