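import Pool.Agent.H55.T3.Df3
import Pool.Agent.H10.StarGal

/-!
Row P1 (about 120 lines): an automorphism of odd order of a quadratic extension fixes the places above a place with a unique extension.

PROOF. G1 = {g ∈ Gal(C/K) : g s = s}, odd order (hodd). Let v := w ∩ 𝓞 K (w.asIdeal.under (𝓞 K)), u := the unique prime of L above v (hu). Every prime P of 𝓞 C above v lies above u, so Gal(C/L) (of order ≤ 2: C = L(s), an element of
 Gal(C/L) is determined by its value s or -s on s, hgen) acts transitively on the set X of the primes above v (Ideal.exists_smul_eq_of_isGaloisGroup or the lemma used in H10/StarGal exists_conj, applied to C/L): card X ≤ 2.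
 The powers of g act on X; if g w ≠ w then X = {w, g w}, g (g w) = w (injectivity of g on X), so g^n w = g w ≠ w for odd n, but g^(orderOf g) = 1. Contradiction. So g w = w, and the valuation is invariant
 (val_conj_of_unique and its proof in H10/StarGal.lean, or Hf_val in Hf.lean).
-/

set_option autoImplicit false
open scoped Classical

open IsDedekindDomain NumberField Finset Pool.Agent.H10

namespace H55T3

open Pointwise in
/-- an automorphism which respects the ideal of a place respects the valuation -/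
lemma P1_val {K C : Type} [Field K] [NumberField K] [Field C] [NumberField C] [Algebra K C]
    (w : HeightOneSpectrum (𝓞 C)) (g : C ≃ₐ[K] C)
    (h : g • w.asIdeal = w.asIdeal) (x : C) :
    w.valuation C (g x) = w.valuation C x := by
  obtain ⟨w', h1, -⟩ := Pool.Agent.H10.exists_conj g w
  have h2 : w = w' := by
    apply HeightOneSpectrum.ext
    refine w.isMaximal.eq_of_le w'.isPrime.ne_top ?_
    intro y hy
    have h3 : g • y ∈ w.asIdeal := by
      rw [← h]
      exact Ideal.smul_mem_pointwise_smul _ _ _ hy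
    have h4 : w.valuation C ((g • y : 𝓞 C) : C) < 1 :=
      (HeightOneSpectrum.valuation_lt_one_iff_mem w _).2 h3
    have h5 : ((g • y : 𝓞 C) : C) = g (y : C) := rfl
    rw [h5, h1] at h4
    exact (HeightOneSpectrum.valuation_lt_one_iff_mem w' _).1 h4
  rw [h1, ← h2]

open Pointwise in
/-- every conjugate over `K` is a conjugate over `L` -/
lemma P1_conj {K L C : Type} [Field K] [NumberField K] [Field L] [NumberField L] [Field C]
    [NumberField C] [Algebra K L] [Algebra L C] [Algebra K C] [IsScalarTower K L C]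
    [IsGalois L C] (w : HeightOneSpectrum (𝓞 C)) (hu : UniqueOver K L (w.asIdeal.under (𝓞 K)))
    (h : C ≃ₐ[K] C) : ∃ τ : C ≃ₐ[L] C, τ • w.asIdeal = h • w.asIdeal := by
  have hP : w.asIdeal.IsPrime := w.isPrime
  have hle : ∀ h : C ≃ₐ[K] C, (w.asIdeal.under (𝓞 K)).map (algebraMap (𝓞 K) (𝓞 L)) ≤
      (h • w.asIdeal).under (𝓞 L) := by
    intro h
    rw [Ideal.map_le_iff_le_comap]
    intro x hx
    rw [Ideal.mem_comap]
    change algebraMap (𝓞 L) (𝓞 C) (algebraMap (𝓞 K) (𝓞 L) x) ∈ h • w.asIdeal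
    rw [Ideal.mem_pointwise_smul_iff_inv_smul_mem]
    have h1 : h⁻¹ • algebraMap (𝓞 L) (𝓞 C) (algebraMap (𝓞 K) (𝓞 L) x) =
        algebraMap (𝓞 K) (𝓞 C) x := by
      apply RingOfIntegers.coe_injective
      have e1 : ((h⁻¹ • algebraMap (𝓞 L) (𝓞 C) (algebraMap (𝓞 K) (𝓞 L) x) : 𝓞 C) : C) =
          h⁻¹ (algebraMap L C (algebraMap K L (x : K))) := rfl
      have e2 : ((algebraMap (𝓞 K) (𝓞 C) x : 𝓞 C) : C) = algebraMap K C (x : K) := rfl
      refine e1.trans (Eq.trans ?_ e2.symm)
      rw [← IsScalarTower.algebraMap_apply, AlgEquiv.commutes]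
    rw [h1]
    exact hx
  have hP2 : (h • w.asIdeal).IsPrime := inferInstance
  have e : (h • w.asIdeal).under (𝓞 L) = w.asIdeal.under (𝓞 L) := by
    refine hu _ _ (Ideal.IsPrime.comap _) (Ideal.IsPrime.comap _) (hle h) ?_
    have := hle 1
    rwa [one_smul] at this
  have : (h • w.asIdeal).LiesOver (w.asIdeal.under (𝓞 L)) := ⟨e.symm⟩
  exact Ideal.exists_smul_eq_of_isGaloisGroup (w.asIdeal.under (𝓞 L)) w.asIdeal
    (h • w.asIdeal) (C ≃ₐ[L] C)

open Pointwise in
theorem val_fix_pair {K L C : Type} [Field K] [NumberField K] [Field L] [NumberField L] [Field C]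
    [NumberField C] [Algebra K L] [Algebra L C] [Algebra K C] [IsScalarTower K L C] [IsGalois K C]
    [IsGalois L C] {s : C} (hs : s ^ 2 = -3) (hgen : ∀ g : C ≃ₐ[L] C, g s = s → g = 1)
    (w : HeightOneSpectrum (𝓞 C)) (hu : UniqueOver K L (w.asIdeal.under (𝓞 K)))
    {g : C ≃ₐ[K] C} (hodd : Odd (orderOf g)) (x : C) : w.valuation C (g x) = w.valuation C x := by
  have hsq : ∀ g : C ≃ₐ[L] C, g s = s ∨ g s = -s := by
    intro g
    have h1 : (g s) ^ 2 = s ^ 2 := by
      rw [← map_pow, hs, map_neg, map_ofNat]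
    exact sq_eq_sq_iff_eq_or_eq_neg.1 h1
  have htwo : ∀ τ ρ : C ≃ₐ[L] C, τ ≠ 1 → ρ ≠ 1 → τ = ρ := by
    intro τ ρ hτ hρ
    have h1 := (hsq τ).resolve_left fun h => hτ (hgen τ h)
    have h2 := (hsq ρ).resolve_left fun h => hρ (hgen ρ h)
    have h3 : (τ⁻¹ * ρ) s = s := by
      rw [AlgEquiv.mul_apply, h2, map_neg]
      have h4 : τ⁻¹ (-s) = s := by
        rw [← h1]
        exact τ.symm_apply_apply s
      rw [map_neg] at h4
      exact h4
    have h4 := hgen _ h3
    rw [inv_mul_eq_one] at h4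
    exact h4
  apply P1_val
  obtain ⟨τ1, h1⟩ := P1_conj (L := L) w hu g
  obtain ⟨τ2, h2⟩ := P1_conj (L := L) w hu (g ^ 2)
  by_cases ht1 : τ1 = 1
  · rw [← h1, ht1, one_smul]
  by_cases ht2 : τ2 = 1
  · rw [ht2, one_smul] at h2
    obtain ⟨m, hm⟩ := hodd
    have h3 : ∀ m : ℕ, (g ^ 2) ^ m • w.asIdeal = w.asIdeal := by
      intro m
      induction m with
      | zero => rw [pow_zero, one_smul]
      | succ m ih => rw [pow_succ, mul_smul, ← h2, ih]
    have h4 : g ^ (2 * m + 1) = 1 := by
      rw [← hm]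
      exact pow_orderOf_eq_one g
    rw [pow_succ', pow_mul] at h4
    have h5 : (g * (g ^ 2) ^ m) • w.asIdeal = (1 : C ≃ₐ[K] C) • w.asIdeal := by rw [h4]
    rw [mul_smul, h3, one_smul] at h5
    exact h5
  · have h3 := htwo τ1 τ2 ht1 ht2
    rw [← h3, h1, pow_two, mul_smul] at h2
    exact (smul_left_cancel g h2).symm

end H55T3
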