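import Pool.Agent.H55.T3.P1
import Pool.Agent.H55.T3.Vg

/-!
Row P2 (about 120 lines): the arithmetic input for the minus side of a pair.

PROOF. e := g d / d ≠ 0, c := 27 b. Apply R to e.
(i) valuations: w a place of C. If ((6 b : ℤ) : 𝓞 C) ∈ w: v := w under 𝓞 K contains 6 b, so hbad and val_fix_pair give w (g d) = w d, log (w e) = 0. Otherwise 3 | log (w d) by vg_place (6 b ∉ w: 2 c = 54 b ∉ w; w s = 1 because s^2 = -3 and 3 ∉ w), and w (g d) = w' d for the place
 w' = g⁻¹ w, which contains the same integers (compare K5a: exists_conj, or k6_arith in K6c.lean), so 3 | log (w' d). log (w e) = log (w (g d)) - log (w d).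
(ii) product over G1 = {h : h s = s}: G1 is stable under right multiplication by g, so ∏ h (g d) = ∏ h d and the product of h e over G1 is 1 = 1^3.
(iii) g' ∈ Gal(C/L) with g' s = -s; J := g'.restrictScalars K commutes with g (hab): e * g' e = (g d * J (g d)) / (d * J d) = g (d * J d)/(d * J d), and d * J d = y^3 (hJ), so e * g' e = (g y / y)^3.
So e = y^3 and g d = d y^3.
-/

set_option autoImplicit false
open scoped Classical

open IsDedekindDomain NumberField Finset WithZero Pool.Agent.H10

namespace H55T3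

theorem minus_pair {K L C : Type} [Field K] [NumberField K] [Field L] [NumberField L] [Field C]
    [NumberField C] [Algebra K L] [Algebra L C] [Algebra K C] [IsScalarTower K L C] [IsGalois K C]
    [IsGalois L C] {s : C} (hs : s ^ 2 = -3) (hgen : ∀ g : C ≃ₐ[L] C, g s = s → g = 1)
    (hab : ∀ g g' : C ≃ₐ[K] C, g * g' = g' * g) (R : NoNewMinus K L C s) {a b : ℤ} (hb : b ≠ 0)
    (hbad : ∀ v : HeightOneSpectrum (𝓞 K), ((6 * b : ℤ) : 𝓞 K) ∈ v.asIdeal →
      UniqueOver K L v.asIdeal)
    {d : C} (hd : d ≠ 0) (H : FinSol3 C s (a : C) ((27 * b : ℤ) : C) d)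
    (hJ : ∀ g : C ≃ₐ[L] C, g s = -s → ∃ y, g d * d = y ^ 3)
    {g : C ≃ₐ[K] C} (hg : g s = s) (hodd : Odd (orderOf g)) : ∃ y, g d = d * y ^ 3 := by
  have hgd : g d ≠ 0 := (map_ne_zero g).2 hd
  have below : ∀ w : HeightOneSpectrum (𝓞 C), w.asIdeal.under (𝓞 K) ≠ ⊥ := fun w =>
    Ideal.IsIntegral.comap_ne_bot _ w.ne_bot
  have mem_iff : ∀ (w : HeightOneSpectrum (𝓞 C)) (z : ℤ),
      (z : 𝓞 K) ∈ w.asIdeal.under (𝓞 K) ↔ (z : 𝓞 C) ∈ w.asIdeal := by
    intro w z
    change algebraMap (𝓞 K) (𝓞 C) (z : 𝓞 K) ∈ w.asIdeal ↔ _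
    rw [map_intCast]
  have hcomm : ∀ (g0 : C ≃ₐ[L] C) (x : C), g0 (g x) = g (g0 x) := by
    intro g0 x
    exact DFunLike.congr_fun (hab (g0.restrictScalars K) g) x
  have hginv : g⁻¹ s = s := by
    have h1 : g⁻¹ (g s) = s := g.symm_apply_apply s
    rwa [hg] at h1
  have hkey : ∃ y, g d / d = y ^ 3 := by
    apply R
    · exact div_ne_zero hgd hd
    · -- valuations
      intro w
      have hwd : w.valuation C d ≠ 0 := (Valuation.ne_zero_iff _).2 hd
      have hwgd : w.valuation C (g d) ≠ 0 := (Valuation.ne_zero_iff _).2 hgd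
      rw [map_div₀, WithZero.log_div hwgd hwd]
      by_cases hw : ((6 * b : ℤ) : 𝓞 C) ∈ w.asIdeal
      · have hu : UniqueOver K L (w.asIdeal.under (𝓞 K)) :=
          hbad ⟨w.asIdeal.under (𝓞 K), inferInstance, below w⟩ ((mem_iff w _).mpr hw)
        rw [val_fix_pair hs hgen w hu hodd, sub_self]
        exact dvd_zero _
      · have good : ∀ v : HeightOneSpectrum (𝓞 C), ((6 * b : ℤ) : 𝓞 C) ∉ v.asIdeal →
            (3 : ℤ) ∣ WithZero.log (v.valuation C d) := by
          intro v hv
          have h3 : (3 : 𝓞 C) ∉ v.asIdeal := by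
            intro h
            apply hv
            have e : ((6 * b : ℤ) : 𝓞 C) = 3 * (2 * (b : 𝓞 C)) := by push_cast; ring
            rw [e]
            exact Ideal.mul_mem_right _ _ h
          refine vg_place (a := a) (c := 27 * b) ?_ ?_ hd (H v)
          · have h4 : v.valuation C s ^ 2 = 1 := by
              rw [← map_pow, hs, Valuation.map_neg]
              have h5 := (v.valuation_eq_one_iff_notMem (K := C) (r := (3 : 𝓞 C))).mpr h3
              rwa [map_ofNat] at h5
            exact (pow_eq_one_iff_of_nonneg zero_le two_ne_zero).1 h4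
          · intro h
            have e : ((2 * (27 * b) : ℤ) : 𝓞 C) = ((6 * b : ℤ) : 𝓞 C) * (3 * 3) := by
              push_cast; ring
            rw [e] at h
            rcases v.isPrime.mem_or_mem h with h5 | h5
            · exact hv h5
            · rcases v.isPrime.mem_or_mem h5 with h6 | h6
              · exact h3 h6
              · exact h3 h6
        obtain ⟨w', hw1, hw2⟩ := exists_conj g w
        have hw' : ((6 * b : ℤ) : 𝓞 C) ∉ w'.asIdeal := by
          intro h
          apply hw
          have h5 := (hw2 ((6 * b : ℤ) : 𝓞 K)).1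
          rw [map_intCast] at h5
          exact h5 h
        rw [hw1]
        exact dvd_sub (good w' hw') (good w hw)
    · -- norms
      refine ⟨1, ?_⟩
      simp only [map_div₀]
      rw [Finset.prod_div_distrib, one_pow]
      have hne : ∏ h ∈ univ.filter (fun h : C ≃ₐ[K] C => h s = s), h d ≠ 0 :=
        Finset.prod_ne_zero_iff.2 fun h _ => (map_ne_zero h).2 hd
      rw [div_eq_one_iff_eq hne]
      refine Finset.prod_nbij' (fun h => h * g) (fun h => h * g⁻¹) ?_ ?_ ?_ ?_ ?_
      · intro h hh
        rw [Finset.mem_filter] at hh ⊢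
        refine ⟨mem_univ _, ?_⟩
        rw [AlgEquiv.mul_apply, hg]
        exact hh.2
      · intro h hh
        rw [Finset.mem_filter] at hh ⊢
        refine ⟨mem_univ _, ?_⟩
        rw [AlgEquiv.mul_apply, hginv]
        exact hh.2
      · intro h _
        exact mul_inv_cancel_right h g
      · intro h _
        exact inv_mul_cancel_right h g
      · intro h _
        rfl
    · intro J hJs
      obtain ⟨y, hy⟩ := hJ J hJs
      have hJd : J d ≠ 0 := (map_ne_zero J).2 hd
      have hy0 : y ≠ 0 := by
        rintro rfl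
        rw [zero_pow three_ne_zero] at hy
        exact mul_ne_zero hJd hd hy
      refine ⟨g y / y, ?_⟩
      have hy' := congrArg g hy
      rw [map_mul, map_pow] at hy'
      rw [map_div₀, hcomm, div_pow, ← hy, ← hy']
      field_simp
  obtain ⟨y, hy⟩ := hkey
  exact ⟨y, by rw [← hy]; field_simp⟩

end H55T3
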