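import Pool.Agent.H55.T3.P2
import Pool.Agent.H55.T3.Fin

/-! Pair form of block D (helper55). -/

set_option autoImplicit false
open scoped Classical

open WeierstrassCurve IsDedekindDomain NumberField Pool.Agent.H10 Pool.Agent.H11 H5SW

namespace H55T3

variable {K L C : Type} [Field K] [NumberField K] [Field L] [NumberField L] [Field C]
  [NumberField C] [Algebra K L] [Algebra L C] [Algebra K C] [IsScalarTower K L C] [IsGalois K L]
  [IsGalois K C] [IsGalois L C] {a b : ℤ}

theorem kt_F_pair (hodd : Odd (Module.finrank K L)) (h3n : ¬ 3 ∣ Module.finrank K L) {s : C}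
    (hs : s ^ 2 = -3) (hgen : ∀ g : C ≃ₐ[L] C, g s = s → g = 1)
    (hneg : ∃ g : C ≃ₐ[L] C, g s = -s) (hab : ∀ g g' : C ≃ₐ[K] C, g * g' = g' * g)
    (R : NoNewMinus K L C s) (hb : b ≠ 0) (hc : 9 * b + 4 * a ^ 3 ≠ 0)
    (hbad : ∀ v : HeightOneSpectrum (𝓞 K), ((6 * b : ℤ) : 𝓞 K) ∈ v.asIdeal →
      UniqueOver K L v.asIdeal) : KT K L ((curF K a b).baseChange L) (inv_up rfl) := by
  have hs0 : s ≠ 0 := by
    rintro rfl
    have h3 : (3 : C) ≠ 0 := three_ne_zero
    apply h3
    linear_combination hs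
  obtain ⟨J, hJ⟩ := hneg
  have hval : ∀ g : C ≃ₐ[K] C, g s = s ∨ g s = -s := by
    intro g
    have h1 : (g s) ^ 2 = s ^ 2 := by
      rw [← map_pow, hs, map_neg, map_ofNat]
    exact sq_eq_sq_iff_eq_or_eq_neg.mp h1
  have hordd : ∀ g : C ≃ₐ[K] C, g s = s → Odd (orderOf g) := by
    intro g hg
    have h1 : g ^ Module.finrank K L = 1 := by
      have h2 : AlgEquiv.restrictNormalHom (F := K) (K₁ := C) L g ^ Module.finrank K L = 1 := by
        rw [← IsGalois.card_aut_eq_finrank K L]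
        exact pow_card_eq_one'
      rw [← map_pow] at h2
      have h3 : ∀ x : L, (g ^ Module.finrank K L) (algebraMap L C x) = algebraMap L C x := by
        intro x
        have h4 := AlgEquiv.restrictNormal_commutes (g ^ Module.finrank K L) L x
        have h5 : (g ^ Module.finrank K L).restrictNormal L = 1 := h2
        rw [h5] at h4
        exact h4.symm
      have h4 := hgen (K6a_mk (g ^ Module.finrank K L) h3) (by
        change (g ^ Module.finrank K L) s = s
        have : ∀ n : ℕ, (g ^ n) s = s := by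
          intro n
          induction n with
          | zero => simp
          | succ n ih => rw [pow_succ', AlgEquiv.mul_apply, ih, hg]
        exact this _)
      have h6 : (g ^ Module.finrank K L) = (K6a_mk (g ^ Module.finrank K L) h3).restrictScalars K := rfl
      rw [h6, h4]
      rfl
    exact hodd.of_dvd_nat (orderOf_dvd_of_pow_eq_one h1)
  refine k6 (C := C) (is3_F K hb hc) rfl h3n hs hab {g | g s = s} (fun g hg => hg) ?_ ?_
  · intro t
    obtain ⟨g, hg⟩ : ∃ g : C ≃ₐ[K] C, ∀ x : L, g (algebraMap L C x) = algebraMap L C (t x) :=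
      ⟨t.liftNormal C, fun x => t.liftNormal_commutes C x⟩
    rcases hval g with h | h
    · exact ⟨g, h, hg⟩
    · refine ⟨g * J.restrictScalars K, ?_, fun x => ?_⟩
      · change g (J s) = s
        rw [hJ, map_neg, h, neg_neg]
      · change g (J (algebraMap L C x)) = _
        rw [J.commutes, hg]
  · intro d hd H _ hJ' g hg
    have e : algebraMap K C (9 * (((9 * b + 4 * a ^ 3 : ℤ) : K) / 3) + 4 * (-3) * (a : K) ^ 3) =
        ((27 * b : ℤ) : C) := by
      have e1 : 9 * (((9 * b + 4 * a ^ 3 : ℤ) : K) / 3) + 4 * (-3) * (a : K) ^ 3 =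
          ((27 * b : ℤ) : K) := by
        push_cast
        ring
      rw [e1, map_intCast]
    rw [e, map_intCast] at H
    exact minus_pair hs hgen hab R hb hbad hd H hJ' hg (hordd g hg)

/-- Block D for a pair of fields. -/
theorem ct3_pair (hodd : Odd (Module.finrank K L)) (h3n : ¬ 3 ∣ Module.finrank K L)
    (RR : NoNewCube K L) {s : C} (hs : s ^ 2 = -3) (hgen : ∀ g : C ≃ₐ[L] C, g s = s → g = 1)
    (hneg : ∃ g : C ≃ₐ[L] C, g s = -s) (hab : ∀ g g' : C ≃ₐ[K] C, g * g' = g' * g)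
    (R : NoNewMinus K L C s) (hb : b ≠ 0) (hc : 9 * b + 4 * a ^ 3 ≠ 0)
    (hred : ¬ ((3 : ℤ) ∣ a ∧ (3 : ℤ) ∣ b))
    (hbad : ∀ v : HeightOneSpectrum (𝓞 K), ((6 * b * (9 * b + 4 * a ^ 3) : ℤ) : 𝓞 K) ∈ v.asIdeal →
      UniqueOver K L v.asIdeal)
    (hunr : ∀ w : HeightOneSpectrum (𝓞 L), (3 : 𝓞 L) ∈ w.asIdeal →
      w.valuation L 3 = WithZero.exp (-1 : ℤ)) (E : WeierstrassCurve K)
    (hE : E = curE K a b ∨ E = curF K a b) :
    (E.baseChange L).IsElliptic ∧ CT3 K L (E.baseChange L) (inv_up rfl) := by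
  have hbad' : ∀ v : HeightOneSpectrum (𝓞 K), ((6 * b : ℤ) : 𝓞 K) ∈ v.asIdeal →
      UniqueOver K L v.asIdeal := by
    intro v hv
    refine hbad v ?_
    rw [Int.cast_mul (6 * b)]
    exact v.asIdeal.mul_mem_right _ hv
  have h1 := kt_E (K := K) (L := L) hodd RR hb hc hred hbad hunr
  have h2 := kt_G (K := K) (L := L) hodd RR hb hc hred hbad hunr
  have h3 := kt_F_pair (a := a) hodd h3n hs hgen hneg hab R hb hc hbad'
  have e1 : (-3 * (1 : K)) = -3 := by ring
  have e2 : (-3 * (-3 : K)) = 9 := by ring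
  rcases hE with rfl | rfl
  · have hE := is3_E K hb hc
    refine ⟨(hE.up (φ := algebraMap K L) rfl).isElliptic,
      i0 h3n hE (W := curF K a b) ?_ rfl rfl h1 h3⟩
    rw [e1, dl_E]
    exact is3_F K hb hc
  · have hE := is3_F K hb hc
    refine ⟨(hE.up (φ := algebraMap K L) rfl).isElliptic,
      i0 h3n hE (W := curG K a b) ?_ rfl rfl h3 h2⟩
    rw [e2, dl_F]
    exact is3_G K hb hc

end H55T3
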