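import Pool.Agent.H5.SW.C7

/-! ROW RC7 (class number formula, three part; helper46). -/

set_option autoImplicit false
set_option linter.style.haveILetI false

namespace H55T3

open NumberField H5SW

theorem class_three {p n : ℕ} [Fact p.Prime] (hp5 : 5 ≤ p) {L : Type} [Field L] [NumberField L]
    (r : RC (p ^ (n + 1)) L) : r.Cyc.index ≠ 0 ∧
      padicValNat 3 (NumberField.classNumber L) = padicValNat 3 r.Cyc.index := by
  have hp2 : p ≠ 2 := by omega
  haveI : NeZero (p ^ (n + 1)) := ⟨pow_ne_zero _ (Fact.out : p.Prime).ne_zero⟩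
  haveI : NeZero ((p ^ (n + 1) : ℕ) : ℚ) := ⟨by exact_mod_cast pow_ne_zero _ (Fact.out : p.Prime).ne_zero⟩
  haveI : IsCyclotomicExtension {p ^ (n + 1)} ℚ (CyclotomicField (p ^ (n + 1)) ℚ) :=
    CyclotomicField.isCyclotomicExtension (p ^ (n + 1)) ℚ
  letI := r.algC
  obtain ⟨hq, ζ, hζ, hC⟩ := cyc_bridge hp2 r
  haveI := hq
  haveI := r.real
  have h := H86CN.cnf p n hp2 (CyclotomicField (p ^ (n + 1)) ℚ) L ζ hζ
  rw [hC]
  exact ⟨h.1, h.2 3 Nat.prime_three (by omega)⟩

end H55T3
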