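import Pool.Agent.H55.T3.RU
import Pool.Agent.H5.SW.U4

/-!
ROW RI (the 3-part of the index of the cyclotomic units is stationary; about 160 lines).  PROOF.  Adapt Pool/Agent/H5/SW/U4.lean: `U4_le`, `U4_index` with `3` instead of `2` (`Odd j` becomes `¬ 3 ∣ j`), and
`index_two_part` with `unit_third_power` instead of `unit_odd_power` and `dw_mem_Cyc (rel_sum hθ)` instead of `U4_pw`; reuse `U4_D`, `U4_D_single`, `U4_D_prod`, `U4_D_zpow`, `U4_Cyc_iff`, `U4_norm_zpow` from there.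
-/

set_option autoImplicit false

namespace H55T3

open NumberField H5SW

variable {p m n : ℕ} {K L : Type} [Field K] [NumberField K] [Field L] [NumberField L] [Algebra K L]

section group

theorem RI_le {A B : Type} [CommGroup A] [CommGroup B] [Finite A] [Finite B] (f : A →* B)
    (hf : ∀ a, f a = 1 → ∃ j : ℕ, ¬ 3 ∣ j ∧ a ^ j = 1) :
    padicValNat 3 (Nat.card A) ≤ padicValNat 3 (Nat.card B) := by
  have : Fact (Nat.Prime 3) := ⟨Nat.prime_three⟩
  have h1 : ¬ 3 ∣ Nat.card f.ker := by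
    intro h
    obtain ⟨x, hx⟩ := exists_prime_orderOf_dvd_card' (G := f.ker) 3 h
    obtain ⟨j, hj, hxj⟩ := hf x.1 x.2
    have h2 : x ^ j = 1 := Subtype.ext hxj
    have h3 : 3 ∣ j := by
      rw [← hx]
      exact orderOf_dvd_of_pow_eq_one h2
    exact hj h3
  have h2 : Nat.card A = Nat.card f.ker * Nat.card f.range := by
    rw [← Subgroup.index_ker, Subgroup.card_mul_index]
  have h3 : Nat.card f.range ∣ Nat.card B := Subgroup.card_subgroup_dvd_card f.range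
  rw [h2, padicValNat.mul Nat.card_pos.ne' Nat.card_pos.ne', padicValNat.eq_zero_of_not_dvd h1,
    zero_add]
  exact (padicValNat_dvd_iff_le Nat.card_pos.ne').1 (pow_padicValNat_dvd.trans h3)

theorem RI_index {G H : Type} [CommGroup G] [CommGroup H] (A : Subgroup G) (B : Subgroup H)
    (hA : A.index ≠ 0) (hB : B.index ≠ 0) (i : G →* H) (hi : ∀ a ∈ A, i a ∈ B) (ν : H →* G)
    (hν : ∀ b ∈ B, ν b ∈ A) {D : ℕ} (hD : ¬ 3 ∣ D) (hνi : ∀ a, ν (i a) = a ^ D)
    (h5 : ∀ ε : H, ν ε ∈ A → ∃ j : ℕ, ¬ 3 ∣ j ∧ ε ^ j ∈ B) :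
    padicValNat 3 B.index = padicValNat 3 A.index := by
  have : A.FiniteIndex := ⟨hA⟩
  have : B.FiniteIndex := ⟨hB⟩
  have : Finite (G ⧸ A) := Subgroup.finite_quotient_of_finiteIndex
  have : Finite (H ⧸ B) := Subgroup.finite_quotient_of_finiteIndex
  let i' : G ⧸ A →* H ⧸ B := QuotientGroup.map A B i hi
  let ν' : H ⧸ B →* G ⧸ A := QuotientGroup.map B A ν hν
  apply le_antisymm
  · apply RI_le ν'
    intro b
    induction b using QuotientGroup.induction_on with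
    | H b =>
      intro hb
      change ((ν b : G) : G ⧸ A) = 1 at hb
      rw [QuotientGroup.eq_one_iff] at hb
      obtain ⟨j, hj, h⟩ := h5 b hb
      refine ⟨j, hj, ?_⟩
      rw [← QuotientGroup.mk_pow, QuotientGroup.eq_one_iff]
      exact h
  · apply RI_le i'
    intro a
    induction a using QuotientGroup.induction_on with
    | H a =>
      intro ha
      change ((i a : H) : H ⧸ B) = 1 at ha
      rw [QuotientGroup.eq_one_iff] at ha
      refine ⟨D, hD, ?_⟩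
      rw [← QuotientGroup.mk_pow, QuotientGroup.eq_one_iff, ← hνi]
      exact hν _ ha

end group

theorem index_three_part [Fact p.Prime] (hp5 : 5 ≤ p) (r : RP p m n K L) (HC : HCube r)
    (hK : r.rK.Cyc.index ≠ 0) (hL : r.rL.Cyc.index ≠ 0) :
    padicValNat 3 r.rL.Cyc.index = padicValNat 3 r.rK.Cyc.index := by
  have : IsGalois K L := r.isGalois
  have : FiniteDimensional K L := Module.Finite.of_restrictScalars_finite ℚ K L
  have hp2 : p ≠ 2 := by omega
  have hp : p.Prime := Fact.out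
  have hDo : ¬ 3 ∣ p ^ (n - m) := by
    intro h
    have h1 := (Nat.prime_dvd_prime_iff_eq Nat.prime_three hp).1 (Nat.prime_three.dvd_of_dvd_pow h)
    omega
  have hfin := r.finrank hp2
  have hle : p ^ (m + 1) ∣ p ^ (n + 1) := pow_dvd_pow p (Nat.succ_le_succ r.hmn)
  -- the two maps
  set i : (𝓞 K)ˣ →* (𝓞 L)ˣ := Units.map (algebraMap (𝓞 K) (𝓞 L)).toMonoidHom with hi
  set ν : (𝓞 L)ˣ →* (𝓞 K)ˣ := Units.map (RingOfIntegers.norm K) with hν
  have hi1 : ∀ a : (𝓞 K)ˣ, (((i a : (𝓞 L)ˣ) : 𝓞 L) : L) = algebraMap K L ((a : 𝓞 K) : K) :=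
    fun a => rfl
  have hν1 : ∀ b : (𝓞 L)ˣ, (((ν b : (𝓞 K)ˣ) : 𝓞 K) : K) = Algebra.norm K ((b : 𝓞 L) : L) :=
    fun b => rfl
  have hinj : ∀ a b : (𝓞 K)ˣ, ((a : 𝓞 K) : K) = ((b : 𝓞 K) : K) → a = b := fun a b h =>
    Units.ext (RingOfIntegers.coe_injective h)
  have hνi : ∀ a, ν (i a) = a ^ (p ^ (n - m)) := by
    intro a
    apply hinj
    rw [hν1, hi1, Algebra.norm_algebraMap, hfin]
    simp
  -- (1)
  have H1 : ∀ a ∈ r.rK.Cyc, i a ∈ r.rL.Cyc := by
    intro a ha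
    rw [U4_Cyc_iff, hi1]
    obtain ⟨θ, h1, h2⟩ := ha
    rw [← map_pow, h2, map_prod]
    have key : ∀ g : K ≃ₐ[ℚ] K, U4_D r.rL (Fintype.card (L ≃ₐ[K] L))
        (algebraMap K L (r.rK.d g)) := by
      intro g
      obtain ⟨u, hu⟩ := ZMod.unitsMap_surjective hle (r.rK.u g)
      have h3 := r.norm_d hp2 u
      rw [hu, r.rK.σ_u] at h3
      rw [← h3, Algebra.norm_eq_prod_automorphisms]
      have h4 : ∀ h : L ≃ₐ[K] L, h (r.rL.d (r.rL.σ u)) =
          r.rL.d (h.restrictScalars ℚ * r.rL.σ u) := fun h =>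
        r.rL.apply_d (h.restrictScalars ℚ) (r.rL.σ u)
      have h5 := U4_D_prod r.rL (Finset.univ : Finset (L ≃ₐ[K] L)) (fun _ => 1)
        (fun h => h (r.rL.d (r.rL.σ u))) (fun h _ => by
          rw [h4 h]
          exact U4_D_single r.rL _)
      simpa using h5
    have h6 := U4_D_prod r.rL (Finset.univ : Finset (K ≃ₐ[ℚ] K))
      (fun g => (Fintype.card (L ≃ₐ[K] L) : ℤ) * θ g)
      (fun g => algebraMap K L (r.rK.d g ^ θ g)) (fun g _ => by
        rw [map_zpow₀]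
        exact U4_D_zpow r.rL (key g) (θ g))
    rw [← Finset.mul_sum, h1, mul_zero] at h6
    exact h6
  -- (2)
  have H2 : ∀ b ∈ r.rL.Cyc, ν b ∈ r.rK.Cyc := by
    intro b hb
    rw [U4_Cyc_iff, hν1]
    obtain ⟨θ, h1, h2⟩ := hb
    rw [← map_pow, h2, map_prod]
    have h6 := U4_D_prod r.rK (Finset.univ : Finset (L ≃ₐ[ℚ] L)) (fun g => 1 * θ g)
      (fun g => Algebra.norm K (r.rL.d g ^ θ g)) (fun g _ => by
        rw [U4_norm_zpow (r.rL.d_ne_zero g)]
        have h3 := r.norm_d hp2 (r.rL.u g)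
        rw [r.rL.σ_u] at h3
        rw [h3]
        exact U4_D_zpow r.rK (U4_D_single r.rK _) (θ g))
    simp only [one_mul, h1] at h6
    exact h6
  refine RI_index _ _ hK hL i H1 ν H2 hDo hνi ?_
  intro ε hε
  set ε' : (𝓞 L)ˣ := ε ^ (p ^ (n - m)) * (i (ν ε))⁻¹ with hε'
  have h1 : ν ε' = 1 := by
    rw [hε', map_mul, map_pow, map_inv, hνi, mul_inv_cancel]
  have h2 : Algebra.norm K ((ε' : 𝓞 L) : L) = 1 := by
    rw [← hν1, h1]
    simp
  obtain ⟨j, hj, θ, hθ, h3⟩ := unit_third_power r HC ε' h2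
  refine ⟨p ^ (n - m) * j, ?_, ?_⟩
  · intro h
    rcases (Nat.Prime.dvd_mul Nat.prime_three).1 h with h | h
    · exact hDo h
    · exact hj h
  have h4 : ε ^ (p ^ (n - m) * j) = dw r.rL θ * (i (ν ε)) ^ j := by
    rw [← h3, hε', mul_pow, ← pow_mul, inv_pow, inv_mul_cancel_right]
  rw [h4]
  exact Subgroup.mul_mem _ (dw_mem_Cyc r.rL (rel_sum hθ)) (Subgroup.pow_mem _ (H1 _ hε) _)

end H55T3
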