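import Pool.Agent.H55.T3.RV
import Pool.Agent.H55.T3.RI
import Pool.Agent.H55.T3.RC7
import Pool.Agent.H55.T3.RX
import Pool.Agent.H5.SW.R1
import Pool.Agent.H10.Semi
import Pool.Agent.H10.Class

/-!
ROW RN (the pair of maximal real subfields; about 150 lines).  PROOF.  Adapt Pool/Agent/H5/SW/R1.lean.
`rn_nine`: `ε` a unit, `x = ε c^3`, `c ≠ 0`, and for every `w ∋ 3` there is `t` with `w (x t^3 - 1) ≤ w 9`: then there is `s : 𝓞 L` with `9 ∣ ε - s^3`.  As `R1_four`: `T = c t`, `w (ε T^3 - 1) ≤ w 9 < 1` so `w T = 1`;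
`w (ε - (1/T)^3) ≤ w 9`; choose `s_w ∈ 𝓞 L` with `w (s_w - 1/T) < w 9`; `(1/T)^3 - s_w^3 = (1/T - s_w)(..)`, so `w (ε - s_w^3) ≤ w 9`; at `w ∌ 3` take `s_w = 0` (`w 9 = 1`). Chinese remainder theorem as there (with `9`).
`noNewCube_pair`: `[L:K] = p^(n-m)` (`RP.finrank`) is prime to three; `class_three` for `rL`, `rK` and `index_three_part` (`HC = hCube_of ..`) give `v_3 (h_L) = v_3 (h_K)`; `cube_val_repr`: `x = ε z^3`; `rn_nine`; `unit_cube_of_nine`.
-/

set_option autoImplicit false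
set_option linter.style.haveILetI false

namespace H55T3

open NumberField IsDedekindDomain WithZero Pool.Agent.H10 H5SW

variable {p k0 : ℕ} [Fact p.Prime] {m n : ℕ} {K L : Type} [Field K] [NumberField K] [Field L] [NumberField L] [Algebra K L]

theorem rn_nine {x c : L} {ε : (𝓞 L)ˣ} (hc : c ≠ 0) (hxc : x = ((ε : 𝓞 L) : L) * c ^ 3)
    (hloc : ∀ w : HeightOneSpectrum (𝓞 L), (3 : 𝓞 L) ∈ w.asIdeal →
      ∃ t : L, w.valuation L (x * t ^ 3 - 1) ≤ w.valuation L 9) : ∃ s : 𝓞 L, (9 : 𝓞 L) ∣ (ε : 𝓞 L) - s ^ 3 := by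
  have e9 : ((9 : 𝓞 L) : L) = 9 := map_ofNat (algebraMap (𝓞 L) L) 9
  have h90 : ∀ w : HeightOneSpectrum (𝓞 L), w.valuation L 9 ≠ 0 := fun w =>
    (Valuation.ne_zero_iff _).mpr (by norm_num)
  have h9le : ∀ w : HeightOneSpectrum (𝓞 L), w.valuation L 9 ≤ 1 := fun w => by
    have := w.valuation_le_one (K := L) (9 : 𝓞 L)
    rwa [← e9]
  -- the difference of two cubes
  have hcube : ∀ (w : HeightOneSpectrum (𝓞 L)) (a b : L), w.valuation L a ≤ 1 → w.valuation L b ≤ 1 →
      w.valuation L (a - b) ≤ w.valuation L 9 → w.valuation L (a ^ 3 - b ^ 3) ≤ w.valuation L 9 := by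
    intro w a b ha hb hab
    have h1 : a ^ 3 - b ^ 3 = (a - b) * (a ^ 2 + (a * b + b ^ 2)) := by ring
    rw [h1, map_mul]
    have h2 : w.valuation L (a ^ 2 + (a * b + b ^ 2)) ≤ 1 := by
      refine (Valuation.map_add _ _ _).trans (max_le ?_ ((Valuation.map_add _ _ _).trans (max_le ?_ ?_)))
      · rw [map_pow]; exact pow_le_one₀ zero_le ha
      · rw [map_mul]; exact mul_le_one' ha hb
      · rw [map_pow]; exact pow_le_one₀ zero_le hb
    calc w.valuation L (a - b) * w.valuation L (a ^ 2 + (a * b + b ^ 2))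
        ≤ w.valuation L 9 * 1 := mul_le_mul' hab h2
      _ = _ := mul_one _
  -- local cube roots which are integers
  have hsw : ∀ w : HeightOneSpectrum (𝓞 L), ∃ s : 𝓞 L,
      w.valuation L (((ε : 𝓞 L) : L) - (s : L) ^ 3) ≤ w.valuation L 9 := by
    intro w
    by_cases hw : (3 : 𝓞 L) ∈ w.asIdeal
    · obtain ⟨t, h⟩ := hloc w hw
      have h9lt : w.valuation L 9 < 1 := by
        have h1 : (9 : 𝓞 L) ∈ w.asIdeal := by
          have : (9 : 𝓞 L) = 3 * 3 := by norm_num
          rw [this]; exact Ideal.mul_mem_left _ _ hw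
        have := (w.valuation_lt_one_iff_mem (K := L) (9 : 𝓞 L)).mpr h1
        rwa [← e9]
      set T := c * t with hT
      have hxT : x * t ^ 3 = ((ε : 𝓞 L) : L) * T ^ 3 := by rw [hxc, hT]; ring
      rw [hxT] at h
      have hVT3 : w.valuation L (T ^ 3) = 1 := by
        have h3 : w.valuation L (((ε : 𝓞 L) : L) * T ^ 3) = 1 := by
          have h2 : ((ε : 𝓞 L) : L) * T ^ 3 = (((ε : 𝓞 L) : L) * T ^ 3 - 1) + 1 := by ring
          rw [h2, Valuation.map_add_eq_of_lt_right, map_one]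
          rw [map_one]
          exact h.trans_lt h9lt
        rwa [map_mul, R1_unit_val, one_mul] at h3
      have hVT : w.valuation L T = 1 := by
        rw [map_pow] at hVT3
        exact (pow_eq_one_iff_of_nonneg zero_le three_ne_zero).mp hVT3
      have hT0 : T ≠ 0 := by
        intro h0
        rw [h0, map_zero] at hVT
        exact zero_ne_one hVT
      have hq1 : w.valuation L (1 / T) = 1 := by rw [map_div₀, map_one, hVT, div_one]
      obtain ⟨s, hs⟩ := w.exists_valuation_sub_lt_of_integer hq1.le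
        (Units.mk0 (w.valuation L 9) (h90 w))
      refine ⟨s, ?_⟩
      change w.valuation L ((s : L) - 1 / T) < w.valuation L 9 at hs
      have h5 : w.valuation L (((ε : 𝓞 L) : L) - (1 / T) ^ 3) ≤ w.valuation L 9 := by
        have h6 : ((ε : 𝓞 L) : L) - (1 / T) ^ 3 = (((ε : 𝓞 L) : L) * T ^ 3 - 1) / T ^ 3 := by
          field_simp
        rw [h6, map_div₀, hVT3, div_one]
        exact h
      have h7 : ((ε : 𝓞 L) : L) - (s : L) ^ 3 = (((ε : 𝓞 L) : L) - (1 / T) ^ 3) -
          ((s : L) ^ 3 - (1 / T) ^ 3) := by ring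
      rw [h7]
      exact (Valuation.map_sub _ _ _).trans (max_le h5
        (hcube w _ _ (w.valuation_le_one (K := L) s) hq1.le hs.le))
    · refine ⟨0, ?_⟩
      have h2 : w.valuation L 3 = 1 := by
        have h3 := val_eq_one_of_notMem hw
        have e2 : ((3 : 𝓞 L) : L) = 3 := map_ofNat (algebraMap (𝓞 L) L) 3
        rwa [e2] at h3
      have h4 : w.valuation L 9 = 1 := by
        have : (9 : L) = 3 * 3 := by norm_num
        rw [this, map_mul, h2, mul_one]
      rw [h4]
      have e0 : ((0 : 𝓞 L) : L) = 0 := map_zero (algebraMap (𝓞 L) L)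
      rw [e0, zero_pow three_ne_zero, sub_zero, R1_unit_val]
  choose s hs using hsw
  -- the Chinese remainder theorem
  have hfin : {w : HeightOneSpectrum (𝓞 L) | w.asIdeal ∣ Ideal.span {(9 : 𝓞 L)}}.Finite :=
    Ideal.finite_factors (by
      rw [Ideal.zero_eq_bot, Ne, Ideal.span_singleton_eq_bot]
      norm_num)
  obtain ⟨y, hy⟩ := IsDedekindDomain.exists_forall_sub_mem_ideal (s := hfin.toFinset)
    (fun w : HeightOneSpectrum (𝓞 L) => w.asIdeal)
    (fun w => (-(log (w.valuation L 9))).toNat) (fun w _ => w.prime)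
    (fun w _ w' _ hne h => hne (HeightOneSpectrum.ext h)) (fun w => s w.1)
  refine ⟨y, ?_⟩
  have hmem : (((ε : 𝓞 L) : L) - (y : L) ^ 3) / 9 ∈ (algebraMap (𝓞 L) L).range := by
    apply HeightOneSpectrum.mem_integers_of_valuation_le_one
    intro w
    rw [map_div₀]
    apply div_le_one_of_le₀ _ zero_le
    by_cases hw : w.asIdeal ∣ Ideal.span {(9 : 𝓞 L)}
    · have h1 := hy w (by simpa using hw)
      have h2 : w.valuation L ((y : L) - (s w : L)) ≤ w.valuation L 9 := by
        have h3 := (w.intValuation_le_pow_iff_mem _ _).mpr h1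
        rw [← w.valuation_of_algebraMap (K := L)] at h3
        have e5 : ((y - s w : 𝓞 L) : L) = (y : L) - (s w : L) :=
          map_sub (algebraMap (𝓞 L) L) y (s w)
        change w.valuation L ((y - s w : 𝓞 L) : L) ≤ _ at h3
        rw [e5] at h3
        refine h3.trans ?_
        conv_rhs => rw [← exp_log (h90 w)]
        rw [exp_le_exp]
        have h5 := h9le w
        rw [← exp_log (h90 w), ← exp_zero, exp_le_exp] at h5
        omega
      have h7 : ((ε : 𝓞 L) : L) - (y : L) ^ 3 = (((ε : 𝓞 L) : L) - (s w : L) ^ 3) -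
        ((y : L) ^ 3 - (s w : L) ^ 3) := by ring
      rw [h7]
      exact (Valuation.map_sub _ _ _).trans (max_le (hs w)
        (hcube w _ _ (w.valuation_le_one (K := L) y) (w.valuation_le_one (K := L) (s w)) h2))
    · have h1 : (9 : 𝓞 L) ∉ w.asIdeal := fun h => hw (Ideal.dvd_span_singleton.mpr h)
      have h2 := val_eq_one_of_notMem h1
      rw [e9] at h2
      rw [h2]
      exact (Valuation.map_sub _ _ _).trans (max_le (R1_unit_val ε w).le (by
        rw [map_pow]
        exact pow_le_one₀ zero_le (w.valuation_le_one (K := L) y)))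
  obtain ⟨q, hq⟩ := hmem
  refine ⟨q, ?_⟩
  apply (RingOfIntegers.coe_injective (K := L))
  rw [map_sub, map_pow, map_mul, hq, map_ofNat]
  field_simp

theorem noNewCube_pair (hp5 : 5 ≤ p) (hS : NV3 p k0) (hm : k0 ≤ m + 1) (r : RP p m n K L) : NoNewCube K L := by
  have hp2 : p ≠ 2 := by omega
  have h3 : ¬ 3 ∣ Module.finrank K L := by
    rw [r.finrank hp2]
    intro h
    have h1 := Nat.prime_three.dvd_of_dvd_pow h
    have h2 := (Nat.prime_dvd_prime_iff_eq Nat.prime_three (Fact.out : p.Prime)).mp h1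
    omega
  obtain ⟨hL1, hL2⟩ := class_three hp5 r.rL
  obtain ⟨hK1, hK2⟩ := class_three hp5 r.rK
  have hcl : padicValNat 3 (NumberField.classNumber L) = padicValNat 3 (NumberField.classNumber K) := by
    rw [hL2, hK2]
    exact index_three_part hp5 r (hCube_of hp5 hS hm r) hK1 hL1
  intro x hx hev hloc hN
  obtain ⟨ε, c, hc, hxc, hNε⟩ := cube_val_repr h3 hcl hx hev hN
  obtain ⟨s, hs⟩ := rn_nine hc hxc hloc
  obtain ⟨δ, hδ⟩ := unit_cube_of_nine hp5 hS hm r ε hNε hs
  refine ⟨((δ : 𝓞 L) : L) * c, ?_⟩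
  rw [hxc, hδ]
  push_cast
  ring

end H55T3
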