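import Pool.Agent.H55.T3.R0
import Pool.Agent.H5.SW.U1

/-!
ROW RU (units of relative norm one; about 150 lines).  PROOF.  Adapt Pool/Agent/H5/SW/U1.lean from `U1_norm_pw` on; reuse its public lemmas `U1_M`, `U1_rankM`, `U1_rankU`, `U1_range`, `U1_rank`, `U1_nu`, `U1_mem`,
`U1_norm_mul`, `U1_norm_pow`. `dw` replaces `pw`, `dwHom` replaces `U1_hom`, `dw_neg`, `dw_smul` are in R0.
(1) `ru_norm`: `N_{L/K} (dw θ) = 1` for `Rel K L θ`: as `U1_norm_pw`, with `dw_coe (rel_sum hθ)` and `RC.apply_d` instead of `U1_coe`, `apply_e`.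
(2) `ru_cube`: if `dw θ = u^3` and `Rel θ`, then `θ = 3 θ'`, `Rel θ'`, `u = dw θ'`: `HC` gives `θ'`, `dw θ = dw θ' ^ 3` (`dw_smul`), `unit_cube_inj`.
(3) injectivity: `dw θ = 1`, `Rel θ` imply `3^k ∣ θ g` for all `k` (apply (2) with `u = 1`), so `θ = 0`.
(4) ranks exactly as in `unit_odd_power`: for `ε` of norm one some `ε^l = dw θ`, `l ≥ 1`, `Rel θ`; take `l` minimal; if `3 ∣ l`, `l = 3 q`, then `(ε^q)^3 = dw θ`, so by (2) `ε^q = dw θ'`, contradiction. So `¬ 3 ∣ l`.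
-/

set_option autoImplicit false

namespace H55T3

open NumberField H5SW

variable {p m n : ℕ} {K L : Type} [Field K] [NumberField K] [Field L] [NumberField L] [Algebra K L]

theorem ru_norm (r : RP p m n K L) {θ : (L ≃ₐ[ℚ] L) → ℤ} (hθ : Rel K L θ) :
    Algebra.norm K ((dw r.rL θ : 𝓞 L) : L) = 1 := by
  have hG := r.isGalois
  apply (algebraMap K L).injective
  rw [Algebra.norm_eq_prod_automorphisms, map_one]
  have h1 : ∀ h : L ≃ₐ[K] L, h ((dw r.rL θ : 𝓞 L) : L) =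
      ∏ g, r.rL.d g ^ θ ((h.restrictScalars ℚ)⁻¹ * g) := by
    intro h
    rw [dw_coe r.rL (rel_sum hθ), map_prod]
    rw [← Equiv.prod_comp (Equiv.mulLeft (h.restrictScalars ℚ))
      (fun g => r.rL.d g ^ θ ((h.restrictScalars ℚ)⁻¹ * g))]
    refine Finset.prod_congr rfl fun g _ => ?_
    rw [map_zpow₀, Equiv.coe_mulLeft, inv_mul_cancel_left, ← r.rL.apply_d]
    rfl
  rw [Finset.prod_congr rfl fun h _ => h1 h, Finset.prod_comm]
  refine Finset.prod_eq_one fun g _ => ?_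
  have h2 : ∀ S : Finset (L ≃ₐ[K] L),
      ∏ h ∈ S, r.rL.d g ^ θ ((h.restrictScalars ℚ)⁻¹ * g) =
      r.rL.d g ^ (∑ h ∈ S, θ ((h.restrictScalars ℚ)⁻¹ * g)) := by
    classical
    intro S
    induction S using Finset.induction_on with
    | empty => simp
    | insert a S ha ih =>
      rw [Finset.prod_insert ha, Finset.sum_insert ha, ih, zpow_add₀ (r.rL.d_ne_zero g)]
  rw [h2]
  have h3 : ∑ h : L ≃ₐ[K] L, θ ((h.restrictScalars ℚ)⁻¹ * g) = 0 := by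
    rw [← hθ g, ← Equiv.sum_comp (Equiv.inv (L ≃ₐ[K] L))
      (fun h : L ≃ₐ[K] L => θ (g * h.restrictScalars ℚ))]
    refine Finset.sum_congr rfl fun h _ => ?_
    rw [r.rL.gal_comm]
    rfl
  rw [h3, zpow_zero]

/-- cubes have exponents divisible by three -/
theorem RU_cube (r : RP p m n K L) (HC : HCube r) {θ : (L ≃ₐ[ℚ] L) → ℤ} (hθ : Rel K L θ)
    {u : (𝓞 L)ˣ} (h : dw r.rL θ = u ^ 3) :
    ∃ θ' : (L ≃ₐ[ℚ] L) → ℤ, Rel K L θ' ∧ (∀ g, θ g = 3 * θ' g) ∧ u = dw r.rL θ' := by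
  choose θ' hθ' using HC θ hθ u h
  have h4 : Rel K L θ' := by
    intro g
    have h5 := hθ g
    rw [Finset.sum_congr rfl fun h _ => hθ' (g * h.restrictScalars ℚ), ← Finset.mul_sum] at h5
    omega
  refine ⟨θ', h4, hθ', ?_⟩
  have h6 : dw r.rL θ = dw r.rL θ' ^ 3 := by
    have h7 : θ = fun g => 3 * θ' g := funext hθ'
    rw [h7, dw_smul]
    rfl
  exact unit_cube_inj r.rL (h.symm.trans h6)

theorem RU_inj (r : RP p m n K L) (HC : HCube r) (k : ℕ) :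
    ∀ θ : (L ≃ₐ[ℚ] L) → ℤ, Rel K L θ → dw r.rL θ = 1 → ∀ g, (3 : ℤ) ^ k ∣ θ g := by
  induction k with
  | zero => intro θ _ _ g; simp
  | succ k ih =>
    intro θ hθ h g
    obtain ⟨θ', h1, h2, h3⟩ := RU_cube r HC hθ (u := 1) (by rw [h, one_pow])
    rw [h2, pow_succ, mul_comm]
    exact mul_dvd_mul_left 3 (ih θ' h1 h3.symm g)

theorem RU_zero (r : RP p m n K L) (HC : HCube r)
    {θ : (L ≃ₐ[ℚ] L) → ℤ} (hθ : Rel K L θ) (h : dw r.rL θ = 1) : θ = 0 := by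
  funext g
  have h1 := RU_inj r HC (θ g).natAbs θ hθ h g
  refine Int.eq_zero_of_abs_lt_dvd h1 ?_
  rw [Int.abs_eq_natAbs]
  exact_mod_cast Nat.lt_pow_self (by norm_num : 1 < 3)

theorem unit_third_power [Fact p.Prime] (r : RP p m n K L) (HC : HCube r) (ε : (𝓞 L)ˣ)
    (hε : Algebra.norm K ((ε : 𝓞 L) : L) = 1) :
    ∃ j : ℕ, ¬ 3 ∣ j ∧ ∃ θ : (L ≃ₐ[ℚ] L) → ℤ, Rel K L θ ∧ ε ^ j = dw r.rL θ := by
  classical
  have hG := r.isGalois
  have hL := U1_rankU L r.rL.real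
  have hK := U1_rankU K r.rK.real
  have hM := U1_rankM r
  have hB := U1_range (U1_nu K L) (Module.finrank K L : ℤ)
    (by exact_mod_cast (Module.finrank_pos (R := K) (M := L)).ne') (by
      intro b
      refine ⟨Additive.ofMul (Units.map (algebraMap (𝓞 K) (𝓞 L) : 𝓞 K →* 𝓞 L) b.toMul), ?_⟩
      have h1 : U1_nu K L (Additive.ofMul
          (Units.map (algebraMap (𝓞 K) (𝓞 L) : 𝓞 K →* 𝓞 L) b.toMul)) =
          Additive.ofMul (b.toMul ^ Module.finrank K L) := by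
        apply congrArg Additive.ofMul
        apply Units.ext
        exact RingOfIntegers.norm_algebraMap K _
      rw [h1, ofMul_pow, natCast_zsmul]
      rfl)
  let Φ : U1_M K L →ₗ[ℤ] LinearMap.ker (U1_nu K L) :=
    LinearMap.codRestrict _ ((dwHom r.rL).toIntLinearMap.comp (U1_M K L).subtype)
      (fun θ => (U1_mem _).2 (ru_norm r θ.2))
  have hΦ : ∀ θ : U1_M K L, ((Φ θ : LinearMap.ker (U1_nu K L)) : Additive (𝓞 L)ˣ) =
      Additive.ofMul (dw r.rL θ.1) := fun θ => rfl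
  have hinj : Function.Injective Φ := by
    rw [← LinearMap.ker_eq_bot, LinearMap.ker_eq_bot']
    intro θ hθ
    have h1 := hΦ θ
    rw [hθ] at h1
    have h2 : dw r.rL θ.1 = 1 := by
      have := congrArg Additive.toMul h1
      exact this.symm
    exact Subtype.ext (RU_zero r HC θ.2 h2)
  obtain ⟨k, hk, θ, hθ⟩ := U1_rank Φ hinj (by omega) ⟨Additive.ofMul ε, (U1_mem ε).2 hε⟩
  have h1 : ε ^ k = dw r.rL θ.1 := by
    have h2 := congrArg (fun x : LinearMap.ker (U1_nu K L) => Additive.toMul (x : Additive (𝓞 L)ˣ)) hθ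
    exact h2
  -- a positive exponent
  have hex : ∃ l : ℕ, 0 < l ∧ ∃ θ : (L ≃ₐ[ℚ] L) → ℤ, Rel K L θ ∧ ε ^ l = dw r.rL θ := by
    rcases lt_or_gt_of_ne hk with h3 | h3
    · refine ⟨k.natAbs, by omega, -θ.1, (U1_M K L).neg_mem θ.2, ?_⟩
      rw [dw_neg, ← h1, ← zpow_natCast, ← zpow_neg]
      congr 1
      omega
    · refine ⟨k.natAbs, by omega, θ.1, θ.2, ?_⟩
      rw [← h1, ← zpow_natCast]
      congr 1
      omega
  obtain ⟨hl0, θ0, hθ0, hl1⟩ := Nat.find_spec hex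
  refine ⟨Nat.find hex, ?_, θ0, hθ0, hl1⟩
  rintro ⟨q, hq⟩
  rw [hq, mul_comm, pow_mul] at hl1
  obtain ⟨θ', h5, -, h6⟩ := RU_cube r HC hθ0 hl1.symm
  exact Nat.find_min hex (m := q) (by omega) ⟨by omega, θ', h5, h6⟩

end H55T3
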