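import Pool.Agent.H55.T3.RU
import Pool.Agent.H55.T3.RK

/-!
ROW RV (units that are cubes; about 120 lines).  PROOF.  Adapt Pool/Agent/H5/SW/U2.lean (`u2_dec`, `unit_sq_of_four`).  `D = [L:K] = p^(n-m)` (`RP.finrank`), prime to `3`.
Let `N_{L/K} ε = η^3`, `η` a unit of `𝓞 K`, `η_L` its image. `ε' = ε^D * (η_L^3)⁻¹` has norm `(η^3)^D / (η^(3 D)) = 1`, so `ε'^j = dw θ`, `¬ 3 ∣ j` (`unit_third_power`). So `ε^(D j) = dw θ * (η_L^j)^3`,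
`¬ 3 ∣ D j`; choose `k, i : ℕ` with `D j k = 3 i + 1` (`k = D j mod 3` works: `(D j)^2 = 1 mod 3`): `ε = ε^(D j k) * ε^(-3 i) = dw (k θ) * δ^3`.
If `9 ∣ ε - s^3` then `9 ∣ dw (k θ) - (s δ⁻¹)^3`, so `3 ∣ k θ g` for all `g` (`three_dvd_of_nine`), `dw (k θ)` is a cube (`dw_smul`), `ε` is a cube.
-/

set_option autoImplicit false

namespace H55T3

open NumberField H5SW

variable {p k0 : ℕ} [Fact p.Prime] {m n : ℕ} {K L : Type} [Field K] [NumberField K] [Field L] [NumberField L] [Algebra K L]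

private lemma rv_grp {G : Type*} [CommGroup G] (e h : G) (D j k i : ℕ) (hki : D * j * k = 3 * i + 1) :
    e = ((e ^ D * (h ^ 3)⁻¹) ^ j) ^ k * (h ^ (j * k) * (e ^ i)⁻¹) ^ 3 := by
  have a1 : ((e ^ D * (h ^ 3)⁻¹) ^ j) ^ k = e ^ (D * j * k) * (h ^ (3 * (j * k)))⁻¹ := by
    rw [← pow_mul, mul_pow, ← pow_mul, inv_pow, ← pow_mul, mul_assoc D j k]
  have a2 : (h ^ (j * k) * (e ^ i)⁻¹) ^ 3 = h ^ (3 * (j * k)) * (e ^ (3 * i))⁻¹ := by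
    rw [mul_pow, inv_pow, ← pow_mul, ← pow_mul, mul_comm (j * k) 3, mul_comm i 3]
  rw [a1, a2, hki, pow_succ, mul_assoc, inv_mul_cancel_left, mul_comm (e ^ (3 * i)) e, mul_inv_cancel_right]

private lemma rv_dec (hp5 : 5 ≤ p) (hS : NV3 p k0) (hm : k0 ≤ m + 1) (r : RP p m n K L) (ε : (𝓞 L)ˣ)
    (hN : ∃ y : K, Algebra.norm K ((ε : 𝓞 L) : L) = y ^ 3) :
    ∃ θ : (L ≃ₐ[ℚ] L) → ℤ, Rel K L θ ∧ ∃ δ : (𝓞 L)ˣ, ε = dw r.rL θ * δ ^ 3 := by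
  have : Module.Finite K L := Module.Finite.of_restrictScalars_finite ℚ K L
  have hp : p.Prime := Fact.out
  obtain ⟨η, hη⟩ := hN
  have hint : IsIntegral ℤ (Algebra.norm K ((ε : 𝓞 L) : L)) :=
    Algebra.isIntegral_norm K (RingOfIntegers.isIntegral_coe (ε : 𝓞 L))
  have hηint : IsIntegral ℤ η := by
    refine IsIntegral.of_pow (n := 3) (by norm_num) ?_
    rw [← hη]; exact hint
  have hint' : IsIntegral ℤ (Algebra.norm K (((ε⁻¹ : (𝓞 L)ˣ) : 𝓞 L) : L)) :=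
    Algebra.isIntegral_norm K (RingOfIntegers.isIntegral_coe _)
  have hmul : Algebra.norm K ((ε : 𝓞 L) : L) * Algebra.norm K (((ε⁻¹ : (𝓞 L)ˣ) : 𝓞 L) : L) = 1 := by
    rw [← map_mul, ← map_mul, Units.mul_inv, map_one, map_one]
  let η0 : 𝓞 K := ⟨η, hηint⟩
  let ν' : 𝓞 K := ⟨_, hint'⟩
  have h1 : η0 * (η0 ^ 2 * ν') = 1 := by
    apply RingOfIntegers.coe_injective
    show (algebraMap (𝓞 K) K) (η0 * (η0 ^ 2 * ν')) = algebraMap (𝓞 K) K 1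
    rw [map_mul, map_mul, map_pow, map_one]
    show η * (η ^ 2 * Algebra.norm K (((ε⁻¹ : (𝓞 L)ˣ) : 𝓞 L) : L)) = 1
    have h2 : η * η ^ 2 = η ^ 3 := by ring
    rw [← mul_assoc, h2, ← hη, hmul]
  let ηu : (𝓞 K)ˣ := ⟨η0, η0 ^ 2 * ν', h1, by rw [mul_comm]; exact h1⟩
  let hu : (𝓞 L)ˣ := Units.map (algebraMap (𝓞 K) (𝓞 L)).toMonoidHom ηu
  have hhu : ((hu : 𝓞 L) : L) = algebraMap K L η := by
    show algebraMap (𝓞 L) L (algebraMap (𝓞 K) (𝓞 L) η0) = algebraMap K L η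
    rw [← IsScalarTower.algebraMap_apply (𝓞 K) (𝓞 L) L, IsScalarTower.algebraMap_apply (𝓞 K) K L]
    rfl
  set D := Module.finrank K L with hD
  have hD3 : ¬ 3 ∣ D := by
    rw [hD, r.finrank (by omega)]
    intro h3
    have h4 := Nat.prime_three.dvd_of_dvd_pow h3
    have h5 := (Nat.prime_dvd_prime_iff_eq Nat.prime_three hp).1 h4
    omega
  let ε' : (𝓞 L)ˣ := ε ^ D * (hu ^ 3)⁻¹
  have hε' : Algebra.norm K ((ε' : 𝓞 L) : L) = 1 := by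
    have h2 : ((ε' : 𝓞 L) : L) * ((hu : 𝓞 L) : L) ^ 3 = ((ε : 𝓞 L) : L) ^ D := by
      rw [← map_pow, ← map_pow, ← map_mul, ← Units.val_pow_eq_pow_val, ← Units.val_pow_eq_pow_val, ← Units.val_mul]
      congr 2
      simp only [ε', inv_mul_cancel_right]
    have h3 := congrArg (Algebra.norm K) h2
    rw [map_mul, map_pow, map_pow, hhu, Algebra.norm_algebraMap, ← hD, hη, ← pow_mul, mul_comm D 3, pow_mul] at h3
    have hη0 : η ≠ 0 := by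
      intro h0
      rw [h0, zero_pow (by norm_num)] at hη
      rw [hη, zero_mul] at hmul
      exact zero_ne_one hmul
    have h4 : (η ^ 3) ^ D ≠ 0 := pow_ne_zero _ (pow_ne_zero _ hη0)
    exact mul_right_cancel₀ h4 (by rw [h3, one_mul])
  obtain ⟨j, hj, θ, hθ, hpw⟩ := unit_third_power r (hCube_of hp5 hS hm r) ε' hε'
  have hDj : ¬ 3 ∣ D * j := fun h => (Nat.prime_three.dvd_mul.1 h).elim hD3 hj
  obtain ⟨k, i, hki⟩ : ∃ k i : ℕ, D * j * k = 3 * i + 1 := by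
    have h5 : D * j % 3 = 1 ∨ D * j % 3 = 2 := by omega
    rcases h5 with h5 | h5
    · exact ⟨1, D * j / 3, by omega⟩
    · exact ⟨2, 2 * (D * j / 3) + 1, by omega⟩
  refine ⟨fun g => (k : ℤ) * θ g, ?_, ?_⟩
  · intro g
    have h6 := hθ g
    rw [← Finset.mul_sum, h6, mul_zero]
  · refine ⟨hu ^ (j * k) * (ε ^ i)⁻¹, ?_⟩
    rw [dw_smul, zpow_natCast, ← hpw]
    show ε = ((ε ^ D * (hu ^ 3)⁻¹) ^ j) ^ k * (hu ^ (j * k) * (ε ^ i)⁻¹) ^ 3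
    exact rv_grp ε hu D j k i hki

theorem unit_cube_of_nine (hp5 : 5 ≤ p) (hS : NV3 p k0) (hm : k0 ≤ m + 1) (r : RP p m n K L) (ε : (𝓞 L)ˣ)
    (hN : ∃ y : K, Algebra.norm K ((ε : 𝓞 L) : L) = y ^ 3) {s : 𝓞 L} (h : (9 : 𝓞 L) ∣ (ε : 𝓞 L) - s ^ 3) :
    ∃ δ : (𝓞 L)ˣ, ε = δ ^ 3 := by
  obtain ⟨θ, hθ, δ, hδ⟩ := rv_dec hp5 hS hm r ε hN
  have h9 : (9 : 𝓞 L) ∣ (dw r.rL θ : 𝓞 L) - (s * ((δ⁻¹ : (𝓞 L)ˣ) : 𝓞 L)) ^ 3 := by
    have h5 : (dw r.rL θ : 𝓞 L) - (s * ((δ⁻¹ : (𝓞 L)ˣ) : 𝓞 L)) ^ 3 =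
        ((ε : 𝓞 L) - s ^ 3) * ((δ⁻¹ : (𝓞 L)ˣ) : 𝓞 L) ^ 3 := by
      have h6 : (ε : 𝓞 L) * ((δ⁻¹ : (𝓞 L)ˣ) : 𝓞 L) ^ 3 = (dw r.rL θ : 𝓞 L) := by
        rw [← Units.val_pow_eq_pow_val, ← Units.val_mul, hδ, inv_pow, mul_inv_cancel_right]
      rw [sub_mul, h6, mul_pow]
    rw [h5]
    exact Dvd.dvd.mul_right h _
  have hdv := three_dvd_of_nine hp5 hS hm r θ hθ h9
  choose θ' hθ' using hdv
  refine ⟨dw r.rL θ' * δ, ?_⟩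
  have h7 : dw r.rL θ = dw r.rL θ' ^ 3 := by
    have h8 : θ = fun g => (3 : ℤ) * θ' g := funext hθ'
    rw [h8, dw_smul]
    exact zpow_natCast _ 3
  rw [mul_pow, ← h7]
  exact hδ

end H55T3
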