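import Pool.Agent.H78.MG.Pb
import Pool.Agent.H55.T3.KD

/-!
Pairs with central Galois group (adaptation of helper78's H78/MG/Pb.lean): only the elements of `Gal(F/Km)` have to
commute with `Gal(F/K)` (helper55, MP_78d38b_T3D over fields of 3-type; no row).
-/

set_option autoImplicit false
open scoped Classical

open IsDedekindDomain NumberField Finset H78M

namespace H55T3

/-- The pair `K ⊆ L` inside the pair `Km ⊆ F`; `Gal(F/Km)` is central in `Gal(F/K)` and maps onto `Gal(L/K)`. -/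
structure SNC (K Km L F : Type) [Field K] [NumberField K] [Field Km] [NumberField Km] [Field L] [NumberField L]
    [Field F] [NumberField F] [Algebra K Km] [Algebra Km F] [Algebra K F] [Algebra K L] [Algebra L F] : Prop where
  galF : IsGalois K F
  galL : IsGalois K L
  nl : ¬ 3 ∣ Module.finrank Km F
  cen : ∀ (g : F ≃ₐ[Km] F) (h : F ≃ₐ[K] F) (x : F), g (h x) = h (g x)
  cov : ∀ t : L ≃ₐ[K] L, ∃ g : F ≃ₐ[Km] F, ∀ x : L, g (algebraMap L F x) = algebraMap L F (t x)

variable {l : ℕ} [Fact l.Prime] {K Km B F : Type} [Field K] [NumberField K] [Field Km] [NumberField Km]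
  [Field B] [NumberField B] [Field F] [NumberField F] [Algebra K Km] [Algebra Km F] [Algebra K F]
  [IsScalarTower K Km F] [Algebra K B] [Algebra B F] [IsScalarTower K B F] {P : (B ≃ₐ[K] B) → Prop}

private theorem S1_r {K Km B F : Type} [Field K] [NumberField K] [Field Km] [NumberField Km]
    [Field B] [NumberField B] [Field F] [NumberField F] [Algebra Km F] [Algebra K B]
    [Algebra B F] {P : (B ≃ₐ[K] B) → Prop} (X : PairK K Km B F P) :
    ∃ (r : (F ≃ₐ[Km] F) → (B ≃ₐ[K] B)) (c : ℕ),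
      (∀ g, P (r g) ∧ ∀ x, g (algebraMap B F x) = algebraMap B F (r g x)) ∧
      ∀ h, P h → (univ.filter (fun g : F ≃ₐ[Km] F => r g = h)).card = c := by
  have hex : ∀ g : F ≃ₐ[Km] F, ∃ h : B ≃ₐ[K] B, P h ∧
    ∀ x, g (algebraMap B F x) = algebraMap B F (h x) := X.res
  choose r hr using hex
  have huniq : ∀ (g : F ≃ₐ[Km] F) (h : B ≃ₐ[K] B),
      (∀ x, g (algebraMap B F x) = algebraMap B F (h x)) → r g = h := by
    intro g h hx
    refine AlgEquiv.ext fun x => ?_
    apply (algebraMap B F).injective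
    rw [← (hr g).2 x, hx x]
  refine ⟨r, (univ.filter (fun g : F ≃ₐ[Km] F => r g = 1)).card, hr, ?_⟩
  intro h hh
  obtain ⟨g₀, hx₀⟩ := X.cov h hh
  symm
  refine Finset.card_bij (fun g _ => g₀ * g) ?_ ?_ ?_
  · intro g hg
    rw [Finset.mem_filter] at hg
    rw [Finset.mem_filter]
    refine ⟨Finset.mem_univ _, ?_⟩
    apply huniq
    intro x
    rw [AlgEquiv.mul_apply, (hr g).2 x, hg.2, hx₀]
    rfl
  · intro g _ g' _ hgg
    exact mul_left_cancel hgg
  · intro g hg
    rw [Finset.mem_filter] at hg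
    refine ⟨g₀⁻¹ * g, ?_, by rw [mul_inv_cancel_left]⟩
    rw [Finset.mem_filter]
    refine ⟨Finset.mem_univ _, ?_⟩
    apply huniq
    intro x
    apply g₀.injective
    have h2 : g₀ ((g₀⁻¹ * g) (algebraMap B F x)) = (g₀ * (g₀⁻¹ * g)) (algebraMap B F x) := rfl
    rw [h2, mul_inv_cancel_left, (hr g).2 x, hg.2, hx₀]
    rfl

theorem down_C [IsGalois K F] (hab : ∀ (g : F ≃ₐ[Km] F) (h : F ≃ₐ[K] F) (x : F), g (h x) = h (g x)) (hn : ¬ l ∣ Module.finrank Km F)
    (hμ : ∀ z : F, z ^ l = 1 → ∃ y : Km, algebraMap Km F y = z) (X : PairK K Km B F P) {e : B} (he : e ≠ 0)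
    (hN : ∃ y, ∏ h ∈ univ.filter P, h e = y ^ l) {y : F} (hy : algebraMap B F e = y ^ l) : ∃ y : B, e = y ^ l := by
  have hl : l.Prime := Fact.out
  have hgal : IsGalois Km F := IsGalois.tower_top_of_isGalois K Km F
  have hgalB : IsGalois B F := IsGalois.tower_top_of_isGalois K B F
  obtain ⟨r, c0, hr, hc0⟩ := S1_r X
  have hιe : algebraMap B F e ≠ 0 := by rw [Ne, map_eq_zero]; exact he
  have hy0 : y ≠ 0 := by
    rintro rfl
    exact hιe (by rw [hy, zero_pow hl.ne_zero])
  have hcard : Module.finrank Km F = (univ.filter P).card * c0 := by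
    rw [← IsGalois.card_aut_eq_finrank Km F, Nat.card_eq_fintype_card, ← Finset.card_univ]
    rw [Finset.card_eq_sum_card_fiberwise (f := r) (t := univ.filter P)
      (fun g _ => Finset.mem_coe.2 (Finset.mem_filter.2 ⟨Finset.mem_univ _, (hr g).1⟩))]
    rw [Finset.sum_congr rfl (fun h hh => hc0 h (Finset.mem_filter.1 hh).2), Finset.sum_const,
      smul_eq_mul]
  have hcop : ((univ.filter P).card).Coprime l := by
    rw [Nat.coprime_comm, Nat.Prime.coprime_iff_not_dvd hl]
    intro h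
    apply hn
    rw [hcard]
    exact Dvd.dvd.mul_right h _
  have key : ∀ h : B ≃ₐ[K] B, P h → ∃ c : B, e = h e * c ^ l := by
    intro h hh
    obtain ⟨g, hx⟩ := X.cov h hh
    have hgy0 : g y ≠ 0 := by
      intro h0
      exact hy0 (by simpa using h0)
    have hfix : ∀ δ : F ≃ₐ[B] F, δ (y / g y) = y / g y := by
      intro δ
      have hδe : δ (algebraMap B F e) = algebraMap B F e := δ.commutes e
      have hδy0 : δ y ≠ 0 := by
        intro h0
        exact hy0 (by simpa using h0)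
      have h1 : (δ y / y) ^ l = 1 := by
        rw [div_pow, ← map_pow, ← hy, hδe]
        exact div_self hιe
      obtain ⟨k, hk⟩ := hμ _ h1
      have h2 : g (δ y / y) = δ y / y := by
        rw [← hk]
        exact g.commutes k
      have hcomm : δ (g y) = g (δ y) := (hab g (δ.restrictScalars K) y).symm
      rw [map_div₀] at h2
      rw [map_div₀, hcomm, div_eq_div_iff (by intro h0; exact hδy0 (by simpa using h0)) hgy0]
      rw [div_eq_div_iff hgy0 hy0] at h2
      linear_combination -h2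
    obtain ⟨c, hc⟩ := (IsGalois.mem_range_algebraMap_iff_fixed (F := B) (E := F) (y / g y)).2 hfix
    refine ⟨c, ?_⟩
    apply (algebraMap B F).injective
    rw [map_mul, map_pow, hc, ← hx, hy, map_pow, div_pow]
    field_simp
  choose! c hc using key
  obtain ⟨y₁, hy₁⟩ := hN
  have hprod : e ^ (univ.filter P).card = (y₁ * ∏ h ∈ univ.filter P, c h) ^ l := by
    rw [← Finset.prod_const, mul_pow, ← hy₁, ← Finset.prod_pow, ← Finset.prod_mul_distrib]
    exact Finset.prod_congr rfl fun h hh => hc h (Finset.mem_filter.1 hh).2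
  exact pow_of_coprime hcop he ⟨_, hprod⟩ ⟨e, rfl⟩

theorem pair_C [IsGalois K F] (hab : ∀ (g : F ≃ₐ[Km] F) (h : F ≃ₐ[K] F) (x : F), g (h x) = h (g x)) (hn : ¬ l ∣ Module.finrank Km F)
    (hμ : ∀ z : F, z ^ l = 1 → ∃ y : Km, algebraMap Km F y = z) {Q : Set (F ≃+* F)} {J : F ≃+* F}
    (HE : H68TL.NoNewE l Km F Q J) (X : PairK K Km B F P) {e : B} (he : e ≠ 0)
    (hv : ∀ w : HeightOneSpectrum (𝓞 B), (l : ℤ) ∣ WithZero.log (w.valuation B e))
    (hN : ∃ y, ∏ h ∈ univ.filter P, h e = y ^ l)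
    (hQ : ∀ τ ∈ Q, ∃ y, τ (algebraMap B F e) = algebraMap B F e * y ^ l)
    (hJ : ∃ y, algebraMap B F e * J (algebraMap B F e) = y ^ l) : ∃ y : B, e = y ^ l := by
  have hιe : algebraMap B F e ≠ 0 := by rw [Ne, map_eq_zero]; exact he
  have hvF : ∀ W : HeightOneSpectrum (𝓞 F), (l : ℤ) ∣ WithZero.log (W.valuation F (algebraMap B F e)) := by
    intro W
    have hbot : W.asIdeal.under (𝓞 B) ≠ ⊥ := Ideal.IsIntegral.comap_ne_bot _ W.ne_bot
    let w : HeightOneSpectrum (𝓞 B) := ⟨W.asIdeal.under (𝓞 B), inferInstance, hbot⟩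
    have : W.asIdeal.LiesOver w.asIdeal := ⟨rfl⟩
    have h1 := HeightOneSpectrum.valuation_liesOver (K := B) F w W e
    rw [← h1, WithZero.log_pow, nsmul_eq_mul]
    exact (hv w).mul_left _
  obtain ⟨y, hy⟩ := HE (algebraMap B F e) hιe hvF (prod_K X hN) hQ hJ
  exact down_C hab hn hμ X he hN hy

end H55T3
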