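import Pool.Agent.H55.T3.S8

/-!
Stability for a pair of layers over a field of three-type, `D` a square in `K` (MP_78d38b_T3D,
helper55; no row).
-/

set_option autoImplicit false
set_option linter.style.haveILetI false
open scoped Classical

open WeierstrassCurve IsDedekindDomain NumberField WithZero Pool.Agent.H10 Pool.Agent.H11 H5SW

namespace H55T3

variable {k κ K L : Type} [Field k] [NumberField k] [Field κ] [NumberField κ] [Field K]
  [NumberField K] [Field L] [NumberField L] [Algebra k κ] [Algebra k K] [Algebra k L]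
  [Algebra K L] [IsScalarTower k K L] [IsGalois K L] {m : ℤ} {t0 : κ}

/-- `D` is a square in `K`. -/
theorem pair_sq (X : Conf k κ K L m t0 (algebraMap k K)) {D α β : 𝓞 k} (hD0 : D ≠ 0)
    (hβ : β ≠ 0) (hγ : 27 * β - 4 * D * α ^ 3 ≠ 0)
    (hm : ∃ y : 𝓞 k, (m : 𝓞 k) = 6 * D * β * (27 * β - 4 * D * α ^ 3) * y)
    (hunr : ∀ w : HeightOneSpectrum (𝓞 L), (3 : 𝓞 L) ∈ w.asIdeal →
      w.valuation L 3 = exp (-1 : ℤ))
    (hgood : ∀ w : HeightOneSpectrum (𝓞 L), (3 : 𝓞 L) ∈ w.asIdeal →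
      GoodVO (w.valuation L) (algebraMap k L (D : k)) (algebraMap k L (α : k))
        (algebraMap k L (β : k)))
    (hz : ∃ z : K, z ^ 2 = algebraMap k K (D : k)) (E : WeierstrassCurve K)
    (hE : E = curWD (algebraMap k K (D : k)) (algebraMap k K (α : k)) (algebraMap k K (β : k)) ∨
      E = curVD (algebraMap k K (D : k)) (algebraMap k K (α : k))
        (algebraMap k K ((27 * β - 4 * D * α ^ 3 : 𝓞 k) : k))) :
    (E.baseChange L).IsElliptic ∧ CT3 K L (E.baseChange L) (inv_up rfl) := by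
  obtain ⟨z, hz⟩ := hz
  obtain ⟨D', hD'⟩ : ∃ D' : 𝓞 K, D' = algebraMap (𝓞 k) (𝓞 K) D := ⟨_, rfl⟩
  obtain ⟨α', hα'⟩ : ∃ α' : 𝓞 K, α' = algebraMap (𝓞 k) (𝓞 K) α := ⟨_, rfl⟩
  obtain ⟨β', hβ'⟩ : ∃ β' : 𝓞 K, β' = algebraMap (𝓞 k) (𝓞 K) β := ⟨_, rfl⟩
  have cD : (D' : K) = algebraMap k K (D : k) := by rw [hD']; rfl
  have cα : (α' : K) = algebraMap k K (α : k) := by rw [hα']; rfl
  have cβ : (β' : K) = algebraMap k K (β : k) := by rw [hβ']; rfl
  have hinj : Function.Injective (algebraMap (𝓞 k) (𝓞 K)) :=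
    FaithfulSMul.algebraMap_injective (𝓞 k) (𝓞 K)
  have eγ : 27 * β' - 4 * D' * α' ^ 3 =
      algebraMap (𝓞 k) (𝓞 K) (27 * β - 4 * D * α ^ 3) := by
    rw [hD', hα', hβ', map_sub, map_mul, map_mul, map_mul, map_pow, map_ofNat, map_ofNat]
  have hD0' : D' ≠ 0 := by
    rw [hD']
    exact (map_ne_zero_iff _ hinj).2 hD0
  have hβ0' : β' ≠ 0 := by
    rw [hβ']
    exact (map_ne_zero_iff _ hinj).2 hβ
  have hγ0' : 27 * β' - 4 * D' * α' ^ 3 ≠ 0 := by
    rw [eγ]
    exact (map_ne_zero_iff _ hinj).2 hγ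
  obtain ⟨δ, hδ⟩ : ∃ δ : 𝓞 K, (δ : K) = z := by
    have h1 : IsIntegral ℤ z := by
      refine IsIntegral.of_pow (n := 2) (by norm_num) ?_
      rw [hz, ← cD]
      exact RingOfIntegers.isIntegral_coe D'
    exact ⟨⟨z, h1⟩, rfl⟩
  have hδ2 : δ ^ 2 = D' := by
    apply RingOfIntegers.coe_injective
    have h1 : algebraMap (𝓞 K) K (δ ^ 2) = (δ : K) ^ 2 := map_pow (algebraMap (𝓞 K) K) δ 2
    rw [h1, hδ, hz]
    exact cD.symm
  have hδ0 : δ ≠ 0 := by
    rintro rfl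
    rw [zero_pow two_ne_zero] at hδ2
    exact hD0' hδ2.symm
  have cα2 : ((δ * α' : 𝓞 K) : K) = z * (α' : K) := by
    have h1 : ((δ * α' : 𝓞 K) : K) = (δ : K) * (α' : K) := map_mul (algebraMap (𝓞 K) K) _ _
    rw [h1, hδ]
  have cβ2 : ((δ * β' : 𝓞 K) : K) = z * (β' : K) := by
    have h1 : ((δ * β' : 𝓞 K) : K) = (δ : K) * (β' : K) := map_mul (algebraMap (𝓞 K) K) _ _
    rw [h1, hδ]
  have hβ0 : δ * β' ≠ 0 := mul_ne_zero hδ0 hβ0'
  have eγ2 : 27 * (δ * β') - 4 * (δ * α') ^ 3 = δ * (27 * β' - 4 * D' * α' ^ 3) := by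
    rw [← hδ2]
    ring
  have hγ0 : 27 * (δ * β') - 4 * (δ * α') ^ 3 ≠ 0 := by
    rw [eγ2]
    exact mul_ne_zero hδ0 hγ0'
  have hbad' : ∀ v : HeightOneSpectrum (𝓞 K),
      6 * (δ * β') * (27 * (δ * β') - 4 * (δ * α') ^ 3) ∈ v.asIdeal →
      UniqueOver K L v.asIdeal := by
    intro v hv
    apply X.bad v
    obtain ⟨y, hy⟩ := hm
    have e : 6 * (δ * β') * (27 * (δ * β') - 4 * (δ * α') ^ 3) =
        6 * D' * β' * (27 * β' - 4 * D' * α' ^ 3) := by
      rw [eγ2, ← hδ2]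
      ring
    rw [e] at hv
    have h1 : (m : 𝓞 K) =
        6 * D' * β' * (27 * β' - 4 * D' * α' ^ 3) * algebraMap (𝓞 k) (𝓞 K) y := by
      rw [eγ, hD', hβ', ← map_intCast (algebraMap (𝓞 k) (𝓞 K)) m, hy, map_mul, map_mul, map_mul,
        map_mul, map_ofNat]
    rw [h1]
    exact v.asIdeal.mul_mem_right _ hv
  have hgood' : ∀ w : HeightOneSpectrum (𝓞 L), (3 : 𝓞 L) ∈ w.asIdeal →
      GoodV w (algebraMap K L ((δ * α' : 𝓞 K) : K)) (algebraMap K L ((δ * β' : 𝓞 K) : K)) := by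
    intro w hw
    have hg := hgood w hw
    rw [IsScalarTower.algebraMap_apply k K L, IsScalarTower.algebraMap_apply k K L,
      IsScalarTower.algebraMap_apply k K L, ← cD, ← cα, ← cβ] at hg
    rw [cα2, cβ2, map_mul, map_mul]
    have hzw : w.valuation L (algebraMap K L z) ^ 2 = w.valuation L (algebraMap K L (D' : K)) := by
      rw [← map_pow, ← map_pow, hz, cD]
    have h5 : algebraMap K L z ^ 2 = algebraMap K L (D' : K) := by rw [← map_pow, hz, cD]
    rcases hg with ⟨h0, i, h1, h2, h4⟩ | ⟨h0, -⟩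
    · have hz1 : w.valuation L (algebraMap K L z) = 1 := by
        rw [h0] at hzw
        exact (pow_eq_one_iff_of_nonneg zero_le two_ne_zero).1 hzw
      refine ⟨i, ?_, ?_, ?_⟩
      · rw [map_mul, hz1, one_mul]
        exact h1
      · have e : 27 * (algebraMap K L z * algebraMap K L (β' : K)) -
            4 * (algebraMap K L z * algebraMap K L (α' : K)) ^ 3 =
            algebraMap K L z * (27 * algebraMap K L (β' : K) -
              4 * algebraMap K L (D' : K) * algebraMap K L (α' : K) ^ 3) := by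
          rw [← h5]
          ring
        rw [e, map_mul, hz1, one_mul]
        exact h2
      · rw [map_mul, hz1, one_mul]
        exact h4
    · exfalso
      rw [h0] at hzw
      have h6 := congrArg WithZero.log hzw
      rw [WithZero.log_pow, WithZero.log_exp, nsmul_eq_mul] at h6
      push_cast at h6
      omega
  have hE' : E = curW ((δ * α' : 𝓞 K) : K) ((δ * β' : 𝓞 K) : K) ∨
      E = curV ((δ * α' : 𝓞 K) : K)
        (27 * ((δ * β' : 𝓞 K) : K) - 4 * ((δ * α' : 𝓞 K) : K) ^ 3) := by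
    rw [cα2, cβ2]
    rcases hE with hE | hE
    · left
      rw [hE, ← hz, cα, cβ]
      simp only [curWD, curW, WeierstrassCurve.mk.injEq]
      refine ⟨trivial, ?_, trivial, ?_, ?_⟩ <;> ring
    · right
      have h7 : ((27 * β - 4 * D * α ^ 3 : 𝓞 k) : k) =
        27 * (β : k) - 4 * (D : k) * (α : k) ^ 3 := coe_gammaO
      rw [hE, h7, map_sub, map_mul, map_mul, map_mul, map_pow, map_ofNat, map_ofNat, ← hz, cα, cβ]
      simp only [curVD, curV, WeierstrassCurve.mk.injEq]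
      refine ⟨trivial, ?_, trivial, ?_, ?_⟩ <;> ring
  obtain ⟨C, _, _, _, _, _, _, _, s', hsC, hgen', hn2, hM⟩ := X.mi 1 1 one_ne_zero (by
    rw [one_pow, map_one])
  have hsC2 : s' ^ 2 = -3 := by
    rw [hsC, map_mul, map_one, map_one, mul_one, map_neg, map_ofNat]
  exact ct3_pair3 X.odd X.three (cube_of_cubeG X.cube) hsC2 (fun g hg => H68TK.gen_s hgen' g hg)
    (neg_c hsC hgen' hn2) (comm_c X.comm hsC hgen') hM hβ0 hγ0 hgood' hbad' hunr E hE'

end H55T3
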