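import Pool.Agent.H55.T3.S6c
import Pool.Agent.H55.T3.S9
import Pool.Agent.H68.TM.Cmp
import Pool.Agent.H68.TM.Decl

/-!
Stability in the tower over a field of three-type for the curves with a rational subgroup of order
three (MP_78d38b_T3D, helper55; no row).
-/

set_option autoImplicit false
set_option linter.style.haveILetI false
open scoped Classical

open WeierstrassCurve IsDedekindDomain NumberField WithZero Pool.Agent.H10 Pool.Agent.H11 H5SW
  H68TM

namespace H55T3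

theorem exists_mult {k : Type} [Field k] [NumberField k] {x : 𝓞 k} (hx : x ≠ 0) :
    ∃ m : ℤ, m ≠ 0 ∧ ∃ y : 𝓞 k, (m : 𝓞 k) = x * y := by
  refine ⟨(Ideal.absNorm (Ideal.span {x}) : ℤ), ?_, ?_⟩
  · rw [Nat.cast_ne_zero, Ne, Ideal.absNorm_eq_zero_iff, Ideal.span_singleton_eq_bot]
    exact hx
  · have h := Ideal.absNorm_mem (Ideal.span {x})
    rw [Ideal.mem_span_singleton'] at h
    obtain ⟨y, hy⟩ := h
    exact ⟨y, by rw [Int.cast_natCast, ← hy, mul_comm]⟩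

theorem towerKD (p : ℕ) [Fact p.Prime] (hp : 5 ≤ p) {k κ : Type} [Field k] [NumberField k]
    [Field κ] [NumberField κ] [Algebra k κ] (hκ : LType 3 κ) {t0 : κ}
    (hgenκ : IntermediateField.adjoin k {t0} = ⊤) {D : 𝓞 k}
    (ht0 : t0 ^ 2 = algebraMap k κ (D : k)) (hD0 : D ≠ 0) (hk : H68TK.Unr3 k)
    (hD9 : ∀ v : HeightOneSpectrum (𝓞 k), (3 : 𝓞 k) ∈ v.asIdeal → D ∉ v.asIdeal ^ 2)
    {α β : 𝓞 k} (hβ : β ≠ 0) (hγ : 27 * β - 4 * D * α ^ 3 ≠ 0)
    (hg : ∀ v : HeightOneSpectrum (𝓞 k), (3 : 𝓞 k) ∈ v.asIdeal → GoodD v D α β) :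
    ∃ N : ℕ, ∀ (K L : Type) [Field K] [NumberField K] [Field L] [NumberField L] [Algebra k K]
      [Algebra k L] [Algebra K L] [IsScalarTower k K L], Lay p k L →
      (∃ i : ℕ, Module.finrank K L = p ^ i) → p ^ N ∣ Module.finrank ℚ K →
      ∀ E : WeierstrassCurve K, (E = curWD (algebraMap k K D) (algebraMap k K α) (algebraMap k K β) ∨
        E = curVD (algebraMap k K D) (algebraMap k K α)
          (algebraMap k K (27 * β - 4 * D * α ^ 3 : 𝓞 k))) →
      ShaThreeBijective K E L ∧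
      ∃ m : ℕ, ¬ 3 ∣ m ∧ ∀ P : (E.baseChange L).toAffine.Point,
        ∃ Q : (E.baseChange K).toAffine.Point,
          m • P = WeierstrassCurve.Affine.Point.map (Algebra.ofId K L) Q := by
  have hf3 : Fact (Nat.Prime 3) := ⟨Nat.prime_three⟩
  haveI hcyc : IsCyclotomicExtension {1} κ κ :=
    IsCyclotomicExtension.singleton_one_of_algebraMap_bijective (fun x => ⟨x, rfl⟩)
  obtain ⟨M, N, _, _, ν, J, h3M, hM, hNG, hLT, hJ⟩ := exists_comp (l := 3) (m := 3) (f := 1) hκ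
    (by norm_num) one_ne_zero κ
  haveI := hNG
  letI : Algebra κ N := ν.toAlgebra
  letI : Algebra k N := (ν.comp (algebraMap k κ)).toAlgebra
  haveI : IsScalarTower k κ N := IsScalarTower.of_algebraMap_eq fun x => rfl
  have hkr : IsTotallyReal k := by
    haveI := hκ.1
    exact IsTotallyReal.of_algebra k κ
  have hne : 6 * D * β * (27 * β - 4 * D * α ^ 3) ≠ 0 :=
    mul_ne_zero (mul_ne_zero (mul_ne_zero (by norm_num) hD0) hβ) hγ
  obtain ⟨m, hm0, hm⟩ := exists_mult hne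
  obtain ⟨N0, hN0⟩ := layer_conf (p := p) hp hM h3M hkr hκ.1 hLT hJ hm0 hgenκ
  refine ⟨N0 + padicValNat p (Module.finrank ℚ k), ?_⟩
  intro K L _ _ _ _ _ _ _ _ hL ⟨i, hi⟩ hK E hE
  obtain ⟨L', _, _, h, hR, hgen⟩ := lay_gen hL
  obtain ⟨K', _, _, _, ⟨C, hC⟩, hd, hN'⟩ := decompose_l (K := K) h hR hgen
  have e1 : C.f = algebraMap k K := RingHom.ext hC
  have X := hN0 K' L' K L C hR ⟨i, by rw [hd, hi]⟩ (hN' N0 hK)
  rw [e1] at X
  haveI := X.gal
  have hunr : ∀ w : HeightOneSpectrum (𝓞 L), (3 : 𝓞 L) ∈ w.asIdeal →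
      w.valuation L 3 = exp (-1 : ℤ) := by
    intro w hw
    have h3 : H68TK.Unr3 L := H68TK.unr3_gen (k := k) (p := p) (by omega) hk h hR hgen
    exact H68TK.val_three_of_unram hw (h3 w hw)
  have hgood := fun (w : HeightOneSpectrum (𝓞 L)) (hw : (3 : 𝓞 L) ∈ w.asIdeal) =>
    good_upD (L := L) hD9 hg w hw (hunr w hw)
  by_cases hz : ∃ z : L, z ^ 2 = algebraMap k L (D : k)
  · obtain ⟨z, hz⟩ := hz
    rw [IsScalarTower.algebraMap_apply k K L] at hz
    have hzK := H11Q.sq_down X.odd hz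
    obtain ⟨h1, h2⟩ := pair_sq X hD0 hβ hγ hm hunr hgood hzK E hE
    exact of_ct3 X.three h1 h2
  · obtain ⟨h1, h2⟩ := pair_non X hD0 ht0 hβ hγ hm hunr hgood (fun z hz' => hz ⟨z, hz'⟩) E hE
    exact of_ct3 X.three h1 h2

end H55T3
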