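import Pool.Agent.H55.T3.S10
import Pool.Agent.H78.MN.Sq

/-!
Square roots and fields of three-type (MP_78d38b_T3D, helper55; no row).
-/

set_option autoImplicit false
set_option linter.style.haveILetI false
open scoped Classical

open IsDedekindDomain NumberField H68TM

namespace H55T3

/-- `D` is the square of an element of a field of three-type which contains `k`. -/
def SqType (k : Type) [Field k] [NumberField k] (D : k) : Prop :=
  ∃ (κ : Type) (_ : Field κ) (_ : NumberField κ) (_ : Algebra k κ) (t : κ),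
    LType 3 κ ∧ t ^ 2 = algebraMap k κ D

theorem sq_gen {k : Type} [Field k] [NumberField k] {D : k} (h : SqType k D) :
    ∃ (κ : Type) (_ : Field κ) (_ : NumberField κ) (_ : Algebra k κ) (t : κ),
      LType 3 κ ∧ t ^ 2 = algebraMap k κ D ∧ IntermediateField.adjoin k {t} = ⊤ := by
  obtain ⟨κ, _, _, _, t, ⟨hr, F, _, _, F₀, hG, hm, hf, ⟨j⟩⟩, ht⟩ := h
  have hfd : FiniteDimensional k κ := Module.Finite.of_restrictScalars_finite ℚ k κ
  have hNF : NumberField (IntermediateField.adjoin k {t}) := NumberField.of_module_finite k _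
  have hmem : t ∈ IntermediateField.adjoin k {t} := IntermediateField.mem_adjoin_simple_self k t
  obtain ⟨s, hsdef⟩ : ∃ s : IntermediateField.adjoin k {t}, s = ⟨t, hmem⟩ := ⟨_, rfl⟩
  refine ⟨IntermediateField.adjoin k {t}, inferInstance, hNF, inferInstance, s,
    ⟨IsTotallyReal.of_algebra (IntermediateField.adjoin k {t}) κ, F, inferInstance, inferInstance, F₀, hG, hm, hf,
      ⟨j.comp (algebraMap (IntermediateField.adjoin k {t}) κ)⟩⟩, ?_, ?_⟩
  · apply Subtype.ext
    rw [hsdef]
    exact ht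
  · rw [eq_top_iff]
    rintro ⟨y, hy⟩ -
    induction hy using IntermediateField.adjoin_induction with
    | mem x hx =>
      rw [Set.mem_singleton_iff] at hx
      subst hx
      rw [← hsdef]
      exact IntermediateField.mem_adjoin_simple_self k s
    | algebraMap x => exact (IntermediateField.adjoin k {s}).algebraMap_mem x
    | add x y hx hy hx' hy' => exact add_mem hx' hy'
    | inv x hx hx' => exact inv_mem hx'
    | mul x y hx hy hx' hy' => exact mul_mem hx' hy'

/-- A field generated by a totally real field and the square root of a positive integer is totally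
real. -/
theorem real_sqrt {k κ : Type} [Field k] [NumberField k] [Field κ] [NumberField κ] [Algebra k κ]
    (hk : IsTotallyReal k) {t : κ} {D : ℕ} (ht : t ^ 2 = (D : κ))
    (hgen : IntermediateField.adjoin k {t} = ⊤) : IsTotallyReal κ := by
  refine ⟨fun w => ?_⟩
  rw [InfinitePlace.isReal_iff]
  obtain ⟨φ, hφ⟩ : ∃ φ : κ →+* ℂ, φ = w.embedding := ⟨_, rfl⟩
  rw [← hφ]
  have h1 : (φ t) ^ 2 = ((Real.sqrt D : ℝ) : ℂ) ^ 2 := by
    rw [← map_pow, ht, map_natCast, ← Complex.ofReal_pow, Real.sq_sqrt (Nat.cast_nonneg D)]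
    simp
  obtain ⟨r, hr⟩ : ∃ r : ℝ, φ t = (r : ℂ) := by
    rcases sq_eq_sq_iff_eq_or_eq_neg.mp h1 with h | h
    · exact ⟨_, h⟩
    · exact ⟨-Real.sqrt D, by rw [h]; push_cast; ring⟩
  refine RingHom.ext fun x => ?_
  refine H68IM.gen_mem hgen (RingHom.eqLocusField (ComplexEmbedding.conjugate φ) φ) ?_ ?_ x
  · intro b
    exact H68TL.real_fix hk (algebraMap k κ) φ b
  · intro y hy
    rw [Set.mem_singleton_iff] at hy
    rw [hy]
    change (starRingEnd ℂ) (φ t) = φ t
    rw [hr, Complex.conj_ofReal]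

theorem sqType_nat {k : Type} [Field k] [NumberField k] (hk : LType 3 k) {D : ℕ} (hD : D ≠ 0) :
    SqType k (D : k) := by
  have hf3 : Fact (Nat.Prime 3) := ⟨Nat.prime_three⟩
  obtain ⟨hreal, F, _, _, F₀, hG, ⟨m, hm, ⟨i⟩⟩, ⟨r, hr⟩, ⟨j⟩⟩ := hk
  obtain ⟨M, hM⟩ : ∃ M, M = 8 * D * m := ⟨_, rfl⟩
  have hM0 : M ≠ 0 := by
    rw [hM]
    exact mul_ne_zero (mul_ne_zero (by norm_num) hD) hm
  haveI : NeZero M := ⟨hM0⟩
  obtain ⟨F', _, _, e, C', hG', hcyc, s, hs⟩ :=
    exists_cyc_up (l := 3) (m := m) (M := M) ⟨8 * D, by rw [hM, mul_comm]⟩ hM0 F₀ i hr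
  letI : Algebra k F' := (e.comp j).toAlgebra
  have hz := IsCyclotomicExtension.zeta_spec M ℚ C'
  have hz' := hz.map_of_injective (f := algebraMap C' F') (algebraMap C' F').injective
  have hz8 := hz'.pow (Nat.pos_of_ne_zero hM0) (a := m) (b := 8 * D) (by rw [hM, mul_comm])
  obtain ⟨y, hy⟩ := H78N.sqrt_nat hD hz8
  have hfd : FiniteDimensional k F' := Module.Finite.of_restrictScalars_finite ℚ k F'
  have hNF : NumberField (IntermediateField.adjoin k {y}) := NumberField.of_module_finite k _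
  have hmem : y ∈ IntermediateField.adjoin k {y} := IntermediateField.mem_adjoin_simple_self k y
  obtain ⟨t, htdef⟩ : ∃ t : IntermediateField.adjoin k {y}, t = ⟨y, hmem⟩ := ⟨_, rfl⟩
  have ht : t ^ 2 = ((D : ℕ) : IntermediateField.adjoin k {y}) := by
    apply Subtype.ext
    rw [htdef]
    change y ^ 2 = _
    rw [hy]
    rfl
  have hgen : IntermediateField.adjoin k {t} = ⊤ := by
    rw [eq_top_iff]
    rintro ⟨x, hx⟩ -
    induction hx using IntermediateField.adjoin_induction with
    | mem x hx =>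
      rw [Set.mem_singleton_iff] at hx
      subst hx
      rw [← htdef]
      exact IntermediateField.mem_adjoin_simple_self k t
    | algebraMap x => exact (IntermediateField.adjoin k {t}).algebraMap_mem x
    | add x y hx hy hx' hy' => exact add_mem hx' hy'
    | inv x hx hx' => exact inv_mem hx'
    | mul x y hx hy hx' hy' => exact mul_mem hx' hy'
  haveI hcM : IsCyclotomicExtension {M} ℚ (CyclotomicField M ℚ) :=
    CyclotomicField.isCyclotomicExtension _ _
  refine ⟨IntermediateField.adjoin k {y}, inferInstance, hNF, inferInstance, t,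
    ⟨real_sqrt hreal ht hgen, F', inferInstance, inferInstance, C', hG', ⟨M, hM0,
      ⟨(IsCyclotomicExtension.algEquiv {M} ℚ C' (CyclotomicField M ℚ)).toRingEquiv.toRingHom⟩⟩,
      ⟨s, hs⟩, ⟨algebraMap (IntermediateField.adjoin k {y}) F'⟩⟩, ?_⟩
  rw [ht, map_natCast]

theorem lType_rat : LType 3 ℚ := by
  refine ⟨inferInstance, ℚ, inferInstance, inferInstance, ⊤, IsGalois.self ℚ, ⟨1, one_ne_zero,
    ⟨(algebraMap ℚ (CyclotomicField 1 ℚ)).comp (IntermediateField.topEquiv (F := ℚ) (E := ℚ)).toRingEquiv.toRingHom⟩⟩, ⟨0, ?_⟩,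
    ⟨RingHom.id ℚ⟩⟩
  rw [pow_zero]
  exact IntermediateField.finrank_top

end H55T3
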