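import Pool.Agent.H55.T3.S1
import Pool.Agent.H68.TL.Df
import Pool.Agent.H68.TL.Dfl

/-!
The minus side from a central pair (adaptation of helper78's `noNewMinus_of_sn`; helper55).
-/

set_option autoImplicit false
open scoped Classical

open IsDedekindDomain NumberField Finset H78M

namespace H55T3

theorem noNewMinus_of_snc {K Km L C F : Type} [Field K] [NumberField K] [Field Km] [NumberField Km]
    [Field L] [NumberField L] [Field C] [NumberField C] [Field F] [NumberField F] [Algebra K Km] [Algebra Km F]
    [Algebra K F] [IsScalarTower K Km F] [Algebra K L] [Algebra L F] [IsScalarTower K L F]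
    [Algebra L C] [Algebra K C] [IsScalarTower K L C] [Algebra C F] [IsScalarTower L C F]
    [IsGalois K C] (S : SNC K Km L F)
    (hμ : ∀ z : F, z ^ 3 = 1 → ∃ y : Km, algebraMap Km F y = z) {s : C}
    (hgen : IntermediateField.adjoin L {s} = ⊤) (hsK : ∃ s0 : Km, algebraMap Km F s0 = algebraMap C F s)
    {J : F ≃+* F} (HE : H68TL.NoNewE 3 Km F ∅ J)
    (hJ0 : ∃ g : C ≃ₐ[L] C, g s = -s ∧ ∀ x, J (algebraMap C F x) = algebraMap C F (g x)) :
    NoNewMinus K L C s := by
  have h3 : Fact (Nat.Prime 3) := ⟨Nat.prime_three⟩
  have hKCF : IsScalarTower K C F := by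
    refine IsScalarTower.of_algebraMap_eq fun x => ?_
    rw [IsScalarTower.algebraMap_apply K L F, IsScalarTower.algebraMap_apply L C F,
      IsScalarTower.algebraMap_apply K L C]
  have hG1 : IsGalois K F := S.galF
  have hG2 : IsGalois K L := S.galL
  obtain ⟨s0, hs0⟩ := hsK
  have hgs : ∀ g : F ≃ₐ[Km] F, g (algebraMap C F s) = algebraMap C F s := by
    intro g
    rw [← hs0, g.commutes]
  have hX : PairK K Km C F (fun h : C ≃ₐ[K] C => h s = s) := by
    refine ⟨?_, ?_⟩
    · intro g
      have hcomm : ∀ x : C, g (algebraMap C F x) =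
          algebraMap C F (((AlgEquiv.restrictScalars K g).restrictNormal C) x) := by
        intro x
        exact ((AlgEquiv.restrictScalars K g).restrictNormal_commutes C x).symm
      refine ⟨(AlgEquiv.restrictScalars K g).restrictNormal C, ?_, hcomm⟩
      apply (algebraMap C F).injective
      rw [← hcomm s, hgs g]
    · intro h hh
      obtain ⟨g, hg⟩ := S.cov (h.restrictNormal L)
      refine ⟨g, fun x => ?_⟩
      have hx : x ∈ IntermediateField.adjoin L ({s} : Set C) := by
        rw [hgen]
        exact IntermediateField.mem_top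
      induction hx using IntermediateField.adjoin_induction with
      | mem y hy =>
        rw [Set.mem_singleton_iff] at hy
        rw [hy, hgs g, hh]
      | algebraMap y =>
        rw [← IsScalarTower.algebraMap_apply, hg y, IsScalarTower.algebraMap_apply L C F,
          AlgEquiv.restrictNormal_commutes]
      | add y z _ _ hy hz => rw [map_add, map_add, hy, hz, map_add, map_add]
      | inv y _ hy => rw [map_inv₀, map_inv₀, hy, map_inv₀, map_inv₀]
      | mul y z _ _ hy hz => rw [map_mul, map_mul, hy, hz, map_mul, map_mul]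
  intro e he hv hN hJ'
  refine pair_C S.cen S.nl hμ HE hX he hv hN ?_ ?_
  · intro τ hτ
    exact absurd hτ (Set.notMem_empty τ)
  · obtain ⟨g, hgs', hgJ⟩ := hJ0
    obtain ⟨y, hy⟩ := hJ' g hgs'
    exact ⟨algebraMap C F y, by rw [hgJ, ← map_mul, hy, map_pow]⟩

end H55T3
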