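import Pool.Agent.H55.T3.S1
import Pool.Agent.H78.MN.Cg

/-!
No new cubes over the real field from a central pair (adaptation of helper78's `noNewCubeG_of_sn`; helper55).
-/

set_option autoImplicit false
open scoped Classical

open IsDedekindDomain NumberField H68TL Finset H78N

namespace H55T3

theorem noNewCubeG_of_snc {K Km L F : Type} [Field K] [NumberField K] [Field Km] [NumberField Km]
    [Field L] [NumberField L] [Field F] [NumberField F] [Algebra K Km] [Algebra Km F]
    [Algebra K F] [IsScalarTower K Km F] [Algebra K L] [Algebra L F] [IsScalarTower K L F] (S : SNC K Km L F)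
    (hreal : IsTotallyReal L)
    (hμ : ∀ z : F, z ^ 3 = 1 → ∃ y : Km, algebraMap Km F y = z) {z : F} (hz : z ^ 2 + z + 1 = 0)
    {J : F ≃+* F} (hJ : IsCC J) (HU : NoUnr 3 Km F J) : NoNewCubeG K L := by
  intro x hx h3 hloc hNx
  have hf3 : Fact (Nat.Prime 3) := ⟨Nat.prime_three⟩
  have hG1 : IsGalois K F := S.galF
  have hG2 : IsGalois K L := S.galL
  have hG3 : IsGalois Km F := IsGalois.tower_top_of_isGalois K Km F
  have hx' : algebraMap L F x ≠ 0 := by rw [Ne, map_eq_zero]; exact hx
  obtain ⟨N, _, _, _, hGN, r, hr3⟩ := Cg_exists_N (l := 3) (by norm_num) (algebraMap L F x)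
  have hr : r ≠ 0 := by
    rintro rfl
    rw [zero_pow (by norm_num)] at hr3
    exact hx' ((map_eq_zero (algebraMap F N)).1 hr3.symm)
  obtain ⟨a, ha⟩ := kum_exists hz hr ⟨_, hr3⟩
  have hunr : UnrC 3 F a := kum_unr hz hr hr3 h3 hloc ha
  have hJz : J z = z ^ 2 := Cg_J hz hJ
  have hJx : J (algebraMap L F x) = algebraMap L F x := by
    obtain ⟨φ⟩ := cc_emb F
    apply φ.injective
    rw [hJ φ]
    exact real_fix hreal (algebraMap L F) φ x
  have hX : H78M.PairK K Km L F (fun _ : L ≃ₐ[K] L => True) := by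
    refine ⟨?_, ?_⟩
    · intro g
      refine ⟨(AlgEquiv.restrictScalars K g).restrictNormal L, trivial, fun y => ?_⟩
      exact ((AlgEquiv.restrictScalars K g).restrictNormal_commutes L y).symm
    · intro h _
      exact S.cov h
  have hNL : ∃ y : L, ∏ h : L ≃ₐ[K] L, h x = y ^ 3 := by
    obtain ⟨y, hy⟩ := hNx
    refine ⟨algebraMap K L y, ?_⟩
    rw [← Algebra.norm_eq_prod_automorphisms, hy, map_pow]
  have hNL' : ∀ inst : DecidablePred (fun _ : L ≃ₐ[K] L => True),
      ∃ y : L, ∏ h ∈ @Finset.filter _ (fun _ : L ≃ₐ[K] L => True) inst univ, h x = y ^ 3 := by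
    intro inst
    have e : @Finset.filter _ (fun _ : L ≃ₐ[K] L => True) inst univ = univ := by
      ext h
      simp
    rw [e]
    exact hNL
  have hNF : ∃ c : F, algebraMap Km F (Algebra.norm Km (algebraMap L F x)) = c ^ 3 := by
    exact H78M.prod_K hX (hNL' _)
  have hz3 : z ^ 3 = 1 := by linear_combination (z - 1) * hz
  have h0 := HU N a hunr (fun t ht u hu => kum_J hz hr hr3 ha hJz hJx t ht u hu)
    (fun R hR u hu => kum_norm hz (hμ z hz3) hr hr3 hNF ha R hR u hu)
  obtain ⟨y, hy⟩ := kum_zero ha h0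
  have hy3 : algebraMap L F x = y ^ 3 := by
    apply (algebraMap F N).injective
    rw [← hr3, map_pow, hy]
  exact down_C S.cen S.nl hμ hX hx (hNL' _) hy3

end H55T3
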