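import Pool.Agent.H55.T3.S1
import Pool.Agent.H68.TM.Gal
import Pool.Agent.H68.TM.Cps
import Pool.Agent.H68.TL.Dfl

/-!
The central pairs in the tower over a field of 3-type (helper55, on top of helper68's TM).
-/

set_option autoImplicit false
open scoped Classical

open IsDedekindDomain NumberField Finset H5SW H68QS Pool.Agent.H10

namespace H55T3

theorem exists_snc {p : ℕ} [Fact p.Prime] (hp2 : p ≠ 2) (hp3 : p ≠ 3) {k N K' L' K L Km F : Type}
    [Field k] [NumberField k] [Field N] [NumberField N] [Field K'] [NumberField K'] [Field L']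
    [NumberField L'] [Field K] [NumberField K] [Field L] [NumberField L] [Field Km]
    [NumberField Km] [Field F] [NumberField F] [Algebra k N] [Algebra K' L'] [Algebra K L]
    [Algebra K Km] [Algebra Km F] [Algebra K F] [IsScalarTower K Km F] [Algebra L F]
    [IsScalarTower K L F] (C : Comp k K' L' K L) (C2 : Comp N K' L' Km F)
    (hf : ∀ x : k, C2.f (algebraMap k N x) = algebraMap K Km (C.f x))
    (hh : ∀ x : L', C2.h x = algebraMap L F (C.h x)) [IsGalois ℚ N] (hL : IsR p L') {i : ℕ}
    (hi : Module.finrank K' L' = p ^ i)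
    (hv : padicValNat p (Module.finrank ℚ N) ≤ padicValNat p (Module.finrank ℚ K')) :
    SNC K Km L F := by
  have hpp : p.Prime := Fact.out
  have hL' : IsGalois ℚ L' := H68IM.Dec_gal hL
  have hcyc : IsCyclic (L' ≃ₐ[ℚ] L') := H68TM.cyc_of_isR hp2 hL
  have hF : IsGalois ℚ F := H68TM.galF C2 hL
  have hGL := (H68TM.galL C hL hi).1
  have hT : IsScalarTower ℚ K F := IsScalarTower.of_algebraMap_eq' (Subsingleton.elim _ _)
  let ν : N →+* F := (algebraMap Km F).comp C2.f
  have hν : ∀ x, ν x = algebraMap Km F (C2.f x) := fun _ => rfl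
  refine ⟨IsGalois.tower_top_of_isGalois ℚ K F, hGL, ?_, ?_, ?_⟩
  · intro h
    have h1 := (H68TM.galL C2 hL hi).2
    have h2 := (Nat.prime_dvd_prime_iff_eq Nat.prime_three hpp).mp
      (Nat.prime_three.dvd_of_dvd_pow (h.trans h1))
    omega
  · intro g h x
    -- `N` is normal over the rationals
    let aN : Algebra N F := ν.toAlgebra
    have tN : IsScalarTower ℚ N F := IsScalarTower.of_algebraMap_eq' (Subsingleton.elim _ _)
    let aL : Algebra L' F := C2.h.toAlgebra
    have tL : IsScalarTower ℚ L' F := IsScalarTower.of_algebraMap_eq' (Subsingleton.elim _ _)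
    let h0 : F ≃ₐ[ℚ] F := h.restrictScalars ℚ
    let g0 : F ≃ₐ[ℚ] F := g.restrictScalars ℚ
    have hN1 : ∀ y : N, h (ν y) = ν (h0.restrictNormal N y) := fun y =>
      (AlgEquiv.restrictNormal_commutes h0 N y).symm
    have hL1 : ∀ y : L', h (C2.h y) = C2.h (h0.restrictNormal L' y) := fun y =>
      (AlgEquiv.restrictNormal_commutes h0 L' y).symm
    have hL2 : ∀ y : L', g (C2.h y) = C2.h (g0.restrictNormal L' y) := fun y =>
      (AlgEquiv.restrictNormal_commutes g0 L' y).symm
    have hab : ∀ a b : L' ≃ₐ[ℚ] L', a * b = b * a := by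
      intro a b
      let _ := hcyc.commGroup
      exact mul_comm a b
    have key : ∀ x : F, x ∈ RingHom.eqLocusField
        (((g : F ≃+* F) : F →+* F).comp ((h : F ≃+* F) : F →+* F))
        (((h : F ≃+* F) : F →+* F).comp ((g : F ≃+* F) : F →+* F)) := by
      intro x
      refine H68TM.Gal_genL C2 _ ?_ ?_ x
      · intro b
        change g (h (ν b)) = h (g (ν b))
        rw [hN1, hν, hν, g.commutes, g.commutes, ← hν, ← hν, hN1]
      · intro y
        change g (h (C2.h y)) = h (g (C2.h y))
        rw [hL1, hL2, hL2, hL1]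
        congr 1
        exact congrArg (fun f : L' ≃ₐ[ℚ] L' => f y) (hab (g0.restrictNormal L') (h0.restrictNormal L'))
    exact key x
  · intro t
    -- the restriction of `t` to `L'`
    let aL : Algebra L' L := C.h.toAlgebra
    have tL : IsScalarTower ℚ L' L := IsScalarTower.of_algebraMap_eq' (Subsingleton.elim _ _)
    let t0 : L' ≃ₐ[ℚ] L' := (t.restrictScalars ℚ).restrictNormal L'
    have ht0 : ∀ z, t (C.h z) = C.h (t0 z) := fun z =>
      (AlgEquiv.restrictNormal_commutes (t.restrictScalars ℚ) L' z).symm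
    have htK : ∀ z : K', t0 (algebraMap K' L' z) = algebraMap K' L' z := by
      intro z
      apply C.h.injective
      rw [← ht0, C.comm, t.commutes]
    let t' : L' ≃ₐ[K'] L' := AlgEquiv.ofRingEquiv (f := (t0 : L' ≃+* L')) htK
    have ht' : ∀ z, t (C.h z) = C.h (t' z) := ht0
    obtain ⟨g, hg⟩ := H68TM.exists_up (C2 := C2) hp2 hL hi hv t'
    refine ⟨g, ?_⟩
    have key : ∀ x : L, x ∈ RingHom.eqLocusField
        (((g : F ≃+* F) : F →+* F).comp (algebraMap L F))
        ((algebraMap L F).comp ((t : L ≃+* L) : L →+* L)) := by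
      intro x
      refine H68TM.Gal_genL C _ ?_ ?_ x
      · intro b
        change g (algebraMap L F (algebraMap K L (C.f b))) = algebraMap L F (t (algebraMap K L (C.f b)))
        rw [t.commutes, ← IsScalarTower.algebraMap_apply, IsScalarTower.algebraMap_apply K Km F,
          ← hf, g.commutes]
      · intro y
        change g (algebraMap L F (C.h y)) = algebraMap L F (t (C.h y))
        rw [← hh, hg, ht', hh]
    exact key

/-- The quadratic extension of a central pair. -/
theorem snc_quad {K Km L F A B : Type} [Field K] [NumberField K] [Field Km] [NumberField Km]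
    [Field L] [NumberField L] [Field F] [NumberField F] [Field A] [NumberField A] [Field B]
    [NumberField B] [Algebra K Km] [Algebra Km F] [Algebra K F] [IsScalarTower K Km F]
    [Algebra K L] [Algebra L F] [IsScalarTower K L F] [Algebra K A] [Algebra A B] [Algebra K B]
    [IsScalarTower K A B] [Algebra L B] [IsScalarTower K L B] [Algebra A Km] [Algebra A F]
    [IsScalarTower K A F] [IsScalarTower A Km F] [Algebra B F] [IsScalarTower L B F]
    [IsScalarTower A B F] [IsGalois K B] (S : SNC K Km L F) {s0 : A}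
    (hgen : IntermediateField.adjoin L {algebraMap A B s0} = ⊤) : SNC A Km B F := by
  have hG1 : IsGalois K F := S.galF
  have hG2 : IsGalois K L := S.galL
  refine ⟨IsGalois.tower_top_of_isGalois K A F, IsGalois.tower_top_of_isGalois K A B, S.nl, ?_, ?_⟩
  · intro g h x
    exact S.cen g (h.restrictScalars K) x
  · intro t
    obtain ⟨g, hg⟩ := S.cov ((t.restrictScalars K).restrictNormal L)
    refine ⟨g, fun x => ?_⟩
    have hx : x ∈ IntermediateField.adjoin L ({algebraMap A B s0} : Set B) := by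
      rw [hgen]
      exact IntermediateField.mem_top
    induction hx using IntermediateField.adjoin_induction with
    | mem y hy =>
      rw [Set.mem_singleton_iff] at hy
      rw [hy, t.commutes, ← IsScalarTower.algebraMap_apply, IsScalarTower.algebraMap_apply A Km F,
        g.commutes]
    | algebraMap y =>
      rw [← IsScalarTower.algebraMap_apply, hg y]
      have h1 := (t.restrictScalars K).restrictNormal_commutes L y
      have h2 : algebraMap L B ((t.restrictScalars K).restrictNormal L y) = t (algebraMap L B y) := h1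
      rw [← h2, ← IsScalarTower.algebraMap_apply]
    | add y z _ _ hy hz => rw [map_add, map_add, hy, hz, map_add, map_add]
    | inv y _ hy => rw [map_inv₀, map_inv₀, hy, map_inv₀, map_inv₀]
    | mul y z _ _ hy hz => rw [map_mul, map_mul, hy, hz, map_mul, map_mul]

open Pointwise in
/-- The places above `m` have unique extensions. -/
theorem unique_of_fix {K Km L F : Type} [Field K] [NumberField K] [Field Km] [NumberField Km]
    [Field L] [NumberField L] [Field F] [NumberField F] [Algebra K Km] [Algebra Km F]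
    [Algebra K F] [IsScalarTower K Km F] [Algebra K L] [Algebra L F] [IsScalarTower K L F]
    (S : SNC K Km L F) {m : ℤ} (hfix : H68TL.FixP m Km F) {v : HeightOneSpectrum (𝓞 K)}
    (hv : (m : 𝓞 K) ∈ v.asIdeal) : UniqueOver K L v.asIdeal := by
  have hG2 : IsGalois K L := S.galL
  intro P Q hP hQ hvP hvQ
  have hvm : v.asIdeal.IsMaximal := v.isMaximal
  have e1 : ∀ P : Ideal (𝓞 L), P.IsPrime → v.asIdeal.map (algebraMap (𝓞 K) (𝓞 L)) ≤ P →
      P.under (𝓞 K) = v.asIdeal := by
    intro P hP hle
    have h1 : v.asIdeal ≤ P.under (𝓞 K) := Ideal.map_le_iff_le_comap.1 hle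
    refine (hvm.eq_of_le ?_ h1).symm
    exact (Ideal.IsPrime.under (𝓞 K) P).ne_top
  obtain ⟨t, ht⟩ := Algebra.IsInvariant.exists_smul_of_under_eq (𝓞 K) (𝓞 L) (L ≃ₐ[K] L) P Q
    ((e1 P hP hvP).trans (e1 Q hQ hvQ).symm)
  rw [ht]
  obtain ⟨g, hg⟩ := S.cov t
  -- a place of `F` above `P`
  have hPb : P ≠ ⊥ := by
    rintro rfl
    have h1 := e1 ⊥ hP hvP
    have h2 : (⊥ : Ideal (𝓞 L)).under (𝓞 K) = ⊥ := by
      rw [eq_bot_iff]
      intro x hx
      rw [Ideal.mem_bot]
      have h3 : algebraMap (𝓞 K) (𝓞 L) x = 0 := hx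
      exact (map_eq_zero_iff _ (FaithfulSMul.algebraMap_injective (𝓞 K) (𝓞 L))).1 h3
    rw [h2] at h1
    exact v.ne_bot h1.symm
  obtain ⟨Q', -, hQ', hQ'P⟩ := Ideal.exists_ideal_over_prime_of_isIntegral_of_isPrime
    (R := 𝓞 L) (S := 𝓞 F) P (⊥ : Ideal (𝓞 F)) (by
      intro x hx
      have h3 : algebraMap (𝓞 L) (𝓞 F) x = 0 := hx
      rw [(map_eq_zero_iff _ (FaithfulSMul.algebraMap_injective (𝓞 L) (𝓞 F))).1 h3]
      exact Ideal.zero_mem _)
  have hQb : Q' ≠ ⊥ := by
    rintro rfl
    apply hPb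
    rw [← hQ'P, eq_bot_iff]
    intro x hx
    rw [Ideal.mem_bot]
    have h3 : algebraMap (𝓞 L) (𝓞 F) x = 0 := hx
    exact (map_eq_zero_iff _ (FaithfulSMul.algebraMap_injective (𝓞 L) (𝓞 F))).1 h3
  let W : HeightOneSpectrum (𝓞 F) := ⟨Q', hQ', hQb⟩
  have hmem : ∀ z : 𝓞 L, z ∈ P ↔ algebraMap (𝓞 L) (𝓞 F) z ∈ W.asIdeal := by
    intro z
    rw [← hQ'P]
    rfl
  have hval : ∀ z : 𝓞 L, z ∈ P ↔ W.valuation F (algebraMap L F (z : L)) < 1 := by
    intro z
    rw [hmem]
    exact (HeightOneSpectrum.valuation_lt_one_iff_mem (K := F) W (algebraMap (𝓞 L) (𝓞 F) z)).symm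
  have hmW : (m : 𝓞 F) ∈ W.asIdeal := by
    have h1 : (m : 𝓞 L) ∈ P := by
      have h2 := hvP (Ideal.mem_map_of_mem (algebraMap (𝓞 K) (𝓞 L)) hv)
      rwa [map_intCast] at h2
    rw [hmem, map_intCast] at h1
    exact h1
  have hfx := hfix W hmW g
  have hsm : ∀ z : 𝓞 L, t • z ∈ P ↔ z ∈ P := by
    intro z
    have e2 : ((t • z : 𝓞 L) : L) = t (z : L) := rfl
    rw [hval, hval, e2, ← hg, hfx]
  ext y
  rw [Ideal.mem_pointwise_smul_iff_inv_smul_mem, ← hsm (t⁻¹ • y), smul_inv_smul]

end H55T3
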