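import Pool.Agent.H55.T3.S2
import Pool.Agent.H55.T3.SQa
import Pool.Agent.H68.TL.Ccl
import Pool.Agent.H68.IM.Sub

/-!
The minus side: the quadratic extension `C = L(s)` inside `F` (MP_78d38b_T3D, helper55; no row).
-/

set_option autoImplicit false
open scoped Classical

open IsDedekindDomain NumberField H68TL Finset

namespace H55T3

theorem minus_conf {K Km L F : Type} [Field K] [NumberField K] [Field Km] [NumberField Km]
    [Field L] [NumberField L] [Field F] [NumberField F] [Algebra K Km] [Algebra Km F]
    [Algebra K F] [IsScalarTower K Km F] [Algebra K L] [Algebra L F] [IsScalarTower K L F]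
    (S : SNC K Km L F) (hμ : ∀ z : F, z ^ 3 = 1 → ∃ y : Km, algebraMap Km F y = z)
    (hreal : IsTotallyReal L) {J : F ≃+* F} (hJ : IsCC J) (HE : NoNewE 3 Km F ∅ J) {c : K}
    {s0 : Km} (hs0 : algebraMap Km F s0 ^ 2 = algebraMap K F c)
    (hJs : J (algebraMap Km F s0) = -algebraMap Km F s0)
    (h0 : ∀ z : L, z ^ 2 ≠ algebraMap K L c) :
    ∃ (C : Type) (_ : Field C) (_ : NumberField C) (_ : Algebra L C) (_ : Algebra K C)
      (_ : IsScalarTower K L C) (_ : IsGalois K C) (_ : IsGalois L C) (s : C),
      s ^ 2 = algebraMap K C c ∧ IntermediateField.adjoin L {s} = ⊤ ∧ NoNewMinus K L C s := by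
  have hG2 : IsGalois K L := S.galL
  have hfd : FiniteDimensional L F := Module.Finite.of_restrictScalars_finite ℚ L F
  obtain ⟨σ, hσ⟩ : ∃ σ : F, σ = algebraMap Km F s0 := ⟨_, rfl⟩
  rw [← hσ] at hs0 hJs
  have hNF : NumberField (IntermediateField.adjoin L {σ}) := NumberField.of_module_finite L _
  have hmem : σ ∈ IntermediateField.adjoin L {σ} := IntermediateField.mem_adjoin_simple_self L σ
  obtain ⟨s, hsdef⟩ : ∃ s : IntermediateField.adjoin L {σ}, s = ⟨σ, hmem⟩ := ⟨_, rfl⟩
  have hs : s ^ 2 = algebraMap K (IntermediateField.adjoin L {σ}) c := by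
    apply Subtype.ext
    rw [hsdef]
    exact hs0
  have hgen : IntermediateField.adjoin L {s} = ⊤ := by
    rw [eq_top_iff]
    rintro ⟨y, hy⟩ -
    induction hy using IntermediateField.adjoin_induction with
    | mem x hx =>
      rw [Set.mem_singleton_iff] at hx
      subst hx
      rw [← hsdef]
      exact IntermediateField.mem_adjoin_simple_self L s
    | algebraMap x => exact (IntermediateField.adjoin L {s}).algebraMap_mem x
    | add x y hx hy hx' hy' => exact add_mem hx' hy'
    | inv x hx hx' => exact inv_mem hx'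
    | mul x y hx hy hx' hy' => exact mul_mem hx' hy'
  have hGC : IsGalois K (IntermediateField.adjoin L {σ}) := galois_c hs hgen
  have hGL : IsGalois L (IntermediateField.adjoin L {σ}) := IsGalois.tower_top_of_isGalois K L _
  obtain ⟨g, hg⟩ := neg_c hs hgen h0
  refine ⟨IntermediateField.adjoin L {σ}, inferInstance, hNF, inferInstance, inferInstance,
    inferInstance, hGC, hGL, s, hs, hgen, ?_⟩
  refine noNewMinus_of_snc S hμ hgen ⟨s0, ?_⟩ HE ⟨g, hg, ?_⟩
  · rw [← hσ, hsdef]
    rfl
  · intro x
    obtain ⟨φ⟩ := cc_emb F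
    have key : ∀ x : IntermediateField.adjoin L {σ},
        x ∈ RingHom.eqLocusField ((J : F →+* F).comp
          (algebraMap (IntermediateField.adjoin L {σ}) F))
        ((algebraMap (IntermediateField.adjoin L {σ}) F).comp
          (g : IntermediateField.adjoin L {σ} →+* IntermediateField.adjoin L {σ})) := by
      refine H68IM.gen_mem hgen _ ?_ ?_
      · intro b
        change J (algebraMap _ F (algebraMap L _ b)) = algebraMap _ F (g (algebraMap L _ b))
        rw [g.commutes]
        apply φ.injective
        rw [hJ]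
        exact real_fix hreal (algebraMap L F) φ b
      · intro y hy
        rw [Set.mem_singleton_iff] at hy
        rw [hy]
        change J (algebraMap _ F s) = algebraMap _ F (g s)
        rw [hg, map_neg, hsdef]
        exact hJs
    exact key x

end H55T3
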