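import Pool.Agent.H55.T3.S6a
import Pool.Agent.H55.T3.S3
import Pool.Agent.H55.T3.S4
import Pool.Agent.H68.TM.Cps
import Pool.Agent.H68.TM.Gal
import Pool.Agent.H68.TL.Lay

/-!
The fields in the descent over a field of three-type (MP_78d38b_T3D, helper55; no row).
-/

set_option autoImplicit false
open scoped Classical

open IsDedekindDomain NumberField H68TL H68TM H68QS H5SW Pool.Agent.H10 Finset

namespace H55T3

/-- The arithmetic of a pair of layers: `κ = k(t0)`, `t0² ∈ k`. -/
structure Conf (k κ K L : Type) [Field k] [NumberField k] [Field κ] [NumberField κ] [Field K]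
    [NumberField K] [Field L] [NumberField L] [Algebra k κ] [Algebra K L] (m : ℤ) (t0 : κ)
    (f : k →+* K) : Prop where
  gal : IsGalois K L
  odd : Odd (Module.finrank K L)
  three : ¬ 3 ∣ Module.finrank K L
  real : IsTotallyReal L
  comm : ∀ g g' : L ≃ₐ[K] L, g * g' = g' * g
  bad : ∀ v : HeightOneSpectrum (𝓞 K), (m : 𝓞 K) ∈ v.asIdeal → UniqueOver K L v.asIdeal
  cube : NoNewCubeG K L
  re : ∃ (A B : Type) (_ : Field A) (_ : NumberField A) (_ : Field B) (_ : NumberField B)
    (_ : Algebra K A) (_ : Algebra A B) (_ : Algebra K B) (_ : IsScalarTower K A B)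
    (_ : Algebra L B) (_ : IsScalarTower K L B) (s : B),
    (∀ c : k, t0 ^ 2 = algebraMap k κ c → s ^ 2 = algebraMap K B (f c)) ∧
    IntermediateField.adjoin L {s} = ⊤ ∧
    (∀ g : B ≃ₐ[K] B, g s = s → ∀ x : A, g (algebraMap A B x) = algebraMap A B x) ∧
    NoNewCubeG A B
  mi : ∀ (t : κ) (c : k), t ≠ 0 → t ^ 2 = algebraMap k κ c →
    ∃ (C : Type) (_ : Field C) (_ : NumberField C) (_ : Algebra L C) (_ : Algebra K C)
      (_ : IsScalarTower K L C) (_ : IsGalois K C) (_ : IsGalois L C) (s : C),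
      s ^ 2 = algebraMap K C (-3 * f c) ∧ IntermediateField.adjoin L {s} = ⊤ ∧
      (∀ z : L, z ^ 2 ≠ algebraMap K L (-3 * f c)) ∧ NoNewMinus K L C s

end H55T3
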