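import Pool.Agent.H55.T3.S6b
import Pool.Agent.H68.IM.Base
import Pool.Agent.H78.MN.Cg
import Pool.Agent.H68.TK.Del

/-!
The fields in the descent over a field of three-type (MP_78d38b_T3D, helper55; no row).
-/

set_option autoImplicit false
set_option linter.style.haveILetI false
open scoped Classical

open IsDedekindDomain NumberField H68TL H68TM H68QS H5SW Pool.Agent.H10 Finset

namespace H55T3

private theorem sub_rat {F : Type} [Field F] [NumberField F] (M : Subfield F) (q : ℚ) :
    algebraMap ℚ F q ∈ M := by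
  rw [eq_ratCast (algebraMap ℚ F) q]
  exact SubfieldClass.ratCast_mem M q

theorem layer_conf {p M : ℕ} [Fact p.Prime] (hp : 5 ≤ p) (hM : M ≠ 0) (h3M : 3 ∣ M)
    {k κ N : Type} [Field k] [NumberField k] [Field κ] [NumberField κ] [Field N] [NumberField N]
    [Algebra k κ] [Algebra κ N] [Algebra k N] [IsScalarTower k κ N] [IsGalois ℚ N]
    (hk : IsTotallyReal k)
    (hκ : IsTotallyReal κ) (hN : LT 3 M N) {JN : N ≃+* N} (hJN : IsCC JN) {m : ℤ} (hm : m ≠ 0)
    {t0 : κ} (hgenκ : IntermediateField.adjoin k {t0} = ⊤) :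
    ∃ N0 : ℕ, ∀ (K' L' K L : Type) [Field K'] [NumberField K'] [Field L']
      [NumberField L'] [Field K] [NumberField K] [Field L] [NumberField L] [Algebra K' L']
      [Algebra K L] (C : Comp k K' L' K L), IsR p L' → (∃ i : ℕ, Module.finrank K' L' = p ^ i) →
      p ^ N0 ∣ Module.finrank ℚ K' → Conf k κ K L m t0 C.f := by
  have hf3 : Fact (Nat.Prime 3) := ⟨Nat.prime_three⟩
  have hpp : p.Prime := Fact.out
  have hp2 : p ≠ 2 := by omega
  have hp3 : p ≠ 3 := by omega
  obtain ⟨N1, hN1⟩ := layerL (l := 3) (p := p) (by norm_num) hp2 (Ne.symm hp3) h3M hM N hN m hm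
  refine ⟨N1 + padicValNat p (Module.finrank ℚ N), ?_⟩
  intro K' L' K L _ _ _ _ _ _ _ _ _ _ C hL ⟨i, hi⟩ hK
  obtain ⟨A, B, _, _, _, _, _, _, _, _, _, _, C1, hf1, hg1, hh1⟩ := exists_big (N := κ) C
  obtain ⟨Km, F, _, _, _, _, _, _, _, _, _, _, C2, hf2, hg2, hh2⟩ := exists_big (N := N) C1
  letI aKKm : Algebra K Km := ((algebraMap A Km).comp (algebraMap K A)).toAlgebra
  letI aKF : Algebra K F := ((algebraMap A F).comp (algebraMap K A)).toAlgebra
  letI aLF : Algebra L F := ((algebraMap B F).comp (algebraMap L B)).toAlgebra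
  have eKKm : ∀ x, algebraMap K Km x = algebraMap A Km (algebraMap K A x) := fun _ => rfl
  have eKF : ∀ x, algebraMap K F x = algebraMap A F (algebraMap K A x) := fun _ => rfl
  have eLF : ∀ x, algebraMap L F x = algebraMap B F (algebraMap L B x) := fun _ => rfl
  haveI t1 : IsScalarTower K Km F := IsScalarTower.of_algebraMap_eq fun x => by
    rw [eKF, eKKm, IsScalarTower.algebraMap_apply A Km F]
  haveI t2 : IsScalarTower K L F := IsScalarTower.of_algebraMap_eq fun x => by
    rw [eKF, eLF, IsScalarTower.algebraMap_apply A B F, ← IsScalarTower.algebraMap_apply K A B,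
      ← IsScalarTower.algebraMap_apply K L B]
  have hv : N1 + padicValNat p (Module.finrank ℚ N) ≤ padicValNat p (Module.finrank ℚ K') := by
    rw [← padicValNat_dvd_iff_le (Module.finrank_pos (R := ℚ) (M := K')).ne']
    exact hK
  have G : GoodL 3 m Km F := hN1 K' L' Km F C2 hL ⟨i, hi⟩ (by
    rw [padicValNat_dvd_iff_le (Module.finrank_pos (R := ℚ) (M := K')).ne']
    omega)
  have hfk : ∀ x : k, C2.f (algebraMap k N x) = algebraMap K Km (C.f x) := by
    intro x
    rw [IsScalarTower.algebraMap_apply k κ N, hf2, hf1, eKKm]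
  have S : SNC K Km L F := exists_snc hp2 hp3 C C2 hfk
    (fun x => by rw [hh2, hh1, eLF]) hL hi (by omega)
  have S1 : SNC A Km B F := exists_snc hp2 hp3 C1 C2 hf2 hh2 hL hi (by omega)
  have hLr : IsTotallyReal L := H68IM.real_of_comp C hk hL.1
  have hBr : IsTotallyReal B := H68IM.real_of_comp C1 hκ hL.1
  obtain ⟨J, hJ⟩ := comp_exists C2 hL.1 hJN
  -- the root of unity
  obtain ⟨ζ, hζ⟩ := LT.zeta hM h3M hN
  have hζ1 : ζ ^ 2 + ζ + 1 = 0 := by
    have := hζ.geom_sum_eq_zero (by norm_num)
    simp only [sum_range_succ, sum_range_zero, pow_zero, pow_one, zero_add] at this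
    linear_combination this
  obtain ⟨z, hz⟩ : ∃ z : F, z = algebraMap Km F (C2.f ζ) := ⟨_, rfl⟩
  have hz1 : z ^ 2 + z + 1 = 0 := by
    have h1 := congrArg (fun x => algebraMap Km F (C2.f x)) hζ1
    simp only [map_add, map_pow, map_one, map_zero] at h1
    rw [hz]
    exact h1
  have hzp : IsPrimitiveRoot z 3 := by
    rw [hz]
    exact (hζ.map_of_injective (f := C2.f) C2.f.injective).map_of_injective
      (f := algebraMap Km F) (algebraMap Km F).injective
  have hμ : ∀ y : F, y ^ 3 = 1 → ∃ x : Km, algebraMap Km F x = y := by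
    intro y hy
    obtain ⟨j, -, hj⟩ := hzp.eq_pow_of_pow_eq_one hy
    exact ⟨(C2.f ζ) ^ j, by rw [map_pow, ← hz, hj]⟩
  have hJz : J z = z ^ 2 := H78N.Cg_J hz1 hJ
  obtain ⟨hGKL, hd⟩ := galL C hL hi
  obtain ⟨j, -, hj⟩ := (Nat.dvd_prime_pow hpp).1 hd
  refine
    { gal := hGKL
      odd := ?_
      three := ?_
      real := hLr
      comm := ?_
      bad := fun v hv => unique_of_fix S G.B hv
      cube := noNewCubeG_of_snc S hLr hμ hz1 hJ (G.U J hJ)
      re := ?_
      mi := ?_ }
  · rw [hj]
    exact (hpp.odd_of_ne_two hp2).pow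
  · rw [hj]
    intro h3
    exact hp3 ((Nat.prime_dvd_prime_iff_eq Nat.prime_three hpp).1
      (Nat.prime_three.dvd_of_dvd_pow h3)).symm
  · letI b1 : Algebra k K := C.f.toAlgebra
    letI b2 : Algebra k L := ((algebraMap K L).comp C.f).toAlgebra
    haveI b3 : IsScalarTower k K L := IsScalarTower.of_algebraMap_eq fun x => rfl
    have hgen : IntermediateField.adjoin k (Set.range C.h) = ⊤ := by
      rw [eq_top_iff]
      intro x _
      refine H68IM.gen_mem C.genL (IntermediateField.adjoin k (Set.range C.h)).toSubfield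
        (fun q => sub_rat _ q) ?_ x
      rintro _ (⟨b, rfl⟩ | ⟨y, rfl⟩)
      · exact (IntermediateField.adjoin k (Set.range C.h)).algebraMap_mem b
      · exact IntermediateField.subset_adjoin k _ ⟨y, rfl⟩
    exact fun g g' => H68TK.comm_gal C.h hL hgen g g'
  · obtain ⟨s, hs⟩ : ∃ s : B, s = algebraMap A B (C1.f t0) := ⟨_, rfl⟩
    refine ⟨A, B, inferInstance, inferInstance, inferInstance, inferInstance, inferInstance,
      inferInstance, inferInstance, inferInstance, inferInstance, inferInstance, s, ?_, ?_, ?_,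
      noNewCubeG_of_snc S1 hBr hμ hz1 hJ (G.U J hJ)⟩
    · intro c hc
      rw [hs, ← map_pow, ← map_pow, hc, hf1, ← IsScalarTower.algebraMap_apply K A B]
    · rw [eq_top_iff]
      intro x _
      refine H68IM.gen_mem C1.genL (IntermediateField.adjoin L {s}).toSubfield
        (fun q => sub_rat _ q) ?_ x
      rintro _ (⟨b, rfl⟩ | ⟨y, rfl⟩)
      · refine H68IM.gen_mem hgenκ (((IntermediateField.adjoin L {s}).toSubfield).comap
          ((algebraMap A B).comp C1.f)) ?_ ?_ b
        · intro c
          change algebraMap A B (C1.f (algebraMap k κ c)) ∈ IntermediateField.adjoin L {s}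
          rw [hf1, ← IsScalarTower.algebraMap_apply K A B, IsScalarTower.algebraMap_apply K L B]
          exact IntermediateField.algebraMap_mem _ _
        · intro c hc
          rw [Set.mem_singleton_iff] at hc
          change algebraMap A B (C1.f c) ∈ IntermediateField.adjoin L {s}
          rw [hc, ← hs]
          exact IntermediateField.mem_adjoin_simple_self L s
      · change C1.h y ∈ IntermediateField.adjoin L {s}
        rw [hh1]
        exact IntermediateField.algebraMap_mem _ _
    · intro g hg x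
      refine H68IM.gen_mem C1.genK (RingHom.eqLocusField ((g : B →+* B).comp (algebraMap A B))
        (algebraMap A B)) (fun q => sub_rat _ q) ?_ x
      rintro _ (⟨b, rfl⟩ | ⟨y, rfl⟩)
      · refine H68IM.gen_mem hgenκ ((RingHom.eqLocusField ((g : B →+* B).comp (algebraMap A B))
          (algebraMap A B)).comap C1.f) ?_ ?_ b
        · intro c
          change g (algebraMap A B (C1.f (algebraMap k κ c))) =
            algebraMap A B (C1.f (algebraMap k κ c))
          rw [hf1, ← IsScalarTower.algebraMap_apply K A B, g.commutes]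
        · intro c hc
          rw [Set.mem_singleton_iff] at hc
          change g (algebraMap A B (C1.f c)) = algebraMap A B (C1.f c)
          rw [hc, ← hs, hg]
      · change g (algebraMap A B (C1.g y)) = algebraMap A B (C1.g y)
        rw [hg1, ← IsScalarTower.algebraMap_apply K A B, g.commutes]
  · intro t c ht htc
    obtain ⟨τ, hτ⟩ : ∃ τ : B, τ = algebraMap A B (C1.f t) := ⟨_, rfl⟩
    have hτ2 : τ ^ 2 = algebraMap K B (C.f c) := by
      rw [hτ, ← map_pow, ← map_pow, htc, hf1, ← IsScalarTower.algebraMap_apply K A B]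
    have hτ0 : τ ≠ 0 := by
      rw [hτ, Ne, map_eq_zero, map_eq_zero]
      exact ht
    have h0 : ∀ y : L, y ^ 2 ≠ algebraMap K L (-3 * C.f c) := by
      intro y hy
      obtain ⟨ψ⟩ := H68IM.exists_real hBr
      have h1 := congrArg (fun x => ψ (algebraMap L B x)) hy
      rw [← IsScalarTower.algebraMap_apply K L B, map_mul, ← hτ2, map_mul, map_pow, map_pow,
        map_neg, map_ofNat, map_neg, map_ofNat, map_pow] at h1
      have h2 : ψ τ ≠ 0 := by rwa [Ne, map_eq_zero]
      have h3 : 0 < (ψ τ) ^ 2 := by positivity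
      nlinarith [sq_nonneg (ψ (algebraMap L B y))]
    obtain ⟨s0, hs0⟩ : ∃ s0 : Km, s0 = (2 * C2.f ζ + 1) * C2.f (algebraMap κ N t) := ⟨_, rfl⟩
    have hs1 : algebraMap Km F s0 = (2 * z + 1) * algebraMap B F τ := by
      rw [hs0, map_mul, map_add, map_mul, map_ofNat, map_one, ← hz, hf2,
        ← IsScalarTower.algebraMap_apply A Km F, IsScalarTower.algebraMap_apply A B F, hτ]
    have hJτ : J (algebraMap B F τ) = algebraMap B F τ := by
      obtain ⟨φ⟩ := cc_emb F
      apply φ.injective
      rw [hJ]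
      exact real_fix hBr (algebraMap B F) φ τ
    obtain ⟨D, _, _, _, _, _, hD1, hD2, s, hs, hgen, hR⟩ := minus_conf S hμ hLr hJ (G.E J hJ)
      (c := -3 * C.f c) (s0 := s0) (by
        rw [hs1, mul_pow, ← map_pow, hτ2, IsScalarTower.algebraMap_apply K L B, ← eLF,
          ← IsScalarTower.algebraMap_apply K L F, map_mul, map_neg, map_ofNat]
        linear_combination (4 * algebraMap K F (C.f c)) * hz1) (by
        rw [hs1, map_mul, map_add, map_mul, map_ofNat, map_one, hJz, hJτ]
        linear_combination (2 * algebraMap B F τ) * hz1) h0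
    exact ⟨D, inferInstance, inferInstance, inferInstance, inferInstance, inferInstance, hD1, hD2,
      s, hs, hgen, h0, hR⟩

end H55T3
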