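import Pool.Agent.H55.T3.Df6
import Pool.Agent.H55.T3.BadE

/-!
The goodness goes up, `D` in `𝓞 k` (MP_78d38b_T3D, helper55; no row).
-/

set_option autoImplicit false
open scoped Classical

open IsDedekindDomain NumberField WithZero Pool.Agent.H10

namespace H55T3

private theorem S7_ram {a : WithZero (Multiplicative ℤ)} {e : ℕ}
    (h : a ^ e = exp (-1 : ℤ)) : e = 1 := by
  have ha : a ≠ 0 := by
    rintro rfl
    rcases Nat.eq_zero_or_pos e with h0 | h0
    · subst h0
      rw [pow_zero] at h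
      have h2 := h.symm
      rw [← exp_zero, exp_inj] at h2
      omega
    · rw [zero_pow h0.ne'] at h
      exact exp_ne_zero h.symm
  rw [← exp_log ha, ← exp_nsmul, exp_inj, nsmul_eq_mul] at h
  have h2 : (e : ℤ) ∣ 1 := ⟨-(log a), by linarith⟩
  have h3 := Int.natCast_dvd_natCast.1 (by simpa using h2 : ((e : ℕ) : ℤ) ∣ ((1 : ℕ) : ℤ))
  exact Nat.dvd_one.1 h3

theorem good_upD {k L : Type} [Field k] [NumberField k] [Field L] [NumberField L] [Algebra k L]
    {D α β : 𝓞 k} (hD : ∀ v : HeightOneSpectrum (𝓞 k), (3 : 𝓞 k) ∈ v.asIdeal → D ∉ v.asIdeal ^ 2)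
    (hg : ∀ v : HeightOneSpectrum (𝓞 k), (3 : 𝓞 k) ∈ v.asIdeal → GoodD v D α β)
    (w : HeightOneSpectrum (𝓞 L)) (hw : (3 : 𝓞 L) ∈ w.asIdeal)
    (hunr : w.valuation L 3 = exp (-1 : ℤ)) :
    GoodVO (w.valuation L) (algebraMap k L (D : k)) (algebraMap k L (α : k))
      (algebraMap k L (β : k)) := by
  have h3 : (3 : 𝓞 k) ∈ w.asIdeal.comap (algebraMap (𝓞 k) (𝓞 L)) := by
    rw [Ideal.mem_comap, map_ofNat]
    exact hw
  have hne : w.asIdeal.comap (algebraMap (𝓞 k) (𝓞 L)) ≠ ⊥ := by
    intro h0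
    rw [h0, Ideal.mem_bot] at h3
    norm_num at h3
  have hpr : (w.asIdeal.comap (algebraMap (𝓞 k) (𝓞 L))).IsPrime := Ideal.comap_isPrime _ _
  let v : HeightOneSpectrum (𝓞 k) := ⟨w.asIdeal.comap (algebraMap (𝓞 k) (𝓞 L)), hpr, hne⟩
  have hlo : w.asIdeal.LiesOver v.asIdeal := ⟨rfl⟩
  have hval : ∀ x : k, w.valuation L (algebraMap k L x) = v.valuation k x := by
    intro x
    have h1 := HeightOneSpectrum.valuation_liesOver (K := k) L v w (3 : k)
    have h13 : algebraMap k L 3 = 3 := map_ofNat _ 3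
    rw [h13, hunr] at h1
    have h2 := S7_ram h1
    have h4 := HeightOneSpectrum.valuation_liesOver (K := k) L v w x
    rw [h2, pow_one] at h4
    exact h4.symm
  have hint : ∀ x : 𝓞 k, v.valuation k (x : k) = v.intValuation x := fun x =>
    v.valuation_of_algebraMap x
  have hle : ∀ (x : 𝓞 k) (n : ℕ), x ∈ v.asIdeal ^ n → v.intValuation x ≤ exp (-(n : ℤ)) :=
    fun x n => (v.intValuation_le_pow_iff_mem x n).2
  have hlt : ∀ (x : 𝓞 k) (n : ℕ), x ∉ v.asIdeal ^ n → exp (-(n : ℤ)) < v.intValuation x :=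
    fun x n h => not_le.1 (mt (v.intValuation_le_pow_iff_mem x n).1 h)
  have hγ : 27 * algebraMap k L (β : k) -
      4 * algebraMap k L (D : k) * (algebraMap k L (α : k)) ^ 3 =
      algebraMap k L ((27 * β - 4 * D * α ^ 3 : 𝓞 k) : k) := by
    have h7 : ((27 * β - 4 * D * α ^ 3 : 𝓞 k) : k) =
        27 * (β : k) - 4 * (D : k) * (α : k) ^ 3 := by
      have h8 : ((27 * β - 4 * D * α ^ 3 : 𝓞 k) : k) =
          algebraMap (𝓞 k) k (27 * β - 4 * D * α ^ 3) := rfl
      rw [h8, map_sub, map_mul, map_mul, map_mul, map_pow, map_ofNat, map_ofNat]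
    rw [h7, map_sub, map_mul, map_mul, map_mul, map_pow, map_ofNat, map_ofNat]
  rcases hg v h3 with ⟨h0, i, h1, h2, h4⟩ | ⟨h0, i, h1, h2, h4⟩
  · refine Or.inl ⟨?_, i, ?_, ?_, ?_⟩
    · rw [hval, hint]
      exact (v.intValuation_eq_one_iff).2 h0
    · rw [hval, hint]
      have := hle α (i + 1) h1
      push_cast at this
      exact this
    · rw [hγ, hval, hint]
      have := hle _ (3 * i + 5) h2
      push_cast at this
      exact this
    · rw [hval, hint]
      have := hlt β (3 * i + 3) h4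
      push_cast at this
      exact this
  · refine Or.inr ⟨?_, i, ?_, ?_, ?_⟩
    · rw [hval, hint]
      refine le_antisymm ?_ ?_
      · have := hle D 1 (by rwa [pow_one])
        push_cast at this
        exact this
      · have h5 := hlt D 2 (hD v h3)
        by_contra hcon
        rw [not_le] at hcon
        have hD0 : v.intValuation D ≠ 0 := fun h => by
          rw [h] at h5
          exact not_lt_zero h5
        rw [← exp_log hD0, exp_lt_exp] at hcon h5
        push_cast at h5
        omega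
    · rw [hval, hint]
      have := hle α (i + 1) h1
      push_cast at this
      exact this
    · rw [hval, hint]
      have := hle β (3 * i + 1) h2
      push_cast at this
      exact this
    · rw [hval, hint]
      have := hlt β (3 * i + 3) h4
      push_cast at this
      exact this

end H55T3
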