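import Pool.Agent.H55.T3.S6b
import Pool.Agent.H55.T3.KO
import Pool.Agent.H55.T3.S7
import Pool.Agent.H55.T3.KFin3
import Pool.Agent.H11.T3Q.Qf

/-!
Stability for a pair of layers over a field of three-type (MP_78d38b_T3D, helper55; no row).
-/

set_option autoImplicit false
set_option linter.style.haveILetI false
open scoped Classical

open WeierstrassCurve IsDedekindDomain NumberField WithZero Pool.Agent.H10 Pool.Agent.H11 H5SW

namespace H55T3

theorem cube_of_cubeG {K L : Type} [Field K] [NumberField K] [Field L] [NumberField L]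
    [Algebra K L] (h : NoNewCubeG K L) : NoNewCube K L := by
  intro x hx hv h3 hN
  refine h x hx hv (fun w hw => ?_) hN
  obtain ⟨t, ht⟩ := h3 w hw
  refine ⟨t, ?_⟩
  have h3' : w.valuation L (3 : L) ≤ 1 := by
    have h4 : w.valuation L (algebraMap (𝓞 L) L 3) ≤ 1 := w.valuation_le_one 3
    rwa [map_ofNat] at h4
  have e9 : w.valuation L (9 : L) = w.valuation L 3 ^ 2 := by
    rw [← map_pow]
    norm_num
  have e27 : w.valuation L (27 : L) = w.valuation L 3 ^ 3 := by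
    rw [← map_pow]
    norm_num
  rw [e9] at ht
  rw [e27]
  calc w.valuation L (x * t ^ 3 - 1) ^ 2 ≤ (w.valuation L 3 ^ 2) ^ 2 :=
        pow_le_pow_left₀ zero_le ht 2
    _ = w.valuation L 3 ^ 3 * w.valuation L 3 := by rw [← pow_mul, ← pow_succ]
    _ ≤ w.valuation L 3 ^ 3 * 1 := mul_le_mul_right h3' _
    _ = _ := mul_one _

variable {k κ K L : Type} [Field k] [NumberField k] [Field κ] [NumberField κ] [Field K]
  [NumberField K] [Field L] [NumberField L] [Algebra k κ] [Algebra k K] [Algebra k L]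
  [Algebra K L] [IsScalarTower k K L] [IsGalois K L] {m : ℤ} {t0 : κ}

/-- `D` is not a square in `L`. -/
theorem pair_non (X : Conf k κ K L m t0 (algebraMap k K)) {D α β : 𝓞 k} (hD0 : D ≠ 0)
    (ht0 : t0 ^ 2 = algebraMap k κ (D : k)) (hβ : β ≠ 0) (hγ : 27 * β - 4 * D * α ^ 3 ≠ 0)
    (hm : ∃ y : 𝓞 k, (m : 𝓞 k) = 6 * D * β * (27 * β - 4 * D * α ^ 3) * y)
    (hunr : ∀ w : HeightOneSpectrum (𝓞 L), (3 : 𝓞 L) ∈ w.asIdeal →
      w.valuation L 3 = exp (-1 : ℤ))
    (hgood : ∀ w : HeightOneSpectrum (𝓞 L), (3 : 𝓞 L) ∈ w.asIdeal →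
      GoodVO (w.valuation L) (algebraMap k L (D : k)) (algebraMap k L (α : k))
        (algebraMap k L (β : k)))
    (hn : ∀ z : L, z ^ 2 ≠ algebraMap k L (D : k)) (E : WeierstrassCurve K)
    (hE : E = curWD (algebraMap k K (D : k)) (algebraMap k K (α : k)) (algebraMap k K (β : k)) ∨
      E = curVD (algebraMap k K (D : k)) (algebraMap k K (α : k))
        (algebraMap k K ((27 * β - 4 * D * α ^ 3 : 𝓞 k) : k))) :
    (E.baseChange L).IsElliptic ∧ CT3 K L (E.baseChange L) (inv_up rfl) := by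
  obtain ⟨D', hD'⟩ : ∃ D' : 𝓞 K, D' = algebraMap (𝓞 k) (𝓞 K) D := ⟨_, rfl⟩
  obtain ⟨α', hα'⟩ : ∃ α' : 𝓞 K, α' = algebraMap (𝓞 k) (𝓞 K) α := ⟨_, rfl⟩
  obtain ⟨β', hβ'⟩ : ∃ β' : 𝓞 K, β' = algebraMap (𝓞 k) (𝓞 K) β := ⟨_, rfl⟩
  have cD : (D' : K) = algebraMap k K (D : k) := by rw [hD']; rfl
  have cα : (α' : K) = algebraMap k K (α : k) := by rw [hα']; rfl
  have cβ : (β' : K) = algebraMap k K (β : k) := by rw [hβ']; rfl
  have hinj : Function.Injective (algebraMap (𝓞 k) (𝓞 K)) :=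
    FaithfulSMul.algebraMap_injective (𝓞 k) (𝓞 K)
  have eγ : 27 * β' - 4 * D' * α' ^ 3 =
      algebraMap (𝓞 k) (𝓞 K) (27 * β - 4 * D * α ^ 3) := by
    rw [hD', hα', hβ', map_sub, map_mul, map_mul, map_mul, map_pow, map_ofNat, map_ofNat]
  have hD0' : D' ≠ 0 := by
    rw [hD']
    exact (map_ne_zero_iff _ hinj).2 hD0
  have hβ0 : β' ≠ 0 := by
    rw [hβ']
    exact (map_ne_zero_iff _ hinj).2 hβ
  have hγ0 : 27 * β' - 4 * D' * α' ^ 3 ≠ 0 := by
    rw [eγ]
    exact (map_ne_zero_iff _ hinj).2 hγ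
  have hbad' : ∀ v : HeightOneSpectrum (𝓞 K),
      6 * D' * β' * (27 * β' - 4 * D' * α' ^ 3) ∈ v.asIdeal → UniqueOver K L v.asIdeal := by
    intro v hv
    apply X.bad v
    obtain ⟨y, hy⟩ := hm
    have h1 : (m : 𝓞 K) =
        6 * D' * β' * (27 * β' - 4 * D' * α' ^ 3) * algebraMap (𝓞 k) (𝓞 K) y := by
      rw [eγ, hD', hβ', ← map_intCast (algebraMap (𝓞 k) (𝓞 K)) m, hy, map_mul, map_mul, map_mul,
        map_mul, map_ofNat]
    rw [h1]
    exact v.asIdeal.mul_mem_right _ hv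
  have hgood' : ∀ w : HeightOneSpectrum (𝓞 L), (3 : 𝓞 L) ∈ w.asIdeal →
      GoodVO (w.valuation L) (algebraMap K L (D' : K)) (algebraMap K L (α' : K))
        (algebraMap K L (β' : K)) := by
    intro w hw
    rw [cD, cα, cβ, ← IsScalarTower.algebraMap_apply k K L,
      ← IsScalarTower.algebraMap_apply k K L, ← IsScalarTower.algebraMap_apply k K L]
    exact hgood w hw
  have hE' : E = curWD (D' : K) (α' : K) (β' : K) ∨
      E = curVD (D' : K) (α' : K) (27 * (β' : K) - 4 * (D' : K) * (α' : K) ^ 3) := by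
    rcases hE with hE | hE
    · left
      rw [hE, cD, cα, cβ]
    · right
      rw [hE, cD, cα, cβ]
      congr 1
      have : ((27 * β - 4 * D * α ^ 3 : 𝓞 k) : k) =
        27 * (β : k) - 4 * (D : k) * (α : k) ^ 3 := coe_gammaO
      rw [this, map_sub, map_mul, map_mul, map_mul, map_pow, map_ofNat, map_ofNat]
  -- the real side
  obtain ⟨A, B, _, _, _, _, _, _, _, _, _, _, s, hs, hgen, hA, hR⟩ := X.re
  have hs' : s ^ 2 = algebraMap K B (D' : K) := by rw [cD]; exact hs _ ht0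
  have hn' : ∀ z : L, z ^ 2 ≠ algebraMap K L (D' : K) := by
    intro z
    rw [cD, ← IsScalarTower.algebraMap_apply k K L]
    exact hn z
  haveI hGB : IsGalois K B := galois_c hs' hgen
  haveI hGLB : IsGalois L B := IsGalois.tower_top_of_isGalois K L B
  -- the minus side
  have ht00 : t0 ≠ 0 := by
    rintro rfl
    rw [zero_pow two_ne_zero] at ht0
    have h1 : (D : k) = 0 := (map_eq_zero (algebraMap k κ)).1 ht0.symm
    exact coe_ne hD0 h1
  obtain ⟨C, _, _, _, _, _, _, _, s', hsC, hgen', hn2, hM⟩ := X.mi t0 (D : k) ht00 ht0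
  have hsC' : s' ^ 2 = algebraMap K C (-3 * (D' : K)) := by rw [cD]; exact hsC
  have hn2' : ∀ z : L, z ^ 2 ≠ algebraMap K L (-3 * (D' : K)) := by
    intro z
    rw [cD]
    exact hn2 z
  exact ct3_pairO (A := A) X.odd X.three hD0' hs' (finrank_c hs' hgen hn')
    (fun g hg => H68TK.gen_s hgen g hg) (neg_c hs' hgen hn') hA
    (fun x hx _ hv h3 hN => hR x hx hv h3 hN) hsC' (finrank_c hsC' hgen' hn2')
    (fun g hg => H68TK.gen_s hgen' g hg) (neg_c hsC' hgen' hn2') (comm_c X.comm hsC' hgen') hM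
    hβ0 hγ0 hgood' hbad' hunr E hE'

end H55T3
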