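import Pool.Agent.H55.T3.SD

/-!
Row SCh (MP_78d38b_T3, block S, helper11; about 150 lines): the power residue character with values in `𝓞 C`.

`P = ker r`, prime, `p ∈ P`; `q = card k`.

`exists_chi`: `ζ ∈ 𝓞 C` primitive `N`-th root of unity (`(IsCyclotomicExtension.zeta_spec N ℚ C).toInteger_isPrimitiveRoot`).  `r ζ` is a primitive `N`-th root of unity of `k`
(`p` is prime to `N`: if `(r ζ)^l = 1` with `0 < l < N`, then `1 - ζ^l ∈ P`; use `IsPrimitiveRoot.idealQuotient_mk` (absNorm P is a power of `p`, see Mathlib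
`NumberTheory/NumberField/Cyclotomic/Galois.lean`, `mem_zpowers_galEquivZMod_of_mem_stabilizer`) and the injection `𝓞 C ⧸ P → k`; or: `∏_{0<l<N} (1 - ζ^l) = N`, so `(N : k) = 0`, `p ∣ N`).
Choose a generator `y0` of `kˣ`; `((y0⁻¹)^m)^N = 1` since `N m = q - 1`, so `(y0⁻¹)^m = (r ζ)^a` for some `a` (`IsPrimitiveRoot.eq_pow_of_pow_eq_one`).  `χ := MulChar.ofRootOfUnity` with the root of unity `ζ^a`
(`(ζ^a)^(q-1) = 1`), `χ y0 = ζ^a`.  `χ ^ N = 1`: at the generator (`MulChar` is determined by its value at `y0`: `MulChar.eq_iff` or ext with `x = y0^n`).  For `x = y0^n`: `r (χ x) = (r ζ)^(a n) = ((y0⁻¹)^m)^n = (x⁻¹)^m`.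

`chi_om`: `x = 0`: both sides `0` if ... careful: `(om⁻¹ ^ m) 0 = 0` also for `m = 0`? `MulChar` vanishes at non-units: `MulChar.map_nonunit`, so both sides are `0`.  `x ≠ 0`: `u = algebraMap (χ x)` and `v = (om⁻¹ ^ m) x` satisfy `u^N = 1 = v^N`
(`v = (om x⁻¹)^m`, `om (x⁻¹)^(q-1) = om (1) = 1`), `mk u = D.i (r (χ x)) = D.i ((x⁻¹)^m) = mk v`.  Claim: `u = v`.  `η = u v⁻¹` (with `v⁻¹ = v^(N-1)`) is a root of unity with `η ^ N = 1` and `mk η = 1`.  Let `l = orderOf η ∣ N`, so `η` is a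
primitive `l`-th root; by `IsPrimitiveRoot.idealQuotient_mk` (absNorm of `D.P` is a power of `p`, since `p ∈ D.P`) `mk η` is a primitive `l`-th root, so `l = 1`, `η = 1`.
-/

set_option autoImplicit false
open scoped Classical Pointwise
open NumberField Ideal

namespace H55T3

lemma SCh_one {R F : Type*} [CommRing R] [IsDomain R] [CommRing F] (r : R →+* F) {N : ℕ}
    (hN : (N : F) ≠ 0) {η : R} (h1 : η ^ N = 1) (h2 : r η = 1) : η = 1 := by
  by_contra h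
  have e1 : (∑ i ∈ Finset.range N, η ^ i) * (η - 1) = 0 := by
    rw [geom_sum_mul, h1, sub_self]
  have e2 : ∑ i ∈ Finset.range N, η ^ i = 0 :=
    (mul_eq_zero.1 e1).resolve_right (sub_ne_zero.2 h)
  apply hN
  have e3 := congrArg r e2
  rw [map_sum, map_zero] at e3
  simp only [map_pow, h2, one_pow, Finset.sum_const, Finset.card_range, nsmul_eq_mul,
    mul_one] at e3
  exact e3

lemma SCh_N {k : Type*} [Field k] {N p : ℕ} [hp : Fact p.Prime] [CharP k p]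
    (hpN : p.Coprime N) : (N : k) ≠ 0 := by
  intro h
  have h1 : p ∣ N := (CharP.cast_eq_zero_iff k p N).1 h
  exact (Nat.Prime.coprime_iff_not_dvd hp.out).1 hpN h1

theorem exists_chi {N : ℕ} [NeZero N] {C : Type} [Field C] [NumberField C]
    [IsCyclotomicExtension {N} ℚ C] {k : Type} [Field k] [Fintype k] (r : 𝓞 C →+* k)
    (p : ℕ) [Fact p.Prime] [CharP k p] (hpN : p.Coprime N) (m : ℕ)
    (hm : Fintype.card k - 1 = N * m) :
    ∃ χ : MulChar k (𝓞 C), χ ^ N = 1 ∧ ∀ x : k, x ≠ 0 → r (χ x) = (x⁻¹) ^ m := by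
  have hN : (N : k) ≠ 0 := SCh_N (p := p) hpN
  have hN0 : N ≠ 0 := NeZero.ne N
  obtain ⟨ζ, hζ⟩ : ∃ ζ : 𝓞 C, IsPrimitiveRoot ζ N :=
    ⟨_, (IsCyclotomicExtension.zeta_spec N ℚ C).toInteger_isPrimitiveRoot⟩
  have hr : IsPrimitiveRoot (r ζ) N := by
    refine ⟨by rw [← map_pow, hζ.pow_eq_one, map_one], fun l hl => ?_⟩
    rw [← map_pow] at hl
    have h1 : ζ ^ l = 1 := SCh_one r hN
      (by rw [← pow_mul, mul_comm, pow_mul, hζ.pow_eq_one, one_pow]) hl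
    exact hζ.dvd_of_pow_eq_one l h1
  obtain ⟨y, hy⟩ := IsCyclic.exists_generator (α := kˣ)
  have hy0 : (y : k) ≠ 0 := y.ne_zero
  have hyN : (((y : k)⁻¹) ^ m) ^ N = 1 := by
    rw [← pow_mul, mul_comm m N, ← hm]
    exact FiniteField.pow_card_sub_one_eq_one _ (inv_ne_zero hy0)
  obtain ⟨a, -, ha⟩ := hr.eq_pow_of_pow_eq_one hyN
  obtain ⟨μ, hμ⟩ : ∃ μ : (𝓞 C)ˣ, (μ : 𝓞 C) = ζ ^ a := by
    have h1 : IsUnit (ζ ^ a) := (hζ.isUnit hN0).pow a
    exact ⟨h1.unit, h1.unit_spec⟩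
  have hμN : (μ : 𝓞 C) ^ N = 1 := by
    rw [hμ, ← pow_mul, mul_comm, pow_mul, hζ.pow_eq_one, one_pow]
  have hμ1 : μ ∈ rootsOfUnity (Fintype.card kˣ) (𝓞 C) := by
    rw [mem_rootsOfUnity, Fintype.card_units, hm]
    apply Units.ext
    rw [Units.val_pow_eq_pow_val, pow_mul, hμN, one_pow, Units.val_one]
  obtain ⟨χ, hχ⟩ : ∃ χ : MulChar k (𝓞 C), χ y = μ :=
    ⟨MulChar.ofRootOfUnity hμ1 hy, MulChar.ofRootOfUnity_spec hμ1 hy⟩
  refine ⟨χ, ?_, fun x hx => ?_⟩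
  · rw [MulChar.eq_iff hy, MulChar.pow_apply_coe, hχ, hμN, MulChar.one_apply_coe]
  · have h1 : Units.mk0 x hx ∈ Submonoid.powers y := by
      rw [mem_powers_iff_mem_zpowers]
      exact hy _
    obtain ⟨n, hn⟩ := h1
    have hn' : x = (y : k) ^ n := by
      have h2 := congrArg (fun u : kˣ => (u : k)) hn
      simp only [Units.val_pow_eq_pow_val, Units.val_mk0] at h2
      exact h2.symm
    have h3 : ((y : k)⁻¹) ^ m = r (χ y) := by rw [hχ, hμ, map_pow, ha]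
    rw [hn', map_pow, map_pow, ← h3, ← inv_pow, ← pow_mul, ← pow_mul, mul_comm]

theorem chi_om {N : ℕ} [NeZero N] {C : Type} [Field C] [NumberField C]
    {k : Type} [Field k] [Fintype k] (r : 𝓞 C →+* k) {p : ℕ} [Fact p.Prime] [CharP k p]
    (hpN : p.Coprime N) (m : ℕ) (hm : Fintype.card k - 1 = N * m)
    (χ : MulChar k (𝓞 C)) (hχ : χ ^ N = 1) (hχ' : ∀ x : k, x ≠ 0 → r (χ x) = (x⁻¹) ^ m)
    {E : Type} [Field E] [NumberField E] [Algebra C E] (D : TD k E p)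
    (hD : ∀ x : 𝓞 C, D.i (r x) = Ideal.Quotient.mk D.P (algebraMap (𝓞 C) (𝓞 E) x)) (x : k) :
    algebraMap (𝓞 C) (𝓞 E) (χ x) = (D.om⁻¹ ^ m) x := by
  have hN0 : N ≠ 0 := NeZero.ne N
  have hNk : (N : k) ≠ 0 := SCh_N (p := p) hpN
  have hPt : D.P.IsPrime := D.prime
  have hNq : ((N : ℕ) : 𝓞 E ⧸ D.P) ≠ 0 := by
    rw [← map_natCast D.i]
    exact (map_ne_zero_iff D.i D.i.injective).2 hNk
  by_cases hx : x = 0
  · rw [hx, MulChar.map_zero, MulChar.map_zero, map_zero]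
  obtain ⟨u, hu⟩ : ∃ u, u = algebraMap (𝓞 C) (𝓞 E) (χ x) := ⟨_, rfl⟩
  obtain ⟨v, hv⟩ : ∃ v, v = (D.om⁻¹ ^ m) x := ⟨_, rfl⟩
  rw [← hu, ← hv]
  have hv2 : v = D.om (x⁻¹) ^ m := by
    have h1 := MulChar.pow_apply_coe D.om⁻¹ m (Units.mk0 x hx)
    rw [Units.val_mk0, MulChar.inv_apply'] at h1
    rw [hv, h1]
  have huN : u ^ N = 1 := by
    have h1 := MulChar.pow_apply_coe χ N (Units.mk0 x hx)
    rw [Units.val_mk0, hχ] at h1
    rw [hu, ← map_pow, ← h1, MulChar.one_apply (Ne.isUnit hx), map_one]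
  have hvN : v ^ N = 1 := by
    rw [hv2, ← map_pow, ← map_pow, ← pow_mul, mul_comm m N, ← hm,
      FiniteField.pow_card_sub_one_eq_one _ (inv_ne_zero hx), map_one]
  have hmk : Ideal.Quotient.mk D.P u = Ideal.Quotient.mk D.P v := by
    rw [hu, ← hD, hχ' x hx, hv2, map_pow, map_pow, D.hom]
  have e1 : u * v ^ (N - 1) = 1 := by
    apply SCh_one (Ideal.Quotient.mk D.P) hNq
    · rw [mul_pow, huN, one_mul, ← pow_mul, mul_comm, pow_mul, hvN, one_pow]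
    · rw [map_mul, hmk, ← map_mul, ← pow_succ', Nat.sub_add_cancel (Nat.one_le_iff_ne_zero.2 hN0),
        hvN, map_one]
  calc u = u * v ^ N := by rw [hvN, mul_one]
    _ = u * v ^ (N - 1) * v := by
        rw [mul_assoc, ← pow_succ, Nat.sub_add_cancel (Nat.one_le_iff_ne_zero.2 hN0)]
    _ = v := by rw [e1, one_mul]

end H55T3
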