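import Pool.Agent.H55.T3.Df2

/-!
Block S of MP_78d38b_T3 (helper11): definitions and basic lemmas (no row).

`od P x`: the exponent of the prime ideal `P` in `(x)`.
`TD k E p`: a Teichmueller datum: a finite field `k` embedded in the residue field of `E` at `P`, the character
`om : k → O_E` with `om x ≡ x mod P`, and a primitive `p`-th root of unity `z`.
`gs D a`: the Gauss sum of `om^(-a)`; `hh D a = od P (gs D a)`.
`gam c χ t = ∏_{1 ≤ i < c} J(χ^t, χ^(t i))`.
-/

set_option autoImplicit false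
open scoped Classical Pointwise

open NumberField Ideal

namespace H55T3

/-- the exponent of the prime ideal `P` in the principal ideal `(x)`, `x ≠ 0` -/
noncomputable def od {R : Type*} [CommRing R] (P : Ideal R) (x : R) : ℕ :=
  multiplicity P (Ideal.span {x})

section basic
variable {R : Type*} [CommRing R] [IsDedekindDomain R] {P : Ideal R}

lemma od_coe (hP : P.IsPrime) (hP0 : P ≠ ⊥) {x : R} (hx : x ≠ 0) :
    (od P x : ℕ∞) = emultiplicity P (Ideal.span {x}) := by
  have h1 : FiniteMultiplicity P (Ideal.span {x}) :=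
    FiniteMultiplicity.of_prime_left (Ideal.prime_of_isPrime hP0 hP)
      (by simpa [Ideal.zero_eq_bot] using hx)
  rw [od, h1.emultiplicity_eq_multiplicity]

lemma od_mul (hP : P.IsPrime) (hP0 : P ≠ ⊥) {x y : R} (hx : x ≠ 0) (hy : y ≠ 0) :
    od P (x * y) = od P x + od P y := by
  have h := Ideal.prime_of_isPrime hP0 hP
  have h1 : ((od P (x * y) : ℕ) : ℕ∞) = ((od P x + od P y : ℕ) : ℕ∞) := by
    rw [Nat.cast_add, od_coe hP hP0 hx, od_coe hP hP0 hy, od_coe hP hP0 (mul_ne_zero hx hy),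
      ← emultiplicity_mul h, Ideal.span_singleton_mul_span_singleton]
  exact_mod_cast h1

lemma le_od_iff (hP : P.IsPrime) (hP0 : P ≠ ⊥) {x : R} (hx : x ≠ 0) (n : ℕ) :
    n ≤ od P x ↔ x ∈ P ^ n := by
  rw [← Ideal.span_singleton_le_iff_mem, ← Ideal.dvd_iff_le, pow_dvd_iff_le_emultiplicity,
    ← od_coe hP hP0 hx]
  exact_mod_cast Iff.rfl

lemma od_eq_zero_iff (hP : P.IsPrime) (hP0 : P ≠ ⊥) {x : R} (hx : x ≠ 0) :
    od P x = 0 ↔ x ∉ P := by
  have h := le_od_iff hP hP0 hx 1
  rw [pow_one] at h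
  rw [← h]
  omega

lemma od_one (hP : P.IsPrime) (hP0 : P ≠ ⊥) : od P (1 : R) = 0 := by
  rw [od_eq_zero_iff hP hP0 one_ne_zero]
  exact fun h => hP.ne_top ((Ideal.eq_top_iff_one P).2 h)

lemma od_unit (hP : P.IsPrime) (hP0 : P ≠ ⊥) {x : R} (hx : IsUnit x) : od P x = 0 := by
  rw [od_eq_zero_iff hP hP0 hx.ne_zero]
  exact fun h => hP.ne_top (Ideal.eq_top_of_isUnit_mem P h hx)

lemma od_pow (hP : P.IsPrime) (hP0 : P ≠ ⊥) {x : R} (hx : x ≠ 0) (n : ℕ) :
    od P (x ^ n) = n * od P x := by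
  induction n with
  | zero => rw [pow_zero, zero_mul, od_one hP hP0]
  | succ n ih => rw [pow_succ, od_mul hP hP0 (pow_ne_zero n hx) hx, ih, Nat.succ_mul]

omit [IsDedekindDomain R] in
lemma od_neg (x : R) : od P (-x) = od P x := by
  rw [od, od, Ideal.span_singleton_neg]

lemma od_prod (hP : P.IsPrime) (hP0 : P ≠ ⊥) {ι : Type*} (s : Finset ι) (f : ι → R)
    (hf : ∀ i ∈ s, f i ≠ 0) : od P (∏ i ∈ s, f i) = ∑ i ∈ s, od P (f i) := by
  induction s using Finset.induction_on with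
  | empty => rw [Finset.prod_empty, Finset.sum_empty, od_one hP hP0]
  | insert i s hi ih =>
    rw [Finset.prod_insert hi, Finset.sum_insert hi, od_mul hP hP0
      (hf i (Finset.mem_insert_self i s))
      (Finset.prod_ne_zero_iff.2 fun j hj => hf j (Finset.mem_insert_of_mem hj)),
      ih fun j hj => hf j (Finset.mem_insert_of_mem hj)]

end basic

section galois
variable {C : Type} [Field C] [NumberField C]

lemma smul_span (g : C ≃ₐ[ℚ] C) (x : 𝓞 C) : g • Ideal.span {x} = Ideal.span {g • x} := by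
  rw [Ideal.smul_closure, Set.smul_set_singleton]

/-- transport of the exponent by an automorphism -/
lemma od_smul (g : C ≃ₐ[ℚ] C) (P : Ideal (𝓞 C)) (x : 𝓞 C) :
    od (g⁻¹ • P) x = od P (g • x) := by
  rw [od, od]
  refine multiplicity_eq_of_emultiplicity_eq (emultiplicity_eq_emultiplicity_iff.2 fun n => ?_)
  rw [Ideal.dvd_iff_le, Ideal.dvd_iff_le, ← smul_span, ← smul_pow',
    Ideal.pointwise_smul_subset_iff]

end galois

/-- in an extension of number fields the exponents are multiplied by the ramification index -/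
lemma od_alg {C E : Type} [Field C] [NumberField C] [Field E] [NumberField E] [Algebra C E]
    {P : Ideal (𝓞 C)} {Q : Ideal (𝓞 E)} (hP : P.IsPrime) (hP0 : P ≠ ⊥) (hQ : Q.IsPrime)
    (hQ0 : Q ≠ ⊥) (h : Q.comap (algebraMap (𝓞 C) (𝓞 E)) = P) :
    ∃ e : ℕ, 0 < e ∧ ∀ x : 𝓞 C, x ≠ 0 → od Q (algebraMap (𝓞 C) (𝓞 E) x) = e * od P x := by
  have hl : Q.LiesOver P := ⟨h.symm⟩
  have hinj : Function.Injective (algebraMap (𝓞 C) (𝓞 E)) :=
    FaithfulSMul.algebraMap_injective (𝓞 C) (𝓞 E)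
  refine ⟨P.ramificationIdx' Q,
    Nat.pos_of_ne_zero (Ideal.IsDedekindDomain.ramificationIdx'_ne_zero_of_liesOver Q hP0), fun x hx => ?_⟩
  have h1 := Ideal.IsDedekindDomain.emultiplicity_map_eq_ramificationIdx'_mul (R := 𝓞 C)
    (S := 𝓞 E) (v := P) (w := Q) (I := Ideal.span {x})
    (by simpa using hx) (Ideal.prime_of_isPrime hP0 hP).irreducible
    (Ideal.prime_of_isPrime hQ0 hQ).irreducible hQ0
  rw [Ideal.map_span, Set.image_singleton, ← od_coe hP hP0 hx,
    ← od_coe hQ hQ0 ((map_ne_zero_iff _ hinj).2 hx)] at h1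
  exact_mod_cast h1

/-- A Teichmueller datum: the finite field `k` is embedded in the residue field of `E` at the prime `P`, `om` is the
character of `k` with `om x ≡ x mod P`, `z` is a primitive `p`-th root of unity. -/
structure TD (k : Type) [Field k] (E : Type) [Field E] [NumberField E] (p : ℕ) where
  P : Ideal (𝓞 E)
  prime : P.IsPrime
  ne_bot : P ≠ ⊥
  i : k →+* 𝓞 E ⧸ P
  om : MulChar k (𝓞 E)
  hom : ∀ x, Ideal.Quotient.mk P (om x) = i x
  z : 𝓞 E
  hz : IsPrimitiveRoot z p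

section gauss
variable {k : Type} [Field k] {E : Type} [Field E] [NumberField E] {p : ℕ} [Fact p.Prime]
  [Algebra (ZMod p) k]

/-- the additive character `x ↦ z ^ Tr x` -/
noncomputable def TD.psi (D : TD k E p) : AddChar k (𝓞 E) :=
  (AddChar.zmodChar p D.hz.pow_eq_one).compAddMonoidHom (Algebra.trace (ZMod p) k).toAddMonoidHom

lemma TD.psi_apply (D : TD k E p) (x : k) : D.psi x = D.z ^ (Algebra.trace (ZMod p) k x).val := rfl

/-- the Gauss sum of `om ^ (-a)` -/
noncomputable def TD.gs [Fintype k] (D : TD k E p) (a : ℕ) : 𝓞 E := gaussSum (D.om⁻¹ ^ a) D.psi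

/-- its exponent -/
noncomputable def TD.hh [Fintype k] (D : TD k E p) (a : ℕ) : ℕ := od D.P (D.gs a)

end gauss

/-- `∏_{1 ≤ i < c} J(χ^t, χ^(t i))` -/
noncomputable def gam {k : Type} [Field k] [Fintype k] {R : Type} [CommRing R] (c : ℕ)
    (χ : MulChar k R) (t : ℕ) : R :=
  ∏ i ∈ Finset.Ico 1 c, jacobiSum (χ ^ t) (χ ^ (t * i))

end H55T3
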