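import Mathlib

/-!
Row SDg (MP_78d38b_T3, block S, helper11; about 160 lines; pure arithmetic of natural numbers).

`q = p^j`, `s(a) = (Nat.digits p a).sum`.

(0) `s(p x + y) = y + s(x)` for `y < p` (`Nat.digits_add`, the case `x = y = 0` separately; or `Nat.digits_def'`).

(1) `h a ≤ w * s(a)` for all `a`.  First `h r ≤ r * w` for all `r` by induction (`h (r+1) ≤ h r + h 1`).  Strong induction on `a`:
`a = 0`: `h 0 = 0`.  `a > 0`: `a = p (a/p) + a%p`, so `h a ≤ h (p (a/p)) + h (a%p) = h (a/p) + h (a%p) ≤ w s(a/p) + (a%p) w = w s(a)`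
(`a/p < a`).

(2) `s(a) + s(p^j - 1 - a) = j (p-1)` for `a < p^j`: induction on `j` for all `a`.  `j = 0`: `a = 0`.  `j + 1`: `a = p a' + r`, `a' = a/p < p^j`,
`r = a%p < p`; `p^(j+1) - 1 - a = p (p^j - 1 - a') + (p - 1 - r)`; (0) twice.

(3) For `0 < a < q-1`: `j (p-1) w = h a + h (q-1-a) ≤ w s(a) + w s(q-1-a) = w j (p-1)`, and both terms satisfy `≤` by (1), so `h a = w s(a)`.

(4) `s(a) + (p-1) Σ_{i<j} a / p^(i+1) = a` for `a < p^j`: induction on `j` for all `a` (`a / p^(i+2) = (a/p) / p^(i+1)`, `Finset.sum_range_succ'`,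
with `a' = a/p < p^(j-1)`: `s(a) = a%p + s(a')`, `Σ_{i<j+1} a/p^(i+1) = a' + Σ_{i<j} a'/p^(i+1)`, `a = p a' + a%p`).

(5) For `a < q-1` and `i < j`: `p^i a % (q-1) + (q-1) (a / p^(j-i)) = p^i a`.  With `x = a / p^(j-i)`, `y = a % p^(j-i)`: `a = p^(j-i) x + y`,
`p^i a = p^j x + p^i y = (p^i y + x) + (q-1) x`, and `p^i y + x < q-1`: `y ≤ p^(j-i) - 1`, `x ≤ p^i - 1` (as `a < p^j`), so `p^i y + x ≤ q - 1`, with
equality only if `y = p^(j-i) - 1` and `x = p^i - 1`, i.e. `a = p^j - 1`, excluded.  So `p^i a % (q-1) = p^i y + x` (`Nat.add_mul_mod_self_left`, `Nat.mod_eq_of_lt`).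

(6) Multiply (5) by `p-1` and sum: `(p-1) Σ_{i<j} (p^i a % (q-1)) + (q-1) (p-1) Σ_{i<j} a / p^(j-i) = a (p-1) Σ_{i<j} p^i = a (q-1)`
(`Nat.geomSum_eq` / `geom_sum_mul`), `Σ_{i<j} a / p^(j-i) = Σ_{i<j} a / p^(i+1)` (`Finset.sum_range_reflect`), and by (4)
`(q-1) a = (q-1) s(a) + (q-1)(p-1) Σ`.  So `(p-1) Σ_{i<j} (p^i a % (q-1)) = (q-1) s(a)`.  With (3): the claim.
-/

set_option autoImplicit false

namespace H55T3

/-- the sum of the digits -/
def SDg_s (p a : ℕ) : ℕ := (Nat.digits p a).sum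

theorem SDg_zero (p : ℕ) : SDg_s p 0 = 0 := by simp [SDg_s]

theorem SDg_rec {p : ℕ} (hp : 2 ≤ p) (a : ℕ) : SDg_s p a = a % p + SDg_s p (a / p) := by
  rcases Nat.eq_zero_or_pos a with h | h
  · subst h; simp [SDg_s]
  · unfold SDg_s
    rw [Nat.digits_def' hp h, List.sum_cons]

theorem SDg_le {p : ℕ} (hp : 2 ≤ p) (h : ℕ → ℕ) (w : ℕ) (h0 : h 0 = 0) (h1 : h 1 ≤ w)
    (hs : ∀ a b, h (a + b) ≤ h a + h b) (hf : ∀ a, h (p * a) = h a) :
    ∀ a, h a ≤ w * SDg_s p a := by
  have hr : ∀ r, h r ≤ r * w := by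
    intro r
    induction r with
    | zero => rw [h0]; exact Nat.zero_le _
    | succ r ih =>
      have := hs r 1
      rw [Nat.succ_mul]
      omega
  intro a
  induction a using Nat.strong_induction_on with
  | _ a ih =>
    rcases Nat.eq_zero_or_pos a with h' | h'
    · subst h'; rw [h0]; exact Nat.zero_le _
    · have e := Nat.div_add_mod a p
      have h2 : h a ≤ h (p * (a / p)) + h (a % p) := by
        calc h a = h (p * (a / p) + a % p) := by rw [e]
          _ ≤ _ := hs _ _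
      rw [hf] at h2
      have h3 := ih (a / p) (Nat.div_lt_self h' hp)
      have h4 := hr (a % p)
      rw [SDg_rec hp a, Nat.mul_add, Nat.mul_comm w (a % p)]
      omega

theorem SDg_refl {p : ℕ} (hp : 2 ≤ p) (j : ℕ) : ∀ a, a < p ^ j →
    SDg_s p a + SDg_s p (p ^ j - 1 - a) = j * (p - 1) := by
  induction j with
  | zero =>
    intro a ha
    have : a = 0 := by simpa using ha
    subst this
    simp [SDg_s]
  | succ j ih =>
    intro a ha
    have hpj : 0 < p ^ j := Nat.pow_pos (by omega)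
    have hd : a / p < p ^ j := by
      rw [Nat.div_lt_iff_lt_mul (by omega)]
      rwa [pow_succ] at ha
    have hm : a % p < p := Nat.mod_lt _ (by omega)
    have e := Nat.div_add_mod a p
    obtain ⟨t, ht⟩ : ∃ t, p ^ j = a / p + 1 + t := ⟨p ^ j - (a / p + 1), by omega⟩
    obtain ⟨u, hu⟩ : ∃ u, p = a % p + 1 + u := ⟨p - (a % p + 1), by omega⟩
    have h1 : p ^ (j + 1) - 1 - a = u + p * t := by
      have h2 : p ^ (j + 1) = p * (a / p) + p + p * t := by
        rw [pow_succ, ht]; ring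
      have h3 : p ^ (j + 1) = a + 1 + (u + p * t) := by
        rw [h2]
        omega
      omega
    have hup : u < p := by omega
    have h4 : (u + p * t) % p = u := by
      rw [Nat.add_mul_mod_self_left, Nat.mod_eq_of_lt hup]
    have h5 : (u + p * t) / p = t := by
      rw [Nat.add_mul_div_left _ _ (by omega), Nat.div_eq_of_lt hup, zero_add]
    have h6 := ih (a / p) hd
    have h7 : p ^ j - 1 - a / p = t := by omega
    rw [h7] at h6
    rw [SDg_rec hp a, h1, SDg_rec hp (u + p * t), h4, h5, Nat.succ_mul]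
    omega

theorem SDg_leg {p : ℕ} (hp : 2 ≤ p) (j : ℕ) : ∀ a, a < p ^ j →
    SDg_s p a + (p - 1) * ∑ i ∈ Finset.range j, a / p ^ (i + 1) = a := by
  induction j with
  | zero =>
    intro a ha
    have : a = 0 := by simpa using ha
    subst this
    simp [SDg_s]
  | succ j ih =>
    intro a ha
    have hd : a / p < p ^ j := by
      rw [Nat.div_lt_iff_lt_mul (by omega)]
      rwa [pow_succ] at ha
    have e := Nat.div_add_mod a p
    have h1 : ∑ i ∈ Finset.range (j + 1), a / p ^ (i + 1) =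
        (∑ i ∈ Finset.range j, a / p / p ^ (i + 1)) + a / p := by
      rw [Finset.sum_range_succ']
      congr 1
      · refine Finset.sum_congr rfl fun i _ => ?_
        rw [Nat.div_div_eq_div_mul, ← pow_succ']
      · rw [zero_add, pow_one]
    have h2 := ih (a / p) hd
    obtain ⟨v, hv⟩ : ∃ v, p = v + 1 := ⟨p - 1, by omega⟩
    rw [h1, SDg_rec hp a, Nat.mul_add]
    have h3 : (p - 1) * (a / p) + a / p = p * (a / p) := by
      have : p - 1 = v := by omega
      rw [this]
      nth_rewrite 3 [hv]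
      ring
    omega

theorem SDg_cyc {p j : ℕ} (hp : 2 ≤ p) {a i : ℕ} (ha : a < p ^ j - 1) (hi : i < j) :
    p ^ i * a % (p ^ j - 1) + (p ^ j - 1) * (a / p ^ (j - i)) = p ^ i * a := by
  have hP : 0 < p ^ (j - i) := Nat.pow_pos (by omega)
  have hI : 0 < p ^ i := Nat.pow_pos (by omega)
  have hj : p ^ i * p ^ (j - i) = p ^ j := by rw [← pow_add]; congr 1; omega
  have e := Nat.div_add_mod a (p ^ (j - i))
  have hy : a % p ^ (j - i) < p ^ (j - i) := Nat.mod_lt _ hP
  have hx : a / p ^ (j - i) < p ^ i := by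
    rw [Nat.div_lt_iff_lt_mul hP, hj]
    omega
  generalize hX : a / p ^ (j - i) = x at *
  generalize hY : a % p ^ (j - i) = y at *
  generalize hA : p ^ (j - i) = A at *
  generalize hB : p ^ i = B at *
  generalize hQ : p ^ j = Q at *
  obtain ⟨q, hq⟩ : ∃ q, Q = q + 1 := ⟨Q - 1, by omega⟩
  have hq' : Q - 1 = q := by omega
  rw [hq'] at ha ⊢
  have h1 : B * a = (B * y + x) + q * x := by
    have h2 : B * a = Q * x + B * y := by
      rw [← e, ← hj]; ring
    rw [h2, hq]; ring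
  have h3 : B * y + x < q := by
    by_contra hcon
    push Not at hcon
    obtain ⟨y', hy'⟩ : ∃ y', A = y + 1 + y' := ⟨A - (y + 1), by omega⟩
    obtain ⟨x', hx'⟩ : ∃ x', B = x + 1 + x' := ⟨B - (x + 1), by omega⟩
    have h4 : Q = B * y + B + B * y' := by rw [← hj, hy']; ring
    have h5 : q + 1 = B * y + x + 1 + x' + B * y' := by omega
    have h6 : x' = 0 := by omega
    have h7 : B * y' = 0 := by omega
    have h8 : y' = 0 := by
      rcases Nat.mul_eq_zero.1 h7 with h | h
      · omega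
      · exact h
    have h9 : q = B * y + x := by omega
    -- then `a = q`
    have h10 : A * x + A = Q := by
      rw [← hj, hx', h6]; ring
    omega
  rw [h1, Nat.add_mul_mod_self_left, Nat.mod_eq_of_lt h3]

theorem dig (p j : ℕ) (hp : p.Prime) (h : ℕ → ℕ) (w : ℕ) (h0 : h 0 = 0) (h1 : h 1 ≤ w)
    (hs : ∀ a b, h (a + b) ≤ h a + h b) (hf : ∀ a, h (p * a) = h a)
    (hr : ∀ a, 0 < a → a < p ^ j - 1 → h a + h (p ^ j - 1 - a) = j * (p - 1) * w)
    (a : ℕ) (ha : 0 < a) (ha' : a < p ^ j - 1) :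
    (p ^ j - 1) * h a = w * ((p - 1) * ∑ i ∈ Finset.range j, (p ^ i * a % (p ^ j - 1))) := by
  have hp2 : 2 ≤ p := hp.two_le
  have haj : a < p ^ j := by omega
  -- (3)
  have e3 : h a = w * SDg_s p a := by
    have i1 := SDg_le hp2 h w h0 h1 hs hf a
    have i2 := SDg_le hp2 h w h0 h1 hs hf (p ^ j - 1 - a)
    have i3 := hr a ha ha'
    have i4 := SDg_refl hp2 j a haj
    have i5 : w * SDg_s p a + w * SDg_s p (p ^ j - 1 - a) = j * (p - 1) * w := by
      rw [← Nat.mul_add, i4, Nat.mul_comm]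
    omega
  -- (6)
  have e4 := SDg_leg hp2 j a haj
  have e5 : ∑ i ∈ Finset.range j, (p ^ i * a % (p ^ j - 1)) +
      (p ^ j - 1) * ∑ i ∈ Finset.range j, a / p ^ (i + 1) =
      (∑ i ∈ Finset.range j, p ^ i) * a := by
    have h2 : ∑ i ∈ Finset.range j, a / p ^ (i + 1) = ∑ i ∈ Finset.range j, a / p ^ (j - i) := by
      rw [← Finset.sum_range_reflect]
      refine Finset.sum_congr rfl fun i hi => ?_
      have := Finset.mem_range.1 hi
      congr 2
      omega
    rw [h2, Finset.mul_sum, ← Finset.sum_add_distrib, Finset.sum_mul]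
    exact Finset.sum_congr rfl fun i hi => SDg_cyc hp2 ha' (Finset.mem_range.1 hi)
  have e6 : (p - 1) * ∑ i ∈ Finset.range j, p ^ i = p ^ j - 1 := by
    have := Nat.geomSum_eq hp2 j
    rw [this]
    exact Nat.mul_div_cancel' (Nat.sub_one_dvd_pow_sub_one p j)
  generalize (∑ i ∈ Finset.range j, (p ^ i * a % (p ^ j - 1))) = M at *
  generalize (∑ i ∈ Finset.range j, a / p ^ (i + 1)) = S at *
  generalize (∑ i ∈ Finset.range j, p ^ i) = Gm at *
  generalize p ^ j - 1 = q at *
  generalize p - 1 = v at *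
  generalize SDg_s p a = s at *
  have e7 : v * M + q * (v * S) = q * a := by
    calc v * M + q * (v * S) = v * (M + q * S) := by ring
      _ = v * (Gm * a) := by rw [e5]
      _ = (v * Gm) * a := by ring
      _ = q * a := by rw [e6]
  have e8 : v * M + q * (v * S) = q * s + q * (v * S) := by
    rw [e7, ← Nat.mul_add, e4]
  have e9 : v * M = q * s := Nat.add_right_cancel e8
  rw [e9, e3]
  ring

end H55T3
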