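import Mathlib

/-!
Row SFl (MP_78d38b_T3, block S, helper11; about 90 lines; pure arithmetic of natural numbers).

`q - 1 = N m > 0` (as `p^j > 1`), so `m > 0`, `N > 1`.

(1) `h (a + (q-1) b) = h a` by induction on `b` (`hper`).

(2) For `u` coprime to `N`: `N * h (u m) = w (p-1) Σ_{i<j} (p^i u % N)`.  `u0 = u % N`: `0 < u0 < N` (`N > 1` and `u` coprime to `N`), `u m = u0 m + (q-1)(u/N)`,
so `h (u m) = h (u0 m)` by (1), `0 < u0 m < N m = q-1`, and `hd`: `N m h (u0 m) = w (p-1) Σ (p^i (u0 m) % (N m))` with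
`p^i (u0 m) % (N m) = (p^i u0 % N) m` (`Nat.mul_mod_mul_right`) and `p^i u0 % N = p^i u % N` (`Nat.mul_mod`, `Nat.mod_mod`).  Cancel `m`.

(3) Use (2) for `u = t` (times `c`) and `u = c t`: `c (p^i t % N) = N (c (p^i t % N) / N) + c (p^i t % N) % N` (`Nat.div_add_mod`) and
`c (p^i t % N) % N = p^i (c t) % N`.  Sum: `N (c h(t m)) = N (w (p-1) Σ c (p^i t % N)/N) + N h(c t m)`.  Cancel `N`.
-/

set_option autoImplicit false

namespace H55T3

theorem flo (p j N m c t : ℕ) (hp : p.Prime) (hj : 0 < j) (hq : p ^ j - 1 = N * m)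
    (h : ℕ → ℕ) (w : ℕ) (hper : ∀ a, h (a + (p ^ j - 1)) = h a)
    (hd : ∀ a, 0 < a → a < p ^ j - 1 →
      (p ^ j - 1) * h a = w * ((p - 1) * ∑ i ∈ Finset.range j, (p ^ i * a % (p ^ j - 1))))
    (hc1 : 1 < c) (hcN : c < N) (hc : c.Coprime N) (ht : t.Coprime N) :
    c * h (t * m) = h (c * t * m) +
      w * ((p - 1) * ∑ i ∈ Finset.range j, (c * (p ^ i * t % N) / N)) := by
  have hq0 : 0 < p ^ j - 1 := by
    have h1 : 1 < p ^ j := Nat.one_lt_pow hj.ne' hp.one_lt
    omega
  rw [hq] at hper hd hq0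
  have hN0 : 0 < N := by omega
  have hm0 : 0 < m := Nat.pos_of_mul_pos_left hq0
  have hper' : ∀ a b, h (a + N * m * b) = h a := by
    intro a b
    induction b with
    | zero => rw [mul_zero, add_zero]
    | succ b ih => rw [mul_add, mul_one, ← add_assoc, hper, ih]
  have key : ∀ u : ℕ, u.Coprime N →
      N * h (u * m) = w * ((p - 1) * ∑ i ∈ Finset.range j, (p ^ i * u % N)) := by
    intro u hu
    have hu0 : 0 < u % N := by
      rcases Nat.eq_zero_or_pos (u % N) with h0 | h0
      · exfalso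
        have h1 : N ∣ u := Nat.dvd_of_mod_eq_zero h0
        have h2 : N ∣ 1 := by
          have h3 := Nat.dvd_gcd h1 (dvd_refl N)
          rwa [hu] at h3
        have h3 := Nat.le_of_dvd one_pos h2
        omega
      · exact h0
    have hu1 : u % N < N := Nat.mod_lt _ hN0
    have e1 : u * m = u % N * m + N * m * (u / N) := by
      conv_lhs => rw [← Nat.mod_add_div u N]
      ring
    have e2 := hd (u % N * m) (Nat.mul_pos hu0 hm0) (Nat.mul_lt_mul_of_pos_right hu1 hm0)
    have e3 : ∑ i ∈ Finset.range j, (p ^ i * (u % N * m) % (N * m)) =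
        (∑ i ∈ Finset.range j, (p ^ i * u % N)) * m := by
      rw [Finset.sum_mul]
      refine Finset.sum_congr rfl fun i _ => ?_
      rw [← mul_assoc, Nat.mul_mod_mul_right]
      congr 1
      conv_rhs => rw [Nat.mul_mod]
      rw [Nat.mul_mod, Nat.mod_mod]
    rw [e3] at e2
    rw [e1, hper']
    apply Nat.eq_of_mul_eq_mul_left hm0
    calc m * (N * h (u % N * m)) = N * m * h (u % N * m) := by ring
      _ = _ := by rw [e2]; ring
  have k1 := key t ht
  have k2 := key (c * t) (Nat.Coprime.mul_left hc ht)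
  have e4 : ∑ i ∈ Finset.range j, (c * (p ^ i * t % N)) =
      N * (∑ i ∈ Finset.range j, (c * (p ^ i * t % N) / N)) +
        ∑ i ∈ Finset.range j, (p ^ i * (c * t) % N) := by
    rw [Finset.mul_sum, ← Finset.sum_add_distrib]
    refine Finset.sum_congr rfl fun i _ => ?_
    have e5 : p ^ i * (c * t) % N = c * (p ^ i * t % N) % N := by
      have e6 : p ^ i * (c * t) = c * (p ^ i * t) := by ring
      rw [e6]
      conv_lhs => rw [Nat.mul_mod]
      rw [Nat.mul_mod c (p ^ i * t % N), Nat.mod_mod]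
    rw [e5]
    exact (Nat.div_add_mod _ _).symm
  apply Nat.eq_of_mul_eq_mul_left hN0
  calc N * (c * h (t * m)) = c * (N * h (t * m)) := by ring
    _ = w * ((p - 1) * ∑ i ∈ Finset.range j, (c * (p ^ i * t % N))) := by
        rw [k1, ← Finset.mul_sum]
        ring
    _ = N * (w * ((p - 1) * ∑ i ∈ Finset.range j, (c * (p ^ i * t % N) / N))) +
        w * ((p - 1) * ∑ i ∈ Finset.range j, (p ^ i * (c * t) % N)) := by
        rw [e4]
        ring
    _ = N * (h (c * t * m) +
      w * ((p - 1) * ∑ i ∈ Finset.range j, (c * (p ^ i * t % N) / N))) := by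
        rw [← k2]
        ring

end H55T3
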