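import Pool.Agent.H55.T3.SD

/-!
Row SGa (MP_78d38b_T3, block S, helper11; about 190 lines): the formal properties of the exponents `hh D a` of the Gauss sums.
Definitions and the lemmas `od_*` are in `SD.lean`.  `q = Fintype.card k`.

`om_pow`: `D.om⁻¹ ^ a = 1 ↔ q - 1 ∣ a`.  If `q-1 ∣ a` then `u ^ a = 1` for units `u` of `k` (`FiniteField.forall_pow_eq_one_iff`), so
`(om⁻¹ ^ a) u = om (u⁻¹ ^ a) = 1` (`MulChar.ext`, `MulChar.inv_apply'`, `MulChar.pow_apply_coe`).  Conversely `om⁻¹ ^ a = 1` gives `om (u ^ a) = 1` for all units `u`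
(replace `u` by `u⁻¹`), so `i (u ^ a) = mk (om (u^a)) = 1 = i 1`, `D.i` is injective (field, target nontrivial as `D.prime`), `u ^ a = 1` for all `u`.

`psi_ne`, `psi_prim`: the trace `k → ZMod p` is surjective (`Algebra.trace_surjective`), so `psi x = z ^ 1 = z ≠ 1` for some `x` (`IsPrimitiveRoot.ne_one`, `p > 1`).
`psi ≠ 1` gives `psi.IsPrimitive` in a field (`AddChar.IsPrimitive.of_ne_one`).

`card_ne`: `(q : 𝓞 E) ≠ 0` (characteristic zero).

`hh_zero`: `gs 0 = gaussSum 1 psi = -1` (`gaussSum_one_left`), `od_neg`, `od_one`.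

`gs_mul_neg`: for `¬ q-1 ∣ a`: `gaussSum χ ψ * gaussSum χ⁻¹ ψ⁻¹ = q` for `χ = om⁻¹ ^ a ≠ 1` (`gaussSum_mul_gaussSum_eq_card`), and
`gaussSum χ⁻¹ ψ = χ⁻¹(-1) * gaussSum χ⁻¹ ψ⁻¹` up to the sign `χ⁻¹ (-1)` (`mul_gaussSum_inv_eq_gaussSum` or `gaussSum_mulShift`), a unit.  For `a ≤ q-1`:
`χ⁻¹ = om⁻¹ ^ (q-1-a)` as `om⁻¹ ^ (q-1) = 1`.  So `gs a * gs (q-1-a) = unit * q`; with `od_mul`, `od_unit`: `hh_refl`, and `gs a ≠ 0`.
`gs_ne`: if `q-1 ∣ a`, `gs a = gs 0 = -1 ≠ 0`; otherwise reduce `a` modulo `q-1` (`om⁻¹ ^ a = om⁻¹ ^ (a % (q-1))`) and use the product formula.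

`hh_per`: `om⁻¹ ^ (a + (q-1)) = om⁻¹ ^ a`.

`hh_frob`: `gs (p a) = gs a`: `χ ^ p (x) = χ (x ^ p)`, `psi (x ^ p) = psi x` since `Tr (x^p) = Tr x` (`Tr` is invariant under the automorphism `frobenius`:
`Algebra.trace_eq_of_algEquiv` with `FiniteField.frobeniusAlgEquivOfAlgebraic (ZMod p) k`, whose map is `x ↦ x ^ card (ZMod p)`; or `FiniteField.algebraMap_trace_eq_sum_pow`), and
`x ↦ x ^ p` is a bijection of `k` (`Finset.sum_bijective` / `Equiv.sum_comp`): `Σ χ(x^p) psi(x) = Σ χ(x^p) psi(x^p) = Σ χ(y) psi(y)`.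

`hh_jac`: `jacobiSum_mul_nontrivial` with `χ = om⁻¹^a`, `φ = om⁻¹^b`, `χ φ = om⁻¹^(a+b) ≠ 1`: `gs (a+b) * J = gs a * gs b`; `gs ≠ 0`, so `J ≠ 0`; `od_mul` twice.
`hh_sub`: if `q-1 ∣ a+b` then `hh (a+b) = hh 0 = 0`; otherwise from `hh_jac`.
-/

set_option autoImplicit false
open scoped Classical Pointwise
open NumberField Ideal

namespace H55T3

section
variable {k : Type} [Field k] [Fintype k] {E : Type} [Field E] [NumberField E] {p : ℕ}
  [Fact p.Prime] [Algebra (ZMod p) k] (D : TD k E p)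

omit [Fact p.Prime] [Algebra (ZMod p) k] in
theorem om_pow (a : ℕ) : D.om⁻¹ ^ a = 1 ↔ (Fintype.card k - 1) ∣ a := by
  have hnt : Nontrivial (𝓞 E ⧸ D.P) := Ideal.Quotient.nontrivial_iff.2 D.prime.ne_top
  rw [← FiniteField.forall_pow_eq_one_iff k a]
  constructor
  · intro h x
    have h1 : (D.om⁻¹ ^ a) ((x⁻¹ : kˣ) : k) = 1 := by rw [h, MulChar.one_apply_coe]
    rw [MulChar.pow_apply_coe, MulChar.inv_apply', Units.val_inv_eq_inv_val, inv_inv] at h1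
    have h3 : D.i ((x : k) ^ a) = 1 := by rw [map_pow, ← D.hom, ← map_pow, h1, map_one]
    have h4 : (x : k) ^ a = 1 := D.i.injective (by rw [h3, map_one])
    exact Units.ext (by rw [Units.val_pow_eq_pow_val, h4, Units.val_one])
  · intro h
    refine MulChar.ext fun u => ?_
    rw [MulChar.pow_apply_coe, MulChar.inv_apply', MulChar.one_apply_coe, ← map_pow]
    have h1 := h u⁻¹
    have h2 : ((u : k)⁻¹) ^ a = 1 := by
      have h3 := congrArg (Units.val) h1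
      rwa [Units.val_pow_eq_pow_val, Units.val_inv_eq_inv_val, Units.val_one] at h3
    rw [h2, map_one]

private lemma SGa_psi_ne : D.psi ≠ 1 := by
  intro h
  obtain ⟨x, hx⟩ := Algebra.trace_surjective (ZMod p) k 1
  have h1 : D.psi x = 1 := by rw [h, AddChar.one_apply]
  have hp : 1 < p := (Fact.out : p.Prime).one_lt
  rw [TD.psi_apply, hx, ZMod.val_one'' hp.ne', pow_one] at h1
  exact D.hz.ne_one hp h1

private lemma SGa_prim : D.psi.IsPrimitive := AddChar.IsPrimitive.of_ne_one (SGa_psi_ne D)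

omit [Fact p.Prime] [Algebra (ZMod p) k] in
private lemma SGa_card : ((Fintype.card k : ℕ) : 𝓞 E) ≠ 0 := by
  exact_mod_cast (Fintype.card_ne_zero (α := k))

private lemma SGa_dvd {a : ℕ} (h : (Fintype.card k - 1) ∣ a) : D.gs a = -1 := by
  rw [TD.gs, (om_pow D a).2 h, gaussSum_one_left (SGa_psi_ne D)]

theorem gs_ne (a : ℕ) : D.gs a ≠ 0 := by
  by_cases h : (Fintype.card k - 1) ∣ a
  · rw [SGa_dvd D h]
    exact neg_ne_zero.2 one_ne_zero
  · exact gaussSum_ne_zero_of_nontrivial SGa_card (fun h1 => h ((om_pow D a).1 h1)) (SGa_prim D)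

private lemma SGa_hh_dvd {a : ℕ} (h : (Fintype.card k - 1) ∣ a) : D.hh a = 0 := by
  rw [TD.hh, SGa_dvd D h, od_neg, od_one D.prime D.ne_bot]

theorem hh_zero : D.hh 0 = 0 := by
  exact SGa_hh_dvd D (dvd_zero _)

theorem hh_per (a : ℕ) : D.hh (a + (Fintype.card k - 1)) = D.hh a := by
  rw [TD.hh, TD.hh, TD.gs, TD.gs, pow_add, (om_pow D _).2 dvd_rfl, mul_one]

theorem hh_frob (a : ℕ) : D.hh (p * a) = D.hh a := by
  have hp0 : p ≠ 0 := (Fact.out : p.Prime).ne_zero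
  have h1 : D.gs (p * a) = D.gs a := by
    rw [TD.gs, TD.gs, mul_comm p a, pow_mul, gaussSum, gaussSum]
    have he : ∀ x : k, FiniteField.frobeniusAlgEquivOfAlgebraic (ZMod p) k x = x ^ p := by
      intro x
      have h2 := congrFun (FiniteField.coe_frobeniusAlgEquivOfAlgebraic (ZMod p) k) x
      rw [h2, ZMod.card]
    rw [← Equiv.sum_comp (FiniteField.frobeniusAlgEquivOfAlgebraic (ZMod p) k).toEquiv
      (fun y => (D.om⁻¹ ^ a) y * D.psi y)]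
    refine Finset.sum_congr rfl fun x _ => ?_
    have h3 : (FiniteField.frobeniusAlgEquivOfAlgebraic (ZMod p) k).toEquiv x = x ^ p := he x
    have h4 : D.psi (x ^ p) = D.psi x := by
      rw [TD.psi_apply, TD.psi_apply, ← he x, Algebra.trace_eq_of_algEquiv]
    rw [h3, h4, MulChar.pow_apply' _ hp0, map_pow]
  rw [TD.hh, TD.hh, h1]

theorem hh_jac (a b : ℕ) (h : ¬ (Fintype.card k - 1) ∣ a + b) :
    jacobiSum (D.om⁻¹ ^ a) (D.om⁻¹ ^ b) ≠ 0 ∧
      D.hh (a + b) + od D.P (jacobiSum (D.om⁻¹ ^ a) (D.om⁻¹ ^ b)) = D.hh a + D.hh b := by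
  have h1 : D.om⁻¹ ^ a * D.om⁻¹ ^ b ≠ 1 := by
    rw [← pow_add]
    exact fun h2 => h ((om_pow D _).1 h2)
  have h2 := jacobiSum_mul_nontrivial h1 D.psi
  rw [← pow_add] at h2
  change D.gs (a + b) * _ = D.gs a * D.gs b at h2
  have h3 : jacobiSum (D.om⁻¹ ^ a) (D.om⁻¹ ^ b) ≠ 0 := by
    intro h4
    rw [h4, mul_zero] at h2
    exact mul_ne_zero (gs_ne D a) (gs_ne D b) h2.symm
  refine ⟨h3, ?_⟩
  rw [TD.hh, TD.hh, TD.hh, ← od_mul D.prime D.ne_bot (gs_ne D _) h3,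
    ← od_mul D.prime D.ne_bot (gs_ne D _) (gs_ne D _), h2]

theorem hh_sub (a b : ℕ) : D.hh (a + b) ≤ D.hh a + D.hh b := by
  by_cases h : (Fintype.card k - 1) ∣ a + b
  · rw [SGa_hh_dvd D h]
    exact Nat.zero_le _
  · have h1 := (hh_jac D a b h).2
    omega

theorem hh_refl (a : ℕ) (h0 : 0 < a) (h : a < Fintype.card k - 1) :
    D.hh a + D.hh (Fintype.card k - 1 - a) = od D.P ((Fintype.card k : ℕ) : 𝓞 E) := by
  have h1 : D.om⁻¹ ^ a ≠ 1 := fun h2 => by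
    have h3 := Nat.le_of_dvd h0 ((om_pow D a).1 h2)
    omega
  have h2 : (D.om⁻¹ ^ a)⁻¹ = D.om⁻¹ ^ (Fintype.card k - 1 - a) := by
    refine inv_eq_of_mul_eq_one_right ?_
    rw [← pow_add, (om_pow D _).2]
    rw [Nat.add_sub_cancel' h.le]
  have h3 := gaussSum_mul_gaussSum_eq_card h1 (SGa_prim D)
  have h4 := mul_gaussSum_inv_eq_gaussSum (D.om⁻¹ ^ a)⁻¹ D.psi
  have h5 : D.gs a * D.gs (Fintype.card k - 1 - a) =
      (D.om⁻¹ ^ a)⁻¹ (-1) * ((Fintype.card k : ℕ) : 𝓞 E) := by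
    have h6 : D.gs (Fintype.card k - 1 - a) = gaussSum (D.om⁻¹ ^ a)⁻¹ D.psi := by
      rw [TD.gs, h2]
    rw [h6, ← h4, TD.gs, ← h3]
    ring
  have hu : IsUnit ((D.om⁻¹ ^ a)⁻¹ (-1 : k)) := (isUnit_neg_one (α := k)).map (D.om⁻¹ ^ a)⁻¹
  rw [TD.hh, TD.hh, ← od_mul D.prime D.ne_bot (gs_ne D _) (gs_ne D _), h5,
    od_mul D.prime D.ne_bot hu.ne_zero SGa_card, od_unit D.prime D.ne_bot hu, zero_add]

end

end H55T3
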