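import Pool.Agent.H55.T3.SD

/-!
Row SGb (MP_78d38b_T3, block S, helper11; about 130 lines): the Gauss sum of `om^(-1)` has the exponent of `z - 1`, and the exponent of `p`.

`p ∈ D.P`: `(p : k) = 0` (the image of `(p : ZMod p) = 0`), so `mk (p : 𝓞 E) = D.i (p : k) = 0` (`map_natCast`, `Ideal.Quotient.eq_zero_iff_mem`).

`od_p`: in `𝓞 E`: `∏_{i=1}^{p-1} (1 - z^i) = p` (evaluate `cyclotomic p = ∏ (X - z^i)` at `1`: `Polynomial.eval_one_cyclotomic_prime`, `Polynomial.cyclotomic_eq_prod_X_sub_primitiveRoots`, or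
`IsPrimitiveRoot` lemmas for `∏ (1 - μ)`, or `X^p - 1 = ∏_{i<p} (X - z^i)`, `X_pow_sub_one_eq_prod`), every `1 - z^i`, `0 < i < p`, is a unit times `1 - z` (`IsPrimitiveRoot.associated_sub_one...`,
`IsPrimitiveRoot.associated_sub_one_pow_sub_one_of_coprime` or `geom_sum` in both directions).  So `(z-1)^(p-1)` is associated to `p`, and `od` of associated elements agree
(`Ideal.span_singleton_eq_span_singleton`), `od_pow`.  `pi_pos`: `od (p) > 0` as `p ∈ D.P` (`od_eq_zero_iff`), so `od (z-1) > 0`.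

`hh_one`: write `π = z - 1`, `n_x = (Tr x).val ∈ ℕ`.  `z^n = 1 + n π + π^2 r_n` for some `r_n ∈ 𝓞 E` (induction on `n`).
`gs 1 = Σ_x om⁻¹(x) z^(n_x) = Σ_x om⁻¹(x) + π (S + π R)`, `S = Σ_x om⁻¹(x) n_x`, `R = Σ om⁻¹(x) r_(n_x)`.  `Σ_x om⁻¹(x) = 0` as `om⁻¹ ≠ 1` (`MulChar.sum_eq_zero_of_ne_one`; `om⁻¹ ≠ 1`: there is `u ∈ k`,
`u ≠ 0, 1` since `q > 2`, and `om⁻¹ = 1` would give `om u = 1`, `i u = 1`, `u = 1`).
`mk S = i (Σ_{x} x⁻¹ Tr(x))` where `Tr(x) ∈ ZMod p` is mapped to `k` (`mk (om⁻¹ x) = i (x⁻¹)`: `MulChar.inv_apply'`; `mk (n_x : 𝓞 E) = i (n_x : k)`, `(n_x : k) = algebraMap (ZMod p) k (Tr x)`: `ZMod.natCast_zmod_val`).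
`algebraMap (Tr x) = Σ_{l<f} x^(p^l)`, `f = finrank` (`FiniteField.algebraMap_trace_eq_sum_pow`), `x⁻¹ x^(p^l) = x^(p^l - 1)` for `x ≠ 0`.  `Σ_{x≠0} x^0 = q - 1 = -1` in `k` (`FiniteField.cast_card_eq_zero`), and for
`0 < l < f`: `0 < p^l - 1 < q - 1 = p^f - 1`, `Σ_x x^(p^l - 1) = 0` (`FiniteField.sum_pow_lt_card_sub_one`).  So the sum is `-1` and `S ∉ D.P`, `S + π R ∉ D.P` as `π ∈ D.P`
(`π^(p-1)` is associated to `p ∈ D.P`).  `gs 1 = π (S + π R)`: `od_mul`, `od_eq_zero_iff`.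
-/

set_option autoImplicit false
open scoped Classical Pointwise
open NumberField Ideal

namespace H55T3

private lemma SGb_assoc {R : Type*} [CommRing R] {P : Ideal R} [IsDomain R] {x y : R}
    (h : Associated x y) : od P x = od P y := by
  unfold od
  rw [Ideal.span_singleton_eq_span_singleton.2 h]

private lemma SGb_pow {R : Type*} [CommRing R] (z : R) (n : ℕ) :
    ∃ r : R, z ^ n = 1 + n * (z - 1) + (z - 1) ^ 2 * r := by
  induction n with
  | zero => exact ⟨0, by simp⟩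
  | succ n ih =>
    obtain ⟨r, hr⟩ := ih
    refine ⟨n + r * z, ?_⟩
    rw [pow_succ, hr]
    push_cast
    ring

section
variable {k : Type} [Field k] [Fintype k] {E : Type} [Field E] [NumberField E] {p : ℕ}
  [Fact p.Prime] [Algebra (ZMod p) k] (D : TD k E p)

omit [Fintype k] [Algebra (ZMod p) k] in
private lemma SGb_pi_ne : D.z - 1 ≠ 0 :=
  sub_ne_zero.2 (D.hz.ne_one (Fact.out : p.Prime).one_lt)

omit [Fintype k] in
theorem od_p : od D.P (p : 𝓞 E) = (p - 1) * od D.P (D.z - 1) := by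
  have hp : p.Prime := Fact.out
  have hp0 : NeZero p := ⟨hp.ne_zero⟩
  have h1 : (p : 𝓞 E) = ∏ μ ∈ primitiveRoots p (𝓞 E), (1 - μ) := by
    have h2 := Polynomial.eval_one_cyclotomic_prime (R := 𝓞 E) (p := p)
    rw [Polynomial.cyclotomic_eq_prod_X_sub_primitiveRoots D.hz, Polynomial.eval_prod] at h2
    rw [← h2]
    refine Finset.prod_congr rfl fun μ _ => ?_
    simp
  have h3 : ∀ μ ∈ primitiveRoots p (𝓞 E), Associated (D.z - 1) (1 - μ) := by
    intro μ hμ
    have hμ' := (mem_primitiveRoots hp.pos).1 hμ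
    obtain ⟨i, _, hi, rfl⟩ := D.hz.isPrimitiveRoot_iff.1 hμ'
    have h4 := D.hz.associated_sub_one_pow_sub_one_of_coprime hi
    have h5 := h4.neg_right
    rwa [neg_sub] at h5
  have h6 : ∀ μ ∈ primitiveRoots p (𝓞 E), od D.P (1 - μ) = od D.P (D.z - 1) := fun μ hμ =>
    (SGb_assoc (h3 μ hμ)).symm
  rw [h1, od_prod D.prime D.ne_bot _ _ (fun μ hμ h0 => SGb_pi_ne D (by
    have := h3 μ hμ
    rw [h0] at this
    exact (associated_zero_iff_eq_zero _).1 this)), Finset.sum_congr rfl h6, Finset.sum_const,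
    smul_eq_mul, D.hz.card_primitiveRoots, Nat.totient_prime hp]

omit [Fintype k] in
private lemma SGb_p_mem : (p : 𝓞 E) ∈ D.P := by
  rw [← Ideal.Quotient.eq_zero_iff_mem, map_natCast]
  have h1 : ((p : k)) = 0 := by
    rw [← map_natCast (algebraMap (ZMod p) k) p, ZMod.natCast_self, map_zero]
  have h2 := congrArg D.i h1
  rwa [map_natCast, map_zero] at h2

omit [Fintype k] in
theorem pi_pos : 0 < od D.P (D.z - 1) := by
  rw [Nat.pos_iff_ne_zero]
  intro h0
  have h1 := od_p D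
  rw [h0, mul_zero, od_eq_zero_iff D.prime D.ne_bot
    (by exact_mod_cast (Fact.out : p.Prime).ne_zero)] at h1
  exact h1 (SGb_p_mem D)

private lemma SGb_sum : ∑ x : k, x⁻¹ * algebraMap (ZMod p) k (Algebra.trace (ZMod p) k x) = -1 := by
  have hp : p.Prime := Fact.out
  have hq : Fintype.card k = p ^ Module.finrank (ZMod p) k := by
    rw [Module.card_eq_pow_finrank (K := ZMod p) (V := k), ZMod.card]
  have hf : 0 < Module.finrank (ZMod p) k := Module.finrank_pos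
  simp_rw [FiniteField.algebraMap_trace_eq_sum_pow, Nat.card_zmod, Finset.mul_sum]
  rw [Finset.sum_comm]
  obtain ⟨f, hf'⟩ : ∃ f, Module.finrank (ZMod p) k = f + 1 :=
    ⟨Module.finrank (ZMod p) k - 1, by omega⟩
  rw [hf', Finset.sum_range_succ']
  have h1 : ∀ l ∈ Finset.range f, ∑ x : k, x⁻¹ * x ^ p ^ (l + 1) = 0 := by
    intro l hl
    have hl' : l < f := Finset.mem_range.1 hl
    have h2 : p ^ (l + 1) < p ^ (f + 1) := Nat.pow_lt_pow_right hp.one_lt (by omega)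
    have h3 : 1 < p ^ (l + 1) := Nat.one_lt_pow (by omega) hp.one_lt
    have h4 : p ^ (l + 1) - 1 < Fintype.card k - 1 := by
      rw [hq, hf']
      omega
    rw [← FiniteField.sum_pow_lt_card_sub_one k _ h4]
    refine Finset.sum_congr rfl fun x _ => ?_
    by_cases hx : x = 0
    · rw [hx, inv_zero, zero_mul, zero_pow (by omega)]
    · obtain ⟨m, hm⟩ : ∃ m, p ^ (l + 1) = m + 1 := ⟨p ^ (l + 1) - 1, by omega⟩
      rw [hm, Nat.add_sub_cancel, pow_succ', ← mul_assoc, inv_mul_cancel₀ hx, one_mul]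
  rw [Finset.sum_eq_zero h1, zero_add, pow_zero]
  have h5 : ∀ x : k, x⁻¹ * x ^ 1 = 1 - if x = 0 then 1 else 0 := by
    intro x
    by_cases hx : x = 0
    · simp [hx]
    · simp [hx]
  simp_rw [h5]
  rw [Finset.sum_sub_distrib, Finset.sum_ite_eq']
  simp

theorem hh_one (hq : 2 < Fintype.card k) : D.hh 1 = od D.P (D.z - 1) := by
  have hPt : D.P ≠ ⊤ := D.prime.ne_top
  have hnt : Nontrivial (𝓞 E ⧸ D.P) := Ideal.Quotient.nontrivial_iff.2 hPt
  have hπ : D.z - 1 ≠ 0 := SGb_pi_ne D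
  have hπP : D.z - 1 ∈ D.P := by
    by_contra h
    have := (od_eq_zero_iff D.prime D.ne_bot hπ).2 h
    exact (pi_pos D).ne' this
  have hom1 : D.om⁻¹ ≠ 1 := by
    intro h1
    have h2 : D.om = 1 := inv_eq_one.1 h1
    obtain ⟨u, hu0, hu1⟩ : ∃ u : k, u ≠ 0 ∧ u ≠ 1 := by
      by_contra hcon
      push Not at hcon
      have h3 : (Finset.univ : Finset k) ⊆ {0, 1} := by
        intro u _
        by_cases h0 : u = 0
        · simp [h0]
        · simp [hcon u h0]
      have h4 := Finset.card_le_card h3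
      rw [Finset.card_univ] at h4
      have h5 : Finset.card ({0, 1} : Finset k) ≤ 2 := Finset.card_le_two
      omega
    have h6 := D.hom u
    rw [h2, MulChar.one_apply (isUnit_iff_ne_zero.2 hu0), map_one] at h6
    exact hu1 (D.i.injective (by rw [← h6, map_one]))
  choose r hr using fun n : ℕ => SGb_pow D.z n
  obtain ⟨S, hS⟩ : ∃ S : 𝓞 E, S = ∑ x : k, D.om⁻¹ x * ((Algebra.trace (ZMod p) k x).val : 𝓞 E) :=
    ⟨_, rfl⟩
  obtain ⟨R, hR⟩ : ∃ R : 𝓞 E, R = ∑ x : k, D.om⁻¹ x * r (Algebra.trace (ZMod p) k x).val :=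
    ⟨_, rfl⟩
  have hgs : D.gs 1 = (D.z - 1) * (S + (D.z - 1) * R) := by
    have h1 : D.gs 1 = ∑ x : k, D.om⁻¹ x * D.z ^ (Algebra.trace (ZMod p) k x).val := by
      unfold TD.gs gaussSum
      rw [pow_one]
      rfl
    have h2 : ∑ x : k, D.om⁻¹ x = 0 := MulChar.sum_eq_zero_of_ne_one hom1
    rw [h1]
    calc ∑ x : k, D.om⁻¹ x * D.z ^ (Algebra.trace (ZMod p) k x).val =
          ∑ x : k, (D.om⁻¹ x + (D.z - 1) * (D.om⁻¹ x * ((Algebra.trace (ZMod p) k x).val : 𝓞 E)) +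
            (D.z - 1) * ((D.z - 1) * (D.om⁻¹ x * r (Algebra.trace (ZMod p) k x).val))) := by
          refine Finset.sum_congr rfl fun x _ => ?_
          rw [hr]
          ring
      _ = _ := by
          rw [Finset.sum_add_distrib, Finset.sum_add_distrib, ← Finset.mul_sum, ← Finset.mul_sum,
            ← Finset.mul_sum, h2, ← hS, ← hR]
          ring
  have hmkS : Ideal.Quotient.mk D.P S = -1 := by
    rw [hS, map_sum]
    have h1 : ∀ x : k, Ideal.Quotient.mk D.P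
        (D.om⁻¹ x * ((Algebra.trace (ZMod p) k x).val : 𝓞 E)) =
        D.i (x⁻¹ * algebraMap (ZMod p) k (Algebra.trace (ZMod p) k x)) := by
      intro x
      rw [map_mul, MulChar.inv_apply', D.hom, map_natCast, map_mul]
      congr 1
      have h2 : algebraMap (ZMod p) k (Algebra.trace (ZMod p) k x) =
          ((Algebra.trace (ZMod p) k x).val : k) := by
        conv_lhs => rw [← ZMod.natCast_zmod_val (Algebra.trace (ZMod p) k x)]
        rw [map_natCast]
      rw [h2, map_natCast]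
    simp_rw [h1]
    rw [← map_sum, SGb_sum, map_neg, map_one]
  have hnot : S + (D.z - 1) * R ∉ D.P := by
    intro h
    have h1 : Ideal.Quotient.mk D.P (S + (D.z - 1) * R) = 0 := Ideal.Quotient.eq_zero_iff_mem.2 h
    rw [map_add, map_mul, Ideal.Quotient.eq_zero_iff_mem.2 hπP, zero_mul, add_zero, hmkS] at h1
    exact one_ne_zero (neg_eq_zero.1 h1)
  have hne : S + (D.z - 1) * R ≠ 0 := fun h => hnot (by rw [h]; exact D.P.zero_mem)
  unfold TD.hh
  rw [hgs, od_mul D.prime D.ne_bot hπ hne, (od_eq_zero_iff D.prime D.ne_bot hne).2 hnot, add_zero]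

end

end H55T3
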