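import Pool.Agent.H55.T3.SD

/-!
Row STe (MP_78d38b_T3, block S, helper11; about 150 lines): existence of a Teichmueller datum over the residue field of a prime of `C`.

`P = ker r` is a prime ideal of `𝓞 C` (field target), `p ∈ P` (`CharP k p`), so `P ≠ ⊥`.  `q = card k`.
`E := CyclotomicField (p * (q - 1)) C` (`q - 1 > 0`; `NeZero`), a number field (`IsCyclotomicExtension.numberField {p*(q-1)} C _`), `Type`.  It contains a primitive `p (q-1)`-th root of unity
(`IsCyclotomicExtension.zeta_spec`), hence in `𝓞 E` (`IsPrimitiveRoot.toInteger`, `toInteger_isPrimitiveRoot`) a primitive root `ζ` of order `p (q-1)`; `η = ζ ^ p` is primitive of order `q-1`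
and `z = ζ ^ (q-1)` primitive of order `p` (`IsPrimitiveRoot.pow`).
`Q`: a prime of `𝓞 E` over `P` (`Ideal.exists_ideal_over_prime_of_isIntegral_of_isDomain` or `Ideal.exists_ideal_liesOver_maximal_of_isIntegral`, `𝓞 E` is integral over `𝓞 C`), `Q.comap (algebraMap) = P`,
`Q ≠ ⊥` (`p ∈ Q`).
`i : k →+* 𝓞 E ⧸ Q`: `k ≃+* 𝓞 C ⧸ P` (`RingHom.quotientKerEquivOfSurjective hr`, inverse) followed by `Ideal.quotientMap Q (algebraMap _ _) (le_of_eq ..)`; then `i (r x) = mk (algebraMap x)`.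
`η̄ = mk η` is a primitive `(q-1)`-th root of unity in `𝓞 E ⧸ Q`: it is `≠ 1` at smaller powers, e.g. by `IsPrimitiveRoot.idealQuotient_mk` (see its use in Mathlib
`NumberTheory/NumberField/Cyclotomic/Galois.lean`: needs `Q ≠ ⊤` and `absNorm Q` coprime to `q-1`; `absNorm Q` is a power of `p` as `p ∈ Q`, and `p` is prime to `q-1` since `p ∣ q`).
Choose a generator `y0` of `kˣ` (`IsCyclic.exists_generator`).  `i y0` is also a primitive `(q-1)`-th root of unity (`i` injective, `orderOf_eq_card_of_forall_mem_zpowers`), so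
`i y0 = η̄ ^ a` for some `a` (`IsPrimitiveRoot.eq_pow_of_pow_eq_one`; `𝓞 E ⧸ Q` is a domain).
`om := MulChar.ofRootOfUnity (μ := η^a as a unit of 𝓞 E) (hμ : μ ∈ rootsOfUnity (Fintype.card kˣ) (𝓞 E)) (hg : ∀ x, x ∈ Subgroup.zpowers y0)`
(Mathlib/NumberTheory/MulChar/Lemmas or Basic: `MulChar.ofRootOfUnity`, `MulChar.ofRootOfUnity_spec : ofRootOfUnity hμ hg g = μ`); `Fintype.card kˣ = q - 1`.
`hom`: for `x = 0` both sides are `0`; for a unit `x = y0 ^ n`: `mk (om x) = (mk (η^a))^n = (i y0)^n = i x`.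
-/

set_option autoImplicit false
open scoped Classical Pointwise
open NumberField Ideal

namespace H55T3

theorem STe_cop {k : Type} [Field k] [Fintype k] (p : ℕ) [Fact p.Prime] [CharP k p] :
    Nat.Coprime p (Fintype.card k - 1) := by
  have hp : p.Prime := Fact.out
  obtain ⟨n, -, hn⟩ := FiniteField.card k p
  rw [Nat.Prime.coprime_iff_not_dvd hp]
  intro h
  have h1 : p ∣ Fintype.card k := by
    rw [hn]
    exact dvd_pow_self p n.2.ne'
  have h2 : 1 < Fintype.card k := Fintype.one_lt_card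
  have h3 : p ∣ Fintype.card k - (Fintype.card k - 1) := Nat.dvd_sub h1 h
  have h4 : Fintype.card k - (Fintype.card k - 1) = 1 := by omega
  rw [h4] at h3
  exact hp.one_lt.ne' (Nat.dvd_one.1 h3)

theorem STe_main {C : Type} [Field C] [NumberField C] {k : Type} [Field k] [Fintype k]
    (r : 𝓞 C →+* k) (hr : Function.Surjective r) (p : ℕ) [Fact p.Prime] [CharP k p]
    {E : Type} [Field E] [NumberField E] [Algebra C E] {ζ : 𝓞 E}
    (hζ : IsPrimitiveRoot ζ (p * (Fintype.card k - 1))) :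
    ∃ D : TD k E p, ∀ x : 𝓞 C, D.i (r x) = Ideal.Quotient.mk D.P (algebraMap (𝓞 C) (𝓞 E) x) := by
  have hp : p.Prime := Fact.out
  have hq1 : 1 < Fintype.card k := Fintype.one_lt_card
  have hPp : (RingHom.ker r).IsPrime := RingHom.ker_isPrime r
  have hinj : Function.Injective (algebraMap (𝓞 C) (𝓞 E)) :=
    FaithfulSMul.algebraMap_injective (𝓞 C) (𝓞 E)
  obtain ⟨Q, hQ, hQP⟩ := Ideal.exists_ideal_over_prime_of_isIntegral_of_isDomain (S := 𝓞 E)
    (RingHom.ker r) (by
      rw [(RingHom.injective_iff_ker_eq_bot _).1 hinj]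
      exact bot_le)
  have hpQ : (p : 𝓞 E) ∈ Q := by
    have h1 : (p : 𝓞 C) ∈ Q.comap (algebraMap (𝓞 C) (𝓞 E)) := by
      rw [hQP, RingHom.mem_ker, map_natCast, CharP.cast_eq_zero]
    rw [Ideal.mem_comap, map_natCast] at h1
    exact h1
  have hQ0 : Q ≠ ⊥ := by
    rintro rfl
    rw [Ideal.mem_bot] at hpQ
    exact hp.ne_zero (by exact_mod_cast hpQ)
  have hker : RingHom.ker r ≤
      RingHom.ker ((Ideal.Quotient.mk Q).comp (algebraMap (𝓞 C) (𝓞 E))) := by
    intro x hx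
    rw [← hQP, Ideal.mem_comap] at hx
    rw [RingHom.mem_ker, RingHom.comp_apply]
    exact Ideal.Quotient.eq_zero_iff_mem.2 hx
  obtain ⟨i, hi⟩ : ∃ i : k →+* 𝓞 E ⧸ Q, ∀ x : 𝓞 C,
      i (r x) = Ideal.Quotient.mk Q (algebraMap (𝓞 C) (𝓞 E) x) :=
    ⟨r.liftOfSurjective hr ⟨_, hker⟩, fun x => r.liftOfSurjective_comp_apply hr ⟨_, hker⟩ x⟩
  have hdom : IsDomain (𝓞 E ⧸ Q) := Ideal.Quotient.isDomain Q
  have hne : NeZero (Fintype.card k - 1) := ⟨by omega⟩
  have hpos : 0 < p * (Fintype.card k - 1) := Nat.mul_pos hp.pos (by omega)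
  have hη : IsPrimitiveRoot (ζ ^ p) (Fintype.card k - 1) := hζ.pow hpos rfl
  have hz : IsPrimitiveRoot (ζ ^ (Fintype.card k - 1)) p := hζ.pow hpos (mul_comm _ _)
  have hη' : IsPrimitiveRoot (Ideal.Quotient.mk Q (ζ ^ p)) (Fintype.card k - 1) := by
    refine hη.idealQuotient_mk ?_ ?_
    · rw [Ne, Ideal.absNorm_eq_one_iff]
      exact hQ.ne_top
    · have h1 : Ideal.absNorm Q ∣ p ^ Module.finrank ℤ (𝓞 E) := by
        rw [← Ideal.absNorm_span_natCast]
        apply Ideal.absNorm_dvd_absNorm_of_le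
        rw [Ideal.span_singleton_le_iff_mem]
        exact hpQ
      exact Nat.Coprime.coprime_dvd_left h1 (Nat.Coprime.pow_left _ (STe_cop p))
  obtain ⟨y0, hy0⟩ := IsCyclic.exists_generator (α := kˣ)
  have h2 : (i (y0 : k)) ^ (Fintype.card k - 1) = 1 := by
    rw [← map_pow, FiniteField.pow_card_sub_one_eq_one _ y0.ne_zero, map_one]
  obtain ⟨a, -, ha⟩ := hη'.eq_pow_of_pow_eq_one h2
  have hunit : IsUnit (ζ ^ p) := hη.isUnit (NeZero.ne _)
  obtain ⟨μ, hμ⟩ := hunit.pow a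
  have hμr : μ ∈ rootsOfUnity (Fintype.card kˣ) (𝓞 E) := by
    rw [mem_rootsOfUnity]
    apply Units.ext
    rw [Units.val_pow_eq_pow_val, hμ, ← pow_mul, mul_comm, pow_mul, Fintype.card_units,
      hη.pow_eq_one, one_pow, Units.val_one]
  refine ⟨{ P := Q, prime := hQ, ne_bot := hQ0, i := i, om := MulChar.ofRootOfUnity hμr hy0,
            hom := ?_, z := ζ ^ (Fintype.card k - 1), hz := hz }, hi⟩
  intro x
  by_cases hx : x = 0
  · rw [hx, MulChar.map_zero, map_zero, map_zero]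
  · obtain ⟨u, rfl⟩ : ∃ u : kˣ, (u : k) = x := ⟨Units.mk0 x hx, rfl⟩
    obtain ⟨n, hn⟩ := mem_powers_iff_mem_zpowers.2 (hy0 u)
    have hn' : y0 ^ n = u := hn
    rw [← hn', Units.val_pow_eq_pow_val, map_pow, MulChar.ofRootOfUnity_spec, hμ, map_pow, map_pow,
      ha, map_pow]

theorem exists_TD {C : Type} [Field C] [NumberField C] {k : Type} [Field k] [Fintype k]
    (r : 𝓞 C →+* k) (hr : Function.Surjective r) (p : ℕ) [Fact p.Prime] [CharP k p] :
    ∃ (E : Type) (_ : Field E) (_ : NumberField E) (_ : Algebra C E) (D : TD k E p),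
      ∀ x : 𝓞 C, D.i (r x) = Ideal.Quotient.mk D.P (algebraMap (𝓞 C) (𝓞 E) x) := by
  have hp : p.Prime := Fact.out
  have hq1 : 1 < Fintype.card k := Fintype.one_lt_card
  have hne : NeZero (p * (Fintype.card k - 1)) :=
    ⟨(Nat.mul_pos hp.pos (by omega)).ne'⟩
  have hne' : NeZero (((p * (Fintype.card k - 1) : ℕ)) : C) := ⟨Nat.cast_ne_zero.2 hne.out⟩
  have hnf : NumberField (CyclotomicField (p * (Fintype.card k - 1)) C) :=
    IsCyclotomicExtension.numberField {p * (Fintype.card k - 1)} C _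
  have hζ := IsCyclotomicExtension.zeta_spec (p * (Fintype.card k - 1)) C
    (CyclotomicField (p * (Fintype.card k - 1)) C)
  obtain ⟨D, hD⟩ := STe_main r hr p hζ.toInteger_isPrimitiveRoot
  exact ⟨_, inferInstance, hnf, inferInstance, D, hD⟩

end H55T3
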