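import Pool.Agent.H55.T3.SD

/-!
Row SUn (MP_78d38b_T3, block S, helper11; about 70 lines): a prime `P` of `C = Q(ζ_N)` over `p`, `p` prime to `N`: residue field with `p^j` elements, `j` the order of `p` modulo `N`, and unramified.

`P` lies over `span {(p : ℤ)}` (`P.under ℤ` is a prime ideal containing `p`, `span {p}` is maximal).  `card_res`: `Nat.card (𝓞 C ⧸ P) = absNorm P = p ^ inertiaDeg` (`Ideal.absNorm_eq_pow_inertiaDeg'` or
`Ideal.absNorm_pow_inertiaDeg`, as used in `Pool/Agent/H73/WT/Lam.lean`, `lamX_norm`), and `inertiaDeg = orderOf (p : ZMod N)` (`IsCyclotomicExtension.Rat.inertiaDeg_eq_of_not_dvd`), which is the order of the unit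
(`orderOf_units` / `orderOf_injective _ Units.coeHom_injective`, `ZMod.coe_unitOfCoprime`).
`od_p_one`: the ramification index is `1` (`IsCyclotomicExtension.Rat.ramificationIdx_eq_of_not_dvd`), it is the multiplicity of `P` in `map (span {p}) = span {(p : 𝓞 C)}`
(`IsDedekindDomain.ramificationIdx'_eq_multiplicity`, `ramificationIdx'_eq_ramificationIdx`; or `Ideal.IsDedekindDomain.emultiplicity_map_eq_ramificationIdx'_mul` with `v = I = span {p}`).
-/

set_option autoImplicit false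
open scoped Classical Pointwise
open NumberField Ideal

namespace H55T3

theorem SUn_over {C : Type} [Field C] [NumberField C] {p : ℕ} [Fact p.Prime]
    (P : Ideal (𝓞 C)) (hP : P.IsPrime) (hp : (p : 𝓞 C) ∈ P) :
    P.LiesOver (Ideal.span {(p : ℤ)}) := by
  have hmax : (Ideal.span {(p : ℤ)}).IsMaximal := Int.ideal_span_isMaximal_of_prime p
  refine ⟨?_⟩
  apply hmax.eq_of_le
  · exact (Ideal.IsPrime.under ℤ P).ne_top
  · rw [Ideal.span_singleton_le_iff_mem, Ideal.mem_comap]
    simpa using hp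

theorem SUn_dvd {N p : ℕ} [Fact p.Prime] (hpN : p.Coprime N) : ¬ p ∣ N :=
  ((Fact.out : p.Prime).coprime_iff_not_dvd).1 hpN

theorem card_res {N : ℕ} [NeZero N] {C : Type} [Field C] [NumberField C]
    [IsCyclotomicExtension {N} ℚ C] {p : ℕ} [Fact p.Prime] (hpN : p.Coprime N) (P : Ideal (𝓞 C))
    (hP : P.IsPrime) (hp : (p : 𝓞 C) ∈ P) :
    Nat.card (𝓞 C ⧸ P) = p ^ orderOf (ZMod.unitOfCoprime p hpN) := by
  have := SUn_over P hP hp
  have h1 := IsCyclotomicExtension.Rat.inertiaDeg_eq_of_not_dvd (m := N) p C P (SUn_dvd hpN)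
  have h2 := Ideal.absNorm_pow_inertiaDeg (Ideal.span {(p : ℤ)}) P
  rw [h1] at h2
  have h3 : Nat.card (𝓞 C ⧸ P) = Ideal.absNorm P := by
    rw [Ideal.absNorm_apply, Submodule.cardQuot_apply]
  rw [h3, ← h2, ← orderOf_units, ZMod.coe_unitOfCoprime]
  simp

theorem od_p_one {N : ℕ} [NeZero N] {C : Type} [Field C] [NumberField C]
    [IsCyclotomicExtension {N} ℚ C] {p : ℕ} [Fact p.Prime] (hpN : p.Coprime N) (P : Ideal (𝓞 C))
    (hP : P.IsPrime) (hp : (p : 𝓞 C) ∈ P) : od P (p : 𝓞 C) = 1 := by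
  have := SUn_over P hP hp
  have h1 := IsCyclotomicExtension.Rat.ramificationIdx_eq_of_not_dvd (m := N) p C P (SUn_dvd hpN)
  have hp0 : (p : ℤ) ≠ 0 := by exact_mod_cast (Fact.out : p.Prime).ne_zero
  have hpC : (p : 𝓞 C) ≠ 0 := by exact_mod_cast (Fact.out : p.Prime).ne_zero
  have hb : (Ideal.span {(p : ℤ)}) ≠ ⊥ := by simpa using hp0
  have h2 := Ideal.ramificationIdx'_eq_ramificationIdx (Ideal.span {(p : ℤ)}) P hb
  have hm : Ideal.map (algebraMap ℤ (𝓞 C)) (Ideal.span {(p : ℤ)}) = Ideal.span {(p : 𝓞 C)} := by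
    rw [Ideal.map_span, Set.image_singleton]
    simp
  have h3 := Ideal.IsDedekindDomain.ramificationIdx'_eq_multiplicity
    (p := Ideal.span {(p : ℤ)}) (P := P) (by rw [hm]; simpa using hpC) hP
  rw [hm] at h3
  rw [od, ← h3, h2, h1]

end H55T3
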