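import Pool.Agent.H55.T3.SDg
import Pool.Agent.H55.T3.SFl
import Pool.Agent.H55.T3.SGa
import Pool.Agent.H55.T3.SGb
import Pool.Agent.H55.T3.STe
import Pool.Agent.H55.T3.SCh
import Pool.Agent.H55.T3.SUn

/-!
Row SJa (MP_78d38b_T3, block S, helper11; about 150 lines): the exponent of `P` in `gam c χ t` (Stickelberger).

`letI : Algebra (ZMod p) k := ZMod.algebra k p`.  `j = orderOf (unitOfCoprime p hpN)`, `q = card k = p^j` (`card_res`, and `𝓞 C ⧸ P ≃ k` from `r`, `RingHom.quotientKerEquivOfSurjective`), `j > 0`, `q - 1 = N m`, `N > c > 1`, so `q > 2`, `m > 0`.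
`exists_TD r hr p` gives `E, D`.  `D.P.comap (algebraMap) = P`: `x ∈ comap ↔ mk (algebraMap x) = 0 ↔ D.i (r x) = 0 ↔ r x = 0 ↔ x ∈ P`.  `od_alg` gives `e > 0`.
`h = D.hh`, `w = od D.P (D.z - 1)`: the hypotheses of `dig` are `hh_zero`, `hh_one` (`≤`), `hh_sub`, `hh_frob`, `hh_refl` with `od D.P (q) = od D.P (p^j) = j (p-1) w` (`od_pow`, `od_p`, `(p : 𝓞 E) ≠ 0`).
Then `flo` (with `hh_per`): `c h(t m) = h(c t m) + w (p-1) Σ_t`, `Σ_t` the sum in the statement.
Jacobi sums: for `a b`: `algebraMap (jacobiSum (χ^a) (χ^b)) = jacobiSum (om⁻¹^(a m)) (om⁻¹^(b m))` (`jacobiSum_ringHomComp`, and `(χ^a).ringHomComp (algebraMap _ _) = om⁻¹^(a m)`: `MulChar.ext`, values by `chi_om`, `MulChar.pow_apply_coe`, `pow_mul`).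
For `1 ≤ i < c`: `¬ q-1 ∣ t m + (t i) m` (otherwise `N m ∣ t (i+1) m`, `N ∣ t (i+1)`, `N ∣ i+1 ≤ c < N`).  `hh_jac`: the Jacobi sum is `≠ 0` and
`h(t (i+1) m) + od D.P (image of J(χ^t, χ^(t i))) = h(t m) + h(t i m)`.  Sum over `i ∈ Ico 1 c` by induction on `c` (statement for all `c' ≤ c`, `1 ≤ c'`): `od D.P (algebraMap (gam c χ t)) + h(t c m) = c h(t m)` (`od_prod` or `od_mul`, `Finset.prod_Ico_succ_top`).
So `od D.P (algebraMap (gam c χ t)) = w (p-1) Σ_t = od D.P (p) * Σ_t`.  `od_alg` for `gam c χ t` and for `p` (`od P p = 1`: `od_p_one`): `e * od P (gam) = e * 1 * Σ_t`, cancel `e`.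
-/

set_option autoImplicit false
open scoped Classical Pointwise
open NumberField Ideal

namespace H55T3

theorem od_gam {N : ℕ} [NeZero N] {C : Type} [Field C] [NumberField C]
    [IsCyclotomicExtension {N} ℚ C] {p : ℕ} [Fact p.Prime] (hpN : p.Coprime N) (P : Ideal (𝓞 C))
    (hP : P.IsPrime) (hp : (p : 𝓞 C) ∈ P) {k : Type} [Field k] [Fintype k] [CharP k p]
    (r : 𝓞 C →+* k) (hr : Function.Surjective r) (hk : RingHom.ker r = P) (m : ℕ)
    (hm : Fintype.card k - 1 = N * m) (χ : MulChar k (𝓞 C)) (hχ : χ ^ N = 1)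
    (hχ' : ∀ x : k, x ≠ 0 → r (χ x) = (x⁻¹) ^ m) (c : ℕ) (hc1 : 1 < c) (hcN : c < N)
    (hc : c.Coprime N) (t : ℕ) (ht : t.Coprime N) :
    gam c χ t ≠ 0 ∧ od P (gam c χ t) =
      ∑ i ∈ Finset.range (orderOf (ZMod.unitOfCoprime p hpN)), c * (p ^ i * t % N) / N := by
  let _ : Algebra (ZMod p) k := ZMod.algebra k p
  have hpp : p.Prime := Fact.out
  set j := orderOf (ZMod.unitOfCoprime p hpN) with hj
  have hj0 : 0 < j := orderOf_pos _
  have hq : Fintype.card k = p ^ j := by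
    have h1 := card_res hpN P hP hp
    rw [← hj] at h1
    rw [← h1, ← Nat.card_eq_fintype_card]
    subst hk
    exact (Nat.card_congr (RingHom.quotientKerEquivOfSurjective hr).toEquiv).symm
  have hq1 : 1 < Fintype.card k := Fintype.one_lt_card
  have hm0 : 0 < m := by
    rcases Nat.eq_zero_or_pos m with h | h
    · rw [h, mul_zero] at hm
      omega
    · exact h
  have hNm : N ≤ N * m := Nat.le_mul_of_pos_right N hm0
  have hq2 : 2 < Fintype.card k := by omega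
  have hqN : p ^ j - 1 = N * m := by rw [← hq]; exact hm
  have hP0 : P ≠ ⊥ := by
    intro h
    rw [h, Ideal.mem_bot] at hp
    exact hpp.ne_zero (by exact_mod_cast hp)
  obtain ⟨E, _, _, _, D, hD⟩ := exists_TD r hr p
  have hnt : Nontrivial (𝓞 E ⧸ D.P) := Ideal.Quotient.nontrivial_iff.2 D.prime.ne_top
  have hcomap : D.P.comap (algebraMap (𝓞 C) (𝓞 E)) = P := by
    ext x
    rw [Ideal.mem_comap, ← Ideal.Quotient.eq_zero_iff_mem, ← hD x,
      map_eq_zero_iff D.i D.i.injective, ← RingHom.mem_ker, hk]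
  obtain ⟨e, he, hod⟩ := od_alg hP hP0 D.prime D.ne_bot hcomap
  have hinj : Function.Injective (algebraMap (𝓞 C) (𝓞 E)) :=
    FaithfulSMul.algebraMap_injective (𝓞 C) (𝓞 E)
  set w := od D.P (D.z - 1) with hw
  have hdig := dig p j hpp D.hh w (hh_zero D) (hh_one D hq2).le (hh_sub D) (hh_frob D) (by
    intro a ha ha'
    have h1 := hh_refl D a ha (by rw [hq]; exact ha')
    rw [hq] at h1
    rw [h1, Nat.cast_pow, od_pow D.prime D.ne_bot (by exact_mod_cast hpp.ne_zero), od_p D,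
      mul_assoc])
  have hper : ∀ a, D.hh (a + (p ^ j - 1)) = D.hh a := by
    intro a
    have h1 := hh_per D a
    rwa [hq] at h1
  have hflo := flo p j N m c t hpp hj0 hqN D.hh w hper hdig hc1 hcN hc ht
  -- the characters
  have hχc : χ.ringHomComp (algebraMap (𝓞 C) (𝓞 E)) = D.om⁻¹ ^ m := by
    refine MulChar.ext' fun x => ?_
    rw [MulChar.ringHomComp_apply]
    exact chi_om r hpN m hm χ hχ hχ' D hD x
  have hpw : ∀ a, (χ ^ a).ringHomComp (algebraMap (𝓞 C) (𝓞 E)) = D.om⁻¹ ^ (a * m) := by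
    intro a
    rw [mul_comm a m, pow_mul, ← hχc, MulChar.ringHomComp_pow]
  have hJ : ∀ i, algebraMap (𝓞 C) (𝓞 E) (jacobiSum (χ ^ t) (χ ^ (t * i))) =
      jacobiSum (D.om⁻¹ ^ (t * m)) (D.om⁻¹ ^ (t * i * m)) := by
    intro i
    rw [← hpw, ← hpw, jacobiSum_ringHomComp]
  have hnd : ∀ i, 1 ≤ i → i < c → ¬ (Fintype.card k - 1) ∣ t * m + t * i * m := by
    intro i hi1 hic hdv
    rw [hm] at hdv
    have e1 : t * m + t * i * m = t * (i + 1) * m := by ring
    rw [e1] at hdv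
    have h1 : N ∣ t * (i + 1) := Nat.dvd_of_mul_dvd_mul_right hm0 hdv
    have h2 : N ∣ i + 1 := (Nat.Coprime.symm ht).dvd_of_dvd_mul_left h1
    have h3 := Nat.le_of_dvd (Nat.succ_pos i) h2
    omega
  have hind : ∀ c', 1 ≤ c' → c' ≤ c →
      (∏ i ∈ Finset.Ico 1 c', jacobiSum (χ ^ t) (χ ^ (t * i))) ≠ 0 ∧
      od D.P (algebraMap (𝓞 C) (𝓞 E)
        (∏ i ∈ Finset.Ico 1 c', jacobiSum (χ ^ t) (χ ^ (t * i)))) + D.hh (t * c' * m) =
        c' * D.hh (t * m) := by
    intro c' h1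
    induction c', h1 using Nat.le_induction with
    | base =>
      intro _
      rw [Finset.Ico_self, Finset.prod_empty, map_one, od_one D.prime D.ne_bot, mul_one, one_mul,
        zero_add]
      exact ⟨one_ne_zero, rfl⟩
    | succ n hn ih =>
      intro hnc
      obtain ⟨ih1, ih2⟩ := ih (by omega)
      obtain ⟨j1, j2⟩ := hh_jac D (t * m) (t * n * m) (hnd n hn (by omega))
      rw [← hJ] at j1 j2
      have j3 : jacobiSum (χ ^ t) (χ ^ (t * n)) ≠ 0 := by
        intro h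
        rw [h, map_zero] at j1
        exact j1 rfl
      rw [Finset.prod_Ico_succ_top hn]
      refine ⟨mul_ne_zero ih1 j3, ?_⟩
      rw [map_mul, od_mul D.prime D.ne_bot ((map_ne_zero_iff _ hinj).2 ih1) j1]
      have e1 : t * m + t * n * m = t * (n + 1) * m := by ring
      rw [e1] at j2
      rw [Nat.succ_mul, ← ih2]
      omega
  obtain ⟨g1, g2⟩ := hind c hc1.le le_rfl
  refine ⟨g1, ?_⟩
  have h1 : od D.P (algebraMap (𝓞 C) (𝓞 E) (gam c χ t)) = w *
      ((p - 1) * ∑ i ∈ Finset.range j, (c * (p ^ i * t % N) / N)) := by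
    have e1 : t * c * m = c * t * m := by ring
    rw [e1] at g2
    rw [hflo] at g2
    have g3 : gam c χ t = ∏ i ∈ Finset.Ico 1 c, jacobiSum (χ ^ t) (χ ^ (t * i)) := rfl
    rw [g3]
    omega
  have h2 : od D.P (algebraMap (𝓞 C) (𝓞 E) (p : 𝓞 C)) = (p - 1) * w := by
    rw [map_natCast, od_p D]
  rw [hod _ (by exact_mod_cast hpp.ne_zero), od_p_one hpN P hP hp, mul_one] at h2
  have g1' : gam c χ t ≠ 0 := g1
  rw [hod _ g1'] at h1
  refine Nat.eq_of_mul_eq_mul_left he ?_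
  rw [h1, h2]
  ring

end H55T3
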