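import Pool.Agent.H55.T3.SD

/-!
Row SOr (MP_78d38b_T3, block S, helper11; about 100 lines): the sum over the automorphisms `g` with `g⁻¹ P = g0⁻¹ P`.

`P` is maximal and lies over `span {(p : ℤ)}`.  `u = ZMod.unitOfCoprime p hpN`, `κ = IsCyclotomicExtension.Rat.galEquivZMod N C`, `j = orderOf u`.
`S = stabilizer (C ≃ₐ[ℚ] C) P`; `κ(S) = zpowers u` (`IsCyclotomicExtension.Rat.galEquivZMod_stabilizer`).
`g⁻¹ • P = g0⁻¹ • P ↔ g * g0⁻¹ ∈ S` (`g⁻¹•P = g0⁻¹•P ↔ (g0 g⁻¹)•P = P ↔ g0 g⁻¹ ∈ S ↔ its inverse ∈ S`).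
The map `i ↦ κ.symm (u^i) * g0`, `i ∈ range j`, is a bijection onto the filtered set: injective (`pow_injOn_Iio_orderOf`), image: `g g0⁻¹ ∈ S`, so `κ (g g0⁻¹) ∈ zpowers u`, equal to `u^i` with `i < j`
(`mem_zpowers_iff_mem_range_orderOf` / `IsOfFinOrder`, finite group).  `Finset.sum_bij'` / `Finset.sum_nbij`.
`tt N C (κ.symm (u^i) * g0) = ((u^i * κ g0 : (ZMod N)ˣ) : ZMod N).val = (p^i * tt N C g0) % N` (`ZMod.val_mul`, `ZMod.coe_unitOfCoprime`, `ZMod.val_natCast`, `Nat.mul_mod`, `Nat.mod_mod`; or: cast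
`((p^i * tt N C g0 : ℕ) : ZMod N)` and `ZMod.val_natCast`).
-/

set_option autoImplicit false
open scoped Classical Pointwise
open NumberField Ideal

namespace H55T3

theorem fib_sum {N : ℕ} [NeZero N] {C : Type} [Field C] [NumberField C]
    [IsCyclotomicExtension {N} ℚ C] {p : ℕ} [Fact p.Prime] (hpN : p.Coprime N) (P : Ideal (𝓞 C))
    (hP : P.IsPrime) (hp : (p : 𝓞 C) ∈ P) (f : ℕ → ℕ) (g0 : C ≃ₐ[ℚ] C) :
    ∑ g ∈ Finset.univ.filter (fun g : C ≃ₐ[ℚ] C => g⁻¹ • P = g0⁻¹ • P), f (tt N C g) =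
      ∑ i ∈ Finset.range (orderOf (ZMod.unitOfCoprime p hpN)), f (p ^ i * tt N C g0 % N) := by
  have hp1 : p.Prime := Fact.out
  have hPbot : P ≠ ⊥ := by
    rintro rfl
    have h0 : (p : 𝓞 C) = 0 := by simpa using hp
    exact hp1.ne_zero (by exact_mod_cast h0)
  have hmax : P.IsMaximal := hP.isMaximal hPbot
  have hmaxp : (Ideal.span {(p : ℤ)}).IsMaximal :=
    PrincipalIdealRing.isMaximal_of_irreducible (Nat.prime_iff_prime_int.1 hp1).irreducible
  have hlies : P.LiesOver (Ideal.span {(p : ℤ)}) := by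
    constructor
    refine hmaxp.eq_of_le ?_ ?_
    · intro h
      have h1 : (1 : ℤ) ∈ P.under ℤ := by rw [h]; exact Submodule.mem_top
      rw [Ideal.under_def, Ideal.mem_comap, map_one] at h1
      exact hP.ne_top ((Ideal.eq_top_iff_one P).2 h1)
    · rw [Ideal.span_singleton_le_iff_mem, Ideal.under_def, Ideal.mem_comap]
      simpa using hp
  have hst := IsCyclotomicExtension.Rat.galEquivZMod_stabilizer N C p P hpN
  set u := ZMod.unitOfCoprime p hpN with hu
  have hkey : ∀ g : C ≃ₐ[ℚ] C, g⁻¹ • P = g0⁻¹ • P ↔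
      IsCyclotomicExtension.Rat.galEquivZMod N C (g * g0⁻¹) ∈ Subgroup.zpowers u := by
    intro g
    rw [← hst]
    constructor
    · intro h
      refine ⟨g * g0⁻¹, ?_, rfl⟩
      change (g * g0⁻¹) • P = P
      rw [mul_smul, ← h, smul_inv_smul]
    · rintro ⟨x, hx, hxe⟩
      have h1 : x = g * g0⁻¹ := (IsCyclotomicExtension.Rat.galEquivZMod N C).injective hxe
      rw [h1] at hx
      have h2 : (g * g0⁻¹) • P = P := hx
      calc g⁻¹ • P = g⁻¹ • ((g * g0⁻¹) • P) := by rw [h2]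
        _ = g0⁻¹ • P := by rw [mul_smul, inv_smul_smul]
  symm
  refine Finset.sum_bij
    (fun i _ => (IsCyclotomicExtension.Rat.galEquivZMod N C).symm (u ^ i) * g0) ?_ ?_ ?_ ?_
  · intro i _
    rw [Finset.mem_filter]
    refine ⟨Finset.mem_univ _, ?_⟩
    rw [hkey, mul_inv_cancel_right, MulEquiv.apply_symm_apply]
    exact Subgroup.npow_mem_zpowers u i
  · intro i hi i' hi' h
    have h1 : u ^ i = u ^ i' :=
      (IsCyclotomicExtension.Rat.galEquivZMod N C).symm.injective (mul_right_cancel h)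
    exact pow_injOn_Iio_orderOf (by simpa using hi) (by simpa using hi') h1
  · intro g hg
    rw [Finset.mem_filter] at hg
    have h1 := (hkey g).1 hg.2
    rw [mem_zpowers_iff_mem_range_orderOf, Finset.mem_image] at h1
    obtain ⟨i, hi, h2⟩ := h1
    refine ⟨i, hi, ?_⟩
    rw [h2, MulEquiv.symm_apply_apply, inv_mul_cancel_right]
  · intro i _
    congr 1
    have h3 : ((p ^ i * tt N C g0 : ℕ) : ZMod N) =
        ((IsCyclotomicExtension.Rat.galEquivZMod N C
          ((IsCyclotomicExtension.Rat.galEquivZMod N C).symm (u ^ i) * g0) : (ZMod N)ˣ) : ZMod N) := by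
      rw [map_mul, MulEquiv.apply_symm_apply, Units.val_mul, Units.val_pow_eq_pow_val, hu,
        ZMod.coe_unitOfCoprime, Nat.cast_mul, Nat.cast_pow, tt, ZMod.natCast_zmod_val]
    have h4 : tt N C ((IsCyclotomicExtension.Rat.galEquivZMod N C).symm (u ^ i) * g0) =
        p ^ i * tt N C g0 % N := by
      unfold tt at h3 ⊢
      rw [← h3, ZMod.val_natCast]
    exact h4.symm

end H55T3
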