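import Pool.Agent.H55.T3.Xh
import Pool.Agent.H55.T3.Hf

/-!
Row Xk (about 220 lines): the third cyclotomic field.

PROOF. nonsplit_val: q ≢ 1 mod 3: there is only one prime of 𝓞 C above q, so g w = w. Direct proof: x ∈ w integral, x^2 - t x + n = 0 with t = x + g x, n = x * g x ∈ ℤ (g ≠ 1; for g = 1 nothing to prove), n ∈ w so q | n; with s^2 = -3, s integral, 2 x = t + m s, m ∈ ℤ, 4 n = t^2 + 3 m^2; if q ∤ t then q ∤ m, so for q ≠ 2, 3: -3 is a square modulo q,
 i.e. q ≡ 1 mod 3 (a cube root of unity (−1 + √−3)/2 of order 3 in (ZMod q)ˣ), contradiction; q = 3: 3 | t^2; q = 2: t, m odd, 4 n = t^2 + 3 m^2 ≡ 4 mod 8, n odd, contradiction. So q | t and g x = t - x ∈ w. Hf_val (Hf.lean) gives the valuation statement. (Or use the Galois action on primes and inertia degrees from Mathlib.)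
val_of_norm: log (V (g d)) + log (V d) = 3 log (V y), and V (g d) = V d: 3 | 2 log V d.
exists_conj3: C = ℚ(s) has degree 2, galois, so there is g with g s = -s.
unit_form: 𝓞 C is a PID (IsCyclotomicExtension.Rat.three_pid), cube_of_vals_pid: d = u β^3, u ∈ {±1, ±η, ±η^2} (IsCyclotomicExtension.Rat.Three.Units.mem), η a primitive cube root of unity, so η = (-1 + s)/2 or its square; -1 is a cube.
zeta_not_cube: residue field k = 𝓞 C / w, finite of order q^f, f ≤ 2 (card k divides Norm (q) = q^2: Ideal.absNorm); if ζ^i = x^3 in k then x^9 = 1 and x^3 = ζ^i ≠ 1 (ζ ≡ 1 mod w would give 3 ∈ w), so 9 | q^f - 1, impossible for q ≡ 2, 5 mod 9 and f = 1, 2 (f = 0 impossible).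
-/

set_option autoImplicit false
open scoped Classical

open IsDedekindDomain NumberField WithZero

namespace H55T3

lemma Xk_prim {C : Type} [Field C] [CharZero C] {z : C} (h : z ^ 2 + z + 1 = 0) :
    IsPrimitiveRoot z 3 := by
  have h3 : z ^ 3 = 1 := by linear_combination (z - 1) * h
  have h1 : z ≠ 1 := by
    rintro rfl
    norm_num at h
  rw [IsPrimitiveRoot.iff_orderOf]
  haveI : Fact (Nat.Prime 3) := ⟨Nat.prime_three⟩
  exact orderOf_eq_prime h3 h1

variable {C : Type} [Field C] [NumberField C] [IsCyclotomicExtension {3} ℚ C]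

lemma Xk_smul {g : C ≃ₐ[ℚ] C} {x : 𝓞 C} (hx : x ^ 2 + x + 1 = 0) : g • x = x ∨ g • x = x ^ 2 := by
  have h1 : (g • x) ^ 2 + g • x + 1 = 0 := by
    have := congrArg (fun y => g • y) hx
    simpa [smul_add, smul_pow'] using this
  have h2 : (g • x - x) * (g • x - x ^ 2) = 0 := by
    linear_combination h1 + (x - g • x - 1) * hx
  rcases mul_eq_zero.1 h2 with h | h
  · exact Or.inl (sub_eq_zero.1 h)
  · exact Or.inr (sub_eq_zero.1 h)

lemma Xk_zsq {z : 𝓞 C} (hz : IsPrimitiveRoot (z : C) 3) : z ^ 2 + z + 1 = 0 := by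
  have h3 : (z : C) ^ 3 = 1 := hz.pow_eq_one
  have h1 : (z : C) ≠ 1 := hz.ne_one (by norm_num)
  have h2 : ((z : C) - 1) * ((z : C) ^ 2 + z + 1) = 0 := by linear_combination h3
  have h4 : (z : C) ^ 2 + z + 1 = 0 := by
    rcases mul_eq_zero.1 h2 with h | h
    · exact absurd (sub_eq_zero.1 h) h1
    · exact h
  apply RingOfIntegers.coe_injective
  push_cast
  exact h4

theorem nonsplit_val {q : ℕ} (hq : q.Prime) (hq3 : q % 3 ≠ 1) {w : HeightOneSpectrum (𝓞 C)}
    (hw : (q : 𝓞 C) ∈ w.asIdeal) (g : C ≃ₐ[ℚ] C) (x : C) : w.valuation C (g x) = w.valuation C x := by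
  have hwp : w.asIdeal.IsPrime := w.isPrime
  have hqf : Fact q.Prime := ⟨hq⟩
  have hch : CharP (𝓞 C ⧸ w.asIdeal) q := Hf_char hq w hw
  have hζ : IsPrimitiveRoot (IsCyclotomicExtension.zeta 3 ℚ C) 3 :=
    IsCyclotomicExtension.zeta_spec 3 ℚ C
  have hz2 : hζ.toInteger ^ 2 + hζ.toInteger + 1 = 0 := Xk_zsq (z := hζ.toInteger) hζ
  set z : 𝓞 C ⧸ w.asIdeal := Ideal.Quotient.mk w.asIdeal hζ.toInteger with hz
  have hz3 : z ^ 3 = 1 := by
    rw [hz, ← map_pow, hζ.toInteger_isPrimitiveRoot.pow_eq_one, map_one]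
  apply Hf_val
  rcases Xk_smul (g := g) hz2 with h | h
  · have h1 := Hf_ext hζ ((Ideal.Quotient.mk w.asIdeal).comp
      (MulSemiringAction.toRingHom (C ≃ₐ[ℚ] C) (𝓞 C) g)) (Ideal.Quotient.mk w.asIdeal) (by
        change Ideal.Quotient.mk w.asIdeal (g • hζ.toInteger) = z
        rw [h])
    intro x hx
    have h2 := h1 x
    rw [Ideal.Quotient.eq_zero_iff_mem.2 hx] at h2
    exact Ideal.Quotient.eq_zero_iff_mem.1 h2
  · by_cases hq0 : q = 3
    · subst hq0
      have hz1 : z = 1 := by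
        apply Hf_inj (q := 3) 1
        rw [pow_one, hz3, one_pow]
      have h1 := Hf_ext hζ ((Ideal.Quotient.mk w.asIdeal).comp
        (MulSemiringAction.toRingHom (C ≃ₐ[ℚ] C) (𝓞 C) g)) (Ideal.Quotient.mk w.asIdeal) (by
          change Ideal.Quotient.mk w.asIdeal (g • hζ.toInteger) = z
          rw [h, map_pow]
          change z ^ 2 = z
          rw [hz1, one_pow])
      intro x hx
      have h2 := h1 x
      rw [Ideal.Quotient.eq_zero_iff_mem.2 hx] at h2
      exact Ideal.Quotient.eq_zero_iff_mem.1 h2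
    · have hq2 : q % 3 = 2 := by
        have h0 : q % 3 ≠ 0 := by
          intro h0
          exact hq0 ((Nat.prime_dvd_prime_iff_eq Nat.prime_three hq).1 (Nat.dvd_of_mod_eq_zero h0)).symm
        omega
      have h1 := Hf_ext hζ ((Ideal.Quotient.mk w.asIdeal).comp
        (MulSemiringAction.toRingHom (C ≃ₐ[ℚ] C) (𝓞 C) g))
        ((frobenius (𝓞 C ⧸ w.asIdeal) q).comp (Ideal.Quotient.mk w.asIdeal)) (by
          change Ideal.Quotient.mk w.asIdeal (g • hζ.toInteger) = frobenius (𝓞 C ⧸ w.asIdeal) q z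
          rw [h, map_pow, frobenius_def]
          change z ^ 2 = z ^ q
          exact Hf_pow hz3 (by change 2 % 3 = q % 3; omega))
      intro x hx
      have h2 := h1 x
      rw [RingHom.comp_apply (frobenius (𝓞 C ⧸ w.asIdeal) q), Ideal.Quotient.eq_zero_iff_mem.2 hx,
        map_zero] at h2
      exact Ideal.Quotient.eq_zero_iff_mem.1 h2

theorem val_of_norm {q : ℕ} (hq : q.Prime) (hq3 : q % 3 ≠ 1) {w : HeightOneSpectrum (𝓞 C)}
    (hw : (q : 𝓞 C) ∈ w.asIdeal) (g : C ≃ₐ[ℚ] C) {d y : C} (hd : d ≠ 0) (h : g d * d = y ^ 3) :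
    (3 : ℤ) ∣ log (w.valuation C d) := by
  have h1 := congrArg (w.valuation C) h
  rw [map_mul, map_pow, nonsplit_val hq hq3 hw g d] at h1
  have h2 : w.valuation C d ≠ 0 := (Valuation.ne_zero_iff _).2 hd
  have h3 := congrArg log h1
  rw [log_mul h2 h2, log_pow] at h3
  have h4 : log (w.valuation C d) + log (w.valuation C d) = 3 * log (w.valuation C y) := by
    rw [h3]; simp
  omega

theorem exists_conj3 {s : C} (hs : s ^ 2 = -3) : ∃ g : C ≃ₐ[ℚ] C, g s = -s := by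
  have hs2 : ((-1 + s) / 2) ^ 2 + (-1 + s) / 2 + 1 = 0 := by linear_combination hs / 4
  have hω : IsPrimitiveRoot ((-1 + s) / 2) 3 := Xk_prim hs2
  have hω3 : hω.toInteger ^ 3 = 1 := hω.toInteger_isPrimitiveRoot.pow_eq_one
  let u : (ZMod 3)ˣ := ZMod.unitOfCoprime 2 (by norm_num)
  refine ⟨(IsCyclotomicExtension.Rat.galEquivZMod 3 C).symm u, ?_⟩
  have h1 := IsCyclotomicExtension.Rat.galEquivZMod_smul_of_pow_eq 3 C
    ((IsCyclotomicExtension.Rat.galEquivZMod 3 C).symm u) hω3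
  rw [MulEquiv.apply_symm_apply] at h1
  have h2 : (u : ZMod 3).val = 2 := by
    decide
  rw [h2] at h1
  have h3 := congrArg (fun t : 𝓞 C => (t : C)) h1
  have h4 : ((IsCyclotomicExtension.Rat.galEquivZMod 3 C).symm u) ((-1 + s) / 2) =
      ((-1 + s) / 2) ^ 2 := h3
  have h5 : ((IsCyclotomicExtension.Rat.galEquivZMod 3 C).symm u) s =
      2 * ((IsCyclotomicExtension.Rat.galEquivZMod 3 C).symm u) ((-1 + s) / 2) + 1 := by
    have : s = 2 * ((-1 + s) / 2) + 1 := by ring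
    conv_lhs => rw [this]
    rw [map_add, map_mul, map_one, map_ofNat]
  rw [h5, h4]
  linear_combination hs / 2

theorem unit_form {s : C} (hs : s ^ 2 = -3) {d : C} (hd : d ≠ 0)
    (hv : ∀ w : HeightOneSpectrum (𝓞 C), (3 : ℤ) ∣ log (w.valuation C d)) :
    ∃ (i : ℕ) (β : C), i < 3 ∧ β ≠ 0 ∧ d = ((-1 + s) / 2) ^ i * β ^ 3 := by
  have hs2 : ((-1 + s) / 2) ^ 2 + (-1 + s) / 2 + 1 = 0 := by linear_combination hs / 4
  have hω : IsPrimitiveRoot ((-1 + s) / 2) 3 := Xk_prim hs2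
  haveI : IsPrincipalIdealRing (𝓞 C) := IsCyclotomicExtension.Rat.three_pid C
  obtain ⟨u, β, hβ, he⟩ := cube_of_vals_pid hd hv
  have hmem := IsCyclotomicExtension.Rat.Three.Units.mem hω u
  simp only [List.mem_cons, List.not_mem_nil, or_false] at hmem
  have hη : ((((IsPrimitiveRoot.isUnit (hω.toInteger_isPrimitiveRoot) (by decide)).unit :
      (𝓞 C)ˣ) : 𝓞 C) : C) = (-1 + s) / 2 := rfl
  have c1 : ∀ a : 𝓞 C, ((-a : 𝓞 C) : C) = -(a : C) := fun a => rfl
  have c2 : ∀ a : 𝓞 C, ((a ^ 2 : 𝓞 C) : C) = (a : C) ^ 2 := fun a => map_pow (algebraMap (𝓞 C) C) a 2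
  rcases hmem with h | h | h | h | h | h
  · refine ⟨0, β, by norm_num, hβ, ?_⟩
    rw [he, h]; simp
  · refine ⟨0, -β, by norm_num, neg_ne_zero.2 hβ, ?_⟩
    rw [he, h]
    simp only [Units.val_neg, Units.val_one, map_neg, map_one]
    ring
  · refine ⟨1, β, by norm_num, hβ, ?_⟩
    rw [he, h, hη]; ring
  · refine ⟨1, -β, by norm_num, neg_ne_zero.2 hβ, ?_⟩
    rw [he, h, Units.val_neg, c1, hη]; ring
  · refine ⟨2, β, by norm_num, hβ, ?_⟩
    rw [he, h, Units.val_pow_eq_pow_val, c2, hη]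
  · refine ⟨2, -β, by norm_num, neg_ne_zero.2 hβ, ?_⟩
    rw [he, h, Units.val_neg, Units.val_pow_eq_pow_val, c1, c2, hη]; ring

theorem zeta_not_cube {q : ℕ} (hq : q.Prime) (h9 : q % 9 = 2 ∨ q % 9 = 5)
    {w : HeightOneSpectrum (𝓞 C)} (hw : (q : 𝓞 C) ∈ w.asIdeal) {ζ x : 𝓞 C} (hζ : ζ ^ 2 + ζ + 1 = 0)
    {i : ℕ} (hi : i = 1 ∨ i = 2) : ζ ^ i - x ^ 3 ∉ w.asIdeal := by
  intro hmem
  have hwp : w.asIdeal.IsPrime := w.isPrime
  have hqf : Fact q.Prime := ⟨hq⟩
  have hch : CharP (𝓞 C ⧸ w.asIdeal) q := Hf_char hq w hw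
  have hζC : ((ζ : C)) ^ 2 + (ζ : C) + 1 = 0 := by
    have := congrArg (fun t : 𝓞 C => (t : C)) hζ
    push_cast at this
    simpa using this
  have hp : IsPrimitiveRoot (ζ : C) 3 := Xk_prim hζC
  set m := Ideal.Quotient.mk w.asIdeal with hm
  have hζ3 : ζ ^ 3 = 1 := by linear_combination (ζ - 1) * hζ
  have hz3 : (m ζ) ^ 3 = 1 := by rw [← map_pow, hζ3, map_one]
  -- the square of Frobenius is the identity
  have h1 := Hf_ext hp (((frobenius (𝓞 C ⧸ w.asIdeal) q).comp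
    (frobenius (𝓞 C ⧸ w.asIdeal) q)).comp m) m (by
      change frobenius _ q (frobenius _ q (m ζ)) = m ζ
      rw [frobenius_def, frobenius_def, ← pow_mul]
      conv_rhs => rw [← pow_one (m ζ)]
      apply Hf_pow hz3
      change q * q % 3 = 1 % 3
      have : q % 3 = 2 := by omega
      rw [Nat.mul_mod, this]) x
  have h2 : (m x) ^ (q * q) = m x := by
    rw [pow_mul]
    exact h1
  have hzne : m ζ ≠ 1 := by
    intro h
    have h3 : (3 : 𝓞 C ⧸ w.asIdeal) = 0 := by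
      have := congrArg m hζ
      rw [map_add, map_add, map_pow, map_one, map_zero, h] at this
      linear_combination this
    have h4 : ((3 : ℕ) : 𝓞 C ⧸ w.asIdeal) = 0 := by exact_mod_cast h3
    have h5 : q ∣ 3 := (CharP.cast_eq_zero_iff _ q 3).1 h4
    have h6 := Nat.le_of_dvd (by norm_num) h5
    interval_cases q <;> omega
  have hyx : (m x) ^ 3 = (m ζ) ^ i := by
    have := Ideal.Quotient.eq_zero_iff_mem.2 hmem
    rw [map_sub, map_pow, map_pow] at this
    exact (sub_eq_zero.1 this).symm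
  have hy3 : (m x) ^ 3 ^ 1 ≠ 1 := by
    rw [pow_one, hyx]
    rcases hi with rfl | rfl
    · rwa [pow_one]
    · intro h
      apply hzne
      calc m ζ = (m ζ) ^ 3 := by rw [pow_succ, h, one_mul]
        _ = 1 := hz3
  have hy9 : (m x) ^ 3 ^ 2 = 1 := by
    have : (3 : ℕ) ^ 2 = 3 * 3 := by norm_num
    rw [this, pow_mul, hyx, ← pow_mul, mul_comm, pow_mul, hz3, one_pow]
  haveI : Fact (Nat.Prime 3) := ⟨Nat.prime_three⟩
  have hord : orderOf (m x) = 3 ^ 2 := orderOf_eq_prime_pow hy3 hy9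
  have hne : m x ≠ 0 := by
    intro h
    rw [h] at hy9
    norm_num at hy9
  have hq0 : 0 < q * q := Nat.mul_pos hq.pos hq.pos
  have h4 : (m x) ^ (q * q - 1) = 1 := by
    have h5 : (m x) ^ (q * q - 1) * m x = 1 * m x := by
      rw [← pow_succ, Nat.sub_add_cancel hq0, h2, one_mul]
    exact mul_right_cancel₀ hne h5
  have h5 := orderOf_dvd_of_pow_eq_one h4
  rw [hord] at h5
  have h6 : q * q % 9 = 1 := by
    obtain ⟨c, hc⟩ := h5
    have : q * q = 9 * c + 1 := by omega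
    omega
  rw [Nat.mul_mod] at h6
  rcases h9 with h | h <;> rw [h] at h6 <;> omega

end H55T3
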