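import Pool.Agent.H55.T3.Df2
import Pool.Agent.H5.SW.E0

/-!
Block Z (Sinnott's theorem in characteristic three), definitions and parameters (helper46).
-/

set_option autoImplicit false

namespace H55T3

open Finset

/-- parameters: `q = 3 ^ s` is `1` modulo `p ^ e` exactly and modulo the prime to three part of `p - 1` -/
structure QD3 (p e s : ℕ) : Prop where
  e1 : 1 ≤ e
  s1 : 1 ≤ s
  dvd : p ^ e ∣ 3 ^ s - 1
  not_dvd : ¬ p ^ (e + 1) ∣ 3 ^ s - 1
  cop : ∀ r : ℕ, ¬ 3 ∣ r → r ∣ p - 1 → r ∣ 3 ^ s - 1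

theorem exists_QD3 {p : ℕ} [Fact p.Prime] (hp5 : 5 ≤ p) : ∃ e s : ℕ, QD3 p e s := by
  have hp : p.Prime := Fact.out
  have hp1 : 1 < p := hp.one_lt
  obtain ⟨k, r0, hr0, hk⟩ := Nat.exists_eq_pow_mul_and_not_dvd (n := p - 1) (by omega) 3 (by norm_num)
  have hr0pos : 0 < r0 := by
    rcases Nat.eq_zero_or_pos r0 with h | h
    · rw [h] at hr0; exact absurd (dvd_zero 3) hr0
    · exact h
  set s := Nat.totient (p * r0) with hs
  have hs1 : 1 ≤ s := Nat.totient_pos.mpr (by positivity)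
  have h3p : ¬ 3 ∣ p := fun h => by
    have := (Nat.prime_dvd_prime_iff_eq Nat.prime_three hp).mp h
    omega
  have hcop : Nat.Coprime 3 (p * r0) :=
    Nat.Coprime.mul_right ((Nat.Prime.coprime_iff_not_dvd Nat.prime_three).mpr h3p)
      ((Nat.Prime.coprime_iff_not_dvd Nat.prime_three).mpr hr0)
  have hmod : 3 ^ s ≡ 1 [MOD p * r0] := Nat.ModEq.pow_totient hcop
  have hdvd : p * r0 ∣ 3 ^ s - 1 := (Nat.modEq_iff_dvd' (Nat.one_le_pow _ _ (by norm_num))).mp hmod.symm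
  have h2s : 1 < 3 ^ s := Nat.one_lt_pow (by omega) (by norm_num)
  have hne : 3 ^ s - 1 ≠ 0 := by omega
  have hpd : p ∣ 3 ^ s - 1 := (dvd_mul_right p r0).trans hdvd
  refine ⟨padicValNat p (3 ^ s - 1), s, ?_, hs1, pow_padicValNat_dvd, pow_succ_padicValNat_not_dvd hne, ?_⟩
  · exact one_le_padicValNat_of_dvd hne hpd
  · intro r hr hrd
    rw [hk] at hrd
    have h3 : Nat.Coprime r (3 ^ k) :=
      (((Nat.Prime.coprime_iff_not_dvd Nat.prime_three).mpr hr).symm).pow_right k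
    have h4 : r ∣ r0 := h3.dvd_of_dvd_mul_left hrd
    exact (h4.trans (dvd_mul_left r0 p)).trans hdvd

lemma Fr3_inv {Ω : Type*} [Field Ω] {x : Ω} (hx : x ≠ 0) : Fr3 x⁻¹ = Fr3 x := by
  unfold Fr3
  by_cases h : 1 - x = 0
  · have h2 : 1 - x⁻¹ = 0 := by
      have : x = 1 := (sub_eq_zero.mp h).symm
      rw [this]; simp
    rw [h, h2]; simp
  · have h2 : 1 - x⁻¹ = -(1 - x) / x := by field_simp; ring
    rw [h2]
    field_simp

lemma three_cast_ne {p : ℕ} [Fact p.Prime] (hp5 : 5 ≤ p) (n : ℕ) (Ω : Type*) [Field Ω]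
    [CharP Ω 3] : ((p ^ n : ℕ) : Ω) ≠ 0 := by
  intro h
  have h1 : 3 ∣ p ^ n := (CharP.cast_eq_zero_iff Ω 3 _).mp h
  have h2 : 3 ∣ p := Nat.Prime.dvd_of_dvd_pow Nat.prime_three h1
  have := (Nat.prime_dvd_prime_iff_eq Nat.prime_three Fact.out).mp h2
  omega

end H55T3
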