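import Pool.Agent.H55.T3.Z0

/-!
ROW Z1 (averaging over Frobenius powers, characteristic three; adapted from H5/SW/S1).
-/

set_option autoImplicit false

namespace H55T3

open Finset

private lemma z1_geom (Q j : ℕ) : (Q + 1) ^ j = Q * (∑ i ∈ range j, (Q + 1) ^ i) + 1 := by
  induction j with
  | zero => simp
  | succ j ih =>
    rw [sum_range_succ]
    have h1 : (Q + 1) ^ (j + 1) = Q * (Q + 1) ^ j + (Q + 1) ^ j := by ring
    have h2 : Q * ((∑ x ∈ range j, (Q + 1) ^ x) + (Q + 1) ^ j) =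
        Q * (∑ x ∈ range j, (Q + 1) ^ x) + Q * (Q + 1) ^ j := by ring
    rw [h1, h2]
    linarith

private lemma z1_val {p q l : ℕ} [Fact p.Prime] (hp2 : p ≠ 2) (hq : 1 < q) (hd : p ∣ q - 1) (hl : l ≠ 0) :
    padicValNat p (∑ i ∈ range l, q ^ i) = padicValNat p l := by
  have hp : p.Prime := Fact.out
  have hodd : Odd p := hp.odd_of_ne_two hp2
  have hnd : ¬ p ∣ q := by
    intro h
    have h1 : p ∣ q - (q - 1) := Nat.dvd_sub h hd
    have h2 : q - (q - 1) = 1 := by omega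
    rw [h2] at h1
    exact hp.one_lt.ne' (Nat.dvd_one.1 h1)
  have h1 := padicValNat.pow_sub_pow (p := p) (x := q) (y := 1) hodd hq hd hnd hl
  rw [one_pow] at h1
  obtain ⟨Q, rfl⟩ : ∃ Q, q = Q + 1 := ⟨q - 1, by omega⟩
  have h2 := z1_geom Q l
  have h3 : (Q + 1) ^ l - 1 = Q * (∑ i ∈ range l, (Q + 1) ^ i) := by omega
  have h4 : Q + 1 - 1 = Q := by omega
  have hQ0 : Q ≠ 0 := by omega
  have hS0 : (∑ i ∈ range l, (Q + 1) ^ i) ≠ 0 := by
    intro h0
    rw [h0] at h2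
    have h5 : 1 < (Q + 1) ^ l := Nat.one_lt_pow hl hq
    omega
  rw [h3, h4, padicValNat.mul hQ0 hS0] at h1
  omega

private lemma z1_inj {p q m : ℕ} [Fact p.Prime] (hp2 : p ≠ 2) (hq : 1 < q) (hd : p ∣ q - 1) {i j : ℕ} (hij : i < j)
    (hj : j < p ^ m) (h : (∑ t ∈ range i, q ^ t) % p ^ m = (∑ t ∈ range j, q ^ t) % p ^ m) : False := by
  have hp : p.Prime := Fact.out
  have hnd : ¬ p ∣ q := by
    intro h
    have h1 : p ∣ q - (q - 1) := Nat.dvd_sub h hd
    have h2 : q - (q - 1) = 1 := by omega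
    rw [h2] at h1
    exact hp.one_lt.ne' (Nat.dvd_one.1 h1)
  obtain ⟨l, rfl⟩ : ∃ l, j = i + l := ⟨j - i, by omega⟩
  have hl : l ≠ 0 := by omega
  have e1 : (∑ t ∈ range (i + l), q ^ t) = (∑ t ∈ range i, q ^ t) + q ^ i * ∑ t ∈ range l, q ^ t := by
    rw [sum_range_add, mul_sum]
    congr 1
    refine sum_congr rfl fun t _ => ?_
    rw [pow_add]
  have h1 : p ^ m ∣ q ^ i * ∑ t ∈ range l, q ^ t := by
    have h2 : p ^ m ∣ (∑ t ∈ range (i + l), q ^ t) - (∑ t ∈ range i, q ^ t) :=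
      (Nat.modEq_iff_dvd' (by rw [e1]; exact Nat.le_add_right _ _)).1 h
    rw [e1, Nat.add_sub_cancel_left] at h2
    exact h2
  have h2 : p ^ m ∣ ∑ t ∈ range l, q ^ t := by
    refine Nat.Coprime.dvd_of_dvd_mul_left ?_ h1
    exact Nat.Coprime.pow _ _ ((Nat.Prime.coprime_iff_not_dvd hp).2 hnd)
  have hS0 : (∑ t ∈ range l, q ^ t) ≠ 0 := by
    intro h0
    have := Finset.sum_eq_zero_iff.1 h0 0 (mem_range.2 (by omega))
    simp at this
  have h3 := (padicValNat_dvd_iff_le hS0).1 h2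
  rw [z1_val hp2 hq hd hl] at h3
  have h4 := (padicValNat_dvd_iff_le hl).2 h3
  have := Nat.le_of_dvd (Nat.pos_of_ne_zero hl) h4
  omega

open Classical in
theorem av1_3 {Ω : Type*} [Field Ω] [CharP Ω 3] {p k e s : ℕ} [Fact p.Prime] (hp5 : 5 ≤ p) (hQ : QD3 p e s)
    (hek : e ≤ k) {y : Ω} (hy : y ^ ((p - 1) * p ^ k) = 1) :
    ∑ j ∈ range (p ^ (k + 1 - e)), y ^ ((3 ^ s) ^ j) =
      if y ^ (3 ^ s) = y then ((p ^ (k + 1 - e) : ℕ) : Ω) * y else 0 := by
  have hp : p.Prime := Fact.out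
  have hp2 : p ≠ 2 := by omega
  have hodd : Odd p := hp.odd_of_ne_two hp2
  have hq : 1 < 3 ^ s := Nat.one_lt_pow (by have := hQ.s1; omega) (by norm_num)
  split_ifs with h
  · have h1 : ∀ j : ℕ, y ^ ((3 ^ s) ^ j) = y := by
      intro j
      induction j with
      | zero => simp
      | succ j ih => rw [pow_succ, pow_mul, ih, h]
    rw [sum_congr rfl fun j _ => h1 j, sum_const, card_range, nsmul_eq_mul]
  · -- the other case
    have hy0 : y ≠ 0 := by
      rintro rfl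
      have h1 : (p - 1) * p ^ k ≠ 0 :=
        Nat.mul_ne_zero (by have := hp.one_lt; omega) (pow_ne_zero _ hp.ne_zero)
      rw [zero_pow h1] at hy
      exact zero_ne_one hy
    obtain ⟨η, hη⟩ : ∃ η : Ω, η = y ^ (3 ^ s - 1) := ⟨_, rfl⟩
    have hη1 : η ≠ 1 := by
      intro h1
      apply h
      have h2 : 3 ^ s = (3 ^ s - 1) + 1 := by omega
      rw [h2, pow_succ, ← hη, h1, one_mul]
    -- the order of `η`
    obtain ⟨a, r, hr, har⟩ := Nat.exists_eq_pow_mul_and_not_dvd (n := p - 1)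
      (by have := hp.one_lt; omega) 3 (by norm_num)
    have hyr : y ^ (r * p ^ k) = 1 := by
      rw [har, mul_assoc] at hy
      have : ExpChar Ω 3 := ExpChar.prime Nat.prime_three
      exact (ExpChar.pow_prime_pow_mul_eq_one_iff 3 a (r * p ^ k) y).1 hy
    have hrd : r ∣ 3 ^ s - 1 := hQ.cop r hr ⟨3 ^ a, by rw [har, mul_comm]⟩
    have hcop : Nat.Coprime r (p ^ e) := by
      refine Nat.Coprime.pow_right _ ?_
      rw [Nat.coprime_comm, Nat.Prime.coprime_iff_not_dvd hp]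
      intro h1
      have h2 : r ≤ p - 1 := Nat.le_of_dvd (by have := hp.one_lt; omega) ⟨3 ^ a, by rw [har, mul_comm]⟩
      have hr0 : 0 < r := by
        rcases Nat.eq_zero_or_pos r with h0 | h0
        · rw [h0] at hr; exact absurd (dvd_zero 3) hr
        · exact h0
      have h3 := Nat.le_of_dvd hr0 h1
      have := hp.one_lt
      omega
    have hdv : r * p ^ e ∣ 3 ^ s - 1 := Nat.Coprime.mul_dvd_of_dvd_of_dvd hcop hrd hQ.dvd
    have hdv2 : r * p ^ k ∣ (3 ^ s - 1) * p ^ (k + 1 - e) := by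
      have h1 : p ^ k ∣ p ^ e * p ^ (k + 1 - e) := by
        rw [← pow_add]
        exact pow_dvd_pow p (by omega)
      calc r * p ^ k ∣ r * (p ^ e * p ^ (k + 1 - e)) := Nat.mul_dvd_mul_left r h1
        _ = (r * p ^ e) * p ^ (k + 1 - e) := by ring
        _ ∣ (3 ^ s - 1) * p ^ (k + 1 - e) := Nat.mul_dvd_mul_right hdv _
    have hηJ : η ^ (p ^ (k + 1 - e)) = 1 := by
      rw [hη, ← pow_mul]
      obtain ⟨c, hc⟩ := hdv2
      rw [hc, pow_mul, hyr, one_pow]
    have hpd : p ∣ 3 ^ s - 1 := (dvd_pow_self p (by have := hQ.e1; omega)).trans hQ.dvd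
    -- rewrite the sum
    obtain ⟨J, hJ⟩ : ∃ J, J = p ^ (k + 1 - e) := ⟨_, rfl⟩
    rw [← hJ] at hηJ ⊢
    have hJpos : 0 < J := by rw [hJ]; exact pow_pos hp.pos _
    obtain ⟨g, hg⟩ : ∃ g : ℕ → ℕ, g = fun j => (∑ t ∈ range j, (3 ^ s) ^ t) % J := ⟨_, rfl⟩
    have h1 : ∀ j : ℕ, y ^ ((3 ^ s) ^ j) = y * η ^ g j := by
      intro j
      obtain ⟨Q, hQ'⟩ : ∃ Q, 3 ^ s = Q + 1 := ⟨3 ^ s - 1, by omega⟩
      have e1 := z1_geom Q j
      have e2 : 3 ^ s - 1 = Q := by omega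
      have e3 : η ^ g j = η ^ (∑ t ∈ range j, (3 ^ s) ^ t) := by
        rw [hg]
        conv_rhs => rw [← Nat.mod_add_div (∑ t ∈ range j, (3 ^ s) ^ t) J]
        rw [pow_add, pow_mul, hηJ, one_pow, mul_one]
      rw [e3, hη, e2, hQ', ← pow_mul y Q]
      conv_lhs => rw [e1]
      rw [pow_succ, mul_comm]
    rw [sum_congr rfl fun j _ => h1 j, ← mul_sum]
    have hinj : Set.InjOn g (range J : Set ℕ) := by
      intro i hi j hj hij
      rw [mem_coe, mem_range] at hi hj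
      rw [hg, hJ] at hij
      rcases lt_trichotomy i j with h2 | h2 | h2
      · exact (z1_inj hp2 hq hpd h2 (hJ ▸ hj) hij).elim
      · exact h2
      · exact (z1_inj hp2 hq hpd h2 (hJ ▸ hi) hij.symm).elim
    have himg : image g (range J) = range J := by
      apply eq_of_subset_of_card_le
      · intro t ht
        obtain ⟨j, -, rfl⟩ := mem_image.1 ht
        rw [mem_range, hg]
        exact Nat.mod_lt _ hJpos
      · rw [card_image_of_injOn hinj]
    have hs : ∑ j ∈ range J, η ^ g j = ∑ t ∈ range J, η ^ t := by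
      conv_rhs => rw [← himg]
      rw [sum_image hinj]
    have hz : (∑ t ∈ range J, η ^ t) * (η - 1) = 0 := by
      rw [geom_sum_mul, hηJ, sub_self]
    rw [hs, (mul_eq_zero.1 hz).resolve_right (sub_ne_zero.2 hη1), mul_zero]

end H55T3
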