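import Pool.Agent.H55.T3.Z0

/-!
ROW Z4 (the inner sum, any characteristic).  PROOF. `1 - X^P = (1 - Y) ∑_{j<P} Y^j` for `Y = ω^t X`, so
`Fr3 (ω^t X) = ∑_{i,j<P} Y^(i+j+1) / (1 - X^P)^2`; the sum over `t` leaves the `i, j` with `P ∣ c + i + j + 1`, `ρ = ω^c`.
-/

set_option autoImplicit false

namespace H55T3

open Finset

theorem Z4_geo {Ω : Type*} [Field Ω] {P : ℕ} {Y : Ω} (h : Y ^ P ≠ 1) :
    Fr3 Y = (∑ i ∈ range P, ∑ j ∈ range P, Y ^ (i + j + 1)) / (1 - Y ^ P) ^ 2 := by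
  have h1 : (∑ j ∈ range P, Y ^ j) * (1 - Y) = 1 - Y ^ P := geom_sum_mul_neg Y P
  have hP : 1 - Y ^ P ≠ 0 := fun h0 => h (sub_eq_zero.1 h0).symm
  have hY : (1 - Y) ≠ 0 := by
    intro h0
    rw [h0, mul_zero] at h1
    exact hP h1.symm
  have hs : (∑ j ∈ range P, Y ^ j) ≠ 0 := by
    intro h0
    rw [h0, zero_mul] at h1
    exact hP h1.symm
  have h2 : ∑ i ∈ range P, ∑ j ∈ range P, Y ^ (i + j + 1) = Y * (∑ j ∈ range P, Y ^ j) ^ 2 := by
    rw [pow_two, sum_mul_sum, mul_sum]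
    refine sum_congr rfl fun i _ => ?_
    rw [mul_sum]
    refine sum_congr rfl fun j _ => ?_
    ring
  rw [h2, ← h1]
  unfold Fr3
  field_simp

theorem Z4_sum {Ω : Type*} [Field Ω] {P : ℕ} {ω : Ω} (hω : IsPrimitiveRoot ω P) (i : ℕ) :
    ∑ t ∈ range P, (ω ^ i) ^ t = if P ∣ i then (P : Ω) else 0 := by
  split_ifs with h
  · have h1 : ω ^ i = 1 := (hω.pow_eq_one_iff_dvd i).2 h
    simp [h1]
  · have h1 : ω ^ i ≠ 1 := fun h2 => h ((hω.pow_eq_one_iff_dvd i).1 h2)
    have h2 := geom_sum_mul (ω ^ i) P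
    rw [← pow_mul, mul_comm i P, pow_mul, hω.pow_eq_one, one_pow, sub_self] at h2
    exact (mul_eq_zero.1 h2).resolve_right (sub_ne_zero.2 h1)

theorem mono_sum3e {Ω : Type*} [Field Ω] {P : ℕ} {ω : Ω} (hω : IsPrimitiveRoot ω P)
    {c : ℕ} (hc : c < P) {X : Ω} (hX : X ^ P ≠ 1) :
      ∑ t ∈ range P, (ω ^ c) ^ t * Fr3 (ω ^ t * X) =
        (P : Ω) * (X ^ (P - c) * (((P - c : ℕ) : Ω) + ((P - (P - c) : ℕ) : Ω) * X ^ P)) / (1 - X ^ P) ^ 2 := by
  obtain ⟨r, hr⟩ : ∃ r, r = P - c := ⟨_, rfl⟩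
  rw [← hr]
  have h1 : ∀ t ∈ range P, (ω ^ c) ^ t * Fr3 (ω ^ t * X) =
      (∑ i ∈ range P, ∑ j ∈ range P, X ^ (i + j + 1) * (ω ^ (c + i + j + 1)) ^ t) / (1 - X ^ P) ^ 2 := by
    intro t _
    have hYP : (ω ^ t * X) ^ P = X ^ P := by
      rw [mul_pow, ← pow_mul, mul_comm t P, pow_mul, hω.pow_eq_one, one_pow, one_mul]
    rw [Z4_geo (by rw [hYP]; exact hX), hYP, ← mul_div_assoc, mul_sum]
    congr 1
    refine sum_congr rfl fun i _ => ?_
    rw [mul_sum]
    refine sum_congr rfl fun j _ => ?_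
    ring
  rw [sum_congr rfl h1, ← sum_div, sum_comm]
  congr 1
  have h2 : ∀ i ∈ range P, ∑ t ∈ range P, ∑ j ∈ range P, X ^ (i + j + 1) * (ω ^ (c + i + j + 1)) ^ t =
      if i < r then (P : Ω) * X ^ r else (P : Ω) * X ^ (r + P) := by
    intro i hi
    rw [mem_range] at hi
    rw [sum_comm]
    have h3 : ∀ j ∈ range P, ∑ t ∈ range P, X ^ (i + j + 1) * (ω ^ (c + i + j + 1)) ^ t =
        X ^ (i + j + 1) * (if P ∣ c + i + j + 1 then (P : Ω) else 0) := by
      intro j _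
      rw [← mul_sum, Z4_sum hω]
    rw [sum_congr rfl h3]
    by_cases hir : i < r
    · rw [if_pos hir, sum_eq_single (r - 1 - i)]
      · have e1 : c + i + (r - 1 - i) + 1 = P := by omega
        have e2 : i + (r - 1 - i) + 1 = r := by omega
        rw [e1, e2, if_pos (dvd_refl P), mul_comm]
      · intro j hj hne
        rw [mem_range] at hj
        rw [if_neg, mul_zero]
        rintro ⟨d, hd⟩
        have hd1 : 0 < d := by
          rcases Nat.eq_zero_or_pos d with h0 | h0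
          · rw [h0, mul_zero] at hd; omega
          · exact h0
        have hd2 : d < 2 := by
          by_contra hcon
          have : P * 2 ≤ P * d := Nat.mul_le_mul_left P (by omega)
          omega
        have hd3 : d = 1 := by omega
        rw [hd3, mul_one] at hd
        omega
      · intro h
        exact absurd (mem_range.mpr (by omega)) h
    · rw [if_neg hir, sum_eq_single (r + P - 1 - i)]
      · have e1 : c + i + (r + P - 1 - i) + 1 = P * 2 := by omega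
        have e2 : i + (r + P - 1 - i) + 1 = r + P := by omega
        rw [e1, e2, if_pos (dvd_mul_right P 2), mul_comm]
      · intro j hj hne
        rw [mem_range] at hj
        rw [if_neg, mul_zero]
        rintro ⟨d, hd⟩
        have hd1 : 1 < d := by
          by_contra hcon
          have : P * d ≤ P * 1 := Nat.mul_le_mul_left P (by omega)
          omega
        have hd2 : d < 3 := by
          by_contra hcon
          have : P * 3 ≤ P * d := Nat.mul_le_mul_left P (by omega)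
          omega
        have hd3 : d = 2 := by omega
        rw [hd3] at hd
        omega
      · intro h
        exact absurd (mem_range.mpr (by omega)) h
  rw [sum_congr rfl h2]
  obtain ⟨d, hd⟩ : ∃ d, P = r + d := ⟨P - r, by omega⟩
  have h4 : ∑ i ∈ range P, (if i < r then (P : Ω) * X ^ r else (P : Ω) * X ^ (r + P)) =
      ∑ i ∈ range (r + d), (if i < r then (P : Ω) * X ^ r else (P : Ω) * X ^ (r + P)) := by
    rw [← hd]
  rw [h4, sum_range_add]
  have h5 : ∑ i ∈ range r, (if i < r then (P : Ω) * X ^ r else (P : Ω) * X ^ (r + P)) =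
      (r : Ω) * ((P : Ω) * X ^ r) := by
    rw [sum_congr rfl (fun i hi => if_pos (mem_range.1 hi)), sum_const, card_range, nsmul_eq_mul]
  have h6 : ∑ i ∈ range d, (if r + i < r then (P : Ω) * X ^ r else (P : Ω) * X ^ (r + P)) =
      (d : Ω) * ((P : Ω) * X ^ (r + P)) := by
    rw [sum_congr rfl (fun i hi => if_neg (by omega)), sum_const, card_range, nsmul_eq_mul]
  have h7 : P - r = d := by omega
  rw [h5, h6, h7]
  ring

theorem mono_sum3 {Ω : Type*} [Field Ω] {P : ℕ} (hP0 : 0 < P) {ω ρ : Ω} (hω : IsPrimitiveRoot ω P)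
    (hρ : ρ ^ P = 1) : ∃ r : ℕ, 1 ≤ r ∧ r ≤ P ∧ ∀ X : Ω, X ^ P ≠ 1 →
      ∑ t ∈ range P, ρ ^ t * Fr3 (ω ^ t * X) =
        (P : Ω) * (X ^ r * ((r : Ω) + ((P - r : ℕ) : Ω) * X ^ P)) / (1 - X ^ P) ^ 2 := by
  have : NeZero P := ⟨hP0.ne'⟩
  obtain ⟨c, hc, rfl⟩ := hω.eq_pow_of_pow_eq_one hρ
  exact ⟨P - c, by omega, by omega, fun X hX => mono_sum3e hω hc hX⟩

theorem fib_sum3 {Ω : Type*} [Field Ω] {P : ℕ} (hP0 : 0 < P) {η X : Ω} (hη : IsPrimitiveRoot η P)
    (hX : X ^ P ≠ 1) : ∑ j ∈ range P, Fr3 (η ^ j * X) = (P : Ω) ^ 2 * Fr3 (X ^ P) := by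
  have h := mono_sum3e hη hP0 hX
  simp only [pow_zero, one_pow, one_mul, Nat.sub_zero, Nat.sub_self, Nat.cast_zero, zero_mul, add_zero] at h
  rw [h]
  unfold Fr3
  ring

end H55T3
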